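import Pool.Agent.Lib.ECM.HBlue
import Pool.Agent.Lib.RC.Root53

/-! Simple roots move analytically. -/

open Polynomial Filter Topology

namespace Pool.Agent.Lib.ECM

namespace XROOTS

open Pool.Agent.RC.Spread

theorem map_eq (P : ℚ[X][X]) (hP : P.Monic) (t : ℂ) :
    P.map (aeval t).toRingHom = mpP fun k : Fin P.natDegree ↦ aeval t (P.coeff k) := by
  conv_lhs => rw [hP.as_sum]
  rw [mpP, Finset.sum_range]
  simp [Polynomial.map_sum]

end XROOTS

open XROOTS Pool.Agent.RC.Spread in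
theorem a_ROOTS : St_ROOTS := by
  intro P hP t0 hn
  set c : ℂ → Fin P.natDegree → ℂ := fun t k ↦ aeval t (P.coeff k) with hc
  have hm : ∀ t, (P.map (aeval t : ℚ[X] →ₐ[ℚ] ℂ).toRingHom).Monic := fun t ↦ hP.map _
  have hcard : ∀ t, (rts P t).card = P.natDegree := fun t ↦ by
    rw [rts, ← (IsAlgClosed.splits _).natDegree_eq_card_roots, hP.natDegree_map]
  have hmem : ∀ t s, s ∈ rts P t ↔ mp (c t) s = 0 := fun t s ↦ by
    rw [rts, mem_roots (hm t).ne_zero, IsRoot, map_eq P hP, eval_mpP]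
  have han : AnalyticAt ℂ c t0 := by
    refine analyticAt_pi_iff.2 fun k ↦ ?_
    have : (fun t : ℂ ↦ aeval t (P.coeff k)) =
        fun t ↦ ((P.coeff k).map (algebraMap ℚ ℂ)).eval t := by
      funext t; rw [eval_map_algebraMap]
    change AnalyticAt ℂ (fun t : ℂ ↦ aeval t (P.coeff k)) t0
    rw [this]
    exact (((P.coeff k).map (algebraMap ℚ ℂ)).differentiable.analyticAt t0)
  classical
  have hf : (rts P t0).toFinset.card = P.natDegree := by
    rw [Multiset.toFinset_card_of_nodup hn, hcard]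
  let e := ((rts P t0).toFinset.equivFinOfCardEq hf).symm
  have hsep : (P.map (aeval t0 : ℚ[X] →ₐ[ℚ] ℂ).toRingHom).Separable :=
    (nodup_roots_iff_of_splits (hm t0).ne_zero (IsAlgClosed.splits _)).1 hn
  have key : ∀ i, ∃ r : ℂ → ℂ, AnalyticAt ℂ r t0 ∧ r t0 = (e i).1 ∧
      ∀ᶠ z in 𝓝 t0, mp (c z) (r z) = 0 := fun i ↦ by
    have h0 : mp (c t0) (e i).1 = 0 := (hmem _ _).1 (Multiset.mem_toFinset.1 (e i).2)
    obtain ⟨r, a, b, d, -⟩ := root_local c t0 han (e i).1 h0 (by
      have := hsep.aeval_derivative_ne_zero (x := (e i).1) (by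
        rw [coe_aeval_eq_eval, map_eq P hP, eval_mpP]; exact h0)
      rwa [coe_aeval_eq_eval, map_eq P hP] at this)
    exact ⟨r, a, b, d⟩
  choose x h1 h2 h3 using key
  refine ⟨x, h1, ?_⟩
  have hne : ∀ᶠ t in 𝓝 t0, ∀ i j, i ≠ j → x i t ≠ x j t := by
    refine eventually_all.2 fun i ↦ eventually_all.2 fun j ↦ ?_
    by_cases h : i = j
    · exact .of_forall fun _ h' ↦ absurd h h'
    · have : x i t0 ≠ x j t0 := by
        rw [h2, h2]; exact fun h' ↦ h (e.injective (Subtype.ext h'))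
      exact ((((h1 i).sub (h1 j)).continuousAt).eventually_ne (sub_ne_zero.2 this)).mono
        fun _ a _ ↦ sub_ne_zero.1 a
  filter_upwards [hne, eventually_all.2 h3] with t a b
  symm
  refine Multiset.eq_of_le_of_card_le ?_ (by simp [hcard])
  refine (Multiset.le_iff_subset ?_).2 fun s hs ↦ ?_
  · exact Multiset.Nodup.map (fun i j h ↦ by_contra fun h' ↦ a i j h' h) Finset.univ.nodup
  · obtain ⟨i, -, rfl⟩ := Multiset.mem_map.1 hs
    exact (hmem _ _).2 (b i)

end Pool.Agent.Lib.ECM
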