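import Pool.Agent.Lib.ECM.B_HT2

/-! Ampleness: the gauge height dominates the height of the base point (MP_0704bf_ag). -/

open Polynomial Filter Topology

namespace Pool.Agent.Lib.ECM

namespace T26

theorem alg_ev {ι : Type} {s : ι → ℂ} (hs : AlgT s) (f : MvPolynomial ι ℚ) :
    IsAlgebraic ℚ (ev s f) := by
  induction f using MvPolynomial.induction_on with
  | C a =>
    rw [ev, MvPolynomial.aeval_C]
    exact isAlgebraic_algebraMap a
  | add p q hp hq =>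
    rw [ev, map_add]
    exact hp.add hq
  | mul_X p i hp =>
    rw [ev, map_mul, MvPolynomial.aeval_X]
    exact hp.mul (hs i)

theorem alg_aeval {t : ℂ} (ht : IsAlgebraic ℚ t) (d : ℚ[X]) : IsAlgebraic ℚ (aeval t d) := by
  induction d using Polynomial.induction_on' with
  | add p q hp hq =>
    rw [map_add]
    exact hp.add hq
  | monomial n a =>
    rw [aeval_monomial]
    exact (isAlgebraic_algebraMap a).mul (ht.pow n)

theorem e2_C (d : ℚ[X]) (t x : ℂ) : e2 (C d) t x = aeval t d := by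
  simp [e2]

theorem e2_lin (a b c : ℚ[X][X]) (d : ℚ[X]) (t x : ℂ) :
    e2 (a * C d + b * c) t x = e2 a t x * aeval t d + e2 b t x * e2 c t x := by
  simp [e2]

/-- the matrix with the two columns exchanged -/
def sw (D : M2) : M2 := Matrix.of fun i j ↦ D i j.rev

theorem sw_sw (D : M2) : sw (sw D) = D := by
  ext i j
  simp [sw]

theorem sw_mulVec (D : M2) (l : V2) : (sw D).mulVec ![l 1, l 0] = D.mulVec l := by
  ext i
  simp [sw, Matrix.mulVec, dotProduct, Fin.sum_univ_two, Fin.rev, add_comm]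

theorem sw_det (D : M2) : (sw D).det = -D.det := by
  simp only [sw, Matrix.det_fin_two, Matrix.of_apply, show (0 : Fin 2).rev = 1 from rfl,
    show (1 : Fin 2).rev = 0 from rfl]
  ring

theorem swap {ι I J : Type} [Fintype J] {Z : Set (ι → ℂ)} {ψ : I → MvPolynomial ι ℚ}
    {A B : J → MvPolynomial ι ℚ} {Rp : (ι → ℂ) → T3 → M2 → Prop} (G : Gauge Z ψ A B Rp) :
    Gauge Z ψ B A fun s τ D ↦ Rp s τ (sw D) where
  cl := G.cl
  dim := G.dim
  ne := G.ne
  per s τ D h := ⟨(G.per _ _ _ h).1, fun e ↦ (G.per _ _ _ h).2 (by rw [sw_det, e, neg_zero])⟩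
  uniq s τ D τ' D' h h' l := by
    rw [← sw_mulVec D, ← sw_mulVec D']
    exact G.uniq _ _ _ _ _ h h' _
  bd := by
    obtain ⟨C, hC⟩ := G.bd
    refine ⟨C, fun s hs τ D h l i ↦ ?_⟩
    have := hC s hs τ _ h ![l 1, l 0] i
    rw [sw_mulVec] at this
    simpa only [Matrix.cons_val_zero, Matrix.cons_val_one, add_comm] using this
  lift φ u ha hz := by
    obtain ⟨τ, D, h1, h2, h3⟩ := G.lift φ u ha hz
    exact ⟨τ, fun z ↦ sw (D z), h1, fun i j ↦ h2 i j.rev, by simpa only [sw_sw] using h3⟩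
  mov φ u ha hz hn τ D h1 h2 := G.mov φ u ha hz hn τ (fun z ↦ sw (D z)) h1 h2

theorem clr (hC : St_CLR) {ι J : Type} (d : ℚ[X]) (σ : ι → ℚ[X][X]) {e : ℕ}
    {f : J → MvPolynomial ι ℚ} (h : ∀ j, (f j).totalDegree ≤ e) : ∃ g, Clr d σ e f g := by
  choose g hg using fun j ↦ hC ι d σ (f j) e (h j)
  exact ⟨g, fun j t x hd ↦ hg j ℂ t x hd⟩

theorem coord (h3 : St_HT3) {ι : Type} [Fintype ι] {P : ℚ[X][X]} (hP : P.Monic) (d : ℚ[X])
    (σ : ι → ℚ[X][X]) : ∃ K : ℝ, 0 ≤ K ∧ ∀ t, IsAlgebraic ℚ t → aeval t d ≠ 0 → ∀ x ∈ rts P t,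
      ∀ i, h1 (e2 (σ i) t x / aeval t d) ≤ K * h1 t + K := by
  obtain ⟨C, hC⟩ := h3.2.2.2.1 P hP
  obtain ⟨E, E0, hE⟩ := h3.2.2.2.2.2 (Option ι) fun o ↦ o.elim (Polynomial.C d) σ
  refine ⟨E * (1 + |C|), by positivity, fun t ht' hd x hx i ↦ ?_⟩
  obtain ⟨ax, hx⟩ := hC t ht' x hx
  obtain ⟨aT, hT⟩ := hE t x ht' ax
  have ad := alg_aeval ht' d
  have a1 : AlgT ![1, e2 (σ i) t x / aeval t d] :=
    Fin.forall_fin_two.2 ⟨isAlgebraic_one, (aT (some i)).mul ad.inv⟩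
  have e : (fun j ↦ aeval t d * ![1, e2 (σ i) t x / aeval t d] j) = fun j : Fin 2 ↦
      e2 ((![none, some i] j).elim (Polynomial.C d) σ) t x := by
    refine funext (Fin.forall_fin_two.2 ⟨?_, ?_⟩)
    · exact (mul_one _).trans (e2_C d t x).symm
    · exact mul_div_cancel₀ _ hd
  have h2 := ht_comp (![none, some i] : Fin 2 → Option ι) aT
  rw [← e, ht_smul a1 ad hd] at h2
  have p := h1_nonneg t
  have q : C * h1 t ≤ |C| * h1 t := mul_le_mul_of_nonneg_right (le_abs_self C) p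
  have r := mul_le_mul_of_nonneg_left
    (show h1 t + h1 x ≤ (1 + |C|) * h1 t + |C| by linarith [le_abs_self C]) E0
  unfold h1 at *
  linarith

theorem half (h3 : St_HT3) (hGP : St_GP) (hC : St_CLR) (hG : St_GEN) (hP : St_POS)
    (hL1 : St_LOW1) (hL2 : St_LOW2) (hU : St_UP) {ι I J : Type} [Fintype ι] [Fintype I]
    [Fintype J] {Z : Set (ι → ℂ)} {ψ : I → MvPolynomial ι ℚ} {A B : J → MvPolynomial ι ℚ}
    {Rp : (ι → ℂ) → T3 → M2 → Prop} (G : Gauge Z ψ A B Rp) :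
    ∃ C : ℝ, 0 ≤ C ∧ ∀ s ∈ Z, ∀ w : ℂ, AlgT s → IsAlgebraic ℚ w → ∀ i,
      h1 (s i) ≤ C * max 0 (ht (fun j ↦ ev s (A j) + ev s (B j) * w) -
        ht (fun i ↦ ev s (ψ i))) + C := by
  by_contra hcon
  have hcon' : ∀ n : ℕ, ∃ s ∈ Z, ∃ w : ℂ, AlgT s ∧ IsAlgebraic ℚ w ∧ ∃ i,
      n * max 0 (ht (fun j ↦ ev s (A j) + ev s (B j) * w) - ht (fun i ↦ ev s (ψ i))) + n <
        h1 (s i) := by
    intro n
    by_contra hn
    refine hcon ⟨n, n.cast_nonneg, fun s hs w as aw i ↦ ?_⟩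
    by_contra hlt
    exact hn ⟨s, hs, w, as, aw, i, not_le.1 hlt⟩
  choose s hs w as aw i hi using hcon'
  have big : ∀ K : ℝ, ∀ᶠ n : ℕ in (hyperfilter ℕ : Filter ℕ), K ≤ n := fun K ↦
    (Nat.hyperfilter_le_atTop) (tendsto_natCast_atTop_atTop.eventually_ge_atTop K)
  have hne : ∀ p, ∀ᶠ n in (hyperfilter ℕ : Filter ℕ), s n ≠ p := by
    intro p
    filter_upwards [big (∑ k, h1 (p k))] with n hn e
    have h1' := Finset.single_le_sum (f := fun k ↦ h1 (p k)) (fun k _ ↦ h1_nonneg _)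
      (Finset.mem_univ (i n))
    have h2 := hi n
    have h4 := mul_nonneg (n.cast_nonneg (α := ℝ)) (le_max_left 0
      (ht (fun j ↦ ev (s n) (A j) + ev (s n) (B j) * w n) - ht (fun i ↦ ev (s n) (ψ i))))
    have h5 : h1 (s n (i n)) = h1 (p (i n)) := by rw [e]
    linarith
  obtain ⟨T, F, hF, hT, hT'⟩ := G.cl
  obtain ⟨P, d, σ, i0, S, x, M, hS, hx, hw⟩ :=
    hG ι Z T F hF hT hT' G.dim (hyperfilter ℕ) s w hs hne
  have off : ∀ S' : Finset ℂ, ∀ᶠ n in (hyperfilter ℕ : Filter ℕ), s n i0 ∉ S' := by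
    intro S'
    filter_upwards [(eventually_all_finset S').2 fun p _ ↦ hS p] with n hn h using hn _ h rfl
  obtain ⟨e, e1, e2', e3⟩ : ∃ e : ℕ, (∀ k, (ψ k).totalDegree ≤ e) ∧ (∀ k, (A k).totalDegree ≤ e) ∧
      ∀ k, (B k).totalDegree ≤ e := by
    refine ⟨∑ k, (ψ k).totalDegree + ∑ k, (A k).totalDegree + ∑ k, (B k).totalDegree,
      fun k ↦ ?_, fun k ↦ ?_, fun k ↦ ?_⟩
    · have := Finset.single_le_sum (f := fun k ↦ (ψ k).totalDegree) (fun _ _ ↦ Nat.zero_le _)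
        (Finset.mem_univ k)
      omega
    · have := Finset.single_le_sum (f := fun k ↦ (A k).totalDegree) (fun _ _ ↦ Nat.zero_le _)
        (Finset.mem_univ k)
      omega
    · have := Finset.single_le_sum (f := fun k ↦ (B k).totalDegree) (fun _ _ ↦ Nat.zero_le _)
        (Finset.mem_univ k)
      omega
  obtain ⟨ψ', cψ⟩ := clr hC d σ e1
  obtain ⟨A', cA⟩ := clr hC d σ e2'
  obtain ⟨B', cB⟩ := clr hC d σ e3
  obtain ⟨m, y, gy⟩ := hGP J P.natDegree
  obtain ⟨m', y', gy'⟩ := hGP I P.natDegree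
  obtain ⟨n1, n2, l2, l1⟩ := hP ι I J _ _ Z ψ A B Rp P d σ i0 S e ψ' A' B' y y' G M cψ cA cB gy gy'
  have N0 : (0 : ℝ) < P.natDegree := Nat.cast_pos.2 (M.mo.natDegree_pos.2 M.irr.ne_one)
  obtain ⟨ε, ε0, hε⟩ : ∃ ε : ℝ, 0 < ε ∧ ε = 1 / (8 * P.natDegree) := ⟨_, by positivity, rfl⟩
  have pt : ∀ᶠ n in (hyperfilter ℕ : Filter ℕ), aeval (s n i0) d ≠ 0 ∧
      (fun k ↦ e2 (σ k) (s n i0) (x n) / aeval (s n i0) d) = s n := by
    filter_upwards [hx, off S] with n h1 h2 using ⟨M.d0 _ h2, funext fun k ↦ (h1.2 k).symm⟩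
  have aH : ∀ n, AlgT fun j ↦ ev (s n) (A j) + ev (s n) (B j) * w n := fun n j ↦
    (alg_ev (as n) _).add ((alg_ev (as n) _).mul (aw n))
  obtain ⟨C1, S1, up⟩ := hU P I _ y' ψ' M.mo M.irr gy' n1 ε ε0
  have low : ∃ C2 : ℝ, ∀ᶠ n in (hyperfilter ℕ : Filter ℕ),
      (dl (nm1 P y' ψ') / P.natDegree + 3 * ε) * h1 (s n i0) ≤
        ht (fun j ↦ ev (s n) (A j) + ev (s n) (B j) * w n) + C2 := by
    rcases hw with ⟨ω, hw⟩ | hw
    · obtain ⟨C2, S2, lo⟩ := hL1 P J _ y _ M.mo M.irr (l1 ω).1 ε ε0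
      refine ⟨C2, ?_⟩
      filter_upwards [hx, pt, hw, off S2] with n h1 h2 h4 h5
      have lo := lo _ h5 (as n i0) _ h1.1
      have e : (fun j ↦ e2 (A' j * C d + B' j * ω) (s n i0) (x n)) = fun j ↦
          aeval (s n i0) d ^ (e + 1) * (ev (s n) (A j) + ev (s n) (B j) * w n) := by
        funext j
        rw [e2_lin, cA j _ _ h2.1, cB j _ _ h2.1, h2.2, h4]
        have := h2.1
        field_simp
        ring
      rw [e, ht_smul (aH n) ((alg_aeval (as n i0) d).pow _) (pow_ne_zero _ h2.1)] at lo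
      refine le_trans (mul_le_mul_of_nonneg_right ?_ (h1_nonneg _)) lo
      have l : (dl (nm1 P y' ψ') : ℝ) + 1 ≤ dl (nm1 P y fun j ↦ A' j * C d + B' j * ω) := by
        exact_mod_cast (l1 ω).2
      have := div_le_div_of_nonneg_right l N0.le
      have e8 : (1 : ℝ) / P.natDegree = 8 * ε := by
        rw [hε]
        field_simp
      rw [add_div, e8] at this
      linarith
    · obtain ⟨C2, M', F', hF', lo⟩ := hL2 P J _ y A' B' M.mo M.irr n2 ε ε0
      refine ⟨C2, ?_⟩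
      filter_upwards [hx, pt, hw M' F' hF'] with n h1 h2 h4
      have lo := lo _ (as n i0) _ h1.1 _ (aw n) h4
      have e : (fun j ↦ e2 (A' j) (s n i0) (x n) + e2 (B' j) (s n i0) (x n) * w n) = fun j ↦
          aeval (s n i0) d ^ e * (ev (s n) (A j) + ev (s n) (B j) * w n) := by
        funext j
        rw [cA j _ _ h2.1, cB j _ _ h2.1, h2.2]
        ring
      rw [e, ht_smul (aH n) ((alg_aeval (as n i0) d).pow _) (pow_ne_zero _ h2.1)] at lo
      refine le_trans (mul_le_mul_of_nonneg_right ?_ (h1_nonneg _)) lo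
      have l : 2 * (dl (nm1 P y' ψ') : ℝ) + 1 ≤ dl (nm2 P y A' B') := by exact_mod_cast l2
      have := div_le_div_of_nonneg_right l (by positivity : (0 : ℝ) ≤ 2 * P.natDegree)
      have e8 : (2 * (dl (nm1 P y' ψ') : ℝ) + 1) / (2 * P.natDegree) =
          dl (nm1 P y' ψ') / P.natDegree + 4 * ε := by
        rw [hε]
        field_simp
        ring
      linarith
  obtain ⟨C2, low⟩ := low
  obtain ⟨K, K0, hK⟩ := coord h3 M.mo d σ
  obtain ⟨n, ⟨h1', h2, h4, h5⟩, b1, b2⟩ := (((hx.and (pt.and (low.and (off S1))))).and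
    ((big (K / (2 * ε))).and (big (K / (2 * ε) * (C1 + C2) + K)))).exists
  have up := up _ h5 (as n i0) _ h1'.1
  have e : (fun j ↦ e2 (ψ' j) (s n i0) (x n)) = fun j ↦ aeval (s n i0) d ^ e * ev (s n) (ψ j) := by
    funext j
    rw [cψ j _ _ h2.1, h2.2]
  rw [e, ht_smul (fun j ↦ alg_ev (as n) _) ((alg_aeval (as n i0) d).pow _)
    (pow_ne_zero _ h2.1)] at up
  have k := hK _ (as n i0) h2.1 _ h1'.1 (i n)
  rw [← h1'.2] at k
  have hi := hi n
  generalize ht (fun j ↦ ev (s n) (A j) + ev (s n) (B j) * w n) = a at h4 hi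
  generalize ht (fun j ↦ ev (s n) (ψ j)) = b at up hi
  have m1 := le_max_left 0 (a - b)
  have m2 := le_max_right 0 (a - b)
  have k1 : 2 * ε * h1 (s n i0) ≤ max 0 (a - b) + (C1 + C2) := by linarith
  have k2 := mul_le_mul_of_nonneg_left k1 (by positivity : 0 ≤ K / (2 * ε))
  have k3 : K / (2 * ε) * (2 * ε * h1 (s n i0)) = K * h1 (s n i0) := by field_simp
  have k4 := mul_le_mul_of_nonneg_right b1 m1
  linarith

end T26

open T26 in
theorem st_AMP (h3 : St_HT3) (hGP : St_GP) (hC : St_CLR) (hG : St_GEN) (hP : St_POS)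
    (hL1 : St_LOW1) (hL2 : St_LOW2) (hU : St_UP) : St_AMP := by
  intro ι I J _ _ _ Z ψ A B Rp G
  obtain ⟨C, C0, h⟩ := half h3 hGP hC hG hP hL1 hL2 hU G
  obtain ⟨C', C0', h'⟩ := half h3 hGP hC hG hP hL1 hL2 hU (swap G)
  refine ⟨C + C', add_nonneg C0 C0', fun s hs l l0 as al i ↦ ?_⟩
  have m1 := le_max_left 0 (ht (fun j ↦ ev s (A j) * l 0 + ev s (B j) * l 1) -
    ht (fun i ↦ ev s (ψ i)))
  by_cases e0 : l 0 = 0
  · have e1 : l 1 ≠ 0 := fun e1 ↦ l0 (funext (Fin.forall_fin_two.2 ⟨e0, e1⟩))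
    have k := h' s hs 0 as isAlgebraic_zero i
    rw [← ht_smul (c := l 1) (fun j ↦ (alg_ev as _).add ((alg_ev as _).mul isAlgebraic_zero))
      (al 1) e1, show (fun j ↦ l 1 * (ev s (B j) + ev s (A j) * 0)) =
        fun j ↦ ev s (A j) * l 0 + ev s (B j) * l 1 from funext fun j ↦ by rw [e0]; ring] at k
    have := mul_nonneg C0 m1
    linarith
  · have aw : IsAlgebraic ℚ (l 1 / l 0) := (al 1).mul (al 0).inv
    have k := h s hs _ as aw i
    rw [← ht_smul (c := l 0) (fun j ↦ (alg_ev as _).add ((alg_ev as _).mul aw)) (al 0) e0,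
      show (fun j ↦ l 0 * (ev s (A j) + ev s (B j) * (l 1 / l 0))) =
        fun j ↦ ev s (A j) * l 0 + ev s (B j) * l 1 from funext fun j ↦ by field_simp] at k
    have := mul_nonneg C0' m1
    linarith

end Pool.Agent.Lib.ECM
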