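import Pool.Agent.Lib.ECM.THBlue

/-! Torelli type rigidity: proportional theta constants give isomorphic polarized tori. -/

open Complex Filter Topology
open scoped Real

noncomputable section

namespace Pool.Agent.Lib.ECM

namespace XTOR

lemma hom_eval {φ : MvPolynomial Ch ℤ} {n : ℕ} (h : φ.IsHomogeneous n) (c : ℂ) (x : Ch → ℂ) :
    MvPolynomial.aeval (fun m ↦ c * x m) φ = c ^ n * MvPolynomial.aeval x φ := by
  simp only [MvPolynomial.aeval_def, MvPolynomial.eval₂_eq, Finset.mul_sum]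
  refine Finset.sum_congr rfl fun d hd ↦ ?_
  have h1 : ∑ i ∈ d.support, d i = n := by
    have := h (MvPolynomial.mem_support_iff.1 hd)
    rw [← this, Finsupp.weight_apply, Finsupp.sum]
    simp
  simp only [mul_pow, Finset.prod_mul_distrib, Finset.prod_pow_eq_pow_sum, h1]
  ring

/-- the two basic gradients as a linear map -/
def grad (τ : T3) : V2 →ₗ[ℂ] ℂ × ℂ :=
  LinearMap.prod (fderiv ℂ (th hA τ) 0 : V2 →L[ℂ] ℂ).toLinearMap
    (fderiv ℂ (th hB τ) 0 : V2 →L[ℂ] ℂ).toLinearMap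

lemma grad_apply (τ : T3) (v : V2) : grad τ v = (ll hA τ v, ll hB τ v) := rfl

lemma two_lat (hBAS : St_BAS) (τ : T3) (l : V2) (hl : l ∈ Lat τ) :
    ∃ E : ℂ, E ≠ 0 ∧ ∀ m, th m τ ((2 : ℂ) • l) = E * kk m τ := by
  obtain ⟨μ, ν, rfl⟩ := hl
  have h1 : (2 : ℂ) • per τ (iv μ) (iv ν) =
      0 + per τ (iv (2 * μ.1, 2 * μ.2)) (iv (2 * ν.1, 2 * ν.2)) := by
    funext i; fin_cases i <;> simp [iv, per] <;> ring
  refine ⟨_, exp_ne_zero (-π * I * (Qf τ (iv (2 * ν.1, 2 * ν.2)) +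
    2 * dot (iv (2 * ν.1, 2 * ν.2)) 0)), fun m ↦ ?_⟩
  rw [h1, hBAS.th_per]
  have h2 : 2 * π * I * (dot (ca m) (iv (2 * μ.1, 2 * μ.2)) - dot (cb m) (iv (2 * ν.1, 2 * ν.2))) =
      ((m.1.val * μ.1 + m.2.1.val * μ.2 - m.2.2.1.val * ν.1 - m.2.2.2.val * ν.2 : ℤ) : ℂ) *
        (2 * π * I) := by
    simp only [dot, ca, cb, iv, Matrix.cons_val_zero, Matrix.cons_val_one]
    push_cast
    ring
  rw [h2, exp_int_mul_two_pi_mul_I, one_mul, kk]

lemma liou (φ : V2 → ℂ) (hd : Differentiable ℂ φ) (h0 : φ 0 ≠ 0) (q q' : V2 → ℝ) (K : ℝ)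
    (hb : ∀ z, ‖φ z‖ ≤ K * Real.exp (π * (q' z - q z))) (v : V2) (H H' : ℝ)
    (hq : ∀ t : ℂ, q (t • v) + q (I • t • v) = normSq t * H)
    (hq' : ∀ t : ℂ, q' (t • v) + q' (I • t • v) = normSq t * H') : H ≤ H' := by
  by_contra hlt
  push Not at hlt
  let G : ℂ → ℂ := fun t ↦ φ (t • v) * φ (I • t • v)
  have hG : Differentiable ℂ G :=
    (hd.comp (differentiable_id.smul_const v)).mul
      (hd.comp ((differentiable_id.smul_const v).const_smul I))
  have hK : 0 ≤ K := by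
    by_contra hK
    push Not at hK
    have := hb 0
    nlinarith [norm_nonneg (φ 0), Real.exp_pos (π * (q' 0 - q 0))]
  have hGb : ∀ t, ‖G t‖ ≤ K ^ 2 * Real.exp (-(π * (H - H')) * normSq t) := fun t ↦ by
    simp only [G]
    rw [norm_mul]
    refine (mul_le_mul (hb _) (hb _) (norm_nonneg _) (by positivity)).trans (le_of_eq ?_)
    rw [mul_mul_mul_comm, ← Real.exp_add, ← sq]
    congr 2
    linear_combination π * hq' t - π * hq t
  have ha : 0 < π * (H - H') := mul_pos Real.pi_pos (by linarith)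
  have hbd : Bornology.IsBounded (Set.range G) := by
    rw [isBounded_iff_forall_norm_le]
    refine ⟨K ^ 2, ?_⟩
    rintro _ ⟨t, rfl⟩
    refine (hGb t).trans (mul_le_of_le_one_right (by positivity) ?_)
    rw [Real.exp_le_one_iff]
    nlinarith [normSq_nonneg t]
  have hG0 : G 0 ≠ 0 := by simp [G, h0]
  have hlim : Tendsto (fun x : ℝ ↦ K ^ 2 * Real.exp (-(π * (H - H')) * x)) atTop (𝓝 (K ^ 2 * 0)) :=
    (Real.tendsto_exp_atBot.comp (tendsto_id.const_mul_atTop_of_neg (by linarith))).const_mul _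
  rw [mul_zero] at hlim
  obtain ⟨x, hx, hx0⟩ :=
    ((hlim.eventually (gt_mem_nhds (norm_pos_iff.2 hG0))).and (eventually_ge_atTop 0)).exists
  have h1 := hGb (Real.sqrt x : ℂ)
  rw [hG.apply_eq_apply_of_bounded hbd _ 0, normSq_ofReal, Real.mul_self_sqrt hx0] at h1
  linarith

end XTOR

open XTOR in
theorem st_TOR (hBAS : St_BAS) (hHERM : St_HERM) (hLIN : St_LIN) (hGAUGE : St_GAUGE)
    (hNORM : St_NORM) (hINJ : St_INJ) (hJC : St_JC) (hJET : St_JET) : St_TOR := by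
  intro τ hτ τ' hτ' c hG hc hk
  have hG' : Gen τ' := fun m hm ↦ by rw [hk]; exact mul_ne_zero hc (hG m hm)
  let e := LinearEquiv.ofBijective (grad τ) (hGAUGE.ind τ hτ hG)
  let e' := LinearEquiv.ofBijective (grad τ') (hGAUGE.ind τ' hτ' hG')
  let M : V2 ≃ₗ[ℂ] V2 := (e.trans (LinearEquiv.smulOfNeZero ℂ (ℂ × ℂ) c hc)).trans e'.symm
  have hM : ∀ v, grad τ' (M v) = c • grad τ v := fun v ↦ e'.apply_symm_apply _
  have hA' : ∀ v, ll hA τ' (M v) = c * ll hA τ v := fun v ↦ congrArg Prod.fst (hM v)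
  have hB' : ∀ v, ll hB τ' (M v) = c * ll hB τ v := fun v ↦ congrArg Prod.snd (hM v)
  have hll : ∀ m v, ll m τ' (M v) = c * ll m τ v := by
    obtain ⟨P, A, B, h1, h2⟩ := hLIN
    intro m v
    obtain ⟨a1, a2, c0, m₁, m₂, m₃, b0, b1, b2, b3, hP⟩ := h1 m
    have h3 := h2 τ hτ m v
    have h4 := h2 τ' hτ' m (M v)
    simp only [hk, hom_eval a1, hom_eval a2, hA', hB'] at h4
    rw [hP] at h3 h4
    simp only [map_mul, MvPolynomial.aeval_X, eq_intCast, map_intCast] at h3 h4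
    have h5 : (c0 : ℂ) * (kk m₁ τ * kk m₂ τ * kk m₃ τ) * c ^ 3 ≠ 0 :=
      mul_ne_zero (mul_ne_zero (Int.cast_ne_zero.2 b0)
        (mul_ne_zero (mul_ne_zero (hG _ b1) (hG _ b2)) (hG _ b3))) (pow_ne_zero _ hc)
    apply mul_left_cancel₀ h5
    linear_combination h4 - c ^ 4 * h3
  have k0 : kk 0 τ ≠ 0 := hG 0 (by decide)
  have k0' : kk 0 τ' ≠ 0 := hG' 0 (by decide)
  have hline : ∀ (m : Ch) (σ : T3), σ ∈ H2 → ∀ v : V2,
      Differentiable ℂ fun t : ℂ ↦ th m σ (t • v) := fun m σ hσ v ↦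
    (hBAS.diff_th m σ hσ).comp (differentiable_id.smul_const v)
  have hcross : ∀ m m' z, th m τ' (M z) * th m' τ z = th m' τ' (M z) * th m τ z := by
    intro m m' z
    have hj := hJET (RingHom.id ℂ) τ hτ τ' hτ' z (M z) k0 k0'
      (fun m ↦ by rw [hk, hk, RingHom.id_apply, mul_div_mul_left _ _ hc])
      (fun m ↦ by rw [hll, hk, RingHom.id_apply, mul_div_mul_left _ _ hc])
    have n0 : ∀ᶠ t in 𝓝 (0 : ℂ), th 0 τ (t • z) ≠ 0 :=
      (hline 0 τ hτ z).continuous.continuousAt.eventually_ne (by simpa [kk] using k0)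
    have n1 : ∀ᶠ t in 𝓝 (0 : ℂ), th 0 τ' (t • M z) ≠ 0 :=
      (hline 0 τ' hτ' (M z)).continuous.continuousAt.eventually_ne (by simpa [kk] using k0')
    have hev : (fun t : ℂ ↦ th m τ' (t • M z) * th m' τ (t • z)) =ᶠ[𝓝 0]
        fun t : ℂ ↦ th m' τ' (t • M z) * th m τ (t • z) := by
      filter_upwards [hJC.eq (hj m), hJC.eq (hj m'), n0, n1] with t a b d f
      rw [div_eq_div_iff d f] at a b
      apply mul_left_cancel₀ d
      linear_combination th m τ (t • z) * b - th m' τ (t • z) * a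
    have an : ∀ f : ℂ → ℂ, Differentiable ℂ f → AnalyticOnNhd ℂ f Set.univ := fun f hf t _ ↦
      hf.analyticAt t
    have := AnalyticOnNhd.eq_of_eventuallyEq
      (an _ ((hline m τ' hτ' (M z)).mul (hline m' τ hτ z)))
      (an _ ((hline m' τ' hτ' (M z)).mul (hline m τ hτ z))) hev
    simpa using congrFun this 1
  refine ⟨M, hll, fun z ↦ ⟨fun hz ↦ ?_, fun hz ↦ ?_⟩, fun v ↦ ?_⟩
  · obtain ⟨E, hE, h1⟩ := two_lat hBAS τ' _ hz
    obtain ⟨l, hl, h2⟩ := hINJ τ hτ ((2 : ℂ) • z) 0 fun m m' ↦ by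
      have h3 := hcross m' m ((2 : ℂ) • z)
      rw [map_smul, h1, h1, hk, hk] at h3
      apply mul_left_cancel₀ (mul_ne_zero hE hc)
      simp only [kk] at h3
      linear_combination h3
    rw [sub_zero] at h2
    rwa [smul_right_injective V2 (two_ne_zero (α := ℂ)) h2]
  · obtain ⟨E, hE, h1⟩ := two_lat hBAS τ _ hz
    obtain ⟨l, hl, h2⟩ := hINJ τ' hτ' (M ((2 : ℂ) • z)) 0 fun m m' ↦ by
      have h3 := hcross m m' ((2 : ℂ) • z)
      rw [h1, h1] at h3
      apply mul_left_cancel₀ hE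
      change E * (_ * kk m' τ') = E * (_ * kk m τ')
      rw [hk, hk]
      linear_combination c * h3
    rw [sub_zero, map_smul] at h2
    rwa [smul_right_injective V2 (two_ne_zero (α := ℂ)) h2]
  · obtain ⟨c1, C1, hc1, b1⟩ := hNORM τ hτ
    obtain ⟨c2, C2, hc2, b2⟩ := hNORM τ' hτ'
    have hne : ∀ z, ∃ m, th m τ z ≠ 0 := fun z ↦ by
      by_contra h
      push Not at h
      have h1 := (b1 z).1
      rw [show (fun m ↦ th m τ z) = 0 from funext h, norm_zero] at h1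
      exact absurd h1 (not_le.2 (by positivity))
    choose s hs using hne
    let φ : V2 → ℂ := fun z ↦ th (s z) τ' (M z) / th (s z) τ z
    have hφ : ∀ z m, th m τ' (M z) = φ z * th m τ z := fun z m ↦ by
      simp only [φ]
      rw [div_mul_eq_mul_div, eq_div_iff (hs z)]
      exact hcross m (s z) z
    have hMd : Differentiable ℂ fun z : V2 ↦ M z :=
      (LinearMap.toContinuousLinearMap M.toLinearMap).differentiable
    have hd : Differentiable ℂ φ := fun z ↦ by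
      have n0 : ∀ᶠ w in 𝓝 z, th (s z) τ w ≠ 0 :=
        (hBAS.diff_th _ τ hτ).continuous.continuousAt.eventually_ne (hs z)
      refine DifferentiableAt.congr_of_eventuallyEq
        (f := fun w ↦ th (s z) τ' (M w) * (th (s z) τ w)⁻¹)
        ((((hBAS.diff_th _ τ' hτ').comp hMd) z).mul ((hBAS.diff_th _ τ hτ z).inv (hs z))) ?_
      filter_upwards [n0] with w hw
      rw [hφ w (s z), mul_inv_cancel_right₀ hw]
    have hn : ∀ z, ‖fun m ↦ th m τ' (M z)‖ = ‖φ z‖ * ‖fun m ↦ th m τ z‖ := fun z ↦ by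
      rw [← norm_smul]
      congr 1
      funext m
      exact hφ z m
    have hφ0 : ∀ z, φ z ≠ 0 := fun z h ↦ by
      have h1 := (b2 (M z)).1
      rw [hn, h, norm_zero, zero_mul] at h1
      exact absurd h1 (not_le.2 (by positivity))
    have hq : ∀ t : ℂ, qI τ (t • v) + qI τ (I • t • v) = normSq t * Hn τ v := fun t ↦ by
      rw [hHERM.qI_add, hHERM.smul]
    have hq' : ∀ t : ℂ, qI τ' (M (t • v)) + qI τ' (M (I • t • v)) = normSq t * Hn τ' (M v) :=
      fun t ↦ by rw [map_smul M I, hHERM.qI_add, map_smul, hHERM.smul]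
    apply le_antisymm
    · refine liou (fun z ↦ (φ z)⁻¹) (hd.inv hφ0) (inv_ne_zero (hφ0 0)) (fun z ↦ qI τ' (M z))
        (qI τ) (C1 / c2) (fun z ↦ ?_) v _ _ hq' hq
      have h1 := (b2 (M z)).1
      rw [hn] at h1
      have h2 := h1.trans (mul_le_mul_of_nonneg_left (b1 z).2 (norm_nonneg _))
      have h3 := norm_pos_iff.2 (hφ0 z)
      rw [norm_inv, mul_sub, Real.exp_sub, div_mul_div_comm, le_div_iff₀ (by positivity),
        inv_mul_le_iff₀ h3]
      exact h2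
    · refine liou φ hd (hφ0 0) (qI τ) (fun z ↦ qI τ' (M z)) (C2 / c1) (fun z ↦ ?_) v _ _ hq hq'
      have h1 := (b2 (M z)).2
      rw [hn] at h1
      have h2 := (mul_le_mul_of_nonneg_left (b1 z).1 (norm_nonneg _)).trans h1
      rw [mul_sub, Real.exp_sub, div_mul_div_comm, le_div_iff₀ (by positivity)]
      exact h2

end Pool.Agent.Lib.ECM
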