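import Pool.Agent.Lib.ECM.HTBlue
import Pool.Agent.Lib.ECM.B_AMP
import Pool.Agent.Lib.ECM.TH_TOR

/-! Ampleness for the theta gauge (block AMPT, MP_0704bf_ag). -/

open Filter Topology MvPolynomial

namespace Pool.Agent.Lib.ECM

namespace T26

theorem alg_prod {α : Type} (s : Finset α) {f : α → ℂ} (h : ∀ a, IsAlgebraic ℚ (f a)) :
    IsAlgebraic ℚ (∏ a ∈ s, f a) :=
  Finset.prod_induction f _ (fun _ _ ↦ IsAlgebraic.mul) isAlgebraic_one fun a _ ↦ h a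

theorem le_sum_sq {J : Type} [Fintype J] (f : J → ℝ) (j : J) : f j ^ 2 ≤ ∑ j, f j ^ 2 :=
  Finset.single_le_sum (f := fun j ↦ f j ^ 2) (fun _ _ ↦ sq_nonneg _) (Finset.mem_univ j)

theorem over_ne {s : Ch → ℂ} {τ : T3} (h : Over s τ) (g : Gen τ) (m : Ch) (hm : Ev m) : s m ≠ 0 :=
  h.2.2 m ▸ div_ne_zero (g m hm) h.2.1

theorem lv_zero (τ : T3) (h : Ch) : lv τ 0 h = 0 := by
  rw [lv, show ll h τ 0 = 0 from map_zero (fderiv ℂ (th h τ) 0), zero_div]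

theorem eq_of_lv (hG : St_GAUGE) {s : Ch → ℂ} {τ : T3} (h : Over s τ) (g : Gen τ) {u v : V2}
    (a : lv τ u hA = lv τ v hA) (b : lv τ u hB = lv τ v hB) : u = v :=
  (hG.ind τ h.1 g).1 (Prod.ext ((div_left_inj' h.2.1).1 a) ((div_left_inj' h.2.1).1 b))

/-- the linear relations between the gradients in affine coordinates -/
theorem lin (hL : St_LIN) : ∃ P A B : Ch → MvPolynomial Ch ℚ,
    (∀ s : Ch → ℂ, (∀ m, Ev m → s m ≠ 0) → ∀ h, ev s (P h) ≠ 0) ∧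
    ∀ s τ, Over s τ → ∀ h u,
      ev s (P h) * lv τ u h = ev s (A h) * lv τ u hA + ev s (B h) * lv τ u hB := by
  obtain ⟨P, A, B, h1, h2⟩ := hL
  refine ⟨fun h ↦ map (algebraMap ℤ ℚ) (P h), fun h ↦ map (algebraMap ℤ ℚ) (A h),
    fun h ↦ map (algebraMap ℤ ℚ) (B h), fun s hs h ↦ ?_, fun s τ ho h u ↦ ?_⟩
  · obtain ⟨-, -, c, m₁, m₂, m₃, hc, e1, e2, e3, hP⟩ := h1 h
    rw [ev, aeval_map_algebraMap]
    simp [hP, hc, hs _ e1, hs _ e2, hs _ e3]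
  · obtain ⟨hA3, hB3, c, m₁, m₂, m₃, -, -, -, -, hP⟩ := h1 h
    have hP3 : (P h).IsHomogeneous 3 := hP ▸ (((isHomogeneous_X _ m₁).mul
      (isHomogeneous_X _ m₂)).mul (isHomogeneous_X _ m₃)).C_mul c
    have k0 := ho.2.1
    have x := h2 τ ho.1 h u
    rw [show (fun m ↦ kk m τ) = fun m ↦ kk 0 τ * s m from
      funext fun m ↦ by rw [ho.2.2, mul_div_cancel₀ _ k0], XTOR.hom_eval hA3, XTOR.hom_eval hB3,
      XTOR.hom_eval hP3] at x
    simp only [ev, aeval_map_algebraMap, lv]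
    field_simp
    refine mul_left_cancel₀ (pow_ne_zero 3 k0) ?_
    linear_combination x

/-- the gauge is a quotient of two entries -/
theorem gauge_le (hG : St_GAUGE) {s : Ch → ℂ} {τ : T3} (ho : Over s τ) (u : V2) :
    ∃ p : Ch × Ch, ∀ n, gauge τ u * ‖PP s n‖ ≤ ‖GG s (lv τ u) (p, n)‖ := by
  obtain ⟨p, hp⟩ := Finite.exists_max fun p : Ch × Ch ↦
    ‖kk p.1 τ * ll p.2 τ u / (den (p.1 + p.2) τ : ℂ)‖
  refine ⟨p, fun n ↦ ?_⟩
  have g1 : gauge τ u ≤ _ := (pi_norm_le_iff_of_nonneg (norm_nonneg _)).2 hp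
  have d0 := hG.den τ ho.1 (p.1 + p.2)
  have d1 : ‖kk (n (p.1 + p.2)) τ * kk (n (p.1 + p.2) + (p.1 + p.2)) τ‖ ≤ den (p.1 + p.2) τ :=
    norm_le_pi_norm (fun m : Ch ↦ kk m τ * kk (m + (p.1 + p.2)) τ) _
  have k0 := ho.2.1
  rw [PP, GG, ← Finset.mul_prod_erase _ _ (Finset.mem_univ (p.1 + p.2)), norm_mul, ← mul_assoc,
    norm_mul _ (Finset.prod _ _)]
  refine mul_le_mul_of_nonneg_right ?_ (norm_nonneg _)
  rw [ho.2.2, ho.2.2 (n _ + _), ho.2.2 p.1, lv, div_mul_div_comm, div_mul_div_comm, norm_div,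
    norm_div, ← mul_div_assoc]
  refine div_le_div_of_nonneg_right ?_ (norm_nonneg _)
  rw [norm_div, Complex.norm_real, Real.norm_of_nonneg d0.le, le_div_iff₀ d0] at g1
  exact (mul_le_mul_of_nonneg_left d1 (norm_nonneg _)).trans g1

end T26

open T26 in
theorem st_AMPT (hAMP : St_AMP) (hI : St_ILIFT) (hM : St_IMOV) (hL : St_LIN) (hG : St_GAUGE)
    (hT : St_TOR) : St_AMPT := by
  intro P pl mo ge de
  obtain ⟨Q, A, B, Q0, hl⟩ := lin hL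
  obtain ⟨ψ, hψ⟩ : ∃ ψ : (Ch → Ch) → MvPolynomial Ch ℚ, ∀ s n,
      ev s (ψ n) = ev s (∏ h, Q h) * PP s n :=
    ⟨fun n ↦ (∏ h, Q h) * ∏ κ, X (n κ) * X (n κ + κ), fun s n ↦ by
      simp only [ev, PP, map_mul, map_prod, aeval_X]⟩
  obtain ⟨A', B', hAB⟩ : ∃ A' B' : (Ch × Ch) × (Ch → Ch) → MvPolynomial Ch ℚ, ∀ s τ, Over s τ →
      ∀ u j, ev s (A' j) * lv τ u hA + ev s (B' j) * lv τ u hB =
        ev s (∏ h, Q h) * GG s (lv τ u) j := by
    obtain ⟨c, hc⟩ : ∃ c : (Ch × Ch) × (Ch → Ch) → MvPolynomial Ch ℚ, ∀ s l j,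
        ev s (c j) * (ev s (Q j.1.2) * l j.1.2) = ev s (∏ h, Q h) * GG s l j := by
      refine ⟨fun j ↦ (∏ h ∈ Finset.univ.erase j.1.2, Q h) * (X j.1.1 *
        ∏ κ ∈ Finset.univ.erase (j.1.1 + j.1.2), X (j.2 κ) * X (j.2 κ + κ)), fun s l j ↦ ?_⟩
      rw [← Finset.mul_prod_erase _ Q (Finset.mem_univ j.1.2)]
      simp only [ev, GG, map_mul, map_prod, aeval_X]
      ring
    refine ⟨fun j ↦ c j * A j.1.2, fun j ↦ c j * B j.1.2, fun s τ ho u j ↦ ?_⟩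
    rw [← hc, hl s τ ho]
    simp only [ev, map_mul]
    ring
  have Pi0 : ∀ s τ, Over s τ → Gen τ → ev s (∏ h, Q h) ≠ 0 := fun s τ ho g ↦ by
    rw [ev, map_prod]
    exact Finset.prod_ne_zero_iff.2 fun h _ ↦ Q0 s (over_ne ho g) h
  have G : Gauge {x ∈ Cv P | ∃ τ, Over x τ ∧ Gen τ} ψ A' B' RpT :=
    { cl := by
        refine ⟨P, _, mo.union ge, fun s hs f hf ↦ hs.1 f hf, fun s hs hF ↦ ⟨hs, ?_⟩⟩
        obtain ⟨τ, ho⟩ : ∃ τ, Over s τ := not_not.1 fun h ↦ hF (Or.inl ⟨hs, h⟩)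
        exact ⟨τ, ho, fun m hm e ↦ hF (Or.inr ⟨hs, m, hm, by rw [ho.2.2, e, zero_div]⟩)⟩
      dim := fun i j ↦ (pl i j).imp fun f hf ↦ ⟨hf.1, fun s hs ↦ hf.2 s hs.1⟩
      ne := by
        rintro s ⟨-, τ, ho, g⟩
        choose n hn using fun κ ↦ Function.ne_iff.1 (norm_pos_iff.1 (hG.den τ ho.1 κ))
        refine ⟨n, ?_⟩
        rw [hψ]
        refine mul_ne_zero (Pi0 s τ ho g) (Finset.prod_ne_zero_iff.2 fun κ _ ↦ ?_)
        rw [ho.2.2, ho.2.2 (n κ + κ), div_mul_div_comm]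
        exact div_ne_zero (hn κ) (mul_ne_zero ho.2.1 ho.2.1)
      per := by
        rintro s τ D ⟨ho, -, h⟩
        refine ⟨ho.1, fun e ↦ ?_⟩
        obtain ⟨v, v0, hv⟩ := Matrix.exists_mulVec_eq_zero_iff.2 e
        have := h v
        rw [hv, lv_zero, lv_zero] at this
        exact v0 (funext (Fin.forall_fin_two.2 ⟨this.1.symm, this.2.symm⟩))
      uniq := by
        rintro s τ D τ' D' ⟨ho, g, h⟩ ⟨ho', g', h'⟩ l
        have k0 := ho.2.1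
        have k0' := ho'.2.1
        obtain ⟨M, m1, -, m3⟩ := hT τ ho.1 τ' ho'.1 (kk 0 τ' / kk 0 τ) g (div_ne_zero k0' k0)
          fun m ↦ by
            rw [div_mul_eq_mul_div, mul_div_assoc, ← ho.2.2, ho'.2.2, mul_div_cancel₀ _ k0']
        have e : ∀ m v, lv τ' (M v) m = lv τ v m := fun m v ↦ by
          rw [lv, lv, m1]
          field_simp
        rw [← m3, eq_of_lv hG ho' g' (u := M (D.mulVec l)) (v := D'.mulVec l)
          (by rw [e, (h l).1, (h' l).1]) (by rw [e, (h l).2, (h' l).2])]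
      bd := by
        obtain ⟨C, C0, hC⟩ := hG.all
        refine ⟨C, ?_⟩
        rintro s - τ D ⟨ho, g, h⟩ l i
        obtain ⟨p, hp⟩ := gauge_le hG ho (D.mulVec l)
        refine le_trans ?_ (mul_le_mul_of_nonneg_left
          (le_sum_sq (fun j ↦ ‖ev s (A' j) * l 0 + ev s (B' j) * l 1‖) (p, i)) C0.le)
        have k := hAB s τ ho (D.mulVec l) (p, i)
        rw [(h l).1, (h l).2] at k
        rw [k, hψ, norm_mul, norm_mul]
        have a := pow_le_pow_left₀ (mul_nonneg (norm_nonneg _) (norm_nonneg _)) (hp i) 2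
        have b := mul_le_mul_of_nonneg_right (hC τ ho.1 (D.mulVec l))
          (sq_nonneg (‖ev s (∏ h, Q h)‖ * ‖PP s i‖))
        have c := mul_le_mul_of_nonneg_left a (mul_nonneg C0.le (sq_nonneg ‖ev s (∏ h, Q h)‖))
        unfold gauge at b
        linarith
      lift := fun φ u ha hz ↦ hI φ u ha (hz.mono fun z h ↦ h.2)
      mov := fun φ u ha hz hn τ D _ h ↦
        hM P de φ τ u ha hn ((hz.and h).mono fun z h ↦ ⟨h.1.1, h.2.1⟩) }
  obtain ⟨C, C0, hC⟩ := hAMP _ _ _ _ _ _ _ _ G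
  refine ⟨C, C0, fun x hx τ u ho g u0 ax al m ↦ ?_⟩
  have k := hC x ⟨hx, τ, ho, g⟩ ![lv τ u hA, lv τ u hB]
    (fun e ↦ u0 (eq_of_lv hG ho g ((congrFun e 0).trans (lv_zero τ _).symm)
      ((congrFun e 1).trans (lv_zero τ _).symm))) ax (Fin.forall_fin_two.2 ⟨al _, al _⟩) m
  have e1 : (fun j ↦ ev x (A' j) * ![lv τ u hA, lv τ u hB] 0 +
      ev x (B' j) * ![lv τ u hA, lv τ u hB] 1) = fun j ↦ ev x (∏ h, Q h) * GG x (lv τ u) j :=
    funext fun j ↦ hAB x τ ho u j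
  rwa [e1, funext (hψ x), ht_smul (x := GG x (lv τ u))
    (fun j ↦ ((ax _).mul (al _)).mul (alg_prod _ fun κ ↦ (ax _).mul (ax _))) (alg_ev ax _)
    (Pi0 x τ ho g), ht_smul (x := PP x) (fun n ↦ alg_prod _ fun κ ↦ (ax _).mul (ax _))
    (alg_ev ax _) (Pi0 x τ ho g)] at k

end Pool.Agent.Lib.ECM
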