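import Pool.Agent.Lib.ECM.HTBlue
import Pool.Agent.Lib.ZP3.JEst

/-! Block ARC: the bound for the gauge at the infinite places. -/

open UpperHalfPlane
open scoped Real

namespace Pool.Agent.Lib.ECM

open Pool.Agent.Lib.MP_0704bf_ag

namespace T80A

/-- every numerator is bounded by the gauge times a denominator -/
theorem num_le (hG : St_GAUGE) {x : Ch → ℂ} {τ : T3} (h : Over x τ) (u : V2) (g k : Ch) :
    ∃ n, ‖x g * lv τ u k‖ ≤ gauge τ u * ‖x n * x (n + (g + k))‖ := by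
  obtain ⟨hτ, h0, hx⟩ := h
  obtain ⟨n, hn⟩ := Finite.exists_max fun n : Ch ↦ ‖kk n τ * kk (n + (g + k)) τ‖
  have hd := hG.den τ hτ (g + k)
  have h1 : den (g + k) τ ≤ ‖kk n τ * kk (n + (g + k)) τ‖ :=
    (pi_norm_le_iff_of_nonneg (norm_nonneg _)).2 hn
  have h2 : ‖kk g τ * ll k τ u / (den (g + k) τ : ℂ)‖ ≤ gauge τ u :=
    norm_le_pi_norm (fun p : Ch × Ch ↦ kk p.1 τ * ll p.2 τ u / (den (p.1 + p.2) τ : ℂ)) (g, k)
  have h3 : 0 ≤ gauge τ u := norm_nonneg _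
  rw [norm_div, Complex.norm_real, Real.norm_of_nonneg hd.le, div_le_iff₀ hd] at h2
  refine ⟨n, ?_⟩
  rw [hx, hx, hx, lv, div_mul_div_comm, div_mul_div_comm, norm_div, norm_div, ← mul_div_assoc]
  exact div_le_div_of_nonneg_right (h2.trans (mul_le_mul_of_nonneg_left h1 h3)) (norm_nonneg _)

/-- the gauge is bounded by the Hermitian norm with a logarithmic loss -/
theorem gauge_le (hB : St_BAS) (hH : St_HERM) (hS : St_SYMK) (hR : St_RED) (hG : St_GAUGE) :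
    ∃ C : ℝ, 0 < C ∧ ∀ x τ, Over x τ → ∃ m, Ev m ∧ x m ≠ 0 ∧ ∀ u,
      gauge τ u ^ 2 ≤ C * (1 + Real.log (‖x‖ / ‖x m‖)) * Hn τ u := by
  obtain ⟨C, hC, H⟩ := hG.red
  refine ⟨C * C, by positivity, fun x τ ⟨hτ, h0, hx⟩ ↦ ?_⟩
  obtain ⟨γ, hγ⟩ := hR τ hτ
  obtain ⟨h1, m', hm', hy⟩ := H _ hγ
  obtain ⟨c, hc, hk⟩ := hS.cst γ τ hτ
  have sur (n : Ch) : γ.A (γ.A.symm (n - γ.s)) + γ.s = n := by simp
  have hz (n : Ch) : ‖γ.ζ n‖ = 1 := by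
    have := congrArg norm (γ.ζ8 n)
    rw [norm_pow, norm_one] at this
    exact (pow_eq_one_iff_of_nonneg (norm_nonneg _) (by norm_num)).1 this
  have nk (n : Ch) : ‖kk n (γ.act τ)‖ = ‖c‖ * ‖kk 0 τ‖ * ‖x (γ.A.symm (n - γ.s))‖ := by
    conv_lhs => rw [← sur n, (hk _).1]
    rw [norm_mul, norm_mul, hz, hx, norm_div]
    field_simp
  have hm : x (γ.A.symm (m' - γ.s)) ≠ 0 := fun e ↦ hm' (by
    rw [← norm_eq_zero, nk, e, norm_zero, mul_zero])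
  refine ⟨_, ?_, hm, fun u ↦ ?_⟩
  · by_contra he
    exact hm (by rw [hx, hB.kk_odd _ τ he, zero_div])
  have p0 : 0 < ‖c‖ * ‖kk 0 τ‖ := by positivity
  have p1 : 0 < ‖kk m' (γ.act τ)‖ := norm_pos_iff.2 hm'
  have h2 : ‖fun n ↦ kk n (γ.act τ)‖ ≤ ‖c‖ * ‖kk 0 τ‖ * ‖x‖ :=
    (pi_norm_le_iff_of_nonneg (by positivity)).2 fun n ↦
      (nk n).trans_le (mul_le_mul_of_nonneg_left (norm_le_pi_norm x _) p0.le)
  have h3 : Real.log (‖fun n ↦ kk n (γ.act τ)‖ / ‖kk m' (γ.act τ)‖) ≤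
      Real.log (‖x‖ / ‖x (γ.A.symm (m' - γ.s))‖) := by
    refine Real.log_le_log
      (div_pos (p1.trans_le (norm_le_pi_norm (fun n ↦ kk n (γ.act τ)) m')) p1) ?_
    rw [← mul_div_mul_left ‖x‖ _ p0.ne', ← nk]
    exact div_le_div_of_nonneg_right h2 p1.le
  have h4 := (h1 (γ.M τ u)).1
  rw [hS.gauge γ τ hτ, γ.herm τ hτ] at h4
  have h5 := hH.nonneg τ hτ u
  refine h4.trans (mul_le_mul_of_nonneg_right ?_ h5)
  rw [mul_assoc]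
  exact mul_le_mul_of_nonneg_left (hy.trans (mul_le_mul_of_nonneg_left (by linarith) hC.le)) hC.le

/-- the Hermitian norm of the normalised tangent vector -/
theorem herm_le (hH : St_HERM) : ∃ C : ℝ, 0 < C ∧ ∀ τ v τ0 Ω, Nrm τ0 Ω →
    Hn τ (Ω⁻¹ • v) ^ 6 ≤ C * (NN τ v τ0 ^ 6 * max 1 ‖jInv τ0‖) := by
  obtain ⟨C, hC, H⟩ := ZP3.del_bounds
  refine ⟨C * 12 ^ 6 * 2, by positivity, fun τ v τ0 Ω hN ↦ ?_⟩
  have h1 : ‖Ω‖ ^ 12 * 12 ^ 6 = (2 * π) ^ 12 * ‖ModularForm.discriminant τ0‖ := by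
    have := congrArg norm hN
    simpa [abs_of_pos Real.pi_pos] using this
  have hΔ : 0 < ‖ModularForm.discriminant τ0‖ :=
    norm_pos_iff.2 (ModularForm.discriminant_ne_zero τ0)
  have hΩ : 0 < ‖Ω‖ ^ 12 := by
    have : 0 < ‖Ω‖ ^ 12 * 12 ^ 6 := by rw [h1]; positivity
    linarith
  have h2 : ‖ModularForm.discriminant τ0‖ ≤ ‖Ω‖ ^ 12 * 12 ^ 6 := by
    rw [h1]
    exact le_mul_of_one_le_left hΔ.le (one_le_pow₀ (by linarith [Real.pi_gt_three]))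
  have h3 : 1 + ‖jInv τ0‖ ≤ 2 * max 1 ‖jInv τ0‖ := by
    linarith [le_max_left 1 ‖jInv τ0‖, le_max_right 1 ‖jInv τ0‖]
  have h4 : 1 ≤ C * (τ0.im ^ 6 * (‖Ω‖ ^ 12 * 12 ^ 6) * (2 * max 1 ‖jInv τ0‖)) := by
    refine (H τ0).1.trans ?_
    unfold ZP3.del
    gcongr
  have h5 : Hn τ (Ω⁻¹ • v) ^ 6 = Hn τ v ^ 6 / ‖Ω‖ ^ 12 := by
    rw [hH.smul, Complex.normSq_eq_norm_sq, norm_inv, mul_pow, ← pow_mul, inv_pow, mul_comm,
      div_eq_mul_inv]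
  have h6 : 0 ≤ Hn τ v ^ 6 := by positivity
  rw [h5, div_le_iff₀ hΩ, NN]
  refine (le_mul_of_one_le_right h6 h4).trans_eq (by ring)

end T80A

open T80A in
theorem st_ARC (hB : St_BAS) (hH : St_HERM) (hS : St_SYMK) (hR : St_RED) (hG : St_GAUGE) :
    St_ARC := by
  obtain ⟨C1, p1, H1⟩ := gauge_le hB hH hS hR hG
  obtain ⟨C2, p2, H2⟩ := herm_le hH
  refine ⟨1 + C1 ^ 6 * C2, le_add_of_nonneg_right (by positivity), fun x τ v τ0 Ω hx hN ↦ ?_⟩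
  obtain ⟨m, h1, h2, h3⟩ := H1 x τ hx
  refine ⟨m, h1, h2, fun g h ↦ ?_⟩
  obtain ⟨n, hn⟩ := num_le hG hx (Ω⁻¹ • v) g h
  refine ⟨n, (pow_le_pow_left₀ (norm_nonneg _) hn 12).trans ?_⟩
  rw [mul_pow]
  refine mul_le_mul_of_nonneg_right ?_ (by positivity)
  have h4 := pow_le_pow_left₀ (sq_nonneg _) (h3 (Ω⁻¹ • v)) 6
  have h5 := H2 τ v τ0 Ω hN
  generalize 1 + Real.log (‖x‖ / ‖x m‖) = L at h4 ⊢
  have h6 : 0 ≤ NN τ v τ0 ^ 6 * max 1 ‖jInv τ0‖ * L ^ 6 := by positivity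
  calc gauge τ (Ω⁻¹ • v) ^ 12 = (gauge τ (Ω⁻¹ • v) ^ 2) ^ 6 := by ring
    _ ≤ C1 ^ 6 * L ^ 6 * Hn τ (Ω⁻¹ • v) ^ 6 := by rw [← mul_pow, ← mul_pow]; exact h4
    _ ≤ C1 ^ 6 * L ^ 6 * (C2 * (NN τ v τ0 ^ 6 * max 1 ‖jInv τ0‖)) := by gcongr
    _ ≤ _ := by linarith

end Pool.Agent.Lib.ECM
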