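import Pool.Agent.Lib.ECM.HBlue

/-! Clearing denominators (block CLR). -/

open Polynomial

namespace Pool.Agent.Lib.ECM

theorem st_CLR : St_CLR := by
  intro ι d σ f e he
  refine ⟨∑ m ∈ f.support, C (C (f.coeff m) * d ^ (e - m.sum fun _ k ↦ k)) *
    ∏ i ∈ m.support, σ i ^ m i, fun K _ _ t x hd ↦ ?_⟩
  rw [MvPolynomial.aeval_def, MvPolynomial.eval₂_eq, Finset.mul_sum, Polynomial.map_sum,
    eval_finsetSum]
  refine Finset.sum_congr rfl fun m hm ↦ ?_
  have hle : (m.sum fun _ k ↦ k) ≤ e := (MvPolynomial.le_totalDegree hm).trans he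
  have hp : aeval t d ^ e = aeval t d ^ (e - m.sum fun _ k ↦ k) * ∏ i ∈ m.support, aeval t d ^ m i := by
    rw [Finset.prod_pow_eq_pow_sum, ← pow_add]
    congr 1
    exact (Nat.sub_add_cancel hle).symm
  have hq : ∀ i ∈ m.support, (((σ i).map (aeval t).toRingHom).eval x) ^ m i =
      aeval t d ^ m i * (((σ i).map (aeval t).toRingHom).eval x / aeval t d) ^ m i := by
    intro i _
    rw [← mul_pow, mul_div_cancel₀ _ hd]
  rw [hp, Polynomial.map_mul, map_C, Polynomial.map_prod, eval_mul, eval_C, eval_prod]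
  simp only [Polynomial.map_pow, eval_pow]
  rw [Finset.prod_congr rfl hq, Finset.prod_mul_distrib]
  simp only [AlgHom.toRingHom_eq_coe, RingHom.coe_coe, map_mul, map_pow, aeval_C]
  ring

end Pool.Agent.Lib.ECM
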