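import Pool.Agent.Lib.ECM.HBlue

/-! Block GEN: a plane model adapted to a sequence of points. -/

open Polynomial Filter Topology

namespace Pool.Agent.Lib.ECM

namespace T10

theorem prim {R K ι : Type} [CommRing R] [IsDomain R] [CharZero R] [Field K] [Algebra R K]
    [FaithfulSMul R K] [Fintype ι] (s : ι → K) (hs : ∀ j, IsAlgebraic R (s j)) :
    ∃ (x : K) (d : R) (σ : ι → R[X]), IsIntegral R x ∧ d ≠ 0 ∧
      ∀ j, algebraMap R K d * s j = aeval x (σ j) := by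
  classical
  let _ : Algebra (FractionRing R) K := FractionRing.liftAlgebra R K
  have := FractionRing.isScalarTower_liftAlgebra R K
  set F := FractionRing R
  have : CharZero F := charZero_of_injective_algebraMap (IsFractionRing.injective R F)
  set K' := IntermediateField.adjoin F (Set.range s)
  have : FiniteDimensional F K' := IntermediateField.finiteDimensional_adjoin fun _ ⟨i, e⟩ ↦
    e ▸ ((IsFractionRing.isAlgebraic_iff R F K).1 (hs i)).isIntegral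
  obtain ⟨α, hα⟩ := Field.exists_primitive_element F K'
  have a1 : IsAlgebraic F α := Algebra.IsAlgebraic.isAlgebraic α
  have a2 : IsAlgebraic R (α : K) :=
    (IsFractionRing.isAlgebraic_iff R F K).2 (a1.algHom K'.val)
  obtain ⟨y, hy, hi⟩ := a2.exists_integral_multiple
  have a3 : (α : K) ∈ Algebra.adjoin F {y • (α : K)} := by
    have y0 : algebraMap R F y ≠ 0 := (map_ne_zero_iff _ (IsFractionRing.injective R F)).2 hy
    have := (Algebra.adjoin F {y • (α : K)}).smul_mem (Algebra.self_mem_adjoin_singleton F _)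
      (algebraMap R F y)⁻¹
    rwa [← algebraMap_smul F y, inv_smul_smul₀ y0, algebraMap_smul] at this
  have a4 : ∀ j, ∃ (b : R) (τ : R[X]), b ≠ 0 ∧
      algebraMap R K b * s j = aeval (y • (α : K)) τ := by
    intro j
    have m : (⟨s j, IntermediateField.subset_adjoin F _ ⟨j, rfl⟩⟩ : K') ∈
        Algebra.adjoin F {α} := by
      rw [← IntermediateField.adjoin_simple_toSubalgebra_of_isAlgebraic a1, hα]
      trivial
    rw [Algebra.adjoin_singleton_eq_range_aeval] at m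
    obtain ⟨p, hp⟩ := m
    have m2 : s j ∈ Algebra.adjoin F {y • (α : K)} := by
      have e : s j = aeval (α : K) p := by
        have := aeval_algHom_apply K'.val α p
        rw [show aeval α p = _ from hp] at this
        exact this.symm
      rw [e]
      exact Algebra.adjoin_le (Set.singleton_subset_iff.2 a3) (aeval_mem_adjoin_singleton F _)
    obtain ⟨b, hb⟩ := multiple_mem_adjoin_of_mem_localization_adjoin (nonZeroDivisors R) F _ _ m2
    rw [Algebra.adjoin_singleton_eq_range_aeval] at hb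
    obtain ⟨τ, hτ⟩ := hb
    exact ⟨b, τ, nonZeroDivisors.ne_zero b.2, by
      rw [← Algebra.smul_def]; exact hτ.symm⟩
  choose b τ hb hτ using a4
  refine ⟨_, ∏ j, b j, fun j ↦ C (∏ i ∈ Finset.univ.erase j, b i) * τ j, hi,
    Finset.prod_ne_zero_iff.2 fun j _ ↦ hb j, fun j ↦ ?_⟩
  rw [map_mul, aeval_C, ← hτ, ← mul_assoc, ← map_mul,
    Finset.prod_erase_mul _ _ (Finset.mem_univ j)]

theorem alg_of {R K : Type} [CommRing R] [Field K] [Algebra R K] {x w : K} (hx : IsIntegral R x)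
    {M : ℕ} (G : Fin (M + 1) → R[X]) (a : Fin (M + 1)) (ha : aeval x (G a) ≠ 0)
    (h : ∑ a, aeval x (G a) * w ^ (a : ℕ) = 0) : IsAlgebraic R w := by
  have m : ∀ a, aeval x (G a) ∈ integralClosure R K := fun a ↦
    adjoin_le_integralClosure hx (aeval_mem_adjoin_singleton R x)
  refine IsAlgebraic.restrictScalars_of_isIntegral R (S := integralClosure R K)
    ⟨∑ a : Fin (M + 1), monomial (a : ℕ) ⟨_, m a⟩, fun h0 ↦ ha ?_, ?_⟩
  · have := congrArg (coeff · a) h0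
    simp only [finsetSum_coeff, coeff_monomial, Fin.val_inj, Finset.sum_ite_eq', Finset.mem_univ,
      if_true, coeff_zero] at this
    exact congrArg Subtype.val this
  · simp only [map_sum, aeval_monomial]
    exact h

/-- value of a polynomial in two variables in any field -/
noncomputable def E {K : Type} [Field K] [Algebra ℚ K] (g : ℚ[X][X]) (t x : K) : K :=
  (g.map (aeval t).toRingHom).eval x

theorem alg {K ι : Type} [Field K] [Algebra ℚ K] [Fintype ι] (t : K)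
    (ht : ∀ p : ℚ[X], aeval t p = 0 → p = 0) (s : ι → K)
    (hs : ∀ j, ∃ f : ℚ[X][X], f ≠ 0 ∧ E f t (s j) = 0) :
    ∃ (P : ℚ[X][X]) (d : ℚ[X]) (σ : ι → ℚ[X][X]) (x : K), P.Monic ∧ Irreducible P ∧ d ≠ 0 ∧
      (∀ g, E g t x = 0 ↔ P ∣ g) ∧ (∀ j, aeval t d * s j = E (σ j) t x) ∧
      ∀ (w : K) (M : ℕ) (G : Fin (M + 1) → ℚ[X][X]), (∃ a, ¬ P ∣ G a) →
        ∑ a, E (G a) t x * w ^ (a : ℕ) = 0 → ∃ f : ℚ[X][X], f ≠ 0 ∧ E f t w = 0 := by
  let _ : Algebra ℚ[X] K := (aeval t).toRingHom.toAlgebra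
  have : FaithfulSMul ℚ[X] K :=
    (faithfulSMul_iff_algebraMap_injective _ _).2 ((injective_iff_map_eq_zero _).2 ht)
  have e : ∀ (g : ℚ[X][X]) (x : K), E g t x = aeval x g := fun g x ↦ eval_map_algebraMap g x
  simp only [e] at hs ⊢
  obtain ⟨x, d, σ, hx, hd, h⟩ := prim (R := ℚ[X]) s hs
  refine ⟨minpoly ℚ[X] x, d, σ, x, minpoly.monic hx, minpoly.irreducible hx, hd,
    minpoly.isIntegrallyClosed_dvd_iff hx, h, fun w M G ⟨a, ha⟩ h0 ↦ ?_⟩
  exact alg_of hx G a (fun h1 ↦ ha ((minpoly.isIntegrallyClosed_dvd_iff hx _).1 h1)) h0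

section

variable {K : Type} [Field K] [Algebra ℚ K] (Φ : (ℕ → ℂ) →+* K)

theorem tr1 (t : ℕ → ℂ) (p : ℚ[X]) : aeval (Φ t) p = Φ fun n ↦ aeval (t n) p := by
  have : (aeval (Φ t) : ℚ[X] →ₐ[ℚ] K).toRingHom =
      Φ.comp (RingHom.pi fun n ↦ (aeval (t n) : ℚ[X] →ₐ[ℚ] ℂ).toRingHom) := by
    refine ringHom_ext' (RingHom.ext_rat _ _) ?_
    simp only [AlgHom.toRingHom_eq_coe, RingHom.coe_coe, aeval_X, RingHom.coe_comp,
      Function.comp_apply]
    exact congrArg Φ (funext fun n ↦ (aeval_X (t n)).symm)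
  exact RingHom.congr_fun this p

theorem tr2 (t x : ℕ → ℂ) (g : ℚ[X][X]) : E g (Φ t) (Φ x) = Φ fun n ↦ e2 g (t n) (x n) := by
  induction g using Polynomial.induction_on' with
  | add p q hp hq =>
    simp only [E, e2, Polynomial.map_add, eval_add] at hp hq ⊢
    rw [hp, hq, ← map_add]
    rfl
  | monomial k a =>
    simp only [E, e2, Polynomial.map_monomial, eval_monomial, AlgHom.toRingHom_eq_coe,
      RingHom.coe_coe]
    rw [tr1, ← map_pow, ← map_mul]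
    rfl

theorem tr3 {ι : Type} (s : ℕ → ι → ℂ) (f : MvPolynomial ι ℚ) :
    MvPolynomial.aeval (fun i ↦ Φ fun n ↦ s n i) f = Φ fun n ↦ ev (s n) f := by
  have : (MvPolynomial.aeval (fun i ↦ Φ fun n ↦ s n i) : MvPolynomial ι ℚ →ₐ[ℚ] K).toRingHom =
      Φ.comp (RingHom.pi fun n ↦
        (MvPolynomial.aeval (s n) : MvPolynomial ι ℚ →ₐ[ℚ] ℂ).toRingHom) := by
    refine MvPolynomial.ringHom_ext' (RingHom.ext_rat _ _) fun i ↦ ?_
    simp only [AlgHom.toRingHom_eq_coe, RingHom.coe_coe, MvPolynomial.aeval_X, RingHom.coe_comp,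
      Function.comp_apply]
    exact congrArg Φ (funext fun n ↦ (MvPolynomial.aeval_X (s n) i).symm)
  exact RingHom.congr_fun this f

end

theorem not_dvd {P : ℚ[X][X]} (hm : P.Monic) (hi : Irreducible P) : ¬ P ∣ derivative P := by
  intro h
  have h0 : P.natDegree ≠ 0 := fun h0 ↦ hi.not_isUnit (hm.natDegree_eq_zero.1 h0 ▸ isUnit_one)
  exact (natDegree_derivative_lt h0).not_ge (natDegree_le_of_dvd h (derivative_ne_zero.2 h0))

theorem nodup (hNM : St_NM) {P : ℚ[X][X]} (hm : P.Monic) {t : ℂ}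
    (h : aeval t (Nm P (derivative P)) ≠ 0) : (rts P t).Nodup := by
  classical
  rw [(hNM P hm).2.2.1] at h
  refine Multiset.nodup_iff_count_le_one.2 fun x ↦ not_lt.1 fun hx ↦ h ?_
  have hx' := hx
  rw [rts, count_roots, one_lt_rootMultiplicity_iff_isRoot (hm.map _).ne_zero,
    derivative_map] at hx'
  exact Multiset.prod_eq_zero (Multiset.mem_map.2 ⟨x, Multiset.count_pos.1 (by omega), hx'.2⟩)

theorem main (hNM : St_NM) (hCLR : St_CLR) {K : Type} [Field K] [Algebra ℚ K]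
    (Φ : (ℕ → ℂ) →+* K) (U : Ultrafilter ℕ) (hsur : Function.Surjective Φ)
    (hΦ : ∀ f g, Φ f = Φ g ↔ ∀ᶠ n in U, f n = g n)
    (ι : Type) [Fintype ι] (Z : Set (ι → ℂ)) (T : Set (MvPolynomial ι ℚ))
    (F : Set (ι → ℂ)) (hF : F.Finite) (hT : ∀ s ∈ Z, ∀ f ∈ T, ev s f = 0)
    (hZ : ∀ s, (∀ f ∈ T, ev s f = 0) → s ∉ F → s ∈ Z)
    (hdim : ∀ i j, ∃ f : ℚ[X][X], f ≠ 0 ∧ ∀ s ∈ Z, e2 f (s i) (s j) = 0)
    (s : ℕ → ι → ℂ) (w : ℕ → ℂ) (hs : ∀ n, s n ∈ Z) (hne : ∀ p, ∀ᶠ n in U, s n ≠ p) :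
    ∃ (P : ℚ[X][X]) (d : ℚ[X]) (σ : ι → ℚ[X][X]) (i0 : ι) (S : Finset ℂ) (x : ℕ → ℂ),
    Model Z P d σ i0 S ∧ (∀ p, ∀ᶠ n in U, s n i0 ≠ p) ∧
    (∀ᶠ n in U, x n ∈ rts P (s n i0) ∧ ∀ i, s n i = e2 (σ i) (s n i0) (x n) / aeval (s n i0) d) ∧
    ((∃ ω : ℚ[X][X], ∀ᶠ n in U, w n = e2 ω (s n i0) (x n) / aeval (s n i0) d) ∨
      ∀ (M : ℕ) (G : Fin (M + 1) → ℚ[X][X]), (∃ a, ¬ P ∣ G a) →
        ∀ᶠ n in U, ∑ a, e2 (G a) (s n i0) (x n) * w n ^ (a : ℕ) ≠ 0) := by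
  classical
  have h0 : ∀ f, Φ f = 0 ↔ ∀ᶠ n in U, f n = 0 := fun f ↦ by
    rw [← map_zero Φ]; exact hΦ f 0
  have fin : ∀ A : ι → Set ℂ, (∀ i, (A i).Finite) → ¬ ∀ i, ∀ᶠ n in U, s n i ∈ A i := by
    intro A hA h
    have h1 := (eventually_all_finite (Set.Finite.pi' hA)).2 fun p _ ↦ hne p
    obtain ⟨n, a, b⟩ := (h1.and (eventually_all.2 h)).exists
    exact a (s n) b rfl
  obtain ⟨i0, ht⟩ : ∃ i0, ∀ p : ℚ[X], aeval (Φ fun n ↦ s n i0) p = 0 → p = 0 := by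
    by_contra h
    simp only [not_exists, not_forall] at h
    choose p hp hp0 using h
    refine fin (fun i ↦ (p i).rootSet ℂ) (fun i ↦ rootSet_finite _ _) fun i ↦ ?_
    have := hp i
    rw [tr1, h0] at this
    exact this.mono fun n hn ↦ mem_rootSet.2 ⟨hp0 i, hn⟩
  set t := Φ fun n ↦ s n i0 with htd
  have hne0 : ∀ p, ∀ᶠ n in U, s n i0 ≠ p := by
    intro p
    refine Ultrafilter.eventually_not.2 fun h ↦ ?_
    choose f hf hfs using hdim i0
    have inj : Function.Injective (aeval p : ℚ[X] →ₐ[ℚ] ℂ).toRingHom :=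
      (injective_iff_map_eq_zero _).2 fun q hq ↦ ht q (by
        rw [tr1, h0]
        exact h.mono fun n hn ↦ by rw [hn]; exact hq)
    refine fin (fun j ↦ {z | ((f j).map (aeval p).toRingHom).IsRoot z})
      (fun j ↦ finite_setOfPred_isRoot ((Polynomial.map_ne_zero_iff inj).2 (hf j))) fun j ↦ ?_
    exact h.mono fun n hn ↦ by
      have := hfs j _ (hs n)
      rwa [hn] at this
  have hal : ∀ j, ∃ f : ℚ[X][X], f ≠ 0 ∧ E f t (Φ fun n ↦ s n j) = 0 := fun j ↦ by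
    obtain ⟨f, hf, h⟩ := hdim i0 j
    exact ⟨f, hf, by rw [tr2, h0]; exact Eventually.of_forall fun n ↦ h _ (hs n)⟩
  obtain ⟨P, d, σ0, x0, hm, hi, hd, hk, hσ0, hw⟩ : ∃ (P : ℚ[X][X]) (d : ℚ[X]) (σ : ι → ℚ[X][X])
      (x : K), P.Monic ∧ Irreducible P ∧ d ≠ 0 ∧ (∀ g, E g t x = 0 ↔ P ∣ g) ∧
      (∀ j, aeval t d * (Φ fun n ↦ s n j) = E (σ j) t x) ∧
      ((∃ ω, aeval t d * Φ w = E ω t x) ∨ ∀ (M : ℕ) (G : Fin (M + 1) → ℚ[X][X]),
        (∃ a, ¬ P ∣ G a) → ∑ a, E (G a) t x * Φ w ^ (a : ℕ) ≠ 0) := by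
    by_cases hw : ∃ f : ℚ[X][X], f ≠ 0 ∧ E f t (Φ w) = 0
    · obtain ⟨P, d, σ, x, a1, a2, a3, a4, a5, -⟩ := alg t ht
        (fun o : Option ι ↦ o.elim (Φ w) fun j ↦ Φ fun n ↦ s n j) fun o ↦ by
          cases o
          exacts [hw, hal _]
      exact ⟨P, d, fun j ↦ σ (some j), x, a1, a2, a3, a4, fun j ↦ a5 (some j),
        Or.inl ⟨σ none, a5 none⟩⟩
    · obtain ⟨P, d, σ, x, a1, a2, a3, a4, a5, a6⟩ := alg t ht _ hal
      exact ⟨P, d, σ, x, a1, a2, a3, a4, a5, Or.inr fun M G hG h ↦ hw (a6 _ M G hG h)⟩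
  obtain ⟨x, rfl⟩ := hsur x0
  set σ := Function.update σ0 i0 (C (d * X)) with hσd
  have s0 : σ i0 = C (d * X) := Function.update_self ..
  have hσ : ∀ j, aeval t d * (Φ fun n ↦ s n j) = E (σ j) t (Φ x) := fun j ↦ by
    by_cases h : j = i0
    · rw [h, s0]
      simp [E, htd]
    · rw [hσd, Function.update_of_ne h]
      exact hσ0 j
  have d0 : aeval t d ≠ 0 := fun h ↦ hd (ht d h)
  have d1 : ∀ᶠ n in U, aeval (s n i0) d ≠ 0 :=
    Ultrafilter.eventually_not.2 fun h ↦ d0 (by rw [tr1, h0]; exact h)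
  have dv : ∀ (v : ℕ → ℂ) (g : ℚ[X][X]), aeval t d * Φ v = E g t (Φ x) →
      ∀ᶠ n in U, v n = e2 g (s n i0) (x n) / aeval (s n i0) d := fun v g h ↦ by
    rw [tr1, tr2, ← map_mul, hΦ] at h
    filter_upwards [h, d1] with n a b
    rw [eq_div_iff b, mul_comm]
    exact a
  have n0 : Nm P (derivative P) ≠ 0 := (hNM P hm).2.2.2 hi _ (not_dvd hm hi)
  refine ⟨P, d, σ, i0, ((d * Nm P (derivative P)).aroots ℂ).toFinset ∪
    hF.toFinset.image (· i0), x, ?_, hne0, ?_, ?_⟩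
  · have k : ∀ u, u ∉ ((d * Nm P (derivative P)).aroots ℂ).toFinset ∪
        hF.toFinset.image (· i0) → aeval u d ≠ 0 ∧ aeval u (Nm P (derivative P)) ≠ 0 ∧
          ∀ q ∈ F, q i0 ≠ u := fun u hu ↦ by
      simp only [Finset.mem_union, Multiset.mem_toFinset, mem_aroots, Finset.mem_image,
        Set.Finite.mem_toFinset, not_or, not_and, not_exists, map_mul, mul_eq_zero] at hu
      have := hu.1 (mul_ne_zero hd n0)
      exact ⟨this.1, this.2, hu.2⟩
    refine ⟨hm, hi, s0, fun u hu ↦ (k u hu).1, fun u hu ↦ nodup hNM hm (k u hu).2.1,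
      fun u hu y hy ↦ hZ _ (fun f hf ↦ ?_) fun hq ↦ (k u hu).2.2 _ hq ?_⟩
    · obtain ⟨g, hg⟩ := hCLR ι d σ f _ le_rfl
      have a1 : E g t (Φ x) = 0 := by
        have e : (fun i ↦ ((σ i).map (aeval t).toRingHom).eval (Φ x) / aeval t d) =
            fun i ↦ Φ fun n ↦ s n i := funext fun i ↦ by
          rw [div_eq_iff d0, mul_comm]
          exact (hσ i).symm
        rw [E, hg K t (Φ x) d0, e, tr3,
          (h0 _).2 (Eventually.of_forall fun n ↦ hT _ (hs n) f hf), mul_zero]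
      obtain ⟨q, rfl⟩ := (hk g).1 a1
      have a2 := hg ℂ u y (k u hu).1
      have a3 : (P.map (aeval u).toRingHom).eval y = 0 := ((hNM P hm).2.1 u y).1 hy
      rw [Polynomial.map_mul, eval_mul, a3, zero_mul] at a2
      exact (mul_eq_zero.1 a2.symm).resolve_left (pow_ne_zero _ (k u hu).1)
    · rw [s0, div_eq_iff (k u hu).1]
      simp [e2, mul_comm]
  · have a1 := (hk P).2 dvd_rfl
    rw [tr2, h0] at a1
    filter_upwards [a1, eventually_all.2 fun j ↦ dv _ _ (hσ j)] with n a b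
    exact ⟨((hNM P hm).2.1 _ _).2 a, b⟩
  · refine hw.imp (fun ⟨ω, h⟩ ↦ ⟨ω, dv _ _ h⟩) fun h M G hG ↦
      Ultrafilter.eventually_not.2 fun a ↦ h M G hG ?_
    simp only [htd, tr2, ← map_pow, ← map_mul, ← map_sum]
    exact (h0 _).2 (a.mono fun n hn ↦ by simpa using hn)

end T10

theorem st_GEN (hNM : St_NM) (hCLR : St_CLR) : St_GEN := by
  intro ι _ Z T F hF hT hZ hdim U s w hs hne
  have : CharZero (Germ (U : Filter ℕ) ℂ) := ⟨fun a b h ↦ by
    have := (map_natCast (Germ.coeRingHom (R := ℂ) (U : Filter ℕ)) a).trans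
      (h.trans (map_natCast (Germ.coeRingHom (R := ℂ) (U : Filter ℕ)) b).symm)
    obtain ⟨n, hn⟩ := (Germ.coe_eq.1 this).exists
    simpa using hn⟩
  exact T10.main hNM hCLR (Germ.coeRingHom (U : Filter ℕ)) U
    (fun g ↦ Germ.inductionOn g fun f ↦ ⟨f, rfl⟩) (fun f g ↦ Germ.coe_eq) ι Z T F hF hT hZ hdim
    s w hs hne

end Pool.Agent.Lib.ECM
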