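import Pool.Agent.Lib.ECM.HBlue

/-! Integral linear forms in general position (moment curve). -/

namespace Pool.Agent.Lib.ECM

open Finset

/-- pigeonhole: if each object has at most `r` bad indices, `n` objects share a good index -/
theorem gp_pigeon {α : Type} {m n r : ℕ} (hm : n * r ≤ m) (good : Fin (m + 1) → α → Prop)
    (h : ∀ (v : α) (s : Fin r → Fin (m + 1)) (a : Fin (m + 1)), Function.Injective s →
      ¬ good a v → ∃ k, good (s k) v) (z : Multiset α) (hz : z.card ≤ n) :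
    ∃ a, ∀ v ∈ z, good a v := by
  classical
  have hb : ∀ v, (univ.filter fun a ↦ ¬ good a v).card ≤ r := by
    intro v
    by_contra hc
    push Not at hc
    obtain ⟨a, ha⟩ := card_pos.1 (lt_of_le_of_lt (Nat.zero_le _) hc)
    obtain ⟨k, hk⟩ := h v (orderEmbOfCardLe _ hc.le) a (orderEmbOfCardLe _ hc.le).injective
      (mem_filter.1 ha).2
    exact (mem_filter.1 (orderEmbOfCardLe_mem _ hc.le k)).2 hk
  have hc : (z.toFinset.biUnion fun v ↦ univ.filter fun a ↦ ¬ good a v).card <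
      (univ : Finset (Fin (m + 1))).card := by
    have h1 := card_biUnion_le_card_mul z.toFinset (fun v ↦ univ.filter fun a ↦ ¬ good a v) r
      fun v _ ↦ hb v
    have h2 : z.toFinset.card * r ≤ n * r :=
      Nat.mul_le_mul_right _ ((Multiset.toFinset_card_le z).trans hz)
    rw [card_univ, Fintype.card_fin]
    omega
  obtain ⟨a, -, ha⟩ := exists_mem_notMem_of_card_lt_card hc
  refine ⟨a, fun v hv ↦ ?_⟩
  by_contra hg
  exact ha (mem_biUnion.2 ⟨v, Multiset.mem_toFinset.2 hv, mem_filter.2 ⟨mem_univ _, hg⟩⟩)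

/-- Cramer's rule for one choice of `r` points of the moment curve -/
theorem gp_cramer {J : Type} [Fintype J] {r m : ℕ} (e : J ≃ Fin r) (s : Fin r → Fin (m + 1)) :
    ∃ (D : ℤ) (A : J → Fin r → ℤ), D ≠ 0 ∧ (Function.Injective s → ∀ (v : J → ℂ) (j : J),
      (D : ℂ) * v j = ∑ k, (A j k : ℂ) * lc (fun i ↦ ((s k : ℕ) : ℤ) ^ (e i : ℕ)) v) := by
  classical
  by_cases hs : Function.Injective s
  swap
  · exact ⟨1, 0, one_ne_zero, fun h ↦ absurd h hs⟩
  set M : Matrix (Fin r) (Fin r) ℤ := Matrix.vandermonde fun k ↦ ((s k : ℕ) : ℤ) with hM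
  have hD : M.det ≠ 0 := Matrix.det_vandermonde_ne_zero_iff.2 fun a b hab ↦
    hs (Fin.ext (by exact_mod_cast hab))
  refine ⟨M.det, fun j k ↦ M.adjugate (e j) k, hD, fun _ v j ↦ ?_⟩
  have key : ∀ i : J, (∑ k, (M.adjugate (e j) k : ℂ) * (M k (e i) : ℂ)) =
      if j = i then (M.det : ℂ) else 0 := by
    intro i
    have h1 := congrFun (congrFun (Matrix.adjugate_mul M) (e j)) (e i)
    rw [Matrix.mul_apply, Matrix.smul_apply, Matrix.one_apply] at h1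
    have h2 := congrArg (Int.cast : ℤ → ℂ) h1
    push_cast at h2
    rw [h2]
    by_cases hji : j = i
    · simp [hji]
    · simp [hji]
  have h3 : ∀ k, lc (fun i ↦ ((s k : ℕ) : ℤ) ^ (e i : ℕ)) v = ∑ i, (M k (e i) : ℂ) * v i := by
    intro k
    simp only [lc, hM, Matrix.vandermonde_apply]
  simp only [h3, mul_sum]
  rw [sum_comm]
  have h4 : ∀ i, (∑ k, (M.adjugate (e j) k : ℂ) * ((M k (e i) : ℂ) * v i)) =
      (if j = i then (M.det : ℂ) else 0) * v i := by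
    intro i
    rw [← key, sum_mul]
    exact sum_congr rfl fun k _ ↦ (mul_assoc _ _ _).symm
  simp only [h4, ite_mul, zero_mul, sum_ite_eq, mem_univ, if_true]

/-- Cramer's rule with one denominator for all choices -/
theorem gp_uniform {J : Type} [Fintype J] {r : ℕ} (m : ℕ) (e : J ≃ Fin r) :
    ∃ (d : ℕ) (A : (Fin r → Fin (m + 1)) → J → Fin r → ℤ), 0 < d ∧ ∀ s, Function.Injective s →
      ∀ (v : J → ℂ) (j : J),
      (d : ℂ) * v j = ∑ k, (A s j k : ℂ) * lc (fun i ↦ ((s k : ℕ) : ℤ) ^ (e i : ℕ)) v := by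
  classical
  choose D A hD hA using fun s : Fin r → Fin (m + 1) ↦ gp_cramer e s
  have hP : (∏ s, D s) ≠ 0 := prod_ne_zero_iff.2 fun s _ ↦ hD s
  have hdv : ∀ s, ∃ c : ℤ, (((∏ s, D s).natAbs : ℕ) : ℤ) = c * D s := fun s ↦
    exists_eq_mul_left_of_dvd (Int.dvd_natAbs.2 (dvd_prod_of_mem D (mem_univ s)))
  choose c hc using hdv
  refine ⟨(∏ s, D s).natAbs, fun s j k ↦ c s * A s j k, Int.natAbs_pos.2 hP, fun s hs v j ↦ ?_⟩
  have h1 := congrArg (Int.cast : ℤ → ℂ) (hc s)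
  rw [Int.cast_natCast, Int.cast_mul] at h1
  rw [h1, mul_assoc, hA s hs v j, mul_sum]
  exact sum_congr rfl fun k _ ↦ by push_cast; ring

theorem st_GP : St_GP := by
  classical
  intro J _ n
  set r := Fintype.card J
  let e : J ≃ Fin r := Fintype.equivFin J
  obtain ⟨d, A, hd, hA⟩ := gp_uniform (n * r) e
  refine ⟨n * r, fun a i ↦ ((a : ℕ) : ℤ) ^ (e i : ℕ), ?_, d, hd, fun V z hz ↦ ?_⟩
  · set B : ℝ := ∑ s, ∑ j, ∑ k, ‖(A s j k : ℂ)‖ with hB
    have hle : ∀ s j, ∑ k, ‖(A s j k : ℂ)‖ ≤ B := fun s j ↦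
      (single_le_sum (f := fun j ↦ ∑ k, ‖(A s j k : ℂ)‖)
        (fun _ _ ↦ sum_nonneg fun _ _ ↦ norm_nonneg _) (mem_univ j)).trans
      (single_le_sum (f := fun s ↦ ∑ j, ∑ k, ‖(A s j k : ℂ)‖)
        (fun _ _ ↦ sum_nonneg fun _ _ ↦ sum_nonneg fun _ _ ↦ norm_nonneg _) (mem_univ s))
    have hB0 : 0 ≤ B :=
      sum_nonneg fun _ _ ↦ sum_nonneg fun _ _ ↦ sum_nonneg fun _ _ ↦ norm_nonneg _
    refine ⟨B + 1, by linarith, fun z hz ↦ ?_⟩
    refine gp_pigeon (r := r) le_rfl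
      (fun a v ↦ ∀ j, ‖v j‖ ≤ (B + 1) * ‖lc (fun i ↦ ((a : ℕ) : ℤ) ^ (e i : ℕ)) v‖) ?_ z hz
    intro v s a hs ha
    obtain ⟨j0, -⟩ := not_forall.1 ha
    have : Nonempty (Fin r) := ⟨e j0⟩
    obtain ⟨k0, hk0⟩ := Finite.exists_max fun k ↦ ‖lc (fun i ↦ ((s k : ℕ) : ℤ) ^ (e i : ℕ)) v‖
    refine ⟨k0, fun j ↦ ?_⟩
    have h0 := norm_nonneg (lc (fun i ↦ ((s k0 : ℕ) : ℤ) ^ (e i : ℕ)) v)
    have h1 : ‖(d : ℂ) * v j‖ ≤ B * ‖lc (fun i ↦ ((s k0 : ℕ) : ℤ) ^ (e i : ℕ)) v‖ := by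
      rw [hA s hs v j]
      refine (norm_sum_le _ _).trans (le_trans ?_ (mul_le_mul_of_nonneg_right (hle s j) h0))
      rw [sum_mul]
      exact sum_le_sum fun k _ ↦ by
        rw [norm_mul]; exact mul_le_mul_of_nonneg_left (hk0 k) (norm_nonneg _)
    rw [norm_mul, Complex.norm_natCast] at h1
    have h2 : (1 : ℝ) ≤ d := by exact_mod_cast hd
    nlinarith [norm_nonneg (v j)]
  · refine gp_pigeon (r := r) le_rfl (fun a v ↦ ∀ j, V.valuation (d * v j) ≤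
      V.valuation (lc (fun i ↦ ((a : ℕ) : ℤ) ^ (e i : ℕ)) v)) ?_ z hz
    intro v s a hs ha
    obtain ⟨j0, -⟩ := not_forall.1 ha
    have : Nonempty (Fin r) := ⟨e j0⟩
    obtain ⟨k0, hk0⟩ := Finite.exists_max fun k ↦
      V.valuation (lc (fun i ↦ ((s k : ℕ) : ℤ) ^ (e i : ℕ)) v)
    refine ⟨k0, fun j ↦ ?_⟩
    rw [hA s hs v j]
    refine V.valuation.map_sum_le fun k _ ↦ ?_
    rw [map_mul]
    exact (mul_le_of_le_one_left' ((V.valuation_le_one_iff _).2 (intCast_mem V _))).trans (hk0 k)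

end Pool.Agent.Lib.ECM
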