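import Pool.Agent.Lib.ECM.HBlue

/-! A value with two expansions bounds the height from below (MP_0704bf_ag). -/

open Polynomial

namespace Pool.Agent.Lib.ECM

namespace T23

theorem deg_le {d u p : ℚ[X]} {r b k : ℕ} (hd : d ≠ 0) (hu : u = 0 ∨ u.natDegree + r ≤ d.natDegree)
    (hp : p.natDegree ≤ k) (hb : b ≤ r + (d.natDegree + k)) :
    (X ^ b / d * u + X ^ b % d * p).natDegree ≤ d.natDegree + k := by
  refine (natDegree_add_le _ _).trans (max_le ?_ ?_)
  · rcases hu with rfl | hu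
    · simp
    · by_cases hq : (X ^ b / d : ℚ[X]) = 0
      · simp [hq]
      · have h1 : degree d ≤ degree (X ^ b : ℚ[X]) := by
          by_contra h
          exact hq ((Polynomial.div_eq_zero_iff hd).2 (not_le.1 h))
        have h2 := degree_add_div hd h1
        rw [degree_eq_natDegree hd, degree_eq_natDegree hq, degree_X_pow] at h2
        have h3 : d.natDegree + (X ^ b / d : ℚ[X]).natDegree = b := by exact_mod_cast h2
        refine natDegree_mul_le.trans ?_
        omega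
  · refine natDegree_mul_le.trans (add_le_add ?_ hp)
    exact natDegree_le_natDegree (degree_mod_lt _ hd).le

theorem int_aeval {t : ℂ} (h : IsAlgebraic ℚ t) (q : ℚ[X]) : IsIntegral ℚ (aeval t q) := by
  rw [aeval_eq_sum_range]
  exact IsIntegral.sum _ fun i _ ↦ (h.isIntegral.pow i).smul _

end T23

theorem st_HSTEP (hT1 : St_HT1) (hT3 : St_HT3) : St_HSTEP := by
  intro β _ p u d r hd hu
  obtain ⟨_, hs, _, hg, _⟩ := hT1
  obtain ⟨hl, hp, _⟩ := hT3
  obtain ⟨m, hm⟩ : ∃ m, m = d.natDegree + Finset.univ.sup fun i ↦ (p i).natDegree := ⟨_, rfl⟩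
  let W : ℕ → β → ℚ[X] := fun b i ↦ X ^ b / d * u i + X ^ b % d * p i
  obtain ⟨C, hC⟩ := hl (Fin (m + 1) × β) (Fin (r + m + 1)) fun b c ↦ (W b c.2).coeff c.1
  refine ⟨C, fun t z ht0 hz hF he ↦ ?_⟩
  have a1 : ∀ n : ℕ, AlgT fun b : Fin (n + 1) ↦ t ^ (b : ℕ) := fun n b ↦ ht0.pow _
  have a2 : IsAlgebraic ℚ (∑ i, aeval t (p i) * z i) :=
    (IsIntegral.sum _ fun i _ ↦ (T23.int_aeval ht0 (p i)).mul (hz i).isIntegral).isAlgebraic
  have z0 : z ≠ 0 := by
    rintro rfl
    simp at hF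
  have t0 : (fun b : Fin (m + 1) ↦ t ^ (b : ℕ)) ≠ 0 := fun h ↦ by simpa using congrFun h 0
  have k := hC (fun c ↦ t ^ (c.1 : ℕ) * z c.2) fun c ↦ (a1 m c.1).mul (hz c.2)
  have e : (fun b : Fin (r + m + 1) ↦ ∑ c : Fin (m + 1) × β,
      (((W b c.2).coeff c.1 : ℚ) : ℂ) * (t ^ (c.1 : ℕ) * z c.2)) =
      fun b : Fin (r + m + 1) ↦ (∑ i, aeval t (p i) * z i) * t ^ (b : ℕ) := by
    funext b
    have e1 : ∀ i, ∑ c : Fin (m + 1), (((W b i).coeff c : ℚ) : ℂ) * (t ^ (c : ℕ) * z i) =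
        aeval t (W b i) * z i := fun i ↦ by
      have hw : (W b i).natDegree < m + 1 := Nat.lt_succ_of_le
        ((T23.deg_le hd (hu i) (Finset.le_sup (f := fun i ↦ (p i).natDegree) (Finset.mem_univ i))
          (hm ▸ Nat.lt_succ_iff.1 b.2)).trans hm.ge)
      rw [aeval_eq_sum_range' hw, Finset.sum_range, Finset.sum_mul]
      exact Finset.sum_congr rfl fun c _ ↦ by rw [Rat.smul_def, mul_assoc]
    have e2 : t ^ (b : ℕ) = aeval t d * aeval t (X ^ (b : ℕ) / d) + aeval t (X ^ (b : ℕ) % d) := by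
      rw [← map_mul, ← map_add, EuclideanDomain.div_add_mod, map_pow, aeval_X]
    rw [Fintype.sum_prod_type_right, Finset.sum_congr rfl fun i _ ↦ e1 i, e2, mul_add,
      ← mul_assoc, mul_comm _ (aeval t d), he, Finset.sum_mul, Finset.sum_mul,
      ← Finset.sum_add_distrib]
    exact Finset.sum_congr rfl fun i _ ↦ by simp only [W, map_add, map_mul]; ring
  rw [e, hs _ _ _ (a1 _) a2 hF, hp t _ ht0, hg _ _ _ _ (a1 m) hz t0 z0, hp t _ ht0] at k
  push_cast at k
  linarith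

end Pool.Agent.Lib.ECM
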