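import Pool.Agent.Lib.ECM.B_HT0

/-! Block HT1: formal properties of the absolute height. -/

open NumberField Height

namespace Pool.Agent.Lib.ECM

namespace T42

theorem exists_nf {ι : Type} [Finite ι] {x : ι → ℂ} (h : AlgT x) :
    ∃ (L : Type) (_ : Field L) (_ : NumberField L) (e : L →+* ℂ) (x' : ι → L),
      x = fun i ↦ e (x' i) :=
  ⟨fld x, inferInstance, h.nf, (fld x).subtype,
    fun i ↦ ⟨x i, IntermediateField.subset_adjoin ℚ _ ⟨i, rfl⟩⟩, rfl⟩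

theorem exists_nf2 {ι κ : Type} [Finite ι] [Finite κ] {x : ι → ℂ} {y : κ → ℂ} (hx : AlgT x)
    (hy : AlgT y) : ∃ (L : Type) (_ : Field L) (_ : NumberField L) (e : L →+* ℂ) (x' : ι → L)
      (y' : κ → L), (x = fun i ↦ e (x' i)) ∧ y = fun i ↦ e (y' i) := by
  obtain ⟨L, _, _, e, z, hz⟩ := exists_nf (x := Sum.elim x y) (by rintro (i | i); exacts [hx i, hy i])
  exact ⟨L, _, ‹_›, e, fun i ↦ z (.inl i), fun i ↦ z (.inr i), funext fun i ↦ congrFun hz (.inl i),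
    funext fun i ↦ congrFun hz (.inr i)⟩

theorem ne_of_emb {L ι : Type} [Field L] {e : L →+* ℂ} {x : ι → L} (h : (fun i ↦ e (x i)) ≠ 0) :
    x ≠ 0 := by
  rintro rfl
  exact h (by ext; simp)

theorem rk_pos (L : Type) [Field L] [NumberField L] : (0 : ℝ) < Module.finrank ℚ L :=
  Nat.cast_pos.2 Module.finrank_pos

end T42

open T42

variable {ι κ : Type} [Fintype ι] [Fintype κ]

theorem ht_nonneg (x : ι → ℂ) : 0 ≤ ht x := by
  unfold ht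
  split_ifs with h
  · have := h.nf
    exact div_nonneg (logHeight_nonneg _) (Nat.cast_nonneg _)
  · exact le_rfl

theorem h1_nonneg (t : ℂ) : 0 ≤ h1 t := ht_nonneg _

theorem ht_smul {x : ι → ℂ} {c : ℂ} (hx : AlgT x) (hc : IsAlgebraic ℚ c) (h0 : c ≠ 0) :
    ht (fun i ↦ c * x i) = ht x := by
  obtain ⟨L, _, _, e, x, c', rfl, hc'⟩ := exists_nf2 (y := fun _ : Unit ↦ c) hx fun _ ↦ hc
  obtain rfl : c = e (c' ()) := congrFun hc' ()
  simp only [← map_mul]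
  rw [st_HT0, st_HT0, ← logHeight_smul_eq_logHeight x ((map_ne_zero e).1 h0)]
  rfl

theorem ht_comp {x : κ → ℂ} (f : ι → κ) (hx : AlgT x) : ht (fun i ↦ x (f i)) ≤ ht x := by
  obtain ⟨L, _, _, e, x, rfl⟩ := exists_nf hx
  rw [st_HT0 ι L e fun i ↦ x (f i), st_HT0]
  exact div_le_div_of_nonneg_right (logHeight_comp_le f x) (rk_pos L).le

theorem ht_segre {x : ι → ℂ} {y : κ → ℂ} (hx : AlgT x) (hy : AlgT y) (x0 : x ≠ 0) (y0 : y ≠ 0) :
    ht (fun p : ι × κ ↦ x p.1 * y p.2) = ht x + ht y := by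
  obtain ⟨L, _, _, e, x, y, rfl, rfl⟩ := exists_nf2 hx hy
  simp only [← map_mul]
  rw [st_HT0, st_HT0, st_HT0, logHeight_fun_mul_eq (ne_of_emb x0) (ne_of_emb y0), add_div]

theorem ht_pi {α : Type} [Fintype α] [DecidableEq α] {x : α → ι → ℂ} (hx : ∀ a, AlgT (x a))
    (x0 : ∀ a, x a ≠ 0) : ht (fun f : α → ι ↦ ∏ a, x a (f a)) = ∑ a, ht (x a) := by
  obtain ⟨L, _, _, e, z, hz⟩ := exists_nf (x := fun p : α × ι ↦ x p.1 p.2) fun p ↦ hx p.1 p.2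
  obtain rfl : x = fun a i ↦ e (z (a, i)) := funext fun a ↦ funext fun i ↦ congrFun hz (a, i)
  simp only [← map_prod, st_HT0 ι L e]
  rw [st_HT0, logHeight_fun_prod_eq (x := fun a i ↦ z (a, i)) fun a ↦ ne_of_emb (x0 a),
    Finset.sum_div]

theorem ht_pow {x : ι → ℂ} (n : ℕ) (hx : AlgT x) : ht (fun i ↦ x i ^ n) = n * ht x := by
  obtain ⟨L, _, _, e, x, rfl⟩ := exists_nf hx
  simp only [← map_pow]
  rw [st_HT0, st_HT0, ← mul_div_assoc, ← logHeight_pow]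
  rfl

theorem ht_conj {x : ι → ℂ} (σ : ℂ →+* ℂ) (hx : AlgT x) : ht (fun i ↦ σ (x i)) = ht x := by
  obtain ⟨L, _, _, e, x, rfl⟩ := exists_nf hx
  exact (st_HT0 ι L (σ.comp e) x).trans (st_HT0 ι L e x).symm

theorem ht_zero : ht (0 : ι → ℂ) = 0 := by
  have := st_HT0 ι ℚ (algebraMap ℚ ℂ) 0
  simpa [Pi.zero_def] using this

theorem st_HT1 : St_HT1 :=
  ⟨fun _ _ ↦ ht_nonneg, fun _ _ _ _ ↦ ht_smul, fun _ _ _ _ _ f ↦ ht_comp f,
    fun _ _ _ _ _ _ ↦ ht_segre, fun _ _ _ _ _ _ ↦ ht_pi, fun _ _ _ ↦ ht_pow, fun _ _ _ ↦ ht_conj⟩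

end Pool.Agent.Lib.ECM
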