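import Pool.Agent.Lib.ECM.B_HT2

/-! Block HT3: heights under linear maps, polynomial maps and integral dependence. -/

open Polynomial

namespace Pool.Agent.Lib.ECM

namespace T80

theorem alg_sum {α : Type} (s : Finset α) {f : α → ℂ} (h : ∀ a, IsAlgebraic ℚ (f a)) :
    IsAlgebraic ℚ (∑ a ∈ s, f a) :=
  mem_algebraicClosure_iff.1 (sum_mem fun a _ ↦ mem_algebraicClosure_iff.2 (h a))

theorem alg_prod {α : Type} (s : Finset α) {f : α → ℂ} (h : ∀ a, IsAlgebraic ℚ (f a)) :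
    IsAlgebraic ℚ (∏ a ∈ s, f a) :=
  mem_algebraicClosure_iff.1 (prod_mem fun a _ ↦ mem_algebraicClosure_iff.2 (h a))

theorem alg_rat (q : ℚ) : IsAlgebraic ℚ (q : ℂ) := isAlgebraic_algebraMap q

theorem algT_lin {ι κ : Type} [Fintype ι] (M : κ → ι → ℚ) {x : ι → ℂ} (hx : AlgT x) :
    AlgT fun j ↦ ∑ i, (M j i : ℂ) * x i :=
  fun j ↦ alg_sum _ fun i ↦ (alg_rat (M j i)).mul (hx i)

theorem algT_one {t : ℂ} (ht : IsAlgebraic ℚ t) : AlgT ![1, t] := by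
  intro i
  fin_cases i
  · exact isAlgebraic_one
  · exact ht

theorem one_ne (t : ℂ) : (![1, t] : Fin 2 → ℂ) ≠ 0 := fun h ↦ by simpa using congrFun h 0

/-- integral linear maps -/
theorem lin_int {ι κ : Type} [Fintype ι] [Fintype κ] (N : κ → ι → ℤ) {x : ι → ℂ} (hx : AlgT x) :
    ht (fun j ↦ ∑ i, (N j i : ℂ) * x i) ≤ ht x + Real.log (1 + ∑ j, ∑ i, |(N j i : ℝ)|) := by
  have hS (j : κ) : 0 ≤ ∑ i, |(N j i : ℝ)| := Finset.sum_nonneg fun _ _ ↦ abs_nonneg _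
  have hC : (1 : ℝ) ≤ 1 + ∑ j, ∑ i, |(N j i : ℝ)| :=
    le_add_of_nonneg_right (Finset.sum_nonneg fun j _ ↦ hS j)
  rcases isEmpty_or_nonempty ι with hι | hι
  · have : (fun j ↦ ∑ i, (N j i : ℂ) * x i) = 0 := by ext; simp
    rw [this, ht_zero]
    exact add_nonneg (ht_nonneg _) (Real.log_nonneg hC)
  refine ht_le (fun j ↦ alg_sum _ fun i ↦ (isAlgebraic_intCast (N j i)).mul (hx i)) hx hC
    (fun σ j ↦ ?_) fun V j ↦ ?_
  · obtain ⟨i0, hi0⟩ := Finite.exists_max fun i ↦ ‖σ (x i)‖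
    refine ⟨i0, ?_⟩
    rw [map_sum]
    refine (norm_sum_le _ _).trans ?_
    have h1 : ∑ i, ‖σ ((N j i : ℂ) * x i)‖ ≤ (∑ i, |(N j i : ℝ)|) * ‖σ (x i0)‖ := by
      rw [Finset.sum_mul]
      refine Finset.sum_le_sum fun i _ ↦ ?_
      rw [map_mul, map_intCast, norm_mul, Complex.norm_intCast]
      exact mul_le_mul_of_nonneg_left (hi0 i) (abs_nonneg _)
    refine h1.trans (mul_le_mul_of_nonneg_right ?_ (norm_nonneg _))
    have := Finset.single_le_sum (f := fun j ↦ ∑ i, |(N j i : ℝ)|) (fun j _ ↦ hS j)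
      (Finset.mem_univ j)
    linarith
  · obtain ⟨i0, hi0⟩ := Finite.exists_max fun i ↦ V.valuation (x i)
    refine ⟨i0, V.valuation.map_sum_le fun i _ ↦ ?_⟩
    rw [map_mul]
    exact (mul_le_of_le_one_left' ((V.valuation_le_one_iff _).2 (intCast_mem V _))).trans (hi0 i)

/-- rational linear maps -/
theorem lin {ι κ : Type} [Fintype ι] [Fintype κ] (M : κ → ι → ℚ) : ∃ C : ℝ, ∀ x : ι → ℂ, AlgT x →
    ht (fun j ↦ ∑ i, (M j i : ℂ) * x i) ≤ ht x + C := by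
  obtain ⟨d, hd⟩ := IsLocalization.exist_integer_multiples_of_finite (nonZeroDivisors ℤ)
    fun p : κ × ι ↦ M p.1 p.2
  choose N hN using hd
  refine ⟨_, fun x hx ↦ le_of_eq_of_le ?_ (lin_int (fun j i ↦ N (j, i)) hx)⟩
  have d0 : ((d : ℤ) : ℂ) ≠ 0 := Int.cast_ne_zero.2 (nonZeroDivisors.coe_ne_zero d)
  rw [← ht_smul (algT_lin M hx) (isAlgebraic_intCast (d : ℤ)) d0]
  congr 1
  funext j
  rw [Finset.mul_sum]
  refine Finset.sum_congr rfl fun i _ ↦ ?_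
  have h := congrArg (fun q : ℚ ↦ (q : ℂ)) (hN (j, i))
  simp only [eq_intCast, Rat.cast_intCast, zsmul_eq_mul, Rat.cast_mul] at h
  rw [h, mul_assoc]

/-- the powers of a number -/
theorem pows {t : ℂ} (n : ℕ) (ht' : IsAlgebraic ℚ t) :
    ht (fun b : Fin (n + 1) ↦ t ^ (b : ℕ)) = n * h1 t := by
  have hx : AlgT fun b : Fin (n + 1) ↦ t ^ (b : ℕ) := fun b ↦ ht'.pow _
  have e := ht_pow n (algT_one ht')
  rw [h1, ← e]
  refine le_antisymm ?_ ?_
  · have h := ht_le (C := 1) hx (fun i ↦ (algT_one ht' i).pow n) le_rfl (fun σ b ↦ ?_) fun V b ↦ ?_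
    · simpa using h
    · rcases le_total ‖σ t‖ 1 with h | h
      · exact ⟨0, by simpa using pow_le_one₀ (norm_nonneg _) h⟩
      · exact ⟨1, by simpa using pow_le_pow_right₀ h (Nat.lt_succ_iff.1 b.2)⟩
    · rcases le_total (V.valuation t) 1 with h | h
      · exact ⟨0, by simpa using pow_le_one' h _⟩
      · exact ⟨1, by simpa using pow_le_pow_right' h (Nat.lt_succ_iff.1 b.2)⟩
  · refine le_of_eq_of_le ?_ (ht_comp (![0, Fin.last n] : Fin 2 → Fin (n + 1)) hx)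
    congr 1
    funext i
    fin_cases i <;> simp

theorem aeval_fin {a : ℚ[X]} {n : ℕ} (h : a.natDegree ≤ n) (t : ℂ) :
    aeval t a = ∑ b : Fin (n + 1), (a.coeff b : ℂ) * t ^ (b : ℕ) := by
  rw [aeval_eq_sum_range' (Nat.lt_succ_of_le h), Finset.sum_range]
  exact Finset.sum_congr rfl fun b _ ↦ Rat.smul_def _ _

/-- polynomial maps of the line -/
theorem poly {κ : Type} [Fintype κ] (a : κ → ℚ[X]) (n : ℕ) (h : ∀ j, (a j).natDegree ≤ n) :
    ∃ C : ℝ, ∀ t : ℂ, IsAlgebraic ℚ t → ht (fun j ↦ aeval t (a j)) ≤ n * h1 t + C := by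
  obtain ⟨C, hC⟩ := lin fun j (b : Fin (n + 1)) ↦ (a j).coeff b
  refine ⟨C, fun t ht' ↦ ?_⟩
  rw [← pows n ht']
  simp only [aeval_fin (h _)]
  exact hC _ fun b ↦ ht'.pow _

theorem alg_aeval (a : ℚ[X]) {t : ℂ} (ht' : IsAlgebraic ℚ t) : IsAlgebraic ℚ (aeval t a) := by
  rw [aeval_fin le_rfl]
  exact alg_sum _ fun b ↦ (alg_rat _).mul (ht'.pow _)

theorem root_norm {n : ℕ} {c : ℕ → ℂ} {x : ℂ} {m : ℝ}
    (h : x ^ n + ∑ k ∈ Finset.range n, c k * x ^ k = 0) (hm : 1 ≤ m) (hc : ∀ k < n, ‖c k‖ ≤ m) :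
    ‖x‖ ≤ (n + 1) * m := by
  rcases n with _ | n
  · simp at h
  rcases le_total ‖x‖ 1 with h1 | h1
  · have : (0 : ℝ) ≤ (n + 1 : ℕ) := Nat.cast_nonneg _
    nlinarith
  have h2 : ‖x‖ * ‖x‖ ^ n ≤ (n + 1 : ℕ) * m * ‖x‖ ^ n := by
    rw [← pow_succ', ← norm_pow, eq_neg_of_add_eq_zero_left h, norm_neg]
    refine (norm_sum_le _ _).trans ((Finset.sum_le_card_nsmul _ _ (m * ‖x‖ ^ n)
      fun k hk ↦ ?_).trans (by simp [mul_assoc]))
    rw [norm_mul, norm_pow]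
    exact mul_le_mul (hc k (Finset.mem_range.1 hk))
      (pow_le_pow_right₀ h1 (Nat.lt_succ_iff.1 (Finset.mem_range.1 hk))) (by positivity)
      (by linarith)
  have h3 := le_of_mul_le_mul_right h2 (by positivity)
  nlinarith

theorem root_val (V : ValuationSubring ℂ) {n : ℕ} {c : ℕ → ℂ} {x : ℂ} {m : V.ValueGroup}
    (h : x ^ n + ∑ k ∈ Finset.range n, c k * x ^ k = 0) (hm : 1 ≤ m)
    (hc : ∀ k < n, V.valuation (c k) ≤ m) : V.valuation x ≤ m := by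
  rcases n with _ | n
  · simp at h
  rcases le_total (V.valuation x) 1 with h1 | h1
  · exact h1.trans hm
  have h2 : V.valuation x * V.valuation x ^ n ≤ m * V.valuation x ^ n := by
    rw [← pow_succ', ← map_pow, eq_neg_of_add_eq_zero_left h, Valuation.map_neg]
    refine V.valuation.map_sum_le fun k hk ↦ ?_
    rw [map_mul, map_pow]
    exact mul_le_mul' (hc k (Finset.mem_range.1 hk))
      (pow_le_pow_right' h1 (Nat.lt_succ_iff.1 (Finset.mem_range.1 hk)))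
  exact le_of_mul_le_mul_right h2 (pow_pos (lt_of_lt_of_le zero_lt_one h1) n)

theorem alg_root {P : ℚ[X][X]} (hP : P.Monic) {t x : ℂ} (ht' : IsAlgebraic ℚ t)
    (hx : (P.map (aeval t).toRingHom).eval x = 0) : IsAlgebraic ℚ x := by
  let t' : algebraicClosure ℚ ℂ := ⟨t, mem_algebraicClosure_iff.2 ht'⟩
  have e : (algebraMap (algebraicClosure ℚ ℂ) ℂ).comp (aeval t').toRingHom =
      (aeval t : ℚ[X] →ₐ[ℚ] ℂ).toRingHom :=
    RingHom.ext fun a ↦ (aeval_algebraMap_apply ℂ t' a).symm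
  have h1 : IsIntegral (algebraicClosure ℚ ℂ) x :=
    ⟨P.map (aeval t').toRingHom, hP.map _, by rw [eval₂_map, e, ← eval_map, hx]⟩
  have : Algebra.IsIntegral ℚ (algebraicClosure ℚ ℂ) :=
    (algebraicClosure.isAlgebraic ℚ ℂ).isIntegral
  exact (isIntegral_trans x h1).isAlgebraic

theorem deg_bound {κ : Type} [Fintype κ] (g : κ → ℚ[X][X]) : ∃ N : ℕ, ∀ j,
    (g j).natDegree ≤ N ∧ ∀ b, ((g j).coeff b).natDegree ≤ N := by
  have h (p : ℚ[X][X]) : ∃ N : ℕ, p.natDegree ≤ N ∧ ∀ b, (p.coeff b).natDegree ≤ N := by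
    refine ⟨p.natDegree + ∑ b ∈ p.support, (p.coeff b).natDegree, Nat.le_add_right _ _, fun b ↦ ?_⟩
    by_cases hb : b ∈ p.support
    · exact (Finset.single_le_sum (f := fun b ↦ (p.coeff b).natDegree) (fun _ _ ↦ Nat.zero_le _)
        hb).trans (Nat.le_add_left _ _)
    · simp [notMem_support_iff.1 hb]
  choose N hN using h
  have k (j : κ) : N (g j) ≤ ∑ j, N (g j) :=
    Finset.single_le_sum (f := fun j ↦ N (g j)) (fun _ _ ↦ Nat.zero_le _) (Finset.mem_univ j)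
  exact ⟨_, fun j ↦ ⟨(hN _).1.trans (k j), fun b ↦ ((hN _).2 b).trans (k j)⟩⟩

/-- roots of a monic polynomial -/
theorem roots {P : ℚ[X][X]} (hP : P.Monic) : ∃ C : ℝ, ∀ t : ℂ, IsAlgebraic ℚ t → ∀ x ∈ rts P t,
    IsAlgebraic ℚ x ∧ h1 x ≤ C * h1 t + C := by
  obtain ⟨N, hN⟩ := deg_bound fun _ : Unit ↦ P
  obtain ⟨C, hC⟩ := poly (fun k : Fin (P.natDegree + 1) ↦ P.coeff k) N fun k ↦ (hN ()).2 k
  refine ⟨N + |C| + Real.log (P.natDegree + 1), fun t ht' x hx ↦ ?_⟩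
  have hx0 : (P.map (aeval t).toRingHom).eval x = 0 := isRoot_of_mem_roots hx
  have hxa := alg_root hP ht' hx0
  refine ⟨hxa, ?_⟩
  have rel : x ^ P.natDegree +
      ∑ k ∈ Finset.range P.natDegree, aeval t (P.coeff k) * x ^ k = 0 := by
    rw [← hx0]
    conv_rhs => rw [hP.as_sum]
    simp [Polynomial.map_sum, eval_finsetSum]
  have top : aeval t (P.coeff (Fin.last P.natDegree : ℕ)) = 1 := by
    rw [Fin.val_last, hP.coeff_natDegree, map_one]
  have hn : (1 : ℝ) ≤ P.natDegree + 1 := le_add_of_nonneg_left (Nat.cast_nonneg _)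
  have h := ht_le (C := P.natDegree + 1) (algT_one hxa)
    (y := fun k : Fin (P.natDegree + 1) ↦ aeval t (P.coeff k)) (fun k ↦ alg_aeval _ ht') hn
    (fun σ i ↦ ?_) fun V i ↦ ?_
  · have h2 := hC t ht'
    have h3 := h1_nonneg t
    have h4 := Real.log_nonneg hn
    have h5 := le_abs_self C
    have h6 : 0 ≤ (|C| + Real.log (P.natDegree + 1)) * h1 t := by positivity
    have h7 : (0 : ℝ) ≤ N := Nat.cast_nonneg _
    rw [h1]
    nlinarith
  · obtain ⟨k0, hk0⟩ := Finite.exists_max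
      fun k : Fin (P.natDegree + 1) ↦ ‖σ (aeval t (P.coeff k))‖
    have hm : 1 ≤ ‖σ (aeval t (P.coeff k0))‖ := by
      have := hk0 (Fin.last _)
      rwa [top, map_one, norm_one] at this
    refine ⟨k0, ?_⟩
    fin_cases i
    · simpa using one_le_mul_of_one_le_of_one_le hn hm
    · refine root_norm (c := fun k ↦ σ (aeval t (P.coeff k))) (x := σ x) ?_ hm
        fun k hk ↦ hk0 ⟨k, Nat.lt_succ_of_lt hk⟩
      simpa [map_sum] using congrArg σ rel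
  · obtain ⟨k0, hk0⟩ := Finite.exists_max
      fun k : Fin (P.natDegree + 1) ↦ V.valuation (aeval t (P.coeff k))
    have hm : 1 ≤ V.valuation (aeval t (P.coeff k0)) := by
      have := hk0 (Fin.last _)
      rwa [top, map_one] at this
    refine ⟨k0, ?_⟩
    fin_cases i
    · simpa using hm
    · exact root_val V rel hm fun k hk ↦ hk0 ⟨k, Nat.lt_succ_of_lt hk⟩

/-- an affine point -/
theorem affine {ι : Type} [Fintype ι] {s : ι → ℂ} (hs : AlgT s) :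
    ht (fun o : Option ι ↦ o.elim 1 s) ≤ ∑ i, h1 (s i) := by
  classical
  have e := ht_pi (x := fun a : ι ↦ ![1, s a]) (fun a ↦ algT_one (hs a)) fun a ↦ one_ne _
  simp only [h1]
  rw [← e]
  refine le_of_eq_of_le ?_ (ht_comp (fun o : Option ι ↦ (o.elim 0 fun i ↦ Pi.single i 1 : ι → Fin 2))
    fun f ↦ alg_prod _ fun a ↦ algT_one (hs a) _)
  congr 1
  funext o
  rcases o with _ | i
  · simp
  · simp only [Option.elim]
    rw [Finset.prod_eq_single i (fun a _ ha ↦ by simp [Pi.single_eq_of_ne ha]) (by simp)]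
    simp

theorem e2_fin {g : ℚ[X][X]} {N : ℕ} (h : g.natDegree ≤ N) (h' : ∀ b, (g.coeff b).natDegree ≤ N)
    (t x : ℂ) : e2 g t x = ∑ p : Fin (N + 1) × Fin (N + 1),
      ((g.coeff p.2).coeff p.1 : ℂ) * (t ^ (p.1 : ℕ) * x ^ (p.2 : ℕ)) := by
  rw [e2, eval_map, eval₂_eq_sum_range' _ (Nat.lt_succ_of_le h), Finset.sum_range,
    Fintype.sum_prod_type_right]
  refine Finset.sum_congr rfl fun b _ ↦ ?_
  change aeval t (g.coeff b) * _ = _
  rw [aeval_fin (h' b), Finset.sum_mul]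
  exact Finset.sum_congr rfl fun a _ ↦ mul_assoc _ _ _

/-- polynomial maps of the plane -/
theorem plane {κ : Type} [Fintype κ] (g : κ → ℚ[X][X]) : ∃ C : ℝ, 0 ≤ C ∧ ∀ t x : ℂ,
    IsAlgebraic ℚ t → IsAlgebraic ℚ x → AlgT (fun j ↦ e2 (g j) t x) ∧
      ht (fun j ↦ e2 (g j) t x) ≤ C * (h1 t + h1 x) + C := by
  obtain ⟨N, hN⟩ := deg_bound g
  obtain ⟨C, hC⟩ := lin fun j (p : Fin (N + 1) × Fin (N + 1)) ↦ ((g j).coeff p.2).coeff p.1
  refine ⟨N + |C|, by positivity, fun t x ht' hx ↦ ?_⟩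
  simp only [e2_fin (hN _).1 (hN _).2]
  have ha : AlgT fun p : Fin (N + 1) × Fin (N + 1) ↦ t ^ (p.1 : ℕ) * x ^ (p.2 : ℕ) :=
    fun p ↦ (ht'.pow _).mul (hx.pow _)
  refine ⟨algT_lin _ ha, (hC _ ha).trans ?_⟩
  have nz (z : ℂ) : (fun b : Fin (N + 1) ↦ z ^ (b : ℕ)) ≠ 0 := fun h ↦ by
    simpa using congrFun h 0
  rw [ht_segre (x := fun b : Fin (N + 1) ↦ t ^ (b : ℕ)) (y := fun b : Fin (N + 1) ↦ x ^ (b : ℕ))
    (fun b ↦ ht'.pow _) (fun b ↦ hx.pow _) (nz t) (nz x), pows N ht', pows N hx]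
  have h3 := h1_nonneg t
  have h4 := h1_nonneg x
  have h5 := le_abs_self C
  have h6 : 0 ≤ |C| * (h1 t + h1 x) := by positivity
  have h7 : (0 : ℝ) ≤ N := Nat.cast_nonneg _
  nlinarith

end T80

theorem st_HT3 : St_HT3 :=
  ⟨fun _ _ _ _ ↦ T80.lin, fun _ ↦ T80.pows, fun _ _ ↦ T80.poly, fun _ ↦ T80.roots,
    fun _ _ _ ↦ T80.affine, fun _ _ ↦ T80.plane⟩

end Pool.Agent.Lib.ECM
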