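import Pool.Agent.Lib.ECM.B_HT2

/-! Block HT4: links between the height and the size notions of the earlier library. -/

open NumberField Height

namespace Pool.Agent.Lib.ECM

open Pool.Agent.Lib.ZP3 (Deg Sm)

namespace T65

open T42

theorem h1_eq {L : Type} [Field L] [NumberField L] (e : L →+* ℂ) (x : L) :
    Module.finrank ℚ L * h1 (e x) = Real.log (mulHeight₁ x) := by
  have : (![1, e x] : Fin 2 → ℂ) = fun i ↦ e (![1, x] i) := by
    ext i
    fin_cases i <;> simp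
  rw [h1, this, st_HT0, mul_div_cancel₀ _ (rk_pos L).ne', mulHeight₁_eq_mulHeight, mulHeight_swap,
    logHeight]

theorem mh_eq {L : Type} [Field L] [NumberField L] (x : L) :
    mulHeight₁ x = (∏ φ : L →+* ℂ, max 1 ‖φ x‖) * ∏ᶠ v : FinitePlace L, max (v x) 1 := by
  rw [NumberField.mulHeight₁_eq, arch_prod fun v ↦ max (v x) 1]
  simp only [InfinitePlace.apply, max_comm]

theorem prod_pos {L : Type} [Field L] [NumberField L] (x : L) :
    0 < ∏ φ : L →+* ℂ, max 1 ‖φ x‖ :=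
  Finset.prod_pos fun _ _ ↦ lt_max_of_lt_left one_pos

theorem prod_le {L : Type} [Field L] [NumberField L] (x : L) :
    ∏ φ : L →+* ℂ, max 1 ‖φ x‖ ≤ mulHeight₁ x := by
  rw [mh_eq]
  exact le_mul_of_one_le_right (prod_pos x).le (one_le_finprod fun _ ↦ le_max_right _ _)

theorem log_prod {L : Type} [Field L] [NumberField L] (x : L) :
    Real.log (∏ φ : L →+* ℂ, max 1 ‖φ x‖) = ∑ φ : L →+* ℂ, Real.log (max 1 ‖φ x‖) :=
  Real.log_prod fun _ _ ↦ (lt_max_of_lt_left one_pos).ne'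

theorem fin_one {L : Type} [Field L] [NumberField L] {x : L} (hx : IsIntegral ℤ x) :
    ∏ᶠ v : FinitePlace L, max (v x) 1 = 1 := by
  refine finprod_eq_one_of_forall_eq_one fun v ↦ max_eq_right ?_
  rw [← FinitePlace.norm_embedding_eq]
  exact FinitePlace.norm_le_one L v.maximalIdeal (⟨x, hx⟩ : 𝓞 L)

theorem norm_le {L : Type} [Field L] [NumberField L] (x : L) (φ : L →+* ℂ) :
    ‖φ x‖ ≤ mulHeight₁ x := by
  classical
  refine le_trans ?_ (prod_le x)
  rw [← Finset.mul_prod_erase _ _ (Finset.mem_univ φ)]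
  refine (le_max_right 1 _).trans (le_mul_of_one_le_right (by positivity) ?_)
  exact Finset.prod_induction _ (1 ≤ ·) (fun _ _ ↦ one_le_mul_of_one_le_of_one_le) le_rfl
    fun _ _ ↦ le_max_left _ _

open IntermediateField in
theorem rank_le {z : ℂ} {a : ℕ} (hz : IsAlgebraic ℚ z) (h : Deg z a) :
    Module.finrank ℚ ℚ⟮z⟯ ≤ a := by
  classical
  obtain ⟨E, hE, h⟩ := h
  have hi : IsIntegral ℚ z := hz.isIntegral
  rw [adjoin.finrank hi, ← Polynomial.card_rootSet_eq_natDegree (K := ℂ)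
    (minpoly.irreducible hi).separable (IsAlgClosed.splits _), ← Set.toFinset_card]
  refine (Finset.card_le_card fun w hw ↦ ?_).trans hE
  obtain ⟨σ, rfl⟩ := ZP3.exists_conj hz (Polynomial.aeval_eq_zero_of_mem_rootSet
    (Set.mem_toFinset.1 hw))
  exact h σ

open IntermediateField in
theorem sm_of {z : ℂ} {a : ℕ} (hz : IsAlgebraic ℚ z) (hd : Deg z a) (h : h1 z ≤ a) :
    Sm z (2 * a ^ 2) := by
  have : FiniteDimensional ℚ ℚ⟮z⟯ := adjoin.finiteDimensional hz.isIntegral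
  have : NumberField ℚ⟮z⟯ := {}
  have r : (Module.finrank ℚ ℚ⟮z⟯ : ℝ) ≤ a := Nat.cast_le.2 (rank_le hz hd)
  let e : ℚ⟮z⟯ →+* ℂ := algebraMap ℚ⟮z⟯ ℂ
  let x := AdjoinSimple.gen ℚ z
  have ex : e x = z := rfl
  have b : mulHeight₁ x ≤ Real.exp (a ^ 2) := by
    rw [← Real.log_le_iff_le_exp (mulHeight₁_pos x), ← h1_eq e x, ex, sq]
    exact mul_le_mul r h (h1_nonneg z) (Nat.cast_nonneg a)
  obtain ⟨n, n0, hn, hi⟩ := exists_nat_le_mulHeight₁ x
  have a2 : (0 : ℝ) ≤ (a : ℝ) ^ 2 := sq_nonneg _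
  refine ⟨n, Nat.pos_of_ne_zero n0, (hn.trans b).trans (Real.exp_le_exp.2 (by push_cast; linarith)),
    ?_, (hd.map (fun w ↦ n * w) fun σ ↦ by simp).mono (by nlinarith [hd.pos]), fun σ ↦ ?_⟩
  · simpa [ex] using hi.map e.toIntAlgHom
  · have := norm_le x (σ.comp e)
    rw [RingHom.comp_apply, ex] at this
    rw [map_mul, map_natCast, norm_mul, Complex.norm_natCast]
    refine (mul_le_mul (hn.trans b) (this.trans b) (norm_nonneg _) (Real.exp_pos _).le).trans ?_
    rw [← Real.exp_add]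
    exact Real.exp_le_exp.2 (by push_cast; linarith)

theorem val_le (V : ValuationSubring ℂ) {w : ℂ} (hw : IsIntegral ℤ w) : V.valuation w ≤ 1 := by
  rw [V.valuation_le_one_iff]
  have : IsIntegral V w := hw.tower_top
  obtain ⟨y, rfl⟩ := IsIntegrallyClosed.isIntegral_iff.1 this
  exact y.2

theorem h1_le {z : ℂ} {a : ℕ} (h : Sm z a) : h1 z ≤ 2 * a := by
  obtain ⟨d, d0, hd, hi, -, hs⟩ := h
  have dc : (d : ℂ) ≠ 0 := Nat.cast_ne_zero.2 d0.ne'
  have da : IsAlgebraic ℚ (d : ℂ) := isAlgebraic_natCast d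
  have wa : IsAlgebraic ℚ (d * z) := (hi.tower_top (A := ℚ)).isAlgebraic
  have za : IsAlgebraic ℚ z := by
    have := da.inv.mul wa
    rwa [inv_mul_cancel_left₀ dc] at this
  have A : AlgT ![1, z] := fun i ↦ by
    fin_cases i
    exacts [isAlgebraic_one, za]
  have o : ht (fun _ : Unit ↦ (1 : ℂ)) = 0 := by
    simpa using ht_pow (x := fun _ : Unit ↦ (1 : ℂ)) 0 fun _ ↦ isAlgebraic_one
  have := ht_le (x := fun i ↦ (d : ℂ) * ![1, z] i) (y := fun _ : Unit ↦ (1 : ℂ)) (C := Real.exp a)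
    (fun i ↦ da.mul (A i)) (fun _ ↦ isAlgebraic_one) (Real.one_le_exp (Nat.cast_nonneg a))
    (fun σ i ↦ ⟨(), by
      fin_cases i
      · simpa using hd
      · simpa using hs σ⟩)
    fun V i ↦ ⟨(), by
      rw [map_one]
      fin_cases i
      · exact val_le V (by simpa using isIntegral_algebraMap (R := ℤ) (A := ℂ) (x := d))
      · exact val_le V hi⟩
  rw [ht_smul A da dc, o, Real.log_exp] at this
  have : (0 : ℝ) ≤ a := Nat.cast_nonneg a
  unfold h1
  linarith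

end T65

open T65

theorem st_HT4 : St_HT4 := by
  refine ⟨⟨2, fun _ _ ↦ sm_of⟩, fun L _ _ e x ↦ ?_, fun L _ _ e x hx ↦ ?_, fun _ _ ↦ h1_le⟩
  · rw [h1_eq, ← log_prod]
    exact Real.log_le_log (prod_pos x) (prod_le x)
  · rw [h1_eq, ← log_prod, mh_eq, fin_one hx, mul_one]

end Pool.Agent.Lib.ECM
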