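import Pool.Agent.Lib.ECM.HTBlue
import Pool.Agent.Lib.ECM.B_HT3

/-! The height bounds. -/

open UpperHalfPlane Filter Topology
open scoped Real

namespace Pool.Agent.Lib.ECM

open Pool.Agent.Lib.MP_0704bf_ag

namespace T42

theorem over_zero {x τ} (h : Over x τ) : x 0 = 1 := (h.2.2 0).trans (div_self h.2.1)

theorem good_ne {x} (h : Good x) (m : Ch) (hm : Ev m) : x m ≠ 0 := by
  obtain ⟨τ, h1, h2⟩ := h.2 (RingHom.id ℂ)
  exact (h1.2.2 m).trans_ne (div_ne_zero (h2 m hm) h1.2.1)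

theorem good_gen {x τ} (h : Good x) (ho : Over x τ) : Gen τ := fun m hm e ↦
  good_ne h m hm (by rw [ho.2.2, e, zero_div])

theorem has_cm {τ v τ0} (h : Line τ v τ0) (hc : IsCM τ0) : HasCM τ := by
  obtain ⟨a, b, c, h1, h2⟩ := hc
  exact ⟨v, τ0, a, b, c, h.1, τ0.im_pos.ne', h1, h2,
    by simpa using (h.2 1).2 ⟨1, 0, by simp⟩, (h.2 _).2 ⟨0, 1, by simp⟩⟩

theorem pp_update (x : Ch → ℂ) (n : Ch → Ch) (κ a : Ch) : PP x (Function.update n κ a) =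
    x a * x (a + κ) * ∏ k ∈ Finset.univ.erase κ, x (n k) * x (n k + k) := by
  rw [PP, ← Finset.mul_prod_erase _ _ (Finset.mem_univ κ), Function.update_self]
  exact congrArg _ (Finset.prod_congr rfl fun k hk ↦ by
    rw [Function.update_of_ne (Finset.ne_of_mem_erase hk)])

theorem ht_le_sum {x : Ch → ℂ} (hx : AlgT x) : ht x ≤ ∑ m, h1 (x m) :=
  (ht_comp (x := fun o : Option Ch ↦ o.elim 1 x) some
    (by rintro (_ | i); exacts [isAlgebraic_one, hx i])).trans (st_HT3.2.2.2.2.1 Ch x hx)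

theorem places (hAR : St_ARC) (hCJ : St_CONJ) (hAU : St_AUT) (hPK : St_PACK) (hM : St_MARK)
    (hL : St_LINE) : ∃ c : ℝ, 1 ≤ c ∧ ∀ x τ v τ0 Ω (B : ℝ), Good x → Over x τ → ¬ SqCM τ →
      Line τ v τ0 → IsCM τ0 → Nrm τ0 Ω → NB x B → IsAlgebraic ℚ (jInv τ0) ∧
      AlgT (lv τ (Ω⁻¹ • v)) ∧ ∀ (σ : ℂ →+* ℂ) g h, ∃ n m, Ev m ∧
        ‖σ (x g * lv τ (Ω⁻¹ • v) h)‖ ^ 12 ≤ c * B ^ 6 * max 1 ‖σ (jInv τ0)‖ *
          (1 + Real.log (‖fun n ↦ σ (x n)‖ / ‖σ (x m)‖)) ^ 6 *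
          ‖σ (x n * x (n + (g + h)))‖ ^ 12 := by
  obtain ⟨c, c1, hc⟩ := hAR
  refine ⟨c, c1, fun x τ v τ0 Ω B hg ho hs hl hcm hn hB ↦ ?_⟩
  obtain ⟨d, -, hd, -⟩ := hM x hg.1
  obtain ⟨aj, -, al⟩ := hPK x τ d hg ho (has_cm hl hcm) hs hd v τ0 Ω hl hn
  refine ⟨aj, fun h ↦ (al h).1, fun σ g h ↦ ?_⟩
  obtain ⟨σ', e⟩ := hAU.ext σ
  obtain ⟨τ', ho', -⟩ := hg.2 σ'
  obtain ⟨v', τ0', Ω', -, hl', hn', ej, -, -, el⟩ :=
    hCJ σ' x τ τ' v τ0 Ω ho (good_gen hg ho) ho' hl hn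
  have b1 := hB σ' τ' v' τ0' ho' hl' (isCM_of_conj hcm σ' ej)
  obtain ⟨N, -, b2⟩ := hL.nat τ' ho'.1 v' τ0' hl'
  obtain ⟨m, hm, -, h1⟩ := hc _ τ' v' τ0' Ω' ho' hn'
  obtain ⟨n, h2⟩ := h1 g h
  refine ⟨n, m, hm, ?_⟩
  simp only [RingHom.coe_coe, el, ej, e _ (hg.1 _), e _ aj, e _ (al h).1] at h2
  simp only [map_mul]
  refine h2.trans ?_
  have : 0 ≤ NN τ' v' τ0' := b2 ▸ N.cast_nonneg
  gcongr

end T42

open T42

theorem st_HTA (hF : St_FIN2) (hAR : St_ARC) (hLG : St_LG) (hA : St_AMPT) (hCJ : St_CONJ)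
    (hAU : St_AUT) (hPK : St_PACK) (hM : St_MARK) (hL : St_LINE) : St_HTA := by
  intro P p1 p2 p3 p4
  obtain ⟨c, c1, hc⟩ := places hAR hCJ hAU hPK hM hL
  obtain ⟨K, K0, hK⟩ := hA P p1 p2 p3 p4
  obtain ⟨C, C0, hC⟩ := hLG c (1 / (32 * (K + 1))) c1 (by positivity)
  refine ⟨32 * K * (C + 1), by positivity, fun x hx τ v τ0 B hg ho hs hl hcm B1 hB m ↦ ?_⟩
  obtain ⟨⟨Ω, hn⟩, hΩ⟩ := hL.nrm τ0
  obtain ⟨aj, al, h⟩ := hc x τ v τ0 Ω B hg ho hs hl hcm hn hB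
  have ap (S : Finset Ch) (n : Ch → Ch) : IsAlgebraic ℚ (∏ κ ∈ S, x (n κ) * x (n κ + κ)) :=
    T80.alg_prod _ fun κ ↦ (hg.1 _).mul (hg.1 _)
  have h1' := hC _ _ (GG x (lv τ (Ω⁻¹ • v))) (PP x) x (jInv τ0) B
    (fun p ↦ ((hg.1 _).mul (al _)).mul (ap _ _)) (ap _) hg.1 aj B1 (good_ne hg) ?_ ?_
  · have h2 := hK x hx τ _ ho (good_gen hg ho) (smul_ne_zero (inv_ne_zero (hΩ Ω hn).1) hl.1) hg.1 al
    have j0 := h1_nonneg (jInv τ0)
    have l0 := Real.log_nonneg B1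
    have h3 := ht_le_sum hg.1
    have h4 := ht_nonneg x
    have h5 : K * max 0 (ht (GG x (lv τ (Ω⁻¹ • v))) - ht (PP x)) ≤
        K * (h1 (jInv τ0) + Real.log B + C) + (∑ m, h1 (x m)) / 32 := by
      have e1 : K * (1 / (32 * (K + 1)) * ht x) ≤ ht x / 32 := by
        rw [← mul_assoc, div_eq_inv_mul (ht x)]
        gcongr
        rw [mul_one_div, div_le_iff₀ (by positivity)]
        linarith
      have e2 : 0 ≤ 1 / (32 * (K + 1)) * ht x := by positivity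
      have e3 : max 0 (ht (GG x (lv τ (Ω⁻¹ • v))) - ht (PP x)) ≤
          h1 (jInv τ0) + Real.log B + C + 1 / (32 * (K + 1)) * ht x :=
        max_le (by positivity) (by linarith)
      nlinarith [mul_le_mul_of_nonneg_left e3 K0]
    have h6 := Finset.sum_le_sum fun m (_ : m ∈ Finset.univ) ↦ (h2 m).trans (add_le_add_left h5 K)
    have h7 := Finset.single_le_sum (fun m _ ↦ h1_nonneg (x m)) (Finset.mem_univ m)
    simp only [Finset.sum_const, Finset.card_univ, Fintype.card_prod, ZMod.card, nsmul_eq_mul] at h6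
    push_cast at h6
    nlinarith [mul_nonneg (mul_nonneg K0 C0) (add_nonneg j0 l0)]
  · rintro V ⟨⟨g, k⟩, n⟩
    obtain ⟨a, ha⟩ := hF x τ v τ0 Ω ho (good_gen hg ho) hl hn V g k
    refine ⟨Function.update n (g + k) a, ?_⟩
    rw [pp_update, GG, ← mul_assoc, map_mul, map_mul V.valuation (x a * _), mul_pow, mul_pow,
      ← mul_assoc (max _ _)]
    exact mul_le_mul_left ha _
  · rintro σ ⟨⟨g, k⟩, n⟩
    obtain ⟨a, m, hm, ha⟩ := h σ g k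
    refine ⟨Function.update n (g + k) a, m, hm, ?_⟩
    rw [pp_update, GG, map_mul, map_mul σ (x a * _), norm_mul, norm_mul (σ (x a * _)), mul_pow,
      mul_pow, ← mul_assoc]
    exact mul_le_mul_of_nonneg_right ha (by positivity)

theorem st_HTB (hF : St_FIN2) (hAR : St_ARC) (hLG : St_LG) (hCJ : St_CONJ)
    (hAU : St_AUT) (hPK : St_PACK) (hM : St_MARK) (hL : St_LINE) : St_HTB := by
  obtain ⟨c, c1, hc⟩ := places hAR hCJ hAU hPK hM hL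
  obtain ⟨C, C0, hC⟩ := hLG c 1 c1 one_pos
  refine ⟨C + 3, by positivity, fun x τ v τ0 Ω B hg ho hs hl hcm hn B1 hB k ↦ ?_⟩
  obtain ⟨aj, al, h⟩ := hc x τ v τ0 Ω B hg ho hs hl hcm hn hB
  have x0 := over_zero ho
  have xn : x ≠ 0 := fun e ↦ by simp [e] at x0
  have h1' := hC _ _ ![1, lv τ (Ω⁻¹ • v) k] (fun p : Ch × Ch ↦ x p.1 * x p.2) x (jInv τ0) B
    (fun i ↦ by fin_cases i; exacts [isAlgebraic_one, al k]) (fun p ↦ (hg.1 _).mul (hg.1 _)) hg.1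
    aj B1 (good_ne hg) ?_ ?_
  · rw [ht_segre hg.1 hg.1 xn xn] at h1'
    have j0 := h1_nonneg (jInv τ0)
    have l0 := Real.log_nonneg B1
    have h3 := ht_le_sum hg.1
    have h4 := ht_nonneg x
    change h1 _ ≤ _ at h1'
    nlinarith [mul_nonneg C0 (add_nonneg (add_nonneg j0 l0) (h4.trans h3))]
  · refine fun V ↦ Fin.forall_fin_two.2 ⟨⟨(0, 0), ?_⟩, ?_⟩
    · simp only [x0, mul_one, map_one, one_pow, Matrix.cons_val_zero]
      exact (pow_le_one' ((V.valuation_le_one_iff _).2 (natCast_mem V 16)) _).trans (le_max_left _ _)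
    · obtain ⟨a, ha⟩ := hF x τ v τ0 Ω ho (good_gen hg ho) hl hn V 0 k
      exact ⟨(a, a + (0 + k)), by rwa [x0, one_mul] at ha⟩
  · refine fun σ ↦ Fin.forall_fin_two.2 ⟨⟨(0, 0), 0, by decide, ?_⟩, ?_⟩
    · have := Real.log_nonneg (x := ‖fun n ↦ σ (x n)‖)
        (by simpa [x0] using norm_le_pi_norm (fun n ↦ σ (x n)) 0)
      simp only [x0, mul_one, map_one, one_pow, Matrix.cons_val_zero, norm_one, div_one]
      exact one_le_mul_of_one_le_of_one_le (one_le_mul_of_one_le_of_one_le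
        (one_le_mul_of_one_le_of_one_le c1 (one_le_pow₀ B1)) (le_max_left _ _))
        (one_le_pow₀ (by linarith))
    · obtain ⟨a, m, hm, ha⟩ := h σ 0 k
      exact ⟨(a, a + (0 + k)), m, hm, by rwa [x0, one_mul] at ha⟩

end Pool.Agent.Lib.ECM
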