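import Pool.Agent.Lib.ECM.HTBlue

/-! Analytic lifts of analytic families of theta null points. -/

open Filter Topology

namespace Pool.Agent.Lib.ECM

namespace T40

theorem lv_lin (τ : T3) (v : V2) (h : Ch) :
    lv τ v h = v 0 * lv τ ![1, 0] h + v 1 * lv τ ![0, 1] h := by
  have e : v = v 0 • (![1, 0] : V2) + v 1 • (![0, 1] : V2) := by
    ext i
    fin_cases i <;> simp
  conv_lhs => rw [e]
  simp only [lv, ll, dth, map_add, map_smul, smul_eq_mul]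
  ring

/-- the determinant of the coordinate map -/
noncomputable def dlv (τ : T3) : ℂ :=
  lv τ ![1, 0] hA * lv τ ![0, 1] hB - lv τ ![0, 1] hA * lv τ ![1, 0] hB

theorem dlv_ne (hG : St_GAUGE) {τ : T3} (h : τ ∈ H2) (hg : Gen τ) (h0 : kk 0 τ ≠ 0) :
    dlv τ ≠ 0 := by
  obtain ⟨v, hv⟩ := (hG.ind τ h hg).2 (kk 0 τ, 0)
  obtain ⟨w, hw⟩ := (hG.ind τ h hg).2 (0, kk 0 τ)
  simp only [Prod.mk.injEq] at hv hw
  have a1 : lv τ v hA = 1 := by rw [lv, hv.1, div_self h0]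
  have a2 : lv τ v hB = 0 := by rw [lv, hv.2, zero_div]
  have a3 : lv τ w hA = 0 := by rw [lv, hw.1, zero_div]
  have a4 : lv τ w hB = 1 := by rw [lv, hw.2, div_self h0]
  rw [lv_lin] at a1 a2 a3 a4
  have : dlv τ * (v 0 * w 1 - v 1 * w 0) = 1 := by
    rw [dlv]
    linear_combination (w 0 * lv τ ![1, 0] hB + w 1 * lv τ ![0, 1] hB) * a1 + a4 -
      (w 0 * lv τ ![1, 0] hA + w 1 * lv τ ![0, 1] hA) * a2
  exact left_ne_zero_of_mul_eq_one this

theorem an_comp (hB : St_BAS) {F : T3 → ℂ} (hF : DifferentiableOn ℂ F H2) {τ : ℂ → T3} {u : ℂ}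
    (hτ : AnalyticAt ℂ τ u) (hu : τ u ∈ H2) : AnalyticAt ℂ (fun z ↦ F (τ z)) u := by
  rw [Complex.analyticAt_iff_eventually_differentiableAt]
  filter_upwards [hτ.eventually_analyticAt,
    hτ.continuousAt.eventually (hB.isOpen.mem_nhds hu)] with z h1 h2
  exact (hF.differentiableAt (hB.isOpen.mem_nhds h2)).comp z h1.differentiableAt

end T40

open T40 in
theorem st_ILIFT (hO : St_HOL) (hBas : St_BAS) (hG : St_GAUGE) (hL : St_LIFT) : St_ILIFT := by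
  intro φ u hφ hev
  have ev0 : Ev 0 := by decide
  have hne : ∀ᶠ z in 𝓝 u, φ z 0 = 1 ∧ ∀ m, Ev m → φ z m ≠ 0 := by
    filter_upwards [hev] with z ⟨τ, h1, h2⟩
    exact ⟨by rw [h1.2.2, div_self h1.2.1], fun m hm ↦ by
      rw [h1.2.2]; exact div_ne_zero (h2 m hm) h1.2.1⟩
  have t1 : Tendsto (fun w : ℂ ↦ u + w) (𝓝 0) (𝓝 u) := by
    simpa using (continuous_const_add u).tendsto 0
  have t2 : Tendsto (fun z : ℂ ↦ z - u) (𝓝 u) (𝓝 0) := by
    simpa using (continuous_sub_right u).tendsto u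
  obtain ⟨g, hg, hge⟩ := hL (fun m w ↦ φ (u + w) m)
    (fun m ↦ AnalyticAt.comp_of_eq (hφ m) (analyticAt_const.add analyticAt_id) (add_zero u))
    (fun m hm ↦ by simpa using hne.self_of_nhds.2 m hm) (by
      refine (Eventually.filter_mono nhdsWithin_le_nhds ?_).frequently
      filter_upwards [t1.eventually hev] with w ⟨τ, h1, _⟩
      exact ⟨τ, h1.1, kk 0 τ, fun m ↦ by rw [h1.2.2, mul_div_cancel₀ _ h1.2.1]⟩)
  have aτ : AnalyticAt ℂ (fun z ↦ g (z - u)) u :=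
    AnalyticAt.comp_of_eq hg (analyticAt_id.sub analyticAt_const) (sub_self u)
  have key : ∀ᶠ z in 𝓝 u, Over (φ z) (g (z - u)) ∧ Gen (g (z - u)) := by
    filter_upwards [t2.eventually hge, hne] with z ⟨h1, c, hc, h2⟩ ⟨h3, h4⟩
    simp only [add_sub_cancel] at h2
    have k0 : kk 0 (g (z - u)) = c := by rw [h2, h3, mul_one]
    exact ⟨⟨h1, k0 ▸ hc, fun m ↦ by rw [k0, h2, mul_div_cancel_left₀ _ hc]⟩,
      fun m hm ↦ by rw [h2]; exact mul_ne_zero hc (h4 m hm)⟩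
  obtain ⟨o, gn⟩ := key.self_of_nhds
  have al : ∀ v h, AnalyticAt ℂ (fun z ↦ lv (g (z - u)) v h) u := fun v h ↦
    (an_comp hBas (hO.ll h v) aτ o.1).div (an_comp hBas (hO.kk 0) aτ o.1) o.2.1
  have ad : AnalyticAt ℂ (fun z ↦ dlv (g (z - u))) u :=
    ((al _ _).mul (al _ _)).sub ((al _ _).mul (al _ _))
  have d0 := dlv_ne hG o.1 gn o.2.1
  refine ⟨fun z ↦ g (z - u), fun z ↦
    !![lv (g (z - u)) ![0, 1] hB / dlv (g (z - u)), -lv (g (z - u)) ![0, 1] hA / dlv (g (z - u));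
      -lv (g (z - u)) ![1, 0] hB / dlv (g (z - u)), lv (g (z - u)) ![1, 0] hA / dlv (g (z - u))],
    fun i ↦ analyticAt_pi_iff.1 aτ i, fun i j ↦ ?_, ?_⟩
  · fin_cases i <;> fin_cases j
    exacts [(al _ _).div ad d0, (al _ _).neg.div ad d0, (al _ _).neg.div ad d0, (al _ _).div ad d0]
  · filter_upwards [key] with z ⟨h1, h2⟩
    have hd := dlv_ne hG h1.1 h2 h1.2.1
    refine ⟨h1, h2, fun l ↦ ⟨?_, ?_⟩⟩ <;> rw [lv_lin] <;>
      simp only [Matrix.mulVec, dotProduct, Fin.sum_univ_two, Matrix.of_apply, Matrix.cons_val',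
        Matrix.cons_val_zero, Matrix.cons_val_one, Matrix.cons_val_fin_one] <;>
      field_simp <;> rw [dlv] <;> ring

end Pool.Agent.Lib.ECM
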