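import Pool.Agent.Lib.ECM.HTBlue

/-! Lifts of nonconstant families satisfy no linear relation. -/

open Filter Topology MvPolynomial

namespace Pool.Agent.Lib.ECM

namespace TIMOV

theorem lin_ne {a b d k : ℂ} (h : a ≠ 0 ∨ d ≠ 0) :
    (C a * X 0 + C b * X 1 + C d * X 2 - C k : MvPolynomial (Fin 3) ℂ) ≠ 0 := by
  intro e
  have h0 := congrArg (eval ![0, 0, 0]) e
  have h1 := congrArg (eval ![1, 0, 0]) e
  have h2 := congrArg (eval ![0, 0, 1]) e
  simp at h0 h1 h2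
  rcases h with h | h
  · exact h (by rw [← h0]; exact sub_eq_zero.1 h1)
  · exact h (by rw [← h0]; exact sub_eq_zero.1 h2)

end TIMOV

theorem st_IMOV : St_IMOV := by
  intro P hD φ τ u hφ hn hev c hc hq
  have hc' : ((Complex.normSq (c 0) : ℝ) : ℂ) ≠ 0 ∨ ((Complex.normSq (c 1) : ℝ) : ℂ) ≠ 0 := by
    by_contra h
    rw [not_or, not_not, not_not, Complex.ofReal_eq_zero, Complex.ofReal_eq_zero,
      Complex.normSq_eq_zero, Complex.normSq_eq_zero] at h
    refine hc (funext fun i ↦ ?_)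
    fin_cases i
    · exact h.1
    · exact h.2
  have hS := hD _ (TIMOV.lin_ne (b := ((2 * (c 0 * (starRingEnd ℂ) (c 1)).re : ℝ) : ℂ))
    (k := qf (τ u) c) hc')
  obtain ⟨i, hi⟩ : ∃ i, ¬ ∀ᶠ z in 𝓝 u, φ z i = φ u i := by
    by_contra h
    refine hn ((eventually_all.2 fun i ↦ not_not.1 fun h' ↦ h ⟨i, h'⟩).mono fun z hz ↦ funext hz)
  have hm := ((hφ i).eventually_constant_or_nhds_le_map_nhds).resolve_left hi
  have hT := hS.image fun t ↦ kk i t / kk 0 t
  refine (MeasureTheory.Measure.measure_pos_of_mem_nhds MeasureTheory.volume (hm ?_)).ne'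
    (hT.measure_zero _)
  rw [mem_map]
  filter_upwards [hev, hq] with z h1 h2
  refine ⟨τ z, ⟨⟨φ z, h1.1, h1.2⟩, ?_⟩, (h1.2.2.2 i).symm⟩
  rw [← h2]
  simp only [qf, map_sub, map_add, map_mul, eval_C, eval_X, sub_self]

end Pool.Agent.Lib.ECM
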