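import Pool.Agent.Lib.ECM.B_HT1
import Pool.Agent.Lib.ZP3.ArithA

/-! Block HT2: comparison of heights place by place. -/

open NumberField Height

namespace Pool.Agent.Lib.ECM

namespace T42

theorem exists_sigma {L : Type} [Field L] [NumberField L] (e φ : L →+* ℂ) :
    ∃ σ : ℂ →+* ℂ, ∀ x, σ (e x) = φ x := by
  have hF : Cardinal.mk L ≤ Cardinal.aleph0 := by
    simpa using Algebra.IsAlgebraic.cardinalMk_le_max ℚ L
  exact ZP3.Arith.ext_hom hF e φ ZP3.Arith.aleph0_lt_complex le_rfl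

/-- the ring of integers of a finite place -/
def intAt {L : Type} [Field L] [NumberField L] (v : FinitePlace L) : ValuationSubring L where
  carrier := {z | v z ≤ 1}
  mul_mem' := fun {a b} ha hb ↦ by
    change v (a * b) ≤ 1
    rw [map_mul]; exact mul_le_one₀ ha (apply_nonneg _ _) hb
  one_mem' := by simp
  add_mem' := fun {a b} ha hb ↦ (v.add_le a b).trans (max_le ha hb)
  zero_mem' := by simp
  neg_mem' := fun {a} ha ↦ by
    change v.1 (-a) ≤ 1
    rw [AbsoluteValue.map_neg]; exact ha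
  mem_or_inv_mem' := fun z ↦ by
    change v z ≤ 1 ∨ v z⁻¹ ≤ 1
    rw [map_inv₀]
    exact (le_total (v z) 1).imp id inv_le_one_of_one_le₀

theorem exists_val {L : Type} [Field L] [NumberField L] (e : L →+* ℂ) (v : FinitePlace L) :
    ∃ V : ValuationSubring ℂ, ∀ a b : L, V.valuation (e a) ≤ V.valuation (e b) → v a ≤ v b := by
  obtain ⟨V, h, hl⟩ := IsLocalRing.exists_factor_valuationRing (e.comp (intAt v).subtype)
  have key (z : L) (hz : e z ∈ V) : v z ≤ 1 := by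
    rcases (intAt v).mem_or_inv_mem z with h1 | h1
    · exact h1
    rcases eq_or_ne z 0 with rfl | z0
    · simp
    have hu : IsUnit (⟨z⁻¹, h1⟩ : intAt v) := by
      refine hl.map_nonunit _ (isUnit_iff_exists_inv.2 ⟨⟨e z, hz⟩, Subtype.ext ?_⟩)
      change e z⁻¹ * e z = 1
      rw [← map_mul, inv_mul_cancel₀ z0, map_one]
    obtain ⟨b, hb⟩ := isUnit_iff_exists_inv.1 hu
    have : z⁻¹ * (b : L) = 1 := congrArg Subtype.val hb
    rw [inv_mul_eq_one₀ z0] at this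
    rw [this]; exact b.2
  refine ⟨V, fun a b hab ↦ ?_⟩
  rcases eq_or_ne b 0 with rfl | b0
  · simp only [map_zero, nonpos_iff_eq_zero, map_eq_zero] at hab
    rw [hab]
  have eb : e b ≠ 0 := (map_ne_zero e).2 b0
  have : v (a / b) ≤ 1 := key _ (by
    rw [← V.valuation_le_one_iff, map_div₀, map_div₀]
    exact div_le_one_of_le₀ hab zero_le)
  rw [map_div₀] at this
  exact (div_le_one (v.pos_iff.2 b0)).1 this

theorem sup_le {ι κ : Type} [Finite ι] [Finite κ] [Nonempty κ] {f : ι ⊕ κ → ℝ} {C : ℝ} (hC : 1 ≤ C)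
    (h0 : ∀ i, 0 ≤ f i) (h : ∀ i, ∃ j, f (.inl i) ≤ C * f (.inr j)) :
    ⨆ i, f i ≤ C * ⨆ j, f (.inr j) := by
  have b (j) : f (.inr j) ≤ ⨆ j, f (.inr j) := Finite.le_ciSup_of_le (f := fun j ↦ f (.inr j)) j le_rfl
  refine ciSup_le ?_
  rintro (i | j)
  · obtain ⟨j, hj⟩ := h i
    exact hj.trans (mul_le_mul_of_nonneg_left (b j) (by linarith))
  · exact (b j).trans (le_mul_of_one_le_left ((h0 _).trans (b j)) hC)

end T42

open T42

theorem ht_le {ι κ : Type} [Fintype ι] [Fintype κ] {x : ι → ℂ} {y : κ → ℂ} {C : ℝ}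
    (hx : AlgT x) (hy : AlgT y) (hC : 1 ≤ C) (ha : ∀ (σ : ℂ →+* ℂ) i, ∃ j, ‖σ (x i)‖ ≤ C * ‖σ (y j)‖)
    (hf : ∀ (V : ValuationSubring ℂ) i, ∃ j, V.valuation (x i) ≤ V.valuation (y j)) :
    ht x ≤ ht y + Real.log C := by
  rcases eq_or_ne x 0 with rfl | x0
  · rw [ht_zero]; exact add_nonneg (ht_nonneg _) (Real.log_nonneg hC)
  obtain ⟨i0, hi0⟩ := Function.ne_iff.1 x0
  obtain ⟨j0, hj0⟩ := ha (RingHom.id ℂ) i0
  have y0 : y ≠ 0 := by
    rintro rfl
    exact hi0 (by simpa using hj0)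
  obtain ⟨L, _, _, e, x, y, rfl, rfl⟩ := exists_nf2 hx hy
  have : Nonempty κ := ⟨j0⟩
  have y1 := ne_of_emb y0
  have z1 : Sum.elim x y ≠ 0 := fun h ↦ y1 (funext fun j ↦ congrFun h (.inr j))
  have h1 : mulHeight x ≤ C ^ Module.finrank ℚ L * mulHeight y := by
    refine (mulHeight_comp_le Sum.inl (Sum.elim x y)).trans ?_
    rw [mulHeight_emb z1, mulHeight_emb y1, ← mul_assoc]
    have e1 : (∏ᶠ v : FinitePlace L, ⨆ i, v (Sum.elim x y i)) = ∏ᶠ v : FinitePlace L, ⨆ i, v (y i) := by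
      refine finprod_congr fun v ↦ le_antisymm ?_ (ciSup_le fun j ↦
        Finite.le_ciSup_of_le (f := fun i ↦ v (Sum.elim x y i)) (.inr j) le_rfl)
      obtain ⟨V, hV⟩ := exists_val e v
      simpa using sup_le (f := fun i ↦ v (Sum.elim x y i)) le_rfl (fun _ ↦ apply_nonneg _ _) fun i ↦ by
        obtain ⟨j, hj⟩ := hf V i
        exact ⟨j, by simpa using hV _ _ hj⟩
    rw [e1]
    refine mul_le_mul_of_nonneg_right ?_ (finprod_nonneg fun v ↦ Real.iSup_nonneg fun _ ↦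
      apply_nonneg _ _)
    rw [← Embeddings.card L ℂ, ← Finset.card_univ, ← Finset.prod_const, ← Finset.prod_mul_distrib]
    refine Finset.prod_le_prod (fun _ _ ↦ Real.iSup_nonneg fun _ ↦ norm_nonneg _) fun φ _ ↦ ?_
    obtain ⟨σ, hσ⟩ := exists_sigma e φ
    exact sup_le (f := fun i ↦ ‖φ (Sum.elim x y i)‖) hC (fun _ ↦ norm_nonneg _) fun i ↦ by
      obtain ⟨j, hj⟩ := ha σ i
      exact ⟨j, by simpa [hσ] using hj⟩
  have h2 := Real.log_le_log (mulHeight_pos x) h1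
  rw [Real.log_mul (by positivity) (mulHeight_ne_zero y), Real.log_pow] at h2
  rw [st_HT0, st_HT0, div_add' _ _ _ (rk_pos L).ne']
  refine div_le_div_of_nonneg_right ?_ (rk_pos L).le
  unfold logHeight
  linarith

theorem st_HT2 : St_HT2 := fun _ _ _ _ _ _ _ ↦ ht_le

end Pool.Agent.Lib.ECM
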