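import Pool.Agent.Lib.ECM.HTBlue
import Pool.Agent.Lib.ECM.B_HT2

/-! Block LG: from local bounds to heights, with a logarithmic loss. -/

open Finset

namespace Pool.Agent.Lib.ECM

namespace T91

theorem log_pow_le {ρ : ℝ} (hρ : 1 ≤ ρ) (n : ℕ) :
    (1 + Real.log ρ) ^ n ≤ n.factorial * Real.exp 1 * ρ := by
  have h0 : 0 ≤ 1 + Real.log ρ := by linarith [Real.log_nonneg hρ]
  have h := Real.pow_div_factorial_le_exp (1 + Real.log ρ) h0 n
  rw [Real.exp_add, Real.exp_log (by linarith), div_le_iff₀ (by positivity)] at h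
  linarith

theorem prod_mul_le {s : Finset Ch} {m : Ch} (hm : m ∈ s) (y : Ch → ℂ) (h0 : y m ≠ 0) :
    ‖∏ n ∈ s, y n‖ * (‖y‖ / ‖y m‖) ≤ ‖y‖ ^ s.card := by
  have hp : 0 < ‖y m‖ := norm_pos_iff.2 h0
  rw [← mul_prod_erase s y hm, norm_mul, ← card_erase_add_one hm, pow_succ]
  have h1 : ‖∏ n ∈ s.erase m, y n‖ ≤ ‖y‖ ^ (s.erase m).card := by
    rw [norm_prod, ← prod_const]
    exact prod_le_prod (fun _ _ ↦ norm_nonneg _) fun n _ ↦ norm_le_pi_norm y n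
  calc _ = ‖∏ n ∈ s.erase m, y n‖ * ‖y‖ := by field_simp
    _ ≤ _ := mul_le_mul_of_nonneg_right h1 (norm_nonneg _)

theorem exists_norm (y : Ch → ℂ) : ∃ n, ‖y‖ = ‖y n‖ := by
  obtain ⟨n, hn⟩ := Finite.exists_max fun n ↦ ‖y n‖
  exact ⟨n, le_antisymm ((pi_norm_le_iff_of_nonneg (norm_nonneg _)).2 hn) (norm_le_pi_norm y n)⟩

theorem max_arch (σ : ℂ →+* ℂ) (j : ℂ) : ∃ μ : Fin 2, max 1 ‖σ j‖ = ‖σ (![1, j] μ)‖ := by
  rcases le_total 1 ‖σ j‖ with h | h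
  · exact ⟨1, by simp [h]⟩
  · exact ⟨0, by simp [h]⟩

theorem max_fin (V : ValuationSubring ℂ) (j : ℂ) :
    ∃ μ : Fin 2, max 1 (V.valuation j) = V.valuation (![1, j] μ) := by
  rcases le_total 1 (V.valuation j) with h | h
  · exact ⟨1, by simp [h]⟩
  · exact ⟨0, by simp [h]⟩

theorem alg_prod {s : Finset Ch} {x : Ch → ℂ} (hx : AlgT x) : IsAlgebraic ℚ (∏ n ∈ s, x n) :=
  prod_induction _ _ (fun _ _ ↦ IsAlgebraic.mul) isAlgebraic_one fun n _ ↦ hx n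

theorem pow_ne {ι : Type} {x : ι → ℂ} (h : x ≠ 0) (n : ℕ) : (fun i ↦ x i ^ n) ≠ 0 := by
  obtain ⟨i, hi⟩ := Function.ne_iff.1 h
  exact Function.ne_iff.2 ⟨i, pow_ne_zero n hi⟩

end T91

open T91 in
theorem st_LG : St_LG := by
  intro c ε hc hε
  let s : Finset Ch := univ.filter Ev
  obtain ⟨M', hM'⟩ := exists_nat_gt ((s.card : ℝ) / ε)
  obtain ⟨M, hM0, hM⟩ : ∃ M : ℕ, 0 < M ∧ (s.card : ℝ) ≤ ε * (12 * M) := by
    refine ⟨M' + 1, Nat.succ_pos _, ?_⟩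
    rw [div_lt_iff₀ hε] at hM'
    push_cast
    nlinarith [(Nat.cast_nonneg M' : (0 : ℝ) ≤ M')]
  let K : ℝ := 16 ^ (12 * M) * c ^ M * ((6 * M).factorial * Real.exp 1)
  have hK : 1 ≤ K := by
    refine one_le_mul_of_one_le_of_one_le (one_le_mul_of_one_le_of_one_le
      (one_le_pow₀ (by norm_num)) (one_le_pow₀ hc)) (one_le_mul_of_one_le_of_one_le ?_ ?_)
    · exact_mod_cast Nat.factorial_pos _
    · exact Real.one_le_exp zero_le_one
  have hlK := Real.log_nonneg hK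
  refine ⟨Real.log K, hlK, ?_⟩
  intro ι κ _ _ a b x j B ha hb hx hj hB hev hfin harc
  have hlB := Real.log_nonneg hB
  have n1 := ht_nonneg b
  have n2 := h1_nonneg j
  have n3 := ht_nonneg x
  have n4 := mul_nonneg hε.le n3
  rcases eq_or_ne b 0 with rfl | b0
  · have a0 : a = 0 := by
      funext i
      obtain ⟨k, m, -, h⟩ := harc (RingHom.id ℂ) i
      simp only [RingHom.id_apply, Pi.zero_apply, norm_zero] at h
      rw [zero_pow (by norm_num), mul_zero] at h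
      exact norm_eq_zero.1 (pow_eq_zero_iff (by norm_num) |>.1
        (le_antisymm h (pow_nonneg (norm_nonneg _) 12)))
    rw [a0, ht_zero]
    linarith
  have hs : ∀ m, Ev m → m ∈ s := fun m hm ↦ mem_filter.2 ⟨mem_univ _, hm⟩
  have z0 : ∏ n ∈ s, x n ≠ 0 := prod_ne_zero_iff.2 fun m hm ↦ hev m (mem_filter.1 hm).2
  have x0 : x ≠ 0 := Function.ne_iff.2 ⟨0, hev 0 (by decide)⟩
  have j0 : (![1, j] : Fin 2 → ℂ) ≠ 0 := Function.ne_iff.2 ⟨0, by simp⟩
  have aj : AlgT (![1, j] : Fin 2 → ℂ) := by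
    intro i
    fin_cases i
    exacts [isAlgebraic_one, hj]
  have a16 : IsAlgebraic ℚ (16 : ℂ) := by exact_mod_cast isAlgebraic_natCast (R := ℚ) (A := ℂ) 16
  have aa : AlgT fun i ↦ 16 * a i := fun i ↦ a16.mul (ha i)
  have aa' : AlgT fun i ↦ (16 * a i) ^ (12 * M) := fun i ↦ (aa i).pow _
  have ab : AlgT fun k ↦ b k ^ (12 * M) := fun k ↦ (hb k).pow _
  have aj' : AlgT fun μ ↦ (![1, j] : Fin 2 → ℂ) μ ^ M := fun μ ↦ (aj μ).pow _
  have ax : AlgT fun n ↦ x n ^ s.card := fun n ↦ (hx n).pow _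
  have aw : AlgT fun p : Fin 2 × Ch ↦ (![1, j] : Fin 2 → ℂ) p.1 ^ M * x p.2 ^ s.card :=
    fun p ↦ (aj' p.1).mul (ax p.2)
  have w0 : (fun p : Fin 2 × Ch ↦ (![1, j] : Fin 2 → ℂ) p.1 ^ M * x p.2 ^ s.card) ≠ 0 :=
    Function.ne_iff.2 ⟨(0, 0), mul_ne_zero (by simp) (pow_ne_zero _ (hev 0 (by decide)))⟩
  have key : ht (fun i ↦ (∏ n ∈ s, x n) * (16 * a i) ^ (12 * M)) ≤
      ht (fun q : κ × (Fin 2 × Ch) ↦ b q.1 ^ (12 * M) *
        ((![1, j] : Fin 2 → ℂ) q.2.1 ^ M * x q.2.2 ^ s.card)) + Real.log (K * B ^ (6 * M)) := by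
    refine ht_le (fun i ↦ (alg_prod hx).mul (aa' i)) (fun q ↦ (ab q.1).mul (aw q.2))
      (one_le_mul_of_one_le_of_one_le hK (one_le_pow₀ hB)) ?_ ?_
    · intro σ i
      obtain ⟨k, m, hm, h⟩ := harc σ i
      obtain ⟨n, hn⟩ := exists_norm fun n ↦ σ (x n)
      obtain ⟨μ, hμ⟩ := max_arch σ j
      refine ⟨(k, μ, n), ?_⟩
      have hm0 : σ (x m) ≠ 0 := (map_ne_zero σ).2 (hev m hm)
      have hρ : 1 ≤ ‖fun n ↦ σ (x n)‖ / ‖σ (x m)‖ :=
        (one_le_div (norm_pos_iff.2 hm0)).2 (norm_le_pi_norm (fun n ↦ σ (x n)) m)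
      have h1 := log_pow_le hρ (6 * M)
      have h2 := prod_mul_le (hs m hm) (fun n ↦ σ (x n)) hm0
      have h3 := pow_le_pow_left₀ (pow_nonneg (norm_nonneg _) 12) h M
      have h16 : ‖σ 16‖ = 16 := by rw [map_ofNat, Complex.norm_ofNat]
      simp only [map_mul, map_pow, map_prod, norm_mul, norm_pow, h16]
      rw [← hμ, ← hn]
      have hZ := norm_nonneg (∏ n ∈ s, σ (x n))
      have hc0 : 0 ≤ c := by linarith
      have hB0 : 0 ≤ B := by linarith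
      rw [mul_pow, mul_pow, mul_pow, mul_pow, ← pow_mul, ← pow_mul, ← pow_mul, ← pow_mul] at h3
      calc _ = 16 ^ (12 * M) * ‖∏ n ∈ s, σ (x n)‖ * ‖σ (a i)‖ ^ (12 * M) := by ring
        _ ≤ 16 ^ (12 * M) * ‖∏ n ∈ s, σ (x n)‖ * (c ^ M * B ^ (6 * M) * max 1 ‖σ j‖ ^ M *
            ((6 * M).factorial * Real.exp 1 * (‖fun n ↦ σ (x n)‖ / ‖σ (x m)‖)) *
            ‖σ (b k)‖ ^ (12 * M)) := by
          refine mul_le_mul_of_nonneg_left (h3.trans ?_) (by positivity)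
          gcongr
        _ = K * B ^ (6 * M) * (‖σ (b k)‖ ^ (12 * M) * (max 1 ‖σ j‖ ^ M *
            (‖∏ n ∈ s, σ (x n)‖ * (‖fun n ↦ σ (x n)‖ / ‖σ (x m)‖)))) := by
          simp only [K]
          ring
        _ ≤ _ := by gcongr
    · intro V i
      obtain ⟨k, h⟩ := hfin V i
      obtain ⟨n, hn⟩ := Finite.exists_max fun n ↦ V.valuation (x n)
      obtain ⟨μ, hμ⟩ := max_fin V j
      refine ⟨(k, μ, n), ?_⟩
      have h2 : V.valuation (∏ n ∈ s, x n) ≤ V.valuation (x n) ^ s.card := by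
        rw [map_prod]
        exact prod_le_pow_card _ _ _ fun m _ ↦ hn m
      have h3 := pow_le_pow_left' h M
      rw [hμ, mul_pow, ← pow_mul, ← pow_mul] at h3
      rw [map_mul, map_pow]
      refine (mul_le_mul' h2 h3).trans (le_of_eq ?_)
      rw [map_mul V.valuation (b k ^ (12 * M)), map_pow V.valuation (b k),
        map_mul V.valuation (_ ^ M), map_pow V.valuation _ M, map_pow V.valuation (x n),
        mul_comm, mul_right_comm, mul_comm]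
  rw [ht_smul aa' (alg_prod hx) z0, ht_pow _ aa, ht_smul ha a16 (by norm_num),
    ht_segre ab aw (pow_ne b0 _) w0, ht_segre aj' ax (pow_ne j0 _) (pow_ne x0 _), ht_pow _ hb,
    ht_pow _ aj, ht_pow _ hx, Real.log_mul (by positivity) (by positivity), Real.log_pow] at key
  push_cast at key
  have hM1 : (1 : ℝ) ≤ M := by exact_mod_cast hM0
  have h5 := mul_le_mul_of_nonneg_right hM n3
  have h6 : Real.log K ≤ 12 * M * Real.log K := by nlinarith
  refine le_of_mul_le_mul_left ?_ (by positivity : (0 : ℝ) < 12 * M)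
  unfold h1
  linarith

end Pool.Agent.Lib.ECM
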