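import Pool.Agent.Lib.ECM.HBlue

/-! Products of Hodge norms have no local maximum (block LM, MP_0704bf_ag). -/

open Filter Topology Complex
open scoped ComplexConjugate

namespace Pool.Agent.Lib.ECM

namespace LM

/-- `G` is an analytic minorant of `F`, exact at `u` -/
structure Wk (F : ℂ → ℝ) (G : ℂ → ℂ) (u : ℂ) : Prop where
  an : AnalyticAt ℂ G u
  ne : G u ≠ 0
  eq : ‖G u‖ = F u
  le : ∀ᶠ z in 𝓝 u, ‖G z‖ ≤ F z

/-- `F` has an analytic minorant, exact at `u` but not near `u` -/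
def Mn (F : ℂ → ℝ) (u : ℂ) : Prop := ∃ G, Wk F G u ∧ ¬ ∀ᶠ z in 𝓝 u, ‖G z‖ = F z

theorem core {n : ℕ} (hn : 0 < n) (F : Fin n → ℂ → ℝ) (u : ℂ) (h : ∀ i, Mn (F i) u) :
    NoMax (fun z ↦ ∏ i, F i z) u := by
  choose G hG hs using h
  intro g hg hmax
  have hHa : AnalyticAt ℂ (fun z ↦ exp (g z) * ∏ i, G i z) u :=
    hg.cexp'.mul (Finset.analyticAt_fun_prod _ fun i _ ↦ (hG i).an)
  have hn' : ∀ z, ‖exp (g z) * ∏ i, G i z‖ = Real.exp (g z).re * ∏ i, ‖G i z‖ := by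
    intro z
    rw [norm_mul, norm_exp, norm_prod]
  have hle : ∀ᶠ z in 𝓝 u, ∀ i, ‖G i z‖ ≤ F i z := eventually_all.2 fun i ↦ (hG i).le
  have hne : ∀ᶠ z in 𝓝 u, ∀ i, G i z ≠ 0 :=
    eventually_all.2 fun i ↦ (hG i).an.continuousAt.eventually_ne (hG i).ne
  have h0 : ‖exp (g u) * ∏ i, G i u‖ = Real.exp (g u).re * ∏ i, F i u := by
    rw [hn', Finset.prod_congr rfl fun i _ ↦ (hG i).eq]
  have hm : IsLocalMax (norm ∘ fun z ↦ exp (g z) * ∏ i, G i z) u := by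
    filter_upwards [hmax, hle] with z hz hl
    change ‖exp (g z) * ∏ i, G i z‖ ≤ ‖exp (g u) * ∏ i, G i u‖
    rw [h0, hn']
    exact (mul_le_mul_of_nonneg_left
      (Finset.prod_le_prod (fun i _ ↦ norm_nonneg _) fun i _ ↦ hl i) (Real.exp_pos _).le).trans hz
  have hc := Complex.norm_eventually_eq_of_isLocalMax
    (hHa.eventually_analyticAt.mono fun z hz ↦ hz.differentiableAt) hm
  apply hs ⟨0, hn⟩
  filter_upwards [hc, hmax, hle, hne] with z hz h1 h2 h3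
  by_contra hlt
  have hp : ∏ i, ‖G i z‖ < ∏ i, F i z :=
    Finset.prod_lt_prod (fun i _ ↦ norm_pos_iff.2 (h3 i)) (fun i _ ↦ h2 i)
      ⟨⟨0, hn⟩, Finset.mem_univ _, lt_of_le_of_ne (h2 _) hlt⟩
  rw [h0, hn'] at hz
  have := mul_lt_mul_of_pos_left hp (Real.exp_pos (g z).re)
  linarith

theorem Mn.mono {F F' : ℂ → ℝ} {u : ℂ} (h : Mn F u) (e : F' u = F u)
    (le : ∀ᶠ z in 𝓝 u, F z ≤ F' z) : Mn F' u := by
  obtain ⟨G, hG, hs⟩ := h
  refine ⟨G, ⟨hG.an, hG.ne, hG.eq.trans e.symm, ?_⟩, fun h ↦ hs ?_⟩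
  · filter_upwards [hG.le, le] with z h1 h2 using h1.trans h2
  · filter_upwards [hG.le, le, h] with z h1 h2 h3 using le_antisymm h1 (h2.trans h3.ge)

theorem Mn.mul {F F' : ℂ → ℝ} {G' : ℂ → ℂ} {u : ℂ} (h : Mn F u) (h' : Wk F' G' u) :
    Mn (fun z ↦ F z * F' z) u := by
  obtain ⟨G, hG, hs⟩ := h
  refine ⟨fun z ↦ G z * G' z, ⟨hG.an.mul h'.an, mul_ne_zero hG.ne h'.ne, ?_, ?_⟩, fun h ↦ hs ?_⟩
  · rw [norm_mul, hG.eq, h'.eq]
  · filter_upwards [hG.le, h'.le] with z h1 h2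
    rw [norm_mul]
    exact mul_le_mul h1 h2 (norm_nonneg _) ((norm_nonneg _).trans h1)
  · filter_upwards [hG.le, h'.le, h, h'.an.continuousAt.eventually_ne h'.ne] with z h1 h2 h3 h4
    by_contra hlt
    rw [norm_mul] at h3
    exact (mul_lt_mul (lt_of_le_of_ne h1 hlt) h2 (norm_pos_iff.2 h4)
      ((norm_nonneg _).trans h1)).ne h3

theorem im_pos {q : ℂ → ℂ} {u : ℂ} (hq : AnalyticAt ℂ q u) (h0 : 0 < (q u).im) :
    ∀ᶠ z in 𝓝 u, 0 < (q z).im :=
  (continuous_im.continuousAt.comp hq.continuousAt).eventually (lt_mem_nhds h0)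

theorem inv_im {q : ℂ → ℂ} {u : ℂ} (hq : AnalyticAt ℂ q u) (h0 : 0 < (q u).im)
    (hc : ¬ ∀ᶠ z in 𝓝 u, q z = q u) : Mn (fun z ↦ (q z).im⁻¹) u := by
  have hn : ∀ w : ℂ, ‖((4 * (q u).im : ℝ) : ℂ) / (w - conj (q u)) ^ 2‖ =
      4 * (q u).im / (normSq (w - q u) + 4 * (q u).im * w.im) := by
    intro w
    rw [norm_div, norm_pow, Complex.sq_norm, norm_real, Real.norm_of_nonneg (by positivity)]
    congr 1
    simp only [normSq_apply, sub_re, sub_im, conj_re, conj_im]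
    ring
  have hd : q u - conj (q u) ≠ 0 := by
    intro h
    have := congrArg Complex.im h
    simp only [sub_im, conj_im, zero_im] at this
    linarith
  refine ⟨fun z ↦ ((4 * (q u).im : ℝ) : ℂ) / (q z - conj (q u)) ^ 2,
    ⟨analyticAt_const.div ((hq.sub analyticAt_const).pow 2) (pow_ne_zero 2 hd),
      div_ne_zero (ofReal_ne_zero.2 (by positivity)) (pow_ne_zero 2 hd), ?_, ?_⟩, fun h ↦ hc ?_⟩
  · rw [hn, sub_self, map_zero, zero_add]
    field_simp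
  · filter_upwards [im_pos hq h0] with z hz
    have := normSq_nonneg (q z - q u)
    rw [hn, inv_eq_one_div, div_le_div_iff₀ (by positivity) hz]
    linarith
  · filter_upwards [im_pos hq h0, h] with z hz h1
    have := normSq_nonneg (q z - q u)
    rw [hn, inv_eq_one_div, div_eq_div_iff (by positivity) hz.ne'] at h1
    exact sub_eq_zero.1 (normSq_eq_zero.1 (by linarith))

theorem qf_im (τ : T3) (c : V2) : (qf τ c).im = normSq (c 0) * (τ 0).im +
    2 * (c 0 * conj (c 1)).re * (τ 1).im + normSq (c 1) * (τ 2).im := by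
  simp only [qf, add_im, im_ofReal_mul]

theorem dY_pos {τ : T3} (h : τ ∈ H2) : 0 < dY τ := sub_pos.2 h.2

theorem qf_pos {τ : T3} (h : τ ∈ H2) {c : V2} (hc : c ≠ 0) : 0 < (qf τ c).im := by
  have e : (τ 0).im * (qf τ c).im =
      normSq ((τ 0).im * c 0 + (τ 1).im * c 1) + dY τ * normSq (c 1) := by
    rw [qf_im]
    simp only [dY, normSq_apply, add_re, add_im, mul_re, mul_im, ofReal_re, ofReal_im, conj_re,
      conj_im]
    ring
  refine (mul_pos_iff_of_pos_left h.1).1 (e ▸ ?_)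
  by_cases h1 : c 1 = 0
  · have h0 : c 0 ≠ 0 := fun h0 ↦ hc (funext (Fin.forall_fin_two.2 ⟨h0, h1⟩))
    rw [h1, mul_zero, add_zero, map_zero, mul_zero, add_zero]
    exact normSq_pos.2 (mul_ne_zero (ofReal_ne_zero.2 h.1.ne') h0)
  · exact add_pos_of_nonneg_of_pos (normSq_nonneg _) (mul_pos (dY_pos h) (normSq_pos.2 h1))

theorem gram {τ : T3} (h : dY τ ≠ 0) (v c : V2) : Hn τ v * (qf τ c).im =
    normSq (conj (c 0) * v 0 + conj (c 1) * v 1) +
      normSq (v 1 * ((τ 0).im * c 0 + (τ 1).im * c 1) -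
        v 0 * ((τ 1).im * c 0 + (τ 2).im * c 1)) / dY τ := by
  rw [qf_im, Hn]
  field_simp
  simp only [dY, normSq_apply, add_re, add_im, sub_re, sub_im, mul_re, mul_im, ofReal_re,
    ofReal_im, conj_re, conj_im]
  ring

theorem mem_H2 {τ : ℂ → T3} {u : ℂ} (ha : An τ u) (h : τ u ∈ H2) : ∀ᶠ z in 𝓝 u, τ z ∈ H2 := by
  have c : ∀ i, ContinuousAt (fun z ↦ (τ z i).im) u := fun i ↦
    continuous_im.continuousAt.comp (ha i).continuousAt
  exact (im_pos (ha 0) h.1).and (((c 1).pow 2).eventually_lt ((c 0).mul (c 2)) h.2)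

theorem an_qf {τ : ℂ → T3} {u : ℂ} (ha : An τ u) (c : V2) :
    AnalyticAt ℂ (fun z ↦ qf (τ z) c) u :=
  ((analyticAt_const.mul (ha 0)).add (analyticAt_const.mul (ha 1))).add
    (analyticAt_const.mul (ha 2))

theorem mn_Hn {τ : ℂ → T3} {u : ℂ} (ha : An τ u) (h : τ u ∈ H2) (hm : Mov τ u) {v : ℂ → V2}
    (hv : An v u) (h0 : v u ≠ 0) : Mn (fun z ↦ Hn (τ z) (v z)) u := by
  obtain ⟨c, c0, c1⟩ : ∃ c : V2, c 0 = (τ u 2).im * v u 0 - (τ u 1).im * v u 1 ∧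
      c 1 = (τ u 0).im * v u 1 - (τ u 1).im * v u 0 := ⟨![_, _], rfl, rfl⟩
  have e0 : (τ u 0).im * c 0 + (τ u 1).im * c 1 = dY (τ u) * v u 0 := by
    rw [c0, c1, dY]
    push_cast
    ring
  have e1 : (τ u 1).im * c 0 + (τ u 2).im * c 1 = dY (τ u) * v u 1 := by
    rw [c0, c1, dY]
    push_cast
    ring
  have hd : (dY (τ u) : ℂ) ≠ 0 := ofReal_ne_zero.2 (dY_pos h).ne'
  have hc : c ≠ 0 := by
    rintro rfl
    simp only [Pi.zero_apply, mul_zero, add_zero] at e0 e1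
    exact h0 (funext (Fin.forall_fin_two.2 ⟨(mul_eq_zero.1 e0.symm).resolve_left hd,
      (mul_eq_zero.1 e1.symm).resolve_left hd⟩))
  have hq := qf_pos h hc
  have hne : conj (c 0) * v u 0 + conj (c 1) * v u 1 ≠ 0 := by
    intro e
    have e2 : (qf (τ u) c).im = (dY (τ u) * (conj (c 0) * v u 0 + conj (c 1) * v u 1)).re := by
      rw [mul_add, mul_left_comm, ← e0, mul_left_comm (dY (τ u) : ℂ), ← e1, qf_im]
      simp only [normSq_apply, add_re, add_im, mul_re, mul_im, ofReal_re, ofReal_im, conj_re,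
        conj_im]
      ring
    rw [e, mul_zero, zero_re] at e2
    exact hq.ne' e2
  have hw : Wk (fun z ↦ normSq (conj (c 0) * v z 0 + conj (c 1) * v z 1))
      (fun z ↦ (conj (c 0) * v z 0 + conj (c 1) * v z 1) ^ 2) u :=
    ⟨((analyticAt_const.mul (hv 0)).add (analyticAt_const.mul (hv 1))).pow 2, pow_ne_zero 2 hne,
      by rw [norm_pow, Complex.sq_norm],
      Eventually.of_forall fun z ↦ by rw [norm_pow, Complex.sq_norm]⟩
  refine ((inv_im (an_qf ha c) hq (hm c hc)).mul hw).mono ?_ ?_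
  · have g := gram (dY_pos h).ne' (v u) c
    rw [e0, e1, show v u 1 * (dY (τ u) * v u 0) - v u 0 * (dY (τ u) * v u 1) = 0 by ring,
      map_zero, zero_div, add_zero] at g
    rw [← g]
    field_simp
  · filter_upwards [mem_H2 ha h] with z hz
    rw [inv_mul_le_iff₀ (qf_pos hz hc), mul_comm _ (Hn _ _), gram (dY_pos hz).ne']
    exact le_add_of_nonneg_right (div_nonneg (normSq_nonneg _) (dY_pos hz).le)

theorem mn_dY {τ : ℂ → T3} {u : ℂ} (ha : An τ u) (h : τ u ∈ H2) (hm : Mov τ u) :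
    Mn (fun z ↦ (dY (τ z))⁻¹) u := by
  have e : ∀ σ ∈ H2, (dY σ)⁻¹ = Hn σ ![0, 1] * (σ 0).im⁻¹ := by
    intro σ hσ
    have h1 := hσ.1.ne'
    have h2 := (dY_pos hσ).ne'
    simp only [Hn, Matrix.cons_val_zero, Matrix.cons_val_one, map_zero, map_one, mul_zero,
      zero_re, sub_zero, zero_add, mul_one]
    field_simp
  have q1 : ∀ σ : T3, qf σ ![1, 0] = σ 0 := by
    intro σ
    simp [qf]
  have h1 : (![1, 0] : V2) ≠ 0 := fun e ↦ one_ne_zero (congrFun e 0)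
  have h2 : (![0, 1] : V2) ≠ 0 := fun e ↦ one_ne_zero (congrFun e 1)
  obtain ⟨G, hG, -⟩ := inv_im (ha 0) h.1 (by simpa only [q1] using hm _ h1)
  refine ((mn_Hn ha h hm (v := fun _ ↦ ![0, 1]) (fun _ ↦ analyticAt_const) h2).mul hG).mono
    (e _ h) ?_
  filter_upwards [mem_H2 ha h] with z hz using (e _ hz).ge

end LM

theorem st_LM : St_LM := fun _ _ u hn ha h hm ↦
  ⟨fun _ hv h0 ↦ LM.core hn _ u fun i ↦ LM.mn_Hn (ha i) (h i) (hm i) (hv i) (h0 i),
    LM.core hn _ u fun i ↦ LM.mn_dY (ha i) (h i) (hm i)⟩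

end Pool.Agent.Lib.ECM

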