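import Pool.Agent.Lib.ECM.HBlue

/-! Block LOW1: lower bound for the height of a map of the curve. -/

open Polynomial Finset

namespace Pool.Agent.Lib.ECM

namespace T11

theorem low_core (hNM : St_NM) (hT : St_TWO) (hM : St_MINK) (P : ℚ[X][X]) (Y : Type) [Fintype Y]
    (G : Y → ℚ[X][X]) (hP : P.Monic) (D : Y → ℚ[X]) (hD : ∀ a, D a = Nm P (G a)) (h0 : D ≠ 0)
    (m r : ℕ) (hr : P.natDegree * r < m * dl D) :
    ∃ (F : ℚ[X][X]) (p : Fin P.natDegree × Y → ℚ[X]) (d : ℚ[X]) (u : Fin P.natDegree → ℚ[X])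
      (a0 : Y), ¬ P ∣ F ∧ d ≠ 0 ∧ (∀ i, u i = 0 ∨ (u i).natDegree + r ≤ d.natDegree) ∧
      ∀ t, ∀ x ∈ rts P t,
        e2 F t x = ∑ q, aeval t (p q) * (x ^ (q.1 : ℕ) * e2 (G q.2) t x ^ m) ∧
        aeval t d * e2 F t x = ∑ i, aeval t (u i) * (x ^ (i : ℕ) * e2 (G a0) t x ^ m) := by
  classical
  let b : Module.Basis (Fin P.natDegree) ℚ[X] (AdjoinRoot P) := (AdjoinRoot.powerBasis' hP).basis
  have hb : ∀ i, b i = AdjoinRoot.root P ^ (i : ℕ) := (AdjoinRoot.powerBasis' hP).basis_eq_pow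
  let gen : Fin P.natDegree × Y → AdjoinRoot P := fun q ↦ AdjoinRoot.mk P (G q.2) ^ m * b q.1
  let e : Y → Fin P.natDegree → AdjoinRoot P := fun a i ↦ gen (i, a)
  have hdet : ∀ a, b.det (e a) = D a ^ m := by
    intro a
    have : e a = Algebra.lmul ℚ[X] (AdjoinRoot P) (AdjoinRoot.mk P (G a) ^ m) ∘ b := rfl
    rw [this, Module.Basis.det_comp, Module.Basis.det_self, mul_one, ← Algebra.norm_apply, map_pow,
      hD, Nm]
  obtain ⟨-, -, h3, hc, a0, ha0, hdeg⟩ := hT _ D h0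
  obtain ⟨F, hF, hF0, d, u, hd, hdu, hu⟩ := hM _ _ _ b (Submodule.span ℚ[X] (Set.range gen)) e a0
    (cont D ^ m) r (fun a i ↦ Submodule.subset_span ⟨_, rfl⟩) (pow_ne_zero _ hc)
    (by simpa only [hdet] using h3 m) (by rw [hdet]; exact pow_ne_zero _ ha0) (by
      rw [hdet, natDegree_pow, natDegree_pow, hdeg, Fintype.card_fin, mul_add]
      omega)
  obtain ⟨p, hp⟩ := (Submodule.mem_span_range_iff_exists_fun _).1 hF
  obtain ⟨F', rfl⟩ := AdjoinRoot.mk_surjective F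
  refine ⟨F', p, d, u, a0, fun h ↦ hF0 (AdjoinRoot.mk_eq_zero.2 h), hd, hu, fun t x hx ↦ ?_⟩
  have hx0 : P.eval₂ (aeval t).toRingHom x = 0 := by
    rw [← eval_map]
    exact ((hNM P hP).2.1 t x).1 hx
  let φ := AdjoinRoot.lift (aeval t : ℚ[X] →ₐ[ℚ] ℂ).toRingHom x hx0
  have hφ : ∀ g, φ (AdjoinRoot.mk P g) = e2 g t x := fun g ↦ by
    rw [AdjoinRoot.lift_mk, e2, eval_map]
  have h2 : ∀ (c : ℚ[X]) H, φ (c • H) = aeval t c * φ H := fun c H ↦ by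
    rw [Algebra.smul_def, map_mul, AdjoinRoot.algebraMap_eq, AdjoinRoot.lift_of]
    rfl
  have h4 : ∀ q, φ (gen q) = x ^ (q.1 : ℕ) * e2 (G q.2) t x ^ m := fun q ↦ by
    rw [map_mul, map_pow, hφ, hb, map_pow, AdjoinRoot.lift_root, mul_comm]
  rw [← hφ]
  constructor
  · rw [← hp, map_sum]
    simp only [h2, h4]
  · rw [← h2, hdu, map_sum]
    simp only [h2, e, h4]

theorem e2_comb {J : Type} [Fintype J] (y : J → ℤ) (g : J → ℚ[X][X]) (t x : ℂ) :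
    e2 (lc y g) t x = ∑ j, (y j : ℂ) * e2 (g j) t x := by
  simp [e2, lc, Polynomial.map_sum, eval_finsetSum]

end T11

open T11 in
theorem st_LOW1 (h1' : St_HT1) (h3 : St_HT3) (hNM : St_NM) (hT : St_TWO) (hM : St_MINK)
    (hS : St_HSTEP) : St_LOW1 := by
  intro P J Y _ _ y g hP hi h0 ε hε
  classical
  obtain ⟨a0, -, a3, a4, -, a6, -⟩ := h1'
  obtain ⟨b1, b2, -, b4, -, b6⟩ := h3
  have hn : 0 < P.natDegree := Nat.pos_of_ne_zero fun h ↦
    hi.not_isUnit (by rw [hP.natDegree_eq_zero.1 h]; exact isUnit_one)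
  have hn' : (0 : ℝ) < P.natDegree := by exact_mod_cast hn
  set D := dl (nm1 P y g) with hD
  rcases Nat.eq_zero_or_pos D with hz | hpos
  · refine ⟨0, ∅, fun t _ _ x _ ↦ ?_⟩
    have k1 : 0 ≤ h1 t := a0 _ _
    have k2 := a0 _ fun j ↦ e2 (g j) t x
    rw [hz]
    simp only [Nat.cast_zero, zero_div, zero_sub, add_zero]
    nlinarith
  obtain ⟨C2, hC2⟩ := b4 P hP
  obtain ⟨C3, hC3⟩ := b1 J Y fun a j ↦ (y a j : ℚ)
  obtain ⟨m, hm⟩ := exists_nat_gt (max 0 ((1 + P.natDegree * C2) / ε))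
  have hm0 : (0 : ℝ) < m := (le_max_left _ _).trans_lt hm
  have hm1 : 1 + P.natDegree * C2 < m * ε := (div_lt_iff₀ hε).1 ((le_max_right _ _).trans_lt hm)
  have hm2 : 0 < m := by exact_mod_cast hm0
  set r := (m * D - 1) / P.natDegree with hr
  have hmD : 0 < m * D := Nat.mul_pos hm2 hpos
  have r1 : P.natDegree * r < m * D := (Nat.mul_div_le _ _).trans_lt (by omega)
  have r2 : m * D ≤ P.natDegree * (r + 1) := by
    have := Nat.lt_mul_div_succ (m * D - 1) hn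
    rw [← hr] at this
    omega
  obtain ⟨F, p, d, u, c0, hF, hd, hu, hev⟩ := low_core hNM hT hM P Y (fun a ↦ lc (y a) g) hP
    (nm1 P y g) (fun _ ↦ rfl) h0 m r r1
  obtain ⟨C1, hC1⟩ := hS ((Fin P.natDegree × Y) ⊕ Fin P.natDegree)
    (Sum.elim p 0) (Sum.elim 0 u) d r hd (by rintro (i | i); exacts [Or.inl rfl, hu i])
  have hN := (hNM P hP).2.2.2 hi F hF
  refine ⟨C3 + (P.natDegree * C2 + C1) / m, ((Nm P F).aroots ℂ).toFinset,
    fun t hts hta x hx ↦ ?_⟩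
  have hne : e2 F t x ≠ 0 := fun h ↦ hts (Multiset.mem_toFinset.2 (mem_aroots.2 ⟨hN, by
    rw [(hNM P hP).2.2.1]
    exact Multiset.prod_eq_zero (Multiset.mem_map.2 ⟨x, hx, h⟩)⟩))
  obtain ⟨hxa, hxh⟩ := hC2 t hta x hx
  obtain ⟨e1, e3⟩ := hev t x hx
  set g' : Y → ℂ := fun a ↦ e2 (lc (y a) g) t x with hg'
  have al : ∀ {K : Type} [Fintype K] (G : K → ℚ[X][X]), AlgT fun j ↦ e2 (G j) t x := fun G ↦ by
    obtain ⟨_, -, k1⟩ := b6 _ G
    exact (k1 t x hta hxa).1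
  have ag' : AlgT g' := al fun a ↦ lc (y a) g
  have k3 : ht g' ≤ ht (fun j ↦ e2 (g j) t x) + C3 := by
    refine le_of_eq_of_le (congrArg ht (funext fun a ↦ ?_)) (hC3 _ (al g))
    simp only [hg', e2_comb, Rat.cast_intCast]
  have g0 : (fun a ↦ g' a ^ m) ≠ 0 := by
    intro hz
    refine hne (e1.trans (sum_eq_zero fun q _ ↦ ?_))
    rw [show e2 (lc (y q.2) g) t x ^ m = 0 from congrFun hz q.2, mul_zero, mul_zero]
  have ax : AlgT fun b : Fin (P.natDegree + 1) ↦ x ^ (b : ℕ) := fun b ↦ hxa.pow _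
  have ap : AlgT fun a ↦ g' a ^ m := fun a ↦ (ag' a).pow _
  have k4 := a4 _ _ _ _ ax ap (fun h ↦ by simpa using congrFun h 0) g0
  rw [b2 x _ hxa, a6 Y g' m ag'] at k4
  let ψ : (Fin P.natDegree × Y) ⊕ Fin P.natDegree → Fin (P.natDegree + 1) × Y :=
    Sum.elim (fun q ↦ (q.1.castSucc, q.2)) fun i ↦ (i.castSucc, c0)
  have az : AlgT fun q : Fin (P.natDegree + 1) × Y ↦ x ^ (q.1 : ℕ) * g' q.2 ^ m :=
    fun q ↦ (ax q.1).mul (ap q.2)
  have k5 := a3 _ _ _ ψ az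
  rw [k4] at k5
  have e4 : ∑ i, aeval t (Sum.elim p 0 i : ℚ[X]) * (x ^ ((ψ i).1 : ℕ) * g' (ψ i).2 ^ m) =
      e2 F t x := by
    rw [e1, Fintype.sum_sum_type]
    simp [ψ, hg']
  have k6 := hC1 t _ hta (fun i ↦ az (ψ i)) (by rw [e4]; exact hne) (by
    rw [e4, e3, Fintype.sum_sum_type]
    simp [ψ, hg'])
  have k1 : 0 ≤ h1 t := a0 _ _
  have r3 : (m : ℝ) * (D / P.natDegree) ≤ r + 1 := by
    rw [← mul_div_assoc, div_le_iff₀ hn', mul_comm (r + 1 : ℝ)]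
    exact_mod_cast r2
  have k7 := mul_le_mul_of_nonneg_left hxh hn'.le
  have k8 := mul_le_mul_of_nonneg_left k3 hm0.le
  have k9 := mul_le_mul_of_nonneg_right r3 k1
  have k10 := mul_le_mul_of_nonneg_right hm1.le k1
  refine le_of_mul_le_mul_left ?_ hm0
  have k11 : (m : ℝ) * ((P.natDegree * C2 + C1) / m) = P.natDegree * C2 + C1 := by field_simp
  linarith

end Pool.Agent.Lib.ECM
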