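import Pool.Agent.Lib.ECM.HBlue

/-! Block LOW2: lower bound for the height on the ruled surface, off one curve. -/

open Polynomial Finset

namespace Pool.Agent.Lib.ECM

namespace LOW2

section Alg

variable {R : Type} [CommRing R] {Y : Type} (α β : Y → R) (m : ℕ)

/-- a product of linear forms -/
noncomputable def mon (f : Fin m → Y) : R[X] := ∏ l, (C (α (f l)) + C (β (f l)) * X)

/-- the choice of `k` times the second and `m - k` times the first form -/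
def sel (a : Y × Y) (k : Fin (m + 1)) : Fin m → Y := fun l ↦ if (l : ℕ) < k then a.2 else a.1

/-- the coefficients of the product -/
noncomputable def cv (f : Fin m → Y) : Fin (m + 1) → R := fun j ↦ (mon α β m f).coeff j

theorem mon_deg (f : Fin m → Y) : (mon α β m f).natDegree < m + 1 := by
  refine Nat.lt_succ_of_le ((natDegree_prod_le _ _).trans ?_)
  calc _ ≤ ∑ _l : Fin m, 1 := sum_le_sum fun l _ ↦ by compute_degree
    _ = m := by simp

theorem cv_eval {K : Type} [CommRing K] (φ : R →+* K) (w : K) (f : Fin m → Y) :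
    ∑ j : Fin (m + 1), φ (cv α β m f j) * w ^ (j : ℕ) =
      ∏ l, (φ (α (f l)) + φ (β (f l)) * w) := by
  have h := eval₂_eq_sum_range' φ (mon_deg α β m f) w
  unfold cv
  rw [Fin.sum_univ_eq_sum_range (fun j ↦ φ ((mon α β m f).coeff j) * w ^ j), ← h, mon,
    ← coe_eval₂RingHom, map_prod]
  simp

theorem prod_sel {K : Type} [CommMonoid K] (g : Y → K) (a : Y × Y) (k : Fin (m + 1)) :
    ∏ l, g (sel m a k l) = g a.2 ^ (k : ℕ) * g a.1 ^ (k.rev : ℕ) := by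
  obtain ⟨k, hk⟩ := k
  obtain ⟨s, rfl⟩ : ∃ s, m = k + s := ⟨m - k, by omega⟩
  unfold sel
  rw [Fin.prod_univ_eq_prod_range (fun l ↦ g (if l < k then a.2 else a.1)), prod_range_add,
    prod_congr rfl (g := fun _ ↦ g a.2) fun l hl ↦ by rw [if_pos (mem_range.1 hl)],
    prod_congr rfl (f := fun l ↦ g (if k + l < k then a.2 else a.1)) (g := fun _ ↦ g a.1)
      fun l _ ↦ by rw [if_neg (by omega)]]
  simp [Fin.rev]

theorem det_cv [IsDomain R] [CharZero R] (a : Y × Y) :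
    (Matrix.of fun j k ↦ cv α β m (sel m a k) j).det =
      (α a.1 * β a.2 - β a.1 * α a.2) ^ ∑ i : Fin (m + 1), (Ioi i).card := by
  have hV : (Matrix.vandermonde fun i : Fin (m + 1) ↦ ((i : ℕ) : R)).det ≠ 0 :=
    Matrix.det_vandermonde_ne_zero_iff.2 fun i j h ↦ Fin.ext (Nat.cast_injective h)
  have e : (Matrix.vandermonde fun i : Fin (m + 1) ↦ ((i : ℕ) : R)) *
      (Matrix.of fun j k ↦ cv α β m (sel m a k) j) =
      Matrix.projVandermonde (fun i : Fin (m + 1) ↦ α a.2 + β a.2 * (i : ℕ))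
        fun i ↦ α a.1 + β a.1 * (i : ℕ) := by
    ext i k
    have h := cv_eval α β m (RingHom.id R) ((i : ℕ) : R) (sel m a k)
    simp only [RingHom.id_apply] at h
    rw [Matrix.mul_apply, Matrix.projVandermonde_apply,
      ← prod_sel m (fun y ↦ α y + β y * (i : ℕ)) a k, ← h]
    exact sum_congr rfl fun j _ ↦ mul_comm _ _
  refine mul_left_cancel₀ hV ?_
  rw [← Matrix.det_mul, e, Matrix.det_projVandermonde, Matrix.det_vandermonde, ← prod_pow_eq_pow_sum,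
    ← prod_mul_distrib]
  refine prod_congr rfl fun i _ ↦ ?_
  rw [← prod_const, ← prod_mul_distrib]
  exact prod_congr rfl fun j _ ↦ by ring

theorem two_mul_card : 2 * ∑ i : Fin (m + 1), (Ioi i).card = m * (m + 1) := by
  simp only [Fin.card_Ioi]
  rw [Fin.sum_univ_eq_sum_range (fun i ↦ m + 1 - 1 - i), sum_range_reflect (fun i ↦ i) (m + 1),
    mul_comm, sum_range_id_mul_two, mul_comm]
  rfl

end Alg

theorem core (hNM : St_NM) (hT : St_TWO) (hM : St_MINK) (P : ℚ[X][X]) (Y : Type) [Fintype Y]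
    (A B : Y → ℚ[X][X]) (hP : P.Monic) (hi : Irreducible P) (D : Y × Y → ℚ[X])
    (hD : ∀ a, D a = Nm P (A a.1 * B a.2 - B a.1 * A a.2)) (h0 : D ≠ 0) (m r : ℕ)
    (hr : 2 * P.natDegree * r < m * dl D) :
    ∃ (F : Fin (m + 1) → ℚ[X][X]) (p : Fin P.natDegree × (Fin m → Y) → ℚ[X]) (d : ℚ[X])
      (u : Fin P.natDegree × Fin (m + 1) → ℚ[X]) (a0 : Y × Y), (∃ a, ¬ P ∣ F a) ∧ d ≠ 0 ∧
      (∀ i, u i = 0 ∨ (u i).natDegree + r ≤ d.natDegree) ∧ ∀ t, ∀ x ∈ rts P t, ∀ w : ℂ,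
        ∑ a, e2 (F a) t x * w ^ (a : ℕ) = ∑ q, aeval t (p q) *
          (x ^ (q.1 : ℕ) * ∏ l, (e2 (A (q.2 l)) t x + e2 (B (q.2 l)) t x * w)) ∧
        aeval t d * ∑ a, e2 (F a) t x * w ^ (a : ℕ) = ∑ i, aeval t (u i) * (x ^ (i.1 : ℕ) *
          ∏ l, (e2 (A (sel m a0 i.2 l)) t x + e2 (B (sel m a0 i.2 l)) t x * w)) := by
  classical
  have : IsDomain (AdjoinRoot P) := AdjoinRoot.isDomain_of_prime hi.prime
  have : Module.Free ℚ[X] (AdjoinRoot P) := hP.free_adjoinRoot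
  have : CharZero (AdjoinRoot P) := algebraRat.charZero _
  let bR : Module.Basis (Fin P.natDegree) ℚ[X] (AdjoinRoot P) := (AdjoinRoot.powerBasis' hP).basis
  have hb : ∀ i, bR i = AdjoinRoot.root P ^ (i : ℕ) := (AdjoinRoot.powerBasis' hP).basis_eq_pow
  let α : Y → AdjoinRoot P := fun y ↦ AdjoinRoot.mk P (A y)
  let β : Y → AdjoinRoot P := fun y ↦ AdjoinRoot.mk P (B y)
  let b := bR.smulTower (Pi.basisFun (AdjoinRoot P) (Fin (m + 1)))
  let gen : Fin P.natDegree × (Fin m → Y) → Fin (m + 1) → AdjoinRoot P :=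
    fun q ↦ bR q.1 • cv α β m q.2
  let e : Y × Y → Fin P.natDegree × Fin (m + 1) → Fin (m + 1) → AdjoinRoot P :=
    fun a i ↦ gen (i.1, sel m a i.2)
  set N := ∑ i : Fin (m + 1), (Ioi i).card with hN
  have hdet : ∀ a, b.det (e a) = D a ^ N := by
    intro a
    have : e a = (Matrix.toLin' (Matrix.of fun j k ↦ cv α β m (sel m a k) j)).restrictScalars ℚ[X] ∘
        b := by
      funext i j
      simp [e, gen, b]
    rw [this, Module.Basis.det_comp, Module.Basis.det_self, mul_one, LinearMap.det_restrictScalars,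
      LinearMap.det_toLin', det_cv, map_pow, hD, Nm, map_sub (AdjoinRoot.mk P),
      map_mul (AdjoinRoot.mk P), map_mul (AdjoinRoot.mk P)]
  obtain ⟨-, -, h3, hc, a0, ha0, hdeg⟩ := hT _ D h0
  obtain ⟨F, hF, hF0, d, u, hd, hdu, hu⟩ := hM _ _ _ b (Submodule.span ℚ[X] (Set.range gen)) e a0
    (cont D ^ N) r (fun a i ↦ Submodule.subset_span ⟨_, rfl⟩) (pow_ne_zero _ hc)
    (by simpa only [hdet] using h3 N) (by rw [hdet]; exact pow_ne_zero _ ha0) (by
      have h2 := two_mul_card m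
      rw [← hN] at h2
      rw [hdet, natDegree_pow, natDegree_pow, hdeg, Fintype.card_prod, Fintype.card_fin,
        Fintype.card_fin]
      have h4 := Nat.mul_lt_mul_of_pos_right hr (Nat.succ_pos m)
      nlinarith)
  obtain ⟨p, hp⟩ := (Submodule.mem_span_range_iff_exists_fun _).1 hF
  choose F' hF' using fun a ↦ AdjoinRoot.mk_surjective (F a)
  refine ⟨F', p, d, u, a0, ?_, hd, hu, fun t x hx w ↦ ?_⟩
  · by_contra hn
    refine hF0 (funext fun a ↦ ?_)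
    rw [← hF' a]
    exact AdjoinRoot.mk_eq_zero.2 (by_contra fun h ↦ hn ⟨a, h⟩)
  have hx0 : P.eval₂ (aeval t).toRingHom x = 0 := by
    rw [← eval_map]
    exact ((hNM P hP).2.1 t x).1 hx
  let φ := AdjoinRoot.lift (aeval t : ℚ[X] →ₐ[ℚ] ℂ).toRingHom x hx0
  have hφ : ∀ g, φ (AdjoinRoot.mk P g) = e2 g t x := fun g ↦ by
    rw [AdjoinRoot.lift_mk, e2, eval_map]
  let E : (Fin (m + 1) → AdjoinRoot P) →+ ℂ :=
    { toFun := fun G ↦ ∑ a, φ (G a) * w ^ (a : ℕ)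
      map_zero' := by simp
      map_add' := fun G H ↦ by simp [add_mul, sum_add_distrib] }
  have hE : ∀ G, E G = ∑ a, φ (G a) * w ^ (a : ℕ) := fun _ ↦ rfl
  have h1 : ∀ (c : AdjoinRoot P) G, E (c • G) = φ c * E G := fun c G ↦ by
    simp [hE, mul_sum, mul_assoc]
  have h2 : ∀ (c : ℚ[X]) G, E (c • G) = aeval t c * E G := fun c G ↦ by
    rw [← algebraMap_smul (AdjoinRoot P), h1, AdjoinRoot.algebraMap_eq, AdjoinRoot.lift_of]
    rfl
  have h4 : ∀ q, E (gen q) =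
      x ^ (q.1 : ℕ) * ∏ l, (e2 (A (q.2 l)) t x + e2 (B (q.2 l)) t x * w) := fun q ↦ by
    rw [h1, hE, cv_eval, hb, map_pow, AdjoinRoot.lift_root]
    simp only [α, β, hφ]
  have h5 : ∑ a, e2 (F' a) t x * w ^ (a : ℕ) = E F := by simp only [hE, ← hφ, hF']
  rw [h5]
  constructor
  · rw [← hp, map_sum]
    simp only [h2, h4]
  · rw [← h2, hdu, map_sum]
    simp only [h2, e, h4]

theorem e2_lc {J : Type} [Fintype J] (y : J → ℤ) (g : J → ℚ[X][X]) (t x : ℂ) :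
    e2 (lc y g) t x = ∑ j, (y j : ℂ) * e2 (g j) t x := by
  simp [e2, lc, Polynomial.map_sum, eval_finsetSum]

end LOW2

open LOW2 in
theorem st_LOW2 (h1' : St_HT1) (h3 : St_HT3) (hNM : St_NM) (hT : St_TWO) (hM : St_MINK)
    (hS : St_HSTEP) : St_LOW2 := by
  intro P J Y _ _ y A B hP hi h0 ε hε
  classical
  obtain ⟨a0, -, a3, a4, a5, -, -⟩ := h1'
  obtain ⟨b1, b2, -, b4, -, b6⟩ := h3
  have hn : 0 < P.natDegree := Nat.pos_of_ne_zero fun h ↦
    hi.not_isUnit (by rw [hP.natDegree_eq_zero.1 h]; exact isUnit_one)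
  have hn' : (0 : ℝ) < P.natDegree := by exact_mod_cast hn
  set D := dl (nm2 P y A B) with hD
  rcases Nat.eq_zero_or_pos D with hz | hpos
  · refine ⟨0, 0, fun _ ↦ 1, ⟨0, fun h ↦ hi.not_isUnit (isUnit_of_dvd_one h)⟩,
      fun t _ x _ w _ _ ↦ ?_⟩
    have k1 : 0 ≤ h1 t := a0 _ _
    have k2 := a0 _ fun j ↦ e2 (A j) t x + e2 (B j) t x * w
    rw [hz]
    simp only [Nat.cast_zero, zero_div, zero_sub, add_zero]
    nlinarith
  obtain ⟨C2, hC2⟩ := b4 P hP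
  obtain ⟨C3, hC3⟩ := b1 J Y fun a j ↦ (y a j : ℚ)
  obtain ⟨m, hm⟩ := exists_nat_gt (max 0 ((1 + P.natDegree * C2) / ε))
  have hm0 : (0 : ℝ) < m := (le_max_left _ _).trans_lt hm
  have hm1 : 1 + P.natDegree * C2 < m * ε := (div_lt_iff₀ hε).1 ((le_max_right _ _).trans_lt hm)
  have hm2 : 0 < m := by exact_mod_cast hm0
  set r := (m * D - 1) / (2 * P.natDegree) with hr
  have hmD : 0 < m * D := Nat.mul_pos hm2 hpos
  have r1 : 2 * P.natDegree * r < m * D := (Nat.mul_div_le _ _).trans_lt (by omega)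
  have r2 : m * D ≤ 2 * P.natDegree * (r + 1) := by
    have := Nat.lt_mul_div_succ (m * D - 1) (show 0 < 2 * P.natDegree by omega)
    rw [← hr] at this
    omega
  obtain ⟨F, p, d, u, c0, hF, hd, hu, hev⟩ := core hNM hT hM P Y (fun a ↦ lc (y a) A)
    (fun a ↦ lc (y a) B) hP hi (nm2 P y A B) (fun _ ↦ rfl) h0 m r r1
  obtain ⟨C1, hC1⟩ := hS ((Fin P.natDegree × (Fin m → Y)) ⊕ (Fin P.natDegree × Fin (m + 1)))
    (Sum.elim p 0) (Sum.elim 0 u) d r hd (by rintro (i | i); exacts [Or.inl rfl, hu i])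
  refine ⟨C3 + (P.natDegree * C2 + C1) / m, m, F, hF, fun t hta x hx w hw hne ↦ ?_⟩
  obtain ⟨hxa, hxh⟩ := hC2 t hta x hx
  obtain ⟨e1, e3⟩ := hev t x hx w
  set g : J → ℂ := fun j ↦ e2 (A j) t x + e2 (B j) t x * w with hg
  set g' : Y → ℂ := fun a ↦ e2 (lc (y a) A) t x + e2 (lc (y a) B) t x * w with hg'
  have al : ∀ {K : Type} [Fintype K] (G H : K → ℚ[X][X]),
      AlgT fun j ↦ e2 (G j) t x + e2 (H j) t x * w := fun G H j ↦ by
    obtain ⟨_, -, k1⟩ := b6 _ G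
    obtain ⟨_, -, k2⟩ := b6 _ H
    exact ((k1 t x hta hxa).1 j).add (((k2 t x hta hxa).1 j).mul hw)
  have ag : AlgT g := al A B
  have ag' : AlgT g' := al (fun a ↦ lc (y a) A) fun a ↦ lc (y a) B
  have k3 : ht g' ≤ ht g + C3 := by
    refine le_of_eq_of_le (congrArg ht (funext fun a ↦ ?_)) (hC3 g ag)
    simp only [hg', hg, e2_lc, sum_mul, ← sum_add_distrib, Rat.cast_intCast]
    exact sum_congr rfl fun j _ ↦ by ring
  have g0 : g' ≠ 0 := by
    intro hz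
    refine hne (e1.trans (sum_eq_zero fun q _ ↦ ?_))
    rw [prod_eq_zero (mem_univ (⟨0, hm2⟩ : Fin m)) (congrFun hz _), mul_zero, mul_zero]
  have ax : AlgT fun b : Fin (P.natDegree + 1) ↦ x ^ (b : ℕ) := fun b ↦ hxa.pow _
  have ap : AlgT fun f : Fin m → Y ↦ ∏ l, g' (f l) := fun f ↦
    (IsIntegral.prod _ fun l _ ↦ (ag' (f l)).isIntegral).isAlgebraic
  have k4 := a4 _ _ _ _ ax ap (fun h ↦ by simpa using congrFun h 0) (fun h ↦ by
    obtain ⟨a, ha⟩ := Function.ne_iff.1 g0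
    exact prod_ne_zero_iff.2 (fun _ _ ↦ ha) (congrFun h fun _ ↦ a))
  rw [b2 x _ hxa, a5 (Fin m) Y (fun _ ↦ g') (fun _ ↦ ag') fun _ ↦ g0] at k4
  simp only [sum_const, card_univ, Fintype.card_fin, nsmul_eq_mul] at k4
  let ψ : (Fin P.natDegree × (Fin m → Y)) ⊕ (Fin P.natDegree × Fin (m + 1)) →
      Fin (P.natDegree + 1) × (Fin m → Y) :=
    Sum.elim (fun q ↦ (q.1.castSucc, q.2)) fun i ↦ (i.1.castSucc, sel m c0 i.2)
  have az : AlgT fun q : Fin (P.natDegree + 1) × (Fin m → Y) ↦ x ^ (q.1 : ℕ) * ∏ l, g' (q.2 l) :=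
    fun q ↦ (ax q.1).mul (ap q.2)
  have k5 := a3 _ _ _ ψ az
  rw [k4] at k5
  have e4 : ∑ i, aeval t (Sum.elim p 0 i : ℚ[X]) * (x ^ ((ψ i).1 : ℕ) * ∏ l, g' ((ψ i).2 l)) =
      ∑ a, e2 (F a) t x * w ^ (a : ℕ) := by
    rw [e1, Fintype.sum_sum_type]
    simp [ψ, hg']
  have k6 := hC1 t _ hta (fun i ↦ az (ψ i)) (by rw [e4]; exact hne) (by
    rw [e4, e3, Fintype.sum_sum_type]
    simp [ψ, hg'])
  have k1 : 0 ≤ h1 t := a0 _ _
  have r3 : (m : ℝ) * (D / (2 * P.natDegree)) ≤ r + 1 := by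
    rw [← mul_div_assoc, div_le_iff₀ (by positivity), mul_comm (r + 1 : ℝ)]
    exact_mod_cast r2
  have k7 := mul_le_mul_of_nonneg_left hxh hn'.le
  have k8 := mul_le_mul_of_nonneg_left k3 hm0.le
  have k9 := mul_le_mul_of_nonneg_right r3 k1
  have k10 := mul_le_mul_of_nonneg_right hm1.le k1
  refine le_of_mul_le_mul_left ?_ hm0
  have k11 : (m : ℝ) * ((P.natDegree * C2 + C1) / m) = P.natDegree * C2 + C1 := by field_simp
  linarith

end Pool.Agent.Lib.ECM
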