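import Pool.Agent.Lib.ECM.HBlue

/-! The norm from a plane curve to the line is the product over the fibre. -/

open Polynomial

namespace Pool.Agent.Lib.ECM

namespace T91

theorem det_aeval {n : Type} [Fintype n] [DecidableEq n] (N : Matrix n n ℂ) (q : ℂ[X]) :
    (aeval N q).det = (N.charpoly.roots.map q.eval).prod := by
  have hs : N.charpoly.Splits := IsAlgClosed.splits _
  have hc : N.charpoly.roots.card = Fintype.card n := by
    rw [← hs.natDegree_eq_card_roots, Matrix.charpoly_natDegree_eq_dim]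
  let F : ℂ[X] →* ℂ := Matrix.detMonoidHom.comp (aeval N : ℂ[X] →ₐ[ℂ] Matrix n n ℂ).toMonoidHom
  let G : ℂ[X] →* ℂ :=
    { toFun := fun q ↦ (N.charpoly.roots.map q.eval).prod
      map_one' := by simp
      map_mul' := fun a b ↦ by simp [Multiset.prod_map_mul] }
  have h1 : ∀ c : ℂ, F (C c) = G (C c) := fun c ↦ by
    change (aeval N (C c)).det = (N.charpoly.roots.map (C c).eval).prod
    rw [aeval_C, Algebra.algebraMap_eq_smul_one, Matrix.det_smul, Matrix.det_one]
    simp [hc]
  have h2 : ∀ a : ℂ, F (X - C a) = G (X - C a) := fun a ↦ by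
    change (aeval N (X - C a)).det = (N.charpoly.roots.map (X - C a).eval).prod
    have e : aeval N (X - C a) = -(Matrix.scalar n a - N) := by
      rw [map_sub, aeval_X, aeval_C, neg_sub]
      rfl
    rw [e, Matrix.det_neg, ← Matrix.eval_charpoly, hs.eval_eq_prod_roots_of_monic N.charpoly_monic,
      ← hc, ← Multiset.prod_replicate, ← Multiset.map_const', ← Multiset.prod_map_mul]
    congr 1
    refine Multiset.map_congr rfl fun x _ ↦ ?_
    simp
  change F q = G q
  rw [(IsAlgClosed.splits q).eq_prod_roots, map_mul, map_mul, map_multiset_prod, map_multiset_prod,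
    Multiset.map_map, Multiset.map_map, h1]
  congr 2
  exact Multiset.map_congr rfl fun a _ ↦ h2 a

theorem minp {R : Type} [CommRing R] {P : R[X]} (hP : P.Monic) :
    minpoly R (AdjoinRoot.root P) = P := by
  refine (minpoly.unique' R _ hP (by simp) fun q hq ↦ ?_).symm
  rw [or_iff_not_imp_right, not_not, AdjoinRoot.aeval_eq, AdjoinRoot.mk_eq_zero]
  exact fun h ↦ by_contra fun h0 ↦ hP.not_dvd_of_degree_lt h0 hq h

theorem map_aeval {R : Type} [CommRing R] {n : Type} [Fintype n] [DecidableEq n] (φ : R →+* ℂ)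
    (M : Matrix n n R) (g : R[X]) : (aeval M g).map φ = aeval (M.map φ) (g.map φ) := by
  change φ.mapMatrix (aeval M g) = aeval (φ.mapMatrix M) (g.map φ)
  refine map_aeval_eq_aeval_map (RingHom.ext fun r ↦ ?_) g M
  ext i j
  simp [Matrix.algebraMap_matrix_apply, apply_ite φ]

theorem norm_map {R : Type} [CommRing R] {P : R[X]} (hP : P.Monic) (φ : R →+* ℂ) (g : R[X]) :
    φ (Algebra.norm R (AdjoinRoot.mk P g)) = ((P.map φ).roots.map (g.map φ).eval).prod := by
  have h := charpoly_leftMulMatrix (AdjoinRoot.powerBasis' hP)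
  rw [AdjoinRoot.powerBasis'_gen, minp hP] at h
  rw [Algebra.norm_eq_matrix_det (AdjoinRoot.powerBasis' hP).basis, ← AdjoinRoot.aeval_eq,
    ← aeval_algHom_apply, RingHom.map_det, RingHom.mapMatrix_apply, map_aeval, det_aeval,
    Matrix.charpoly_map, h]

end T91

open T91 in
theorem st_NM : St_NM := by
  intro P hP
  refine ⟨fun t ↦ ?_, fun t x ↦ ?_, fun g t ↦ norm_map hP (aeval t).toRingHom g, fun hi g hg ↦ ?_⟩
  · rw [rts, ← (IsAlgClosed.splits _).natDegree_eq_card_roots, hP.natDegree_map]
  · rw [rts, mem_roots (hP.map _).ne_zero]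
    rfl
  · have : IsDomain (AdjoinRoot P) := AdjoinRoot.isDomain_of_prime hi.prime
    rw [Nm, Algebra.norm_ne_zero_iff_of_basis (AdjoinRoot.powerBasis' hP).basis]
    exact fun h ↦ hg (AdjoinRoot.mk_eq_zero.1 h)

end Pool.Agent.Lib.ECM
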