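import Pool.Agent.Lib.ECM.B_POS1

/-! Positivity on a multisection and for the determinant. -/

open Polynomial Filter Topology

namespace Pool.Agent.Lib.ECM

namespace T40

/-- evaluation at a point of the plane -/
noncomputable def evp (t x : ℂ) : ℚ[X][X] →+* ℂ :=
  (evalRingHom x).comp (mapRingHom (aeval t : ℚ[X] →ₐ[ℚ] ℂ).toRingHom)

theorem evp_eq (g : ℚ[X][X]) (t x : ℂ) : e2 g t x = evp t x g := rfl

theorem e2_C (d : ℚ[X]) (t x : ℂ) : e2 (C d) t x = aeval t d := by simp [e2]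

theorem e2_lc {J : Type} [Fintype J] (y : J → ℤ) (g : J → ℚ[X][X]) (t x : ℂ) :
    e2 (lc y g) t x = lc y fun j ↦ e2 (g j) t x := by
  simp only [evp_eq, lc, map_sum, map_mul, map_intCast]

theorem an_e2 (g : ℚ[X][X]) {x : ℂ → ℂ} {u : ℂ} (hx : AnalyticAt ℂ x u) :
    AnalyticAt ℂ (fun t ↦ e2 g t (x t)) u := by
  induction g using Polynomial.induction_on' with
  | add p q hp hq =>
    simp only [evp_eq, map_add] at hp hq ⊢
    exact hp.add hq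
  | monomial n c =>
    have : ∀ t, e2 (monomial n c) t (x t) = aeval t c * x t ^ n := fun t ↦ by simp [e2]
    simp only [this]
    exact (analyticAt_id.aeval_polynomial c).mul (hx.pow n)

theorem gp_sum {J Y : Type} [Fintype J] {y : Y → J → ℤ} {n : ℕ} (h : GP y n) :
    ∃ C : ℝ, 0 ≤ C ∧ ∀ R : Multiset ℂ, R.card ≤ n → ∀ v : ℂ → J → ℂ, ∃ a, ∀ x ∈ R,
      ∑ j, ‖v x j‖ ^ 2 ≤ C * ‖lc (y a) (v x)‖ ^ 2 := by
  obtain ⟨C, hC, H⟩ := h.1
  refine ⟨Fintype.card J * C ^ 2, by positivity, fun R hR v ↦ ?_⟩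
  obtain ⟨a, ha⟩ := H (R.map v) (by simpa using hR)
  refine ⟨a, fun x hx ↦ ?_⟩
  calc ∑ j, ‖v x j‖ ^ 2 ≤ ∑ _j : J, (C * ‖lc (y a) (v x)‖) ^ 2 := Finset.sum_le_sum fun j _ ↦
        pow_le_pow_left₀ (norm_nonneg _) (ha _ (Multiset.mem_map_of_mem v hx) j) 2
    _ = _ := by simp only [Finset.sum_const, Finset.card_univ, nsmul_eq_mul]; ring

theorem lc_bd {I Y : Type} [Fintype I] [Fintype Y] (y : Y → I → ℤ) :
    ∃ N : ℝ, 0 ≤ N ∧ ∀ (a : Y) (v : I → ℂ) (i0 : I), ∃ i, ‖lc (y a) v‖ ≤ N * ‖v i‖ := by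
  refine ⟨∑ a, ∑ i, ‖(y a i : ℂ)‖, by positivity, fun a v i0 ↦ ?_⟩
  have : Nonempty I := ⟨i0⟩
  obtain ⟨i, hi⟩ := Finite.exists_max fun i ↦ ‖v i‖
  refine ⟨i, ?_⟩
  calc ‖lc (y a) v‖ ≤ ∑ j, ‖(y a j : ℂ) * v j‖ := norm_sum_le _ _
    _ ≤ ∑ j, ‖(y a j : ℂ)‖ * ‖v i‖ := Finset.sum_le_sum fun j _ ↦ by
        rw [norm_mul]; exact mul_le_mul_of_nonneg_left (hi j) (norm_nonneg _)
    _ = (∑ j, ‖(y a j : ℂ)‖) * ‖v i‖ := (Finset.sum_mul _ _ _).symm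
    _ ≤ _ := mul_le_mul_of_nonneg_right (Finset.single_le_sum
        (f := fun a ↦ ∑ j, ‖(y a j : ℂ)‖) (fun _ _ ↦ by positivity) (Finset.mem_univ a))
        (norm_nonneg _)

/-- the point of the curve above `(t, x)` -/
noncomputable def pt {ι : Type} (d : ℚ[X]) (σ : ι → ℚ[X][X]) (t x : ℂ) : ι → ℂ :=
  fun i ↦ e2 (σ i) t x / aeval t d

open Classical in
/-- the Hodge norm at a point -/
noncomputable def Hs {ι : Type} (Rp : (ι → ℂ) → T3 → M2 → Prop) (s : ι → ℂ) (l : V2) : ℝ :=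
  if h : ∃ p : T3 × M2, Rp s p.1 p.2 then Hn h.choose.1 (h.choose.2.mulVec l) else 0

variable {ι I J : Type} [Fintype I] [Fintype J] {Z : Set (ι → ℂ)} {ψ : I → MvPolynomial ι ℚ}
  {A B : J → MvPolynomial ι ℚ} {Rp : (ι → ℂ) → T3 → M2 → Prop} {P : ℚ[X][X]} {d : ℚ[X]}
  {σ : ι → ℚ[X][X]} {i0 : ι} {S : Finset ℂ}

theorem hs_eq (G : Gauge Z ψ A B Rp) {s : ι → ℂ} {τ : T3} {D : M2} (h : Rp s τ D) :
    Hs Rp s = fun l ↦ Hn τ (D.mulVec l) := by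
  ext l
  have h' : ∃ p : T3 × M2, Rp s p.1 p.2 := ⟨(τ, D), h⟩
  rw [Hs, dif_pos h']
  exact G.uniq _ _ _ _ _ h'.choose_spec h l

theorem exists_rp (G : Gauge Z ψ A B Rp) {s : ι → ℂ} (hs : s ∈ Z) : ∃ τ D, Rp s τ D := by
  obtain ⟨τ, D, -, -, h⟩ := G.lift (fun _ ↦ s) 0 (fun _ ↦ analyticAt_const)
    (Eventually.of_forall fun _ ↦ hs)
  exact ⟨_, _, h.self_of_nhds⟩

theorem mulVec_ne {D : M2} (h : D.det ≠ 0) {l : V2} (hl : l ≠ 0) : D.mulVec l ≠ 0 :=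
  fun h0 ↦ hl (Matrix.eq_zero_of_mulVec_eq_zero h h0)

theorem hs_pos (G : Gauge Z ψ A B Rp) {s : ι → ℂ} (hs : s ∈ Z) {l : V2} (hl : l ≠ 0) :
    0 < Hs Rp s l := by
  obtain ⟨τ, D, h⟩ := exists_rp G hs
  rw [hs_eq G h]
  exact hn_pos (G.per _ _ _ h).1 (mulVec_ne (G.per _ _ _ h).2 hl)

theorem hs_nonneg (G : Gauge Z ψ A B Rp) {s : ι → ℂ} (hs : s ∈ Z) (l : V2) : 0 ≤ Hs Rp s l := by
  obtain ⟨τ, D, h⟩ := exists_rp G hs
  rw [hs_eq G h]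
  exact hn_nonneg (G.per _ _ _ h).1 _

theorem dt_pos (G : Gauge Z ψ A B Rp) {s : ι → ℂ} (hs : s ∈ Z) : 0 < dt (Hs Rp s) := by
  obtain ⟨τ, D, h⟩ := exists_rp G hs
  rw [hs_eq G h, dt_hn (G.per _ _ _ h).1]
  exact mul_pos (inv_pos.2 (dY_pos (G.per _ _ _ h).1))
    (pow_pos (norm_pos_iff.2 (G.per _ _ _ h).2) 2)

theorem dt_le (G : Gauge Z ψ A B Rp) {s : ι → ℂ} (hs : s ∈ Z) (α β : ℂ) :
    dt (Hs Rp s) * ‖α‖ ^ 2 ≤ Hs Rp s ![1, 0] * Hs Rp s ![-β, α] := by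
  obtain ⟨τ, D, h⟩ := exists_rp G hs
  rw [hs_eq G h, dt_hn (G.per _ _ _ h).1]
  refine le_of_eq_of_le ?_ (hn_det (G.per _ _ _ h).1 _ _)
  have : (D.mulVec ![1, 0]) 0 * (D.mulVec ![-β, α]) 1 -
      (D.mulVec ![1, 0]) 1 * (D.mulVec ![-β, α]) 0 = D.det * α := by
    simp only [Matrix.det_fin_two, Matrix.mulVec, dotProduct, Fin.sum_univ_two,
      Matrix.cons_val_zero, Matrix.cons_val_one]
    ring
  rw [this, norm_mul]
  ring

theorem loc (hR : St_ROOTS) (G : Gauge Z ψ A B Rp) (M : Model Z P d σ i0 S) {u : ℂ} (hu : u ∉ S) :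
    ∃ (x : Fin P.natDegree → ℂ → ℂ) (τ : Fin P.natDegree → ℂ → T3) (D : Fin P.natDegree → ℂ → M2),
      (∀ i, AnalyticAt ℂ (x i) u ∧ An (τ i) u ∧ AnM (D i) u ∧ τ i u ∈ H2 ∧ (D i u).det ≠ 0 ∧
        Mov (τ i) u) ∧ ∀ᶠ t in 𝓝 u, (rts P t = Finset.univ.val.map fun i ↦ x i t) ∧
        ∀ i, Rp (pt d σ t (x i t)) (τ i t) (D i t) := by
  obtain ⟨x, hx, hr⟩ := hR P M.mo u (M.sep u hu)
  have hS : ∀ᶠ t in 𝓝 u, t ∉ S := S.finite_toSet.isClosed.isOpen_compl.mem_nhds hu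
  have an : ∀ i, An (fun t ↦ pt d σ t (x i t)) u := fun i k ↦
    (an_e2 _ (hx i)).div (analyticAt_id.aeval_polynomial d) (M.d0 u hu)
  have hZ : ∀ i, ∀ᶠ t in 𝓝 u, pt d σ t (x i t) ∈ Z := fun i ↦ by
    filter_upwards [hS, hr] with t ht hrt
    exact M.mem t ht _ (hrt ▸ Multiset.mem_map_of_mem _ (Finset.mem_univ_val i))
  choose τ D hτ hD hRp using fun i ↦ G.lift _ u (an i) (hZ i)
  refine ⟨x, τ, D, fun i ↦ ?_, hr.and (eventually_all.2 hRp)⟩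
  have hp := G.per _ _ _ (hRp i).self_of_nhds
  refine ⟨hx i, hτ i, hD i, hp.1, hp.2, G.mov _ u (an i) (hZ i) (fun hc ↦ ?_) _ _ (hτ i) (hRp i)⟩
  have h0 : ∀ t z, t ∉ S → pt d σ t z i0 = t := fun t z ht ↦ by
    rw [pt, M.t0, e2_C, map_mul, aeval_X, mul_div_cancel_left₀ _ (M.d0 t ht)]
  have h1 : ∀ᶠ t in 𝓝 u, t = u := by
    filter_upwards [hS, hc] with t ht hct
    have := congrFun hct i0
    rwa [h0 t _ ht, h0 u _ hu] at this
  have h2 : ∀ᶠ t in 𝓝[≠] u, t = u := h1.filter_mono nhdsWithin_le_nhds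
  obtain ⟨t, ht, ht'⟩ := (h2.and self_mem_nhdsWithin).exists
  exact ht' ht

theorem deg_pos (M : Model Z P d σ i0 S) : 0 < P.natDegree :=
  Nat.pos_of_ne_zero fun h ↦ M.irr.not_isUnit (by rw [M.mo.natDegree_eq_zero.1 h]; exact isUnit_one)

theorem line_loc (hR : St_ROOTS) (hL : St_LM) (G : Gauge Z ψ A B Rp) (M : Model Z P d σ i0 S)
    (ω : ℚ[X][X]) {u : ℂ} (hu : u ∉ S) :
    ContinuousAt (fun t ↦ ((rts P t).map fun x ↦
      Hs Rp (pt d σ t x) ![aeval t d, e2 ω t x]).prod) u ∧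
    NoMax (fun t ↦ ((rts P t).map fun x ↦ Hs Rp (pt d σ t x) ![aeval t d, e2 ω t x]).prod) u := by
  obtain ⟨x, τ, D, h, he⟩ := loc hR G M hu
  have e : (fun t ↦ ∏ i, Hn (τ i t) ((D i t).mulVec ![aeval t d, e2 ω t (x i t)])) =ᶠ[𝓝 u]
      fun t ↦ ((rts P t).map fun x ↦ Hs Rp (pt d σ t x) ![aeval t d, e2 ω t x]).prod := by
    filter_upwards [he] with t ht
    rw [ht.1, Multiset.map_map, Finset.prod_eq_multiset_prod]
    refine congrArg Multiset.prod (Multiset.map_congr rfl fun i _ ↦ ?_)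
    simp only [Function.comp, hs_eq G (ht.2 i)]
  have an : ∀ i, An (fun t ↦ (D i t).mulVec ![aeval t d, e2 ω t (x i t)]) u := fun i k ↦ by
    simp only [Matrix.mulVec, dotProduct, Fin.sum_univ_two, Matrix.cons_val_zero,
      Matrix.cons_val_one]
    exact (((h i).2.2.1 k 0).mul (analyticAt_id.aeval_polynomial d)).add
      (((h i).2.2.1 k 1).mul (an_e2 ω (h i).1))
  refine ⟨ContinuousAt.congr (tendsto_finsetProd _ fun i _ ↦
    cont_hn (h i).2.1 (an i) (h i).2.2.2.1) e, nomax_congr ((hL _ τ u (deg_pos M)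
      (fun i ↦ (h i).2.1) (fun i ↦ (h i).2.2.2.1) fun i ↦ (h i).2.2.2.2.2).1 _ an fun i ↦ ?_) e⟩
  exact mulVec_ne (h i).2.2.2.2.1 fun h0 ↦ M.d0 u hu (congrFun h0 0)

theorem det_loc (hR : St_ROOTS) (hL : St_LM) (G : Gauge Z ψ A B Rp) (M : Model Z P d σ i0 S)
    {u : ℂ} (hu : u ∉ S) :
    ContinuousAt (fun t ↦ ((rts P t).map fun x ↦ dt (Hs Rp (pt d σ t x))).prod) u ∧
    NoMax (fun t ↦ ((rts P t).map fun x ↦ dt (Hs Rp (pt d σ t x))).prod) u := by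
  obtain ⟨x, τ, D, h, he⟩ := loc hR G M hu
  have e : (fun t ↦ (∏ i, (dY (τ i t))⁻¹) * ‖∏ i, (D i t).det‖ ^ 2) =ᶠ[𝓝 u]
      fun t ↦ ((rts P t).map fun x ↦ dt (Hs Rp (pt d σ t x))).prod := by
    filter_upwards [he] with t ht
    rw [ht.1, Multiset.map_map, norm_prod, ← Finset.prod_pow, ← Finset.prod_mul_distrib,
      Finset.prod_eq_multiset_prod]
    refine congrArg Multiset.prod (Multiset.map_congr rfl fun i _ ↦ ?_)
    simp only [Function.comp, hs_eq G (ht.2 i), dt_hn (G.per _ _ _ (ht.2 i)).1]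
  have an : AnalyticAt ℂ (fun t ↦ ∏ i, (D i t).det) u := by
    refine Finset.analyticAt_fun_prod _ fun i _ ↦ ?_
    simp only [Matrix.det_fin_two]
    have := (h i).2.2.1
    exact ((this 0 0).mul (this 1 1)).sub ((this 0 1).mul (this 1 0))
  refine ⟨ContinuousAt.congr (ContinuousAt.mul (tendsto_finsetProd _ fun i _ ↦
    (cont_dY (h i).2.1).inv₀ (dY_pos (h i).2.2.2.1).ne') (an.continuousAt.norm.pow 2)) e,
    nomax_congr (nomax_mul (hL _ τ u (deg_pos M) (fun i ↦ (h i).2.1) (fun i ↦ (h i).2.2.2.1)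
      fun i ↦ (h i).2.2.2.2.2).2 an ?_) e⟩
  exact Finset.prod_ne_zero_iff.2 fun i _ ↦ (h i).2.2.2.2.1

variable {e : ℕ} {ψ' : I → ℚ[X][X]} {A' B' : J → ℚ[X][X]}

theorem psi_ne (G : Gauge Z ψ A B Rp) (M : Model Z P d σ i0 S) (c : Clr d σ e ψ ψ') {t x : ℂ}
    (ht : t ∉ S) (hx : x ∈ rts P t) : ∃ i, e2 (ψ' i) t x ≠ 0 := by
  obtain ⟨i, hi⟩ := G.ne _ (M.mem t ht x hx)
  exact ⟨i, by rw [c i t x (M.d0 t ht)]; exact mul_ne_zero (pow_ne_zero _ (M.d0 t ht)) hi⟩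

theorem bd' {Y : Type} [Fintype Y] (G : Gauge Z ψ A B Rp) (M : Model Z P d σ i0 S)
    (c : Clr d σ e ψ ψ') (cA : Clr d σ e A A') (cB : Clr d σ e B B') (y : Y → I → ℤ) :
    ∃ K : ℝ, 0 ≤ K ∧ ∀ t, t ∉ S → ∀ x ∈ rts P t, ∀ l : V2,
      (∀ i, Hs Rp (pt d σ t x) l * ‖e2 (ψ' i) t x‖ ^ 2 ≤
        K * ∑ j, ‖e2 (A' j) t x * l 0 + e2 (B' j) t x * l 1‖ ^ 2) ∧
      ∀ a, Hs Rp (pt d σ t x) l * ‖e2 (lc (y a) ψ') t x‖ ^ 2 ≤
        K * ∑ j, ‖e2 (A' j) t x * l 0 + e2 (B' j) t x * l 1‖ ^ 2 := by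
  obtain ⟨C, hC⟩ := G.bd
  obtain ⟨N, hN, HN⟩ := lc_bd y
  refine ⟨(1 + N ^ 2) * max C 0, by positivity, fun t ht x hx l ↦ ?_⟩
  have hZ : pt d σ t x ∈ Z := M.mem t ht x hx
  have hd := M.d0 t ht
  have h0 := hs_nonneg G hZ l
  have hQ : 0 ≤ max C 0 * ∑ j, ‖e2 (A' j) t x * l 0 + e2 (B' j) t x * l 1‖ ^ 2 := by positivity
  have one : ∀ i, Hs Rp (pt d σ t x) l * ‖e2 (ψ' i) t x‖ ^ 2 ≤
      max C 0 * ∑ j, ‖e2 (A' j) t x * l 0 + e2 (B' j) t x * l 1‖ ^ 2 := by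
    intro i
    obtain ⟨τ, D, h⟩ := exists_rp G hZ
    have h1 := (hC _ hZ τ D h l i).trans
      (mul_le_mul_of_nonneg_right (le_max_left C 0) (by positivity))
    have h2 : ∀ j, ‖e2 (A' j) t x * l 0 + e2 (B' j) t x * l 1‖ ^ 2 = ‖aeval t d ^ e‖ ^ 2 *
        ‖ev (pt d σ t x) (A j) * l 0 + ev (pt d σ t x) (B j) * l 1‖ ^ 2 := fun j ↦ by
      rw [cA j t x hd, cB j t x hd, ← mul_pow, ← norm_mul, mul_add, ← mul_assoc, ← mul_assoc]
      rfl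
    have h3 : ‖e2 (ψ' i) t x‖ ^ 2 = ‖aeval t d ^ e‖ ^ 2 * ‖ev (pt d σ t x) (ψ i)‖ ^ 2 := by
      rw [c i t x hd, norm_mul, mul_pow]
      rfl
    simp only [h2, h3, ← Finset.mul_sum, hs_eq G h]
    have h4 := mul_le_mul_of_nonneg_left h1 (sq_nonneg ‖aeval t d ^ e‖)
    linarith
  refine ⟨fun i ↦ (one i).trans (by nlinarith [mul_nonneg (sq_nonneg N) hQ]), fun a ↦ ?_⟩
  obtain ⟨i1, -⟩ := psi_ne G M c ht hx
  obtain ⟨i, hi⟩ := HN a (fun i ↦ e2 (ψ' i) t x) i1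
  rw [e2_lc]
  have h5 := mul_le_mul_of_nonneg_left (pow_le_pow_left₀ (norm_nonneg _) hi 2) h0
  have h6 := mul_le_mul_of_nonneg_left (one i) (sq_nonneg N)
  nlinarith

theorem nm_ne {Y : Type} (hN : St_NM) (G : Gauge Z ψ A B Rp) (M : Model Z P d σ i0 S)
    (c : Clr d σ e ψ ψ') {y : Y → I → ℤ} (hy : GP y P.natDegree) {t : ℂ} (ht : t ∉ S) :
    ∃ a, aeval t (nm1 P y ψ' a) ≠ 0 := by
  obtain ⟨C, -, H⟩ := gp_sum hy
  obtain ⟨a, ha⟩ := H (rts P t) ((hN P M.mo).1 t).le fun x i ↦ e2 (ψ' i) t x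
  refine ⟨a, ?_⟩
  rw [nm1, (hN P M.mo).2.2.1]
  refine Multiset.prod_ne_zero fun h0 ↦ ?_
  obtain ⟨x, hx, h1⟩ := Multiset.mem_map.1 h0
  obtain ⟨i, hi⟩ := psi_ne G M c ht hx
  have h2 := ha x hx
  rw [← e2_lc, h1] at h2
  have h3 : ‖e2 (ψ' i) t x‖ ^ 2 ≤ ∑ j, ‖e2 (ψ' j) t x‖ ^ 2 := Finset.single_le_sum
    (f := fun j ↦ ‖e2 (ψ' j) t x‖ ^ 2) (fun _ _ ↦ by positivity) (Finset.mem_univ i)
  have h4 := pow_pos (norm_pos_iff.2 hi) 2
  simp only [norm_zero, ne_eq, OfNat.ofNat_ne_zero, not_false_eq_true, zero_pow, mul_zero] at h2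
  linarith

theorem mprod_pos (R : Multiset ℂ) (f : ℂ → ℝ) (h : ∀ x ∈ R, 0 < f x) : 0 < (R.map f).prod :=
  Multiset.prod_pos fun y hy ↦ by
    obtain ⟨x, hx, rfl⟩ := Multiset.mem_map.1 hy
    exact h x hx

theorem lc_comb {y : J → ℤ} (v w : J → ℂ) (p q : ℂ) :
    lc y (fun j ↦ v j * p + w j * q) = lc y v * p + lc y w * q := by
  simp only [lc, Finset.sum_mul, ← Finset.sum_add_distrib]
  exact Finset.sum_congr rfl fun j _ ↦ by ring

end T40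

open T40 in
theorem st_POS (hN : St_NM) (hT : St_TWO) (hR : St_ROOTS) (hL : St_LM) (hA : St_POSA) :
    St_POS := by
  intro ι I J Y Y' _ _ _ _ Z ψ A B Rp P d σ i0 S e ψ' A' B' y y' G M c cA cB hy hy'
  obtain ⟨K, hK, HK⟩ := bd' G M c cA cB y'
  obtain ⟨Cy, hCy, Hy⟩ := gp_sum hy
  have card := (hN P M.mo).1
  have nm := (hN P M.mo).2.2.1
  have two := deg_lt hT hA (nm2 P y A' B') (nm1 P y' ψ') 2
    (fun t ↦ ((rts P t).map fun x ↦ dt (Hs Rp (pt d σ t x))).prod) S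
    ((K * Cy * (K * Cy)) ^ P.natDegree) (by positivity) (by
      intro t ht
      refine ⟨(det_loc hR hL G M ht).1, (det_loc hR hL G M ht).2,
        mprod_pos _ _ fun x hx ↦ dt_pos G (M.mem t ht x hx), nm_ne hN G M c hy' ht, ?_⟩
      obtain ⟨a, ha⟩ := Hy (rts P t) (card t).le fun x j ↦ e2 (A' j) t x
      obtain ⟨a', ha'⟩ := Hy (rts P t) (card t).le fun x j ↦
        e2 (A' j) t x * -e2 (lc (y a) B') t x + e2 (B' j) t x * e2 (lc (y a) A') t x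
      refine ⟨(a, a'), fun b ↦ ?_⟩
      rw [nm1, nm2, nm, nm, ← card t]
      refine prod_bd _ _ _ _ _ _ (by positivity)
        (fun x hx ↦ (dt_pos G (M.mem t ht x hx)).le) fun x hx ↦ ?_
      have hZ : pt d σ t x ∈ Z := M.mem t ht x hx
      have q1 := ha x hx
      have q2 := ha' x hx
      rw [← e2_lc] at q1
      rw [lc_comb, ← e2_lc, ← e2_lc] at q2
      have k1 := HK t ht x hx ![1, 0]
      have k2 := (HK t ht x hx ![-e2 (lc (y a) B') t x, e2 (lc (y a) A') t x]).2 b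
      simp only [Matrix.cons_val_zero, Matrix.cons_val_one, mul_one, mul_zero, add_zero] at k1 k2
      have em : e2 (lc (y a) A' * lc (y a') B' - lc (y a) B' * lc (y a') A') t x =
          e2 (lc (y a') A') t x * -e2 (lc (y a) B') t x +
            e2 (lc (y a') B') t x * e2 (lc (y a) A') t x := by
        simp only [evp_eq, map_sub, map_mul]
        ring
      rw [em]
      have r1 := (k1.2 b).trans (mul_le_mul_of_nonneg_left q1 hK)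
      have r2 := k2.trans (mul_le_mul_of_nonneg_left q2 hK)
      have pα : 0 < ‖e2 (lc (y a) A') t x‖ ^ 2 := by
        obtain ⟨i, hi⟩ := psi_ne G M c ht hx
        have s1 := (k1.1 i).trans (mul_le_mul_of_nonneg_left q1 hK)
        have s2 := mul_pos (hs_pos G hZ (l := ![1, 0]) fun h0 ↦ one_ne_zero (congrFun h0 0))
          (pow_pos (norm_pos_iff.2 hi) 2)
        refine lt_of_le_of_ne (sq_nonneg _) fun h0 ↦ ?_
        rw [← h0] at s1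
        linarith
      have r3 := mul_le_mul r1 r2 (mul_nonneg (hs_nonneg G hZ _) (sq_nonneg _)) (by positivity)
      have r4 := mul_le_mul_of_nonneg_right
        (dt_le G hZ (e2 (lc (y a) A') t x) (e2 (lc (y a) B') t x))
        (pow_nonneg (norm_nonneg (e2 (lc (y' b) ψ') t x)) 4)
      refine le_of_mul_le_mul_right ?_ pα
      calc _ = dt (Hs Rp (pt d σ t x)) * ‖e2 (lc (y a) A') t x‖ ^ 2 *
            ‖e2 (lc (y' b) ψ') t x‖ ^ 4 := by ring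
        _ ≤ _ := r4
        _ = _ := by ring
        _ ≤ _ := r3
        _ = _ := by ring)
  refine ⟨two.1, two.2.1, two.2.2, fun ω ↦ ?_⟩
  have one := deg_lt hT hA (nm1 P y fun j ↦ A' j * C d + B' j * ω) (nm1 P y' ψ') 1
    (fun t ↦ ((rts P t).map fun x ↦ Hs Rp (pt d σ t x) ![aeval t d, e2 ω t x]).prod) S
    ((K * Cy) ^ P.natDegree) (by positivity) (by
      intro t ht
      refine ⟨(line_loc hR hL G M ω ht).1, (line_loc hR hL G M ω ht).2,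
        mprod_pos _ _ fun x hx ↦ hs_pos G (M.mem t ht x hx) fun h0 ↦ M.d0 t ht (congrFun h0 0),
        nm_ne hN G M c hy' ht, ?_⟩
      obtain ⟨a, ha⟩ := Hy (rts P t) (card t).le fun x j ↦ e2 (A' j * C d + B' j * ω) t x
      refine ⟨a, fun b ↦ ?_⟩
      rw [nm1, nm1, nm, nm, ← card t]
      refine prod_bd _ _ _ _ _ _ (by positivity)
        (fun x hx ↦ hs_nonneg G (M.mem t ht x hx) _) fun x hx ↦ ?_
      have q1 := ha x hx
      rw [← e2_lc] at q1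
      have k1 := (HK t ht x hx ![aeval t d, e2 ω t x]).2 b
      have em : ∀ j, e2 (A' j * C d + B' j * ω) t x =
          e2 (A' j) t x * aeval t d + e2 (B' j) t x * e2 ω t x := fun j ↦ by
        rw [← e2_C d t x]
        simp only [evp_eq, map_add, map_mul]
      simp only [em] at q1
      simp only [Matrix.cons_val_zero, Matrix.cons_val_one] at k1
      rw [mul_assoc K]
      exact k1.trans (mul_le_mul_of_nonneg_left q1 hK))
  exact ⟨one.2.1, by simpa using one.2.2⟩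

end Pool.Agent.Lib.ECM
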