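import Pool.Agent.Lib.ECM.HBlue

/-! Block POSA: a bounded function on the line minus a finite set has a weighted local maximum. -/

open Filter Topology

namespace Pool.Agent.Lib.ECM

namespace POSA

/-- a rational function with simple zeros on `S` and at infinity and one pole `c` -/
noncomputable def fn (S : Finset ℂ) (c z : ℂ) : ℂ :=
  (∏ a ∈ S, (1 + (c - a) * (z - c)⁻¹)) * (z - c)⁻¹

lemma fn_an (S : Finset ℂ) {c z : ℂ} (h : z ≠ c) : AnalyticAt ℂ (fn S c) z := by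
  have h1 : AnalyticAt ℂ (fun z : ℂ ↦ (z - c)⁻¹) z :=
    (analyticAt_id.sub analyticAt_const).inv (sub_ne_zero.2 h)
  exact (Finset.analyticAt_fun_prod S fun a _ ↦
    analyticAt_const.add (analyticAt_const.mul h1)).mul h1

lemma fn_ne (S : Finset ℂ) {c z : ℂ} (h : z ≠ c) (hz : z ∉ S) : fn S c z ≠ 0 := by
  have h0 := sub_ne_zero.2 h
  refine mul_ne_zero (Finset.prod_ne_zero_iff.2 fun a ha e ↦ hz ?_) (inv_ne_zero h0)
  have : z = a := by
    field_simp at e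
    linear_combination e
  exact this ▸ ha

lemma fn_zero (S : Finset ℂ) {c z : ℂ} (h : z ≠ c) (hz : z ∈ S) : fn S c z = 0 := by
  have h0 := sub_ne_zero.2 h
  refine mul_eq_zero_of_left (Finset.prod_eq_zero hz ?_) _
  field_simp
  ring

lemma ne_of_le {c z : ℂ} {ρ : ℝ} (hρ : 0 < ρ) (h : ρ ≤ ‖z - c‖) : z ≠ c := by
  rintro rfl
  rw [sub_self, norm_zero] at h
  exact absurd h (not_le.2 hρ)

lemma cpt (S : Finset ℂ) (c : ℂ) {ρ δ : ℝ} (hρ : 0 < ρ) (hδ : 0 < δ) :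
    IsCompact {z : ℂ | ρ ≤ ‖z - c‖ ∧ δ ≤ ‖fn S c z‖} := by
  have hP : Continuous fun w : ℂ ↦ ‖(∏ a ∈ S, (1 + (c - a) * w)) * w‖ := by fun_prop
  have h1 : ∀ᶠ w in 𝓝 (0 : ℂ), ‖(∏ a ∈ S, (1 + (c - a) * w)) * w‖ < δ :=
    hP.continuousAt.eventually_lt continuousAt_const (by simpa using hδ)
  obtain ⟨η, hη, h2⟩ := Metric.eventually_nhds_iff.1 h1
  refine Metric.isCompact_of_isClosed_isBounded ?_
    ((Metric.isBounded_closedBall (x := c) (r := η⁻¹)).subset fun z hz ↦ ?_)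
  · have hc : IsClosed {z : ℂ | ρ ≤ ‖z - c‖} := isClosed_le continuous_const (by fun_prop)
    have h3 : ContinuousOn (fun z ↦ ‖fn S c z‖) {z : ℂ | ρ ≤ ‖z - c‖} := fun z hz ↦
      (fn_an S (ne_of_le hρ hz)).continuousAt.norm.continuousWithinAt
    exact h3.preimage_isClosed_of_isClosed hc isClosed_Ici
  · have h3 : η ≤ ‖z - c‖⁻¹ := by
      by_contra h4
      exact absurd hz.2 (not_le.2 (h2 (by rw [dist_zero_right, norm_inv]; exact not_le.1 h4)))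
    rw [Metric.mem_closedBall, dist_eq_norm]
    exact (le_inv_comm₀ hη (hρ.trans_le hz.1)).1 h3

/-- a local maximum of the weighted function excludes `NoMax` -/
lemma not_noMax {f : ℂ → ℂ} {W : ℂ → ℝ} {u : ℂ} (ε : ℝ) (hf : AnalyticAt ℂ f u) (h0 : f u ≠ 0)
    (h : IsLocalMax (fun z ↦ Real.exp (ε * Real.log ‖f z‖) * W z) u) : ¬ NoMax W u := by
  intro hN
  have h1 : AnalyticAt ℂ (fun z ↦ Complex.log (f z / f u)) u :=
    (hf.div_const (c := f u)).clog (by rw [div_self h0]; exact Complex.one_mem_slitPlane)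
  refine hN (fun z ↦ (ε : ℂ) * (Complex.log (f z / f u) + (Real.log ‖f u‖ : ℝ)))
    (analyticAt_const.mul (h1.add analyticAt_const)) (h.congr ?_)
  filter_upwards [hf.continuousAt.eventually_ne h0] with z hz
  rw [Complex.re_ofReal_mul, Complex.add_re, Complex.log_re, Complex.ofReal_re, norm_div,
    Real.log_div (norm_ne_zero_iff.2 hz) (norm_ne_zero_iff.2 h0), sub_add_cancel]

end POSA

open POSA in
theorem st_POSA : St_POSA := by
  intro S W K hc hW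
  have hSo : IsOpen ((S : Set ℂ)ᶜ) := S.finite_toSet.isClosed.isOpen_compl
  obtain ⟨c, hcS⟩ := Infinite.exists_notMem_finset S
  obtain ⟨ρ, hρ, hD⟩ := Metric.nhds_basis_closedBall.mem_iff.1 (hSo.mem_nhds hcS)
  obtain ⟨t₁, ht₁, hm₁⟩ := (isCompact_closedBall c ρ).exists_isMaxOn
    ⟨c, Metric.mem_closedBall_self hρ.le⟩ fun z hz ↦ (hc z (hD hz)).continuousWithinAt
  by_cases hall : ∀ t, t ∉ S → W t ≤ W t₁
  · refine ⟨t₁, hD ht₁, fun hN ↦ hN (fun _ ↦ 0) analyticAt_const ?_⟩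
    filter_upwards [hSo.mem_nhds (hD ht₁)] with z hz
    simpa using hall z hz
  push Not at hall
  obtain ⟨t₂, h₂S, h₂⟩ := hall
  have h₂ρ : ρ ≤ ‖t₂ - c‖ := by
    by_contra h
    exact absurd (hm₁ (Metric.mem_closedBall.2 (by rw [dist_eq_norm]; exact (not_le.1 h).le)))
      (not_le.2 h₂)
  obtain ⟨H, hH⟩ := (isCompact_sphere c ρ).exists_bound_of_continuousOn (f := fn S c)
    fun z hz ↦ (fn_an S (ne_of_le hρ (mem_sphere_iff_norm.1 hz).ge)).continuousAt.continuousWithinAt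
  have hev : ∀ᶠ ε in 𝓝 (0 : ℝ),
      Real.exp (ε * Real.log H) * W t₁ < Real.exp (ε * Real.log ‖fn S c t₂‖) * W t₂ :=
    ContinuousAt.eventually_lt (by fun_prop) (by fun_prop) (by simpa using h₂)
  obtain ⟨ε, hlt, hε⟩ := ((hev.filter_mono nhdsWithin_le_nhds).and
    (self_mem_nhdsWithin (s := Set.Ioi (0 : ℝ)))).exists
  have hε : 0 < ε := hε
  set V : ℂ → ℝ := fun z ↦ Real.exp (ε * Real.log ‖fn S c z‖) * W z with hV
  have hm : 0 < V t₂ := mul_pos (Real.exp_pos _) (hW t₂ h₂S).1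
  have hK : 0 < K := (hW t₂ h₂S).1.trans_le (hW t₂ h₂S).2
  have hf₂ := norm_pos_iff.2 (fn_ne S (ne_of_le hρ h₂ρ) h₂S)
  set δ := min ‖fn S c t₂‖ (Real.exp (Real.log (V t₂ / K) / ε)) with hδ
  have hδ0 : 0 < δ := lt_min hf₂ (Real.exp_pos _)
  have hB : ∀ z, ρ ≤ ‖z - c‖ ∧ δ ≤ ‖fn S c z‖ → z ∉ S := fun z hz hS ↦ by
    rw [fn_zero S (ne_of_le hρ hz.1) hS, norm_zero] at hz
    exact absurd hz.2 (not_le.2 hδ0)
  obtain ⟨t₃, ht₃, hm₃⟩ := (cpt S c hρ hδ0).exists_isMaxOn (f := V) ⟨t₂, h₂ρ, min_le_left _ _⟩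
    fun z hz ↦ by
      have h1 := (fn_an S (ne_of_le hρ hz.1)).continuousAt.norm.log (hδ0.trans_le hz.2).ne'
      exact ((Real.continuous_exp.continuousAt.comp (continuousAt_const.mul h1)).mul
        (hc z (hB z hz))).continuousWithinAt
  have h₃S := hB t₃ ht₃
  have h23 : V t₂ ≤ V t₃ := hm₃ ⟨h₂ρ, min_le_left _ _⟩
  have h₃ρ : ρ < ‖t₃ - c‖ := by
    refine lt_of_le_of_ne ht₃.1 fun e ↦ ?_
    have hs : t₃ ∈ Metric.sphere c ρ := mem_sphere_iff_norm.2 e.symm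
    have h1 : V t₃ ≤ Real.exp (ε * Real.log H) * W t₁ :=
      mul_le_mul (Real.exp_le_exp.2 (mul_le_mul_of_nonneg_left
        (Real.log_le_log (hδ0.trans_le ht₃.2) (hH t₃ hs)) hε.le))
        (hm₁ (Metric.sphere_subset_closedBall hs)) (hW t₃ h₃S).1.le (Real.exp_pos _).le
    exact absurd (h23.trans h1) (not_le.2 hlt)
  have h₃c := ne_of_le hρ h₃ρ.le
  refine ⟨t₃, h₃S, not_noMax ε (fn_an S h₃c) (fn_ne S h₃c h₃S) ?_⟩
  have hev₂ : ∀ᶠ z in 𝓝 t₃, ρ < ‖z - c‖ :=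
    ContinuousAt.eventually_lt continuousAt_const (by fun_prop) h₃ρ
  filter_upwards [hSo.mem_nhds h₃S, hev₂] with z hz hzρ
  by_cases h1 : δ ≤ ‖fn S c z‖
  · exact hm₃ ⟨hzρ.le, h1⟩
  · refine le_trans ?_ h23
    have h2 : Real.log ‖fn S c z‖ ≤ Real.log (V t₂ / K) / ε :=
      (Real.log_le_iff_le_exp (norm_pos_iff.2 (fn_ne S (ne_of_le hρ hzρ.le) hz))).2
        ((not_le.1 h1).le.trans (min_le_right _ _))
    have h3 : Real.exp (ε * Real.log ‖fn S c z‖) ≤ V t₂ / K := by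
      rw [← Real.exp_log (div_pos hm hK)]
      exact Real.exp_le_exp.2 (by rwa [le_div_iff₀' hε] at h2)
    calc Real.exp (ε * Real.log ‖fn S c z‖) * W z ≤ V t₂ / K * K :=
          mul_le_mul h3 (hW z hz).2 (hW z hz).1.le (div_pos hm hK).le
      _ = V t₂ := div_mul_cancel₀ _ hK.ne'

end Pool.Agent.Lib.ECM
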