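import Pool.Agent.Lib.ECM.B_HT2

/-! Block TWO: size and height of a family of polynomials. -/

open Polynomial

namespace Pool.Agent.Lib.ECM

namespace T48

theorem up (p : ℚ[X]) {n : ℕ} (hn : p.natDegree ≤ n) :
    ∃ C : ℝ, 0 ≤ C ∧ ∀ t : ℂ, ‖aeval t p‖ ≤ C * max 1 ‖t‖ ^ n := by
  refine ⟨∑ i ∈ Finset.range (n + 1), ‖(p.coeff i : ℂ)‖, by positivity, fun z ↦ ?_⟩
  rw [aeval_eq_sum_range' (Nat.lt_succ_of_le hn), Finset.sum_mul]
  refine (norm_sum_le _ _).trans (Finset.sum_le_sum fun i hi ↦ ?_)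
  rw [Rat.smul_def, norm_mul, norm_pow]
  refine mul_le_mul_of_nonneg_left ?_ (norm_nonneg _)
  exact (pow_le_pow_left₀ (norm_nonneg _) (le_max_right 1 _) i).trans
    (pow_le_pow_right₀ (le_max_left _ _) (Nat.lt_succ_iff.1 (Finset.mem_range.1 hi)))

theorem ups {Y : Type} [Fintype Y] (p : Y → ℚ[X]) {n : ℕ} (hn : ∀ y, (p y).natDegree ≤ n) :
    ∃ C : ℝ, 0 ≤ C ∧ ∀ (t : ℂ) y, ‖aeval t (p y)‖ ≤ C * max 1 ‖t‖ ^ n := by
  choose c h0 hc using fun y ↦ up (p y) (hn y)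
  refine ⟨∑ y, c y, Finset.sum_nonneg fun y _ ↦ h0 y, fun t y ↦ (hc y t).trans ?_⟩
  exact mul_le_mul_of_nonneg_right
    (Finset.single_le_sum (f := c) (fun y _ ↦ h0 y) (Finset.mem_univ y)) (by positivity)

theorem far {p : ℚ[X]} (hp : p ≠ 0) : ∃ R C : ℝ, 1 ≤ R ∧ 0 ≤ C ∧ ∀ t : ℂ, R ≤ ‖t‖ →
    max 1 ‖t‖ ^ p.natDegree ≤ C * ‖aeval t p‖ := by
  have hd : (X * p.eraseLead).natDegree ≤ p.natDegree := by
    rcases eraseLead_natDegree_lt_or_eraseLead_eq_zero p with h | h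
    · refine natDegree_mul_le.trans ?_
      rw [natDegree_X]; omega
    · simp [h]
  obtain ⟨c, h0, hc⟩ := up _ hd
  have hl : 0 < ‖(p.leadingCoeff : ℂ)‖ :=
    norm_pos_iff.2 (by exact_mod_cast leadingCoeff_ne_zero.2 hp)
  set l := ‖(p.leadingCoeff : ℂ)‖ with hl'
  refine ⟨max 1 (2 * c / l), 2 / l, le_max_left _ _, by positivity, fun t ht ↦ ?_⟩
  have h1 : 1 ≤ ‖t‖ := (le_max_left _ _).trans ht
  have h2 : 2 * c ≤ ‖t‖ * l := (div_le_iff₀ hl).1 ((le_max_right _ _).trans ht)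
  have h3 := hc t
  rw [max_eq_right h1] at h3 ⊢
  rw [map_mul, aeval_X, norm_mul] at h3
  have h4 : aeval t p = aeval t p.eraseLead + (p.leadingCoeff : ℂ) * t ^ p.natDegree := by
    conv_lhs => rw [← eraseLead_add_C_mul_X_pow p]
    rw [map_add, map_mul, map_pow, aeval_X, aeval_C, eq_ratCast]
  have h5 : l * ‖t‖ ^ p.natDegree ≤ ‖aeval t p‖ + ‖aeval t p.eraseLead‖ := by
    rw [hl', ← norm_pow, ← norm_mul, ← sub_eq_iff_eq_add'.2 h4]
    exact norm_sub_le _ _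
  have h6 : 0 < ‖t‖ ^ p.natDegree := by positivity
  have h7 : ‖t‖ * (2 * ‖aeval t p.eraseLead‖) ≤ ‖t‖ * (l * ‖t‖ ^ p.natDegree) := by
    nlinarith [mul_le_mul_of_nonneg_right h2 h6.le]
  have h8 := le_of_mul_le_mul_left h7 (by linarith)
  rw [div_mul_eq_mul_div, le_div_iff₀ hl]
  linarith

theorem low {Y : Type} [Fintype Y] (p u : Y → ℚ[X]) (hu : ∑ y, p y * u y = 1) (y0 : Y)
    (h0 : p y0 ≠ 0) : ∃ C : ℝ, 0 ≤ C ∧ ∀ t : ℂ, ∃ y,
      max 1 ‖t‖ ^ (p y0).natDegree ≤ C * ‖aeval t (p y)‖ := by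
  classical
  obtain ⟨R, c, hR, hc, h⟩ := far h0
  set m := Finset.univ.sup fun y ↦ (u y).natDegree
  obtain ⟨d, hd, hd'⟩ := ups u (n := m) fun y ↦
    Finset.le_sup (f := fun y ↦ (u y).natDegree) (Finset.mem_univ y)
  set K := R ^ (p y0).natDegree * (Fintype.card Y * (d * R ^ m)) with hK
  have hK0 : 0 ≤ K := by positivity
  refine ⟨c + K, by positivity, fun t ↦ ?_⟩
  rcases le_total R ‖t‖ with ht | ht
  · exact ⟨y0, (h t ht).trans (mul_le_mul_of_nonneg_right (by linarith) (norm_nonneg _))⟩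
  · obtain ⟨y, -, hy⟩ := Finset.exists_max_image Finset.univ (fun y ↦ ‖aeval t (p y)‖)
      ⟨y0, Finset.mem_univ _⟩
    refine ⟨y, ?_⟩
    have hm : max 1 ‖t‖ ≤ R := max_le hR ht
    have h1 : (1 : ℝ) ≤ Fintype.card Y * (d * R ^ m) * ‖aeval t (p y)‖ := by
      have e : (1 : ℂ) = ∑ z, aeval t (p z) * aeval t (u z) := by
        simpa using congrArg (aeval t) hu.symm
      calc (1 : ℝ) = ‖∑ z, aeval t (p z) * aeval t (u z)‖ := by rw [← e, norm_one]
        _ ≤ ∑ _z : Y, ‖aeval t (p y)‖ * (d * R ^ m) := by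
          refine (norm_sum_le _ _).trans (Finset.sum_le_sum fun z _ ↦ ?_)
          rw [norm_mul]
          refine mul_le_mul (hy z (Finset.mem_univ _)) ((hd' t z).trans ?_) (norm_nonneg _)
            (norm_nonneg _)
          gcongr
        _ = _ := by simp; ring
    calc max 1 ‖t‖ ^ (p y0).natDegree ≤ R ^ (p y0).natDegree * 1 := by
          rw [mul_one]; gcongr
      _ ≤ K * ‖aeval t (p y)‖ := by
          rw [hK, mul_assoc]; gcongr
      _ ≤ _ := mul_le_mul_of_nonneg_right (by linarith) (norm_nonneg _)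

theorem split {Y : Type} [Fintype Y] {a : Y → ℚ[X]} (ha : a ≠ 0) :
    cont a ≠ 0 ∧ ∃ (p u : Y → ℚ[X]) (y0 : Y), (∀ y, a y = cont a * p y) ∧ ∑ y, p y * u y = 1 ∧
      (∀ y, (p y).natDegree ≤ dl a) ∧ p y0 ≠ 0 ∧ (p y0).natDegree = dl a := by
  classical
  obtain ⟨y1, hy1⟩ := Function.ne_iff.1 ha
  have hc : cont a ≠ 0 := fun h ↦ hy1 (Finset.gcd_eq_zero_iff.1 h y1 (Finset.mem_univ _))
  have hd : ∀ y, cont a ∣ a y := fun y ↦ Finset.gcd_dvd (Finset.mem_univ y)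
  choose p hp using hd
  obtain ⟨u, hu⟩ : ∃ u : Y → ℚ[X], cont a = ∑ y, a y * u y :=
    Finset.gcd_eq_sum_mul Finset.univ a
  have hdeg : ∀ y, a y ≠ 0 → (a y).natDegree = (cont a).natDegree + (p y).natDegree := by
    intro y hy
    conv_lhs => rw [hp y]
    exact natDegree_mul hc fun h ↦ hy (by rw [hp y, h, mul_zero])
  obtain ⟨y0, hy0, hm⟩ := Finset.exists_max_image (Finset.univ.filter fun y ↦ a y ≠ 0)
    (fun y ↦ (a y).natDegree) ⟨y1, by simpa using hy1⟩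
  have h0 : a y0 ≠ 0 := (Finset.mem_filter.1 hy0).2
  have hs : (Finset.univ.sup fun y ↦ (a y).natDegree) = (a y0).natDegree := by
    refine le_antisymm (Finset.sup_le fun y _ ↦ ?_)
      (Finset.le_sup (f := fun y ↦ (a y).natDegree) (Finset.mem_univ y0))
    by_cases hy : a y = 0
    · simp [hy]
    · exact hm y (by simpa using hy)
  have hdl : dl a = (p y0).natDegree := by rw [dl, hs, hdeg y0 h0]; omega
  refine ⟨hc, p, u, y0, hp, ?_, fun y ↦ ?_, fun h ↦ h0 (by rw [hp y0, h, mul_zero]), hdl.symm⟩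
  · refine mul_left_cancel₀ hc ?_
    rw [mul_one, Finset.mul_sum]
    conv_rhs => rw [hu]
    exact Finset.sum_congr rfl fun y _ ↦ by rw [← mul_assoc, ← hp y]
  · by_cases hy : a y = 0
    · have : p y = 0 := (mul_eq_zero.1 ((hp y).symm.trans hy)).resolve_left hc
      simp [this]
    · have := hm y (by simpa using hy)
      simp only [hdeg y hy, hdeg y0 h0] at this
      omega

end T48

open T48

theorem st_TWO (h3 : St_HT3) : St_TWO := by
  intro Y _ a ha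
  obtain ⟨hc, p, u, y0, hp, hu, hd, h0, he⟩ := split ha
  have hv : ∀ (t : ℂ) y, aeval t (a y) = aeval t (cont a) * aeval t (p y) := fun t y ↦ by
    rw [← map_mul, ← hp y]
  refine ⟨?_, ?_, fun m ↦ ?_, hc, y0, ?_, ?_⟩
  · obtain ⟨c, hc0, h⟩ := ups p hd
    obtain ⟨d, hd0, h'⟩ := low p u hu y0 h0
    refine ⟨c + d + 1, by positivity, fun t ↦ ⟨fun y ↦ ?_, ?_⟩⟩
    · rw [hv, norm_mul, mul_comm (c + d + 1), mul_assoc]
      refine mul_le_mul_of_nonneg_left ((h t y).trans ?_) (norm_nonneg _)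
      exact mul_le_mul_of_nonneg_right (by linarith) (by positivity)
    · obtain ⟨y, hy⟩ := h' t
      refine ⟨y, ?_⟩
      rw [hv t y, norm_mul, mul_left_comm, ← he]
      refine mul_le_mul_of_nonneg_left (hy.trans ?_) (norm_nonneg _)
      exact mul_le_mul_of_nonneg_right (by linarith) (norm_nonneg _)
  · obtain ⟨c, h⟩ := h3.2.2.1 Y p (dl a) hd
    refine ⟨max c 0, fun t ht ↦ ?_⟩
    have hal : ∀ q : ℚ[X], IsAlgebraic ℚ (aeval t q) := fun q ↦
      (IsIntegral.of_mem_of_fg _ ht.isIntegral.fg_adjoin_singleton _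
        (aeval_mem_adjoin_singleton ℚ t)).isAlgebraic
    simp only [hv]
    by_cases hz : aeval t (cont a) = 0
    · simp only [hz, zero_mul]
      have := ht_zero (ι := Y)
      rw [Pi.zero_def] at this
      rw [this]
      have := h1_nonneg t
      positivity
    · rw [ht_smul (fun y ↦ hal _) (hal _) hz]
      exact (h t ht).trans (by gcongr; exact le_max_left _ _)
  · have ht : Ideal.span (Set.range p) = ⊤ := by
      rw [Ideal.eq_top_iff_one, ← hu]
      exact Ideal.sum_mem _ fun y _ ↦ Ideal.mul_mem_right _ _ (Ideal.subset_span ⟨y, rfl⟩)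
    have h1 := (Ideal.eq_top_iff_one _).1 (Ideal.span_pow_eq_top _ ht m)
    rw [← Set.range_comp, Ideal.mem_span_range_iff_exists_fun] at h1
    obtain ⟨v, hv'⟩ := h1
    rw [← mul_one (cont a ^ m), ← hv', Finset.mul_sum]
    refine Ideal.sum_mem _ fun y _ ↦ ?_
    rw [mul_left_comm, Function.comp, ← mul_pow, ← hp y]
    exact Ideal.mul_mem_left _ _ (Ideal.subset_span ⟨y, rfl⟩)
  · rw [hp y0]; exact mul_ne_zero hc h0
  · conv_lhs => rw [hp y0]
    rw [natDegree_mul hc h0, he, add_comm]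

end Pool.Agent.Lib.ECM
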