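import Pool.Agent.Lib.ECM.B_HT2

/-! Upper bound for the height of a map of a plane curve (MP_0704bf_ag). -/

open Polynomial

namespace Pool.Agent.Lib.ECM

namespace T2

theorem exists_fin {n : ℕ} (m : Multiset ℂ) (h : m.card = n) :
    ∃ x : Fin n → ℂ, m = Finset.univ.val.map x := by
  induction m using Quotient.inductionOn with
  | h l =>
    obtain rfl : l.length = n := h
    exact ⟨l.get, by rw [Fin.univ_val_map, List.ofFn_get]; rfl⟩

theorem map_lc {J : Type} [Fintype J] (σ : ℂ →+* ℂ) (y : J → ℤ) (v : J → ℂ) :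
    σ (lc y v) = lc y fun j ↦ σ (v j) := by
  simp [lc, map_sum]

theorem e2_lc {J : Type} [Fintype J] (y : J → ℤ) (g : J → ℚ[X][X]) (t x : ℂ) :
    e2 (lc y g) t x = lc y fun j ↦ e2 (g j) t x := by
  simp [e2, lc, Polynomial.map_sum, eval_finsetSum]

theorem alg_lc {J : Type} [Fintype J] (y : J → ℤ) {v : J → ℂ} (h : AlgT v) :
    IsAlgebraic ℚ (lc y v) :=
  mem_algebraicClosure_iff.1 (sum_mem fun j _ ↦
    mul_mem (intCast_mem _ _) (mem_algebraicClosure_iff.2 (h j)))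

theorem alg_prod {n : ℕ} {v : Fin n → ℂ} (h : AlgT v) : IsAlgebraic ℚ (∏ i, v i) :=
  mem_algebraicClosure_iff.1 (prod_mem fun j _ ↦ mem_algebraicClosure_iff.2 (h j))

/-- The heights of `n` vectors are bounded by the height of the products of linear forms. -/
theorem sum_le {J Y : Type} [Fintype J] [Fintype Y] {y : Y → J → ℤ} {n : ℕ} (h : GP y n) :
    ∃ C : ℝ, ∀ v : Fin n → J → ℂ, (∀ i, AlgT (v i)) → (∀ i, v i ≠ 0) →
      ∑ i, ht (v i) ≤ ht (fun a ↦ ∏ i, lc (y a) (v i)) + C := by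
  obtain ⟨⟨C, C0, hC⟩, d, d0, hd⟩ := h
  refine ⟨Real.log (max 1 ((d * C) ^ n)), fun v hv v0 ↦ ?_⟩
  have dn : (d : ℂ) ≠ 0 := Nat.cast_ne_zero.2 d0.ne'
  have da : IsAlgebraic ℚ (d : ℂ) := isAlgebraic_natCast d
  have wa (i) : AlgT fun j ↦ (d : ℂ) * v i j := fun j ↦ da.mul (hv i j)
  have w0 (i) : (fun j ↦ (d : ℂ) * v i j) ≠ 0 := fun e ↦
    v0 i (funext fun j ↦ (mul_eq_zero.1 (congrFun e j)).resolve_left dn)
  rw [← Finset.sum_congr rfl fun i _ ↦ ht_smul (hv i) da dn, ← ht_pi wa w0]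
  refine ht_le (fun f ↦ alg_prod fun i ↦ wa i (f i)) (fun a ↦ alg_prod fun i ↦ alg_lc _ (hv i))
    (le_max_left _ _) (fun σ f ↦ ?_) fun V f ↦ ?_
  · obtain ⟨a, ha⟩ := hC (Finset.univ.val.map fun i j ↦ σ (v i j)) (by simp)
    refine ⟨a, ?_⟩
    rw [map_prod, map_prod, norm_prod, norm_prod]
    calc _ ≤ ∏ i, d * C * ‖σ (lc (y a) (v i))‖ :=
          Finset.prod_le_prod (fun _ _ ↦ norm_nonneg _) fun i _ ↦ by
            rw [map_mul, map_natCast, norm_mul, Complex.norm_natCast, map_lc, mul_assoc]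
            exact mul_le_mul_of_nonneg_left
              (ha _ (Multiset.mem_map_of_mem _ (Finset.mem_univ_val i)) (f i)) (Nat.cast_nonneg d)
      _ = (d * C) ^ n * ∏ i, ‖σ (lc (y a) (v i))‖ := by
          rw [Finset.prod_mul_distrib, Finset.prod_const, Finset.card_univ, Fintype.card_fin]
      _ ≤ _ := mul_le_mul_of_nonneg_right (le_max_right _ _)
          (Finset.prod_nonneg fun _ _ ↦ norm_nonneg _)
  · obtain ⟨a, ha⟩ := hd V (Finset.univ.val.map v) (by simp)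
    refine ⟨a, ?_⟩
    rw [map_prod, map_prod]
    exact Finset.prod_le_prod' fun i _ ↦
      ha _ (Multiset.mem_map_of_mem _ (Finset.mem_univ_val i)) (f i)

end T2

open T2 in
theorem st_UP (h3 : St_HT3) (hN : St_NM) (hT : St_TWO) (hL : St_LOW1) : St_UP := by
  classical
  intro P J Y _ _ y g hP hI hG h0 ε hε
  have n0 : 0 < P.natDegree :=
    Nat.pos_of_ne_zero fun e ↦ hI.not_isUnit (hP.natDegree_eq_zero.1 e ▸ isUnit_one)
  have n1 : (0 : ℝ) < P.natDegree := Nat.cast_pos.2 n0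
  obtain ⟨N1, -, N3, -⟩ := hN P hP
  obtain ⟨C1, hC1⟩ := sum_le hG
  obtain ⟨-, ⟨C2, hC2⟩, -⟩ := hT Y _ h0
  obtain ⟨C3, S, hC3⟩ := hL P J Y y g hP hI h0 (ε / P.natDegree) (div_pos hε n1)
  obtain ⟨_, hA⟩ := h3.2.2.2.1 P hP
  obtain ⟨_, -, hB⟩ := h3.2.2.2.2.2 J g
  obtain ⟨a0, ha0⟩ := Function.ne_iff.1 h0
  refine ⟨C1 + C2 + (P.natDegree - 1) * C3, S ∪ ((nm1 P y g a0).aroots ℂ).toFinset,
    fun t ht' ta x hx ↦ ?_⟩
  rw [Finset.mem_union, not_or, Multiset.mem_toFinset, mem_aroots, not_and] at ht'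
  obtain ⟨z, hz⟩ := exists_fin _ (N1 t)
  have zm (i) : z i ∈ rts P t := hz ▸ Multiset.mem_map_of_mem _ (Finset.mem_univ_val i)
  have e (a) : aeval t (nm1 P y g a) = ∏ i, lc (y a) fun j ↦ e2 (g j) t (z i) := by
    rw [nm1, N3, hz, Multiset.map_map]
    simp only [Function.comp_def, e2_lc]
    rfl
  have k1 := hC1 (fun i j ↦ e2 (g j) t (z i)) (fun i ↦ (hB t _ ta (hA t ta _ (zm i)).1).1)
    fun i e0 ↦ ht'.2 ha0 (by
      rw [e]
      exact Finset.prod_eq_zero (Finset.mem_univ i) (by rw [e0]; simp [lc]))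
  have k2 := hC2 t ta
  simp only [e] at k2
  obtain ⟨i0, -, rfl⟩ := Multiset.mem_map.1 (hz ▸ hx)
  rw [← Finset.add_sum_erase _ _ (Finset.mem_univ i0)] at k1
  have k3 := Finset.card_nsmul_le_sum (Finset.univ.erase i0)
    (fun i ↦ ht fun j ↦ e2 (g j) t (z i))
    ((dl (nm1 P y g) / P.natDegree - ε / P.natDegree) * h1 t - C3)
    fun i _ ↦ sub_le_iff_le_add.2 (hC3 t ht'.1 ta _ (zm i))
  rw [Finset.card_erase_of_mem (Finset.mem_univ _), Finset.card_univ, Fintype.card_fin,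
    nsmul_eq_mul, Nat.cast_pred n0] at k3
  have k4 : 0 ≤ ε / P.natDegree * h1 t := mul_nonneg (div_pos hε n1).le (h1_nonneg t)
  have k5 : ((P.natDegree : ℝ) - 1) *
      ((dl (nm1 P y g) / P.natDegree - ε / P.natDegree) * h1 t - C3) =
      dl (nm1 P y g) * h1 t - (dl (nm1 P y g) / P.natDegree + ε) * h1 t +
        ε / P.natDegree * h1 t - (P.natDegree - 1) * C3 := by
    field_simp
    ring
  linarith

end Pool.Agent.Lib.ECM
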