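import Pool.Agent.Lib.ECM.CJ1

/-! Block CONJ, part two: transport of periods along a ring homomorphism of `ℂ`. -/

open Complex Filter Topology PeriodPair

namespace Pool.Agent.Lib.ECM.CJ

open PowerSeries

/-- Taylor series at the origin -/
noncomputable def tay (f : ℂ → ℂ) : ℂ⟦X⟧ := PowerSeries.mk fun n ↦ iteratedDeriv n f 0 / n.factorial

variable {f g f' g' : ℂ → ℂ}

theorem fact_ne (n : ℕ) : (n.factorial : ℂ) ≠ 0 := Nat.cast_ne_zero.2 n.factorial_ne_zero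

theorem tay_congr (hf : AnalyticAt ℂ f 0) (hg : AnalyticAt ℂ g 0) (h : f =ᶠ[𝓝[≠] 0] g) :
    tay f = tay g := by
  have h1 : f =ᶠ[𝓝 0] g := (hf.frequently_eq_iff_eventually_eq hg).1 h.frequently
  ext n
  simp only [tay, coeff_mk, h1.iteratedDeriv_eq n]

theorem tay_add (hf : AnalyticAt ℂ f 0) (hg : AnalyticAt ℂ g 0) :
    tay (fun z ↦ f z + g z) = tay f + tay g := by
  ext n
  simp only [tay, coeff_mk, map_add, iteratedDeriv_fun_add hf.contDiffAt hg.contDiffAt, add_div]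

theorem tay_mul (hf : AnalyticAt ℂ f 0) (hg : AnalyticAt ℂ g 0) :
    tay (fun z ↦ f z * g z) = tay f * tay g := by
  ext n
  simp only [tay, coeff_mk, coeff_mul, iteratedDeriv_fun_mul hf.contDiffAt hg.contDiffAt]
  rw [Finset.Nat.sum_antidiagonal_eq_sum_range_succ fun i j ↦
    iteratedDeriv i f 0 / i.factorial * (iteratedDeriv j g 0 / j.factorial), Finset.sum_div]
  refine Finset.sum_congr rfl fun i hi ↦ ?_
  rw [Nat.cast_choose ℂ (Nat.lt_succ_iff.1 (Finset.mem_range.1 hi))]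
  have := fact_ne n
  have := fact_ne i
  have := fact_ne (n - i)
  field_simp

theorem tay_const (c : ℂ) : tay (fun _ ↦ c) = C c := by
  ext n
  simp only [tay, coeff_mk, iteratedDeriv_const, coeff_C]
  split_ifs with h <;> simp [h]

theorem tay_id : tay (fun z ↦ z) = X := by
  ext n
  simp only [tay, coeff_mk, iteratedDeriv_fun_id_zero, coeff_X]
  split_ifs with h <;> simp [h]

theorem tay_deriv : tay (deriv f) = d⁄dX ℂ (tay f) := by
  ext n
  simp only [tay, coeff_mk, coeff_derivative, iteratedDeriv_succ', Nat.factorial_succ]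
  have := fact_ne n
  have : (n : ℂ) + 1 ≠ 0 := Nat.cast_add_one_ne_zero n
  push_cast
  field_simp

theorem tay_zero (hf : AnalyticAt ℂ f 0) (h : tay f = 0) : ∀ᶠ z in 𝓝 0, f z = 0 := by
  rw [← analyticOrderAt_eq_top, ENat.eq_top_iff_forall_ge]
  intro n
  rw [natCast_le_analyticOrderAt_iff_iteratedDeriv_eq_zero hf]
  intro i _
  have := congrArg (coeff i) h
  simpa [tay, Nat.factorial_ne_zero] using this

theorem tay_coeff_zero : constantCoeff (tay f) = f 0 := by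
  simp [tay, ← coeff_zero_eq_constantCoeff_apply]

theorem map_der (σ : ℂ →+* ℂ) (P : ℂ⟦X⟧) : d⁄dX ℂ (map σ P) = map σ (d⁄dX ℂ P) := by
  ext n
  simp [coeff_derivative]

/-- the equation of `z ^ 2 ℘ z` -/
def Eqn (a b : ℂ) (P : ℂ⟦X⟧) : Prop := constantCoeff P = 1 ∧
  (X * d⁄dX ℂ P - 2 * P) ^ 2 = 4 * P ^ 3 - C a * X ^ 4 * P - C b * X ^ 6

theorem Eqn.map {a b : ℂ} {P : ℂ⟦X⟧} (h : Eqn a b P) (σ : ℂ →+* ℂ) : Eqn (σ a) (σ b) (map σ P) := by
  refine ⟨by rw [← coeff_zero_eq_constantCoeff_apply, coeff_map, coeff_zero_eq_constantCoeff_apply,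
    h.1, map_one], ?_⟩
  have := congrArg (PowerSeries.map σ) h.2
  simpa only [map_der, map_pow, map_sub, map_mul, map_X, map_C, map_ofNat] using this

theorem Eqn.uniq {a b : ℂ} {P Q : ℂ⟦X⟧} (h : Eqn a b P) (h' : Eqn a b Q) : P = Q := by
  have key : ∀ n : ℕ, X ^ (n + 1) ∣ P - Q := by
    intro n
    induction n with
    | zero => rw [zero_add, pow_one, X_dvd_iff, map_sub, h.1, h'.1, sub_self]
    | succ n ih =>
      obtain ⟨D, hD⟩ := ih
      have e : P = Q + X ^ (n + 1) * D := by rw [← hD]; ring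
      have e' : X * d⁄dX ℂ P = X * d⁄dX ℂ Q + X ^ (n + 1) *
          (((n + 1 : ℕ) : ℂ⟦X⟧) * D + X * d⁄dX ℂ D) := by
        rw [e, map_add, Derivation.leibniz, derivative_pow, derivative_X]
        simp only [smul_eq_mul, add_tsub_cancel_right]
        ring
      have h1 : X ^ (n + 1) * ((((n + 1 : ℕ) : ℂ⟦X⟧) * D + X * d⁄dX ℂ D - 2 * D) *
          (X * d⁄dX ℂ P - 2 * P + (X * d⁄dX ℂ Q - 2 * Q)) -
          D * (4 * (P ^ 2 + P * Q + Q ^ 2) - C a * X ^ 4)) = 0 := by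
        linear_combination h.2 - h'.2 + (X * d⁄dX ℂ P - 2 * P + (X * d⁄dX ℂ Q - 2 * Q)) *
          (2 * e - e') + (4 * (P ^ 2 + P * Q + Q ^ 2) - C a * X ^ 4) * e
      have h2 := congrArg constantCoeff
        ((mul_eq_zero.1 h1).resolve_left (pow_ne_zero _ X_ne_zero))
      simp only [map_sub, map_mul, map_add, map_natCast, constantCoeff_X, map_ofNat, h.1, h'.1,
        map_pow, map_zero] at h2
      have h3 : ((n : ℂ) + 1 + 1) * constantCoeff D = 0 := by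
        push_cast at h2
        linear_combination -h2 / 4
      have h4 : (n : ℂ) + 1 + 1 ≠ 0 := by exact_mod_cast Nat.succ_ne_zero (n + 1)
      rw [hD, pow_succ _ (n + 1)]
      exact mul_dvd_mul_left _ (X_dvd_iff.2 ((mul_eq_zero.1 h3).resolve_left h4))
  ext n
  have := X_pow_dvd_iff.1 (key n) n (Nat.lt_succ_self n)
  rwa [map_sub, sub_eq_zero] at this

/-- the Taylor coefficients of `g` are the conjugates of those of `f` -/
def Cj (σ : ℂ →+* ℂ) (f g : ℂ → ℂ) : Prop :=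
  AnalyticAt ℂ f 0 ∧ AnalyticAt ℂ g 0 ∧ tay g = map σ (tay f)

variable {σ : ℂ →+* ℂ}

theorem cj_of (hf : AnalyticAt ℂ f 0) (hg : AnalyticAt ℂ g 0)
    (h : ∀ n, iteratedDeriv n g 0 = σ (iteratedDeriv n f 0)) : Cj σ f g :=
  ⟨hf, hg, by ext n; simp [tay, h]⟩

theorem Cj.iter (h : Cj σ f g) (n : ℕ) : iteratedDeriv n g 0 = σ (iteratedDeriv n f 0) := by
  have := congrArg (coeff n) h.2.2
  simpa [tay, div_left_inj' (fact_ne n)] using this

theorem Cj.add (h : Cj σ f g) (h' : Cj σ f' g') :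
    Cj σ (fun z ↦ f z + f' z) fun z ↦ g z + g' z :=
  ⟨h.1.add h'.1, h.2.1.add h'.2.1, by
    rw [tay_add h.1 h'.1, tay_add h.2.1 h'.2.1, map_add, h.2.2, h'.2.2]⟩

theorem Cj.mul (h : Cj σ f g) (h' : Cj σ f' g') :
    Cj σ (fun z ↦ f z * f' z) fun z ↦ g z * g' z :=
  ⟨h.1.mul h'.1, h.2.1.mul h'.2.1, by
    rw [tay_mul h.1 h'.1, tay_mul h.2.1 h'.2.1, map_mul, h.2.2, h'.2.2]⟩

theorem Cj.const (c : ℂ) : Cj σ (fun _ ↦ c) fun _ ↦ σ c :=
  ⟨analyticAt_const, analyticAt_const, by rw [tay_const, tay_const, map_C]⟩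

theorem Cj.id : Cj σ (fun z ↦ z) fun z ↦ z :=
  ⟨analyticAt_id, analyticAt_id, by rw [tay_id, map_X]⟩

theorem Cj.pow (h : Cj σ f g) (n : ℕ) : Cj σ (fun z ↦ f z ^ n) fun z ↦ g z ^ n := by
  induction n with
  | zero => simpa using Cj.const (σ := σ) 1
  | succ n ih => simpa only [pow_succ] using ih.mul h

theorem Cj.deriv (h : Cj σ f g) : Cj σ (deriv f) (deriv g) :=
  ⟨h.1.deriv, h.2.1.deriv, by rw [tay_deriv, tay_deriv, h.2.2, map_der]⟩

theorem Cj.symm {σ : ℂ ≃+* ℂ} (h : Cj σ f g) : Cj σ.symm g f :=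
  cj_of h.2.1 h.1 fun n ↦ by rw [h.iter n]; simp

theorem Cj.scale (h : Cj σ f g) (c : ℂ) : Cj σ (fun z ↦ f (c * z)) fun z ↦ g (σ c * z) := by
  have a : ∀ {u : ℂ → ℂ} (d : ℂ), AnalyticAt ℂ u 0 → AnalyticAt ℂ (fun z ↦ u (d * z)) 0 ∧
      ∀ n, iteratedDeriv n (fun z ↦ u (d * z)) 0 = d ^ n * iteratedDeriv n u 0 := fun {u} d hu ↦ by
    refine ⟨hu.comp_of_eq (by fun_prop) (mul_zero d), fun n ↦ ?_⟩
    induction n generalizing u with
    | zero => simp
    | succ n ih =>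
      have e : (_root_.deriv fun z ↦ u (d * z)) =ᶠ[𝓝 0] fun z ↦ d * _root_.deriv u (d * z) :=
        Eventually.of_forall fun z ↦ deriv_comp_mul_left d u z
      rw [iteratedDeriv_succ', e.iteratedDeriv_eq, iteratedDeriv_const_mul_field, ih hu.deriv,
        iteratedDeriv_succ']
      ring
  exact cj_of (a c h.1).1 (a _ h.2.1).1 fun n ↦ by
    rw [(a c h.1).2, (a _ h.2.1).2, h.iter, map_mul, map_pow]

/-- the same for Laurent series -/
def CjM (σ : ℂ →+* ℂ) (f g : ℂ → ℂ) : Prop := ∃ (n : ℕ) (F G : ℂ → ℂ), Cj σ F G ∧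
  (∀ᶠ z in 𝓝[≠] 0, z ^ n * f z = F z) ∧ ∀ᶠ z in 𝓝[≠] 0, z ^ n * g z = G z

theorem Cj.cjM (h : Cj σ f g) : CjM σ f g := ⟨0, f, g, h, by simp, by simp⟩

theorem CjM.add (h : CjM σ f g) (h' : CjM σ f' g') :
    CjM σ (fun z ↦ f z + f' z) fun z ↦ g z + g' z := by
  obtain ⟨n, F, G, h, a, b⟩ := h
  obtain ⟨n', F', G', h', a', b'⟩ := h'
  refine ⟨n + n', _, _, ((Cj.id.pow n').mul h).add ((Cj.id.pow n).mul h'), ?_, ?_⟩
  · filter_upwards [a, a'] with z h1 h2 using by rw [← h1, ← h2]; ring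
  · filter_upwards [b, b'] with z h1 h2 using by rw [← h1, ← h2]; ring

theorem CjM.mul (h : CjM σ f g) (h' : CjM σ f' g') :
    CjM σ (fun z ↦ f z * f' z) fun z ↦ g z * g' z := by
  obtain ⟨n, F, G, h, a, b⟩ := h
  obtain ⟨n', F', G', h', a', b'⟩ := h'
  refine ⟨n + n', _, _, h.mul h', ?_, ?_⟩
  · filter_upwards [a, a'] with z h1 h2 using by rw [← h1, ← h2]; ring
  · filter_upwards [b, b'] with z h1 h2 using by rw [← h1, ← h2]; ring

theorem CjM.sub (h : CjM σ f g) (h' : CjM σ f' g') :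
    CjM σ (fun z ↦ f z - f' z) fun z ↦ g z - g' z := by
  simpa [sub_eq_add_neg] using h.add ((Cj.const (σ := σ) (-1)).cjM.mul h')

theorem CjM.eval (h : CjM σ f g) (A : Polynomial ℂ) :
    CjM σ (fun z ↦ A.eval (f z)) fun z ↦ (A.map σ).eval (g z) := by
  induction A using Polynomial.induction_on with
  | C a => simpa using (Cj.const a).cjM
  | add p q hp hq => simpa using hp.add hq
  | monomial n a ih => simpa [pow_succ, ← mul_assoc] using ih.mul h

theorem CjM.zero (h : CjM σ f g) (h0 : ∀ᶠ z in 𝓝[≠] 0, f z = 0) : ∀ᶠ z in 𝓝[≠] 0, g z = 0 := by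
  obtain ⟨n, F, G, h, a, b⟩ := h
  have h1 : tay F = tay fun _ ↦ 0 := tay_congr h.1 analyticAt_const (by
    filter_upwards [a, h0] with z h1 h2 using by rw [← h1, h2, mul_zero])
  have h2 := tay_zero h.2.1 (by rw [h.2.2, h1, tay_const, map_zero, map_zero])
  filter_upwards [b, mem_nhdsWithin_of_mem_nhds h2, self_mem_nhdsWithin] with z h3 h4 h5
  exact (mul_eq_zero.1 (h3.trans h4)).resolve_left (pow_ne_zero _ h5)

theorem CjM.symm {σ : ℂ ≃+* ℂ} (h : CjM σ f g) : CjM σ.symm g f := by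
  obtain ⟨n, F, G, h, a, b⟩ := h
  exact ⟨n, G, F, h.symm, b, a⟩

variable (L : PeriodPair)

/-- the regular function `z ^ 3 ℘' z` -/
noncomputable def Q0 (z : ℂ) : ℂ := z * deriv (P0 L) z + -2 * P0 L z

theorem Q0_eq : ∀ᶠ z in 𝓝[≠] 0, z ^ 3 * ℘'[L] z = Q0 L z := by
  filter_upwards [self_mem_nhdsWithin, ev_iff.1 (ev_notMem L) 0] with z hz hz'
  have e : P0 L =ᶠ[𝓝 z] fun w ↦ w ^ 2 * ℘[L] w :=
    (eventually_ne_nhds hz).mono fun w hw ↦ P0_eq L hw
  have d : HasDerivAt ℘[L] (℘'[L] z) z := by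
    rw [← L.deriv_weierstrassP]
    exact (L.analyticOnNhd_weierstrassP z hz').differentiableAt.hasDerivAt
  rw [Q0, e.deriv_eq, ((hasDerivAt_pow 2 z).fun_mul d).deriv, P0_eq L hz]
  push_cast
  ring

theorem eqn_P0 : Eqn L.g₂ L.g₃ (tay (P0 L)) := by
  have c : Cj (RingHom.id ℂ) (P0 L) (P0 L) := cj_of (an_P0 L) (an_P0 L) fun _ ↦ rfl
  have hP := an_P0 L
  have hD := hP.deriv
  have hI : AnalyticAt ℂ (fun z : ℂ ↦ z) 0 := analyticAt_id
  have hQ : AnalyticAt ℂ (Q0 L) 0 := by unfold Q0; fun_prop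
  have tQ : tay (Q0 L) = X * d⁄dX ℂ (tay (P0 L)) - 2 * tay (P0 L) := by
    unfold Q0
    rw [tay_add (by fun_prop) (by fun_prop), tay_mul hI hD, tay_mul analyticAt_const hP, tay_id,
      tay_const, tay_deriv, map_neg, map_ofNat]
    ring
  have tp : ∀ n : ℕ, tay (fun z ↦ z ^ n) = X ^ n := fun n ↦ by
    induction n with
    | zero => simpa using tay_const 1
    | succ n ih => simp only [pow_succ]; rw [tay_mul (by fun_prop) hI, ih, tay_id]
  have e : tay (fun z ↦ Q0 L z * Q0 L z + (L.g₂ * z ^ 4 * P0 L z + L.g₃ * z ^ 6)) =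
      tay fun z ↦ 4 * (P0 L z * (P0 L z * P0 L z)) := by
    refine tay_congr (by fun_prop) (by fun_prop) ?_
    filter_upwards [Q0_eq L, self_mem_nhdsWithin, ev_iff.1 (ev_notMem L) 0] with z h1 hz hz'
    rw [← h1, P0_eq L hz]
    linear_combination z ^ 6 * L.derivWeierstrassP_sq z hz'
  rw [tay_add (by fun_prop) (by fun_prop), tay_add (by fun_prop) (by fun_prop), tay_mul hQ hQ,
    tay_mul (by fun_prop) hP, tay_mul analyticAt_const (by fun_prop),
    tay_mul analyticAt_const (by fun_prop), tay_mul analyticAt_const (by fun_prop),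
    tay_mul hP (by fun_prop), tay_mul hP hP, tp, tp, tay_const, tay_const, tay_const, tQ,
    map_ofNat] at e
  exact ⟨by rw [tay_coeff_zero, P0_zero], by linear_combination e⟩

variable {L} {L' : PeriodPair}

theorem cj_P0 (h2 : L'.g₂ = σ L.g₂) (h3 : L'.g₃ = σ L.g₃) : Cj σ (P0 L) (P0 L') :=
  ⟨an_P0 L, an_P0 L', (eqn_P0 L').uniq (by rw [h2, h3]; exact (eqn_P0 L).map σ)⟩

theorem cjM_wp (h2 : L'.g₂ = σ L.g₂) (h3 : L'.g₃ = σ L.g₃) : CjM σ ℘[L] ℘[L'] :=
  ⟨2, _, _, cj_P0 h2 h3, eventually_nhdsWithin_of_forall fun _ hz ↦ (P0_eq L hz).symm,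
    eventually_nhdsWithin_of_forall fun _ hz ↦ (P0_eq L' hz).symm⟩

theorem cjM_wp' (h2 : L'.g₂ = σ L.g₂) (h3 : L'.g₃ = σ L.g₃) : CjM σ ℘'[L] ℘'[L'] := by
  have h := (Cj.id.mul (cj_P0 h2 h3).deriv).add ((Cj.const (-2)).mul (cj_P0 h2 h3))
  rw [map_neg, map_ofNat] at h
  exact ⟨3, Q0 L, Q0 L', h, Q0_eq L, Q0_eq L'⟩

theorem wp_pole (L : PeriodPair) : Tendsto ℘[L] (𝓝[≠] 0) (Bornology.cobounded ℂ) :=
  tendsto_cobounded_of_meromorphicOrderAt_neg (by
    rw [L.order_weierstrassP 0 L.lattice.zero_mem]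
    decide)

theorem eval_ne (L : PeriodPair) {A : Polynomial ℂ} (hA : A ≠ 0) :
    ∀ᶠ z in codiscrete ℂ, A.eval (℘[L] z) ≠ 0 := by
  refine (dich (mero_eval L A)).resolve_left fun h ↦ ?_
  have h1 := (wp_pole L).eventually
    (Bornology.isBounded_def.1 (A.rootSet_finite ℂ).isBounded)
  obtain ⟨z, h2, h3⟩ := (h1.and (ev_iff.1 h 0)).exists
  exact h2 (Polynomial.mem_rootSet.2 ⟨hA, by simpa using h3⟩)

/-- the rational expression is transported -/
theorem transport_rel (h2 : L'.g₂ = σ L.g₂) (h3 : L'.g₃ = σ L.g₃) (hg : Meromorphic g)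
    (h : CjM σ f g) {A B Cc : Polynomial ℂ} (e : ∀ᶠ z in codiscrete ℂ,
      Cc.eval (℘[L] z) * f z = A.eval (℘[L] z) + B.eval (℘[L] z) * ℘'[L] z) :
    ∀ᶠ z in codiscrete ℂ, (Cc.map σ).eval (℘[L'] z) * g z =
      (A.map σ).eval (℘[L'] z) + (B.map σ).eval (℘[L'] z) * ℘'[L'] z := by
  have w := cjM_wp h2 h3
  have h1 := (((w.eval Cc).mul h).sub ((w.eval A).add ((w.eval B).mul (cjM_wp' h2 h3)))).zero
    ((ev_iff.1 e 0).mono fun z hz ↦ sub_eq_zero.2 hz)
  exact (zero_of_near (((mero_eval L' _).mul hg).sub ((mero_eval L' _).add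
    ((mero_eval L' _).mul L'.meromorphic_derivWeierstrassP))) h1).mono fun z hz ↦ sub_eq_zero.1 hz

/-- T1: periods are transported -/
theorem transport (h2 : L'.g₂ = σ L.g₂) (h3 : L'.g₃ = σ L.g₃) (hf : Meromorphic f)
    (hg : Meromorphic g) (h : CjM σ f g) (per : Per L.lattice f) : Per L'.lattice g := by
  obtain ⟨A, B, Cc, h0, e⟩ := ell_struct L hf per
  have e' := transport_rel h2 h3 hg h e
  intro l hl
  filter_upwards [e', ev_add e' l, eval_ne L' ((Polynomial.map_ne_zero_iff σ.injective).2 h0)]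
    with z a b c
  rw [per_wp L' hl, per_wp' L' hl, ← a] at b
  exact mul_left_cancel₀ c b

end Pool.Agent.Lib.ECM.CJ
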