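import Pool.Agent.Lib.ECM.THDefs

/-! Genus two theta functions: the statements of the blocks. -/

open Complex Filter Topology Metric
open scoped Real ComplexConjugate

noncomputable section

namespace Pool.Agent.Lib.ECM

/-! ### more definitions -/

/-- size of the leading term of the theta constants with upper characteristic that of `m` -/
def lead (m : Ch) (τ : T3) : ℝ :=
  Real.exp (-π * ((m.1.val : ℝ) * (τ 0).im + (m.2.1.val : ℝ) * (τ 2).im -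
    2 * (m.1.val : ℝ) * (m.2.1.val : ℝ) * (τ 1).im) / 4)

/-- the partial series over the coset `P / 2 + 2 ℤ²` -/
def fp (P : ℤ × ℤ) (τ : T3) (z : V2) : ℂ :=
  ∑' n : ℤ × ℤ, term τ ((2 : ℂ) • iv n + (1 / 2 : ℂ) • iv P) z

/-- the characteristic with upper part `P` and lower part `b` -/
def chP (P : ℤ × ℤ) (b : ZMod 2 × ZMod 2) : Ch := ((P.1 : ZMod 2), (P.2 : ZMod 2), b.1, b.2)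

/-- the coefficient of `th (chP P b)` in `4 * fp P` -/
def cfP (P : ℤ × ℤ) (b : ZMod 2 × ZMod 2) : ℂ := exp (-π * I * dot (iv P) (cb (chP P b)))

/-- the four leading vectors -/
def Pp : Fin 4 → ℤ × ℤ := ![(0, 0), (1, 0), (0, 1), (1, -1)]

/-- the toric coordinates -/
def xq (τ : T3) : T3 :=
  ![exp (π * I * τ 1 / 2), exp (π * I * (τ 0 - 2 * τ 1) / 4), exp (π * I * (τ 2 - τ 0) / 4)]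

/-- exponents of the term at `P / 2` in the toric coordinates -/
def ex (P : ℤ × ℤ) : Fin 3 → ℤ := ![P.1 ^ 2 + P.1 * P.2 + P.2 ^ 2, P.1 ^ 2 + P.2 ^ 2, P.2 ^ 2]

/-- a monomial -/
def mon (e : Fin 3 → ℕ) (x : T3) : ℂ := x 0 ^ e 0 * x 1 ^ e 1 * x 2 ^ e 2

/-- exponents of the terms of `fp (Pp j)` relative to the leading term -/
def exj (j : Fin 4) (n : ℤ × ℤ) : Fin 3 → ℕ :=
  fun i ↦ (ex ((4 : ℤ) • n + Pp j) i - ex (Pp j) i).toNat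

def Ej (j : Fin 4) (n : ℤ × ℤ) : ℕ := min (exj j n 0) (exj j n 1)

/-- `fp (Pp j)` divided by its leading term, in the toric coordinates -/
def EE (j : Fin 4) (x : T3) : ℂ := ∑' n : ℤ × ℤ, mon (exj j n) x

/-- an open set of toric coordinates -/
def Om : Set T3 := {x | (∀ i, ‖x i‖ < 11 / 10) ∧ ‖x 0‖ * ‖x 1‖ < 13 / 25}

/-- a compact set of toric coordinates -/
def Kc : Set T3 := {x | (∀ i, ‖x i‖ ≤ 1) ∧ ‖x 0‖ * ‖x 1‖ ≤ 103 / 200}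

/-- the imaginary part of `c* τ c` -/
def Yf (τ : T3) (c : V2) : ℝ :=
  normSq (c 0) * (τ 0).im + 2 * (c 0 * conj (c 1)).re * (τ 1).im + normSq (c 1) * (τ 2).im

/-- the jets at `0` of `g` are the images under `σ` of the jets of `f` -/
def JC (σ : ℂ →+* ℂ) (f g : ℂ → ℂ) : Prop :=
  AnalyticAt ℂ f 0 ∧ AnalyticAt ℂ g 0 ∧ ∀ n, iteratedDeriv n g 0 = σ (iteratedDeriv n f 0)

/-! ### basic facts -/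

structure St_BAS : Prop where
  isOpen : IsOpen H2
  red : Red ⊆ H2
  summ : ∀ τ ∈ H2, ∀ a w : V2, Summable fun n : ℤ × ℤ ↦ ‖term τ (iv n + a) w‖
  summ_pow : ∀ τ ∈ H2, ∀ (a w : V2) (k : ℕ),
    Summable fun n : ℤ × ℤ ↦ (|(n.1 : ℝ)| + |(n.2 : ℝ)| + 1) ^ k * ‖term τ (iv n + a) w‖
  norm_term : ∀ (τ : T3) (p w : V2), (∀ i, (p i).im = 0) → ‖term τ p w‖ =
    Real.exp (-π * ((τ 0).im * (p 0).re ^ 2 + 2 * (τ 1).im * (p 0).re * (p 1).re +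
      (τ 2).im * (p 1).re ^ 2 + 2 * ((p 0).re * (w 0).im + (p 1).re * (w 1).im)))
  shift_a : ∀ (τ : T3) (a w : V2) (n : ℤ × ℤ), thg τ (a + iv n) w = thg τ a w
  shift_w : ∀ (τ : T3) (a w : V2) (n : ℤ × ℤ),
    thg τ a (w + iv n) = exp (2 * π * I * dot a (iv n)) * thg τ a w
  shift_per : ∀ (τ : T3) (a w c : V2),
    thg τ a (w + per τ 0 c) = exp (-π * I * (Qf τ c + 2 * dot c w)) * thg τ (a + c) w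
  neg : ∀ (τ : T3) (a w : V2), thg τ (-a) (-w) = thg τ a w
  thz : ∀ a b : ℤ × ℤ, ∃ ε : ℤ, (ε = 1 ∨ ε = -1) ∧ ∀ (τ : T3) (z : V2),
    thg τ ((1 / 2 : ℂ) • iv a) (z + (1 / 2 : ℂ) • iv b) =
      ε * th ((a.1 : ZMod 2), (a.2 : ZMod 2), (b.1 : ZMod 2), (b.2 : ZMod 2)) τ z
  th_per : ∀ (m : Ch) (τ : T3) (μ ν : ℤ × ℤ) (z : V2), th m τ (z + per τ (iv μ) (iv ν)) =
    exp (2 * π * I * (dot (ca m) (iv μ) - dot (cb m) (iv ν))) *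
      exp (-π * I * (Qf τ (iv ν) + 2 * dot (iv ν) z)) * th m τ z
  th_neg : ∀ (m : Ch) (τ : T3) (z : V2), th m τ (-z) = (if Ev m then 1 else -1) * th m τ z
  kk_odd : ∀ (m : Ch) (τ : T3), ¬ Ev m → kk m τ = 0
  ll_even : ∀ (m : Ch), ∀ τ ∈ H2, ∀ v : V2, Ev m → ll m τ v = 0
  diff : ∀ τ ∈ H2, ∀ a : V2, Differentiable ℂ (thg τ a)
  diff_th : ∀ (m : Ch), ∀ τ ∈ H2, Differentiable ℂ (th m τ)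
  fd : ∀ τ ∈ H2, ∀ a w v : V2, fderiv ℂ (thg τ a) w v =
    ∑' n : ℤ × ℤ, 2 * π * I * dot (iv n + a) v * term τ (iv n + a) w
  dth_eq : ∀ (m : Ch), ∀ τ ∈ H2, ∀ v x : V2, dth m τ v x =
    ∑' n : ℤ × ℤ, 2 * π * I * dot (iv n + ca m) v * term τ (iv n + ca m) (x + cb m)
  line : ∀ (m : Ch), ∀ τ ∈ H2, ∀ (x v : V2) (t : ℂ),
    HasDerivAt (fun t : ℂ ↦ th m τ (x + t • v)) (dth m τ v (x + t • v)) t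
  lat_zero : ∀ τ : T3, (0 : V2) ∈ Lat τ
  lat_add : ∀ (τ : T3), ∀ x ∈ Lat τ, ∀ y ∈ Lat τ, x + y ∈ Lat τ
  lat_smul : ∀ (τ : T3) (k : ℤ), ∀ x ∈ Lat τ, (k : ℂ) • x ∈ Lat τ

/-- joint holomorphy -/
structure St_HOL : Prop where
  joint : ∀ a : V2, DifferentiableOn ℂ (fun p : T3 × V2 ↦ thg p.1 a p.2) (H2 ×ˢ Set.univ)
  kk : ∀ m : Ch, DifferentiableOn ℂ (kk m) H2
  ll : ∀ (m : Ch) (v : V2), DifferentiableOn ℂ (fun τ ↦ ll m τ v) H2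

/-- the Hermitian form -/
structure St_HERM : Prop where
  pos : ∀ τ ∈ H2, ∀ v : V2, v ≠ 0 → 0 < Hn τ v
  nonneg : ∀ τ ∈ H2, ∀ v : V2, 0 ≤ Hn τ v
  smul : ∀ (τ : T3) (t : ℂ) (v : V2), Hn τ (t • v) = normSq t * Hn τ v
  qI_nonneg : ∀ τ ∈ H2, ∀ z : V2, 0 ≤ qI τ z
  qI_add : ∀ (τ : T3) (z : V2), qI τ z + qI τ (I • z) = Hn τ z
  symp : ∀ τ ∈ H2, ∀ (t : ℂ) (m n m' n' : ℤ × ℤ),
    t • per τ (iv m) (iv n) = per τ (iv m') (iv n') →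
    t.im * Hn τ (per τ (iv m) (iv n)) =
      ((m.1 * n'.1 + m.2 * n'.2 - n.1 * m'.1 - n.2 * m'.2 : ℤ) : ℝ)
  per_inj : ∀ τ ∈ H2, ∀ m n m' n' : V2, (∀ i, (m i).im = 0 ∧ (n i).im = 0 ∧ (m' i).im = 0 ∧
    (n' i).im = 0) → per τ m n = per τ m' n' → m = m' ∧ n = n'
  per_surj : ∀ τ ∈ H2, ∀ z : V2, ∃ m n : V2, (∀ i, (m i).im = 0 ∧ (n i).im = 0) ∧ z = per τ m n
  disc : ∀ τ ∈ H2, ∃ μ : ℝ, 0 < μ ∧ ∀ z ∈ Lat τ, z ≠ 0 → μ ≤ Hn τ z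
  Yf_pos : ∀ τ ∈ H2, ∀ c : V2, c ≠ 0 → 0 < Yf τ c
  cs : ∀ τ ∈ H2, ∀ c v : V2, normSq (conj (c 0) * v 0 + conj (c 1) * v 1) ≤ Hn τ v * Yf τ c
  cs_eq : ∀ τ ∈ H2, ∀ v : V2, v ≠ 0 → ∃ c : V2, c ≠ 0 ∧
    normSq (conj (c 0) * v 0 + conj (c 1) * v 1) = Hn τ v * Yf τ c
  red : ∃ C : ℝ, 0 < C ∧ ∀ τ ∈ Red, (∀ v : V2, Hn τ v ≤ C * ‖v‖ ^ 2 ∧
      ‖v‖ ^ 2 ≤ C * (τ 2).im * Hn τ v) ∧
    ∀ m n : ℤ × ℤ, (n.1 : ℝ) ^ 2 + (n.2 : ℝ) ^ 2 ≤ C * Hn τ (per τ (iv m) (iv n)) ∧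
      (m.1 : ℝ) ^ 2 + (m.2 : ℝ) ^ 2 ≤ C * (τ 2).im * Hn τ (per τ (iv m) (iv n))

/-! ### Riemann relations -/

def St_RIEMG : Prop := ∀ τ ∈ H2, ∀ a₁ a₂ a₃ a₄ w₁ w₂ w₃ w₄ : V2,
  4 * (thg τ ((1 / 2 : ℂ) • (a₁ + a₂ + a₃ + a₄)) ((1 / 2 : ℂ) • (w₁ + w₂ + w₃ + w₄)) *
    thg τ ((1 / 2 : ℂ) • (a₁ + a₂ - a₃ - a₄)) ((1 / 2 : ℂ) • (w₁ + w₂ - w₃ - w₄)) *
    thg τ ((1 / 2 : ℂ) • (a₁ - a₂ + a₃ - a₄)) ((1 / 2 : ℂ) • (w₁ - w₂ + w₃ - w₄)) *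
    thg τ ((1 / 2 : ℂ) • (a₁ - a₂ - a₃ + a₄)) ((1 / 2 : ℂ) • (w₁ - w₂ - w₃ + w₄))) =
  ∑ η : Ch, exp (-2 * π * I * dot (cb η) (a₁ + a₂ + a₃ + a₄)) *
    (thg τ (a₁ + ca η) (w₁ + cb η) * thg τ (a₂ + ca η) (w₂ + cb η) *
      thg τ (a₃ + ca η) (w₃ + cb η) * thg τ (a₄ + ca η) (w₄ + cb η))

/-- a universal family of signs -/
def Sg (s : Ch → Ch → Ch → Ch → ℤ) : Prop := ∀ e f g η, s e f g η = 1 ∨ s e f g η = -1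

def St_RIEM : Prop := ∃ s, Sg s ∧ ∀ τ ∈ H2, ∀ (e f g : Ch) (x y u v : V2),
  4 * (th e τ ((1 / 2 : ℂ) • (x + y + u + v)) * th f τ ((1 / 2 : ℂ) • (x + y - u - v)) *
    th g τ ((1 / 2 : ℂ) • (x - y + u - v)) * th (e + f + g) τ ((1 / 2 : ℂ) • (x - y - u + v))) =
  ∑ η : Ch, (s e f g η : ℂ) *
    (th η τ x * th (η + e + f) τ y * th (η + e + g) τ u * th (η + f + g) τ v)

/-- the two differentiated forms -/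
def St_DER : Prop := ∃ s, Sg s ∧ ∀ τ ∈ H2, ∀ (e f g : Ch) (v x : V2),
  (4 * (th e τ x * th f τ x * (ll g τ v * kk (e + f + g) τ + kk g τ * ll (e + f + g) τ v)) =
    ∑ η : Ch, (s e f g η : ℂ) *
      ((th (η + e + f) τ x * dth η τ v x - th η τ x * dth (η + e + f) τ v x) *
        (kk (η + e + g) τ * kk (η + f + g) τ))) ∧
  (4 * ((th f τ x * dth e τ v x - th e τ x * dth f τ v x) * (kk g τ * kk (e + f + g) τ)) =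
    ∑ η : Ch, (s e f g η : ℂ) * (th η τ x * th (η + e + f) τ x *
      (ll (η + e + g) τ v * kk (η + f + g) τ + kk (η + e + g) τ * ll (η + f + g) τ v)))

/-- universal linear relations between the gradients -/
def St_LIN : Prop := ∃ P A B : Ch → MvPolynomial Ch ℤ,
  (∀ h, (A h).IsHomogeneous 3 ∧ (B h).IsHomogeneous 3 ∧ ∃ (c : ℤ) (m₁ m₂ m₃ : Ch), c ≠ 0 ∧
    Ev m₁ ∧ Ev m₂ ∧ Ev m₃ ∧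
    P h = MvPolynomial.C c * (MvPolynomial.X m₁ * MvPolynomial.X m₂ * MvPolynomial.X m₃)) ∧
  ∀ τ ∈ H2, ∀ (h : Ch) (v : V2), MvPolynomial.aeval (fun m ↦ kk m τ) (P h) * ll h τ v =
    MvPolynomial.aeval (fun m ↦ kk m τ) (A h) * ll hA τ v +
      MvPolynomial.aeval (fun m ↦ kk m τ) (B h) * ll hB τ v

def St_SPLIT : Prop := ∀ τ ∈ H2, ∀ (P : ℤ × ℤ) (z : V2),
  4 * fp P τ z = ∑ b : ZMod 2 × ZMod 2, cfP P b * th (chP P b) τ z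

/-! ### the modular group -/

def St_SYMT : Prop := ∀ B : Fin 3 → ℤ, ∃ γ : Sym,
  (∀ τ, γ.act τ = fun i ↦ τ i + B i) ∧ ∀ τ z, γ.M τ z = z

def St_SYMU : Prop := ∀ a b c d : ℤ, (a * d - b * c = 1 ∨ a * d - b * c = -1) → ∃ γ : Sym,
  (∀ τ, γ.act τ = ![Qf τ (iv (a, b)), τ 0 * a * c + τ 1 * (a * d + b * c) + τ 2 * b * d,
    Qf τ (iv (c, d))]) ∧
  ∀ τ z, γ.M τ z = ![a * z 0 + b * z 1, c * z 0 + d * z 1]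

def St_SYMJ : Prop := ∃ γ : Sym,
  (∀ τ, γ.act τ = ![-1 / τ 0, τ 1 / τ 0, τ 2 - τ 1 ^ 2 / τ 0]) ∧
  ∀ τ z, γ.M τ z = ![z 0 / τ 0, z 1 - τ 1 * z 0 / τ 0]

structure St_SYMK : Prop where
  comp : ∀ γ γ' : Sym, ∃ γ'' : Sym, (∀ τ, γ''.act τ = γ'.act (γ.act τ)) ∧
    ∀ τ z, γ''.M τ z = γ'.M (γ.act τ) (γ.M τ z)
  cst : ∀ γ : Sym, ∀ τ ∈ H2, ∃ c : ℂ, c ≠ 0 ∧ ∀ m,
    kk (γ.A m + γ.s) (γ.act τ) = c * γ.ζ m * kk m τ ∧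
      ∀ v, ll (γ.A m + γ.s) (γ.act τ) (γ.M τ v) = c * γ.ζ m * ll m τ v
  gauge : ∀ γ : Sym, ∀ τ ∈ H2, ∀ v, gauge (γ.act τ) (γ.M τ v) = gauge τ v
  den : ∀ γ : Sym, ∀ τ ∈ H2, ∀ κ, 0 < den (γ.A κ) (γ.act τ) ↔ 0 < den κ τ
  gen : ∀ γ : Sym, ∀ τ ∈ H2, Gen (γ.act τ) ↔ Gen τ
  fin : (Set.range fun γ : Sym ↦ ((fun m ↦ γ.A m + γ.s), γ.ζ)).Finite

def St_RED : Prop := ∀ τ ∈ H2, ∃ γ : Sym, γ.act τ ∈ Red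

/-! ### estimates on the reduced domain -/

structure St_EST1 : Prop where
  one : ∀ τ ∈ Red, ∀ m : Ch, m.1 = 0 → m.2.1 = 0 → ‖kk m τ - 1‖ ≤ 3 / 5
  up : ∃ C : ℝ, 0 < C ∧ ∀ τ ∈ Red, ∀ m : Ch, ‖kk m τ‖ ≤ C * lead m τ ∧
    ∀ v : V2, ‖ll m τ v‖ ≤ C * lead m τ * ‖v‖
  grow : ∃ C : ℝ, 0 < C ∧ ∀ τ ∈ Red, ∀ a w : V2, (∀ i, (a i).im = 0) →
    ‖thg τ a w‖ ≤ C * Real.exp (π * qI τ w)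

structure St_NUM : Prop where
  nonneg : ∀ (j : Fin 4) (n : ℤ × ℤ) (i : Fin 3), ex (Pp j) i ≤ ex ((4 : ℤ) • n + Pp j) i
  big : ∀ (j : Fin 4) (n : ℤ × ℤ), n ≠ 0 → 8 ≤ Ej j n ∧
    |4 * n.1 + (Pp j).1| + |4 * n.2 + (Pp j).2| ≤ Ej j n ∧
    |(exj j n 0 : ℤ) - exj j n 2| + |(exj j n 0 : ℤ) - exj j n 1 + exj j n 2| +
      |(exj j n 0 : ℤ) - exj j n 1| ≤ 3 * Ej j n
  summ : ∀ j : Fin 4, Summable fun n : ℤ × ℤ ↦ (Ej j n : ℝ) * (103 / 200) ^ Ej j n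
  sum_le : ∀ j : Fin 4, ∑' n : ℤ × ℤ, (Ej j n : ℝ) * (103 / 200) ^ Ej j n ≤ 1 / 7
  conv : ∀ R : Fin 3 → ℝ, (∀ i, 0 ≤ R i ∧ R i < 11 / 10) → R 0 * R 1 < 13 / 25 →
    (Summable fun P : ℤ × ℤ ↦
      R 0 ^ (ex P 0).toNat * R 1 ^ (ex P 1).toNat * R 2 ^ (ex P 2).toNat) ∧
    ∀ j : Fin 4, Summable fun n : ℤ × ℤ ↦ R 0 ^ exj j n 0 * R 1 ^ exj j n 1 * R 2 ^ exj j n 2

structure St_XQ : Prop where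
  red : ∀ τ ∈ Red, xq τ ∈ Kc
  om : ∀ τ : T3, xq τ ∈ Om → τ ∈ H2
  sub : Kc ⊆ Om
  isOpen : IsOpen Om
  isCompact : IsCompact Kc
  term : ∀ (τ : T3) (P : ℤ × ℤ),
    term τ ((1 / 2 : ℂ) • iv P) 0 = mon (fun i ↦ (ex P i).toNat) (xq τ)
  fp : ∀ (τ : T3) (j : Fin 4),
    fp (Pp j) τ 0 = mon (fun i ↦ (ex (Pp j) i).toNat) (xq τ) * EE j (xq τ)
  lead : ∀ (τ : T3) (j : Fin 4) (b : ZMod 2 × ZMod 2),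
    ‖mon (fun i ↦ (ex (Pp j) i).toNat) (xq τ)‖ = lead (chP (Pp j) b) τ
  small : ∀ x ∈ Kc, ∀ (j : Fin 4) (n : ℤ × ℤ), ‖mon (exj j n) x‖ ≤ (103 / 200) ^ Ej j n
  EE : ∀ x ∈ Kc, ∀ j : Fin 4, ‖EE j x - 1‖ ≤ 1 / 56

def St_EST2 : Prop := ∃ C : ℝ, 0 < C ∧ ∀ τ ∈ Red,
  (∀ m : Ch, ∃ m' : Ch, m'.1 = m.1 ∧ m'.2.1 = m.2.1 ∧ lead m τ ≤ C * ‖kk m' τ‖) ∧
  ∀ v : V2, ∃ h : Ch, lead h τ * ‖v‖ ≤ C * ‖ll h τ v‖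

structure St_GAUGE : Prop where
  den : ∀ τ ∈ H2, ∀ κ, 0 < den κ τ
  all : ∃ C : ℝ, 0 < C ∧ ∀ τ ∈ H2, ∀ v, Hn τ v ≤ C * gauge τ v ^ 2
  red : ∃ C : ℝ, 0 < C ∧ ∀ τ ∈ Red, (∀ v, gauge τ v ^ 2 ≤ C * (τ 2).im * Hn τ v ∧
      ‖v‖ ≤ C * gauge τ v ∧ gauge τ v ≤ C * ‖v‖) ∧
    ∃ m, kk m τ ≠ 0 ∧ (τ 2).im ≤ C * (1 + Real.log (‖fun n ↦ kk n τ‖ / ‖kk m τ‖))
  ind : ∀ τ ∈ H2, Gen τ → Function.Bijective fun v : V2 ↦ (ll hA τ v, ll hB τ v)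

/-! ### rigidity -/

def St_NORM : Prop := ∀ τ ∈ H2, ∃ c C : ℝ, 0 < c ∧ ∀ z : V2,
  c * Real.exp (π * qI τ z) ≤ ‖fun m ↦ th m τ z‖ ∧ ‖fun m ↦ th m τ z‖ ≤ C * Real.exp (π * qI τ z)

def St_INJ : Prop := ∀ τ ∈ H2, ∀ x y : V2,
  (∀ m m', th m τ x * th m' τ y = th m' τ x * th m τ y) → ∃ l ∈ Lat τ, x - y = (2 : ℂ) • l

structure St_JC : Prop where
  const : ∀ (σ : ℂ →+* ℂ) (c : ℂ), JC σ (fun _ ↦ c) (fun _ ↦ σ c)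
  add : ∀ {σ : ℂ →+* ℂ} {f g f' g' : ℂ → ℂ}, JC σ f g → JC σ f' g' →
    JC σ (fun t ↦ f t + f' t) (fun t ↦ g t + g' t)
  mul : ∀ {σ : ℂ →+* ℂ} {f g f' g' : ℂ → ℂ}, JC σ f g → JC σ f' g' →
    JC σ (fun t ↦ f t * f' t) (fun t ↦ g t * g' t)
  congr : ∀ {σ : ℂ →+* ℂ} {f g f' g' : ℂ → ℂ}, JC σ f g → f =ᶠ[𝓝 0] f' → g =ᶠ[𝓝 0] g' →
    JC σ f' g'
  zero : ∀ {σ : ℂ →+* ℂ} {f g : ℂ → ℂ}, JC σ f g → (f =ᶠ[𝓝 0] 0 ↔ g =ᶠ[𝓝 0] 0)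
  eq : ∀ {f g : ℂ → ℂ}, JC (RingHom.id ℂ) f g → f =ᶠ[𝓝 0] g
  poly : ∀ {σ : ℂ →+* ℂ} {ι : Type} {f g : ι → ℂ → ℂ}, (∀ i, JC σ (f i) (g i)) →
    ∀ F : MvPolynomial ι ℂ, JC σ (fun t ↦ MvPolynomial.eval (fun i ↦ f i t) F)
      (fun t ↦ MvPolynomial.eval (fun i ↦ g i t) (MvPolynomial.map σ F))
  ode : ∀ {σ : ℂ →+* ℂ} {ι : Type} {f g : ι → ℂ → ℂ} (P : ι → MvPolynomial ι ℂ),
    (∀ i, AnalyticAt ℂ (f i) 0) → (∀ i, AnalyticAt ℂ (g i) 0) →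
    (∀ i, ∀ᶠ t in 𝓝 (0 : ℂ), deriv (f i) t = MvPolynomial.eval (fun k ↦ f k t) (P i)) →
    (∀ i, ∀ᶠ t in 𝓝 (0 : ℂ),
      deriv (g i) t = MvPolynomial.eval (fun k ↦ g k t) (MvPolynomial.map σ (P i))) →
    (∀ i, g i 0 = σ (f i 0)) → ∀ i, JC σ (f i) (g i)

def St_JET : Prop := ∀ (σ : ℂ →+* ℂ), ∀ τ ∈ H2, ∀ τ' ∈ H2, ∀ v v' : V2, kk 0 τ ≠ 0 →
  kk 0 τ' ≠ 0 → (∀ m, kk m τ' / kk 0 τ' = σ (kk m τ / kk 0 τ)) →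
  (∀ m, ll m τ' v' / kk 0 τ' = σ (ll m τ v / kk 0 τ)) →
  ∀ m, JC σ (fun t ↦ th m τ (t • v) / th 0 τ (t • v)) (fun t ↦ th m τ' (t • v') / th 0 τ' (t • v'))

def St_TOR : Prop := ∀ τ ∈ H2, ∀ τ' ∈ H2, ∀ c : ℂ, Gen τ → c ≠ 0 → (∀ m, kk m τ' = c * kk m τ) →
  ∃ M : V2 ≃ₗ[ℂ] V2, (∀ m v, ll m τ' (M v) = c * ll m τ v) ∧ (∀ z, M z ∈ Lat τ' ↔ z ∈ Lat τ) ∧
    ∀ v, Hn τ' (M v) = Hn τ v

/-! ### charts -/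

/-- monomial series are continuously differentiable on `Om` -/
def St_SER : Prop := ∀ (c : ℤ × ℤ → ℂ) (e : ℤ × ℤ → Fin 3 → ℕ), (∀ n, ‖c n‖ ≤ 1) →
  (∀ R : Fin 3 → ℝ, (∀ i, 0 ≤ R i ∧ R i < 11 / 10) → R 0 * R 1 < 13 / 25 →
    Summable fun n ↦ R 0 ^ e n 0 * R 1 ^ e n 1 * R 2 ^ e n 2) →
  ContDiffOn ℂ 1 (fun x ↦ ∑' n, c n * mon (e n) x) Om ∧ ∀ x ∈ Om, ∀ δ : T3,
    HasSum (fun n ↦ ((e n 0 : ℂ) * δ 0 + e n 1 * δ 1 + e n 2 * δ 2) * (c n * mon (e n) x))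
      (fderiv ℂ (fun x ↦ ∑' n, c n * mon (e n) x) x fun i ↦ x i * δ i)

def St_KAP : Prop := ∃ K : Ch → T3 → ℂ, (∀ m, ContDiffOn ℂ 1 (K m) Om) ∧
  (∀ τ : T3, xq τ ∈ Om → ∀ m, kk m τ = K m (xq τ)) ∧
  ∀ x ∈ Om, ∀ i, x i = 0 → ∀ m : Ch, m.2.1 = 1 → K m x = 0

def St_PHI : Prop := ∃ Φ : T3 → T3,
  (∀ x ∈ Kc, ContDiffAt ℂ 1 Φ x ∧ ∃ L : T3 ≃L[ℂ] T3, HasFDerivAt Φ (L : T3 →L[ℂ] T3) x) ∧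
  ∀ τ ∈ Red, (∀ j, fp (Pp j) τ 0 ≠ 0) ∧ Φ (xq τ) =
    ![fp (Pp 1) τ 0 * fp (Pp 2) τ 0 / (fp (Pp 3) τ 0 * fp (Pp 0) τ 0),
      fp (Pp 3) τ 0 / fp (Pp 2) τ 0, fp (Pp 2) τ 0 / fp (Pp 1) τ 0]

/-- local step: near a limit point of the toric coordinates of reduced lifts, these coordinates are
an analytic function of the parameter -/
def St_LOC : Prop := ∀ κ : Ch → ℂ → ℂ, (∀ m, AnalyticAt ℂ (κ m) 0) → ∀ x₀ ∈ Kc,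
  (∃ V ∈ 𝓝 x₀, ∀ᶠ u in 𝓝[≠] (0 : ℂ), ∀ τ ∈ Red, xq τ ∈ V → ¬ ∃ c : ℂ, ∀ m, kk m τ = c * κ m u) ∨
  ∃ (X : ℂ → T3) (V : Set T3), V ∈ 𝓝 x₀ ∧ AnalyticAt ℂ X 0 ∧ X 0 = x₀ ∧
    (∀ᶠ u in 𝓝[≠] (0 : ℂ), ∀ i, X u i ≠ 0) ∧
    (∀ᶠ u in 𝓝[≠] (0 : ℂ), ∀ τ : T3, xq τ = X u → ∃ c : ℂ, c ≠ 0 ∧ ∀ m, kk m τ = c * κ m u) ∧
    ((∀ m, Ev m → κ m 0 ≠ 0) → (∀ i, x₀ i ≠ 0) ∧
      ∀ τ : T3, xq τ = x₀ → ∃ c : ℂ, c ≠ 0 ∧ ∀ m, kk m τ = c * κ m 0) ∧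
    ∀ᶠ u in 𝓝[≠] (0 : ℂ), ∀ τ ∈ Red, xq τ ∈ V → (∃ c : ℂ, ∀ m, kk m τ = c * κ m u) → xq τ = X u

def St_CHART : Prop := ∀ κ : Ch → ℂ → ℂ, (∀ m, AnalyticAt ℂ (κ m) 0) →
  ∃ (r : ℝ) (N : ℕ) (mm : Fin N → T3) (g : Fin N → Fin 3 → ℂ → ℂ), 0 < r ∧
    (∀ j i, AnalyticOnNhd ℂ (g j i) (ball 0 r)) ∧
    (∀ j w, ‖exp w‖ < r → (fun i ↦ mm j i * w + g j i (exp w)) ∈ H2 ∧
      ∃ c : ℂ, c ≠ 0 ∧ ∀ m, kk m (fun i ↦ mm j i * w + g j i (exp w)) = c * κ m (exp w)) ∧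
    ((∀ m, Ev m → κ m 0 ≠ 0) → ∀ j, mm j = 0 ∧ (fun i ↦ g j i 0) ∈ H2 ∧
      ∃ c : ℂ, c ≠ 0 ∧ ∀ m, kk m (fun i ↦ g j i 0) = c * κ m 0) ∧
    ∀ u : ℂ, u ≠ 0 → ‖u‖ < r → ∀ τ ∈ Red, (∃ c : ℂ, ∀ m, kk m τ = c * κ m u) →
      ∃ j w, exp w = u ∧ |w.im| ≤ π ∧ τ = fun i ↦ mm j i * w + g j i (exp w)

def St_LIFT : Prop := ∀ κ : Ch → ℂ → ℂ, (∀ m, AnalyticAt ℂ (κ m) 0) → (∀ m, Ev m → κ m 0 ≠ 0) →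
  (∃ᶠ u in 𝓝[≠] (0 : ℂ), ∃ τ ∈ H2, ∃ c : ℂ, ∀ m, kk m τ = c * κ m u) →
  ∃ g : ℂ → T3, AnalyticAt ℂ g 0 ∧
    ∀ᶠ u in 𝓝 (0 : ℂ), g u ∈ H2 ∧ ∃ c : ℂ, c ≠ 0 ∧ ∀ m, kk m (g u) = c * κ m u

end Pool.Agent.Lib.ECM
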