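import Pool.Agent.Lib.ECM.FPA
import Pool.Agent.Lib.ECM.CJ2
import Pool.Agent.Lib.ECM.THBlue
import Pool.Agent.Lib.ZP3.WdExA

/-! Block FINP: the gradients of the odd theta functions along an elliptic line are integral. -/

open Polynomial Filter Topology PeriodPair
open scoped Polynomial.Bivariate

namespace Pool.Agent.Lib.ECM

/-- the bound at a finite place -/
def St_FINP : Prop := ∀ τ ∈ H2, Gen τ → ∀ (v : V2) (L : PeriodPair), (∀ z ∈ L.lattice, z • v ∈ Lat τ) →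
  ∀ (V : ValuationSubring ℂ) (γ : ℂ), γ ≠ 0 → L.g₂ / γ ^ 4 ∈ V → L.g₃ / γ ^ 6 ∈ V → ∀ g h : Ch,
    ∃ n, V.valuation (16 * (kk g τ * ll h τ v)) ≤ V.valuation (γ * (kk n τ * kk (n + (g + h)) τ))

namespace T42

theorem ev_pair : ∀ κ : Ch, ∃ n, Ev n ∧ Ev (n + κ) := by decide

theorem ch_add (a : Ch) : a + a = 0 := by revert a; decide

theorem ev0 : Ev 0 := by decide

theorem iv_zsmul (μ : ℤ × ℤ) : iv (2 • μ) = (2 : ℂ) • iv μ := by
  ext i; fin_cases i <;> simp [iv]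

theorem char_two (m : Ch) (μ ν : ℤ × ℤ) : Complex.exp (2 * Real.pi * Complex.I *
    (dot (ca m) (iv (2 • μ)) - dot (cb m) (iv (2 • ν)))) = 1 := by
  rw [Complex.exp_eq_one_iff]
  refine ⟨m.1.val * μ.1 + m.2.1.val * μ.2 - m.2.2.1.val * ν.1 - m.2.2.2.val * ν.2, ?_⟩
  simp [dot, ca, cb, iv]
  ring

theorem rep (hB : St_BAS) {τ : T3} (hτ : τ ∈ H2) (h0 : kk 0 τ ≠ 0) {v : V2} {L : PeriodPair}
    (hL : ∀ z ∈ L.lattice, z • v ∈ Lat τ) : ∃ (c : ℂ[X]) (a b : Ch → ℂ[X]), c ≠ 0 ∧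
    ∀ᶠ u in 𝓝[≠] (0 : ℂ), ∀ m, c.eval (℘[L] u) * (th m τ ((2 * u) • v) / th 0 τ ((2 * u) • v)) =
      (a m).eval (℘[L] u) + (b m).eval (℘[L] u) * ℘'[L] u := by
  classical
  have d (m) : Differentiable ℂ fun u : ℂ ↦ th m τ ((2 * u) • v) :=
    (hB.diff_th m τ hτ).comp (by fun_prop)
  have me (m) : Meromorphic fun u : ℂ ↦ th m τ ((2 * u) • v) := fun x ↦
    ((d m).analyticAt x).meromorphicAt
  have pe (m) : CJ.Per L.lattice fun u : ℂ ↦ th m τ ((2 * u) • v) / th 0 τ ((2 * u) • v) := by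
    intro l hl
    obtain ⟨μ, ν, e⟩ := hL l hl
    refine Eventually.of_forall fun u ↦ ?_
    have e1 : (2 * (u + l)) • v = (2 * u) • v + per τ (iv (2 • μ)) (iv (2 • ν)) := by
      rw [mul_add, add_smul, mul_smul 2 l, e, iv_zsmul, iv_zsmul]
      congr 1
      ext i; fin_cases i <;> simp [per] <;> ring
    simp only [e1, hB.th_per, char_two, one_mul]
    exact mul_div_mul_left _ _ (Complex.exp_ne_zero _)
  choose A B Cc hC hE using fun m ↦ CJ.ell_struct L ((me m).div (me 0)) (pe m)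
  refine ⟨∏ m, Cc m, fun m ↦ (∏ k ∈ Finset.univ.erase m, Cc k) * A m,
    fun m ↦ (∏ k ∈ Finset.univ.erase m, Cc k) * B m, Finset.prod_ne_zero_iff.2 fun m _ ↦ hC m,
    eventually_all.2 fun m ↦ ?_⟩
  filter_upwards [CJ.ev_iff.1 (hE m) 0] with u hu
  rw [← Finset.prod_erase_mul _ _ (Finset.mem_univ m)]
  simp only [eval_mul, Pi.div_apply] at hu ⊢
  linear_combination eval (℘[L] u) (∏ k ∈ Finset.univ.erase m, Cc k) * hu

theorem pv_deriv {ξ η : ℂ → ℂ} {δ α u : ℂ} (hξ : HasDerivAt ξ (δ * (2 * η u)) u)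
    (hη : HasDerivAt η (δ * (3 * ξ u ^ 2 - α)) u) (a b : ℂ[X]) :
    HasDerivAt (fun u ↦ pv a b (ξ u) (η u)) (δ * pd α a b (ξ u) (η u)) u := by
  have := ((a.hasDerivAt _).comp u hξ).add (((b.hasDerivAt _).comp u hξ).mul hη)
  refine this.congr_deriv ?_
  simp only [pd, Function.comp]
  ring

end T42

open T42

theorem st_FINP (hB : St_BAS) (hD : St_DER) : St_FINP := by
  intro τ hτ hG v L hL V γ γ0 h2 h3 g h
  classical
  by_cases hg : ¬ Ev g
  · exact ⟨0, by simp [hB.kk_odd g τ hg]⟩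
  by_cases hh : Ev h
  · exact ⟨0, by simp [hB.ll_even h τ hτ v hh]⟩
  have k0 := hG 0 ev0
  obtain ⟨s, hs, hD⟩ := hD
  obtain ⟨c, a0, b0, c0, hE⟩ := rep hB hτ k0 hL
  obtain ⟨δ, rfl⟩ : ∃ δ, γ = 2 * δ := ⟨γ / 2, by ring⟩
  have δ0 : δ ≠ 0 := right_ne_zero_of_mul γ0
  let α := 4 * (L.g₂ / (2 * δ) ^ 4)
  let β := 16 * (L.g₃ / (2 * δ) ^ 6)
  let ξ : ℂ → ℂ := fun u ↦ ℘[L] u / δ ^ 2
  let η : ℂ → ℂ := fun u ↦ ℘'[L] u / (2 * δ ^ 3)
  let a : Ch → ℂ[X] := fun m ↦ (a0 m).comp (C (δ ^ 2) * X)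
  let b : Ch → ℂ[X] := fun m ↦ C (2 * δ ^ 3) * (b0 m).comp (C (δ ^ 2) * X)
  let F : Ch → ℂ → ℂ := fun m u ↦ th m τ ((2 * u) • v)
  let F' : Ch → ℂ → ℂ := fun m u ↦ 2 * dth m τ v ((2 * u) • v)
  have dF (m u) : HasDerivAt (F m) (F' m u) u := by
    have h1 := hB.line m τ hτ 0 v (2 * u)
    simp only [zero_add] at h1
    exact (h1.comp u ((hasDerivAt_id u).const_mul 2)).congr_deriv (by simp [F', mul_comm])
  have nz (m) (hm : kk m τ ≠ 0) : ∀ᶠ u in 𝓝[≠] (0 : ℂ), F m u ≠ 0 :=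
    ((dF m 0).continuousAt.eventually_ne (by simpa [F, kk] using hm)).filter_mono nhdsWithin_le_nhds
  have nl := CJ.ev_iff.1 (CJ.ev_notMem L) 0
  have hE' : ∀ᶠ u in 𝓝[≠] (0 : ℂ), ∀ m, c.eval (℘[L] u) * (F m u / F 0 u) =
      pv (a m) (b m) (ξ u) (η u) := by
    filter_upwards [hE] with u hu m
    rw [hu m]
    simp only [pv, a, b, ξ, η, eval_mul, eval_comp, eval_C, eval_X]
    rw [mul_div_cancel₀ _ (pow_ne_zero 2 δ0)]
    field_simp
  have hne (A : ℂ[X]) (hA : A ≠ 0) : ∀ᶠ u in 𝓝[≠] (0 : ℂ), A.eval (ξ u) ≠ 0 := by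
    have : A.comp (C (δ ^ 2)⁻¹ * X) ≠ 0 := by
      rw [Ne, comp_eq_zero_iff]
      rintro (e | ⟨-, e⟩)
      · exact hA e
      · have := congrArg (coeff · 1) e
        simp [δ0] at this
    filter_upwards [CJ.ev_iff.1 (CJ.eval_ne L this) 0] with u hu
    simpa [ξ, eval_comp, div_eq_inv_mul] using hu
  have hW : ∀ᶠ u in 𝓝[≠] (0 : ℂ), ∀ m m', δ * (pv (a m') (b m') (ξ u) (η u) *
      pd α (a m) (b m) (ξ u) (η u) - pv (a m) (b m) (ξ u) (η u) * pd α (a m') (b m') (ξ u) (η u)) =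
      (c.eval (℘[L] u) / F 0 u) ^ 2 * (F m' u * F' m u - F m u * F' m' u) := by
    filter_upwards [eventually_eventually_nhdsWithin.2 hE', nl, nz 0 k0, self_mem_nhdsWithin]
      with u hu hl h0 hu0 m m'
    rw [nhdsWithin_eq_nhds.2 (isOpen_compl_singleton.mem_nhds hu0)] at hu
    have dξ : HasDerivAt ξ (δ * (2 * η u)) u :=
      ((ZP3.WDE.wp_dX L hl).div_const _).congr_deriv (by simp only [η]; field_simp)
    have dη : HasDerivAt η (δ * (3 * ξ u ^ 2 - α)) u :=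
      ((ZP3.WDE.wp_dY L hl).div_const _).congr_deriv (by simp only [ξ, α]; field_simp; ring)
    have dc := (c.hasDerivAt _).comp u (ZP3.WDE.wp_dX L hl)
    have e (k) := (dc.mul ((dF k u).div (dF 0 u) h0)).unique
      ((pv_deriv dξ dη (a k) (b k)).congr_of_eventuallyEq (hu.mono fun w hw ↦ hw k))
    have e1 := e m
    have e2 := e m'
    simp only [Function.comp, Pi.div_apply] at e1 e2
    rw [mul_sub, mul_left_comm, mul_left_comm δ, ← e1, ← e2, ← hu.self_of_nhds m,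
      ← hu.self_of_nhds m']
    field_simp
    ring
  obtain ⟨x, y, hxy, hp⟩ := good_point V (α := α) (β := β) (V.mul_mem _ _ (natCast_mem V 4) h2)
    (V.mul_mem _ _ (natCast_mem V 16) h3) a b
  let p : Ch → ℂ := fun m ↦ pv (a m) (b m) x y
  let q : Ch → ℂ := fun m ↦ pd α (a m) (b m) x y
  have id (e : Ch) : 16 * (kk g τ * ll h τ v) * (p e * p (e + (g + h))) =
      2 * δ * ∑ n, (s e (e + (g + h)) g n : ℂ) * ((p (n + (g + h)) * q n - p n * q (n + (g + h))) *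
        (kk (n + e + g) τ * kk (n + e + g + (g + h)) τ)) := by
    let P : Ch → ℂ[X][Y] := fun m ↦ C (a m) + C (b m) * Y
    let Q : Ch → ℂ[X][Y] := fun m ↦ C (a m).derivative * (CC 2 * Y) +
      C (b m).derivative * (CC 2 * Y) * Y + C (b m) * (CC 3 * C X ^ 2 - CC α)
    have eP (m x y) : (P m).evalEval x y = pv (a m) (b m) x y := by simp [P, pv, evalEval_C]
    have eQ (m x y) : (Q m).evalEval x y = pd α (a m) (b m) x y := by
      simp [Q, pd, evalEval_C]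
    have := transfer (ξ := ξ) (η := η) (f := X ^ 3 - C α * X - C β)
      (fun u ↦ by simp [ξ]) (fun u ↦ by simp [η, neg_div])
      (nl.mono fun u hu ↦ by
        simp only [ξ, η, α, β, eval_sub, eval_pow, eval_X, eval_mul, eval_C, div_pow,
          L.derivWeierstrassP_sq u hu]
        field_simp
        ring)
      (fun e ↦ by simpa using congrArg (coeff · 3) e) hne
      (CC (16 * (kk g τ * ll h τ v)) * (P e * P (e + (g + h))) - CC (2 * δ) *
        ∑ n, CC (s e (e + (g + h)) g n : ℂ) * ((P (n + (g + h)) * Q n - P n * Q (n + (g + h))) *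
          CC (kk (n + e + g) τ * kk (n + e + g + (g + h)) τ))) ?_ (x := x) (y := y) (by simpa using hxy)
    · simp only [evalEval_sub, evalEval_mul, evalEval_CC, evalEval_finsetSum, eP, eQ] at this
      exact sub_eq_zero.1 this
    filter_upwards [hE', hW] with u h1 h2
    simp only [evalEval_sub, evalEval_mul, evalEval_CC, evalEval_finsetSum, eP, eQ]
    have h3 := (hD τ hτ e (e + (g + h)) g v ((2 * u) • v)).1
    have i1 : e + (e + (g + h)) + g = h := by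
      linear_combination (exp := 1) ch_add e + ch_add g
    have i2 (n : Ch) : n + e + (e + (g + h)) = n + (g + h) := by
      linear_combination (exp := 1) ch_add e
    have i3 (n : Ch) : n + (e + (g + h)) + g = n + e + g + (g + h) := by ring
    simp only [i1, i2, i3, hB.kk_odd h τ hh] at h3
    have h4 : δ * ∑ n, (s e (e + (g + h)) g n : ℂ) * ((pv (a (n + (g + h))) (b (n + (g + h))) (ξ u) (η u) *
        pd α (a n) (b n) (ξ u) (η u) - pv (a n) (b n) (ξ u) (η u) *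
        pd α (a (n + (g + h))) (b (n + (g + h))) (ξ u) (η u)) *
        (kk (n + e + g) τ * kk (n + e + g + (g + h)) τ)) = (c.eval (℘[L] u) / F 0 u) ^ 2 * 2 *
        (4 * (F e u * F (e + (g + h)) u * (ll g τ v * 0 + kk g τ * ll h τ v))) := by
      rw [h3, Finset.mul_sum, Finset.mul_sum]
      refine Finset.sum_congr rfl fun n _ ↦ ?_
      have := h2 n (n + (g + h))
      simp only [F, F'] at this ⊢
      linear_combination (s e (e + (g + h)) g n : ℂ) *
        (kk (n + e + g) τ * kk (n + e + g + (g + h)) τ) * this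
    rw [mul_assoc 2 δ, h4, ← h1, ← h1]
    ring
  obtain ⟨e, -, he⟩ := Finset.univ.exists_max_image
    (fun e ↦ V.valuation (p e * p (e + (g + h)))) Finset.univ_nonempty
  obtain ⟨n, -, hn⟩ := Finset.univ.exists_max_image
    (fun n ↦ V.valuation (kk n τ * kk (n + (g + h)) τ)) Finset.univ_nonempty
  have pn (m) (hm : Ev m) : p m ≠ 0 := (hp m).2 (by
    by_contra hc
    obtain ⟨e1, e2⟩ := not_or.1 hc
    obtain ⟨u, u1, u2, u3, u4⟩ := (hE'.and ((nz m (hG m hm)).and ((nz 0 k0).and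
      (CJ.ev_iff.1 (CJ.eval_ne L c0) 0)))).exists
    have := u1 m
    simp [not_not.1 e1, not_not.1 e2, pv, u2, u3, u4] at this)
  obtain ⟨e0, r1, r2⟩ := ev_pair (g + h)
  have pos : 0 < V.valuation (p e * p (e + (g + h))) :=
    lt_of_lt_of_le (by simpa [zero_lt_iff] using ⟨pn _ r1, pn _ r2⟩) (he e0 (Finset.mem_univ _))
  refine ⟨n, le_of_mul_le_mul_right ?_ pos⟩
  rw [← map_mul, id e, map_mul, map_mul V.valuation (2 * δ), mul_assoc]
  refine mul_le_mul_right (V.valuation.map_sum_le fun k _ ↦ ?_) _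
  have s1 : V.valuation (s e (e + (g + h)) g k : ℂ) = 1 := by
    rcases hs e (e + (g + h)) g k with e | e <;> simp [e]
  rw [map_mul, s1, one_mul, map_mul, mul_comm]
  refine mul_le_mul' (hn _ (Finset.mem_univ _)) (le_trans ?_ (he k (Finset.mem_univ _)))
  refine V.valuation.map_sub_le ?_ ?_ <;> simp only [map_mul]
  · rw [mul_comm]
    exact mul_le_mul_left (hp k).1 _
  · exact mul_le_mul_right (hp _).1 _

end Pool.Agent.Lib.ECM
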