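import Pool.Agent.Lib.ECM.Blue

/-! Almost all special points of the curve are good. -/

open Polynomial

namespace Pool.Agent.Lib.ECM

namespace MALG

theorem cv_conj {P : Id} {x : Ch → ℂ} (hx : x ∈ Cv P) (σ : ℂ →+* ℂ) :
    (fun m ↦ σ (x m)) ∈ Cv P := by
  intro f hf
  have h := MvPolynomial.comp_aeval_apply (f := x) σ.toRatAlgHom f
  rw [hx f hf, map_zero] at h
  exact h.symm

theorem gen_of {x : Ch → ℂ} {τ : T3} (h : Over x τ) (hx : ∀ m, Ev m → x m ≠ 0) : Gen τ := by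
  intro m hm h0
  exact hx m hm (by rw [h.2.2 m, h0, zero_div])

/-- an algebraic tuple is determined up to finitely many choices by one of its conjugates -/
theorem fin_conj (y : Ch → ℂ) :
    {x : Ch → ℂ | AlgT x ∧ ∃ σ : ℂ →+* ℂ, (fun m ↦ σ (x m)) = y}.Finite := by
  refine (Set.Finite.pi' fun m ↦ (minpoly ℚ (y m)).rootSet_finite ℂ).subset ?_
  rintro x ⟨ha, σ, rfl⟩ m
  have e : minpoly ℚ (σ (x m)) = minpoly ℚ (x m) :=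
    minpoly.algHom_eq σ.toRatAlgHom σ.injective (x m)
  show x m ∈ (minpoly ℚ (σ (x m))).rootSet ℂ
  rw [e, mem_rootSet]
  exact ⟨minpoly.ne_zero (ha m).isIntegral, minpoly.aeval ℚ (x m)⟩

end MALG

open MALG in
theorem st_ALG (hCONJ : St_CONJ) (hLINE : St_LINE) (hAUT : St_AUT) : St_ALG := by
  intro P hM hG hH
  have hF := hM.union hG
  set F0 := {x ∈ Cv P | ¬ ∃ τ, Over x τ} ∪ {x ∈ Cv P | ∃ m, Ev m ∧ x m = 0} with hF0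
  have key : ∀ y ∈ Cv P, y ∉ F0 → ∃ τ, Over y τ ∧ Gen τ := by
    intro y hy h
    by_cases h1 : ∃ τ, Over y τ
    · obtain ⟨τ, hτ⟩ := h1
      exact ⟨τ, hτ, gen_of hτ fun m hm h0 ↦ h (Or.inr ⟨hy, m, hm, h0⟩)⟩
    · exact absurd (Or.inl ⟨hy, h1⟩) h
  refine (hF.union (hF.biUnion fun y _ ↦ fin_conj y)).subset ?_
  rintro x ⟨hx, ⟨τ, hτ, hc⟩, hg⟩
  by_cases h0 : x ∈ F0
  · exact Or.inl h0
  right
  have hgen : Gen τ := gen_of hτ fun m hm h ↦ h0 (Or.inr ⟨hx, m, hm, h⟩)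
  obtain ⟨v, τ0, -, hl, -⟩ := (hLINE.cm τ hτ.1).1 hc
  obtain ⟨Ω, hΩ⟩ := (hLINE.nrm τ0).1
  have ha : AlgT x := by
    intro m
    refine hAUT.alg _ (((hF.countable.union
      (hH.image fun t m ↦ kk m t / kk 0 t)).image fun y ↦ y m).mono ?_)
    rintro _ ⟨σ, rfl⟩
    refine ⟨fun m ↦ σ (x m), ?_, rfl⟩
    have hy : (fun m ↦ σ (x m)) ∈ Cv P := cv_conj hx (σ : ℂ →+* ℂ)
    by_cases h1 : (fun m ↦ σ (x m)) ∈ F0
    · exact Or.inl h1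
    · obtain ⟨τ', h2, -⟩ := key _ hy h1
      obtain ⟨v', τ0', Ω', -, h3, -⟩ := hCONJ σ x τ τ' v τ0 Ω hτ hgen h2 hl hΩ
      exact Or.inr ⟨τ', ⟨⟨_, hy, h2⟩, hLINE.sing τ' h2.1 v' τ0' h3⟩,
        funext fun k ↦ (h2.2.2 k).symm⟩
  have hb : ∃ σ : ℂ →+* ℂ, (fun m ↦ σ (x m)) ∈ F0 := by
    by_contra hn
    exact hg ⟨ha, fun σ ↦ key _ (cv_conj hx σ) fun h ↦ hn ⟨σ, h⟩⟩
  obtain ⟨σ, hσ⟩ := hb
  exact Set.mem_biUnion hσ ⟨ha, σ, rfl⟩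

end Pool.Agent.Lib.ECM
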