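import Pool.Agent.Lib.ECM.Blue

/-! The atlas of a curve in the moduli space. -/

open Filter Topology Metric Complex
open scoped Real

noncomputable section

namespace Pool.Agent.Lib.ECM

namespace XATLAS

/-- the point of a branch -/
def bp (κ : Ch → ℂ → ℂ) (n : ℕ) (u : ℂ) : Ch → ℂ := fun m ↦ κ m u / u ^ n

/-- the permutation of the characteristics -/
def pe (γ : Sym) : Ch ≃ Ch := γ.A.toEquiv.trans (Equiv.addRight γ.s)

lemma pe_apply (γ : Sym) (m : Ch) : pe γ m = γ.A m + γ.s := rfl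

/-- the transformed branch -/
def tb (γ : Sym) (κ : Ch → ℂ → ℂ) : Ch → ℂ → ℂ :=
  fun m u ↦ γ.ζ ((pe γ).symm m) * κ ((pe γ).symm m) u

lemma tb_apply (γ : Sym) (κ : Ch → ℂ → ℂ) (m : Ch) (u : ℂ) :
    tb γ κ (γ.A m + γ.s) u = γ.ζ m * κ m u := by
  rw [← pe_apply, tb, Equiv.symm_apply_apply]

lemma zeta_ne (γ : Sym) (m : Ch) : γ.ζ m ≠ 0 := fun h ↦ by
  have := γ.ζ8 m
  rw [h] at this
  norm_num at this

lemma avoid {P : Id} {κ : Ch → ℂ → ℂ} {n : ℕ} (h : Br P κ n) {S : Set (Ch → ℂ)} (hS : S.Finite) :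
    ∀ᶠ u in 𝓝[≠] (0 : ℂ), bp κ n u ∉ S := by
  have := (eventually_all_finite hS).2 fun p _ ↦ h.nc p
  filter_upwards [this] with u hu hm
  exact hu _ hm rfl

lemma radius {p : ℂ → Prop} (h : ∀ᶠ u in 𝓝[≠] (0 : ℂ), p u) :
    ∃ r : ℝ, 0 < r ∧ ∀ u, u ≠ 0 → ‖u‖ < r → p u := by
  obtain ⟨r, hr, h'⟩ := Metric.eventually_nhds_iff.1 (eventually_nhdsWithin_iff.1 h)
  exact ⟨r, hr, fun u h0 hu ↦ h' (by simpa using hu) h0⟩

/-- good behaviour of a branch near the origin -/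
lemma good (hBAS : St_BAS) {P : Id} (hM : Mod P) (hG : GenC P) {κ : Ch → ℂ → ℂ} {n : ℕ}
    (h : Br P κ n) : ∃ r C : ℝ, 0 < r ∧ (∀ u, u ≠ 0 → ‖u‖ < r → bp κ n u ∈ Cv P ∧ bp κ n u 0 = 1) ∧
      ((∀ m, Ev m → κ m 0 ≠ 0) ∨ ∃ m, Ev m ∧ ∀ u, u ≠ 0 → ‖u‖ < r →
        -Real.log ‖u‖ ≤ C + |Real.log ‖bp κ n u m‖|) := by
  have h1 : ∀ᶠ u in 𝓝[≠] (0 : ℂ), bp κ n u ∈ Cv P ∧ (∃ τ, Over (bp κ n u) τ) ∧
      ∀ m, Ev m → bp κ n u m ≠ 0 := by
    filter_upwards [h.mem, avoid h hM, avoid h hG] with u a b c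
    refine ⟨a, ?_, fun m hm h0 ↦ c ⟨a, m, hm, h0⟩⟩
    by_contra h'
    exact b ⟨a, h'⟩
  have h2 : ∀ᶠ u in 𝓝[≠] (0 : ℂ), bp κ n u ∈ Cv P ∧ bp κ n u 0 = 1 := by
    filter_upwards [h1] with u ⟨a, ⟨τ, _, b2, b3⟩, _⟩
    exact ⟨a, by rw [b3, div_self b2]⟩
  by_cases hA : ∀ m, Ev m → κ m 0 ≠ 0
  · obtain ⟨r, hr, h'⟩ := radius h2
    exact ⟨r, 0, hr, h', Or.inl hA⟩
  have key : ∃ (m : Ch) (C : ℝ), Ev m ∧ ∀ᶠ u in 𝓝[≠] (0 : ℂ),
      -Real.log ‖u‖ ≤ C + |Real.log ‖bp κ n u m‖| := by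
    rcases Nat.eq_zero_or_pos n with rfl | hn
    · push Not at hA
      obtain ⟨m, hm, h0⟩ := hA
      obtain ⟨C, hC, hb⟩ := ((h.an m).differentiableAt.isBigO_sub).exists_pos
      refine ⟨m, Real.log C, hm, ?_⟩
      filter_upwards [h1, nhdsWithin_le_nhds hb.bound, self_mem_nhdsWithin] with u a b c
      have a' := a.2.2 m hm
      simp only [bp, pow_zero, div_one] at a' ⊢
      rw [h0, sub_zero, sub_zero] at b
      have c' : 0 < ‖u‖ := norm_pos_iff.2 c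
      have := Real.log_le_log (norm_pos_iff.2 a') b
      rw [Real.log_mul hC.ne' c'.ne'] at this
      linarith [neg_le_abs (Real.log ‖κ m u‖)]
    · obtain ⟨m, hm⟩ := h.prim.resolve_left hn.ne'
      have hc : ∀ᶠ u in 𝓝 (0 : ℂ), ‖κ m 0‖ / 2 < ‖κ m u‖ :=
        (h.an m).continuousAt.norm.eventually_const_lt (half_lt_self (norm_pos_iff.2 hm))
      have hp : 0 < ‖κ m 0‖ / 2 := half_pos (norm_pos_iff.2 hm)
      have hE : Ev m := by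
        by_contra hE
        obtain ⟨u, ⟨⟨-, ⟨τ, -, -, b3⟩, -⟩, c⟩, d⟩ :=
          ((h1.and (nhdsWithin_le_nhds hc)).and self_mem_nhdsWithin).exists
        have := b3 m
        rw [hBAS.kk_odd m τ hE, zero_div, bp, div_eq_zero_iff] at this
        rcases this with e | e
        · rw [e, norm_zero] at c; linarith
        · exact d (pow_eq_zero_iff hn.ne' |>.1 e)
      refine ⟨m, -Real.log (‖κ m 0‖ / 2), hE, ?_⟩
      have hs : ∀ᶠ u in 𝓝 (0 : ℂ), ‖u‖ < 1 := by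
        filter_upwards [ball_mem_nhds (0 : ℂ) one_pos] with u hu using by simpa using hu
      filter_upwards [nhdsWithin_le_nhds hc, nhdsWithin_le_nhds hs, self_mem_nhdsWithin]
        with u a b c
      have c' : 0 < ‖u‖ := norm_pos_iff.2 c
      have e : Real.log ‖bp κ n u m‖ = Real.log ‖κ m u‖ - n * Real.log ‖u‖ := by
        rw [bp, norm_div, norm_pow, Real.log_div (hp.trans a).ne' (pow_pos c' n).ne', Real.log_pow]
      have l1 := Real.log_le_log hp a.le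
      have l2 := Real.log_nonpos c'.le b.le
      have l3 : (1 : ℝ) ≤ n := by exact_mod_cast hn
      have l4 := le_abs_self (Real.log ‖bp κ n u m‖)
      nlinarith
  obtain ⟨m, C, hm, h3⟩ := key
  obtain ⟨r, hr, h'⟩ := radius (h2.and h3)
  exact ⟨r, C, hr, fun u a b ↦ (h' u a b).1, Or.inr ⟨m, hm, fun u a b ↦ (h' u a b).2⟩⟩

/-- local data for a branch and an element of the modular group -/
structure Loc (P : Id) (κ : Ch → ℂ → ℂ) (n : ℕ) (γ : Sym) where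
  N : ℕ
  r : ℝ
  C : ℝ
  mm : Fin N → T3
  g : Fin N → Fin 3 → ℂ → ℂ
  pos : 0 < r
  an : ∀ j i, AnalyticOnNhd ℂ (g j i) (ball 0 r)
  int : ∀ j i, ∃ k : ℤ, 2 * π * I * mm j i = k
  mem : ∀ j w, ‖exp w‖ < r → cht (mm j) (g j) w ∈ H2 ∧ 1 / 10 ≤ dY (cht (mm j) (g j) w) ∧
    bp κ n (exp w) ∈ Cv P ∧ Over (bp κ n (exp w)) (γ.inv (cht (mm j) (g j) w))
  cover : ∀ u, u ≠ 0 → ‖u‖ < r → ∀ τ, Over (bp κ n u) τ → ∀ γ' : Sym,
    (fun m ↦ γ'.A m + γ'.s) = (fun m ↦ γ.A m + γ.s) → γ'.ζ = γ.ζ → γ'.act τ ∈ Red →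
    ∃ j w, exp w = u ∧ |w.im| ≤ π ∧ γ'.act τ = cht (mm j) (g j) w ∧
      (mm j = 0 ∨ ∃ m, Ev m ∧ -w.re ≤ C + |Real.log ‖bp κ n u m‖|)

lemma loc (hBAS : St_BAS) (hK : St_SYMK) (hC : St_CHART2) (hO : St_OMD) {P : Id} (hM : Mod P)
    (hG : GenC P) {κ : Ch → ℂ → ℂ} {n : ℕ} (h : Br P κ n) (γ : Sym) : Nonempty (Loc P κ n γ) := by
  obtain ⟨r0, C, hr0, g1, g2⟩ := good hBAS hM hG h
  obtain ⟨r, N, mm, g, c1, c2, c3, c4, c5, c6, c7⟩ := hC (tb γ κ)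
    fun m ↦ analyticAt_const.mul (h.an _)
  refine ⟨⟨N, min r r0, C, mm, g, lt_min c1 hr0,
    fun j i ↦ (c2 j i).mono (ball_subset_ball (min_le_left _ _)), c3, fun j w hw ↦ ?_,
    fun u h0 hu τ hτ γ' e1 e2 hR ↦ ?_⟩⟩
  · have w1 := hw.trans_le (min_le_left _ _)
    have w2 := hw.trans_le (min_le_right _ _)
    obtain ⟨a1, c, hc, a2⟩ := c5 j w w1
    obtain ⟨b1, b2⟩ := g1 _ (exp_ne_zero w) w2
    have hi := γ.inv_mem _ a1
    obtain ⟨c', hc', a3⟩ := hK.cst γ _ hi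
    have e : ∀ m, c' * kk m (γ.inv (cht (mm j) (g j) w)) = c * κ m (exp w) := fun m ↦ by
      have := (a3 m).1
      rw [γ.act_inv _ a1, a2, tb_apply] at this
      apply mul_left_cancel₀ (zeta_ne γ m)
      unfold cht
      linear_combination -this
    have e0 : κ 0 (exp w) = exp w ^ n := by
      rwa [bp, div_eq_one_iff_eq (pow_ne_zero _ (exp_ne_zero w))] at b2
    have k0 : kk 0 (γ.inv (cht (mm j) (g j) w)) ≠ 0 := fun h0 ↦ by
      have := e 0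
      rw [h0, mul_zero, e0] at this
      exact mul_ne_zero hc (pow_ne_zero _ (exp_ne_zero w)) this.symm
    refine ⟨a1, hO _ (c4 j w w1), b1, hi, k0, fun m ↦ ?_⟩
    rw [bp, ← e0, div_eq_div_iff (e0 ▸ pow_ne_zero _ (exp_ne_zero w)) k0]
    apply mul_left_cancel₀ hc'
    linear_combination κ m (exp w) * e 0 - κ 0 (exp w) * e m
  · obtain ⟨t1, t2, t3⟩ := hτ
    obtain ⟨c', -, a3⟩ := hK.cst γ' τ t1
    obtain ⟨j, w, b1, b2, b3⟩ := c7 u h0 (hu.trans_le (min_le_left _ _)) _ hR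
      ⟨c' * kk 0 τ / u ^ n, fun m ↦ by
        obtain ⟨m, rfl⟩ := (pe γ).surjective m
        have := (a3 m).1
        rw [congrFun e1 m, e2] at this
        have t4 := t3 m
        rw [bp, eq_div_iff t2] at t4
        rw [pe_apply, tb_apply, this, ← t4]
        ring⟩
    refine ⟨j, w, b1, b2, b3, ?_⟩
    rcases g2 with g2 | ⟨m, hm, g2⟩
    · refine Or.inl (c6 (fun m hm ↦ ?_) j).1
      obtain ⟨m, rfl⟩ := (pe γ).surjective m
      rw [pe_apply] at hm ⊢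
      rw [tb_apply]
      exact mul_ne_zero (zeta_ne γ m) (g2 m ((γ.ev m).1 hm))
    · refine Or.inr ⟨m, hm, ?_⟩
      have := g2 u h0 (hu.trans_le (min_le_right _ _))
      rwa [← b1, norm_exp, Real.log_exp, b1] at this

end XATLAS

open XATLAS in
theorem st_ATLAS (hBAS : St_BAS) (hK : St_SYMK) (hC : St_CHART2) (hO : St_OMD) (hBR : St_BR)
    (hCF : St_CF) : St_ATLAS := by
  classical
  intro P hP hM hG
  let D : Sym → (Ch → Ch) × (Ch → ℂ) := fun γ ↦ ((fun m ↦ γ.A m + γ.s), γ.ζ)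
  have : Finite (Set.range D) := hK.fin
  choose rep hrep using fun μ : Set.range D ↦ μ.2
  let L : ∀ (b : (Ch → ℂ → ℂ) × ℕ), Br P b.1 b.2 → ∀ μ, Loc P b.1 b.2 (rep μ) :=
    fun b h μ ↦ (loc hBAS hK hC hO hM hG h (rep μ)).some
  have hρ : ∀ b : (Ch → ℂ → ℂ) × ℕ, ∃ ρ : ℝ, 0 < ρ ∧ ∀ (h : Br P b.1 b.2) μ,
      ρ ≤ (L b h μ).r * Real.exp (-11) := fun b ↦ by
    by_cases h : Br P b.1 b.2
    · have : ∀ᶠ ρ in 𝓝[>] (0 : ℝ), ∀ μ, ρ ≤ (L b h μ).r * Real.exp (-11) :=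
        eventually_all.2 fun μ ↦ nhdsWithin_le_nhds
          (eventually_le_nhds (mul_pos (L b h μ).pos (Real.exp_pos _)))
      obtain ⟨ρ, a1, a2⟩ := (this.and self_mem_nhdsWithin).exists
      exact ⟨ρ, a2, fun _ ↦ a1⟩
    · exact ⟨1, one_pos, fun h' ↦ absurd h' h⟩
  choose ρ ρ1 ρ2 using hρ
  obtain ⟨T, F, hT, hF⟩ := hBR P hP ρ ρ1
  let J := Σ q : T × Set.range D, Fin (L q.1 (hT _ q.1.2) q.2).N
  let e : Fin (Nat.card J) ≃ J := (Finite.equivFin J).symm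
  let l : ∀ q : T × Set.range D, Loc P q.1.1.1 q.1.1.2 (rep q.2) := fun q ↦ L q.1 (hT _ q.1.2) q.2
  obtain ⟨C, hC'⟩ := (Set.finite_range fun q ↦ (l q).C).bddAbove
  refine ⟨⟨Nat.card J, fun j ↦ (l (e j).1).r, fun j ↦ (l (e j).1).mm (e j).2,
    fun j ↦ (l (e j).1).g (e j).2, fun j ↦ rep (e j).1.2, F, C, 1 / 10, by norm_num,
    fun j ↦ (l _).pos, fun j ↦ (l _).an _, fun j ↦ (l _).int _, fun j w hw ↦ ?_,
    fun j δ hδ hc ↦ ?_, fun x hx hxF τ hτ γ' hR ↦ ?_⟩⟩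
  · obtain ⟨a1, a2, a3, a4⟩ := (l (e j).1).mem (e j).2 w hw
    exact ⟨a1, a2, _, a3, a4⟩
  · refine hCF.unc P _ _ (hT _ (e j).1.1.2) _ (lt_min hδ (l (e j).1).pos)
      ((hc.image fun τ m ↦ kk m ((rep (e j).1.2).inv τ) / kk 0 ((rep (e j).1.2).inv τ)).mono ?_)
    rintro _ ⟨u, ⟨u0, u1⟩, rfl⟩
    have e1 := exp_log u0
    refine ⟨_, ⟨log u, by rw [Set.mem_ofPred_eq, e1]; exact u1, rfl⟩, ?_⟩
    have := ((l (e j).1).mem (e j).2 (log u)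
      (by rw [e1]; exact u1.trans_le (min_le_right _ _))).2.2.2.2.2
    rw [e1] at this
    exact (funext this).symm
  · obtain ⟨b, hb, u, u0, u1, rfl⟩ := hF x hx hxF
    let q : T × Set.range D := (⟨b, hb⟩, ⟨D γ', γ', rfl⟩)
    have r1 : ‖u‖ < (l q).r * Real.exp (-11) := u1.trans_le (ρ2 b (hT b hb) q.2)
    have r2 : ‖u‖ < (l q).r := r1.trans_le (mul_le_of_le_one_right (l q).pos.le
      (Real.exp_le_one_iff.2 (by norm_num)))
    have hq : D (rep q.2) = D γ' := hrep q.2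
    obtain ⟨j, w, b1, b2, b3, b4⟩ := (l q).cover u u0 r2 τ hτ γ' (congrArg Prod.fst hq).symm
      (congrArg Prod.snd hq).symm hR
    have a4 := ((l q).mem j w (by rw [b1]; exact r2)).2.2.2
    rw [b1] at a4
    obtain ⟨i, hi⟩ := e.surjective ⟨q, j⟩
    refine ⟨i, w, ?_⟩
    beta_reduce
    rw [hi]
    refine ⟨by rw [b1]; exact r1.le, b2, b3, a4, b4.imp id fun ⟨m, hm, h'⟩ ↦ ⟨m, hm, ?_⟩⟩
    exact h'.trans (add_le_add_left (hC' ⟨q, rfl⟩) _)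

end Pool.Agent.Lib.ECM
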