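import Pool.Agent.Lib.ECM.Blue

/-! Finitely many analytic branches cover a curve (block BR, MP_0704bf_ag). -/

open Filter Topology Polynomial

namespace Pool.Agent.Lib.ECM

namespace MBR

theorem ev_swap (g : ℂ[X][X]) (s y : ℂ) :
    (Bivariate.swap g).evalEval s y = g.eval₂ (evalRingHom y) s := by
  rw [← coe_aevalAeval_eq_evalEval, Bivariate.aevalAeval_swap, coe_aevalAeval_eq_evalEval,
    eval₂_evalRingHom]

/-- the relation as a complex polynomial whose outer variable is the first coordinate -/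
theorem outer {f : ℚ[X][X]} (hf : f ≠ 0) :
    ∃ h : ℂ[X][X], h ≠ 0 ∧ ∀ t y, h.eval₂ (evalRingHom y) t = e2 f t y := by
  refine ⟨Bivariate.swap (f.map (mapRingHom (algebraMap ℚ ℂ))), ?_, fun t y ↦ ?_⟩
  · rw [Ne, EmbeddingLike.map_eq_zero_iff,
      Polynomial.map_eq_zero_iff (map_injective _ (algebraMap ℚ ℂ).injective)]
    exact hf
  · rw [← ev_swap, Bivariate.swap_swap_apply, ← eval₂_eval₂RingHom_apply, e2, eval_map]
    rfl

/-- a local parameter along an ultrafilter -/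
theorem param {ι : Type} (U : Ultrafilter ι) (t : ι → ℂ) (ht : ∀ c, ∀ᶠ i in U, t i ≠ c) :
    ∃ s : ι → ℂ, Tendsto s U (𝓝[≠] 0) ∧ ∀ f : ℚ[X][X], f ≠ 0 → ∃ g : ℂ[X][X], g ≠ 0 ∧
      ∀ i y, s i ≠ 0 → e2 f (t i) y = 0 → g.evalEval (s i) y = 0 := by
  by_cases hb : ∃ R : ℝ, ∀ᶠ i in U, ‖t i‖ ≤ R
  · obtain ⟨R, hR⟩ := hb
    obtain ⟨c, -, hc⟩ := (isCompact_closedBall (0 : ℂ) R).ultrafilter_le_nhds' (U.map t)
      (Ultrafilter.mem_map.2 (hR.mono fun i hi ↦ mem_closedBall_zero_iff.2 hi))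
    refine ⟨fun i ↦ t i - c, tendsto_nhdsWithin_iff.2 ⟨tendsto_sub_nhds_zero_iff.2 hc,
      (ht c).mono fun i hi ↦ sub_ne_zero.2 hi⟩, fun f hf ↦ ?_⟩
    obtain ⟨h, h0, hh⟩ := outer hf
    refine ⟨Bivariate.swap (taylor (C c) h), ?_, fun i y _ e ↦ ?_⟩
    · rwa [Ne, EmbeddingLike.map_eq_zero_iff, taylor_eq_zero]
    · rw [ev_swap, taylor_apply, eval₂_comp, eval₂_add, eval₂_X, eval₂_C, coe_evalRingHom, eval_C,
        sub_add_cancel, hh, e]
  · have hb' : Tendsto (fun i ↦ ‖t i‖) U atTop := tendsto_atTop.2 fun R ↦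
      (Ultrafilter.eventually_not.2 fun h ↦ hb ⟨R, h⟩).mono fun i hi ↦ (not_le.1 hi).le
    refine ⟨fun i ↦ (t i)⁻¹, tendsto_nhdsWithin_iff.2 ⟨?_,
      (ht 0).mono fun i hi ↦ inv_ne_zero hi⟩, fun f hf ↦ ?_⟩
    · rw [tendsto_zero_iff_norm_tendsto_zero]
      exact hb'.inv_tendsto_atTop.congr fun i ↦ (norm_inv _).symm
    obtain ⟨h, h0, hh⟩ := outer hf
    refine ⟨Bivariate.swap h.reverse, ?_, fun i y hi e ↦ ?_⟩
    · rwa [Ne, EmbeddingLike.map_eq_zero_iff, reverse_eq_zero]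
    · let _ := invertibleOfNonzero (inv_eq_zero.not.1 hi)
      beta_reduce
      rw [ev_swap, ← invOf_eq_inv, eval₂_reverse_eq_zero_iff, hh, e]

theorem pow_tendsto {e : ℕ} (he : 0 < e) : Tendsto (fun u : ℂ ↦ u ^ e) (𝓝[≠] 0) (𝓝[≠] 0) := by
  refine tendsto_nhdsWithin_iff.2 ⟨?_, eventually_mem_nhdsWithin.mono fun u hu ↦ pow_ne_zero _ hu⟩
  have := ((continuous_pow e).tendsto (0 : ℂ)).mono_left (nhdsWithin_le_nhds (s := {0}ᶜ))
  rwa [zero_pow he.ne'] at this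

/-- expansions with a common ramification index and a common pole order -/
theorem pui (hP : St_PUI) (g : Ch → ℂ[X][X]) (hg : ∀ m, g m ≠ 0) :
    ∃ (E n : ℕ) (k : Ch → ℕ) (ξ : ∀ m, Fin (k m) → ℂ → ℂ), 0 < E ∧
      (∀ m a, AnalyticAt ℂ (ξ m a) 0) ∧ ∀ᶠ u in 𝓝[≠] (0 : ℂ), ∀ m y,
        (g m).evalEval (u ^ E) y = 0 → ∃ a, y = ξ m a u / u ^ n := by
  choose E n k ξ hE ha h using fun m ↦ hP (g m) (hg m)
  have p : 0 < ∏ m, E m := Finset.prod_pos fun m _ ↦ hE m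
  choose e he using fun m ↦ Finset.dvd_prod_of_mem E (Finset.mem_univ m)
  have pe : ∀ m, 0 < e m := fun m ↦ Nat.pos_of_ne_zero fun z ↦ by
    rw [he m, z, mul_zero] at p
    exact lt_irrefl _ p
  choose r hr using fun m ↦ Nat.exists_eq_add_of_le (Finset.single_le_sum
    (f := fun m ↦ e m * n m) (fun _ _ ↦ Nat.zero_le _) (Finset.mem_univ m))
  refine ⟨∏ m, E m, ∑ m, e m * n m, k, fun m a u ↦ ξ m a (u ^ e m) * u ^ r m, p, fun m a ↦ ?_, ?_⟩
  · exact ((ha m a).comp_of_eq (analyticAt_id.pow _) (zero_pow (pe m).ne')).mul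
      (analyticAt_id.pow _)
  · refine eventually_all.2 fun m ↦ ?_
    filter_upwards [(pow_tendsto (pe m)).eventually (h m), eventually_mem_nhdsWithin]
      with u hu u0 y hy
    rw [he m, mul_comm, pow_mul] at hy
    obtain ⟨a, ha⟩ := hu y hy
    refine ⟨a, ?_⟩
    rw [ha, hr m, pow_add, pow_mul, mul_div_mul_right _ _ (pow_ne_zero _ u0)]

theorem root {ι : Type} {l : Filter ι} {s : ι → ℂ} (hs : Tendsto s l (𝓝[≠] 0)) {E : ℕ}
    (hE : 0 < E) : ∃ u : ι → ℂ, Tendsto u l (𝓝[≠] 0) ∧ ∀ i, u i ^ E = s i := by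
  choose u hu using fun i ↦ IsAlgClosed.exists_pow_nat_eq (s i) hE
  obtain ⟨h1, h2⟩ := tendsto_nhdsWithin_iff.1 hs
  refine ⟨u, tendsto_nhdsWithin_iff.2 ⟨?_, h2.mono fun i hi e ↦ hi ?_⟩, hu⟩
  · rw [NormedAddGroup.tendsto_nhds_zero] at h1 ⊢
    intro ε hε
    filter_upwards [h1 _ (pow_pos hε E)] with i hi
    rw [← hu, norm_pow] at hi
    exact lt_of_pow_lt_pow_left₀ E hε.le hi
  · rw [Set.mem_singleton_iff] at e ⊢
    rw [← hu, e, zero_pow hE.ne']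

/-- the pole order can be made minimal -/
theorem prim (n : ℕ) : ∀ κ : Ch → ℂ → ℂ, (∀ m, AnalyticAt ℂ (κ m) 0) →
    ∃ (n' : ℕ) (κ' : Ch → ℂ → ℂ), (∀ m, AnalyticAt ℂ (κ' m) 0) ∧ (n' = 0 ∨ ∃ m, κ' m 0 ≠ 0) ∧
      ∀ u : ℂ, u ≠ 0 → ∀ m, κ m u / u ^ n = κ' m u / u ^ n' := by
  induction n with
  | zero => exact fun κ h ↦ ⟨0, κ, h, Or.inl rfl, fun _ _ _ ↦ rfl⟩
  | succ n ih =>
    intro κ h
    by_cases h0 : ∃ m, κ m 0 ≠ 0
    · exact ⟨n + 1, κ, h, Or.inr h0, fun _ _ _ ↦ rfl⟩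
    · obtain ⟨n', κ', a, b, c⟩ := ih (fun m ↦ dslope (κ m) 0) fun m ↦
        (h m).elim fun p hp ↦ ⟨_, hp.has_fpower_series_dslope_fslope⟩
      refine ⟨n', κ', a, b, fun u hu m ↦ ?_⟩
      have z : κ m 0 = 0 := not_not.1 fun z ↦ h0 ⟨m, z⟩
      rw [← c u hu m, dslope_of_ne _ hu, slope_def_field, z, sub_zero, sub_zero, div_div, pow_succ']

theorem mero {φ : ℂ → Ch → ℂ} (h : ∀ m, MeromorphicAt (fun u ↦ φ u m) 0)
    (f : MvPolynomial Ch ℚ) : MeromorphicAt (fun u ↦ MvPolynomial.aeval (φ u) f) 0 := by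
  induction f using MvPolynomial.induction_on with
  | C a => simpa only [MvPolynomial.aeval_C] using MeromorphicAt.const _ _
  | add p q hp hq => simpa only [map_add] using hp.fun_add hq
  | mul_X p i hp => simpa only [map_mul, MvPolynomial.aeval_X] using hp.fun_mul (h i)

/-- a net of points of the curve which leaves every point runs along a branch -/
theorem main (hP : St_PUI) {P : Id} (pl : Pl P) {ι : Type} (U : Ultrafilter ι) (x : ι → Ch → ℂ)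
    (hx : ∀ i, x i ∈ Cv P) (hne : ∀ p, ∀ᶠ i in U, x i ≠ p) :
    ∃ κ n, Br P κ n ∧ ∃ u : ι → ℂ, Tendsto u U (𝓝[≠] 0) ∧
      ∀ᶠ i in U, x i = fun m ↦ κ m (u i) / u i ^ n := by
  obtain ⟨j, hj⟩ : ∃ j, ∀ c, ∀ᶠ i in U, x i j ≠ c := by
    by_contra hn
    have : ∀ j, ∃ c, ∀ᶠ i in U, x i j = c := fun j ↦ by
      by_contra h
      exact hn ⟨j, fun c ↦ Ultrafilter.eventually_not.2 fun e ↦ h ⟨c, e⟩⟩
    choose c hc using this
    obtain ⟨i, h1, h2⟩ := ((hne c).and (eventually_all.2 hc)).exists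
    exact h1 (funext h2)
  obtain ⟨s, hs, hg⟩ := param U (fun i ↦ x i j) hj
  choose f f0 hf using pl j
  choose g g0 hg using fun m ↦ hg (f m) (f0 m)
  obtain ⟨E, n, k, ξ, hE, ha, h⟩ := pui hP g g0
  obtain ⟨u, hu, hus⟩ := root hs hE
  have key : ∀ m, ∃ a, ∀ᶠ i in U, x i m = ξ m a (u i) / u i ^ n := fun m ↦ by
    rw [← Ultrafilter.eventually_exists_iff]
    filter_upwards [hu.eventually h, hs.eventually eventually_mem_nhdsWithin] with i h1 h2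
    exact h1 m _ (hus i ▸ hg m i _ h2 (hf m _ (hx i)))
  choose a ha' using key
  obtain ⟨n', κ, an, pr, hκ⟩ := prim n (fun m ↦ ξ m (a m)) fun m ↦ ha m _
  have hxu : ∀ᶠ i in U, x i = fun m ↦ κ m (u i) / u i ^ n' := by
    filter_upwards [eventually_all.2 ha', hu.eventually eventually_mem_nhdsWithin] with i h1 h2
    exact funext fun m ↦ (h1 m).trans (hκ _ h2 m)
  have me : ∀ m, MeromorphicAt (fun z : ℂ ↦ κ m z / z ^ n') 0 := fun m ↦
    (an m).meromorphicAt.fun_div ((MeromorphicAt.id 0).fun_pow _)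
  refine ⟨κ, n', ⟨an, ?_, pr, fun p ↦ ?_⟩, u, hu, hxu⟩
  · obtain ⟨S, hS⟩ := IsNoetherian.noetherian P
    have : ∀ q ∈ S, ∀ᶠ z in 𝓝[≠] (0 : ℂ),
        MvPolynomial.aeval (fun m ↦ κ m z / z ^ n') q = 0 := fun q hq ↦
      (mero me q).frequently_zero_iff_eventuallyEq_zero.1 (hu.frequently (Eventually.frequently
        (hxu.mono fun i hi ↦ hi ▸ hx i q (hS ▸ Submodule.subset_span hq))))
    filter_upwards [(eventually_all_finset S).2 this] with z hz q hq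
    exact (hS ▸ Ideal.span_le.2 hz :
      P ≤ RingHom.ker (MvPolynomial.aeval (R := ℚ) fun m ↦ κ m z / z ^ n')) hq
  · rcases ((me j).fun_sub (MeromorphicAt.const (p j) 0)).eventually_eq_zero_or_eventually_ne_zero
      with h0 | h0
    · obtain ⟨i, h1, h2, h3⟩ := ((hj (p j)).and (hxu.and (hu.eventually h0))).exists
      exact (h1 ((congrFun h2 j).trans (sub_eq_zero.1 h3))).elim
    · exact h0.mono fun z hz e ↦ hz (sub_eq_zero.2 (congrFun e j))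

end MBR

theorem st_BR (hP : St_PUI) : St_BR := by
  classical
  intro P pl ρ hρ
  by_contra hn
  have : ∀ i : Finset {b : (Ch → ℂ → ℂ) × ℕ // Br P b.1 b.2} × Finset (Ch → ℂ), ∃ x ∈ Cv P,
      x ∉ i.2 ∧ ∀ b ∈ i.1, ∀ u : ℂ, u ≠ 0 → ‖u‖ < ρ b.1 → x ≠ fun m ↦ b.1.1 m u / u ^ b.1.2 := by
    intro i
    by_contra h
    refine hn ⟨i.1.image Subtype.val, i.2, fun b hb ↦ ?_, fun x hx hF ↦ ?_⟩
    · obtain ⟨c, -, rfl⟩ := Finset.mem_image.1 hb
      exact c.2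
    · by_contra h'
      exact h ⟨x, hx, hF, fun b hb u u0 hu e ↦
        h' ⟨b.1, Finset.mem_image_of_mem _ hb, u, u0, hu, e⟩⟩
  choose x hx hF hb using this
  obtain ⟨U, hU⟩ := Ultrafilter.exists_le (atTop : Filter
    (Finset {b : (Ch → ℂ → ℂ) × ℕ // Br P b.1 b.2} × Finset (Ch → ℂ)))
  obtain ⟨κ, n, br, u, hu, hxu⟩ := MBR.main hP pl U x hx fun p ↦
    ((eventually_ge_atTop (∅, {p})).filter_mono hU).mono fun i hi e ↦
      hF i (hi.2 (Finset.mem_singleton.2 e))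
  obtain ⟨h1, h2⟩ := tendsto_nhdsWithin_iff.1 hu
  obtain ⟨i, a, b, c, d⟩ := (hxu.and (h2.and
    ((NormedAddGroup.tendsto_nhds_zero.1 h1 _ (hρ (κ, n))).and
      ((eventually_ge_atTop ({⟨(κ, n), br⟩}, ∅)).filter_mono hU)))).exists
  exact hb i _ (d.1 (Finset.mem_singleton_self _)) _ b c a

end Pool.Agent.Lib.ECM
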