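import Pool.Agent.Lib.ECM.Blue

/-! Branches are uncountable; countable hypersurface sections of the curve are finite. -/

open Filter Topology Metric

noncomputable section

namespace Pool.Agent.Lib.ECM

namespace MCF

theorem rad {p : ℂ → Prop} (h : ∀ᶠ u in 𝓝[≠] (0 : ℂ), p u) :
    ∃ ε : ℝ, 0 < ε ∧ ∀ u, u ≠ 0 → ‖u‖ < ε → p u := by
  obtain ⟨ε, h0, h1⟩ := Metric.eventually_nhds_iff.1 (eventually_nhdsWithin_iff.1 h)
  exact ⟨ε, h0, fun u a b => h1 (by simpa using b) a⟩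

theorem unc (P : Id) (κ : Ch → ℂ → ℂ) (n : ℕ) (hb : Br P κ n) (ρ : ℝ) (hρ : 0 < ρ) :
    ¬ ((fun u m ↦ κ m u / u ^ n) '' {u : ℂ | u ≠ 0 ∧ ‖u‖ < ρ}).Countable := by
  intro hc
  have ha : ∀ᶠ u in 𝓝 (0 : ℂ), ∀ m, AnalyticAt ℂ (κ m) u :=
    eventually_all.2 fun m => (hb.an m).eventually_analyticAt
  obtain ⟨r, r0, hr⟩ := rad (ha.filter_mono nhdsWithin_le_nhds)
  set s := min r ρ with hs
  have s0 : 0 < s := lt_min r0 hρ
  let ψ : ℝ → Ch → ℂ := fun t m => κ m t / (t : ℂ) ^ n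
  have k : ∀ t ∈ Set.Ioo 0 s, (t : ℂ) ≠ 0 ∧ ‖(t : ℂ)‖ < s := fun t ht =>
    ⟨by exact_mod_cast ht.1.ne', by rw [Complex.norm_real, Real.norm_eq_abs, abs_of_pos ht.1]; exact ht.2⟩
  have hψ : ContinuousOn ψ (Set.Ioo 0 s) := fun t ht =>
    (continuousAt_pi.2 fun m =>
      (((hr t (k t ht).1 ((k t ht).2.trans_le (min_le_left _ _)) m).continuousAt.comp
        (f := fun t : ℝ => (t : ℂ)) Complex.continuous_ofReal.continuousAt).div
        (Complex.continuous_ofReal.pow n).continuousAt (pow_ne_zero n (k t ht).1))).continuousWithinAt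
  have sub : ψ '' Set.Ioo 0 s ⊆ (fun u m ↦ κ m u / u ^ n) '' {u : ℂ | u ≠ 0 ∧ ‖u‖ < ρ} := by
    rintro _ ⟨t, ht, rfl⟩
    exact ⟨t, ⟨(k t ht).1, (k t ht).2.trans_le (min_le_right _ _)⟩, rfl⟩
  have one := hc.isTotallyDisconnected _ sub (isPreconnected_Ioo.image ψ hψ)
  obtain ⟨ε, ε0, hε⟩ := rad (hb.nc (ψ (s / 2)))
  have m0 : 0 < min ε s := lt_min ε0 s0
  have t1 : min ε s / 2 ∈ Set.Ioo 0 s := ⟨by positivity, by linarith [min_le_right ε s]⟩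
  have t2 : s / 2 ∈ Set.Ioo 0 s := ⟨by positivity, by linarith⟩
  refine hε (min ε s / 2 : ℝ) (k _ t1).1 ?_ (one ⟨_, t1, rfl⟩ ⟨_, t2, rfl⟩)
  rw [Complex.norm_real, Real.norm_eq_abs, abs_of_pos t1.1]
  linarith [min_le_left ε s]

theorem cv_sup (P : Id) (f : MvPolynomial Ch ℚ) :
    Cv (P ⊔ Ideal.span {f}) = {x ∈ Cv P | MvPolynomial.aeval x f = 0} := by
  ext x
  refine ⟨fun h => ⟨fun g hg => h g (Ideal.mem_sup_left hg),
    h f (Ideal.mem_sup_right (Ideal.mem_span_singleton_self f))⟩, fun h g hg => ?_⟩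
  obtain ⟨a, ha, b, hb, rfl⟩ := Submodule.mem_sup.1 hg
  obtain ⟨c, rfl⟩ := Ideal.mem_span_singleton'.1 hb
  rw [map_add, map_mul, h.1 a ha, h.2, mul_zero, add_zero]

end MCF

theorem st_CF (hBR : St_BR) : St_CF := by
  refine ⟨MCF.unc, fun P hP f hc => ?_⟩
  rw [← MCF.cv_sup] at hc ⊢
  have hP' : Pl (P ⊔ Ideal.span {f}) := fun i j => by
    obtain ⟨g, h0, h1⟩ := hP i j
    exact ⟨g, h0, fun x hx => h1 x fun a ha => hx a (Ideal.mem_sup_left ha)⟩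
  obtain ⟨T, F, hT, hF⟩ := hBR _ hP' (fun _ => 1) fun _ => one_pos
  refine F.finite_toSet.subset fun x hx => ?_
  by_contra hn
  obtain ⟨b, hb, -⟩ := hF x hx hn
  obtain ⟨ε, ε0, hε⟩ := MCF.rad (hT b hb).mem
  refine MCF.unc _ _ _ (hT b hb) ε ε0 (hc.mono ?_)
  rintro _ ⟨u, hu, rfl⟩
  exact hε u hu.1 hu.2

end Pool.Agent.Lib.ECM
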