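import Pool.Agent.Lib.ECM.CMK

/-! Binary quadratic forms and singular moduli: all primitive forms of one discriminant give
conjugate invariants, and every conjugate comes from a form with the same field. -/

open UpperHalfPlane
open scoped Real MatrixGroups

namespace Pool.Agent.Lib.ECM.CM

open Pool.Agent.Lib.MP_0704bf_ag Pool.Agent.Lib.helper6 Pool.Agent.Lib.ZP3

/-- `t` is a root of the form `(a, b, c)` -/
def QF (a b c : ℤ) (t : ℂ) : Prop := (a : ℂ) * t ^ 2 + b * t + c = 0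

/-- no prime divides the three coefficients -/
def Prim (a b c : ℤ) : Prop := ∀ p : ℕ, p.Prime → (p : ℤ) ∣ a → (p : ℤ) ∣ b → ¬ (p : ℤ) ∣ c

/-- `τ` is a root of an integral form of discriminant `-D` -/
def Fm (D : ℕ) (τ : ℍ) : Prop := ∃ a b c : ℤ, 0 < a ∧ 4 * a * c - b ^ 2 = D ∧ QF a b c τ

/-- `τ` is a root of a primitive integral form of discriminant `-D` -/
def Disc (D : ℕ) (τ : ℍ) : Prop :=
  ∃ a b c : ℤ, 0 < a ∧ 4 * a * c - b ^ 2 = D ∧ QF a b c τ ∧ Prim a b c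

variable {a b c : ℤ} {D : ℕ} {τ τ' : ℍ}

theorem Disc.fm (h : Disc D τ) : Fm D τ := by
  obtain ⟨a, b, c, h1, h2, h3, -⟩ := h
  exact ⟨a, b, c, h1, h2, h3⟩

theorem Fm.isCM (h : Fm D τ) : IsCM τ := by
  obtain ⟨a, b, c, h1, -, h3⟩ := h
  exact ⟨a, b, c, h1.ne', h3⟩

theorem Fm.int (h : Fm D τ) : IsIntegral ℤ (jInv τ) := IsCM.isIntegral h.isCM

theorem QF.re_im (h : QF a b c τ) :
    2 * a * τ.re = -b ∧ (2 * a * τ.im) ^ 2 = ((4 * a * c - b ^ 2 : ℤ) : ℝ) := by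
  have him := τ.im_pos
  have h1 := congrArg Complex.im h
  have h2 := congrArg Complex.re h
  simp only [pow_two, Complex.add_im, Complex.mul_im, Complex.intCast_re, Complex.intCast_im,
    Complex.mul_re, coe_re, coe_im, zero_mul, add_zero, Complex.zero_im, Complex.add_re, sub_zero,
    Complex.zero_re] at h1 h2
  have hb : 2 * a * τ.re = -b := by
    apply mul_right_cancel₀ him.ne'
    linear_combination h1
  refine ⟨hb, ?_⟩
  push_cast
  linear_combination -4 * a * h2 + (2 * a * τ.re + b) * hb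

theorem Fm.pos (h : Fm D τ) : 0 < D := by
  obtain ⟨a, b, c, h1, h2, h3⟩ := h
  have h4 := h3.re_im.2
  have h5 : (0 : ℝ) < a := by exact_mod_cast h1
  have h6 : 0 < (2 * a * τ.im) ^ 2 := by have := τ.im_pos; positivity
  rw [h4, h2] at h6
  exact_mod_cast h6

theorem QF.im_eq (h : QF a b c τ) (ha : 0 < a) (hD : 4 * a * c - b ^ 2 = D) :
    2 * a * τ.im = √D := by
  have h4 := h.re_im.2
  have h5 : (0 : ℝ) < a := by exact_mod_cast ha
  rw [hD, Int.cast_natCast] at h4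
  rw [← h4, Real.sqrt_sq (by have := τ.im_pos; positivity)]

theorem QF.ext {c' : ℤ} (h : QF a b c τ) (h' : QF a b c' τ') (ha : 0 < a)
    (hD : 4 * a * c - b ^ 2 = D) (hD' : 4 * a * c' - b ^ 2 = D) : τ = τ' := by
  have h5 : (2 * a : ℝ) ≠ 0 := by exact_mod_cast (by omega : 2 * a ≠ 0)
  refine UpperHalfPlane.ext (Complex.ext (mul_left_cancel₀ h5 ?_) (mul_left_cancel₀ h5 ?_))
  · exact h.re_im.1.trans h'.re_im.1.symm
  · exact (h.im_eq ha hD).trans (h'.im_eq ha hD').symm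

theorem QF.mob {p q r s : ℤ} {t t' : ℂ} (h : QF a b c t') (hm : Mob p q r s t t') :
    QF (a * p ^ 2 + b * p * r + c * r ^ 2) (2 * a * p * q + b * (p * s + q * r) + 2 * c * r * s)
      (a * q ^ 2 + b * q * s + c * s ^ 2) t := by
  unfold QF Mob at *
  push_cast
  linear_combination (r * t + s) ^ 2 * h - (a * (t' * (r * t + s) + (p * t + q)) + b * (r * t + s)) * hm

theorem form_pos (ha : 0 < a) (hD : 0 < 4 * a * c - b ^ 2) {p r : ℤ} (h : p ≠ 0 ∨ r ≠ 0) :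
    0 < a * p ^ 2 + b * p * r + c * r ^ 2 := by
  have h1 : 0 < 4 * a * (a * p ^ 2 + b * p * r + c * r ^ 2) := by
    rw [show 4 * a * (a * p ^ 2 + b * p * r + c * r ^ 2) =
      (2 * a * p + b * r) ^ 2 + (4 * a * c - b ^ 2) * r ^ 2 by ring]
    rcases eq_or_ne r 0 with rfl | hr
    · have : p ≠ 0 := h.resolve_right (by simp)
      simp only [mul_zero, add_zero, ne_eq, OfNat.ofNat_ne_zero, not_false_eq_true, zero_pow]
      positivity
    · positivity
  exact (pos_iff_pos_of_mul_pos h1).1 (by omega)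

theorem Prim.mob {p q r s : ℤ} (h : Prim a b c) (hd : p * s - q * r = 1) :
    Prim (a * p ^ 2 + b * p * r + c * r ^ 2) (2 * a * p * q + b * (p * s + q * r) + 2 * c * r * s)
      (a * q ^ 2 + b * q * s + c * s ^ 2) := by
  rintro l hl ⟨u, hu⟩ ⟨v, hv⟩ ⟨w, hw⟩
  refine h l hl ⟨u * s ^ 2 - v * s * r + w * r ^ 2, ?_⟩
    ⟨-2 * u * s * q + v * (p * s + q * r) - 2 * w * r * p, ?_⟩ ⟨u * q ^ 2 - v * q * p + w * p ^ 2, ?_⟩
  · linear_combination s ^ 2 * hu - s * r * hv + r ^ 2 * hw - a * (p * s - q * r + 1) * hd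
  · linear_combination -2 * s * q * hu + (p * s + q * r) * hv - 2 * r * p * hw -
      b * (p * s - q * r + 1) * hd
  · linear_combination q ^ 2 * hu - q * p * hv + p ^ 2 * hw - c * (p * s - q * r + 1) * hd

theorem ne_of_det {p q r s : ℤ} (hd : p * s - q * r = 1) : p ≠ 0 ∨ r ≠ 0 := by
  by_contra! h
  simp [h.1, h.2] at hd

theorem Fm.rel (h : Fm D τ') (hr : Rel 1 τ τ') : Fm D τ := by
  have hD := h.pos
  obtain ⟨a, b, c, h1, h2, h3⟩ := h
  obtain ⟨p, q, r, s, hd, hm⟩ := hr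
  rw [Nat.cast_one] at hd
  refine ⟨_, _, _, form_pos h1 (by omega) (ne_of_det hd), ?_, h3.mob hm⟩
  linear_combination h2 + (4 * a * c - b ^ 2) * (p * s - q * r + 1) * hd

theorem Disc.rel (h : Disc D τ') (hr : Rel 1 τ τ') : Disc D τ := by
  have hD := h.fm.pos
  obtain ⟨a, b, c, h1, h2, h3, h4⟩ := h
  obtain ⟨p, q, r, s, hd, hm⟩ := hr
  rw [Nat.cast_one] at hd
  refine ⟨_, _, _, form_pos h1 (by omega) (ne_of_det hd), ?_, h3.mob hm, h4.mob hd⟩
  linear_combination h2 + (4 * a * c - b ^ 2) * (p * s - q * r + 1) * hd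

theorem exists_disc (h : IsCM τ) : ∃ D, Disc D τ := by
  obtain ⟨a, b, c, ha, h⟩ := h
  have key : ∀ (n : ℕ) (a b c : ℤ), 0 < a → a ≤ n → QF a b c τ → ∃ D, Disc D τ := by
    intro n
    induction n with
    | zero => intro a b c h1 h2; omega
    | succ n ih =>
      intro a b c h1 h2 h3
      by_cases hp : Prim a b c
      · have h4 := h3.re_im.2
        have h5 : 0 ≤ 4 * a * c - b ^ 2 := by
          have := sq_nonneg (2 * a * τ.im)
          rw [h4] at this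
          exact_mod_cast this
        exact ⟨_, a, b, c, h1, (Int.toNat_of_nonneg h5).symm, h3, hp⟩
      · simp only [Prim, not_forall, not_not] at hp
        obtain ⟨l, hl, ⟨u, rfl⟩, ⟨v, rfl⟩, ⟨w, rfl⟩⟩ := hp
        have h4 : (2 : ℤ) ≤ l := by exact_mod_cast hl.two_le
        have h5 : 0 < u := (pos_iff_pos_of_mul_pos h1).1 (by omega)
        refine ih u v w h5 (by push_cast at h2; nlinarith) ?_
        have h6 : (l : ℂ) ≠ 0 := by exact_mod_cast hl.ne_zero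
        apply mul_left_cancel₀ h6
        unfold QF at h3
        push_cast at h3
        linear_combination h3
  rcases lt_or_gt_of_ne ha with h1 | h1
  · refine key (-a).toNat (-a) (-b) (-c) (by omega) (by omega) ?_
    unfold QF
    push_cast
    linear_combination -h
  · exact key a.toNat a b c h1 (by omega) h

/-- coefficients of a reduced form -/
theorem QF.red (h : QF a b c τ) (ha : 0 < a) (hD : 4 * a * c - b ^ 2 = D)
    (hτ : τ ∈ ModularGroup.fd) : |b| ≤ a ∧ 3 * a ^ 2 ≤ D := by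
  obtain ⟨h1, h2⟩ := h.re_im
  have h3 := ModularGroup.three_le_four_mul_im_sq_of_mem_fd hτ
  have h4 := abs_le.1 hτ.2
  have h5 : (0 : ℝ) < a := by exact_mod_cast ha
  rw [hD] at h2
  constructor
  · have : |(b : ℝ)| ≤ a := abs_le.2 ⟨by nlinarith [h4.2], by nlinarith [h4.1]⟩
    exact_mod_cast this
  · have : 3 * (a : ℝ) ^ 2 ≤ ((D : ℤ) : ℝ) := by nlinarith [sq_nonneg (a : ℝ)]
    exact_mod_cast this

theorem finite_red (D : ℕ) : {τ : ℍ | τ ∈ ModularGroup.fd ∧ Fm D τ}.Finite := by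
  have key : ∀ τ : {τ : ℍ | τ ∈ ModularGroup.fd ∧ Fm D τ}, ∃ u : ℤ × ℤ × ℤ, 0 < u.1 ∧
      4 * u.1 * u.2.2 - u.2.1 ^ 2 = D ∧ QF u.1 u.2.1 u.2.2 τ.1 := fun τ ↦ by
    obtain ⟨a, b, c, h⟩ := τ.2.2
    exact ⟨(a, b, c), h⟩
  choose u h1 h2 h3 using key
  refine Set.finite_coe_iff.1 (Finite.of_injective (β := Set.Icc (-(D : ℤ), -(D : ℤ)) (D, D))
    (fun τ ↦ ⟨((u τ).1, (u τ).2.1), ?_⟩) fun τ τ' e ↦ ?_)
  · obtain ⟨h4, h5⟩ := (h3 τ).red (h1 τ) (h2 τ) τ.2.1
    have h6 := h1 τ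
    have h7 : (u τ).1 ≤ D := by nlinarith
    have h8 := abs_le.1 h4
    simp only [Set.mem_Icc, Prod.mk_le_mk]
    omega
  · simp only [Subtype.mk.injEq, Prod.mk.injEq] at e
    exact Subtype.ext ((h3 τ).ext (e.1 ▸ e.2 ▸ h3 τ') (h1 τ) (h2 τ) (e.1 ▸ e.2 ▸ h2 τ'))

theorem finite_j (D : ℕ) : (jInv '' {τ | Fm D τ}).Finite := by
  refine ((finite_red D).image jInv).subset ?_
  rintro _ ⟨τ, h, rfl⟩
  obtain ⟨τ', h1, h2⟩ := j_surj (jInv τ)
  exact ⟨τ', ⟨h1, h.rel (j_inj h2)⟩, h2⟩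

/-- a primitive form represents a number prime to any given one -/
theorem Prim.exists_coprime (h : Prim a b c) {B : ℕ} (hB : B ≠ 0) : ∃ p q r s : ℤ,
    p * s - q * r = 1 ∧ ∀ l : ℕ, l.Prime → l ∣ B → ¬ (l : ℤ) ∣ a * p ^ 2 + b * p * r + c * r ^ 2 := by
  classical
  let x : ℕ := ∏ l ∈ B.primeFactors with (fun l : ℕ ↦ (l : ℤ) ∣ a ∧ ¬ (l : ℤ) ∣ c) l, l
  let y : ℕ := ∏ l ∈ B.primeFactors with (fun l : ℕ ↦ ¬ (l : ℤ) ∣ a) l, l
  have key : ∀ (P : ℕ → Prop) [DecidablePred P] (l : ℕ), l.Prime →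
      (l ∣ ∏ m ∈ B.primeFactors with P m, m ↔ l ∣ B ∧ P l) := by
    intro P _ l hl
    rw [hl.prime.dvd_finsetProd_iff]
    constructor
    · rintro ⟨m, hm, h1⟩
      obtain ⟨h2, h3⟩ := Finset.mem_filter.1 hm
      obtain rfl := (Nat.prime_dvd_prime_iff_eq hl (Nat.prime_of_mem_primeFactors h2)).1 h1
      exact ⟨Nat.dvd_of_mem_primeFactors h2, h3⟩
    · rintro ⟨h1, h2⟩
      exact ⟨l, Finset.mem_filter.2 ⟨Nat.mem_primeFactors.2 ⟨hl, h1, hB⟩, h2⟩, dvd_rfl⟩
  have hx : ∀ l : ℕ, l.Prime → ((l : ℤ) ∣ x ↔ l ∣ B ∧ (l : ℤ) ∣ a ∧ ¬ (l : ℤ) ∣ c) :=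
    fun l hl ↦ Int.natCast_dvd_natCast.trans (key _ l hl)
  have hy : ∀ l : ℕ, l.Prime → ((l : ℤ) ∣ y ↔ l ∣ B ∧ ¬ (l : ℤ) ∣ a) :=
    fun l hl ↦ Int.natCast_dvd_natCast.trans (key _ l hl)
  have hc : IsCoprime (x : ℤ) y := by
    rw [Nat.isCoprime_iff_coprime]
    refine Nat.coprime_of_dvd fun l hl h1 h2 ↦ ?_
    exact ((hy l hl).1 (Int.natCast_dvd_natCast.2 h2)).2
      ((hx l hl).1 (Int.natCast_dvd_natCast.2 h1)).2.1
  obtain ⟨s, q, hs⟩ := hc
  refine ⟨x, -q, y, s, by linear_combination hs, fun l hl h1 h2 ↦ ?_⟩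
  have hp := Nat.prime_iff_prime_int.1 hl
  by_cases ha : (l : ℤ) ∣ a
  · have h3 : ¬ (l : ℤ) ∣ y := fun h ↦ ((hy l hl).1 h).2 ha
    have h4 : (l : ℤ) ∣ (b * x + c * y) * y := by
      have := h2.sub (ha.mul_right (x ^ 2))
      rwa [show a * x ^ 2 + b * x * y + c * y ^ 2 - a * x ^ 2 = (b * x + c * y) * y by ring] at this
    have h5 := (hp.dvd_or_dvd h4).resolve_right h3
    by_cases hc : (l : ℤ) ∣ c
    · have h6 := (dvd_add_left (hc.mul_right (y : ℤ))).1 h5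
      exact (hp.dvd_or_dvd h6).elim (fun h7 ↦ h l hl ha h7 hc) fun h7 ↦ ((hx l hl).1 h7).2.2 hc
    · have h6 := (dvd_add_right (((hx l hl).2 ⟨h1, ha, hc⟩).mul_left b)).1 h5
      exact (hp.dvd_or_dvd h6).elim hc h3
  · have h3 := (hy l hl).2 ⟨h1, ha⟩
    have h4 : (l : ℤ) ∣ a * x ^ 2 := by
      have := h2.sub (h3.mul_left (b * x + c * y))
      rwa [show a * x ^ 2 + b * x * y + c * y ^ 2 - (b * x + c * y) * y = a * x ^ 2 by ring] at this
    exact (hp.dvd_or_dvd h4).elim ha fun h5 ↦ ha ((hx l hl).1 (hp.dvd_of_dvd_pow h5)).2.1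

theorem exists_mob {p q r s : ℤ} (hd : p * s - q * r = 1) (τ : ℍ) :
    ∃ τ' : ℍ, Mob p q r s τ τ' :=
  ⟨_, Hk.mob_SL ⟨!![p, q; r, s], by rw [Matrix.det_fin_two_of]; exact hd⟩ τ⟩

theorem j_principal {b c b' c' : ℤ} (h : QF 1 b c τ) (h' : QF 1 b' c' τ')
    (hD : 4 * 1 * c - b ^ 2 = D) (hD' : 4 * 1 * c' - b' ^ 2 = D) : jInv τ = jInv τ' := by
  have h1 : Even (b - b') := by
    have h2 : Even (b ^ 2 - b' ^ 2) := ⟨2 * (c - c'), by linear_combination hD' - hD⟩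
    simpa [Int.even_sub, Int.even_pow] using h2
  obtain ⟨k, hk⟩ := h1
  refine (Hk.j_mob (a := 1) (b := k) (c := 0) (d := 1) (by norm_num) ?_).symm
  have h3 := h.re_im.1
  have h4 := h'.re_im.1
  have h5 := (h.im_eq one_pos hD).trans (h'.im_eq one_pos hD').symm
  have h6 : (b : ℝ) - b' = k + k := by exact_mod_cast hk
  push_cast at h3 h4 h5
  apply Complex.ext
  · simp
    linarith
  · simp
    linarith

/-- all primitive forms of one discriminant give conjugate singular moduli -/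
theorem Disc.conj (h : Disc D τ) (h' : Disc D τ') : IsConjRoot ℚ (jInv τ) (jInv τ') := by
  obtain ⟨B, hB, hK⟩ := conj_of_kron (finite_j D) (by rintro _ ⟨τ, h, rfl⟩; exact h.int)
  have chain : ∀ n : ℕ, n ≠ 0 → (∀ l : ℕ, l.Prime → l ∣ B → ¬ l ∣ n) → ∀ (b c : ℤ) (τ : ℍ),
      4 * n * c - b ^ 2 = D → QF n b c τ → ∃ (b c : ℤ) (τ0 : ℍ), 4 * 1 * c - b ^ 2 = D ∧
        QF 1 b c τ0 ∧ IsConjRoot ℚ (jInv τ) (jInv τ0) := by
    intro n
    induction n using induction_on_primes with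
    | zero => exact fun h ↦ absurd rfl h
    | one => exact fun _ _ b c τ h1 h2 ↦ ⟨b, c, τ, h1, h2, IsConjRoot.refl⟩
    | prime_mul l n hl ih =>
      intro h0 h1 b c τ h2 h3
      have hn : n ≠ 0 := right_ne_zero_of_mul h0
      have h4 : 4 * n * (l * c) - b ^ 2 = D := by push_cast at h2; linear_combination h2
      have h5 : QF n b (l * c) (tr (l, 0, 1) τ) := by
        unfold QF at h3 ⊢
        rw [coe_p hl]
        push_cast at h3 ⊢
        linear_combination l * h3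
      obtain ⟨b0, c0, τ0, h6, h7, h8⟩ := ih hn (fun m hm h9 h10 ↦ h1 m hm h9 (h10.mul_left l)) _ _ _ h4 h5
      have h9 : Fm D τ := ⟨_, b, c, by positivity, h2, h3⟩
      have h10 : Fm D (tr (l, 0, 1) τ) := ⟨_, b, _, by positivity, h4, h5⟩
      exact ⟨b0, c0, τ0, h6, h7, (hK l hl (fun h ↦ h1 l hl h (dvd_mul_right l n)) _ ⟨_, h9, rfl⟩ _
        ⟨_, h10, rfl⟩ (kron hl h9.int)).trans h8⟩
  have key : ∀ τ, Disc D τ → ∃ (b c : ℤ) (τ0 : ℍ), 4 * 1 * c - b ^ 2 = D ∧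
      QF 1 b c τ0 ∧ IsConjRoot ℚ (jInv τ) (jInv τ0) := by
    intro τ h
    have hD := h.fm.pos
    obtain ⟨a, b, c, h1, h2, h3, h4⟩ := h
    obtain ⟨p, q, r, s, hd, h5⟩ := h4.exists_coprime hB
    obtain ⟨τ1, hm⟩ := exists_mob (p := s) (q := -q) (r := -r) (s := p) (by linear_combination hd) τ
    have hm' : Mob p q r s τ1 τ := by simpa using hm.symm
    have h6 := form_pos h1 (by omega : 0 < 4 * a * c - b ^ 2) (ne_of_det hd)
    have h7 := h3.mob hm'
    obtain ⟨n, hn⟩ := Int.eq_ofNat_of_zero_le h6.le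
    rw [Hk.j_mob hd hm']
    refine chain n (by omega) (fun l hl h8 h9 ↦ h5 l hl h8 (hn ▸ Int.natCast_dvd_natCast.2 h9)) _ _ τ1
      ?_ (hn ▸ h7)
    rw [← hn]
    linear_combination h2 + (4 * a * c - b ^ 2) * (p * s - q * r + 1) * hd
  obtain ⟨b, c, τ0, h1, h2, h3⟩ := key τ h
  obtain ⟨b', c', τ1, h4, h5, h6⟩ := key τ' h'
  exact h3.trans (j_principal h2 h5 h1 h4 ▸ h6.symm)

/-- multipliers of the lattice spanned by `1` and `t` -/
def Mu (t ν : ℂ) : Prop := ∃ A B C E : ℤ, Mob A B C E t t ∧ ν = A - C * t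

theorem Mu.sub {t x y : ℂ} (hx : Mu t x) (hy : Mu t y) : Mu t (x - y) := by
  obtain ⟨A, B, C, E, h, rfl⟩ := hx
  obtain ⟨A', B', C', E', h', rfl⟩ := hy
  exact ⟨_, _, _, _, h.sub h', by push_cast; ring⟩

theorem Mu.mul {t x y : ℂ} (hx : Mu t x) (hy : Mu t y) : Mu t (x * y) := by
  obtain ⟨A, B, C, E, h, rfl⟩ := hx
  obtain ⟨A', B', C', E', h', rfl⟩ := hy
  exact ⟨_, _, _, _, h.comp h', (Mob.comp_mult A C h').symm⟩

theorem mu_int (t : ℂ) (n : ℤ) : Mu t n := ⟨n, 0, 0, n, by simp [Mob, mul_comm], by simp⟩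

theorem Mu.star {x : ℂ} (hx : Mu τ x) : Mu τ (starRingEnd ℂ x) := by
  obtain ⟨A, B, C, E, h, rfl⟩ := hx
  rcases eq_or_ne C 0 with rfl | hC
  · simpa using mu_int τ A
  have h1 : QF C (E - A) (-B) τ := by
    unfold QF Mob at *
    push_cast
    linear_combination h
  have h2 := h1.re_im.1
  push_cast at h2
  refine ⟨_, _, _, _, h.symm, Complex.ext ?_ ?_⟩
  · simp
    linarith
  · simp

/-- every conjugate of a singular modulus comes from a form with the same field -/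
theorem Fm.conj (h : Fm D τ) (σ : ℂ →+* ℂ) :
    ∃ τ' ∈ ModularGroup.fd, Fm (27720 ^ 2 * D) τ' ∧ jInv τ' = σ (jInv τ) := by
  classical
  have hD := h.pos
  obtain ⟨a, b, c, ha, h2, h3⟩ := h
  obtain ⟨τ', hτ', hj⟩ := j_surj (σ (jInv τ))
  refine ⟨τ', hτ', ?_, hj⟩
  set ω : ℂ := σ (a * τ) with hω
  have hq : ω ^ 2 + b * ω + a * c = 0 := by
    have : ((a : ℂ) * τ) ^ 2 + b * (a * τ) + a * c = 0 := by
      unfold QF at h3
      linear_combination a * h3
    simpa [hω] using congrArg σ this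
  have hN : ∀ n : ℕ, (0 : ℤ) < n * (n + b) + a * c := fun n ↦ by
    nlinarith [sq_nonneg (2 * (n : ℤ) + b)]
  have hne : ∀ n : ℕ, (n : ℂ) - ω ≠ 0 := fun n h ↦ by
    have h1 : ((n * (n + b) + a * c : ℤ) : ℂ) = 0 := by
      push_cast
      linear_combination hq + (n + ω + b) * h
    exact (hN n).ne' (by exact_mod_cast h1)
  have key : ∀ n : ℕ, ∃ ζ ∈ (Polynomial.nthRoots 12 (1 : ℂ)).toFinset, Mu τ' (ζ * (n - ω)) := by
    intro n
    obtain ⟨N, hN'⟩ := Int.eq_ofNat_of_zero_le (hN n).le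
    have h4 : Isog N (jInv τ) (jInv τ) ((n - a * τ) ^ 12) := by
      refine ⟨τ, τ, n, -c, a, n + b, by linear_combination hN', rfl, rfl, ?_, by simp⟩
      unfold QF Mob at *
      push_cast
      linear_combination h3
    obtain ⟨A, B, C, E, -, h5, h6⟩ := (h4.conj (by have := hN n; omega) σ).lift hj hj
    have h7 := mul_right_cancel₀ (ModularForm.discriminant_ne_zero τ') h6
    rw [map_pow, map_sub, map_natCast, ← hω] at h7
    refine ⟨(A - C * τ') / (n - ω), ?_, A, B, C, E, h5, div_mul_cancel₀ _ (hne n)⟩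
    rw [Multiset.mem_toFinset, Polynomial.mem_nthRoots (by norm_num), div_pow, ← h7,
      div_self (pow_ne_zero _ (hne n))]
  choose ζ hζ hμ using key
  obtain ⟨n, hn, n', hn', hnn, he⟩ := Finset.exists_ne_map_eq_of_card_lt_of_maps_to
    (s := Finset.range 13) (f := ζ) ((Multiset.toFinset_card_le _).trans_lt
      ((Polynomial.card_nthRoots 12 (1 : ℂ)).trans_lt (by simp))) fun n _ ↦ hζ n
  have h1 : ζ n ^ 12 = 1 := (Polynomial.mem_nthRoots (by norm_num)).1 (Multiset.mem_toFinset.1 (hζ n))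
  have h4 : starRingEnd ℂ (ζ n) * ζ n = 1 := by
    rw [← Complex.normSq_eq_conj_mul_self, Complex.normSq_eq_norm_sq,
      Complex.norm_eq_one_of_pow_eq_one h1 (by norm_num)]
    simp
  obtain ⟨k, hk⟩ : ((n : ℤ) - n') ∣ 27720 := by
    rw [Finset.mem_range] at hn hn'
    interval_cases n <;> interval_cases n' <;> simp_all
  have h5 := (mu_int τ' (27720 * n)).sub
    ((mu_int τ' k).mul (((hμ n).sub (he ▸ hμ n')).star.mul (hμ n)))
  have hk' : (27720 : ℂ) = (n - n') * k := by exact_mod_cast hk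
  have e : ((27720 * n : ℤ) : ℂ) - k * (starRingEnd ℂ (ζ n * (n - ω) - ζ n * (n' - ω)) *
      (ζ n * (n - ω))) = 27720 * ω := by
    rw [show ζ n * (n - ω) - ζ n * (n' - ω) = ζ n * (n - n') by ring, map_mul, map_sub, map_natCast,
      map_natCast]
    push_cast
    linear_combination (n - ω) * hk' - k * (n - n') * (n - ω) * h4
  rw [e] at h5
  obtain ⟨A, B, C, E, h6, h7⟩ := h5
  have h8 : QF C (E - A) (-B) τ' := by
    unfold QF Mob at *
    push_cast
    linear_combination h6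
  have h9 := h8.re_im.2
  have h10 : (2 * ω.im) ^ 2 = D := by
    have r1 := congrArg Complex.im hq
    have r2 := congrArg Complex.re hq
    simp only [pow_two, Complex.add_im, Complex.mul_im, Complex.intCast_re, Complex.intCast_im,
      Complex.mul_re, zero_mul, add_zero, Complex.zero_im, Complex.add_re, sub_zero,
      Complex.zero_re, mul_zero] at r1 r2
    have r3 : (4 * a * c - b ^ 2 : ℝ) = D := by exact_mod_cast h2
    have r4 : (0 : ℝ) < D := by exact_mod_cast hD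
    have r5 : ω.im ≠ 0 := fun h ↦ by
      rw [h] at r2
      nlinarith [sq_nonneg (2 * ω.re + b)]
    have r6 : 2 * ω.re + b = 0 := by
      apply mul_right_cancel₀ r5
      linear_combination r1
    linear_combination r3 - 4 * r2 + (2 * ω.re + b) * r6
  have h11 : 27720 * ω.im = -(C * τ'.im) := by simpa using congrArg Complex.im h7
  have h12 : 4 * C * -B - (E - A) ^ 2 = (27720 ^ 2 * D : ℕ) := by
    have : ((4 * C * -B - (E - A) ^ 2 : ℤ) : ℝ) = 27720 ^ 2 * D := by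
      rw [← h9, ← h10]
      linear_combination -4 * (27720 * ω.im - C * τ'.im) * h11
    exact_mod_cast this
  rcases lt_trichotomy C 0 with hC | rfl | hC
  · refine ⟨-C, A - E, B, by omega, by linear_combination h12, ?_⟩
    unfold QF at h8 ⊢
    push_cast at h8 ⊢
    linear_combination -h8
  · push_cast at h12
    nlinarith [sq_nonneg (E - A)]
  · exact ⟨_, _, _, hC, h12, h8⟩

end Pool.Agent.Lib.ECM.CM
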