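import Pool.Agent.Lib.ECM.HDefs
import Pool.Agent.Lib.ZP3.Defs2

/-! Statements of the height and ampleness blocks (MP_0704bf_ag). -/

open Polynomial Filter Topology

namespace Pool.Agent.Lib.ECM

open Pool.Agent.Lib.ZP3 (Deg Sm)

/-- the height may be computed in any number field -/
def St_HT0 : Prop := ∀ (ι : Type) [Fintype ι] (L : Type) [Field L] [NumberField L] (e : L →+* ℂ)
  (x : ι → L), ht (fun i ↦ e (x i)) = Height.logHeight x / Module.finrank ℚ L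

/-- formal properties of the height -/
def St_HT1 : Prop :=
  (∀ (ι : Type) [Fintype ι] (x : ι → ℂ), 0 ≤ ht x) ∧
  (∀ (ι : Type) [Fintype ι] (x : ι → ℂ) (c : ℂ), AlgT x → IsAlgebraic ℚ c → c ≠ 0 →
    ht (fun i ↦ c * x i) = ht x) ∧
  (∀ (ι κ : Type) [Fintype ι] [Fintype κ] (x : κ → ℂ) (f : ι → κ), AlgT x →
    ht (fun i ↦ x (f i)) ≤ ht x) ∧
  (∀ (ι κ : Type) [Fintype ι] [Fintype κ] (x : ι → ℂ) (y : κ → ℂ), AlgT x → AlgT y → x ≠ 0 → y ≠ 0 →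
    ht (fun p : ι × κ ↦ x p.1 * y p.2) = ht x + ht y) ∧
  (∀ (α ι : Type) [Fintype α] [DecidableEq α] [Fintype ι] (x : α → ι → ℂ), (∀ a, AlgT (x a)) →
    (∀ a, x a ≠ 0) → ht (fun f : α → ι ↦ ∏ a, x a (f a)) = ∑ a, ht (x a)) ∧
  (∀ (ι : Type) [Fintype ι] (x : ι → ℂ) (n : ℕ), AlgT x → ht (fun i ↦ x i ^ n) = n * ht x) ∧
  (∀ (ι : Type) [Fintype ι] (x : ι → ℂ) (σ : ℂ →+* ℂ), AlgT x → ht (fun i ↦ σ (x i)) = ht x)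

/-- comparison of heights place by place -/
def St_HT2 : Prop := ∀ (ι κ : Type) [Fintype ι] [Fintype κ] (x : ι → ℂ) (y : κ → ℂ) (C : ℝ),
  AlgT x → AlgT y → 1 ≤ C → (∀ (σ : ℂ →+* ℂ) i, ∃ j, ‖σ (x i)‖ ≤ C * ‖σ (y j)‖) →
  (∀ (V : ValuationSubring ℂ) i, ∃ j, V.valuation (x i) ≤ V.valuation (y j)) →
  ht x ≤ ht y + Real.log C

/-- linear maps, powers of a number, polynomial maps, integral dependence -/
def St_HT3 : Prop :=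
  (∀ (ι κ : Type) [Fintype ι] [Fintype κ] (M : κ → ι → ℚ), ∃ C : ℝ, ∀ x : ι → ℂ, AlgT x →
    ht (fun j ↦ ∑ i, (M j i : ℂ) * x i) ≤ ht x + C) ∧
  (∀ (t : ℂ) (n : ℕ), IsAlgebraic ℚ t → ht (fun b : Fin (n + 1) ↦ t ^ (b : ℕ)) = n * h1 t) ∧
  (∀ (κ : Type) [Fintype κ] (a : κ → ℚ[X]) (n : ℕ), (∀ j, (a j).natDegree ≤ n) → ∃ C : ℝ,
    ∀ t : ℂ, IsAlgebraic ℚ t → ht (fun j ↦ aeval t (a j)) ≤ n * h1 t + C) ∧
  (∀ P : ℚ[X][X], P.Monic → ∃ C : ℝ, ∀ t : ℂ, IsAlgebraic ℚ t → ∀ x ∈ rts P t,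
    IsAlgebraic ℚ x ∧ h1 x ≤ C * h1 t + C) ∧
  (∀ (ι : Type) [Fintype ι] (s : ι → ℂ), AlgT s →
    ht (fun o : Option ι ↦ o.elim 1 s) ≤ ∑ i, h1 (s i)) ∧
  (∀ (κ : Type) [Fintype κ] (g : κ → ℚ[X][X]), ∃ C : ℝ, 0 ≤ C ∧ ∀ t x : ℂ, IsAlgebraic ℚ t →
    IsAlgebraic ℚ x → AlgT (fun j ↦ e2 (g j) t x) ∧
      ht (fun j ↦ e2 (g j) t x) ≤ C * (h1 t + h1 x) + C)

/-- links with the size notions of the earlier library -/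
def St_HT4 : Prop :=
  (∃ C : ℕ, ∀ (z : ℂ) (a : ℕ), IsAlgebraic ℚ z → Deg z a → h1 z ≤ a → Sm z (C * a ^ 2)) ∧
  (∀ (L : Type) [Field L] [NumberField L] (e : L →+* ℂ) (x : L),
    ∑ σ : L →+* ℂ, Real.log (max 1 ‖σ x‖) ≤ Module.finrank ℚ L * h1 (e x)) ∧
  (∀ (L : Type) [Field L] [NumberField L] (e : L →+* ℂ) (x : L), IsIntegral ℤ x →
    Module.finrank ℚ L * h1 (e x) = ∑ σ : L →+* ℂ, Real.log (max 1 ‖σ x‖)) ∧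
  (∀ (z : ℂ) (a : ℕ), Sm z a → h1 z ≤ 2 * a)

/-- linear forms in general position exist -/
def St_GP : Prop := ∀ (J : Type) [Fintype J] (n : ℕ), ∃ (m : ℕ) (y : Fin (m + 1) → J → ℤ), GP y n

/-- the norm is the product over the fibre -/
def St_NM : Prop := ∀ P : ℚ[X][X], P.Monic →
  (∀ t, (rts P t).card = P.natDegree) ∧
  (∀ t x, x ∈ rts P t ↔ e2 P t x = 0) ∧
  (∀ g t, aeval t (Nm P g) = ((rts P t).map (e2 g t)).prod) ∧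
  (Irreducible P → ∀ g, ¬ P ∣ g → Nm P g ≠ 0)

/-- size and height of a family of polynomials -/
def St_TWO : Prop := ∀ (Y : Type) [Fintype Y] (a : Y → ℚ[X]), a ≠ 0 →
  (∃ C : ℝ, 0 < C ∧ ∀ t : ℂ, (∀ y, ‖aeval t (a y)‖ ≤ C * ‖aeval t (cont a)‖ * max 1 ‖t‖ ^ dl a) ∧
    ∃ y, ‖aeval t (cont a)‖ * max 1 ‖t‖ ^ dl a ≤ C * ‖aeval t (a y)‖) ∧
  (∃ C : ℝ, ∀ t : ℂ, IsAlgebraic ℚ t → ht (fun y ↦ aeval t (a y)) ≤ dl a * h1 t + C) ∧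
  (∀ m : ℕ, cont a ^ m ∈ Ideal.span (Set.range fun y ↦ a y ^ m)) ∧
  cont a ≠ 0 ∧ ∃ y, a y ≠ 0 ∧ (a y).natDegree = dl a + (cont a).natDegree

/-- a lattice over the polynomial ring contains a vector that is small at infinity -/
def St_MINK : Prop := ∀ (M : Type) [AddCommGroup M] [Module ℚ[X] M] (ρ Y : Type) [Fintype ρ]
  [DecidableEq ρ] (b : Module.Basis ρ ℚ[X] M) (S : Submodule ℚ[X] M) (e : Y → ρ → M) (y0 : Y)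
  (c : ℚ[X]) (r : ℕ), (∀ y i, e y i ∈ S) → c ≠ 0 →
  c ∈ Ideal.span (Set.range fun y ↦ b.det (e y)) → b.det (e y0) ≠ 0 →
  Fintype.card ρ * r + c.natDegree < (b.det (e y0)).natDegree →
  ∃ F ∈ S, F ≠ 0 ∧ ∃ (d : ℚ[X]) (u : ρ → ℚ[X]), d ≠ 0 ∧ d • F = ∑ i, u i • e y0 i ∧
    ∀ i, u i = 0 ∨ (u i).natDegree + r ≤ d.natDegree

/-- a value with two expansions bounds the height from below -/
def St_HSTEP : Prop := ∀ (β : Type) [Fintype β] (p u : β → ℚ[X]) (d : ℚ[X]) (r : ℕ), d ≠ 0 →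
  (∀ i, u i = 0 ∨ (u i).natDegree + r ≤ d.natDegree) → ∃ C : ℝ, ∀ (t : ℂ) (z : β → ℂ),
  IsAlgebraic ℚ t → AlgT z → ∑ i, aeval t (p i) * z i ≠ 0 →
  aeval t d * ∑ i, aeval t (p i) * z i = ∑ i, aeval t (u i) * z i → r * h1 t ≤ ht z + C

/-- lower bound for the height of a map of the curve -/
def St_LOW1 : Prop := ∀ (P : ℚ[X][X]) (J Y : Type) [Fintype J] [Fintype Y] (y : Y → J → ℤ)
  (g : J → ℚ[X][X]), P.Monic → Irreducible P → nm1 P y g ≠ 0 → ∀ ε : ℝ, 0 < ε →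
  ∃ (C : ℝ) (S : Finset ℂ), ∀ t, t ∉ S → IsAlgebraic ℚ t → ∀ x ∈ rts P t,
    (dl (nm1 P y g) / P.natDegree - ε) * h1 t ≤ ht (fun j ↦ e2 (g j) t x) + C

/-- upper bound for the height of a map of the curve -/
def St_UP : Prop := ∀ (P : ℚ[X][X]) (J Y : Type) [Fintype J] [Fintype Y] (y : Y → J → ℤ)
  (g : J → ℚ[X][X]), P.Monic → Irreducible P → GP y P.natDegree → nm1 P y g ≠ 0 → ∀ ε : ℝ, 0 < ε →
  ∃ (C : ℝ) (S : Finset ℂ), ∀ t, t ∉ S → IsAlgebraic ℚ t → ∀ x ∈ rts P t,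
    ht (fun j ↦ e2 (g j) t x) ≤ (dl (nm1 P y g) / P.natDegree + ε) * h1 t + C

/-- lower bound for the height on the ruled surface, off one curve -/
def St_LOW2 : Prop := ∀ (P : ℚ[X][X]) (J Y : Type) [Fintype J] [Fintype Y] (y : Y → J → ℤ)
  (A B : J → ℚ[X][X]), P.Monic → Irreducible P → nm2 P y A B ≠ 0 → ∀ ε : ℝ, 0 < ε →
  ∃ (C : ℝ) (M : ℕ) (F : Fin (M + 1) → ℚ[X][X]), (∃ a, ¬ P ∣ F a) ∧
    ∀ t, IsAlgebraic ℚ t → ∀ x ∈ rts P t, ∀ w : ℂ, IsAlgebraic ℚ w →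
      ∑ a, e2 (F a) t x * w ^ (a : ℕ) ≠ 0 →
      (dl (nm2 P y A B) / (2 * P.natDegree) - ε) * h1 t ≤
        ht (fun j ↦ e2 (A j) t x + e2 (B j) t x * w) + C

/-- analytic branches of simple roots -/
def St_ROOTS : Prop := ∀ P : ℚ[X][X], P.Monic → ∀ t0 : ℂ, (rts P t0).Nodup →
  ∃ x : Fin P.natDegree → ℂ → ℂ, (∀ i, AnalyticAt ℂ (x i) t0) ∧
    ∀ᶠ t in 𝓝 t0, rts P t = Finset.univ.val.map fun i ↦ x i t

/-- products of Hodge norms have no local maximum -/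
def St_LM : Prop := ∀ (n : ℕ) (τ : Fin n → ℂ → T3) (u : ℂ), 0 < n → (∀ i, An (τ i) u) →
  (∀ i, τ i u ∈ H2) → (∀ i, Mov (τ i) u) →
  (∀ v : Fin n → ℂ → V2, (∀ i, An (v i) u) → (∀ i, v i u ≠ 0) →
    NoMax (fun z ↦ ∏ i, Hn (τ i z) (v i z)) u) ∧
  NoMax (fun z ↦ ∏ i, (dY (τ i z))⁻¹) u

/-- a bounded function on the line minus a finite set has a weighted local maximum -/
def St_POSA : Prop := ∀ (S : Finset ℂ) (W : ℂ → ℝ) (K : ℝ), (∀ t, t ∉ S → ContinuousAt W t) →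
  (∀ t, t ∉ S → 0 < W t ∧ W t ≤ K) → ∃ t, t ∉ S ∧ ¬ NoMax W t

/-- the tuple `d ^ e f (σ / d)` -/
def Clr {ι J : Type} (d : ℚ[X]) (σ : ι → ℚ[X][X]) (e : ℕ) (f : J → MvPolynomial ι ℚ)
    (g : J → ℚ[X][X]) : Prop :=
  ∀ j t x, aeval t d ≠ 0 → e2 (g j) t x = aeval t d ^ e * ev (fun i ↦ e2 (σ i) t x / aeval t d) (f j)

/-- denominators can be cleared, over any field -/
def St_CLR : Prop := ∀ (ι : Type) (d : ℚ[X]) (σ : ι → ℚ[X][X]) (f : MvPolynomial ι ℚ) (e : ℕ),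
  f.totalDegree ≤ e → ∃ g : ℚ[X][X], ∀ (K : Type) [Field K] [Algebra ℚ K] (t x : K), aeval t d ≠ 0 →
    (g.map (aeval t).toRingHom).eval x = aeval t d ^ e *
      MvPolynomial.aeval (fun i ↦ ((σ i).map (aeval t).toRingHom).eval x / aeval t d) f

/-- positivity on a multisection and for the determinant -/
def St_POS : Prop := ∀ (ι I J Y Y' : Type) [Fintype I] [Fintype J] [Fintype Y] [Fintype Y']
  (Z : Set (ι → ℂ)) (ψ : I → MvPolynomial ι ℚ) (A B : J → MvPolynomial ι ℚ)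
  (Rp : (ι → ℂ) → T3 → M2 → Prop) (P : ℚ[X][X]) (d : ℚ[X]) (σ : ι → ℚ[X][X]) (i0 : ι)
  (S : Finset ℂ) (e : ℕ) (ψ' : I → ℚ[X][X]) (A' B' : J → ℚ[X][X]) (y : Y → J → ℤ) (y' : Y' → I → ℤ),
  Gauge Z ψ A B Rp → Model Z P d σ i0 S → Clr d σ e ψ ψ' → Clr d σ e A A' → Clr d σ e B B' →
  GP y P.natDegree → GP y' P.natDegree →
  nm1 P y' ψ' ≠ 0 ∧ nm2 P y A' B' ≠ 0 ∧ 2 * dl (nm1 P y' ψ') < dl (nm2 P y A' B') ∧
  ∀ ω : ℚ[X][X], nm1 P y (fun j ↦ A' j * C d + B' j * ω) ≠ 0 ∧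
    dl (nm1 P y' ψ') < dl (nm1 P y fun j ↦ A' j * C d + B' j * ω)

/-- a plane model adapted to a sequence of points -/
def St_GEN : Prop := ∀ (ι : Type) [Fintype ι] (Z : Set (ι → ℂ)) (T : Set (MvPolynomial ι ℚ))
  (F : Set (ι → ℂ)), F.Finite → (∀ s ∈ Z, ∀ f ∈ T, ev s f = 0) →
  (∀ s, (∀ f ∈ T, ev s f = 0) → s ∉ F → s ∈ Z) →
  (∀ i j, ∃ f : ℚ[X][X], f ≠ 0 ∧ ∀ s ∈ Z, e2 f (s i) (s j) = 0) →
  ∀ (U : Ultrafilter ℕ) (s : ℕ → ι → ℂ) (w : ℕ → ℂ), (∀ n, s n ∈ Z) →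
  (∀ p, ∀ᶠ n in U, s n ≠ p) →
  ∃ (P : ℚ[X][X]) (d : ℚ[X]) (σ : ι → ℚ[X][X]) (i0 : ι) (S : Finset ℂ) (x : ℕ → ℂ),
    Model Z P d σ i0 S ∧ (∀ p, ∀ᶠ n in U, s n i0 ≠ p) ∧
    (∀ᶠ n in U, x n ∈ rts P (s n i0) ∧ ∀ i, s n i = e2 (σ i) (s n i0) (x n) / aeval (s n i0) d) ∧
    ((∃ ω : ℚ[X][X], ∀ᶠ n in U, w n = e2 ω (s n i0) (x n) / aeval (s n i0) d) ∨
      ∀ (M : ℕ) (G : Fin (M + 1) → ℚ[X][X]), (∃ a, ¬ P ∣ G a) →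
        ∀ᶠ n in U, ∑ a, e2 (G a) (s n i0) (x n) * w n ^ (a : ℕ) ≠ 0)

/-- ampleness: the gauge height dominates the height of the base point -/
def St_AMP : Prop := ∀ (ι I J : Type) [Fintype ι] [Fintype I] [Fintype J]
  (Z : Set (ι → ℂ)) (ψ : I → MvPolynomial ι ℚ) (A B : J → MvPolynomial ι ℚ)
  (Rp : (ι → ℂ) → T3 → M2 → Prop), Gauge Z ψ A B Rp →
  ∃ C : ℝ, 0 ≤ C ∧ ∀ s ∈ Z, ∀ l : V2, l ≠ 0 → AlgT s → AlgT l →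
    ∀ i, h1 (s i) ≤ C * max 0 (ht (fun j ↦ ev s (A j) * l 0 + ev s (B j) * l 1) -
      ht (fun i ↦ ev s (ψ i))) + C

end Pool.Agent.Lib.ECM
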