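import Pool.Agent.Lib.ECM.THBlue

/-! Genus two theta functions: further statements. -/

open Complex Filter Topology Metric
open scoped Real ComplexConjugate

noncomputable section

namespace Pool.Agent.Lib.ECM

/-- charts with integrality of the residues and position in the toric coordinates -/
def St_CHART2 : Prop := ∀ κ : Ch → ℂ → ℂ, (∀ m, AnalyticAt ℂ (κ m) 0) →
  ∃ (r : ℝ) (N : ℕ) (mm : Fin N → T3) (g : Fin N → Fin 3 → ℂ → ℂ), 0 < r ∧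
    (∀ j i, AnalyticOnNhd ℂ (g j i) (ball 0 r)) ∧
    (∀ j i, ∃ k : ℤ, 2 * π * I * mm j i = k) ∧
    (∀ j w, ‖exp w‖ < r → xq (fun i ↦ mm j i * w + g j i (exp w)) ∈ Om) ∧
    (∀ j w, ‖exp w‖ < r → (fun i ↦ mm j i * w + g j i (exp w)) ∈ H2 ∧
      ∃ c : ℂ, c ≠ 0 ∧ ∀ m, kk m (fun i ↦ mm j i * w + g j i (exp w)) = c * κ m (exp w)) ∧
    ((∀ m, Ev m → κ m 0 ≠ 0) → ∀ j, mm j = 0 ∧ (fun i ↦ g j i 0) ∈ H2 ∧
      ∃ c : ℂ, c ≠ 0 ∧ ∀ m, kk m (fun i ↦ g j i 0) = c * κ m 0) ∧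
    ∀ u : ℂ, u ≠ 0 → ‖u‖ < r → ∀ τ ∈ Red, (∃ c : ℂ, ∀ m, kk m τ = c * κ m u) →
      ∃ j w, exp w = u ∧ |w.im| ≤ π ∧ τ = fun i ↦ mm j i * w + g j i (exp w)

/-- lower bound for the determinant on the toric domain -/
def St_OMD : Prop := ∀ τ : T3, xq τ ∈ Om → 1 / 10 ≤ dY τ

/-- zeros of the even theta constants in the reduced domain -/
structure St_ZER : Prop where
  nine : ∀ τ ∈ Red, ∀ m : Ch, Ev m → m ≠ (1, 1, 1, 1) → kk m τ ≠ 0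
  last : ∀ τ ∈ Red, kk (1, 1, 1, 1) τ = 0 → τ 1 = 0

end Pool.Agent.Lib.ECM
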