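import Pool.Agent.Lib.ECM.MDefs
import Pool.Agent.Lib.ECM.THBlue2
import Pool.Agent.Lib.ECM.HBlue
import Pool.Agent.Lib.ECM.CMT

/-! Master blueprint of the E x CM theorem (problem MP_0704bf_ag): interfaces of the blocks. -/

open UpperHalfPlane Filter Topology Metric Polynomial
open scoped Real

noncomputable section

namespace Pool.Agent.Lib.ECM

open Pool.Agent.Lib.MP_0704bf_ag
open Pool.Agent.Lib.ZP3 (Deg Sm)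
open CM (Fm Disc)

/-! ### the curve -/

def St_DIM : Prop := ∀ P : Id, P.IsPrime → ringKrullDim (MvPolynomial Ch ℚ ⧸ P) = 1 → Pl P

/-- analytic Puiseux expansions -/
def St_PUI : Prop := ∀ f : ℂ[X][X], f ≠ 0 → ∃ (E n k : ℕ) (ξ : Fin k → ℂ → ℂ), 0 < E ∧
  (∀ a, AnalyticAt ℂ (ξ a) 0) ∧
  ∀ᶠ u in 𝓝[≠] (0 : ℂ), ∀ y : ℂ, f.evalEval (u ^ E) y = 0 → ∃ a, y = ξ a u / u ^ n

/-- finitely many branches, with radii as small as one likes, cover the curve -/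
def St_BR : Prop := ∀ P : Id, Pl P → ∀ ρ : (Ch → ℂ → ℂ) × ℕ → ℝ, (∀ b, 0 < ρ b) →
  ∃ (T : Finset ((Ch → ℂ → ℂ) × ℕ)) (F : Finset (Ch → ℂ)), (∀ b ∈ T, Br P b.1 b.2) ∧
    ∀ x ∈ Cv P, x ∉ F → ∃ b ∈ T, ∃ u : ℂ, u ≠ 0 ∧ ‖u‖ < ρ b ∧ x = fun m ↦ b.1 m u / u ^ b.2

/-- a branch has uncountably many points; a countable hypersurface section is finite -/
structure St_CF : Prop where
  unc : ∀ (P : Id) (κ : Ch → ℂ → ℂ) (n : ℕ), Br P κ n → ∀ ρ : ℝ, 0 < ρ →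
    ¬ ((fun u m ↦ κ m u / u ^ n) '' {u : ℂ | u ≠ 0 ∧ ‖u‖ < ρ}).Countable
  fin : ∀ P : Id, Pl P → ∀ f : MvPolynomial Ch ℚ,
    {x ∈ Cv P | MvPolynomial.aeval x f = 0}.Countable → {x ∈ Cv P | MvPolynomial.aeval x f = 0}.Finite

def St_ATLAS : Prop := ∀ P : Id, Pl P → Mod P → GenC P → Nonempty (Atlas P)

/-! ### genericity -/

/-- singular relations only depend on the polarised torus -/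
def St_SINV : Prop := ∀ τ ∈ H2, ∀ τ' ∈ H2, ∀ M : V2 →ₗ[ℂ] V2, Function.Bijective M →
  (∀ z, M z ∈ Lat τ' ↔ z ∈ Lat τ) → (∀ v, Hn τ' (M v) = Hn τ v) → Sing τ' → Sing τ

/-- the fibres of the theta null map are countable -/
def St_FIB : Prop := ∀ x : Ch → ℂ, (∀ m, Ev m → x m ≠ 0) → {τ | Over x τ}.Countable

structure St_G3 : Prop where
  sing : ∀ τ ∈ H2, ¬ Gen τ → Sing τ
  gen : ∀ P : Id, Pl P → Mod P → HG P → GenC P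

def St_G4 : Prop := ∀ P : Id, Nonempty (Atlas P) → HG P → Dense P

/-! ### elliptic curves in the torus -/

structure St_LINE : Prop where
  ex : ∀ τ ∈ H2, ∀ (v : V2) (t : ℂ), v ≠ 0 → t.im ≠ 0 → v ∈ Lat τ → t • v ∈ Lat τ →
    ∃ (c : ℂ) (τ0 : ℍ), τ0 ∈ ModularGroup.fd ∧ Line τ (c • v) τ0
  cm : ∀ τ ∈ H2, HasCM τ ↔ ∃ (v : V2) (τ0 : ℍ), τ0 ∈ ModularGroup.fd ∧ Line τ v τ0 ∧ IsCM τ0
  nat : ∀ τ ∈ H2, ∀ v τ0, Line τ v τ0 → ∃ N : ℕ, 0 < N ∧ (N : ℝ) = NN τ v τ0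
  sing : ∀ τ ∈ H2, ∀ v τ0, Line τ v τ0 → Sing τ
  same : ∀ τ ∈ H2, ∀ v τ0 (t : ℂ) τ0', Line τ v τ0 → Line τ (t • v) τ0' →
    NN τ (t • v) τ0' = NN τ v τ0 ∧ jInv τ0' = jInv τ0 ∧
      ∀ Ω Ω', Nrm τ0 Ω → Nrm τ0' Ω' → (t * Ω / Ω') ^ 12 = 1
  nrm : ∀ τ0 : ℍ, (∃ Ω, Nrm τ0 Ω) ∧ ∀ Ω, Nrm τ0 Ω → Ω ≠ 0 ∧ gg2 τ0 Ω ^ 3 = 1728 * jInv τ0 ∧
    gg3 τ0 Ω ^ 2 = 64 * (jInv τ0 - 1728)
  map : ∀ τ τ' (M : V2 →ₗ[ℂ] V2), Function.Bijective M → (∀ z, M z ∈ Lat τ' ↔ z ∈ Lat τ) →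
    (∀ v τ0, Line τ v τ0 → Line τ' (M v) τ0) ∧ (SqCM τ ↔ SqCM τ') ∧ (HasCM τ ↔ HasCM τ')

/-- two lines, or infinitely many -/
structure St_TWOL : Prop where
  two : ∀ τ ∈ H2, HasCM τ → ¬ SqCM τ → ∀ v₁ v₂ v₃ τ₁ τ₂ τ₃, Line τ v₁ τ₁ → Line τ v₂ τ₂ →
    Line τ v₃ τ₃ → (∃ t : ℂ, v₂ = t • v₁) ∨ (∃ t : ℂ, v₃ = t • v₁) ∨ ∃ t : ℂ, v₃ = t • v₂
  three : ∀ τ ∈ H2, SqCM τ → ∃ v₁ v₂ v₃ τ₁ τ₂ τ₃, Line τ v₁ τ₁ ∧ Line τ v₂ τ₂ ∧ Line τ v₃ τ₃ ∧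
    (¬ ∃ t : ℂ, v₂ = t • v₁) ∧ (¬ ∃ t : ℂ, v₃ = t • v₁) ∧ ¬ ∃ t : ℂ, v₃ = t • v₂

/-- the dual homomorphism is onto and its kernel is an elliptic curve -/
def St_ONTO : Prop := ∀ τ ∈ H2, Gen τ → ∀ v τ0 (N : ℕ) cA cB, Line τ v τ0 → (N : ℝ) = NN τ v τ0 →
  Eta τ v τ0 N cA cB →
  (∀ a b : ℤ, ∃ l ∈ Lat τ, N * eta τ cA cB l = (a + b * (τ0 : ℂ)) * eta τ cA cB v) ∧
  ∃ v' τ0', τ0' ∈ ModularGroup.fd ∧ Line τ v' τ0' ∧ eta τ cA cB v' = 0 ∧ NN τ v' τ0' = N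

/-! ### conjugation -/

structure St_AUT : Prop where
  ext : ∀ σ : ℂ →+* ℂ, ∃ σ' : ℂ ≃+* ℂ, ∀ z, IsAlgebraic ℚ z → σ' z = σ z
  alg : ∀ z : ℂ, (Set.range fun σ : ℂ ≃+* ℂ ↦ σ z).Countable → IsAlgebraic ℚ z

def St_CONJ : Prop := ∀ (σ : ℂ ≃+* ℂ) (x : Ch → ℂ) (τ τ' : T3) (v : V2) (τ0 : ℍ) (Ω : ℂ),
  Over x τ → Gen τ → Over (fun m ↦ σ (x m)) τ' → Line τ v τ0 → Nrm τ0 Ω →
  ∃ (v' : V2) (τ0' : ℍ) (Ω' : ℂ), τ0' ∈ ModularGroup.fd ∧ Line τ' v' τ0' ∧ Nrm τ0' Ω' ∧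
    jInv τ0' = σ (jInv τ0) ∧ gg2 τ0' Ω' = σ (gg2 τ0 Ω) ∧ gg3 τ0' Ω' = σ (gg3 τ0 Ω) ∧
    ∀ h, lv τ' (Ω'⁻¹ • v') h = σ (lv τ (Ω⁻¹ • v) h)

theorem fm_of_conj {D : ℕ} {τ0 τ0' : ℍ} (h : Fm D τ0) (σ : ℂ →+* ℂ)
    (e : jInv τ0' = σ (jInv τ0)) : Fm (27720 ^ 2 * D) τ0' := by
  obtain ⟨t, -, h1, h2⟩ := h.conj σ
  exact h1.rel (ZP3.j_inj (e.trans h2.symm))

theorem isCM_of_conj {τ0 τ0' : ℍ} (h : IsCM τ0) (σ : ℂ →+* ℂ) (e : jInv τ0' = σ (jInv τ0)) :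
    IsCM τ0' := by
  obtain ⟨D, hD⟩ := CM.exists_disc h
  exact (fm_of_conj hD.fm σ e).isCM

/-- the type of a point is invariant under conjugation -/
def St_SQ : Prop := ∀ (σ : ℂ ≃+* ℂ) (x : Ch → ℂ) (τ τ' : T3), Over x τ → Gen τ →
  Over (fun m ↦ σ (x m)) τ' → HasCM τ → ¬ SqCM τ → HasCM τ' ∧ ¬ SqCM τ'

/-- degrees -/
def St_PACK : Prop := ∀ (x : Ch → ℂ) (τ : T3) (d : ℕ), Good x → Over x τ → HasCM τ → ¬ SqCM τ →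
  DegT x d → ∀ v τ0 Ω, Line τ v τ0 → Nrm τ0 Ω →
  IsAlgebraic ℚ (jInv τ0) ∧ Deg (jInv τ0) (2 * d) ∧
    ∀ h, IsAlgebraic ℚ (lv τ (Ω⁻¹ • v) h) ∧ Deg (lv τ (Ω⁻¹ • v) h) (24 * d)

/-- a conjugate where the degree of the elliptic curve is maximal -/
def St_MAX : Prop := ∀ (x : Ch → ℂ) (τ : T3), Good x → Over x τ → HasCM τ → ¬ SqCM τ →
  ∃ (σ : ℂ →+* ℂ) (τ' : T3) (v' : V2) (τ0' : ℍ), Over (fun m ↦ σ (x m)) τ' ∧ HasCM τ' ∧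
    ¬ SqCM τ' ∧ τ0' ∈ ModularGroup.fd ∧ Line τ' v' τ0' ∧ IsCM τ0' ∧ NB x (NN τ' v' τ0')

/-- almost all special points are good -/
def St_ALG : Prop := ∀ P : Id, Mod P → GenC P → HG P →
  {x ∈ Cv P | (∃ τ, Over x τ ∧ HasCM τ) ∧ ¬ Good x}.Finite

/-! ### heights -/

/-- the height bound -/
def St_HTA : Prop := ∀ P : Id, Pl P → Mod P → GenC P → Dense P → ∃ C : ℝ, 0 ≤ C ∧
  ∀ x ∈ Cv P, ∀ τ v τ0 (B : ℝ), Good x → Over x τ → ¬ SqCM τ → Line τ v τ0 → IsCM τ0 → 1 ≤ B →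
    NB x B → ∀ m, h1 (x m) ≤ C * (1 + h1 (jInv τ0) + Real.log B)

/-- the height of the tangent vector -/
def St_HTB : Prop := ∃ C : ℝ, 0 ≤ C ∧ ∀ x τ v τ0 Ω (B : ℝ), Good x → Over x τ → ¬ SqCM τ →
  Line τ v τ0 → IsCM τ0 → Nrm τ0 Ω → 1 ≤ B → NB x B →
  ∀ h, h1 (lv τ (Ω⁻¹ • v) h) ≤ C * (1 + ∑ m, h1 (x m) + h1 (jInv τ0) + Real.log B)

/-- the height of the dual form -/
def St_G1 : Prop := ∃ C : ℝ, 0 ≤ C ∧ ∀ x τ v τ0 (N : ℕ), Over x τ → Gen τ → Line τ v τ0 →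
  (N : ℝ) = NN τ v τ0 → ∃ cA cB : ℂ, (cA = 1 ∨ cB = 1) ∧ Eta τ v τ0 N cA cB ∧
    (AlgT x → AlgT ![cA, cB] ∧ ht ![cA, cB] ≤ C * (1 + Real.log N + ht x))

/-- bounded degree and height -/
def St_NOR : Prop := ∀ (d : ℕ) (B : ℝ), {z : ℂ | IsAlgebraic ℚ z ∧ Deg z d ∧ h1 z ≤ B}.Finite

/-! ### the period theorem -/

def St_PT : Prop := ∃ κ : ℕ, ∀ x τ v τ0 Ω (N D A : ℕ) cA cB, Over x τ → Gen τ → ¬ SqCM τ →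
  τ0 ∈ ModularGroup.fd → Line τ v τ0 → Fm D τ0 → Nrm τ0 Ω → (N : ℝ) = NN τ v τ0 →
  Eta τ v τ0 N cA cB → 2 ≤ A → D ≤ A → Real.log N ≤ A → (∀ m, Sm (x m) A) →
  (∀ h, Sm (lv τ (Ω⁻¹ • v) h) A) → Sm (jInv τ0) A → Sm cA A → Sm cB A → N ≤ A ^ κ

/-- the period theorem in terms of the base point -/
def St_PTG : Prop := ∃ κ : ℕ, ∀ x τ v τ0 (D A : ℕ) (B : ℝ), Good x → Over x τ → ¬ SqCM τ →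
  τ0 ∈ ModularGroup.fd → Line τ v τ0 → Fm D τ0 → 1 ≤ B → NB x B → 2 ≤ A → D ≤ A →
  Real.log B ≤ A → DegT x A → (∀ m, h1 (x m) ≤ A) → h1 (jInv τ0) ≤ A → NN τ v τ0 ≤ (A : ℝ) ^ κ

/-! ### counting -/

def St_CNT : Prop := ∀ P : Id, Nonempty (Atlas P) → Dense P → ∀ ε : ℝ, 0 < ε → ∃ C : ℝ, 0 ≤ C ∧
  ∀ (M H : ℝ) (D : ℕ) (S : Finset (Ch → ℂ)), 2 ≤ M → 1 ≤ H → H ≤ M → (D : ℝ) ≤ M →
    (∀ x ∈ S, x ∈ Cv P ∧ (∀ m, Ev m → |Real.log ‖x m‖| ≤ H) ∧ ∃ τ v τ0, Over x τ ∧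
      τ0 ∈ ModularGroup.fd ∧ Line τ v τ0 ∧ Fm D τ0 ∧ NN τ v τ0 ≤ M) →
    (S.card : ℝ) ≤ C * H * M ^ ε

/-- half of the conjugates are not deep -/
def St_MARK : Prop := ∀ x : Ch → ℂ, AlgT x → ∃ d : ℕ, 0 < d ∧ DegT x d ∧ ∀ H : ℝ, 0 < H →
  (∀ m, h1 (x m) ≤ H) → ∃ S : Finset (Ch → ℂ), d ≤ 2 * S.card ∧ ∀ y ∈ S,
    (∃ σ : ℂ →+* ℂ, y = fun m ↦ σ (x m)) ∧ ∀ m, |Real.log ‖y m‖| ≤ 64 * H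

/-- the theorem for curves with dense lifts -/
def St_FIN : Prop := ∀ P : Id, Pl P → Mod P → GenC P → Dense P →
  {x ∈ Cv P | Good x ∧ ∃ τ, Over x τ ∧ HasCM τ ∧ ¬ SqCM τ}.Finite

def St_MAIN : Prop := ∀ P : Id, P.IsPrime → ringKrullDim (MvPolynomial Ch ℚ ⧸ P) = 1 →
  Mod P → HG P → {x ∈ Cv P | ∃ τ, Over x τ ∧ HasCM τ ∧ ¬ SqCM τ}.Finite

theorem st_MAIN (hDIM : St_DIM) (hG3 : St_G3) (hAT : St_ATLAS) (hG4 : St_G4) (hALG : St_ALG)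
    (hFIN : St_FIN) : St_MAIN := by
  intro P h1 h2 h3 h4
  have a1 := hDIM P h1 h2
  have a2 := hG3.gen P a1 h3 h4
  refine ((hFIN P a1 h3 a2 (hG4 P (hAT P a1 h3 a2) h4)).union (hALG P h3 a2 h4)).subset ?_
  rintro x ⟨hx, τ, b1, b2, b3⟩
  by_cases hg : Good x
  · exact Or.inl ⟨hx, hg, τ, b1, b2, b3⟩
  · exact Or.inr ⟨hx, ⟨τ, b1, b2⟩, hg⟩

end Pool.Agent.Lib.ECM
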