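import Pool.Agent.Lib.ECM.CND
import Pool.Agent.Lib.ECM.Blue

/-! Block CNT: counting special points of bounded complexity on the curve. -/

open UpperHalfPlane hiding I
open Filter Topology Metric Complex
open scoped Real

namespace Pool.Agent.Lib.ECM

namespace CNT

variable {P : Id} {ε : ℝ}

theorem indep (A : Atlas P) (hD : Dense P) (j : Fin A.N) (Q : MvPolynomial (Fin 3) ℂ)
    (hQ : ∀ w, ‖exp w‖ < A.r j → MvPolynomial.eval (cht (A.mm j) (A.g j) w) Q = 0) : Q = 0 := by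
  by_contra h0
  obtain ⟨Q', h1, h2⟩ := (A.γ j).pull Q h0
  refine A.unc j (A.r j) (A.pos j) (((hD Q' h1).image (A.γ j).act).mono ?_)
  rintro _ ⟨w, hw, rfl⟩
  have h3 : ‖exp w‖ < A.r j := by simpa using hw
  obtain ⟨a1, -, a2⟩ := A.mem j w h3
  have a3 := (A.γ j).act_inv _ a1
  exact ⟨_, ⟨a2, h2 _ ((A.γ j).inv_mem _ a1) (by rw [a3]; exact hQ w h3)⟩, a3⟩

theorem param_le {α : Type} (S : Finset α) (φ : ℂ → α) (q : ℂ → Prop) {Q : ℝ}
    (hS : ∀ t ∈ S, ∃ s, q s ∧ φ s = t)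
    (hQ : ∀ S' : Finset ℂ, (∀ s ∈ S', q s) → (S'.card : ℝ) ≤ Q) : (S.card : ℝ) ≤ Q := by
  classical
  choose! σ h1 h2 using hS
  rw [← Finset.card_image_of_injOn (f := σ) fun t ht t' ht' h ↦ by rw [← h2 t ht, ← h2 t' ht', h]]
  refine hQ _ fun s hs ↦ ?_
  obtain ⟨t, ht, rfl⟩ := Finset.mem_image.1 hs
  exact h1 t ht

/-- points that depend on the value of one chart -/
theorem count_cht (m : T3) (g : Fin 3 → ℂ → ℂ) {r C0 : ℝ} (hr : 0 < r)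
    (hg : ∀ i, AnalyticOnNhd ℂ (g i) (ball 0 r))
    (hind : ∀ c : MvPolynomial (Fin 3) ℂ, (∀ w : ℂ, ‖exp w‖ < r →
      MvPolynomial.eval (cht m g w) c = 0) → c = 0) (hε : 0 < ε) (hC0 : 0 < C0) (c : ℝ) :
    ∃ C : ℝ, 0 ≤ C ∧ ∀ (M H : ℝ) (D : ℕ) (φ : T3 → Ch → ℂ) (S : Finset (Ch → ℂ)), 2 ≤ M →
      1 ≤ H → H ≤ M → 0 < D → (D : ℝ) ≤ M → (∀ x ∈ S, ∃ w, (‖exp w‖ ≤ r * Real.exp (-11) ∧
        |w.im| ≤ π ∧ (m = 0 ∨ -w.re ≤ c + H) ∧ ∀ M', M ≤ M' → C0 ≤ M' → (cht m g w 2).im ≤ M' →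
          RelH D (M' ^ 15) (cht m g w)) ∧ φ (cht m g w) = x) →
      (S.card : ℝ) ≤ C * H * M ^ ε := by
  obtain ⟨K, hK, hb⟩ := exists_bd hr hg
  have l0 := abs_nonneg (Real.log r)
  have c0 := abs_nonneg c
  have m0 := norm_nonneg m
  obtain ⟨L, hL⟩ : ∃ L, L = |Real.log r| + |c| + 5 := ⟨_, rfl⟩
  have L0 : 0 ≤ L := by linarith
  obtain ⟨K', hK'⟩ : ∃ K', K' = ‖m‖ * L + K + C0 := ⟨_, rfl⟩
  have k0 := mul_nonneg m0 L0
  have k1 : 1 ≤ K' := by linarith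
  have e1 : r * Real.exp (-11) ≤ r / 20 := by
    have h1 : 20 ≤ Real.exp 11 := by
      have := Real.quadratic_le_exp_of_nonneg (show (0 : ℝ) ≤ 11 by norm_num)
      linarith
    rw [Real.exp_neg, ← div_eq_mul_inv]
    gcongr
  have e2 : ∀ (M : ℝ) (w : ℂ), 2 ≤ M → ‖exp w‖ ≤ r * Real.exp (-11) → ‖m 2 * w‖ ≤ ‖m‖ * L * M →
      (cht m g w 2).im ≤ K' * M := fun M w hM h1 h2 ↦ by
    have := hb 2 _ ((h1.trans e1).trans (by linarith))
    refine (im_le_norm _).trans ((norm_add_le _ _).trans ?_)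
    rw [hK']
    nlinarith
  by_cases hm : m = 0
  · subst hm
    have a5 : ∀ w, cht 0 g w = fun i ↦ g i (exp w) := fun w ↦ funext fun i ↦ by simp [cht]
    obtain ⟨C, h0, hC⟩ := count_reg g hr hg (fun c h ↦ hind c fun w hw ↦ a5 w ▸ h w hw) hε
    refine ⟨C * K' ^ ε, by positivity, fun M H D φ S hM hH hHM d0 d1 hS ↦ ?_⟩
    refine (param_le S (fun u ↦ φ fun i ↦ g i u) (fun u ↦ ‖u‖ ≤ r / 20 ∧
      RelH D ((K' * M) ^ 15) fun i ↦ g i u) (fun x hx ↦ ?_) fun S' hS' ↦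
        hC (K' * M) D S' (by nlinarith) d0 (by nlinarith) hS').trans ?_
    · obtain ⟨w, ⟨a1, -, -, a2⟩, a3⟩ := hS x hx
      have a4 := a2 (K' * M) (by nlinarith) (by nlinarith)
        (e2 M w hM a1 (by rw [Pi.zero_apply, zero_mul, norm_zero]; positivity))
      rw [a5] at a3 a4
      exact ⟨_, ⟨a1.trans e1, a4⟩, a3⟩
    · rw [Real.mul_rpow (by linarith) (by linarith), ← mul_assoc, mul_right_comm _ H]
      exact le_mul_of_one_le_right (by positivity) hH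
  obtain ⟨C, h0, hC⟩ := count_log m g hr hg hind hε L0
  refine ⟨C * K' ^ ε, by positivity, fun M H D φ S hM hH hHM d0 d1 hS ↦ ?_⟩
  refine (param_le S (fun w ↦ φ (cht m g w)) _ hS fun S' hS' ↦
    hC (K' * M) H D S' (by nlinarith) hH (by nlinarith) d0 (by nlinarith) fun w hw ↦ ?_).trans_eq ?_
  · obtain ⟨a1, a2, a3, a4⟩ := hS' w hw
    have a5 : w.re ≤ Real.log r - 11 := by
      rwa [norm_exp, ← Real.exp_log hr, ← Real.exp_add, Real.exp_le_exp, ← sub_eq_add_neg] at a1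
    have a6 : ‖w‖ ≤ L * H := by
      have b1 : |w.re| ≤ |Real.log r| + |c| + H := abs_le.2 ⟨by
        linarith [a3.resolve_left hm, le_abs_self c], by linarith [le_abs_self (Real.log r)]⟩
      refine (norm_le_abs_re_add_abs_im _).trans ?_
      rw [hL]
      nlinarith [Real.pi_lt_four]
    refine ⟨a5, a2, a6, a4 _ (by nlinarith) (by nlinarith) (e2 M w hM a1 ?_)⟩
    rw [norm_mul, mul_assoc]
    exact mul_le_mul (norm_le_pi_norm m 2) (a6.trans (by gcongr)) (norm_nonneg _) m0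
  · rw [Real.mul_rpow (by linarith) (by linarith)]
    ring

end CNT

open CNT in
theorem st_CNT (hR : St_RED) (hH : St_HERM) : St_CNT := by
  classical
  rintro P ⟨A⟩ hD ε hε
  obtain ⟨C0, c0, h0⟩ := relH_of hH
  choose C C1 hC using fun j ↦ count_cht (A.mm j) (A.g j) (A.pos j) (A.an j) (indep A hD j) hε
    c0 A.C
  have s0 : 0 ≤ ∑ j, C j := Finset.sum_nonneg fun j _ ↦ C1 j
  refine ⟨A.F.card + ∑ j, C j, by positivity, fun M H D S hM hH1 hHM d1 hS ↦ ?_⟩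
  have e1 : 1 ≤ H * M ^ ε :=
    one_le_mul_of_one_le_of_one_le hH1 (Real.one_le_rpow (by linarith) hε.le)
  rw [← Finset.card_filter_add_card_filter_not (s := S) (· ∈ A.F), Nat.cast_add,
    mul_assoc, add_mul]
  refine add_le_add (le_trans ?_ (le_mul_of_one_le_right (Nat.cast_nonneg _) e1)) ?_
  · exact_mod_cast Finset.card_le_card fun x hx ↦ (Finset.mem_filter.1 hx).2
  rcases S.eq_empty_or_nonempty with rfl | ⟨x0, hx0⟩
  · simp only [Finset.filter_empty, Finset.card_empty, Nat.cast_zero]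
    positivity
  obtain ⟨-, -, -, -, t0, -, -, -, d0, -⟩ := hS x0 hx0
  rw [← mul_assoc, Finset.sum_mul, Finset.sum_mul]
  refine cover_le _ Finset.univ _ _ (fun x hx ↦ ?_) fun j _ S' hS' ↦ hC j M H D
    (fun τ m ↦ kk m ((A.γ j).inv τ) / kk 0 ((A.γ j).inv τ)) S' hM hH1 hHM d0.pos d1
    fun x hx ↦ (hS' x hx).2
  obtain ⟨a1, a2⟩ := Finset.mem_filter.1 hx
  obtain ⟨b1, b2, τ, v, t, b3, b4, b5, b6, b7⟩ := hS x a1
  obtain ⟨γ, hγ⟩ := hR τ b3.1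
  obtain ⟨j, w, c1, c2, c3, c4, c5⟩ := A.cover x b1 a2 τ b3 γ hγ
  refine ⟨j, Finset.mem_univ _, w, ⟨c1, c2, c5.imp_right fun ⟨m, h1, h2⟩ ↦ by linarith [b2 m h1],
    fun M' m1 m2 m3 ↦ ?_⟩, (funext c4.2.2).symm⟩
  rw [← c3] at m3 ⊢
  refine h0 _ hγ (γ.M τ v) t D M' (by linarith) m2 m3 (by linarith) (γ.act_mem τ b3.1)
    (fun h ↦ b5.1 ((γ.bij τ b3.1).1 (h.trans (map_zero _).symm))) b4 b6
    ((γ.lat τ b3.1 v).2 ?_) ?_ ?_
  · simpa using (b5.2 1).2 ⟨1, 0, by simp⟩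
  · rw [← map_smul]
    exact (γ.lat τ b3.1 _).2 ((b5.2 t).2 ⟨0, 1, by simp⟩)
  · rw [γ.herm τ b3.1]
    exact b7.trans m1

end Pool.Agent.Lib.ECM
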