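import Pool.Agent.Lib.ECM.CJ4
import Pool.Agent.Lib.ECM.Blue

/-! Rows CONJ and AUT of the master blueprint. -/

open Complex Filter Topology PeriodPair UpperHalfPlane
open scoped Real

namespace Pool.Agent.Lib.ECM

open Pool.Agent.Lib.ZP3 Pool.Agent.Lib.ZP3.WDE Pool.Agent.Lib.MP_0704bf_ag CJ

theorem Nrm.ne {τ0 : ℍ} {Ω : ℂ} (h : Nrm τ0 Ω) : Ω ≠ 0 := by
  rintro rfl
  have hπ : (π : ℂ) ≠ 0 := ofReal_ne_zero.2 Real.pi_ne_zero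
  exact mul_ne_zero (pow_ne_zero 12 (mul_ne_zero two_ne_zero hπ))
    (ModularForm.discriminant_ne_zero τ0) (by simpa [Nrm] using h.symm)

theorem nrm_iff {τ0 : ℍ} {Ω : ℂ} (h : Ω ≠ 0) :
    Nrm τ0 Ω ↔ (pp τ0 h).g₂ ^ 3 - 27 * (pp τ0 h).g₃ ^ 2 = 12 ^ 6 := by
  rw [disc_pp, div_eq_iff (pow_ne_zero _ h), Nrm, mul_comm, eq_comm]

/-- conjugation for any ring homomorphism and any choice of the conjugate curve -/
theorem conj_hom (H : TH) (σ : ℂ →+* ℂ) {x : Ch → ℂ} {τ τ' : T3} {v : V2} {τ0 τ0' : ℍ} {Ω : ℂ}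
    (hx : Over x τ) (hg : Gen τ) (hx' : Over (fun m ↦ σ (x m)) τ') (hv : Line τ v τ0)
    (hΩ : Nrm τ0 Ω) (hj : jInv τ0' = σ (jInv τ0)) :
    ∃ (v' : V2) (Ω' : ℂ), Line τ' v' τ0' ∧ Nrm τ0' Ω' ∧ gg2 τ0' Ω' = σ (gg2 τ0 Ω) ∧
      gg3 τ0' Ω' = σ (gg3 τ0 Ω) ∧ ∀ h, lv τ' (Ω'⁻¹ • v') h = σ (lv τ (Ω⁻¹ • v) h) := by
  have h0 := hΩ.ne
  have key : ∀ w : ℂ, w • Ω⁻¹ • v ∈ Lat τ ↔ ∃ m n : ℤ, w = Ω * (m + n * τ0) := fun w ↦ by
    rw [smul_smul, hv.2]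
    exact exists₂_congr fun m n ↦ by rw [mul_inv_eq_iff_eq_mul₀ h0, mul_comm]
  obtain ⟨u', Ω', h', -, hu', hc, a, b, g2, g3, -, hp⟩ := conj_line (σ := σ) H hx.1 hx'.1 hg
    (fun m ↦ by rw [← hx.2.2, ← hx'.2.2]) hj h0 (smul_ne_zero (inv_ne_zero h0) hv.1)
    ((key _).2 ⟨1, 0, by simp⟩) ((key _).2 ⟨0, 1, by simp⟩)
  refine ⟨Ω' • u', Ω', ⟨smul_ne_zero h' hu', fun z ↦ ⟨fun hz ↦ ?_, ?_⟩⟩, ?_, ?_, ?_, fun h ↦ ?_⟩
  · obtain ⟨m, n, e⟩ := hp (fun w ↦ (key w).1) (z * Ω') (by rwa [mul_smul])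
    exact ⟨m, n, mul_right_cancel₀ h' (e.trans (mul_comm _ _))⟩
  · rintro ⟨m, n, rfl⟩
    rw [smul_smul, mul_comm]
    exact pp_le H h' a b _ ((mem_pp _ h' _).2 ⟨m, n, rfl⟩)
  · have := congrArg σ ((nrm_iff h0).1 hΩ)
    simp only [map_sub, map_mul, map_pow, map_ofNat, ← g2, ← g3] at this
    exact (nrm_iff h').2 this
  · rwa [g2_pp, g2_pp] at g2
  · rwa [g3_pp, g3_pp] at g3
  · rw [inv_smul_smul₀ h']
    exact hc.hl h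

theorem st_CONJ (H : TH) : St_CONJ := by
  intro σ x τ τ' v τ0 Ω hx hg hx' hv hΩ
  obtain ⟨τ0', hfd, hj⟩ := j_surj (σ (jInv τ0))
  obtain ⟨v', Ω', a, b, c⟩ := conj_hom H (σ : ℂ →+* ℂ) hx hg hx' hv hΩ hj
  exact ⟨v', τ0', Ω', hfd, a, b, hj, c⟩

theorem st_AUT : St_AUT where
  ext σ := exists_aut σ (S := {z | IsAlgebraic ℚ z}) (Algebraic.countable ℚ ℂ)
  alg z h := by
    by_contra hz
    have : Uncountable ℂ := Complex.ofReal_injective.uncountable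
    have h1 : ¬ ({w : ℂ | IsAlgebraic ℚ w} ∪ Set.range fun σ : ℂ ≃+* ℂ ↦ σ z) = Set.univ :=
      fun e ↦ Set.not_countable_univ (e ▸ (Algebraic.countable ℚ ℂ).union h)
    obtain ⟨w, hw⟩ := (Set.ne_univ_iff_exists_notMem _).1 h1
    rw [Set.mem_union, not_or] at hw
    have : Countable (Polynomial ℚ) := by
      rw [← Cardinal.mk_le_aleph0_iff]
      exact Polynomial.cardinalMk_le_max.trans (max_le Cardinal.mk_le_aleph0 le_rfl)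
    obtain ⟨ρ, hρ⟩ := Pool.Agent.RC.H89.exists_aut_of_injective (R := Polynomial ℚ)
      (Polynomial.aeval z).toRingHom (Polynomial.aeval w).toRingHom
      (transcendental_iff_injective.1 hz) (transcendental_iff_injective.1 hw.1)
    exact hw.2 ⟨ρ, by simpa using hρ Polynomial.X⟩

end Pool.Agent.Lib.ECM
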