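import Pool.Agent.Lib.ECM.Blue
import Pool.Agent.Lib.helper6.Dim

/-! On a curve any two coordinates satisfy a polynomial relation. -/

open Polynomial

namespace Pool.Agent.Lib.ECM

namespace MDIM

theorem e2_equiv (f : ℚ[X][X]) (t x : ℂ) :
    e2 f t x = MvPolynomial.aeval ![t, x] (Bivariate.equivMvPolynomial ℚ f) := by
  induction f using Polynomial.induction_on' with
  | add p q hp hq =>
    simp only [e2, Polynomial.map_add, eval_add, map_add] at hp hq ⊢
    rw [hp, hq]
  | monomial n a =>
    rw [← C_mul_X_pow_eq_monomial]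
    simp only [e2, Polynomial.map_mul, Polynomial.map_pow, map_C, map_X, eval_mul, eval_pow,
      eval_C, eval_X, map_mul, map_pow, Bivariate.equivMvPolynomial_X, MvPolynomial.aeval_X]
    congr 1
    induction a using Polynomial.induction_on' with
    | add p q hp hq => simp only [map_add, hp, hq]
    | monomial m b =>
      rw [← C_mul_X_pow_eq_monomial]
      simp

end MDIM

theorem st_DIM : St_DIM := by
  intro P _ hd i j
  have h : ¬ AlgebraicIndependent ℚ
      (fun a ↦ Ideal.Quotient.mkₐ ℚ P (MvPolynomial.X (![i, j] a)) : Fin 2 → _) := fun h ↦ by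
    have h1 := Pool.Agent.Lib.helper6.card_le_dim h
    rw [hd, Nat.card_eq_fintype_card, Fintype.card_fin] at h1
    exact absurd h1 (by decide)
  rw [algebraicIndependent_iff] at h
  push Not at h
  obtain ⟨p, hp, p0⟩ := h
  refine ⟨(Bivariate.equivMvPolynomial ℚ).symm p, by simpa using p0, fun x hx ↦ ?_⟩
  rw [← MvPolynomial.comp_aeval_apply, Ideal.Quotient.mkₐ_eq_mk,
    Ideal.Quotient.eq_zero_iff_mem] at hp
  have h2 := hx _ hp
  rw [MvPolynomial.comp_aeval_apply] at h2
  rw [MDIM.e2_equiv, AlgEquiv.apply_symm_apply, ← h2]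
  congr 2
  funext a
  fin_cases a <;> simp

end Pool.Agent.Lib.ECM
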