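import Pool.Agent.Lib.ECM.Blue

/-! The fibres of the theta null map are countable (problem MP_0704bf_ag). -/

noncomputable section

namespace Pool.Agent.Lib.ECM

namespace MFIB

/-- period matrices with respect to a given basis -/
def S (a b c d : V2) : Set T3 :=
  {τ | (∀ s t : ℂ, s • a + t • b = 0 → s = 0 ∧ t = 0) ∧ c = τ 0 • a + τ 1 • b ∧
    d = τ 1 • a + τ 2 • b}

theorem S_sub (a b c d : V2) : (S a b c d).Subsingleton := by
  rintro τ ⟨h, h1, h2⟩ τ' ⟨-, k1, k2⟩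
  have e1 := h (τ 0 - τ' 0) (τ 1 - τ' 1) (by
    rw [sub_smul, sub_smul, sub_add_sub_comm, ← h1, ← k1, sub_self])
  have e2 := h (τ 1 - τ' 1) (τ 2 - τ' 2) (by
    rw [sub_smul, sub_smul, sub_add_sub_comm, ← h2, ← k2, sub_self])
  funext i
  fin_cases i
  exacts [sub_eq_zero.1 e1.1, sub_eq_zero.1 e1.2, sub_eq_zero.1 e2.2]

theorem lat_count (τ : T3) : (Lat τ).Countable :=
  (Set.countable_range fun p : (ℤ × ℤ) × (ℤ × ℤ) ↦ per τ (iv p.1) (iv p.2)).mono
    (by
      rintro z ⟨m, n, h⟩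
      exact ⟨(m, n), h.symm⟩)

end MFIB

open MFIB in
theorem st_FIB (hTOR : St_TOR) (_hHERM : St_HERM) : St_FIB := by
  intro x hx
  rcases Set.eq_empty_or_nonempty {τ | Over x τ} with h | ⟨τ, hτ, h0, hk⟩
  · rw [h]
    exact Set.countable_empty
  have hL := lat_count τ
  refine (hL.biUnion fun a _ ↦ hL.biUnion fun b _ ↦ hL.biUnion fun c _ ↦ hL.biUnion fun d _ ↦
    (S_sub a b c d).countable).mono ?_
  rintro τ' ⟨hτ', h0', hk'⟩
  obtain ⟨M, -, hM, -⟩ := hTOR τ hτ τ' hτ' (kk 0 τ' / kk 0 τ)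
    (fun m hm e ↦ hx m hm (by rw [hk m, e, zero_div])) (div_ne_zero h0' h0) fun m ↦ by
      have e := (hk m).symm.trans (hk' m)
      field_simp at e ⊢
      linear_combination -e
  have k : ∀ m n : ℤ × ℤ, M.symm (per τ' (iv m) (iv n)) ∈ Lat τ := fun m n ↦
    (hM _).1 ⟨m, n, M.apply_symm_apply _⟩
  simp only [Set.mem_iUnion]
  refine ⟨_, k (1, 0) 0, _, k (0, 1) 0, _, k 0 (1, 0), _, k 0 (0, 1), fun s t e ↦ ?_, ?_, ?_⟩
  · rw [← map_smul, ← map_smul, ← map_add, M.symm.map_eq_zero_iff] at e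
    exact ⟨by simpa [per, iv] using congrFun e 0, by simpa [per, iv] using congrFun e 1⟩
  · rw [← map_smul, ← map_smul, ← map_add]
    congr 1
    funext i
    fin_cases i <;> simp [per, iv]
  · rw [← map_smul, ← map_smul, ← map_add]
    congr 1
    funext i
    fin_cases i <;> simp [per, iv]

end Pool.Agent.Lib.ECM
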