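import Mathlib

/-! Arithmetic of the quadratic character attached to a negative discriminant. -/

open Finset ArithmeticFunction
open scoped NumberTheorySymbols

namespace Pool.Agent.Lib.ECM.CM

/-- the indicator of the numbers prime to `4 D` -/
def uF (D : ℕ) : ArithmeticFunction ℝ :=
  ⟨fun n ↦ if n.Coprime (4 * D) then 1 else 0, if_neg (by rw [Nat.coprime_zero_left]; omega)⟩

/-- the Jacobi symbol on odd numbers -/
def xF (D : ℕ) : ArithmeticFunction ℤ := ⟨fun n ↦ if Odd n then J(-(D : ℤ) | n) else 0, by simp⟩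

/-- the number of square roots of `-D` -/
noncomputable def rF (D : ℕ) : ArithmeticFunction ℝ :=
  ⟨fun n ↦ uF D n * Nat.card {x : ZMod n // x ^ 2 = -(D : ZMod n)}, by simp⟩

/-- the indicator of the squares -/
def sF : ArithmeticFunction ℝ := ⟨fun n ↦ if n ≠ 0 ∧ IsSquare n then 1 else 0, by simp⟩

variable {D : ℕ}

theorem uF_apply (n : ℕ) : uF D n = if n.Coprime (4 * D) then 1 else 0 := rfl

theorem xF_apply (n : ℕ) : xF D n = if Odd n then J(-(D : ℤ) | n) else 0 := rfl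

theorem rF_apply (n : ℕ) :
    rF D n = uF D n * Nat.card {x : ZMod n // x ^ 2 = -(D : ZMod n)} := rfl

theorem sF_apply (n : ℕ) : sF n = if n ≠ 0 ∧ IsSquare n then 1 else 0 := rfl

theorem sF_nonneg (n : ℕ) : 0 ≤ sF n := by
  rw [sF_apply]
  split_ifs <;> norm_num

theorem rF_nonneg (n : ℕ) : 0 ≤ rF D n := by
  rw [rF_apply, uF_apply]
  split_ifs <;> simp

theorem uF_mul (m n : ℕ) : uF D (m * n) = uF D m * uF D n := by
  simp only [uF_apply, Nat.coprime_mul_iff_left, ite_and, ite_mul, one_mul, zero_mul]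

theorem xF_mul (m n : ℕ) : xF D (m * n) = xF D m * xF D n := by
  simp only [xF_apply, Nat.odd_mul]
  by_cases h1 : Odd m <;> by_cases h2 : Odd n <;> simp [h1, h2]
  exact jacobiSym.mul_right' _ h1.pos.ne' h2.pos.ne'

theorem xF_mod (n : ℕ) : xF D (n % (4 * D)) = xF D n := by
  have h : Odd (n % (4 * D)) ↔ Odd n := by
    rw [Nat.odd_iff, Nat.odd_iff, Nat.mod_mod_of_dvd _ ⟨2 * D, by ring⟩]
  simp only [xF_apply, h]
  split_ifs with h1
  · rw [jacobiSym.mod_right _ h1, Int.natAbs_neg, Int.natAbs_natCast]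
  · rfl

theorem xF_zero {n : ℕ} (h : ¬ n.Coprime (4 * D)) : xF D n = 0 := by
  rw [xF_apply]
  split_ifs with h1
  · refine jacobiSym.eq_zero_iff.2 ⟨h1.pos.ne', fun h2 ↦ h ?_⟩
    rw [Int.neg_gcd, Int.gcd_natCast_natCast] at h2
    exact Nat.Coprime.mul_right (Nat.Coprime.pow_right 2 h1.coprime_two_right) (Nat.Coprime.symm h2)
  · rfl

theorem xF_unit {n : ℕ} (h : n.Coprime (4 * D)) : Odd n ∧ (xF D n = 1 ∨ xF D n = -1) := by
  have h1 : Odd n := (h.coprime_dvd_right ⟨2 * D, by ring⟩).odd_of_right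
  rw [xF_apply, if_pos h1]
  refine ⟨h1, jacobiSym.eq_one_or_neg_one ?_⟩
  rw [Int.neg_gcd, Int.gcd_natCast_natCast]
  exact (h.coprime_mul_left_right).symm

theorem exists_chi (D : ℕ) [NeZero (4 * D)] : ∃ χ : DirichletCharacter ℂ (4 * D),
    χ ^ 2 = 1 ∧ χ ≠ 1 ∧ ∀ n : ℕ, χ n = xF D n := by
  have hD : D ≠ 0 := right_ne_zero_of_mul (NeZero.ne (4 * D))
  have : Fact (1 < 4 * D) := ⟨by omega⟩
  let χ : DirichletCharacter ℂ (4 * D) :=
    { toFun := fun x ↦ xF D x.val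
      map_one' := by simp [ZMod.val_one, xF_apply]
      map_mul' := fun x y ↦ by rw [ZMod.val_mul, xF_mod, xF_mul, Int.cast_mul]
      map_nonunit' := fun x hx ↦ by
        rw [← ZMod.natCast_zmod_val x, ZMod.isUnit_iff_coprime] at hx
        simp [xF_zero hx] }
  have h1 : ∀ n : ℕ, χ n = xF D n := fun n ↦ by
    change ((xF D (n : ZMod (4 * D)).val : ℤ) : ℂ) = _
    rw [ZMod.val_natCast, xF_mod]
  refine ⟨χ, MulChar.IsQuadratic.sq_eq_one fun x ↦ ?_, fun h ↦ ?_, h1⟩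
  · rw [← ZMod.natCast_zmod_val x, h1]
    by_cases h : x.val.Coprime (4 * D)
    · rcases (xF_unit h).2 with h | h <;> simp [h]
    · simp [xF_zero h]
  · obtain ⟨E, rfl⟩ : ∃ E, D = E + 1 := ⟨D - 1, by omega⟩
    have ho : Odd (4 * E + 3) := ⟨2 * E + 1, by ring⟩
    have h2 : J(4 * -((E + 1 : ℕ) : ℤ) | 4 * E + 3) = J(-1 | 4 * E + 3) :=
      jacobiSym.mod_left' (Int.modEq_iff_dvd.2 ⟨1, by push_cast; ring⟩)
    rw [jacobiSym.mul_left, jacobiSym.at_four ho, one_mul, jacobiSym.at_neg_one ho,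
      ZMod.χ₄_nat_three_mod_four (by omega)] at h2
    have h3 := h1 (4 * E + 3)
    rw [xF_apply, if_pos ho, h2, h, MulChar.one_apply ((ZMod.isUnit_iff_coprime _ _).2 (by
      rw [show 4 * (E + 1) = 4 * E + 3 + 1 by ring]; simp))] at h3
    norm_num at h3

theorem one_eq_uF (D : ℕ) (n : ℕ) : (1 : DirichletCharacter ℂ (4 * D)) n = uF D n := by
  rw [uF_apply]
  split_ifs with h
  · simpa using MulChar.one_apply ((ZMod.isUnit_iff_coprime _ _).2 h)
  · simpa using MulChar.map_nonunit _ (mt (ZMod.isUnit_iff_coprime _ _).1 h)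

theorem sF_mult : sF.IsMultiplicative := by
  refine ⟨by simp [sF_apply], fun {m n} h ↦ ?_⟩
  have h1 : IsSquare (m * n) ↔ IsSquare m ∧ IsSquare n := by
    refine ⟨fun ⟨c, hc⟩ ↦ ?_, fun h ↦ h.1.mul h.2⟩
    rw [← sq] at hc
    obtain ⟨d, hd⟩ := exists_eq_pow_of_mul_eq_pow (Nat.isUnit_iff.2 h) hc
    obtain ⟨e, he⟩ := exists_eq_pow_of_mul_eq_pow (Nat.isUnit_iff.2 h.symm) (mul_comm m n ▸ hc)
    exact ⟨⟨d, by rw [hd, sq]⟩, e, by rw [he, sq]⟩
  simp only [sF_apply, h1, mul_ne_zero_iff]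
  by_cases h2 : m ≠ 0 ∧ IsSquare m <;> by_cases h3 : n ≠ 0 ∧ IsSquare n
  · simp [h2, h3]
  · rw [if_neg (by tauto), if_neg h3, mul_zero]
  · rw [if_neg (by tauto), if_neg h2, zero_mul]
  · rw [if_neg (by tauto), if_neg h2, zero_mul]

theorem rF_one : rF D 1 = 1 := by
  have : Unique {x : ZMod 1 // x ^ 2 = -(D : ZMod 1)} :=
    ⟨⟨⟨0, Subsingleton.elim _ _⟩⟩, fun _ ↦ Subsingleton.elim _ _⟩
  simp [rF_apply, uF_apply]

theorem rF_mult : (rF D).IsMultiplicative := by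
  refine ⟨rF_one, fun {m n} h ↦ ?_⟩
  have e : {x : ZMod (m * n) // x ^ 2 = -(D : ZMod (m * n))} ≃
      {x : ZMod m // x ^ 2 = -(D : ZMod m)} × {x : ZMod n // x ^ 2 = -(D : ZMod n)} :=
    ((ZMod.chineseRemainder h).toEquiv.subtypeEquiv fun x ↦ by
      rw [← (ZMod.chineseRemainder h).injective.eq_iff, map_pow, map_neg, map_natCast, Prod.ext_iff]
      simp).trans Equiv.subtypeProdEquivProd
  rw [rF_apply, rF_apply, rF_apply, uF_mul, Nat.card_congr e, Nat.card_prod, Nat.cast_mul]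
  ring

theorem hensel {p : ℕ} (hp : p.Prime) (h : p.Coprime (4 * D)) (h1 : xF D p = 1) (k : ℕ) :
    ∃ x : ℤ, ¬ (p : ℤ) ∣ 2 * x ∧ (p : ℤ) ^ (k + 1) ∣ x ^ 2 + D := by
  have : Fact p.Prime := ⟨hp⟩
  have key : ∀ x : ℤ, (p : ℤ) ∣ x ^ 2 + D → ¬ (p : ℤ) ∣ 2 * x := fun x h2 h3 ↦ by
    have h4 : (p : ℤ) ∣ (4 * D : ℕ) := by
      have := (h2.mul_left 4).sub (h3.mul_left (2 * x))
      rwa [show 4 * (x ^ 2 + D) - 2 * x * (2 * x) = (4 * D : ℕ) by push_cast; ring] at this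
    exact hp.coprime_iff_not_dvd.1 h (Int.natCast_dvd_natCast.1 h4)
  induction k with
  | zero =>
    rw [xF_apply, if_pos (xF_unit h).1] at h1
    obtain ⟨y, hy⟩ := ZMod.isSquare_of_jacobiSym_eq_one h1
    obtain ⟨x, rfl⟩ := ZMod.intCast_surjective y
    have h2 : (p : ℤ) ∣ x ^ 2 + D := by
      rw [← ZMod.intCast_zmod_eq_zero_iff_dvd]
      push_cast at hy ⊢
      linear_combination -hy
    exact ⟨x, key x h2, by simpa using h2⟩
  | succ k ih =>
    obtain ⟨x, h2, m, hm⟩ := ih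
    obtain ⟨u, v, huv⟩ := (Nat.prime_iff_prime_int.1 hp).irreducible.coprime_iff_not_dvd.2 h2
    have h3 : (p : ℤ) ^ (k + 1 + 1) ∣ (x - m * v * p ^ (k + 1)) ^ 2 + D :=
      ⟨m * u + m ^ 2 * v ^ 2 * p ^ k, by linear_combination hm - m * p ^ (k + 1) * huv⟩
    exact ⟨_, key _ ((dvd_pow_self _ (by omega)).trans h3), h3⟩

theorem rF_ge {p : ℕ} (hp : p.Prime) (h : p.Coprime (4 * D)) (k : ℕ) :
    1 + (xF D p : ℝ) ≤ rF D (p ^ (k + 1)) := by
  rcases (xF_unit h).2 with h1 | h1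
  · obtain ⟨x, h2, h3⟩ := hensel hp h h1 k
    have : NeZero (p ^ (k + 1)) := ⟨pow_ne_zero _ hp.ne_zero⟩
    have h4 : (x : ZMod (p ^ (k + 1))) ^ 2 = -(D : ZMod (p ^ (k + 1))) := by
      rw [← Nat.cast_pow, ← ZMod.intCast_zmod_eq_zero_iff_dvd] at h3
      push_cast at h3
      linear_combination h3
    have : Nontrivial {x : ZMod (p ^ (k + 1)) // x ^ 2 = -(D : ZMod (p ^ (k + 1)))} := by
      refine ⟨⟨x, h4⟩, ⟨-x, by rw [neg_sq, h4]⟩, fun e ↦ h2 ?_⟩
      have h5 : ((2 * x : ℤ) : ZMod (p ^ (k + 1))) = 0 := by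
        have := congrArg Subtype.val e
        push_cast at this ⊢
        linear_combination this
      rw [ZMod.intCast_zmod_eq_zero_iff_dvd, Nat.cast_pow] at h5
      exact (dvd_pow_self _ (by omega)).trans h5
    have h5 := Finite.one_lt_card (α := {x : ZMod (p ^ (k + 1)) // x ^ 2 = -(D : ZMod (p ^ (k + 1)))})
    rw [rF_apply, uF_apply, if_pos (h.pow_left _), one_mul, h1]
    exact_mod_cast h5
  · simpa [h1] using rF_nonneg _

theorem mul_pp (f g : ArithmeticFunction ℝ) {p : ℕ} (hp : p.Prime) (k : ℕ) :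
    (f * g) (p ^ k) = ∑ j ∈ range (k + 1), f (p ^ j) * g (p ^ (k - j)) := by
  rw [mul_apply, Nat.sum_divisorsAntidiagonal (fun a b ↦ f a * g b), Nat.sum_divisors_prime_pow hp]
  exact sum_congr rfl fun j hj ↦ by rw [Nat.pow_div (Nat.lt_succ_iff.1 (mem_range.1 hj)) hp.pos]

theorem conv_le (D n : ℕ) : |((xF D : ArithmeticFunction ℝ) * uF D) n| ≤ (sF * rF D) n := by
  rcases eq_or_ne n 0 with rfl | hn
  · simp
  have m1 : ((xF D : ArithmeticFunction ℝ) * uF D).IsMultiplicative :=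
    (IsMultiplicative.intCast ⟨by simp [xF_apply], fun _ ↦ xF_mul _ _⟩).mul
      ⟨by simp [uF_apply], fun _ ↦ uF_mul _ _⟩
  rw [m1.multiplicative_factorization _ hn, (sF_mult.mul rF_mult).multiplicative_factorization _ hn,
    Finsupp.prod, Finsupp.prod, abs_prod]
  refine prod_le_prod (fun _ _ ↦ abs_nonneg _) fun p hp ↦ ?_
  have hp := Nat.prime_of_mem_primeFactors hp
  generalize n.factorization p = k
  have s1 : sF 1 = 1 := sF_mult.1
  have x1 : xF D 1 = 1 := by simp [xF_apply]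
  have u1 : uF D 1 = 1 := by simp [uF_apply]
  by_cases h : p.Coprime (4 * D)
  · have hu : ∀ j, uF D (p ^ j) = 1 := fun j ↦ if_pos (h.pow_left _)
    have h2 : xF D p * xF D p = 1 := by rcases (xF_unit h).2 with h | h <;> simp [h]
    have h3 : (0 : ℝ) ≤ 1 + xF D p := by rcases (xF_unit h).2 with h | h <;> simp [h]
    simp only [mul_pp _ _ hp, intCoe_apply, hu, mul_one]
    induction k using Nat.twoStepInduction with
    | zero => simp [s1, x1, rF_one]
    | one =>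
      have := rF_ge hp h 0
      have := mul_nonneg (sF_nonneg p) (rF_nonneg (D := D) 1)
      simp only [sum_range_succ, range_zero, sum_empty, zero_add, pow_zero, pow_one, s1, x1,
        Nat.sub_zero, Nat.sub_self, one_mul, Int.cast_one, abs_of_nonneg h3] at *
      linarith
    | more k ih _ =>
      rw [sum_range_succ', sum_range_succ', sum_range_succ' _ (k + 2), sum_range_succ' _ (k + 1)]
      have e1 : ∀ j, xF D (p ^ (j + 1 + 1)) = xF D (p ^ j) := fun j ↦ by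
        rw [pow_succ, pow_succ, xF_mul, xF_mul, mul_assoc, h2, mul_one]
      have e2 : ∑ j ∈ range (k + 1), sF (p ^ j) * rF D (p ^ (k - j)) ≤
          ∑ j ∈ range (k + 1), sF (p ^ (j + 1 + 1)) * rF D (p ^ (k + 2 - (j + 1 + 1))) := by
        refine sum_le_sum fun j _ ↦ le_of_eq ?_
        have e3 : sF (p ^ (j + 1 + 1)) = sF (p ^ j) := by
          have e4 : IsSquare (p ^ (j + 1 + 1)) ↔ IsSquare (p ^ j) := by
            refine ⟨fun ⟨c, hc⟩ ↦ ?_, fun h ↦ by rw [pow_succ, pow_succ, mul_assoc]; exact h.mul ⟨p, rfl⟩⟩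
            obtain ⟨d, rfl⟩ := hp.dvd_of_dvd_pow (show p ∣ c ^ 2 from ⟨p ^ (j + 1), by rw [sq, ← hc]; ring⟩)
            exact ⟨d, mul_left_cancel₀ (mul_self_ne_zero.2 hp.ne_zero) (by linear_combination hc)⟩
          simp [sF_apply, e4, hp.ne_zero]
        rw [e3, show k + 2 - (j + 1 + 1) = k - j by omega]
      have := rF_ge hp h (k + 1)
      have := mul_nonneg (sF_nonneg (p ^ (0 + 1))) (rF_nonneg (D := D) (p ^ (k + 2 - (0 + 1))))
      simp only [e1, pow_zero, s1, x1, Nat.sub_zero, one_mul, Int.cast_one, zero_add, pow_one] at *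
      rw [add_assoc]
      refine (abs_add_le _ _).trans ?_
      rw [add_comm (xF D p : ℝ), abs_of_nonneg h3]
      linarith
  · rcases k with _ | k
    · simp [s1, x1, u1, rF_one]
    · have h0 : ((xF D : ArithmeticFunction ℝ) * uF D) (p ^ (k + 1)) = 0 := by
        rw [mul_pp _ _ hp]
        refine sum_eq_zero fun j hj ↦ ?_
        rcases j with _ | j
        · rw [Nat.sub_zero, pow_succ, uF_mul, uF_apply p, if_neg h, mul_zero, mul_zero]
        · rw [intCoe_apply, pow_succ, xF_mul, xF_zero h, mul_zero, Int.cast_zero, zero_mul]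
      rw [h0, abs_zero, mul_apply]
      exact sum_nonneg fun _ _ ↦ mul_nonneg (sF_nonneg _) (rF_nonneg _)

theorem sum_sF (f : ℕ → ℝ) (hf : ∀ n, 0 ≤ f n) (N : ℕ) :
    ∑ n ∈ Ioc 0 N, sF n * f n ≤ ∑ m ∈ Ioc 0 N.sqrt, f (m ^ 2) := by
  have h1 : ∑ n ∈ Ioc 0 N, sF n * f n = ∑ n ∈ (Ioc 0 N).filter (fun n ↦ n ≠ 0 ∧ IsSquare n), f n := by
    rw [sum_filter]
    exact sum_congr rfl fun n _ ↦ by rw [sF_apply]; split_ifs <;> simp
  rw [h1, ← sum_image (s := Ioc 0 N.sqrt) (g := fun m : ℕ ↦ m ^ 2) (f := f)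
    (Nat.pow_left_injective two_ne_zero).injOn]
  refine sum_le_sum_of_subset_of_nonneg (fun n hn ↦ ?_) fun _ _ _ ↦ hf _
  obtain ⟨h2, h3, m, rfl⟩ := mem_filter.1 hn
  exact mem_image.2 ⟨m, mem_Ioc.2 ⟨Nat.pos_of_ne_zero (left_ne_zero_of_mul h3),
    Nat.le_sqrt.2 (mem_Ioc.1 h2).2⟩, sq m⟩

theorem sum_conv_le {M K : ℝ} (hM : 0 < M) (hK : 0 ≤ K)
    (h : ∀ N : ℕ, ∑ n ∈ Ioc 0 N, rF D n ≤ M * N + K) (N : ℕ) :
    ∑ n ∈ Ioc 0 N, (sF * rF D) n ≤ 3 * M * N + K ^ 2 / M := by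
  rw [sum_Ioc_mul_eq_sum_sum]
  have h1 : ∑ n ∈ Ioc 0 N, sF n * ∑ m ∈ Ioc 0 (N / n), rF D m ≤
      ∑ n ∈ Ioc 0 N, sF n * (M * N * (n : ℝ)⁻¹ + K) := by
    refine sum_le_sum fun n _ ↦ mul_le_mul_of_nonneg_left ((h _).trans ?_) (sF_nonneg _)
    rw [mul_assoc, ← div_eq_mul_inv]
    gcongr
    exact Nat.cast_div_le
  refine h1.trans ((sum_sF _ (fun n ↦ by positivity) N).trans ?_)
  have h2 := sum_Ioo_inv_sq_le (α := ℝ) 0 (N.sqrt + 1)
  rw [Ioo_add_one_right_eq_Ioc] at h2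
  have h3 : ((N.sqrt : ℝ)) ^ 2 ≤ N := by exact_mod_cast Nat.sqrt_le' N
  have h4 : K * N.sqrt ≤ M * N.sqrt ^ 2 + K ^ 2 / M := by
    rw [← sub_nonneg, show M * N.sqrt ^ 2 + K ^ 2 / M - K * N.sqrt =
      ((M * N.sqrt - K) ^ 2 + M * N.sqrt * K) / M by field_simp; ring]
    positivity
  simp only [sum_add_distrib, ← mul_sum, sum_const, Nat.card_Ioc, Nat.sub_zero, nsmul_eq_mul,
    Nat.cast_pow]
  norm_num at h2
  have h5 := mul_le_mul_of_nonneg_left h2 (by positivity : 0 ≤ M * N)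
  nlinarith

theorem abel_le {a w : ℕ → ℝ} {M K : ℝ} (h : ∀ N : ℕ, ∑ n ∈ Ioc 0 N, a n ≤ M * N + K)
    (hw : ∀ n, 0 ≤ w n) (hw' : ∀ n, 0 < n → w (n + 1) ≤ w n) (N : ℕ) :
    ∑ n ∈ Ioc 0 N, a n * w n ≤ M * ∑ n ∈ Ioc 0 N, w n + K * w 1 := by
  have key : ∀ N : ℕ, (M * N + K - ∑ n ∈ Ioc 0 N, a n) * w (N + 1) ≤
      M * ∑ n ∈ Ioc 0 N, w n + K * w 1 - ∑ n ∈ Ioc 0 N, a n * w n := by
    intro N
    induction N with
    | zero => simp
    | succ N ih =>
      have h1 := mul_le_mul_of_nonneg_left (hw' (N + 1) (by omega)) (sub_nonneg.2 (h (N + 1)))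
      rw [sum_Ioc_succ_top (by omega)] at h1
      simp only [sum_Ioc_succ_top (Nat.zero_le N)]
      push_cast at h1 ⊢
      linarith
  have := mul_nonneg (sub_nonneg.2 (h N)) (hw (N + 1))
  linarith [key N]

open Filter Topology DirichletCharacter in
theorem residue_le (D : ℕ) [NeZero (4 * D)] {χ : DirichletCharacter ℂ (4 * D)} (h1 : χ ≠ 1)
    (hχ : ∀ n : ℕ, χ n = xF D n) {M K : ℝ} (hM : 0 < M) (hK : 0 ≤ K)
    (h : ∀ N : ℕ, ∑ n ∈ Ioc 0 N, rF D n ≤ M * N + K) :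
    ‖LFunction χ 1‖ * ‖∏ p ∈ (4 * D).primeFactors, (1 - (p : ℂ)⁻¹)‖ ≤ 3 * M := by
  have t0 : Tendsto (fun s : ℝ ↦ (s : ℂ)) (𝓝[>] 1) (𝓝[≠] 1) :=
    tendsto_nhdsWithin_iff.2 ⟨(Complex.continuous_ofReal.tendsto' 1 1 (by simp)).mono_left
      nhdsWithin_le_nhds, eventually_nhdsWithin_of_forall fun s hs e ↦ by
        exact (ne_of_gt (show 1 < s from hs)) (Complex.ofReal_eq_one.1 e)⟩
  have t1 := ((((differentiable_LFunction h1).continuous.tendsto 1).comp
    (t0.mono_right nhdsWithin_le_nhds)).norm).mul ((LFunctionTrivChar_residue_one (N := 4 * D)).comp t0).norm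
  have t2 := ((riemannZeta_residue_one.comp t0).norm.const_mul (3 * M)).add
    (((continuous_sub_right (1 : ℝ)).tendsto' 1 0 (by simp)).mono_left
      (nhdsWithin_le_nhds (s := Set.Ioi 1))|>.mul_const (K ^ 2 / M))
  rw [norm_one, mul_one, zero_mul, add_zero] at t2
  refine le_of_tendsto_of_tendsto t1 t2 (eventually_nhdsWithin_of_forall fun s hs ↦ ?_)
  have hs : 1 < s := hs
  have hs' : 1 < (s : ℂ).re := hs
  have hz : ‖riemannZeta s‖ = ∑' n : ℕ, 1 / (n : ℝ) ^ s := by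
    rw [zeta_eq_tsum_one_div_nat_cpow hs']
    have : ∀ n : ℕ, 1 / (n : ℂ) ^ (s : ℂ) = ((1 / (n : ℝ) ^ s : ℝ) : ℂ) := fun n ↦ by
      rw [Complex.ofReal_div, Complex.ofReal_cpow (Nat.cast_nonneg n)]
      simp
    simp only [this, ← Complex.ofReal_tsum, Complex.norm_real]
    exact abs_of_nonneg (tsum_nonneg fun n ↦ by positivity)
  have h2 : ‖LFunction χ s * LFunctionTrivChar (4 * D) s‖ ≤ 3 * M * ‖riemannZeta s‖ + K ^ 2 / M := by
    have s1 := LSeriesSummable_of_one_lt_re χ hs'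
    have s2 := LSeriesSummable_of_one_lt_re (1 : DirichletCharacter ℂ (4 * D)) hs'
    rw [LFunctionTrivChar, LFunction_eq_LSeries _ hs', LFunction_eq_LSeries _ hs',
      ← LSeries_convolution' s1 s2, LSeries]
    refine (norm_tsum_le_tsum_norm (s1.convolution s2).norm).trans
      ((s1.convolution s2).norm.tsum_le_of_sum_range_le fun N ↦ ?_)
    have h3 := abel_le (w := fun n : ℕ ↦ 1 / (n : ℝ) ^ s) (sum_conv_le hM hK h) (fun n ↦ by positivity)
      (fun n hn ↦ by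
        have : (0 : ℝ) < n := by exact_mod_cast hn
        gcongr
        omega) N
    have h4 := (Real.summable_one_div_nat_rpow.2 hs).sum_le_tsum (Ioc 0 N) fun n _ ↦ by positivity
    simp only [Nat.cast_one, Real.one_rpow, div_one, mul_one] at h3
    rw [hz]
    refine le_trans ?_ (h3.trans (by gcongr))
    refine (sum_le_sum_of_subset_of_nonneg (range_mono (Nat.le_succ N)) fun _ _ _ ↦ norm_nonneg _).trans ?_
    rw [Nat.range_succ_eq_Icc_zero, ← add_sum_Ioc_eq_sum_Icc (Nat.zero_le N), LSeries.term_zero,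
      norm_zero, zero_add]
    refine sum_le_sum fun n hn ↦ ?_
    rw [LSeries.norm_term_eq, if_neg (mem_Ioc.1 hn).1.ne', Complex.ofReal_re, mul_one_div]
    gcongr
    refine le_trans (le_of_eq ?_) (conv_le D n)
    rw [← Real.norm_eq_abs, ← Complex.norm_real, LSeries.convolution_def, mul_apply]
    simp only [hχ, one_eq_uF, intCoe_apply]
    push_cast
    rfl
  simp only [Function.comp_apply, norm_mul] at h2 ⊢
  have h3 : ‖(s : ℂ) - 1‖ = s - 1 := by
    rw [← Complex.ofReal_one, ← Complex.ofReal_sub, Complex.norm_real]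
    exact abs_of_pos (by linarith)
  rw [h3]
  nlinarith [mul_le_mul_of_nonneg_left h2 (by linarith : 0 ≤ s - 1)]

end Pool.Agent.Lib.ECM.CM
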