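import Pool.Agent.Lib.ECM.CMT
import Pool.Agent.Lib.ECM.CMA
import Pool.Agent.Lib.ZP3.Tiny0
import Pool.Agent.Lib.MP_6073f3_nt.Z.Siegel

/-! Degree and height of singular moduli in terms of the discriminant. -/

open UpperHalfPlane Finset
open scoped Real MatrixGroups

namespace Pool.Agent.Lib.ECM.CM

open Pool.Agent.Lib.MP_0704bf_ag Pool.Agent.Lib.helper6 Pool.Agent.Lib.ZP3

variable {a b c : ℤ} {D : ℕ} {τ τ' : ℍ}

theorem exists_root (ha : 0 < a) (hD : 4 * a * c - b ^ 2 = D) (h0 : 0 < D) :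
    ∃ τ : ℍ, QF a b c τ := by
  have h1 : (0 : ℝ) < a := by exact_mod_cast ha
  have h2 : (0 : ℝ) < D := by exact_mod_cast h0
  have h3 : (4 * a * c - b ^ 2 : ℝ) = D := by exact_mod_cast hD
  have h4 := Real.sq_sqrt h2.le
  refine ⟨⟨⟨-b / (2 * a), √D / (2 * a)⟩, by positivity⟩, Complex.ext ?_ ?_⟩
  · simp only [pow_two, Complex.add_re, Complex.mul_re, Complex.intCast_re, Complex.intCast_im,
      Complex.mul_im, zero_mul, sub_zero, Complex.zero_re]
    field_simp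
    linear_combination h3 - h4
  · simp only [pow_two, Complex.add_im, Complex.mul_re, Complex.intCast_re, Complex.intCast_im,
      Complex.mul_im, zero_mul, add_zero, Complex.zero_im]
    field_simp
    ring

theorem lat_count (τ : ℍ) : ∃ K : ℝ, 0 ≤ K ∧ ∀ X : ℝ, 0 ≤ X → ∃ L : Finset (ℤ × ℤ),
    (L.card : ℝ) ≤ 6 * X + K ∧ ∀ r s : ℤ, ‖(s : ℂ) + r * τ‖ ^ 2 ≤ X * τ.im → (r, s) ∈ L := by
  have hy := τ.im_pos
  refine ⟨9 / τ.im + τ.im + 3, by positivity, fun X hX ↦ ?_⟩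
  obtain ⟨v, hv0, hv⟩ : ∃ v : ℝ, 0 ≤ v ∧ v ^ 2 = X * τ.im :=
    ⟨√(X * τ.im), Real.sqrt_nonneg _, Real.sq_sqrt (by positivity)⟩
  set U : ℕ := ⌊v / τ.im⌋₊
  set V : ℕ := ⌊v⌋₊ + 1
  refine ⟨(Icc (-(U : ℤ)) U ×ˢ Icc (-(V : ℤ)) V).image fun x ↦ (x.1, x.2 - ⌊x.1 * τ.re⌋), ?_,
    fun r s h ↦ mem_image.2 ⟨(r, s + ⌊r * τ.re⌋), ?_, by simp⟩⟩
  · have h1 : (U : ℝ) ≤ v / τ.im := Nat.floor_le (by positivity)
    have h2 : (V : ℝ) ≤ v + 1 := by
      have := Nat.floor_le hv0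
      simp only [V]
      push_cast
      linarith
    have h3 : (Icc (-(U : ℤ)) U ×ˢ Icc (-(V : ℤ)) V).card = (2 * U + 1) * (2 * V + 1) := by
      rw [card_product, Int.card_Icc, Int.card_Icc]
      congr 1 <;> omega
    refine (Nat.cast_le.2 (card_image_le.trans h3.le)).trans ?_
    push_cast
    refine (mul_le_mul (b := 2 * (v / τ.im) + 1) (d := 2 * v + 3) (by linarith) (by linarith)
      (by positivity) (by positivity)).trans ?_
    rw [← sub_nonneg, show 6 * X + (9 / τ.im + τ.im + 3) - (2 * (v / τ.im) + 1) * (2 * v + 3) =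
      ((v - 3) ^ 2 + (v - τ.im) ^ 2 + 6 * (X * τ.im - v ^ 2)) / τ.im by field_simp; ring, hv,
      sub_self]
    positivity
  · rw [← hv, ← Complex.normSq_eq_norm_sq, Complex.normSq_apply] at h
    simp only [Complex.add_re, Complex.intCast_re, Complex.mul_re, coe_re, Complex.intCast_im,
      zero_mul, sub_zero, Complex.add_im, Complex.mul_im, coe_im, add_zero, zero_add] at h
    have h1 : |r * τ.im| ≤ v := abs_le_of_sq_le_sq (by nlinarith [mul_self_nonneg (s + r * τ.re)]) hv0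
    have h2 : |s + r * τ.re| ≤ v := abs_le_of_sq_le_sq (by nlinarith [mul_self_nonneg (r * τ.im)]) hv0
    rw [abs_mul, abs_of_pos hy, ← le_div_iff₀ hy] at h1
    have h3 : |(r : ℝ)| < U + 1 := h1.trans_lt (Nat.lt_floor_add_one _)
    have h4 : v < V := by simpa [V] using Nat.lt_floor_add_one v
    have h5 := Int.floor_le (r * τ.re)
    have h6 := Int.lt_floor_add_one (r * τ.re)
    have h7 : |r| < U + 1 := by exact_mod_cast h3
    have h8 : s + ⌊r * τ.re⌋ < V := by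
      have : (s + ⌊r * τ.re⌋ : ℝ) < V := by linarith [(abs_le.1 h2).2]
      exact_mod_cast this
    have h9 : -V - 1 < s + ⌊r * τ.re⌋ := by
      have : -V - 1 < (s + ⌊r * τ.re⌋ : ℝ) := by linarith [(abs_le.1 h2).1]
      exact_mod_cast this
    simp only [mem_product, mem_Icc]
    have := abs_lt.1 h7
    omega

/-- middle coefficients of forms with given first coefficient -/
noncomputable def sol (D n : ℕ) : Finset ℤ :=
  (Ico (0 : ℤ) (2 * n)).filter fun b ↦ n.Coprime (4 * D) ∧ 4 * (n : ℤ) ∣ b ^ 2 + D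

theorem rF_le (h : Fm D τ) {n : ℕ} (hn : 0 < n) : rF D n ≤ (sol D n).card := by
  obtain ⟨a, b, c, -, h, -⟩ := h
  rw [rF_apply, uF_apply]
  split_ifs with h1
  swap
  · simp
  have : NeZero n := ⟨hn.ne'⟩
  have ho : Odd (n : ℤ) := (Int.odd_coe_nat n).2 (xF_unit h1).1
  have key : ∀ x : {x : ZMod n // x ^ 2 = -(D : ZMod n)}, ∃ y : sol D n, (y.1 : ZMod n) = x.1 := by
    intro x
    have h2 : ∀ y : ℤ, 0 ≤ y → y < 2 * n → (y : ZMod n) = x.1 → Even (y - b) → y ∈ sol D n := by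
      rintro y h3 h4 h5 ⟨k, hk⟩
      refine mem_filter.2 ⟨mem_Ico.2 ⟨h3, h4⟩, h1, IsCoprime.mul_dvd ?_ ⟨k * (k + b) + a * c, ?_⟩ ?_⟩
      · exact Nat.isCoprime_iff_coprime.2 (h1.coprime_mul_right_right).symm
      · linear_combination (y + b + 2 * k) * hk - h
      · rw [← ZMod.intCast_zmod_eq_zero_iff_dvd]
        push_cast
        rw [h5, x.2, neg_add_cancel]
    have h3 := x.1.val_lt
    by_cases h4 : Even ((x.1.val : ℤ) - b)
    · exact ⟨⟨_, h2 _ (by omega) (by omega) (by simp) h4⟩, by simp⟩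
    · refine ⟨⟨_, h2 (x.1.val + n) (by omega) (by omega) (by simp) ?_⟩, by simp⟩
      rw [add_sub_right_comm]
      exact (Int.not_even_iff_odd.1 h4).add_odd ho
  choose f hf using key
  have h2 := Nat.card_le_card_of_injective f fun x y e ↦ Subtype.ext (by rw [← hf x, ← hf y, e])
  rw [Nat.card_eq_finsetCard] at h2
  rw [one_mul]
  exact_mod_cast h2

theorem sum_rF_le (h : Fm D τ) (T : Finset ℍ) (hT : ∀ τ, Disc D τ → ∃ t ∈ T, jInv τ = jInv t) :
    ∃ K : ℝ, 0 ≤ K ∧ ∀ N : ℕ, ∑ n ∈ Ioc 0 N, rF D n ≤ 12 * T.card / √D * N + K := by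
  have hD := h.pos
  have h0 : 0 < √(D : ℝ) := Real.sqrt_pos.2 (by exact_mod_cast hD)
  choose K hK0 hK using lat_count
  refine ⟨∑ t ∈ T, K t, sum_nonneg fun t _ ↦ hK0 t, fun N ↦ ?_⟩
  choose L hL1 hL2 using fun t ↦ hK t (2 * N / √D) (by positivity)
  have h1 : ((Ioc 0 N).sigma (sol D)).card ≤ (T.sigma L).card := by
    refine card_le_card_of_forall_subsingleton (fun x y ↦ ∃ (u : ℍ) (c p q : ℤ),
      4 * x.1 * c - x.2 ^ 2 = D ∧ QF x.1 x.2 c u ∧ y.2.2 * p + q * y.2.1 = 1 ∧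
        Mob y.2.2 q (-y.2.1) p u y.1) ?_ ?_
    · rintro ⟨n, b⟩ hx
      obtain ⟨h1, h2⟩ := mem_sigma.1 hx
      obtain ⟨h3, h4⟩ := mem_Ioc.1 h1
      obtain ⟨-, h5, c, h6⟩ := mem_filter.1 h2
      simp only at h3 h4 h5 h6
      have hn : (0 : ℤ) < n := by omega
      have h7 : 4 * n * c - b ^ 2 = D := by linear_combination -h6
      obtain ⟨u, hu⟩ := exists_root hn h7 hD
      obtain ⟨t, ht, hj⟩ := hT u ⟨n, b, c, hn, h7, hu, fun l hl k1 k2 _ ↦ by
        have k3 : (l : ℤ) ∣ D := by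
          rw [← h7]
          exact ((k1.mul_left 4).mul_right c).sub (k2.pow two_ne_zero)
        exact hl.one_lt.ne' (Nat.eq_one_of_dvd_coprimes h5 (Int.natCast_dvd_natCast.1 k1)
          ((Int.natCast_dvd_natCast.1 k3).mul_left 4))⟩
      obtain ⟨s, q, r, p, hd, hm⟩ := j_inj hj
      rw [Nat.cast_one] at hd
      refine ⟨⟨t, (-r, s)⟩, mem_sigma.2 ⟨ht, hL2 t _ _ ?_⟩, u, c, p, q, h7, hu,
        by linear_combination hd, by simpa using hm⟩
      have h8 := mob_normSq hm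
      have h9 := hu.im_eq hn h7
      rw [hd, Int.cast_one, one_mul, coe_im, coe_im] at h8
      have h10 : (n : ℝ) ≤ N := by exact_mod_cast h4
      have h11 := u.im_pos
      rw [Int.cast_neg, neg_mul, ← sub_eq_add_neg, ← h8, ← h9, div_mul_eq_mul_div,
        le_div_iff₀ (h9 ▸ h0), Int.cast_natCast]
      nlinarith [mul_nonneg (sq_nonneg ‖(s : ℂ) - r * t‖) h11.le]
    · rintro ⟨t, r, s⟩ - ⟨n, b⟩ ⟨hx, u, c, p, q, h1, h2, h3, h4⟩ ⟨n', b'⟩ ⟨hx', u', c', p', q', h1', h2', h3', h4'⟩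
      obtain ⟨k1, k2⟩ := mem_sigma.1 hx
      obtain ⟨k1', k2'⟩ := mem_sigma.1 hx'
      have k3 := mem_Ico.1 (mem_filter.1 k2).1
      have k3' := mem_Ico.1 (mem_filter.1 k2').1
      simp only at h1 h2 h3 h4 h1' h2' h3' h4' k3 k3'
      have k4 : (s : ℂ) * p + q * r = 1 := by exact_mod_cast h3
      have k4' : (s : ℂ) * p' + q' * r = 1 := by exact_mod_cast h3'
      have k5 : (s : ℂ) + r * t ≠ 0 := fun h ↦ by
        have := h4.mul_den
        rw [Int.cast_neg, neg_mul, sub_neg_eq_add, h, zero_mul, show s * p - q * -r = 1 by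
          linear_combination h3] at this
        simp at this
      have k6 : (u' : ℂ) = u + (p' * q - p * q' : ℤ) := by
        apply mul_left_cancel₀ k5
        unfold Mob at h4 h4'
        push_cast at h4 h4' ⊢
        linear_combination h4 - h4' + (q' - p' * t) * k4 - (q - p * t) * k4'
      have k7 : u'.im = u.im := by simpa using congrArg Complex.im k6
      have k8 : u'.re = u.re + (p' * q - p * q' : ℤ) := by simpa using congrArg Complex.re k6
      have k9 := (h2.im_eq (by omega) h1).trans (h2'.im_eq (by omega) h1').symm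
      rw [k7] at k9
      obtain rfl : n = n' := by
        have := mul_right_cancel₀ u.im_pos.ne' k9
        exact_mod_cast mul_left_cancel₀ two_ne_zero this
      have k10 : b - b' = 2 * n * (p' * q - p * q') := by
        have : (b - b' : ℝ) = 2 * (n : ℤ) * (p' * q - p * q' : ℤ) := by
          linear_combination h2.re_im.1 - h2'.re_im.1 + 2 * ((n : ℤ) : ℝ) * k8
        exact_mod_cast this
      generalize p' * q - p * q' = m at k10
      obtain rfl : b = b' := by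
        rcases lt_trichotomy m 0 with h | rfl | h <;> nlinarith
      rfl
  rw [card_sigma, card_sigma] at h1
  calc _ ≤ ∑ n ∈ Ioc 0 N, ((sol D n).card : ℝ) := sum_le_sum fun n hn ↦ rF_le h (mem_Ioc.1 hn).1
    _ ≤ ∑ t ∈ T, ((L t).card : ℝ) := by exact_mod_cast h1
    _ ≤ ∑ t ∈ T, (6 * (2 * N / √D) + K t) := sum_le_sum fun t _ ↦ hL1 t
    _ = _ := by
      rw [sum_add_distrib, sum_const, nsmul_eq_mul]
      ring

theorem euler_ge {q : ℕ} (hq : q ≠ 0) :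
    1 ≤ ‖∏ p ∈ q.primeFactors, (1 - (p : ℂ)⁻¹)‖ * q.divisors.card := by
  rw [Nat.card_divisors hq, norm_prod, Nat.cast_prod, ← prod_mul_distrib]
  refine one_le_prod fun p hp ↦ ?_
  have h1 : (2 : ℝ) ≤ p := by exact_mod_cast (Nat.prime_of_mem_primeFactors hp).two_le
  have h2 : (1 : ℝ) ≤ q.factorization p := by
    exact_mod_cast (Nat.prime_of_mem_primeFactors hp).factorization_pos_of_dvd hq
      (Nat.dvd_of_mem_primeFactors hp)
  have h3 := norm_sub_norm_le (1 : ℂ) (p : ℂ)⁻¹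
  have h4 : (p : ℝ)⁻¹ ≤ 2⁻¹ := by gcongr
  rw [norm_one, norm_inv, Complex.norm_natCast] at h3
  push_cast
  nlinarith

/-- the degree of a singular modulus is large -/
theorem cm_degree {ε : ℝ} (hε : 0 < ε) : ∃ c : ℝ, 0 < c ∧ ∀ (D : ℕ) (τ : ℍ) (d : ℕ), Disc D τ →
    Deg (jInv τ) d → c * (D : ℝ) ^ (1 / 2 - ε) ≤ d := by
  classical
  obtain ⟨c, hc, hS⟩ := RankZero.siegel (half_pos hε)
  obtain ⟨C, hC⟩ := divisor_bound (half_pos hε)
  have hC0 : 0 < C := by simpa using one_pos.trans_le (by simpa using hC 1)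
  refine ⟨c / (36 * C * 4 ^ ε), by positivity, fun D τ d h hd ↦ ?_⟩
  have hD := h.fm.pos
  have hd0 : (0 : ℝ) < d := by exact_mod_cast hd.pos
  have h0 : (0 : ℝ) < D := by exact_mod_cast hD
  have : NeZero (4 * D) := ⟨by omega⟩
  obtain ⟨E, hE, hE'⟩ := hd
  choose t ht using j_surj
  obtain ⟨K, hK, h1⟩ := sum_rF_le h.fm (E.image t) fun u hu ↦ by
    obtain ⟨σ, hσ⟩ := exists_conj (h.fm.int.tower_top (A := ℚ)).isAlgebraic (h.conj hu).aeval_eq_zero
    exact ⟨_, mem_image_of_mem t (hσ ▸ hE' σ), (ht _).2.symm⟩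
  obtain ⟨χ, h2, h3, h4⟩ := exists_chi D
  have h5 := residue_le D h3 h4 (M := 12 * d / √D) (by positivity) hK fun N ↦ (h1 N).trans (by
    gcongr
    exact card_image_le.trans hE)
  have h6 := hS _ χ h2 h3
  have h7 := (euler_ge (NeZero.ne (4 * D))).trans (mul_le_mul_of_nonneg_left (hC _) (norm_nonneg _))
  have h8 : c * ((4 * D : ℕ) : ℝ) ^ (-(ε / 2)) ≤ 3 * (12 * d / √D) * (C * ((4 * D : ℕ) : ℝ) ^ (ε / 2)) :=
    calc _ ≤ ‖DirichletCharacter.LFunction χ 1‖ * 1 := by rwa [mul_one]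
      _ ≤ _ := mul_le_mul_of_nonneg_left h7 (norm_nonneg _)
      _ ≤ _ := by rw [← mul_assoc]; gcongr
  push_cast at h8
  have h9 : (4 * D : ℝ) ^ (ε / 2) * (4 * D : ℝ) ^ (ε / 2) = 4 ^ ε * D ^ ε := by
    rw [← Real.rpow_add (by positivity), add_halves, Real.mul_rpow (by positivity) h0.le]
  rw [Real.rpow_neg (by positivity), ← div_eq_mul_inv, div_le_iff₀ (by positivity)] at h8
  rw [Real.rpow_sub h0, ← Real.sqrt_eq_rpow, div_mul_div_comm, div_le_iff₀ (by positivity),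
    ← le_div_iff₀ (by positivity)]
  refine h8.trans (le_of_eq ?_)
  rw [mul_assoc, mul_assoc C, h9]
  ring

theorem sum_inv_le (n : ℕ) : ∑ b ∈ Icc (-(n : ℤ)) n, (max 1 |(b : ℝ)|)⁻¹ ≤ 3 + 2 * Real.log n := by
  have h1 : ∑ b ∈ Icc (-(n : ℤ)) n, (max 1 |(b : ℝ)|)⁻¹ = 1 + 2 * (harmonic n : ℝ) := by
    induction n with
    | zero => simp
    | succ n ih =>
      have e : Icc (-((n + 1 : ℕ) : ℤ)) (n + 1 : ℕ) =
          insert ((n : ℤ) + 1) (insert (-((n : ℤ) + 1)) (Icc (-(n : ℤ)) n)) := by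
        ext x
        simp only [mem_Icc, mem_insert]
        omega
      have h2 : |(n : ℝ) + 1| = n + 1 := abs_of_pos (by positivity)
      rw [e, sum_insert (by simp only [mem_Icc, mem_insert]; omega),
        sum_insert (by simp only [mem_Icc]; omega), ih, harmonic_succ]
      push_cast
      rw [abs_neg, h2, max_eq_right (by linarith [Nat.cast_nonneg (α := ℝ) n])]
      ring
  linarith [harmonic_le_one_add_log n]

theorem sum_im_le {ε : ℝ} (hε : 0 < ε) : ∃ C : ℝ, 0 ≤ C ∧ ∀ (D : ℕ) (T : Finset ℍ),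
    (∀ t ∈ T, t ∈ ModularGroup.fd ∧ Fm D t) → ∑ t ∈ T, t.im ≤ C * (D : ℝ) ^ (1 / 2 + ε) := by
  classical
  obtain ⟨C, hC⟩ := divisor_bound (half_pos hε)
  have hC0 : 0 < C := by simpa using one_pos.trans_le (by simpa using hC 1)
  refine ⟨C * 2 ^ (ε / 2) * (3 + 4 / ε), by positivity, fun D T hT ↦ ?_⟩
  rcases T.eq_empty_or_nonempty with rfl | ⟨t0, ht0⟩
  · rw [sum_empty]
    positivity
  have hD : (1 : ℝ) ≤ D := by exact_mod_cast (hT t0 ht0).2.pos
  have key : ∀ t : ℍ, ∃ u : ℤ × ℤ × ℤ, t ∈ T → 0 < u.1 ∧ 4 * u.1 * u.2.2 - u.2.1 ^ 2 = D ∧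
      QF u.1 u.2.1 u.2.2 t := fun t ↦ by
    by_cases ht : t ∈ T
    · obtain ⟨a, b, c, h⟩ := (hT t ht).2
      exact ⟨(a, b, c), fun _ ↦ h⟩
    · exact ⟨0, fun h ↦ absurd h ht⟩
  choose u hu using key
  have hr := fun t ht ↦ (hu t ht).2.2.red (hu t ht).1 (hu t ht).2.1 (hT t ht).1
  have hb : ∀ t ∈ T, (u t).2.1 ^ 2 ≤ D := fun t ht ↦ by
    have := sq_le_sq' (abs_le.1 (hr t ht).1).1 (abs_le.1 (hr t ht).1).2
    nlinarith [(hr t ht).2]
  have hmap : ∀ t ∈ T, (u t).2.1 ∈ Icc (-(D : ℤ)) D := fun t ht ↦ by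
    have := hb t ht
    rw [mem_Icc]
    constructor <;> nlinarith
  rw [← sum_fiberwise_of_maps_to hmap]
  have h1 : ∀ b ∈ Icc (-(D : ℤ)) D, ∑ t ∈ T with (u t).2.1 = b, t.im ≤
      C * (2 * D : ℝ) ^ (ε / 2) * √D * (max 1 |(b : ℝ)|)⁻¹ := by
    intro b _
    rcases (T.filter fun t ↦ (u t).2.1 = b).eq_empty_or_nonempty with h | ⟨t1, ht1⟩
    · rw [h, sum_empty]
      positivity
    have h2 : b ^ 2 ≤ D := (mem_filter.1 ht1).2 ▸ hb t1 (mem_filter.1 ht1).1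
    have h3 : (T.filter fun t ↦ (u t).2.1 = b).card ≤ (b ^ 2 + D).toNat.divisors.card := by
      refine card_le_card_of_injOn (fun t ↦ (u t).1.toNat) (fun t ht ↦ ?_) fun t ht t' ht' e ↦ ?_
      · obtain ⟨h3, rfl⟩ := mem_filter.1 ht
        obtain ⟨h4, h5, -⟩ := hu t h3
        have h6 : (1 : ℤ) ≤ D := by exact_mod_cast hD
        have h7 := sq_nonneg (u t).2.1
        refine mem_coe.2 (Nat.mem_divisors.2 ⟨Int.natCast_dvd_natCast.1 ?_, by omega⟩)
        rw [Int.toNat_of_nonneg h4.le, Int.toNat_of_nonneg (by omega)]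
        exact ⟨4 * (u t).2.2, by linear_combination -h5⟩
      · obtain ⟨h3, h4⟩ := mem_filter.1 ht
        obtain ⟨h3', h4'⟩ := mem_filter.1 ht'
        obtain ⟨h5, h6, h7⟩ := hu t h3
        obtain ⟨h5', h6', h7'⟩ := hu t' h3'
        have e1 : (u t').1 = (u t).1 := by simp only at e; omega
        rw [e1, h4'.trans h4.symm] at h6' h7'
        exact h7.ext h7' h5 h6 h6'
    have h4 : ((T.filter fun t ↦ (u t).2.1 = b).card : ℝ) ≤ C * (2 * D : ℝ) ^ (ε / 2) := by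
      refine (Nat.cast_le.2 h3).trans ((hC _).trans ?_)
      gcongr
      exact_mod_cast (by have := sq_nonneg b; omega : (b ^ 2 + D).toNat ≤ 2 * D)
    refine (sum_le_card_nsmul _ _ (√D * (max 1 |(b : ℝ)|)⁻¹) fun t ht ↦ ?_).trans (by
      rw [nsmul_eq_mul, mul_assoc (C * _)]
      gcongr)
    obtain ⟨h5, rfl⟩ := mem_filter.1 ht
    obtain ⟨h6, h7, h8⟩ := hu t h5
    have h9 : max 1 |((u t).2.1 : ℝ)| ≤ (u t).1 :=
      max_le (by exact_mod_cast h6) (by exact_mod_cast (hr t h5).1)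
    rw [← h8.im_eq h6 h7, ← div_eq_mul_inv, le_div_iff₀ (by positivity)]
    nlinarith [t.im_pos, le_max_left 1 |((u t).2.1 : ℝ)|]
  refine (sum_le_sum h1).trans ?_
  rw [← mul_sum]
  have h2 : 1 ≤ (D : ℝ) ^ (ε / 2) := Real.one_le_rpow hD (by positivity)
  have h3 : 3 + 2 * Real.log D ≤ (3 + 4 / ε) * D ^ (ε / 2) := by
    have := Real.log_le_rpow_div (x := D) (by positivity) (half_pos hε)
    rw [show (D : ℝ) ^ (ε / 2) / (ε / 2) = 2 / ε * D ^ (ε / 2) by field_simp] at this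
    rw [show (3 + 4 / ε) * (D : ℝ) ^ (ε / 2) = 3 * D ^ (ε / 2) + 2 * (2 / ε * D ^ (ε / 2)) by ring]
    linarith
  refine (mul_le_mul_of_nonneg_left ((sum_inv_le D).trans h3) (by positivity)).trans (le_of_eq ?_)
  rw [Real.mul_rpow (by positivity) (by positivity), Real.sqrt_eq_rpow,
    show 1 / 2 + ε = ε / 2 + 1 / 2 + ε / 2 by ring, Real.rpow_add (by positivity),
    Real.rpow_add (by positivity)]
  ring

/-- total size of the conjugates of a singular modulus -/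
theorem cm_sum {ε : ℝ} (hε : 0 < ε) : ∃ C : ℝ, 0 ≤ C ∧ ∀ (D : ℕ) (τ : ℍ) (T : Finset ℂ), Fm D τ →
    (∀ z ∈ T, ∃ σ : ℂ →+* ℂ, σ (jInv τ) = z) →
      ∑ z ∈ T, (1 + Real.log (1 + ‖z‖)) ≤ C * (D : ℝ) ^ (1 / 2 + ε) := by
  classical
  obtain ⟨C, hC0, hC⟩ := sum_im_le hε
  obtain ⟨C1, hC1, h1⟩ := log_j_le
  refine ⟨C1 * (C * (27720 ^ 2) ^ (1 / 2 + ε)), by positivity, fun D τ T h hT ↦ ?_⟩
  have key : ∀ z : ℂ, ∃ t : ℍ, z ∈ T → t ∈ ModularGroup.fd ∧ Fm (27720 ^ 2 * D) t ∧ jInv t = z := by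
    intro z
    by_cases hz : z ∈ T
    · obtain ⟨σ, rfl⟩ := hT z hz
      obtain ⟨t, ht⟩ := h.conj σ
      exact ⟨t, fun _ ↦ ht⟩
    · exact ⟨τ, fun h ↦ absurd h hz⟩
  choose t ht using key
  have h2 := hC (27720 ^ 2 * D) (T.image t) fun s hs ↦ by
    obtain ⟨z, hz, rfl⟩ := mem_image.1 hs
    exact ⟨(ht z hz).1, (ht z hz).2.1⟩
  rw [sum_image fun z hz w hw e ↦ by rw [← (ht z hz).2.2, e, (ht w hw).2.2]] at h2
  calc _ ≤ ∑ z ∈ T, C1 * (t z).im := sum_le_sum fun z hz ↦ by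
        have h3 := ModularGroup.three_le_four_mul_im_sq_of_mem_fd (ht z hz).1
        have h4 := h1 (t z) (by nlinarith [(t z).im_pos])
        rwa [(ht z hz).2.2] at h4
    _ ≤ C1 * (C * ((27720 ^ 2 * D : ℕ) : ℝ) ^ (1 / 2 + ε)) := by rw [← mul_sum]; gcongr
    _ = _ := by
      push_cast
      rw [Real.mul_rpow (by positivity) (by positivity)]
      ring_nf

open IntermediateField in
theorem sum_emb (K : Type) [Field K] [NumberField K] (x : K) (f : ℂ → ℝ) [DecidableEq ℂ] :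
    ∑ σ : K →+* ℂ, f (σ x) =
      Module.finrank ℚ⟮x⟯ K * ∑ z ∈ ((minpoly ℚ x).aroots ℂ).toFinset, f z := by
  have hi : IsIntegral ℚ x := Algebra.IsIntegral.isIntegral x
  rw [Fintype.sum_equiv (RingHom.equivRatAlgHom K ℂ) (fun σ ↦ f (σ x)) (fun σ ↦ f (σ x)) fun _ ↦ rfl,
    Fintype.sum_equiv (algHomEquivSigma (B := ℚ⟮x⟯)) (fun σ ↦ f (σ x))
      (fun σ ↦ f (σ.1 (AdjoinSimple.gen ℚ x)))
      fun _ ↦ rfl, ← univ_sigma_univ, sum_sigma, ← sum_coe_sort (Multiset.toFinset _), mul_sum]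
  refine Fintype.sum_equiv ((algHomAdjoinIntegralEquiv ℚ hi).trans
    (Equiv.subtypeEquivRight fun _ ↦ Multiset.mem_toFinset.symm)) _ _ fun σ ↦ ?_
  let : Algebra ℚ⟮x⟯ ℂ := σ.toRingHom.toAlgebra
  simp_rw [sum_const]
  rw [nsmul_eq_mul, ← AlgHom.card ℚ⟮x⟯ K ℂ]
  have := algHomAdjoinIntegralEquiv_symm_apply_gen ℚ hi (algHomAdjoinIntegralEquiv ℚ hi σ)
  rw [Equiv.symm_apply_apply] at this
  exact congrArg₂ (· * ·) rfl (congrArg f this)

open IntermediateField in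
/-- the height of a singular modulus is small -/
theorem cm_height {ε : ℝ} (hε : 0 < ε) : ∃ C : ℝ, 0 ≤ C ∧ ∀ (D : ℕ) (τ : ℍ), Disc D τ →
    ∀ (K : Type) [Field K] [NumberField K] (ι : K →+* ℂ) (x : K), ι x = jInv τ →
      ∑ σ : K →+* ℂ, (1 + Real.log (1 + ‖σ x‖)) ≤ C * (D : ℝ) ^ ε * Module.finrank ℚ K := by
  classical
  obtain ⟨C, hC0, hC⟩ := cm_sum (half_pos hε)
  obtain ⟨c, hc, h1⟩ := cm_degree (half_pos hε)
  refine ⟨C / c, by positivity, fun D τ h K _ _ ι x hx ↦ ?_⟩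
  have hi : IsIntegral ℚ x := Algebra.IsIntegral.isIntegral x
  have h0 : (0 : ℝ) < D := by exact_mod_cast h.fm.pos
  have hm : minpoly ℚ (jInv τ) = minpoly ℚ x := hx ▸ minpoly.algHom_eq ι.toRatAlgHom ι.injective x
  have h2 := hC D τ ((minpoly ℚ x).aroots ℂ).toFinset h.fm fun z hz ↦
    exists_conj (h.fm.int.tower_top (A := ℚ)).isAlgebraic
      (hm ▸ (Polynomial.mem_aroots.1 (Multiset.mem_toFinset.1 hz)).2)
  have h3 := h1 D τ (Module.finrank ℚ ℚ⟮x⟯) h ⟨((minpoly ℚ x).aroots ℂ).toFinset, by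
    rw [adjoin.finrank hi]
    exact (Multiset.toFinset_card_le _).trans ((Polynomial.card_roots' _).trans
      Polynomial.natDegree_map_le), fun σ ↦ by
    rw [Multiset.mem_toFinset, Polynomial.mem_aroots, Arith.aeval_conj, ← hm, minpoly.aeval,
      map_zero]
    exact ⟨hm ▸ minpoly.ne_zero hi, rfl⟩⟩
  rw [sum_emb K x fun z ↦ 1 + Real.log (1 + ‖z‖), ← Module.finrank_mul_finrank ℚ ℚ⟮x⟯ K,
    Nat.cast_mul]
  calc _ ≤ Module.finrank ℚ⟮x⟯ K * (C * (D : ℝ) ^ (1 / 2 + ε / 2)) := by gcongr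
    _ = C / c * (D : ℝ) ^ ε * (c * (D : ℝ) ^ (1 / 2 - ε / 2) * Module.finrank ℚ⟮x⟯ K) := by
      rw [show 1 / 2 + ε / 2 = ε + (1 / 2 - ε / 2) by ring, Real.rpow_add h0]
      field_simp
    _ ≤ _ := by gcongr

end Pool.Agent.Lib.ECM.CM
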