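import Pool.Agent.Lib.ECM.Blue
import Pool.Agent.Lib.ECM.CM
import Pool.Agent.Lib.ECM.B_HT4

/-! Block FIN: comparison of the lower and the upper bounds for Galois orbits. -/

open UpperHalfPlane

namespace Pool.Agent.Lib.ECM

open Pool.Agent.Lib.MP_0704bf_ag
open Pool.Agent.Lib.ZP3 (Deg Sm)
open CM (Fm Disc)

namespace MFIN

theorem h1_conj {z : ℂ} (σ : ℂ →+* ℂ) (hz : IsAlgebraic ℚ z) : h1 (σ z) = h1 z := by
  have := ht_conj (x := ![1, z]) σ (fun i ↦ by fin_cases i; exacts [isAlgebraic_one, hz])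
  rw [h1, h1, ← this]
  congr 1
  ext i
  fin_cases i <;> simp

/-- the height of a singular modulus -/
theorem h1_cm {ε : ℝ} (hε : 0 < ε) : ∃ C : ℝ, 0 ≤ C ∧ ∀ (D : ℕ) (τ : ℍ), Disc D τ →
    h1 (jInv τ) ≤ C * (D : ℝ) ^ ε := by
  obtain ⟨C, hC0, hC⟩ := CM.cm_height hε
  refine ⟨C, hC0, fun D τ h ↦ ?_⟩
  have hi := h.fm.int
  obtain ⟨L, _, _, e, x, hx⟩ := T42.exists_nf (x := fun _ : Unit ↦ jInv τ)
    fun _ ↦ (hi.tower_top (A := ℚ)).isAlgebraic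
  have hx' : jInv τ = e (x ()) := congrFun hx ()
  have h2 := st_HT4.2.2.1 L e (x ())
    ((isIntegral_algHom_iff e.toIntAlgHom e.injective).1 (by simpa [← hx'] using hi))
  have h3 := hC D τ h L e (x ()) hx'.symm
  rw [hx']
  refine le_of_mul_le_mul_left ?_ (T42.rk_pos L)
  rw [h2, mul_comm]
  refine (Finset.sum_le_sum fun σ _ ↦ ?_).trans h3
  have h4 := norm_nonneg (σ (x ()))
  have := Real.log_le_log (by positivity) (max_le (by linarith) (by linarith) :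
    max 1 ‖σ (x ())‖ ≤ 1 + ‖σ (x ())‖)
  linarith

/-- a self-improving bound -/
theorem boot (κ : ℕ) {K : ℝ} (hK : 1 ≤ K) : ∃ c : ℝ, 1 ≤ c ∧ ∀ t B : ℝ, 1 ≤ t → 1 ≤ B →
    B ≤ (K * (t ^ 16 + Real.log B)) ^ κ → B ≤ c * t ^ (16 * κ) ∧ Real.log B ≤ c * t := by
  obtain ⟨c0, hc0⟩ : ∃ c0 : ℝ, ∀ B : ℝ, c0 ≤ B → (2 * K * Real.log B) ^ κ < B := by
    have h := (Real.tendsto_pow_log_div_mul_add_atTop 1 0 κ one_ne_zero).const_mul ((2 * K) ^ κ)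
    rw [mul_zero] at h
    obtain ⟨c, hc⟩ := Filter.eventually_atTop.1 (h.eventually (gt_mem_nhds one_pos))
    refine ⟨max c 1, fun B hB ↦ ?_⟩
    have h1 := hc B ((le_max_left _ _).trans hB)
    have h2 : 0 < B := one_pos.trans_le ((le_max_right _ _).trans hB)
    rw [one_mul, add_zero, ← mul_div_assoc, div_lt_one h2] at h1
    rwa [mul_pow]
  have hc1 : 1 ≤ (2 * K) ^ κ := one_le_pow₀ (by linarith)
  have key : ∀ t B : ℝ, 1 ≤ t → 1 ≤ B → B ≤ (K * (t ^ 16 + Real.log B)) ^ κ →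
      B ≤ max c0 ((2 * K) ^ κ) * t ^ (16 * κ) := fun t B ht hB h ↦ by
    have hL := Real.log_nonneg hB
    have h1 : 1 ≤ t ^ (16 * κ) := one_le_pow₀ ht
    have h0 : 0 ≤ max c0 ((2 * K) ^ κ) := le_max_of_le_right (by positivity)
    rcases le_total (Real.log B) (t ^ 16) with h2 | h2
    · calc B ≤ (K * (t ^ 16 + t ^ 16)) ^ κ := h.trans (by gcongr)
        _ = (2 * K) ^ κ * t ^ (16 * κ) := by rw [pow_mul, ← mul_pow]; ring
        _ ≤ _ := by gcongr; exact le_max_right _ _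
    · have h3 : B ≤ (2 * K * Real.log B) ^ κ :=
        h.trans ((pow_le_pow_left₀ (by positivity) (by nlinarith) κ))
      have h4 : B < c0 := by
        by_contra h5
        exact absurd (hc0 B (not_lt.1 h5)) h3.not_gt
      calc B ≤ max c0 ((2 * K) ^ κ) * 1 := by rw [mul_one]; exact h4.le.trans (le_max_left _ _)
        _ ≤ _ := by gcongr
  set c1 := max c0 ((2 * K) ^ κ) with hc1d
  have hc2 : 1 ≤ c1 := hc1.trans (le_max_right _ _)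
  refine ⟨c1 + 16 * κ, by linarith [show (0 : ℝ) ≤ 16 * κ by positivity], fun t B ht hB h ↦ ?_⟩
  have h1 := key t B ht hB h
  refine ⟨h1.trans (by gcongr; linarith [show (0 : ℝ) ≤ 16 * κ by positivity]), ?_⟩
  have h2 := Real.log_le_log (by linarith) h1
  rw [Real.log_mul (by positivity) (by positivity), Real.log_pow] at h2
  have h3 := Real.log_le_sub_one_of_pos (show 0 < c1 by linarith)
  have h4 := Real.log_le_sub_one_of_pos (show 0 < t by linarith)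
  have h5 : ((16 * κ : ℕ) : ℝ) * Real.log t ≤ 16 * κ * t := by
    push_cast
    gcongr
    linarith
  nlinarith

theorem good_conj {x : Ch → ℂ} (h : Good x) (σ : ℂ →+* ℂ) : Good fun m ↦ σ (x m) :=
  ⟨fun m ↦ (h.1 m).algHom σ.toRatAlgHom, fun σ' ↦ h.2 (σ'.comp σ)⟩

theorem cv_conj {P : Id} {x : Ch → ℂ} (h : x ∈ Cv P) (σ : ℂ →+* ℂ) : (fun m ↦ σ (x m)) ∈ Cv P :=
  fun f hf ↦ by
    have := congrArg σ.toRatAlgHom (h f hf)
    rw [map_zero, ← AlgHom.comp_apply, MvPolynomial.comp_aeval] at this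
    exact this

theorem gen_of {x : Ch → ℂ} (h : Good x) {τ : T3} (hτ : Over x τ) : Gen τ := fun m hm h0 ↦ by
  obtain ⟨τ', h1, h2⟩ := h.2 (RingHom.id ℂ)
  have h3 : x m = kk m τ' / kk 0 τ' := h1.2.2 m
  rw [hτ.2.2 m, h0, zero_div] at h3
  exact div_ne_zero (h2 m hm) h1.2.1 h3.symm

end MFIN

open MFIN in
theorem st_FIN (hAT : St_ATLAS) (hHTA : St_HTA) (hPTG : St_PTG) (hCNT : St_CNT) (hMARK : St_MARK)
    (hMAX : St_MAX) (hPACK : St_PACK) (hCONJ : St_CONJ) (hLINE : St_LINE) (hAUT : St_AUT)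
    (hNOR : St_NOR) : St_FIN := by
  classical
  intro P hPl hMod hGen hDen
  obtain ⟨C1, hC1, H1⟩ := hHTA P hPl hMod hGen hDen
  obtain ⟨κ, H2'⟩ := hPTG
  obtain ⟨c0, hc0, H3⟩ := CM.cm_degree (ε := 1 / 4) (by norm_num)
  obtain ⟨C4, hC4, H4⟩ := h1_cm (ε := 1 / 16) (by norm_num)
  obtain ⟨c1, hc1, hc1'⟩ : ∃ c1 : ℝ, 1 ≤ c1 ∧ 2 ≤ c0 * c1 ^ 4 := by
    refine ⟨max 1 (2 / c0), le_max_left _ _, ?_⟩
    have h1 : max 1 (2 / c0) ≤ max 1 (2 / c0) ^ 4 := le_self_pow₀ (le_max_left _ _) (by norm_num)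
    have h2 : 2 / c0 ≤ max 1 (2 / c0) ^ 4 := (le_max_right _ _).trans h1
    rwa [div_le_iff₀' hc0] at h2
  obtain ⟨K, hK⟩ : ∃ K : ℝ, K = 3 + c1 ^ 16 + C4 * c1 + C1 * (1 + C4 * c1) := ⟨_, rfl⟩
  have p1 : 0 ≤ C4 * c1 := by positivity
  have p2 : 1 ≤ c1 ^ 16 := one_le_pow₀ hc1
  have p3 : 0 ≤ C1 * (1 + C4 * c1) := by positivity
  obtain ⟨c2, hc2, H5⟩ := boot κ (K := K) (by linarith)
  obtain ⟨c3, hc3⟩ : ∃ c3 : ℝ, c3 = 1 + C1 * (1 + C4 * c1 + c2) := ⟨_, rfl⟩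
  have p4 : 1 ≤ c3 := by rw [hc3]; have : 0 ≤ C1 * (1 + C4 * c1 + c2) := by positivity
                         linarith
  obtain ⟨k, hk⟩ : ∃ k : ℕ, k = 16 * κ + 16 := ⟨_, rfl⟩
  have hk0 : (0 : ℝ) < k := by rw [hk]; positivity
  obtain ⟨c4, hc4⟩ : ∃ c4 : ℝ, c4 = 2 + 64 * c3 + 27720 ^ 2 * c1 ^ 16 + c2 := ⟨_, rfl⟩
  have p5 : 2 ≤ c4 := by rw [hc4]; nlinarith
  obtain ⟨C5, hC5, H6⟩ := hCNT P (hAT P hPl hMod hGen) hDen (1 / k) (by positivity)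
  obtain ⟨T0, hT0⟩ : ∃ T0 : ℝ, T0 = 1 + 2 * (C5 * (64 * c3) * c4 ^ (1 / k : ℝ)) := ⟨_, rfl⟩
  refine (Set.Finite.pi' fun _ : Ch ↦ hNOR ⌈T0 ^ 4⌉₊ (c3 * T0)).subset ?_
  rintro x ⟨hx, hg, τ, hτ, hcm, hsq⟩
  obtain ⟨d, hd0, hd, HM⟩ := hMARK x hg.1
  obtain ⟨σ0, τ', v', τ0', o1, o2, o3, o4, o5, o6, o7⟩ := hMAX x τ hg hτ hcm hsq
  obtain ⟨N, hN0, hN⟩ := hLINE.nat τ' o1.1 v' τ0' o5
  set B := NN τ' v' τ0' with hB
  have hB1 : 1 ≤ B := by rw [← hN]; exact_mod_cast hN0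
  have hL := Real.log_nonneg hB1
  have hg' := good_conj hg σ0
  have hnb : NB (fun m ↦ σ0 (x m)) B := fun σ ↦ o7 (σ.comp σ0)
  have hd' : DegT (fun m ↦ σ0 (x m)) d := by
    obtain ⟨E, e1, e2⟩ := hd
    exact ⟨E, e1, fun σ ↦ e2 (σ.comp σ0)⟩
  obtain ⟨D, hD⟩ := CM.exists_disc o6
  obtain ⟨Ω, hΩ⟩ := (hLINE.nrm τ0').1
  obtain ⟨t, ht0, ht⟩ : ∃ t : ℝ, 0 ≤ t ∧ t ^ 4 = d :=
    ⟨(d : ℝ) ^ ((4 : ℕ) : ℝ)⁻¹, by positivity, Real.rpow_inv_natCast_pow (by positivity) (by norm_num)⟩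
  have hd1 : (1 : ℝ) ≤ d := by exact_mod_cast hd0
  have ht1 : 1 ≤ t := by
    by_contra h
    have := pow_lt_one₀ ht0 (not_le.1 h) (show 4 ≠ 0 by norm_num)
    linarith
  have t16 : t ≤ t ^ 16 := le_self_pow₀ ht1 (by norm_num)
  have t4 : t ^ 4 ≤ t ^ 16 := pow_le_pow_right₀ ht1 (by norm_num)
  have hs : (D : ℝ) ^ (1 / 16 : ℝ) ≤ c1 * t := by
    have h1 := H3 D τ0' _ hD (hPACK _ τ' d hg' o1 o2 o3 hd' v' τ0' Ω o5 hΩ).2.1
    refine le_of_pow_le_pow_left₀ (show 4 ≠ 0 by norm_num) (by positivity) ?_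
    rw [← Real.rpow_natCast, ← Real.rpow_mul (Nat.cast_nonneg _)]
    refine le_of_mul_le_mul_left ?_ hc0
    have e : (1 / 16 : ℝ) * (4 : ℕ) = 1 / 2 - 1 / 4 := by norm_num
    rw [e, mul_pow, ← mul_assoc, ht]
    refine h1.trans ?_
    push_cast
    gcongr
  have hDt : (D : ℝ) ≤ c1 ^ 16 * t ^ 16 := by
    have := pow_le_pow_left₀ (by positivity) hs 16
    rwa [← Real.rpow_natCast, ← Real.rpow_mul (Nat.cast_nonneg _),
      show (1 / 16 : ℝ) * (16 : ℕ) = 1 by norm_num, Real.rpow_one, mul_pow] at this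
  have hj : h1 (jInv τ0') ≤ C4 * c1 * t := (H4 D τ0' hD).trans (by rw [mul_assoc]; gcongr)
  have hh := H1 _ (cv_conj hx σ0) τ' v' τ0' B hg' o1 o3 o5 o6 hB1 hnb
  have t1 : 1 ≤ t ^ 16 := ht1.trans t16
  obtain ⟨A, hA1, hA2⟩ : ∃ A : ℕ, (K - 1) * (t ^ 16 + Real.log B) ≤ A ∧
      (A : ℝ) ≤ K * (t ^ 16 + Real.log B) := by
    refine ⟨_, Nat.le_ceil _, (Nat.ceil_lt_add_one (mul_nonneg (by linarith) (by linarith))).le.trans ?_⟩
    linarith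
  have hKA : ∀ a : ℝ, 0 ≤ a → a ≤ K - 1 → a * (t ^ 16 + Real.log B) ≤ A := fun a _ h ↦
    le_trans (by gcongr) hA1
  have hP := H2' _ τ' v' τ0' D A B hg' o1 o3 o4 o5 hD.fm hB1 hnb
    (by have := hKA 2 (by norm_num) (by linarith)
        exact_mod_cast (show (2 : ℝ) ≤ A by linarith))
    (by have := hKA (c1 ^ 16) (by positivity) (by linarith)
        exact_mod_cast (show (D : ℝ) ≤ A by nlinarith))
    (by have := hKA 1 (by norm_num) (by linarith)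
        linarith)
    (by
      obtain ⟨E, e1, e2⟩ := hd'
      have := hKA 1 (by norm_num) (by linarith)
      exact ⟨E, e1.trans (by exact_mod_cast (show (d : ℝ) ≤ A by linarith)), e2⟩)
    (fun m ↦ by
      refine (hh m).trans (le_trans ?_ (hKA (C1 * (1 + C4 * c1)) p3 (by linarith)))
      rw [mul_assoc]
      gcongr
      nlinarith [mul_nonneg p1 hL, mul_le_mul_of_nonneg_left t16 p1])
    (by have := hKA (C4 * c1) p1 (by linarith)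
        nlinarith [mul_nonneg p1 hL, mul_le_mul_of_nonneg_left t16 p1])
  obtain ⟨b1, b2⟩ := H5 t B ht1 hB1 (hP.trans (by gcongr))
  have hx1 : ∀ m, h1 (x m) ≤ c3 * t := fun m ↦ by
    rw [← h1_conj σ0 (hg.1 m)]
    refine (hh m).trans ?_
    rw [hc3, add_mul, mul_assoc]
    have : C1 * (1 + h1 (jInv τ0') + Real.log B) ≤ C1 * ((1 + C4 * c1 + c2) * t) := by
      gcongr
      nlinarith
    linarith
  obtain ⟨S, hS1, hS2⟩ := HM (c3 * t) (by positivity) hx1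
  have tk : ∀ n, n ≤ k → t ^ n ≤ t ^ k := fun n hn ↦ pow_le_pow_right₀ ht1 hn
  have tk1 : t ≤ t ^ k := by simpa using tk 1 (by omega)
  have hM : ∀ a : ℝ, 0 ≤ a → a ≤ c4 → ∀ n, n ≤ k → a * t ^ n ≤ c4 * t ^ k := fun a _ h n hn ↦
    mul_le_mul h (tk n hn) (by positivity) (by linarith)
  have p6 : 0 ≤ 27720 ^ 2 * c1 ^ 16 := by positivity
  have hcount := H6 (c4 * t ^ k) (64 * (c3 * t)) (27720 ^ 2 * D) S
    (by simpa using hM 2 (by norm_num) p5 0 (by omega)) (by nlinarith)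
    (by have := hM (64 * c3) (by positivity) (by linarith) 1 (by omega)
        linarith)
    (by have := hM (27720 ^ 2 * c1 ^ 16) p6 (by linarith) 16 (by omega)
        push_cast
        nlinarith)
    (fun y hy ↦ by
      obtain ⟨⟨σ, rfl⟩, h2⟩ := hS2 y hy
      refine ⟨cv_conj hx σ, fun m _ ↦ h2 m, ?_⟩
      obtain ⟨τy, q1, -⟩ := hg.2 σ
      obtain ⟨a, ha⟩ := hAUT.ext σ
      obtain ⟨a0, ha0⟩ := hAUT.ext σ0
      have e : (fun m ↦ (a0.symm.trans a) (σ0 (x m))) = fun m ↦ σ (x m) := funext fun m ↦ by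
        rw [← ha0 _ (hg.1 m), RingEquiv.trans_apply, a0.symm_apply_apply, ha _ (hg.1 m)]
      obtain ⟨w, s, -, r1, r2, -, r3, -⟩ := hCONJ (a0.symm.trans a) _ τ' τy v' τ0' Ω o1
        (gen_of hg' o1) (e ▸ q1) o5 hΩ
      have r4 := fm_of_conj hD.fm (a0.symm.trans a : ℂ ≃+* ℂ) r3
      refine ⟨τy, w, s, q1, r1, r2, r4, (o7 σ τy w s q1 r2 r4.isCM).trans (b1.trans ?_)⟩
      exact hM c2 (by linarith) (by nlinarith) _ (by omega))
  have e : (c4 * t ^ k) ^ (1 / k : ℝ) = c4 ^ (1 / k : ℝ) * t := by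
    rw [Real.mul_rpow (by linarith) (by positivity), one_div,
      Real.pow_rpow_inv_natCast ht0 (by omega)]
  have htT : t ≤ T0 := by
    have h1 : (d : ℝ) ≤ 2 * S.card := by exact_mod_cast hS1
    have h2 : t ^ 4 ≤ (T0 - 1) * t ^ 2 := by
      rw [e] at hcount
      rw [ht, hT0]
      nlinarith
    have h3 : t ^ 2 * t ^ 2 ≤ (T0 - 1) * t ^ 2 := by linarith [show t ^ 4 = t ^ 2 * t ^ 2 by ring]
    have h4 := le_of_mul_le_mul_right h3 (by positivity)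
    nlinarith
  intro m
  refine ⟨hg.1 m, ?_, (hx1 m).trans (by gcongr)⟩
  obtain ⟨E, e1, e2⟩ := hd
  refine ⟨E.image fun y ↦ y m, Finset.card_image_le.trans (e1.trans ?_),
    fun σ ↦ Finset.mem_image.2 ⟨_, e2 σ, rfl⟩⟩
  have : (d : ℝ) ≤ ⌈T0 ^ 4⌉₊ := le_trans (by rw [← ht]; gcongr) (Nat.le_ceil _)
  exact_mod_cast this

end Pool.Agent.Lib.ECM
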