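import Pool.Agent.Lib.ECM.G1Place
import Pool.Agent.Lib.ECM.B_HT2
import Pool.Agent.Lib.RC.Aut89

/-! Block G1: algebraicity and height of gradients at torsion characteristics. -/

open NumberField Height

noncomputable section

namespace Pool.Agent.Lib.ECM.G1

open T42

theorem ht_le_nf {ι κ L : Type} [Fintype ι] [Fintype κ] [Field L] [NumberField L] (e : L →+* ℂ)
    {x : ι → L} {y : κ → L} {C : ℝ} (hC : 1 ≤ C) (y1 : y ≠ 0)
    (ha : ∀ (φ : L →+* ℂ) i, ∃ j, ‖φ (x i)‖ ≤ C * ‖φ (y j)‖)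
    (hf : ∀ (v : FinitePlace L) i, ∃ j, v (x i) ≤ v (y j)) :
    ht (fun i ↦ e (x i)) ≤ ht (fun j ↦ e (y j)) + Real.log C := by
  have : Nonempty κ := ⟨(Function.ne_iff.1 y1).choose⟩
  have z1 : Sum.elim x y ≠ 0 := fun h ↦ y1 (funext fun j ↦ congrFun h (.inr j))
  have h1 : mulHeight x ≤ C ^ Module.finrank ℚ L * mulHeight y := by
    refine (mulHeight_comp_le Sum.inl (Sum.elim x y)).trans ?_
    rw [mulHeight_emb z1, mulHeight_emb y1, ← mul_assoc]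
    have e1 : (∏ᶠ v : FinitePlace L, ⨆ i, v (Sum.elim x y i)) =
        ∏ᶠ v : FinitePlace L, ⨆ i, v (y i) := by
      refine finprod_congr fun v ↦ le_antisymm ?_ (ciSup_le fun j ↦
        Finite.le_ciSup_of_le (f := fun i ↦ v (Sum.elim x y i)) (.inr j) le_rfl)
      simpa using sup_le (f := fun i ↦ v (Sum.elim x y i)) le_rfl (fun _ ↦ apply_nonneg _ _)
        fun i ↦ by simpa using hf v i
    rw [e1]
    refine mul_le_mul_of_nonneg_right ?_ (finprod_nonneg fun v ↦ Real.iSup_nonneg fun _ ↦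
      apply_nonneg _ _)
    rw [← Embeddings.card L ℂ, ← Finset.card_univ, ← Finset.prod_const, ← Finset.prod_mul_distrib]
    refine Finset.prod_le_prod (fun _ _ ↦ Real.iSup_nonneg fun _ ↦ norm_nonneg _) fun φ _ ↦ ?_
    exact sup_le (f := fun i ↦ ‖φ (Sum.elim x y i)‖) hC (fun _ ↦ norm_nonneg _) (ha φ)
  have h2 := Real.log_le_log (mulHeight_pos x) h1
  rw [Real.log_mul (by positivity) (mulHeight_ne_zero y), Real.log_pow] at h2
  rw [st_HT0, st_HT0, div_add' _ _ _ (rk_pos L).ne']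
  refine div_le_div_of_nonneg_right ?_ (rk_pos L).le
  unfold logHeight
  linarith

theorem bdd_of_alg {z : ℂ} (hz : IsAlgebraic ℚ z) : ∃ C : ℝ, ∀ σ : ℂ →+* ℂ, ‖σ z‖ ≤ C := by
  obtain ⟨D, -, E, -, hE⟩ := ZP3.deg_of_alg hz
  exact ⟨∑ w ∈ E, ‖w‖, fun σ ↦ Finset.single_le_sum (f := fun w : ℂ ↦ ‖w‖) (fun _ _ ↦ norm_nonneg _) (hE σ)⟩

theorem alg_of_bdd {z : ℂ} {C : ℝ} (h : ∀ σ : ℂ →+* ℂ, ‖σ z‖ ≤ C) : IsAlgebraic ℚ z := by
  by_contra ha
  have hc : Countable (Polynomial ℚ) := by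
    rw [← Cardinal.mk_le_aleph0_iff]
    exact Polynomial.cardinalMk_le_max.trans (by simp)
  obtain ⟨n, hn⟩ := exists_nat_gt (C + ‖z‖)
  have hb : ¬ IsAlgebraic ℚ (z + n) := fun k ↦ ha (by
    simpa using k.sub (isAlgebraic_natCast (R := ℚ) (A := ℂ) n))
  have key : ∀ {w : ℂ}, ¬ IsAlgebraic ℚ w → ∀ r : Polynomial ℚ, Polynomial.aeval w r = 0 ↔ r = 0 :=
    fun hw r ↦ ⟨fun k ↦ by_contra fun hr ↦ hw ⟨r, hr, k⟩, fun k ↦ by simp [k]⟩
  obtain ⟨τ, hτ⟩ := Pool.Agent.RC.H89.exists_aut_of_ker (R := Polynomial ℚ)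
    (Polynomial.aeval z).toRingHom (Polynomial.aeval (z + n)).toRingHom
    fun r ↦ (key ha r).trans (key hb r).symm
  have h1 := hτ Polynomial.X
  simp only [AlgHom.toRingHom_eq_coe, RingHom.coe_coe, Polynomial.aeval_X] at h1
  have h2 := h τ
  rw [show (τ : ℂ →+* ℂ) z = z + n from h1] at h2
  have h3 := norm_sub_le (z + n) z
  simp only [add_sub_cancel_left, Complex.norm_natCast] at h3
  linarith

variable {L Γ : Type} [Field L] [AddCommGroup Γ] {o : ℕ}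

/-- the product of the ten even constants -/
def evP (k : Ch → L) : L := ∏ m ∈ Finset.univ.filter Ev, k m

theorem evP_ne {k : Ch → L} (h : ∀ η, Ev η → k η ≠ 0) : evP k ≠ 0 :=
  Finset.prod_ne_zero_iff.2 fun m hm ↦ h m (Finset.mem_filter.1 hm).2

theorem card_Ev : (Finset.univ.filter Ev).card = 10 := by decide

namespace Sys

theorem loc (S : Sys L Γ o) {v : AbsoluteValue L ℝ} {t : ℕ} (h : Pl v t) (ho : 0 < o)
    (h4 : (4 : L) ≠ 0) {k l : Ch → L} (hk : ∀ η, S.X (S.hf η) = k η) (hl : ∀ η, S.G (S.hf η) = l η)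
    (h0 : ∀ η, Ev η → k η ≠ 0) {N : ℕ} (hN : 0 < N) (hx : ∀ x, N • x ∈ S.Hf) :
    ∃ η₁ η₂, ∀ x, v (4 * S.X x) ≤ (32 : ℝ) ^ t * v (k η₁) ∧
      v (4 ^ 4 * N * evP k ^ 4 * S.G x) ≤
        ((5 * N * N * 32 ^ 4 : ℕ) : ℝ) ^ t * v (k η₁ ^ 40 * l η₂) := by
  classical
  obtain ⟨η₁, -, e1⟩ := Finset.exists_mem_eq_sup' (Finset.univ_nonempty (α := Ch))
    fun η : Ch ↦ v (S.X (0 + S.hf η))
  obtain ⟨η₂, -, e2⟩ := Finset.exists_max_image Finset.univ (fun η ↦ v (l η)) Finset.univ_nonempty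
  have eM : S.M v 0 = v (k η₁) := by rw [← hk, ← zero_add (S.hf η₁)]; exact e1
  have hκ := M_pos (S := S) (v := v) 0
  have hle : ∀ η, v (k η) ≤ S.M v 0 := fun η ↦ by
    rw [← hk]; exact le_M ho (by simpa using S.hf_mem η)
  have hP : 0 < v (evP k) := v.pos (evP_ne h0)
  have hρ : ∀ η, Ev η → v (evP k) / S.M v 0 ^ 9 ≤ v (S.X (S.hf η)) := fun η hη ↦ by
    have hm : η ∈ Finset.univ.filter Ev := Finset.mem_filter.2 ⟨Finset.mem_univ _, hη⟩
    rw [div_le_iff₀ (by positivity), hk, evP, ← Finset.mul_prod_erase _ _ hm, map_mul, map_prod]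
    refine mul_le_mul_of_nonneg_left ?_ (v.nonneg _)
    refine (Finset.prod_le_prod (fun _ _ ↦ v.nonneg _) fun m _ ↦ hle m).trans_eq ?_
    rw [Finset.prod_const, Finset.card_erase_of_mem hm, card_Ev]
  refine ⟨η₁, η₂, fun x ↦ ⟨?_, ?_⟩⟩
  · rw [map_mul, ← eM]
    exact (mul_le_mul_of_nonneg_left (le_M ho (by simp)) (v.nonneg _)).trans (M_le h ho hN (hx x))
  · have := G_bound (S := S) h ho h4 (lam := v (l η₂))
      (fun η ↦ by rw [hl]; exact e2 η (Finset.mem_univ _)) (by positivity) hρ hN (hx x)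
    rw [div_pow, ← mul_div_assoc, div_le_iff₀ (by positivity)] at this
    calc _ = v (4 ^ 4 * N * S.G x) * v (evP k) ^ 4 := by
          rw [← map_pow, ← map_mul]; congr 1; ring
      _ ≤ _ := this
      _ = _ := by rw [map_mul, map_pow, ← eM]; ring

theorem alg (S : Sys ℂ Γ o) (ho : 0 < o) {k l : Ch → ℂ} (hk : ∀ η, S.X (S.hf η) = k η)
    (hl : ∀ η, S.G (S.hf η) = l η) (h0 : ∀ η, Ev η → k η ≠ 0) {N : ℕ} (hN : 0 < N)
    (hx : ∀ x, N • x ∈ S.Hf) (ak : AlgT k) (al : AlgT l) (x : Γ) :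
    IsAlgebraic ℚ (S.X x) ∧ IsAlgebraic ℚ (S.G x) := by
  choose C₁ h₁ using fun η ↦ bdd_of_alg (ak η)
  choose C₂ h₂ using fun p : Ch × Ch ↦ bdd_of_alg (((ak p.1).pow 40).mul (al p.2))
  have key := fun σ : ℂ →+* ℂ ↦ S.loc (v := place σ) (t := 1) (Or.inl rfl) ho (by norm_num) hk hl h0
    hN hx
  have a4 : IsAlgebraic ℚ (4 : ℂ) := by simpa using isAlgebraic_natCast (R := ℚ) (A := ℂ) 4
  have aP : IsAlgebraic ℚ (evP k) := by
    have := (algebraicClosure ℚ ℂ).prod_mem (t := Finset.univ.filter Ev) (f := k)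
      fun m _ ↦ mem_algebraicClosure_iff.2 (ak m)
    exact mem_algebraicClosure_iff.1 this
  constructor
  · have : IsAlgebraic ℚ (4 * S.X x) := alg_of_bdd (C := 32 * ∑ η, |C₁ η|) fun σ ↦ by
      obtain ⟨η₁, η₂, h⟩ := key σ
      have := (h x).1
      simp only [place_apply, pow_one] at this
      refine this.trans (mul_le_mul_of_nonneg_left ((h₁ η₁ σ).trans ((le_abs_self _).trans ?_))
        (by norm_num))
      exact Finset.single_le_sum (f := fun η ↦ |C₁ η|) (fun _ _ ↦ abs_nonneg _) (Finset.mem_univ _)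
    simpa using a4.inv.mul this
  · have : IsAlgebraic ℚ (4 ^ 4 * N * evP k ^ 4 * S.G x) :=
      alg_of_bdd (C := ((5 * N * N * 32 ^ 4 : ℕ) : ℝ) * ∑ p, |C₂ p|) fun σ ↦ by
        obtain ⟨η₁, η₂, h⟩ := key σ
        have := (h x).2
        simp only [place_apply, pow_one] at this
        refine this.trans (mul_le_mul_of_nonneg_left
          ((h₂ (η₁, η₂) σ).trans ((le_abs_self _).trans ?_)) (by positivity))
        exact Finset.single_le_sum (f := fun η ↦ |C₂ η|) (fun _ _ ↦ abs_nonneg _)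
          (Finset.mem_univ _)
    have hc : (4 ^ 4 * N * evP k ^ 4 : ℂ) ≠ 0 := by
      have : (N : ℂ) ≠ 0 := by exact_mod_cast hN.ne'
      exact mul_ne_zero (mul_ne_zero (by norm_num) this) (pow_ne_zero 4 (evP_ne h0))
    have := (((a4.pow 4).mul (isAlgebraic_natCast N)).mul (aP.pow 4)).inv.mul this
    rwa [inv_mul_cancel_left₀ hc] at this

/-- restriction to a subfield -/
def res (S : Sys ℂ Γ o) (F : IntermediateField ℚ ℂ) (hX : ∀ x, S.X x ∈ F) (hG : ∀ x, S.G x ∈ F)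
    (hφ : ∀ φ : ℂ, φ ^ o = 1 → φ ∈ F) : Sys F Γ o where
  X x := ⟨S.X x, hX x⟩
  G x := ⟨S.G x, hG x⟩
  Hf := S.Hf
  hf := S.hf
  hf_mem := S.hf_mem
  red h hh := by
    obtain ⟨η, hη⟩ := S.red h hh
    refine ⟨η, fun x ↦ ?_⟩
    obtain ⟨φ, a, b, c⟩ := hη x
    exact ⟨⟨φ, hφ φ a⟩, Subtype.ext a, Subtype.ext b, Subtype.ext c⟩
  pair := S.pair
  ne x := (S.ne x).imp fun η h h' ↦ h (congrArg Subtype.val h')
  riem x₁ x₂ x₃ x₄ s hs := by
    obtain ⟨φ, a, b, c, d⟩ := S.riem x₁ x₂ x₃ x₄ s hs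
    have h4 : ((4 : F) : ℂ) = 4 := map_ofNat F.val 4
    refine ⟨fun η ↦ ⟨φ η, hφ _ (a η)⟩, fun η ↦ Subtype.ext (a η), ?_, ?_, ?_⟩
    · apply F.val.injective
      simpa [h4] using b
    · apply F.val.injective
      simpa [h4] using c
    · apply F.val.injective
      simpa [h4] using d

theorem fin (S : Sys ℂ Γ o) (ho : 0 < o) {T : Finset Γ} (hT : ∀ x, ∃ y ∈ T, x - y ∈ S.Hf) :
    (Set.range S.X).Finite ∧ (Set.range S.G).Finite := by
  have hr : {φ : ℂ | φ ^ o = 1}.Finite :=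
    (Polynomial.nthRoots o (1 : ℂ)).finite_toSet.subset fun φ h ↦ (Polynomial.mem_nthRoots ho).2 h
  have key : ∀ f : Γ → ℂ, (∀ x, ∃ φ, φ ^ o = 1 ∧ ∃ y ∈ T, ∃ η, f x = φ * f (y + S.hf η)) →
      (Set.range f).Finite := fun f h ↦ by
    refine (hr.image2 (· * ·) (T.finite_toSet.image2 (fun y η ↦ f (y + S.hf η))
      Set.finite_univ)).subset ?_
    rintro _ ⟨x, rfl⟩
    obtain ⟨φ, a, y, b, η, c⟩ := h x
    exact ⟨φ, a, _, ⟨y, b, η, trivial, rfl⟩, c.symm⟩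
  constructor <;> refine key _ fun x ↦ ?_ <;> obtain ⟨y, hy, h⟩ := hT x <;>
    obtain ⟨η, hη⟩ := S.red _ h <;> obtain ⟨φ, a, b, c⟩ := hη y <;> rw [add_sub_cancel] at b c
  exacts [⟨φ, a, y, hy, η, b⟩, ⟨φ, a, y, hy, η, c⟩]

end Sys

/-- height of sums of gradients in two directions -/
theorem ht_sum (S : Fin 2 → Sys ℂ Γ o) (ho : 0 < o) {k : Ch → ℂ} {l : Fin 2 × Ch → ℂ}
    (hk : ∀ i η, (S i).X ((S i).hf η) = k η) (hl : ∀ i η, (S i).G ((S i).hf η) = l (i, η))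
    (h0 : ∀ η, Ev η → k η ≠ 0) (l0 : l ≠ 0) {N : ℕ} (hN : 0 < N) (hx : ∀ i x, N • x ∈ (S i).Hf)
    {T : Finset Γ} (hT : ∀ i x, ∃ y ∈ T, x - y ∈ (S i).Hf) (ak : AlgT k) (al : AlgT l)
    {φ φ' : ℕ → ℂ} (hφ : ∀ j, φ j ^ o = 1) (hφ' : ∀ j, φ' j ^ o = 1) (x x' : ℕ → Γ) {y : Fin 2 → ℂ}
    (hy : ∀ i, y i = ∑ j ∈ Finset.range N, (φ j * (S i).G (x j) - φ' j * (S i).G (x' j))) :
    AlgT y ∧ ht y ≤ 40 * ht k + ht l + Real.log ((N * (2 * (5 * N * N * 32 ^ 4)) : ℕ) : ℝ) := by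
  have hr : {φ : ℂ | φ ^ o = 1}.Finite :=
    (Polynomial.nthRoots o (1 : ℂ)).finite_toSet.subset fun φ h ↦ (Polynomial.mem_nthRoots ho).2 h
  set U : Set ℂ := {φ : ℂ | φ ^ o = 1} ∪ ⋃ i, (Set.range (S i).X ∪ Set.range (S i).G)
  have hU : U.Finite := hr.union (Set.finite_iUnion fun i ↦
    ((S i).fin ho (hT i)).1.union ((S i).fin ho (hT i)).2)
  have aU : ∀ z ∈ U, IsIntegral ℚ z := by
    rintro z (hz | hz)
    · exact IsIntegral.of_pow ho (by rw [hz]; exact isIntegral_one)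
    · obtain ⟨i, hi⟩ := Set.mem_iUnion.1 hz
      have := (S i).alg ho (hk i) (hl i) h0 hN (hx i) ak fun η ↦ al (i, η)
      rcases hi with ⟨w, rfl⟩ | ⟨w, rfl⟩
      exacts [(this w).1.isIntegral, (this w).2.isIntegral]
  set F := IntermediateField.adjoin ℚ U
  have : Finite U := hU
  have : FiniteDimensional ℚ F := IntermediateField.finiteDimensional_adjoin aU
  have : NumberField F := { to_charZero := inferInstance, to_finiteDimensional := inferInstance }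
  have m0 : ∀ φ : ℂ, φ ^ o = 1 → φ ∈ F := fun φ h ↦ IntermediateField.subset_adjoin _ _ (Or.inl h)
  have m1 : ∀ i x, (S i).X x ∈ F := fun i x ↦ IntermediateField.subset_adjoin _ _
    (Or.inr (Set.mem_iUnion.2 ⟨i, Or.inl ⟨x, rfl⟩⟩))
  have m2 : ∀ i x, (S i).G x ∈ F := fun i x ↦ IntermediateField.subset_adjoin _ _
    (Or.inr (Set.mem_iUnion.2 ⟨i, Or.inr ⟨x, rfl⟩⟩))
  let R : Fin 2 → Sys F Γ o := fun i ↦ (S i).res F (m1 i) (m2 i) m0
  let k' : Ch → F := fun η ↦ ⟨k η, hk 0 η ▸ m1 0 _⟩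
  let l' : Fin 2 × Ch → F := fun p ↦ ⟨l p, hl p.1 p.2 ▸ m2 p.1 _⟩
  let y' : Fin 2 → F := fun i ↦ ∑ j ∈ Finset.range N,
    (⟨φ j, m0 _ (hφ j)⟩ * (R i).G (x j) - ⟨φ' j, m0 _ (hφ' j)⟩ * (R i).G (x' j))
  let e : F →+* ℂ := F.val
  have ey : ∀ i, e (y' i) = y i := fun i ↦ by
    rw [hy]
    simp only [y', map_sum, map_sub, map_mul]
    rfl
  have h0' : ∀ η, Ev η → k' η ≠ 0 := fun η h h' ↦ h0 η h (congrArg Subtype.val h')
  have key : ∀ {v : AbsoluteValue F ℝ} {t : ℕ}, Pl v t → ∀ i, ∃ p : Ch × Fin 2 × Ch,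
      v (4 ^ 4 * N * evP k' ^ 4 * y' i) ≤
        ((N * (2 * (5 * N * N * 32 ^ 4)) : ℕ) : ℝ) ^ t * v (k' p.1 ^ 40 * l' p.2) := by
    intro v t h i
    obtain ⟨η₁, η₂, H⟩ := (R i).loc h ho (by norm_num) (k := k') (l := fun η ↦ l' (i, η))
      (fun η ↦ Subtype.ext (hk i η)) (fun η ↦ Subtype.ext (hl i η)) h0' hN (hx i)
    refine ⟨(η₁, i, η₂), ?_⟩
    have := h.sum (Finset.range N) (m := 2 * (5 * N * N * 32 ^ 4)) (v.nonneg (k' η₁ ^ 40 * l' (i, η₂)))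
      (f := fun j ↦ 4 ^ 4 * N * evP k' ^ 4 *
        (⟨φ j, m0 _ (hφ j)⟩ * (R i).G (x j) - ⟨φ' j, m0 _ (hφ' j)⟩ * (R i).G (x' j))) fun j _ ↦ by
        rw [mul_sub, mul_left_comm, mul_left_comm _ (⟨φ' j, _⟩ : F), two_mul]
        refine h.sub ?_ ?_
        · rw [map_mul, unit ho (Subtype.ext (hφ j)), one_mul]; exact (H _).2
        · rw [map_mul, unit ho (Subtype.ext (hφ' j)), one_mul]; exact (H _).2
    rwa [← Finset.mul_sum, Finset.card_range] at this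
  have ay : AlgT y := fun i ↦ ey i ▸ alg_emb e _
  have k0 : k ≠ 0 := fun h ↦ h0 0 (by decide) (congrFun h 0)
  have k1 : (fun η ↦ k η ^ 40) ≠ 0 := fun h ↦ pow_ne_zero 40 (h0 0 (by decide)) (congrFun h 0)
  have w0 : (fun p : Ch × Fin 2 × Ch ↦ k' p.1 ^ 40 * l' p.2) ≠ 0 := by
    obtain ⟨p, hp⟩ := Function.ne_iff.1 l0
    exact fun h ↦ mul_ne_zero (pow_ne_zero 40 (h0' 0 (by decide)))
      (fun h' ↦ hp (congrArg Subtype.val h')) (congrFun h (0, p))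
  have h1 := ht_le_nf e (x := fun i ↦ 4 ^ 4 * N * evP k' ^ 4 * y' i)
    (C := ((N * (2 * (5 * N * N * 32 ^ 4)) : ℕ) : ℝ))
    (by exact_mod_cast Nat.succ_le_of_lt (by positivity)) w0
    (fun ψ i ↦ by simpa only [place_apply, pow_one] using key (v := place ψ) (Or.inl rfl) i)
    (fun v i ↦ by
      have := key (v := v.1) (Or.inr ⟨rfl, v.add_le⟩) i
      simp only [pow_zero, one_mul] at this
      exact this)
  have hc : (4 ^ 4 * N * evP k' ^ 4 : F) ≠ 0 := by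
    have := evP_ne h0'
    have : (N : F) ≠ 0 := by exact_mod_cast hN.ne'
    exact mul_ne_zero (mul_ne_zero (by norm_num) this) (pow_ne_zero 4 ‹_›)
  simp only [map_mul e (4 ^ 4 * N * evP k' ^ 4), ey, map_mul e (k' _ ^ 40), map_pow e (k' _)] at h1
  rw [ht_smul ay (alg_emb e _) ((map_ne_zero e).2 hc)] at h1
  have h2 := ht_segre (x := fun η ↦ k η ^ 40) (y := l) (fun η ↦ (ak η).pow 40) al k1 l0
  rw [ht_pow 40 ak] at h2
  refine ⟨ay, h1.trans_eq ?_⟩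
  congr 1

end Pool.Agent.Lib.ECM.G1
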