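import Pool.Agent.Lib.ECM.G1Sys

/-! Block G1: in normal form the second coordinate is a sum of gradients of theta constants. -/

open Complex
open scoped Real

noncomputable section

namespace Pool.Agent.Lib.ECM.G1

theorem geom {N : ℕ} (hN : 0 < N) (k : ℤ) :
    ∑ j ∈ Finset.range N, exp (2 * π * I * (k * j / N)) = if (N : ℤ) ∣ k then (N : ℂ) else 0 := by
  have hN' : (N : ℂ) ≠ 0 := by exact_mod_cast hN.ne'
  have e : ∀ j : ℕ, exp (2 * π * I * (k * j / N)) = exp (2 * π * I * (k / N)) ^ j := fun j ↦ by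
    rw [← exp_nat_mul]; congr 1; ring
  simp only [e]
  split_ifs with h
  · obtain ⟨m, rfl⟩ := h
    have : exp (2 * π * I * (((N * m : ℤ) : ℂ) / N)) = 1 := by
      rw [← exp_int_mul_two_pi_mul_I m]; congr 1; push_cast; field_simp
    simp only [this, one_pow, Finset.sum_const, Finset.card_range, nsmul_eq_mul, mul_one]
  · have h1 : exp (2 * π * I * (k / N)) ≠ 1 := fun h1 ↦ by
      obtain ⟨m, hm⟩ := exp_eq_one_iff.1 h1
      refine h ⟨m, ?_⟩
      have h2 : (2 * π * I : ℂ) ≠ 0 := two_pi_I_ne_zero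
      have : (k : ℂ) = N * m := by
        have := mul_left_cancel₀ h2 (hm.trans (mul_comm _ _))
        field_simp at this
        linear_combination this
      exact_mod_cast this
    have h2 : exp (2 * π * I * (k / N)) ^ N = 1 := by
      rw [← exp_nat_mul, ← exp_int_mul_two_pi_mul_I k]; congr 1; field_simp
    rw [geom_sum_eq h1, h2, sub_self, zero_div]

/-- average of translates -/
def av (τ : T3) (N : ℕ) (a w : V2) : ℂ :=
  ∑ j ∈ Finset.range N, exp (-2 * π * I * (a 0 * j / N)) * thg τ a (w + ![(j : ℂ) / N, 0])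

/-- average of translates of gradients -/
def avd (τ : T3) (N : ℕ) (a w u : V2) : ℂ :=
  ∑ j ∈ Finset.range N, exp (-2 * π * I * (a 0 * j / N)) * dg τ a (w + ![(j : ℂ) / N, 0]) u

theorem av_eq (hB : St_BAS) {τ : T3} (hτ : τ ∈ H2) {N : ℕ} (hN : 0 < N) (a w : V2) :
    av τ N a w = ∑' n : ℤ × ℤ, (if (N : ℤ) ∣ n.1 then (N : ℂ) else 0) * term τ (iv n + a) w := by
  simp only [av, thg, ← tsum_mul_left]
  rw [← Summable.tsum_finsetSum fun j _ ↦ (hB.summ τ hτ a _).of_norm.mul_left _]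
  refine tsum_congr fun n ↦ ?_
  rw [← geom hN, Finset.sum_mul]
  refine Finset.sum_congr rfl fun j _ ↦ ?_
  simp only [term, ← exp_add]
  congr 1
  simp [dot, iv]
  ring

theorem hav (hB : St_BAS) {τ : T3} (hτ : τ ∈ H2) (N : ℕ) (a w u : V2) :
    HasDerivAt (fun t : ℂ ↦ av τ N a (w + t • u)) (avd τ N a w u) 0 := by
  refine (HasDerivAt.fun_sum (u := Finset.range N) fun (j : ℕ) _ ↦ (hd hB hτ a (w + ![(j : ℂ) / N, 0]) u).const_mul
    (exp (-2 * π * I * (a 0 * j / N)))).congr_of_eventuallyEq (Filter.Eventually.of_forall fun t ↦ ?_)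
  simp only [av, add_right_comm w (t • u)]

theorem av_refl (hB : St_BAS) {τ : T3} (hτ : τ ∈ H2) {N : ℕ} (hN : 0 < N) {U : ℤ}
    (hU : (N : ℂ) * τ 1 = U) (a w : V2) :
    av τ N a w = exp (-4 * π * I * (τ 1 * a 0 * a 1)) *
      av τ N ![a 0, -a 1] ![w 0 + 2 * τ 1 * a 1, -w 1 - 2 * τ 1 * a 0] := by
  rw [av_eq hB hτ hN, av_eq hB hτ hN, ← tsum_mul_left,
    ← ((Equiv.refl ℤ).prodCongr (Equiv.neg ℤ)).tsum_eq]
  refine tsum_congr fun n ↦ ?_
  simp only [Equiv.prodCongr_apply, Equiv.coe_refl, Prod.map_fst, id_eq]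
  split_ifs with h
  · obtain ⟨k, hk⟩ := h
    have hk' : (n.1 : ℂ) = N * k := by exact_mod_cast hk
    rw [mul_left_comm]
    congr 1
    rw [← mul_one (exp _ * _), ← exp_int_mul_two_pi_mul_I (-2 * U * k * n.2)]
    simp only [term, ← exp_add]
    congr 1
    simp [Qf, dot, iv, hk', ← hU]
    ring
  · simp

theorem avd_refl (hB : St_BAS) {τ : T3} (hτ : τ ∈ H2) {N : ℕ} (hN : 0 < N) {U : ℤ}
    (hU : (N : ℂ) * τ 1 = U) (a w u : V2) :
    avd τ N a w u - exp (-4 * π * I * (τ 1 * a 0 * a 1)) *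
      avd τ N ![a 0, -a 1] ![w 0 + 2 * τ 1 * a 1, -w 1 - 2 * τ 1 * a 0] u =
      2 * avd τ N a w ![0, 1] * u 1 := by
  have h1 := (hav hB hτ N a w ![u 0, -u 1]).unique (((hav hB hτ N ![a 0, -a 1]
    ![w 0 + 2 * τ 1 * a 1, -w 1 - 2 * τ 1 * a 0] u).const_mul
    (exp (-4 * π * I * (τ 1 * a 0 * a 1)))).congr_of_eventuallyEq
    (Filter.Eventually.of_forall fun t ↦ by
      dsimp only
      rw [av_refl hB hτ hN hU]
      congr 2
      ext i
      fin_cases i <;> simp <;> ring))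
  have e : u - ![u 0, -u 1] = (2 * u 1) • ![0, 1] := by
    ext i; fin_cases i <;> simp; ring
  rw [← h1]
  simp only [avd, ← Finset.sum_sub_distrib, Finset.mul_sum, Finset.sum_mul]
  refine Finset.sum_congr rfl fun j _ ↦ ?_
  rw [← mul_sub, dg, dg, dg, ← map_sub, e, map_smul, smul_eq_mul]
  ring

theorem avd_sum (hB : St_BAS) {τ : T3} {N : ℕ} (hN : 0 < N) (a w u : V2) :
    ∑ r ∈ Finset.range N, avd τ N (a + iv (r, 0)) w u = N * dg τ a w u := by
  have e : ∀ r : ℕ, thg τ (a + iv (r, 0)) = thg τ a := fun r ↦ funext fun w ↦ hB.shift_a _ _ _ _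
  simp only [avd, dg, e]
  rw [Finset.sum_comm]
  have h : ∀ j ∈ Finset.range N, ∑ r ∈ Finset.range N,
      exp (-2 * π * I * ((a + iv (r, 0)) 0 * j / N)) * fderiv ℂ (thg τ a) (w + ![(j : ℂ) / N, 0]) u =
      (if (N : ℤ) ∣ -(j : ℤ) then (N : ℂ) else 0) * (exp (-2 * π * I * (a 0 * j / N)) *
        fderiv ℂ (thg τ a) (w + ![(j : ℂ) / N, 0]) u) := fun j _ ↦ by
    rw [← geom hN, Finset.sum_mul]
    refine Finset.sum_congr rfl fun r _ ↦ ?_
    rw [← mul_assoc, ← exp_add]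
    congr 2
    simp [iv]
    ring
  rw [Finset.sum_congr rfl h, Finset.sum_eq_single 0]
  · have : (![((0 : ℕ) : ℂ) / N, 0] : V2) = 0 := by ext i; fin_cases i <;> simp
    rw [this]
    simp
  · intro j hj h0
    rw [if_neg, zero_mul]
    rw [Int.dvd_neg, Int.natCast_dvd_natCast]
    exact Nat.not_dvd_of_pos_of_lt (Nat.pos_of_ne_zero h0) (Finset.mem_range.1 hj)
  · intro h0
    exact absurd (Finset.mem_range.2 hN) h0

/-- the second coordinate as a sum of gradients -/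
theorem reflect (hB : St_BAS) {τ : T3} (hτ : τ ∈ H2) {N : ℕ} (hN : 0 < N) {U : ℤ}
    (hU : (N : ℂ) * τ 1 = U) {h : Ch} (hh : ll h τ ![0, 1] ≠ 0) :
    ∃ (φ φ' : ℕ → ℂ) (x x' : ℕ → Z4) (C : ℂ), C ≠ 0 ∧ (∀ j, φ j ^ (2 * N) = 1) ∧
      (∀ j, φ' j ^ (2 * N) = 1) ∧ ∀ u : V2, ∑ j ∈ Finset.range N,
        (φ j * dg τ (fr N (x j).1) (fr N (x j).2) u -
          φ' j * dg τ (fr N (x' j).1) (fr N (x' j).2) u) = C * u 1 := by
  have hN' : (N : ℂ) ≠ 0 := by exact_mod_cast hN.ne'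
  have h1 := avd_sum hB (τ := τ) hN (ca h) (cb h) ![0, 1]
  rw [dg_ll hB hτ] at h1
  obtain ⟨r, -, hr⟩ := Finset.exists_ne_zero_of_sum_ne_zero (h1 ▸ mul_ne_zero hN' hh)
  let s₀ : ℤ := h.1.val + 2 * r
  let s₁ : ℤ := h.2.1.val
  let b₀ : ℤ := h.2.2.1.val
  let b₁ : ℤ := h.2.2.2.val
  have ea : ca h + iv (r, 0) = ![(s₀ : ℂ) / 2, (s₁ : ℂ) / 2] := by
    ext i; fin_cases i <;> simp [ca, iv, s₀, s₁]; ring
  have eb : cb h = ![(b₀ : ℂ) / 2, (b₁ : ℂ) / 2] := by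
    ext i; fin_cases i <;> simp [cb, b₀, b₁]
  rw [ea, eb] at hr
  clear_value s₀ s₁ b₀ b₁
  have hτ1 : τ 1 = U / N := by rw [← hU]; field_simp
  refine ⟨fun j ↦ exp (-2 * π * I * (s₀ / 2 * j / N)),
    fun j ↦ exp (-4 * π * I * (τ 1 * (s₀ / 2) * (s₁ / 2))) * exp (-2 * π * I * (s₀ / 2 * j / N)),
    fun j ↦ ((N * s₀, N * s₁), (N * b₀ + 2 * j, N * b₁)),
    fun j ↦ ((N * s₀, -(N * s₁)), (N * b₀ + 2 * U * s₁ + 2 * j, -(N * b₁) - 2 * U * s₀)),
    _, mul_ne_zero two_ne_zero hr, fun j ↦ root hN (-(s₀ * j)) (by push_cast; ring),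
    fun j ↦ ?_, fun u ↦ ?_⟩
  · rw [mul_pow, root hN (-(U * s₀ * s₁)) (by rw [hτ1]; push_cast; ring),
      root hN (-(s₀ * j)) (by push_cast; ring), one_mul]
  · rw [← avd_refl hB hτ hN hU]
    simp only [avd, Finset.mul_sum, ← Finset.sum_sub_distrib, Matrix.cons_val_zero,
      Matrix.cons_val_one, Matrix.cons_val_fin_one]
    refine Finset.sum_congr rfl fun j _ ↦ ?_
    rw [mul_assoc (exp _)]
    congr 3
    rotate_left 2
    congr 1
    all_goals
      rw [fr_apply]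
      ext i
      fin_cases i <;> simp [hτ1] <;> field_simp

end Pool.Agent.Lib.ECM.G1
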