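import Pool.Agent.Lib.ECM.M_NF
import Pool.Agent.Lib.ECM.G1Ht
import Pool.Agent.Lib.ECM.G1Ref
import Pool.Agent.Lib.ECM.TH_TOR

/-! Block G1: the dual form and its height. -/

open Complex UpperHalfPlane MvPolynomial NumberField

namespace Pool.Agent.Lib.ECM

namespace G1

theorem hom_loc {L : Type} [Field L] {v : AbsoluteValue L ℝ} {t : ℕ} (h : Pl v t)
    {F : MvPolynomial Ch ℤ} {n : ℕ} (hF : F.IsHomogeneous n) (x : Ch → L) {m : ℕ}
    (hm : F.support.card * ∑ d ∈ F.support, (F.coeff d).natAbs ≤ m) :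
    ∃ j, v (aeval x F) ≤ (m : ℝ) ^ t * v (x j ^ n) := by
  obtain ⟨j, -, hj⟩ := Finset.exists_max_image Finset.univ (fun i ↦ v (x i)) Finset.univ_nonempty
  refine ⟨j, mono ?_ (v.nonneg _) hm⟩
  rw [aeval_def, eval₂_eq]
  refine h.sum _ (v.nonneg _) fun d hd ↦ mono (m := (F.coeff d).natAbs) ?_ (v.nonneg _)
    (Finset.single_le_sum (f := fun d ↦ (F.coeff d).natAbs) (fun _ _ ↦ Nat.zero_le _) hd)
  rw [map_mul]
  refine mul_le_mul (le_of_eq_of_le ?_ (h.nat _)) ?_ (v.nonneg _) (by positivity)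
  · rcases Int.natAbs_eq (F.coeff d) with e | e <;> rw [e] <;> simp
  · rw [map_prod, map_pow, hF.degree_eq_sum_deg_support hd, ← Finset.prod_pow_eq_pow_sum]
    exact Finset.prod_le_prod (fun _ _ ↦ v.nonneg _) fun i _ ↦ by
      rw [map_pow]; exact pow_le_pow_left₀ (v.nonneg _) (hj i (Finset.mem_univ i)) _

theorem ht_hom {κ : Type} [Fintype κ] {F : κ → MvPolynomial Ch ℤ} {n : ℕ}
    (hF : ∀ j, (F j).IsHomogeneous n) : ∃ C : ℝ, 0 ≤ C ∧ ∀ x : Ch → ℂ, AlgT x → x 0 ≠ 0 →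
      ht (fun j ↦ aeval x (F j)) ≤ n * ht x + C := by
  set m := ∑ j, (F j).support.card * ∑ d ∈ (F j).support, ((F j).coeff d).natAbs
  have hm : ∀ j, (F j).support.card * ∑ d ∈ (F j).support, ((F j).coeff d).natAbs ≤ m + 1 :=
    fun j ↦ (Finset.single_le_sum (f := fun j ↦ (F j).support.card *
      ∑ d ∈ (F j).support, ((F j).coeff d).natAbs) (fun _ _ ↦ Nat.zero_le _)
      (Finset.mem_univ j)).trans (Nat.le_succ m)
  have h1 : (1 : ℝ) ≤ ((m + 1 : ℕ) : ℝ) := by exact_mod_cast Nat.le_add_left 1 m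
  refine ⟨_, Real.log_nonneg h1, fun x hx h0 ↦ ?_⟩
  rw [← ht_pow n hx]
  obtain ⟨L, _, _, e, x, rfl⟩ := T42.exists_nf hx
  have := ht_le_nf e (x := fun j ↦ aeval x (F j)) (y := fun i ↦ x i ^ n) h1
    (fun h ↦ pow_ne_zero n ((map_ne_zero e).1 h0) (congrFun h 0))
    (fun ψ j ↦ by
      simpa only [place_apply, pow_one] using hom_loc (v := place ψ) (Or.inl rfl) (hF j) x (hm j))
    (fun v j ↦ by
      have := hom_loc (v := v.1) (Or.inr ⟨rfl, v.add_le⟩) (hF j) x (hm j)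
      simp only [pow_zero, one_mul] at this
      exact this)
  simpa only [map_pow, aeval_def, eval₂_eq, map_sum, map_mul, map_prod, algebraMap_int_eq,
    eq_intCast, map_intCast] using this

theorem ht_unit {ι κ : Type} [Fintype ι] [Fintype κ] {x : κ → ℂ} (hx : AlgT x) (f : ι → κ)
    {ζ : ι → ℂ} (hζ : ∀ i, ζ i ^ 8 = 1) :
    AlgT (fun i ↦ ζ i * x (f i)) ∧ ht (fun i ↦ ζ i * x (f i)) ≤ ht x := by
  have a : AlgT (fun i ↦ ζ i * x (f i)) := fun i ↦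
    (IsAlgebraic.of_pow (by norm_num : 0 < 8) (by rw [hζ]; exact isAlgebraic_one)).mul (hx _)
  have h1 := ht_pow 8 a
  have h2 := ht_pow 8 (x := fun i ↦ x (f i)) fun i ↦ hx _
  simp only [mul_pow, hζ, one_mul, h2] at h1
  have h3 := ht_comp f hx
  push_cast at h1
  exact ⟨a, by linarith⟩

theorem ll_lin (m : Ch) (τ : T3) (a b : ℂ) (u w : V2) :
    ll m τ (a • u + b • w) = a * ll m τ u + b * ll m τ w := by
  simp [ll, dth]

/-- the coordinates of the dual basis -/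
theorem dual (hG : St_GAUGE) (hL : St_LIN) : ∃ C : ℝ, 0 ≤ C ∧ ∀ x τ, Over x τ → Gen τ →
    ∃ u : Fin 2 → V2, lv τ (u 0) hA = 1 ∧ (∀ w, w = lv τ w hA • u 0 + lv τ w hB • u 1) ∧
      (AlgT x → AlgT (fun p : Fin 2 × Ch ↦ lv τ (u p.1) p.2) ∧
        ht (fun p : Fin 2 × Ch ↦ lv τ (u p.1) p.2) ≤ 48 * ht x + C) := by
  obtain ⟨P, A, B, h1, h2⟩ := hL
  have hP : ∀ h, (P h).IsHomogeneous 3 := fun h ↦ by
    obtain ⟨-, -, c, m₁, m₂, m₃, -, -, -, -, e⟩ := h1 h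
    rw [e]
    exact (((isHomogeneous_X _ m₁).mul (isHomogeneous_X _ m₂)).mul (isHomogeneous_X _ m₃)).C_mul c
  have hF : ∀ p : Fin 2 × Ch,
      (![A, B] p.1 p.2 * ∏ m ∈ Finset.univ.erase p.2, P m).IsHomogeneous 48 := fun ⟨i, h⟩ ↦ by
    have a : (![A, B] i h).IsHomogeneous 3 := by
      fin_cases i
      exacts [(h1 h).1, (h1 h).2.1]
    have := a.mul (IsHomogeneous.prod (Finset.univ.erase h) P (fun _ ↦ 3) fun m _ ↦ hP m)
    rwa [Finset.sum_const, Finset.card_erase_of_mem (Finset.mem_univ h), card_Ch] at this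
  obtain ⟨C, C0, hC⟩ := ht_hom hF
  refine ⟨C, C0, fun x τ ⟨hτ, k0, hx⟩ hg ↦ ?_⟩
  obtain ⟨uA, hA'⟩ := (hG.ind τ hτ hg).2 (kk 0 τ, 0)
  obtain ⟨uB, hB'⟩ := (hG.ind τ hτ hg).2 (0, kk 0 τ)
  obtain ⟨a1, a2⟩ := Prod.mk.inj hA'
  obtain ⟨b1, b2⟩ := Prod.mk.inj hB'
  refine ⟨![uA, uB], by simp [lv, a1, k0], fun w ↦ (hG.ind τ hτ hg).1 ?_, fun ax ↦ ?_⟩
  · simp [ll_lin, lv, a1, a2, b1, b2, k0]
  have ek : (fun m ↦ kk m τ) = fun m ↦ kk 0 τ * x m := funext fun m ↦ by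
    rw [hx, mul_div_cancel₀ _ k0]
  have P0 : ∀ h, aeval x (P h) ≠ 0 := fun h ↦ by
    obtain ⟨-, -, c, m₁, m₂, m₃, hc, e1, e2, e3, e⟩ := h1 h
    simp [e, hc, hx, k0, hg _ e1, hg _ e2, hg _ e3]
  have alg : ∀ F : MvPolynomial Ch ℤ, IsAlgebraic ℚ (aeval x F) := fun F ↦ by
    induction F using MvPolynomial.induction_on with
    | C a => simpa using isAlgebraic_intCast (R := ℚ) (A := ℂ) a
    | add p q hp hq => rw [map_add]; exact hp.add hq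
    | mul_X p n hp => rw [map_mul, aeval_X]; exact hp.mul (ax n)
  have e1 : ∀ p : Fin 2 × Ch, lv τ (![uA, uB] p.1) p.2 = aeval x (![A, B] p.1 p.2) / aeval x (P p.2) :=
    fun ⟨i, h⟩ ↦ by
      have := h2 τ hτ h (![uA, uB] i)
      rw [ek, XTOR.hom_eval (hP h), XTOR.hom_eval (h1 h).1, XTOR.hom_eval (h1 h).2.1] at this
      rw [lv, div_eq_div_iff k0 (P0 h)]
      refine mul_left_cancel₀ (pow_ne_zero 3 k0) ?_
      fin_cases i <;> simp [a1, a2, b1, b2, -mul_eq_mul_left_iff] at this ⊢ <;>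
        linear_combination this
  have al : AlgT (fun p : Fin 2 × Ch ↦ lv τ (![uA, uB] p.1) p.2) := fun p ↦ by
    simp only [e1]
    exact (alg _).mul (alg _).inv
  refine ⟨al, le_of_eq_of_le ?_ (hC x ax (by rw [hx, div_self k0]; exact one_ne_zero))⟩
  rw [← ht_smul al (alg (∏ m, P m)) (by rw [map_prod]; exact Finset.prod_ne_zero_iff.2 fun m _ ↦ P0 m)]
  congr 1
  funext p
  have := P0 p.2
  rw [e1, ← Finset.mul_prod_erase _ _ (Finset.mem_univ p.2), map_mul, map_mul]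
  field_simp

end G1

open G1 in
theorem st_G1 (hb : St_BAS) (hR : St_RIEMG) (hM : St_NORM) (hT : St_SYMT) (hU : St_SYMU)
    (hJ : St_SYMJ) (hK : St_SYMK) (hG : St_GAUGE) (hL : St_LIN) : St_G1 := by
  obtain ⟨C, C0, hC⟩ := dual hG hL
  have E0 : 0 ≤ Real.log (10 * 32 ^ 4) := Real.log_nonneg (by norm_num)
  refine ⟨88 + (C + Real.log (10 * 32 ^ 4)), by positivity, fun x τ v τ0 N hO hg hv hN ↦ ?_⟩
  obtain ⟨u, u0, hu, ha⟩ := hC x τ hO hg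
  obtain ⟨hτ, k0, hx⟩ := hO
  obtain ⟨γ, d, a, b, n, d0, n0, h3, h4, h5, h6⟩ := normalL hT hU hJ hK hτ hv hN
  have d0' : (d : ℂ) ≠ 0 := by exact_mod_cast d0
  have n0' : (n : ℝ) ≠ 0 := by exact_mod_cast n0
  have N0 : 0 < N := Nat.pos_of_ne_zero fun h ↦ mul_ne_zero d0 n0 (by rw [← h6, h]; rfl)
  have eN : (N : ℂ) = d * n := by exact_mod_cast h6
  have hm := γ.act_mem τ hτ
  have hg' := (hK.gen γ τ hτ).2 hg
  obtain ⟨h, hh⟩ : ∃ h, ll h (γ.act τ) ![0, 1] ≠ 0 := by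
    by_contra! hz
    have := (hG.ind _ hm hg').1 (a₁ := ![0, 1]) (a₂ := 0) (by simp only [hz]; simp [ll, dth])
    simpa using congrFun this 1
  obtain ⟨φ, φ', z, z', D, D0, hφ, hφ', hD⟩ := reflect hb hm N0 (U := d * a)
    (by rw [eN]; push_cast; linear_combination d * h4) hh
  obtain ⟨c, c0, hc⟩ := hK.cst γ τ hτ
  have c1 : (c * kk 0 τ)⁻¹ ≠ 0 := inv_ne_zero (mul_ne_zero c0 k0)
  set y : Fin 2 → ℂ := fun i ↦ (c * kk 0 τ)⁻¹ * (D * γ.M τ (u i) 1) with hy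
  have e1 : ∀ w, lv τ w hA * y 0 + lv τ w hB * y 1 = (c * kk 0 τ)⁻¹ * (D * γ.M τ w 1) := fun w ↦ by
    conv_rhs => rw [hu w]
    simp [hy]
    ring
  obtain ⟨i, hi⟩ : ∃ i, y i ≠ 0 := by
    by_contra! hz
    have := e1 v
    simp [hz, h3, D0, d0, c0, k0] at this
  obtain ⟨r, r0, e2⟩ : ∃ r : ℂ, r ≠ 0 ∧
      ∀ w, eta τ ((y i)⁻¹ * y 0) ((y i)⁻¹ * y 1) w = r * γ.M τ w 1 :=
    ⟨(y i)⁻¹ * c⁻¹ * D, by simp [hi, c0, D0], fun w ↦ by
      have := e1 w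
      simp only [lv] at this
      rw [eta]
      field_simp at this ⊢
      linear_combination this⟩
  refine ⟨(y i)⁻¹ * y 0, (y i)⁻¹ * y 1, ?_, ⟨?_, fun l hl ↦ ?_, fun w hw t ↦ ?_⟩, fun ax ↦ ?_⟩
  · fin_cases i
    exacts [Or.inl (inv_mul_cancel₀ hi), Or.inr (inv_mul_cancel₀ hi)]
  · simp [e2, h3, r0, d0]
  · obtain ⟨p, q, e⟩ := (γ.lat τ hτ l).2 hl
    refine ⟨n * p.2 + a * q.1 + b * q.2, d * q.2, ?_⟩
    rw [e2, e2, e, h3, eN]
    simp [per, iv]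
    linear_combination (r * d * q.1) * h4 + (r * d * q.2) * h5
  · have i0 : (γ.act τ 1).im = 0 := by simpa [n0] using congrArg Complex.im h4
    have w1 : γ.M τ w 1 = 0 := by simpa [e2, r0] using hw
    rw [← γ.herm τ hτ, ← γ.herm τ hτ w, ← γ.herm τ hτ v, map_add, map_smul, h3]
    simp [Hn, i0, w1]
    ring
  obtain ⟨al, hl⟩ := ha ax
  let f : Ch → Ch := fun η ↦ γ.A.symm (η - γ.s)
  have ef : ∀ η, γ.A (f η) + γ.s = η := fun η ↦ by simp [f]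
  have z0 : ∀ m, γ.ζ m ≠ 0 := fun m h ↦ by simpa [h] using γ.ζ8 m
  obtain ⟨ak, hk⟩ := ht_unit ax f fun η ↦ γ.ζ8 (f η)
  obtain ⟨al', hl'⟩ := ht_unit al (fun p : Fin 2 × Ch ↦ (p.1, f p.2)) fun p ↦ γ.ζ8 (f p.2)
  obtain ⟨T, hT'⟩ := reps N0
  obtain ⟨ay, hy'⟩ := ht_sum (fun i ↦ sys hb hR hM hm N0 (γ.M τ (u i)) c1) (by omega)
    (fun i η ↦ by
      have := (hc (f η)).1
      rw [ef, kk, th, zero_add] at this
      simp only [sys, fr_ca N0, fr_cb N0, this, hx]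
      field_simp)
    (fun i η ↦ by
      have := (hc (f η)).2 (u i)
      rw [ef] at this
      simp only [sys, fr_ca N0, fr_cb N0, dg_ll hb hm, this, lv]
      field_simp)
    (fun η hη ↦ mul_ne_zero (z0 _) (by
      rw [hx]
      exact div_ne_zero (hg _ ((γ.ev _).1 (by rwa [ef]))) k0))
    (fun h ↦ by simpa [f, u0, z0] using congrFun h (0, γ.A hA + γ.s))
    N0 (fun _ p ↦ ⟨p, rfl⟩) (fun _ ↦ hT') ak al' hφ hφ' z z' (y := y) fun i ↦ by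
      simp only [hy, ← hD, sys, Finset.mul_sum]
      exact Finset.sum_congr rfl fun j _ ↦ by ring
  have e3 : ![(y i)⁻¹ * y 0, (y i)⁻¹ * y 1] = fun j ↦ (y i)⁻¹ * y j := by
    ext j; fin_cases j <;> rfl
  rw [e3, ht_smul ay (ay i).inv (inv_ne_zero hi)]
  refine ⟨fun j ↦ (ay i).inv.mul (ay j), ?_⟩
  have N1 : (1 : ℝ) ≤ N := by exact_mod_cast N0
  have e4 : Real.log ((N * (2 * (5 * N * N * 32 ^ 4)) : ℕ) : ℝ) =
      Real.log (10 * 32 ^ 4) + 3 * Real.log N := by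
    rw [show ((N * (2 * (5 * N * N * 32 ^ 4)) : ℕ) : ℝ) = 10 * 32 ^ 4 * N ^ 3 by push_cast; ring,
      Real.log_mul (by positivity) (by positivity), Real.log_pow]
    norm_num
  have l0 := Real.log_nonneg N1
  have t0 := ht_nonneg x
  nlinarith [mul_nonneg (add_nonneg C0 E0) l0, mul_nonneg (add_nonneg C0 E0) t0]

end Pool.Agent.Lib.ECM
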