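import Pool.Agent.Lib.ECM.Blue

/-! Vanishing of an even theta constant is a singular relation. -/

namespace Pool.Agent.Lib.ECM

theorem st_G3 (hZER : St_ZER) (hRED : St_RED) (hSYMK : St_SYMK) (hSINV : St_SINV)
    (hCF : St_CF) : St_G3 := by
  have sing : ∀ τ ∈ H2, ¬ Gen τ → Sing τ := by
    intro τ hτ hg
    obtain ⟨γ, hγ⟩ := hRED τ hτ
    refine hSINV τ hτ _ (γ.act_mem τ hτ) (γ.M τ) (γ.bij τ hτ) (γ.lat τ hτ) (γ.herm τ hτ) ?_
    rw [← hSYMK.gen γ τ hτ] at hg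
    obtain ⟨m, hm⟩ := not_forall.1 hg
    obtain ⟨hm1, hm2⟩ := Classical.not_imp.1 hm
    have hm3 : m = (1, 1, 1, 1) := by
      by_contra h
      exact hm2 (hZER.nine _ hγ m hm1 h)
    have h1 := hZER.last _ hγ (hm3 ▸ not_not.1 hm2)
    exact ⟨0, 1, 0, 0, 0, by simp, by simp [h1]⟩
  refine ⟨sing, fun P hP hM hH ↦ ?_⟩
  have key : ∀ m, Ev m → {x ∈ Cv P | x m = 0}.Finite := by
    intro m hm
    have h1 := hCF.fin P hP (MvPolynomial.X m)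
    simp only [MvPolynomial.aeval_X] at h1
    refine h1 ((Set.Finite.countable hM).union
      (Set.Countable.image hH fun τ n ↦ kk n τ / kk 0 τ)|>.mono ?_)
    rintro x ⟨hx, h0⟩
    by_cases h : ∃ τ, Over x τ
    · obtain ⟨τ, hτ⟩ := h
      refine Or.inr ⟨τ, ⟨⟨x, hx, hτ⟩, sing τ hτ.1 fun hg ↦ ?_⟩, funext fun n ↦ (hτ.2.2 n).symm⟩
      rw [hτ.2.2 m] at h0
      exact div_ne_zero (hg m hm) hτ.2.1 h0
    · exact Or.inl ⟨hx, h⟩
  refine (Set.Finite.biUnion (Set.toFinite {m | Ev m}) key).subset ?_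
  rintro x ⟨hx, m, hm, h0⟩
  exact Set.mem_biUnion hm ⟨hx, h0⟩

end Pool.Agent.Lib.ECM
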