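import Pool.Agent.Lib.ECM.Blue2

/-! Block KER: the kernel of the dual form is an elliptic curve. -/

open UpperHalfPlane
open scoped ComplexConjugate

namespace Pool.Agent.Lib.ECM

namespace MKER

theorem lat_comb {τ : T3} {x y : V2} (N : ℕ) (hx : x ∈ Lat τ) (hy : y ∈ Lat τ) :
    (N : ℂ) • x - y ∈ Lat τ := by
  obtain ⟨m, n, rfl⟩ := hx
  obtain ⟨m', n', rfl⟩ := hy
  refine ⟨(N : ℤ) • m - m', (N : ℤ) • n - n', funext fun i ↦ ?_⟩
  fin_cases i <;> simp [per, iv] <;> ring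

theorem span {τ : T3} (hτ : τ ∈ H2) {a b : ℂ} (h : ∀ l ∈ Lat τ, (a * l 0 + b * l 1).im = 0) :
    a = 0 ∧ b = 0 := by
  have h1 := h _ ⟨(1, 0), 0, rfl⟩
  have h2 := h _ ⟨(0, 1), 0, rfl⟩
  have h3 := h _ ⟨0, (1, 0), rfl⟩
  have h4 := h _ ⟨0, (0, 1), rfl⟩
  simp [per, iv] at h1 h2 h3 h4
  rw [h1, h2] at h3 h4
  have d : (τ 0).im * (τ 2).im - (τ 1).im ^ 2 ≠ 0 := (sub_pos.2 hτ.2).ne'
  exact ⟨Complex.ext (mul_left_cancel₀ d (by
      simp only [Complex.zero_re]; linear_combination (τ 2).im * h3 - (τ 1).im * h4)) h1,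
    Complex.ext (mul_left_cancel₀ d (by
      simp only [Complex.zero_re]; linear_combination (τ 0).im * h4 - (τ 1).im * h3)) h2⟩

theorem ll_lin (h : Ch) (τ : T3) (u : V2) : ll h τ u = ll h τ ![1, 0] * u 0 + ll h τ ![0, 1] * u 1 := by
  have e : u = u 0 • ![1, 0] + u 1 • ![0, 1] := funext fun i ↦ by fin_cases i <;> simp
  unfold ll dth
  conv_lhs => rw [e, map_add, map_smul, map_smul]
  simp only [smul_eq_mul]
  ring

theorem eta_lin (τ : T3) (cA cB : ℂ) (u : V2) :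
    eta τ cA cB u = eta τ cA cB ![1, 0] * u 0 + eta τ cA cB ![0, 1] * u 1 := by
  unfold eta
  rw [ll_lin hA τ u, ll_lin hB τ u]
  ring

theorem two {τ : T3} (hτ : τ ∈ H2) {v : V2} (hv : v ≠ 0) : ∃ x ∈ Lat τ, ∃ y ∈ Lat τ,
    ((v 1 * y 0 - v 0 * y 1) * conj (v 1 * x 0 - v 0 * x 1)).im ≠ 0 := by
  by_contra! H
  have z : ∀ c : ℂ, c * v 1 = 0 ∧ c * -v 0 = 0 → c = 0 := fun c ⟨a, b⟩ ↦ by
    by_contra hc
    refine hv (funext fun i ↦ ?_)
    fin_cases i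
    exacts [neg_eq_zero.1 ((mul_eq_zero.1 b).resolve_left hc), (mul_eq_zero.1 a).resolve_left hc]
  refine one_ne_zero (z 1 (span hτ fun x hx ↦ ?_))
  have := z (conj (v 1 * x 0 - v 0 * x 1)) (span hτ fun y hy ↦ by
    rw [← H x hx y hy]; congr 1; ring)
  rw [show 1 * v 1 * x 0 + 1 * -v 0 * x 1 = v 1 * x 0 - v 0 * x 1 by ring,
    (map_eq_zero _).1 this, Complex.zero_im]

end MKER

open MKER in
theorem st_KER (hL : St_LINE) : St_KER := by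
  intro τ hτ _ v τ0 N cA cB hv hN hE
  obtain ⟨N', hN0, hN'⟩ := hL.nat τ hτ v τ0 hv
  have hn : (N : ℂ) ≠ 0 := by
    have : N = N' := by exact_mod_cast hN.trans hN'.symm
    exact_mod_cast (this ▸ hN0).ne'
  obtain ⟨α, β, hη⟩ : ∃ α β : ℂ, ∀ u, eta τ cA cB u = α * u 0 + β * u 1 := ⟨_, _, eta_lin τ cA cB⟩
  have h0 := hE.ne
  have key : ∀ l ∈ Lat τ,
      (N * (v 1 * l 0 - v 0 * l 1) / eta τ cA cB v) • (![β, -α] : V2) ∈ Lat τ := fun l hl ↦ by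
    obtain ⟨a, b, hab⟩ := hE.into l hl
    have h1 := lat_comb N hl ((hv.2 _).2 ⟨a, b, rfl⟩)
    have h2 : (a + b * (τ0 : ℂ)) = N * eta τ cA cB l / eta τ cA cB v := (eq_div_iff h0).2 hab.symm
    rw [h2] at h1
    refine (congrArg (· ∈ Lat τ) (funext fun i ↦ ?_)).mp h1
    fin_cases i <;> simp <;> field_simp <;> simp only [hη] <;> ring
  obtain ⟨x, hx, y, hy, hxy⟩ := two hτ hv.1
  have hx0 : v 1 * x 0 - v 0 * x 1 ≠ 0 := fun h ↦ hxy (by simp [h])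
  have he : (![β, -α] : V2) ≠ 0 := fun h ↦ h0 (by
    have h1 : β = 0 := congrFun h 0
    have h2 : -α = 0 := congrFun h 1
    rw [hη, h1, neg_eq_zero.1 h2]; ring)
  obtain ⟨c, τ1, -, hc⟩ := hL.ex τ hτ _ ((v 1 * y 0 - v 0 * y 1) / (v 1 * x 0 - v 0 * x 1))
    (smul_ne_zero (div_ne_zero (mul_ne_zero hn hx0) h0) he) (fun h ↦ hxy (by
      rw [← div_mul_cancel₀ (v 1 * y 0 - v 0 * y 1) hx0, mul_assoc, Complex.mul_conj,
        Complex.mul_im, h, Complex.ofReal_im]; ring)) (key x hx) (by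
      rw [smul_smul]
      refine (congrArg (fun s : ℂ ↦ s • (![β, -α] : V2) ∈ Lat τ) ?_).mp (key y hy)
      field_simp)
  refine ⟨_, τ1, hc, ?_⟩
  rw [hη]
  simp only [Pi.smul_apply, smul_eq_mul, Matrix.cons_val_zero, Matrix.cons_val_one]
  ring

end Pool.Agent.Lib.ECM
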