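import Pool.Agent.Lib.ECM.Blue
import Pool.Agent.Lib.ECM.B_HT4

/-! Row MARK: half of the conjugates are not deep. -/

open NumberField Height

namespace Pool.Agent.Lib.ECM

namespace MMARK

theorem abs_log_le {a : ℝ} (ha : 0 ≤ a) :
    |Real.log a| ≤ Real.log (max 1 a) + Real.log (max 1 a⁻¹) := by
  have h1 : 0 ≤ Real.log (max 1 a) := Real.log_nonneg (le_max_left _ _)
  have h2 : 0 ≤ Real.log (max 1 a⁻¹) := Real.log_nonneg (le_max_left _ _)
  rcases ha.eq_or_lt with rfl | ha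
  · simp
  · have h3 := Real.log_le_log ha (le_max_right 1 a)
    have h4 := Real.log_le_log (inv_pos.2 ha) (le_max_right 1 a⁻¹)
    rw [Real.log_inv] at h4
    exact abs_le.2 ⟨by linarith, by linarith⟩

theorem sum_le {L : Type} [Field L] [NumberField L] (e : L →+* ℂ) (x : L) :
    ∑ φ : L →+* ℂ, |Real.log ‖φ x‖| ≤ 2 * (Module.finrank ℚ L * h1 (e x)) := by
  have h1 := st_HT4.2.1 L e x
  have h2 := st_HT4.2.1 L e x⁻¹
  rw [T65.h1_eq, mulHeight₁_inv, ← T65.h1_eq e] at h2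
  refine (Finset.sum_le_sum fun φ _ ↦ abs_log_le (norm_nonneg (φ x))).trans ?_
  simp only [map_inv₀, norm_inv] at h2
  rw [Finset.sum_add_distrib]
  linarith

end MMARK

theorem st_MARK : St_MARK := by
  classical
  intro x hx
  have := hx.nf
  let x' : Ch → fld x := fun m ↦ ⟨x m, IntermediateField.subset_adjoin ℚ _ ⟨m, rfl⟩⟩
  let e : fld x →+* ℂ := (fld x).subtype
  let F : (fld x →+* ℂ) → Ch → ℂ := fun φ m ↦ φ (x' m)
  have hF : Function.Injective F := fun φ ψ h ↦ by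
    have h1 : φ.toRatAlgHom = ψ.toRatAlgHom :=
      IntermediateField.adjoin_algHom_ext ℚ fun _ ⟨m, hm⟩ ↦ by
        subst hm
        exact congrFun h m
    exact RingHom.ext fun y ↦ DFunLike.congr_fun h1 y
  have hc : Fintype.card (fld x →+* ℂ) = Module.finrank ℚ (fld x) := Embeddings.card _ _
  refine ⟨Module.finrank ℚ (fld x), Module.finrank_pos,
    ⟨Finset.univ.image F, Finset.card_image_le.trans (by rw [Finset.card_univ, hc]), fun σ ↦
      Finset.mem_image.2 ⟨σ.comp e, Finset.mem_univ _, rfl⟩⟩, fun H hH hh ↦ ?_⟩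
  let T : (fld x →+* ℂ) → ℝ := fun φ ↦ ∑ m, |Real.log ‖φ (x' m)‖|
  have hT : ∑ φ, T φ ≤ 32 * (Module.finrank ℚ (fld x) * H) := by
    rw [Finset.sum_comm]
    refine (Finset.sum_le_card_nsmul _ _ (2 * (Module.finrank ℚ (fld x) * H)) fun m _ ↦
      (MMARK.sum_le e (x' m)).trans ?_).trans_eq ?_
    · gcongr
      exact hh m
    · rw [Finset.card_univ, show Fintype.card Ch = 16 from rfl, nsmul_eq_mul]
      push_cast
      ring
  have hB : ((Finset.univ.filter fun φ ↦ ¬T φ ≤ 64 * H).card : ℝ) * (64 * H) ≤ ∑ φ, T φ := by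
    rw [← nsmul_eq_mul]
    refine (Finset.card_nsmul_le_sum _ T _ fun φ hφ ↦ (not_le.1 (Finset.mem_filter.1 hφ).2).le).trans
      (Finset.sum_le_sum_of_subset_of_nonneg (Finset.filter_subset _ _) fun φ _ _ ↦ ?_)
    exact Finset.sum_nonneg fun m _ ↦ abs_nonneg _
  have hs := Finset.card_filter_add_card_filter_not (s := Finset.univ) fun φ ↦ T φ ≤ 64 * H
  rw [Finset.card_univ, hc] at hs
  have hB' : 2 * (Finset.univ.filter fun φ ↦ ¬T φ ≤ 64 * H).card ≤ Module.finrank ℚ (fld x) := by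
    have : (2 * (Finset.univ.filter fun φ ↦ ¬T φ ≤ 64 * H).card : ℝ) ≤ Module.finrank ℚ (fld x) :=
      le_of_mul_le_mul_right (by linarith) (show 0 < 32 * H by positivity)
    exact_mod_cast this
  refine ⟨(Finset.univ.filter fun φ ↦ T φ ≤ 64 * H).image F, ?_, fun y hy ↦ ?_⟩
  · rw [Finset.card_image_of_injective _ hF]
    omega
  · obtain ⟨φ, hφ, rfl⟩ := Finset.mem_image.1 hy
    obtain ⟨σ, hσ⟩ := T42.exists_sigma e φ
    refine ⟨⟨σ, funext fun m ↦ (hσ (x' m)).symm⟩, fun m ↦ le_trans ?_ (Finset.mem_filter.1 hφ).2⟩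
    exact Finset.single_le_sum (f := fun m ↦ |Real.log ‖φ (x' m)‖|) (fun m _ ↦ abs_nonneg _)
      (Finset.mem_univ m)

end Pool.Agent.Lib.ECM
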