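import Pool.Agent.Lib.ECM.Blue

/-! Block MAX: a conjugate where the degree of the elliptic curve is maximal. -/

open UpperHalfPlane

namespace Pool.Agent.Lib.ECM

namespace MMAX

theorem fin_conj {x : Ch → ℂ} (h : AlgT x) :
    (Set.range fun (σ : ℂ →+* ℂ) m ↦ σ (x m)).Finite := by
  choose p p0 hp using h
  refine (Set.Finite.pi' fun m ↦ (p m).rootSet_finite ℂ).subset ?_
  rintro _ ⟨σ, rfl⟩ m
  refine Polynomial.mem_rootSet.2 ⟨p0 m, ?_⟩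
  have := Polynomial.aeval_algHom_apply σ.toRatAlgHom (x m) (p m)
  rwa [hp, map_zero] at this

theorem gen_of {y : Ch → ℂ} {τ τ' : T3} (h : Over y τ) (h' : Over y τ') (hg : Gen τ) : Gen τ' :=
  fun m hm h0 ↦ div_ne_zero (hg m hm) h.2.1 (by rw [← h.2.2, h'.2.2, h0, zero_div])

theorem fin_val (hT : St_TWOL) (hL : St_LINE) {τ : T3} (hτ : τ ∈ H2) (hc : HasCM τ)
    (hs : ¬ SqCM τ) : {N | ∃ v τ0, Line τ v τ0 ∧ N = NN τ v τ0}.Finite := by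
  by_contra h
  obtain ⟨S, h1, h2⟩ := Set.Infinite.exists_subset_card_eq h 3
  obtain ⟨a, b, c, ab, ac, bc, rfl⟩ := Finset.card_eq_three.1 h2
  obtain ⟨v1, t1, l1, rfl⟩ := h1 (a := a) (by simp)
  obtain ⟨v2, t2, l2, rfl⟩ := h1 (a := b) (by simp)
  obtain ⟨v3, t3, l3, rfl⟩ := h1 (a := c) (by simp)
  rcases hT.two τ hτ hc hs _ _ _ _ _ _ l1 l2 l3 with ⟨t, rfl⟩ | ⟨t, rfl⟩ | ⟨t, rfl⟩
  · exact ab (hL.same τ hτ _ _ _ _ l1 l2).1.symm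
  · exact ac (hL.same τ hτ _ _ _ _ l1 l3).1.symm
  · exact bc (hL.same τ hτ _ _ _ _ l2 l3).1.symm

end MMAX

open MMAX in
theorem st_MAX (hS : St_SQ) (hT : St_TWOL) (hL : St_LINE) (hR : St_TOR) (hA : St_AUT) :
    St_MAX := by
  intro x τ hx ho hc hs
  have g0 : Gen τ := by
    obtain ⟨τ', a1, a2⟩ := hx.2 (RingHom.id ℂ)
    exact gen_of a1 ho a2
  have sq : ∀ (σ : ℂ →+* ℂ) τ', Over (fun m ↦ σ (x m)) τ' → HasCM τ' ∧ ¬ SqCM τ' := by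
    intro σ τ' h
    obtain ⟨σ', e⟩ := hA.ext σ
    exact hS σ' x τ τ' ho g0 (by simpa only [e _ (hx.1 _)] using h) hc hs
  have f1 : ∀ y ∈ Set.range fun (σ : ℂ →+* ℂ) m ↦ σ (x m),
      {N | ∃ τ' v τ0, Over y τ' ∧ Line τ' v τ0 ∧ N = NN τ' v τ0}.Finite := by
    rintro _ ⟨σ, rfl⟩
    obtain ⟨τ1, a1, a2⟩ := hx.2 σ
    refine (fin_val hT hL a1.1 (sq σ _ a1).1 (sq σ _ a1).2).subset ?_
    rintro _ ⟨τ', v, τ0, b1, b2, rfl⟩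
    obtain ⟨M, -, c1, c2⟩ := hR τ' b1.1 τ1 a1.1 (kk 0 τ1 / kk 0 τ') (gen_of a1 b1 a2)
      (div_ne_zero a1.2.1 b1.2.1) fun m ↦ by
        have := (a1.2.2 m).symm.trans (b1.2.2 m)
        rw [div_eq_iff a1.2.1] at this
        rw [this]
        ring
    exact ⟨M v, τ0, (hL.map τ' τ1 M.toLinearMap M.bijective c1).1 v τ0 b2, by rw [NN, NN, c2]⟩
  obtain ⟨_, ⟨σ, τ', v, τ0, a1, a2, a3, rfl⟩, hmax⟩ := Set.exists_max_image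
    {N | ∃ (σ : ℂ →+* ℂ) (τ' : T3) (v : V2) (τ0 : ℍ), Over (fun m ↦ σ (x m)) τ' ∧ Line τ' v τ0 ∧
      MP_0704bf_ag.IsCM τ0 ∧ N = NN τ' v τ0} id (((fin_conj hx.1).biUnion f1).subset (by
        rintro _ ⟨σ, τ', v, τ0, a1, a2, -, rfl⟩
        exact Set.mem_biUnion ⟨σ, rfl⟩ ⟨τ', v, τ0, a1, a2, rfl⟩)) (by
      obtain ⟨v, τ0, -, a1, a2⟩ := (hL.cm τ ho.1).1 hc
      exact ⟨_, RingHom.id ℂ, τ, v, τ0, ho, a1, a2, rfl⟩)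
  obtain ⟨c, τ1, b1, b2⟩ := hL.ex τ' a1.1 v τ0 a2.1 τ0.im_pos.ne'
    (by simpa using (a2.2 1).2 ⟨1, 0, by simp⟩) ((a2.2 τ0).2 ⟨0, 1, by simp⟩)
  obtain ⟨b3, b4, -⟩ := hL.same τ' a1.1 _ _ _ _ a2 b2
  exact ⟨σ, τ', c • v, τ1, a1, (sq σ _ a1).1, (sq σ _ a1).2, b1, b2,
    isCM_of_conj a3 (RingHom.id ℂ) b4, fun σ' τ'' v' τ0' c1 c2 c3 ↦
      b3 ▸ hmax _ ⟨σ', τ'', v', τ0', c1, c2, c3, rfl⟩⟩

end Pool.Agent.Lib.ECM
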