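import Pool.Agent.Lib.ECM.THBlue

/-! Block G1: normal form of a period matrix with an elliptic line. -/

open Complex

noncomputable section

namespace Pool.Agent.Lib.ECM.G1

/-- integral coordinates of lattice vectors -/
abbrev Z4 := (ℤ × ℤ) × (ℤ × ℤ)

/-- the lattice vector with given coordinates -/
def PV (τ : T3) (p : Z4) : V2 := per τ (iv p.1) (iv p.2)

/-- a modular transformation sends the pair `s` of lattice vectors to the pair `s'` -/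
def Mv (s s' : Z4 × Z4) : Prop := ∃ γ : Sym, ∀ τ ∈ H2,
  γ.M τ (PV τ s.1) = PV (γ.act τ) s'.1 ∧ γ.M τ (PV τ s.2) = PV (γ.act τ) s'.2

theorem euclid {S : Type} (R : S → S → Prop) (I : S → Prop) (x y : S → ℤ) (refl : ∀ s, R s s)
    (trans : ∀ s s' s'', R s s' → R s' s'' → R s s'')
    (h1 : ∀ s k, I s → ∃ s', R s s' ∧ I s' ∧ x s' = x s - k * y s ∧ y s' = y s)
    (h2 : ∀ s, I s → ∃ s', R s s' ∧ I s' ∧ (y s').natAbs = (x s).natAbs) (s : S) (hs : I s) :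
    ∃ s', R s s' ∧ I s' ∧ y s' = 0 := by
  induction hn : (y s).natAbs using Nat.strong_induction_on generalizing s with
  | _ n ih =>
    by_cases h : y s = 0
    · exact ⟨s, refl s, hs, h⟩
    obtain ⟨s₁, r₁, i₁, a, -⟩ := h1 s (x s / y s) hs
    obtain ⟨s₂, r₂, i₂, b⟩ := h2 s₁ i₁
    have c : x s₁ = x s % y s := by rw [a, Int.emod_def, mul_comm]
    have d := Int.emod_nonneg (x s) h
    have e := Int.emod_lt_abs (x s) h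
    obtain ⟨s₃, r₃, i₃, f⟩ := ih (y s₂).natAbs (by
      rw [b, c, ← hn]
      zify
      rwa [abs_of_nonneg d]) s₂ i₂ rfl
    exact ⟨s₃, trans _ _ _ r₁ (trans _ _ _ r₂ r₃), i₃, f⟩

/-- the four kinds of moves -/
def fT (k : ℤ) (p : Z4) : Z4 := ((p.1.1 - k * p.2.1, p.1.2), p.2)

def fJ (p : Z4) : Z4 := ((p.2.1, p.1.2), (-p.1.1, p.2.2))

def fS (k : ℤ) (p : Z4) : Z4 := ((p.1.1, p.1.2 + k * p.1.1), (p.2.1 - k * p.2.2, p.2.2))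

def fW (p : Z4) : Z4 := ((p.1.2, p.1.1), (p.2.2, p.2.1))

theorem mvT (hT : St_SYMT) (k : ℤ) (s : Z4 × Z4) : Mv s (fT k s.1, fT k s.2) := by
  obtain ⟨γ, h1, h2⟩ := hT ![k, 0, 0]
  have : ∀ τ p, γ.M τ (PV τ p) = PV (γ.act τ) (fT k p) := fun τ p ↦ by
    rw [h1, h2]
    ext i
    fin_cases i <;> simp [PV, per, iv, fT]
    ring
  exact ⟨γ, fun τ _ ↦ ⟨this _ _, this _ _⟩⟩

theorem mvJ (hJ : St_SYMJ) (s : Z4 × Z4) : Mv s (fJ s.1, fJ s.2) := by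
  obtain ⟨γ, h1, h2⟩ := hJ
  have : ∀ τ ∈ H2, ∀ p, γ.M τ (PV τ p) = PV (γ.act τ) (fJ p) := fun τ hτ p ↦ by
    have h0 : τ 0 ≠ 0 := fun h ↦ by
      have := hτ.1
      rw [h] at this
      simp at this
    rw [h1, h2]
    ext i
    fin_cases i <;> simp [PV, per, iv, fJ] <;> field_simp <;> ring
  exact ⟨γ, fun τ hτ ↦ ⟨this _ hτ _, this _ hτ _⟩⟩

theorem mvS (hU : St_SYMU) (k : ℤ) (s : Z4 × Z4) : Mv s (fS k s.1, fS k s.2) := by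
  obtain ⟨γ, h1, h2⟩ := hU 1 0 k 1 (by simp)
  have : ∀ τ p, γ.M τ (PV τ p) = PV (γ.act τ) (fS k p) := fun τ p ↦ by
    rw [h1, h2]
    ext i
    fin_cases i <;> simp [PV, per, iv, fS, Qf] <;> ring
  exact ⟨γ, fun τ _ ↦ ⟨this _ _, this _ _⟩⟩

theorem mvW (hU : St_SYMU) (s : Z4 × Z4) : Mv s (fW s.1, fW s.2) := by
  obtain ⟨γ, h1, h2⟩ := hU 0 1 1 0 (by simp)
  have : ∀ τ p, γ.M τ (PV τ p) = PV (γ.act τ) (fW p) := fun τ p ↦ by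
    rw [h1, h2]
    ext i
    fin_cases i <;> simp [PV, per, iv, fW, Qf] <;> ring
  exact ⟨γ, fun τ _ ↦ ⟨this _ _, this _ _⟩⟩

theorem normal0 (hT : St_SYMT) (hU : St_SYMU) (hJ : St_SYMJ) (hK : St_SYMK) (s : Z4 × Z4) :
    ∃ s', Mv s s' ∧ s'.1.1.1 = 0 ∧ s'.1.2.1 = 0 ∧ s'.1.2.2 = 0 ∧ s'.2.2.1 = 0 := by
  have refl : ∀ s, Mv s s := fun s ↦ by simpa [fT] using mvT hT 0 s
  have trans : ∀ s s' s'', Mv s s' → Mv s' s'' → Mv s s'' := by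
    rintro s s' s'' ⟨γ, h⟩ ⟨γ', h'⟩
    obtain ⟨γ'', a, b⟩ := hK.comp γ γ'
    refine ⟨γ'', fun τ hτ ↦ ?_⟩
    rw [a, b, b, (h τ hτ).1, (h τ hτ).2]
    exact h' _ (γ.act_mem τ hτ)
  obtain ⟨s₁, r₁, -, a₁⟩ := euclid Mv (fun _ ↦ True) (fun s ↦ s.1.2.1) (fun s ↦ s.1.2.2) refl trans
    (fun s k _ ↦ ⟨_, mvS hU k s, trivial, rfl, rfl⟩) (fun s _ ↦ ⟨_, mvW hU s, trivial, rfl⟩)
    s trivial
  obtain ⟨s₂, r₂, b₂, a₂⟩ := euclid Mv (fun s ↦ s.1.2.2 = 0) (fun s ↦ s.1.1.1) (fun s ↦ s.1.2.1)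
    refl trans (fun s k h ↦ ⟨_, mvT hT k s, h, rfl, rfl⟩)
    (fun s h ↦ ⟨_, mvJ hJ s, h, Int.natAbs_neg _⟩) s₁ a₁
  obtain ⟨s₃, r₃, b₃, a₃⟩ := euclid Mv (fun s ↦ s.1.2.1 = 0 ∧ s.1.2.2 = 0) (fun s ↦ s.1.1.2)
    (fun s ↦ s.1.1.1) refl trans
    (fun s k h ↦ ⟨_, mvS hU (-k) s, by simp [fS, h.1, h.2], by simp [fS, sub_eq_add_neg], rfl⟩)
    (fun s h ↦ ⟨_, mvW hU s, ⟨h.2, h.1⟩, rfl⟩) s₂ ⟨a₂, b₂⟩
  obtain ⟨s₄, r₄, b₄, a₄⟩ := euclid Mv (fun s ↦ s.1.1.1 = 0 ∧ s.1.2.1 = 0 ∧ s.1.2.2 = 0)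
    (fun s ↦ s.2.1.1) (fun s ↦ s.2.2.1) refl trans
    (fun s k h ↦ ⟨_, mvT hT k s, by simp [fT, h.1, h.2.1, h.2.2], rfl, rfl⟩)
    (fun s h ↦ ⟨_, mvJ hJ s, by simp [fJ, h.1, h.2.1, h.2.2], Int.natAbs_neg _⟩) s₃ ⟨a₃, b₃⟩
  exact ⟨s₄, trans _ _ _ r₁ (trans _ _ _ r₂ (trans _ _ _ r₃ r₄)), b₄.1, b₄.2.1, b₄.2.2, a₄⟩

/-- normal form: the elliptic line becomes the second axis and `τ₁₂` becomes rational -/
theorem normal (hT : St_SYMT) (hU : St_SYMU) (hJ : St_SYMJ) (hK : St_SYMK) {τ : T3} (hτ : τ ∈ H2)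
    {v : V2} {τ0 : ℂ} (v0 : v ≠ 0) (h0 : τ0.im ≠ 0) (hv : v ∈ Lat τ) (hv' : τ0 • v ∈ Lat τ) :
    ∃ (γ : Sym) (d a b n : ℤ), d ≠ 0 ∧ n ≠ 0 ∧ γ.M τ v = ![0, (d : ℂ)] ∧
      (n : ℂ) * γ.act τ 1 = a ∧ (n : ℂ) * γ.act τ 2 = τ0 * d + b ∧
      τ0.im * Hn τ v = d * n := by
  obtain ⟨m, n, e⟩ := hv
  obtain ⟨m', n', e'⟩ := hv'
  obtain ⟨⟨⟨⟨p₀, d⟩, p₂, p₃⟩, ⟨a, b⟩, q₂, c⟩, ⟨γ, h⟩, rfl, rfl, rfl, rfl⟩ :=
    normal0 hT hU hJ hK ((m, n), (m', n'))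
  obtain ⟨h1, h2⟩ := h τ hτ
  change γ.M τ (per τ (iv m) (iv n)) = _ at h1
  change γ.M τ (per τ (iv m') (iv n')) = _ at h2
  rw [← e] at h1
  rw [← e', map_smul, h1] at h2
  have h3 : γ.M τ v = ![0, (d : ℂ)] := by
    rw [h1]; ext i; fin_cases i <;> simp [PV, per, iv]
  have d0 : d ≠ 0 := by
    rintro rfl
    refine v0 ((γ.bij τ hτ).1 ?_)
    rw [h3, map_zero]; ext i; fin_cases i <;> simp
  have g0 := congrFun h2 0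
  have g1 := congrFun h2 1
  simp [PV, per, iv] at g0 g1
  have c0 : c ≠ 0 := by
    rintro rfl
    have := congrArg im g1
    simp [h0, d0] at this
  have hm := γ.act_mem τ hτ
  have i0 := congrArg im g0
  have i1 := congrArg im g1
  simp [c0] at i0 i1
  refine ⟨γ, d, -a, -b, c, d0, c0, h3, ?_, ?_, ?_⟩
  · push_cast; linear_combination -g0
  · push_cast; linear_combination -g1
  · have y0 := hm.1
    have y2 : (γ.act τ 2).im ≠ 0 := fun h ↦ by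
      have := hm.2
      rw [i0, h] at this
      simp at this
    rw [← γ.herm τ hτ, h3]
    simp only [Hn, dY, i0]
    simp
    field_simp
    linear_combination i1

end Pool.Agent.Lib.ECM.G1
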