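import Pool.Agent.Lib.ECM.Blue2
import Pool.Agent.Lib.ECM.G1Norm

/-! Block NF: normal form of a period matrix with an elliptic curve. -/

open Complex UpperHalfPlane

namespace Pool.Agent.Lib.ECM

theorem G1.normalL (hT : St_SYMT) (hU : St_SYMU) (hJ : St_SYMJ) (hK : St_SYMK) {τ : T3}
    (hτ : τ ∈ H2) {v : V2} {τ0 : ℍ} {N : ℕ} (hL : Line τ v τ0) (hN : (N : ℝ) = NN τ v τ0) :
    ∃ (γ : Sym) (d a b n : ℤ), d ≠ 0 ∧ n ≠ 0 ∧ γ.M τ v = ![0, (d : ℂ)] ∧
      (n : ℂ) * γ.act τ 1 = a ∧ (n : ℂ) * γ.act τ 2 = τ0 * d + b ∧ (N : ℤ) = d * n := by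
  obtain ⟨γ, d, a, b, n, h1, h2, h3, h4, h5, h6⟩ := G1.normal hT hU hJ hK hτ hL.1
    (τ0 := τ0) τ0.im_ne_zero (by simpa using (hL.2 1).2 ⟨1, 0, by simp⟩)
    ((hL.2 τ0).2 ⟨0, 1, by simp⟩)
  refine ⟨γ, d, a, b, n, h1, h2, h3, h4, h5, ?_⟩
  have : (N : ℝ) = d * n := hN.trans h6
  exact_mod_cast this

theorem st_NF (hT : St_SYMT) (hU : St_SYMU) (hJ : St_SYMJ) (hK : St_SYMK) : St_NF := by
  intro τ hτ v τ0 N hL hN
  obtain ⟨γ, d, a, b, n, d0, n0, h3, h4, h5, h6⟩ := G1.normalL hT hU hJ hK hτ hL hN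
  have d0' : (d : ℂ) ≠ 0 := by exact_mod_cast d0
  have n0' : (n : ℂ) ≠ 0 := by exact_mod_cast n0
  have key : ∀ (z : ℂ) (p q : ℤ × ℤ), per (γ.act τ) (iv p) (iv q) = ![0, z * d] →
      ∃ k : ℤ, z.im = k * τ0.im := fun z p q e ↦ by
    obtain ⟨m, k, h⟩ := (hL.2 z).1 ((γ.lat τ hτ _).1 ⟨p, q, by
      rw [e, map_smul, h3]; ext i; fin_cases i <;> simp⟩)
    exact ⟨k, by simp [h]⟩
  have hd : IsUnit d := by
    obtain ⟨m, k, h⟩ := (hL.2 (1 / d)).1 ((γ.lat τ hτ _).1 ⟨(0, 1), (0, 0), by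
      rw [map_smul, h3]; ext i; fin_cases i <;> simp [per, iv, d0']⟩)
    have hk : k = 0 := by
      have := congrArg Complex.im h
      rw [show (1 / (d : ℂ)) = ((1 / (d : ℝ) : ℝ) : ℂ) by simp, ofReal_im] at this
      simpa [τ0.im_ne_zero] using this
    have : (d : ℂ) * m = 1 := by
      rw [hk] at h
      field_simp at h
      simpa using h.symm
    exact IsUnit.of_mul_eq_one m (by exact_mod_cast this)
  have hc : IsCoprime a n := by
    refine IsRelPrime.isCoprime ?_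
    rintro g ⟨a', rfl⟩ ⟨n', rfl⟩
    have g0 : (g : ℂ) ≠ 0 := by exact_mod_cast left_ne_zero_of_mul n0
    push_cast at h4 h5
    have e1 : (n' : ℂ) * γ.act τ 1 = a' := mul_left_cancel₀ g0 (by linear_combination h4)
    obtain ⟨k, hk⟩ := key (γ.act τ 2 * n' / d) (-a', 0) (0, n') (by
      ext i; fin_cases i <;> simp [per, iv, d0']; linear_combination e1)
    have e2 : (g : ℂ) * (γ.act τ 2 * n' / d) = τ0 + ((b / d : ℝ) : ℂ) := by
      push_cast; field_simp; linear_combination h5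
    have e3 := congrArg Complex.im e2
    rw [add_im, ofReal_im, ← ofReal_intCast, im_ofReal_mul, hk, coe_im] at e3
    have e4 : (g : ℝ) * k = 1 := mul_right_cancel₀ τ0.im_ne_zero (by linear_combination e3)
    exact IsUnit.of_mul_eq_one k (by exact_mod_cast e4)
  obtain ⟨w, w1, w2⟩ := hU 0 1 1 0 (by simp)
  obtain ⟨g, g1, g2⟩ := hK.comp γ w
  refine ⟨g, d * a, ?_, ?_, ?_⟩
  · rw [h6]
    exact (isCoprime_mul_unit_left hd a n).2 hc
  · have : (N : ℂ) = d * n := by exact_mod_cast h6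
    rw [g1, w1, this]
    simp
    field_simp
    linear_combination h4
  · rw [g2, w2, h3]
    simp

end Pool.Agent.Lib.ECM
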