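import Pool.Agent.Lib.ECM.Blue

/-! Degrees of the invariants of an elliptic curve in the torus. -/

open UpperHalfPlane

noncomputable section

namespace Pool.Agent.Lib.ECM

open Pool.Agent.Lib.MP_0704bf_ag
open Pool.Agent.Lib.ZP3 (Deg)

namespace MPACK

lemma gen_of {x : Ch → ℂ} {τ τ' : T3} (h : Over x τ) (h' : Over x τ') (hg : Gen τ') : Gen τ := by
  intro m hm h0
  have e := (h.2.2 m).symm.trans (h'.2.2 m)
  rw [h0, zero_div] at e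
  exact div_ne_zero (hg m hm) h'.2.1 e.symm

lemma lv_smul (τ : T3) (c : ℂ) (u : V2) (h : Ch) : lv τ (c • u) h = c * lv τ u h := by
  unfold lv ll dth
  rw [map_smul, smul_eq_mul, mul_div_assoc]

lemma two (hT : St_TWOL) (hL : St_LINE) {τ : T3} (hτ : τ ∈ H2) (h1 : HasCM τ) (h2 : ¬ SqCM τ) :
    ∃ (v : Fin 2 → V2) (t : Fin 2 → ℍ), (∀ i, Line τ (v i) (t i)) ∧
      ∀ w τ0, Line τ w τ0 → ∃ i, ∃ c : ℂ, w = c • v i := by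
  obtain ⟨v₁, t₁, -, l₁, -⟩ := (hL.cm τ hτ).1 h1
  by_cases h : ∀ w τ0, Line τ w τ0 → ∃ c : ℂ, w = c • v₁
  · exact ⟨fun _ ↦ v₁, fun _ ↦ t₁, fun _ ↦ l₁, fun w τ0 hw ↦ ⟨0, h w τ0 hw⟩⟩
  · push Not at h
    obtain ⟨v₂, t₂, l₂, h⟩ := h
    refine ⟨![v₁, v₂], ![t₁, t₂], fun i ↦ by fin_cases i <;> assumption, fun w τ0 hw ↦ ?_⟩
    rcases hT.two τ hτ h1 h2 _ _ _ _ _ _ l₁ l₂ hw with ⟨c, hc⟩ | hc | hc
    · exact absurd hc (h c)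
    · exact ⟨0, hc⟩
    · exact ⟨1, hc⟩

lemma fibre (hT : St_TWOL) (hL : St_LINE) (hTOR : St_TOR) (y : Ch → ℂ) :
    ∃ (A : Finset ℂ) (B : Ch → Finset ℂ), A.card ≤ 2 ∧ (∀ h, (B h).card ≤ 24) ∧
      ∀ τ v τ0 Ω, Over y τ → Gen τ → HasCM τ → ¬ SqCM τ → Line τ v τ0 → Nrm τ0 Ω →
        jInv τ0 ∈ A ∧ ∀ h, lv τ (Ω⁻¹ • v) h ∈ B h := by
  classical
  by_cases hy : ∃ τ, Over y τ ∧ HasCM τ ∧ ¬ SqCM τ
  swap
  · exact ⟨∅, fun _ ↦ ∅, by simp, by simp, fun τ _ _ _ a _ b c ↦ absurd ⟨τ, a, b, c⟩ hy⟩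
  obtain ⟨τ', o', c1, c2⟩ := hy
  obtain ⟨w, t, l, hw⟩ := two hT hL o'.1 c1 c2
  choose Ω' hΩ' using fun i ↦ (hL.nrm (t i)).1
  refine ⟨Finset.univ.image fun i ↦ jInv (t i), fun h ↦
    (Finset.univ ×ˢ (Polynomial.nthRoots 12 (1 : ℂ)).toFinset).image
      fun p : Fin 2 × ℂ ↦ p.2 * lv τ' ((Ω' p.1)⁻¹ • w p.1) h, ?_, fun h ↦ ?_, ?_⟩
  · exact Finset.card_image_le.trans (by simp)
  · refine Finset.card_image_le.trans ?_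
    have := (Multiset.toFinset_card_le _).trans (Polynomial.card_nthRoots 12 (1 : ℂ))
    rw [Finset.card_product, Finset.card_univ, Fintype.card_fin]
    omega
  · intro τ v τ0 Ω o g _ _ hl hn
    obtain ⟨M, m1, m2, -⟩ := hTOR τ o.1 τ' o'.1 (kk 0 τ' / kk 0 τ) g (div_ne_zero o'.2.1 o.2.1)
      fun m ↦ by
        have e := (o.2.2 m).symm.trans (o'.2.2 m)
        rw [div_eq_div_iff o.2.1 o'.2.1] at e
        rw [div_mul_eq_mul_div, eq_div_iff o.2.1]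
        linear_combination -e
    have l' := (hL.map τ τ' M.toLinearMap M.bijective m2).1 v τ0 hl
    obtain ⟨i, c, hc⟩ := hw _ _ l'
    rw [hc] at l'
    obtain ⟨-, s2, s3⟩ := hL.same τ' o'.1 _ _ c _ (l i) l'
    refine ⟨Finset.mem_image.2 ⟨i, Finset.mem_univ _, s2.symm⟩, fun h ↦
      Finset.mem_image.2 ⟨(i, c * Ω' i / Ω), ?_, ?_⟩⟩
    · simpa using s3 _ _ (hΩ' i) hn
    · have e : lv τ' (M v) h = lv τ v h := by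
        unfold lv
        rw [m1]
        field_simp [o.2.1, o'.2.1]
      have hc' : M v = c • w i := hc
      have h0 := ((hL.nrm (t i)).2 _ (hΩ' i)).1
      rw [lv_smul, lv_smul, ← e, hc', lv_smul]
      field_simp

lemma deg_of (hA : St_AUT) {z : ℂ} {E : Finset ℂ} {D : ℕ} (hE : E.card ≤ D)
    (h : ∀ σ : ℂ ≃+* ℂ, σ z ∈ E) : IsAlgebraic ℚ z ∧ Deg z D := by
  have ha : IsAlgebraic ℚ z := hA.alg z (E.finite_toSet.countable.mono (by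
    rintro _ ⟨σ, rfl⟩; exact h σ))
  refine ⟨ha, E, hE, fun σ ↦ ?_⟩
  obtain ⟨σ', h'⟩ := hA.ext σ
  rw [← h' z ha]
  exact h σ'

end MPACK

open MPACK in
theorem st_PACK (hC : St_CONJ) (hS : St_SQ) (hT : St_TWOL) (hL : St_LINE) (hTOR : St_TOR)
    (hA : St_AUT) : St_PACK := by
  classical
  rintro x τ d ⟨-, hg⟩ ho c1 c2 ⟨E, hE, hx⟩ v τ0 Ω hl hn
  choose A B a1 a2 a3 using fibre hT hL hTOR
  obtain ⟨τ₁, o₁, g₁⟩ := hg (RingHom.id ℂ)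
  have g := gen_of ho o₁ g₁
  have key : ∀ σ : ℂ ≃+* ℂ, ∃ y ∈ E, σ (jInv τ0) ∈ A y ∧
      ∀ h, σ (lv τ (Ω⁻¹ • v) h) ∈ B y h := fun σ ↦ by
    obtain ⟨τ', o', g'⟩ := hg σ
    obtain ⟨b1, b2⟩ := hS σ x τ τ' ho g o' c1 c2
    obtain ⟨v', τ0', Ω', -, l', n', e1, -, -, e2⟩ := hC σ x τ τ' v τ0 Ω ho g o' hl hn
    obtain ⟨d1, d2⟩ := a3 _ τ' v' τ0' Ω' o' g' b1 b2 l' n'
    exact ⟨_, hx σ, e1 ▸ d1, fun h ↦ e2 h ▸ d2 h⟩
  have j := deg_of hA (E := E.biUnion A) (D := 2 * d)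
    ((Finset.card_biUnion_le_card_mul _ _ 2 fun y _ ↦ a1 y).trans (by omega))
    fun σ ↦ let ⟨y, h1, h2, _⟩ := key σ; Finset.mem_biUnion.2 ⟨y, h1, h2⟩
  exact ⟨j.1, j.2, fun h ↦ deg_of hA (E := E.biUnion fun y ↦ B y h)
    ((Finset.card_biUnion_le_card_mul _ _ 24 fun y _ ↦ a2 y h).trans (by omega))
    fun σ ↦ let ⟨y, h1, _, h2⟩ := key σ; Finset.mem_biUnion.2 ⟨y, h1, h2 h⟩⟩

end Pool.Agent.Lib.ECM
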