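import Pool.Agent.Lib.ECM.Blue2

/-! The period theorem in terms of the base point (problem MP_0704bf_ag). -/

open UpperHalfPlane

noncomputable section

namespace Pool.Agent.Lib.ECM

open Pool.Agent.Lib.MP_0704bf_ag
open Pool.Agent.Lib.ZP3 (Deg Sm)
open CM (Fm Disc)

namespace MPTG

theorem gen_of_good {x : Ch → ℂ} {τ : T3} (hx : Good x) (h : Over x τ) : Gen τ := by
  obtain ⟨τ', h1, h2⟩ := hx.2 (RingHom.id ℂ)
  intro m hm e
  have a : x m = kk m τ' / kk 0 τ' := h1.2.2 m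
  have b := h.2.2 m
  rw [b, e, zero_div] at a
  exact div_ne_zero (h2 m hm) h1.2.1 a.symm

theorem ht_le (hH1 : St_HT1) (hH3 : St_HT3) {x : Ch → ℂ} (hx : AlgT x) :
    ht x ≤ ∑ m, h1 (x m) := by
  have a : AlgT fun o : Option Ch ↦ o.elim 1 x := by
    rintro (_ | m)
    · exact isAlgebraic_one
    · exact hx m
  exact (hH1.2.2.1 Ch (Option Ch) _ some a).trans (hH3.2.2.2.2.1 Ch x hx)

theorem h1_le (hH1 : St_HT1) {a b : ℂ} (h : AlgT ![a, b]) (e : a = 1 ∨ b = 1) :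
    h1 a ≤ ht ![a, b] ∧ h1 b ≤ ht ![a, b] := by
  have k : ∀ (i j : Fin 2) (z : ℂ), ![a, b] i = 1 → ![a, b] j = z → h1 z ≤ ht ![a, b] := by
    intro i j z hi hj
    refine le_trans (le_of_eq ?_) (hH1.2.2.1 (Fin 2) (Fin 2) ![a, b] ![i, j] h)
    unfold h1
    congr 1
    funext l
    fin_cases l
    · exact hi.symm
    · exact hj.symm
  rcases e with e | e
  · exact ⟨k 0 0 a e rfl, k 0 1 b e rfl⟩
  · exact ⟨k 1 0 a e rfl, k 1 1 b e rfl⟩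

theorem deg_pair {a b p q : ℂ} {D : ℕ} (e : a = 1 ∨ b = 1) (h : a * p + b * q = 0)
    (h0 : ¬ (p = 0 ∧ q = 0)) (hp : Deg p D) (hq : Deg q D) : Deg a (D * D) ∧ Deg b (D * D) := by
  have d1 : Deg (1 : ℂ) (D * D) := by
    have := (ZP3.deg_nat 1).mono (Nat.succ_le_of_lt (Nat.mul_pos hp.pos hp.pos))
    simpa using this
  rcases e with rfl | rfl
  · have q0 : q ≠ 0 := fun k ↦ h0 ⟨by simpa [k] using h, k⟩
    have : b = -p * q⁻¹ := by field_simp; linear_combination h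
    exact ⟨d1, this ▸ hp.neg.mul hq.inv⟩
  · have p0 : p ≠ 0 := fun k ↦ h0 ⟨k, by simpa [k] using h⟩
    have : a = -q * p⁻¹ := by field_simp; linear_combination h
    exact ⟨this ▸ hq.neg.mul hp.inv, d1⟩

theorem ll_smul (h : Ch) (τ : T3) (c : ℂ) (v : V2) : ll h τ (c • v) = c * ll h τ v := by
  unfold ll dth
  rw [map_smul, smul_eq_mul]

theorem sm_mono {z : ℂ} {A A' : ℕ} (h : Sm z A) (h' : A ≤ A') : Sm z A' := by
  obtain ⟨d, hd, hd', h⟩ := h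
  exact ⟨d, hd, hd'.trans (Real.exp_le_exp.2 (Nat.cast_le.2 h')), h.mono h'⟩

end MPTG

open MPTG in
theorem st_PTG (hG1 : St_G1) (hKER : St_KER) (hPACK : St_PACK) (hHTB : St_HTB) (hPT : St_PT)
    (hLINE : St_LINE) (hGAUGE : St_GAUGE) (hH1 : St_HT1) (hH3 : St_HT3) (hH4 : St_HT4) :
    St_PTG := by
  obtain ⟨κ, hκ⟩ := hPT
  obtain ⟨C1, C10, hC1⟩ := hG1
  obtain ⟨C2, C20, hC2⟩ := hHTB
  obtain ⟨C4, hC4⟩ := hH4.1
  obtain ⟨K, hK⟩ := exists_nat_ge (576 + 19 * C1 + 19 * C2)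
  have K1 : 576 ≤ K := by
    have : (576 : ℝ) ≤ K := by linarith
    exact_mod_cast this
  refine ⟨((C4 + 1) * K ^ 2 + 4) * κ, ?_⟩
  intro x τ v τ0 D A B hx hO hS hfd hL hF B1 hNB A2 hD hlB hDeg hh hj
  have hτ := hO.1
  have hG := gen_of_good hx hO
  obtain ⟨N, N0, hN⟩ := hLINE.nat τ hτ v τ0 hL
  have hCM := hF.isCM
  have NB' : (N : ℝ) ≤ B := hN ▸ hNB (RingHom.id ℂ) τ v τ0 hO hL hCM
  have lN : Real.log N ≤ A := (Real.log_le_log (by exact_mod_cast N0) NB').trans hlB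
  have hH : HasCM τ := (hLINE.cm τ hτ).2 ⟨v, τ0, hfd, hL, hCM⟩
  obtain ⟨Ω, hΩ⟩ := (hLINE.nrm τ0).1
  obtain ⟨j1, j2, j3⟩ := hPACK x τ A hx hO hH hS hDeg v τ0 Ω hL hΩ
  obtain ⟨cA, cB, e1, hE, hc⟩ := hC1 x τ v τ0 N hO hG hL hN
  obtain ⟨c1, c2⟩ := hc hx.1
  obtain ⟨v', τ0', hL', e0⟩ := hKER τ hτ hG v τ0 N cA cB hL hN hE
  obtain ⟨Ω', hΩ'⟩ := (hLINE.nrm τ0').1
  obtain ⟨-, -, k3⟩ := hPACK x τ A hx hO hH hS hDeg v' τ0' Ω' hL' hΩ'
  have Ω0 := ((hLINE.nrm τ0').2 Ω' hΩ').1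
  have dc : Deg cA (24 * A * (24 * A)) ∧ Deg cB (24 * A * (24 * A)) := by
    refine deg_pair e1 ?_ ?_ (k3 hA).2 (k3 hB).2
    · unfold eta at e0
      unfold lv
      rw [ll_smul, ll_smul]
      linear_combination Ω'⁻¹ / kk 0 τ * e0
    · rintro ⟨a, b⟩
      unfold lv at a b
      rw [div_eq_zero_iff, or_iff_left hO.2.1] at a b
      have z : Ω'⁻¹ • v' = (0 : ℂ) • v' := (hGAUGE.ind τ hτ hG).1 (by
        simp only [a, b]
        rw [ll_smul, ll_smul, zero_mul, zero_mul])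
      rw [zero_smul, smul_eq_zero] at z
      exact z.elim (inv_ne_zero Ω0) hL'.1
  have A1 : (1 : ℝ) ≤ A := by exact_mod_cast (show 1 ≤ A by omega)
  have sx : ∑ m, h1 (x m) ≤ 16 * A := by
    refine (Finset.sum_le_sum fun m _ ↦ hh m).trans (le_of_eq ?_)
    simp [Ch]
  have AA : A ≤ A ^ 2 := Nat.le_self_pow two_ne_zero A
  have a1 : 576 * A ^ 2 ≤ K * A ^ 2 := Nat.mul_le_mul_right _ K1
  have r1 : ∀ C : ℝ, 0 ≤ C → 19 * C ≤ K → ∀ t : ℝ, t ≤ 19 * A → C * t ≤ (K * A ^ 2 : ℕ) := by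
    intro C C0 CK t ht
    have u1 := mul_le_mul_of_nonneg_left ht C0
    have u2 := mul_le_mul_of_nonneg_right CK (show (0 : ℝ) ≤ A by linarith)
    have u3 : (A : ℝ) ≤ A ^ 2 := by exact_mod_cast AA
    have u4 := mul_le_mul_of_nonneg_left u3 (Nat.cast_nonneg (α := ℝ) K)
    push_cast
    linarith
  have r0 : (A : ℝ) ≤ (K * A ^ 2 : ℕ) := by exact_mod_cast (show A ≤ K * A ^ 2 by omega)
  have sm : ∀ z d, IsAlgebraic ℚ z → Deg z d → d ≤ K * A ^ 2 → h1 z ≤ (K * A ^ 2 : ℕ) →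
      Sm z ((C4 + 1) * (K * A ^ 2) ^ 2) := fun z d h1 h2 h3 h4 ↦
    sm_mono (hC4 z _ h1 (h2.mono h3) h4) (Nat.mul_le_mul_right _ (Nat.le_succ _))
  have big : A ≤ (C4 + 1) * (K * A ^ 2) ^ 2 :=
    le_trans (show A ≤ K * A ^ 2 by omega) ((Nat.le_self_pow two_ne_zero _).trans
      (Nat.le_mul_of_pos_left _ (Nat.succ_pos _)))
  have hc3 : ht ![cA, cB] ≤ (K * A ^ 2 : ℕ) := c2.trans (r1 C1 C10 (by linarith) _ (by
    have := ht_le hH1 hH3 hx.1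
    linarith))
  obtain ⟨c4, c5⟩ := h1_le hH1 c1 e1
  have q : 24 * A * (24 * A) ≤ K * A ^ 2 := le_trans (le_of_eq (by ring)) a1
  have fin := hκ x τ v τ0 Ω N D ((C4 + 1) * (K * A ^ 2) ^ 2) cA cB hO hG hS hfd hL hF hΩ hN hE
    (A2.trans big) (hD.trans big) (lN.trans (Nat.cast_le.2 big))
    (fun m ↦ sm _ A (hx.1 m) (by
      classical
      obtain ⟨E, h1, h2⟩ := hDeg
      exact ⟨E.image fun y ↦ y m, Finset.card_image_le.trans h1,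
        fun σ ↦ Finset.mem_image_of_mem _ (h2 σ)⟩) (by omega) ((hh m).trans r0))
    (fun h ↦ sm _ _ (j3 h).1 (j3 h).2 (by omega)
      ((hC2 x τ v τ0 Ω B hx hO hS hL hCM hΩ B1 hNB h).trans
        (r1 C2 C20 (by linarith) _ (by linarith))))
    (sm _ _ j1 j2 (by omega) (hj.trans r0))
    (sm _ _ (c1 0) dc.1 q (c4.trans hc3)) (sm _ _ (c1 1) dc.2 q (c5.trans hc3))
  have p1 : (C4 + 1) * K ^ 2 ≤ A ^ ((C4 + 1) * K ^ 2) :=
    Nat.lt_two_pow_self.le.trans (Nat.pow_le_pow_left A2 _)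
  have p2 : (C4 + 1) * (K * A ^ 2) ^ 2 ≤ A ^ ((C4 + 1) * K ^ 2 + 4) := by
    rw [pow_add]
    exact le_trans (le_of_eq (by ring)) (Nat.mul_le_mul_right _ p1)
  rw [← hN, pow_mul]
  exact_mod_cast fin.trans (Nat.pow_le_pow_left p2 κ)

end Pool.Agent.Lib.ECM
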