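import Pool.Agent.Lib.ECM.Blue
import Pool.Agent.Lib.RC.Root53

/-! Analytic Puiseux expansions. -/

open Polynomial Filter Topology Function.Periodic
open scoped Real

namespace Pool.Agent.Lib.ECM

namespace MPUI

open Pool.Agent.RC.Spread

theorem core {d : ℕ} (hd : 0 < d) (c : ℂ → Fin d → ℂ) (hc : ∀ s, AnalyticAt ℂ c s)
    (hs : ∀ᶠ s in 𝓝[≠] (0 : ℂ), Simple (c s)) :
    ∃ E : ℕ, 0 < E ∧ ∃ T : Set (ℂ → ℂ), T.Finite ∧ (∀ ξ ∈ T, AnalyticAt ℂ ξ 0) ∧
      ∀ᶠ u in 𝓝[≠] (0 : ℂ), ∀ y, mp (c (u ^ E)) y = 0 → ∃ ξ ∈ T, y = ξ u := by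
  classical
  have cc : Continuous c := continuous_iff_continuousAt.2 fun s ↦ (hc s).continuousAt
  obtain ⟨R0, hR0⟩ := eventually_atTop.1
    (eventually_comap.1 ((qParam_tendsto one_pos).eventually hs))
  obtain ⟨R, hR, hS⟩ : ∃ R : ℝ, 0 < R ∧ ∀ z : ℂ, R < z.im → Simple (c (qParam 1 z)) :=
    ⟨max R0 1, by positivity, fun z hz ↦ hR0 _ ((le_max_left _ _).trans hz.le) z rfl⟩
  let A : Set ℂ := {z | R < z.im}
  have oA : IsOpen A := isOpen_lt continuous_const Complex.continuous_im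
  have a0 : A := ⟨(R + 1 : ℝ) * Complex.I, by simp [A]⟩
  have : ContractibleSpace A := (convex_halfSpace_im_gt R).contractibleSpace ⟨a0, a0.2⟩
  have : LocallyPathConnectedSpace A := oA.locallyPathConnectedSpace
  let cA : A → Fin d → ℂ := fun a ↦ c (qParam 1 a)
  have hcA : Continuous cA := cc.comp (continuous_qParam.comp continuous_subtype_val)
  have sA : ∀ a, Simple (cA a) := fun a ↦ hS a a.2
  let Rt := {η : A → ℂ // Continuous η ∧ ∀ a, mp (cA a) (η a) = 0}
  have uq : ∀ (η η' : Rt) (a : A), η.1 a = η'.1 a → η = η' := fun η η' a h ↦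
    Subtype.ext (root_unique hd cA hcA sA _ _ η.2.1 η'.2.1 η.2.2 η'.2.2 a h)
  have : Finite {s | mp (cA a0) s = 0} := roots_finite _
  have : Finite Rt := Finite.of_injective
    (fun η : Rt ↦ (⟨η.1 a0, η.2.2 a0⟩ : {s | mp (cA a0) s = 0}))
    fun η η' h ↦ uq η η' a0 (congrArg Subtype.val h)
  let _ : Fintype Rt := Fintype.ofFinite _
  let sh : A → A := fun a ↦ ⟨a + 1, by
    have h : R < (a : ℂ).im := a.2
    simpa only [A, Set.mem_ofPred_eq, Complex.add_im, Complex.one_im, add_zero] using h⟩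
  have csh : Continuous sh := (continuous_subtype_val.add continuous_const).subtype_mk _
  have q1 : ∀ z : ℂ, qParam 1 (z + 1) = qParam 1 z := fun z ↦ by
    simp [qParam, mul_add, Complex.exp_add]
  let nx : Rt → Rt := fun η ↦ ⟨η.1 ∘ sh, η.2.1.comp csh, fun a ↦ by
    have := η.2.2 (sh a)
    rw [show cA (sh a) = cA a from congrArg c (q1 a)] at this
    exact this⟩
  have inj : Function.Injective nx := fun η η' h ↦
    uq η η' (sh a0) (congrFun (congrArg Subtype.val h) a0)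
  have itr := Function.injective_iff_iterate_factorial_card_eq_id.1 inj
  set E := (Fintype.card Rt).factorial
  have hE : 0 < E := Nat.factorial_pos _
  have hE' : (0 : ℝ) < E := by exact_mod_cast hE
  have it2 : ∀ (n : ℕ) (η : Rt) (a b : A), (b : ℂ) = a + n → (nx^[n] η).1 a = η.1 b := by
    intro n
    induction n with
    | zero => intro η a b h; rw [show b = a from Subtype.ext (by simpa using h)]; rfl
    | succ n ih =>
      intro η a b h
      rw [Function.iterate_succ_apply']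
      exact ih η (sh a) b (by rw [h]; push_cast; simp only [sh]; ring)
  let F : Rt → ℂ → ℂ := fun η z ↦ if h : z ∈ A then η.1 ⟨z, h⟩ else 0
  have FA : ∀ (η : Rt) (a : A), F η a = η.1 a := fun η a ↦ dif_pos a.2
  have per : ∀ η, Function.Periodic (F η) ((E : ℝ) : ℂ) := by
    intro η z
    by_cases hz : z ∈ A
    · have hz' : z + ((E : ℝ) : ℂ) ∈ A := by simpa [A] using hz
      rw [FA η ⟨_, hz'⟩, FA η ⟨_, hz⟩, ← it2 E η ⟨_, hz⟩ ⟨_, hz'⟩ (by simp), itr]
      rfl
    · have hz' : z + ((E : ℝ) : ℂ) ∉ A := by simpa [A] using hz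
      simp only [F, dif_neg hz, dif_neg hz']
  have evA : ∀ᶠ z in comap Complex.im atTop, z ∈ A :=
    preimage_mem_comap (Ioi_mem_atTop R)
  have an : ∀ η, ∀ z ∈ A, AnalyticAt ℂ (F η) z := by
    intro η z hz
    have c1 : ContinuousOn (F η) A := by
      rw [continuousOn_iff_continuous_domRestrict]
      exact η.2.1.congr fun a ↦ (FA η a).symm
    refine root_analytic (fun w ↦ c (qParam 1 w)) z
      ((hc _).comp (differentiable_qParam.analyticAt z)) _
      (c1.continuousAt (oA.mem_nhds hz)) ?_ (hS z hz)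
    filter_upwards [oA.mem_nhds hz] with w hw
    rw [FA η ⟨w, hw⟩]
    exact η.2.2 ⟨w, hw⟩
  obtain ⟨B, hB⟩ := (isCompact_closedBall (0 : ℂ) 1).exists_bound_of_continuousOn cc.continuousOn
  have bd : ∀ η, BoundedAtFilter (comap Complex.im atTop) (F η) := by
    intro η
    refine Asymptotics.IsBigO.of_bound (1 + d * B) ?_
    filter_upwards [evA] with z hz
    have h1 := root_bound hd (cA ⟨z, hz⟩) (η.1 ⟨z, hz⟩)
    have h2 := hB (qParam 1 z) (mem_closedBall_zero_iff.2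
      (norm_qParam_lt_one one_pos (hR.trans hz)).le)
    have h3 : ∑ k, ‖cA ⟨z, hz⟩ k‖ ≤ ∑ _k : Fin d, B :=
      Finset.sum_le_sum fun k _ ↦ (norm_le_pi_norm _ k).trans h2
    rw [η.2.2, norm_zero] at h1
    rw [FA η ⟨z, hz⟩]
    simp only [Finset.sum_const, Finset.card_univ, Fintype.card_fin, nsmul_eq_mul] at h3
    simp only [Pi.one_apply, norm_one, mul_one]
    linarith
  refine ⟨E, hE, Set.range fun η ↦ cuspFunction E (F η), Set.finite_range _, ?_, ?_⟩
  · rintro _ ⟨η, rfl⟩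
    have hh : ∀ᶠ z in comap Complex.im atTop, DifferentiableAt ℂ (F η) z :=
      evA.mono fun z hz ↦ (an η z hz).differentiableAt
    exact Complex.analyticAt_of_differentiable_on_punctured_nhds_of_continuousAt
      (eventually_differentiableAt_cuspFunction_nhds_ne_zero hE' (per η) hh)
      (differentiableAt_cuspFunction_zero hE' (per η) hh (bd η)).continuousAt
  · filter_upwards [(invQParam_tendsto hE').eventually evA, self_mem_nhdsWithin] with u hu hu0 y hy
    have e1 : u ^ E = qParam 1 (invQParam E u) := by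
      conv_lhs => rw [← qParam_right_inv hE'.ne' hu0]
      have : (E : ℂ) ≠ 0 := by exact_mod_cast hE.ne'
      rw [qParam, qParam, ← Complex.exp_nat_mul]
      push_cast
      rw [div_one, mul_div_cancel₀ _ this]
    rw [e1] at hy
    obtain ⟨s, h1, h2, h3⟩ := root_lift hd cA hcA sA ⟨_, hu⟩ y hy
    refine ⟨_, ⟨⟨s, h1, h3⟩, rfl⟩, ?_⟩
    exact ((cuspFunction_eq_of_nonzero _ _ hu0).trans
      ((FA ⟨s, h1, h3⟩ ⟨_, hu⟩).trans h2)).symm

/-- expansions without poles -/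
def Pm (g : ℂ[X][X]) : Prop :=
  ∃ E : ℕ, 0 < E ∧ ∃ T : Set (ℂ → ℂ), T.Finite ∧ (∀ ξ ∈ T, AnalyticAt ℂ ξ 0) ∧
    ∀ᶠ u in 𝓝[≠] (0 : ℂ), ∀ y, g.evalEval (u ^ E) y = 0 → ∃ ξ ∈ T, y = ξ u

theorem pow_tendsto {E : ℕ} (hE : 0 < E) :
    Tendsto (fun u : ℂ ↦ u ^ E) (𝓝[≠] 0) (𝓝[≠] 0) := by
  refine tendsto_nhdsWithin_of_tendsto_nhds_of_eventually_within _ ?_ ?_
  · have := (continuous_pow E).tendsto (0 : ℂ)
    rw [zero_pow hE.ne'] at this
    exact this.mono_left nhdsWithin_le_nhds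
  · filter_upwards [self_mem_nhdsWithin] with u hu using pow_ne_zero _ hu

theorem Pm.mul {f g : ℂ[X][X]} (hf : Pm f) (hg : Pm g) : Pm (f * g) := by
  obtain ⟨E, hE, T, hT, aT, eT⟩ := hf
  obtain ⟨E', hE', T', hT', aT', eT'⟩ := hg
  have cp : ∀ {k : ℕ} {ξ : ℂ → ℂ}, 0 < k → AnalyticAt ℂ ξ 0 →
      AnalyticAt ℂ (fun u : ℂ ↦ ξ (u ^ k)) 0 := fun {k ξ} hk h ↦
    AnalyticAt.comp_of_eq h (analyticAt_id.pow k) (zero_pow hk.ne')
  refine ⟨E * E', by positivity, (fun ξ u ↦ ξ (u ^ E')) '' T ∪ (fun ξ u ↦ ξ (u ^ E)) '' T',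
    (hT.image _).union (hT'.image _), ?_, ?_⟩
  · rintro _ (⟨ξ, h, rfl⟩ | ⟨ξ, h, rfl⟩)
    exacts [cp hE' (aT ξ h), cp hE (aT' ξ h)]
  · filter_upwards [(pow_tendsto hE').eventually eT, (pow_tendsto hE).eventually eT'] with
      u h1 h2 y hy
    rw [evalEval_mul] at hy
    rcases mul_eq_zero.1 hy with h | h
    · obtain ⟨ξ, hξ, e⟩ := h1 y (by rwa [← pow_mul, mul_comm])
      exact ⟨_, Or.inl ⟨ξ, hξ, rfl⟩, e⟩
    · obtain ⟨ξ, hξ, e⟩ := h2 y (by rwa [← pow_mul])
      exact ⟨_, Or.inr ⟨ξ, hξ, rfl⟩, e⟩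

theorem ev_ne {p : ℂ[X]} (hp : p ≠ 0) : ∀ᶠ s in 𝓝[≠] (0 : ℂ), p.eval s ≠ 0 :=
  (eventually_cofinite_not_isRoot hp).filter_mono (nhdsNE_le_cofinite 0)

theorem pm_irr {g : ℂ[X][X]} (hm : g.Monic) (hi : Irreducible g) : Pm g := by
  have hd : 0 < g.natDegree := Nat.pos_of_ne_zero fun h ↦
    hi.not_isUnit (by rw [hm.natDegree_eq_zero.1 h]; exact isUnit_one)
  let K := FractionRing ℂ[X]
  have inj := IsFractionRing.injective ℂ[X] K
  have sep : (g.map (algebraMap ℂ[X] K)).Separable :=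
    ((hm.irreducible_iff_irreducible_map_fraction_map (K := K)).1 hi).separable
  have hδ : resultant g (derivative g) ≠ 0 := by
    intro h0
    have h1 := resultant_ne_zero _ _ sep
    rw [derivative_map, natDegree_map_eq_of_injective inj, natDegree_map_eq_of_injective inj,
      resultant_map_map, h0, map_zero] at h1
    exact h1 rfl
  obtain ⟨p, q, -, -, hpq⟩ := exists_mul_add_mul_eq_C_resultant g (derivative g) le_rfl le_rfl
    (Or.inl hd.ne')
  have eq : ∀ s : ℂ, mpP (fun k : Fin g.natDegree ↦ (g.coeff k).eval s) =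
      g.map (evalRingHom s) := fun s ↦ by
    conv_rhs => rw [hm.as_sum]
    simp [mpP, Polynomial.map_sum, Finset.sum_range]
  obtain ⟨E, hE, T, h1, h2, h3⟩ := core hd (fun s (k : Fin g.natDegree) ↦ (g.coeff k).eval s)
    (fun s ↦ analyticAt_pi_iff.2 fun k ↦ (g.coeff k).differentiable.analyticAt s) (by
      filter_upwards [ev_ne hδ] with s hs y hy h0
      rw [← eval_mpP, eq] at hy
      rw [eq, derivative_map] at h0
      have := congrArg (fun r ↦ (r.map (evalRingHom s)).eval y) hpq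
      simp only [Polynomial.map_add, Polynomial.map_mul, eval_add, eval_mul, hy, h0, zero_mul,
        add_zero, map_C, eval_C, coe_evalRingHom] at this
      exact hs this.symm)
  refine ⟨E, hE, T, h1, h2, h3.mono fun u hu y hy ↦ hu y ?_⟩
  rw [← eval_mpP, eq, map_evalRingHom_eval, hy]

theorem pm_monic (n : ℕ) : ∀ g : ℂ[X][X], g.Monic → g.natDegree = n → Pm g := by
  induction n using Nat.strong_induction_on with
  | _ n ih =>
    intro g hm hn
    by_cases h1 : g = 1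
    · exact ⟨1, one_pos, ∅, Set.finite_empty, by simp, by simp [h1]⟩
    by_cases hi : Irreducible g
    · exact pm_irr hm hi
    rw [hm.irreducible_iff_natDegree] at hi
    push Not at hi
    obtain ⟨a, b, ha, hb, rfl, h2, h3⟩ := hi h1
    rw [ha.natDegree_mul hb] at hn
    exact (ih _ (by omega) a ha rfl).mul (ih _ (by omega) b hb rfl)

end MPUI

open MPUI in
theorem st_PUI : St_PUI := by
  intro f hf
  have hL : f.leadingCoeff ≠ 0 := leadingCoeff_ne_zero.2 hf
  by_cases hd : f.natDegree = 0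
  · refine ⟨1, 0, 0, Fin.elim0, one_pos, fun a ↦ a.elim0, ?_⟩
    filter_upwards [ev_ne hL] with u hu y hy
    rw [eq_C_of_natDegree_eq_zero hd, pow_one, evalEval_C] at hy
    rw [leadingCoeff, hd] at hu
    exact absurd hy hu
  obtain ⟨E, hE, T, hT, aT, eT⟩ := pm_monic _ _ (monic_integralNormalization hf) rfl
  obtain ⟨q, hq, hq0⟩ := exists_eq_pow_rootMultiplicity_mul_and_not_dvd _ hL 0
  rw [dvd_iff_isRoot] at hq0
  obtain ⟨k, ξ, -, rfl⟩ := hT.fin_param
  refine ⟨E, E * f.leadingCoeff.rootMultiplicity 0, k, fun a u ↦ ξ a u / q.eval (u ^ E), hE,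
    fun a ↦ (aT _ ⟨a, rfl⟩).div ((q.differentiable.analyticAt _).comp (analyticAt_id.pow E))
      (by rwa [zero_pow hE.ne']), ?_⟩
  filter_upwards [eT, (pow_tendsto hE).eventually (ev_ne hL)] with u hu hu0 y hy
  have h1 := integralNormalization_eval₂_leadingCoeff_mul (Nat.pos_of_ne_zero hd)
    (evalRingHom (u ^ E)) y
  rw [eval₂_evalRingHom, hy, mul_zero] at h1
  obtain ⟨_, ⟨a, rfl⟩, ha⟩ := hu _ h1
  refine ⟨a, ?_⟩
  have h2 : f.leadingCoeff.eval (u ^ E) =
      u ^ (E * f.leadingCoeff.rootMultiplicity 0) * q.eval (u ^ E) := by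
    conv_lhs => rw [hq]
    simp [pow_mul]
  rw [div_div, mul_comm, ← h2, ← ha, coe_evalRingHom, mul_div_cancel_left₀ _ hu0]

end Pool.Agent.Lib.ECM
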