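import Pool.Agent.Lib.ECM.Blue

/-! Singular relations only depend on the polarised torus. -/

open Complex Matrix

noncomputable section

namespace Pool.Agent.Lib.ECM

namespace MSINV

/-- the lattice vector with integral coordinates `k` -/
def pv (τ : T3) (k : Fin 4 → ℤ) : V2 := per τ (iv (k 0, k 1)) (iv (k 2, k 3))

/-- the imaginary part of the Hermitian form, by polarisation -/
def Ef (τ : T3) (x y : V2) : ℝ := (Hn τ (x + I • y) - Hn τ (x - I • y)) / 4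

/-- the standard alternating matrix -/
def Jm : Matrix (Fin 4) (Fin 4) ℤ := !![0, 0, -1, 0; 0, 0, 0, -1; 1, 0, 0, 0; 0, 1, 0, 0]

theorem pv_mem (τ : T3) (k : Fin 4 → ℤ) : pv τ k ∈ Lat τ := ⟨_, _, rfl⟩

theorem exists_pv {τ : T3} {z : V2} (hz : z ∈ Lat τ) : ∃ k, z = pv τ k := by
  obtain ⟨m, n, rfl⟩ := hz
  exact ⟨![m.1, m.2, n.1, n.2], rfl⟩

theorem pv0 (τ : T3) (k : Fin 4 → ℤ) : pv τ k 0 = k 0 + τ 0 * k 2 + τ 1 * k 3 := rfl

theorem pv1 (τ : T3) (k : Fin 4 → ℤ) : pv τ k 1 = k 1 + τ 1 * k 2 + τ 2 * k 3 := rfl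

theorem Ef_pv {τ : T3} (hτ : τ ∈ H2) (k l : Fin 4 → ℤ) :
    Ef τ (pv τ k) (pv τ l) = ((k 2 * l 0 + k 3 * l 1 - k 0 * l 2 - k 1 * l 3 : ℤ) : ℝ) := by
  have hd : dY τ ≠ 0 := (sub_pos.2 hτ.2).ne'
  simp only [Ef, Hn, Pi.add_apply, Pi.sub_apply, Pi.smul_apply, smul_eq_mul, pv0, pv1,
    normSq_apply, add_re, add_im, sub_re, sub_im, mul_re, mul_im, I_re, I_im, intCast_re,
    intCast_im, conj_re, conj_im]
  push_cast
  field_simp
  simp only [dY]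
  ring

theorem Ef_map {τ τ' : T3} (M : V2 →ₗ[ℂ] V2) (h : ∀ v, Hn τ' (M v) = Hn τ v) (x y : V2) :
    Ef τ' (M x) (M y) = Ef τ x y := by
  simp only [Ef, ← h, map_add, map_sub, map_smul]

/-- the alternating matrix attached to a singular relation -/
def Xm (a b c d e : ℤ) : Matrix (Fin 4) (Fin 4) ℤ :=
  !![0, 2 * e, b, 2 * c; -(2 * e), 0, -(2 * a), -b; -b, 2 * a, 0, -(2 * d); -(2 * c), b, 2 * d, 0]

theorem Xm_tr (a b c d e : ℤ) : (Xm a b c d e)ᵀ = -Xm a b c d e := by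
  ext i j
  fin_cases i <;> fin_cases j <;> simp [Xm]

theorem key {K : Matrix (Fin 4) (Fin 4) ℤ} (hK : K * Jm * Kᵀ = Jm) {a b c d e : ℤ}
    (h1 : (Kᵀ * Xm a b c d e * K) 1 2 = 0)
    (h2 : (Kᵀ * Xm a b c d e * K) 0 2 - (Kᵀ * Xm a b c d e * K) 1 3 = 0)
    (h3 : (Kᵀ * Xm a b c d e * K) 0 3 = 0) (h4 : (Kᵀ * Xm a b c d e * K) 2 3 = 0)
    (h5 : (Kᵀ * Xm a b c d e * K) 0 1 = 0) : a = 0 ∧ b = 0 ∧ c = 0 ∧ d = 0 ∧ e = 0 := by
  have htr : trace (Jm * (Kᵀ * Xm a b c d e * K)) = 0 := by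
    rw [← Matrix.mul_assoc, trace_mul_comm, ← Matrix.mul_assoc, ← Matrix.mul_assoc, hK]
    simp [trace, Fin.sum_univ_four, Jm, Xm]
  have hJ : Jm * Xm a b c d e * Jm = K * Jm * (Kᵀ * Xm a b c d e * K) * Jm * Kᵀ := by
    conv_lhs => rw [← hK]
    simp only [Matrix.mul_assoc]
  have hanti : (Kᵀ * Xm a b c d e * K)ᵀ = -(Kᵀ * Xm a b c d e * K) := by
    rw [transpose_mul, transpose_mul, transpose_transpose, Xm_tr]
    simp only [Matrix.mul_assoc, Matrix.neg_mul, Matrix.mul_neg]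
  generalize Kᵀ * Xm a b c d e * K = Y at *
  have ha : ∀ i j, Y j i = -Y i j := fun i j ↦ congrFun (congrFun hanti i) j
  have ht : Y 0 2 + Y 1 3 = 0 := by
    have h20 := ha 0 2
    have h31 := ha 1 3
    have h2 : trace (Jm * Y) = -Y 2 0 - Y 3 1 + Y 0 2 + Y 1 3 := by
      simp only [trace, diag_apply, Matrix.mul_apply, Fin.sum_univ_four, Jm, of_apply,
        cons_val', cons_val_zero, cons_val_one, cons_val]
      ring
    rw [h2] at htr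
    omega
  have hY : Y = 0 := by
    have := ha 0 0
    have := ha 1 1
    have := ha 2 2
    have := ha 3 3
    have := ha 0 1
    have := ha 0 2
    have := ha 0 3
    have := ha 1 2
    have := ha 1 3
    have := ha 2 3
    ext i j
    fin_cases i <;> fin_cases j <;> simp <;> omega
  rw [hY, Matrix.mul_zero, Matrix.zero_mul, Matrix.zero_mul] at hJ
  have e01 := congrFun (congrFun hJ 0) 1
  have e02 := congrFun (congrFun hJ 0) 2
  have e03 := congrFun (congrFun hJ 0) 3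
  have e12 := congrFun (congrFun hJ 1) 2
  have e23 := congrFun (congrFun hJ 2) 3
  simp [Fin.sum_univ_four, Matrix.mul_apply, Jm, Xm] at e01 e02 e03 e12 e23
  exact ⟨e03, e02, e12, e01, e23⟩

theorem lin_apply (N : V2 →ₗ[ℂ] V2) (v : V2) (i : Fin 2) :
    N v i = v 0 * N ![1, 0] i + v 1 * N ![0, 1] i := by
  have hv : v = v 0 • ![1, 0] + v 1 • ![0, 1] := by
    ext j
    fin_cases j <;> simp
  conv_lhs => rw [hv]
  simp only [map_add, map_smul, Pi.add_apply, Pi.smul_apply, smul_eq_mul]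

end MSINV

open MSINV in
theorem st_SINV : St_SINV := by
  intro τ hτ τ' hτ' M hM hL hH hS
  obtain ⟨a, b, c, d, e, hne, hrel⟩ := hS
  let E := LinearEquiv.ofBijective M hM
  let N : V2 →ₗ[ℂ] V2 := E.symm.toLinearMap
  have hMN : ∀ v, M (N v) = v := fun v ↦ E.apply_symm_apply v
  have hk : ∀ i : Fin 4, ∃ k, N (pv τ' (Pi.single i 1)) = pv τ k := fun i ↦
    exists_pv ((hL _).1 (by rw [hMN]; exact pv_mem _ _))
  choose k hk using hk
  let K : Matrix (Fin 4) (Fin 4) ℤ := Matrix.of k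
  have hK : K * Jm * Kᵀ = Jm := by
    ext i j
    have h := Ef_map M hH (pv τ (k i)) (pv τ (k j))
    rw [Ef_pv hτ, ← hk, ← hk, hMN, hMN, Ef_pv hτ'] at h
    have h' := Int.cast_injective h
    have h2 : (K * Jm * Kᵀ) i j =
        k i 2 * k j 0 + k i 3 * k j 1 - k i 0 * k j 2 - k i 1 * k j 3 := by
      simp [K, Matrix.mul_apply, Fin.sum_univ_four, Jm]
      ring
    rw [h2, ← h']
    fin_cases i <;> fin_cases j <;> simp [Jm]
  refine ⟨-(Kᵀ * Xm a b c d e * K) 1 2,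
    (Kᵀ * Xm a b c d e * K) 0 2 - (Kᵀ * Xm a b c d e * K) 1 3, (Kᵀ * Xm a b c d e * K) 0 3,
    -(Kᵀ * Xm a b c d e * K) 2 3, (Kᵀ * Xm a b c d e * K) 0 1, ?_, ?_⟩
  · rintro ⟨h1, h2, h3, h4, h5⟩
    exact hne (key hK (neg_eq_zero.1 h1) h2 h3 (neg_eq_zero.1 h4) h5)
  · have h0 : ∀ i, (k i 0 : ℂ) + τ 0 * k i 2 + τ 1 * k i 3 = _ := fun i ↦
      (pv0 τ (k i)).symm.trans ((congrFun (hk i) 0).symm.trans (lin_apply N _ 0))
    have h1 : ∀ i, (k i 1 : ℂ) + τ 1 * k i 2 + τ 2 * k i 3 = _ := fun i ↦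
      (pv1 τ (k i)).symm.trans ((congrFun (hk i) 1).symm.trans (lin_apply N _ 1))
    have a0 := h0 0
    have a1 := h0 1
    have a2 := h0 2
    have a3 := h0 3
    have b0 := h1 0
    have b1 := h1 1
    have b2 := h1 2
    have b3 := h1 3
    simp [pv0, pv1] at a0 a1 a2 a3 b0 b1 b2 b3
    have hs : (2 * e : ℂ) * ((k 0 0 + τ 0 * k 0 2 + τ 1 * k 0 3) * (k 1 1 + τ 1 * k 1 2 + τ 2 * k 1 3) -
          (k 1 0 + τ 0 * k 1 2 + τ 1 * k 1 3) * (k 0 1 + τ 1 * k 0 2 + τ 2 * k 0 3)) +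
        b * ((k 0 0 + τ 0 * k 0 2 + τ 1 * k 0 3) * (k 2 1 + τ 1 * k 2 2 + τ 2 * k 2 3) -
          (k 2 0 + τ 0 * k 2 2 + τ 1 * k 2 3) * (k 0 1 + τ 1 * k 0 2 + τ 2 * k 0 3)) +
        2 * c * ((k 0 0 + τ 0 * k 0 2 + τ 1 * k 0 3) * (k 3 1 + τ 1 * k 3 2 + τ 2 * k 3 3) -
          (k 3 0 + τ 0 * k 3 2 + τ 1 * k 3 3) * (k 0 1 + τ 1 * k 0 2 + τ 2 * k 0 3)) -
        2 * a * ((k 1 0 + τ 0 * k 1 2 + τ 1 * k 1 3) * (k 2 1 + τ 1 * k 2 2 + τ 2 * k 2 3) -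
          (k 2 0 + τ 0 * k 2 2 + τ 1 * k 2 3) * (k 1 1 + τ 1 * k 1 2 + τ 2 * k 1 3)) -
        b * ((k 1 0 + τ 0 * k 1 2 + τ 1 * k 1 3) * (k 3 1 + τ 1 * k 3 2 + τ 2 * k 3 3) -
          (k 3 0 + τ 0 * k 3 2 + τ 1 * k 3 3) * (k 1 1 + τ 1 * k 1 2 + τ 2 * k 1 3)) -
        2 * d * ((k 2 0 + τ 0 * k 2 2 + τ 1 * k 2 3) * (k 3 1 + τ 1 * k 3 2 + τ 2 * k 3 3) -
          (k 3 0 + τ 0 * k 3 2 + τ 1 * k 3 3) * (k 2 1 + τ 1 * k 2 2 + τ 2 * k 2 3)) = 0 := by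
      rw [a0, a1, a2, a3, b0, b1, b2, b3]
      linear_combination (2 * (N ![1, 0] 0 * N ![0, 1] 1 - N ![0, 1] 0 * N ![1, 0] 1)) * hrel
    simp only [K, Matrix.mul_apply, Fin.sum_univ_four, transpose_apply, of_apply, Xm,
      cons_val', cons_val_zero, cons_val_one, cons_val]
    push_cast
    linear_combination hs

end Pool.Agent.Lib.ECM
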