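import Pool.Agent.Lib.ECM.M_TWOL

/-! Row SQ of the master blueprint. -/

open UpperHalfPlane

namespace Pool.Agent.Lib.ECM

open Pool.Agent.Lib.MP_0704bf_ag CJ

/-- proportionality of tangent vectors is read off from their algebraic coordinates -/
theorem prop_of_conj (H : TH) {σ : ℂ ≃+* ℂ} {τ τ' : T3} (hτ : τ ∈ H2) (hg : Gen τ)
    {v w v' w' : V2} {a b a' b' : ℂ} (hb : b ≠ 0)
    (h1 : ∀ h, lv τ' (a'⁻¹ • v') h = σ (lv τ (a⁻¹ • v) h))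
    (h2 : ∀ h, lv τ' (b'⁻¹ • w') h = σ (lv τ (b⁻¹ • w) h)) (ha' : a' ≠ 0)
    (h : ∃ t : ℂ, w' = t • v') : ∃ t : ℂ, w = t • v := by
  obtain ⟨t, rfl⟩ := h
  have key : ∀ h, ll h τ w = ll h τ ((b * σ.symm (b'⁻¹ * t * a') * a⁻¹) • v) := fun h ↦ by
    have e : lv τ' (b'⁻¹ • t • v') h = b'⁻¹ * t * a' * lv τ' (a'⁻¹ • v') h := by
      simp only [lv, ll_smul]
      field_simp
    rw [h1, h2, ← σ.apply_symm_apply (b'⁻¹ * t * a'), ← map_mul, σ.injective.eq_iff] at e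
    simp only [lv, ll_smul, ← mul_div_assoc, div_left_inj' (gen_k0 hg)] at e ⊢
    rw [inv_mul_eq_iff_eq_mul₀ hb] at e
    rw [e]
    ring
  exact ⟨_, eq_of_ll H hτ hg (key _) (key _)⟩

theorem st_SQ (H : TH) : St_SQ := by
  intro σ x τ τ' hx hg hx' hc hs
  have L := st_LINE H
  have hg' : Gen τ' := gen_conj (σ := σ) hg fun m ↦ by rw [← hx.2.2, ← hx'.2.2]; rfl
  refine ⟨?_, fun hs' ↦ ?_⟩
  · obtain ⟨v, τ0, -, hl, hcm⟩ := (L.cm τ hx.1).1 hc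
    obtain ⟨Ω, hΩ⟩ := (L.nrm τ0).1
    obtain ⟨v', τ0', -, a, b, -, c, -⟩ := st_CONJ H σ x τ τ' v τ0 Ω hx hg hx' hl hΩ
    exact (L.cm τ' hx'.1).2 ⟨v', τ0', a, b, isCM_of_conj hcm (σ : ℂ →+* ℂ) c⟩
  · obtain ⟨v₁, v₂, v₃, τ₁, τ₂, τ₃, l1, l2, l3, n1, n2, n3⟩ := (st_TWOL H).three τ' hx'.1 hs'
    have key : ∀ {v τ0}, Line τ' v τ0 → ∃ (w : V2) (s : ℍ) (a b : ℂ), a ≠ 0 ∧ b ≠ 0 ∧ Line τ w s ∧
        ∀ h, lv τ (b⁻¹ • w) h = σ.symm (lv τ' (a⁻¹ • v) h) := fun {v τ0} hl ↦ by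
      obtain ⟨Ω, hΩ⟩ := (L.nrm τ0).1
      obtain ⟨w, s, Ω', -, b, c, -, -, -, d⟩ := st_CONJ H σ.symm _ τ' τ v τ0 Ω hx' hg'
        (by simpa using hx) hl hΩ
      exact ⟨w, s, Ω, Ω', hΩ.ne, c.ne, b, d⟩
    obtain ⟨w₁, s₁, a₁, b₁, p1, q1, k1, e1⟩ := key l1
    obtain ⟨w₂, s₂, a₂, b₂, p2, q2, k2, e2⟩ := key l2
    obtain ⟨w₃, s₃, a₃, b₃, p3, q3, k3, e3⟩ := key l3
    rcases (st_TWOL H).two τ hx.1 hc hs _ _ _ _ _ _ k1 k2 k3 with h | h | h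
    · exact n1 (prop_of_conj H hx'.1 hg' p2 e1 e2 q1 h)
    · exact n2 (prop_of_conj H hx'.1 hg' p3 e1 e3 q1 h)
    · exact n3 (prop_of_conj H hx'.1 hg' p3 e2 e3 q2 h)

end Pool.Agent.Lib.ECM
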