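import Pool.Agent.Lib.ECM.M_LINE

/-! Row TWOL of the master blueprint. -/

open Complex UpperHalfPlane

namespace Pool.Agent.Lib.ECM

open Pool.Agent.Lib.MP_0704bf_ag CJ

namespace XTWOL

variable {τ : T3} {v w w' z : V2} {s s' : ℍ}

theorem indep (hw : w ≠ 0) (h : ¬ ∃ t : ℂ, w' = t • w) {a b : ℂ} (e : a • w + b • w' = 0) :
    a = 0 ∧ b = 0 := by
  have hb : b = 0 := by
    by_contra hb
    refine h ⟨b⁻¹ * -a, ?_⟩
    rw [mul_smul, eq_inv_smul_iff₀ hb]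
    linear_combination (norm := module) e
  rw [hb, zero_smul, add_zero] at e
  exact ⟨(smul_eq_zero.1 e).resolve_right hw, hb⟩

/-- the lattice as a quotient of `ℤ ^ 4` -/
noncomputable def pz (τ : T3) : (ℤ × ℤ) × ℤ × ℤ →ₗ[ℤ] V2 :=
  AddMonoidHom.toIntLinearMap (AddMonoidHom.mk' (fun p ↦ per τ (iv p.1) (iv p.2)) fun p q ↦ by
    funext i
    fin_cases i <;> simp [per, iv] <;> ring)

theorem mem_iff : z ∈ Lat τ ↔ ∃ p, pz τ p = z :=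
  ⟨fun ⟨m, n, e⟩ ↦ ⟨(m, n), e.symm⟩, fun ⟨p, e⟩ ↦ ⟨p.1, p.2, e.symm⟩⟩

theorem dep (hl : Line τ w s) (hl' : Line τ w' s') (h : ¬ ∃ t : ℂ, w' = t • w) (hz : z ∈ Lat τ) :
    ∃ n a b c d : ℤ, n ≠ 0 ∧ (n : ℂ) • z = (a + b * (s : ℂ)) • w + (c + d * (s' : ℂ)) • w' := by
  obtain ⟨p0, e0⟩ := mem_iff.1 hz
  obtain ⟨p1, e1⟩ := mem_iff.1 hl.one
  obtain ⟨p2, e2⟩ := mem_iff.1 hl.tau
  obtain ⟨p3, e3⟩ := mem_iff.1 hl'.one
  obtain ⟨p4, e4⟩ := mem_iff.1 hl'.tau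
  have h1 : ¬ LinearIndependent ℤ ![p0, p1, p2, p3, p4] := fun h1 ↦ by
    simpa using h1.fintype_card_le_finrank
  obtain ⟨g, hg, i, hi⟩ := Fintype.not_linearIndependent_iff.1 h1
  have e := congrArg (pz τ) hg
  simp only [Fin.sum_univ_five, Matrix.cons_val, map_add, map_zsmul, e0, e1, e2, e3, e4, map_zero,
    ← Int.cast_smul_eq_zsmul ℂ] at e
  refine ⟨-g 0, g 1, g 2, g 3, g 4, fun h0 ↦ hi ?_, ?_⟩
  · rw [neg_eq_zero] at h0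
    obtain ⟨a, b⟩ := indep hl.1 h (a := g 1 + g 2 * (s : ℂ)) (b := g 3 + g 4 * (s' : ℂ)) (by
      rw [← e, h0]
      module)
    obtain ⟨a1, a2⟩ := ZP3.JB.int_indep s.im_pos (m' := 0) (n' := 0) (a.trans (by simp))
    obtain ⟨a3, a4⟩ := ZP3.JB.int_indep s'.im_pos (m' := 0) (n' := 0) (b.trans (by simp))
    fin_cases i <;> assumption
  · push_cast
    linear_combination (norm := module) -e

theorem stab {t : ℂ} {A B C n n' a b c d : ℤ} (ht : t.im ≠ 0) (hA : A ≠ 0)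
    (hq : A * t ^ 2 + B * t + C = 0) (hn : n ≠ 0) (hn' : n' ≠ 0) (h0 : (a : ℂ) + b * s ≠ 0)
    (e : n' * t * (a + b * (s : ℂ)) = n * (c + d * (s : ℂ))) :
    ∃ k : ℤ, k ≠ 0 ∧ ∀ x y : ℤ, ∃ x' y' : ℤ, k * t * (x + y * (s : ℂ)) = x' + y' * (s : ℂ) := by
  have hD : a * d - b * c ≠ 0 := fun hD ↦ by
    have hD' : (a : ℂ) * d - b * c = 0 := by exact_mod_cast hD
    have h1 : (a + b * (s : ℂ)) * (n' * t * a - n * c) = 0 := by
      linear_combination (a : ℂ) * e + n * s * hD'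
    have h2 : (a + b * (s : ℂ)) * (n' * t * b - n * d) = 0 := by
      linear_combination (b : ℂ) * e - n * hD'
    have h3 := congrArg Complex.im ((mul_eq_zero.1 h1).resolve_left h0)
    have h4 := congrArg Complex.im ((mul_eq_zero.1 h2).resolve_left h0)
    simp [ht, hn'] at h3 h4
    simp [h3, h4] at h0
  refine ⟨A * n * n' * (a * d - b * c), by positivity, fun x y ↦
    ⟨(x * d - y * c) * A * n ^ 2 * c - (y * a - x * b) * n' * (B * n * c + C * n' * a),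
      (x * d - y * c) * A * n ^ 2 * d - (y * a - x * b) * n' * (B * n * d + C * n' * b), ?_⟩⟩
  push_cast
  linear_combination ((x * d - y * c) * A * n - (y * a - x * b) * n' * (A * t + B)) * e +
    (y * a - x * b) * n' ^ 2 * (a + b * (s : ℂ)) * hq

theorem core (H : TH) {t : ℂ} {A B C : ℤ} (ht : t.im ≠ 0) (hA : A ≠ 0)
    (hq : A * t ^ 2 + B * t + C = 0) (h1 : v ∈ Lat τ) (h2 : t • v ∈ Lat τ) (hl : Line τ w s)
    (hl' : Line τ w' s') (h : ¬ ∃ t : ℂ, w' = t • w) (k : ¬ ∃ t : ℂ, v = t • w)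
    (k' : ¬ ∃ t : ℂ, v = t • w') : SqCM τ := by
  obtain ⟨n, a, b, a', b', hn, e⟩ := dep hl hl' h h1
  obtain ⟨n', c, d, c', d', hn', e'⟩ := dep hl hl' h h2
  have hn0 : (n : ℂ) ≠ 0 := Int.cast_ne_zero.2 hn
  obtain ⟨x, x'⟩ := indep hl.1 h (a := n' * t * (a + b * (s : ℂ)) - n * (c + d * (s : ℂ)))
    (b := n' * t * (a' + b' * (s' : ℂ)) - n * (c' + d' * (s' : ℂ))) (by
      linear_combination (norm := module) (n : ℂ) • e' - (n' * t) • e)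
  obtain ⟨k1, k10, f1⟩ := stab ht hA hq hn hn' (fun h0 ↦ k' ⟨(n : ℂ)⁻¹ * (a' + b' * (s' : ℂ)), by
    rw [mul_smul, eq_inv_smul_iff₀ hn0, e, h0, zero_smul, zero_add]⟩) (sub_eq_zero.1 x)
  obtain ⟨k2, k20, f2⟩ := stab ht hA hq hn hn' (fun h0 ↦ k ⟨(n : ℂ)⁻¹ * (a + b * (s : ℂ)), by
    rw [mul_smul, eq_inv_smul_iff₀ hn0, e, h0, zero_smul, add_zero]⟩) (sub_eq_zero.1 x')
  have key : ∀ p, ∃ k : ℤ, k ≠ 0 ∧ ∀ r : ℤ, ((r * k : ℤ) * t) • pz τ p ∈ Lat τ := fun p ↦ by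
    obtain ⟨m, x1, y1, x2, y2, hm, e⟩ := dep hl hl' h (mem_iff.2 ⟨p, rfl⟩)
    obtain ⟨u1, v1, g1⟩ := f1 x1 y1
    obtain ⟨u2, v2, g2⟩ := f2 x2 y2
    refine ⟨k1 * k2 * m, by positivity, fun r ↦ ?_⟩
    have := H.bas.lat_add τ _ (H.bas.lat_smul τ (r * k2) _ ((hl.2 _).2 ⟨u1, v1, g1⟩)) _
      (H.bas.lat_smul τ (r * k1) _ ((hl'.2 _).2 ⟨u2, v2, g2⟩))
    convert this using 1
    push_cast
    linear_combination (norm := module) (r * k1 * k2 * t) • e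
  obtain ⟨r1, s1, t1⟩ := key ((1, 0), (0, 0))
  obtain ⟨r2, s2, t2⟩ := key ((0, 1), (0, 0))
  obtain ⟨r3, s3, t3⟩ := key ((0, 0), (1, 0))
  obtain ⟨r4, s4, t4⟩ := key ((0, 0), (0, 1))
  refine ⟨(r1 * r2 * r3 * r4 : ℤ) * t, by simp [*], fun z hz ↦ ?_⟩
  obtain ⟨⟨⟨a, b⟩, c, d⟩, rfl⟩ := mem_iff.1 hz
  have e : ((a, b), c, d) = a • (((1, 0), (0, 0)) : (ℤ × ℤ) × ℤ × ℤ) + b • ((0, 1), (0, 0)) +
      c • ((0, 0), (1, 0)) + d • ((0, 0), (0, 1)) := by simp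
  have := H.bas.lat_add τ _ (H.bas.lat_add τ _ (H.bas.lat_add τ _ (t1 (a * r2 * r3 * r4)) _
    (t2 (b * r1 * r3 * r4))) _ (t3 (c * r1 * r2 * r4))) _ (t4 (d * r1 * r2 * r3))
  convert this using 1
  rw [e]
  simp only [map_add, map_zsmul, ← Int.cast_smul_eq_zsmul ℂ]
  push_cast
  module

theorem symm (hw : w' ≠ 0) (h : ∃ t : ℂ, w' = t • w) : ∃ t : ℂ, w = t • w' := by
  obtain ⟨t, rfl⟩ := h
  exact ⟨t⁻¹, (inv_smul_smul₀ (left_ne_zero_of_smul hw) w).symm⟩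

theorem trans (h : ∃ t : ℂ, w' = t • w) (h' : ∃ t : ℂ, w = t • v) : ∃ t : ℂ, w' = t • v := by
  obtain ⟨t, rfl⟩ := h
  obtain ⟨t', rfl⟩ := h'
  exact ⟨t * t', smul_smul _ _ _⟩

end XTWOL

open XTWOL in
theorem st_TWOL (H : TH) : St_TWOL where
  two τ _ := by
    rintro ⟨v, t, A, B, C, hv, ht, hA, hq, h1, h2⟩ hs v₁ v₂ v₃ τ₁ τ₂ τ₃ l1 l2 l3
    by_contra hc
    simp only [not_or] at hc
    obtain ⟨c1, c2, c3⟩ := hc
    have c := fun {w w' s s'} ↦ core (v := v) (w := w) (w' := w') (s := s) (s' := s') H ht hA hq h1 h2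
    by_cases k1 : ∃ t : ℂ, v = t • v₁
    · exact hs (c l2 l3 c3 (fun k ↦ c1 (trans (symm hv k) k1)) fun k ↦ c2 (trans (symm hv k) k1))
    · by_cases k2 : ∃ t : ℂ, v = t • v₂
      · exact hs (c l1 l3 c2 k1 fun k ↦ c3 (trans (symm hv k) k2))
      · exact hs (c l1 l2 c1 k1 k2)
  three τ hτ := by
    rintro ⟨a, ha, h⟩
    have key : ∀ m : ℤ × ℤ, iv m ≠ 0 → ∃ (c : ℂ) (τ0 : ℍ), c ≠ 0 ∧ Line τ (c • iv m) τ0 := fun m hm ↦ by
      have h1 : iv m ∈ Lat τ := ⟨m, 0, by funext i; fin_cases i <;> simp [per, iv]⟩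
      obtain ⟨c, τ0, -, hl⟩ := XLINE.ex H τ hτ _ a hm ha h1 (h _ h1)
      exact ⟨c, τ0, left_ne_zero_of_smul hl.1, hl⟩
    obtain ⟨c1, τ1, n1, l1⟩ := key (1, 0) fun e ↦ by simpa [iv] using congrFun e 0
    obtain ⟨c2, τ2, n2, l2⟩ := key (0, 1) fun e ↦ by simpa [iv] using congrFun e 1
    obtain ⟨c3, τ3, n3, l3⟩ := key (1, 1) fun e ↦ by simpa [iv] using congrFun e 0
    exact ⟨_, _, _, _, _, _, l1, l2, l3, fun ⟨t, e⟩ ↦ by simpa [iv, n2] using congrFun e 1,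
      fun ⟨t, e⟩ ↦ by simpa [iv, n3] using congrFun e 1,
      fun ⟨t, e⟩ ↦ by simpa [iv, n3] using congrFun e 0⟩

end Pool.Agent.Lib.ECM
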