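import Pool.Agent.Lib.ECM.PTDefs
import Pool.Agent.Lib.ZP3.Sm1

/-! Block ARI: the auxiliary polynomial and the Liouville inequality for a quadratic system. -/

open Filter Topology MvPolynomial

noncomputable section

namespace Pool.Agent.Lib.ECM.PT

namespace ARI

open Pool.Agent.Lib.ZP3

variable {ι : Type}

/-- `f` has degree at most `d` and weighted length at most `B` -/
inductive Bd (M : ℝ) : ℕ → ℝ → MvPolynomial ι ℂ → Prop
  | const (c : ℂ) : Bd M 0 ‖c‖ (C c)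
  | mulX {d B f} (v : ι) : Bd M d B f → Bd M (d + 1) (B * M) (f * X v)
  | add {d B B' f g} : Bd M d B f → Bd M d B' g → Bd M d (B + B') (f + g)
  | mono {d d' B B' f} : Bd M d B f → d ≤ d' → B ≤ B' → Bd M d' B' f

variable {M : ℝ} {d : ℕ} {B : ℝ} {f : MvPolynomial ι ℂ}

lemma Bd.nonneg (hM : 1 ≤ M) (h : Bd M d B f) : 0 ≤ B := by
  induction h with
  | const c => exact norm_nonneg c
  | mulX v _ ih => positivity
  | add _ _ ih ih' => positivity
  | mono _ _ h ih => exact ih.trans h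

lemma Bd.eval_le (hM : 1 ≤ M) (h : Bd M d B f) {x : ι → ℂ} (hx : ∀ v, ‖x v‖ ≤ M) :
    ‖eval x f‖ ≤ B := by
  induction h with
  | const c => simp
  | mulX v h ih =>
    rw [map_mul, eval_X, norm_mul]
    exact mul_le_mul ih (hx v) (norm_nonneg _) (h.nonneg hM)
  | add _ _ ih ih' => rw [map_add]; exact (norm_add_le _ _).trans (add_le_add ih ih')
  | mono _ _ h ih => exact ih.trans h

lemma Bd.zero (d : ℕ) : Bd M d 0 (0 : MvPolynomial ι ℂ) := by
  simpa using (Bd.const (ι := ι) (M := M) 0).mono d.zero_le le_rfl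

lemma Bd.smul (h : Bd M d B f) (c : ℂ) : Bd M d (‖c‖ * B) (c • f) := by
  induction h with
  | const a => rw [← norm_mul, smul_eq_C_mul, ← map_mul]; exact Bd.const _
  | mulX v _ ih => simpa only [mul_assoc, smul_mul_assoc] using ih.mulX v
  | add _ _ ih ih' => simpa only [mul_add, smul_add] using ih.add ih'
  | mono _ h1 h2 ih => exact ih.mono h1 (mul_le_mul_of_nonneg_left h2 (norm_nonneg c))

lemma Bd.sum {κ : Type} (s : Finset κ) {g : κ → MvPolynomial ι ℂ} {b : κ → ℝ}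
    (h : ∀ i ∈ s, Bd M d (b i) (g i)) : Bd M d (∑ i ∈ s, b i) (∑ i ∈ s, g i) := by
  classical
  induction s using Finset.induction_on with
  | empty => exact Bd.zero d
  | insert i s hi ih =>
    rw [Finset.sum_insert hi, Finset.sum_insert hi]
    exact (h i (by simp)).add (ih fun j hj => h j (by simp [hj]))

lemma Bd.mul_pow (h : Bd M d B f) (v : ι) (n : ℕ) :
    Bd M (d + n) (B * M ^ n) (f * X v ^ n) := by
  induction n with
  | zero => simpa using h
  | succ n ih => simpa only [pow_succ, mul_assoc, add_assoc] using ih.mulX v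

/-- the constant one followed by the variables -/
def oX : Option ι → MvPolynomial ι ℂ := fun o ↦ o.elim 1 X

lemma Bd.mulO (hM : 1 ≤ M) (h : Bd M d B f) (o : Option ι) :
    Bd M (d + 1) (B * M) (f * oX o) := by
  cases o with
  | none => simpa [oX] using h.mono (Nat.le_succ d) (le_mul_of_one_le_right (h.nonneg hM) hM)
  | some v => exact h.mulX v

variable [Fintype ι]

/-- the derivation attached to a quadratic system -/
def De (q : ι → Option ι → Option ι → ℂ) :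
    Derivation ℂ (MvPolynomial ι ℂ) (MvPolynomial ι ℂ) :=
  mkDerivation ℂ fun j ↦ ∑ a, ∑ b, q j a b • (oX a * oX b)

variable {q : ι → Option ι → Option ι → ℂ}

lemma De_X (j : ι) : De q (X j) = ∑ a, ∑ b, q j a b • (oX a * oX b) := mkDerivation_X _ _ _

lemma De_C (c : ℂ) : De q (C c) = 0 := derivation_C _ _

lemma De_mul (f g : MvPolynomial ι ℂ) : De q (f * g) = De q f * g + f * De q g := by
  rw [Derivation.leibniz, smul_eq_mul, smul_eq_mul]; ring

lemma Bd.der (hM : 1 ≤ M) (hq : ∀ j a b, ‖q j a b‖ ≤ M) (h : Bd M d B f) :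
    Bd M (d + 1) ((Fintype.card (Option ι) * M) ^ 2 * d * B) (De q f) := by
  induction h with
  | const c => simpa [De_C] using Bd.zero 1
  | @mulX d B f w h ih =>
    have hB := h.nonneg hM
    have h1 : Bd M (d + 1 + 1) ((Fintype.card (Option ι) * M) ^ 2 * (B * M))
        (f * De q (X w)) := by
      rw [De_X, Finset.mul_sum]
      refine (Bd.sum (b := fun _ ↦ Fintype.card (Option ι) * (M * (B * M * M))) _
        fun a _ ↦ ?_).mono le_rfl (le_of_eq ?_)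
      · rw [Finset.mul_sum]
        refine (Bd.sum (b := fun _ ↦ M * (B * M * M)) _ fun b _ ↦ ?_).mono le_rfl (le_of_eq ?_)
        · rw [mul_smul_comm, ← mul_assoc f]
          exact (((h.mulO hM a).mulO hM b).smul _).mono le_rfl
            (mul_le_mul_of_nonneg_right (hq w a b) (by positivity))
        · rw [Finset.sum_const, Finset.card_univ, nsmul_eq_mul]
      · rw [Finset.sum_const, Finset.card_univ, nsmul_eq_mul]; ring
    rw [De_mul]
    exact ((ih.mulX w).add h1).mono le_rfl (le_of_eq (by push_cast; ring))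
  | add _ _ ih ih' => simpa only [mul_add, map_add] using ih.add ih'
  | mono h h1 h2 ih =>
    refine ih.mono (by omega) ?_
    have := h.nonneg hM
    gcongr

/-- the derivation as a linear endomorphism -/
def DE (q : ι → Option ι → Option ι → ℂ) : Module.End ℂ (MvPolynomial ι ℂ) := (De q).toLinearMap

lemma DE_succ (k : ℕ) (f : MvPolynomial ι ℂ) : (DE q ^ (k + 1)) f = De q ((DE q ^ k) f) := by
  rw [pow_succ']; rfl

lemma Bd.iter (hM : 1 ≤ M) (hq : ∀ j a b, ‖q j a b‖ ≤ M) (h : Bd M d B f) {K : ℝ} (k : ℕ)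
    (hK : (Fintype.card (Option ι) * M) ^ 2 * (d + k : ℕ) ≤ K) :
    Bd M (d + k) (K ^ k * B) ((DE q ^ k) f) := by
  induction k with
  | zero => simpa using h
  | succ k ih =>
    have h1 : (Fintype.card (Option ι) * M) ^ 2 * (d + k : ℕ) ≤ K :=
      le_trans (by gcongr; omega) hK
    rw [DE_succ]
    refine ((ih h1).der hM hq).mono le_rfl ?_
    rw [pow_succ' K, mul_assoc K]
    exact mul_le_mul_of_nonneg_right h1 ((ih h1).nonneg hM)

lemma map_De (σ : ℂ →+* ℂ) (f : MvPolynomial ι ℂ) :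
    map σ (De q f) = De (fun j a b ↦ σ (q j a b)) (map σ f) := by
  have ho : ∀ o : Option ι, map σ (oX o) = oX o := fun o ↦ by cases o <;> simp [oX]
  induction f using MvPolynomial.induction_on with
  | C a => simp
  | add p r hp hr => simp only [map_add, hp, hr]
  | mul_X p w hp =>
    rw [De_mul, map_add, map_mul, map_mul, map_mul, De_mul, hp, map_X, De_X, De_X]
    simp only [map_sum, smul_eq_C_mul, map_mul, map_C, ho]

lemma map_DE (σ : ℂ →+* ℂ) (k : ℕ) (f : MvPolynomial ι ℂ) :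
    map σ ((DE q ^ k) f) = (DE (fun j a b ↦ σ (q j a b)) ^ k) (map σ f) := by
  induction k with
  | zero => rfl
  | succ k ih => rw [DE_succ, DE_succ, map_De, ih]

/-- polynomials with integral coefficients in the scaled variables -/
def IP (ι : Type) (D : ℕ) : Subring (MvPolynomial ι ℂ) :=
  Subring.closure (C '' {z : ℂ | IsIntegral ℤ z} ∪ Set.range fun v ↦ (D : ℂ) • X v)

omit [Fintype ι] in
lemma C_mem {D : ℕ} {z : ℂ} (h : IsIntegral ℤ z) : C z ∈ IP ι D :=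
  Subring.subset_closure (.inl ⟨z, h, rfl⟩)

omit [Fintype ι] in
lemma X_mem (D : ℕ) (v : ι) : (D : ℂ) • X v ∈ IP ι D := Subring.subset_closure (.inr ⟨v, rfl⟩)

omit [Fintype ι] in
lemma oX_mem (D : ℕ) (o : Option ι) : (D : ℂ) • oX o ∈ IP ι D := by
  cases o with
  | none => rw [smul_eq_C_mul]; exact mul_mem (C_mem (SM1.isIntegral_nat D)) (one_mem _)
  | some v => exact X_mem D v

lemma De_mem {D : ℕ} (hq : ∀ j a b, IsIntegral ℤ (D * q j a b)) (h : f ∈ IP ι D) :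
    (D : ℂ) ^ 2 • De q f ∈ IP ι D := by
  induction h using Subring.closure_induction with
  | mem x hx =>
    rcases hx with ⟨z, -, rfl⟩ | ⟨j, rfl⟩
    · rw [De_C, smul_zero]; exact zero_mem _
    · rw [Derivation.map_smul, De_X, Finset.smul_sum, Finset.smul_sum]
      refine sum_mem fun a _ ↦ ?_
      rw [Finset.smul_sum, Finset.smul_sum]
      refine sum_mem fun b _ ↦ ?_
      have e : (D : ℂ) ^ 2 • (D : ℂ) • q j a b • (oX a * oX b) =
          C (D * q j a b) * (((D : ℂ) • oX a) * ((D : ℂ) • oX b)) := by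
        simp only [smul_eq_C_mul, map_mul, map_pow]; ring
      rw [e]
      exact mul_mem (C_mem (hq j a b)) (mul_mem (oX_mem D a) (oX_mem D b))
  | zero => rw [map_zero, smul_zero]; exact zero_mem _
  | one => rw [Derivation.map_one_eq_zero, smul_zero]; exact zero_mem _
  | add x y _ _ hx hy => rw [map_add, smul_add]; exact add_mem hx hy
  | neg x _ hx => rw [map_neg, smul_neg]; exact neg_mem hx
  | mul x y hx hy hx' hy' =>
    rw [De_mul, smul_add, ← smul_mul_assoc, ← mul_smul_comm]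
    exact add_mem (mul_mem hx' hy) (mul_mem hx hy')

lemma DE_mem {D : ℕ} (hq : ∀ j a b, IsIntegral ℤ (D * q j a b)) (k : ℕ) {m : ℕ}
    (h : (D : ℂ) ^ m • f ∈ IP ι D) : (D : ℂ) ^ (m + 2 * k) • (DE q ^ k) f ∈ IP ι D := by
  induction k with
  | zero => exact h
  | succ k ih =>
    have := De_mem hq ih
    rw [Derivation.map_smul, smul_smul, ← pow_add] at this
    rw [DE_succ, show m + 2 * (k + 1) = 2 + (m + 2 * k) by ring]
    exact this

omit [Fintype ι] in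
lemma eval_int {D : ℕ} {x : ι → ℂ} (hx : ∀ v, IsIntegral ℤ (D * x v)) (h : f ∈ IP ι D) :
    IsIntegral ℤ (eval x f) := by
  induction h using Subring.closure_induction with
  | mem y hy =>
    rcases hy with ⟨z, hz, rfl⟩ | ⟨i, rfl⟩
    · rwa [eval_C]
    · rw [smul_eval, eval_X]; exact hx i
  | zero => rw [map_zero]; exact isIntegral_zero
  | one => rw [map_one]; exact isIntegral_one
  | add x y _ _ hx hy => rw [map_add]; exact hx.add hy
  | neg x _ hx => rw [map_neg]; exact hx.neg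
  | mul x y _ _ hx hy => rw [map_mul]; exact hx.mul hy

lemma hasDeriv_eval {γ : ℂ → ι → ℂ} {t : ℂ}
    (h : ∀ j, HasDerivAt (fun t ↦ γ t j) (quad (q j) (γ t)) t) (f : MvPolynomial ι ℂ) :
    HasDerivAt (fun t ↦ eval (γ t) f) (eval (γ t) (De q f)) t := by
  have ho : ∀ o : Option ι, eval (γ t) (oX o) = ox (γ t) o := fun o ↦ by
    cases o <;> simp [oX, ox]
  induction f using MvPolynomial.induction_on with
  | C a => simpa [De_C] using hasDerivAt_const t a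
  | add p r hp hr => simpa only [map_add] using hp.fun_add hr
  | mul_X p w hp =>
    have e : eval (γ t) (De q (X w)) = quad (q w) (γ t) := by
      simp only [De_X, map_sum, smul_eval, map_mul, ho, quad, mul_assoc]
    simpa only [De_mul, map_add, map_mul, eval_X, e] using hp.fun_mul (h w)

lemma iter_eval {γ : ℂ → ι → ℂ} {W : Set ℂ} (hW : IsOpen W)
    (h : ∀ t ∈ W, ∀ j, HasDerivAt (fun t ↦ γ t j) (quad (q j) (γ t)) t) (k : ℕ) :
    ∀ (f : MvPolynomial ι ℂ), ∀ t ∈ W,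
      iteratedDeriv k (fun t ↦ eval (γ t) f) t = eval (γ t) ((DE q ^ k) f) := by
  induction k with
  | zero => intro f s _; simp
  | succ k ih =>
    intro f s hs
    rw [iteratedDeriv_succ', pow_succ, Module.End.mul_apply, ← ih _ s hs]
    refine Filter.EventuallyEq.iteratedDeriv_eq k ?_
    filter_upwards [hW.mem_nhds hs] with t ht
    exact (hasDeriv_eval (h t ht) f).deriv

lemma I2_eval {x : ℂ × ℂ → ι → ℂ} {q1 q2 : ι → Option ι → Option ι → ℂ} (h : Sys x q1 q2)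
    (f : MvPolynomial ι ℂ) (a b : ℕ) :
    I2 (fun z ↦ eval (x z) f) a b = eval (x 0) ((DE q1 ^ a) ((DE q2 ^ b) f)) := by
  obtain ⟨V, hV, hVo, hV0⟩ := eventually_nhds_iff.1
    (eventually_all.2 fun j ↦ (h j).1.eventually_analyticAt.and (h j).2)
  have h1 : ∀ s ∈ {s : ℂ | (s, (0 : ℂ)) ∈ V}, ∀ j,
      HasDerivAt (fun s ↦ x (s, 0) j) (quad (q1 j) (x (s, 0))) s := fun s hs j ↦ by
    rw [← (hV _ hs j).2.1]
    exact (hV _ hs j).1.differentiableAt.hasFDerivAt.comp_hasDerivAt s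
      ((hasDerivAt_id s).prodMk (hasDerivAt_const s (0 : ℂ)))
  have h2 : ∀ s : ℂ, ∀ y ∈ {y : ℂ | (s, y) ∈ V}, ∀ j,
      HasDerivAt (fun y ↦ x (s, y) j) (quad (q2 j) (x (s, y))) y := fun s y hy j ↦ by
    rw [← (hV _ hy j).2.2]
    exact (hV _ hy j).1.differentiableAt.hasFDerivAt.comp_hasDerivAt y
      ((hasDerivAt_const y s).prodMk (hasDerivAt_id y))
  have o1 : IsOpen {s : ℂ | (s, (0 : ℂ)) ∈ V} := hVo.preimage (by fun_prop)
  have h3 := iter_eval (γ := fun s ↦ x (s, 0)) o1 h1 a ((DE q2 ^ b) f) 0 hV0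
  refine Eq.trans (Filter.EventuallyEq.iteratedDeriv_eq a ?_) h3
  filter_upwards [o1.mem_nhds hV0] with s hs
  exact iter_eval (γ := fun y ↦ x (s, y)) (hVo.preimage (by fun_prop)) (h2 s) b f 0 hs

/-- index set of all the algebraic numbers -/
abbrev J (ι : Type) := ι ⊕ (ι × Option ι × Option ι) ⊕ (ι × Option ι × Option ι)

/-- the algebraic values of the construction -/
def Gm (e : J ι → ℂ) (a b : ℕ) (f : MvPolynomial ι ℂ) : ℂ :=
  eval (fun v ↦ e (.inl v)) ((DE (fun j a b ↦ e (.inr (.inl (j, a, b)))) ^ a)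
    ((DE (fun j a b ↦ e (.inr (.inr (j, a, b)))) ^ b) f))

lemma Gm_conj (σ : ℂ →+* ℂ) (e : J ι → ℂ) (a b : ℕ) (f : MvPolynomial ι ℂ) :
    σ (Gm e a b f) = Gm (fun i ↦ σ (e i)) a b (map σ f) := by
  have h : ∀ (x : ι → ℂ) (g : MvPolynomial ι ℂ),
      σ (eval x g) = eval (fun v ↦ σ (x v)) (map σ g) :=
    fun x g ↦ by rw [eval_map, ← coe_eval₂Hom, eval, map_eval₂Hom, RingHom.comp_id]
  rw [Gm, Gm, h, map_DE, map_DE]

lemma Gm_bd {K : ℝ} (hM : 1 ≤ M) {e : J ι → ℂ} (he : ∀ i, ‖e i‖ ≤ M) (h : Bd M d B f) (a b : ℕ)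
    (hK : (Fintype.card (Option ι) * M) ^ 2 * (d + b + a : ℕ) ≤ K) :
    ‖Gm e a b f‖ ≤ K ^ (a + b) * B := by
  rw [pow_add, mul_assoc]
  refine Bd.eval_le hM (Bd.iter hM (fun _ _ _ ↦ he _) (h.iter hM (fun _ _ _ ↦ he _) b
    (le_trans ?_ hK)) a hK) fun _ ↦ he _
  exact mul_le_mul_of_nonneg_left (Nat.cast_le.2 (by omega)) (by positivity)

lemma Gm_int {D m r : ℕ} {e : J ι → ℂ} (he : ∀ i, IsIntegral ℤ (D * e i))
    (h : (D : ℂ) ^ m • f ∈ IP ι D) {a b : ℕ} (hr : m + 2 * b + 2 * a ≤ r) :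
    IsIntegral ℤ ((D : ℂ) ^ r * Gm e a b f) := by
  obtain ⟨s, rfl⟩ := Nat.exists_eq_add_of_le' hr
  have := eval_int (x := fun v ↦ e (.inl v)) (fun _ ↦ he _)
    (DE_mem (q := fun j a b ↦ e (.inr (.inl (j, a, b)))) (fun _ _ _ ↦ he _) a
      (DE_mem (q := fun j a b ↦ e (.inr (.inr (j, a, b)))) (fun _ _ _ ↦ he _) b h))
  rw [smul_eval] at this
  rw [pow_add, mul_assoc]
  exact ((SM1.isIntegral_nat D).pow s).mul this

/-- Siegel lemma and Liouville inequality for a family of algebraic forms -/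
lemma siegel {I Λ : Type} [Fintype I] [Fintype Λ] {e : I → ℂ} {A n T0 T2 : ℕ} {E0 : ℝ}
    (he : ∀ i, Deg (e i) A) (g : (I → ℂ) → ℕ → ℕ → Λ → ℂ) (hE : 1 ≤ E0)
    (hc : ∀ (σ : ℂ →+* ℂ) a b l, σ (g e a b l) = g (fun i ↦ σ (e i)) a b l)
    (hi : ∀ a b l, a + b ≤ 2 * n → IsIntegral ℤ (g e a b l))
    (hb : ∀ (σ : ℂ →+* ℂ) a b l, a + b ≤ 2 * n → ‖g (fun i ↦ σ (e i)) a b l‖ ≤ E0)
    (h0 : T0 ≤ n) (h2 : T2 ≤ n) (hΛ : 0 < Fintype.card Λ)
    (h4 : 4 * (A ^ Fintype.card I * (T0 * T2)) ≤ Fintype.card Λ) :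
    ∃ p : Λ → ℤ, p ≠ 0 ∧ ∑ l, ‖(p l : ℂ)‖ ≤ 7 * Fintype.card Λ ^ 2 * E0 ∧
      (∀ a < T0, ∀ b < T2, ∑ l, p l * g e a b l = 0) ∧
      ∀ a b, a + b ≤ 2 * n → ∑ l, p l * g e a b l ≠ 0 →
        1 ≤ ‖∑ l, p l * g e a b l‖ * (7 * Fintype.card Λ ^ 2 * E0 * E0) ^ A ^ Fintype.card I := by
  classical
  obtain ⟨E, hE1, hE2⟩ := deg_joint he
  let E' := E.filter fun e' ↦ ∃ σ : ℂ →+* ℂ, e' = fun i ↦ σ (e i)
  obtain ⟨p, hp0, hp1, hp2⟩ := pigeon (r := E' × Fin T0 × Fin T2)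
    (fun r l ↦ g r.1 r.2.1 r.2.2 l) hE one_pos le_rfl (fun r l ↦ by
      have h1 := r.2.1.2
      have h2 := r.2.2.2
      obtain ⟨σ, hσ⟩ := (Finset.mem_filter.1 r.1.2).2
      rw [hσ]
      exact hb σ _ _ _ (by omega)) hΛ (by
      refine le_trans ?_ h4
      simp only [Fintype.card_prod, Fintype.card_coe, Fintype.card_fin]
      gcongr
      exact (Finset.card_filter_le _ _).trans hE1)
  have hs : ∑ l, ‖(p l : ℂ)‖ ≤ 7 * Fintype.card Λ ^ 2 * E0 := by
    refine (Finset.sum_le_card_nsmul _ _ _ fun l _ ↦ (Complex.norm_intCast _).trans_le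
      (hp1 l)).trans (le_of_eq ?_)
    rw [Finset.card_univ, nsmul_eq_mul]; ring
  have hσ : ∀ (σ : ℂ →+* ℂ) a b, σ (∑ l, p l * g e a b l) =
      ∑ l, p l * g (fun i ↦ σ (e i)) a b l := fun σ a b ↦ by
    simp only [map_sum, map_mul, map_intCast, hc]
  have liou : ∀ a b (B : ℝ), a + b ≤ 2 * n → ∑ l, p l * g e a b l ≠ 0 → 1 ≤ B →
      (∀ σ : ℂ →+* ℂ, ‖∑ l, p l * g (fun i ↦ σ (e i)) a b l‖ ≤ B) →
      1 ≤ ‖∑ l, p l * g e a b l‖ * B ^ A ^ Fintype.card I := fun a b B hab hne hB h ↦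
    liouville (IsIntegral.sum _ fun l _ ↦ (isIntegral_intCast _).mul (hi a b l hab)) hne
      ⟨E.image fun e' ↦ ∑ l, p l * g e' a b l, Finset.card_image_le.trans hE1, fun σ ↦ by
        rw [hσ]; exact Finset.mem_image_of_mem _ (hE2 σ)⟩ hB fun σ ↦ by rw [hσ]; exact h σ
  refine ⟨p, hp0, hs, fun a ha b hb' ↦ ?_, fun a b hab hne ↦ liou a b _ hab hne ?_ fun σ ↦ ?_⟩
  · have key : ∀ σ : ℂ →+* ℂ, ‖∑ l, p l * g (fun i ↦ σ (e i)) a b l‖ < 1 := fun σ ↦
      hp2 ⟨⟨_, Finset.mem_filter.2 ⟨hE2 σ, σ, rfl⟩⟩, ⟨a, ha⟩, ⟨b, hb'⟩⟩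
    by_contra hne
    have := liou a b 1 (by omega) hne le_rfl fun σ ↦ (key σ).le
    rw [one_pow, mul_one] at this
    exact absurd (key (RingHom.id ℂ)) (not_lt.2 this)
  · have h1 : (1 : ℝ) ≤ Fintype.card Λ := by exact_mod_cast hΛ
    exact one_le_mul_of_one_le_of_one_le (one_le_mul_of_one_le_of_one_le
      (one_le_mul_of_one_le_of_one_le (by norm_num) (one_le_pow₀ h1)) hE) hE
  · refine (norm_sum_le _ _).trans (le_trans ?_ (mul_le_mul_of_nonneg_right hs (by positivity)))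
    rw [Finset.sum_mul]
    refine Finset.sum_le_sum fun l _ ↦ ?_
    rw [norm_mul]
    exact mul_le_mul_of_nonneg_left (hb σ a b l hab) (norm_nonneg _)

/-- a common denominator -/
lemma denom {I : Type} [Fintype I] {e : I → ℂ} {A : ℕ} (he : ∀ i, Sm (e i) A) :
    ∃ D : ℕ, 0 < D ∧ (D : ℝ) ≤ Real.exp A ^ Fintype.card I ∧ ∀ i, IsIntegral ℤ (D * e i) := by
  classical
  choose d d0 d1 d2 using he
  refine ⟨∏ i, d i, Finset.prod_pos fun i _ ↦ d0 i, ?_, fun i ↦ ?_⟩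
  · rw [Nat.cast_prod, ← Finset.card_univ, ← Finset.prod_const]
    exact Finset.prod_le_prod (fun _ _ ↦ by positivity) fun i _ ↦ d1 i
  · rw [← Finset.prod_erase_mul _ _ (Finset.mem_univ i), Nat.cast_mul, mul_assoc]
    exact (SM1.isIntegral_nat _).mul (d2 i).1

lemma num1 {u : ℝ} {O n m : ℕ} (hu : 2 ≤ u) (hn : n ≤ u) (hm : m ≤ 8 * n) :
    (O * u) ^ 2 * m ≤ u ^ (2 * O + 6) := by
  have h1 : (O : ℝ) ≤ 2 ^ O := by exact_mod_cast Nat.lt_two_pow_self.le
  have h2 : (m : ℝ) ≤ 2 ^ 3 * n := by exact_mod_cast hm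
  calc _ ≤ (2 ^ O * u) ^ 2 * (2 ^ 3 * n) := by gcongr
    _ ≤ (u ^ O * u) ^ 2 * (u ^ 3 * u) := by gcongr
    _ = _ := by ring

lemma num2 {u : ℝ} {L n : ℕ} (hu : 2 ≤ u) (hn : n ≤ u) (hL : L ≤ n) (h1 : 1 ≤ n) :
    7 * (((L + 1) ^ 3 : ℕ) : ℝ) ^ 2 ≤ u ^ (15 * n) := by
  have h2 : (L : ℝ) + 1 ≤ 2 * n := by exact_mod_cast (by omega : L + 1 ≤ 2 * n)
  push_cast
  calc _ ≤ 2 ^ 3 * ((2 * n : ℝ) ^ 3) ^ 2 := by gcongr; norm_num
    _ ≤ u ^ 3 * ((u * u) ^ 3) ^ 2 := by gcongr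
    _ = u ^ 15 := by ring
    _ ≤ _ := pow_le_pow_right₀ (by linarith) (by omega)

lemma num3 {A n w N m : ℕ} (hA : 2 ≤ A) (hm : m ≤ n * (w * A ^ N)) :
    Real.exp A ^ m ≤ Real.exp (A ^ (w + N + 1) * n) := by
  rw [← Real.exp_nat_mul, Real.exp_le_exp]
  have h1 : w ≤ A ^ w := Nat.lt_two_pow_self.le.trans (Nat.pow_le_pow_left hA w)
  have h2 : m * A ≤ A ^ (w + N + 1) * n :=
    calc _ ≤ n * (A ^ w * A ^ N) * A := by gcongr; exact hm.trans (by gcongr)
      _ = _ := by ring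
  exact_mod_cast h2

lemma num4 {u D z : ℝ} {N n k P : ℕ} (hu : 1 ≤ u) (hD0 : 0 ≤ D) (hD : D ≤ u ^ N) (hz : 0 ≤ z)
    {C : ℝ} (hC0 : 0 ≤ C) (hC : C ≤ u ^ (15 * n)) (hP : 1 ≤ P)
    (h : 1 ≤ D ^ (10 * n) * z * (C * u ^ (k * n) * u ^ (k * n)) ^ P) :
    1 ≤ z * u ^ (n * ((10 * N + 2 * k + 15) * P)) :=
  calc _ ≤ _ := h
    _ ≤ (u ^ N) ^ (10 * n * P) * z * (u ^ (15 * n) * u ^ (k * n) * u ^ (k * n)) ^ P := by
      gcongr
      exact (pow_le_pow_left₀ hD0 hD _).trans (pow_le_pow_right₀ (one_le_pow₀ hu)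
        (Nat.le_mul_of_pos_right _ hP))
    _ = _ := by ring

end ARI

open ARI Pool.Agent.Lib.ZP3

theorem st_ARI : ARI := by
  intro ι _
  classical
  set N := Fintype.card (J ι)
  set O := Fintype.card (Option ι)
  set k := 10 * N + 4 * O + 18 with hk
  refine ⟨10 * N + 2 * k + 15 + N + 1, ?_⟩
  intro A n L T0 T2 x q1 q2 i hA hn hnA hL h0 h2 h4 hS hx hq1 hq2
  let e : J ι → ℂ := Sum.elim (x 0) (Sum.elim (fun t ↦ q1 t.1 t.2.1 t.2.2)
    fun t ↦ q2 t.1 t.2.1 t.2.2)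
  have he : ∀ t, Sm (e t) A := by
    rintro (j | t | t)
    exacts [hx j, hq1 _ _ _, hq2 _ _ _]
  obtain ⟨D, hD0, hD, hDi⟩ := denom he
  have hu : 2 ≤ Real.exp A := by
    have : (2 : ℝ) ≤ A := by exact_mod_cast hA
    linarith [Real.add_one_le_exp (A : ℝ)]
  have hu1 : 1 ≤ Real.exp A := by linarith
  have hP : 1 ≤ A ^ N := Nat.one_le_pow _ _ (by omega)
  let mon : (Fin 3 → Fin (L + 1)) → MvPolynomial ι ℂ := fun l ↦
    C 1 * X (i 0) ^ (2 * l 0 : ℕ) * X (i 1) ^ (2 * l 1 : ℕ) * X (i 2) ^ (2 * l 2 : ℕ)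
  have hdeg : ∀ l : Fin 3 → Fin (L + 1), 2 * l 0 + 2 * l 1 + 2 * (l 2 : ℕ) ≤ 6 * n := fun l ↦ by
    have h0 := (l 0).2
    have h1 := (l 1).2
    have h2 := (l 2).2
    omega
  have hmon : ∀ l, Bd (Real.exp A) (6 * n) (Real.exp A ^ (6 * n)) (mon l) := fun l ↦ by
    refine ((((Bd.const 1).mul_pow _ _).mul_pow _ _).mul_pow _ _).mono
      (by simpa using hdeg l) ?_
    rw [norm_one, one_mul, ← pow_add, ← pow_add]
    exact pow_le_pow_right₀ hu1 (hdeg l)
  have hIP : ∀ l, (D : ℂ) ^ (2 * l 0 + 2 * l 1 + 2 * l 2 : ℕ) • mon l ∈ IP ι D := fun l ↦ by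
    have e1 : (D : ℂ) ^ (2 * l 0 + 2 * l 1 + 2 * l 2 : ℕ) • mon l =
        ((D : ℂ) • X (i 0)) ^ (2 * l 0 : ℕ) * ((D : ℂ) • X (i 1)) ^ (2 * l 1 : ℕ) *
          ((D : ℂ) • X (i 2)) ^ (2 * l 2 : ℕ) := by
      simp only [mon, smul_eq_C_mul, map_pow, map_one]; ring
    rw [e1]
    exact mul_mem (mul_mem (pow_mem (X_mem _ _) _) (pow_mem (X_mem _ _) _))
      (pow_mem (X_mem _ _) _)
  have hcard : Fintype.card (Fin 3 → Fin (L + 1)) = (L + 1) ^ 3 := by simp
  obtain ⟨p, hp0, hp1, hp2, hp3⟩ := siegel (n := n) (T0 := T0) (T2 := T2)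
    (E0 := Real.exp A ^ (k * n)) (fun t ↦ (he t).deg)
    (fun e' a b l ↦ (D : ℂ) ^ (10 * n) * Gm e' a b (mon l)) (one_le_pow₀ hu1)
    (fun σ a b l ↦ by rw [map_mul, Gm_conj]; simp [mon])
    (fun a b l hab ↦ Gm_int hDi (hIP l) (by have := hdeg l; omega))
    (fun σ a b l hab ↦ by
      have h1 := Gm_bd hu1 (fun t ↦ ((he t).conj σ).norm_le) (hmon l) a b
        (num1 hu hnA (by omega))
      rw [norm_mul, norm_pow, Complex.norm_natCast]
      calc _ ≤ (Real.exp A ^ N) ^ (10 * n) * ((Real.exp A ^ (2 * O + 6)) ^ (2 * n) *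
            Real.exp A ^ (6 * n)) :=
          mul_le_mul (pow_le_pow_left₀ (Nat.cast_nonneg _) hD _) (h1.trans
            (mul_le_mul_of_nonneg_right (pow_le_pow_right₀ (one_le_pow₀ hu1) hab)
              (pow_nonneg (Real.exp_nonneg _) _))) (norm_nonneg _)
                (pow_nonneg (pow_nonneg (Real.exp_nonneg _) _) _)
        _ = _ := by rw [hk]; ring) h0 h2 (by rw [hcard]; exact Nat.pow_pos L.succ_pos) (by
      rw [hcard]
      exact le_trans (Nat.mul_le_mul_left _ (Nat.mul_le_mul_right _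
        (Nat.pow_le_pow_right (by omega) (by omega)))) h4)
  rw [hcard] at hp1 hp3
  have hC := num2 hu hnA hL hn
  let ν : (Fin 3 → Fin (L + 1)) → Fin 3 →₀ ℕ := fun l ↦
    Finsupp.equivFunOnFinite.symm fun i ↦ (l i : ℕ)
  have hν : Function.Injective ν := fun l l' h ↦ funext fun i ↦
    Fin.ext (congrFun (Finsupp.equivFunOnFinite.symm.injective h) i)
  let F : MvPolynomial (Fin 3) ℂ := ∑ l, monomial (ν l) (p l : ℂ)
  have hco : ∀ l, F.coeff (ν l) = p l := fun l ↦ by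
    simp only [F, coeff_sum, coeff_monomial, hν.eq_iff]
    simp
  have hsup : F.support ⊆ Finset.univ.image ν := fun m hm ↦ by
    obtain ⟨l, -, hl⟩ := Finset.mem_biUnion.1 (support_sum hm)
    rw [Finset.mem_singleton.1 (support_monomial_subset hl)]
    exact Finset.mem_image_of_mem _ (Finset.mem_univ l)
  have hF : ∀ y : ι → ℂ, eval (fun j ↦ y (i j) ^ 2) F = eval y (∑ l, (p l : ℂ) • mon l) :=
    fun y ↦ by
    rw [map_sum, map_sum]
    refine Finset.sum_congr rfl fun l _ ↦ ?_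
    rw [eval_monomial, Finsupp.prod_fintype _ _ (by simp), Fin.prod_univ_three, smul_eval]
    simp [mon, ν, pow_mul]
  have hI : ∀ a b, ∑ l, p l * ((D : ℂ) ^ (10 * n) * Gm e a b (mon l)) =
      (D : ℂ) ^ (10 * n) * I2 (fun z ↦ eval (fun j ↦ x z (i j) ^ 2) F) a b := fun a b ↦ by
    simp only [hF]
    rw [I2_eval hS, map_sum, map_sum, map_sum, Finset.mul_sum]
    refine Finset.sum_congr rfl fun l _ ↦ ?_
    rw [map_smul, map_smul, smul_eval, mul_left_comm]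
    rfl
  have hD1 : (D : ℂ) ^ (10 * n) ≠ 0 := pow_ne_zero _ (by exact_mod_cast hD0.ne')
  refine ⟨F, fun h ↦ hp0 (funext fun l ↦ ?_), fun j ↦ degreeOf_le_iff.2 fun m hm ↦ ?_, ?_,
    fun a ha b hb ↦ ?_, fun a b hab hne ↦ ?_⟩
  · have := hco l
    rw [h, coeff_zero] at this
    exact_mod_cast this.symm
  · obtain ⟨l, -, rfl⟩ := Finset.mem_image.1 (hsup hm)
    exact Nat.lt_succ_iff.1 (l j).2
  · refine (Finset.sum_le_sum_of_subset_of_nonneg hsup fun _ _ _ ↦ norm_nonneg _).trans ?_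
    rw [Finset.sum_image fun _ _ _ _ h ↦ hν h]
    simp only [hco]
    refine hp1.trans ((mul_le_mul_of_nonneg_right hC (pow_nonneg (Real.exp_nonneg _) _)).trans ?_)
    rw [← pow_add]
    refine num3 hA (le_trans ?_ (Nat.mul_le_mul_left n (Nat.le_mul_of_pos_right _ hP)))
    rw [← add_mul, mul_comm]
    exact Nat.mul_le_mul_left n (by omega)
  · have := hp2 a ha b hb
    rw [hI] at this
    exact (mul_eq_zero.1 this).resolve_left hD1
  · have := hp3 a b (by omega) (by rw [hI]; exact mul_ne_zero hD1 hne)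
    rw [hI, norm_mul, norm_pow, Complex.norm_natCast] at this
    have h5 := (num4 hu1 (Nat.cast_nonneg D) hD (norm_nonneg _)
      (mul_nonneg (by norm_num) (sq_nonneg _)) hC hP this).trans
      (mul_le_mul_of_nonneg_left (num3 hA le_rfl) (norm_nonneg _))
    rw [Real.exp_neg, inv_eq_one_div, div_le_iff₀ (Real.exp_pos _)]
    exact h5

end Pool.Agent.Lib.ECM.PT
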