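import Pool.Agent.Lib.ECM.PTDefs
import Pool.Agent.Lib.ZP3.WdExA
import Pool.Agent.Lib.MP_15b3df_nt.RV02

/-! Block ELL: theta functions of even level are polynomials in the Weierstrass functions. -/

open UpperHalfPlane hiding I
open Filter Topology Complex PeriodPair
open scoped Real

noncomputable section

namespace Pool.Agent.Lib.ECM.PT

open Pool.Agent.Lib.ZP3

namespace ELL

variable {L : PeriodPair}

/-- elliptic functions with poles of order at most `n` on the lattice, leading coefficient `c` -/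
def E (L : PeriodPair) (n : ℕ) (f : ℂ → ℂ) (c : ℂ) : Prop :=
  (∀ z ∉ L.lattice, DifferentiableAt ℂ f z) ∧ (∀ l ∈ L.lattice, ∀ z, f (z + l) = f z) ∧
    ∃ g, AnalyticAt ℂ g 0 ∧ g 0 = c ∧ ∀ᶠ z in 𝓝[≠] 0, z ^ n * f z = g z

theorem E.lin {n : ℕ} {f f' : ℂ → ℂ} {c c' : ℂ} (h : E L n f c) (h' : E L n f' c') (k : ℂ) :
    E L n (fun z ↦ f z - k * f' z) (c - k * c') := by
  obtain ⟨a, b, g, d, rfl, e⟩ := h
  obtain ⟨a', b', g', d', rfl, e'⟩ := h'
  refine ⟨fun z hz ↦ (a z hz).sub ((a' z hz).const_mul k),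
    fun l hl z ↦ by simp only [b l hl, b' l hl],
    fun z ↦ g z - k * g' z, d.sub (analyticAt_const.mul d'), rfl, ?_⟩
  filter_upwards [e, e'] with z h1 h2
  rw [← h1, ← h2]
  ring

theorem E.mul {n m : ℕ} {f f' : ℂ → ℂ} {c c' : ℂ} (h : E L n f c) (h' : E L m f' c') :
    E L (n + m) (fun z ↦ f z * f' z) (c * c') := by
  obtain ⟨a, b, g, d, rfl, e⟩ := h
  obtain ⟨a', b', g', d', rfl, e'⟩ := h'
  refine ⟨fun z hz ↦ (a z hz).mul (a' z hz), fun l hl z ↦ by simp only [b l hl, b' l hl],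
    fun z ↦ g z * g' z, d.mul d', rfl, ?_⟩
  filter_upwards [e, e'] with z h1 h2
  rw [← h1, ← h2]
  ring

theorem E.pow {n : ℕ} {f : ℂ → ℂ} {c : ℂ} (h : E L n f c) :
    ∀ k, E L (n * k) (fun z ↦ f z ^ k) (c ^ k)
  | 0 => ⟨fun z _ ↦ by simp, fun _ _ _ ↦ by simp, fun _ ↦ 1, analyticAt_const, by simp, by simp⟩
  | k + 1 => by simpa only [pow_succ, mul_add, mul_one] using (h.pow k).mul h

theorem E_X : E L 2 ℘[L] 1 := by
  refine ⟨fun z hz ↦ (WDE.wp_dX L hz).differentiableAt,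
    fun l hl z ↦ L.weierstrassP_add_coe z ⟨l, hl⟩, fun z ↦ z ^ 2 * ℘[L - (0 : ℂ)] z + 1,
    ((analyticAt_id.pow 2).mul (L.analyticAt_weierstrassPExcept 0)).add analyticAt_const,
    by simp, ?_⟩
  filter_upwards [self_mem_nhdsWithin] with z hz
  have hz' : z ≠ 0 := hz
  have := L.weierstrassPExcept_add 0 z
  simp only [ZeroMemClass.coe_zero] at this
  rw [← this]
  field_simp
  ring

theorem E_Y : E L 3 ℘'[L] (-2) := by
  refine ⟨fun z hz ↦ (WDE.wp_dY L hz).differentiableAt,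
    fun l hl z ↦ L.derivWeierstrassP_add_coe z ⟨l, hl⟩, fun z ↦ z ^ 3 * ℘'[L - (0 : ℂ)] z - 2,
    ((analyticAt_id.pow 3).mul (L.analyticAt_derivWeierstrassPExcept 0)).sub analyticAt_const,
    by simp, ?_⟩
  filter_upwards [self_mem_nhdsWithin] with z hz
  have hz' : z ≠ 0 := hz
  have := L.derivWeierstrassPExcept_sub 0 z
  simp only [ZeroMemClass.coe_zero] at this
  rw [← this]
  field_simp
  ring

theorem an_dslope {g : ℂ → ℂ} (h : AnalyticAt ℂ g 0) : AnalyticAt ℂ (dslope g 0) 0 := by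
  obtain ⟨p, hp⟩ := h
  exact ⟨_, hp.has_fpower_series_dslope_fslope⟩

theorem mul_dslope {g : ℂ → ℂ} (h : g 0 = 0) (z : ℂ) : z * dslope g 0 z = g z := by
  simpa [h] using sub_smul_dslope g 0 z

theorem E.down {n : ℕ} {f : ℂ → ℂ} (h : E L (n + 1) f 0) : ∃ c, E L n f c := by
  obtain ⟨a, b, g, d, h0, e⟩ := h
  refine ⟨_, a, b, dslope g 0, an_dslope d, rfl, ?_⟩
  filter_upwards [e, self_mem_nhdsWithin] with z h1 hz
  refine mul_left_cancel₀ (show z ≠ 0 from hz) ?_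
  rw [mul_dslope h0, ← h1]
  ring

theorem E.uniq {n : ℕ} {f : ℂ → ℂ} {c c' : ℂ} (h : E L n f c) (h' : E L n f c') : c = c' := by
  obtain ⟨-, -, g, d, rfl, e⟩ := h
  obtain ⟨-, -, g', d', rfl, e'⟩ := h'
  refine tendsto_nhds_unique_of_eventuallyEq (l := 𝓝[≠] (0 : ℂ))
    (d.continuousAt.tendsto.mono_left nhdsWithin_le_nhds)
    (d'.continuousAt.tendsto.mono_left nhdsWithin_le_nhds) ?_
  filter_upwards [e, e'] with z h1 h2
  rw [← h1, h2]

theorem E.neg {n : ℕ} {f : ℂ → ℂ} {c : ℂ} (h : E L n f c) :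
    E L n (fun z ↦ f (-z)) ((-1) ^ n * c) := by
  obtain ⟨a, b, g, d, rfl, e⟩ := h
  refine ⟨fun z hz ↦ (a (-z) fun h ↦ hz (by simpa using h)).comp z differentiableAt_id.neg,
    fun l hl z ↦ by simp only [neg_add, b _ (neg_mem hl)], fun z ↦ (-1) ^ n * g (-z),
    analyticAt_const.mul (d.comp_of_eq analyticAt_id.neg (by simp)), by simp, ?_⟩
  have t : Tendsto (fun z : ℂ ↦ -z) (𝓝[≠] 0) (𝓝[≠] 0) :=
    tendsto_nhdsWithin_iff.2 ⟨(continuous_neg.tendsto' 0 0 neg_zero).mono_left nhdsWithin_le_nhds,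
      eventually_mem_nhdsWithin.mono fun z hz ↦ neg_ne_zero.2 hz⟩
  filter_upwards [t.eventually e] with z h1
  rw [← h1, ← mul_assoc, ← mul_pow]
  simp

theorem E.const {f : ℂ → ℂ} {c : ℂ} (h : E L 0 f c) {z : ℂ} (hz : z ∉ L.lattice) : f z = c := by
  classical
  obtain ⟨a, b, g, d, rfl, e⟩ := h
  set F : ℂ → ℂ := fun z ↦ if z ∈ L.lattice then g 0 else f z with hF
  have per : ∀ z w, w ∈ L.lattice → F (z + w) = F z := fun z w hw ↦ by
    simp only [hF, add_mem_cancel_right hw, b w hw]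
  have h0 : F =ᶠ[𝓝 0] g := by
    refine eventually_nhdsWithin_iff.1 ((WDE.wdOf L).ev_notMem_zero.and e) |>.mono fun w hw ↦ ?_
    by_cases h : w = 0
    · simp [hF, h]
    · have h1 : w ∉ L.lattice := (hw h).1
      simpa [hF, h1] using (hw h).2
  have hd : Differentiable ℂ F := fun w ↦ by
    by_cases hw : w ∈ L.lattice
    · have h1 : DifferentiableAt ℂ F (w + -w) := by
        rw [add_neg_cancel]
        exact d.differentiableAt.congr_of_eventuallyEq h0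
      have h2 := h1.comp w (differentiableAt_id.add_const (-w))
      exact h2.congr_of_eventuallyEq (Eventually.of_forall fun v ↦ (per v _ (neg_mem hw)).symm)
    · refine (a w hw).congr_of_eventuallyEq ?_
      filter_upwards [L.isClosed_lattice.isOpen_compl.mem_nhds hw] with v hv
      exact if_neg hv
  have := hd.apply_eq_apply_of_bounded
    (IsZLattice.isCompact_range_of_periodic L.lattice _ hd.continuous per).isBounded z 0
  simpa [hF, hz] using this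

theorem odd_half {φ : ℂ → ℂ} (ho : ∀ z, φ (-z) = -φ z) {ω : ℂ} (hp : ∀ z, φ (z + ω) = φ z) :
    φ (ω / 2) = 0 := by
  have := hp (-(ω / 2))
  rw [ho, show -(ω / 2) + ω = ω / 2 by ring] at this
  linear_combination this / 2

/-- no simple poles -/
theorem E.simple {f : ℂ → ℂ} {c : ℂ} (h : E L 1 f c) : c = 0 := by
  have h1 := h.lin h.neg 1
  have h2 := (h1.mul h1).lin E_X (4 * c ^ 2)
  rw [show (c - 1 * ((-1) ^ 1 * c)) * (c - 1 * ((-1) ^ 1 * c)) - 4 * c ^ 2 * 1 = 0 by ring] at h2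
  obtain ⟨c1, h3⟩ := h2.down
  have h4 := h3.neg
  simp only [neg_neg, L.weierstrassP_neg] at h4
  have h5 : c1 = (-1) ^ 1 * c1 := h3.uniq (by
    refine (congrArg (fun u ↦ E L 1 u _) (funext fun z ↦ ?_)).mp h4
    ring)
  obtain rfl : c1 = 0 := by linear_combination h5 / 2
  obtain ⟨k, h6⟩ := h3.down
  have a1 := h6.const L.ω₁_div_two_notMem_lattice
  have a2 := h6.const L.ω₂_div_two_notMem_lattice
  have b1 := odd_half (φ := fun z ↦ f z - 1 * f (-z)) (fun z ↦ by simp) (h1.2.1 _ L.ω₁_mem_lattice)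
  have b2 := odd_half (φ := fun z ↦ f z - 1 * f (-z)) (fun z ↦ by simp) (h1.2.1 _ L.ω₂_mem_lattice)
  rw [b1] at a1
  rw [b2] at a2
  by_contra hc
  have hX : ℘[L] (L.ω₁ / 2) = ℘[L] (L.ω₂ / 2) :=
    mul_left_cancel₀ (pow_ne_zero 2 hc) (by linear_combination (a2 - a1) / 4)
  have hY : ℘'[L] (L.ω₁ / 2) = ℘'[L] (L.ω₂ / 2) := by
    rw [odd_half L.derivWeierstrassP_neg (E_Y.2.1 _ L.ω₁_mem_lattice),
      odd_half L.derivWeierstrassP_neg (E_Y.2.1 _ L.ω₂_mem_lattice)]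
  have h7 : L.ω₁ / 2 - L.ω₂ / 2 ∈ L.lattice :=
    (WDE.wdOf L).inj L.ω₁_div_two_notMem_lattice L.ω₂_div_two_notMem_lattice hX hY
  have h8 := (L.mul_ω₁_add_mul_ω₂_mem_lattice (α := 1 / 2) (β := -1 / 2)).1 (by
    refine (congrArg (· ∈ L.lattice) ?_).mp h7
    push_cast
    ring)
  norm_num at h8

/-- the span of the monomials of weight at most `n`, times a weight function -/
def Sp (L : PeriodPair) (w : ℂ → ℂ) (n : ℕ) : Submodule ℂ ({z // z ∉ L.lattice} → ℂ) :=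
  Submodule.span ℂ ((fun p : ℕ × ℕ ↦ fun z ↦ w z.1 * (℘[L] z.1 ^ p.1 * ℘'[L] z.1 ^ p.2)) ''
    {p | 2 * p.1 + 3 * p.2 ≤ n})

theorem Sp_fin (w : ℂ → ℂ) (n : ℕ) : FiniteDimensional ℂ (Sp L w n) := by
  refine FiniteDimensional.span_of_finite ℂ (Set.Finite.image _ ?_)
  refine ((Set.finite_Iic n).prod (Set.finite_Iic n)).subset fun p hp ↦ ?_
  have : 2 * p.1 + 3 * p.2 ≤ n := hp
  exact ⟨show p.1 ≤ n by omega, show p.2 ≤ n by omega⟩

theorem E.mem (w : ℂ → ℂ) : ∀ (n : ℕ) {f : ℂ → ℂ} {c : ℂ}, E L n f c →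
    (fun z : {z // z ∉ L.lattice} ↦ w z.1 * f z.1) ∈ Sp L w n
  | 0, f, c, h => by
    have := Submodule.smul_mem (Sp L w 0) c (Submodule.subset_span ⟨(0, 0), by simp, rfl⟩)
    refine (congrArg (· ∈ Sp L w 0) (funext fun z ↦ ?_)).mp this
    simp [h.const z.2, mul_comm]
  | n + 1, f, c, h => by
    have mono : Sp L w n ≤ Sp L w (n + 1) :=
      Submodule.span_mono (Set.image_mono fun p (hp : _ ≤ n) ↦ hp.trans n.le_succ)
    rcases n.eq_zero_or_pos with rfl | hn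
    · obtain rfl := h.simple
      obtain ⟨c', h'⟩ := h.down
      exact mono (E.mem w 0 h')
    · obtain ⟨a, b, hab⟩ : ∃ a b, 2 * a + 3 * b = n + 1 :=
        ⟨(n + 1 - 3 * ((n + 1) % 2)) / 2, (n + 1) % 2, by omega⟩
      have h1 := ((E_X (L := L)).pow a).mul (E_Y.pow b)
      rw [hab] at h1
      have h2 := h.lin h1 (c / (-2) ^ b)
      rw [one_pow, one_mul, div_mul_cancel₀ _ (pow_ne_zero _ (by norm_num)), sub_self] at h2
      obtain ⟨c', h'⟩ := h2.down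
      have := add_mem (mono (E.mem w n h')) (Submodule.smul_mem (Sp L w (n + 1)) (c / (-2) ^ b)
        (Submodule.subset_span ⟨(a, b), hab.le, rfl⟩))
      refine (congrArg (· ∈ Sp L w (n + 1)) (funext fun z ↦ ?_)).mp this
      simp only [Pi.add_apply, Pi.smul_apply, smul_eq_mul]
      ring

theorem Mv_pow {d : Fin 3 → ℕ} {f : R} (h : f ∈ TR.Mv d) : ∀ k : ℕ, f ^ k ∈ TR.Mv (k • d)
  | 0 => by simpa using TR.one_mem_Mv 0
  | k + 1 => by
    rw [pow_succ, succ_nsmul]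
    exact TR.Mv_mul (Mv_pow h k) h

theorem Sp_poly {w : ℂ → ℂ} {n : ℕ} (i : Fin 3) {f : {z // z ∉ L.lattice} → ℂ}
    (h : f ∈ Sp L w n) : ∃ r ∈ TR.Mv (Pi.single i n), ∀ (W : Fin 3 → WD) (z : Fin 3 → ℂ),
      W i = WDE.wdOf L → ∀ hz : z i ∉ L.lattice, f ⟨z i, hz⟩ = w (z i) * ev W z r := by
  induction h using Submodule.span_induction with
  | mem f hf =>
    obtain ⟨p, hp, rfl⟩ := hf
    have hp' : 2 * p.1 + 3 * p.2 ≤ n := hp
    refine ⟨_, TR.Mv_mono (fun j ↦ ?_) (TR.Mv_mul (Mv_pow (TR.X_mem_Mv i) p.1)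
      (Mv_pow (TR.Y_mem_Mv i) p.2)), fun W z hW hz ↦ ?_⟩
    · by_cases hj : j = i
      · subst hj
        simp only [Pi.add_apply, Pi.smul_apply, Pi.single_eq_same, smul_eq_mul]
        omega
      · simp [hj]
    · rw [map_mul, map_pow, map_pow, ev_inl, ev_inr, hW]
      rfl
  | zero => exact ⟨0, zero_mem _, fun W z _ _ ↦ by simp⟩
  | add f g _ _ hf hg =>
    obtain ⟨r, a, b⟩ := hf
    obtain ⟨r', a', b'⟩ := hg
    exact ⟨r + r', add_mem a a', fun W z hW hz ↦ by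
      rw [Pi.add_apply, b W z hW hz, b' W z hW hz, map_add, mul_add]⟩
  | smul c f _ hf =>
    obtain ⟨r, a, b⟩ := hf
    exact ⟨c • r, Submodule.smul_mem _ c a, fun W z hW hz ↦ by
      rw [Pi.smul_apply, b W z hW hz, MvPolynomial.smul_eq_C_mul, map_mul, ev_C, smul_eq_mul]
      ring⟩

/-- separation of variables -/
theorem separate {α β : Type} (V : Submodule ℂ (α → ℂ)) (U : Submodule ℂ (β → ℂ))
    [FiniteDimensional ℂ V] (G : α → β → ℂ) (h1 : ∀ y, (fun x ↦ G x y) ∈ V) (h2 : ∀ x, G x ∈ U) :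
    ∃ (m : ℕ) (v : Fin m → α → ℂ) (u : Fin m → β → ℂ), (∀ j, v j ∈ V) ∧ (∀ j, u j ∈ U) ∧
      ∀ x y, G x y = ∑ j, v j x * u j y := by
  set b := Module.finBasis ℂ V
  have hs : Submodule.span ℂ (Set.range fun x : α ↦ (LinearMap.proj x).comp V.subtype) = ⊤ :=
    Submodule.span_eq_top_of_ne_zero fun z hz ↦ by
      by_contra hc
      push Not at hc
      exact hz (Subtype.ext (funext fun x ↦ hc _ ⟨x, rfl⟩))
  have key : ∀ φ : V →ₗ[ℂ] ℂ, (fun y ↦ φ ⟨_, h1 y⟩) ∈ U := fun φ ↦ by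
    have hφ : φ ∈ Submodule.span ℂ (Set.range fun x : α ↦ (LinearMap.proj x).comp V.subtype) :=
      hs ▸ Submodule.mem_top
    induction hφ using Submodule.span_induction with
    | mem φ hφ =>
      obtain ⟨x, rfl⟩ := hφ
      exact h2 x
    | zero => exact zero_mem U
    | add φ ψ _ _ a a' => exact add_mem a a'
    | smul c φ _ a => exact U.smul_mem c a
  refine ⟨_, fun j ↦ b j, fun j y ↦ b.coord j ⟨_, h1 y⟩, fun j ↦ (b j).2, fun j ↦ key _,
    fun x y ↦ ?_⟩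
  have := congrFun (congrArg Subtype.val (b.sum_repr ⟨_, h1 y⟩)) x
  simp only [Submodule.coe_sum, Finset.sum_apply, Submodule.coe_smul, Pi.smul_apply,
    smul_eq_mul] at this
  rw [← this]
  exact Finset.sum_congr rfl fun j _ ↦ mul_comm _ _

/-- the odd theta function -/
def vt (t z : ℂ) : ℂ := exp (-(π * I * z)) * RV6.th (exp (2 * π * I * t)) (exp (2 * π * I * z))

theorem nome (t : ℍ) : ‖exp (2 * π * I * t)‖ < 1 := norm_exp_two_pi_I_lt_one t

theorem vt_deriv (t : ℍ) (z : ℂ) : HasDerivAt (vt t) (-(π * I) * vt t z + exp (-(π * I * z)) *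
    (deriv (RV6.th (exp (2 * π * I * t))) (exp (2 * π * I * z)) *
      (exp (2 * π * I * z) * (2 * π * I)))) z := by
  have h1 : HasDerivAt (fun z : ℂ ↦ exp (-(π * I * z))) (exp (-(π * I * z)) * -(π * I)) z := by
    simpa using ((hasDerivAt_id z).const_mul (π * I)).neg.cexp
  have h2 : HasDerivAt (fun z : ℂ ↦ exp (2 * π * I * z)) (exp (2 * π * I * z) * (2 * π * I)) z := by
    simpa using ((hasDerivAt_id z).const_mul (2 * π * I)).cexp
  have h3 := ((RV6.differentiableOn_th (nome t)).differentiableAt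
    (isOpen_compl_singleton.mem_nhds (exp_ne_zero (2 * π * I * z)))).hasDerivAt.comp z h2
  refine (h1.mul h3).congr_deriv ?_
  simp only [vt, Function.comp]
  ring

theorem vt_diff (t : ℍ) : Differentiable ℂ (vt t) := fun z ↦ (vt_deriv t z).differentiableAt

theorem vt_zero (t : ℍ) : vt t 0 = 0 := by simp [vt, RV6.th_one (nome t)]

theorem vt_simple (t : ℍ) : deriv (vt t) 0 ≠ 0 := by
  rw [(vt_deriv t 0).deriv, vt_zero]
  have := RV6.deriv_th_ne (nome t) (exp_ne_zero _) one_ne_zero (RV6.th_one (nome t))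
  simpa [Real.pi_ne_zero] using this

theorem vt_one (t z : ℂ) : vt t (z + 1) = -vt t z := by
  rw [vt, vt, mul_add, mul_add, neg_add, exp_add, exp_add, mul_one, mul_one, exp_two_pi_mul_I,
    exp_neg (π * I), exp_pi_mul_I]
  ring

theorem vt_per (t : ℍ) (z : ℂ) : vt t (z + t) = -(exp (-(π * I * (t + 2 * z))) * vt t z) := by
  rw [vt, vt, mul_add (2 * π * I : ℂ), exp_add, mul_comm (exp (2 * π * I * z)),
    RV6.th_mul (nome t) (exp_ne_zero _) (exp_ne_zero _), ← exp_neg, ← mul_assoc, ← mul_assoc,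
    mul_neg, ← exp_add, ← exp_add, neg_mul]
  rw [show -(π * I * (z + t)) + -(2 * π * I * z) = -(π * I * (t + 2 * z)) + -(π * I * z) by ring]

theorem vt_ne (t : ℍ) {z : ℂ} (hz : z ∉ (WDE.pp t one_ne_zero).lattice) : vt t z ≠ 0 := by
  refine mul_ne_zero (exp_ne_zero _) fun h ↦ hz ?_
  obtain ⟨n, hn⟩ := RV6.th_eq_zero (nome t) (exp_ne_zero _) (exp_ne_zero _) h
  rw [← exp_int_mul, exp_eq_exp_iff_exists_int] at hn
  obtain ⟨m, hm⟩ := hn
  exact (WDE.mem_pp t _ z).2 ⟨m, n, mul_left_cancel₀ two_pi_I_ne_zero (by linear_combination hm)⟩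

theorem qp_mem (t : ℍ) {n : ℕ} (hn : Even n) {s : ℂ → ℂ} (h : QP t n s) :
    (fun z : {z // z ∉ (WDE.pp t one_ne_zero).lattice} ↦ s z.1) ∈
      Sp (WDE.pp t one_ne_zero) (fun z ↦ vt t z ^ n) n := by
  obtain ⟨a, b, c⟩ := h
  have p1 : Function.Periodic (fun z ↦ s z / vt t z ^ n) 1 := fun z ↦ by
    simp only [b, vt_one, hn.neg_pow]
  have p2 : Function.Periodic (fun z ↦ s z / vt t z ^ n) t := fun z ↦ by
    simp only [c, vt_per, hn.neg_pow, mul_pow, ← exp_nat_mul]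
    rw [show (n : ℂ) * -(π * I * (t + 2 * z)) = -(π * I * n * (t + 2 * z)) by ring,
      mul_div_mul_left _ _ (exp_ne_zero _)]
  have hu := an_dslope ((vt_diff t).analyticAt 0)
  have hu0 : dslope (vt t) 0 0 ≠ 0 := by
    rw [dslope_same]
    exact vt_simple t
  have hE : E (WDE.pp t one_ne_zero) n (fun z ↦ s z / vt t z ^ n)
      (s 0 / dslope (vt t) 0 0 ^ n) := by
    refine ⟨fun z hz ↦ (a z).div ((vt_diff t z).pow n) (pow_ne_zero _ (vt_ne t hz)),
      fun l hl z ↦ ?_, fun z ↦ s z / dslope (vt t) 0 z ^ n,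
      (a.analyticAt 0).div (hu.pow n) (pow_ne_zero _ hu0), rfl, ?_⟩
    · obtain ⟨m, k, rfl⟩ := (WDE.mem_pp t _ l).1 hl
      simpa using ((p1.int_mul m).add_period (p2.int_mul k)) z
    · filter_upwards [self_mem_nhdsWithin] with z hz
      rw [← mul_dslope (vt_zero t) z, mul_pow, ← mul_div_assoc,
        mul_div_mul_left _ _ (pow_ne_zero _ (show z ≠ 0 from hz))]
  refine (congrArg (· ∈ Sp _ _ n) (funext fun z ↦ ?_)).mp (hE.mem (fun z ↦ vt t z ^ n) n)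
  exact mul_div_cancel₀ _ (pow_ne_zero _ (vt_ne t z.2))

end ELL

open ELL in
theorem st_ELL : ELL := fun t1 t2 ↦ by
  refine ⟨WDE.wdOf (WDE.pp t1 one_ne_zero), WDE.wdOf (WDE.pp t2 one_ne_zero), vt t1, vt t2,
    (WDE.isEll_pp t1 _).1, (WDE.isEll_pp t2 _).1, vt_diff t1, vt_diff t2, fun z ↦ vt_ne t1,
    fun z ↦ vt_ne t2, fun n G hn h1 h2 ↦ ?_⟩
  have := Sp_fin (L := WDE.pp t1 one_ne_zero) (fun z ↦ vt t1 z ^ n) n
  obtain ⟨m, v, u, hv, hu, hG⟩ := separate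
    (Sp (WDE.pp t1 one_ne_zero) (fun z ↦ vt t1 z ^ n) n)
    (Sp (WDE.pp t2 one_ne_zero) (fun z ↦ vt t2 z ^ n) n) (fun x y ↦ G x.1 y.1)
    (fun y ↦ qp_mem t1 hn (h1 y.1)) fun x ↦ qp_mem t2 hn (h2 x.1)
  choose r1 a1 b1 using fun j ↦ Sp_poly 1 (hv j)
  choose r2 a2 b2 using fun j ↦ Sp_poly 2 (hu j)
  refine ⟨∑ j, r1 j * r2 j, Submodule.sum_mem _ fun j _ ↦
    TR.Mv_mono (fun i ↦ by fin_cases i <;> simp) (TR.Mv_mul (a1 j) (a2 j)), fun W0 z k1 k2 ↦ ?_⟩
  rw [hG ⟨z 1, k1⟩ ⟨z 2, k2⟩, map_sum, Finset.mul_sum]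
  refine Finset.sum_congr rfl fun j _ ↦ ?_
  rw [b1 j ![W0, WDE.wdOf (WDE.pp t1 one_ne_zero), WDE.wdOf (WDE.pp t2 one_ne_zero)] z rfl k1,
    b2 j ![W0, WDE.wdOf (WDE.pp t1 one_ne_zero), WDE.wdOf (WDE.pp t2 one_ne_zero)] z rfl k2,
    map_mul]
  ring

end Pool.Agent.Lib.ECM.PT
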