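import Pool.Agent.Lib.ECM.PTDefs
import Pool.Agent.Lib.ZP3.BakerAn1

/-! Block JT: calculus of jets in two variables. -/

open Filter Topology

noncomputable section

namespace Pool.Agent.Lib.ECM.PT

open Pool.Agent.Lib.ZP3

namespace JT

/-- directional derivative -/
def D (v : ℂ × ℂ) (Ψ : ℂ × ℂ → ℂ) (q : ℂ × ℂ) : ℂ := fderiv ℂ Ψ q v

lemma anD (v : ℂ × ℂ) {Ψ : ℂ × ℂ → ℂ} {q : ℂ × ℂ} (h : AnalyticAt ℂ Ψ q) :
    AnalyticAt ℂ (D v Ψ) q :=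
  (ContinuousLinearMap.apply ℂ ℂ v).analyticAt _ |>.comp h.fderiv

lemma D_comm (v w : ℂ × ℂ) {Ψ : ℂ × ℂ → ℂ} {q : ℂ × ℂ} (h : AnalyticAt ℂ Ψ q) :
    D v (D w Ψ) q = D w (D v Ψ) q := by
  have h1 : ∀ v w : ℂ × ℂ, D v (D w Ψ) q = fderiv ℂ (fderiv ℂ Ψ) q v w := by
    intro v w
    unfold D
    rw [fderiv_clm_apply h.fderiv.differentiableAt (differentiableAt_const w)]
    simp
  rw [h1, h1]
  exact (h.contDiffAt (n := ⊤)).isSymmSndFDerivAt le_top |>.eq v w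

lemma I2_congr {Ψ Ψ' : ℂ × ℂ → ℂ} (a b : ℕ) (h : Ψ =ᶠ[𝓝 0] Ψ') : I2 Ψ a b = I2 Ψ' a b := by
  unfold I2
  refine Filter.EventuallyEq.iteratedDeriv_eq a ?_
  have h1 : ∀ᶠ q in 𝓝 ((0 : ℂ), (0 : ℂ)), Ψ q = Ψ' q := h
  filter_upwards [h1.curry_nhds] with s hs
  exact Filter.EventuallyEq.iteratedDeriv_eq b hs

lemma succ_right {Ψ : ℂ × ℂ → ℂ} (h : AnalyticAt ℂ Ψ 0) (a b : ℕ) :
    I2 Ψ a (b + 1) = I2 (D (0, 1) Ψ) a b := by
  unfold I2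
  refine Filter.EventuallyEq.iteratedDeriv_eq a ?_
  have h1 : ∀ᶠ q in 𝓝 ((0 : ℂ), (0 : ℂ)), AnalyticAt ℂ Ψ q := h.eventually_analyticAt
  filter_upwards [h1.curry_nhds] with s hs
  rw [iteratedDeriv_succ']
  refine Filter.EventuallyEq.iteratedDeriv_eq b ?_
  filter_upwards [hs] with y hy
  have h3 : HasDerivAt (fun y : ℂ ↦ (s, y)) ((0 : ℂ), (1 : ℂ)) y :=
    (hasDerivAt_const _ _).prodMk (hasDerivAt_id _)
  exact (hy.differentiableAt.hasFDerivAt.comp_hasDerivAt y h3).deriv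

lemma succ_left (a b : ℕ) : ∀ {Ψ : ℂ × ℂ → ℂ}, AnalyticAt ℂ Ψ 0 →
    I2 Ψ (a + 1) b = I2 (D (1, 0) Ψ) a b := by
  induction b with
  | zero =>
    intro Ψ h
    unfold I2
    simp only [iteratedDeriv_zero]
    rw [iteratedDeriv_succ']
    refine Filter.EventuallyEq.iteratedDeriv_eq a ?_
    have h1 : ∀ᶠ q in 𝓝 ((0 : ℂ), (0 : ℂ)), AnalyticAt ℂ Ψ q := h.eventually_analyticAt
    filter_upwards [h1.curry_nhds] with s hs
    have h3 : HasDerivAt (fun s : ℂ ↦ (s, (0 : ℂ))) ((1 : ℂ), (0 : ℂ)) s :=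
      (hasDerivAt_id _).prodMk (hasDerivAt_const _ _)
    exact (hs.self_of_nhds.differentiableAt.hasFDerivAt.comp_hasDerivAt s h3).deriv
  | succ b ih =>
    intro Ψ h
    rw [succ_right h, ih (anD _ h), succ_right (anD _ h)]
    refine I2_congr a b ?_
    filter_upwards [h.eventually_analyticAt] with q hq
    exact D_comm _ _ hq

lemma an_inner {Ψ : ℂ × ℂ → ℂ} (h : AnalyticAt ℂ Ψ 0) (b : ℕ) :
    AnalyticAt ℂ (fun s ↦ iteratedDeriv b (fun y ↦ Ψ (s, y)) 0) 0 :=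
  AnalyticAt.comp (g := fun q : ℂ × ℂ ↦ iteratedDeriv b (fun y ↦ Ψ (q.1, y)) q.2)
    (f := fun s : ℂ ↦ (s, (0 : ℂ))) (x := 0) (BAN.analytic_iter b h)
    (analyticAt_id.prod analyticAt_const)

lemma I2_add {f g : ℂ × ℂ → ℂ} (hf : AnalyticAt ℂ f 0) (hg : AnalyticAt ℂ g 0) (a b : ℕ) :
    I2 (fun q ↦ f q + g q) a b = I2 f a b + I2 g a b := by
  unfold I2
  rw [← iteratedDeriv_fun_add (an_inner hf b).contDiffAt (an_inner hg b).contDiffAt]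
  refine Filter.EventuallyEq.iteratedDeriv_eq a ?_
  have h1 : ∀ᶠ q in 𝓝 ((0 : ℂ), (0 : ℂ)), AnalyticAt ℂ f q := hf.eventually_analyticAt
  have h2 : ∀ᶠ q in 𝓝 ((0 : ℂ), (0 : ℂ)), AnalyticAt ℂ g q := hg.eventually_analyticAt
  filter_upwards [h1.curry_nhds, h2.curry_nhds] with s hs hs'
  exact iteratedDeriv_fun_add (BAN.analytic_slice hs.self_of_nhds).contDiffAt
    (BAN.analytic_slice hs'.self_of_nhds).contDiffAt

lemma I2_smul (c : ℂ) (f : ℂ × ℂ → ℂ) (a b : ℕ) :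
    I2 (fun q ↦ c * f q) a b = c * I2 f a b := by
  unfold I2
  simp only [iteratedDeriv_const_mul_field]

lemma D_mul (v : ℂ × ℂ) {u Ψ : ℂ × ℂ → ℂ} (hu : AnalyticAt ℂ u 0) (h : AnalyticAt ℂ Ψ 0) :
    D v (fun q ↦ u q * Ψ q) =ᶠ[𝓝 0] fun q ↦ D v u q * Ψ q + u q * D v Ψ q := by
  filter_upwards [hu.eventually_analyticAt, h.eventually_analyticAt] with q h1 h2
  unfold D
  rw [fderiv_fun_mul h1.differentiableAt h2.differentiableAt]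
  simp only [add_apply, smul_apply, smul_eq_mul]
  ring

lemma jet_mul (n : ℕ) : ∀ (u Ψ : ℂ × ℂ → ℂ), AnalyticAt ℂ u 0 → AnalyticAt ℂ Ψ 0 → Jet Ψ n →
    Jet (fun q ↦ u q * Ψ q) n := by
  have h0 : ∀ (u Ψ : ℂ × ℂ → ℂ), I2 Ψ 0 0 = 0 → I2 (fun q ↦ u q * Ψ q) 0 0 = 0 := by
    intro u Ψ h
    simp only [I2, iteratedDeriv_zero] at h ⊢
    rw [h, mul_zero]
  induction n with
  | zero =>
    intro u Ψ _ _ h a b hab
    obtain ⟨rfl, rfl⟩ : a = 0 ∧ b = 0 := by omega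
    exact h0 u Ψ (h 0 0 le_rfl)
  | succ n ih =>
    intro u Ψ hu hΨ h a b hab
    have key : ∀ (v : ℂ × ℂ) (a b : ℕ), a + b ≤ n → Jet (D v Ψ) n →
        I2 (D v fun q ↦ u q * Ψ q) a b = 0 := by
      intro v a b hab hv
      rw [I2_congr a b (D_mul v hu hΨ), I2_add ((anD v hu).fun_mul hΨ) (hu.fun_mul (anD v hΨ)),
        ih _ _ (anD v hu) hΨ (fun a b hab ↦ h a b (by omega)) a b hab,
        ih _ _ hu (anD v hΨ) hv a b hab, add_zero]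
    rcases a with _ | a
    · rcases b with _ | b
      · exact h0 u Ψ (h 0 0 (by omega))
      · rw [succ_right (hu.fun_mul hΨ)]
        refine key _ 0 b (by omega) fun a b hab ↦ ?_
        rw [← succ_right hΨ]
        exact h _ _ (by omega)
    · rw [succ_left _ _ (hu.fun_mul hΨ)]
      refine key _ a b (by omega) fun a b hab ↦ ?_
      rw [← succ_left _ _ hΨ]
      exact h _ _ (by omega)

lemma an_comp (L : ℂ × ℂ →L[ℂ] ℂ × ℂ) {Ψ : ℂ × ℂ → ℂ} (h : AnalyticAt ℂ Ψ 0) :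
    AnalyticAt ℂ (fun q ↦ Ψ (L q)) 0 :=
  AnalyticAt.comp (g := Ψ) (f := L) (x := 0) (by rw [map_zero]; exact h) (L.analyticAt 0)

lemma D_comp (L : ℂ × ℂ →L[ℂ] ℂ × ℂ) (v : ℂ × ℂ) {Ψ : ℂ × ℂ → ℂ} (h : AnalyticAt ℂ Ψ 0) :
    D v (fun q ↦ Ψ (L q)) =ᶠ[𝓝 0]
      fun q ↦ (L v).1 * D (1, 0) Ψ (L q) + (L v).2 * D (0, 1) Ψ (L q) := by
  have h1 : Tendsto L (𝓝 0) (𝓝 0) := by simpa using L.continuous.tendsto 0
  filter_upwards [h1.eventually h.eventually_analyticAt] with q hq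
  have h2 : HasFDerivAt (fun q ↦ Ψ (L q)) ((fderiv ℂ Ψ (L q)).comp L) q :=
    hq.differentiableAt.hasFDerivAt.comp q L.hasFDerivAt
  unfold D
  rw [h2.fderiv, ContinuousLinearMap.comp_apply, ← smul_eq_mul, ← smul_eq_mul, ← map_smul,
    ← map_smul, ← map_add]
  simp

lemma I2_D_comp (L : ℂ × ℂ →L[ℂ] ℂ × ℂ) (v : ℂ × ℂ) {Ψ : ℂ × ℂ → ℂ} (h : AnalyticAt ℂ Ψ 0)
    (a b : ℕ) : I2 (D v fun q ↦ Ψ (L q)) a b =
      (L v).1 * I2 (fun q ↦ D (1, 0) Ψ (L q)) a b + (L v).2 * I2 (fun q ↦ D (0, 1) Ψ (L q)) a b := by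
  rw [I2_congr a b (D_comp L v h), I2_add (analyticAt_const.fun_mul (an_comp L (anD _ h)))
    (analyticAt_const.fun_mul (an_comp L (anD _ h))), I2_smul, I2_smul]

lemma diag (L : ℂ × ℂ →L[ℂ] ℂ × ℂ) (c c' : ℂ) (h1 : L (1, 0) = (c, 0)) (h2 : L (0, 1) = (0, c'))
    (a : ℕ) : ∀ (b : ℕ) (Ψ : ℂ × ℂ → ℂ), AnalyticAt ℂ Ψ 0 →
      I2 (fun q ↦ Ψ (L q)) a b = c ^ a * c' ^ b * I2 Ψ a b := by
  induction a with
  | zero =>
    intro b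
    induction b with
    | zero =>
      intro Ψ _
      have h0 : L (0, 0) = (0, 0) := map_zero L
      simp [I2, h0]
    | succ b ih =>
      intro Ψ h
      rw [succ_right (an_comp L h), I2_D_comp L _ h, h2, ih _ (anD _ h), ih _ (anD _ h),
        succ_right h]
      ring
  | succ a ih =>
    intro b Ψ h
    rw [succ_left _ _ (an_comp L h), I2_D_comp L _ h, h1, ih _ _ (anD _ h), ih _ _ (anD _ h),
      succ_left _ _ h]
    ring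

lemma shear (L : ℂ × ℂ →L[ℂ] ℂ × ℂ) (c1 c2 : ℂ) (h1 : L (1, 0) = (c1, c2))
    (h2 : ∀ y, L (0, y) = (0, y)) (b : ℕ) (θ : ℝ) (k : ℕ) : ∀ (Ψ : ℂ × ℂ → ℂ), AnalyticAt ℂ Ψ 0 →
      (∀ a ≤ k, ‖I2 Ψ a (k + b - a)‖ ≤ θ) →
      ‖I2 (fun q ↦ Ψ (L q)) k b‖ ≤ (‖c1‖ + ‖c2‖) ^ k * θ := by
  induction k with
  | zero =>
    intro Ψ _ h
    simpa [I2, h2] using h 0 le_rfl
  | succ k ih =>
    intro Ψ h hθ
    have e1 := ih _ (anD (1, 0) h) fun a ha ↦ by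
      rw [← succ_left _ _ h, show k + b - a = k + 1 + b - (a + 1) by omega]
      exact hθ _ (by omega)
    have e2 := ih _ (anD (0, 1) h) fun a ha ↦ by
      rw [← succ_right h, show k + b - a + 1 = k + 1 + b - a by omega]
      exact hθ _ (by omega)
    rw [succ_left _ _ (an_comp L h), I2_D_comp L _ h, h1]
    refine (norm_add_le _ _).trans ?_
    rw [norm_mul, norm_mul]
    calc _ ≤ ‖c1‖ * ((‖c1‖ + ‖c2‖) ^ k * θ) + ‖c2‖ * ((‖c1‖ + ‖c2‖) ^ k * θ) := by gcongr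
      _ = _ := by ring

end JT

open ContinuousLinearMap in
theorem st_JT : JT := by
  refine ⟨fun _ _ a b h ↦ JT.I2_congr a b h, fun u Ψ n ↦ JT.jet_mul n u Ψ, ?_, ?_⟩
  · intro Ψ c c' a b h
    exact JT.diag ((c • fst ℂ ℂ ℂ).prod (c' • snd ℂ ℂ ℂ)) c c' (by simp) (by simp) a b Ψ h
  · intro Ψ c1 c2 k b θ h hθ
    exact JT.shear ((c1 • fst ℂ ℂ ℂ).prod (c2 • fst ℂ ℂ ℂ + snd ℂ ℂ ℂ)) c1 c2 (by simp)
      (by simp) b θ k Ψ h hθ

end Pool.Agent.Lib.ECM.PT
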