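import Pool.Agent.Lib.ECM.PTDefs

/-! Period theorem: block LAT. -/

open UpperHalfPlane hiding I
open Filter Topology Complex
open scoped Real

noncomputable section

namespace Pool.Agent.Lib.ECM.PT

open Pool.Agent.Lib.ZP3

namespace XLAT

theorem im2_pos {τ : T3} (h : τ ∈ H2) : 0 < (τ 2).im := by
  obtain ⟨h1, h2⟩ := h
  by_contra h3
  nlinarith [sq_nonneg (τ 1).im, mul_nonneg h1.le (neg_nonneg.2 (not_lt.1 h3))]

/-- lattice points on the first axis -/
theorem axis {τ : T3} (h : τ ∈ H2) (h1 : (τ 1).im = 0) {z : V2} (hz : z ∈ Lat τ) (h0 : z 1 = 0) :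
    ∃ a b : ℤ, z 0 = a + b * τ 0 := by
  obtain ⟨m, n, rfl⟩ := hz
  have e : (m.2 : ℂ) + τ 1 * n.1 + τ 2 * n.2 = 0 := h0
  have e2 := congrArg Complex.im e
  simp only [add_im, intCast_im, mul_im, intCast_re, mul_zero, zero_add, h1, zero_mul, zero_im,
    mul_eq_zero, Int.cast_eq_zero] at e2
  have hn : n.2 = 0 := e2.resolve_left (im2_pos h).ne'
  refine ⟨m.1, n.1, ?_⟩
  change (m.1 : ℂ) + τ 0 * n.1 + τ 1 * n.2 = _
  rw [hn]
  push_cast
  ring

theorem area {w t s : ℂ} {a b c d : ℤ} (hw : w ≠ 0) (ht : 0 < t.im) (hs : 0 < s.im)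
    (h1 : w = a + b * s) (h2 : w * t = c + d * s) : s.im ≤ normSq w * t.im := by
  have e1 : normSq w * t.im = w.re * (w * t).im - w.im * (w * t).re := by
    simp only [normSq_apply, mul_im, mul_re]
    ring
  have e2 : normSq w * t.im = ((a * d - b * c : ℤ) : ℝ) * s.im := by
    rw [e1, h2, h1]
    simp only [add_re, add_im, intCast_re, intCast_im, mul_re, mul_im, zero_mul, sub_zero,
      zero_add, add_zero]
    push_cast
    ring
  have e3 : 0 < normSq w * t.im := mul_pos (normSq_pos.2 hw) ht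
  rw [e2] at e3 ⊢
  have e4 : (0 : ℝ) < ((a * d - b * c : ℤ) : ℝ) := (mul_pos_iff_of_pos_right hs).1 e3
  have e5 : (1 : ℝ) ≤ ((a * d - b * c : ℤ) : ℝ) := by exact_mod_cast e4
  nlinarith

theorem hn_ge {τ : T3} (h : τ ∈ H2) (h1 : (τ 1).im = 0) (w : V2) :
    normSq (w 0) ≤ Hn τ w * (τ 0).im := by
  have a := h.1
  have b := im2_pos h
  have e : Hn τ w * (τ 0).im = normSq (w 0) + (τ 0).im / (τ 2).im * normSq (w 1) := by
    unfold Hn dY
    rw [h1]
    field_simp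
    ring
  rw [e]
  have := normSq_nonneg (w 1)
  have : 0 ≤ (τ 0).im / (τ 2).im * normSq (w 1) := by positivity
  linarith

theorem basis_mem (τ : T3) {l : V2} (h : l = ![1, 0] ∨ l = ![0, 1]) : l ∈ Lat τ ∧ ‖l‖ ≤ 1 := by
  rcases h with rfl | rfl
  · refine ⟨⟨(1, 0), (0, 0), ?_⟩, (pi_norm_le_iff_of_nonneg zero_le_one).2 fun i ↦ ?_⟩
    · funext i
      fin_cases i <;> simp [per, iv]
    · fin_cases i <;> simp
  · refine ⟨⟨(0, 1), (0, 0), ?_⟩, (pi_norm_le_iff_of_nonneg zero_le_one).2 fun i ↦ ?_⟩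
    · funext i
      fin_cases i <;> simp [per, iv]
    · fin_cases i <;> simp

end XLAT

open XLAT in
theorem st_LAT (hBAS : St_BAS) (hHERM : St_HERM) : LAT := by
  obtain ⟨C, hC, hred⟩ := hHERM.red
  refine ⟨C, fun N u τ g W t Ω v e hτ hN hu hΩ hW hv hΛ he he0 ↦ ?_⟩
  have hH := hBAS.red hτ
  have hH' := g.act_mem τ hH
  have hinj := (g.bij τ hH).1
  have hN' : (N : ℂ) ≠ 0 := Nat.cast_ne_zero.2 hN.ne'
  have him : (g.act τ 1).im = 0 := by
    rw [hu]
    have : (u : ℂ) / N = ((u / N : ℝ) : ℂ) := by push_cast; rfl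
    rw [this, ofReal_im]
  have hα : g.M τ v 0 ≠ 0 := by
    intro h0
    have h1 : v = 0 := by
      apply hinj
      rw [map_zero]
      funext i
      fin_cases i
      exacts [h0, hv]
    have h2 : Ω * (1 / 2) ∈ W.Λ := (hΛ _).2 (by rw [h1, smul_zero]; exact hBAS.lat_zero τ)
    obtain ⟨m, n, h3⟩ := (hW _).1 h2
    have h4 := mul_left_cancel₀ hΩ h3
    have h5 := congrArg Complex.im h4
    have ht : t.im ≠ 0 := t.im_pos.ne'
    have h6 : n = 0 := by simpa [ht] using h5.symm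
    rw [h6] at h4
    have h7 : ((2 * m : ℤ) : ℂ) = (1 : ℤ) := by
      push_cast at h4 ⊢
      linear_combination -2 * h4
    have h8 : 2 * m = 1 := by exact_mod_cast h7
    omega
  have hε : g.M τ e 1 ≠ 0 := by
    intro h0
    apply he0
    apply hinj
    rw [map_zero]
    funext i
    fin_cases i
    exacts [he, h0]
  refine ⟨hα, hε, ?_⟩
  obtain ⟨l, hl, hl0⟩ : ∃ l : V2, (l = ![1, 0] ∨ l = ![0, 1]) ∧ g.M τ l 0 ≠ 0 := by
    by_contra hno
    have h1 : g.M τ ![1, 0] 0 = 0 := by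
      by_contra h
      exact hno ⟨_, Or.inl rfl, h⟩
    have h2 : g.M τ ![0, 1] 0 = 0 := by
      by_contra h
      exact hno ⟨_, Or.inr rfl, h⟩
    have h3 : v = v 0 • ![1, 0] + v 1 • ![0, 1] := by
      funext i
      fin_cases i <;> simp
    apply hα
    rw [h3, map_add, map_smul, map_smul, Pi.add_apply, Pi.smul_apply, Pi.smul_apply, h1, h2]
    simp
  obtain ⟨hlL, hl1⟩ := basis_mem τ hl
  obtain ⟨μ, ν, hμν⟩ := (g.lat τ hH l).2 hlL
  have hlam : g.M τ l 0 = μ.1 + g.act τ 0 * ν.1 + g.act τ 1 * ν.2 := congrFun hμν 0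
  have hsm : ∀ z : ℂ, g.M τ (z • v) 0 = z * g.M τ v 0 ∧ g.M τ (z • v) 1 = 0 := by
    intro z
    rw [map_smul, Pi.smul_apply, Pi.smul_apply, hv]
    simp
  have hmem : N * (g.M τ l 0 / g.M τ v 0) ∈ W.Λ := by
    refine (hΛ _).2 ((g.lat τ hH _).1 ⟨(N * μ.1 + u * ν.2, -(u * ν.1)), (N * ν.1, 0), ?_⟩)
    funext i
    fin_cases i
    · refine (hsm _).1.trans ?_
      change _ = ((N * μ.1 + u * ν.2 : ℤ) : ℂ) + g.act τ 0 * ((N * ν.1 : ℤ) : ℂ) +
        g.act τ 1 * ((0 : ℤ) : ℂ)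
      rw [mul_assoc, div_mul_cancel₀ _ hα, hlam, hu]
      push_cast
      field_simp
      ring
    · refine (hsm _).2.trans ?_
      change _ = ((-(u * ν.1) : ℤ) : ℂ) + g.act τ 1 * ((N * ν.1 : ℤ) : ℂ) +
        g.act τ 2 * ((0 : ℤ) : ℂ)
      rw [hu]
      push_cast
      field_simp
      ring
  obtain ⟨m, n, hmn⟩ := (hW _).1 hmem
  have hell : Ω * ((m + n * t) / N) = g.M τ l 0 / g.M τ v 0 := by
    rw [← mul_div_assoc, ← hmn, mul_div_cancel_left₀ _ hN']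
  have hkey : (Ω * g.M τ v 0) * (m + n * t) = N * g.M τ l 0 := by
    rw [mul_right_comm, ← hmn, mul_assoc, div_mul_cancel₀ _ hα]
  refine ⟨l, m, n, g.M τ l 1 / g.M τ e 1, hl, fun h0 ↦ ?_, ?_, ?_⟩
  · rw [h0, mul_zero] at hkey
    exact mul_ne_zero hN' hl0 hkey.symm
  · obtain ⟨a, b, hab⟩ := axis hH' him
      ((g.lat τ hH _).2 ((hΛ Ω).1 ((hW _).2 ⟨1, 0, by simp⟩))) (hsm _).2
    obtain ⟨c, d, hcd⟩ := axis hH' him
      ((g.lat τ hH _).2 ((hΛ (Ω * t)).1 ((hW _).2 ⟨0, 1, by simp⟩))) (hsm _).2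
    rw [(hsm _).1] at hab hcd
    rw [mul_right_comm] at hcd
    have hw := mul_ne_zero hΩ hα
    have h1 := area hw (show 0 < (t : ℂ).im from t.im_pos) hH'.1 hab hcd
    have h2 := hn_ge hH' him (g.M τ l)
    rw [g.herm τ hH] at h2
    have h3 : Hn τ l ≤ C := by
      refine ((hred τ hτ).1 l).1.trans ?_
      have : ‖l‖ ^ 2 ≤ 1 := pow_le_one₀ (norm_nonneg _) hl1
      nlinarith
    have h4 := congrArg normSq hkey
    rw [map_mul normSq (Ω * _), map_mul normSq (N : ℂ), normSq_natCast] at h4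
    rw [← normSq_eq_norm_sq]
    have h5 := normSq_pos.2 hw
    refine le_of_mul_le_mul_left ?_ h5
    have h6 : normSq (g.M τ l 0) ≤ C * (normSq (Ω * g.M τ v 0) * (t : ℂ).im) :=
      h2.trans (mul_le_mul h3 h1 hH'.1.le hC.le)
    rw [h4]
    have h7 := mul_le_mul_of_nonneg_left h6 (mul_self_nonneg (N : ℝ))
    refine h7.trans (le_of_eq ?_)
    rw [coe_im]
    ring
  · apply hinj
    rw [hell, map_add]
    funext i
    fin_cases i
    · change g.M τ l 0 = g.M τ (_ • v) 0 + g.M τ (_ • e) 0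
      rw [(hsm _).1, map_smul, Pi.smul_apply, he, smul_zero, add_zero, div_mul_cancel₀ _ hα]
    · change g.M τ l 1 = g.M τ (_ • v) 1 + g.M τ (_ • e) 1
      rw [(hsm _).2, map_smul, Pi.smul_apply, zero_add, smul_eq_mul, div_mul_cancel₀ _ hε]

end Pool.Agent.Lib.ECM.PT
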