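import Pool.Agent.Lib.SV.Hol85

/-! Entire maps of several complex variables are analytic. -/

open Metric

namespace Pool.Agent.Lib.ECM.PT.AN

open Pool.Agent.Lib.SV

variable {E F : Type*} [NormedAddCommGroup E] [NormedSpace ℂ E] [FiniteDimensional ℂ E]
  [NormedAddCommGroup F] [NormedSpace ℂ F] [CompleteSpace F] {f : E → F}

theorem contDiff_of_diff (hf : Differentiable ℂ f) (k : ℕ) : ContDiff ℂ k f :=
  contDiffOn_univ.1 (H85.contDiffOn_nat isOpen_univ k hf.differentiableOn)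

/-- iterated Cauchy estimate -/
theorem iter_bound (hf : Differentiable ℂ f) {x : E} {M δ : ℝ} (hδ : 0 < δ)
    (hM : ∀ z ∈ ball x 1, ‖f z‖ ≤ M) (k : ℕ) :
    ∀ z ∈ ball x (1 - k * δ), ‖iteratedFDeriv ℂ k f z‖ ≤ M * (2 / δ) ^ k := by
  induction k with
  | zero => simpa using hM
  | succ k ih =>
    intro z hz
    have hd : Differentiable ℂ (iteratedFDeriv ℂ k f) :=
      (contDiff_of_diff hf (k + 1)).differentiable_iteratedFDeriv (by exact_mod_cast k.lt_succ_self)
    rw [← norm_fderiv_iteratedFDeriv]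
    refine (H85.norm_fderiv_le hδ hd.differentiableOn (M := M * (2 / δ) ^ k)
      fun w hw ↦ ih w ?_).trans_eq (by ring)
    rw [mem_ball] at hz hw ⊢
    have := dist_triangle w z x
    push_cast at hz
    linarith

theorem iter_line (hf : Differentiable ℂ f) (x y : E) (n : ℕ) :
    iteratedDeriv n (fun t : ℂ ↦ f (x + t • y)) 0 = iteratedFDeriv ℂ n f x fun _ ↦ y := by
  have h := (ContinuousLinearMap.toSpanSingleton ℂ y).iteratedFDeriv_comp_right
    (f := fun z ↦ f (x + z)) ((contDiff_of_diff hf n).comp (contDiff_const.add contDiff_id)) 0 le_rfl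
  rw [iteratedDeriv_eq_iteratedFDeriv]
  refine (congrArg (fun m ↦ m fun _ : Fin n ↦ (1 : ℂ)) h).trans ?_
  simp [iteratedFDeriv_comp_add_left]

/-- an entire map on a finite dimensional complex space is analytic -/
theorem analyticAt_of_diff (hf : Differentiable ℂ f) (x : E) : AnalyticAt ℂ f x := by
  have : ProperSpace E := FiniteDimensional.proper ℂ E
  obtain ⟨M, hM⟩ := (isCompact_closedBall x 1).exists_bound_of_continuousOn
    hf.continuous.continuousOn
  have hM' : ∀ z ∈ ball x 1, ‖f z‖ ≤ M := fun z hz ↦ hM z (ball_subset_closedBall hz)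
  have hM0 : 0 ≤ M := (norm_nonneg _).trans (hM' x (mem_ball_self one_pos))
  let p : FormalMultilinearSeries ℂ E F := fun n ↦ ((n.factorial : ℂ)⁻¹) • iteratedFDeriv ℂ n f x
  let r : NNReal := ⟨(2 * Real.exp 1)⁻¹, by positivity⟩
  have hr : (r : ENNReal) ≤ p.radius := by
    refine p.le_radius_of_bound (M * Real.exp 1) fun n ↦ ?_
    have h1 := iter_bound hf (δ := 1 / (n + 1)) (by positivity) hM' n x (by
      rw [mem_ball, dist_self, sub_pos, mul_one_div, div_lt_one (by positivity)]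
      exact lt_add_one _)
    have h2 := Real.pow_div_factorial_le_exp ((n : ℝ) + 1) (by positivity) n
    have h3 : Real.exp ((n : ℝ) + 1) = Real.exp 1 ^ n * Real.exp 1 := by
      rw [Real.exp_add, ← Real.exp_nat_mul, mul_one]
    have h4 : (2 / (1 / ((n : ℝ) + 1))) ^ n = 2 ^ n * ((n : ℝ) + 1) ^ n := by
      rw [← mul_pow, div_div_eq_mul_div, div_one]
    change ‖((n.factorial : ℂ)⁻¹) • iteratedFDeriv ℂ n f x‖ * (2 * Real.exp 1)⁻¹ ^ n ≤ _
    rw [norm_smul, norm_inv, Complex.norm_natCast]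
    calc (n.factorial : ℝ)⁻¹ * ‖iteratedFDeriv ℂ n f x‖ * (2 * Real.exp 1)⁻¹ ^ n
        ≤ (n.factorial : ℝ)⁻¹ * (M * (2 ^ n * ((n : ℝ) + 1) ^ n)) * (2 * Real.exp 1)⁻¹ ^ n := by
          rw [← h4]; gcongr
      _ = M * (((n : ℝ) + 1) ^ n / n.factorial) * (Real.exp 1 ^ n)⁻¹ := by
          rw [inv_pow, mul_pow]; field_simp
      _ ≤ M * (Real.exp 1 ^ n * Real.exp 1) * (Real.exp 1 ^ n)⁻¹ := by
          rw [← h3]; gcongr
      _ = M * Real.exp 1 := by field_simp
  refine ⟨p, r, hr, ENNReal.coe_pos.2 (by change (0 : ℝ) < (2 * Real.exp 1)⁻¹; positivity),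
    fun {y} _ ↦ ?_⟩
  have h := Complex.hasSum_taylorSeries_of_entire (f := fun t : ℂ ↦ f (x + t • y))
    (hf.comp (by fun_prop)) 0 1
  simpa [iter_line hf, p] using h

end Pool.Agent.Lib.ECM.PT.AN
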