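import Pool.Agent.Lib.ECM.PTDefs
import Pool.Agent.Lib.ECM.PT_AN

/-! Block MLT: entire multipliers for theta quotients and for the Weierstrass function. -/

open Metric
open scoped Real

namespace Pool.Agent.Lib.ECM.PT

open Pool.Agent.Lib.ZP3 Pool.Agent.Lib.SV

namespace MLT

/-- growth of theta functions on the reduced domain -/
theorem growth (hBAS : St_BAS) (hHERM : St_HERM) (hEST : St_EST1) : ∃ K : ℕ, 1 ≤ K ∧
    ∀ τ ∈ Red, ∀ (m : Ch) (z : V2) (R : ℝ), ‖z‖ ≤ R → ‖th m τ z‖ ≤ Real.exp (K * (R + 1) ^ 2) := by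
  obtain ⟨C1, hC1, h1⟩ := hEST.grow
  obtain ⟨C2, hC2, h2⟩ := hHERM.red
  obtain ⟨K, hK⟩ := exists_nat_ge (C1 + π * C2 + 1)
  have hπ : 0 < π * C2 := by positivity
  refine ⟨K, by exact_mod_cast (show (1 : ℝ) ≤ K by linarith), fun τ hτ m z R hz ↦ ?_⟩
  have hR : 0 ≤ R := (norm_nonneg _).trans hz
  have hca : ∀ i, (ca m i).im = 0 := by
    have k (n : ℕ) : ((n : ℂ) / 2).im = 0 := by simp
    intro i
    fin_cases i
    · exact k _
    · exact k _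
  have hv (a : ZMod 2) : ‖(a.val : ℂ) / 2‖ ≤ 1 := by
    have : (a.val : ℝ) ≤ 2 := by exact_mod_cast (ZMod.val_lt a).le
    rw [norm_div, Complex.norm_natCast, Complex.norm_ofNat]
    linarith
  have hcb : ‖cb m‖ ≤ 1 := by
    refine (pi_norm_le_iff_of_nonneg zero_le_one).2 fun i ↦ ?_
    fin_cases i
    · exact hv _
    · exact hv _
  have hw : ‖z + cb m‖ ≤ R + 1 := (norm_add_le _ _).trans (add_le_add hz hcb)
  have hq : qI τ (z + cb m) ≤ C2 * (R + 1) ^ 2 := by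
    have a1 := hHERM.qI_add τ (z + cb m)
    have a2 := hHERM.qI_nonneg τ (hBAS.red hτ) (Complex.I • (z + cb m))
    have a3 := ((h2 τ hτ).1 (z + cb m)).1
    have a4 : C2 * ‖z + cb m‖ ^ 2 ≤ C2 * (R + 1) ^ 2 := by gcongr
    linarith
  refine (h1 τ hτ _ _ hca).trans ?_
  have b1 : C1 ≤ Real.exp C1 := by linarith [Real.add_one_le_exp C1]
  have b2 : (1 : ℝ) ≤ (R + 1) ^ 2 := by nlinarith
  calc C1 * Real.exp (π * qI τ (z + cb m)) ≤ Real.exp C1 * Real.exp (π * (C2 * (R + 1) ^ 2)) := by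
        gcongr
    _ = Real.exp (C1 + π * C2 * (R + 1) ^ 2) := by rw [← Real.exp_add, mul_assoc]
    _ ≤ Real.exp (K * (R + 1) ^ 2) := by
        refine Real.exp_le_exp.2 ?_
        nlinarith

/-- the theta function without characteristic is bounded below near the origin -/
theorem lower (hBAS : St_BAS) (hEST : St_EST1) {K : ℝ} {τ : T3} (hτ : τ ∈ Red)
    (hK : ∀ z ∈ ball (0 : V2) 1, ‖th 0 τ z‖ ≤ K) {z : V2} (hz : ‖z‖ < 1)
    (hz' : 10 * K * ‖z‖ ≤ 1) : 1 / 5 ≤ ‖th 0 τ z‖ := by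
  have h1 := H85.norm_sub_le_of_bound (hBAS.diff_th 0 τ (hBAS.red hτ)).differentiableOn hK
    (mem_ball_zero_iff.2 hz)
  have h2 : ‖th 0 τ 0 - 1‖ ≤ 3 / 5 := hEST.one τ hτ 0 rfl rfl
  rw [sub_zero, div_one] at h1
  have h3 := norm_sub_norm_le (1 : ℂ) (th 0 τ z)
  have h4 : ‖1 - th 0 τ z‖ ≤ ‖th 0 τ z - th 0 τ 0‖ + ‖th 0 τ 0 - 1‖ := by
    rw [norm_sub_rev]
    exact norm_sub_le_norm_sub_add_norm_sub _ _ _
  rw [norm_one] at h3
  linarith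

theorem theta (hBAS : St_BAS) (hHERM : St_HERM) (hEST : St_EST1) : ∃ c : ℕ, ∀ c' ≥ c,
    ∀ (A S : ℕ) (τ : T3) (m : Ch) (l w : V2), 1 ≤ A → 1 ≤ S → τ ∈ Red → ‖l‖ ≤ 1 →
      ‖w‖ ≤ Real.exp A →
      Mlt (fun z ↦ th m τ (z.1 • l + z.2 • w) / th 0 τ (z.1 • l + z.2 • w)) (c' * A) S := by
  obtain ⟨K, hK1, hK⟩ := growth hBAS hHERM hEST
  refine ⟨100 * K, fun c hc A S τ m l w hA hS hτ hl hw ↦ ?_⟩
  have hK1' : (1 : ℝ) ≤ K := by exact_mod_cast hK1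
  have hA' : (1 : ℝ) ≤ A := by exact_mod_cast hA
  have hS' : (1 : ℝ) ≤ S := by exact_mod_cast hS
  have hc' : (100 * K : ℝ) ≤ c := by exact_mod_cast hc
  have hcA : (c : ℝ) ≤ ((c * A : ℕ) : ℝ) := by push_cast; nlinarith
  have hcA' : (A : ℝ) + 99 * K ≤ ((c * A : ℕ) : ℝ) := by push_cast; nlinarith
  have an (m : Ch) (q : ℂ × ℂ) : AnalyticAt ℂ (fun z : ℂ × ℂ ↦ th m τ (z.1 • l + z.2 • w)) q :=
    AN.analyticAt_of_diff ((hBAS.diff_th m τ (hBAS.red hτ)).comp (by fun_prop)) q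
  have nz (s y : ℂ) (hy : ‖y‖ ≤ Real.exp (-((c * A : ℕ) : ℝ))) :
      ‖s • l + y • w‖ ≤ ‖s‖ + Real.exp (-(99 * K)) := by
    refine (norm_add_le _ _).trans (add_le_add ?_ ?_)
    · rw [norm_smul]
      exact mul_le_of_le_one_right (norm_nonneg _) hl
    · rw [norm_smul]
      refine (mul_le_mul hy hw (norm_nonneg _) (Real.exp_pos _).le).trans ?_
      rw [← Real.exp_add]
      exact Real.exp_le_exp.2 (by linarith)
  have e : (fun z : ℂ × ℂ ↦ th 0 τ (z.1 • l + z.2 • w) ^ 2 *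
      (th m τ (z.1 • l + z.2 • w) / th 0 τ (z.1 • l + z.2 • w))) =
      fun z ↦ th 0 τ (z.1 • l + z.2 • w) * th m τ (z.1 • l + z.2 • w) := by
    funext z
    rcases eq_or_ne (th 0 τ (z.1 • l + z.2 • w)) 0 with h | h
    · simp [h]
    · field_simp
  have hS3 : (S : ℝ) ^ 2 ≤ S ^ 3 := pow_le_pow_right₀ hS' (by norm_num)
  have hS1 : (1 : ℝ) ≤ S ^ 2 := one_le_pow₀ hS'
  refine ⟨fun z ↦ th 0 τ (z.1 • l + z.2 • w) ^ 2, fun s y hs hy ↦ ?_, fun s y hs hy ↦ ?_⟩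
  · have h1 : ‖s • l + y • w‖ ≤ 3 * S + 3 := by
      have := nz s y hy
      have : Real.exp (-(99 * K : ℝ)) ≤ 1 := Real.exp_le_one_iff.2 (by linarith)
      linarith
    have h2 (m m' : Ch) : ‖th m τ (s • l + y • w) * th m' τ (s • l + y • w)‖ ≤
        Real.exp ((c * A : ℕ) * (S : ℝ) ^ 3) := by
      rw [norm_mul]
      refine (mul_le_mul (hK τ hτ m _ _ h1) (hK τ hτ m' _ _ h1) (norm_nonneg _)
        (Real.exp_pos _).le).trans ?_
      rw [← Real.exp_add]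
      refine Real.exp_le_exp.2 ?_
      have a1 : (3 * (S : ℝ) + 3 + 1) ^ 2 ≤ 49 * S ^ 3 := by nlinarith
      have a2 : (K : ℝ) * (3 * S + 3 + 1) ^ 2 ≤ K * (49 * S ^ 3) := by gcongr
      have a3 : (100 * K : ℝ) * S ^ 3 ≤ (c * A : ℕ) * (S : ℝ) ^ 3 := by gcongr; linarith
      have a4 : (0 : ℝ) ≤ K * S ^ 3 := by positivity
      linarith
    refine ⟨(an 0 _).pow 2, ?_, by simpa only [sq] using h2 0 0, ?_⟩
    · rw [e]
      exact (an 0 _).mul (an m _)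
    · exact (congrArg norm (congrFun e (s, y))).trans_le (h2 0 m)
  · have h1 : ‖s • l + y • w‖ ≤ 2 * Real.exp (-(99 * K)) := by
      have := nz s y hy
      have : Real.exp (-((c * A : ℕ) : ℝ)) ≤ Real.exp (-(99 * K)) :=
        Real.exp_le_exp.2 (by linarith)
      linarith
    have h2 : Real.exp (K * (1 + 1) ^ 2) * Real.exp (-(99 * K)) ≤ 1 / 20 := by
      rw [← Real.exp_add, show (K : ℝ) * (1 + 1) ^ 2 + -(99 * K) = -(95 * K) by ring,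
        Real.exp_neg, one_div]
      exact inv_anti₀ (by norm_num) (by linarith [Real.add_one_le_exp (95 * K : ℝ)])
    have h3 : 1 ≤ Real.exp (K * (1 + 1) ^ 2) := Real.one_le_exp (by positivity)
    have h4 := Real.exp_pos (-(99 * K : ℝ))
    have h8 (E e n : ℝ) (a1 : n ≤ 2 * e) (a2 : E * e ≤ 1 / 20) (a3 : 1 ≤ E) (a4 : 0 < e) :
        n < 1 ∧ 10 * E * n ≤ 1 := ⟨by nlinarith, by nlinarith⟩
    have h5 := lower hBAS hEST hτ (fun z hz ↦ hK τ hτ 0 z 1 (mem_ball_zero_iff.1 hz).le)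
      (z := s • l + y • w) (h8 _ _ _ h1 h2 h3 h4).1 (h8 _ _ _ h1 h2 h3 h4).2
    refine ⟨?_, (an m _).div (an 0 _) (norm_pos_iff.1 (lt_of_lt_of_le (by norm_num) h5))⟩
    rw [norm_pow, Real.exp_neg]
    have h6 : (100 : ℝ) * 1 ≤ (c * A : ℕ) * (S : ℝ) ^ 3 := by
      gcongr
      · linarith
      · linarith
    have h7 : (25 : ℝ) ≤ Real.exp ((c * A : ℕ) * (S : ℝ) ^ 3) := by
      linarith [Real.add_one_le_exp ((c * A : ℕ) * (S : ℝ) ^ 3)]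
    refine (inv_anti₀ (by norm_num) h7).trans ?_
    nlinarith

theorem weier (c : ℕ) (hc : 40000 ≤ c) (A S : ℕ) (W : WD) (p u : ℂ) (hA : 1 ≤ A) (hS : 1 ≤ S)
    (h : W.Size p u A) : Mlt (fun z ↦ W.X (p + u * z.1)) (c * A ^ 3) S := by
  obtain ⟨ρ, b, hρ, hu, -, h1, h2⟩ := BAN.mult hA hS h
  have hρ0 : 0 < ρ := (Real.exp_pos _).trans_le hρ
  have hA' : (1 : ℝ) ≤ A := by exact_mod_cast hA
  have hS' : (1 : ℝ) ≤ S := by exact_mod_cast hS
  have hc' : (40000 : ℝ) ≤ c := by exact_mod_cast hc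
  have hE : Real.exp (40000 * (S * A : ℝ) ^ 3) ≤ Real.exp ((c * A ^ 3 : ℕ) * (S : ℝ) ^ 3) := by
    refine Real.exp_le_exp.2 ?_
    push_cast
    calc 40000 * (S * A : ℝ) ^ 3 ≤ c * (S * A : ℝ) ^ 3 := by gcongr
      _ = _ := by ring
  have hl (q : ℂ × ℂ) : AnalyticAt ℂ (fun z : ℂ × ℂ ↦ p + u * z.1) q :=
    analyticAt_const.add (analyticAt_const.mul analyticAt_fst)
  have hn (s : ℂ) : ‖p + u * s - p‖ ≤ A * ρ * ‖s‖ := by
    rw [add_sub_cancel_left, norm_mul]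
    gcongr
  refine ⟨fun z ↦ b (p + u * z.1), fun s y hs _ ↦ ?_, fun s y hs _ ↦ ?_⟩
  · obtain ⟨a1, a2, a3, a4⟩ := h1 (p + u * s) ((hn s).trans (by
      calc A * ρ * ‖s‖ ≤ A * ρ * (6 * S) := by gcongr; linarith
        _ = _ := by ring))
    have a5 := a2.comp (f := fun z : ℂ × ℂ ↦ p + u * z.1) (hl (s, y))
    exact ⟨a1.comp (f := fun z : ℂ × ℂ ↦ p + u * z.1) (hl (s, y)), a5, a3.trans hE, a4.trans hE⟩
  · have hs' : 4 * A * ‖s‖ ≤ 1 := by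
      have a1 : (4 * A : ℝ) ≤ Real.exp ((c * A ^ 3 : ℕ) : ℝ) := by
        have a2 : (A : ℝ) ≤ A ^ 3 := le_self_pow₀ hA' (by norm_num)
        have a3 := Real.add_one_le_exp ((c * A ^ 3 : ℕ) : ℝ)
        push_cast at a3 ⊢
        nlinarith
      calc 4 * A * ‖s‖ ≤ Real.exp ((c * A ^ 3 : ℕ) : ℝ) * Real.exp (-((c * A ^ 3 : ℕ) : ℝ)) := by
            gcongr
        _ = 1 := by rw [← Real.exp_add, add_neg_cancel, Real.exp_zero]
    obtain ⟨a1, a2⟩ := h2 (p + u * s) ((hn s).trans (by nlinarith))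
    refine ⟨le_trans ?_ a2, (W.analytic_X a1).comp (f := fun z : ℂ × ℂ ↦ p + u * z.1) (hl (s, y))⟩
    rw [Real.exp_neg]
    exact inv_anti₀ (Real.exp_pos _) hE

end MLT

theorem st_MLT (hBAS : St_BAS) (hHERM : St_HERM) (hEST : St_EST1) : MLT := by
  obtain ⟨c, hc⟩ := MLT.theta hBAS hHERM hEST
  exact ⟨max c 40000, hc _ (le_max_left _ _), MLT.weier _ (le_max_right _ _)⟩

end Pool.Agent.Lib.ECM.PT
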