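import Pool.Agent.Lib.ECM.PTDefs
import Pool.Agent.Lib.ECM.PT_AN
import Pool.Agent.Lib.ZP3.Sm1

/-! Block SYS: the quadratic differential system of the theta quotients and of the Weierstrass
functions, and the size of its coefficients. -/

open Filter Topology

noncomputable section

namespace Pool.Agent.Lib.ECM.PT

open Pool.Agent.Lib.ZP3

namespace SYS

/-- coefficients of the equation of a theta quotient -/
def qT (c : Ch → ℂ) (m : Ch) : Option (Ch ⊕ Bool) → Option (Ch ⊕ Bool) → ℂ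
  | some (Sum.inl η), b => if b = some (Sum.inl (η + m)) then c η else 0
  | _, _ => 0

/-- coefficients of the equation of `X` -/
def qX (β : ℂ) : Option (Ch ⊕ Bool) → Option (Ch ⊕ Bool) → ℂ
  | some (Sum.inr true), b => if b = none then β else 0
  | _, _ => 0

/-- coefficients of the equation of `Y` -/
def qY (β G : ℂ) : Option (Ch ⊕ Bool) → Option (Ch ⊕ Bool) → ℂ
  | some (Sum.inr false), b => if b = some (Sum.inr false) then 6 * β else 0
  | none, b => if b = none then -(β * G) else 0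
  | _, _ => 0

/-- all coefficients -/
def qAll (c : Ch → Ch → ℂ) (β G : ℂ) : Ch ⊕ Bool → Option (Ch ⊕ Bool) → Option (Ch ⊕ Bool) → ℂ
  | Sum.inl m => qT (c m) m
  | Sum.inr false => qX β
  | Sum.inr true => qY β G

theorem quad_T (c : Ch → ℂ) (m : Ch) (x : Ch ⊕ Bool → ℂ) :
    quad (qT c m) x = ∑ η, c η * x (Sum.inl η) * x (Sum.inl (η + m)) := by
  unfold quad
  rw [Fintype.sum_option, Fintype.sum_sum_type]
  simp only [qT, zero_mul, Finset.sum_const_zero, ite_mul, Finset.sum_ite_eq', Finset.mem_univ,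
    if_true, zero_add, add_zero]
  rfl

theorem quad_X (β : ℂ) (x : Ch ⊕ Bool → ℂ) : quad (qX β) x = β * x (Sum.inr true) := by
  unfold quad
  rw [Fintype.sum_option, Fintype.sum_sum_type, Fintype.sum_bool]
  simp only [qX, zero_mul, Finset.sum_const_zero, ite_mul, Finset.sum_ite_eq', Finset.mem_univ,
    if_true, zero_add, add_zero]
  simp [ox]

theorem quad_Y (β G : ℂ) (x : Ch ⊕ Bool → ℂ) :
    quad (qY β G) x = β * (6 * x (Sum.inr false) ^ 2 - G) := by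
  unfold quad
  rw [Fintype.sum_option, Fintype.sum_sum_type, Fintype.sum_bool]
  simp only [qY, zero_mul, Finset.sum_const_zero, ite_mul, Finset.sum_ite_eq', Finset.mem_univ,
    if_true, zero_add]
  simp only [ox, Option.elim]
  ring

theorem sm_up {z : ℂ} {A c e j : ℕ} (hA : 2 ≤ A) (h : Sm z (c * A ^ e)) (hc : c ≤ 2 ^ j)
    (he : j + e ≤ 34) : Sm z (A ^ 34) :=
  h.mono (calc c * A ^ e ≤ A ^ j * A ^ e :=
        Nat.mul_le_mul_right _ (hc.trans (Nat.pow_le_pow_left hA j))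
    _ = A ^ (j + e) := (pow_add _ _ _).symm
    _ ≤ A ^ 34 := Nat.pow_le_pow_right (by omega) he)

theorem sm_nat (n B : ℕ) (hB : 1 ≤ B) (h : n ≤ B) : Sm (n : ℂ) B := by
  have h1 : (n : ℝ) ≤ B := by exact_mod_cast h
  have := sm_int (A := B) n hB (by
    rw [Int.cast_natCast, Nat.abs_cast]
    linarith [Real.add_one_le_exp (B : ℝ)])
  simpa using this

theorem sm_zero {B : ℕ} (hB : 1 ≤ B) : Sm 0 B := by
  simpa using sm_nat 0 B hB (Nat.zero_le _)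

theorem sm_qAll {c : Ch → Ch → ℂ} {β G : ℂ} {A : ℕ} (hA : 2 ≤ A) (hc : ∀ m η, Sm (c m η) (A ^ 34))
    (hβ : Sm β A) (hG : Sm G A) (j : Ch ⊕ Bool) (a b : Option (Ch ⊕ Bool)) :
    Sm (qAll c β G j a b) (A ^ 34) := by
  have h0 : Sm 0 (A ^ 34) := sm_zero (Nat.one_le_pow _ _ (by omega))
  have h1 : Sm β (A ^ 34) := sm_up (c := 1) (e := 1) (j := 0) hA (by simpa using hβ) (by simp)
    (by omega)
  have h2 : Sm (-(β * G)) (A ^ 34) := sm_up (j := 1) hA (hβ.mul hG).neg (by simp) (by omega)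
  have h3 : Sm (6 * β) (A ^ 34) := by
    have a1 : Sm ((6 : ℕ) : ℂ) (3 * A) := sm_nat 6 _ (by omega) (by omega)
    have a2 := a1.mul (hβ.mono (A' := 3 * A) (by omega))
    refine sm_up (c := 18) (e := 2) (j := 5) hA ?_ (by norm_num) (by omega)
    exact_mod_cast a2.mono (le_of_eq (by ring))
  rcases j with m | _ | _ <;> rcases a with _ | η | _ | _ <;> simp only [qAll, qT, qX, qY] <;>
    first
      | exact h0
      | (split_ifs <;> first | exact h0 | exact hc _ _ | exact h1 | exact h2 | exact h3)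

/-- the coefficient of `x_η x_(η + m)` in the derivative of `x_m` -/
def cf (s : Ch → Ch → Ch → Ch → ℤ) (g : Ch → Ch) (τ : T3) (v : V2) (m η : Ch) : ℂ :=
  (s m 0 (g m) η : ℂ) *
    (ll (η + m + g m) τ v / kk 0 τ * (kk (η + g m) τ / kk 0 τ) +
      kk (η + m + g m) τ / kk 0 τ * (ll (η + g m) τ v / kk 0 τ)) /
    (4 * (kk (g m) τ / kk 0 τ * (kk (m + g m) τ / kk 0 τ)))

theorem sm_cf {s : Ch → Ch → Ch → Ch → ℤ} (hs : Sg s) (g : Ch → Ch) {τ : T3} {v : V2} {A : ℕ}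
    (hA : 2 ≤ A) (hk : ∀ m, Sm (kk m τ / kk 0 τ) A) (hl : ∀ m, Sm (ll m τ v / kk 0 τ) A)
    (m η : Ch) : Sm (cf s g τ v m η) (A ^ 34) := by
  have hA2 : 4 ≤ A ^ 2 := Nat.pow_le_pow_left hA 2
  have a1 := ((hl (η + m + g m)).mul (hk (η + g m))).add ((hk (η + m + g m)).mul (hl (η + g m)))
  have a2 : Sm ((4 : ℕ) : ℂ) (2 * A ^ 2) := sm_nat 4 _ (by omega) (by omega)
  have a3 := (a2.mul ((hk (g m)).mul (hk (m + g m)))).mono (A' := 3 * (2 * A ^ 2) ^ 2) (by omega)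
  rw [Nat.cast_ofNat] at a3
  refine sm_up (c := 165888) (e := 16) (j := 18) hA ?_ (by norm_num) (by omega)
  unfold cf
  rcases hs m 0 (g m) η with h | h <;> rw [h]
  · rw [Int.cast_one, one_mul]
    exact (a1.div a3).mono (le_of_eq (by ring))
  · rw [Int.cast_neg, Int.cast_one, neg_one_mul]
    exact (a1.neg.div a3).mono (le_of_eq (by ring))

theorem fderiv_eq {f : ℂ × ℂ → ℂ} {z d : ℂ × ℂ} {D : ℂ} (hf : AnalyticAt ℂ f z)
    (h : HasDerivAt (fun t : ℂ ↦ f (z + t • d)) D 0) : fderiv ℂ f z d = D :=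
  HasDerivAt.unique (hf.differentiableAt.hasFDerivAt.hasLineDerivAt d) h

theorem an_plane (v1 v2 : V2) (z : ℂ × ℂ) :
    AnalyticAt ℂ (fun z : ℂ × ℂ ↦ z.1 • v1 + z.2 • v2) z :=
  (analyticAt_fst.smul analyticAt_const).add (analyticAt_snd.smul analyticAt_const)

theorem an_th (hBAS : St_BAS) {τ : T3} (hτ : τ ∈ H2) (m : Ch) (v1 v2 : V2) (z : ℂ × ℂ) :
    AnalyticAt ℂ (fun z : ℂ × ℂ ↦ th m τ (z.1 • v1 + z.2 • v2)) z :=
  (AN.analyticAt_of_diff (hBAS.diff_th m τ hτ) _).comp_of_eq (an_plane v1 v2 z) rfl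

theorem an_xs (hBAS : St_BAS) {τ : T3} (hτ : τ ∈ H2) (W : WD) (p β : ℂ) (v1 v2 : V2) {z : ℂ × ℂ}
    (h0 : th 0 τ (z.1 • v1 + z.2 • v2) ≠ 0) (hp : p + β * z.1 ∉ W.Λ) (j : Ch ⊕ Bool) :
    AnalyticAt ℂ (fun z ↦ xs τ W p β v1 v2 z j) z := by
  have hL : AnalyticAt ℂ (fun z : ℂ × ℂ ↦ p + β * z.1) z :=
    analyticAt_const.add (analyticAt_const.mul analyticAt_fst)
  rcases j with m | _ | _
  · exact (an_th hBAS hτ m v1 v2 z).div (an_th hBAS hτ 0 v1 v2 z) h0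
  · exact (W.analytic_X hp).comp_of_eq hL rfl
  · exact (W.analytic_Y hp).comp_of_eq hL rfl

theorem der_xs (hBAS : St_BAS) {s : Ch → Ch → Ch → Ch → ℤ} {g : Ch → Ch} {τ : T3} (hτ : τ ∈ H2)
    (hk0 : kk 0 τ ≠ 0) (hg : ∀ m, kk (g m) τ ≠ 0 ∧ kk (m + g m) τ ≠ 0)
    (hD : ∀ (e : Ch) (v x : V2),
      4 * ((th 0 τ x * dth e τ v x - th e τ x * dth 0 τ v x) *
        (kk (g e) τ * kk (e + g e) τ)) =
      ∑ η : Ch, (s e 0 (g e) η : ℂ) * (th η τ x * th (η + e) τ x *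
        (ll (η + e + g e) τ v * kk (η + g e) τ + kk (η + e + g e) τ * ll (η + g e) τ v)))
    (W : WD) (p β : ℂ) (v1 v2 : V2) {z : ℂ × ℂ}
    (h0 : th 0 τ (z.1 • v1 + z.2 • v2) ≠ 0) (hp : p + β * z.1 ∉ W.Λ) (d : ℂ × ℂ) (v : V2) (γ : ℂ)
    (hv : d.1 • v1 + d.2 • v2 = v) (hγ : β * d.1 = γ) (j : Ch ⊕ Bool) :
    fderiv ℂ (fun z ↦ xs τ W p β v1 v2 z j) z d =
      quad (qAll (cf s g τ v) γ (W.g2 / 2) j) (xs τ W p β v1 v2 z) := by
  refine fderiv_eq (an_xs hBAS hτ W p β v1 v2 h0 hp j) ?_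
  have hL : HasDerivAt (fun t : ℂ ↦ p + β * (z + t • d).1) γ 0 := by
    have e : (fun t : ℂ ↦ p + β * (z + t • d).1) = fun t ↦ p + β * z.1 + γ * t := by
      funext t
      rw [← hγ, Prod.fst_add, Prod.smul_fst, smul_eq_mul]
      ring
    rw [e]
    simpa using ((hasDerivAt_id (0 : ℂ)).const_mul γ).const_add (p + β * z.1)
  have hL0 : p + β * z.1 = p + β * (z + (0 : ℂ) • d).1 := by simp
  rcases j with m | _ | _
  · have e : (fun t : ℂ ↦ xs τ W p β v1 v2 (z + t • d) (Sum.inl m)) = fun t ↦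
        th m τ (z.1 • v1 + z.2 • v2 + t • v) / th 0 τ (z.1 • v1 + z.2 • v2 + t • v) := by
      funext t
      have : (z + t • d).1 • v1 + (z + t • d).2 • v2 = z.1 • v1 + z.2 • v2 + t • v := by
        rw [← hv, Prod.fst_add, Prod.snd_add, Prod.smul_fst, Prod.smul_snd, smul_eq_mul,
          smul_eq_mul]
        module
      simp only [xs, Sum.elim_inl, this]
    rw [e]
    have h1 := (hBAS.line m τ hτ (z.1 • v1 + z.2 • v2) v 0).div
      (hBAS.line 0 τ hτ (z.1 • v1 + z.2 • v2) v 0) (by simpa using h0)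
    simp only [zero_smul, add_zero] at h1
    refine HasDerivAt.congr_deriv h1 ?_
    simp only [qAll, quad_T, xs, Sum.elim_inl]
    set x := z.1 • v1 + z.2 • v2
    obtain ⟨hg1, hg2⟩ := hg m
    have h2 : ∀ η, cf s g τ v m η * (th η τ x / th 0 τ x) * (th (η + m) τ x / th 0 τ x) =
        (s m 0 (g m) η : ℂ) * (th η τ x * th (η + m) τ x *
          (ll (η + m + g m) τ v * kk (η + g m) τ + kk (η + m + g m) τ * ll (η + g m) τ v)) /
          (4 * (kk (g m) τ * kk (m + g m) τ) * th 0 τ x ^ 2) := by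
      intro η
      unfold cf
      field_simp
    simp only [h2]
    rw [← Finset.sum_div, ← hD]
    field_simp
  · have h1 := (W.dX _ hp).comp_of_eq (0 : ℂ) hL hL0
    refine HasDerivAt.congr_deriv h1 ?_
    simp only [qAll, quad_X, xs, Sum.elim_inr, cond_true]
    ring
  · have h1 := (W.dY _ hp).comp_of_eq (0 : ℂ) hL hL0
    refine HasDerivAt.congr_deriv h1 ?_
    simp only [qAll, quad_Y, xs, Sum.elim_inr, cond_false]
    ring

theorem exists_g : ∀ m : Ch, ∃ g : Ch, Ev g ∧ Ev (m + g) := by decide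

end SYS

open SYS in
theorem st_SYS (hBAS : St_BAS) (hDER : St_DER) : SYS := by
  obtain ⟨s, hs, hD⟩ := hDER
  choose g hg using exists_g
  refine ⟨34, fun A τ W p β v1 v2 hA hτ hG hp hk hl1 hl2 hβ hg2 ↦ ?_⟩
  have hk0 : kk 0 τ ≠ 0 := hG 0 (by decide)
  have hz0 : th 0 τ ((0 : ℂ × ℂ).1 • v1 + (0 : ℂ × ℂ).2 • v2) ≠ 0 := by simpa [kk] using hk0
  have hp0 : p + β * (0 : ℂ × ℂ).1 ∉ W.Λ := by simpa using hp
  have e1 : ∀ᶠ z in 𝓝 (0 : ℂ × ℂ), th 0 τ (z.1 • v1 + z.2 • v2) ≠ 0 :=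
    (an_th hBAS hτ 0 v1 v2 0).continuousAt.eventually_ne hz0
  have e2 : ∀ᶠ z in 𝓝 (0 : ℂ × ℂ), p + β * z.1 ∉ W.Λ :=
    (show ContinuousAt (fun z : ℂ × ℂ ↦ p + β * z.1) 0 by fun_prop).eventually (W.ev_notMem hp0)
  have hD' := fun (e : Ch) (v x : V2) ↦ (hD τ hτ e 0 (g e) v x).2
  simp only [add_zero] at hD'
  have hg' : ∀ m, kk (g m) τ ≠ 0 ∧ kk (m + g m) τ ≠ 0 := fun m ↦ ⟨hG _ (hg m).1, hG _ (hg m).2⟩
  refine ⟨qAll (cf s g τ v1) β (W.g2 / 2), qAll (cf s g τ v2) 0 (W.g2 / 2), fun j ↦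
    ⟨an_xs hBAS hτ W p β v1 v2 hz0 hp0 j, ?_⟩, sm_qAll hA (sm_cf hs g hA hk hl1) hβ hg2,
    sm_qAll hA (sm_cf hs g hA hk hl2) (sm_zero (by omega)) hg2⟩
  filter_upwards [e1, e2] with z h1 h2
  exact ⟨der_xs hBAS hτ hk0 hg' hD' W p β v1 v2 h1 h2 (1, 0) v1 β (by simp) (by simp) j,
    der_xs hBAS hτ hk0 hg' hD' W p β v1 v2 h1 h2 (0, 1) v2 0 (by simp) (by simp) j⟩

end Pool.Agent.Lib.ECM.PT
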