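import Pool.Agent.Lib.ECM.PTDefs

/-! Block TRV: translated generators, with a degree for each factor. -/

noncomputable section

namespace Pool.Agent.Lib.ECM.PT

open Pool.Agent.Lib.ZP3 Pool.Agent.Lib.ZP3.TR MvPolynomial

namespace XTRV

/-- the difference of the abscissae -/
def dl (i : Fin 3) : TR.A := emb 0 (X (Sum.inl i)) - emb 1 (X (Sum.inl i))

/-- the direction which moves the second point along the `i`-th factor -/
def dir (i : Fin 3) : Fin 3 → Fin 3 → ℂ := ![0, Pi.single i 1, Pi.single i 1]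

/-- numerator in the addition formula for the ordinate -/
def numY (W : Fin 3 → WD) (i : Fin 3) : TR.A :=
  dl i * TR.D W (dir i) (num i) + (2 : ℂ) • (emb 1 (X (Sum.inr i)) * num i)

theorem dl_mem (i : Fin 3) : dl i ∈ N (Mv (Pi.single i 2)) :=
  Submodule.sub_mem _ (emb0_mem (X_mem_Mv i)) (emb1_mem _ _)

theorem numY_mem (W : Fin 3 → WD) (i : Fin 3) :
    numY W i ∈ N (Mv (Pi.single i 2 + Pi.single i 6)) := by
  refine Submodule.add_mem _ (N_mul (dl_mem i) (D_mem_N W ?_ (num_mem i)))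
    (Submodule.smul_mem _ _ (N_mul (emb1_mem _ _) (num_mem i)))
  intro a _
  simp [dir, der_zero]

theorem der_X (W : Fin 3 → WD) (i : Fin 3) :
    der W (Pi.single i 1) (X (Sum.inl i)) = X (Sum.inr i) := by
  simp [der, der0, mkDerivation_X]

theorem ev3_dl (W : Fin 3 → WD) (g η ζ : Fin 3 → ℂ) (i : Fin 3) :
    ev3 W ![g, η, ζ] (dl i) = (W i).X (g i) - (W i).X (η i) := by
  simp only [dl, map_sub, ev3_emb]
  simp [ev, pt]

theorem x_inK (W : Fin 3 → WD) (i : Fin 3) :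
    InK W (emb 2 (X (Sum.inl i)) * dl i ^ 2 - num i) := by
  intro g η hg hη h
  rw [map_sub, map_mul, ev3_num W hg hη h, ev3_emb, sub_eq_zero]
  congr 1
  simp [ev, pt]

theorem y_inK (W : Fin 3 → WD) (i : Fin 3) :
    InK W (emb 2 (X (Sum.inr i)) * dl i ^ 3 - numY W i) := by
  intro g η hg hη h
  have h1 := x_inK W i g η hg hη h
  have h2 := (x_inK W i).D (c := dir i) (by simp [dir]) g η hg hη h
  have e1 : TR.D W (dir i) (emb 2 (X (Sum.inl i))) = emb 2 (X (Sum.inr i)) := by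
    rw [D_emb]
    simp [dir, der_X]
  have e2 : TR.D W (dir i) (dl i) = -emb 1 (X (Sum.inr i)) := by
    rw [dl, map_sub, D_emb, D_emb]
    simp [dir, der_X, der_zero]
  have e : emb 2 (X (Sum.inr i)) * dl i ^ 3 - numY W i =
      dl i * TR.D W (dir i) (emb 2 (X (Sum.inl i)) * dl i ^ 2 - num i) +
        2 * emb 1 (X (Sum.inr i)) * (emb 2 (X (Sum.inl i)) * dl i ^ 2 - num i) := by
    rw [map_sub, Derivation.leibniz, sq (dl i), Derivation.leibniz, e1, e2, numY, two_smul]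
    simp only [smul_eq_mul]
    ring
  rw [e, map_add, map_mul, map_mul, h1, h2, mul_zero, mul_zero, add_zero]

/-- the translated polynomial with denominators cleared -/
def shp (W : Fin 3 → WD) (r : R) (d : Fin 3 → ℕ) : TR.A :=
  ∑ m ∈ r.support, r.coeff m • ∏ i, (num i ^ m (Sum.inl i) * numY W i ^ m (Sum.inr i) *
    dl i ^ (d i - (2 * m (Sum.inl i) + 3 * m (Sum.inr i))))

theorem wt_le {r : R} {d : Fin 3 → ℕ} (hr : r ∈ Mv d) {m : Var →₀ ℕ} (hm : m ∈ r.support)
    (i : Fin 3) : 2 * m (Sum.inl i) + 3 * m (Sum.inr i) ≤ d i :=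
  (mem_restrictSupport_iff ℂ).1 hr hm i

theorem shp_mem (W : Fin 3 → WD) {r : R} {d : Fin 3 → ℕ} (hr : r ∈ Mv d) :
    shp W r d ∈ N (Mv fun i ↦ 3 * d i) := by
  refine Submodule.sum_mem _ fun m hm ↦ Submodule.smul_mem _ _ ?_
  have h : ∀ i, num i ^ m (Sum.inl i) * numY W i ^ m (Sum.inr i) *
      dl i ^ (d i - (2 * m (Sum.inl i) + 3 * m (Sum.inr i))) ∈
      N (Mv (Pi.single i (3 * d i))) := by
    intro i
    refine N_mono (Mv_mono fun j ↦ ?_) (N_mul (N_mul (N_pow (num_mem i) _)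
      (N_pow (numY_mem W i) _)) (N_pow (dl_mem i) _))
    have := wt_le hr hm i
    by_cases hj : j = i
    · subst hj
      simp only [Pi.add_apply, Pi.smul_apply, Pi.single_eq_same, smul_eq_mul]
      omega
    · simp [hj]
  rw [Fin.prod_univ_three]
  refine N_mono (Mv_mono fun j ↦ ?_) (N_mul (N_mul (h 0) (h 1)) (h 2))
  fin_cases j <;> simp

theorem shp_inK (W : Fin 3 → WD) {r : R} {d : Fin 3 → ℕ} (hr : r ∈ Mv d) :
    InK W (emb 2 r * ∏ i, dl i ^ d i - shp W r d) := by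
  intro g η hg hη h
  rw [map_sub, map_mul, ev3_emb, sub_eq_zero, shp, map_sum, ev, eval_eq', Finset.sum_mul]
  refine Finset.sum_congr rfl fun m hm ↦ ?_
  rw [smul_eq_C_mul, map_mul, mul_assoc, map_prod, map_prod, Fintype.prod_sum_type,
    ← Finset.prod_mul_distrib, ← Finset.prod_mul_distrib]
  congr 1
  · simp [ev3]
  refine Finset.prod_congr rfl fun i _ ↦ ?_
  have hx := x_inK W i g η hg hη h
  have hy := y_inK W i g η hg hη h
  rw [map_sub, sub_eq_zero, map_mul, ev3_emb, ev, eval_X, map_pow] at hx hy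
  obtain ⟨k, hk⟩ := Nat.exists_eq_add_of_le (wt_le hr hm i)
  simp only [map_mul, map_pow, ← hx, ← hy]
  rw [hk, Nat.add_sub_cancel_left]
  ring

theorem core (W : Fin 3 → WD) (r : R) (Q s : TR.A) (S : Submodule ℂ R) (hs : s ∈ N S)
    (hK : InK W (emb 2 r * Q - s)) :
    ∃ G : List (Fin 3 → ℂ) → (Fin 3 → ℂ) → R, (∀ l η, G l η ∈ S) ∧
      ∀ (V : Set (Fin 3 → ℂ)) (g η : Fin 3 → ℂ), Reg W g → Reg W η → Reg W (g + η) →
        ∀ l l' : List (Fin 3 → ℂ), (∀ v ∈ l, v ∈ V) → (∀ v ∈ l', v ∈ V) →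
          (∀ m : List (Fin 3 → ℂ), (∀ v ∈ m, v ∈ V) → m.length < l.length + l'.length →
            ev W (g + η) (wd W m r) = 0) →
          ev W g (wd W l' (G l η)) =
            ev W (g + η) (wd W (l ++ l') r) * ev3 W ![g, η, g + η] Q := by
  have hmem : ∀ l : List (Fin 3 → ℂ), Wd W (l.map fun v ↦ ![0, v, v]) s ∈ N S := by
    intro l
    refine Wd_mem_N W ?_ hs
    intro c hc a _
    obtain ⟨v, -, rfl⟩ := List.mem_map.1 hc
    simp [der_zero]
  refine ⟨fun l η ↦ sp W η (Wd W (l.map fun v ↦ ![0, v, v]) s),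
    fun l η ↦ sp_mem W η (hmem l), fun V g η hg hη h l l' hl hl' hm ↦ ?_⟩
  have h0 : Wd W (l.map fun v ↦ ![0, v, v]) s ∈ N ⊤ := N_mono le_top (hmem l)
  rw [← sp_Wd W η l' h0, ev_sp W g η (g + η)
    (Wd_mem_N W (fun _ _ _ _ ↦ Submodule.mem_top) h0), ← Wd_append]
  set cs : List (Fin 3 → Fin 3 → ℂ) :=
    (l.map fun v ↦ ![0, v, v]) ++ l'.map fun v ↦ ![v, 0, v] with hcs
  have hc1 : ∀ c ∈ cs, c 2 = c 0 + c 1 := by
    intro c hc
    rcases List.mem_append.1 hc with hc | hc <;> obtain ⟨v, -, rfl⟩ := List.mem_map.1 hc <;> simp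
  have hc2 : ∀ c ∈ cs, c 2 ∈ V := by
    intro c hc
    rcases List.mem_append.1 hc with hc | hc <;> obtain ⟨v, hv, rfl⟩ := List.mem_map.1 hc
    · simpa using hl v hv
    · simpa using hl' v hv
  have hc3 : (cs.map fun c ↦ c 2) = l ++ l' := by
    simp [hcs, Function.comp_def]
  have hc4 : cs.length = l.length + l'.length := by simp [hcs]
  have h1 := hK.Wd hc1 g η hg hη h
  have h2 := Wd_mul W V r Q cs hc2
  rw [hc3, hc4] at h2
  have h3 := ev3_J (z := ![g, η, g + η]) hm h2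
  rw [Wd_sub, map_sub, sub_eq_zero] at h1
  rw [map_sub, sub_eq_zero, h1, map_mul, ev3_emb] at h3
  exact h3

end XTRV

open XTRV in
theorem st_TRV : TRV := by
  intro W r d hr
  obtain ⟨G, hG, key⟩ := core W r _ _ _ (shp_mem W hr) (shp_inK W hr)
  refine ⟨G, hG, fun V g η hg hη h ↦ ⟨fun l l' hl hl' hm ↦ ?_, fun n hne hG0 ↦ ?_⟩⟩
  · have h1 := key V g η hg hη h l l' hl hl' fun m h1 h2 ↦ hm m h1 h2.le
    have h2 : ev W (g + η) (wd W (l ++ l') r) = 0 := by
      refine hm _ ?_ (by simp)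
      intro v hv
      rcases List.mem_append.1 hv with hv | hv
      exacts [hl v hv, hl' v hv]
    rw [h2, zero_mul] at h1
    exact h1
  · have h5 : ev3 W ![g, η, g + η] (∏ i, dl i ^ d i) ≠ 0 := by
      rw [map_prod]
      refine Finset.prod_ne_zero_iff.2 fun i _ ↦ ?_
      rw [map_pow, ev3_dl]
      exact pow_ne_zero _ (sub_ne_zero.2 (hne i))
    have main : ∀ k : ℕ, ∀ m : List (Fin 3 → ℂ), (∀ v ∈ m, v ∈ V) → m.length < k →
        m.length ≤ n → ev W (g + η) (wd W m r) = 0 := by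
      intro k
      induction k with
      | zero => intro m _ h; omega
      | succ k ih =>
        intro m hm h1 h2
        have h3 := key V g η hg hη h m [] hm (by simp) fun m' h4 h6 ↦
          ih m' h4 (by simp at h6; omega) (by simp at h6; omega)
        rw [List.append_nil] at h3
        exact (mul_eq_zero.1 (h3.symm.trans (hG0 m hm h2))).resolve_right h5
    intro m hm h1
    exact main _ m hm (Nat.lt_succ_self _) h1

end Pool.Agent.Lib.ECM.PT
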