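import Pool.Agent.Lib.ECM.PTDefs
import Pool.Agent.Lib.ECM.PT_AN

/-! Block UP: from the auxiliary function to the bound for the degree. -/

open UpperHalfPlane hiding I
open Filter Topology Complex
open scoped Real

noncomputable section

namespace Pool.Agent.Lib.ECM.PT

open Pool.Agent.Lib.ZP3

namespace UP

/-- transfer of jets -/
lemma jet_tr (hJ : JT) {A B Ψ Ψ' : ℂ × ℂ → ℂ} {n : ℕ} (hA : AnalyticAt ℂ A 0)
    (hB : AnalyticAt ℂ B 0) (h0 : A 0 ≠ 0) (hΨ : AnalyticAt ℂ Ψ' 0)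
    (h : ∀ᶠ q in 𝓝 (0 : ℂ × ℂ), A q * Ψ q = B q * Ψ' q) (hj : Jet Ψ' n) : Jet Ψ n := by
  intro a b hab
  rw [hJ.1 Ψ (fun q ↦ B q / A q * Ψ' q) a b ?_]
  · exact hJ.2.1 _ _ n (hB.div hA h0) hΨ hj a b hab
  · filter_upwards [h, hA.continuousAt.eventually_ne h0] with q h1 h2
    field_simp
    linear_combination h1

/-- the point of the plane through `z` -/
def pl (α β : ℂ) (z : Fin 3 → ℂ) (q : ℂ × ℂ) : Fin 3 → ℂ :=
  z + q.1 • ![β, α, 0] + q.2 • ![0, 0, α]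

lemma pl_zero (α β : ℂ) (z : Fin 3 → ℂ) : pl α β z 0 = z := by simp [pl]

lemma pl_an (α β : ℂ) (z : Fin 3 → ℂ) : AnalyticAt ℂ (pl α β z) 0 :=
  (analyticAt_const.add (analyticAt_fst.smul analyticAt_const)).add
    (analyticAt_snd.smul analyticAt_const)

lemma pl_an' (α β : ℂ) (z : Fin 3 → ℂ) (i : Fin 3) : AnalyticAt ℂ (fun q ↦ pl α β z q i) 0 :=
  analyticAt_pi_iff.1 (pl_an α β z) i

lemma pl_reg {W : Fin 3 → WD} (α β : ℂ) {z : Fin 3 → ℂ} (hz : Reg W z) :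
    ∀ᶠ q in 𝓝 (0 : ℂ × ℂ), Reg W (pl α β z q) :=
  Zero.reg_eventually (pl_an α β z).continuousAt (by rwa [pl_zero])

lemma ph_an {W : Fin 3 → WD} (α β : ℂ) {z : Fin 3 → ℂ} (hz : Reg W z) (r : R) :
    AnalyticAt ℂ (fun q ↦ ev W (pl α β z q) r) 0 :=
  (analyticAt_ev hz r).comp_of_eq (pl_an α β z) (pl_zero α β z)

lemma wd_rep (W : Fin 3 → WD) (v : Fin 3 → ℂ) (a : ℕ) (f : R) :
    Zero.wd W (List.replicate a v) f = (der W v)^[a] f := by
  induction a generalizing f with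
  | zero => rfl
  | succ a ih => rw [List.replicate_succ, Zero.wd_cons, ih, Function.iterate_succ_apply]

lemma jv_iff {W : Fin 3 → WD} {r : R} {α β : ℂ} {z : Fin 3 → ℂ} {n : ℕ} (hα : α ≠ 0)
    (hz : Reg W z) : JV W ![α, β, 0] r z n ↔ Jet (fun q ↦ ev W (pl α β z q) r) n := by
  have e : ∀ a b, I2 (fun q ↦ ev W (pl α β z q) r) a b =
      ev W z ((der W ![β, α, 0])^[a] ((der W ![0, 0, α])^[b] r)) :=
    fun a b ↦ BAN.iter_ev2 hz _ _ r a b
  constructor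
  · intro h a b hab
    have := h (List.replicate b ![0, 0, α] ++ List.replicate a ![β, α, 0]) (fun v hv ↦ by
      rcases List.mem_append.1 hv with hv | hv <;> rw [List.eq_of_mem_replicate hv] <;>
        simp [Zero.mem_hyp, mul_comm]) (by simp; omega)
    rw [Zero.wd, List.foldl_append] at this
    rw [e, ← wd_rep, ← wd_rep]
    exact this
  · intro h m hm hn
    exact Zero.words_vanish (β := ![α, β, 0]) hα (fun a b hab ↦ (e a b).symm.trans (h a b hab))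
      m hm hn

/-- the factor of automorphy -/
def fa (τ : T3) (ν : ℤ × ℤ) (w : V2) : ℂ := exp (-π * I * (Qf τ (iv ν) + 2 * dot (iv ν) w))

/-- functions of level `k` -/
def QQ (τ : T3) (k : ℕ) (Θ : V2 → ℂ) : Prop :=
  ∀ (μ ν : ℤ × ℤ) (w : V2), Θ (w + per τ (iv μ) (iv ν)) = fa τ ν w ^ k * Θ w

lemma sq_per (hB : St_BAS) (m : Ch) (τ : T3) : QQ τ 2 fun w ↦ th m τ w ^ 2 := by
  intro μ ν w
  have h : exp (2 * π * I * (dot (ca m) (iv μ) - dot (cb m) (iv ν))) ^ 2 = 1 := by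
    rw [← exp_nat_mul, exp_eq_one_iff]
    refine ⟨m.1.val * μ.1 + m.2.1.val * μ.2 - m.2.2.1.val * ν.1 - m.2.2.2.val * ν.2, ?_⟩
    simp only [dot, ca, cb, iv, Matrix.cons_val_zero, Matrix.cons_val_one]
    push_cast
    ring
  simp only [hB.th_per, mul_pow, h, one_mul, fa]

lemma QQ.step {τ : T3} {k : ℕ} {Θ : V2 → ℂ} (hQ : QQ τ k Θ) (μ ν : ℤ × ℤ) {w w' : V2} {c : ℂ}
    (n : ℤ) (h : w' = w + per τ (iv μ) (iv ν))
    (hc : k * (-π * I * (Qf τ (iv ν) + 2 * dot (iv ν) w)) = c + n * (2 * π * I)) :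
    Θ w' = exp c * Θ w := by
  rw [h, hQ, fa, ← exp_nat_mul, hc, exp_add, exp_int_mul_two_pi_mul_I, mul_one]

lemma qp {τ : T3} {N L : ℕ} {u : ℤ} {a : ℂ} {Θ : V2 → ℂ} (hN : (N : ℂ) ≠ 0) (h1 : τ 1 = u / N)
    (ha : a = 1 / (2 * N)) (hd : Differentiable ℂ Θ) (hQ : QQ τ (4 * L) Θ) :
    (∀ y, QP (N * τ 0) (4 * N * L) fun x ↦ Θ ![x - a, y - a]) ∧
      ∀ x, QP (N * τ 2) (4 * N * L) fun y ↦ Θ ![x - a, y - a] := by
  refine ⟨fun y ↦ ⟨hd.comp (differentiable_pi.2 fun i ↦ ?_), fun x ↦ ?_, fun x ↦ ?_⟩,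
    fun x ↦ ⟨hd.comp (differentiable_pi.2 fun i ↦ ?_), fun y ↦ ?_, fun y ↦ ?_⟩⟩
  · fin_cases i <;> simp
  · refine (hQ.step (1, 0) (0, 0) (w := ![x - a, y - a]) (c := 0) 0 ?_ ?_).trans (by simp)
    · ext i
      fin_cases i <;> simp [per, iv]
      ring
    · simp [Qf, dot, iv]
  · refine hQ.step (0, -u) (N, 0) (2 * L) ?_ ?_
    · ext i
      fin_cases i <;> simp [per, iv, h1]
      · ring
      · field_simp
        ring
    · simp [Qf, dot, iv, ha]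
      field_simp
      ring
  · fin_cases i <;> simp
  · refine (hQ.step (0, 1) (0, 0) (w := ![x - a, y - a]) (c := 0) 0 ?_ ?_).trans (by simp)
    · ext i
      fin_cases i <;> simp [per, iv]
      ring
    · simp [Qf, dot, iv]
  · refine hQ.step (-u, 0) (0, N) (2 * L) ?_ ?_
    · ext i
      fin_cases i <;> simp [per, iv, h1]
      · field_simp
        ring
      · ring
    · simp [Qf, dot, iv, ha]
      field_simp
      ring

/-- the homogenised monomials -/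
def TH (τ : T3) (m0 h h' : Ch) (L : ℕ) (e : Fin 3 →₀ ℕ) (w : V2) : ℂ :=
  (th h τ w ^ 2) ^ e 1 * (th h' τ w ^ 2) ^ e 2 * (th m0 τ w ^ 2) ^ (2 * L - e 1 - e 2)

lemma TH_per (hB : St_BAS) (τ : T3) (m0 h h' : Ch) {L : ℕ} {e : Fin 3 →₀ ℕ} (h1 : e 1 ≤ L)
    (h2 : e 2 ≤ L) : QQ τ (4 * L) (TH τ m0 h h' L e) := by
  intro μ ν w
  obtain ⟨k, hk⟩ : ∃ k, 2 * L = e 1 + e 2 + k := ⟨2 * L - e 1 - e 2, by omega⟩
  have a1 := sq_per hB h τ μ ν w
  have a2 := sq_per hB h' τ μ ν w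
  have a3 := sq_per hB m0 τ μ ν w
  simp only at a1 a2 a3
  rw [TH, TH, a1, a2, a3, show 2 * L - e 1 - e 2 = k by omega,
    show 4 * L = 2 * (e 1 + e 2 + k) by omega]
  ring

lemma exists_r (hB : St_BAS) {τ : T3} (hτ : τ ∈ H2) {N L : ℕ} {u : ℤ} {a : ℂ} (hN : (N : ℂ) ≠ 0)
    (h1 : τ 1 = u / N) (ha : a = 1 / (2 * N)) (W W1 W2 : WD) (ϑ : (Fin 3 → ℂ) → ℂ)
    (hE : ∀ G : ℂ → ℂ → ℂ, (∀ y, QP (N * τ 0) (4 * N * L) fun x ↦ G x y) →
      (∀ x, QP (N * τ 2) (4 * N * L) (G x)) → ∃ r ∈ TR.Mv ![0, 4 * N * L, 4 * N * L],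
        ∀ z : Fin 3 → ℂ, Reg ![W, W1, W2] z → G (z 1) (z 2) = ϑ z * ev ![W, W1, W2] z r)
    (m0 h h' : Ch) (κ κ' : ℂ) {F : MvPolynomial (Fin 3) ℂ} (hF : ∀ j, F.degreeOf j ≤ L) :
    ∃ r ∈ TR.Mv ![4 * L, 4 * N * L, 4 * N * L], ∃ H : ℂ → V2 → ℂ, (∀ x, QQ τ (4 * L) (H x)) ∧
      (∀ z, Reg ![W, W1, W2] z →
        ϑ z * ev ![W, W1, W2] z r = H (W.X (z 0)) ![z 1 - a, z 2 - a]) ∧
      ∀ x w, th m0 τ w ≠ 0 → H x w = th m0 τ w ^ (4 * L) * MvPolynomial.eval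
        ![x ^ 2, κ * (th h τ w / th m0 τ w) ^ 2, κ' * (th h' τ w / th m0 τ w) ^ 2] F := by
  have hle : ∀ e ∈ F.support, ∀ j, e j ≤ L :=
    fun e he j ↦ (MvPolynomial.monomial_le_degreeOf j he).trans (hF j)
  have key : ∀ e ∈ F.support, ∃ r ∈ TR.Mv ![0, 4 * N * L, 4 * N * L], ∀ z : Fin 3 → ℂ,
      Reg ![W, W1, W2] z → TH τ m0 h h' L e ![z 1 - a, z 2 - a] = ϑ z * ev ![W, W1, W2] z r := by
    intro e he
    have hq := qp hN h1 ha (Θ := TH τ m0 h h' L e)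
      (((((hB.diff_th h τ hτ).pow 2).pow _).mul (((hB.diff_th h' τ hτ).pow 2).pow _)).mul
        (((hB.diff_th m0 τ hτ).pow 2).pow _)) (TH_per hB τ m0 h h' (hle e he 1) (hle e he 2))
    exact hE (fun x y ↦ TH τ m0 h h' L e ![x - a, y - a]) hq.1 hq.2
  choose! rr hr1 hr2 using key
  refine ⟨∑ e ∈ F.support, (F.coeff e * κ ^ e 1 * κ' ^ e 2) •
      (MvPolynomial.X (Sum.inl 0) ^ (2 * e 0) * rr e), Submodule.sum_mem _ fun e he ↦
      Submodule.smul_mem _ _ ?_, fun x w ↦ ∑ e ∈ F.support, (F.coeff e * κ ^ e 1 * κ' ^ e 2) *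
      (x ^ (2 * e 0) * TH τ m0 h h' L e w), fun x μ ν w ↦ ?_, fun z hz ↦ ?_, fun x w hw ↦ ?_⟩
  · have hp : ∀ k : ℕ, (MvPolynomial.X (Sum.inl 0) ^ k : R) ∈ TR.Mv (k • Pi.single 0 2) := by
      intro k
      induction k with
      | zero => simpa using TR.one_mem_Mv _
      | succ k ih => rw [pow_succ, succ_nsmul]; exact TR.Mv_mul ih (TR.X_mem_Mv 0)
    refine TR.Mv_mono (fun i ↦ ?_) (TR.Mv_mul (hp _) (hr1 e he))
    have := hle e he 0
    fin_cases i <;> simp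
    omega
  · simp only [Finset.mul_sum]
    refine Finset.sum_congr rfl fun e he ↦ ?_
    rw [TH_per hB τ m0 h h' (hle e he 1) (hle e he 2)]
    ring
  · simp only [map_sum, Finset.mul_sum]
    refine Finset.sum_congr rfl fun e he ↦ ?_
    rw [hr2 e he z hz, Zero.ev_smul, map_mul, map_pow, ev_inl]
    simp only [Matrix.cons_val_zero]
    ring
  · simp only [MvPolynomial.eval_eq', Finset.mul_sum, Fin.prod_univ_three]
    refine Finset.sum_congr rfl fun e he ↦ ?_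
    obtain ⟨k, hk⟩ : ∃ k, 2 * L = e 1 + e 2 + k :=
      ⟨2 * L - e 1 - e 2, by have := hle e he 1; have := hle e he 2; omega⟩
    rw [TH, show 2 * L - e 1 - e 2 = k by omega, show 4 * L = 2 * (e 1 + e 2 + k) by omega]
    simp only [Matrix.cons_val_zero, Matrix.cons_val_one, Matrix.cons_val_two, Matrix.head_cons,
      Matrix.tail_cons, mul_pow, div_pow]
    field_simp
    ring

lemma loc {f g k : V2 → ℂ} (hf : AnalyticAt ℂ f 0) (hg : AnalyticAt ℂ g 0)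
    (hk : AnalyticAt ℂ k 0) (f0 : f 0 = 0) (g0 : g 0 = 0) (k0 : k 0 ≠ 0)
    (hd : fderiv ℂ f 0 ![1, 0] * fderiv ℂ g 0 ![0, 1] ≠
      fderiv ℂ f 0 ![0, 1] * fderiv ℂ g 0 ![1, 0]) :
    map (fun w ↦ (f w / k w, g w / k w)) (𝓝 0) = 𝓝 0 := by
  have e : ∀ {f : V2 → ℂ}, AnalyticAt ℂ f 0 → f 0 = 0 → ∀ v,
      fderiv ℂ f 0 v = k 0 * fderiv ℂ (fun w ↦ f w / k w) 0 v := by
    intro f hf f0 v
    have h1 : f =ᶠ[𝓝 0] fun w ↦ f w / k w * k w := by
      filter_upwards [hk.continuousAt.eventually_ne k0] with w hw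
      field_simp
    rw [h1.fderiv_eq, fderiv_fun_mul (hf.fun_div hk k0).differentiableAt hk.differentiableAt]
    simp [f0]
  have h := ((hf.div hk k0).hasStrictFDerivAt.prodMk
    (hg.div hk k0).hasStrictFDerivAt).map_nhds_eq_of_surj (by
      rw [e hf f0, e hf f0, e hg g0, e hg g0] at hd
      set A := fderiv ℂ (fun w ↦ f w / k w) 0
      set B := fderiv ℂ (fun w ↦ g w / k w) 0
      obtain ⟨d, hd'⟩ : ∃ d, d * (A ![1, 0] * B ![0, 1] - A ![0, 1] * B ![1, 0]) = 1 :=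
        ⟨_, inv_mul_cancel₀ fun h0 ↦ hd (by linear_combination k 0 ^ 2 * h0)⟩
      refine LinearMap.range_eq_top.2 fun x ↦ ⟨(d * (B ![0, 1] * x.1 - A ![0, 1] * x.2)) • ![1, 0] +
        (d * (A ![1, 0] * x.2 - B ![1, 0] * x.1)) • ![0, 1], ?_⟩
      change (A _, B _) = x
      simp only [map_add, map_smul, smul_eq_mul]
      ext
      · linear_combination x.1 * hd'
      · linear_combination x.2 * hd')
  simpa [f0, g0, Prod.mk_zero_zero] using h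

lemma inf_sq {c : ℂ} (hc : c ≠ 0) {s : Set ℂ} (hs : s.Infinite) :
    ((fun x ↦ c * x ^ 2) '' s).Infinite := by
  intro hf
  refine hs ((hf.biUnion fun y _ ↦ (Polynomial.nthRoots 2 (y / c)).toFinset.finite_toSet).subset
    fun x hx ↦ ?_)
  refine Set.mem_biUnion (Set.mem_image_of_mem _ hx) ?_
  simp [hc]

lemma nonzero (W : WD) {κ κ' : ℂ} (hκ : κ ≠ 0) (hκ' : κ' ≠ 0) {F : MvPolynomial (Fin 3) ℂ}
    (h : ∀ᶠ ξ in 𝓝 (0 : ℂ × ℂ), ∀ z ∉ W.Λ,
      MvPolynomial.eval ![W.X z ^ 2, κ * ξ.1 ^ 2, κ' * ξ.2 ^ 2] F = 0) : F = 0 := by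
  obtain ⟨s, hs, t, ht, hst⟩ := mem_nhds_prod_iff.1 h
  refine MvPolynomial.funext_set ![(fun x ↦ 1 * x ^ 2) '' (W.X '' {z | z ∉ W.Λ}),
    (fun x ↦ κ * x ^ 2) '' s, (fun x ↦ κ' * x ^ 2) '' t] (fun i ↦ ?_) fun x hx ↦ ?_
  · fin_cases i
    exacts [inf_sq one_ne_zero W.infinite_X, inf_sq hκ (infinite_of_mem_nhds _ hs),
      inf_sq hκ' (infinite_of_mem_nhds _ ht)]
  · obtain ⟨_, ⟨z, hz, rfl⟩, h0⟩ := hx 0 (Set.mem_univ _)
    obtain ⟨a, ha, h1⟩ := hx 1 (Set.mem_univ _)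
    obtain ⟨b, hb, h2⟩ := hx 2 (Set.mem_univ _)
    rw [map_zero, ← hst (Set.mk_mem_prod ha hb) z hz]
    congr 2
    ext i
    fin_cases i
    exacts [h0.symm.trans (one_mul _), h1.symm, h2.symm]

lemma lat_sep {W : WD} {t : ℂ} (ht : t.im ≠ 0) {N : ℕ} (hN : (N : ℂ) ≠ 0)
    (hW : W.IsLat (N * t) 1) {i j : ℤ} {z : ℂ} (hz : z ∈ W.Λ) (h : z = i * t + j / (2 * N)) :
    (N : ℤ) ∣ i ∧ (2 * N : ℤ) ∣ j := by
  obtain ⟨m, k, hm⟩ := (hW z).1 hz
  have e : ((2 * N * (i - k * N) : ℤ) : ℂ) * t = ((2 * N * m - j : ℤ) : ℂ) := by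
    rw [h] at hm
    push_cast
    field_simp at hm
    linear_combination hm
  have e1 := congrArg Complex.im e
  rw [mul_im, intCast_im, intCast_im, intCast_re, zero_mul, add_zero, mul_eq_zero, or_iff_left ht,
    Int.cast_eq_zero] at e1
  rw [e1, Int.cast_zero, zero_mul, eq_comm, Int.cast_eq_zero] at e
  have hN' : (N : ℤ) ≠ 0 := by exact_mod_cast (Nat.cast_ne_zero.1 hN)
  refine ⟨⟨k, ?_⟩, m, by linarith⟩
  rcases mul_eq_zero.1 e1 with h0 | h0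
  · omega
  · linarith

lemma fin_sep {N : ℕ} {u : ℤ} (hu : IsCoprime u (N : ℤ)) {i i' j j' : ℕ} (hi : i < N)
    (hi' : i' < N) (hj : j < N) (hj' : j' < N)
    (h : (N : ℤ) ∣ (i : ℤ) - i' ∧ (2 * N : ℤ) ∣ 2 * ((j - j') * u)) : i = i' ∧ j = j' := by
  have h2 := hu.symm.dvd_of_dvd_mul_right ((mul_dvd_mul_iff_left two_ne_zero).1 h.2)
  have a1 := Int.eq_zero_of_abs_lt_dvd h.1 (by rw [abs_lt]; omega)
  have a2 := Int.eq_zero_of_abs_lt_dvd h2 (by rw [abs_lt]; omega)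
  omega

lemma nohom {τ : T3} (h : NoHom τ) {N : ℕ} (hN : (N : ℂ) ≠ 0) {W1 W2 : WD}
    (h1 : W1.IsLat (N * τ 0) 1) (h2 : W2.IsLat (N * τ 2) 1) (c : ℂ) (hc : c ≠ 0) :
    ∃ l ∈ W1.Λ, ∀ n : ℕ, 0 < n → n * c * l ∉ W2.Λ := by
  by_contra hcon
  push Not at hcon
  obtain ⟨n1, hn1, a1⟩ := hcon 1 ((h1 _).2 ⟨1, 0, by simp⟩)
  obtain ⟨n2, hn2, a2⟩ := hcon (N * τ 0) ((h1 _).2 ⟨0, 1, by simp⟩)
  obtain ⟨p1, q1, b1⟩ := (h2 _).1 a1
  obtain ⟨p2, q2, b2⟩ := (h2 _).1 a2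
  obtain ⟨c1, c2⟩ := h (n2 * N * p1) (n2 * N * N * q1) (n1 * p2) (n1 * q2 * N) (by
    push_cast
    linear_combination n1 * b2 - n2 * N * τ 0 * b1)
  have hN' : N ≠ 0 := Nat.cast_ne_zero.1 hN
  simp [hN', hn2.ne'] at c1 c2
  simp [c1, c2, hc, hn1.ne'] at b1

/-- the finite group of translations -/
def gm (τ : T3) (x : ℕ × ℕ) : Fin 3 → ℂ :=
  ![0, τ 0 * x.1 + τ 1 * x.2, τ 1 * x.1 + τ 2 * x.2]

end UP

open UP in
theorem st_UP (hB : St_BAS) (hJ : JT) (hE : ELL) (hZ : ZL) : UP := by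
  classical
  intro τ N u W p β α α' κ κ' m0 h h' F L T hτ hN hu h1 hno hp hβ hα hα' hκ hκ' hk0 hkh hkh' hdet
    hF hL hdeg hT hT' hjet
  have hN' : (N : ℂ) ≠ 0 := Nat.cast_ne_zero.2 hN.ne'
  have hNr : (0 : ℝ) < N := Nat.cast_pos.2 hN
  have i0 : 0 < (τ 0).im := hτ.1
  have i2 : 0 < (τ 2).im := (mul_pos_iff_of_pos_left i0).1 ((sq_nonneg _).trans_lt hτ.2)
  obtain ⟨W1, W2, ϑ1, ϑ2, l1, l2, d1, d2, z1, z2, hell⟩ :=
    hE ⟨N * τ 0, by simpa using mul_pos hNr i0⟩ ⟨N * τ 2, by simpa using mul_pos hNr i2⟩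
  obtain ⟨a, ha⟩ : ∃ a : ℂ, a = 1 / (2 * N) := ⟨_, rfl⟩
  obtain ⟨r, hr, H, hH1, hH2, hH3⟩ := exists_r hB hτ hN' h1 ha W W1 W2
    (fun z ↦ (ϑ1 (z 1) * ϑ2 (z 2)) ^ (4 * N * L)) (fun G g1 g2 ↦ by
      obtain ⟨r, hr, hr'⟩ := hell _ G ⟨2 * N * L, by ring⟩ g1 g2
      exact ⟨r, hr, fun z hz ↦ hr' W z (hz 1) (hz 2)⟩) m0 h h' κ κ' hdeg
  set V : Fin 3 → WD := ![W, W1, W2] with hV
  set A : (Fin 3 → ℂ) → ℂ × ℂ → ℂ :=
    fun z q ↦ (ϑ1 (pl α β z q 1) * ϑ2 (pl α β z q 2)) ^ (4 * N * L) with hA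
  have hAa : ∀ z, AnalyticAt ℂ (A z) 0 := fun z ↦
    (((d1.analyticAt _).comp (pl_an' α β z 1)).mul
      ((d2.analyticAt _).comp (pl_an' α β z 2))).pow _
  have hA0 : ∀ z, Reg V z → A z 0 ≠ 0 := fun z hz ↦ by
    simp only [hA, pl_zero]
    exact pow_ne_zero _ (mul_ne_zero (z1 _ (hz 1)) (z2 _ (hz 2)))
  have hth : ∀ m w, AnalyticAt ℂ (th m τ) w :=
    fun m w ↦ AN.analyticAt_of_diff (hB.diff_th m τ hτ) w
  have hreg : ∀ x, Reg V (![p, a, a] + gm τ x) := by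
    intro x i
    fin_cases i
    · simpa [gm, hV] using hp
    · intro hz
      obtain ⟨c, hc⟩ := (lat_sep i0.ne' hN' l1 (i := x.1) (j := 1 + 2 * (x.2 * u)) hz (by
        simp [gm, ha, h1]; field_simp; ring)).2
      rw [mul_assoc] at hc
      omega
    · intro hz
      obtain ⟨c, hc⟩ := (lat_sep i2.ne' hN' l2 (i := x.2) (j := 1 + 2 * (x.1 * u)) hz (by
        simp [gm, ha, h1]; field_simp; ring)).2
      rw [mul_assoc] at hc
      omega
  have hg0 : gm τ (0, 0) = 0 := by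
    ext i
    fin_cases i <;> simp [gm]
  have hp' : Reg V ![p, a, a] := by simpa [hg0] using hreg (0, 0)
  have hsep : ∀ x ∈ Finset.range N ×ˢ Finset.range N, ∀ y ∈ Finset.range N ×ˢ Finset.range N,
      gm τ x 1 - gm τ y 1 ∈ W1.Λ ∨ gm τ x 2 - gm τ y 2 ∈ W2.Λ → x = y := by
    intro x hx y hy hxy
    simp only [Finset.mem_product, Finset.mem_range] at hx hy
    rcases hxy with hz | hz
    · exact Prod.ext_iff.2 (fin_sep hu hx.1 hy.1 hx.2 hy.2 (lat_sep i0.ne' hN' l1 hz (by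
        simp [gm, h1]; field_simp; ring)))
    · exact Prod.ext_iff.2 (fin_sep hu hx.2 hy.2 hx.1 hy.1 (lat_sep i2.ne' hN' l2 hz (by
        simp [gm, h1]; field_simp; ring))).symm
  have hcard : ((Finset.range N ×ˢ Finset.range N).image (gm τ)).card = N * N := by
    rw [Finset.card_image_of_injOn fun x hx y hy hxy ↦ hsep x hx y hy (Or.inl (by
      rw [hxy, sub_self]; exact zero_mem _))]
    simp
  have hNL : 0 < N * L := Nat.mul_pos hN hL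
  have key := hZ V ![α, β, 0] ![p, a, a] r ![4 * L, 4 * N * L, 4 * N * L] T
    ((Finset.range N ×ˢ Finset.range N).image (gm τ)) hα hβ rfl
    (fun i ↦ by fin_cases i <;> simp <;> nlinarith) hr ?_
    (Finset.mem_image.2 ⟨(0, 0), by simp [hN], hg0⟩) ?_ ?_ ?_ ?_ (nohom hno hN' l1 l2) ?_ ?_ ?_
  · have k2 : N * N ≤ N * (93312 * L ^ 2) := by
      rw [hcard] at key
      rcases key with k | k <;> refine k.trans_eq ?_ <;> simp <;> ring
    have := Nat.le_of_mul_le_mul_left k2 hN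
    omega
  · by_contra hcon
    push Not at hcon
    refine hF (nonzero W hκ hκ' ?_)
    rw [← loc (hth h 0) (hth h' 0) (hth m0 0) hkh hkh' hk0 hdet, eventually_map]
    have c1 : ∀ᶠ w : V2 in 𝓝 0, w 0 + a ∉ W1.Λ :=
      (by fun_prop : Continuous fun w : V2 ↦ w 0 + a).continuousAt.eventually
        (W1.ev_notMem (by simpa [hV] using hp' 1))
    have c2 : ∀ᶠ w : V2 in 𝓝 0, w 1 + a ∉ W2.Λ :=
      (by fun_prop : Continuous fun w : V2 ↦ w 1 + a).continuousAt.eventually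
        (W2.ev_notMem (by simpa [hV] using hp' 2))
    filter_upwards [c1, c2, (hth m0 0).continuousAt.eventually_ne hk0] with w w1 w2 w3 z hz
    have hz' : Reg V ![z, w 0 + a, w 1 + a] := fun i ↦ by
      fin_cases i
      exacts [hz, w1, w2]
    have := hH2 _ hz'
    rw [hcon _ hz', mul_zero, show ![![z, w 0 + a, w 1 + a] 1 - a, ![z, w 0 + a, w 1 + a] 2 - a] =
      w by ext i; fin_cases i <;> simp, hH3 _ _ w3] at this
    exact (mul_eq_zero.1 this.symm).resolve_left (pow_ne_zero _ w3)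
  · simp only [Finset.forall_mem_image]
    exact fun x _ ↦ rfl
  · simp only [Finset.forall_mem_image]
    exact fun x hx y hy hxy ↦ ⟨fun hz ↦ hxy (by rw [hsep x hx y hy (Or.inl hz)]),
      fun hz ↦ hxy (by rw [hsep x hx y hy (Or.inr hz)])⟩
  · simp only [Finset.forall_mem_image]
    intro x _ z n hz hz'
    rw [jv_iff hα hz, jv_iff hα hz']
    set U : ℂ × ℂ → ℂ := fun q ↦
      fa τ (x.1, x.2) ![pl α β z q 1 - a, pl α β z q 2 - a] ^ (4 * L) * A z q with hU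
    have hUa : AnalyticAt ℂ U 0 := by
      have b1 := pl_an' α β z 1
      have b2 := pl_an' α β z 2
      refine AnalyticAt.mul (AnalyticAt.pow (AnalyticAt.cexp' ?_) _) (hAa z)
      simp only [dot, Matrix.cons_val_zero, Matrix.cons_val_one]
      fun_prop
    have hU0 : U 0 ≠ 0 := mul_ne_zero (pow_ne_zero _ (exp_ne_zero _)) (hA0 z hz)
    have hid : ∀ᶠ q in 𝓝 (0 : ℂ × ℂ), A (z + gm τ x) q * ev V (pl α β (z + gm τ x) q) r =
        U q * ev V (pl α β z q) r := by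
      filter_upwards [pl_reg α β hz, pl_reg α β hz'] with q q1 q2
      rw [hU, mul_assoc, hH2 _ q1, hH2 _ q2, ← hH1 _ (0, 0)]
      congr 1
      · simp [pl, gm]
      · ext i
        fin_cases i <;> simp [pl, gm, per, iv] <;> ring
    exact ⟨jet_tr hJ (hAa _) hUa (hA0 _ hz') (ph_an α β hz r) hid,
      jet_tr hJ hUa (hAa _) hU0 (ph_an α β hz' r) (hid.mono fun _ ↦ Eq.symm)⟩
  · simp only [Finset.forall_mem_image]
    exact fun x _ ↦ hreg x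
  · rw [hcard]
    calc _ = N * N * (373248 * L ^ 3) := by simp; ring
      _ < _ := Nat.mul_lt_mul_of_pos_left (by omega) (Nat.mul_pos hN hN)
  · simp
    omega
  · rw [jv_iff hα hp']
    have hl : ∀ (m : Ch) (c c' : ℂ),
        AnalyticAt ℂ (fun q : ℂ × ℂ ↦ th m τ ![c * q.1, c' * q.2]) 0 := fun m c c' ↦
      (hth m _).comp (f := fun q : ℂ × ℂ ↦ (![c * q.1, c' * q.2] : V2))
        (analyticAt_pi_iff.2 fun i ↦ by
          fin_cases i
          exacts [analyticAt_const.mul analyticAt_fst, analyticAt_const.mul analyticAt_snd])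
    have hv : ∀ c c' : ℂ, th m0 τ ![c * (0 : ℂ × ℂ).1, c' * (0 : ℂ × ℂ).2] ≠ 0 := fun c c' ↦ by
      rwa [show (![c * (0 : ℂ × ℂ).1, c' * (0 : ℂ × ℂ).2] : V2) = 0 by
        ext i; fin_cases i <;> simp]
    set Ψ : ℂ × ℂ → ℂ := fun z ↦ MvPolynomial.eval ![W.X (p + β * z.1) ^ 2,
      κ * (th h τ ![α * z.1, α' * z.2] / th m0 τ ![α * z.1, α' * z.2]) ^ 2,
      κ' * (th h' τ ![α * z.1, α' * z.2] / th m0 τ ![α * z.1, α' * z.2]) ^ 2] F with hΨ
    have hΨa : AnalyticAt ℂ Ψ 0 := by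
      simp only [hΨ, ← MvPolynomial.coe_aeval_eq_eval]
      refine AnalyticAt.aeval_mvPolynomial (fun i ↦ ?_) F
      fin_cases i
      · exact ((W.analytic_X hp).comp_of_eq (f := fun z : ℂ × ℂ ↦ p + β * z.1)
          (analyticAt_const.add (analyticAt_const.mul analyticAt_fst)) (by simp)).pow 2
      · exact analyticAt_const.mul (((hl h _ _).div (hl m0 _ _) (hv _ _)).pow 2)
      · exact analyticAt_const.mul (((hl h' _ _).div (hl m0 _ _) (hv _ _)).pow 2)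
    refine jet_tr hJ (hAa _) ((hl m0 α α).pow (4 * L)) (hA0 _ hp')
      (Ψ' := fun q ↦ Ψ (1 * q.1, α / α' * q.2))
      (hΨa.comp_of_eq (f := fun q : ℂ × ℂ ↦ (1 * q.1, α / α' * q.2))
        ((analyticAt_const.mul analyticAt_fst).prod (analyticAt_const.mul analyticAt_snd))
        (by simp [Prod.mk_zero_zero])) ?_ fun i j hij ↦ by
          rw [hJ.2.2.1 Ψ _ _ i j hΨa, hjet i j hij, mul_zero]
    filter_upwards [pl_reg α β hp', (hl m0 α α).continuousAt.eventually_ne (hv α α)] with q q1 q2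
    have e1 : (![pl α β ![p, a, a] q 1 - a, pl α β ![p, a, a] q 2 - a] : V2) =
        ![α * q.1, α * q.2] := by
      ext i
      fin_cases i <;> simp [pl] <;> ring
    have e2 : pl α β ![p, a, a] q 0 = p + β * q.1 := by simp [pl, mul_comm]
    have e3 : α' * (α / α' * q.2) = α * q.2 := by field_simp
    rw [hH2 _ q1, e1, e2, hH3 _ _ q2]
    simp only [hΨ, one_mul, e3, Pi.pow_apply]

end Pool.Agent.Lib.ECM.PT
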