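import Pool.Agent.Lib.ECM.PTDefs

/-! Block ZCV: counting isolated zeros, with a degree for each factor. -/

open Filter Topology Metric

namespace Pool.Agent.Lib.ECM.PT

open Pool.Agent.Lib.ZP3

namespace ZCV

open MvPolynomial ZC

/-- the reduced monomials -/
noncomputable def mon (D : Fin 3 → ℕ)
    (p : ((i : Fin 3) → Fin (D i + 1)) × (Fin 3 → Fin 2)) : R :=
  monomial (Finsupp.equivFunOnFinite.symm
    (Sum.elim (fun i ↦ (p.1 i : ℕ)) (fun i ↦ (p.2 i : ℕ)))) 1

theorem monomial_red (W : Fin 3 → WD) (F : Submodule ℂ R) (hF : ∀ i f, f * cub W i ∈ F)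
    (D : Fin 3 → ℕ) (N : ℕ) : ∀ m : Var →₀ ℕ, ∑ i, m (Sum.inr i) = N →
      (∀ i, 2 * m (Sum.inl i) + 3 * m (Sum.inr i) ≤ D i) →
      (monomial m 1 : R) ∈ Submodule.span ℂ (Set.range (mon D)) ⊔ F := by
  induction N using Nat.strong_induction_on with
  | _ N ih =>
  intro m hN hm
  by_cases h : ∀ i, m (Sum.inr i) < 2
  · refine Submodule.mem_sup_left (Submodule.subset_span
      ⟨(fun i ↦ ⟨m (Sum.inl i), by have := hm i; omega⟩, fun i ↦ ⟨m (Sum.inr i), h i⟩), ?_⟩)
    unfold mon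
    congr 2
    ext v
    cases v <;> simp
  · push Not at h
    obtain ⟨i, hi⟩ := h
    set m' : Var →₀ ℕ := m - Finsupp.single (Sum.inr i) 2 with hm'
    have hmm : m = m' + Finsupp.single (Sum.inr i) 2 := by
      rw [hm', tsub_add_cancel_of_le]
      exact Finsupp.single_le_iff.2 hi
    have hl : ∀ j, m' (Sum.inl j) = m (Sum.inl j) := fun j ↦ by
      rw [hmm]; simp
    have hr : ∀ j, m (Sum.inr j) = m' (Sum.inr j) + if i = j then 2 else 0 := fun j ↦ by
      conv_lhs => rw [hmm]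
      simp [Finsupp.single_apply]
    have hsum : ∑ j, m' (Sum.inr j) < N := by
      rw [← hN]
      simp only [hr, Finset.sum_add_distrib]
      simp
    have key : ∀ a : ℕ, a ≤ 3 → (monomial (m' + Finsupp.single (Sum.inl i) a) 1 : R) ∈
        Submodule.span ℂ (Set.range (mon D)) ⊔ F := by
      intro a ha
      refine ih _ hsum _ (by simp) fun j ↦ ?_
      have h1 := hm j
      rw [hr j, ← hl j] at h1
      simp only [Finsupp.add_apply, Finsupp.single_apply, Sum.inl.injEq, reduceCtorEq, if_false]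
      split_ifs at h1 ⊢ <;> omega
    have e : (monomial m 1 : R) = monomial m' 1 * cub W i +
        ((4 : ℂ) • monomial (m' + Finsupp.single (Sum.inl i) 3) 1 -
          (W i).g2 • monomial (m' + Finsupp.single (Sum.inl i) 1) 1 -
          (W i).g3 • monomial (m' + Finsupp.single (Sum.inl i) 0) 1) := by
      have e1 : ∀ (v : Var) (a : ℕ), (monomial (m' + Finsupp.single v a) 1 : R) =
          monomial m' 1 * X v ^ a := fun v a ↦ by
        rw [X_pow_eq_monomial, monomial_mul, mul_one]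
      rw [hmm, e1, e1, e1, e1]
      simp only [cub, smul_eq_C_mul, map_ofNat]
      ring
    rw [e]
    refine Submodule.add_mem _ (Submodule.mem_sup_right (hF _ _)) ?_
    exact Submodule.sub_mem _ (Submodule.sub_mem _ (Submodule.smul_mem _ _ (key 3 le_rfl))
      (Submodule.smul_mem _ _ (key 1 (by norm_num)))) (Submodule.smul_mem _ _ (key 0 (by norm_num)))

theorem Mv_red (W : Fin 3 → WD) (F : Submodule ℂ R) (hF : ∀ i f, f * cub W i ∈ F)
    (D : Fin 3 → ℕ) : TR.Mv D ≤ Submodule.span ℂ (Set.range (mon D)) ⊔ F := by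
  intro f hf
  rw [TR.Mv, mem_restrictSupport_iff] at hf
  rw [f.as_sum]
  refine Submodule.sum_mem _ fun m hm ↦ ?_
  have : (monomial m (coeff m f) : R) = coeff m f • monomial m 1 := by
    rw [smul_monomial, smul_eq_mul, mul_one]
  rw [this]
  exact Submodule.smul_mem _ _ (monomial_red W F hF D _ m rfl (hf (Finset.mem_coe.2 hm)))

theorem limit {A C P : ℕ} (h : ∀ n : ℕ, A * n ^ 3 ≤ 8 * P * (C + 3 * n) ^ 3) : A ≤ 216 * P := by
  by_contra hA
  push Not at hA
  set K := P * (8 * C ^ 3 + 72 * C ^ 2 + 216 * C) with hK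
  have h1 := h (K + 1)
  set n := K + 1 with hn
  have hn1 : 1 ≤ n := by omega
  have h2 : (216 * P + 1) * n ^ 3 ≤ A * n ^ 3 := Nat.mul_le_mul_right _ hA
  have h3 : 8 * P * (C + 3 * n) ^ 3 =
      P * (8 * C ^ 3) + P * (72 * C ^ 2) * n + P * (216 * C) * n ^ 2 + 216 * P * n ^ 3 := by ring
  have h4 : P * (8 * C ^ 3) ≤ P * (8 * C ^ 3) * n ^ 2 := Nat.le_mul_of_pos_right _ (by positivity)
  have h5 : P * (72 * C ^ 2) * n ≤ P * (72 * C ^ 2) * n ^ 2 :=
    Nat.mul_le_mul_left _ (by nlinarith)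
  have h6 : n ^ 3 = K * n ^ 2 + n ^ 2 := by rw [hn]; ring
  have h7 : K * n ^ 2 =
      P * (8 * C ^ 3) * n ^ 2 + P * (72 * C ^ 2) * n ^ 2 + P * (216 * C) * n ^ 2 := by
    rw [hK]; ring
  have h8 : 0 < n ^ 2 := by positivity
  have h9 : (216 * P + 1) * n ^ 3 = 216 * P * n ^ 3 + n ^ 3 := by ring
  omega

variable {W : Fin 3 → WD} {b : Fin 3 → Fin 3 → ℂ} {w : Fin 3 → ℕ}

theorem upper (hw : ∀ i, 0 < w i) {w0 : ℕ} {d : Fin 3 → ℕ} (hw0 : 0 < w0)
    (S : Finset (Fin 3 → ℂ)) (hS : ∀ z ∈ S, Reg W z)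
    (hdist : ∀ z ∈ S, ∀ z' ∈ S, z ≠ z' → ∃ i, z i - z' i ∉ (W i).Λ)
    (G : Set R) (hG : ∀ g ∈ G, g ∈ TR.Mv d) (hvan : ∀ g ∈ G, ∀ z ∈ S, Van W b w z w0 g)
    (hiso : ∀ z ∈ S, ∀ᶠ z' in 𝓝 z, (∀ g ∈ G, ev W z' g = 0) → z' = z) :
    ∃ c : ℕ, ∀ (n : ℕ) (f : R), f ∈ TR.Mv (fun i ↦ c + n * d i) ⊔ FS W b w S (n * w0) := by
  classical
  have h1 : ∀ z ∈ S, ∃ (s : R) (k : ℕ), ev W z s ≠ 0 ∧
      ∀ f ∈ (RingHom.ker (ev W z)) ^ k, s * f ∈ Ideal.span (G ∪ Set.range (cub W)) :=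
    fun z hz ↦ iso_pt (hS z hz) G (fun g hg ↦ van_ev (hvan g hg z hz) hw0) (hiso z hz)
  choose! s k hs hsk using h1
  choose! e he he' using exists_sep S hS hdist
  obtain ⟨c, hc⟩ := exists_cover (S.inf fun z ↦ (RingHom.ker (ev W z)) ^ k z) (by
    intro v
    refine ⟨∏ z ∈ S, (Polynomial.X - Polynomial.C (pt W z v)) ^ k z,
      Polynomial.monic_prod_of_monic _ _ fun z _ ↦ (Polynomial.monic_X_sub_C _).pow _, ?_⟩
    rw [Submodule.mem_finsetInf]
    intro z hz
    rw [map_prod]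
    refine Ideal.prod_mem _ hz ?_
    rw [map_pow]
    refine Ideal.pow_mem_pow ?_ _
    rw [RingHom.mem_ker]
    simp [ev])
  set t : R := ∑ z ∈ S, C (ev W z (s z))⁻¹ * e z * s z with ht
  have ht1 : ∀ z ∈ S, ev W z (1 - t) = 0 := by
    intro z hz
    rw [map_sub, map_one, ht, map_sum, Finset.sum_eq_single z]
    · rw [map_mul, map_mul, ZC.ev_C, he z hz, mul_one, inv_mul_cancel₀ (hs z hz), sub_self]
    · intro z' hz' hne
      rw [map_mul, map_mul, he' z' hz' z hz hne.symm, mul_zero, zero_mul]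
    · intro h
      exact absurd hz h
  have ht2 : ∀ f ∈ S.inf fun z ↦ (RingHom.ker (ev W z)) ^ k z,
      t * f ∈ Ideal.span (G ∪ Set.range (cub W)) := by
    intro f hf
    rw [ht, Finset.sum_mul]
    refine Ideal.sum_mem _ fun z hz ↦ ?_
    rw [mul_assoc]
    exact Ideal.mul_mem_left _ _ (hsk z hz f (Submodule.mem_finsetInf.1 hf z hz))
  have ht3 : ∀ K, (1 - t) ^ K ∈ FS W b w S K := by
    intro K z hz
    simpa using Van.pow hw (van_one hw (ht1 z hz)) K
  refine ⟨c, fun n ↦ ?_⟩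
  induction n with
  | zero => exact fun f ↦ Submodule.mem_sup_right (by simpa using FS_zero f)
  | succ n ih =>
    have hI : ∀ x ∈ Ideal.span (G ∪ Set.range (cub W)), ∀ r : R,
        r * x ∈ TR.Mv (fun i ↦ c + (n + 1) * d i) ⊔ FS W b w S ((n + 1) * w0) := by
      intro x hx
      induction hx using Submodule.span_induction with
      | mem x hx =>
        intro r
        rcases hx with hx | ⟨i, rfl⟩
        · obtain ⟨m, hm, φ, hφ, rfl⟩ := Submodule.mem_sup.1 (ih r)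
          rw [add_mul m]
          refine Submodule.add_mem_sup ?_ ?_
          · refine TR.Mv_mono (fun i ↦ ?_) (TR.Mv_mul hm (hG x hx))
            simp only [Pi.add_apply]
            rw [add_mul, one_mul, add_assoc]
          · rw [add_mul, one_mul]
            exact FS_mul hw hφ (hvan x hx)
        · exact Submodule.mem_sup_right (FS_mul_left hw r (FS_cub hS _ i))
      | zero => intro r; simp
      | add x y _ _ hx hy => intro r; rw [mul_add]; exact Submodule.add_mem _ (hx r) (hy r)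
      | smul a x _ hx => intro r; rw [smul_eq_mul, ← mul_assoc]; exact hx _
    intro f
    obtain ⟨m, hm, hp⟩ := hc f
    obtain ⟨q, hq⟩ := one_sub_dvd_one_sub_pow (1 - t) ((n + 1) * w0)
    have hf : f = m + ((f - m) * (1 - t) ^ ((n + 1) * w0) + q * (t * (f - m))) := by
      linear_combination (f - m) * hq
    rw [hf]
    refine Submodule.add_mem _ (Submodule.mem_sup_left
      (TR.Mv_mono (d := fun _ ↦ c) (fun i ↦ Nat.le_add_right _ _) hm))
      (Submodule.add_mem _ (Submodule.mem_sup_right (FS_mul_left hw _ (ht3 _)))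
        (hI _ (ht2 _ hp) q))

end ZCV

theorem st_ZCV : ZCV := by
  intro W b hb w e d w0 hw hwe hd S hS hdist G hG hvan hiso
  classical
  rcases Nat.eq_zero_or_pos (e 0) with h0 | h0
  · simp [h0]
  have hw0 : 0 < w0 := (Nat.mul_pos (hw 0) h0).trans_le (hwe 0)
  obtain ⟨c, hc⟩ := ZCV.upper hw hw0 S hS hdist G hG hvan hiso
  refine ZCV.limit (C := c + 1) fun n ↦ ?_
  obtain ⟨U, hU⟩ := ZC.lower hb hw S hS hdist (3 * n * w0) (fun i ↦ n * e i) (by
    intro α hα
    have h1 : ∀ i, w i * α i < n * w0 := fun i ↦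
      calc w i * α i < w i * (n * e i) := Nat.mul_lt_mul_of_pos_left (hα i) (hw i)
        _ = n * (w i * e i) := by ring
        _ ≤ n * w0 := Nat.mul_le_mul_left _ (hwe i)
    rw [Fin.sum_univ_three]
    linarith [h1 0, h1 1, h1 2])
  have h := ZC.card_le _ U (ZCV.mon fun i ↦ c + 3 * n * d i) hU fun f ↦
    (sup_le (ZCV.Mv_red W _ (fun i f ↦ ZC.FS_mul_left hw f (ZC.FS_cub hS _ i)) _) le_sup_right :
      _ ≤ _) (hc (3 * n) f)
  simp only [Fintype.card_prod, Fintype.card_coe, Fintype.card_pi, Fintype.card_fin,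
    Fin.prod_univ_three] at h
  have hi : ∀ i, c + 3 * n * d i + 1 ≤ (c + 1 + 3 * n) * d i := fun i ↦ by
    have := Nat.mul_le_mul_left (c + 1) (hd i)
    nlinarith
  calc _ = S.card * (n * e 0 * (n * e 1) * (n * e 2)) := by ring
    _ ≤ _ := h
    _ ≤ (c + 1 + 3 * n) * d 0 * ((c + 1 + 3 * n) * d 1) * ((c + 1 + 3 * n) * d 2) *
          (2 * 2 * 2) := by
        gcongr
        exacts [hi 0, hi 1, hi 2]
    _ = _ := by ring

end Pool.Agent.Lib.ECM.PT
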