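import Pool.Agent.Lib.ECM.PT_ZL1

/-! Zero lemma with a finite group of translations. -/

open Filter Topology Metric

namespace Pool.Agent.Lib.ECM.PT

open Pool.Agent.Lib.ZP3 Pool.Agent.Lib.ZP3.Zero

namespace ZLP

lemma exists_valid' (H : Submodule ℂ (Fin 3 → ℂ)) (J0 : Finset (Fin 3))
    (h0 : ∀ w : Fin 3 → ℂ, ∃ v ∈ H, ∀ j ∈ J0, v j = w j) : ∃ J : Finset (Fin 3), J0 ⊆ J ∧
    (∀ v ∈ H, (∀ j ∈ J, v j = 0) → v = 0) ∧ ∀ w : Fin 3 → ℂ, ∃ v ∈ H, ∀ j ∈ J, v j = w j := by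
  classical
  obtain ⟨J, hJ, hmax⟩ := Finset.exists_max_image
    (Finset.univ.filter fun J : Finset (Fin 3) ↦ J0 ⊆ J ∧
      ∀ w : Fin 3 → ℂ, ∃ v ∈ H, ∀ j ∈ J, v j = w j)
    Finset.card ⟨J0, Finset.mem_filter.2 ⟨Finset.mem_univ _, subset_rfl, h0⟩⟩
  rw [Finset.mem_filter] at hJ
  refine ⟨J, hJ.2.1, fun v hv h0 ↦ ?_, hJ.2.2⟩
  by_contra hne
  obtain ⟨i, hi⟩ := Function.ne_iff.mp hne
  have hi' : v i ≠ 0 := hi
  have hiJ : i ∉ J := fun h ↦ hi' (h0 i h)
  have := hmax (insert i J) (by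
    rw [Finset.mem_filter]
    refine ⟨Finset.mem_univ _, hJ.2.1.trans (Finset.subset_insert _ _), fun w ↦ ?_⟩
    obtain ⟨u, hu, hu'⟩ := hJ.2.2 w
    refine ⟨u + ((w i - u i) / v i) • v, add_mem hu (H.smul_mem _ hv), fun j hj ↦ ?_⟩
    rcases Finset.mem_insert.mp hj with rfl | hj
    · simp only [Pi.add_apply, Pi.smul_apply, smul_eq_mul]
      field_simp
      ring
    · simp [h0 j hj, hu' j hj])
  rw [Finset.card_insert_of_notMem hiJ] at this
  omega

lemma exists_basis' {H : Submodule ℂ (Fin 3 → ℂ)} {J : Finset (Fin 3)}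
    (h : ∀ w : Fin 3 → ℂ, ∃ v ∈ H, ∀ j ∈ J, v j = w j) : ∃ b : Fin 3 → Fin 3 → ℂ,
      LinearIndependent ℂ b ∧ (∀ i ∈ J, b i ∈ H ∧ b i i = 1) ∧
      (∀ i, ∀ j ∈ J, j ≠ i → b i j = 0) ∧ ∀ i, i ∉ J → b i = Pi.single i 1 := by
  classical
  choose v hv hv' using h
  refine ⟨fun i ↦ if i ∈ J then v (Pi.single i 1) else Pi.single i 1, ?_, fun i hi ↦ by
    simp [hi, hv, hv' _ i hi], fun i j hj hij ↦ ?_, fun i hi ↦ by simp [hi]⟩
  · rw [Fintype.linearIndependent_iff]
    intro c hc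
    have h1 : ∀ j ∈ J, c j = 0 := by
      intro j hj
      have := congrFun hc j
      rw [Finset.sum_apply, Finset.sum_eq_single j] at this
      · simpa [hj, hv' _ j hj] using this
      · intro i _ hij
        by_cases hi : i ∈ J
        · simp [hi, hv' _ j hj, Pi.single_eq_of_ne hij.symm]
        · simp [hi, Pi.single_eq_of_ne hij.symm]
      · simp
    intro j
    by_cases hj : j ∈ J
    · exact h1 j hj
    · have := congrFun hc j
      rw [Finset.sum_apply, Finset.sum_eq_single j] at this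
      · simpa [hj] using this
      · intro i _ hij
        by_cases hi : i ∈ J
        · simp [h1 i hi]
        · simp [hi, Pi.single_eq_of_ne hij.symm]
      · simp
  · by_cases hi : i ∈ J
    · simp [hi, hv' _ j hj, Pi.single_eq_of_ne hij]
    · simp [hi, Pi.single_eq_of_ne hij]

lemma surj_one {H : Submodule ℂ (Fin 3 → ℂ)} {v : Fin 3 → ℂ} (hv : v ∈ H) {i : Fin 3}
    (hi : v i ≠ 0) (w : Fin 3 → ℂ) : ∃ u ∈ H, ∀ j ∈ ({i} : Finset (Fin 3)), u j = w j :=
  ⟨(w i / v i) • v, H.smul_mem _ hv, fun j hj ↦ by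
    rw [Finset.mem_singleton.1 hj]
    simp [hi]⟩

lemma le_prod {e D : Fin 3 → ℕ} (h : ∀ i, 1 ≤ e i) (i : Fin 3) (hi : e i = D i) :
    D i ≤ e 0 * e 1 * e 2 := by
  have h0 := h 0
  have h1 := h 1
  have h2 := h 2
  rw [← hi]
  fin_cases i
  · calc e 0 = e 0 * 1 * 1 := by ring
      _ ≤ _ := by gcongr
  · calc e 1 = 1 * e 1 * 1 := by ring
      _ ≤ _ := by gcongr
  · calc e 2 = 1 * 1 * e 2 := by ring
      _ ≤ _ := by gcongr

end ZLP

open ZLP in
theorem st_ZL (hZC : ZCV) (hTR : TRV) : ZL := by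
  classical
  intro W β p r D T Γ hβ0 hβ1 hβ2 hD hr hr0 h0 hγ0 hΓ hinv hpΓ hno hT hT' hv
  have hp : Reg W p := by simpa using hpΓ 0 h0
  have hker := RingHom.ker_isPrime (ev W p)
  obtain ⟨P3, hP3, hP3'⟩ := Ideal.exists_minimalPrimes_le (IK_le_ker hp hv)
  have := hP3.1.1
  obtain ⟨P2, hP2, hP2'⟩ := Ideal.exists_minimalPrimes_le
    ((IK_mono (n := 2 * T) (by omega)).trans hP3.1.2)
  have := hP2.1.1
  obtain ⟨P1, hP1, hP1'⟩ := Ideal.exists_minimalPrimes_le
    ((IK_mono (n := T) (by omega)).trans hP2.1.2)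
  have := hP1.1.1
  obtain ⟨P0, hP0, hP0'⟩ := Ideal.exists_minimalPrimes_le
    ((IK_mono (n := 0) (by omega)).trans hP1.1.2)
  obtain ⟨F, hF, hF0m⟩ := exists_F (W := W) (r := r) (P := P0) (by
    obtain ⟨z, hz, hz'⟩ := hr0
    exact fun h ↦ hz' (h z hz)) (le_sup_left.trans hP0.1.2)
    (hP0.1.2 (Ideal.mem_sup_right (wd_mem_II (m := []) (by simp) le_rfl)))
  obtain ⟨n0, P, hP, hP', hPp, hFP⟩ : ∃ n0 P, P ∈ (IK W β r n0).minimalPrimes ∧
      IK W β r (n0 + T) ≤ P ∧ P ≤ RingHom.ker (ev W p) ∧ MvPolynomial.rename Sum.inl F ∈ P := by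
    obtain ⟨k, hk⟩ := chain_stalls W ![P0, P1, P2, P3] (fun k ↦ by
      fin_cases k
      exacts [hP0.1.1, hP1.1.1, hP2.1.1, hP3.1.1]) (by
        rw [Fin.monotone_iff_le_succ]
        intro k
        fin_cases k
        exacts [hP0', hP1', hP2']) (fun i ↦ hP0.1.2 (Ideal.mem_sup_left (cub_mem_KK i))) hF hF0m
    fin_cases k
    · have e : P0 = P1 := hk
      exact ⟨0, P0, hP0, by rw [zero_add, e]; exact hP1.1.2,
        hP0'.trans (hP1'.trans (hP2'.trans hP3')), hF0m⟩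
    · have e : P1 = P2 := hk
      exact ⟨T, P1, hP1, by rw [← two_mul, e]; exact hP2.1.2, hP1'.trans (hP2'.trans hP3'),
        hP0' hF0m⟩
    · have e : P2 = P3 := hk
      exact ⟨2 * T, P2, hP2, by rw [show 2 * T + T = 3 * T by ring, e]; exact hP3.1.2,
        hP2'.trans hP3', hP1' (hP0' hF0m)⟩
  have hpV : p ∈ VV W P := ⟨hp, fun f hf ↦ hPp hf⟩
  have hT0 : 1 ≤ T := by omega
  have hne := stab_ne_top hpV hF hFP
  have hD0 := hD 0
  have hD1 := hD 1
  have hD2 := hD 2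
  have hw1 : ![β 1, β 0, 0] ∈ hyp β := by simp [mem_hyp, mul_comm]
  have hw2 : (Pi.single 2 1 : Fin 3 → ℂ) ∈ hyp β := by simp [mem_hyp, hβ2]
  -- counting the translates by the finite group
  have cnt : ∀ J : Finset (Fin 3), (∀ v ∈ stab W P, (∀ j ∈ J, v j = 0) → v = 0) →
      (∀ w : Fin 3 → ℂ, ∃ v ∈ stab W P, ∀ j ∈ J, v j = w j) → ∀ i0 i1 : Fin 3, i1 ∈ J →
      (i0 = 1 ∨ i0 = 2) →
      (∀ v ∈ stab W P, (0 ∈ J → v 0 = 0) → v i0 = 0) →
      Γ.card * D i1 ≤ 5832 * (D 0 * D 1 * D 2) := by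
    intro J hJ1 hJ2 i0 i1 hi1 hi0 hz
    obtain ⟨b, hb1, hb2, hb3, hb4⟩ := exists_basis' hJ2
    have hval : ∀ (γ : Γ) (i : Fin 3), ((-∑ j ∈ J, γ.1 j • b j) + γ.1) i =
        γ.1 i - ∑ j ∈ J, γ.1 j * b j i := fun γ i ↦ by
      simp only [Pi.add_apply, Pi.neg_apply, Finset.sum_apply, Pi.smul_apply, smul_eq_mul]
      ring
    have h1 := key hZC hTR hD hT0 hr h0 hinv hpΓ hP hP' hpV hJ1 (Finset.univ : Finset Γ)
      (fun γ ↦ γ.1) (fun γ ↦ -∑ j ∈ J, γ.1 j • b j) (fun γ ↦ γ.2)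
      (fun γ ↦ neg_mem (Submodule.sum_mem _ fun j hj ↦ (stab W P).smul_mem _ (hb2 j hj).1))
      (fun γ j hj ↦ by
        rw [hval, Finset.sum_eq_single j (fun i _ hi ↦ by rw [hb3 i j hj hi.symm, mul_zero])
          (fun h ↦ absurd hj h), (hb2 j hj).2, mul_one, sub_self]
        exact zero_mem _)
      (fun γ _ γ' _ hne ↦ ⟨i0, by
        have e : ∀ γ : Γ, ∑ j ∈ J, γ.1 j * b j i0 = 0 := fun γ ↦
          Finset.sum_eq_zero fun j hj ↦ by
            by_cases hj0 : j = 0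
            · rw [hj0, hγ0 _ γ.2, zero_mul]
            · rw [hz _ (hb2 j hj).1 fun h ↦ hb3 j 0 h (Ne.symm hj0), mul_zero]
        rw [hval, hval, e, e, sub_zero, sub_zero]
        rcases hi0 with rfl | rfl
        exacts [(hΓ _ γ.2 _ γ'.2 (Subtype.coe_ne_coe.2 hne)).1,
          (hΓ _ γ.2 _ γ'.2 (Subtype.coe_ne_coe.2 hne)).2]⟩)
      hb1 (e := fun i ↦ if i ∈ J then D i else 1) hb3 (fun i ↦ by
        by_cases hi : i ∈ J
        · exact Or.inl ⟨(hb2 i hi).1, if_pos hi⟩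
        · exact Or.inr ⟨hi, Or.inr (if_neg hi)⟩)
    rw [Finset.card_univ, Fintype.card_coe] at h1
    refine le_trans (Nat.mul_le_mul_left _ ?_) h1
    exact le_prod (e := fun i ↦ if i ∈ J then D i else 1) (fun i ↦ by
      split_ifs
      exacts [hD i, le_rfl]) i1 (if_pos hi1)
  have fin1 : Γ.card * D 1 ≤ 5832 * (D 0 * D 1 * D 2) → Γ.card ≤ 5832 * (D 0 * D 2) := fun h ↦
    Nat.le_of_mul_le_mul_right (h.trans (le_of_eq (by ring))) hD1
  have fin2 : Γ.card * D 2 ≤ 5832 * (D 0 * D 1 * D 2) → Γ.card ≤ 5832 * (D 0 * D 1) := fun h ↦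
    Nat.le_of_mul_le_mul_right (h.trans (le_of_eq (by ring))) hD2
  have hΓ' : ∀ γ ∈ (Finset.univ : Finset Γ), ∀ γ' ∈ (Finset.univ : Finset Γ), γ ≠ γ' →
      ∃ i, ((0 : Fin 3 → ℂ) + γ.1) i - ((0 : Fin 3 → ℂ) + γ'.1) i ∉ (W i).Λ :=
    fun γ _ γ' _ hne ↦ ⟨1, by simpa using (hΓ _ γ.2 _ γ'.2 (Subtype.coe_ne_coe.2 hne)).1⟩
  by_cases a1 : ∃ v ∈ stab W P, v 1 ≠ 0 <;> by_cases a2 : ∃ v ∈ stab W P, v 2 ≠ 0
  · by_cases a3 : ∀ w : Fin 3 → ℂ, ∃ v ∈ stab W P, ∀ j ∈ ({1, 2} : Finset (Fin 3)), v j = w j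
    · have hJ1 : ∀ v ∈ stab W P, (∀ j ∈ ({1, 2} : Finset (Fin 3)), v j = 0) → v = 0 := by
        intro v hv hv'
        by_contra hv0
        have e1 := hv' 1 (by simp)
        have e2 := hv' 2 (by simp)
        have e0 : v 0 ≠ 0 := fun h ↦ hv0 (by ext i; fin_cases i <;> simpa)
        refine hne (Submodule.eq_top_iff'.mpr fun w ↦ ?_)
        obtain ⟨u, hu, hu'⟩ := a3 w
        have : w = u + ((w 0 - u 0) / v 0) • v := by
          ext i
          fin_cases i
          · simp [e0]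
          · simp [e1, hu' 1 (by simp)]
          · simp [e2, hu' 2 (by simp)]
        rw [this]
        exact add_mem hu ((stab W P).smul_mem _ hv)
      by_cases a4 : (Pi.single 0 1 : Fin 3 → ℂ) ∈ hyp β ⊔ stab W P
      · exfalso
        obtain ⟨b, hb1, hb2, hb3, hb4⟩ := exists_basis' a3
        have h1 := key hZC hTR hD hT0 hr h0 hinv hpΓ hP hP' hpV hJ1 (Finset.univ : Finset Unit)
          (fun _ ↦ 0) (fun _ ↦ 0) (fun _ ↦ h0) (fun _ ↦ zero_mem _) (fun _ j _ ↦ by simp)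
          (fun _ _ _ _ h ↦ absurd rfl h) hb1 (e := ![T, D 1, D 2]) hb3 (fun i ↦ by
            fin_cases i
            · exact Or.inr ⟨by simp, Or.inl ⟨by rw [hb4 _ (by simp)]; exact a4, rfl⟩⟩
            · exact Or.inl ⟨(hb2 _ (by simp)).1, rfl⟩
            · exact Or.inl ⟨(hb2 _ (by simp)).1, rfl⟩)
        simp only [Finset.card_univ, Fintype.card_unit, one_mul, Matrix.cons_val_zero,
          Matrix.cons_val_one, Matrix.cons_val_two, Matrix.head_cons, Matrix.tail_cons] at h1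
        have h2 := Nat.mul_lt_mul_of_pos_right hT' (Nat.mul_pos hD1 hD2)
        nlinarith
      · have hle : ∀ v ∈ stab W P, β 0 * v 0 = β 1 * v 1 := by
          intro v hv
          by_contra hv'
          have hd : β 0 * v 0 - β 1 * v 1 ≠ 0 := sub_ne_zero.2 hv'
          refine a4 (Submodule.mem_sup.mpr ⟨Pi.single 0 1 - (β 0 / (β 0 * v 0 - β 1 * v 1)) • v,
            ?_, _, (stab W P).smul_mem _ hv, sub_add_cancel _ _⟩)
          rw [mem_hyp, hβ2]
          simp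
          field_simp
          ring
        refine Or.inl (fin2 (cnt {0, 2} (fun v hv hv' ↦ ?_) (fun w ↦ ?_) 1 2 (by simp) (Or.inl rfl)
          fun v hv hv' ↦ ?_))
        · have e0 := hv' 0 (by simp)
          have e1 := hle v hv
          rw [e0, mul_zero, eq_comm, mul_eq_zero] at e1
          ext i
          fin_cases i
          exacts [e0, e1.resolve_left hβ1, hv' 2 (by simp)]
        · obtain ⟨u, hu, hu'⟩ := a3 ![0, β 0 * w 0 / β 1, w 2]
          refine ⟨u, hu, fun j hj ↦ ?_⟩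
          have e1 := hle u hu
          rw [hu' 1 (by simp)] at e1
          rcases Finset.mem_insert.1 hj with rfl | hj
          · refine mul_left_cancel₀ hβ0 (e1.trans ?_)
            simp
            field_simp
          · rw [Finset.mem_singleton.1 hj, hu' 2 (by simp)]
            simp
        · have e1 := hle v hv
          rw [hv' (by simp), mul_zero, eq_comm, mul_eq_zero] at e1
          exact e1.resolve_left hβ1
    · exfalso
      obtain ⟨v, hv, hv1⟩ := a1
      obtain ⟨J, hJ0, hJ1, hJ2⟩ := exists_valid' _ {1} (surj_one hv hv1)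
      obtain ⟨b, hb1, hb2, hb3, hb4⟩ := exists_basis' hJ2
      have h1J : (1 : Fin 3) ∈ J := hJ0 (by simp)
      obtain ⟨hb5, hb6⟩ := hb2 1 h1J
      have hc : b 1 2 ≠ 0 := by
        intro hc
        obtain ⟨v', hv', hv2⟩ := a2
        refine a3 fun w ↦ ⟨(w 2 / v' 2) • v' + (w 1 - w 2 / v' 2 * v' 1) • b 1,
          add_mem ((stab W P).smul_mem _ hv') ((stab W P).smul_mem _ hb5), fun j hj ↦ ?_⟩
        rcases Finset.mem_insert.1 hj with rfl | hj
        · simp [hb6]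
        · rw [Finset.mem_singleton.1 hj]
          simp [hc, hv2]
      obtain ⟨l, hl, hl'⟩ := hno _ hc
      have hdist : ∀ k k' : ℕ, k' < k → ((k : ℂ) * l) * b 1 2 - ((k' : ℂ) * l) * b 1 2 ∉ (W 2).Λ := by
        intro k k' hk
        have := hl' (k - k') (by omega)
        rw [Nat.cast_sub hk.le] at this
        convert this using 2
        ring
      have h1 := key hZC hTR hD hT0 hr h0 hinv hpΓ hP hP' hpV hJ1
        (Finset.range (5832 * (D 0 * D 1 * D 2) + 1)) (fun _ ↦ 0) (fun k ↦ ((k : ℂ) * l) • b 1)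
        (fun _ ↦ h0) (fun _ ↦ (stab W P).smul_mem _ hb5) (fun k j hj ↦ by
          by_cases hj1 : j = 1
          · subst hj1
            simpa [hb6] using nsmul_mem hl k
          · simp [hb3 1 j hj hj1])
        (fun k _ k' _ hne ↦ ⟨2, by
          simp only [add_zero, Pi.smul_apply, smul_eq_mul]
          rcases lt_or_gt_of_ne hne with h | h
          · exact fun h' ↦ hdist k' k h (by simpa using neg_mem h')
          · exact hdist k k' h⟩)
        hb1 (e := fun i ↦ if i ∈ J then D i else 1) hb3 (fun i ↦ by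
          by_cases hi : i ∈ J
          · exact Or.inl ⟨(hb2 i hi).1, if_pos hi⟩
          · exact Or.inr ⟨hi, Or.inr (if_neg hi)⟩)
      rw [Finset.card_range] at h1
      have h2 := hD1.trans (le_prod (e := fun i ↦ if i ∈ J then D i else 1) (fun i ↦ by
        split_ifs
        exacts [hD i, le_rfl]) 1 (if_pos h1J))
      have h3 := (Nat.mul_le_mul_left _ h2).trans h1
      omega
  · obtain ⟨v, hv, hv1⟩ := a1
    obtain ⟨J, hJ0, hJ1, hJ2⟩ := exists_valid' _ {1} (surj_one hv hv1)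
    push Not at a2
    exact Or.inr (fin1 (cnt J hJ1 hJ2 2 1 (hJ0 (by simp)) (Or.inr rfl) fun v hv _ ↦ a2 v hv))
  · obtain ⟨v, hv, hv2⟩ := a2
    obtain ⟨J, hJ0, hJ1, hJ2⟩ := exists_valid' _ {2} (surj_one hv hv2)
    push Not at a1
    exact Or.inl (fin2 (cnt J hJ1 hJ2 1 2 (hJ0 (by simp)) (Or.inl rfl) fun v hv _ ↦ a1 v hv))
  · exfalso
    push Not at a1 a2
    have hli : LinearIndependent ℂ ![Pi.single 0 1, ![0, β 0, 0],
        (Pi.single 2 1 : Fin 3 → ℂ)] ∧ LinearIndependent ℂ ![Pi.single 0 1, ![β 1, β 0, 0],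
        (Pi.single 2 1 : Fin 3 → ℂ)] := by
      constructor <;>
      · rw [Fintype.linearIndependent_iff]
        intro c hc
        have e0 := congrFun hc 0
        have e1 := congrFun hc 1
        have e2 := congrFun hc 2
        simp [Fin.sum_univ_three, hβ0] at e0 e1 e2
        intro i
        fin_cases i
        · simpa [e1] using e0
        · exact e1
        · exact e2
    by_cases a3 : ∃ v ∈ stab W P, v 0 ≠ 0
    · obtain ⟨v, hv, hv0⟩ := a3
      have he : (Pi.single 0 1 : Fin 3 → ℂ) ∈ stab W P := by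
        have : (Pi.single 0 1 : Fin 3 → ℂ) = (v 0)⁻¹ • v := by
          ext i
          fin_cases i
          · simp [hv0]
          · simp [a1 v hv]
          · simp [a2 v hv]
        rw [this]
        exact (stab W P).smul_mem _ hv
      have h1 := key hZC hTR hD hT0 hr h0 hinv hpΓ hP hP' hpV (J := {0}) (fun v hv hv' ↦ by
          ext i
          fin_cases i
          exacts [hv' 0 (by simp), a1 v hv, a2 v hv]) (Finset.univ : Finset Γ)
        (fun γ ↦ γ.1) (fun _ ↦ 0) (fun γ ↦ γ.2) (fun _ ↦ zero_mem _) (fun γ j hj ↦ by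
          rw [Finset.mem_singleton.1 hj]
          simp [hγ0 _ γ.2]) hΓ' hli.1 (e := ![D 0, T, T]) (fun i j hj hij ↦ by
          rw [Finset.mem_singleton.1 hj] at hij ⊢
          fin_cases i
          · exact absurd rfl hij
          · simp
          · simp) (fun i ↦ by
          fin_cases i
          · exact Or.inl ⟨he, rfl⟩
          · refine Or.inr ⟨by simp, Or.inl ⟨?_, rfl⟩⟩
            convert sub_mem (Submodule.mem_sup_left hw1)
              (Submodule.mem_sup_right ((stab W P).smul_mem (β 1) he)) using 1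
            ext k
            fin_cases k <;> simp [Pi.sub_apply, -Matrix.cons_sub]
          · exact Or.inr ⟨by simp, Or.inl ⟨Submodule.mem_sup_left hw2, rfl⟩⟩)
      simp only [Finset.card_univ, Fintype.card_coe, Matrix.cons_val_zero,
        Matrix.cons_val_one, Matrix.cons_val_two, Matrix.head_cons, Matrix.tail_cons] at h1
      have h2 : Γ.card * T ^ 2 ≤ Γ.card * (D 0 * T * T) :=
        Nat.mul_le_mul_left _ (by rw [mul_assoc, ← sq]; exact Nat.le_mul_of_pos_left _ hD0)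
      omega
    · push Not at a3
      have h1 := key hZC hTR hD hT0 hr h0 hinv hpΓ hP hP' hpV (J := ∅) (fun v hv _ ↦ by
          ext i
          fin_cases i
          exacts [a3 v hv, a1 v hv, a2 v hv]) (Finset.univ : Finset Γ)
        (fun γ ↦ γ.1) (fun _ ↦ 0) (fun γ ↦ γ.2) (fun _ ↦ zero_mem _) (fun γ j hj ↦ by simp at hj)
        hΓ' hli.2 (e := ![1, T, T]) (fun i j hj ↦ by simp at hj) (fun i ↦ by
          fin_cases i
          · exact Or.inr ⟨by simp, Or.inr rfl⟩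
          · exact Or.inr ⟨by simp, Or.inl ⟨Submodule.mem_sup_left hw1, rfl⟩⟩
          · exact Or.inr ⟨by simp, Or.inl ⟨Submodule.mem_sup_left hw2, rfl⟩⟩)
      simp only [Finset.card_univ, Fintype.card_coe, Matrix.cons_val_zero,
        Matrix.cons_val_one, Matrix.cons_val_two, Matrix.head_cons, Matrix.tail_cons, one_mul,
        ← sq] at h1
      omega

end Pool.Agent.Lib.ECM.PT
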