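import Pool.Agent.Lib.ECM.TH_All
import Pool.Agent.Lib.ECM.M_ALG
import Pool.Agent.Lib.ECM.M_ATLAS
import Pool.Agent.Lib.ECM.M_BR
import Pool.Agent.Lib.ECM.M_CF
import Pool.Agent.Lib.ECM.M_CNT
import Pool.Agent.Lib.ECM.M_CONJ
import Pool.Agent.Lib.ECM.M_DIM
import Pool.Agent.Lib.ECM.M_FIB
import Pool.Agent.Lib.ECM.M_FIN
import Pool.Agent.Lib.ECM.M_G1
import Pool.Agent.Lib.ECM.M_G3
import Pool.Agent.Lib.ECM.M_KER
import Pool.Agent.Lib.ECM.M_LINE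
import Pool.Agent.Lib.ECM.M_MARK
import Pool.Agent.Lib.ECM.M_MAX
import Pool.Agent.Lib.ECM.M_NF
import Pool.Agent.Lib.ECM.M_PACK
import Pool.Agent.Lib.ECM.M_PTG
import Pool.Agent.Lib.ECM.M_PUI
import Pool.Agent.Lib.ECM.M_SINV
import Pool.Agent.Lib.ECM.M_SQ
import Pool.Agent.Lib.ECM.M_TWOL
import Pool.Agent.Lib.ECM.B_AMP
import Pool.Agent.Lib.ECM.B_AMPT
import Pool.Agent.Lib.ECM.B_ARC
import Pool.Agent.Lib.ECM.B_CLR
import Pool.Agent.Lib.ECM.B_FIN2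
import Pool.Agent.Lib.ECM.B_GEN
import Pool.Agent.Lib.ECM.B_GP
import Pool.Agent.Lib.ECM.B_HSTEP
import Pool.Agent.Lib.ECM.B_HT1
import Pool.Agent.Lib.ECM.B_HT3
import Pool.Agent.Lib.ECM.B_HT4
import Pool.Agent.Lib.ECM.B_HTAB
import Pool.Agent.Lib.ECM.B_ILIFT
import Pool.Agent.Lib.ECM.B_IMOV
import Pool.Agent.Lib.ECM.B_LG
import Pool.Agent.Lib.ECM.B_LM
import Pool.Agent.Lib.ECM.B_LOW1
import Pool.Agent.Lib.ECM.B_LOW2
import Pool.Agent.Lib.ECM.B_MINK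
import Pool.Agent.Lib.ECM.B_NM
import Pool.Agent.Lib.ECM.B_POS
import Pool.Agent.Lib.ECM.B_POSA
import Pool.Agent.Lib.ECM.B_TWO
import Pool.Agent.Lib.ECM.B_UP
import Pool.Agent.Lib.ECM.FPB
import Pool.Agent.Lib.ECM.PT_ARI
import Pool.Agent.Lib.ECM.PT_ELL
import Pool.Agent.Lib.ECM.PT_ENG
import Pool.Agent.Lib.ECM.PT_EXT
import Pool.Agent.Lib.ECM.PT_JT
import Pool.Agent.Lib.ECM.PT_LAT
import Pool.Agent.Lib.ECM.PT_MLT
import Pool.Agent.Lib.ECM.PT_PTH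
import Pool.Agent.Lib.ECM.PT_SYS
import Pool.Agent.Lib.ECM.PT_TRV
import Pool.Agent.Lib.ECM.PT_UP
import Pool.Agent.Lib.ECM.PT_ZCV
import Pool.Agent.Lib.ECM.PT_ZL

/-! Assembly of the E x CM theorem, first part: statements without hypotheses. -/

namespace Pool.Agent.Lib.ECM

theorem a_TH : CJ.TH := ⟨th_BAS, th_HERM, th_LIN, th_GAUGE, th_INJ, th_JET⟩
theorem a_BR : St_BR := st_BR st_PUI
theorem a_CF : St_CF := st_CF a_BR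
theorem a_ATLAS : St_ATLAS := st_ATLAS th_BAS th_SYMK th_CHART2 th_OMD a_BR a_CF
theorem a_FIB : St_FIB := st_FIB th_TOR th_HERM
theorem a_G3 : St_G3 := st_G3 th_ZER th_RED th_SYMK st_SINV a_CF
theorem a_CNT : St_CNT := st_CNT th_RED th_HERM
theorem a_CONJ : St_CONJ := st_CONJ a_TH
theorem a_LINE : St_LINE := st_LINE a_TH
theorem a_TWOL : St_TWOL := st_TWOL a_TH
theorem a_SQ : St_SQ := st_SQ a_TH
theorem a_PACK : St_PACK := st_PACK a_CONJ a_SQ a_TWOL a_LINE th_TOR st_AUT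
theorem a_MAX : St_MAX := st_MAX a_SQ a_TWOL a_LINE th_TOR st_AUT
theorem a_ALG : St_ALG := st_ALG a_CONJ a_LINE st_AUT
theorem a_NF : St_NF := st_NF th_SYMT th_SYMU th_SYMJ th_SYMK
theorem a_G1 : St_G1 :=
  st_G1 th_BAS th_RIEMG th_NORM th_SYMT th_SYMU th_SYMJ th_SYMK th_GAUGE th_LIN
theorem a_KER : St_KER := st_KER a_LINE
theorem a_FINP : St_FINP := st_FINP th_BAS th_DER
theorem a_FIN2 : St_FIN2 := st_FIN2 a_FINP a_LINE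
theorem a_ARC : St_ARC := st_ARC th_BAS th_HERM th_SYMK th_RED th_GAUGE
theorem a_ILIFT : St_ILIFT := st_ILIFT th_HOL th_BAS th_GAUGE th_LIFT
theorem a_TWO : St_TWO := st_TWO st_HT3
theorem a_HSTEP : St_HSTEP := st_HSTEP st_HT1 st_HT3
theorem a_LOW1 : St_LOW1 := st_LOW1 st_HT1 st_HT3 st_NM a_TWO st_MINK a_HSTEP
theorem a_LOW2 : St_LOW2 := st_LOW2 st_HT1 st_HT3 st_NM a_TWO st_MINK a_HSTEP
theorem a_UP : St_UP := st_UP st_HT3 st_NM a_TWO a_LOW1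
theorem a_GEN : St_GEN := st_GEN st_NM st_CLR
theorem a_HTB : St_HTB := st_HTB a_FIN2 a_ARC st_LG a_CONJ st_AUT a_PACK st_MARK a_LINE
theorem a_PTH : PT.PTH :=
  PT.st_PTH th_BAS th_LIN th_EST1 th_EST2 th_GAUGE th_SYMK
    (PT.st_ENG PT.st_JT PT.st_ARI PT.st_EXT)
    (PT.st_UP th_BAS PT.st_JT PT.st_ELL (PT.st_ZL PT.st_ZCV PT.st_TRV))
    (PT.st_SYS th_BAS th_DER) (PT.st_MLT th_BAS th_HERM th_EST1) (PT.st_LAT th_BAS th_HERM)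

theorem a_HTA (hR : St_ROOTS) : St_HTA :=
  st_HTA a_FIN2 a_ARC st_LG
    (st_AMPT (st_AMP st_HT3 st_GP st_CLR a_GEN (st_POS st_NM a_TWO hR st_LM st_POSA) a_LOW1 a_LOW2
      a_UP) a_ILIFT st_IMOV th_LIN th_GAUGE th_TOR) a_CONJ st_AUT a_PACK st_MARK a_LINE

theorem a_MAIN (hR : St_ROOTS) (hN : St_NOR) (hP : St_PT) (hG : St_G4) : St_MAIN :=
  st_MAIN st_DIM a_G3 a_ATLAS hG a_ALG
    (st_FIN a_ATLAS (a_HTA hR)
      (st_PTG a_G1 a_KER a_PACK a_HTB hP a_LINE th_GAUGE st_HT1 st_HT3 st_HT4) a_CNT st_MARK a_MAX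
      a_PACK a_CONJ a_LINE st_AUT hN)

end Pool.Agent.Lib.ECM
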