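import Pool.Agent.Lib.ECM.G4E

/-! The abstract theorem: a singular relation, or no relation at all. -/

open Complex Matrix Set
open scoped ComplexConjugate

noncomputable section

namespace Pool.Agent.Lib.ECM.G4

theorem Same.span {ρ ρ' : ℝ} {f f' : ℂ → V5} (h : Same ρ f ρ' f') :
    Submodule.span ℂ (f '' hp ρ) = Submodule.span ℂ (f' '' hp ρ') := by
  have key : ∀ (ρ : ℝ) (f : ℂ → V5), Submodule.span ℂ (f '' hp ρ) =
      (Sp 1 ρ f).map (LinearMap.funLeft ℂ ℂ fun a : Fin 5 ↦ fun _ : Fin 1 ↦ a) := fun ρ f ↦ by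
    rw [Sp, Submodule.map_span, image_image]
    congr 2
    funext w a
    simp [pw, pure, LinearMap.funLeft]
  rw [key, key, h 1]

theorem perp_span {ρ : ℝ} {f : ℂ → V5} {x : V5} (hx : x ∈ Perp ρ f) :
    ∀ y ∈ Submodule.span ℂ (f '' hp ρ), Bf x y = 0 := by
  intro y hy
  induction hy using Submodule.span_induction with
  | mem y hy => obtain ⟨w, hw, rfl⟩ := hy; exact hx w hw
  | zero => simp [Bf, lw]
  | add a b _ _ h1 h2 => rw [Bf_add', h1, h2, add_zero]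
  | smul c a _ h1 => rw [Bf_smul', h1, mul_zero]

theorem Same.perp {ρ ρ' : ℝ} {f f' : ℂ → V5} (h : Same ρ f ρ' f') : Perp ρ f = Perp ρ' f' :=
  le_antisymm (fun _ hx w hw ↦ perp_span hx _ (h.span ▸ Submodule.subset_span ⟨w, hw, rfl⟩))
    fun _ hx w hw ↦ perp_span hx _ (h.span ▸ Submodule.subset_span ⟨w, hw, rfl⟩)

theorem mem_rperp {ρ : ℝ} {f : ℂ → V5} {x : V5} :
    x ∈ RPerp ρ f ↔ x ∈ Perp ρ f ∧ star x ∈ Perp ρ f :=
  and_congr_right fun _ ↦ forall₂_congr fun w _ ↦ by rw [Bf_star', map_eq_zero]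

theorem Same.rperp {ρ ρ' : ℝ} {f f' : ℂ → V5} (h : Same ρ f ρ' f') : RPerp ρ f = RPerp ρ' f' := by
  ext x
  rw [mem_rperp, mem_rperp, h.perp]

theorem perp_act {ρ : ℝ} {f : ℂ → V5} {g : Z5} (hg : g ∈ Gam ρ f) {u : V5} (hu : u ∈ Perp ρ f) :
    cz g *ᵥ u ∈ Perp ρ f := by
  rw [← hg.2.perp]
  exact fun w hw ↦ (hg.1.Bf _ _).trans (hu w hw)

theorem span_top {ρ : ℝ} {f : ℂ → V5} (h : Perp ρ f = ⊥) (x : V5) :
    x ∈ Submodule.span ℂ (f '' hp ρ) := by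
  refine mem_of_dual _ fun l hl ↦ ?_
  let r : V5 := fun i ↦ l (Pi.single i 1)
  have e : ∀ y, Bf ![-r 4, r 3, -r 2 / 2, r 1, -r 0] y = l y := fun y ↦ by
    conv_rhs => rw [pi_eq_sum_univ' y]
    simp [Bf_eq, Fin.sum_univ_five, r]
    ring
  have : ![-r 4, r 3, -r 2 / 2, r 1, -r 0] ∈ Perp ρ f := fun w hw ↦ by
    rw [e, hl _ (Submodule.subset_span ⟨w, hw, rfl⟩)]
  rw [h, Submodule.mem_bot] at this
  rw [← e, this]
  simp [Bf]

theorem Bf_map (σ : ℂ ≃+* ℂ) (x y : V5) : Bf (σ ∘ x) (σ ∘ y) = σ (Bf x y) := by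
  simp [Bf_eq, map_ofNat]

theorem st_ABS (hFP : St_FP) (hPOL : St_POL) (hBIG : St_BIG) (hL1 : St_LIN1) (hL2 : St_LIN2)
    (hRAT : St_RAT) : St_ABS := by
  intro S j
  by_cases h : Perp (S.ρ j) (S.f j) = ⊥
  · refine Or.inr fun e ↦ ?_
    obtain ⟨ρ, f, k1, k2, k3⟩ := hFP.pow S j e
    have hw : ((ρ - 1 : ℝ) : ℂ) ∈ hp ρ := by simp [hp]
    have hD := k1.dom _ hw
    let T : Submodule ℂ M5 :=
      { carrier := {ξ | ∀ u ∈ Sp e ρ f, der (Fin e) ξ *ᵥ u ∈ Sp e ρ f}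
        add_mem' := fun h1 h2 u hu ↦ by
          rw [der_add, add_mulVec]; exact add_mem (h1 u hu) (h2 u hu)
        zero_mem' := fun u _ ↦ by
          rw [show der (Fin e) (0 : M5) = 0 from (derL (Fin e)).map_zero, zero_mulVec]
          exact zero_mem _
        smul_mem' := fun c _ h1 u hu ↦ by
          rw [der_smul, smul_mulVec]; exact Submodule.smul_mem _ _ (h1 u hu) }
    refine ⟨star (f (ρ - 1 : ℝ)), fun k ↦ hD.N0 (by rw [← Nn_eq, k]; simp [Bf, lw]), ?_⟩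
    rw [← k2 e]
    exact hBIG e _ _ hD (pw_mem f hw) fun x hx ↦
      hPOL ρ f k1 T k3 _ hw x (span_top (k2.perp.trans h) x) hx
  · left
    obtain ⟨ρ, f, k1, k2, k3⟩ := hFP.one S j _ fun g hg u hu ↦ perp_act hg hu
    have h1 : RPerp (S.ρ j) (S.f j) ≠ ⊥ := by
      rw [← k2.perp] at h k3
      rw [← k2.rperp]
      exact hL1 ρ f k1 h k3
    have h2 : ∀ σ : ℂ ≃+* ℂ, ∀ x ∈ RPerp (S.ρ j) (S.f j), σ ∘ x ∈ Perp (S.ρ j) (S.f j) := by
      intro σ x hx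
      obtain ⟨U, u1, u2⟩ := hRAT.conj σ (RPerp (S.ρ j) (S.f j))
      have sur : ∀ u : V5, ∃ y : V5, u = σ ∘ y := fun u ↦ ⟨σ.symm ∘ u, by funext i; simp⟩
      obtain ⟨ρ', f', a1, a2, a3⟩ := hFP.one S j U fun g hg u hu ↦ by
        obtain ⟨y, rfl⟩ := sur u
        rw [← show σ ∘ (cz g *ᵥ y) = cz g *ᵥ (σ ∘ y) from cz_map σ.toRingHom g y, u2, mem_rperp,
          cz_star]
        rw [u2, mem_rperp] at hu
        exact ⟨perp_act hg hu.1, perp_act hg hu.2⟩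
      rw [← a2.perp]
      refine hL2.le ρ' f' a1 U (u1 ▸ hL2.dim _ _ (S.arc j)) (fun u hu hu' ↦ ?_) a3 ((u2 x).2 hx)
      obtain ⟨y, rfl⟩ := sur u
      rw [hL2.nd _ _ (S.arc j) y ((u2 y).1 hu) fun y' hy' ↦ by
        simpa [Bf_map] using hu' _ ((u2 y').2 hy')]
      funext i
      simp
    obtain ⟨x, x0, hx⟩ := hRAT.rat _ h1 fun σ x hx ↦
      mem_rperp.2 ⟨h2 σ x hx, h2 (σ.trans starRingAut) x hx⟩
    exact ⟨x, x0, hx.1⟩

end Pool.Agent.Lib.ECM.G4
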