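import Pool.Agent.Lib.ECM.G4Blue

/-! The big cell: a subspace of a tensor power stable under the nilpotent radical contains the
powers of all isotropic vectors of the big cell. -/

open Complex Matrix Set

noncomputable section

namespace Pool.Agent.Lib.ECM.G4

theorem big_hasDeriv_pw (e : ℕ) {u : ℂ → V5} {t : ℂ} (A : M5) (hu : HasDerivAt u (A *ᵥ u t) t) :
    HasDerivAt (fun s ↦ pw e (u s)) (der (Fin e) A *ᵥ pw e (u t)) t := by
  rw [pw, der_pure]
  refine hasDerivAt_pi.2 fun i ↦ ?_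
  have h := HasDerivAt.fun_finsetProd (u := Finset.univ)
    fun (a : Fin e) _ ↦ hasDerivAt_pi.1 hu (i a)
  refine h.congr_deriv (Eq.symm ?_)
  rw [Finset.sum_apply]
  refine Finset.sum_congr rfl fun c _ ↦ ?_
  rw [pure, ← Finset.mul_prod_erase _ _ (Finset.mem_univ c), Function.update_self, smul_eq_mul,
    mul_comm]
  congr 1
  exact Finset.prod_congr rfl fun a ha ↦ by rw [Function.update_of_ne (Finset.ne_of_mem_erase ha)]

theorem big_flow (e : ℕ) (U : Submodule ℂ ((Fin e → Fin 5) → ℂ)) {u : ℂ → V5} (A : M5)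
    (hu : ∀ t, HasDerivAt u (A *ᵥ u t) t) (h0 : pw e (u 0) ∈ U)
    (hA : ∀ v ∈ U, der (Fin e) A *ᵥ v ∈ U) (t : ℂ) : pw e (u t) ∈ U := by
  have hd : ∀ (l : ((Fin e → Fin 5) → ℂ) →ₗ[ℂ] ℂ) (s : ℂ),
      HasDerivAt (fun s ↦ l (pw e (u s))) (l (der (Fin e) A *ᵥ pw e (u s))) s := fun l s ↦
    (LinearMap.toContinuousLinearMap l).hasFDerivAt.comp_hasDerivAt s
      (big_hasDeriv_pw e A (hu s))
  refine mem_of_dual U fun l hl ↦ zero_of_closed isPreconnected_univ (mem_univ 0)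
    {f | ∃ l : ((Fin e → Fin 5) → ℂ) →ₗ[ℂ] ℂ, (∀ y ∈ U, l y = 0) ∧ f = fun s ↦ l (pw e (u s))}
    ?_ _ ⟨l, hl, rfl⟩ t (mem_univ t)
  rintro f ⟨l, hl, rfl⟩
  refine ⟨?_, hl _ h0, l.comp (der (Fin e) A).mulVecLin, fun y hy ↦ hl _ (hA y hy), ?_⟩
  · exact fun s _ ↦ Differentiable.analyticAt (fun s ↦ (hd l s).differentiableAt) s
  · funext s
    exact (hd l s).deriv

theorem st_BIG : St_BIG := by
  intro e U ω hω h0 hA
  have N0 := hω.N0
  have hN := Nn_eq ω
  have hN' : Bf (star ω) ω = Nn ω := by rw [Bf_comm, hN]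
  have key : ∀ u : V5, Bf u u = 0 → Bf u (star ω) = Nn ω → pw e u ∈ U := by
    intro u hu huy
    obtain ⟨x, hx⟩ : ∃ x : V5, x = (Nn ω : ℂ)⁻¹ • (u - ω - (Bf u ω / Nn ω) • star ω) := ⟨_, rfl⟩
    have x1 : Bf x (star ω) = 0 := by
      simp only [hx, Bf_smul, Bf_sub, huy, hN, hω.iso']
      ring
    have x2 : Bf x ω = 0 := by
      simp only [hx, Bf_smul, Bf_sub, hN', hω.iso]
      field_simp
      ring
    have x3 : Bf x x = -2 * Bf u ω / Nn ω ^ 2 := by
      conv_lhs => rw [hx, Bf_smul', Bf_sub', Bf_sub', Bf_smul', ← hx, x1, x2, hx]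
      simp only [Bf_smul, Bf_sub, hu, Bf_comm ω u, Bf_comm (star ω) u, huy]
      field_simp
      ring
    have := big_flow e U (u := fun t ↦ ω + (t * Nn ω) • x - (t ^ 2 / 2 * (Nn ω * Bf x x)) • star ω)
      (wedge (star ω) x) (fun t ↦ ?_) (by simpa using h0) (hA x x1) 1
    · convert this using 2
      rw [x3, hx]
      match_scalars <;> field_simp <;> ring
    · have h1 := (((hasDerivAt_id t).mul_const (Nn ω : ℂ)).smul_const x).const_add ω
      have h2 := ((((hasDerivAt_id t).pow 2).div_const 2).mul_const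
        ((Nn ω : ℂ) * Bf x x)).smul_const (star ω)
      refine (h1.fun_sub h2).congr_deriv ?_
      simp only [wedge_mulVec, Bf_sub, Bf_add, Bf_smul, hN, x1, hω.iso', Bf_comm ω x,
        Bf_comm (star ω) x, x2]
      match_scalars <;> simp <;> ring
  intro u hu huy
  have h1 := key (((Nn ω : ℂ) / Bf u (star ω)) • u) (by rw [Bf_smul, Bf_smul', hu]; ring)
    (by rw [Bf_smul]; field_simp)
  rw [pw_smul] at h1
  exact (U.smul_mem_iff (pow_ne_zero _ (div_ne_zero N0 huy))).1 h1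

end Pool.Agent.Lib.ECM.G4
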