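import Pool.Agent.Lib.ECM.G4Blue

/-! Block DOM: the period vector of a point of the Siegel space lies in the period domain. -/

open Complex Matrix Set
open scoped Real

noncomputable section

namespace Pool.Agent.Lib.ECM.G4

theorem dom_real {X0 X1 X2 y0 y1 y2 p0 p1 p2 p3 p4 : ℝ} (h0 : 0 < y0) (hd : y1 ^ 2 < y0 * y2)
    (e1 : -p0 * (X0 * y2 + X2 * y0 - 2 * X1 * y1) + p1 * y2 + p3 * y0 - 2 * p2 * y1 = 0)
    (e2 : -(p0 * (X0 * X2 - X1 ^ 2 - (y0 * y2 - y1 ^ 2)) + p4) + p1 * X2 + p3 * X0 -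
      2 * p2 * X1 = 0) :
    -2 * p0 * p4 + 2 * p1 * p3 - 2 * p2 ^ 2 ≤ 0 ∧ (0 ≤ -2 * p0 * p4 + 2 * p1 * p3 - 2 * p2 ^ 2 →
      p0 = 0 ∧ p1 = 0 ∧ p2 = 0 ∧ p3 = 0 ∧ p4 = 0) := by
  have hd' : 0 < y0 * y2 - y1 ^ 2 := sub_pos.2 hd
  have key : y0 ^ 2 * (-2 * p0 * p4 + 2 * p1 * p3 - 2 * p2 ^ 2) =
      -2 * ((y0 * y2 - y1 ^ 2) * (y0 * p0) ^ 2 + (y0 * (p2 - p0 * X1) - y1 * (p1 - p0 * X0)) ^ 2 +
        (y0 * y2 - y1 ^ 2) * (p1 - p0 * X0) ^ 2) := by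
    linear_combination 2 * y0 * (p1 - p0 * X0) * e1 + 2 * y0 ^ 2 * p0 * e2
  have a1 := mul_nonneg hd'.le (sq_nonneg (y0 * p0))
  have a2 := sq_nonneg (y0 * (p2 - p0 * X1) - y1 * (p1 - p0 * X0))
  have a3 := mul_nonneg hd'.le (sq_nonneg (p1 - p0 * X0))
  refine ⟨nonpos_of_mul_nonpos_right ?_ (pow_pos h0 2), fun h ↦ ?_⟩
  · rw [key]
    linarith
  · have a4 := mul_nonneg (sq_nonneg y0) h
    rw [key] at a4
    have b0 : p0 = 0 := by
      have : (y0 * y2 - y1 ^ 2) * (y0 * p0) ^ 2 = 0 := by linarith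
      simpa [hd'.ne', h0.ne'] using this
    subst b0
    have b1 : p1 = 0 := by
      have : (y0 * y2 - y1 ^ 2) * (p1 - 0 * X0) ^ 2 = 0 := by linarith
      simpa [hd'.ne'] using this
    subst b1
    have b2 : p2 = 0 := by
      have : (y0 * (p2 - 0 * X1) - y1 * (0 - 0 * X0)) ^ 2 = 0 := by linarith
      simpa [h0.ne'] using this
    subst b2
    have b3 : p3 = 0 := by simpa [h0.ne'] using e1
    subst b3
    exact ⟨rfl, rfl, rfl, rfl, by simpa using e2⟩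

theorem st_DOM : St_DOM := by
  intro τ hτ
  have hN : Nn (om τ) = 4 * dY τ := by
    simp [Nn, Bf_eq, om, dY, pow_two]
    ring
  refine ⟨⟨?_, ?_, fun x h1 h2 hx ↦ ?_⟩, hN⟩
  · simp [Bf_eq, om]
    ring
  · rw [hN, dY]
    linarith [hτ.2]
  · have r1 := congrArg re h1
    have i1 := congrArg im h1
    have r2 := congrArg re h2
    have i2 := congrArg im h2
    simp [Bf_eq, om, pow_two] at r1 i1 r2 i2
    obtain ⟨p1, p2⟩ := dom_real (X0 := (τ 0).re) (X1 := (τ 1).re) (X2 := (τ 2).re)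
      (p0 := (x 0).re) (p1 := (x 1).re) (p2 := (x 2).re) (p3 := (x 3).re) (p4 := (x 4).re)
      hτ.1 hτ.2 (by linarith) (by linarith)
    obtain ⟨q1, q2⟩ := dom_real (X0 := (τ 0).re) (X1 := (τ 1).re) (X2 := (τ 2).re)
      (p0 := (x 0).im) (p1 := (x 1).im) (p2 := (x 2).im) (p3 := (x 3).im) (p4 := (x 4).im)
      hτ.1 hτ.2 (by linarith) (by linarith)
    have hx' : Nn x = (-2 * (x 0).re * (x 4).re + 2 * (x 1).re * (x 3).re - 2 * (x 2).re ^ 2) +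
        (-2 * (x 0).im * (x 4).im + 2 * (x 1).im * (x 3).im - 2 * (x 2).im ^ 2) := by
      simp [Nn, Bf_eq]
      ring
    by_contra hn
    rw [hx', not_lt] at hn
    obtain ⟨a0, a1, a2, a3, a4⟩ := p2 (by linarith)
    obtain ⟨b0, b1, b2, b3, b4⟩ := q2 (by linarith)
    refine hx (funext fun i ↦ ?_)
    fin_cases i
    exacts [Complex.ext a0 b0, Complex.ext a1 b1, Complex.ext a2 b2, Complex.ext a3 b3,
      Complex.ext a4 b4]

end Pool.Agent.Lib.ECM.G4
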