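import Pool.Agent.Lib.ECM.G4E

/-! End of the block G4: the abstract theorem gives Zariski density. -/

open Complex Matrix Set
open scoped Real

noncomputable section

namespace Pool.Agent.Lib.ECM

namespace G4END

open G4

theorem Bf_om (x : V5) (τ : T3) : Bf x (om τ) =
    x 3 * τ 0 + -2 * x 2 * τ 1 + x 1 * τ 2 + x 0 * (τ 1 ^ 2 - τ 0 * τ 2) + -x 4 := by
  simp [Bf_eq, om]
  ring

theorem om_iso (τ : T3) : Bf (om τ) (om τ) = 0 := by
  rw [Bf_om]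
  simp [om]
  ring

theorem fib {P : Id} (hH : HG P) (hFIB : St_FIB) (hG3 : St_G3) {x : Ch → ℂ} (hx : x ∈ Cv P) :
    {τ | Over x τ}.Countable := by
  by_cases h : ∀ m, Ev m → x m ≠ 0
  · exact hFIB x h
  · refine Set.Countable.mono (fun τ hτ ↦ ?_) hH
    refine ⟨⟨x, hx, hτ⟩, hG3.sing τ hτ.1 fun g ↦ h fun m hm ↦ ?_⟩
    rw [hτ.2.2 m]
    exact div_ne_zero (g m hm) hτ.2.1

theorem lt_log {r : ℝ} (hr : 0 < r) {w : ℂ} (h : ‖exp w‖ < r) : w ∈ hp (Real.log r) := by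
  rw [norm_exp] at h
  exact (Real.lt_log_iff_exp_lt hr).2 h

/-- a polynomial which vanishes off a hyperplane section of the quadric is zero -/
theorem poly_zero {Q : MvPolynomial (Fin 3) ℂ} {y : V5} (hy : y ≠ 0)
    (h : ∀ τ : T3, Bf y (om τ) ≠ 0 → MvPolynomial.eval τ Q = 0) : Q = 0 := by
  let R : MvPolynomial (Fin 3) ℂ :=
    MvPolynomial.C (y 3) * MvPolynomial.X 0 + MvPolynomial.C (-2 * y 2) * MvPolynomial.X 1 +
      MvPolynomial.C (y 1) * MvPolynomial.X 2 +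
      MvPolynomial.C (y 0) * (MvPolynomial.X 1 ^ 2 - MvPolynomial.X 0 * MvPolynomial.X 2) +
      MvPolynomial.C (-y 4)
  have hR : ∀ τ : T3, MvPolynomial.eval τ R = Bf y (om τ) := fun τ ↦ by
    rw [Bf_om]
    simp [R]
  have h1 : Q * R = 0 := MvPolynomial.funext fun τ ↦ by
    rw [map_mul, map_zero, hR]
    by_cases k : Bf y (om τ) = 0
    · rw [k, mul_zero]
    · rw [h τ k, zero_mul]
  refine (mul_eq_zero.1 h1).resolve_right fun k ↦ hy ?_
  have h2 : ∀ a b c : ℂ,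
      y 3 * a + -2 * y 2 * b + y 1 * c + y 0 * (b ^ 2 - a * c) + -y 4 = 0 := fun a b c ↦ by
    have := hR ![a, b, c]
    rw [k, map_zero, Bf_om] at this
    simpa using this.symm
  have a0 := h2 0 0 0
  have a1 := h2 1 0 0
  have a2 := h2 0 1 0
  have a3 := h2 0 (-1) 0
  have a4 := h2 0 0 1
  funext i
  fin_cases i
  · change y 0 = 0
    linear_combination (a2 + a3) / 2 - a0
  · change y 1 = 0
    linear_combination a4 - a0
  · change y 2 = 0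
    linear_combination (a3 - a2) / 4
  · change y 3 = 0
    linear_combination a1 - a0
  · change y 4 = 0
    linear_combination -a0

/-- no chart satisfies a rational linear equation -/
theorem no_sing {P : Id} (A : Atlas P) (hH : HG P) (hSINV : St_SINV) (j : Fin A.N)
    {x : Fin 5 → ℤ} (hx : x ≠ 0) (h : (fun i ↦ (x i : ℂ)) ∈ Perp (Real.log (A.r j))
      fun w ↦ om (cht (A.mm j) (A.g j) w)) : False := by
  refine A.unc j (A.r j) (A.pos j) ((Set.Countable.image hH (A.γ j).act).mono ?_)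
  rintro _ ⟨w, hw, rfl⟩
  replace hw : ‖exp w‖ < A.r j := lt_of_lt_of_le hw (min_le_left _ _)
  obtain ⟨k1, -, k2⟩ := A.mem j w hw
  have k3 := (A.γ j).inv_mem _ k1
  have k4 := (A.γ j).act_inv _ k1
  refine ⟨_, ⟨k2, hSINV _ k3 _ ((A.γ j).act_mem _ k3) _ ((A.γ j).bij _ k3) ((A.γ j).lat _ k3)
    ((A.γ j).herm _ k3) ?_⟩, k4⟩
  rw [k4]
  have k5 := h w (lt_log (A.pos j) hw)
  rw [Bf_om] at k5
  refine ⟨x 3, -2 * x 2, x 1, x 0, -x 4, fun k ↦ hx ?_, by exact_mod_cast k5⟩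
  obtain ⟨b3, b2, b1, b0, b4⟩ := k
  funext i
  fin_cases i
  · exact b0
  · exact b1
  · change x 2 = 0
    omega
  · exact b3
  · change x 4 = 0
    omega

end G4END

open G4 G4END in
theorem st_G4 (hABS : G4.St_ABS) (hSYS : G4.St_SYS) (hPOLY : G4.St_POLY) (hEQV : G4.St_EQV)
    (hRED : St_RED) (hFIB : St_FIB) (hG3 : St_G3) (hSINV : St_SINV) : St_G4 := by
  rintro P ⟨A⟩ hH Q hQ
  obtain ⟨S, e, he, hS⟩ := hSYS P A hH
  obtain ⟨d, l, hl⟩ := hPOLY Q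
  let D : Fin S.N × Z5 → Set ℂ := fun p ↦
    {w ∈ hp (S.ρ p.1) | Ort p.2 ∧ l (pw d (cz p.2 *ᵥ S.f p.1 w)) = 0}
  have hD : ∀ p, (D p).Countable := by
    rintro ⟨i, g⟩
    by_contra hc
    have hg : Ort g := by
      obtain ⟨w, hw⟩ := Set.nonempty_iff_ne_empty.2 fun k : D (i, g) = ∅ ↦ hc (k ▸ countable_empty)
      exact hw.2.1
    have hle : Sp d (S.ρ i) (S.f i) ≤ LinearMap.ker (l ∘ₗ Matrix.toLin' (tp (Fin d) (cz g))) :=
      Sp_le (S.arc i) hc (fun _ k ↦ k.1) fun w hw ↦ by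
        rw [LinearMap.mem_ker, LinearMap.comp_apply, toLin'_apply, ← pw_act]
        exact hw.2.2
    rcases hABS S i with ⟨x, hx, h⟩ | h
    · rw [(hS i).1, (hS i).2] at h
      exact no_sing A hH hSINV _ hx h
    · obtain ⟨y, hy, h⟩ := h d
      obtain ⟨g', k1, k2, k3⟩ := hg.inv
      refine hQ (poly_zero (y := cz g *ᵥ y) (fun k ↦ hy ?_) fun τ hτ ↦ ?_)
      · rw [← cz_inv k2 y, k, mulVec_zero]
      · have := hle (h (cz g' *ᵥ om τ) (by rw [k1.Bf, om_iso])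
          (by rwa [← hg.Bf, cz_inv k3, Bf_comm]))
        rwa [LinearMap.mem_ker, LinearMap.comp_apply, toLin'_apply, ← pw_act, cz_inv k3, hl] at this
  have : Countable Z5 := inferInstanceAs (Countable (Fin 5 → Fin 5 → ℤ))
  let t : V5 → T3 := fun v ↦ ![v 1 / v 0, v 2 / v 0, v 3 / v 0]
  have h1 := countable_iUnion fun p ↦ (hD p).image fun w ↦ t (cz p.2 *ᵥ S.f p.1 w)
  have h2 : (⋃ x ∈ (A.F : Set (Ch → ℂ)) ∩ Cv P, {τ | Over x τ}).Countable :=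
    (A.F.countable_toSet.mono inter_subset_left).biUnion fun x hx ↦ fib hH hFIB hG3 hx.2
  refine (h1.union h2).mono ?_
  rintro τ ⟨⟨x, hx, hτ⟩, h0⟩
  by_cases hF : x ∈ A.F
  · exact Or.inr (mem_biUnion (show x ∈ (A.F : Set (Ch → ℂ)) ∩ Cv P from ⟨hF, hx⟩) hτ)
  obtain ⟨γ, hγ⟩ := hRED τ hτ.1
  obtain ⟨j, w, k1, -, k2, -⟩ := A.cover x hx hF τ hτ γ hγ
  obtain ⟨i, rfl⟩ := he j
  obtain ⟨g, c, hg, hc, k3⟩ := hEQV τ hτ.1 _ (γ.act_mem τ hτ.1) _ (γ.bij τ hτ.1) (γ.lat τ hτ.1)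
    (γ.herm τ hτ.1)
  obtain ⟨g', k4, k5, -⟩ := hg.inv
  have k6 : cz g' *ᵥ S.f i w = c • om τ := by
    rw [(hS i).2]
    change cz g' *ᵥ om (cht _ _ w) = _
    rw [← k2, k3, mulVec_smul, cz_inv k5]
  have k7 : ‖exp w‖ < A.r (e i) :=
    k1.trans_lt (mul_lt_of_lt_one_right (A.pos _) (Real.exp_lt_one_iff.2 (by norm_num)))
  refine Or.inl (mem_iUnion.2 ⟨(i, g'), w, ⟨(hS i).1 ▸ lt_log (A.pos _) k7, k4, ?_⟩, ?_⟩)
  · change l (pw d (cz g' *ᵥ S.f i w)) = 0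
    rw [k6, pw_smul, map_smul, hl, h0, smul_zero]
  · change t (cz g' *ᵥ S.f i w) = τ
    rw [k6]
    funext a
    fin_cases a <;> simp [t, om, hc]

end Pool.Agent.Lib.ECM
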