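import Pool.Agent.Lib.ECM.G4Blue
import Pool.Agent.Lib.ECM.M_SINV

/-! Isomorphic polarised tori have equivalent period vectors. -/

open Complex Matrix

noncomputable section

namespace Pool.Agent.Lib.ECM.G4

namespace EQV

open MSINV

abbrev Z4 := Matrix (Fin 4) (Fin 4) ℤ

/-- the alternating matrix with given coordinates -/
def Xz (x : Fin 5 → ℤ) : Z4 :=
  !![0, x 0, x 2, x 3; -x 0, 0, -x 1, -x 2; -x 2, x 1, 0, x 4; -x 3, x 2, -x 4, 0]

/-- the coordinates of an alternating matrix -/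
def cv (Y : Z4) : Fin 5 → ℤ := ![Y 0 1, -Y 1 2, Y 0 2, Y 0 3, Y 2 3]

/-- the action on alternating matrices -/
def gm (K : Z4) : Z5 := of fun i j ↦ cv (K * Xz (Pi.single j 1) * Kᵀ) i

theorem Xz_tr (x : Fin 5 → ℤ) : (Xz x)ᵀ = -Xz x := by
  ext i j
  fin_cases i <;> fin_cases j <;> simp [Xz]

theorem tr0 (x : Fin 5 → ℤ) : trace (Jm * Xz x) = 0 := by
  simp [trace, Fin.sum_univ_four, Jm, Xz]

theorem tr2 (x y : Fin 5 → ℤ) : trace (Jm * Xz x * (Jm * Xz y)) = -2 * (x ⬝ᵥ Bz *ᵥ y) := by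
  simp [trace, Fin.sum_univ_four, Fin.sum_univ_five, Jm, Xz, Bz, dotProduct, mulVec]
  ring

theorem Xz_cv {Y : Z4} (h : Yᵀ = -Y) (h' : trace (Jm * Y) = 0) : Xz (cv Y) = Y := by
  have ha : ∀ i j, Y j i = -Y i j := fun i j ↦ congrFun (congrFun h i) j
  have h2 : trace (Jm * Y) = -Y 2 0 - Y 3 1 + Y 0 2 + Y 1 3 := by
    simp only [trace, diag_apply, Matrix.mul_apply, Fin.sum_univ_four, Jm, of_apply,
      cons_val', cons_val_zero, cons_val_one, cons_val]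
    ring
  rw [h2] at h'
  have := ha 0 0
  have := ha 1 1
  have := ha 2 2
  have := ha 3 3
  have := ha 0 1
  have := ha 0 2
  have := ha 0 3
  have := ha 1 2
  have := ha 1 3
  have := ha 2 3
  ext i j
  fin_cases i <;> fin_cases j <;> simp [Xz, cv] <;> omega

theorem flip {K : Z4} (hK : K * Jm * Kᵀ = Jm) : Kᵀ * Jm * K = Jm := by
  have J2 : Jm * -Jm = 1 := by decide
  have J3 : -Jm * Jm = 1 := by decide
  have h1 : K * (Jm * Kᵀ * -Jm) = 1 := by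
    rw [← Matrix.mul_assoc, ← Matrix.mul_assoc, hK, J2]
  have h2 : Jm * Kᵀ * -Jm * K = 1 := mul_eq_one_comm.1 h1
  have h3 : -Jm * (Jm * Kᵀ * -Jm * K) = -(Kᵀ * Jm * K) := by
    rw [← Matrix.mul_assoc, ← Matrix.mul_assoc, ← Matrix.mul_assoc, J3, Matrix.one_mul,
      Matrix.mul_neg, Matrix.neg_mul]
  rw [h2, Matrix.mul_one] at h3
  exact (neg_injective h3).symm

theorem ort {K : Z4} (hK : Kᵀ * Jm * K = Jm) : Ort (gm K) := by
  have key : ∀ x, Xz (cv (K * Xz x * Kᵀ)) = K * Xz x * Kᵀ := fun x ↦ Xz_cv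
    (by
      rw [transpose_mul, transpose_mul, transpose_transpose, Xz_tr]
      simp only [Matrix.mul_assoc, Matrix.neg_mul, Matrix.mul_neg])
    (by rw [← Matrix.mul_assoc, trace_mul_comm, ← Matrix.mul_assoc, ← Matrix.mul_assoc, hK, tr0])
  ext i j
  have h := tr2 (cv (K * Xz (Pi.single i 1) * Kᵀ)) (cv (K * Xz (Pi.single j 1) * Kᵀ))
  have h2 : ∀ X Y : Z4, trace (Jm * (K * X * Kᵀ) * (Jm * (K * Y * Kᵀ))) =
      trace (Jm * X * (Jm * Y)) := fun X Y ↦ by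
    have e : Jm * (K * X * Kᵀ) * (Jm * (K * Y * Kᵀ)) =
        Jm * K * X * (Kᵀ * Jm * K * Y) * Kᵀ := by simp only [Matrix.mul_assoc]
    have e' : Kᵀ * (Jm * K * X * (Jm * Y)) = Kᵀ * Jm * K * X * (Jm * Y) := by
      simp only [Matrix.mul_assoc]
    rw [e, hK, trace_mul_comm, e', hK]
  rw [key, key, h2, tr2] at h
  have h3 := mul_left_cancel₀ (by norm_num) h
  have h4 : (Pi.single i 1 : Fin 5 → ℤ) ⬝ᵥ Bz *ᵥ Pi.single j 1 = Bz i j := by simp
  rw [← h4, h3, Matrix.mul_assoc]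
  rfl

end EQV

open MSINV EQV in
theorem st_EQV : St_EQV := by
  intro τ hτ τ' hτ' M hM hL hH
  let E := LinearEquiv.ofBijective M hM
  let N : V2 →ₗ[ℂ] V2 := E.symm.toLinearMap
  have hMN : ∀ v, M (N v) = v := fun v ↦ E.apply_symm_apply v
  have hk : ∀ i : Fin 4, ∃ k, N (pv τ' (Pi.single i 1)) = pv τ k := fun i ↦
    exists_pv ((hL _).1 (by rw [hMN]; exact pv_mem _ _))
  choose k hk using hk
  let K : Matrix (Fin 4) (Fin 4) ℤ := Matrix.of k
  have hK : K * Jm * Kᵀ = Jm := by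
    ext i j
    have h := Ef_map M hH (pv τ (k i)) (pv τ (k j))
    rw [Ef_pv hτ, ← hk, ← hk, hMN, hMN, Ef_pv hτ'] at h
    have h' := Int.cast_injective h
    have h2 : (K * Jm * Kᵀ) i j =
        k i 2 * k j 0 + k i 3 * k j 1 - k i 0 * k j 2 - k i 1 * k j 3 := by
      simp [K, Matrix.mul_apply, Fin.sum_univ_four, Jm]
      ring
    rw [h2, ← h']
    fin_cases i <;> fin_cases j <;> simp [Jm]
  have hO := ort (EQV.flip hK)
  have h0 : ∀ i, (k i 0 : ℂ) + τ 0 * k i 2 + τ 1 * k i 3 = _ := fun i ↦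
    (pv0 τ (k i)).symm.trans ((congrFun (hk i) 0).symm.trans (lin_apply N _ 0))
  have h1 : ∀ i, (k i 1 : ℂ) + τ 1 * k i 2 + τ 2 * k i 3 = _ := fun i ↦
    (pv1 τ (k i)).symm.trans ((congrFun (hk i) 1).symm.trans (lin_apply N _ 1))
  have a0 := h0 0
  have a1 := h0 1
  have a2 := h0 2
  have a3 := h0 3
  have b0 := h1 0
  have b1 := h1 1
  have b2 := h1 2
  have b3 := h1 3
  simp [pv0, pv1] at a0 a1 a2 a3 b0 b1 b2 b3
  have mn : ∀ i j, ∑ l, ((K * Xz (Pi.single l 1) * Kᵀ) i j : ℂ) * om τ l =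
      (k i 0 + τ 0 * k i 2 + τ 1 * k i 3) * (k j 1 + τ 1 * k j 2 + τ 2 * k j 3) -
        (k j 0 + τ 0 * k j 2 + τ 1 * k j 3) * (k i 1 + τ 1 * k i 2 + τ 2 * k i 3) := fun i j ↦ by
    simp [K, Matrix.mul_apply, Fin.sum_univ_four, Fin.sum_univ_five, Xz, om]
    ring
  obtain ⟨d, hd⟩ : ∃ d : ℂ, cz (gm K) *ᵥ om τ = d • om τ' := by
    refine ⟨N ![1, 0] 0 * N ![0, 1] 1 - N ![0, 1] 0 * N ![1, 0] 1, funext fun i ↦ ?_⟩
    have m0 := mn 0 1
    have m1 := mn 1 2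
    have m2 := mn 0 2
    have m3 := mn 0 3
    have m4 := mn 2 3
    simp only [a0, a1, a2, a3, b0, b1, b2, b3] at m0 m1 m2 m3 m4
    fin_cases i <;> simp [mulVec, dotProduct, cz, gm, cv, m0, m1, m2, m3, m4] <;> simp [om] <;> ring
  have d0 : d ≠ 0 := fun h ↦ by
    have h2 := hO.Bf (om τ) (Pi.single 4 1)
    rw [hd, h, Bf_smul, Bf_eq (om τ)] at h2
    simp [om] at h2
  exact ⟨gm K, d⁻¹, hO, inv_ne_zero d0, by rw [hd, smul_smul, inv_mul_cancel₀ d0, one_smul]⟩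

end Pool.Agent.Lib.ECM.G4
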