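import Pool.Agent.Lib.ECM.G4E
import Pool.Agent.Lib.HL14.Two

/-! The theorem of the fixed part. -/

open Complex Matrix Set Filter Topology
open scoped Real

set_option linter.unusedSectionVars false

noncomputable section

namespace Pool.Agent.Lib.ECM.G4

variable {β : Type} [Fintype β] [DecidableEq β]

/-- a tensor construction -/
structure Fn (β : Type) [Fintype β] [DecidableEq β] where
  ρ : M5 → Matrix β β ℂ
  d : M5 → Matrix β β ℂ
  k : ℕ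
  one : ρ 1 = 1
  mul : ∀ X Y, ρ (X * Y) = ρ X * ρ Y
  cT : ∀ X, ρ Xᴴ = (ρ X)ᴴ
  int : ∀ g : Z5, ∃ g' : Matrix β β ℤ, ρ (cz g) = cz g'
  hf : ∀ H w A B, HF H w A B → HF (fun z ↦ ρ (H z)) w (d A) (d B)
  grow : ∀ X (r : ℝ), 1 ≤ r → (∀ i j, ‖X i j‖ ≤ r) → ∀ i j, ‖ρ X i j‖ ≤ r ^ k

/-- the standard representation -/
def Fn.std : Fn (Fin 5) where
  ρ X := X
  d X := X
  k := 1
  one := rfl
  mul _ _ := rfl
  cT _ := rfl
  int g := ⟨g, rfl⟩
  hf _ _ _ _ h := h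
  grow X r _ h := by simpa using h

/-- tensor powers -/
def Fn.pow (F : Fn β) (n : ℕ) : Fn (Fin n → β) where
  ρ X := tp (Fin n) (F.ρ X)
  d X := der (Fin n) (F.d X)
  k := F.k * n
  one := by rw [F.one, tp_one]
  mul X Y := by rw [F.mul, tp_mul]
  cT X := by rw [F.cT, tp_cT]
  int g := by
    obtain ⟨g', h⟩ := F.int g
    exact ⟨tp (Fin n) g', by rw [h, cz, cz, tp_map]⟩
  hf H w A B h := (F.hf H w A B h).tp
  grow X r h1 h i j := by
    simp only [tp, tpf, of_apply, norm_prod]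
    refine (Finset.prod_le_prod (fun _ _ ↦ norm_nonneg _) fun a _ ↦ F.grow X r h1 h _ _).trans_eq ?_
    simp [pow_mul]

theorem qv_act (H g : Matrix β β ℂ) (v : β → ℂ) : qv (gᴴ * H * g) v = qv H (g *ᵥ v) := by
  rw [qv, qv, ← mulVec_mulVec, ← mulVec_mulVec, dotProduct_mulVec, star_mulVec]

theorem qv_smul (H : Matrix β β ℂ) (c : ℂ) (v : β → ℂ) : qv H (c • v) = normSq c * qv H v := by
  rw [qv, qv, star_smul, mulVec_smul, smul_dotProduct, dotProduct_smul, smul_smul, star_def,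
    ← normSq_eq_conj_mul_self, smul_eq_mul, re_ofReal_mul]

theorem qv_le (H : Matrix β β ℂ) (v : β → ℂ) {r : ℝ} (h : ∀ i j, ‖H i j‖ ≤ r) :
    |qv H v| ≤ (∑ i, ‖v i‖) ^ 2 * r := by
  refine (abs_re_le_norm _).trans ((norm_sum_le _ _).trans ?_)
  rw [sq, Finset.sum_mul_sum, Finset.sum_mul]
  refine Finset.sum_le_sum fun i _ ↦ ?_
  rw [norm_mul, Pi.star_apply, norm_star, ← Finset.mul_sum, mul_assoc, Finset.sum_mul]
  refine mul_le_mul_of_nonneg_left ((norm_sum_le _ _).trans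
    (Finset.sum_le_sum fun j _ ↦ ?_)) (norm_nonneg _)
  rw [norm_mul, mul_comm]
  exact mul_le_mul_of_nonneg_left (h i j) (norm_nonneg _)

theorem eig_integral (g : Matrix β β ℤ) {v : β → ℂ} (hv : v ≠ 0) {c : ℂ}
    (h : cz g *ᵥ v = c • v) : IsIntegral ℤ c := by
  refine isIntegral_of_smul_mem_submodule (Submodule.span ℤ (range v)) (fun k ↦ hv ?_)
    (Submodule.fg_span (finite_range v)) c fun n hn ↦ ?_
  · funext i
    exact Submodule.span_eq_bot.1 k _ ⟨i, rfl⟩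
  · induction hn using Submodule.span_induction with
    | mem x hx =>
      obtain ⟨i, rfl⟩ := hx
      have : c • v i = ∑ j, g i j • v j := by
        have := congrFun h i
        simpa [cz, mulVec, dotProduct] using this.symm
      rw [this]
      exact Submodule.sum_mem _ fun j _ ↦
        Submodule.smul_mem _ _ (Submodule.subset_span ⟨j, rfl⟩)
    | zero => simp
    | add x y _ _ h1 h2 => rw [smul_add]; exact add_mem h1 h2
    | smul a x _ h1 => rw [smul_comm]; exact Submodule.smul_mem _ _ h1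

theorem char_finite {G : Type} (ρ : G → Matrix β β ℂ) :
    {ψ : G → ℂ | ∃ v : β → ℂ, v ≠ 0 ∧ ∀ g, ρ g *ᵥ v = ψ g • v}.Finite := by
  obtain ⟨t, ht, hs, hi⟩ := exists_linearIndependent ℂ (range ρ)
  have hf : t.Finite := hi.setFinite
  haveI := hf.to_subtype
  choose pk hpk using fun x : t ↦ ht x.2
  refine Finite.of_finite_image (f := fun ψ (x : t) ↦ ψ (pk x))
    ((Finite.pi' fun x : t ↦ (Module.End.finite_hasEigenvalue (Matrix.toLin' x.1))).subset ?_) ?_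
  · rintro _ ⟨ψ, ⟨v, hv, h⟩, rfl⟩ x
    exact Module.End.hasEigenvalue_of_hasEigenvector (x := v)
      ⟨Module.End.mem_eigenspace_iff.2 (by rw [toLin'_apply, ← hpk x, h]), hv⟩
  · rintro ψ ⟨v, hv, h⟩ ψ' ⟨v', hv', h'⟩ e
    have key : ∀ X ∈ Submodule.span ℂ t, ∃ c : ℂ, X *ᵥ v = c • v ∧ X *ᵥ v' = c • v' := by
      intro X hX
      induction hX using Submodule.span_induction with
      | mem x hx =>
        have e1 : ρ (pk ⟨x, hx⟩) = x := hpk ⟨x, hx⟩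
        have e2 : ψ (pk ⟨x, hx⟩) = ψ' (pk ⟨x, hx⟩) := congrFun e ⟨x, hx⟩
        exact ⟨ψ (pk ⟨x, hx⟩), by rw [← h, e1], by rw [e2, ← h', e1]⟩
      | zero => exact ⟨0, by simp, by simp⟩
      | add x y _ _ h1 h2 =>
        obtain ⟨a, a1, a2⟩ := h1
        obtain ⟨b, b1, b2⟩ := h2
        exact ⟨a + b, by rw [add_mulVec, a1, b1, add_smul], by rw [add_mulVec, a2, b2, add_smul]⟩
      | smul a x _ h1 =>
        obtain ⟨b, b1, b2⟩ := h1
        exact ⟨a * b, by rw [smul_mulVec, b1, smul_smul], by rw [smul_mulVec, b2, smul_smul]⟩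
    funext g
    obtain ⟨c, c1, c2⟩ := key (ρ g) (hs ▸ Submodule.subset_span ⟨g, rfl⟩)
    rw [smul_left_injective ℂ hv ((h g).symm.trans c1),
      smul_left_injective ℂ hv' ((h' g).symm.trans c2)]

theorem fp_eig (F : Fn β) (S : Sys) (j : Fin S.N) {v : β → ℂ} (hv : v ≠ 0)
    (h : ∀ g ∈ Gam (S.ρ j) (S.f j), ∃ c : ℂ, F.ρ (cz g) *ᵥ v = c • v) :
    ∃ ρ f, Arc ρ f ∧ Same ρ f (S.ρ j) (S.f j) ∧ ∀ w ∈ hp ρ,
      (∃ c : ℂ, F.d (Aa (f w) (deriv f w)) *ᵥ v = c • v) ∧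
        ∃ c : ℂ, F.d (Ab (f w) (deriv f w)) *ᵥ v = c • v := by
  classical
  choose χ hχ using fun g : Gam (S.ρ j) (S.f j) ↦ h g.1 g.2
  have hσ : ∀ (σ : ℂ ≃+* ℂ) (g : Gam (S.ρ j) (S.f j)),
      F.ρ (cz g.1) *ᵥ (σ ∘ v) = σ (χ g) • (σ ∘ v) := fun σ g ↦ by
    obtain ⟨g', e⟩ := F.int g.1
    have := cz_map σ.toRingHom g' v
    rw [← e, hχ] at this
    refine this.symm.trans ?_
    funext i
    simp
  have hσ0 : ∀ σ : ℂ ≃+* ℂ, σ ∘ v ≠ 0 := fun σ k ↦ hv (funext fun i ↦ by simpa using congrFun k i)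
  have hfin : (range fun σ : ℂ ≃+* ℂ ↦ σ ∘ χ).Finite :=
    (char_finite fun g : Gam (S.ρ j) (S.f j) ↦ F.ρ (cz g.1)).subset (by
      rintro _ ⟨σ, rfl⟩
      exact ⟨_, hσ0 σ, hσ σ⟩)
  have hch : ∀ ψ : Gam (S.ρ j) (S.f j) → ℂ, ∃ u : β → ℂ, u ≠ 0 ∧ (ψ = χ → u = v) ∧
      (ψ ∈ hfin.toFinset → ∀ g, F.ρ (cz g.1) *ᵥ u = ψ g • u) := fun ψ ↦ by
    by_cases h1 : ψ = χ
    · exact ⟨v, hv, fun _ ↦ rfl, fun _ ↦ h1 ▸ hχ⟩
    by_cases h2 : ψ ∈ hfin.toFinset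
    · obtain ⟨σ, rfl⟩ := hfin.mem_toFinset.1 h2
      exact ⟨_, hσ0 σ, fun k ↦ absurd k h1, fun _ ↦ hσ σ⟩
    · exact ⟨v, hv, fun _ ↦ rfl, fun k ↦ absurd k h2⟩
  choose u u0 u1 u2 using hch
  have hZ : ∀ g, ∃ n : ℤ, (n : ℂ) = ∏ ψ ∈ hfin.toFinset, ψ g := fun g ↦ by
    obtain ⟨q, hq⟩ := HL14.fixed_rat (a := ∏ ψ ∈ hfin.toFinset, ψ g) fun σ ↦ by
      rw [map_prod]
      refine Finset.prod_nbij' (fun ψ ↦ σ ∘ ψ) (fun ψ ↦ σ.symm ∘ ψ) ?_ ?_ ?_ ?_ fun _ _ ↦ rfl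
      · intro ψ hψ
        obtain ⟨τ, rfl⟩ := hfin.mem_toFinset.1 hψ
        exact hfin.mem_toFinset.2 ⟨τ.trans σ, rfl⟩
      · intro ψ hψ
        obtain ⟨τ, rfl⟩ := hfin.mem_toFinset.1 hψ
        exact hfin.mem_toFinset.2 ⟨τ.trans σ.symm, rfl⟩
      · intro ψ _; funext x; simp
      · intro ψ _; funext x; simp
    have hi : IsIntegral ℤ (∏ ψ ∈ hfin.toFinset, ψ g) := IsIntegral.prod _ fun ψ hψ ↦ by
      obtain ⟨g', e⟩ := F.int g.1
      exact eig_integral g' (u0 ψ) (e ▸ u2 ψ hψ g)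
    rw [← hq] at hi ⊢
    obtain ⟨n, hn⟩ := IsIntegrallyClosed.isIntegral_iff.1
      ((isIntegral_algebraMap_iff (algebraMap ℚ ℂ).injective).1 hi)
    exact ⟨n, by rw [← hn]; simp⟩
  have hN : ∀ g, ∏ ψ ∈ hfin.toFinset, normSq (ψ g) = 1 := fun g ↦ by
    obtain ⟨g', k1, k2⟩ := Gam.inv g.2
    obtain ⟨n, hn⟩ := hZ g
    obtain ⟨n', hn'⟩ := hZ ⟨g', k1⟩
    have e : (n * n' : ℤ) = 1 := by
      apply Int.cast_injective (α := ℂ)
      rw [Int.cast_mul, hn, hn', ← Finset.prod_mul_distrib, Int.cast_one]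
      refine Finset.prod_eq_one fun ψ hψ ↦ smul_left_injective ℂ (u0 ψ) ?_
      have := congrArg (fun y ↦ F.ρ (cz g') *ᵥ y) (u2 ψ hψ g)
      simp only [mulVec_mulVec, ← F.mul, ← cz_mul, k2, cz_one, F.one, mulVec_smul,
        u2 ψ hψ ⟨g', k1⟩, smul_smul, one_mulVec] at this
      simpa using this.symm
    rw [← map_prod, ← hn]
    rcases Int.eq_one_or_neg_one_of_mul_eq_one e with k | k <;> simp [k]
  refine sys_max S j (fun x ↦ ∏ ψ ∈ hfin.toFinset, qv (F.ρ (Hm x)) (u ψ)) _ (fun g hg x ↦ ?_)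
    (fun c x hc ↦ by rw [Hm_smul hc]) (fun ρ f hf w hw ↦ ?_) ?_
  · rw [← hg.1.Hm x, F.mul, F.mul, F.cT]
    simp only [qv_act]
    rw [← one_mul (∏ ψ ∈ hfin.toFinset, qv _ (u ψ)), ← hN ⟨g, hg⟩, ← Finset.prod_mul_distrib]
    exact Finset.prod_congr rfl fun ψ hψ ↦ by rw [u2 ψ hψ ⟨g, hg⟩, qv_smul]
  · choose κ k1 k2 k3 using fun ψ ↦ (F.hf _ _ _ _ (hf_base (hf.an w hw) (hf.ev hw))).lj
      (Eventually.of_forall fun z ↦ by rw [← F.cT, Hm_cT]) (u0 ψ)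
    refine ⟨_, Finset.sum_nonneg fun ψ _ ↦ k1 ψ, LJ.prod _ fun ψ _ ↦ k2 ψ, fun k ↦ ?_⟩
    have := k3 χ ((Finset.sum_eq_zero_iff_of_nonneg fun ψ _ ↦ k1 ψ).1 k χ
      (hfin.mem_toFinset.2 ⟨RingEquiv.refl ℂ, rfl⟩))
    rwa [u1 χ rfl] at this
  · have c0 := S.cpos
    refine ⟨∏ ψ ∈ hfin.toFinset, ((∑ i, ‖u ψ i‖) ^ 2 * (16 / S.c + 2) ^ F.k),
      2 * F.k * hfin.toFinset.card, by positivity, fun x hx ↦ ?_⟩
    rw [pow_mul, ← Finset.prod_const, ← Finset.prod_mul_distrib]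
    refine (le_abs_self _).trans ?_
    rw [Finset.abs_prod]
    refine Finset.prod_le_prod (fun _ _ ↦ abs_nonneg _) fun ψ _ ↦ ?_
    rw [mul_assoc, pow_mul, ← mul_pow]
    have a0 := norm_nonneg x
    have a1 : 0 < 16 / S.c := by positivity
    refine qv_le _ _ (F.grow _ _ (by nlinarith) fun i j ↦ (Hm_bound c0 hx i j).trans (by nlinarith))

/-- the exterior product of a family of vectors -/
def wdg {n : ℕ} (b : Fin n → β → ℂ) : (Fin n → β) → ℂ := fun i ↦ det (of fun c a ↦ b c (i a))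

theorem pure_wdg {n : ℕ} (l b : Fin n → β → ℂ) :
    pure l ⬝ᵥ wdg b = det (of fun c a ↦ l a ⬝ᵥ b c) := by
  simp only [dotProduct, pure, wdg, det_apply', of_apply, Finset.mul_sum]
  rw [Finset.sum_comm]
  refine Finset.sum_congr rfl fun σ _ ↦ ?_
  rw [Finset.prod_univ_sum, Fintype.piFinset_univ, Finset.mul_sum]
  refine Finset.sum_congr rfl fun i _ ↦ ?_
  rw [Finset.prod_mul_distrib]
  ring

theorem der_transpose (n : ℕ) (A : Matrix β β ℂ) : (der (Fin n) A)ᵀ = der (Fin n) Aᵀ := by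
  ext i j
  simp only [transpose_apply, der, Matrix.sum_apply, tpf_update, one_apply, eq_comm]

theorem fp_sub (F : Fn β) (S : Sys) (j : Fin S.N) (U : Submodule ℂ (β → ℂ))
    (h : ∀ g ∈ Gam (S.ρ j) (S.f j), ∀ u ∈ U, F.ρ (cz g) *ᵥ u ∈ U) :
    ∃ ρ f, Arc ρ f ∧ Same ρ f (S.ρ j) (S.f j) ∧ ∀ w ∈ hp ρ, ∀ u ∈ U,
      F.d (Aa (f w) (deriv f w)) *ᵥ u ∈ U ∧ F.d (Ab (f w) (deriv f w)) *ᵥ u ∈ U := by
  let B := Module.finBasis ℂ U
  let b : Fin (Module.finrank ℂ U) → β → ℂ := fun c ↦ B c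
  have hexp : ∀ u : U, (u : β → ℂ) = ∑ c, B.repr u c • b c := fun u ↦ by
    conv_lhs => rw [← B.sum_repr u]
    rw [Submodule.coe_sum]
    rfl
  have hrow : ∀ l : (β → ℂ) →ₗ[ℂ] ℂ, ∃ r : β → ℂ, ∀ x, r ⬝ᵥ x = l x := fun l ↦
    ⟨fun i ↦ l (Pi.single i 1), fun x ↦ by
      conv_rhs => rw [pi_eq_sum_univ' x]
      simp [dotProduct, mul_comm]⟩
  have hl : ∀ a, ∃ r : β → ℂ, ∀ c, r ⬝ᵥ b c = if c = a then 1 else 0 := fun a ↦ by
    obtain ⟨l, hl⟩ := (B.coord a).exists_extend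
    obtain ⟨r, hr⟩ := hrow l
    refine ⟨r, fun c ↦ ?_⟩
    have := LinearMap.congr_fun hl (B c)
    simpa [hr, Finsupp.single_apply] using this
  choose l hl using hl
  have h1 : (of fun c a ↦ l a ⬝ᵥ b c) = 1 := by
    ext c a; simp [hl, one_apply]
  have hv : wdg b ≠ 0 := fun k ↦ by
    have := pure_wdg l b
    simp [k, h1] at this
  have key : ∀ A : Matrix β β ℂ, (∃ c : ℂ, der _ A *ᵥ wdg b = c • wdg b) →
      ∀ u ∈ U, A *ᵥ u ∈ U := by
    rintro A ⟨c, hc⟩ u hu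
    have hb : ∀ c₀, A *ᵥ b c₀ ∈ U := fun c₀ ↦ mem_of_dual U fun m hm ↦ by
      obtain ⟨r, hr⟩ := hrow m
      have z : ∀ l' : Fin _ → β → ℂ, l' c₀ = r → pure l' ⬝ᵥ wdg b = 0 := fun l' k ↦ by
        rw [pure_wdg]
        exact det_eq_zero_of_column_eq_zero c₀ fun c ↦ by
          rw [of_apply, k, hr, hm _ (B c).2]
      have e := congrArg (fun y ↦ pure (Function.update l c₀ r) ⬝ᵥ y) hc
      simp only [dotProduct_smul, z _ (Function.update_self _ _ _), smul_zero] at e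
      rw [dotProduct_mulVec, ← mulVec_transpose, der_transpose, der_pure, sum_dotProduct,
        Finset.sum_eq_single c₀ (fun a _ ha ↦ z _ (by simp [Function.update_of_ne ha.symm]))
          (by simp), pure_wdg, Function.update_idem, Function.update_self] at e
      have e' : (of fun c a ↦ Function.update l c₀ (Aᵀ *ᵥ r) a ⬝ᵥ b c) =
          (1 : Matrix _ _ ℂ).updateCol c₀ fun c ↦ m (A *ᵥ b c) := by
        ext c a
        by_cases k : a = c₀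
        · subst k
          simp [← hr, dotProduct_mulVec, mulVec_transpose]
        · simp [k, hl, one_apply]
      rwa [e', ← cramer_apply, cramer_one] at e
    have : u = ∑ c, B.repr ⟨u, hu⟩ c • b c := hexp ⟨u, hu⟩
    rw [this, mulVec_sum]
    exact Submodule.sum_mem _ fun c _ ↦ by
      rw [mulVec_smul]; exact Submodule.smul_mem _ _ (hb c)
  obtain ⟨ρ, f, k1, k2, k3⟩ := fp_eig (F.pow _) S j hv fun g hg ↦ by
    refine ⟨det (of fun c c' ↦ B.repr ⟨_, h g hg _ (B c).2⟩ c'), funext fun i ↦ ?_⟩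
    refine (pure_wdg (fun a ↦ F.ρ (cz g) (i a)) b).trans ?_
    rw [Pi.smul_apply, smul_eq_mul, wdg, ← det_mul]
    congr 1
    ext c a
    have := congrFun (hexp ⟨_, h g hg _ (B c).2⟩) (i a)
    rw [Finset.sum_apply] at this
    exact this
  exact ⟨ρ, f, k1, k2, fun w hw u hu ↦ ⟨key _ (k3 w hw).1 u hu, key _ (k3 w hw).2 u hu⟩⟩

theorem st_FP : St_FP where
  one S j U h := fp_sub Fn.std S j U h
  pow S j e := by
    obtain ⟨ρ, f, k1, k2, k3⟩ := fp_sub (Fn.std.pow e) S j (Sp e (S.ρ j) (S.f j)) fun g hg u hu ↦ by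
      rw [← hg.2 e, Sp_act]
      exact ⟨u, hu, rfl⟩
    exact ⟨ρ, f, k1, k2, fun w hw u hu ↦ by
      rw [k2 e] at hu ⊢
      exact (k3 w hw u hu).1⟩

end Pool.Agent.Lib.ECM.G4
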