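import Pool.Agent.Lib.ECM.G4Blue

/-! A complex linear equation of an arc with stable equations gives a real one. -/

open Complex Matrix Set
open scoped ComplexConjugate

noncomputable section

namespace Pool.Agent.Lib.ECM.G4

namespace LIN1

theorem cnt {ρ : ℝ} {f : ℂ → V5} (h : Arc ρ f) :
    {w ∈ hp ρ | mm (f w) (deriv f w) = 0}.Countable := by
  by_contra hc
  have h0 : ((ρ - 1 : ℝ) : ℂ) ∈ hp ρ := by simp [hp]
  set w₀ : ℂ := ((ρ - 1 : ℝ) : ℂ)
  have hne : f w₀ ≠ 0 := fun k ↦ by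
    have := (h.dom w₀ h0).pos
    rw [k] at this
    simp [Nn, Bf] at this
  obtain ⟨j, hj⟩ := Function.ne_iff.1 hne
  have ha : ∀ i, AnalyticOnNhd ℂ (fun z ↦ f z i) (hp ρ) := fun i w hw ↦ an_comp (h.an w hw) i
  refine hp_unc ρ ((h.nc (f w₀)).mono ?_)
  intro w hw
  refine ⟨hw, f w j / f w₀ j, funext fun i ↦ ?_⟩
  have hz := zero_of_uncountable (hp_conn ρ)
    (G := fun w ↦ f w j * deriv (fun z ↦ f z i) w - deriv (fun z ↦ f z j) w * f w i)
    (((ha j).mul (ha i).deriv).sub ((ha j).deriv.mul (ha i))) hc (fun _ hz ↦ hz.1) fun z hz ↦ by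
      have e := sub_eq_zero.1 hz.2
      rw [der_comp (h.an z hz.1), der_comp (h.an z hz.1), e]
      simp only [Pi.smul_apply, smul_eq_mul]
      ring
  have := wronsk (hp_conn ρ) (ha i) (ha j) hz (hp_open ρ) h0 hj w hw
  have hj' : f w₀ j ≠ 0 := hj
  simp only [Pi.smul_apply, smul_eq_mul]
  field_simp
  linear_combination this

/-- the form as a bilinear form -/
def BB : LinearMap.BilinForm ℂ V5 :=
  LinearMap.mk₂ ℂ Bf Bf_add Bf_smul (fun x y z ↦ Bf_add' y z x) fun c x y ↦ Bf_smul' c y x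

theorem three {ρ : ℝ} {g : ℂ → V5} (h : ∀ w ∈ hp ρ, g w ∈ Perp ρ g) :
    3 ≤ Module.finrank ℂ (Perp ρ g) := by
  set F := Submodule.span ℂ (g '' hp ρ)
  have h1 : F ≤ Perp ρ g := Submodule.span_le.2 (by rintro _ ⟨w, hw, rfl⟩; exact h w hw)
  have h2 : BB.orthogonal F ≤ Perp ρ g := fun x hx w hw ↦ by
    rw [Bf_comm]
    exact hx _ (Submodule.subset_span ⟨w, hw, rfl⟩)
  have hr : BB.IsRefl := fun x y k ↦ (Bf_comm y x).trans k
  have h3 := LinearMap.BilinForm.finrank_add_finrank_orthogonal hr F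
  have h4 := Submodule.finrank_mono h1
  have h5 := Submodule.finrank_mono h2
  simp only [Module.finrank_fintype_fun_eq_card, Fintype.card_fin] at h3
  omega

end LIN1

theorem st_LIN1 : St_LIN1 := by
  intro ρ f h hP hS hR
  obtain ⟨u, hu, u0⟩ := (Submodule.ne_bot_iff _).1 hP
  have hb : {w ∈ hp ρ | Bf u (star (f w)) = 0}.Countable := by
    by_contra hc
    have hz := zero_of_uncountable (hp_conn ρ) (G := fun w ↦ LIN1.BB (star u) (f w))
      (fun w hw ↦ an_lin _ (h.an w hw)) hc (fun _ hz ↦ hz.1) fun z hz ↦ by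
        change Bf (star u) (f z) = 0
        rw [Bf_star', hz.2, map_zero]
    have : u ∈ RPerp ρ f := ⟨hu, fun w hw ↦ by
      have k : Bf (star u) (f w) = 0 := hz w hw
      rwa [Bf_star', map_eq_zero] at k⟩
    rw [hR] at this
    exact u0 this
  have key : ∀ w ∈ hp ρ, f w ∈ Perp ρ f := by
    refine mem_of_uncountable _ (hp_conn ρ) h.an
      (s := hp ρ \ ({w ∈ hp ρ | Bf u (star (f w)) = 0} ∪ {w ∈ hp ρ | mm (f w) (deriv f w) = 0}))
      (fun hc ↦ hp_unc ρ ((hc.union (hb.union (LIN1.cnt h))).mono (subset_sdiff_union _ _)))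
      sdiff_subset ?_
    rintro w ⟨hw, hn⟩
    have n1 : Bf u (star (f w)) ≠ 0 := fun k ↦ hn (Or.inl ⟨hw, k⟩)
    have n2 : mm (f w) (deriv f w) ≠ 0 := fun k ↦ hn (Or.inr ⟨hw, k⟩)
    have hD := h.dom w hw
    have N0 := hD.N0
    have d0 : Bf u (deriv f w) = 0 := by
      have d1 := hasDeriv_Bf (hasDerivAt_const w u) (h.an w hw).differentiableAt.hasDerivAt
      have d2 : HasDerivAt (fun z ↦ Bf u (f z)) 0 w :=
        (hasDerivAt_const w (0 : ℂ)).congr_of_eventuallyEq (by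
          filter_upwards [(hp_open ρ).mem_nhds hw] with z hz using hu z hz)
      have := d1.unique d2
      rwa [show Bf 0 (f w) = 0 by simp [Bf], zero_add] at this
    have um : Bf u (mm (f w) (deriv f w)) = 0 := by
      rw [mm, Bf_sub', Bf_smul', d0, hu w hw, mul_zero, sub_zero]
    have a1 := (hS w hw u hu).1
    rw [Aa, smul_mulVec, wedge_mulVec, um, zero_smul, sub_zero, smul_smul] at a1
    have m1 := (Submodule.smul_mem_iff _
      (mul_ne_zero (div_ne_zero (by norm_num) N0) n1)).1 a1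
    have a2 := (hS w hw _ m1).2
    rw [Ab, smul_mulVec, wedge_mulVec, h.mm1 hw, zero_smul, zero_sub, Nn_eq, ← neg_smul,
      smul_smul] at a2
    have n3 : (Nn (mm (f w) (deriv f w)) : ℂ) ≠ 0 := by
      exact_mod_cast (hD.neg _ (h.mm1 hw) (mm_2 hD _) n2).ne
    exact (Submodule.smul_mem_iff _
      (mul_ne_zero (div_ne_zero (by norm_num) N0) (neg_ne_zero.2 n3))).1 a2
  have t1 := LIN1.three key
  have t2 := LIN1.three (ρ := ρ) (g := fun w ↦ star (f w)) fun w hw z hz ↦ by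
    rw [Bf_star, key w hw z hz, map_zero]
  have t3 := Submodule.finrank_sup_add_finrank_inf_eq (Perp ρ f) (Perp ρ fun w ↦ star (f w))
  have t4 := Submodule.finrank_le (Perp ρ f ⊔ Perp ρ fun w ↦ star (f w))
  rw [RPerp] at hR
  rw [hR, finrank_bot] at t3
  simp only [Module.finrank_fintype_fun_eq_card, Fintype.card_fin] at t4
  omega

end Pool.Agent.Lib.ECM.G4
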