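import Pool.Agent.Lib.ECM.G4Blue

/-! Block LIN2: small nondegenerate stable subspaces consist of equations. -/

open Complex Matrix Set
open scoped ComplexConjugate

noncomputable section

namespace Pool.Agent.Lib.ECM.G4

namespace LIN2

theorem Bf_zero (y : V5) : Bf 0 y = 0 := by simp [Bf]

theorem cnt {ρ : ℝ} {f : ℂ → V5} (h : Arc ρ f) :
    {w ∈ hp ρ | mm (f w) (deriv f w) = 0}.Countable := by
  by_contra hc
  have h0 : ((ρ - 1 : ℝ) : ℂ) ∈ hp ρ := by simp [hp]
  generalize ((ρ - 1 : ℝ) : ℂ) = w0 at h0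
  obtain ⟨j, hj⟩ : ∃ j, f w0 j ≠ 0 := Function.ne_iff.1 fun e ↦
    (h.dom w0 h0).N0 (by rw [← Nn_eq, e]; exact Bf_zero _)
  have an : ∀ i, AnalyticOnNhd ℂ (fun z ↦ f z i) (hp ρ) := fun i w hw ↦ an_comp (h.an w hw) i
  refine hp_unc ρ ((h.nc (f w0)).mono fun w hw ↦ ?_)
  refine ⟨hw, f w j / f w0 j, funext fun i ↦ ?_⟩
  have := wronsk (hp_conn ρ) (an i) (an j) (zero_of_uncountable (hp_conn ρ)
    (((an j).mul (an i).deriv).sub ((an j).deriv.mul (an i))) hc (sep_subset _ _)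
    fun z hz ↦ by
      have e := sub_eq_zero.1 hz.2
      simp only [der_comp (h.an z hz.1)]
      rw [e, Pi.smul_apply, Pi.smul_apply, smul_eq_mul, smul_eq_mul]
      ring) (hp_open ρ) h0 hj w hw
  rw [Pi.smul_apply, smul_eq_mul, div_mul_eq_mul_div, eq_div_iff hj, this]

theorem three {U : Submodule ℂ V5} (hU : Module.finrank ℂ U ≤ 2) {x y z : V5} (hx : x ∈ U)
    (hy : y ∈ U) (hz : z ∈ U) :
    ∃ a b c : ℂ, ¬ (a = 0 ∧ b = 0 ∧ c = 0) ∧ a • x + b • y + c • z = 0 := by
  have : ¬ LinearIndependent ℂ (![⟨x, hx⟩, ⟨y, hy⟩, ⟨z, hz⟩] : Fin 3 → U) := fun h ↦ by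
    have := h.fintype_card_le_finrank
    rw [Fintype.card_fin] at this
    omega
  obtain ⟨g, h1, i, h2⟩ := Fintype.not_linearIndependent_iff.1 this
  refine ⟨g 0, g 1, g 2, fun ⟨a, b, c⟩ ↦ h2 (by fin_cases i <;> assumption), ?_⟩
  simpa [Fin.sum_univ_three] using congrArg Subtype.val h1

theorem alg {ω m u : V5} {U : Submodule ℂ V5} (h : Dom ω) (m1 : Bf m ω = 0)
    (m2 : Bf m (star ω) = 0) (m0 : m ≠ 0) (hU : Module.finrank ℂ U ≤ 2)
    (hn : ∀ u ∈ U, (∀ u' ∈ U, Bf u u' = 0) → u = 0)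
    (hA : ∀ u ∈ U, Bf u (star ω) • m - Bf u m • star ω ∈ U)
    (hB : ∀ u ∈ U, Bf u ω • star m - Bf u (star m) • ω ∈ U) (hu : u ∈ U) : Bf u ω = 0 := by
  by_contra hs
  have N0 := h.N0
  have M0 : (Nn m : ℂ) ≠ 0 := by exact_mod_cast (h.neg m m1 m2 m0).ne
  have n1 : Bf (star m) ω = 0 := by rw [Bf_star', m2, map_zero]
  have n2 : Bf (star m) (star ω) = 0 := by rw [Bf_star, m1, map_zero]
  have n3 : Bf (star m) m = Nn m := by rw [Bf_comm, Nn_eq]
  have n4 : Bf (star ω) ω = Nn ω := by rw [Bf_comm, Nn_eq]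
  have n5 : Bf ω m = 0 := by rw [Bf_comm, m1]
  have n6 : Bf ω (star m) = 0 := by rw [Bf_comm, n1]
  have n7 : Bf (star ω) m = 0 := by rw [Bf_comm, m2]
  have n8 : Bf (star ω) (star m) = 0 := by rw [Bf_comm, n2]
  have hv := hB u hu
  generalize Bf u ω = s at hs hv
  generalize Bf u (star m) = t at hv
  by_cases hm : Bf m m = 0
  · have n9 : Bf (star m) (star m) = 0 := by rw [Bf_star, hm, map_zero]
    have hw := hA _ hv
    have e := hn _ hv fun x hx ↦ by
      obtain ⟨a, b, c, k1, k2⟩ := three hU hx hw hv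
      have e1 := congrArg (Bf · (s • star m - t • ω)) k2
      have e2 := congrArg (Bf · ω) k2
      have e3 := congrArg (Bf · m) k2
      simp only [Bf_add, Bf_sub, Bf_smul, Bf_zero, m1, n1, n2, n3, n4, n5, n7, hm, h.iso,
        Nn_eq] at e1 e2 e3
      simp only [Bf_sub' _ _ m, Bf_sub' _ _ (star m), Bf_sub' _ _ ω, Bf_sub' _ _ (star ω),
        Bf_smul' _ _ m, Bf_smul' _ _ (star m), Bf_smul' _ _ ω, Bf_smul' _ _ (star ω), m1, n1, n4,
        n6, n8, n9, h.iso, Nn_eq] at e1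
      rw [Bf_comm]
      by_contra k
      have a0 : a = 0 := (mul_eq_zero.1 (by linear_combination e1)).resolve_right k
      subst a0
      refine k1 ⟨rfl, ?_, ?_⟩
      · exact (mul_eq_zero.1 (by linear_combination -e2)).resolve_right
          (mul_ne_zero (mul_ne_zero hs M0) N0)
      · exact (mul_eq_zero.1 (by linear_combination e3)).resolve_right (mul_ne_zero hs M0)
    have := congrArg (Bf · m) e
    simp only [Bf_sub, Bf_smul, Bf_zero, n3, n5] at this
    exact mul_ne_zero hs M0 (by linear_combination this)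
  · have n9 : Bf (star m) (star m) ≠ 0 := by rwa [Bf_star, map_ne_zero]
    have k1 : ω ∈ U := by
      have := neg_mem (hB _ hv)
      simp only [Bf_sub, Bf_smul, n1, n6, h.iso, mul_zero, sub_zero, zero_smul, zero_sub,
        neg_neg] at this
      exact (U.smul_mem_iff (mul_ne_zero hs n9)).1 this
    have k2 : m ∈ U := by
      have := hA _ k1
      rw [n5, zero_smul, sub_zero, Nn_eq] at this
      exact (U.smul_mem_iff N0).1 this
    have k3 : star ω ∈ U := by
      have := neg_mem (hA _ k2)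
      rw [m2, zero_smul, zero_sub, neg_neg] at this
      exact (U.smul_mem_iff hm).1 this
    obtain ⟨a, b, c, k4, k5⟩ := three hU k1 k3 k2
    have e1 := congrArg (Bf · (star ω)) k5
    have e2 := congrArg (Bf · ω) k5
    have e3 := congrArg (Bf · m) k5
    simp only [Bf_add, Bf_smul, Bf_zero, m1, m2, n4, n5, n7, h.iso, h.iso', Nn_eq, mul_zero,
      add_zero, zero_add, mul_eq_zero, N0, hm, or_false] at e1 e2 e3
    exact k4 ⟨e1, e2, e3⟩

theorem eq_zero {ρ : ℝ} {f : ℂ → V5} (h : Arc ρ f) {u : V5} (hu : u ∈ RPerp ρ f)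
    (h1 : Bf u (star u) = 0) : u = 0 := by
  have h0 : ((ρ - 1 : ℝ) : ℂ) ∈ hp ρ := by simp [hp]
  by_contra k
  exact ((h.dom _ h0).neg u (hu.1 _ h0) (hu.2 _ h0) k).ne (by rw [Nn, h1, zero_re])

end LIN2

open LIN2

theorem st_LIN2 : St_LIN2 where
  le ρ f h U hU hn hS u hu := by
    by_contra k
    have h1 : {w ∈ hp ρ | Bf u (f w) = 0}.Countable := by
      by_contra hc
      exact k (zero_of_uncountable (hp_conn ρ) (G := fun w ↦ Bf u (f w)) (fun w hw ↦
        Finset.analyticAt_fun_sum Finset.univ fun i _ ↦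
          analyticAt_const.mul (an_comp (an_lw (h.an w hw)) i)) hc (sep_subset _ _)
        fun w hw ↦ hw.2)
    refine hp_unc ρ ((h1.union (cnt h)).mono fun w hw ↦ or_iff_not_imp_right.2 fun m0 ↦ ⟨hw, ?_⟩)
    have c0 : (-2 / Nn (f w) : ℂ) ≠ 0 := div_ne_zero (by norm_num) (h.dom w hw).N0
    refine alg (h.dom w hw) (h.mm1 hw) (mm_2 (h.dom w hw) _) (fun e ↦ m0 ⟨hw, e⟩) hU hn
      (fun x hx ↦ ?_) (fun x hx ↦ ?_) hu
    · have := (hS w hw x hx).1
      rwa [Aa, smul_mulVec, U.smul_mem_iff c0, wedge_mulVec] at this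
    · have := (hS w hw x hx).2
      rwa [Ab, smul_mulVec, U.smul_mem_iff c0, wedge_mulVec] at this
  dim ρ f h := by
    have h0 : ((ρ - 1 : ℝ) : ℂ) ∈ hp ρ := by simp [hp]
    generalize ((ρ - 1 : ℝ) : ℂ) = w0 at h0
    obtain ⟨w, hw, k⟩ := not_subset.1 fun e : hp ρ ⊆ _ ↦
      hp_unc ρ (((h.nc (f w0)).union (h.nc (star (f w0)))).mono e)
    have D := h.dom w0 h0
    have li : LinearIndependent ℂ ![f w, f w0, star (f w0)] := by
      refine linearIndependent_finCons.2 ⟨LinearIndependent.pair_iff.2 fun a b e ↦ ?_, ?_⟩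
      · have e1 := congrArg (Bf · (star (f w0))) e
        have e2 := congrArg (Bf · (f w0)) e
        simp only [Bf_add, Bf_smul, Bf_zero, D.iso, D.iso', Bf_comm (star (f w0)) (f w0), Nn_eq,
          mul_zero, add_zero, zero_add, mul_eq_zero, D.N0, or_false] at e1 e2
        exact ⟨e1, e2⟩
      · rw [Matrix.range_cons_cons_empty, Submodule.mem_span_pair]
        rintro ⟨a, b, e⟩
        have e1 := (h.dom w hw).iso
        rw [← e] at e1
        simp only [Bf_add, Bf_add', Bf_smul, Bf_smul', D.iso, D.iso',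
          Bf_comm (star (f w0)) (f w0), Nn_eq] at e1
        rcases mul_eq_zero.1 ((mul_eq_zero.1 (show a * b * (Nn (f w0) : ℂ) = 0 by
          linear_combination e1 / 2)).resolve_right D.N0) with rfl | rfl
        · exact k (.inr ⟨hw, b, by rw [← e, zero_smul, zero_add]⟩)
        · exact k (.inl ⟨hw, a, by rw [← e, zero_smul, add_zero]⟩)
    have := Submodule.finrank_add_finrank_le_of_disjoint (s := RPerp ρ f)
      (t := Submodule.span ℂ (range ![f w, f w0, star (f w0)]))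
      (Submodule.disjoint_def.2 fun x hx hx' ↦ eq_zero h hx (by
        obtain ⟨g, e⟩ := (Submodule.mem_span_range_iff_exists_fun ℂ).1 hx'
        have e' : star x = conj (g 0) • star (f w) + conj (g 1) • star (f w0) +
            conj (g 2) • f w0 := by
          rw [← e]; simp [Fin.sum_univ_three]
        rw [e', Bf_add', Bf_add', Bf_smul', Bf_smul', Bf_smul', hx.2 w hw, hx.2 w0 h0, hx.1 w0 h0]
        simp))
    rw [finrank_span_eq_card li, Module.finrank_fin_fun, Fintype.card_fin] at this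
    omega
  nd ρ f h u hu h1 := eq_zero h hu (h1 _ ⟨fun w hw ↦ by rw [Bf_star', hu.2 w hw, map_zero],
    fun w hw ↦ by rw [Bf_star, hu.1 w hw, map_zero]⟩)

end Pool.Agent.Lib.ECM.G4
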