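import Pool.Agent.Lib.ECM.G4Blue

/-! Block POL: polarisation and integration of the Higgs field. -/

open Complex Matrix Set
open scoped ComplexConjugate

noncomputable section

namespace Pool.Agent.Lib.ECM.G4

namespace XPOL

/-- the wedge as a bilinear map -/
def WL : V5 →ₗ[ℂ] V5 →ₗ[ℂ] M5 := LinearMap.mk₂ ℂ wedge
  (fun a b x ↦ mat_ext fun u ↦ by
    simp only [add_mulVec, wedge_mulVec, Bf_add', add_smul, smul_add]; abel)
  (fun c a x ↦ mat_ext fun u ↦ by
    simp only [smul_mulVec, wedge_mulVec, Bf_smul', smul_sub, smul_smul, mul_comm])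
  (fun a x y ↦ mat_ext fun u ↦ by
    simp only [add_mulVec, wedge_mulVec, Bf_add', add_smul, smul_add]; abel)
  (fun c a x ↦ mat_ext fun u ↦ by
    simp only [smul_mulVec, wedge_mulVec, Bf_smul', smul_sub, smul_smul, mul_comm])

/-- the form as a bilinear map -/
def BL : V5 →ₗ[ℂ] V5 →ₗ[ℂ] ℂ := LinearMap.mk₂ ℂ (fun y x ↦ Bf x y)
  (fun a b x ↦ Bf_add' a b x) (fun c a x ↦ Bf_smul' c a x) (fun a x y ↦ Bf_add x y a)
  (fun c a x ↦ Bf_smul c x a)

theorem expand (L : V5 →ₗ[ℂ] V5 →ₗ[ℂ] ℂ) (v x : V5) :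
    L (star v) x = ∑ a, L (Pi.single a 1) x * conj (v a) := by
  have h : star v = ∑ a, conj (v a) • (Pi.single a 1 : V5) := by
    funext i
    simp [Finset.sum_apply, Pi.single_apply]
  rw [h, map_sum, LinearMap.sum_apply]
  refine Finset.sum_congr rfl fun a _ ↦ ?_
  rw [map_smul, LinearMap.smul_apply, smul_eq_mul, mul_comm]

theorem expand2 (L B : V5 →ₗ[ℂ] V5 →ₗ[ℂ] ℂ) (v x x' : V5) :
    B (star v) x * L (star v) x' - B (star v) x' * L (star v) x =
      ∑ a : Fin 5 × Fin 5, (B (Pi.single a.1 1) x * L (Pi.single a.2 1) x' -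
        B (Pi.single a.1 1) x' * L (Pi.single a.2 1) x) * conj (v a.1 * v a.2) := by
  rw [expand L v x, expand L v x', expand B v x, expand B v x', Finset.sum_mul_sum,
    Finset.sum_mul_sum, Fintype.sum_prod_type, ← Finset.sum_sub_distrib]
  refine Finset.sum_congr rfl fun a _ ↦ ?_
  rw [← Finset.sum_sub_distrib]
  refine Finset.sum_congr rfl fun b _ ↦ ?_
  rw [map_mul]
  ring

theorem der_lin (l : V5 →ₗ[ℂ] ℂ) {f : ℂ → V5} {w : ℂ} (hf : AnalyticAt ℂ f w) :
    deriv (fun z ↦ l (f z)) w = l (deriv f w) :=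
  ((LinearMap.toContinuousLinearMap l).hasFDerivAt.comp_hasDerivAt w
    hf.differentiableAt.hasDerivAt).deriv

theorem main (L B : V5 →ₗ[ℂ] V5 →ₗ[ℂ] ℂ) {Ω : Set ℂ} (ho : IsOpen Ω) (hc : IsPreconnected Ω)
    {f : ℂ → V5} (hf : AnalyticOnNhd ℂ f Ω)
    (h : ∀ w ∈ Ω, B (star (f w)) (f w) * L (star (f w)) (deriv f w) -
      B (star (f w)) (deriv f w) * L (star (f w)) (f w) = 0) {w' : ℂ} (hw' : w' ∈ Ω)
    (h0 : B (star (f w')) (f w') ≠ 0) {x : V5} (hx : x ∈ Submodule.span ℂ (f '' Ω))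
    (hB : B (star (f w')) x = 0) : L (star (f w')) x = 0 := by
  have h1 := polar (κ := Fin 5 × Fin 5) ho hc
    (h := fun a w ↦ B (Pi.single a.1 1) (f w) * L (Pi.single a.2 1) (deriv f w) -
      B (Pi.single a.1 1) (deriv f w) * L (Pi.single a.2 1) (f w))
    (y := fun a w ↦ f w a.1 * f w a.2)
    (fun a w hw ↦ ((an_lin _ (hf w hw)).mul (an_lin _ (hf.deriv w hw))).sub
      ((an_lin _ (hf.deriv w hw)).mul (an_lin _ (hf w hw))))
    (fun a w hw ↦ (an_comp (hf w hw) _).mul (an_comp (hf w hw) _))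
    (fun w hw ↦ (expand2 L B (f w) (f w) (deriv f w)).symm.trans (h w hw))
  have h2 := wronsk hc (p := fun w ↦ L (star (f w')) (f w)) (q := fun w ↦ B (star (f w')) (f w))
    (fun w hw ↦ an_lin _ (hf w hw)) (fun w hw ↦ an_lin _ (hf w hw)) (fun w hw ↦ by
      rw [der_lin _ (hf w hw), der_lin _ (hf w hw)]
      exact (expand2 L B (f w') (f w) (deriv f w)).trans (h1 w hw w' hw')) ho hw' h0
  have h3 : L (star (f w')) x * B (star (f w')) (f w') =
      B (star (f w')) x * L (star (f w')) (f w') := by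
    clear hB
    induction hx using Submodule.span_induction with
    | mem x hx => obtain ⟨w, hw, rfl⟩ := hx; exact h2 w hw
    | zero => simp
    | add x y _ _ hx hy => rw [map_add, map_add]; linear_combination hx + hy
    | smul c x _ hx => rw [map_smul, map_smul, smul_eq_mul, smul_eq_mul]; linear_combination c * hx
  rw [hB, zero_mul] at h3
  exact (mul_eq_zero.1 h3).resolve_right h0

end XPOL

open XPOL in
theorem st_POL : St_POL := by
  intro ρ f hf S hS w' hw' x hx hB
  refine (Subspace.forall_mem_dualAnnihilator_apply_eq_zero_iff S _).1 fun l hl ↦ ?_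
  have hl' := (Submodule.mem_dualAnnihilator l).1 hl
  refine main (WL.compr₂ l) BL (hp_open ρ) (hp_conn ρ) hf.an (fun w hw ↦ ?_) hw' ?_ hx hB
  · have h1 := hl' _ (hS w hw)
    have h0 := (hf.dom w hw).N0
    have e : wedge (star (f w)) (mm (f w) (deriv f w)) = WL (star (f w)) (deriv f w) -
        (Bf (deriv f w) (star (f w)) / Nn (f w)) • WL (star (f w)) (f w) := by
      rw [← map_smul, ← map_sub]
      rfl
    rw [Aa, e, map_smul, map_sub, map_smul, smul_eq_mul, smul_eq_mul] at h1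
    have h2 := (mul_eq_zero.1 h1).resolve_left (div_ne_zero (by norm_num) h0)
    show Bf (f w) (star (f w)) * l (WL (star (f w)) (deriv f w)) -
      Bf (deriv f w) (star (f w)) * l (WL (star (f w)) (f w)) = 0
    rw [Nn_eq]
    field_simp at h2
    linear_combination h2
  · show Bf (f w') (star (f w')) ≠ 0
    rw [Nn_eq]
    exact (hf.dom w' hw').N0

end Pool.Agent.Lib.ECM.G4
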