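import Pool.Agent.Lib.ECM.G4Blue

/-! Polynomials are linear forms on tensor powers of the period vector. -/

open Complex Matrix Set
open scoped Real

noncomputable section

namespace Pool.Agent.Lib.ECM.G4

namespace XPOLY

theorem cons (e : ℕ) (x : V5) (k : Fin 5) :
    LinearMap.funLeft ℂ ℂ (fun j : Fin e → Fin 5 ↦ (Fin.cons k j : Fin (e + 1) → Fin 5))
      (pw (e + 1) x) = x k • pw e x := by
  funext j
  simp [LinearMap.funLeft_apply, pw, pure, Fin.prod_univ_succ]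

theorem main (Q : MvPolynomial (Fin 3) ℂ) : ∃ e0 : ℕ, ∀ e, e0 ≤ e →
    ∃ l : ((Fin e → Fin 5) → ℂ) →ₗ[ℂ] ℂ, ∀ τ : T3, l (pw e (om τ)) = MvPolynomial.eval τ Q := by
  induction Q using MvPolynomial.induction_on with
  | C a =>
    refine ⟨0, fun e _ ↦ ⟨a • LinearMap.proj (fun _ ↦ 0), fun τ ↦ ?_⟩⟩
    simp [pw, pure, om]
  | add p q hp hq =>
    obtain ⟨a, ha⟩ := hp
    obtain ⟨b, hb⟩ := hq
    refine ⟨max a b, fun e he ↦ ?_⟩
    obtain ⟨l, hl⟩ := ha e (le_of_max_le_left he)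
    obtain ⟨l', hl'⟩ := hb e (le_of_max_le_right he)
    exact ⟨l + l', fun τ ↦ by rw [LinearMap.add_apply, hl, hl', map_add]⟩
  | mul_X p i hp =>
    obtain ⟨a, ha⟩ := hp
    refine ⟨a + 1, fun e he ↦ ?_⟩
    obtain ⟨e, rfl⟩ : ∃ e', e = e' + 1 := ⟨e - 1, by omega⟩
    obtain ⟨l, hl⟩ := ha e (by omega)
    refine ⟨l ∘ₗ LinearMap.funLeft ℂ ℂ fun j : Fin e → Fin 5 ↦
      (Fin.cons (![1, 2, 3] i) j : Fin (e + 1) → Fin 5), fun τ ↦ ?_⟩
    rw [LinearMap.comp_apply, cons, map_smul, hl, map_mul, MvPolynomial.eval_X, smul_eq_mul,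
      mul_comm]
    congr 1
    fin_cases i <;> rfl

end XPOLY

theorem st_POLY : St_POLY := fun Q ↦
  let ⟨e, h⟩ := XPOLY.main Q
  ⟨e, h e le_rfl⟩

end Pool.Agent.Lib.ECM.G4
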