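import Pool.Agent.Lib.ECM.G4Blue

/-! Block SYS of G4: an atlas gives a system of arcs. -/

open Complex Matrix Set Metric
open scoped Real

noncomputable section

namespace Pool.Agent.Lib.ECM.G4

namespace SYS

theorem eqv_symm {x y : V5} (h : Eqv x y) : Eqv y x := by
  obtain ⟨g, c, hg, hc, e⟩ := h
  obtain ⟨g', k1, k2, -⟩ := hg.inv
  refine ⟨g', c⁻¹, k1, inv_ne_zero hc, ?_⟩
  rw [e, mulVec_smul, mulVec_mulVec, ← cz_mul, k2, cz_one, one_mulVec, smul_smul,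
    inv_mul_cancel₀ hc, one_smul]

theorem eqv_trans {x y z : V5} (h : Eqv x y) (h' : Eqv y z) : Eqv x z := by
  obtain ⟨g, c, hg, hc, e⟩ := h
  obtain ⟨g', c', hg', hc', e'⟩ := h'
  refine ⟨g * g', c * c', hg.mul hg', mul_ne_zero hc hc', ?_⟩
  rw [e, e', mulVec_smul, mulVec_mulVec, ← cz_mul, smul_smul]

theorem eqv_act (hEQV : St_EQV) (γ : Sym) {τ : T3} (hτ : τ ∈ H2) : Eqv (om (γ.act τ)) (om τ) :=
  hEQV τ hτ _ (γ.act_mem τ hτ) (γ.M τ) (γ.bij τ hτ) (γ.lat τ hτ) (γ.herm τ hτ)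

theorem mem_hp {r : ℝ} (hr : 0 < r) {w : ℂ} : w ∈ hp (Real.log r) ↔ ‖exp w‖ < r := by
  rw [norm_exp]
  exact Real.lt_log_iff_exp_lt hr

theorem an_cht {r : ℝ} (hr : 0 < r) (m : T3) {g : Fin 3 → ℂ → ℂ}
    (hg : ∀ i, AnalyticOnNhd ℂ (g i) (ball 0 r)) (i : Fin 3) :
    AnalyticOnNhd ℂ (fun w ↦ cht m g w i) (hp (Real.log r)) := fun w hw ↦ by
  have h1 : AnalyticAt ℂ (g i) (exp w) := hg i _ (by simpa using (mem_hp hr).1 hw)
  exact (analyticAt_const.mul analyticAt_id).add (h1.comp analyticAt_cexp)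

theorem an_om {F : ℂ → T3} {w : ℂ} (h : ∀ i, AnalyticAt ℂ (fun z ↦ F z i) w) :
    AnalyticAt ℂ (fun z ↦ om (F z)) w := by
  refine analyticAt_pi_iff.2 fun i ↦ ?_
  fin_cases i
  · exact analyticAt_const
  · exact h 0
  · exact h 1
  · exact h 2
  · exact ((h 0).mul (h 2)).sub ((h 1).pow 2)

theorem fibre {P : Id} (A : Atlas P) (j : Fin A.N) (τ : T3) :
    {w ∈ hp (Real.log (A.r j)) | cht (A.mm j) (A.g j) w = τ}.Countable := by
  by_contra hc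
  refine A.unc j (A.r j) (A.pos j) ((countable_singleton τ).mono ?_)
  rintro _ ⟨w, hw, rfl⟩
  rw [min_self] at hw
  funext i
  have := zero_of_uncountable (hp_conn _) (G := fun w ↦ cht (A.mm j) (A.g j) w i - τ i)
    ((an_cht (A.pos j) _ (A.an j) i).sub analyticOnNhd_const) hc (fun _ h ↦ h.1)
    (fun z hz ↦ by rw [hz.2, sub_self]) w ((mem_hp (A.pos j)).2 hw)
  exact sub_eq_zero.1 this

/-- the matrix of a translation -/
def tr (k : Fin 3 → ℤ) : Z5 := !![1, 0, 0, 0, 0; k 0, 1, 0, 0, 0; k 1, 0, 1, 0, 0;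
  k 2, 0, 0, 1, 0; k 0 * k 2 - k 1 ^ 2, k 2, -2 * k 1, k 0, 1]

theorem tr_ort (k : Fin 3 → ℤ) : Ort (tr k) := by
  ext i j
  fin_cases i <;> fin_cases j <;>
    simp [tr, Bz, mul_apply, Fin.sum_univ_five] <;> ring

theorem tr_om (k : Fin 3 → ℤ) (τ : T3) : om (fun i ↦ τ i + k i) = cz (tr k) *ᵥ om τ := by
  funext i
  fin_cases i <;> simp [tr, om, cz, mulVec, dotProduct, Fin.sum_univ_five] <;> ring

theorem om_norm {τ : T3} {K t : ℝ} (hK : 0 ≤ K) (ht : 1 ≤ t) (h : ∀ i, ‖τ i‖ ≤ K * t) :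
    ‖om τ‖ ≤ (1 + K + 2 * K ^ 2) * t ^ 2 := by
  have t1 : 1 ≤ t ^ 2 := one_le_pow₀ ht
  have t2 : K * t ≤ K * t ^ 2 := mul_le_mul_of_nonneg_left (by nlinarith) hK
  have t3 : 0 ≤ K ^ 2 * t ^ 2 := by positivity
  have t4 : 0 ≤ K * t ^ 2 := by positivity
  refine (pi_norm_le_iff_of_nonneg (by positivity)).2 fun i ↦ ?_
  have a : ∀ i, ‖τ i‖ ≤ (1 + K + 2 * K ^ 2) * t ^ 2 := fun i ↦ by nlinarith [h i]
  fin_cases i
  · simp only [om, Fin.zero_eta, cons_val_zero, norm_one]; nlinarith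
  · exact a 0
  · exact a 1
  · exact a 2
  · change ‖τ 0 * τ 2 - τ 1 ^ 2‖ ≤ _
    refine (norm_sub_le _ _).trans ?_
    rw [norm_mul, norm_pow]
    have b1 := mul_le_mul (h 0) (h 2) (norm_nonneg _) (by positivity)
    have b2 := pow_le_pow_left₀ (norm_nonneg _) (h 1) 2
    nlinarith

theorem grow {r : ℝ} (hr : 0 < r) (m : T3) {g : Fin 3 → ℂ → ℂ}
    (hg : ∀ i, AnalyticOnNhd ℂ (g i) (ball 0 r)) : ∃ C : ℝ, ∀ w : ℂ, w.re ≤ Real.log r - 1 →
      0 ≤ w.im → w.im ≤ 2 * π → ‖om (cht m g w)‖ ≤ C * (1 + |w.re|) ^ 2 := by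
  have hs : closedBall (0 : ℂ) (Real.exp (Real.log r - 1)) ⊆ ball 0 r :=
    closedBall_subset_ball ((Real.lt_log_iff_exp_lt hr).1 (by linarith))
  obtain ⟨B, hB⟩ := (isCompact_closedBall (0 : ℂ) (Real.exp (Real.log r - 1))).exists_bound_of_continuousOn
    (f := fun z i ↦ g i z) (continuousOn_pi.2 fun i ↦ (hg i).continuousOn.mono hs)
  refine ⟨_, fun w h1 h2 h3 ↦ om_norm (K := 7 * ‖m‖ + |B|) (by positivity)
    (le_add_of_nonneg_right (abs_nonneg _)) fun i ↦ ?_⟩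
  have a1 : ‖g i (exp w)‖ ≤ |B| :=
    ((norm_le_pi_norm (fun i ↦ g i (exp w)) i).trans (hB _ (by
      rw [mem_closedBall_zero_iff, norm_exp]; exact Real.exp_le_exp.2 h1))).trans (le_abs_self B)
  have a2 : ‖w‖ ≤ 7 * (1 + |w.re|) := by
    have := norm_le_abs_re_add_abs_im w
    rw [abs_of_nonneg h2] at this
    linarith [Real.pi_lt_d2, abs_nonneg w.re]
  have a3 := mul_le_mul (norm_le_pi_norm m i) a2 (norm_nonneg _) (norm_nonneg _)
  refine (norm_add_le _ _).trans ?_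
  rw [norm_mul]
  nlinarith [mul_nonneg (abs_nonneg B) (abs_nonneg w.re)]

theorem exc (hFIB : St_FIB) (hG3 : St_G3) {P : Id} (hP : HG P) (F : Finset (Ch → ℂ)) :
    {τ | ∃ x ∈ F, x ∈ Cv P ∧ Over x τ}.Countable := by
  have : ∀ x ∈ Cv P, {τ | Over x τ}.Countable := fun x hx ↦ by
    by_cases h : ∀ m, Ev m → x m ≠ 0
    · exact hFIB x h
    · refine Countable.mono (fun τ hτ ↦ ?_) hP
      refine ⟨⟨x, hx, hτ⟩, hG3.sing τ hτ.1 fun hg ↦ h fun m hm ↦ ?_⟩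
      rw [hτ.2.2 m]
      exact div_ne_zero (hg m hm) hτ.2.1
  refine ((F.countable_toSet.mono (inter_subset_left (t := Cv P))).biUnion
    fun x hx ↦ this x hx.2).mono ?_
  rintro τ ⟨x, h1, h2, h3⟩
  exact mem_biUnion (x := x) ⟨h1, h2⟩ h3

end SYS

open SYS in
theorem st_SYS (hDOM : St_DOM) (hEQV : St_EQV) (hRED : St_RED) (hFIB : St_FIB) (hG3 : St_G3) :
    St_SYS := by
  intro P A hP
  choose C hC using fun j ↦ grow (A.pos j) (A.mm j) (A.an j)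
  obtain ⟨C0, hC0⟩ := (finite_range C).bddAbove
  have hm := fun j w (hw : w ∈ hp (Real.log (A.r j))) ↦ A.mem j w ((mem_hp (A.pos j)).1 hw)
  refine ⟨⟨A.N, fun j ↦ Real.log (A.r j), fun j w ↦ om (cht (A.mm j) (A.g j) w), C0, A.c, A.cpos,
    fun j ↦ ⟨fun w hw ↦ an_om fun i ↦ an_cht (A.pos j) _ (A.an j) i w hw,
      fun w hw ↦ (hDOM _ (hm j w hw).1).1, fun x ↦ ?_⟩, fun j ↦ ?_, fun j w h1 h2 h3 ↦ ⟨?_, ?_⟩,
    fun j ↦ ?_⟩, id, Function.surjective_id, fun j ↦ ⟨rfl, rfl⟩⟩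
  · refine (fibre A j ![x 1 / x 0, x 2 / x 0, x 3 / x 0]).mono ?_
    rintro w ⟨hw, c, e⟩
    refine ⟨hw, ?_⟩
    have e0 : 1 = c * x 0 := congrFun e 0
    have e1 : cht (A.mm j) (A.g j) w 0 = c * x 1 := congrFun e 1
    have e2 : cht (A.mm j) (A.g j) w 1 = c * x 2 := congrFun e 2
    have e3 : cht (A.mm j) (A.g j) w 2 = c * x 3 := congrFun e 3
    have x0 : x 0 ≠ 0 := right_ne_zero_of_mul_eq_one e0.symm
    have hc : c = (x 0)⁻¹ := eq_inv_of_mul_eq_one_left e0.symm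
    funext i
    fin_cases i
    · exact e1.trans (by rw [hc]; exact (div_eq_inv_mul _ _).symm)
    · exact e2.trans (by rw [hc]; exact (div_eq_inv_mul _ _).symm)
    · exact e3.trans (by rw [hc]; exact (div_eq_inv_mul _ _).symm)
  · choose k hk using A.int j
    refine ⟨tr k, tr_ort k, fun w _ ↦ ?_⟩
    rw [← tr_om]
    congr 1
    funext i
    simp only [cht, ← hk i, ofReal_mul, ofReal_ofNat, exp_add, exp_two_pi_mul_I, mul_one]
    ring
  · have hw := hm j w (show w.re < Real.log (A.r j) by linarith)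
    rw [(hDOM _ hw.1).2]
    linarith [hw.2.1, A.cpos]
  · exact (hC j w h1 h2 h3).trans (mul_le_mul_of_nonneg_right (hC0 ⟨j, rfl⟩) (by positivity))
  · refine ((exc hFIB hG3 hP A.F).biUnion fun τ _ ↦ fibre A j ((A.γ j).act τ)).mono ?_
    rintro w ⟨hw, hn⟩
    obtain ⟨h1, -, x, hx, ho⟩ := hm j w hw
    have ea := (A.γ j).act_inv _ h1
    refine mem_biUnion (x := (A.γ j).inv (cht (A.mm j) (A.g j) w)) ⟨x, ?_, hx, ho⟩ ⟨hw, ea.symm⟩
    by_contra hF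
    obtain ⟨γ', hγ⟩ := hRED _ ho.1
    obtain ⟨i, w', b1, -, b2, -⟩ := A.cover x hx hF _ ho γ' hγ
    refine hn ⟨i, w', ?_, ?_⟩
    · rw [norm_exp, ← Real.exp_log (A.pos i), ← Real.exp_add, Real.exp_le_exp] at b1
      linarith
    · have c1 := eqv_act hEQV (A.γ j) ho.1
      have c2 := eqv_act hEQV γ' ho.1
      rw [ea] at c1
      rw [b2] at c2
      exact eqv_trans c1 (eqv_symm c2)

end Pool.Agent.Lib.ECM.G4
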