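import Pool.Agent.Lib.ECM.THBlue

/-! Genus two theta functions: basic facts. -/

open Complex Filter Topology Metric
open scoped Real ComplexConjugate

noncomputable section

namespace Pool.Agent.Lib.ECM

namespace XBAS

lemma iv0 (n : ℤ × ℤ) : iv n 0 = n.1 := rfl
lemma iv1 (n : ℤ × ℤ) : iv n 1 = n.2 := rfl

lemma iv_add (m n : ℤ × ℤ) : iv (m + n) = iv m + iv n := by
  funext i; fin_cases i <;> simp [iv]

lemma iv_neg (n : ℤ × ℤ) : iv (-n) = -iv n := by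
  funext i; fin_cases i <;> simp [iv]

lemma isOpen_H2 : IsOpen H2 := by
  have h (i : Fin 3) : Continuous fun τ : T3 ↦ (τ i).im := continuous_im.comp (continuous_apply i)
  exact (isOpen_lt continuous_const (h 0)).inter (isOpen_lt ((h 1).pow 2) ((h 0).mul (h 2)))

lemma red_sub : Red ⊆ H2 := by
  rintro τ ⟨h1, h2, h3, h4, -⟩
  exact ⟨by linarith, by nlinarith⟩

lemma lower {τ : T3} (hτ : τ ∈ H2) : ∃ l : ℝ, 0 < l ∧ ∀ x y : ℝ,
    l * (x ^ 2 + y ^ 2) ≤ (τ 0).im * x ^ 2 + 2 * (τ 1).im * x * y + (τ 2).im * y ^ 2 := by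
  obtain ⟨h0, h1⟩ := hτ
  have h2 : 0 < (τ 2).im := by
    by_contra h
    nlinarith [sq_nonneg (τ 1).im, mul_nonneg h0.le (neg_nonneg.2 (not_lt.1 h))]
  refine ⟨((τ 0).im * (τ 2).im - (τ 1).im ^ 2) / ((τ 0).im + (τ 2).im),
    div_pos (by linarith) (by linarith), fun x y ↦ ?_⟩
  rw [div_mul_eq_mul_div, div_le_iff₀ (by linarith)]
  nlinarith [sq_nonneg ((τ 0).im * x + (τ 1).im * y), sq_nonneg ((τ 1).im * x + (τ 2).im * y)]

lemma norm_term_iv (τ : T3) (a w : V2) : ∃ s0 s1 c : ℝ, ∀ n : ℤ × ℤ, ‖term τ (iv n + a) w‖ =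
    Real.exp (-π * ((τ 0).im * (n.1 : ℝ) ^ 2 + 2 * (τ 1).im * n.1 * n.2 + (τ 2).im * (n.2 : ℝ) ^ 2 +
      2 * (s0 * n.1 + s1 * n.2) + c)) := by
  refine ⟨(τ 0 * a 0 + τ 1 * a 1 + w 0).im, (τ 1 * a 0 + τ 2 * a 1 + w 1).im,
    (Qf τ a + 2 * dot a w).im, fun n ↦ ?_⟩
  have e : Qf τ (iv n + a) + 2 * dot (iv n + a) w =
      τ 0 * ((n.1 : ℝ) ^ 2 : ℝ) + τ 1 * ((2 * n.1 * n.2 : ℝ) : ℂ) + τ 2 * ((n.2 : ℝ) ^ 2 : ℝ) +
      (τ 0 * a 0 + τ 1 * a 1 + w 0) * ((2 * n.1 : ℝ) : ℂ) +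
      (τ 1 * a 0 + τ 2 * a 1 + w 1) * ((2 * n.2 : ℝ) : ℂ) + (Qf τ a + 2 * dot a w) := by
    simp only [Qf, dot, Pi.add_apply, iv0, iv1]
    push_cast
    ring
  rw [term, norm_exp, e]
  congr 1
  rw [mul_assoc, re_ofReal_mul, I_mul_re]
  simp only [add_im, im_mul_ofReal]
  ring

lemma summ_exp {τ : T3} (hτ : τ ∈ H2) (a w : V2) (S : ℝ) :
    Summable fun n : ℤ × ℤ ↦ Real.exp (S * (|(n.1 : ℝ)| + |(n.2 : ℝ)|)) * ‖term τ (iv n + a) w‖ := by
  obtain ⟨l, hl, h⟩ := lower hτ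
  obtain ⟨s0, s1, c, hc⟩ := norm_term_iv τ a w
  have h1 := summable_pow_mul_jacobiTheta₂_term_bound (|s0| + S / (2 * π)) hl 0
  have h2 := summable_pow_mul_jacobiTheta₂_term_bound (|s1| + S / (2 * π)) hl 0
  simp only [pow_zero, one_mul] at h1 h2
  have h3 := (summable_mul_of_summable_norm (R := ℝ) h1.norm h2.norm).mul_left (Real.exp (-π * c))
  refine Summable.of_nonneg_of_le (fun n ↦ by positivity) (fun n ↦ ?_) h3
  rw [hc, ← Real.exp_add, ← Real.exp_add, ← Real.exp_add]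
  apply Real.exp_le_exp.2
  have hπ := Real.pi_pos
  have e0 : -(s0 * n.1) ≤ |s0| * |(n.1 : ℝ)| := by rw [← abs_mul]; exact neg_le_abs _
  have e1 : -(s1 * n.2) ≤ |s1| * |(n.2 : ℝ)| := by rw [← abs_mul]; exact neg_le_abs _
  have e2 := h n.1 n.2
  have e3 : S = π * (2 * (S / (2 * π))) := by field_simp
  push_cast
  generalize S / (2 * π) = S' at *
  rw [e3]
  nlinarith [mul_le_mul_of_nonneg_left e0 hπ.le, mul_le_mul_of_nonneg_left e1 hπ.le,
    mul_le_mul_of_nonneg_left e2 hπ.le]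

lemma summ_pow {τ : T3} (hτ : τ ∈ H2) (a w : V2) (k : ℕ) : Summable fun n : ℤ × ℤ ↦
    (|(n.1 : ℝ)| + |(n.2 : ℝ)| + 1) ^ k * ‖term τ (iv n + a) w‖ := by
  refine Summable.of_nonneg_of_le (fun n ↦ by positivity) (fun n ↦ ?_) (summ_exp hτ a w k)
  refine mul_le_mul_of_nonneg_right ?_ (norm_nonneg _)
  rw [Real.exp_nat_mul]
  exact pow_le_pow_left₀ (by positivity) (Real.add_one_le_exp _) k

lemma summ {τ : T3} (hτ : τ ∈ H2) (a w : V2) :
    Summable fun n : ℤ × ℤ ↦ ‖term τ (iv n + a) w‖ := by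
  simpa using summ_pow hτ a w 0

lemma norm_term (τ : T3) (p w : V2) (hp : ∀ i, (p i).im = 0) : ‖term τ p w‖ =
    Real.exp (-π * ((τ 0).im * (p 0).re ^ 2 + 2 * (τ 1).im * (p 0).re * (p 1).re +
      (τ 2).im * (p 1).re ^ 2 + 2 * ((p 0).re * (w 0).im + (p 1).re * (w 1).im))) := by
  rw [term, norm_exp]
  congr 1
  rw [mul_assoc, re_ofReal_mul, I_mul_re]
  simp only [Qf, dot, add_im, mul_im, mul_re, pow_two, hp, re_ofNat, im_ofNat]
  ring

lemma shift_a (τ : T3) (a w : V2) (n : ℤ × ℤ) : thg τ (a + iv n) w = thg τ a w := by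
  unfold thg
  rw [← (Equiv.addRight n).tsum_eq fun k ↦ term τ (iv k + a) w]
  refine tsum_congr fun k ↦ ?_
  rw [Equiv.coe_addRight, iv_add]
  congr 1
  abel

lemma shift_w (τ : T3) (a w : V2) (n : ℤ × ℤ) :
    thg τ a (w + iv n) = exp (2 * π * I * dot a (iv n)) * thg τ a w := by
  unfold thg
  rw [← tsum_mul_left]
  refine tsum_congr fun k ↦ ?_
  rw [term, term, ← exp_add]
  apply exp_eq_exp_iff_exists_int.2 ⟨k.1 * n.1 + k.2 * n.2, ?_⟩
  simp only [Qf, dot, Pi.add_apply, iv0, iv1]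
  push_cast
  ring

lemma shift_per (τ : T3) (a w c : V2) :
    thg τ a (w + per τ 0 c) = exp (-π * I * (Qf τ c + 2 * dot c w)) * thg τ (a + c) w := by
  unfold thg
  rw [← tsum_mul_left]
  refine tsum_congr fun k ↦ ?_
  rw [term, term, ← exp_add]
  congr 1
  simp [Qf, dot, per]
  ring

lemma thg_neg (τ : T3) (a w : V2) : thg τ (-a) (-w) = thg τ a w := by
  unfold thg
  rw [← (Equiv.neg (ℤ × ℤ)).tsum_eq fun k ↦ term τ (iv k + a) w]
  refine tsum_congr fun k ↦ ?_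
  rw [Equiv.neg_apply, iv_neg, term, term]
  congr 1
  simp only [Qf, dot, Pi.add_apply, Pi.neg_apply]
  ring

lemma half (k : ℤ) : (k : ℂ) / 2 = (((k : ZMod 2).val : ℕ) : ℂ) / 2 + ((k / 2 : ℤ) : ℂ) := by
  have h1 : (((k : ZMod 2).val : ℕ) : ℤ) = k % 2 := ZMod.val_intCast k
  have h2 : k = ((k : ZMod 2).val : ℕ) + 2 * (k / 2) := by omega
  have h3 : (k : ℂ) = (((k : ZMod 2).val : ℕ) : ℂ) + 2 * ((k / 2 : ℤ) : ℂ) := by
    exact_mod_cast h2
  rw [h3]; ring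

lemma exp_sign (k : ℤ) : ∃ ε : ℤ, (ε = 1 ∨ ε = -1) ∧ exp (π * I * k) = ε := by
  rcases Int.even_or_odd' k with ⟨j, rfl | rfl⟩
  · refine ⟨1, Or.inl rfl, ?_⟩
    rw [Int.cast_one]
    exact exp_eq_one_iff.2 ⟨j, by push_cast; ring⟩
  · refine ⟨-1, Or.inr rfl, ?_⟩
    have : (π * I * ((2 * j + 1 : ℤ) : ℂ)) = j * (2 * π * I) + π * I := by push_cast; ring
    rw [this, exp_add, exp_int_mul_two_pi_mul_I, exp_pi_mul_I]; simp

lemma thz (a b : ℤ × ℤ) : ∃ ε : ℤ, (ε = 1 ∨ ε = -1) ∧ ∀ (τ : T3) (z : V2),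
    thg τ ((1 / 2 : ℂ) • iv a) (z + (1 / 2 : ℂ) • iv b) =
      ε * th ((a.1 : ZMod 2), (a.2 : ZMod 2), (b.1 : ZMod 2), (b.2 : ZMod 2)) τ z := by
  set m : Ch := ((a.1 : ZMod 2), (a.2 : ZMod 2), (b.1 : ZMod 2), (b.2 : ZMod 2)) with hm
  obtain ⟨ε, h1, h2⟩ := exp_sign (((a.1 : ZMod 2).val : ℕ) * (b.1 / 2) +
    ((a.2 : ZMod 2).val : ℕ) * (b.2 / 2))
  refine ⟨ε, h1, fun τ z ↦ ?_⟩
  have ea : (1 / 2 : ℂ) • iv a = ca m + iv (a.1 / 2, a.2 / 2) := by
    funext i; fin_cases i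
    · simpa [iv, ca, hm, div_eq_inv_mul] using half a.1
    · simpa [iv, ca, hm, div_eq_inv_mul] using half a.2
  have eb : (1 / 2 : ℂ) • iv b = cb m + iv (b.1 / 2, b.2 / 2) := by
    funext i; fin_cases i
    · simpa [iv, cb, hm, div_eq_inv_mul] using half b.1
    · simpa [iv, cb, hm, div_eq_inv_mul] using half b.2
  rw [ea, eb, shift_a, ← add_assoc, shift_w, th, ← h2]
  congr 2
  simp only [dot, ca, hm, iv, Matrix.cons_val_zero, Matrix.cons_val_one]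
  push_cast
  ring

lemma th_per (m : Ch) (τ : T3) (μ ν : ℤ × ℤ) (z : V2) : th m τ (z + per τ (iv μ) (iv ν)) =
    exp (2 * π * I * (dot (ca m) (iv μ) - dot (cb m) (iv ν))) *
      exp (-π * I * (Qf τ (iv ν) + 2 * dot (iv ν) z)) * th m τ z := by
  have e : z + per τ (iv μ) (iv ν) + cb m = z + cb m + iv μ + per τ 0 (iv ν) := by
    funext i; fin_cases i <;> simp [per, Matrix.vecHead, Matrix.vecTail] <;> ring
  rw [th, e, shift_per, shift_a, shift_w, th, ← mul_assoc, ← exp_add, ← exp_add]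
  congr 1
  apply exp_eq_exp_iff_exists_int.2 ⟨-(μ.1 * ν.1 + μ.2 * ν.2), ?_⟩
  simp only [dot, Pi.add_apply, iv0, iv1]
  push_cast
  ring

lemma th_neg (m : Ch) (τ : T3) (z : V2) :
    th m τ (-z) = (if Ev m then 1 else -1) * th m τ z := by
  have e1 : -ca m = ca m + iv (-(m.1.val : ℤ), -(m.2.1.val : ℤ)) := by
    funext i; fin_cases i <;> simp [ca, iv] <;> ring
  have e2 : -(-z + cb m) = z + cb m + iv (-(m.2.2.1.val : ℤ), -(m.2.2.2.val : ℤ)) := by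
    funext i; fin_cases i <;> simp [cb, iv] <;> ring
  rw [th, ← thg_neg, e1, e2, shift_a, shift_w, th]
  congr 1
  have hv : ∀ x : ZMod 2, (x = 0 ∧ x.val = 0) ∨ (x = 1 ∧ x.val = 1) := by decide
  obtain ⟨a, b, c, d⟩ := m
  have e : ∀ k : ℤ, exp ((k : ℂ) * (2 * π * I)) = 1 := exp_int_mul_two_pi_mul_I
  have e' : exp (-(π * I)) = -1 := by rw [exp_neg, exp_pi_mul_I]; norm_num
  have e'' : exp (-(2 * π * I)) = 1 := by rw [exp_neg, exp_two_pi_mul_I]; norm_num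
  have key : 2 * π * I * dot (ca (a, b, c, d)) (iv (-(c.val : ℤ), -(d.val : ℤ))) =
      -(π * I * (a.val * c.val + b.val * d.val)) := by
    simp only [dot, ca, iv, Matrix.cons_val_zero, Matrix.cons_val_one]
    push_cast
    ring
  rw [key]
  rcases hv a with ⟨rfl, ha⟩ | ⟨rfl, ha⟩ <;> rcases hv b with ⟨rfl, hb⟩ | ⟨rfl, hb⟩ <;>
    rcases hv c with ⟨rfl, hc⟩ | ⟨rfl, hc⟩ <;> rcases hv d with ⟨rfl, hd⟩ | ⟨rfl, hd⟩ <;>
    simp only [ha, hb, hc, hd] <;>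
    first
    | (rw [if_pos (by decide)]; simp; done)
    | (rw [if_neg (by decide)]; simp [e'])
    | (rw [if_pos (by decide), ← e'']; congr 1; push_cast; ring)

lemma kk_odd (m : Ch) (τ : T3) (h : ¬ Ev m) : kk m τ = 0 := by
  have := th_neg m τ 0
  rw [neg_zero, if_neg h] at this
  unfold kk
  linear_combination (1 / 2 : ℂ) * this

/-- the linear form `v ↦ 2 π i p · v` -/
def lf (p : V2) : V2 →L[ℂ] ℂ :=
  (2 * π * I * p 0) • ContinuousLinearMap.proj 0 + (2 * π * I * p 1) • ContinuousLinearMap.proj 1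

lemma lf_apply (p v : V2) : lf p v = 2 * π * I * dot p v := by
  simp [lf, dot]; ring

lemma norm_lf_apply (p v : V2) : ‖lf p v‖ ≤ 2 * π * (‖p 0‖ + ‖p 1‖) * ‖v‖ := by
  have h0 := norm_le_pi_norm v 0
  have h1 := norm_le_pi_norm v 1
  have hπ := Real.pi_pos
  rw [lf_apply, norm_mul, norm_mul, norm_mul, norm_I, norm_real, Real.norm_of_nonneg hπ.le, dot]
  have := norm_add_le (p 0 * v 0) (p 1 * v 1)
  rw [norm_mul, norm_mul] at this
  have h2 : ‖p 0 * v 0 + p 1 * v 1‖ ≤ (‖p 0‖ + ‖p 1‖) * ‖v‖ := by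
    nlinarith [mul_le_mul_of_nonneg_left h0 (norm_nonneg (p 0)),
      mul_le_mul_of_nonneg_left h1 (norm_nonneg (p 1))]
  simp only [norm_ofNat, mul_one]
  nlinarith [mul_le_mul_of_nonneg_left h2 hπ.le]

lemma term_eq (τ : T3) (p w w₀ : V2) : term τ p w = term τ p w₀ * exp (lf p (w - w₀)) := by
  rw [term, term, ← exp_add, lf_apply]
  congr 1
  simp only [dot, Pi.sub_apply]
  ring

lemma hasFD_term (τ : T3) (p w : V2) : HasFDerivAt (term τ p) (term τ p w • lf p) w := by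
  have e : term τ p = fun w ↦ term τ p 0 * exp (lf p w) := by
    funext w; rw [term_eq τ p w 0, sub_zero]
  have h := ((lf p).hasFDerivAt (x := w)).cexp.const_mul (term τ p 0)
  rw [smul_smul, ← congrFun e w, ← e] at h
  exact h

lemma hasFD {τ : T3} (hτ : τ ∈ H2) (a w : V2) :
    HasFDerivAt (thg τ a) (∑' n : ℤ × ℤ, term τ (iv n + a) w • lf (iv n + a)) w ∧
      Summable fun n : ℤ × ℤ ↦ term τ (iv n + a) w • lf (iv n + a) := by
  have hπ := Real.pi_pos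
  have hn : ∀ n : ℤ × ℤ, ‖(iv n + a) 0‖ + ‖(iv n + a) 1‖ ≤
      |(n.1 : ℝ)| + |(n.2 : ℝ)| + (‖a 0‖ + ‖a 1‖) := fun n ↦ by
    have h0 := norm_add_le (iv n 0) (a 0)
    have h1 := norm_add_le (iv n 1) (a 1)
    rw [iv0, norm_intCast] at h0
    rw [iv1, norm_intCast] at h1
    simp only [Pi.add_apply, iv0, iv1]
    linarith
  have hu := (summ_exp hτ a w (4 * π)).mul_left (Real.exp (4 * π * (‖a 0‖ + ‖a 1‖)))
  have hb : ∀ (n : ℤ × ℤ) (x : V2), x ∈ ball w 1 → ‖term τ (iv n + a) x • lf (iv n + a)‖ ≤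
      Real.exp (4 * π * (‖a 0‖ + ‖a 1‖)) *
        (Real.exp (4 * π * (|(n.1 : ℝ)| + |(n.2 : ℝ)|)) * ‖term τ (iv n + a) w‖) := by
    intro n x hx
    set B := 2 * π * (‖(iv n + a) 0‖ + ‖(iv n + a) 1‖) with hB
    have hB0 : 0 ≤ B := by positivity
    have h1 : ‖lf (iv n + a)‖ ≤ Real.exp B :=
      (ContinuousLinearMap.opNorm_le_bound _ hB0 (norm_lf_apply _)).trans
        (by linarith [Real.add_one_le_exp B])
    have h2 : ‖exp (lf (iv n + a) (x - w))‖ ≤ Real.exp B := by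
      refine (norm_exp_le_exp_norm _).trans (Real.exp_le_exp.2 ((norm_lf_apply _ _).trans ?_))
      have : ‖x - w‖ ≤ 1 := by rw [← dist_eq_norm]; exact (mem_ball.1 hx).le
      nlinarith
    have h3 : Real.exp B * Real.exp B ≤ Real.exp (4 * π * (‖a 0‖ + ‖a 1‖)) *
        Real.exp (4 * π * (|(n.1 : ℝ)| + |(n.2 : ℝ)|)) := by
      rw [← Real.exp_add, ← Real.exp_add]
      apply Real.exp_le_exp.2
      nlinarith [mul_le_mul_of_nonneg_left (hn n) hπ.le]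
    rw [norm_smul, term_eq τ _ x w, norm_mul]
    calc _ ≤ ‖term τ (iv n + a) w‖ * Real.exp B * Real.exp B := by gcongr
      _ = Real.exp B * Real.exp B * ‖term τ (iv n + a) w‖ := by ring
      _ ≤ _ := by rw [← mul_assoc]; gcongr
  exact ⟨hasFDerivAt_tsum_of_isPreconnected hu isOpen_ball (convex_ball w 1).isPreconnected
    (fun n x _ ↦ hasFD_term τ _ x) hb (mem_ball_self one_pos) (summ hτ a w).of_norm
    (mem_ball_self one_pos), Summable.of_norm_bounded hu fun n ↦ hb n w (mem_ball_self one_pos)⟩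

lemma diff {τ : T3} (hτ : τ ∈ H2) (a : V2) : Differentiable ℂ (thg τ a) :=
  fun w ↦ (hasFD hτ a w).1.differentiableAt

lemma fd {τ : T3} (hτ : τ ∈ H2) (a w v : V2) : fderiv ℂ (thg τ a) w v =
    ∑' n : ℤ × ℤ, 2 * π * I * dot (iv n + a) v * term τ (iv n + a) w := by
  obtain ⟨h1, h2⟩ := hasFD hτ a w
  rw [h1.fderiv]
  have := (ContinuousLinearMap.apply ℂ ℂ v).map_tsum h2
  simp only [ContinuousLinearMap.apply_apply] at this
  rw [this]
  refine tsum_congr fun n ↦ ?_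
  rw [smul_apply, lf_apply, smul_eq_mul, mul_comm]

lemma diff_th (m : Ch) {τ : T3} (hτ : τ ∈ H2) : Differentiable ℂ (th m τ) :=
  (diff hτ (ca m)).comp (differentiable_id.add_const _)

lemma dth_eq (m : Ch) {τ : T3} (hτ : τ ∈ H2) (v x : V2) : dth m τ v x =
    ∑' n : ℤ × ℤ, 2 * π * I * dot (iv n + ca m) v * term τ (iv n + ca m) (x + cb m) := by
  rw [← fd hτ, dth, ← fderiv_comp_add_right]
  rfl

lemma line (m : Ch) {τ : T3} (hτ : τ ∈ H2) (x v : V2) (t : ℂ) :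
    HasDerivAt (fun t : ℂ ↦ th m τ (x + t • v)) (dth m τ v (x + t • v)) t := by
  have h1 : HasDerivAt (fun t : ℂ ↦ x + t • v) v t := by
    simpa using ((hasDerivAt_id t).smul_const v).const_add x
  exact HasFDerivAt.comp_hasDerivAt (l := th m τ) (f := fun t : ℂ ↦ x + t • v) t
    (diff_th m hτ (x + t • v)).hasFDerivAt h1

lemma ll_even (m : Ch) {τ : T3} (hτ : τ ∈ H2) (v : V2) (h : Ev m) : ll m τ v = 0 := by
  have h1 := line m hτ 0 v 0
  have h2 := line m hτ 0 (-v) 0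
  have e : (fun t : ℂ ↦ th m τ (0 + t • -v)) = fun t : ℂ ↦ th m τ (0 + t • v) := by
    funext t
    rw [zero_add, zero_add, smul_neg, th_neg, if_pos h, one_mul]
  rw [e] at h2
  have h3 := h1.unique h2
  simp only [zero_smul, add_zero, dth, map_neg] at h3
  unfold ll dth
  linear_combination (1 / 2 : ℂ) * h3

end XBAS

open XBAS in
theorem st_BAS : St_BAS where
  isOpen := isOpen_H2
  red := red_sub
  summ := fun _ h ↦ summ h
  summ_pow := fun _ h ↦ summ_pow h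
  norm_term := norm_term
  shift_a := shift_a
  shift_w := shift_w
  shift_per := shift_per
  neg := thg_neg
  thz := thz
  th_per := th_per
  th_neg := th_neg
  kk_odd := kk_odd
  ll_even := fun m _ h ↦ ll_even m h
  diff := fun _ h ↦ diff h
  diff_th := fun m _ h ↦ diff_th m h
  fd := fun _ h ↦ fd h
  dth_eq := fun m _ h ↦ dth_eq m h
  line := fun m _ h ↦ line m h
  lat_zero := fun τ ↦ ⟨0, 0, by funext i; fin_cases i <;> simp [per, iv]⟩
  lat_add := by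
    rintro τ _ ⟨m, n, rfl⟩ _ ⟨m', n', rfl⟩
    exact ⟨m + m', n + n', by funext i; fin_cases i <;> simp [per, iv] <;> ring⟩
  lat_smul := by
    rintro τ k _ ⟨m, n, rfl⟩
    exact ⟨k • m, k • n, by funext i; fin_cases i <;> simp [per, iv] <;> ring⟩

end Pool.Agent.Lib.ECM
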