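import Pool.Agent.Lib.ECM.Blue3
import Pool.Agent.Lib.ECM.TH_BAS

/-! The addition formula for the squares of the theta constants. -/

open Complex Filter Topology
open scoped Real

noncomputable section

namespace Pool.Agent.Lib.ECM

namespace XADD2

abbrev N2 := (ℤ × ℤ) × (ℤ × ℤ)

/-- the parametrisation of pairs of integral vectors -/
def w (α : ℤ × ℤ) (x : Z2 × N2) : N2 :=
  (x.2.1 + x.2.2 + ((x.1.1.val : ℤ), (x.1.2.val : ℤ)) - α, x.2.1 - x.2.2)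

theorem w_bij (α : ℤ × ℤ) : Function.Bijective (w α) := by
  obtain ⟨x, y⟩ := α
  constructor
  · rintro ⟨⟨s, t⟩, ⟨a, a'⟩, b, b'⟩ ⟨⟨s', t'⟩, ⟨c, c'⟩, d, d'⟩ h
    simp only [w, Prod.mk_add_mk, Prod.mk_sub_mk, Prod.mk.injEq] at h ⊢
    have h1 := s.val_lt
    have h2 := t.val_lt
    have h3 := s'.val_lt
    have h4 := t'.val_lt
    rw [← (ZMod.val_injective 2).eq_iff, ← (ZMod.val_injective 2).eq_iff]
    omega
  · rintro ⟨⟨a, a'⟩, b, b'⟩
    refine ⟨⟨(((a + b + x : ℤ) : ZMod 2), ((a' + b' + y : ℤ) : ZMod 2)),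
      ((a + b + x) / 2, (a' + b' + y) / 2), (a + b + x) / 2 - b, (a' + b' + y) / 2 - b'⟩, ?_⟩
    simp only [w, Prod.mk_add_mk, Prod.mk_sub_mk, Prod.mk.injEq, ZMod.val_intCast]
    omega

theorem sgn (s t b c : ZMod 2) : (-1 : ℂ) ^ (s * b + t * c).val =
    exp (π * I * ((s.val * b.val + t.val * c.val : ℕ) : ℂ)) := by
  rw [mul_comm (π * I), exp_nat_mul, exp_pi_mul_I, ZMod.val_add, ZMod.val_mul, ZMod.val_mul,
    ← Nat.add_mod, ← neg_one_pow_eq_pow_mod_two]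

theorem trm (τ : T3) (m : Ch) (s : Z2) (k : N2) :
    term τ (iv (w (m.1.val, m.2.1.val) (s, k)).1 + ca m) (0 + cb m) *
      term τ (iv (w (m.1.val, m.2.1.val) (s, k)).2 + ca m) (0 + cb m) =
    (-1) ^ (s.1 * m.2.2.1 + s.2 * m.2.2.2).val *
      (term (fun i ↦ 2 * τ i) (iv k.1 + ca (s.1, s.2, 0, 0)) 0 *
        term (fun i ↦ 2 * τ i) (iv k.2 + (ca (s.1, s.2, 0, 0) - ca m)) 0) := by
  rw [sgn, ← mul_one (exp (π * I * _)),
    ← exp_int_mul_two_pi_mul_I (k.1.1 * m.2.2.1.val + k.1.2 * m.2.2.2.val)]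
  simp only [term, ← Complex.exp_add]
  congr 1
  simp only [Qf, dot, w, iv, ca, cb, Pi.add_apply, Pi.sub_apply, Pi.zero_apply, Prod.fst_add,
    Prod.snd_add, Prod.fst_sub, Prod.snd_sub, Matrix.cons_val_zero, Matrix.cons_val_one,
    Int.cast_add, Int.cast_sub, Int.cast_mul, Int.cast_natCast, Nat.cast_add, Nat.cast_mul]
  ring

theorem val_sub (s a : ZMod 2) : ∃ e : ℤ, ((s + a).val : ℤ) = s.val - a.val + 2 * e := by
  refine ⟨(((s + a).val : ℤ) - s.val + a.val) / 2, ?_⟩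
  rw [ZMod.val_add]
  omega

theorem shift (τ : T3) (m : Ch) (s : Z2) :
    f2 τ (s + (m.1, m.2.1)) = thg (fun i ↦ 2 * τ i) (ca (s.1, s.2, 0, 0) - ca m) 0 := by
  obtain ⟨e, he⟩ := val_sub s.1 m.1
  obtain ⟨e', he'⟩ := val_sub s.2 m.2.1
  rw [← st_BAS.shift_a _ _ _ (e, e'), f2]
  congr 1
  have h1 := congrArg (Int.cast : ℤ → ℂ) he
  have h2 := congrArg (Int.cast : ℤ → ℂ) he'
  simp only [Int.cast_add, Int.cast_sub, Int.cast_mul, Int.cast_natCast, Int.cast_ofNat] at h1 h2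
  funext i
  fin_cases i
  · simp only [ca, iv, Prod.fst_add, Fin.zero_eta, Pi.add_apply, Pi.sub_apply,
      Matrix.cons_val_zero, h1]
    ring
  · simp only [ca, iv, Prod.snd_add, Fin.mk_one, Pi.add_apply, Pi.sub_apply,
      Matrix.cons_val_zero, Matrix.cons_val_one, h2]
    ring

theorem two_mem {τ : T3} (h : τ ∈ H2) : (fun i ↦ 2 * τ i) ∈ H2 := by
  obtain ⟨h1, h2⟩ := h
  constructor <;> simp only [mul_im, re_ofNat, im_ofNat, zero_mul, add_zero] <;> nlinarith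

end XADD2

open XADD2 in
theorem st_ADD2 : St_ADD2 := by
  intro τ hτ m
  have h1 := st_BAS.summ τ hτ (ca m) (0 + cb m)
  have h2 := (h1.mul_norm h1).of_norm
  let e := Equiv.ofBijective _ (w_bij (m.1.val, m.2.1.val))
  rw [sq, kk, th, thg, tsum_mul_tsum_of_summable_norm h1 h1, ← e.tsum_eq]
  refine (e.summable_iff.mpr h2).tsum_prod.trans ?_
  rw [tsum_fintype, Qm]
  refine Finset.sum_congr rfl fun s _ ↦ ?_
  rw [shift, f2, thg, thg, tsum_mul_tsum_of_summable_norm (st_BAS.summ _ (two_mem hτ) _ _)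
    (st_BAS.summ _ (two_mem hτ) _ _), ← tsum_mul_left]
  exact tsum_congr fun k ↦ trm τ m s k

end Pool.Agent.Lib.ECM
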