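import Pool.Agent.Lib.ECM.THBlue

/-! Genus two theta functions: the Hermitian form attached to the imaginary part. -/

open Complex
open scoped Real ComplexConjugate

noncomputable section

namespace Pool.Agent.Lib.ECM

namespace XHERM

/-- the real quadratic form of the inverse of the matrix `(a, b; b, c)` -/
def Rq (a b c x y : ℝ) : ℝ := (c * x ^ 2 - 2 * b * x * y + a * y ^ 2) / (a * c - b ^ 2)

theorem c_pos {a b c : ℝ} (ha : 0 < a) (h : b ^ 2 < a * c) : 0 < c := by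
  by_contra hc
  have : a * c ≤ 0 := mul_nonpos_of_nonneg_of_nonpos ha.le (not_lt.1 hc)
  nlinarith [sq_nonneg b]

theorem Rq_lb {a b c : ℝ} (h : b ^ 2 < a * c) (x y : ℝ) :
    x ^ 2 + y ^ 2 ≤ (a + c) * Rq a b c x y := by
  have hD : 0 < a * c - b ^ 2 := sub_pos.2 h
  unfold Rq
  rw [← mul_div_assoc, le_div_iff₀ hD]
  nlinarith [sq_nonneg (c * x - b * y), sq_nonneg (b * x - a * y)]

theorem Rq_nonneg {a b c : ℝ} (ha : 0 < a) (h : b ^ 2 < a * c) (x y : ℝ) : 0 ≤ Rq a b c x y := by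
  have h1 := Rq_lb h x y
  have hs : 0 < a + c := add_pos ha (c_pos ha h)
  by_contra hn
  have : (a + c) * Rq a b c x y < 0 := mul_neg_of_pos_of_neg hs (not_le.1 hn)
  nlinarith [sq_nonneg x, sq_nonneg y]

theorem Rq_Y {a b c : ℝ} (h : b ^ 2 < a * c) (p q : ℝ) :
    Rq a b c (a * p + b * q) (b * p + c * q) = a * p ^ 2 + 2 * b * p * q + c * q ^ 2 := by
  have hD : a * c - b ^ 2 ≠ 0 := (sub_pos.2 h).ne'
  unfold Rq
  rw [div_eq_iff hD]
  ring

theorem Q_lb (a b c p q : ℝ) :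
    (a * c - b ^ 2) * (p ^ 2 + q ^ 2) ≤ (a + c) * (a * p ^ 2 + 2 * b * p * q + c * q ^ 2) := by
  nlinarith [sq_nonneg (a * p + b * q), sq_nonneg (b * p + c * q)]

theorem Hn_eq (τ : T3) (v : V2) :
    Hn τ v = Rq (τ 0).im (τ 1).im (τ 2).im (v 0).re (v 1).re +
      Rq (τ 0).im (τ 1).im (τ 2).im (v 0).im (v 1).im := by
  unfold Hn Rq dY
  rw [← add_div]
  congr 1
  simp only [normSq_apply, mul_re, conj_re, conj_im]
  ring

theorem qI_eq (τ : T3) (z : V2) : qI τ z = Rq (τ 0).im (τ 1).im (τ 2).im (z 0).im (z 1).im := rfl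

theorem Hn_lb {τ : T3} (hτ : τ ∈ H2) (v : V2) :
    normSq (v 0) + normSq (v 1) ≤ ((τ 0).im + (τ 2).im) * Hn τ v := by
  have h1 := Rq_lb hτ.2 (v 0).re (v 1).re
  have h2 := Rq_lb hτ.2 (v 0).im (v 1).im
  rw [Hn_eq, normSq_apply, normSq_apply]
  nlinarith

theorem sum_pos {v : V2} (hv : v ≠ 0) : 0 < normSq (v 0) + normSq (v 1) := by
  by_contra hn
  have h0 := normSq_nonneg (v 0)
  have h1 := normSq_nonneg (v 1)
  have e0 : normSq (v 0) = 0 := by linarith [not_lt.1 hn]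
  have e1 : normSq (v 1) = 0 := by linarith [not_lt.1 hn]
  apply hv
  funext i
  fin_cases i
  · exact normSq_eq_zero.1 e0
  · exact normSq_eq_zero.1 e1

theorem dY_pos {τ : T3} (hτ : τ ∈ H2) : 0 < dY τ := sub_pos.2 hτ.2

theorem per0_re (τ : T3) (m n : ℤ × ℤ) :
    (per τ (iv m) (iv n) 0).re = m.1 + (τ 0).re * n.1 + (τ 1).re * n.2 := by
  simp [per, iv]

theorem per1_re (τ : T3) (m n : ℤ × ℤ) :
    (per τ (iv m) (iv n) 1).re = m.2 + (τ 1).re * n.1 + (τ 2).re * n.2 := by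
  simp [per, iv]

theorem per0_im (τ : T3) (m n : ℤ × ℤ) :
    (per τ (iv m) (iv n) 0).im = (τ 0).im * n.1 + (τ 1).im * n.2 := by
  simp [per, iv]

theorem per1_im (τ : T3) (m n : ℤ × ℤ) :
    (per τ (iv m) (iv n) 1).im = (τ 1).im * n.1 + (τ 2).im * n.2 := by
  simp [per, iv]

theorem Hn_per {τ : T3} (hτ : τ ∈ H2) (m n : ℤ × ℤ) :
    Hn τ (per τ (iv m) (iv n)) =
      Rq (τ 0).im (τ 1).im (τ 2).im (m.1 + (τ 0).re * n.1 + (τ 1).re * n.2)
        (m.2 + (τ 1).re * n.1 + (τ 2).re * n.2) +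
      ((τ 0).im * (n.1 : ℝ) ^ 2 + 2 * (τ 1).im * n.1 * n.2 + (τ 2).im * (n.2 : ℝ) ^ 2) := by
  rw [Hn_eq, per0_re, per1_re, per0_im, per1_im, Rq_Y hτ.2]

theorem one_le_sq {p q : ℤ} (h : ¬ (p = 0 ∧ q = 0)) : (1 : ℝ) ≤ (p : ℝ) ^ 2 + (q : ℝ) ^ 2 := by
  have : (1 : ℤ) ≤ p ^ 2 + q ^ 2 := by
    by_cases hp : p = 0
    · have hq : q ≠ 0 := fun hq ↦ h ⟨hp, hq⟩
      have := pow_pos (abs_pos.2 hq) 2
      rw [sq_abs] at this
      nlinarith [sq_nonneg p]
    · have := pow_pos (abs_pos.2 hp) 2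
      rw [sq_abs] at this
      nlinarith [sq_nonneg q]
  exact_mod_cast this

/-- the Gram determinant identity -/
theorem gram {τ : T3} (hτ : τ ∈ H2) (c v : V2) :
    Hn τ v * Yf τ c = normSq (conj (c 0) * v 0 + conj (c 1) * v 1) +
      normSq (c 0 * (((τ 0).im : ℂ) * v 1 - ((τ 1).im : ℂ) * v 0) -
        c 1 * (((τ 2).im : ℂ) * v 0 - ((τ 1).im : ℂ) * v 1)) / dY τ := by
  have hD := (dY_pos hτ).ne'
  unfold Hn Yf
  rw [div_mul_eq_mul_div, div_eq_iff hD, add_mul (normSq _), div_mul_cancel₀ _ hD]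
  unfold dY
  simp only [normSq_apply, mul_re, mul_im, add_re, add_im, sub_re, sub_im, conj_re, conj_im,
    ofReal_re, ofReal_im]
  ring

theorem symp_real {a b c x0 x1 x2 s u m0 m1 n0 n1 m0' m1' n0' n1' : ℝ} (h : b ^ 2 < a * c)
    (e0 : s * (m0 + x0 * n0 + x1 * n1) - u * (a * n0 + b * n1) = m0' + x0 * n0' + x1 * n1')
    (e1 : s * (m1 + x1 * n0 + x2 * n1) - u * (b * n0 + c * n1) = m1' + x1 * n0' + x2 * n1')
    (f0 : s * (a * n0 + b * n1) + u * (m0 + x0 * n0 + x1 * n1) = a * n0' + b * n1')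
    (f1 : s * (b * n0 + c * n1) + u * (m1 + x1 * n0 + x2 * n1) = b * n0' + c * n1') :
    u * (Rq a b c (m0 + x0 * n0 + x1 * n1) (m1 + x1 * n0 + x2 * n1) +
      (a * n0 ^ 2 + 2 * b * n0 * n1 + c * n1 ^ 2)) = m0 * n0' + m1 * n1' - n0 * m0' - n1 * m1' := by
  have hD : a * c - b ^ 2 ≠ 0 := (sub_pos.2 h).ne'
  unfold Rq
  rw [div_add' _ _ _ hD, ← mul_div_assoc, div_eq_iff hD]
  linear_combination (c * (m0 + x0 * n0 + x1 * n1) - b * (m1 + x1 * n0 + x2 * n1)) * f0 +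
    (a * (m1 + x1 * n0 + x2 * n1) - b * (m0 + x0 * n0 + x1 * n1)) * f1 -
    (a * c - b ^ 2) * n0 * e0 - (a * c - b ^ 2) * n1 * e1

theorem normSq_le (v : V2) (i : Fin 2) : normSq (v i) ≤ ‖v‖ ^ 2 := by
  rw [normSq_eq_norm_sq]
  exact pow_le_pow_left₀ (norm_nonneg _) (norm_le_pi_norm v i) 2

theorem norm_sq_le (v : V2) : ‖v‖ ^ 2 ≤ normSq (v 0) + normSq (v 1) := by
  have h0 := normSq_nonneg (v 0)
  have h1 := normSq_nonneg (v 1)
  have h : ‖v‖ ≤ Real.sqrt (normSq (v 0) + normSq (v 1)) := by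
    refine (pi_norm_le_iff_of_nonneg (Real.sqrt_nonneg _)).2 fun i ↦ ?_
    refine Real.le_sqrt_of_sq_le ?_
    rw [← normSq_eq_norm_sq]
    fin_cases i
    · show normSq (v 0) ≤ _
      linarith
    · show normSq (v 1) ≤ _
      linarith
  calc ‖v‖ ^ 2 ≤ Real.sqrt (normSq (v 0) + normSq (v 1)) ^ 2 :=
        pow_le_pow_left₀ (norm_nonneg _) h 2
    _ = _ := Real.sq_sqrt (by linarith)

theorem red_mem {τ : T3} (hτ : τ ∈ Red) : τ ∈ H2 := by
  obtain ⟨h1, h2, h3, h4, -⟩ := hτ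
  exact ⟨by linarith, by nlinarith⟩

theorem Rq_ub {a b c : ℝ} (h1 : 0 ≤ b) (h2 : 2 * b ≤ a) (h3 : a ≤ c) (h4 : 17 / 20 ≤ a)
    (x y : ℝ) : Rq a b c x y ≤ 3 * (x ^ 2 + y ^ 2) := by
  have hb : b ^ 2 ≤ a * c / 4 := by nlinarith
  have hc : 17 / 20 * c ≤ a * c := by nlinarith
  have hD : 0 < a * c - b ^ 2 := by nlinarith
  unfold Rq
  rw [div_le_iff₀ hD]
  have hs : 0 ≤ x ^ 2 + y ^ 2 := by positivity
  have k1 : c * x ^ 2 - 2 * b * x * y + a * y ^ 2 ≤ (c + b) * (x ^ 2 + y ^ 2) := by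
    nlinarith [mul_nonneg h1 (sq_nonneg (x + y)), mul_nonneg (sub_nonneg.2 h3) (sq_nonneg y)]
  have k2 : c + b ≤ 3 * (a * c - b ^ 2) := by nlinarith
  nlinarith [mul_le_mul_of_nonneg_right k2 hs]

theorem lin_sq {s t p q : ℝ} (hs : |s| ≤ 1 / 2) (ht : |t| ≤ 1 / 2) :
    (s * p + t * q) ^ 2 ≤ (p ^ 2 + q ^ 2) / 2 := by
  have hs2 : s ^ 2 ≤ 1 / 4 := by
    obtain ⟨l, r⟩ := abs_le.1 hs
    nlinarith
  have ht2 : t ^ 2 ≤ 1 / 4 := by
    obtain ⟨l, r⟩ := abs_le.1 ht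
    nlinarith
  have hpq : 0 ≤ p ^ 2 + q ^ 2 := by positivity
  have k : (s * p + t * q) ^ 2 ≤ (s ^ 2 + t ^ 2) * (p ^ 2 + q ^ 2) := by
    nlinarith [sq_nonneg (s * q - t * p)]
  nlinarith [mul_le_mul_of_nonneg_right (add_le_add hs2 ht2) hpq]

end XHERM

open XHERM

theorem st_HERM : St_HERM where
  pos := by
    intro τ hτ v hv
    have h1 := Hn_lb hτ v
    have h2 := sum_pos hv
    have hs : 0 < (τ 0).im + (τ 2).im := add_pos hτ.1 (c_pos hτ.1 hτ.2)
    exact (mul_pos_iff_of_pos_left hs).1 (h2.trans_le h1)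
  nonneg := by
    intro τ hτ v
    rw [Hn_eq]
    exact add_nonneg (Rq_nonneg hτ.1 hτ.2 _ _) (Rq_nonneg hτ.1 hτ.2 _ _)
  smul := by
    intro τ t v
    unfold Hn
    rw [← mul_div_assoc]
    congr 1
    simp only [Pi.smul_apply, smul_eq_mul, normSq_apply, mul_re, mul_im, conj_re, conj_im]
    ring
  qI_nonneg := fun τ hτ z ↦ Rq_nonneg hτ.1 hτ.2 _ _
  qI_add := by
    intro τ z
    rw [Hn_eq, qI_eq, qI_eq, add_comm]
    simp
  symp := by
    intro τ hτ t m n m' n' h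
    have h0 := congrFun h 0
    have h1 := congrFun h 1
    rw [Pi.smul_apply, smul_eq_mul] at h0 h1
    have e0 := congrArg re h0
    have e1 := congrArg re h1
    have f0 := congrArg im h0
    have f1 := congrArg im h1
    rw [mul_re, per0_re, per0_im, per0_re] at e0
    rw [mul_re, per1_re, per1_im, per1_re] at e1
    rw [mul_im, per0_re, per0_im, per0_im] at f0
    rw [mul_im, per1_re, per1_im, per1_im] at f1
    rw [Hn_per hτ]
    push_cast
    exact symp_real hτ.2 e0 e1 f0 f1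
  per_inj := by
    intro τ hτ m n m' n' hr h
    obtain ⟨a0, b0, c0, d0⟩ := hr 0
    obtain ⟨a1, b1, c1, d1⟩ := hr 1
    have h0 := congrFun h 0
    have h1 := congrFun h 1
    simp only [per, Matrix.cons_val_zero, Matrix.cons_val_one] at h0 h1
    have f0 := congrArg im h0
    have f1 := congrArg im h1
    simp only [add_im, mul_im, a0, b0, c0, d0, a1, b1, c1, d1] at f0 f1
    have hD := (dY_pos hτ).ne'
    unfold dY at hD
    have r0 : (n 0).re = (n' 0).re :=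
      mul_left_cancel₀ hD (by linear_combination (τ 2).im * f0 - (τ 1).im * f1)
    have r1 : (n 1).re = (n' 1).re :=
      mul_left_cancel₀ hD (by linear_combination (τ 0).im * f1 - (τ 1).im * f0)
    have n0 : n 0 = n' 0 := Complex.ext r0 (b0.trans d0.symm)
    have n1 : n 1 = n' 1 := Complex.ext r1 (b1.trans d1.symm)
    rw [n0, n1] at h0 h1
    refine ⟨?_, ?_⟩ <;> funext i <;> fin_cases i
    · exact add_right_cancel (add_right_cancel h0)
    · exact add_right_cancel (add_right_cancel h1)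
    · exact n0
    · exact n1
  per_surj := by
    intro τ hτ z
    have hD := (dY_pos hτ).ne'
    set p : ℝ := ((τ 2).im * (z 0).im - (τ 1).im * (z 1).im) / dY τ with hp
    set q : ℝ := ((τ 0).im * (z 1).im - (τ 1).im * (z 0).im) / dY τ with hq
    have k0 : (z 0).im = (τ 0).im * p + (τ 1).im * q := by
      rw [hp, hq, ← mul_div_assoc, ← mul_div_assoc, ← add_div, eq_div_iff hD]
      unfold dY
      ring
    have k1 : (z 1).im = (τ 1).im * p + (τ 2).im * q := by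
      rw [hp, hq, ← mul_div_assoc, ← mul_div_assoc, ← add_div, eq_div_iff hD]
      unfold dY
      ring
    refine ⟨![z 0 - τ 0 * p - τ 1 * q, z 1 - τ 1 * p - τ 2 * q], ![p, q], ?_, ?_⟩
    · intro i
      fin_cases i
      · simp [k0]
      · simp [k1]
    · funext i
      fin_cases i
      · simp [per]
        ring
      · simp [per]
        ring
  disc := by
    intro τ hτ
    have hD := dY_pos hτ
    have hs : 0 < (τ 0).im + (τ 2).im := add_pos hτ.1 (c_pos hτ.1 hτ.2)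
    refine ⟨min 1 (dY τ) / ((τ 0).im + (τ 2).im), div_pos (lt_min one_pos hD) hs, ?_⟩
    rintro z ⟨m, n, rfl⟩ hz
    rw [div_le_iff₀' hs]
    by_cases hn : n.1 = 0 ∧ n.2 = 0
    · have hm : ¬ (m.1 = 0 ∧ m.2 = 0) := by
        intro hm
        apply hz
        funext i
        fin_cases i <;> simp [per, iv, hm.1, hm.2, hn.1, hn.2]
      have h1 := one_le_sq hm
      have h2 := Rq_lb hτ.2 (m.1 : ℝ) (m.2 : ℝ)
      rw [Hn_per hτ, hn.1, hn.2]
      simp only [Int.cast_zero, mul_zero, add_zero, ne_eq, OfNat.ofNat_ne_zero,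
        not_false_eq_true, zero_pow]
      exact (min_le_left _ _).trans (h1.trans h2)
    · have h1 := one_le_sq hn
      have h2 := Q_lb (τ 0).im (τ 1).im (τ 2).im (n.1 : ℝ) (n.2 : ℝ)
      have h3 := mul_nonneg hs.le (Rq_nonneg hτ.1 hτ.2 (m.1 + (τ 0).re * n.1 + (τ 1).re * n.2)
        (m.2 + (τ 1).re * n.1 + (τ 2).re * n.2))
      have h4 : dY τ ≤ dY τ * ((n.1 : ℝ) ^ 2 + (n.2 : ℝ) ^ 2) := le_mul_of_one_le_right hD.le h1
      rw [Hn_per hτ, mul_add]
      refine (min_le_right _ _).trans (h4.trans ?_)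
      unfold dY
      linarith
  Yf_pos := by
    intro τ hτ c hc
    have hD := dY_pos hτ
    have hs : 0 < (τ 0).im + (τ 2).im := add_pos hτ.1 (c_pos hτ.1 hτ.2)
    have h1 := Q_lb (τ 0).im (τ 1).im (τ 2).im (c 0).re (c 1).re
    have h2 := Q_lb (τ 0).im (τ 1).im (τ 2).im (c 0).im (c 1).im
    have h3 := mul_pos hD (sum_pos hc)
    refine (mul_pos_iff_of_pos_left hs).1 (h3.trans_le ?_)
    unfold Yf dY
    simp only [normSq_apply, mul_re, conj_re, conj_im]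
    linarith
  cs := by
    intro τ hτ c v
    rw [gram hτ]
    exact le_add_of_nonneg_right (div_nonneg (normSq_nonneg _) (dY_pos hτ).le)
  cs_eq := by
    intro τ hτ v hv
    refine ⟨![((τ 2).im : ℂ) * v 0 - ((τ 1).im : ℂ) * v 1,
      ((τ 0).im : ℂ) * v 1 - ((τ 1).im : ℂ) * v 0], ?_, ?_⟩
    · intro hc
      have h0 := congrFun hc 0
      have h1 := congrFun hc 1
      simp only [Matrix.cons_val_zero, Matrix.cons_val_one, Pi.zero_apply] at h0 h1
      have hD : ((τ 0).im : ℂ) * (τ 2).im - ((τ 1).im : ℂ) ^ 2 ≠ 0 := by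
        have := (dY_pos hτ).ne'
        unfold dY at this
        exact_mod_cast this
      apply hv
      funext i
      fin_cases i
      · exact mul_left_cancel₀ hD
          (by simp only [Fin.zero_eta, Pi.zero_apply]
              linear_combination ((τ 0).im : ℂ) * h0 + ((τ 1).im : ℂ) * h1)
      · exact mul_left_cancel₀ hD
          (by simp only [Fin.mk_one, Pi.zero_apply]
              linear_combination ((τ 1).im : ℂ) * h0 + ((τ 2).im : ℂ) * h1)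
    · rw [gram hτ]
      simp only [Matrix.cons_val_zero, Matrix.cons_val_one]
      rw [mul_comm (((τ 0).im : ℂ) * v 1 - ((τ 1).im : ℂ) * v 0), sub_self, map_zero, zero_div,
        add_zero]
  red := by
    refine ⟨12, by norm_num, fun τ hτ ↦ ?_⟩
    have hH := red_mem hτ
    obtain ⟨h1, h2, h3, h4, h5⟩ := hτ
    have nn : ∀ v : V2, 0 ≤ Hn τ v := fun v ↦ by
      rw [Hn_eq]
      exact add_nonneg (Rq_nonneg hH.1 hH.2 _ _) (Rq_nonneg hH.1 hH.2 _ _)
    refine ⟨fun v ↦ ⟨?_, ?_⟩, fun m n ↦ ?_⟩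
    · have k1 := Rq_ub h1 h2 h3 h4 (v 0).re (v 1).re
      have k2 := Rq_ub h1 h2 h3 h4 (v 0).im (v 1).im
      have k3 := normSq_le v 0
      have k4 := normSq_le v 1
      rw [normSq_apply] at k3 k4
      rw [Hn_eq]
      nlinarith [sq_nonneg ‖v‖]
    · have k1 := norm_sq_le v
      have k2 := Hn_lb hH v
      have k3 := mul_nonneg (sub_nonneg.2 h3) (nn v)
      have k4 := mul_nonneg (hH.1.le.trans h3) (nn v)
      nlinarith
    · have k0 := nn (per τ (iv m) (iv n))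
      have k1 := Hn_per hH m n
      have k2 := Hn_lb hH (per τ (iv m) (iv n))
      have k3 := Rq_nonneg hH.1 hH.2 (m.1 + (τ 0).re * n.1 + (τ 1).re * n.2)
        (m.2 + (τ 1).re * n.1 + (τ 2).re * n.2)
      rw [normSq_apply, normSq_apply, per0_re, per1_re] at k2
      generalize Hn τ (per τ (iv m) (iv n)) = H at k0 k1 k2 ⊢
      have hn0 : 0 ≤ (n.1 : ℝ) ^ 2 + (n.2 : ℝ) ^ 2 := by positivity
      have k4 : (τ 0).im / 2 * ((n.1 : ℝ) ^ 2 + (n.2 : ℝ) ^ 2) ≤ H := by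
        nlinarith [mul_nonneg h1 (sq_nonneg ((n.1 : ℝ) + n.2)),
          mul_nonneg (sub_nonneg.2 h3) (sq_nonneg (n.2 : ℝ)), mul_nonneg (sub_nonneg.2 h2) hn0]
      have k5 : (n.1 : ℝ) ^ 2 + (n.2 : ℝ) ^ 2 ≤ 3 * H := by
        nlinarith [mul_nonneg (sub_nonneg.2 h4) hn0]
      refine ⟨by linarith, ?_⟩
      have l0 := lin_sq (p := n.1) (q := n.2) (h5 0) (h5 1)
      have l1 := lin_sq (p := n.1) (q := n.2) (h5 1) (h5 2)
      have k6 := mul_nonneg (sub_nonneg.2 h3) k0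
      have k7 := mul_nonneg (sub_nonneg.2 (h4.trans h3)) k0
      nlinarith [mul_self_nonneg (per τ (iv m) (iv n) 0).im,
        mul_self_nonneg (per τ (iv m) (iv n) 1).im,
        sq_nonneg ((m.1 : ℝ) + 2 * ((τ 0).re * n.1 + (τ 1).re * n.2)),
        sq_nonneg ((m.2 : ℝ) + 2 * ((τ 1).re * n.1 + (τ 2).re * n.2))]

end Pool.Agent.Lib.ECM
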