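import Pool.Agent.Lib.ECM.Blue3
import Pool.Agent.Lib.ECM.TH_HERM

/-! Block ENC: endomorphisms of the torus and their rational representation. -/

namespace Pool.Agent.Lib.ECM

namespace MENC

theorem iv_im (m n m' n' : ℤ × ℤ) (i : Fin 2) :
    (iv m i).im = 0 ∧ (iv n i).im = 0 ∧ (iv m' i).im = 0 ∧ (iv n' i).im = 0 := by
  fin_cases i <;> simp [iv]

theorem iv_inj {m n : ℤ × ℤ} (h : iv m = iv n) : m.1 = n.1 ∧ m.2 = n.2 := by
  have h0 := congrFun h 0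
  have h1 := congrFun h 1
  simp only [iv, Matrix.cons_val_zero, Matrix.cons_val_one, Int.cast_inj] at h0 h1
  exact ⟨h0, h1⟩

/-- the columns determine the matrix -/
theorem col_inj {τ : T3} (hτ : τ ∈ H2) {R R' : Matrix (Fin 4) (Fin 4) ℤ}
    (h : ∀ j, col R τ j = col R' τ j) : R = R' := by
  ext i j
  obtain ⟨h1, h2⟩ := st_HERM.per_inj τ hτ _ _ _ _ (iv_im _ _ _ _) (h j)
  fin_cases i
  exacts [(iv_inj h1).1, (iv_inj h1).2, (iv_inj h2).1, (iv_inj h2).2]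

/-- the linear map with the first two columns of `R` as columns -/
noncomputable def lin (R : Matrix (Fin 4) (Fin 4) ℤ) (τ : T3) : V2 →ₗ[ℂ] V2 :=
  (LinearMap.proj 0 : V2 →ₗ[ℂ] ℂ).smulRight (col R τ 0) +
    (LinearMap.proj 1 : V2 →ₗ[ℂ] ℂ).smulRight (col R τ 1)

theorem lin_apply (R : Matrix (Fin 4) (Fin 4) ℤ) (τ : T3) (z : V2) :
    lin R τ z = z 0 • col R τ 0 + z 1 • col R τ 1 := rfl

theorem split (M : V2 →ₗ[ℂ] V2) (z : V2) : M z = z 0 • M ![1, 0] + z 1 • M ![0, 1] := by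
  rw [← map_smul, ← map_smul, ← map_add]
  congr 1
  funext i
  fin_cases i <;> simp

theorem col_one (k : ℤ) (τ : T3) : col (k • 1) τ 0 = (k : ℂ) • ![1, 0] ∧
    col (k • 1) τ 1 = (k : ℂ) • ![0, 1] ∧ col (k • 1) τ 2 = (k : ℂ) • ![τ 0, τ 1] ∧
    col (k • 1) τ 3 = (k : ℂ) • ![τ 1, τ 2] := by
  refine ⟨?_, ?_, ?_, ?_⟩ <;> funext i <;> fin_cases i <;> simp [col, per, iv, mul_comm]

theorem enc1 {τ : T3} (hτ : τ ∈ H2) (h : EndZ τ) (R : Matrix (Fin 4) (Fin 4) ℤ) (hR : EqE R τ) :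
    ∃ k : ℤ, R = k • (1 : Matrix (Fin 4) (Fin 4) ℤ) := by
  obtain ⟨k, hk⟩ := h (lin R τ) (by
    rintro _ ⟨m, n, rfl⟩
    have e : lin R τ (per τ (iv m) (iv n)) = (m.1 : ℂ) • col R τ 0 + (m.2 : ℂ) • col R τ 1 +
        (n.1 : ℂ) • col R τ 2 + (n.2 : ℂ) • col R τ 3 := by
      rw [lin_apply, ← hR.1, ← hR.2]
      simp only [per, iv, Matrix.cons_val_zero, Matrix.cons_val_one]
      module
    refine ⟨(m.1 * R 0 0 + m.2 * R 0 1 + n.1 * R 0 2 + n.2 * R 0 3,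
      m.1 * R 1 0 + m.2 * R 1 1 + n.1 * R 1 2 + n.2 * R 1 3),
      (m.1 * R 2 0 + m.2 * R 2 1 + n.1 * R 2 2 + n.2 * R 2 3,
      m.1 * R 3 0 + m.2 * R 3 1 + n.1 * R 3 2 + n.2 * R 3 3), e.trans ?_⟩
    funext i
    fin_cases i <;> simp [col, per, iv] <;> ring)
  obtain ⟨c0, c1, c2, c3⟩ := col_one k τ
  refine ⟨k, col_inj hτ fun j ↦ ?_⟩
  fin_cases j
  · exact (by simp [lin_apply] : col R τ 0 = lin R τ ![1, 0]).trans ((hk _).trans c0.symm)
  · exact (by simp [lin_apply] : col R τ 1 = lin R τ ![0, 1]).trans ((hk _).trans c1.symm)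
  · exact hR.1.symm.trans ((hk ![τ 0, τ 1]).trans c2.symm)
  · exact hR.2.symm.trans ((hk ![τ 1, τ 2]).trans c3.symm)

theorem enc2 {τ : T3} (h : ∀ R, EqE R τ → ∃ k : ℤ, R = k • (1 : Matrix (Fin 4) (Fin 4) ℤ)) :
    EndZ τ := by
  intro M hM
  obtain ⟨c0, c1, c2, c3⟩ := col_one 1 τ
  simp only [Int.cast_one, one_smul] at c0 c1 c2 c3
  have h1 (j : Fin 4) : ∃ m n : ℤ × ℤ, M (col 1 τ j) = per τ (iv m) (iv n) := hM _ ⟨_, _, rfl⟩
  choose m n hmn using h1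
  have h2 (j : Fin 4) :
      col (Matrix.of fun i j ↦ ![(m j).1, (m j).2, (n j).1, (n j).2] i) τ j = M (col 1 τ j) :=
    (hmn j).symm
  obtain ⟨k, hk⟩ := h (Matrix.of fun i j ↦ ![(m j).1, (m j).2, (n j).1, (n j).2] i) (by
    simp only [EqE, h2, c0, c1, c2, c3]
    exact ⟨(split M ![τ 0, τ 1]).symm, (split M ![τ 1, τ 2]).symm⟩)
  rw [hk] at h2
  refine ⟨k, fun z ↦ ?_⟩
  rw [split M z, ← c0, ← c1, ← h2, ← h2, (col_one k τ).1, (col_one k τ).2.1]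
  funext i
  fin_cases i <;> simp [mul_comm]

theorem hum {τ : T3} (hτ : τ ∈ H2) (h : EndZ τ) : ¬ Sing τ := by
  rintro ⟨a, b, c, d, e, hne, H⟩
  obtain ⟨k, hk⟩ := enc1 hτ h !![b, c, 0, -e; -a, 0, e, 0; 0, -d, b, -a; d, 0, c, 0] (by
    constructor <;> funext i <;> fin_cases i <;> simp [col, per, iv]
    · ring
    · linear_combination -H
    · linear_combination H
    · ring)
  have h00 := congrFun (congrFun hk 0) 0
  have h01 := congrFun (congrFun hk 0) 1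
  have h10 := congrFun (congrFun hk 1) 0
  have h11 := congrFun (congrFun hk 1) 1
  have h12 := congrFun (congrFun hk 1) 2
  have h30 := congrFun (congrFun hk 3) 0
  simp at h00 h01 h10 h11 h12 h30
  exact hne ⟨h10, h00.trans h11.symm, h01, h30, h12⟩

end MENC

theorem st_ENC : St_ENC where
  enc := fun _ hτ ↦ ⟨MENC.enc1 hτ, MENC.enc2⟩
  hum := fun _ ↦ MENC.hum
  map := fun τ τ' M hM h N hN ↦ by
    obtain ⟨k, hk⟩ := h (M.symm.toLinearMap ∘ₗ N ∘ₗ M.toLinearMap) fun z hz ↦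
      (hM _).1 (by simpa using hN _ ((hM z).2 hz))
    refine ⟨k, fun w ↦ ?_⟩
    have := congrArg M (hk (M.symm w))
    simpa using this

end Pool.Agent.Lib.ECM
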