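import Pool.Agent.Lib.ECM.Blue3

/-! The image of the theta null map is cut out, on the locus where the even coordinates do not
vanish, by its rational equations. -/

noncomputable section

namespace Pool.Agent.Lib.ECM

namespace MEQN

open MvPolynomial

/-- the sign character -/
def sg (s b : Z2) : ℤ := (-1) ^ (s.1 * b.1 + s.2 * b.2).val

theorem orth (s u : Z2) : ∑ b : Z2, sg s b * sg u b = if s = u then 4 else 0 := by
  revert s u
  decide

theorem orth' (b c : Z2) : ∑ s : Z2, sg s b * sg s c = if b = c then 4 else 0 := by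
  revert b c
  decide

theorem sg_zero (s : Z2) : sg s 0 = 1 := by
  revert s
  decide

theorem add_add (s t : Z2) : s + (s + t) = t := by
  revert s t
  decide

theorem orthC (s u : Z2) :
    ∑ b : Z2, (sg s b : ℂ) * (sg u b : ℂ) = if s = u then 4 else 0 := by
  have h := congrArg (Int.cast : ℤ → ℂ) (orth s u)
  push_cast at h
  rw [h]

theorem orthC' (b c : Z2) :
    ∑ s : Z2, (sg s b : ℂ) * (sg s c : ℂ) = if b = c then 4 else 0 := by
  have h := congrArg (Int.cast : ℤ → ℂ) (orth' b c)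
  push_cast at h
  rw [h]

/-- the characteristic with upper part `a` and lower part `b` -/
def mk (a b : Z2) : Ch := (a.1, a.2, b.1, b.2)

theorem Qm_mk (a b : Z2) (g : Z2 → ℂ) :
    Qm (mk a b) g = ∑ s : Z2, (sg s b : ℂ) * (g s * g (s + a)) := by
  unfold Qm sg mk
  refine Finset.sum_congr rfl fun s _ ↦ ?_
  push_cast
  rfl

/-- the symmetric matrix recovered from the squares -/
def SS (x : Ch → ℂ) (s t : Z2) : ℂ :=
  (1 / 4) * ∑ b : Z2, (sg s b : ℂ) * x (mk (s + t) b) ^ 2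

/-- the same as a rational polynomial -/
def SP (s t : Z2) : MvPolynomial Ch ℚ :=
  C (1 / 4) * ∑ b : Z2, (sg s b : MvPolynomial Ch ℚ) * X (mk (s + t) b) ^ 2

theorem aeval_SP (x : Ch → ℂ) (s t : Z2) : aeval x (SP s t) = SS x s t := by
  unfold SP SS
  rw [map_mul, map_sum, aeval_C]
  simp only [map_mul, map_pow, map_intCast, aeval_X]
  norm_num

theorem SS_eq {y : Ch → ℂ} {g : Z2 → ℂ} (h : ∀ m, y m ^ 2 = Qm m g) (s t : Z2) :
    SS y s t = g s * g t := by
  unfold SS
  simp only [h, Qm_mk, Finset.mul_sum]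
  rw [Finset.sum_comm]
  have e : ∀ u : Z2, ∑ b : Z2, (1 / 4 : ℂ) * ((sg s b : ℂ) * ((sg u b : ℂ) *
      (g u * g (u + (s + t))))) = if s = u then g u * g (u + (s + t)) else 0 := by
    intro u
    have : ∑ b : Z2, (1 / 4 : ℂ) * ((sg s b : ℂ) * ((sg u b : ℂ) *
        (g u * g (u + (s + t))))) =
        (1 / 4 : ℂ) * (∑ b : Z2, (sg s b : ℂ) * (sg u b : ℂ)) * (g u * g (u + (s + t))) := by
      rw [Finset.mul_sum, Finset.sum_mul]
      exact Finset.sum_congr rfl fun b _ ↦ by ring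
    rw [this, orthC]
    split_ifs <;> ring
  rw [Finset.sum_congr rfl fun u _ ↦ e u, Finset.sum_ite_eq]
  simp only [Finset.mem_univ, if_true, add_add]

theorem sq_eq (x : Ch → ℂ) (a b : Z2) :
    x (mk a b) ^ 2 = ∑ s : Z2, (sg s b : ℂ) * SS x s (s + a) := by
  unfold SS
  simp only [add_add, Finset.mul_sum]
  rw [Finset.sum_comm]
  have e : ∀ c : Z2, ∑ s : Z2, (sg s b : ℂ) * ((1 / 4 : ℂ) * ((sg s c : ℂ) *
      x (mk a c) ^ 2)) = if b = c then x (mk a c) ^ 2 else 0 := by
    intro c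
    have : ∑ s : Z2, (sg s b : ℂ) * ((1 / 4 : ℂ) * ((sg s c : ℂ) * x (mk a c) ^ 2)) =
        (1 / 4 : ℂ) * (∑ s : Z2, (sg s b : ℂ) * (sg s c : ℂ)) * x (mk a c) ^ 2 := by
      rw [Finset.mul_sum, Finset.sum_mul]
      exact Finset.sum_congr rfl fun s _ ↦ by ring
    rw [this, orthC']
    split_ifs <;> ring
  rw [Finset.sum_congr rfl fun c _ ↦ e c, Finset.sum_ite_eq]
  simp only [Finset.mem_univ, if_true]

theorem Qm_div (m : Ch) (g : Z2 → ℂ) (k : ℂ) :
    Qm m (fun s ↦ g s / k) = Qm m g / k ^ 2 := by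
  unfold Qm
  rw [Finset.sum_div]
  exact Finset.sum_congr rfl fun s _ ↦ by ring

theorem over_sq (hA : St_ADD2) {y : Ch → ℂ} {τ : T3} (h : Over y τ) (m : Ch) :
    y m ^ 2 = Qm m (fun s ↦ f2 τ s / kk 0 τ) := by
  rw [Qm_div, ← hA τ h.1 m, h.2.2 m, div_pow]

/-- a symmetric matrix of rank at most one with nonzero trace is a square -/
theorem rank_one (S : Z2 → Z2 → ℂ) (hs : ∀ s t, S s t = S t s)
    (hm : ∀ s t s' t', S s t * S s' t' = S s t' * S s' t) (ht : ∑ s, S s s ≠ 0) :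
    ∃ g : Z2 → ℂ, ∀ s t, S s t = g s * g t := by
  obtain ⟨s0, -, h0⟩ := Finset.exists_ne_zero_of_sum_ne_zero ht
  obtain ⟨r, hr⟩ := IsAlgClosed.exists_pow_nat_eq (S s0 s0) (n := 2) (by norm_num)
  have hr0 : r ≠ 0 := by
    rintro rfl
    apply h0
    rw [← hr]
    ring
  refine ⟨fun s ↦ S s s0 / r, fun s t ↦ ?_⟩
  have h1 := hm s t s0 s0
  rw [hs s0 t, ← hr] at h1
  field_simp
  linear_combination h1

end MEQN

open MEQN MvPolynomial in
theorem st_EQN (hA : St_ADD2) (hS : St_SURJ) : St_EQN := by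
  intro x hx hev
  have h0 : x 0 = 1 := by
    have := hx (X 0 - 1) fun y τ h ↦ by
      rw [map_sub, aeval_X, map_one, h.2.2 0, div_self h.2.1, sub_self]
    rw [map_sub, aeval_X, map_one] at this
    exact sub_eq_zero.1 this
  have hs : ∀ s t, SS x s t = SS x t s := by
    intro s t
    have := hx (SP s t - SP t s) fun y τ h ↦ by
      rw [map_sub, aeval_SP, aeval_SP, SS_eq (over_sq hA h), SS_eq (over_sq hA h)]
      ring
    rw [map_sub, aeval_SP, aeval_SP] at this
    exact sub_eq_zero.1 this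
  have hm : ∀ s t s' t', SS x s t * SS x s' t' = SS x s t' * SS x s' t := by
    intro s t s' t'
    have := hx (SP s t * SP s' t' - SP s t' * SP s' t) fun y τ h ↦ by
      rw [map_sub, map_mul, map_mul]
      simp only [aeval_SP, SS_eq (over_sq hA h)]
      ring
    rw [map_sub, map_mul, map_mul] at this
    simp only [aeval_SP] at this
    exact sub_eq_zero.1 this
  have ht : ∑ s, SS x s s ≠ 0 := by
    have h1 := sq_eq x 0 0
    have e : mk 0 0 = (0 : Ch) := rfl
    rw [e, h0] at h1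
    simp only [sg_zero, add_zero, Int.cast_one, one_mul, one_pow] at h1
    rw [← h1]
    exact one_ne_zero
  obtain ⟨g, hg⟩ := rank_one (SS x) hs hm ht
  refine hS x h0 hev ⟨g, fun m ↦ ?_⟩
  have e : m = mk (m.1, m.2.1) (m.2.2.1, m.2.2.2) := rfl
  rw [e, sq_eq, Qm_mk]
  simp only [hg]

end Pool.Agent.Lib.ECM
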