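import Pool.Agent.Lib.ECM.THBlue2

/-! Genus two theta functions: finitely many charts near a boundary point. -/

open Complex Filter Topology Metric
open scoped Real ComplexConjugate

noncomputable section

namespace Pool.Agent.Lib.ECM

namespace XCHART

/-- logarithms of the toric coordinates -/
def lg (τ : T3) : T3 := ![π * I * τ 1 / 2, π * I * (τ 0 - 2 * τ 1) / 4, π * I * (τ 2 - τ 0) / 4]

/-- the inverse linear map -/
def sol (y : T3) : T3 :=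
  ![(4 * y 0 + 4 * y 1) / (π * I), 2 * y 0 / (π * I), (4 * y 0 + 4 * y 1 + 4 * y 2) / (π * I)]

theorem pi0 : (π : ℂ) ≠ 0 := ofReal_ne_zero.2 Real.pi_ne_zero

theorem xq_lg (τ : T3) (i : Fin 3) : xq τ i = exp (lg τ i) := by
  fin_cases i <;> rfl

theorem lg_sol (y : T3) : lg (sol y) = y := by
  have := pi0
  have := I_ne_zero
  funext i
  fin_cases i <;> simp [lg, sol] <;> field_simp <;> ring

theorem sol_lg (τ : T3) : sol (lg τ) = τ := by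
  have := pi0
  have := I_ne_zero
  funext i
  fin_cases i <;> simp [lg, sol] <;> field_simp <;> ring

theorem sol_lin (a y : T3) (w : ℂ) :
    (fun i ↦ sol a i * w + sol y i) = sol fun i ↦ a i * w + y i := by
  funext i
  fin_cases i <;> simp [sol] <;> ring

theorem sol_zero : sol (fun _ ↦ 0) = 0 := by
  funext i
  fin_cases i <;> simp [sol]

theorem sol_int (a : Fin 3 → ℕ) (i : Fin 3) :
    ∃ k : ℤ, 2 * π * I * sol (fun j ↦ (a j : ℂ)) i = k := by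
  have := pi0
  have := I_ne_zero
  fin_cases i
  · exact ⟨8 * a 0 + 8 * a 1, by simp [sol]; field_simp; ring⟩
  · exact ⟨4 * a 0, by simp [sol]; field_simp; ring⟩
  · exact ⟨8 * a 0 + 8 * a 1 + 8 * a 2, by simp [sol]; field_simp; ring⟩

theorem sol_an {G : Fin 3 → ℂ → ℂ} {u : ℂ} (h : ∀ j, AnalyticAt ℂ (G j) u) (i : Fin 3) :
    AnalyticAt ℂ (fun z ↦ sol (fun j ↦ G j z) i) u := by
  have h0 := h 0
  have h1 := h 1
  have h2 := h 2
  fin_cases i <;> simp only [sol, div_eq_mul_inv] <;> simp <;> fun_prop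

theorem lg_im {τ : T3} (h : τ ∈ Red) (i : Fin 3) : |(lg τ i).im| ≤ π := by
  have h0 := abs_le.1 (h.2.2.2.2 0)
  have h1 := abs_le.1 (h.2.2.2.2 1)
  have h2 := abs_le.1 (h.2.2.2.2 2)
  have p := Real.pi_pos
  rw [abs_le]
  fin_cases i <;> simp [lg] <;> constructor <;> nlinarith

theorem ev_ball {Q : ℂ → Prop} (h : ∀ᶠ u in 𝓝 (0 : ℂ), Q u) :
    ∀ᶠ r in 𝓝[>] (0 : ℝ), ∀ u, ‖u‖ < r → Q u := by
  obtain ⟨ε, hε, k⟩ := Metric.eventually_nhds_iff.1 h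
  filter_upwards [Ioo_mem_nhdsGT hε] with r hr u hu
  exact k (by simpa using hu.trans hr.2)

theorem fin_box (b : Fin 3 → ℝ) : {k : Fin 3 → ℤ | ∀ j, |(k j : ℝ)| ≤ b j}.Finite := by
  refine (Set.Finite.pi' fun j ↦ Set.finite_Icc (-⌈b j⌉) ⌈b j⌉).subset fun k hk j ↦ ?_
  have : |k j| ≤ ⌈b j⌉ := by exact_mod_cast (hk j).trans (Int.le_ceil _)
  exact abs_le.1 this

/-- an analytic germ that does not vanish identically is a power times an exponential -/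
theorem germ {f : ℂ → ℂ} (hf : AnalyticAt ℂ f 0) (h : ∀ᶠ u in 𝓝[≠] (0 : ℂ), f u ≠ 0) :
    ∃ (a : ℕ) (G : ℂ → ℂ), AnalyticAt ℂ G 0 ∧ ∀ᶠ u in 𝓝 (0 : ℂ), f u = u ^ a * exp (G u) := by
  obtain ⟨a, U, hU, h0, e⟩ := hf.exists_eventuallyEq_pow_smul_nonzero_iff.2 fun k ↦ by
    obtain ⟨u, h1, h2⟩ := (h.and (k.filter_mono nhdsWithin_le_nhds)).exists
    exact h1 h2
  refine ⟨a, fun u ↦ log (U 0) + log (U u / U 0), analyticAt_const.add
    ((hU.div analyticAt_const h0).clog (by simp [div_self h0])), ?_⟩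
  filter_upwards [e, hU.continuousAt.eventually_ne h0] with u e1 e2
  rw [e1, exp_add, exp_log h0, exp_log (div_ne_zero e2 h0), mul_div_cancel₀ _ h0, sub_zero,
    smul_eq_mul]

/-- one chart -/
def Good (κ : Ch → ℂ → ℂ) (r : ℝ) (p : T3 × (Fin 3 → ℂ → ℂ)) : Prop :=
  (∀ i, AnalyticOnNhd ℂ (p.2 i) (ball 0 r)) ∧ (∀ i, ∃ k : ℤ, 2 * π * I * p.1 i = k) ∧
  (∀ w, ‖exp w‖ < r → xq (fun i ↦ p.1 i * w + p.2 i (exp w)) ∈ Om ∧
    ∃ c : ℂ, c ≠ 0 ∧ ∀ m, kk m (fun i ↦ p.1 i * w + p.2 i (exp w)) = c * κ m (exp w)) ∧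
  ((∀ m, Ev m → κ m 0 ≠ 0) → p.1 = 0 ∧ (fun i ↦ p.2 i 0) ∈ H2 ∧
    ∃ c : ℂ, c ≠ 0 ∧ ∀ m, kk m (fun i ↦ p.2 i 0) = c * κ m 0)

/-- the charts cover the part of the reduced domain over `V` -/
def Cov (κ : Ch → ℂ → ℂ) (r : ℝ) (V : Set T3) (S : Set (T3 × (Fin 3 → ℂ → ℂ))) : Prop :=
  ∀ u : ℂ, ‖u‖ < r → u ≠ 0 → ∀ τ ∈ Red, xq τ ∈ V → (∃ c : ℂ, ∀ m, kk m τ = c * κ m u) →
    ∃ p ∈ S, ∃ w, exp w = u ∧ |w.im| ≤ π ∧ τ = fun i ↦ p.1 i * w + p.2 i (exp w)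

theorem loc (hXQ : St_XQ) (hLOC : St_LOC) (κ : Ch → ℂ → ℂ) (hκ : ∀ m, AnalyticAt ℂ (κ m) 0)
    (x₀ : T3) (hx : x₀ ∈ Kc) : ∃ (V : Set T3) (S : Set (T3 × (Fin 3 → ℂ → ℂ))), V ∈ 𝓝 x₀ ∧
      S.Finite ∧ ∀ᶠ r in 𝓝[>] (0 : ℝ), (∀ p ∈ S, Good κ r p) ∧ Cov κ r V S := by
  rcases hLOC κ hκ x₀ hx with ⟨V, hV, h⟩ | ⟨X, V, hV, hX, h0, h1, h2, h3, h4⟩
  · refine ⟨V, ∅, hV, Set.finite_empty, ?_⟩
    filter_upwards [ev_ball (eventually_nhdsWithin_iff.1 h)] with r hr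
    exact ⟨fun _ h ↦ h.elim, fun u hu u0 τ hτ hv hc ↦ (hr u hu u0 τ hτ hv hc).elim⟩
  choose a G hG hXG using fun i ↦ germ (f := fun u ↦ X u i) (analyticAt_pi_iff.1 hX i)
    (h1.mono fun u hu ↦ hu i)
  have e1 : ∀ᶠ u in 𝓝 (0 : ℂ), ∀ i, X u i = u ^ a i * exp (G i u) := eventually_all.2 hXG
  have e2 : ∀ᶠ u in 𝓝 (0 : ℂ), ∀ i, AnalyticAt ℂ (G i) u :=
    eventually_all.2 fun i ↦ (hG i).eventually_analyticAt
  have e3 : ∀ᶠ u in 𝓝 (0 : ℂ), ∀ i, ‖G i u‖ ≤ ‖G i 0‖ + 1 := eventually_all.2 fun i ↦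
    (hG i).continuousAt.norm.eventually_le_const (lt_add_one _)
  have e4 : ∀ᶠ u in 𝓝 (0 : ℂ), X u ∈ Om :=
    hX.continuousAt.eventually_mem (hXQ.isOpen.mem_nhds (h0 ▸ hXQ.sub hx))
  refine ⟨V, (fun k : Fin 3 → ℤ ↦ (sol fun j ↦ (a j : ℂ),
    fun i u ↦ sol (fun j ↦ G j u + k j * (2 * π * I)) i)) ''
      {k | ∀ j, |(k j : ℝ)| ≤ 1 + a j + (‖G j 0‖ + 1)}, hV, (fin_box _).image _, ?_⟩
  filter_upwards [ev_ball e1, ev_ball e2, ev_ball e3, ev_ball e4,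
    ev_ball (eventually_nhdsWithin_iff.1 h2), ev_ball (eventually_nhdsWithin_iff.1 h4)]
    with r r1 r2 r3 r4 r5 r6
  constructor
  · rintro _ ⟨k, -, rfl⟩
    refine ⟨fun i u hu ↦ sol_an (G := fun j u ↦ G j u + k j * (2 * π * I))
      (fun j ↦ (r2 u (by simpa using hu) j).add analyticAt_const) i, sol_int a, fun w hw ↦ ?_,
      fun hk ↦ ?_⟩
    · have e : xq (fun i ↦ sol (fun j ↦ (a j : ℂ)) i * w +
          sol (fun j ↦ G j (exp w) + k j * (2 * π * I)) i) = X (exp w) := by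
        funext i
        rw [sol_lin, xq_lg, lg_sol, r1 _ hw, exp_add, exp_add, exp_int_mul_two_pi_mul_I, mul_one,
          exp_nat_mul]
      exact ⟨e ▸ r4 _ hw, r5 _ hw (exp_ne_zero w) _ e⟩
    · obtain ⟨k1, k2⟩ := h3 hk
      have a0 : ∀ i, a i = 0 := fun i ↦ by
        by_contra h
        exact k1 i (by rw [← h0, e1.self_of_nhds i, zero_pow h, zero_mul])
      have e : xq (fun i ↦ sol (fun j ↦ G j 0 + k j * (2 * π * I)) i) = x₀ := by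
        funext i
        rw [xq_lg, lg_sol, ← h0, e1.self_of_nhds i, a0, exp_add, exp_int_mul_two_pi_mul_I, mul_one,
          pow_zero, one_mul]
      refine ⟨?_, hXQ.om _ (e ▸ hXQ.sub hx), k2 _ e⟩
      simpa [a0] using sol_zero
  · intro u hu u0 τ hτ hv hc
    have e := r6 u hu u0 τ hτ hv hc
    have hk : ∀ j, ∃ k : ℤ, lg τ j = a j * log u + G j u + k * (2 * π * I) := fun j ↦
      exp_eq_exp_iff_exists_int.1 (by
        rw [← xq_lg, e, r1 u hu, exp_add, exp_nat_mul, exp_log u0])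
    choose k hk using hk
    have hw : |(log u).im| ≤ π := by rw [log_im]; exact abs_arg_le_pi u
    refine ⟨_, ⟨k, fun j ↦ ?_, rfl⟩, log u, exp_log u0, hw, ?_⟩
    · have b1 := abs_le.1 (lg_im hτ j)
      have b2 := abs_le.1 ((abs_im_le_norm _).trans (r3 u hu j))
      have b3 := abs_le.1 hw
      have b4 : (lg τ j).im = a j * (log u).im + (G j u).im + k j * (2 * π) := by
        rw [hk j]; simp
      have b5 := Real.pi_gt_three
      have b6 : (0 : ℝ) ≤ a j := Nat.cast_nonneg _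
      have b7 := norm_nonneg (G j 0)
      have b8 := mul_le_mul_of_nonneg_left b3.1 b6
      have b9 := mul_le_mul_of_nonneg_left b3.2 b6
      rw [abs_le]
      constructor <;> by_contra! hc <;> nlinarith
    · simp only [exp_log u0]
      rw [sol_lin, ← sol_lg τ]
      congr 1
      funext j
      rw [hk j, add_assoc]

end XCHART

open XCHART in
theorem st_CHART2 (hXQ : St_XQ) (hLOC : St_LOC) : St_CHART2 := by
  intro κ hκ
  choose V S hV hS hr using loc hXQ hLOC κ hκ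
  obtain ⟨t, ht⟩ := hXQ.isCompact.elim_nhds_subcover' V hV
  have hf : (⋃ x ∈ t, S (x : Kc) x.2).Finite := t.finite_toSet.biUnion fun x _ ↦ hS x x.2
  obtain ⟨r, h1, h2⟩ := (((eventually_all_finset t).2 fun x _ ↦ hr x x.2).and
    self_mem_nhdsWithin).exists
  obtain ⟨N, f, -, hN⟩ := hf.fin_param
  have hg : ∀ j, Good κ r (f j) := fun j ↦ by
    have : f j ∈ ⋃ x ∈ t, S (x : Kc) x.2 := hN ▸ Set.mem_range_self j
    obtain ⟨x, hx, hp⟩ := Set.mem_iUnion₂.1 this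
    exact (h1 x hx).1 _ hp
  refine ⟨r, N, fun j ↦ (f j).1, fun j ↦ (f j).2, h2, fun j ↦ (hg j).1, fun j ↦ (hg j).2.1,
    fun j w hw ↦ ((hg j).2.2.1 w hw).1,
    fun j w hw ↦ ⟨hXQ.om _ ((hg j).2.2.1 w hw).1, ((hg j).2.2.1 w hw).2⟩,
    fun hk j ↦ (hg j).2.2.2 hk, fun u u0 hu τ hτ hc ↦ ?_⟩
  obtain ⟨x, hx, hv⟩ := Set.mem_iUnion₂.1 (ht (hXQ.red τ hτ))
  obtain ⟨p, hp, w, hw⟩ := (h1 x hx).2 u hu u0 τ hτ hv hc
  obtain ⟨j, rfl⟩ : p ∈ Set.range f := hN ▸ Set.mem_iUnion₂.2 ⟨x, hx, hp⟩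
  exact ⟨j, w, hw⟩

end Pool.Agent.Lib.ECM
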