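import Pool.Agent.Lib.ECM.THBlue

/-! Genus two theta functions: the two differentiated forms of the Riemann relation. -/

open Complex

noncomputable section

namespace Pool.Agent.Lib.ECM

namespace XDER

theorem pos (hBAS : St_BAS) (m : Ch) {τ : T3} (hτ : τ ∈ H2) (x v : V2) :
    HasDerivAt (fun t : ℂ ↦ th m τ (x + t • v)) (dth m τ v x) 0 := by
  simpa using hBAS.line m τ hτ x v 0

theorem neg (hBAS : St_BAS) (m : Ch) {τ : T3} (hτ : τ ∈ H2) (x v : V2) :
    HasDerivAt (fun t : ℂ ↦ th m τ (x - t • v)) (-dth m τ v x) 0 := by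
  simpa [dth, sub_eq_add_neg] using pos hBAS m hτ x (-v)

theorem org (hBAS : St_BAS) (m : Ch) {τ : T3} (hτ : τ ∈ H2) (v : V2) :
    HasDerivAt (fun t : ℂ ↦ th m τ (t • v)) (ll m τ v) 0 := by
  simpa [ll] using pos hBAS m hτ 0 v

end XDER

open XDER in
theorem st_DER (hBAS : St_BAS) (hRIEM : St_RIEM) : St_DER := by
  obtain ⟨s, hs, h⟩ := hRIEM
  refine ⟨s, hs, fun τ hτ e f g v x ↦ ⟨?_, ?_⟩⟩
  · have a := ((((hasDerivAt_const (0 : ℂ) (th e τ x * th f τ x)).fun_mul
      (org hBAS g hτ v)).fun_mul (org hBAS (e + f + g) hτ v))).const_mul 4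
    have b := HasDerivAt.fun_sum (u := Finset.univ) fun η _ ↦
      ((((pos hBAS η hτ x v).fun_mul (neg hBAS (η + e + f) hτ x v)).mul_const
        (th (η + e + g) τ 0)).mul_const (th (η + f + g) τ 0)).const_mul (s e f g η : ℂ)
    have c := a.unique (b.congr_of_eventuallyEq (Filter.Eventually.of_forall fun t ↦ by
      have k := h τ hτ e f g (x + t • v) (x - t • v) 0 0
      rwa [show (1 / 2 : ℂ) • (x + t • v + (x - t • v) + 0 + 0) = x by module,
        show (1 / 2 : ℂ) • (x + t • v + (x - t • v) - 0 - 0) = x by module,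
        show (1 / 2 : ℂ) • (x + t • v - (x - t • v) + 0 - 0) = t • v by module,
        show (1 / 2 : ℂ) • (x + t • v - (x - t • v) - 0 + 0) = t • v by module] at k))
    simp only [zero_smul, add_zero, sub_zero] at c
    refine Eq.trans ?_ (c.trans (Finset.sum_congr rfl fun η _ ↦ ?_)) <;> simp only [kk] <;> ring
  · have a := ((((pos hBAS e hτ x v).fun_mul (neg hBAS f hτ x v)).mul_const
      (th g τ 0)).mul_const (th (e + f + g) τ 0)).const_mul 4
    have b := HasDerivAt.fun_sum (u := Finset.univ) fun η _ ↦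
      ((((hasDerivAt_const (0 : ℂ) (th η τ x * th (η + e + f) τ x)).fun_mul
        (org hBAS (η + e + g) hτ v)).fun_mul (org hBAS (η + f + g) hτ v))).const_mul
          (s e f g η : ℂ)
    have c := a.unique (b.congr_of_eventuallyEq (Filter.Eventually.of_forall fun t ↦ by
      have k := h τ hτ e f g x x (t • v) (t • v)
      rwa [show (1 / 2 : ℂ) • (x + x + t • v + t • v) = x + t • v by module,
        show (1 / 2 : ℂ) • (x + x - t • v - t • v) = x - t • v by module,
        show (1 / 2 : ℂ) • (x - x + t • v - t • v) = 0 by module,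
        show (1 / 2 : ℂ) • (x - x - t • v + t • v) = 0 by module] at k))
    simp only [zero_smul, add_zero, sub_zero] at c
    refine Eq.trans ?_ (c.trans (Finset.sum_congr rfl fun η _ ↦ ?_)) <;> simp only [kk] <;> ring

end Pool.Agent.Lib.ECM
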