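import Pool.Agent.Lib.ECM.THBlue

/-! Genus two theta functions: lower bounds on the reduced domain. -/

open Complex Filter Topology Metric
open scoped Real ComplexConjugate

noncomputable section

namespace Pool.Agent.Lib.ECM

namespace XEST2

theorem cf_norm (P : ℤ × ℤ) (b : ZMod 2 × ZMod 2) : ‖cfP P b‖ = 1 := by
  rw [cfP, norm_exp]
  simp [dot, iv, cb, -ZMod.natCast_val]

theorem pick {F : ZMod 2 × ZMod 2 → ℂ} (P : ℤ × ℤ) {y : ℝ}
    (h : 4 * y ≤ ‖∑ b : ZMod 2 × ZMod 2, cfP P b * F b‖) : ∃ b, y ≤ ‖F b‖ := by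
  obtain ⟨b, -, hb⟩ := Finset.exists_le_of_sum_le (s := Finset.univ) (f := fun _ ↦ y)
    (g := fun b ↦ ‖F b‖) Finset.univ_nonempty (by
      have := norm_sum_le Finset.univ fun b ↦ cfP P b * F b
      simp only [norm_mul, cf_norm, one_mul] at this
      simp only [Finset.sum_const, Finset.card_univ, Fintype.card_prod, ZMod.card, nsmul_eq_mul]
      push_cast
      linarith)
  exact ⟨b, hb⟩

theorem cls : ∀ a₁ a₂ : ZMod 2, ∃ j : Fin 4, ((Pp j).1 : ZMod 2) = a₁ ∧ ((Pp j).2 : ZMod 2) = a₂ := by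
  decide

theorem term_four (τ : T3) (P n : ℤ × ℤ) (z : V2) :
    term ((4 : ℂ) • τ) (iv n + (1 / 4 : ℂ) • iv P) ((2 : ℂ) • z) =
      term τ ((2 : ℂ) • iv n + (1 / 2 : ℂ) • iv P) z := by
  simp only [term, Qf, dot, Pi.add_apply, Pi.smul_apply, smul_eq_mul]
  congr 1
  ring

theorem fp_eq (τ : T3) (P : ℤ × ℤ) (z : V2) :
    fp P τ z = thg ((4 : ℂ) • τ) ((1 / 4 : ℂ) • iv P) ((2 : ℂ) • z) := by
  simp only [fp, thg, term_four]

theorem four_mem {τ : T3} (h : τ ∈ H2) : (4 : ℂ) • τ ∈ H2 := by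
  obtain ⟨a, b⟩ := h
  constructor
  · simpa using a
  · simp only [Pi.smul_apply, smul_eq_mul, mul_im, re_ofNat, im_ofNat, zero_mul, add_zero]
    nlinarith

theorem ex_nonneg (P : ℤ × ℤ) (i : Fin 3) : 0 ≤ ex P i := by
  fin_cases i <;> simp [ex] <;> nlinarith [sq_nonneg (P.1 + P.2), sq_nonneg P.1, sq_nonneg P.2]

theorem term_mon (hNUM : St_NUM) (hXQ : St_XQ) (τ : T3) (j : Fin 4) (n : ℤ × ℤ) :
    term τ ((2 : ℂ) • iv n + (1 / 2 : ℂ) • iv (Pp j)) 0 =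
      mon (fun i ↦ (ex (Pp j) i).toNat) (xq τ) * mon (exj j n) (xq τ) := by
  have e : (2 : ℂ) • iv n + (1 / 2 : ℂ) • iv (Pp j) = (1 / 2 : ℂ) • iv ((4 : ℤ) • n + Pp j) := by
    funext i
    fin_cases i <;> simp [iv] <;> ring
  have k : ∀ i, (ex ((4 : ℤ) • n + Pp j) i).toNat = (ex (Pp j) i).toNat + exj j n i := fun i ↦ by
    have a := hNUM.nonneg j n i
    have b := ex_nonneg (Pp j) i
    simp only [exj]
    omega
  rw [e, hXQ.term]
  simp only [mon, k, pow_add]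
  ring

theorem grad (hBAS : St_BAS) (hSPLIT : St_SPLIT) (hNUM : St_NUM) (hXQ : St_XQ) {τ : T3}
    (hτ : τ ∈ H2) (j : Fin 4) (v : V2) :
    ∑ b : ZMod 2 × ZMod 2, cfP (Pp j) b * ll (chP (Pp j) b) τ v =
      4 * π * I * mon (fun i ↦ (ex (Pp j) i).toNat) (xq τ) *
        ∑' n : ℤ × ℤ, dot (iv ((4 : ℤ) • n + Pp j)) v * mon (exj j n) (xq τ) := by
  have h1 : HasDerivAt (fun t : ℂ ↦ ∑ b : ZMod 2 × ZMod 2,
      cfP (Pp j) b * th (chP (Pp j) b) τ (0 + t • v))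
      (∑ b : ZMod 2 × ZMod 2, cfP (Pp j) b * ll (chP (Pp j) b) τ v) 0 := by
    refine HasDerivAt.fun_sum fun b _ ↦ HasDerivAt.const_mul _ ?_
    simpa [ll] using hBAS.line (chP (Pp j) b) τ hτ 0 v 0
  have h4 := four_mem hτ
  have h2 : HasDerivAt (fun t : ℂ ↦ thg ((4 : ℂ) • τ) ((1 / 4 : ℂ) • iv (Pp j)) (t • (2 : ℂ) • v))
      (fderiv ℂ (thg ((4 : ℂ) • τ) ((1 / 4 : ℂ) • iv (Pp j))) 0 ((2 : ℂ) • v)) 0 := by
    have a := (hBAS.diff _ h4 ((1 / 4 : ℂ) • iv (Pp j)) ((0 : ℂ) • (2 : ℂ) • v)).hasFDerivAt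
    have b : HasDerivAt (fun t : ℂ ↦ t • (2 : ℂ) • v) ((2 : ℂ) • v) 0 := by
      simpa using (hasDerivAt_id (0 : ℂ)).smul_const ((2 : ℂ) • v)
    have c := a.comp_hasDerivAt 0 b
    rw [zero_smul] at c
    exact c
  have h3 := (h2.const_mul 4).unique (h1.congr_of_eventuallyEq (Eventually.of_forall fun t ↦ by
    simp only [zero_add, ← hSPLIT τ hτ, fp_eq, smul_comm t]))
  rw [← h3, hBAS.fd _ h4, ← tsum_mul_left, ← tsum_mul_left]
  congr 1
  funext n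
  have := term_four τ (Pp j) n 0
  rw [smul_zero] at this
  rw [this, term_mon hNUM hXQ]
  simp [dot, iv]
  ring

theorem tail (hNUM : St_NUM) (hXQ : St_XQ) {x : T3} (hx : x ∈ Kc) (j : Fin 4) (v : V2) :
    ‖dot (iv (Pp j)) v‖ - ‖v‖ / 7 ≤
      ‖∑' n : ℤ × ℤ, dot (iv ((4 : ℤ) • n + Pp j)) v * mon (exj j n) x‖ := by
  set g : ℤ × ℤ → ℂ := fun n ↦ dot (iv ((4 : ℤ) • n + Pp j)) v * mon (exj j n) x -
    if n = 0 then dot (iv (Pp j)) v else 0 with hg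
  have hb : ∀ n, ‖g n‖ ≤ ‖v‖ * ((Ej j n : ℝ) * (103 / 200) ^ Ej j n) := fun n ↦ by
    by_cases hn : n = 0
    · have : g n = 0 := by simp [hg, hn, exj, mon]
      rw [this, norm_zero]
      positivity
    · have a : (|4 * (n.1 : ℝ) + (Pp j).1| + |4 * (n.2 : ℝ) + (Pp j).2|) ≤ Ej j n := by
        exact_mod_cast (hNUM.big j n hn).2.1
      have b : ‖dot (iv ((4 : ℤ) • n + Pp j)) v‖ ≤ ‖v‖ * Ej j n := by
        have e : dot (iv ((4 : ℤ) • n + Pp j)) v = ((4 * (n.1 : ℝ) + (Pp j).1 : ℝ) : ℂ) * v 0 +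
            ((4 * (n.2 : ℝ) + (Pp j).2 : ℝ) : ℂ) * v 1 := by simp [dot, iv]
        rw [e]
        refine (norm_add_le _ _).trans ?_
        rw [norm_mul, norm_mul, norm_real, norm_real, Real.norm_eq_abs, Real.norm_eq_abs]
        have c0 := mul_le_mul_of_nonneg_left (norm_le_pi_norm v 0) (abs_nonneg (4 * (n.1 : ℝ) + (Pp j).1))
        have c1 := mul_le_mul_of_nonneg_left (norm_le_pi_norm v 1) (abs_nonneg (4 * (n.2 : ℝ) + (Pp j).2))
        nlinarith [mul_le_mul_of_nonneg_left a (norm_nonneg v)]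
      simp only [hg, if_neg hn, sub_zero, norm_mul, ← mul_assoc]
      exact mul_le_mul b (hXQ.small x hx j n) (norm_nonneg _) (by positivity)
  have hs := (hNUM.summ j).mul_left ‖v‖
  have s1 : Summable g := Summable.of_norm_bounded hs hb
  have s2 : ‖∑' n, g n‖ ≤ ‖v‖ / 7 := by
    refine (tsum_of_norm_bounded hs.hasSum hb).trans ?_
    rw [tsum_mul_left]
    linarith [mul_le_mul_of_nonneg_left (hNUM.sum_le j) (norm_nonneg v)]
  have s3 := (s1.hasSum.add (hasSum_ite_eq (0 : ℤ × ℤ) (dot (iv (Pp j)) v))).tsum_eq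
  simp only [hg, sub_add_cancel] at s3
  rw [s3]
  linarith [norm_sub_le (∑' n, g n + dot (iv (Pp j)) v) (∑' n, g n),
    congrArg norm (add_sub_cancel_left (∑' n, g n) (dot (iv (Pp j)) v))]

theorem big (v : V2) : ∃ j : Fin 4, ‖v‖ ≤ ‖dot (iv (Pp j)) v‖ := by
  rcases le_total ‖v 0‖ ‖v 1‖ with h | h
  · refine ⟨2, (pi_norm_le_iff_of_nonneg (norm_nonneg _)).2 fun i ↦ ?_⟩
    fin_cases i <;> simp [dot, iv, Pp, h]
  · refine ⟨1, (pi_norm_le_iff_of_nonneg (norm_nonneg _)).2 fun i ↦ ?_⟩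
    fin_cases i <;> simp [dot, iv, Pp, h]

end XEST2

open XEST2 in
theorem st_EST2 (hBAS : St_BAS) (hSPLIT : St_SPLIT) (hNUM : St_NUM) (hXQ : St_XQ) : St_EST2 := by
  refine ⟨2, two_pos, fun τ hτ ↦ ⟨fun m ↦ ?_, fun v ↦ ?_⟩⟩
  · obtain ⟨j, h1, h2⟩ := cls m.1 m.2.1
    have hl : lead m τ = lead (chP (Pp j) 0) τ := by simp only [lead, chP, h1, h2]
    have h0 : 0 ≤ lead m τ := (Real.exp_pos _).le
    have hE : 1 / 2 ≤ ‖EE j (xq τ)‖ := by
      have := norm_sub_norm_le (1 : ℂ) (EE j (xq τ))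
      rw [norm_sub_rev, norm_one] at this
      linarith [hXQ.EE _ (hXQ.red τ hτ) j]
    obtain ⟨b, hb⟩ := pick (F := fun b ↦ th (chP (Pp j) b) τ 0) (Pp j) (y := lead m τ / 2) (by
      rw [← hSPLIT τ (hBAS.red hτ), hXQ.fp, norm_mul, norm_mul, hXQ.lead τ j 0, ← hl, norm_ofNat]
      nlinarith)
    exact ⟨chP (Pp j) b, h1, h2, by rw [kk]; linarith⟩
  · obtain ⟨j, hj⟩ := big v
    have h0 : 0 ≤ lead (chP (Pp j) 0) τ := (Real.exp_pos _).le
    have ht := tail hNUM hXQ (hXQ.red τ hτ) j v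
    obtain ⟨b, hb⟩ := pick (F := fun b ↦ ll (chP (Pp j) b) τ v) (Pp j)
      (y := lead (chP (Pp j) 0) τ * ‖v‖ / 2) (by
      rw [grad hBAS hSPLIT hNUM hXQ (hBAS.red hτ)]
      simp only [norm_mul, hXQ.lead τ j 0, norm_ofNat, norm_I, norm_real, mul_one,
        Real.norm_of_nonneg Real.pi_pos.le]
      have a := mul_le_mul_of_nonneg_left (show ‖v‖ / 2 ≤ _ from le_trans (by
        linarith [norm_nonneg v]) ht) h0
      nlinarith [Real.pi_gt_three, mul_nonneg h0 (norm_nonneg v)])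
    have hl : lead (chP (Pp j) b) τ = lead (chP (Pp j) 0) τ := rfl
    exact ⟨chP (Pp j) b, by rw [hl]; linarith⟩

end Pool.Agent.Lib.ECM
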