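import Pool.Agent.Lib.ECM.THBlue

/-! The gauge of a tangent vector is comparable with its Hodge norm. -/

open Complex Filter Topology Metric
open scoped Real ComplexConjugate

noncomputable section

namespace Pool.Agent.Lib.ECM

namespace XGAUGE

lemma lead_pos (m : Ch) (τ : T3) : 0 < lead m τ := Real.exp_pos _

lemma lead_congr {m m' : Ch} (h1 : m'.1 = m.1) (h2 : m'.2.1 = m.2.1) (τ : T3) :
    lead m' τ = lead m τ := by
  unfold lead; rw [h1, h2]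

lemma z2_cases (a : ZMod 2) : a = 0 ∨ a = 1 := by
  revert a; decide

lemma val_add_le (y0 y1 y2 : ℝ) (h1 : 0 ≤ y1) (h2 : 2 * y1 ≤ y0) (h3 : y0 ≤ y2)
    (a b a' b' : ZMod 2) :
    (((a + a').val : ℝ) * y0 + ((b + b').val : ℝ) * y2 -
        2 * ((a + a').val : ℝ) * ((b + b').val : ℝ) * y1) ≤
      ((a.val : ℝ) * y0 + (b.val : ℝ) * y2 - 2 * (a.val : ℝ) * (b.val : ℝ) * y1) +
        ((a'.val : ℝ) * y0 + (b'.val : ℝ) * y2 - 2 * (a'.val : ℝ) * (b'.val : ℝ) * y1) := by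
  have e0 : ((0 : ZMod 2)).val = 0 := rfl
  have e1 : ((1 : ZMod 2)).val = 1 := rfl
  have e2 : ((1 : ZMod 2) + 1) = 0 := rfl
  rcases z2_cases a with rfl | rfl <;> rcases z2_cases b with rfl | rfl <;>
    rcases z2_cases a' with rfl | rfl <;> rcases z2_cases b' with rfl | rfl <;>
    simp only [add_zero, zero_add, e2, e0, e1, Nat.cast_zero, Nat.cast_one] <;> linarith

lemma lead_mul {τ : T3} (hτ : τ ∈ Red) (m m' : Ch) :
    lead m τ * lead m' τ ≤ lead (m + m') τ := by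
  obtain ⟨h1, h2, h3, -, -⟩ := hτ
  unfold lead
  rw [← Real.exp_add]
  apply Real.exp_le_exp.mpr
  have h := val_add_le _ _ _ h1 h2 h3 m.1 m.2.1 m'.1 m'.2.1
  have e1 : (m + m').1 = m.1 + m'.1 := rfl
  have e2 : (m + m').2.1 = m.2.1 + m'.2.1 := rfl
  rw [e1, e2]
  have hp := Real.pi_pos
  nlinarith [mul_le_mul_of_nonneg_left h hp.le]

lemma ch_add_self (m : Ch) : m + m = 0 := by
  revert m; decide

lemma kk_ge (hEST1 : St_EST1) {τ : T3} (hτ : τ ∈ Red) (m : Ch) (h1 : m.1 = 0)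
    (h2 : m.2.1 = 0) : 2 / 5 ≤ ‖kk m τ‖ := by
  have h := hEST1.one τ hτ m h1 h2
  have h' : ‖(1 : ℂ)‖ ≤ ‖kk m τ‖ + ‖kk m τ - 1‖ := by
    calc ‖(1 : ℂ)‖ = ‖kk m τ - (kk m τ - 1)‖ := by congr 1; ring
      _ ≤ _ := norm_sub_le _ _
  rw [norm_one] at h'
  linarith

/-- two sided bounds for the denominators -/
lemma den_bd (hEST1 : St_EST1) (hEST2 : St_EST2) : ∃ D : ℝ, 0 < D ∧ ∀ τ ∈ Red, ∀ κ : Ch,
    lead κ τ ≤ D * den κ τ ∧ den κ τ ≤ D * lead κ τ := by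
  obtain ⟨C1, hC1, H1⟩ := hEST1.up
  obtain ⟨C2, hC2, H2'⟩ := hEST2
  refine ⟨5 / 2 * C2 + C1 ^ 2, by positivity, fun τ hτ κ ↦ ⟨?_, ?_⟩⟩
  · obtain ⟨m', hm1, hm2, hm⟩ := (H2' τ hτ).1 κ
    have hn1 : (m' + κ).1 = 0 := by
      show m'.1 + κ.1 = 0
      rw [hm1]; rcases z2_cases κ.1 with h | h <;> rw [h] <;> rfl
    have hn2 : (m' + κ).2.1 = 0 := by
      show m'.2.1 + κ.2.1 = 0
      rw [hm2]; rcases z2_cases κ.2.1 with h | h <;> rw [h] <;> rfl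
    have hk := kk_ge hEST1 hτ _ hn1 hn2
    have hle : ‖kk (m' + κ) τ * kk (m' + κ + κ) τ‖ ≤ den κ τ :=
      norm_le_pi_norm (fun n : Ch ↦ kk n τ * kk (n + κ) τ) (m' + κ)
    rw [add_assoc, ch_add_self, add_zero, norm_mul] at hle
    have h0 : 0 ≤ den κ τ := norm_nonneg _
    have h3 : 2 / 5 * ‖kk m' τ‖ ≤ den κ τ :=
      le_trans (mul_le_mul_of_nonneg_right hk (norm_nonneg _)) hle
    have h4 : C2 * ‖kk m' τ‖ ≤ 5 / 2 * C2 * den κ τ := by nlinarith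
    nlinarith [mul_nonneg (sq_nonneg C1) h0]
  · have hl := lead_pos κ τ
    have : den κ τ ≤ C1 ^ 2 * lead κ τ := by
      unfold den
      refine (pi_norm_le_iff_of_nonneg (by positivity)).mpr fun n ↦ ?_
      rw [norm_mul]
      have a1 := (H1 τ hτ n).1
      have a2 := (H1 τ hτ (n + κ)).1
      have a3 := lead_mul hτ n (n + κ)
      rw [← add_assoc, ch_add_self, zero_add] at a3
      have l1 := lead_pos n τ
      have l2 := lead_pos (n + κ) τ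
      calc ‖kk n τ‖ * ‖kk (n + κ) τ‖ ≤ (C1 * lead n τ) * (C1 * lead (n + κ) τ) :=
            mul_le_mul a1 a2 (norm_nonneg _) (by positivity)
        _ = C1 ^ 2 * (lead n τ * lead (n + κ) τ) := by ring
        _ ≤ C1 ^ 2 * lead κ τ := by gcongr
    nlinarith [mul_pos hC2 hl]

lemma den_pos (hEST1 : St_EST1) (hEST2 : St_EST2) {τ : T3} (hτ : τ ∈ Red) (κ : Ch) :
    0 < den κ τ := by
  obtain ⟨D, hD, H⟩ := den_bd hEST1 hEST2
  have h := (H τ hτ κ).1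
  have hl := lead_pos κ τ
  by_contra hc
  have : D * den κ τ ≤ 0 := mul_nonpos_of_nonneg_of_nonpos hD.le (not_lt.mp hc)
  linarith

lemma norm_entry (τ : T3) (v : V2) (g h : Ch) :
    ‖kk g τ * ll h τ v / (den (g + h) τ : ℂ)‖ = ‖kk g τ‖ * ‖ll h τ v‖ / den (g + h) τ := by
  have h0 : 0 ≤ den (g + h) τ := norm_nonneg _
  rw [norm_div, norm_mul, Complex.norm_real, Real.norm_eq_abs, abs_of_nonneg h0]

/-- the gauge is comparable with the norm on the reduced domain -/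
lemma gauge_bd (hEST1 : St_EST1) (hEST2 : St_EST2) : ∃ G : ℝ, 0 < G ∧ ∀ τ ∈ Red, ∀ v : V2,
    ‖v‖ ≤ G * gauge τ v ∧ gauge τ v ≤ G * ‖v‖ := by
  obtain ⟨D, hD, HD⟩ := den_bd hEST1 hEST2
  obtain ⟨C1, hC1, H1⟩ := hEST1.up
  obtain ⟨C2, hC2, H2'⟩ := id hEST2
  refine ⟨5 / 2 * C2 * D + C1 ^ 2 * D, by positivity, fun τ hτ v ↦ ⟨?_, ?_⟩⟩
  · obtain ⟨h, hh⟩ := (H2' τ hτ).2 v
    have hle : ‖kk 0 τ * ll h τ v / (den (0 + h) τ : ℂ)‖ ≤ gauge τ v :=
      norm_le_pi_norm (fun p : Ch × Ch ↦ kk p.1 τ * ll p.2 τ v / (den (p.1 + p.2) τ : ℂ)) (0, h)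
    rw [norm_entry, zero_add] at hle
    have hd := den_pos hEST1 hEST2 hτ h
    have hk := kk_ge hEST1 hτ 0 rfl rfl
    have hg : 0 ≤ gauge τ v := norm_nonneg _
    have hl := lead_pos h τ
    rw [div_le_iff₀ hd] at hle
    have h1 : 2 / 5 * ‖ll h τ v‖ ≤ gauge τ v * (D * lead h τ) :=
      le_trans (mul_le_mul_of_nonneg_right hk (norm_nonneg _))
        (hle.trans (mul_le_mul_of_nonneg_left (HD τ hτ h).2 hg))
    have h2 : lead h τ * ‖v‖ ≤ lead h τ * (5 / 2 * C2 * D * gauge τ v) := by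
      calc lead h τ * ‖v‖ ≤ C2 * ‖ll h τ v‖ := hh
        _ = 5 / 2 * C2 * (2 / 5 * ‖ll h τ v‖) := by ring
        _ ≤ 5 / 2 * C2 * (gauge τ v * (D * lead h τ)) := by gcongr
        _ = _ := by ring
    have h3 := le_of_mul_le_mul_left h2 hl
    have h4 : 0 ≤ C1 ^ 2 * D * gauge τ v := by positivity
    nlinarith
  · have : gauge τ v ≤ C1 ^ 2 * D * ‖v‖ := by
      unfold gauge
      refine (pi_norm_le_iff_of_nonneg (by positivity)).mpr fun p ↦ ?_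
      rw [norm_entry]
      have hd := den_pos hEST1 hEST2 hτ (p.1 + p.2)
      rw [div_le_iff₀ hd]
      have a1 := (H1 τ hτ p.1).1
      have a2 := (H1 τ hτ p.2).2 v
      have a3 := lead_mul hτ p.1 p.2
      have a4 := (HD τ hτ (p.1 + p.2)).1
      have l1 := lead_pos p.1 τ
      have l2 := lead_pos p.2 τ
      calc ‖kk p.1 τ‖ * ‖ll p.2 τ v‖ ≤ (C1 * lead p.1 τ) * (C1 * lead p.2 τ * ‖v‖) :=
            mul_le_mul a1 a2 (norm_nonneg _) (by positivity)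
        _ = C1 ^ 2 * ‖v‖ * (lead p.1 τ * lead p.2 τ) := by ring
        _ ≤ C1 ^ 2 * ‖v‖ * (D * den (p.1 + p.2) τ) :=
            mul_le_mul_of_nonneg_left (a3.trans a4) (by positivity)
        _ = _ := by ring
    have h4 : 0 ≤ 5 / 2 * C2 * D * ‖v‖ := by positivity
    nlinarith

/-- the largest period is controlled by the smallest nonzero theta constant -/
lemma log_bd (hEST1 : St_EST1) (hEST2 : St_EST2) : ∃ E : ℝ, 0 < E ∧ ∀ τ ∈ Red,
    ∃ m, kk m τ ≠ 0 ∧ 0 ≤ Real.log (‖fun n ↦ kk n τ‖ / ‖kk m τ‖) ∧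
      (τ 2).im ≤ E * (1 + Real.log (‖fun n ↦ kk n τ‖ / ‖kk m τ‖)) := by
  obtain ⟨C1, hC1, H1⟩ := hEST1.up
  obtain ⟨C2, hC2, H2'⟩ := id hEST2
  refine ⟨4 / 3 * (1 + |Real.log (5 / 2 * C1)|), by positivity, fun τ hτ ↦ ?_⟩
  obtain ⟨m, hm1, hm2, hm⟩ := (H2' τ hτ).1 ((0, 1, 0, 0) : Ch)
  have hl := lead_pos ((0, 1, 0, 0) : Ch) τ
  have hk : 0 < ‖kk m τ‖ := by
    by_contra hc
    have : C2 * ‖kk m τ‖ ≤ 0 := mul_nonpos_of_nonneg_of_nonpos hC2.le (not_lt.mp hc)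
    linarith
  have hN : ‖kk m τ‖ ≤ ‖fun n ↦ kk n τ‖ := norm_le_pi_norm (fun n ↦ kk n τ) m
  have hN0 : 2 / 5 ≤ ‖fun n ↦ kk n τ‖ :=
    (kk_ge hEST1 hτ 0 rfl rfl).trans (norm_le_pi_norm (fun n ↦ kk n τ) 0)
  have hL : 0 ≤ Real.log (‖fun n ↦ kk n τ‖ / ‖kk m τ‖) :=
    Real.log_nonneg ((one_le_div hk).mpr hN)
  refine ⟨m, norm_pos_iff.mp hk, hL, ?_⟩
  have hup := (H1 τ hτ m).1
  rw [lead_congr hm1 hm2] at hup
  have hlead : lead ((0, 1, 0, 0) : Ch) τ = Real.exp (-(π * (τ 2).im / 4)) := by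
    unfold lead
    have e0 : ((0 : ZMod 2)).val = 0 := rfl
    have e1 : ((1 : ZMod 2)).val = 1 := rfl
    simp only [e0, e1, Nat.cast_zero, Nat.cast_one]
    congr 1; ring
  rw [hlead] at hup
  have hE : Real.exp (π * (τ 2).im / 4) ≤ 5 / 2 * C1 * (‖fun n ↦ kk n τ‖ / ‖kk m τ‖) := by
    rw [← mul_div_assoc, le_div_iff₀ hk]
    have h1 : Real.exp (π * (τ 2).im / 4) * ‖kk m τ‖ ≤ C1 := by
      calc Real.exp (π * (τ 2).im / 4) * ‖kk m τ‖
          ≤ Real.exp (π * (τ 2).im / 4) * (C1 * Real.exp (-(π * (τ 2).im / 4))) := by gcongr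
        _ = C1 * (Real.exp (π * (τ 2).im / 4) * Real.exp (-(π * (τ 2).im / 4))) := by ring
        _ = C1 := by rw [← Real.exp_add, add_neg_cancel, Real.exp_zero, mul_one]
    nlinarith
  have hq : 0 < ‖fun n ↦ kk n τ‖ / ‖kk m τ‖ := div_pos (by linarith) hk
  have hlog := Real.log_le_log (Real.exp_pos _) hE
  rw [Real.log_exp, Real.log_mul (by positivity) hq.ne'] at hlog
  have hy : 0 ≤ (τ 2).im := by
    obtain ⟨-, -, h3, h4, -⟩ := hτ
    linarith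
  have hpi : 3 * (τ 2).im ≤ π * (τ 2).im :=
    mul_le_mul_of_nonneg_right Real.pi_gt_three.le hy
  have ha := le_abs_self (Real.log (5 / 2 * C1))
  have hb := abs_nonneg (Real.log (5 / 2 * C1))
  nlinarith [mul_nonneg hb hL]

end XGAUGE

open XGAUGE in
theorem st_GAUGE (hBAS : St_BAS) (hHERM : St_HERM) (hSYMK : St_SYMK) (hRED : St_RED)
    (hEST1 : St_EST1) (hEST2 : St_EST2) (hLIN : St_LIN) : St_GAUGE := by
  obtain ⟨G, hG, HG⟩ := gauge_bd hEST1 hEST2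
  obtain ⟨E, hE, HE⟩ := log_bd hEST1 hEST2
  obtain ⟨C, hC, HC⟩ := hHERM.red
  have hall : ∀ τ ∈ H2, ∀ v, Hn τ v ≤ C * G ^ 2 * gauge τ v ^ 2 := by
    intro τ hτ v
    obtain ⟨γ, hγ⟩ := hRED τ hτ
    rw [← γ.herm τ hτ v, ← hSYMK.gauge γ τ hτ v]
    have h1 := ((HC _ hγ).1 (γ.M τ v)).1
    have h2 := (HG _ hγ (γ.M τ v)).1
    calc Hn (γ.act τ) (γ.M τ v) ≤ C * ‖γ.M τ v‖ ^ 2 := h1
      _ ≤ C * (G * gauge (γ.act τ) (γ.M τ v)) ^ 2 := by gcongr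
      _ = _ := by ring
  refine ⟨fun τ hτ κ ↦ ?_, ⟨C * G ^ 2, by positivity, hall⟩,
    ⟨G ^ 2 * C + G + E, by positivity, fun τ hτ ↦ ⟨fun v ↦ ?_, ?_⟩⟩, fun τ hτ hgen ↦ ?_⟩
  · obtain ⟨γ, hγ⟩ := hRED τ hτ
    exact (hSYMK.den γ τ hτ κ).mp (den_pos hEST1 hEST2 hγ _)
  · have hy : 0 ≤ (τ 2).im := by
      obtain ⟨-, -, h3, h4, -⟩ := hτ
      linarith
    have hH := hHERM.nonneg τ (hBAS.red hτ) v
    have hg : 0 ≤ gauge τ v := norm_nonneg _
    have h1 := ((HC τ hτ).1 v).2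
    obtain ⟨h2, h3⟩ := HG τ hτ v
    have hGC : 0 ≤ G ^ 2 * C := by positivity
    refine ⟨?_, ?_, ?_⟩
    · calc gauge τ v ^ 2 ≤ (G * ‖v‖) ^ 2 := by gcongr
        _ = G ^ 2 * ‖v‖ ^ 2 := by ring
        _ ≤ G ^ 2 * (C * (τ 2).im * Hn τ v) := by gcongr
        _ = G ^ 2 * C * (τ 2).im * Hn τ v := by ring
        _ ≤ (G ^ 2 * C + G + E) * (τ 2).im * Hn τ v := by gcongr; linarith
    · calc ‖v‖ ≤ G * gauge τ v := h2
        _ ≤ (G ^ 2 * C + G + E) * gauge τ v := by gcongr; linarith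
    · calc gauge τ v ≤ G * ‖v‖ := h3
        _ ≤ (G ^ 2 * C + G + E) * ‖v‖ := by gcongr; linarith
  · obtain ⟨m, hm, hL, hb⟩ := HE τ hτ
    refine ⟨m, hm, hb.trans ?_⟩
    have hGC : 0 ≤ G ^ 2 * C := by positivity
    gcongr
    linarith
  · obtain ⟨P, A, B, hP, hrel⟩ := hLIN
    let L : V2 →ₗ[ℂ] ℂ × ℂ :=
      LinearMap.prod (fderiv ℂ (th hA τ) 0).toLinearMap (fderiv ℂ (th hB τ) 0).toLinearMap
    have hL : (fun v : V2 ↦ (ll hA τ v, ll hB τ v)) = L := rfl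
    rw [hL]
    have hinj : Function.Injective L := by
      rw [← LinearMap.ker_eq_bot, LinearMap.ker_eq_bot']
      intro v hv
      have hv' : (ll hA τ v, ll hB τ v) = (0, 0) := hv
      have hvA : ll hA τ v = 0 := congrArg Prod.fst hv'
      have hvB : ll hB τ v = 0 := congrArg Prod.snd hv'
      have hl : ∀ h, ll h τ v = 0 := by
        intro h
        obtain ⟨-, -, c, m₁, m₂, m₃, hc, e₁, e₂, e₃, hPh⟩ := hP h
        have h1 := hrel τ hτ h v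
        rw [hvA, hvB, mul_zero, mul_zero, add_zero, hPh] at h1
        simp only [map_mul, MvPolynomial.aeval_X, eq_intCast, map_intCast] at h1
        have hc' : (c : ℂ) ≠ 0 := Int.cast_ne_zero.mpr hc
        exact (mul_eq_zero.mp h1).resolve_left
          (mul_ne_zero hc' (mul_ne_zero (mul_ne_zero (hgen _ e₁) (hgen _ e₂)) (hgen _ e₃)))
      have hg : gauge τ v = 0 := by
        unfold gauge
        rw [norm_eq_zero]
        funext p
        simp [hl]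
      by_contra hne
      have h1 := hall τ hτ v
      have h2 := hHERM.pos τ hτ v hne
      rw [hg] at h1
      simp at h1
      linarith
    refine ⟨hinj, (LinearMap.injective_iff_surjective_of_finrank_eq_finrank ?_).mp hinj⟩
    simp

end Pool.Agent.Lib.ECM
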