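import Pool.Agent.Lib.ECM.THBlue

/-! Genus two theta functions: block HOL, joint holomorphy. -/

open Complex
open scoped Real Topology

noncomputable section

namespace Pool.Agent.Lib.ECM

namespace XHOL

/-- a series of exponentials of linear forms -/
theorem abs_ser {E ι : Type} [NormedAddCommGroup E] [NormedSpace ℂ E] (L : ι → E →L[ℂ] ℂ)
    (c : ι → ℂ) (M : ι → ℝ) (hM1 : ∀ n, 1 ≤ M n) (hM : ∀ n, ‖L n‖ ≤ M n) (x0 : E) {δ : ℝ}
    (hδ : 0 < δ)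
    (hs : Summable fun n ↦ ‖c n‖ * M n * (‖exp (L n x0)‖ * Real.exp (M n * δ))) :
    DifferentiableAt ℂ (fun x ↦ ∑' n, c n * exp (L n x)) x0 := by
  have hb : ∀ n, ∀ x ∈ Metric.ball x0 δ,
      ‖exp (L n x)‖ ≤ ‖exp (L n x0)‖ * Real.exp (M n * δ) := by
    intro n x hx
    have e : exp (L n x) = exp (L n x0) * exp (L n (x - x0)) := by
      rw [← exp_add, map_sub]; congr 1; ring
    rw [e, norm_mul]
    refine mul_le_mul_of_nonneg_left ?_ (norm_nonneg _)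
    refine (norm_exp_le_exp_norm _).trans (Real.exp_le_exp.2 ?_)
    refine ((L n).le_opNorm _).trans ?_
    exact mul_le_mul (hM n) (mem_ball_iff_norm.1 hx).le (norm_nonneg _) (by linarith [hM1 n])
  refine (hasFDerivAt_tsum_of_isPreconnected (f := fun n x ↦ c n * exp (L n x))
    (f' := fun n x ↦ c n • (exp (L n x) • L n)) hs Metric.isOpen_ball
    (convex_ball x0 δ).isPreconnected (fun n x _ ↦ ?_) (fun n x hx ↦ ?_)
    (Metric.mem_ball_self hδ) ?_ (Metric.mem_ball_self hδ)).differentiableAt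
  · exact ((L n).hasFDerivAt.cexp).const_mul (c n)
  · rw [norm_smul, norm_smul, mul_assoc]
    refine mul_le_mul_of_nonneg_left ?_ (norm_nonneg _)
    rw [mul_comm (M n)]
    exact mul_le_mul (hb n x hx) (hM n) (norm_nonneg _) (by positivity)
  · refine Summable.of_norm_bounded hs fun n ↦ ?_
    rw [norm_mul, mul_assoc]
    refine mul_le_mul_of_nonneg_left ?_ (norm_nonneg _)
    exact (hb n x0 (Metric.mem_ball_self hδ)).trans
      (le_mul_of_one_le_left (by positivity) (hM1 n))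

/-- the exponent as a linear form -/
def Lp (p : V2) : T3 × V2 →L[ℂ] ℂ :=
  LinearMap.toContinuousLinearMap
    { toFun := fun x ↦ π * I * (Qf x.1 p + 2 * dot p x.2)
      map_add' := fun x y ↦ by simp only [Qf, dot, Prod.fst_add, Prod.snd_add, Pi.add_apply]; ring
      map_smul' := fun t x ↦ by
        simp only [Qf, dot, Prod.smul_fst, Prod.smul_snd, Pi.smul_apply, smul_eq_mul,
          RingHom.id_apply]
        ring }

theorem term_eq (p : V2) (x : T3 × V2) : term x.1 p x.2 = exp (Lp p x) := rfl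

theorem dot_le (p w : V2) : ‖dot p w‖ ≤ 2 * ‖p‖ * ‖w‖ := by
  have h : ∀ i, ‖p i * w i‖ ≤ ‖p‖ * ‖w‖ := fun i ↦ by
    rw [norm_mul]
    exact mul_le_mul (norm_le_pi_norm p i) (norm_le_pi_norm w i) (norm_nonneg _) (norm_nonneg _)
  have := norm_add_le (p 0 * w 0) (p 1 * w 1)
  have h0 := h 0
  have h1 := h 1
  unfold dot
  linarith

theorem Qf_le (τ : T3) (p : V2) : ‖Qf τ p‖ ≤ 4 * ‖p‖ ^ 2 * ‖τ‖ := by
  have h : ∀ k i j, ‖τ k * p i * p j‖ ≤ ‖p‖ ^ 2 * ‖τ‖ := fun k i j ↦ by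
    rw [norm_mul, norm_mul]
    calc _ ≤ ‖τ‖ * ‖p‖ * ‖p‖ :=
          mul_le_mul (mul_le_mul (norm_le_pi_norm τ k) (norm_le_pi_norm p i) (norm_nonneg _)
            (norm_nonneg _)) (norm_le_pi_norm p j) (norm_nonneg _) (by positivity)
      _ = _ := by ring
  have e : Qf τ p = τ 0 * p 0 * p 0 + τ 1 * p 0 * p 1 + (τ 1 * p 0 * p 1 + τ 2 * p 1 * p 1) := by
    unfold Qf; ring
  have a1 := norm_add_le (τ 0 * p 0 * p 0 + τ 1 * p 0 * p 1) (τ 1 * p 0 * p 1 + τ 2 * p 1 * p 1)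
  have a2 := norm_add_le (τ 0 * p 0 * p 0) (τ 1 * p 0 * p 1)
  have a3 := norm_add_le (τ 1 * p 0 * p 1) (τ 2 * p 1 * p 1)
  have h1 := h 0 0 0
  have h2 := h 1 0 1
  have h3 := h 2 1 1
  rw [e]
  linarith

theorem Lp_le (p : V2) {P : ℝ} (h1 : 1 ≤ P) (hP : ‖p‖ ≤ P) : ‖Lp p‖ ≤ 32 * P ^ 2 := by
  refine ContinuousLinearMap.opNorm_le_bound _ (by positivity) fun x ↦ ?_
  change ‖(π : ℂ) * I * (Qf x.1 p + 2 * dot p x.2)‖ ≤ _
  have a := norm_add_le (Qf x.1 p) (2 * dot p x.2)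
  have b : ‖2 * dot p x.2‖ = 2 * ‖dot p x.2‖ := by simp
  have c := Qf_le x.1 p
  have d := dot_le p x.2
  have p0 := norm_nonneg p
  have x0 := norm_nonneg x
  have q : ‖p‖ ^ 2 ≤ P ^ 2 := pow_le_pow_left₀ p0 hP 2
  have q' : ‖p‖ ≤ P ^ 2 := by nlinarith
  have c' : ‖p‖ ^ 2 * ‖x.1‖ ≤ P ^ 2 * ‖x‖ :=
    mul_le_mul q (norm_fst_le x) (norm_nonneg _) (by positivity)
  have d' : ‖p‖ * ‖x.2‖ ≤ P ^ 2 * ‖x‖ :=
    mul_le_mul q' (norm_snd_le x) (norm_nonneg _) (by positivity)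
  have t : ‖Qf x.1 p + 2 * dot p x.2‖ ≤ 8 * (P ^ 2 * ‖x‖) := by linarith
  rw [norm_mul, norm_mul, norm_I, mul_one, norm_real, Real.norm_eq_abs, abs_of_pos Real.pi_pos]
  calc _ ≤ 4 * (8 * (P ^ 2 * ‖x‖)) :=
        mul_le_mul Real.pi_le_four t (norm_nonneg _) (by norm_num)
    _ = _ := by ring

/-- the size of an index -/
def N (n : ℤ × ℤ) : ℝ := |(n.1 : ℝ)| + |(n.2 : ℝ)| + 1

theorem one_le_N (n : ℤ × ℤ) : 1 ≤ N n := by
  have := abs_nonneg (n.1 : ℝ)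
  have := abs_nonneg (n.2 : ℝ)
  unfold N
  linarith

theorem p_le (n : ℤ × ℤ) (a : V2) : ‖iv n + a‖ ≤ (1 + ‖a‖) * N n := by
  have h : ‖iv n‖ ≤ N n := by
    have := abs_nonneg (n.1 : ℝ)
    have := abs_nonneg (n.2 : ℝ)
    refine (pi_norm_le_iff_of_nonneg (by linarith [one_le_N n])).2 fun i ↦ ?_
    fin_cases i <;> simp [iv, N] <;> linarith
  have := norm_add_le (iv n) a
  have := one_le_N n
  nlinarith [norm_nonneg a]

theorem re_sq (k : ℤ) (z : ℂ) : (k : ℝ) ^ 2 / 2 - ‖z‖ ^ 2 ≤ (((k : ℂ) + z) ^ 2).re := by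
  rw [← normSq_eq_norm_sq, normSq_apply, pow_two ((k : ℂ) + z), mul_re]
  simp only [add_re, add_im, intCast_re, intCast_im, zero_add]
  nlinarith [sq_nonneg ((k : ℝ) + 2 * z.re)]

theorem gen (hBAS : St_BAS) (a : V2) (c : ℤ × ℤ → ℂ) (C : ℝ) (hc : ∀ n, ‖c n‖ ≤ C * N n) :
    DifferentiableOn ℂ (fun x : T3 × V2 ↦ ∑' n : ℤ × ℤ, c n * term x.1 (iv n + a) x.2)
      (H2 ×ˢ Set.univ) := by
  rintro x0 ⟨hx, -⟩
  refine DifferentiableAt.differentiableWithinAt ?_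
  have hC : 0 ≤ C := by
    have := (norm_nonneg _).trans (hc 0)
    have := one_le_N 0
    by_contra h
    nlinarith
  obtain ⟨η, hη1, hη⟩ : ∃ η : ℝ, x0.1 + (η : ℂ) • (![-I, 0, -I] : T3) ∈ H2 ∧ 0 < η := by
    have ct : Continuous fun η : ℝ ↦ x0.1 + (η : ℂ) • (![-I, 0, -I] : T3) := by fun_prop
    have ev : ∀ᶠ η : ℝ in 𝓝 0, x0.1 + (η : ℂ) • (![-I, 0, -I] : T3) ∈ H2 :=
      ct.continuousAt.eventually (hBAS.isOpen.mem_nhds (by simpa using hx))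
    exact ((ev.filter_mono nhdsWithin_le_nhds).and (self_mem_nhdsWithin (s := Set.Ioi 0))).exists
  set A : ℝ := 1 + ‖a‖ with hA
  have a0 := norm_nonneg a
  have hA1 : 1 ≤ A := by linarith
  have hP : ∀ n, 1 ≤ A * N n := fun n ↦ one_le_mul_of_one_le_of_one_le hA1 (one_le_N n)
  simp only [term_eq]
  refine abs_ser (fun n ↦ Lp (iv n + a)) c (fun n ↦ 32 * (A * N n) ^ 2)
    (fun n ↦ by nlinarith [hP n]) (fun n ↦ Lp_le _ (hP n) (p_le n a)) x0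
    (δ := η / (64 * A ^ 2)) (by positivity) ?_
  have hs := (hBAS.summ_pow _ hη1 a x0.2 3).mul_left
    (32 * C * A ^ 2 * Real.exp (2 * η + 8 * η * ‖a‖ ^ 2))
  refine Summable.of_nonneg_of_le (fun n ↦ by have := hP n; positivity) (fun n ↦ ?_) hs
  have hN := one_le_N n
  have e1 : term (x0.1 + (η : ℂ) • (![-I, 0, -I] : T3)) (iv n + a) x0.2 =
      exp (Lp (iv n + a) x0) *
        exp ((π * η : ℝ) * (((n.1 : ℂ) + a 0) ^ 2 + ((n.2 : ℂ) + a 1) ^ 2)) := by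
    rw [← term_eq, term, term, ← exp_add]
    congr 1
    simp only [Qf, iv, Pi.add_apply, Pi.smul_apply, smul_eq_mul, Matrix.cons_val_zero,
      Matrix.cons_val_one, Matrix.cons_val_two, Matrix.head_cons, Matrix.tail_cons, ofReal_mul]
    linear_combination (-(π * η * (((n.1 : ℂ) + a 0) ^ 2 + ((n.2 : ℂ) + a 1) ^ 2))) * I_sq
  have e2 : Real.exp (32 * (A * N n) ^ 2 * (η / (64 * A ^ 2))) ≤
      Real.exp (2 * η + 8 * η * ‖a‖ ^ 2) *
        ‖exp ((π * η : ℝ) * (((n.1 : ℂ) + a 0) ^ 2 + ((n.2 : ℂ) + a 1) ^ 2))‖ := by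
    rw [norm_exp, ← Real.exp_add, re_ofReal_mul, add_re]
    refine Real.exp_le_exp.2 ?_
    have f : 32 * (A * N n) ^ 2 * (η / (64 * A ^ 2)) = η * (N n ^ 2 / 2) := by
      field_simp
      ring
    have r0 := re_sq n.1 (a 0)
    have r1 := re_sq n.2 (a 1)
    have s0 : ‖a 0‖ ^ 2 ≤ ‖a‖ ^ 2 := pow_le_pow_left₀ (norm_nonneg _) (norm_le_pi_norm a 0) 2
    have s1 : ‖a 1‖ ^ 2 ≤ ‖a‖ ^ 2 := pow_le_pow_left₀ (norm_nonneg _) (norm_le_pi_norm a 1) 2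
    have n2 : N n ^ 2 ≤ 3 * ((n.1 : ℝ) ^ 2 + (n.2 : ℝ) ^ 2 + 1) := by
      rw [← sq_abs (n.1 : ℝ), ← sq_abs (n.2 : ℝ)]
      unfold N
      nlinarith [sq_nonneg (|(n.1 : ℝ)| - |(n.2 : ℝ)|), sq_nonneg (|(n.1 : ℝ)| - 1),
        sq_nonneg (|(n.2 : ℝ)| - 1)]
    have g : N n ^ 2 / 2 ≤ 2 + 8 * ‖a‖ ^ 2 +
        π * ((((n.1 : ℂ) + a 0) ^ 2).re + (((n.2 : ℂ) + a 1) ^ 2).re) := by
      have u1 : π * (((n.1 : ℝ) ^ 2 + (n.2 : ℝ) ^ 2) / 2 - 2 * ‖a‖ ^ 2) ≤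
          π * ((((n.1 : ℂ) + a 0) ^ 2).re + (((n.2 : ℂ) + a 1) ^ 2).re) :=
        mul_le_mul_of_nonneg_left (by linarith) Real.pi_pos.le
      have u2 : 3 * ((n.1 : ℝ) ^ 2 + (n.2 : ℝ) ^ 2) ≤ π * ((n.1 : ℝ) ^ 2 + (n.2 : ℝ) ^ 2) :=
        mul_le_mul_of_nonneg_right Real.pi_gt_three.le (by positivity)
      have u3 : π * ‖a‖ ^ 2 ≤ 4 * ‖a‖ ^ 2 :=
        mul_le_mul_of_nonneg_right Real.pi_le_four (by positivity)
      linarith
    rw [f]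
    calc _ ≤ η * (2 + 8 * ‖a‖ ^ 2 +
          π * ((((n.1 : ℂ) + a 0) ^ 2).re + (((n.2 : ℂ) + a 1) ^ 2).re)) :=
          mul_le_mul_of_nonneg_left g hη.le
      _ = _ := by ring
  rw [e1, norm_mul]
  calc _ ≤ C * N n * (32 * (A * N n) ^ 2) * (‖exp (Lp (iv n + a) x0)‖ *
        (Real.exp (2 * η + 8 * η * ‖a‖ ^ 2) *
          ‖exp ((π * η : ℝ) * (((n.1 : ℂ) + a 0) ^ 2 + ((n.2 : ℂ) + a 1) ^ 2))‖)) :=
        mul_le_mul (mul_le_mul_of_nonneg_right (hc n) (by positivity))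
          (mul_le_mul_of_nonneg_left e2 (norm_nonneg _)) (by positivity) (by positivity)
    _ = _ := by unfold N; ring

theorem slice {F : T3 × V2 → ℂ} (h : DifferentiableOn ℂ F (H2 ×ˢ Set.univ)) (w : V2) :
    DifferentiableOn ℂ (fun τ ↦ F (τ, w)) H2 :=
  h.comp (f := fun τ : T3 ↦ (τ, w)) (by fun_prop) fun _ hτ ↦ ⟨hτ, Set.mem_univ _⟩

end XHOL

theorem st_HOL (hBAS : St_BAS) : St_HOL := by
  have hj : ∀ a : V2,
      DifferentiableOn ℂ (fun p : T3 × V2 ↦ thg p.1 a p.2) (H2 ×ˢ Set.univ) := fun a ↦ by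
    have h := XHOL.gen hBAS a (fun _ ↦ 1) 1 fun n ↦ by simpa using XHOL.one_le_N n
    simp only [one_mul] at h
    exact h
  refine ⟨hj, fun m ↦ XHOL.slice (hj (ca m)) (0 + cb m), fun m v ↦ ?_⟩
  have h := XHOL.gen hBAS (ca m) (fun n ↦ 2 * π * I * dot (iv n + ca m) v)
    (2 * π * (2 * (1 + ‖ca m‖) * ‖v‖)) fun n ↦ by
      have d := XHOL.dot_le (iv n + ca m) v
      have p := mul_le_mul_of_nonneg_right (XHOL.p_le n (ca m)) (norm_nonneg v)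
      have e : ‖2 * (π : ℂ) * I‖ = 2 * π := by
        simp [abs_of_pos Real.pi_pos]
      rw [norm_mul, e, mul_assoc (2 * π)]
      exact mul_le_mul_of_nonneg_left (by linarith) (by positivity)
  exact (XHOL.slice h (0 + cb m)).congr fun τ hτ ↦ hBAS.dth_eq m τ hτ v 0

end Pool.Agent.Lib.ECM
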