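import Pool.Agent.Lib.ECM.THBlue

/-! Genus two theta functions: the sixteen theta functions separate points modulo twice the lattice. -/

open Complex Filter Topology Metric
open scoped Real ComplexConjugate

noncomputable section

namespace Pool.Agent.Lib.ECM

namespace XINJ

/-- at every point some theta function is nonzero -/
theorem ex_ne (hNORM : St_NORM) {τ : T3} (hτ : τ ∈ H2) (z : V2) : ∃ m, th m τ z ≠ 0 := by
  obtain ⟨c, C, hc, h⟩ := hNORM τ hτ
  by_contra hne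
  push Not at hne
  have h0 : (fun m ↦ th m τ z) = 0 := funext hne
  have h1 := (h z).1
  rw [h0, norm_zero] at h1
  have h2 : 0 < c * Real.exp (π * qI τ z) := mul_pos hc (Real.exp_pos _)
  linarith

/-- every theta function is nonzero somewhere -/
theorem ne_somewhere (hBAS : St_BAS) (hNORM : St_NORM) {τ : T3} (hτ : τ ∈ H2) (m : Ch) :
    ∃ z, th m τ z ≠ 0 := by
  have key : ∀ (a w : V2), thg τ 0 (w + per τ 0 a) =
      exp (-π * I * (Qf τ a + 2 * dot a w)) * thg τ a w := by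
    intro a w
    have h := hBAS.shift_per τ 0 w a
    rwa [zero_add] at h
  obtain ⟨m₀, hm₀⟩ := ex_ne hNORM hτ 0
  have h1 : thg τ 0 ((0 + cb m₀) + per τ 0 (ca m₀)) ≠ 0 := by
    rw [key]
    exact mul_ne_zero (exp_ne_zero _) hm₀
  refine ⟨(0 + cb m₀) + per τ 0 (ca m₀) - per τ 0 (ca m) - cb m, fun h ↦ h1 ?_⟩
  have h2 := key (ca m) ((0 + cb m₀) + per τ 0 (ca m₀) - per τ 0 (ca m))
  rw [sub_add_cancel] at h2
  rw [h2]
  unfold th at h
  rw [sub_add_cancel] at h
  rw [h, mul_zero]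

/-- the product formula -/
theorem prod_eq (hRIEM : St_RIEM) (hGAUGE : St_GAUGE) {τ : T3} (hτ : τ ∈ H2) {x y : V2} {c : ℂ}
    (hc : ∀ m, th m τ x = c * th m τ y) (e f : Ch) (Y : V2) :
    th e τ (x + Y) * th f τ (x - Y) = c ^ 2 * (th e τ (y + Y) * th f τ (y - Y)) := by
  obtain ⟨s, -, hs⟩ := hRIEM
  have hden := hGAUGE.den τ hτ (e + f)
  have hg : ∃ g, kk g τ * kk (g + (e + f)) τ ≠ 0 := by
    by_contra hne
    push Not at hne
    have h0 : (fun n : Ch ↦ kk n τ * kk (n + (e + f)) τ) = 0 := funext hne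
    unfold den at hden
    rw [h0, norm_zero] at hden
    exact lt_irrefl _ hden
  obtain ⟨g, hg⟩ := hg
  have hR : ∀ X : V2, 4 * (th e τ (X + Y) * th f τ (X - Y) * kk g τ * kk (g + (e + f)) τ) =
      ∑ η : Ch, (s e f g η : ℂ) *
        (th η τ X * th (η + e + f) τ X * th (η + e + g) τ Y * th (η + f + g) τ Y) := by
    intro X
    have h := hs τ hτ e f g X X Y Y
    have e1 : (1 / 2 : ℂ) • (X + X + Y + Y) = X + Y := by
      funext i; simp only [Pi.smul_apply, Pi.add_apply, smul_eq_mul]; ring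
    have e2 : (1 / 2 : ℂ) • (X + X - Y - Y) = X - Y := by
      funext i; simp only [Pi.smul_apply, Pi.add_apply, Pi.sub_apply, smul_eq_mul]; ring
    have e3 : (1 / 2 : ℂ) • (X - X + Y - Y) = 0 := by
      funext i
      simp only [Pi.smul_apply, Pi.add_apply, Pi.sub_apply, smul_eq_mul, Pi.zero_apply]; ring
    have e4 : (1 / 2 : ℂ) • (X - X - Y + Y) = 0 := by
      funext i
      simp only [Pi.smul_apply, Pi.add_apply, Pi.sub_apply, smul_eq_mul, Pi.zero_apply]; ring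
    have e5 : e + f + g = g + (e + f) := add_comm _ _
    rw [e1, e2, e3, e4, e5] at h
    exact h
  have hx := hR x
  have hy := hR y
  have hsum : ∑ η : Ch, (s e f g η : ℂ) *
        (th η τ x * th (η + e + f) τ x * th (η + e + g) τ Y * th (η + f + g) τ Y) =
      c ^ 2 * ∑ η : Ch, (s e f g η : ℂ) *
        (th η τ y * th (η + e + f) τ y * th (η + e + g) τ Y * th (η + f + g) τ Y) := by
    rw [Finset.mul_sum]
    refine Finset.sum_congr rfl fun η _ ↦ ?_
    rw [hc η, hc (η + e + f)]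
    ring
  rw [hsum, ← hy] at hx
  apply mul_right_cancel₀ hg
  linear_combination (1 / 4 : ℂ) * hx

/-- the quadratic form after a real translation -/
theorem qI_per {τ : T3} (hτ : τ ∈ H2) (z μ ν : V2) (h : ∀ i, (μ i).im = 0 ∧ (ν i).im = 0) :
    qI τ (z + per τ μ ν) =
      qI τ z + 2 * ((ν 0).re * (z 0).im + (ν 1).re * (z 1).im) + qI τ (per τ μ ν) := by
  have hd : dY τ ≠ 0 := by
    have h2 := hτ.2
    unfold dY
    linarith
  have h0 : (per τ μ ν 0).im = (τ 0).im * (ν 0).re + (τ 1).im * (ν 1).re := by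
    simp [per, (h 0).1, (h 0).2, (h 1).2]
  have h1 : (per τ μ ν 1).im = (τ 1).im * (ν 0).re + (τ 2).im * (ν 1).re := by
    simp [per, (h 1).1, (h 0).2, (h 1).2]
  unfold qI
  simp only [Pi.add_apply, add_im, h0, h1]
  have hd' : dY τ = (τ 0).im * (τ 2).im - (τ 1).im ^ 2 := rfl
  field_simp
  rw [hd']
  ring

theorem int_of_exp {w : ℂ} (h : exp (2 * π * I * w) = 1) : ∃ n : ℤ, w = n := by
  obtain ⟨n, hn⟩ := Complex.exp_eq_one_iff.1 h
  refine ⟨n, ?_⟩
  have h2 : (2 * π * I : ℂ) ≠ 0 := Complex.two_pi_I_ne_zero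
  apply mul_left_cancel₀ h2
  rw [hn]; ring

/-- a translation that multiplies all theta functions by a common factor does so by an exponential -/
theorem factor (hBAS : St_BAS) (hNORM : St_NORM) {τ : T3} (hτ : τ ∈ H2) (μ ν : V2)
    (h : ∀ i, (μ i).im = 0 ∧ (ν i).im = 0)
    (hφ : ∀ z, ∃ φ : ℂ, ∀ e, th e τ (z + per τ μ ν) = φ * th e τ z) :
    ∃ K : ℂ, K ≠ 0 ∧ ∀ e z,
      th e τ (z + per τ μ ν) * exp (2 * π * I * dot ν z) = K * th e τ z := by
  choose φ hφ using hφ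
  have hdiff : Differentiable ℂ φ := by
    intro z₀
    obtain ⟨m, hm⟩ := ex_ne hNORM hτ z₀
    have hd := hBAS.diff_th m τ hτ
    have hev : ∀ᶠ z in 𝓝 z₀, th m τ z ≠ 0 := (hd.continuous.continuousAt).eventually_ne hm
    have h1 : DifferentiableAt ℂ (fun z ↦ th m τ (z + per τ μ ν) * (th m τ z)⁻¹) z₀ := by
      refine DifferentiableAt.mul ?_ ((hd z₀).inv hm)
      exact (hd _).comp z₀ (differentiableAt_id.add_const _)
    refine h1.congr_of_eventuallyEq ?_
    filter_upwards [hev] with z hz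
    rw [hφ z m]
    field_simp
  have hdot : Differentiable ℂ fun z : V2 ↦ exp (2 * π * I * dot ν z) := by
    unfold dot
    fun_prop
  obtain ⟨c, C, hc, hN⟩ := hNORM τ hτ
  have hbd : ∀ z, ‖φ z * exp (2 * π * I * dot ν z)‖ ≤
      C * Real.exp (π * qI τ (per τ μ ν)) / c := by
    intro z
    have hfun : (fun m ↦ th m τ (z + per τ μ ν)) = φ z • fun m ↦ th m τ z := by
      funext m
      rw [hφ z m]
      rfl
    have h1 := (hN (z + per τ μ ν)).2
    rw [hfun, norm_smul, qI_per hτ z μ ν h] at h1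
    have h2 := (hN z).1
    have h3 : ‖exp (2 * π * I * dot ν z)‖ =
        Real.exp (-(π * (2 * ((ν 0).re * (z 0).im + (ν 1).re * (z 1).im)))) := by
      rw [Complex.norm_exp]
      congr 1
      simp [dot, (h 0).2, (h 1).2]
      ring
    have h4 : ‖φ z‖ * (c * Real.exp (π * qI τ z)) ≤ C * Real.exp (π * (qI τ z +
        2 * ((ν 0).re * (z 0).im + (ν 1).re * (z 1).im) + qI τ (per τ μ ν))) :=
      (mul_le_mul_of_nonneg_left h2 (norm_nonneg _)).trans h1
    rw [mul_add, mul_add, Real.exp_add, Real.exp_add] at h4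
    rw [norm_mul, h3, Real.exp_neg, le_div_iff₀ hc]
    have hA := Real.exp_pos (π * qI τ z)
    have hB := Real.exp_pos (π * (2 * ((ν 0).re * (z 0).im + (ν 1).re * (z 1).im)))
    generalize Real.exp (π * qI τ z) = A at h4 hA
    generalize Real.exp (π * (2 * ((ν 0).re * (z 0).im + (ν 1).re * (z 1).im))) = B at h4 hB
    generalize Real.exp (π * qI τ (per τ μ ν)) = D at h4
    have h5 : ‖φ z‖ * c ≤ C * D * B := by
      apply le_of_mul_le_mul_right _ hA
      calc ‖φ z‖ * c * A = ‖φ z‖ * (c * A) := by ring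
        _ ≤ C * (A * B * D) := h4
        _ = C * D * B * A := by ring
    calc ‖φ z‖ * B⁻¹ * c = ‖φ z‖ * c / B := by ring
      _ ≤ C * D := by rw [div_le_iff₀ hB]; exact h5
  have hψ : Differentiable ℂ fun z ↦ φ z * exp (2 * π * I * dot ν z) := hdiff.mul hdot
  have hb : Bornology.IsBounded (Set.range fun z ↦ φ z * exp (2 * π * I * dot ν z)) := by
    rw [isBounded_iff_forall_norm_le]
    refine ⟨C * Real.exp (π * qI τ (per τ μ ν)) / c, ?_⟩
    rintro _ ⟨z, rfl⟩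
    exact hbd z
  refine ⟨φ 0 * exp (2 * π * I * dot ν 0), mul_ne_zero ?_ (exp_ne_zero _), fun e z ↦ ?_⟩
  · intro h0
    obtain ⟨m, hm⟩ := ex_ne hNORM hτ (0 + per τ μ ν)
    apply hm
    rw [hφ 0 m, h0, zero_mul]
  · have h1 := hψ.apply_eq_apply_of_bounded hb z 0
    rw [hφ z e, ← h1]
    ring

/-- commutation with lattice translations -/
theorem comm (hBAS : St_BAS) (hNORM : St_NORM) {τ : T3} (hτ : τ ∈ H2) (μ ν : V2) {K : ℂ}
    (hK : K ≠ 0)
    (hφ : ∀ e z, th e τ (z + per τ μ ν) * exp (2 * π * I * dot ν z) = K * th e τ z)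
    (p q : ℤ × ℤ) : exp (2 * π * I * (dot ν (iv p) - dot (iv q) μ)) = 1 := by
  obtain ⟨e, he⟩ := ex_ne hNORM hτ 0
  have h1 := hφ e (per τ (iv p) (iv q))
  have h2 := hBAS.th_per e τ p q (per τ μ ν)
  have h3 := hBAS.th_per e τ p q 0
  have h4 := hφ e 0
  rw [zero_add] at h3 h4
  rw [add_comm, h2, h3] at h1
  have hz : ∀ v : V2, dot v 0 = 0 := fun v ↦ by simp [dot]
  rw [hz, mul_zero, exp_zero, mul_one] at h4
  rw [h4, hz, mul_zero, add_zero] at h1
  have h5 : exp (-π * I * (Qf τ (iv q) + 2 * dot (iv q) (per τ μ ν))) *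
      exp (2 * π * I * dot ν (per τ (iv p) (iv q))) =
      exp (-π * I * Qf τ (iv q)) * exp (2 * π * I * (dot ν (iv p) - dot (iv q) μ)) := by
    rw [← exp_add, ← exp_add]
    congr 1
    simp [dot, per]
    ring
  have hne : exp (2 * π * I * (dot (ca e) (iv p) - dot (cb e) (iv q))) *
      exp (-π * I * Qf τ (iv q)) * (K * th e τ 0) ≠ 0 :=
    mul_ne_zero (mul_ne_zero (exp_ne_zero _) (exp_ne_zero _)) (mul_ne_zero hK he)
  apply mul_left_cancel₀ hne
  linear_combination h1 - exp (2 * π * I * (dot (ca e) (iv p) - dot (cb e) (iv q))) *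
    (K * th e τ 0) * h5

/-- the signs of all characteristics are trivial -/
theorem signs (hBAS : St_BAS) (hNORM : St_NORM) {τ : T3} (hτ : τ ∈ H2) (p q : ℤ × ℤ) {K : ℂ}
    (hφ : ∀ e z, th e τ (z + per τ (iv p) (iv q)) * exp (2 * π * I * dot (iv q) z) = K * th e τ z)
    (m : Ch) : exp (2 * π * I * (dot (ca m) (iv p) - dot (cb m) (iv q))) = 1 := by
  have key : ∀ e : Ch, exp (2 * π * I * (dot (ca e) (iv p) - dot (cb e) (iv q))) *
      exp (-π * I * Qf τ (iv q)) = K := by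
    intro e
    obtain ⟨z, hz⟩ := ne_somewhere hBAS hNORM hτ e
    have h1 := hφ e z
    rw [hBAS.th_per e τ p q z] at h1
    have h2 : exp (-π * I * (Qf τ (iv q) + 2 * dot (iv q) z)) * exp (2 * π * I * dot (iv q) z) =
        exp (-π * I * Qf τ (iv q)) := by
      rw [← exp_add]
      congr 1
      ring
    apply mul_right_cancel₀ hz
    linear_combination h1 - exp (2 * π * I * (dot (ca e) (iv p) - dot (cb e) (iv q))) *
      th e τ z * h2
  have h0 := key 0
  have h1 : dot (ca 0) (iv p) - dot (cb 0) (iv q) = 0 := by simp [dot, ca, cb]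
  rw [h1, mul_zero, exp_zero, one_mul] at h0
  apply mul_right_cancel₀ (exp_ne_zero (-π * I * Qf τ (iv q)))
  rw [key m, one_mul, h0]

theorem half_int {k : ℤ} {w : ℂ} (h : exp (2 * π * I * w) = 1) (hw : 2 * w = k) :
    ∃ n : ℤ, (k : ℂ) = 2 * n := by
  obtain ⟨n, hn⟩ := int_of_exp h
  exact ⟨n, by rw [← hw, hn]⟩

end XINJ

open XINJ in
theorem st_INJ (hBAS : St_BAS) (hHERM : St_HERM) (hRIEM : St_RIEM) (hGAUGE : St_GAUGE)
    (hNORM : St_NORM) : St_INJ := by
  intro τ hτ x y hxy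
  obtain ⟨m₀, hm₀⟩ := ex_ne hNORM hτ y
  have hc : ∀ m, th m τ x = th m₀ τ x / th m₀ τ y * th m τ y := by
    intro m
    field_simp
    linear_combination hxy m m₀
  obtain ⟨μ, ν, hre, ha⟩ := hHERM.per_surj τ hτ (x - y)
  have hφ : ∀ z, ∃ φ : ℂ, ∀ e, th e τ (z + per τ μ ν) = φ * th e τ z := by
    intro z
    obtain ⟨f, hf⟩ := ex_ne hNORM hτ (x - (z - y))
    refine ⟨(th m₀ τ x / th m₀ τ y) ^ 2 * th f τ (y - (z - y)) / th f τ (x - (z - y)), fun e ↦ ?_⟩
    have h1 := prod_eq hRIEM hGAUGE hτ hc e f (z - y)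
    have e1 : x + (z - y) = z + per τ μ ν := by rw [← ha]; abel
    have e2 : y + (z - y) = z := by abel
    rw [e1, e2] at h1
    rw [div_mul_eq_mul_div, eq_div_iff hf, h1]
    ring
  obtain ⟨K, hK, hφK⟩ := factor hBAS hNORM hτ μ ν hre hφ
  have hcm := comm hBAS hNORM hτ μ ν hK hφK
  obtain ⟨q₁, hq₁⟩ := int_of_exp (hcm (1, 0) (0, 0))
  obtain ⟨q₂, hq₂⟩ := int_of_exp (hcm (0, 1) (0, 0))
  obtain ⟨p₁, hp₁⟩ := int_of_exp (hcm (0, 0) (-1, 0))
  obtain ⟨p₂, hp₂⟩ := int_of_exp (hcm (0, 0) (0, -1))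
  simp [dot, iv] at hq₁ hq₂ hp₁ hp₂
  have hμ : μ = iv (p₁, p₂) := by
    funext i; fin_cases i
    · simpa [iv] using hp₁
    · simpa [iv] using hp₂
  have hν : ν = iv (q₁, q₂) := by
    funext i; fin_cases i
    · simpa [iv] using hq₁
    · simpa [iv] using hq₂
  subst hμ hν
  have hsg := signs hBAS hNORM hτ (p₁, p₂) (q₁, q₂) hφK
  have hv : (1 : ZMod 2).val = 1 := rfl
  obtain ⟨a₁, ha₁⟩ := half_int (k := p₁) (hsg (1, 0, 0, 0)) (by simp [dot, ca, cb, iv, hv])
  obtain ⟨a₂, ha₂⟩ := half_int (k := p₂) (hsg (0, 1, 0, 0)) (by simp [dot, ca, cb, iv, hv])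
  obtain ⟨b₁, hb₁⟩ := half_int (k := -q₁) (hsg (0, 0, 1, 0)) (by simp [dot, ca, cb, iv, hv])
  obtain ⟨b₂, hb₂⟩ := half_int (k := -q₂) (hsg (0, 0, 0, 1)) (by simp [dot, ca, cb, iv, hv])
  refine ⟨per τ (iv (a₁, a₂)) (iv (-b₁, -b₂)), ⟨_, _, rfl⟩, ?_⟩
  rw [ha]
  push_cast at hb₁ hb₂
  have hb₁' : (q₁ : ℂ) = -(2 * b₁) := by linear_combination -hb₁
  have hb₂' : (q₂ : ℂ) = -(2 * b₂) := by linear_combination -hb₂
  funext i
  fin_cases i
  · simp [per, iv, ha₁, hb₁', hb₂']; ring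
  · simp [per, iv, ha₂, hb₁', hb₂']; ring

end Pool.Agent.Lib.ECM
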