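import Pool.Agent.Lib.ECM.THBlue

/-! Genus two theta functions, row JC: conjugation of jets. -/

open Complex Filter Topology

namespace Pool.Agent.Lib.ECM

namespace XJC

/-- the jets of order below `n` match -/
def JN (n : ℕ) (σ : ℂ →+* ℂ) (f g : ℂ → ℂ) : Prop :=
  AnalyticAt ℂ f 0 ∧ AnalyticAt ℂ g 0 ∧ ∀ k < n, iteratedDeriv k g 0 = σ (iteratedDeriv k f 0)

variable {σ : ℂ →+* ℂ} {f g f' g' : ℂ → ℂ} {n : ℕ}

theorem jn (h : JC σ f g) (n : ℕ) : JN n σ f g := ⟨h.1, h.2.1, fun k _ => h.2.2 k⟩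

theorem jc (h : ∀ n, JN n σ f g) : JC σ f g :=
  ⟨(h 0).1, (h 0).2.1, fun k => (h (k + 1)).2.2 k k.lt_succ_self⟩

theorem const (n : ℕ) (σ : ℂ →+* ℂ) (c : ℂ) : JN n σ (fun _ ↦ c) fun _ ↦ σ c :=
  ⟨analyticAt_const, analyticAt_const, fun k _ => by
    rw [iteratedDeriv_const, iteratedDeriv_const, apply_ite σ, map_zero]⟩

theorem add (h : JN n σ f g) (h' : JN n σ f' g') :
    JN n σ (fun t ↦ f t + f' t) fun t ↦ g t + g' t :=
  ⟨h.1.add h'.1, h.2.1.add h'.2.1, fun k hk => by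
    rw [iteratedDeriv_fun_add h.1.contDiffAt h'.1.contDiffAt,
      iteratedDeriv_fun_add h.2.1.contDiffAt h'.2.1.contDiffAt, map_add, h.2.2 k hk, h'.2.2 k hk]⟩

theorem mul (h : JN n σ f g) (h' : JN n σ f' g') :
    JN n σ (fun t ↦ f t * f' t) fun t ↦ g t * g' t :=
  ⟨h.1.mul h'.1, h.2.1.mul h'.2.1, fun k hk => by
    rw [iteratedDeriv_fun_mul h.1.contDiffAt h'.1.contDiffAt,
      iteratedDeriv_fun_mul h.2.1.contDiffAt h'.2.1.contDiffAt, map_sum]
    refine Finset.sum_congr rfl fun i hi => ?_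
    have := Finset.mem_range.1 hi
    rw [map_mul, map_mul, map_natCast, h.2.2 i (by omega), h'.2.2 (k - i) (by omega)]⟩

theorem poly {ι : Type} {f g : ι → ℂ → ℂ} (h : ∀ i, JN n σ (f i) (g i)) (F : MvPolynomial ι ℂ) :
    JN n σ (fun t ↦ MvPolynomial.eval (fun i ↦ f i t) F)
      fun t ↦ MvPolynomial.eval (fun i ↦ g i t) (MvPolynomial.map σ F) := by
  induction F using MvPolynomial.induction_on with
  | C c => simpa using const n σ c
  | add p q hp hq => simpa using add hp hq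
  | mul_X p i hp => simpa using mul hp (h i)

theorem zero_iff (hf : AnalyticAt ℂ f 0) : f =ᶠ[𝓝 0] 0 ↔ ∀ k, iteratedDeriv k f 0 = 0 := by
  refine ⟨fun h k => ?_, fun h => ?_⟩
  · rw [h.iteratedDeriv_eq k]
    exact iteratedDeriv_const.trans (ite_self _)
  · exact analyticOrderAt_eq_top.1 (ENat.eq_top_iff_forall_ge.2 fun k =>
      (natCast_le_analyticOrderAt_iff_iteratedDeriv_eq_zero hf).2 fun i _ => h i)

end XJC

theorem st_JC : St_JC where
  const σ c := XJC.jc fun n => XJC.const n σ c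
  add h h' := XJC.jc fun n => XJC.add (XJC.jn h n) (XJC.jn h' n)
  mul h h' := XJC.jc fun n => XJC.mul (XJC.jn h n) (XJC.jn h' n)
  congr h hf hg := ⟨h.1.congr hf, h.2.1.congr hg, fun n => by
    rw [← hf.iteratedDeriv_eq n, ← hg.iteratedDeriv_eq n, h.2.2 n]⟩
  zero h := by
    rw [XJC.zero_iff h.1, XJC.zero_iff h.2.1]
    exact forall_congr' fun k => by rw [h.2.2 k, map_eq_zero]
  eq {f g} h := by
    have h1 : (f - g) =ᶠ[𝓝 0] 0 := (XJC.zero_iff (h.1.sub h.2.1)).2 fun k => by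
      rw [iteratedDeriv_sub h.1.contDiffAt h.2.1.contDiffAt, h.2.2 k, RingHom.id_apply, sub_self]
    exact h1.mono fun t ht => sub_eq_zero.1 ht
  poly h F := XJC.jc fun n => XJC.poly (fun i => XJC.jn (h i) n) F
  ode {σ ι f g} P hf hg df dg h0 := by
    have key : ∀ n i, XJC.JN n σ (f i) (g i) := by
      intro n
      induction n with
      | zero => exact fun i => ⟨hf i, hg i, fun k hk => absurd hk k.not_lt_zero⟩
      | succ n ih =>
        refine fun i => ⟨hf i, hg i, fun k hk => ?_⟩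
        cases k with
        | zero => simpa using h0 i
        | succ k =>
          rw [iteratedDeriv_succ', iteratedDeriv_succ', EventuallyEq.iteratedDeriv_eq k (df i),
            EventuallyEq.iteratedDeriv_eq k (dg i)]
          exact (XJC.poly ih (P i)).2.2 k (by omega)
    exact fun i => XJC.jc fun n => key n i

end Pool.Agent.Lib.ECM
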