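import Pool.Agent.Lib.ECM.THBlue

/-! The jets of the quotients of theta functions along a line are determined by the constants. -/

open Complex Filter Topology Metric
open scoped Real ComplexConjugate

noncomputable section

namespace Pool.Agent.Lib.ECM.XJET

/-- the coefficient of the differential equation -/
def coef (s : Ch → Ch → Ch → Ch → ℤ) (K L : Ch → ℂ) (e g η : Ch) : ℂ :=
  (s e 0 g η : ℂ) * (L (η + e + g) * K (η + g) + K (η + e + g) * L (η + g)) /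
    (4 * (K g * K (e + g)))

/-- the right hand side of the differential equation -/
def rhs (s : Ch → Ch → Ch → Ch → ℤ) (K L : Ch → ℂ) (e g : Ch) : MvPolynomial Ch ℂ :=
  ∑ η : Ch, MvPolynomial.C (coef s K L e g η) * (MvPolynomial.X η * MvPolynomial.X (η + e))

theorem map_rhs (σ : ℂ →+* ℂ) (s : Ch → Ch → Ch → Ch → ℤ) (K L : Ch → ℂ) (e g : Ch) :
    MvPolynomial.map σ (rhs s K L e g) = rhs s (fun m ↦ σ (K m)) (fun m ↦ σ (L m)) e g := by
  unfold rhs
  rw [map_sum]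
  refine Finset.sum_congr rfl fun η _ ↦ ?_
  rw [map_mul, map_mul, MvPolynomial.map_C, MvPolynomial.map_X, MvPolynomial.map_X]
  congr 2
  unfold coef
  rw [map_div₀, map_mul, map_add, map_mul, map_mul, map_mul, map_mul, map_intCast, map_ofNat]

theorem eval_rhs (s : Ch → Ch → Ch → Ch → ℤ) (K L G : Ch → ℂ) (e g : Ch) :
    MvPolynomial.eval G (rhs s K L e g) = ∑ η : Ch, coef s K L e g η * (G η * G (η + e)) := by
  unfold rhs
  rw [map_sum]
  refine Finset.sum_congr rfl fun η _ ↦ ?_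
  rw [map_mul, map_mul, MvPolynomial.eval_C, MvPolynomial.eval_X, MvPolynomial.eval_X]

theorem an_th (hBAS : St_BAS) (m : Ch) {τ : T3} (hτ : τ ∈ H2) (v : V2) :
    AnalyticAt ℂ (fun t : ℂ ↦ th m τ (t • v)) 0 := by
  have h : Differentiable ℂ (fun t : ℂ ↦ th m τ (t • v)) := fun t ↦ by
    have := (hBAS.line m τ hτ 0 v t).differentiableAt
    simpa only [zero_add] using this
  exact h.analyticAt 0

theorem an_quot (hBAS : St_BAS) (m : Ch) {τ : T3} (hτ : τ ∈ H2) (v : V2) (h0 : kk 0 τ ≠ 0) :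
    AnalyticAt ℂ (fun t : ℂ ↦ th m τ (t • v) / th 0 τ (t • v)) 0 := by
  refine (an_th hBAS m hτ v).div (an_th hBAS 0 hτ v) ?_
  simpa only [zero_smul, kk] using h0

theorem ode (hBAS : St_BAS) (s : Ch → Ch → Ch → Ch → ℤ) {τ : T3} (hτ : τ ∈ H2) (v : V2)
    (e g : Ch) (h0 : kk 0 τ ≠ 0) (hg : kk g τ ≠ 0) (heg : kk (e + g) τ ≠ 0)
    (hD : ∀ x : V2, 4 * ((th 0 τ x * dth e τ v x - th e τ x * dth 0 τ v x) *
      (kk g τ * kk (e + 0 + g) τ)) = ∑ η : Ch, (s e 0 g η : ℂ) * (th η τ x * th (η + e + 0) τ x *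
      (ll (η + e + g) τ v * kk (η + 0 + g) τ + kk (η + e + g) τ * ll (η + 0 + g) τ v))) :
    ∀ᶠ t in 𝓝 (0 : ℂ), deriv (fun t : ℂ ↦ th e τ (t • v) / th 0 τ (t • v)) t =
      MvPolynomial.eval (fun k ↦ th k τ (t • v) / th 0 τ (t • v))
        (rhs s (fun m ↦ kk m τ / kk 0 τ) (fun m ↦ ll m τ v / kk 0 τ) e g) := by
  have hne : ∀ᶠ t in 𝓝 (0 : ℂ), th 0 τ (t • v) ≠ 0 := by
    refine (an_th hBAS 0 hτ v).continuousAt.eventually_ne ?_
    simpa only [zero_smul, kk] using h0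
  filter_upwards [hne] with t ht
  have h1 : HasDerivAt (fun t : ℂ ↦ th e τ (t • v)) (dth e τ v (t • v)) t := by
    simpa only [zero_add] using hBAS.line e τ hτ 0 v t
  have h2 : HasDerivAt (fun t : ℂ ↦ th 0 τ (t • v)) (dth 0 τ v (t • v)) t := by
    simpa only [zero_add] using hBAS.line 0 τ hτ 0 v t
  rw [(h1.fun_div h2 ht).deriv, eval_rhs]
  have hx := hD (t • v)
  simp only [add_zero] at hx
  have h3 : ∑ η : Ch, coef s (fun m ↦ kk m τ / kk 0 τ) (fun m ↦ ll m τ v / kk 0 τ) e g η *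
      (th η τ (t • v) / th 0 τ (t • v) * (th (η + e) τ (t • v) / th 0 τ (t • v))) =
      (∑ η : Ch, (s e 0 g η : ℂ) * (th η τ (t • v) * th (η + e) τ (t • v) *
        (ll (η + e + g) τ v * kk (η + g) τ + kk (η + e + g) τ * ll (η + g) τ v))) /
        (4 * (kk g τ * kk (e + g) τ) * th 0 τ (t • v) ^ 2) := by
    rw [Finset.sum_div]
    refine Finset.sum_congr rfl fun η _ ↦ ?_
    unfold coef
    field_simp
  rw [h3, ← hx]
  field_simp

end Pool.Agent.Lib.ECM.XJET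

namespace Pool.Agent.Lib.ECM

open XJET

theorem st_JET (hBAS : St_BAS) (hDER : St_DER) (hGAUGE : St_GAUGE) (hJC : St_JC) : St_JET := by
  intro σ τ hτ τ' hτ' v v' h0 h0' hK hL
  obtain ⟨s, -, hs⟩ := hDER
  have hg : ∀ e : Ch, ∃ g : Ch, kk g τ ≠ 0 ∧ kk (e + g) τ ≠ 0 := by
    intro e
    have h := hGAUGE.den τ hτ e
    unfold den at h
    rw [norm_pos_iff] at h
    obtain ⟨g, hg⟩ := Function.ne_iff.1 h
    have hg' : kk g τ * kk (g + e) τ ≠ 0 := hg
    rw [add_comm g e] at hg'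
    exact ⟨g, left_ne_zero_of_mul hg', right_ne_zero_of_mul hg'⟩
  choose g hg1 hg2 using hg
  have tr : ∀ m, kk m τ ≠ 0 → kk m τ' ≠ 0 := by
    intro m hm hm'
    have h := hK m
    rw [hm', zero_div] at h
    exact div_ne_zero hm h0 ((map_eq_zero σ).1 h.symm)
  refine hJC.ode (fun e ↦ rhs s (fun m ↦ kk m τ / kk 0 τ) (fun m ↦ ll m τ v / kk 0 τ) e (g e))
    (fun e ↦ an_quot hBAS e hτ v h0) (fun e ↦ an_quot hBAS e hτ' v' h0') (fun e ↦ ?_)
    (fun e ↦ ?_) (fun e ↦ ?_)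
  · exact ode hBAS s hτ v e (g e) h0 (hg1 e) (hg2 e) fun x ↦ (hs τ hτ e 0 (g e) v x).2
  · rw [map_rhs]
    simp only [← hK, ← hL]
    exact ode hBAS s hτ' v' e (g e) h0' (tr _ (hg1 e)) (tr _ (hg2 e))
      fun x ↦ (hs τ' hτ' e 0 (g e) v' x).2
  · simpa only [zero_smul, kk] using hK e

end Pool.Agent.Lib.ECM
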