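import Pool.Agent.Lib.ECM.THBlue

/-! Genus two theta functions: the theta constants in the toric coordinates. -/

open Complex Filter Topology Metric
open scoped Real ComplexConjugate

noncomputable section

namespace Pool.Agent.Lib.ECM

namespace XKAP

/-- twice the summation vector -/
def PP (m : Ch) (n : ℤ × ℤ) : ℤ × ℤ := (2 * n.1 + m.1.val, 2 * n.2 + m.2.1.val)

/-- the coefficients -/
def cc (m : Ch) (n : ℤ × ℤ) : ℂ := exp (2 * π * I * dot (iv n + ca m) (cb m))

theorem PP_inj (m : Ch) : Function.Injective (PP m) := fun n n' h ↦ by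
  simp only [PP, Prod.mk.injEq] at h
  exact Prod.ext (by omega) (by omega)

theorem PP_eq (m : Ch) (n : ℤ × ℤ) : iv n + ca m = (1 / 2 : ℂ) • iv (PP m n) := by
  funext i
  fin_cases i <;> simp [iv, ca, PP] <;> ring

theorem cc_norm (m : Ch) (n : ℤ × ℤ) : ‖cc m n‖ ≤ 1 := by
  have e : 2 * π * I * dot (iv n + ca m) (cb m) =
      ((2 * π * ((n.1 + (m.1.val : ℝ) / 2) * ((m.2.2.1.val : ℝ) / 2) +
        (n.2 + (m.2.1.val : ℝ) / 2) * ((m.2.2.2.val : ℝ) / 2)) : ℝ) : ℂ) * I := by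
    simp only [dot, iv, ca, cb, Pi.add_apply, Matrix.cons_val_zero, Matrix.cons_val_one]
    push_cast
    ring
  rw [cc, e, norm_exp_ofReal_mul_I]

theorem term_eq (τ : T3) (p w : V2) :
    term τ p (0 + w) = exp (2 * π * I * dot p w) * term τ p 0 := by
  rw [term, term, ← exp_add]
  congr 1
  simp only [dot, zero_add, Pi.zero_apply]
  ring

theorem ex_pos {P : ℤ × ℤ} (h : P.2 ≠ 0) (i : Fin 3) : (ex P i).toNat ≠ 0 := by
  have h1 : 0 < P.2 ^ 2 := by positivity
  have h2 : 0 < ex P i := by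
    fin_cases i
    · change 0 < P.1 ^ 2 + P.1 * P.2 + P.2 ^ 2
      nlinarith [sq_nonneg (2 * P.1 + P.2)]
    · change 0 < P.1 ^ 2 + P.2 ^ 2
      positivity
    · exact h1
  omega

end XKAP

open XKAP

theorem st_KAP (hNUM : St_NUM) (hXQ : St_XQ) (hSER : St_SER) : St_KAP := by
  refine ⟨fun m x ↦ ∑' n, cc m n * mon (fun i ↦ (ex (PP m n) i).toNat) x, fun m ↦ ?_,
    fun τ _ m ↦ ?_, fun x _ i hi m hm ↦ ?_⟩
  · exact (hSER (cc m) (fun n i ↦ (ex (PP m n) i).toNat) (cc_norm m) fun R h1 h2 ↦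
      (hNUM.conv R h1 h2).1.comp_injective (PP_inj m)).1
  · refine tsum_congr fun n ↦ ?_
    rw [term_eq, ← hXQ.term, ← PP_eq, cc]
  · have k : ∀ n, cc m n * mon (fun i ↦ (ex (PP m n) i).toNat) x = 0 := fun n ↦ by
      have h : (PP m n).2 ≠ 0 := by
        simp only [PP, hm, ZMod.val_one]
        omega
      have z : ∀ j, x j = 0 → x j ^ (ex (PP m n) j).toNat = 0 := fun j hj ↦ by
        rw [hj, zero_pow (ex_pos h j)]
      have := z i hi
      fin_cases i <;> simp only [Fin.zero_eta, Fin.mk_one, Fin.reduceFinMk] at this <;>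
        simp only [mon, this, mul_zero, zero_mul]
    simp only [k, tsum_zero]

end Pool.Agent.Lib.ECM
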