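import Pool.Agent.Lib.ECM.THBlue

/-! Genus two theta functions: analytic lifts of families of theta constants. -/

open Complex Filter Topology Metric

noncomputable section

namespace Pool.Agent.Lib.ECM

namespace XLIFT

/-- a frequently true statement with a witness in a finite set has one frequent witness -/
theorem freq_fin {α β : Type*} {l : Filter α} {S : Set β} (hS : S.Finite) {p : β → α → Prop}
    (h : ∃ᶠ u in l, ∃ b ∈ S, p b u) : ∃ b ∈ S, ∃ᶠ u in l, p b u := by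
  by_contra hc
  have h1 : ∀ b ∈ S, ∀ᶠ u in l, ¬ p b u := fun b hb ↦
    not_frequently.1 fun hf ↦ hc ⟨b, hb, hf⟩
  have h2 := (eventually_all_finite hS).2 h1
  obtain ⟨u, ⟨b, hb, hp⟩, hu⟩ := (h.and_eventually h2).exists
  exact hu b hb hp

theorem zeta_ne (γ : Sym) (m : Ch) : γ.ζ m ≠ 0 := fun h ↦ by
  have h8 := γ.ζ8 m
  rw [h] at h8
  norm_num at h8

end XLIFT

theorem st_LIFT (hSYMK : St_SYMK) (hRED : St_RED) (hCHART : St_CHART) : St_LIFT := by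
  intro κ hκ h0 hfr
  have h1 : ∃ᶠ u in 𝓝[≠] (0 : ℂ),
      ∃ b ∈ Set.range fun γ : Sym ↦ ((fun m ↦ γ.A m + γ.s), γ.ζ),
        ∃ τ ∈ Red, ∃ c : ℂ, ∀ m, kk (b.1 m) τ = c * (b.2 m * κ m u) := by
    refine hfr.mono ?_
    rintro u ⟨τ, hτ, c, hc⟩
    obtain ⟨γ, hγ⟩ := hRED τ hτ
    obtain ⟨c', -, hc'⟩ := hSYMK.cst γ τ hτ
    refine ⟨_, ⟨γ, rfl⟩, γ.act τ, hγ, c' * c, fun m ↦ ?_⟩
    have h := (hc' m).1
    rw [hc m] at h
    exact h.trans (by ring)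
  obtain ⟨b, ⟨γ, rfl⟩, h2⟩ := XLIFT.freq_fin hSYMK.fin h1
  have hA : ∀ n : Ch, γ.A (γ.A.symm (n - γ.s)) + γ.s = n := fun n ↦ by simp
  have hB : ∀ m : Ch, γ.A.symm (γ.A m + γ.s - γ.s) = m := fun m ↦ by simp
  obtain ⟨r, N, mm, g, hr, hg, hw, hz, hall⟩ := hCHART
    (fun n u ↦ γ.ζ (γ.A.symm (n - γ.s)) * κ (γ.A.symm (n - γ.s)) u)
    (fun n ↦ analyticAt_const.mul (hκ _))
  have hz' := hz fun n hn ↦ mul_ne_zero (XLIFT.zeta_ne γ _)
    (h0 _ ((γ.ev _).1 (by rw [hA]; exact hn)))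
  have hball : ∀ᶠ u in 𝓝[≠] (0 : ℂ), u ≠ 0 ∧ ‖u‖ < r := by
    refine eventually_mem_nhdsWithin.and (nhdsWithin_le_nhds ?_)
    filter_upwards [ball_mem_nhds (0 : ℂ) hr] with u hu
    simpa using hu
  obtain ⟨u₀, ⟨τ₀, hτ₀, c₀, hc₀⟩, hu₀, hu₁⟩ := (h2.and_eventually hball).exists
  obtain ⟨j, -⟩ := hall u₀ hu₀ hu₁ τ₀ hτ₀ ⟨c₀, fun n ↦ by
    have h := hc₀ (γ.A.symm (n - γ.s))
    simp only [hA] at h
    exact h⟩
  obtain ⟨hm, hH0, hk0⟩ := hz' j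
  have hG : ∀ u ∈ ball (0 : ℂ) r, (fun i ↦ g j i u) ∈ H2 ∧ ∃ c : ℂ, c ≠ 0 ∧
      ∀ n, kk n (fun i ↦ g j i u) =
        c * (γ.ζ (γ.A.symm (n - γ.s)) * κ (γ.A.symm (n - γ.s)) u) := by
    intro u hu
    by_cases hu0 : u = 0
    · subst hu0
      exact ⟨hH0, hk0⟩
    · have h := hw j (log u) (by rw [exp_log hu0]; simpa using hu)
      simp only [hm, Pi.zero_apply, zero_mul, zero_add, exp_log hu0] at h
      exact h
  refine ⟨fun u ↦ γ.inv fun i ↦ g j i u, ?_, ?_⟩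
  · have hd : DifferentiableOn ℂ (fun u : ℂ ↦ (fun i ↦ g j i u : T3)) (ball 0 r) :=
      differentiableOn_pi.2 fun i ↦ (hg j i).differentiableOn
    exact (γ.inv_diff.comp hd fun u hu ↦ (hG u hu).1).analyticAt (ball_mem_nhds _ hr)
  · filter_upwards [ball_mem_nhds (0 : ℂ) hr] with u hu
    obtain ⟨hH, c, hc, hk⟩ := hG u hu
    have hI := γ.inv_mem _ hH
    obtain ⟨c', hc', hk'⟩ := hSYMK.cst γ _ hI
    refine ⟨hI, c / c', div_ne_zero hc hc', fun m ↦ ?_⟩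
    have h := (hk' m).1
    rw [γ.act_inv _ hH, hk, hB] at h
    have hζ := XLIFT.zeta_ne γ m
    field_simp
    apply mul_left_cancel₀ hζ
    linear_combination -h

end Pool.Agent.Lib.ECM
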