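import Pool.Agent.Lib.ECM.THBlue

/-! Block LIN: universal linear relations between the gradients of the odd theta functions. -/

open Complex

noncomputable section

namespace Pool.Agent.Lib.ECM

namespace XLIN

/-- derivative at `0` of a theta function along a line through the origin -/
theorem line0 (hBAS : St_BAS) (m : Ch) {τ : T3} (hτ : τ ∈ H2) (v : V2) :
    HasDerivAt (fun t : ℂ ↦ th m τ (t • v)) (ll m τ v) 0 := by
  have h := hBAS.line m τ hτ 0 v 0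
  simpa [ll] using h

theorem ll_two (m : Ch) (τ : T3) (v : V2) : ll m τ ((2 : ℂ) • v) = 2 * ll m τ v := by
  simp only [ll, dth, map_smul, smul_eq_mul]

/-- the Riemann relation at `(2 t v, 0, 0, 0)`, differentiated at `t = 0` -/
theorem key (hBAS : St_BAS) (hRIEM : St_RIEM) : ∃ s, Sg s ∧ ∀ τ ∈ H2, ∀ e f g : Ch, ¬ Ev e →
    ∀ v : V2, 2 * (ll e τ v * kk f τ * kk g τ * kk (e + f + g) τ) =
      ∑ η : Ch, (s e f g η : ℂ) *
        (ll η τ v * kk (η + e + f) τ * kk (η + e + g) τ * kk (η + f + g) τ) := by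
  obtain ⟨s, hs, H⟩ := hRIEM
  refine ⟨s, hs, fun τ hτ e f g he v ↦ ?_⟩
  have hfun : (fun t : ℂ ↦ 4 * (th e τ (t • v) * th f τ (t • v) * th g τ (t • v) *
      th (e + f + g) τ (t • v))) = fun t : ℂ ↦ ∑ η : Ch, (s e f g η : ℂ) *
        (th η τ (t • (2 : ℂ) • v) * kk (η + e + f) τ * kk (η + e + g) τ * kk (η + f + g) τ) := by
    funext t
    have h := H τ hτ e f g (t • (2 : ℂ) • v) 0 0 0
    have h2 : (1 / 2 : ℂ) • t • (2 : ℂ) • v = t • v := by
      rw [smul_smul, smul_smul]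
      congr 1
      ring
    simp only [add_zero, sub_zero, h2] at h
    exact h
  have hL := ((((line0 hBAS e hτ v).mul (line0 hBAS f hτ v)).mul (line0 hBAS g hτ v)).mul
    (line0 hBAS (e + f + g) hτ v)).const_mul (4 : ℂ)
  have hR : HasDerivAt (fun t : ℂ ↦ ∑ η : Ch, (s e f g η : ℂ) *
      (th η τ (t • (2 : ℂ) • v) * kk (η + e + f) τ * kk (η + e + g) τ * kk (η + f + g) τ))
      (∑ η : Ch, (s e f g η : ℂ) *
        (ll η τ ((2 : ℂ) • v) * kk (η + e + f) τ * kk (η + e + g) τ * kk (η + f + g) τ)) 0 :=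
    HasDerivAt.fun_sum fun η _ ↦
      ((((line0 hBAS η hτ _).mul_const _).mul_const _).mul_const _).const_mul _
  rw [← hfun] at hR
  have hu := hL.unique hR
  have h0 : th e τ 0 = 0 := hBAS.kk_odd e τ he
  simp only [Pi.mul_apply, zero_smul, h0, zero_mul, add_zero, ll_two] at hu
  have h3 : ∑ η : Ch, (s e f g η : ℂ) *
      (2 * ll η τ v * kk (η + e + f) τ * kk (η + e + g) τ * kk (η + f + g) τ) =
      2 * ∑ η : Ch, (s e f g η : ℂ) *
        (ll η τ v * kk (η + e + f) τ * kk (η + e + g) τ * kk (η + f + g) τ) := by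
    rw [Finset.mul_sum]
    exact Finset.sum_congr rfl fun η _ ↦ by ring
  rw [h3] at hu
  simp only [kk] at hu ⊢
  linear_combination (1 / 2 : ℂ) * hu

/-- the choice of the two auxiliary even characteristics -/
def Aux (h f g : Ch) : Prop := Ev f ∧ Ev g ∧ Ev (h + f + g) ∧ ∀ η : Ch, Ev η ∨ η = h ∨ η = hA ∨
  η = hB ∨ ¬ Ev (η + h + f) ∨ ¬ Ev (η + h + g) ∨ ¬ Ev (η + f + g)

instance (h f g : Ch) : Decidable (Aux h f g) := by unfold Aux; infer_instance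

theorem cases_odd : ∀ h : Ch, Ev h ∨ h = hA ∨ h = hB ∨ h = (0, 1, 1, 1) ∨ h = (1, 0, 1, 1) ∨
    h = (1, 1, 0, 1) ∨ h = (1, 1, 1, 0) := by decide

theorem aux_ex (h : Ch) (h0 : ¬ Ev h) (h1 : h ≠ hA) (h2 : h ≠ hB) : ∃ f g, Aux h f g := by
  rcases cases_odd h with h' | h' | h' | rfl | rfl | rfl | rfl
  · exact absurd h' h0
  · exact absurd h' h1
  · exact absurd h' h2
  · exact ⟨(0, 0, 0, 1), (0, 0, 1, 0), by decide⟩
  · exact ⟨(0, 0, 0, 1), (0, 0, 1, 0), by decide⟩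
  · exact ⟨(0, 0, 0, 1), (0, 1, 0, 0), by decide⟩
  · exact ⟨(0, 0, 1, 0), (0, 1, 0, 0), by decide⟩

theorem add_add_self : ∀ a b : Ch, a + a + b = b := by decide

/-- a constant times three variables -/
def cub (c : ℤ) (a b d : Ch) : MvPolynomial Ch ℤ :=
  MvPolynomial.C c * (MvPolynomial.X a * MvPolynomial.X b * MvPolynomial.X d)

theorem cub_hom (c : ℤ) (a b d : Ch) : (cub c a b d).IsHomogeneous 3 :=
  (((MvPolynomial.isHomogeneous_X ℤ a).mul (MvPolynomial.isHomogeneous_X ℤ b)).mul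
    (MvPolynomial.isHomogeneous_X ℤ d)).C_mul c

theorem cub_eval (c : ℤ) (a b d : Ch) (k : Ch → ℂ) :
    MvPolynomial.aeval k (cub c a b d) = c * (k a * k b * k d) := by
  simp [cub]

theorem one_case (hBAS : St_BAS) (hRIEM : St_RIEM) (h : Ch) :
    ∃ P A B : MvPolynomial Ch ℤ, (A.IsHomogeneous 3 ∧ B.IsHomogeneous 3 ∧
      ∃ (c : ℤ) (m₁ m₂ m₃ : Ch), c ≠ 0 ∧ Ev m₁ ∧ Ev m₂ ∧ Ev m₃ ∧ P = cub c m₁ m₂ m₃) ∧
    ∀ τ ∈ H2, ∀ v : V2, MvPolynomial.aeval (fun m ↦ kk m τ) P * ll h τ v =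
      MvPolynomial.aeval (fun m ↦ kk m τ) A * ll hA τ v +
        MvPolynomial.aeval (fun m ↦ kk m τ) B * ll hB τ v := by
  have e0 : Ev 0 := by decide
  have z3 : (0 : MvPolynomial Ch ℤ).IsHomogeneous 3 := MvPolynomial.isHomogeneous_zero _ _ _
  by_cases h0 : Ev h
  · refine ⟨cub 1 0 0 0, 0, 0, ⟨z3, z3, 1, 0, 0, 0, one_ne_zero, e0, e0, e0, rfl⟩,
      fun τ hτ v ↦ ?_⟩
    rw [hBAS.ll_even h τ hτ v h0]
    simp
  by_cases h1 : h = hA
  · refine ⟨cub 1 0 0 0, cub 1 0 0 0, 0, ⟨cub_hom _ _ _ _, z3, 1, 0, 0, 0, one_ne_zero, e0, e0,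
      e0, rfl⟩, fun τ _ v ↦ ?_⟩
    rw [h1, map_zero, zero_mul, add_zero]
  by_cases h2 : h = hB
  · refine ⟨cub 1 0 0 0, 0, cub 1 0 0 0, ⟨z3, cub_hom _ _ _ _, 1, 0, 0, 0, one_ne_zero, e0, e0,
      e0, rfl⟩, fun τ _ v ↦ ?_⟩
    rw [h2, map_zero, zero_mul, zero_add]
  obtain ⟨f, g, hf, hg, hfg, hη⟩ := aux_ex h h0 h1 h2
  obtain ⟨s, hs, H⟩ := key hBAS hRIEM
  refine ⟨cub (2 - s h f g h) f g (h + f + g),
    cub (s h f g hA) (hA + h + f) (hA + h + g) (hA + f + g),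
    cub (s h f g hB) (hB + h + f) (hB + h + g) (hB + f + g),
    ⟨cub_hom _ _ _ _, cub_hom _ _ _ _, _, _, _, _, ?_, hf, hg, hfg, rfl⟩, fun τ hτ v ↦ ?_⟩
  · rcases hs h f g h with h' | h' <;> omega
  have hAB : hA ≠ hB := by decide
  have H1 := H τ hτ h f g h0 v
  rw [← Finset.sum_subset (Finset.subset_univ ({h, hA, hB} : Finset Ch)), Finset.sum_insert
    (by simp [h1, h2]), Finset.sum_pair hAB, add_add_self, add_add_self] at H1
  · rw [cub_eval, cub_eval, cub_eval]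
    push_cast
    linear_combination H1
  · intro η _ hn
    simp only [Finset.mem_insert, Finset.mem_singleton, not_or] at hn
    rcases hη η with h' | h' | h' | h' | h' | h' | h'
    · simp [hBAS.ll_even η τ hτ v h']
    · exact absurd h' hn.1
    · exact absurd h' hn.2.1
    · exact absurd h' hn.2.2
    · simp [hBAS.kk_odd _ τ h']
    · simp [hBAS.kk_odd _ τ h']
    · simp [hBAS.kk_odd _ τ h']

end XLIN

theorem st_LIN (hBAS : St_BAS) (hRIEM : St_RIEM) : St_LIN := by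
  choose P A B h1 h2 using XLIN.one_case hBAS hRIEM
  exact ⟨P, A, B, h1, fun τ hτ h v ↦ h2 h τ hτ v⟩

end Pool.Agent.Lib.ECM
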