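import Pool.Agent.Lib.ECM.THBlue

/-! Genus two theta functions: the local step (block LOC). -/

open Complex Filter Topology Metric
open scoped Real ComplexConjugate

noncomputable section

namespace Pool.Agent.Lib.ECM

namespace XLOC

/-- a meromorphic germ with a finite limit along a sequence has a removable singularity -/
theorem remov {h : ℂ → ℂ} (hh : MeromorphicAt h 0) {u : ℕ → ℂ} (hu : Tendsto u atTop (𝓝[≠] 0))
    {y : ℂ} (hy : Tendsto (fun k ↦ h (u k)) atTop (𝓝 y)) :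
    ∃ R : ℂ → ℂ, AnalyticAt ℂ R 0 ∧ R 0 = y ∧ R =ᶠ[𝓝[≠] 0] h := by
  classical
  have ho : 0 ≤ meromorphicOrderAt h 0 := by
    by_contra hneg
    have h1 := (tendsto_cobounded_of_meromorphicOrderAt_neg (not_le.mp hneg)).comp hu
    have h2 : Tendsto (fun k ↦ ‖h (u k)‖) atTop atTop := tendsto_norm_atTop_iff_cobounded.mpr h1
    exact not_tendsto_atTop_of_tendsto_nhds hy.norm h2
  obtain ⟨c, hc⟩ := tendsto_nhds_of_meromorphicOrderAt_nonneg hh ho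
  have hcy : c = y := tendsto_nhds_unique (hc.comp hu) hy
  subst hcy
  refine ⟨Function.update h 0 c, ?_, by simp, Function.update_eventuallyEq_nhdsNE h 0 0 c⟩
  exact (hh.update 0 c).analyticAt (continuousAt_update_same.mpr hc)

theorem anal_comp {F : Type} [NormedAddCommGroup F] [NormedSpace ℂ F] [CompleteSpace F]
    {G : T3 → F} {X : ℂ → T3} (hG : ContDiffAt ℂ 1 G (X 0))
    (hX : AnalyticAt ℂ X 0) : AnalyticAt ℂ (fun u ↦ G (X u)) 0 := by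
  rw [analyticAt_iff_eventually_differentiableAt]
  have h1 : ∀ᶠ y in 𝓝 (X 0), ContDiffAt ℂ 1 G y := hG.eventually (by simp)
  filter_upwards [hX.continuousAt.tendsto.eventually h1, hX.eventually_analyticAt] with u h2 h3
  exact (h2.differentiableAt (by simp)).comp u h3.differentiableAt

/-- an analytic germ that is nonzero along the tail of a sequence is nonzero near the origin -/
theorem ne_zero {f : ℂ → ℂ} (hf : AnalyticAt ℂ f 0) {u : ℕ → ℂ}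
    (hu : Tendsto u atTop (𝓝[≠] 0)) (h : ∀ᶠ k in atTop, f (u k) ≠ 0) :
    ∀ᶠ z in 𝓝[≠] (0 : ℂ), f z ≠ 0 := by
  refine hf.eventually_eq_zero_or_eventually_ne_zero.resolve_left fun h0 ↦ ?_
  have h1 : ∀ᶠ k in atTop, f (u k) = 0 :=
    (hu.mono_right nhdsWithin_le_nhds).eventually h0
  obtain ⟨k, hk, hk'⟩ := (h.and h1).exists
  exact hk hk'

/-- an analytic germ that vanishes along the tail of a sequence vanishes near the origin -/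
theorem eq_zero {f : ℂ → ℂ} (hf : AnalyticAt ℂ f 0) {u : ℕ → ℂ}
    (hu : Tendsto u atTop (𝓝[≠] 0)) (h : ∀ᶠ k in atTop, f (u k) = 0) :
    ∀ᶠ z in 𝓝 (0 : ℂ), f z = 0 :=
  hf.frequently_zero_iff_eventually_zero.mp (hu.frequently h.frequently)

/-- the four combinations of the given germs -/
def FF (κ : Ch → ℂ → ℂ) (j : Fin 4) (u : ℂ) : ℂ :=
  (∑ b : ZMod 2 × ZMod 2, cfP (Pp j) b * κ (chP (Pp j) b) u) / 4

theorem FF_anal {κ : Ch → ℂ → ℂ} (hκ : ∀ m, AnalyticAt ℂ (κ m) 0) (j : Fin 4) :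
    AnalyticAt ℂ (FF κ j) 0 := by
  have h : AnalyticAt ℂ (fun u ↦ ∑ b : ZMod 2 × ZMod 2, cfP (Pp j) b * κ (chP (Pp j) b) u) 0 :=
    Finset.analyticAt_fun_sum _ fun b _ ↦ analyticAt_const.mul (hκ _)
  exact h.div_const

theorem fp_eq (hSPLIT : St_SPLIT) {κ : Ch → ℂ → ℂ} {τ : T3} (hτ : τ ∈ H2) {c u : ℂ}
    (hc : ∀ m, kk m τ = c * κ m u) (j : Fin 4) : fp (Pp j) τ 0 = c * FF κ j u := by
  have h := hSPLIT τ hτ (Pp j) 0
  have h2 : ∑ b : ZMod 2 × ZMod 2, cfP (Pp j) b * th (chP (Pp j) b) τ 0 =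
      c * ∑ b : ZMod 2 × ZMod 2, cfP (Pp j) b * κ (chP (Pp j) b) u := by
    rw [Finset.mul_sum]
    refine Finset.sum_congr rfl fun b _ ↦ ?_
    have h3 : th (chP (Pp j) b) τ 0 = c * κ (chP (Pp j) b) u := hc _
    rw [h3]
    ring
  rw [h2] at h
  unfold FF
  linear_combination h / 4

/-- the quotients -/
def rho (κ : Ch → ℂ → ℂ) : Fin 3 → ℂ → ℂ :=
  ![fun u ↦ FF κ 1 u * FF κ 2 u / (FF κ 3 u * FF κ 0 u), fun u ↦ FF κ 3 u / FF κ 2 u,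
    fun u ↦ FF κ 2 u / FF κ 1 u]

theorem rho_mero {κ : Ch → ℂ → ℂ} (hκ : ∀ m, AnalyticAt ℂ (κ m) 0) (i : Fin 3) :
    MeromorphicAt (rho κ i) 0 := by
  have h := fun j ↦ (FF_anal hκ j).meromorphicAt
  fin_cases i
  · exact ((h 1).mul (h 2)).div ((h 3).mul (h 0))
  · exact (h 3).div (h 2)
  · exact (h 2).div (h 1)

theorem phi_eq (hSPLIT : St_SPLIT) {κ : Ch → ℂ → ℂ} {τ : T3} (hτ : τ ∈ H2) {c u : ℂ}
    (hc : ∀ m, kk m τ = c * κ m u) (hne : ∀ j, fp (Pp j) τ 0 ≠ 0) :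
    (![fp (Pp 1) τ 0 * fp (Pp 2) τ 0 / (fp (Pp 3) τ 0 * fp (Pp 0) τ 0),
      fp (Pp 3) τ 0 / fp (Pp 2) τ 0, fp (Pp 2) τ 0 / fp (Pp 1) τ 0] : T3) =
      fun i ↦ rho κ i u := by
  have h := fp_eq hSPLIT hτ hc
  have hc0 : c ≠ 0 := by
    intro h0
    apply hne 0
    rw [h 0, h0, zero_mul]
  funext i
  fin_cases i
  · change fp (Pp 1) τ 0 * fp (Pp 2) τ 0 / (fp (Pp 3) τ 0 * fp (Pp 0) τ 0) =
      FF κ 1 u * FF κ 2 u / (FF κ 3 u * FF κ 0 u)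
    rw [h 0, h 1, h 2, h 3]
    have e1 : c * FF κ 1 u * (c * FF κ 2 u) = (c * c) * (FF κ 1 u * FF κ 2 u) := by ring
    have e2 : c * FF κ 3 u * (c * FF κ 0 u) = (c * c) * (FF κ 3 u * FF κ 0 u) := by ring
    rw [e1, e2, mul_div_mul_left _ _ (mul_ne_zero hc0 hc0)]
  · change fp (Pp 3) τ 0 / fp (Pp 2) τ 0 = FF κ 3 u / FF κ 2 u
    rw [h 2, h 3, mul_div_mul_left _ _ hc0]
  · change fp (Pp 2) τ 0 / fp (Pp 1) τ 0 = FF κ 2 u / FF κ 1 u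
    rw [h 1, h 2, mul_div_mul_left _ _ hc0]

theorem xq_ne (τ : T3) (i : Fin 3) : xq τ i ≠ 0 := by
  fin_cases i <;> exact exp_ne_zero _

end XLOC

open XLOC in
theorem st_LOC (hBAS : St_BAS) (hSPLIT : St_SPLIT) (hXQ : St_XQ) (hEST1 : St_EST1)
    (hKAP : St_KAP) (hPHI : St_PHI) : St_LOC := by
  intro κ hκ x₀ hx₀
  refine or_iff_not_imp_left.mpr fun hno ↦ ?_
  obtain ⟨K, hK, hKk, hK0⟩ := hKAP
  obtain ⟨Φ, hΦ, hΦr⟩ := hPHI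
  obtain ⟨hΦc, L, hL⟩ := hΦ x₀ hx₀
  -- sequences
  have hfr : ∃ᶠ p in (𝓝[≠] (0 : ℂ)) ×ˢ 𝓝 x₀,
      ∃ τ ∈ Red, xq τ = p.2 ∧ ∃ c : ℂ, ∀ m, kk m τ = c * κ m p.1 := by
    intro hev
    obtain ⟨pa, hpa, pb, hpb, hab⟩ := eventually_prod_iff.mp hev
    refine hno ⟨{x | pb x}, hpb, ?_⟩
    filter_upwards [hpa] with u hu τ hτ hV hc
    exact hab hu hV ⟨τ, hτ, rfl, hc⟩
  obtain ⟨p, hp, hpp⟩ := exists_seq_forall_of_frequently hfr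
  choose τ hτ hτx c hc using hpp
  have hu : Tendsto (fun k ↦ (p k).1) atTop (𝓝[≠] 0) := tendsto_fst.comp hp
  have hx : Tendsto (fun k ↦ xq (τ k)) atTop (𝓝 x₀) := by
    have h : Tendsto (fun k ↦ (p k).2) atTop (𝓝 x₀) := tendsto_snd.comp hp
    exact h.congr fun k ↦ (hτx k).symm
  -- the chart on lifts
  have hρ : ∀ σ ∈ Red, ∀ d u : ℂ, (∀ m, kk m σ = d * κ m u) → Φ (xq σ) = fun i ↦ rho κ i u :=
    fun σ hσ d u hd ↦ (hΦr σ hσ).2.trans (phi_eq hSPLIT (hBAS.red hσ) hd (hΦr σ hσ).1)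
  have hlim : ∀ i, Tendsto (fun k ↦ rho κ i (p k).1) atTop (𝓝 (Φ x₀ i)) := by
    intro i
    have h1 : Tendsto (fun k ↦ Φ (xq (τ k))) atTop (𝓝 (Φ x₀)) := hΦc.continuousAt.tendsto.comp hx
    refine (tendsto_pi_nhds.mp h1 i).congr fun k ↦ ?_
    rw [hρ (τ k) (hτ k) (c k) _ (hc k)]
  choose R hRa hR0 hRe using fun i ↦ remov (rho_mero hκ i) hu (hlim i)
  have hRA : AnalyticAt ℂ (fun u i ↦ R i u) 0 := analyticAt_pi_iff.mpr hRa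
  have hR0' : (fun i ↦ R i 0) = Φ x₀ := funext hR0
  have hRE : ∀ᶠ u in 𝓝[≠] (0 : ℂ), ∀ i, R i u = rho κ i u := eventually_all.mpr hRe
  -- the local inverse
  have h1 : (1 : WithTop ℕ∞) ≠ 0 := one_ne_zero
  obtain ⟨Ψ, hΨc, hΨ0, hΨl⟩ : ∃ Ψ : T3 → T3, ContDiffAt ℂ 1 Ψ (Φ x₀) ∧ Ψ (Φ x₀) = x₀ ∧
      ∀ᶠ x in 𝓝 x₀, Ψ (Φ x) = x :=
    ⟨hΦc.localInverse hL h1, hΦc.to_localInverse hL h1, hΦc.localInverse_apply_image hL h1,
      (hΦc.hasStrictFDerivAt' hL h1).eventually_left_inverse⟩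
  obtain ⟨X, hXa, hX0, hXl⟩ : ∃ X : ℂ → T3, AnalyticAt ℂ X 0 ∧ X 0 = x₀ ∧
      ∀ᶠ u in 𝓝[≠] (0 : ℂ), ∀ σ ∈ Red, Ψ (Φ (xq σ)) = xq σ →
        (∃ d : ℂ, ∀ m, kk m σ = d * κ m u) → xq σ = X u := by
    refine ⟨fun u ↦ Ψ fun i ↦ R i u, anal_comp (X := fun u i ↦ R i u) (hR0' ▸ hΨc) hRA, ?_, ?_⟩
    · change Ψ (fun i ↦ R i 0) = x₀
      rw [hR0', hΨ0]
    · filter_upwards [hRE] with u hu' σ hσ hV ⟨d, hd⟩
      have e : (fun i ↦ R i u) = fun i ↦ rho κ i u := funext hu'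
      rw [e, ← hρ σ hσ d u hd, hV]
  have hXk : ∀ᶠ k in atTop, xq (τ k) = X (p k).1 := by
    filter_upwards [hu.eventually hXl, hx.eventually hΨl] with k h2 h3
    exact h2 (τ k) (hτ k) h3 ⟨c k, hc k⟩
  have hOm : Om ∈ 𝓝 x₀ := hXQ.isOpen.mem_nhds (hXQ.sub hx₀)
  have hKc : ∀ m, ContDiffAt ℂ 1 (K m) x₀ := fun m ↦ (hK m).contDiffAt hOm
  have hKX : ∀ m, AnalyticAt ℂ (fun u ↦ K m (X u)) 0 :=
    fun m ↦ anal_comp (hX0 ▸ hKc m) hXa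
  have hKτ : ∀ k m, kk m (τ k) = K m (xq (τ k)) :=
    fun k m ↦ hKk (τ k) (hXQ.sub (hXQ.red _ (hτ k))) m
  have hone : ∀ k, ‖kk 0 (τ k) - 1‖ ≤ 3 / 5 := fun k ↦ hEST1.one (τ k) (hτ k) 0 rfl rfl
  have hne_of : ∀ z : ℂ, ‖z - 1‖ ≤ 3 / 5 → z ≠ 0 := by
    intro z hz h0
    rw [h0] at hz
    norm_num at hz
  have hK00 : K 0 x₀ ≠ 0 := by
    apply hne_of
    have h2 : Tendsto (fun k ↦ ‖K 0 (xq (τ k)) - 1‖) atTop (𝓝 ‖K 0 x₀ - 1‖) :=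
      (((hKc 0).continuousAt.tendsto.comp hx).sub_const 1).norm
    exact le_of_tendsto' h2 fun k ↦ hKτ k 0 ▸ hone k
  have hκ0 : ∀ᶠ u in 𝓝[≠] (0 : ℂ), κ 0 u ≠ 0 := by
    refine ne_zero (hκ 0) hu (Eventually.of_forall fun k h0 ↦ hne_of _ (hone k) ?_)
    rw [hc k 0, h0, mul_zero]
  have hmin : ∀ᶠ u in 𝓝 (0 : ℂ), ∀ m, K m (X u) * κ 0 u - K 0 (X u) * κ m u = 0 := by
    refine eventually_all.mpr fun m ↦ ?_
    refine eq_zero (f := fun u ↦ K m (X u) * κ 0 u - K 0 (X u) * κ m u)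
      (((hKX m).mul (hκ 0)).sub ((hKX 0).mul (hκ m))) hu ?_
    filter_upwards [hXk] with k hk
    rw [← hk, ← hKτ k m, ← hKτ k 0, hc k m, hc k 0]
    ring
  have hXt : Tendsto X (𝓝 0) (𝓝 x₀) := hX0 ▸ hXa.continuousAt.tendsto
  have hKne : ∀ᶠ u in 𝓝 (0 : ℂ), K 0 (X u) ≠ 0 :=
    ((hKc 0).continuousAt.tendsto.comp hXt).eventually_ne hK00
  have hXOm : ∀ᶠ u in 𝓝 (0 : ℂ), X u ∈ Om := hXt.eventually hOm
  have hgood : ∀ᶠ u in 𝓝 (0 : ℂ), κ 0 u ≠ 0 → ∀ σ : T3, xq σ = X u →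
      ∃ d : ℂ, d ≠ 0 ∧ ∀ m, kk m σ = d * κ m u := by
    filter_upwards [hmin, hKne, hXOm] with u h2 h3 h4 h5 σ hσ
    refine ⟨K 0 (X u) / κ 0 u, div_ne_zero h3 h5, fun m ↦ ?_⟩
    rw [hKk σ (hσ ▸ h4) m, hσ]
    have h6 := h2 m
    field_simp
    linear_combination h6
  refine ⟨X, {x | Ψ (Φ x) = x}, hΨl, hXa, hX0, ?_, ?_, ?_, hXl⟩
  · refine eventually_all.mpr fun i ↦ ?_
    refine ne_zero (f := fun u ↦ X u i) (analyticAt_pi_iff.mp hXa i) hu ?_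
    filter_upwards [hXk] with k hk
    rw [← hk]
    exact xq_ne _ _
  · filter_upwards [hκ0, hgood.filter_mono nhdsWithin_le_nhds] with u h2 h3
    exact h3 h2
  · intro hev
    have h00 : κ 0 0 ≠ 0 := hev 0 (by decide)
    refine ⟨fun i hi ↦ ?_, fun σ hσ ↦ hgood.self_of_nhds h00 σ (hσ.trans hX0.symm)⟩
    have h2 := hmin.self_of_nhds (0, 1, 0, 0)
    rw [hX0, hK0 x₀ (hXQ.sub hx₀) i hi (0, 1, 0, 0) rfl, zero_mul, zero_sub, neg_eq_zero] at h2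
    exact mul_ne_zero hK00 (hev _ (by decide)) h2

end Pool.Agent.Lib.ECM
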