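import Pool.Agent.Lib.ECM.THBlue

/-! Genus two theta functions: two-sided growth of the theta vector. -/

open Complex
open scoped Real

noncomputable section

namespace Pool.Agent.Lib.ECM

namespace XNORM

/-- the normalised size of the theta vector -/
def Xi (τ : T3) (z : V2) : ℝ := ‖fun m ↦ ‖th m τ z‖ * Real.exp (-(π * qI τ z))‖

theorem Xi_eq (τ : T3) (z : V2) :
    ‖fun m ↦ th m τ z‖ = Xi τ z * Real.exp (π * qI τ z) := by
  have e : (fun m ↦ ‖th m τ z‖ * Real.exp (-(π * qI τ z))) =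
      Real.exp (-(π * qI τ z)) • fun m ↦ ‖th m τ z‖ := by
    funext m
    simp [mul_comm]
  have n : ‖fun m ↦ ‖th m τ z‖‖ = ‖fun m ↦ th m τ z‖ := by simp [Pi.norm_def]
  rw [Xi, e, norm_smul, n, Real.norm_of_nonneg (Real.exp_pos _).le, mul_right_comm,
    ← Real.exp_add, neg_add_cancel, Real.exp_zero, one_mul]

theorem qI_cont (τ : T3) : Continuous (qI τ) := by
  unfold qI
  fun_prop

theorem Xi_cont (hBAS : St_BAS) {τ : T3} (hτ : τ ∈ H2) : Continuous (Xi τ) := by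
  refine Continuous.norm (continuous_pi fun m ↦ ?_)
  have a := (hBAS.diff_th m τ hτ).continuous
  have b := qI_cont τ
  fun_prop

theorem qI_per {τ : T3} (hτ : τ ∈ H2) (μ ν : ℤ × ℤ) (z : V2) :
    qI τ (z + per τ (iv μ) (iv ν)) = qI τ z + (Qf τ (iv ν) + 2 * dot (iv ν) z).im := by
  have h : dY τ ≠ 0 := (sub_pos.2 hτ.2).ne'
  rw [qI, qI, div_add' _ _ _ h]
  refine congrArg (· / dY τ) ?_
  simp [dY, per, iv, Qf, dot, pow_two]
  ring

theorem Xi_per (hBAS : St_BAS) {τ : T3} (hτ : τ ∈ H2) (μ ν : ℤ × ℤ) (z : V2) :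
    Xi τ (z + per τ (iv μ) (iv ν)) = Xi τ z := by
  unfold Xi
  refine congrArg _ (funext fun m ↦ ?_)
  have a : ‖exp (2 * π * I * (dot (ca m) (iv μ) - dot (cb m) (iv ν)))‖ = 1 := by
    rw [norm_exp]
    simp [dot, ca, cb, iv, -ZMod.natCast_val]
  have b : ‖exp (-π * I * (Qf τ (iv ν) + 2 * dot (iv ν) z))‖ =
      Real.exp (π * (Qf τ (iv ν) + 2 * dot (iv ν) z).im) := by
    rw [norm_exp]
    simp
  rw [hBAS.th_per, norm_mul, norm_mul, a, b, qI_per hτ, one_mul, mul_right_comm, ← Real.exp_add,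
    mul_comm]
  congr 2
  ring

theorem exists_ne (hBAS : St_BAS) (hRIEM : St_RIEM) (hGAUGE : St_GAUGE) {τ : T3} (hτ : τ ∈ H2)
    (X : V2) : (fun m ↦ th m τ X) ≠ 0 := by
  intro h0
  obtain ⟨s, -, hs⟩ := hRIEM
  obtain ⟨g, hg⟩ : ∃ g, th g τ 0 ≠ 0 := by
    by_contra hn
    push Not at hn
    have := hGAUGE.den τ hτ 0
    simp [den, kk, hn] at this
  have k : ∀ Y : V2, th g τ (X + Y) * th g τ (X - Y) = 0 := by
    intro Y
    have h := hs τ hτ g g g X X Y Y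
    have e1 : (1 / 2 : ℂ) • (X + X + Y + Y) = X + Y := by module
    have e2 : (1 / 2 : ℂ) • (X + X - Y - Y) = X - Y := by module
    have e3 : (1 / 2 : ℂ) • (X - X + Y - Y) = 0 := by module
    have e4 : (1 / 2 : ℂ) • (X - X - Y + Y) = 0 := by module
    have e5 : ∀ g : Ch, g + g + g = g := by decide
    have z : ∀ η, th η τ X = 0 := fun η ↦ congrFun h0 η
    simp only [e1, e2, e3, e4, e5, z, zero_mul, mul_zero, Finset.sum_const_zero] at h
    simpa [hg] using h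
  have d := hBAS.diff_th g τ hτ
  have a1 : Differentiable ℂ fun t : ℂ ↦ th g τ (X + t • X) := d.comp (by fun_prop)
  have a2 : Differentiable ℂ fun t : ℂ ↦ th g τ (X - t • X) := d.comp (by fun_prop)
  rcases AnalyticOnNhd.eq_zero_or_eq_zero_of_mul_eq_zero (U := Set.univ)
    (fun t _ ↦ a1.analyticAt t) (fun t _ ↦ a2.analyticAt t) (fun t _ ↦ k _)
    isPreconnected_univ with h | h
  · exact hg (by simpa using h (-1) trivial)
  · exact hg (by simpa using h 1 trivial)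

/-- the fundamental parallelotope, parametrised -/
def par (τ : T3) (p : (Fin 2 → ℝ) × (Fin 2 → ℝ)) : V2 :=
  per τ (fun i ↦ (p.1 i : ℂ)) (fun i ↦ (p.2 i : ℂ))

theorem par_cont (τ : T3) : Continuous (par τ) := by
  refine continuous_pi fun i ↦ ?_
  fin_cases i <;> simp only [par, per] <;> simp <;> fun_prop

theorem cover (hHERM : St_HERM) {τ : T3} (hτ : τ ∈ H2) (z : V2) :
    ∃ p ∈ Set.Icc (0 : (Fin 2 → ℝ) × (Fin 2 → ℝ)) 1, ∃ μ ν : ℤ × ℤ,
      z = par τ p + per τ (iv μ) (iv ν) := by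
  obtain ⟨m, n, h, rfl⟩ := hHERM.per_surj τ hτ z
  refine ⟨(fun i ↦ Int.fract (m i).re, fun i ↦ Int.fract (n i).re),
    ⟨⟨fun i ↦ Int.fract_nonneg _, fun i ↦ Int.fract_nonneg _⟩,
      ⟨fun i ↦ (Int.fract_lt_one _).le, fun i ↦ (Int.fract_lt_one _).le⟩⟩,
    (⌊(m 0).re⌋, ⌊(m 1).re⌋), (⌊(n 0).re⌋, ⌊(n 1).re⌋), ?_⟩
  have f : ∀ x : ℂ, x.im = 0 → ((Int.fract x.re : ℝ) : ℂ) = x - (⌊x.re⌋ : ℤ) := by
    intro x hx
    apply Complex.ext <;> simp [hx]
  funext i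
  fin_cases i <;> simp [par, per, iv, f _ (h _).1, f _ (h _).2] <;> ring

end XNORM

open XNORM in
theorem st_NORM (hBAS : St_BAS) (hHERM : St_HERM) (hRIEM : St_RIEM) (hGAUGE : St_GAUGE) :
    St_NORM := by
  intro τ hτ
  have c : Continuous fun p ↦ Xi τ (par τ p) := (Xi_cont hBAS hτ).comp (par_cont τ)
  have ne : (Set.Icc (0 : (Fin 2 → ℝ) × (Fin 2 → ℝ)) 1).Nonempty := Set.nonempty_Icc.2 zero_le_one
  obtain ⟨p, -, hp⟩ := isCompact_Icc.exists_isMinOn ne c.continuousOn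
  obtain ⟨q, -, hq⟩ := isCompact_Icc.exists_isMaxOn ne c.continuousOn
  refine ⟨Xi τ (par τ p), Xi τ (par τ q), ?_, fun z ↦ ?_⟩
  · have h := norm_pos_iff.2 (exists_ne hBAS hRIEM hGAUGE hτ (par τ p))
    rw [Xi_eq] at h
    exact pos_of_mul_pos_left h (Real.exp_pos _).le
  · obtain ⟨r, hr, μ, ν, e⟩ := cover hHERM hτ z
    have e' : Xi τ z = Xi τ (par τ r) := by rw [e, Xi_per hBAS hτ]
    rw [Xi_eq, e']
    exact ⟨mul_le_mul_of_nonneg_right (hp hr) (Real.exp_pos _).le,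
      mul_le_mul_of_nonneg_right (hq hr) (Real.exp_pos _).le⟩

end Pool.Agent.Lib.ECM
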