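import Pool.Agent.Lib.ECM.THBlue

/-! Genus two theta functions, row NUM: numerical estimates for the toric expansions. -/

namespace Pool.Agent.Lib.ECM

namespace XNUM

theorem le_sq (x : ℤ) : x ≤ x ^ 2 ∧ -x ≤ x ^ 2 := by
  constructor <;> nlinarith [sq_nonneg (2 * x - 1), sq_nonneg (2 * x + 1), Int.le_self_sq x,
    Int.le_self_sq (-x)]

theorem nonneg (j : Fin 4) (n : ℤ × ℤ) (i : Fin 3) :
    ex (Pp j) i ≤ ex ((4 : ℤ) • n + Pp j) i := by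
  obtain ⟨a, b⟩ := n
  obtain ⟨h1, h2⟩ := le_sq a
  obtain ⟨h3, h4⟩ := le_sq b
  fin_cases j <;> fin_cases i <;> simp [ex, Pp, -one_le_sq_iff_one_le_abs] <;>
    nlinarith [sq_nonneg (a + b)]

theorem exj_cast (j : Fin 4) (n : ℤ × ℤ) (i : Fin 3) :
    (exj j n i : ℤ) = ex ((4 : ℤ) • n + Pp j) i - ex (Pp j) i :=
  Int.toNat_of_nonneg (sub_nonneg.2 (nonneg j n i))

/-- the three largest terms -/
def sp : Fin 4 → Finset (ℤ × ℤ) :=
  ![{(-1, 0), (0, -1), (-1, 1)}, {(-1, 0), (0, -1), (-1, 1)}, {(0, -1), (-1, 0), (1, -1)},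
    {(-1, 0), (0, 1), (-1, 1)}]

theorem sp_card : ∀ j, (sp j).card = 3 := by decide

theorem Pp_le : ∀ j, |(Pp j).1| ≤ 1 ∧ |(Pp j).2| ≤ 1 ∧ (Pp j).1 * (Pp j).2 ≤ 0 := by decide

theorem core {X Y p q e0 e1 e2 E : ℤ} (hp : |p| ≤ 1) (hq : |q| ≤ 1) (hpq : p * q ≤ 0)
    (h : 49 ≤ X ^ 2 + Y ^ 2) (h0 : e0 = X ^ 2 + X * Y + Y ^ 2 - (p ^ 2 + p * q + q ^ 2))
    (h1 : e1 = X ^ 2 + Y ^ 2 - (p ^ 2 + q ^ 2)) (h2 : e2 = Y ^ 2 - q ^ 2) (hE : E = min e0 e1) :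
    X ^ 2 + Y ^ 2 ≤ 2 * E + 4 ∧ |e0 - e2| + |e0 - e1 + e2| + |e0 - e1| ≤ 3 * E := by
  have a1 : p ^ 2 ≤ 1 := by rw [← sq_abs]; nlinarith [abs_nonneg p]
  have a2 : q ^ 2 ≤ 1 := by rw [← sq_abs]; nlinarith [abs_nonneg q]
  have a3 := sq_nonneg p
  have a4 := sq_nonneg q
  have a5 : -1 ≤ p * q := by nlinarith [sq_nonneg (p + q)]
  have b1 : 0 ≤ X ^ 2 + 2 * (X * Y) + Y ^ 2 := by nlinarith [sq_nonneg (X + Y)]
  have b2 : 0 ≤ X ^ 2 - 2 * (X * Y) + Y ^ 2 := by nlinarith [sq_nonneg (X - Y)]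
  have b3 : 0 ≤ X ^ 2 + 4 * (X * Y) + 4 * Y ^ 2 := by nlinarith [sq_nonneg (X + 2 * Y)]
  have b4 : 0 ≤ 4 * X ^ 2 + 4 * (X * Y) + Y ^ 2 := by nlinarith [sq_nonneg (2 * X + Y)]
  have b5 := sq_nonneg X
  have b6 := sq_nonneg Y
  generalize X ^ 2 = u at *
  generalize Y ^ 2 = v at *
  generalize X * Y = w at *
  generalize p ^ 2 = u' at *
  generalize q ^ 2 = v' at *
  generalize p * q = w' at *
  simp only [Int.abs_eq_natAbs]
  omega

theorem sq_ge {a p : ℤ} (hp : |p| ≤ 1) : 16 * a ^ 2 - 8 * |a| ≤ (4 * a + p) ^ 2 := by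
  have h := abs_le.1 hp
  rcases abs_cases a with h1 | h1 <;> rw [h1.1] <;> nlinarith [sq_nonneg p]

theorem big (j : Fin 4) (n : ℤ × ℤ) (hn : n ≠ 0) : (8 ≤ Ej j n ∧
    |4 * n.1 + (Pp j).1| + |4 * n.2 + (Pp j).2| ≤ Ej j n ∧
    |(exj j n 0 : ℤ) - exj j n 2| + |(exj j n 0 : ℤ) - exj j n 1 + exj j n 2| +
      |(exj j n 0 : ℤ) - exj j n 1| ≤ 3 * Ej j n) ∧
    (n ∈ sp j ∨ 2 * (n.1.natAbs + n.2.natAbs) + 12 ≤ Ej j n) := by
  obtain ⟨a, b⟩ := n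
  by_cases h : |a| ≤ 1 ∧ |b| ≤ 1
  · obtain ⟨⟨a1, a2⟩, b1, b2⟩ := And.intro (abs_le.1 h.1) (abs_le.1 h.2)
    revert j hn
    interval_cases a <;> interval_cases b <;> decide
  have hp := Pp_le j
  have s1 := sq_ge (a := a) hp.1
  have s2 := sq_ge (a := b) hp.2.1
  have t1 : |a| ≤ a ^ 2 ∧ (2 ≤ |a| → 2 * |a| ≤ a ^ 2) :=
    ⟨abs_le.2 ⟨by linarith [(le_sq a).2], (le_sq a).1⟩, fun h => by rw [← sq_abs]; nlinarith⟩
  have t2 : |b| ≤ b ^ 2 ∧ (2 ≤ |b| → 2 * |b| ≤ b ^ 2) :=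
    ⟨abs_le.2 ⟨by linarith [(le_sq b).2], (le_sq b).1⟩, fun h => by rw [← sq_abs]; nlinarith⟩
  have t3 : 48 ≤ 16 * a ^ 2 - 8 * |a| + (16 * b ^ 2 - 8 * |b|) ∧
      10 * (|a| + |b|) + 28 ≤ 16 * a ^ 2 - 8 * |a| + (16 * b ^ 2 - 8 * |b|) + 2 * (|a| + |b|) := by
    have := abs_nonneg a
    have := abs_nonneg b
    generalize a ^ 2 = u at *
    generalize b ^ 2 = v at *
    generalize |a| = x at *
    generalize |b| = y at *
    omega
  have u1 : 49 ≤ (4 * a + (Pp j).1) ^ 2 + (4 * b + (Pp j).2) ^ 2 := by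
    by_contra h9
    have e1 : |4 * a + (Pp j).1| ≤ 6 := by
      by_contra h8
      nlinarith [sq_abs (4 * a + (Pp j).1), sq_nonneg (4 * b + (Pp j).2)]
    have e2 : |4 * b + (Pp j).2| ≤ 6 := by
      by_contra h8
      nlinarith [sq_abs (4 * b + (Pp j).2), sq_nonneg (4 * a + (Pp j).1)]
    simp only [Int.abs_eq_natAbs] at h hp e1 e2
    omega
  obtain ⟨c1, c2⟩ := core (E := Ej j (a, b)) hp.1 hp.2.1 hp.2.2 u1
    ((exj_cast j (a, b) 0).trans (by simp [ex])) ((exj_cast j (a, b) 1).trans (by simp [ex]))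
    ((exj_cast j (a, b) 2).trans (by simp [ex])) (by simp [Ej])
  refine ⟨⟨?_, ?_, c2⟩, Or.inr ?_⟩ <;>
    simp only [Int.abs_eq_natAbs] at t3 s1 s2 hp ⊢ <;>
    generalize (4 * a + (Pp j).1) ^ 2 = u at * <;>
    generalize (4 * b + (Pp j).2) ^ 2 = v at * <;>
    generalize a ^ 2 = u' at * <;> generalize b ^ 2 = v' at * <;> omega

theorem anti {L : ℕ} (hL : 2 ≤ L) {E : ℕ} (h : L ≤ E) :
    (E : ℝ) * (103 / 200) ^ E ≤ L * (103 / 200) ^ L := by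
  induction E, h using Nat.le_induction with
  | base => exact le_rfl
  | succ E h ih =>
    refine le_trans ?_ ih
    have h1 : (2 : ℝ) ≤ E := by exact_mod_cast hL.trans h
    have h2 : (0 : ℝ) < (103 / 200) ^ E := by positivity
    rw [pow_succ]
    push_cast
    nlinarith

theorem tail (s : ℕ) : ((2 * s + 12 : ℕ) : ℝ) * (103 / 200) ^ (2 * s + 12) ≤
    21 / 5000 * (1 / 3) ^ s := by
  induction s with
  | zero => norm_num
  | succ s ih =>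
    have h1 : (0 : ℝ) ≤ s := s.cast_nonneg
    have h2 : (0 : ℝ) < (103 / 200) ^ (2 * s + 12) := by positivity
    rw [show 2 * (s + 1) + 12 = 2 * s + 12 + 2 by ring, pow_add _ _ 2, pow_succ (1 / 3 : ℝ)]
    push_cast at ih ⊢
    nlinarith

theorem geo {q : ℝ} (h0 : 0 ≤ q) (h1 : q < 1) : HasSum
    (fun n : ℤ × ℤ ↦ q ^ (n.1.natAbs + n.2.natAbs)) (((1 - q)⁻¹ + q * (1 - q)⁻¹) ^ 2) := by
  have h := hasSum_geometric_of_lt_one h0 h1
  have k : HasSum (fun n : ℤ ↦ q ^ n.natAbs) ((1 - q)⁻¹ + q * (1 - q)⁻¹) := by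
    refine HasSum.of_nat_of_neg_add_one (by simpa using h) ((h.mul_left q).congr_fun fun n => ?_)
    rw [show (-((n : ℤ) + 1)).natAbs = n + 1 by omega, pow_succ']
  simpa only [pow_add, sq] using k.mul k (k.summable.mul_of_nonneg k.summable
    (fun _ => by positivity) fun _ => by positivity)

theorem Ej_zero (j : Fin 4) : ∀ i, exj j 0 i = 0 := by simp [exj]

theorem maj (j : Fin 4) : ∃ g : ℤ × ℤ → ℝ, HasSum g (3 / 25 + 21 / 5000 * 4) ∧
    ∀ n, (Ej j n : ℝ) * (103 / 200) ^ Ej j n ≤ g n := by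
  have h1 : HasSum (fun n ↦ if n ∈ sp j then (1 / 25 : ℝ) else 0) (3 / 25) := by
    have := hasSum_sum_of_ne_finset_zero (f := fun n ↦ if n ∈ sp j then (1 / 25 : ℝ) else 0)
      (s := sp j) (L := SummationFilter.unconditional _) fun n hn => if_neg hn
    rwa [Finset.sum_ite_of_true fun _ h => h, Finset.sum_const,
      sp_card, show 3 • (1 / 25 : ℝ) = 3 / 25 by norm_num] at this
  have h2 := (geo (q := 1 / 3) (by norm_num) (by norm_num)).mul_left (21 / 5000)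
  rw [show ((1 - 1 / 3 : ℝ)⁻¹ + 1 / 3 * (1 - 1 / 3)⁻¹) ^ 2 = 4 by norm_num] at h2
  refine ⟨_, h1.add h2, fun n => ?_⟩
  have p1 : (0 : ℝ) ≤ if n ∈ sp j then 1 / 25 else 0 := by split_ifs <;> norm_num
  have p2 : (0 : ℝ) ≤ 21 / 5000 * (1 / 3) ^ (n.1.natAbs + n.2.natAbs) := by positivity
  by_cases hn : n = 0
  · rw [show Ej j n = 0 by simp [hn, Ej, Ej_zero], Nat.cast_zero, zero_mul]
    exact add_nonneg p1 p2
  obtain ⟨⟨h8, -⟩, h | h⟩ := big j n hn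
  · rw [if_pos h]
    have := anti (by norm_num) h8
    norm_num at this ⊢
    linarith
  · linarith [anti (by omega) h, tail (n.1.natAbs + n.2.natAbs)]

theorem bd {R : Fin 3 → ℝ} (h : ∀ i, 0 ≤ R i ∧ R i < 11 / 10) (hr : R 0 * R 1 < 13 / 25)
    {e0 e1 e2 s : ℕ} (h1 : e0 - min e0 e1 + (e1 - min e0 e1) + e2 ≤ 6 * min e0 e1)
    (h2 : s ≤ 2 * min e0 e1) : R 0 ^ e0 * R 1 ^ e1 * R 2 ^ e2 ≤ (97 / 100) ^ s := by
  obtain ⟨a, ha⟩ := Nat.exists_eq_add_of_le (min_le_left e0 e1)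
  obtain ⟨b, hb⟩ := Nat.exists_eq_add_of_le (min_le_right e0 e1)
  generalize min e0 e1 = m at *
  subst ha hb
  have r0 := h 0
  have r1 := h 1
  have r2 := h 2
  calc _ = (R 0 * R 1) ^ m * (R 0 ^ a * R 1 ^ b * R 2 ^ e2) := by ring
    _ ≤ (13 / 25) ^ m * ((11 / 10) ^ a * (11 / 10) ^ b * (11 / 10) ^ e2) := by
      have := mul_nonneg r0.1 r1.1
      have := r0.1
      have := r1.1
      have := r2.1
      gcongr
      exacts [r0.2.le, r1.2.le, r2.2.le]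
    _ ≤ (13 / 25) ^ m * (11 / 10) ^ (6 * m) := by
      rw [← pow_add, ← pow_add]
      exact mul_le_mul_of_nonneg_left (pow_le_pow_right₀ (by norm_num) (by omega)) (by positivity)
    _ ≤ (97 / 100) ^ (2 * m) := by
      rw [pow_mul, pow_mul, ← mul_pow]
      exact pow_le_pow_left₀ (by norm_num) (by norm_num) m
    _ ≤ _ := pow_le_pow_of_le_one (by norm_num) (by norm_num) h2

end XNUM

open XNUM in
theorem st_NUM : St_NUM where
  nonneg := nonneg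
  big := fun j n hn => (big j n hn).1
  summ := fun j => by
    obtain ⟨g, hg, h⟩ := maj j
    exact hg.summable.of_nonneg_of_le (fun _ => by positivity) h
  sum_le := fun j => by
    obtain ⟨g, hg, h⟩ := maj j
    refine ((hg.summable.of_nonneg_of_le (fun _ => by positivity) h).tsum_le_tsum h
      hg.summable).trans ?_
    rw [hg.tsum_eq]
    norm_num
  conv := fun R h hr => by
    have g := (geo (q := 97 / 100) (by norm_num) (by norm_num)).summable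
    have p : ∀ a b c : ℕ, 0 ≤ R 0 ^ a * R 1 ^ b * R 2 ^ c := fun a b c =>
      mul_nonneg (mul_nonneg (pow_nonneg (h 0).1 _) (pow_nonneg (h 1).1 _)) (pow_nonneg (h 2).1 _)
    refine ⟨g.of_nonneg_of_le (fun _ => p _ _ _) fun ⟨X, Y⟩ => ?_,
      fun j => g.of_nonneg_of_le (fun _ => p _ _ _) fun n => ?_⟩
    · have a1 := le_sq X
      have a2 := le_sq Y
      have b1 : 0 ≤ X ^ 2 + 2 * (X * Y) + Y ^ 2 := by nlinarith [sq_nonneg (X + Y)]
      have b2 : 0 ≤ X ^ 2 - 2 * (X * Y) + Y ^ 2 := by nlinarith [sq_nonneg (X - Y)]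
      have e0 : ex (X, Y) 0 = X ^ 2 + X * Y + Y ^ 2 := rfl
      have e1 : ex (X, Y) 1 = X ^ 2 + Y ^ 2 := rfl
      have e2 : ex (X, Y) 2 = Y ^ 2 := rfl
      rw [e0, e1, e2]
      refine bd h hr ?_ ?_ <;> generalize X ^ 2 = u at * <;> generalize Y ^ 2 = v at * <;>
        generalize X * Y = w at * <;> omega
    · by_cases hn : n = 0
      · simp [hn, Ej_zero]
      obtain ⟨⟨-, h1, h2⟩, -⟩ := big j n hn
      have hp := And.intro (Pp_le j).1 (Pp_le j).2.1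
      simp only [Int.abs_eq_natAbs, Ej] at h1 h2 hp
      refine bd h hr ?_ ?_ <;> omega

end Pool.Agent.Lib.ECM
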