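import Pool.Agent.Lib.ECM.THBlue2

/-! Lower bound for the determinant of the imaginary part on the toric domain. -/

open Complex
open scoped Real

namespace Pool.Agent.Lib.ECM

theorem st_OMD : St_OMD := by
  rintro τ ⟨h, h'⟩
  have h0 := h 0
  have h1 := h 1
  have h2 := h 2
  simp only [xq, Matrix.cons_val_zero, Matrix.cons_val_one, Matrix.cons_val, norm_exp] at h0 h1 h2 h'
  rw [← Real.exp_add] at h'
  have e0 : (π * I * τ 1 / 2).re = -(π * (τ 1).im) / 2 := by simp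
  have e1 : (π * I * (τ 0 - 2 * τ 1) / 4).re = -(π * ((τ 0).im - 2 * (τ 1).im)) / 4 := by simp
  have e2 : (π * I * (τ 2 - τ 0) / 4).re = -(π * ((τ 2).im - (τ 0).im)) / 4 := by simp
  rw [e0] at h0 h'
  rw [e1] at h1 h'
  rw [e2] at h2
  have a0 := Real.add_one_le_exp (-(π * (τ 1).im) / 2)
  have a1 := Real.add_one_le_exp (-(π * ((τ 0).im - 2 * (τ 1).im)) / 4)
  have a2 := Real.add_one_le_exp (-(π * ((τ 2).im - (τ 0).im)) / 4)
  have a3 := Real.add_one_le_exp (-(π * (τ 1).im) / 2 + -(π * ((τ 0).im - 2 * (τ 1).im)) / 4)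
  have p1 := Real.pi_gt_d2
  have p2 := Real.pi_lt_d2
  have b0 : -(13 / 100 : ℝ) < 2 * (τ 1).im := by nlinarith
  have b1 : -(13 / 100 : ℝ) < (τ 0).im - 2 * (τ 1).im := by nlinarith
  have b2 : -(13 / 100 : ℝ) < (τ 2).im - (τ 0).im := by nlinarith
  have b3 : (3 / 5 : ℝ) < (τ 0).im := by nlinarith
  unfold dY
  nlinarith [mul_pos (sub_pos.2 b0) (sub_pos.2 b1), mul_pos (sub_pos.2 b2) (sub_pos.2 b3),
    mul_pos (sub_pos.2 b3) (sub_pos.2 b3), mul_pos (sub_pos.2 b1) (sub_pos.2 b3),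
    mul_pos (sub_pos.2 b0) (sub_pos.2 b3), mul_pos (sub_pos.2 b1) (sub_pos.2 b1)]

end Pool.Agent.Lib.ECM
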