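import Pool.Agent.Lib.ECM.THBlue

/-! Genus two theta functions: the ratios of the coset series are local coordinates. -/

open Complex Filter Topology Metric
open scoped Real ComplexConjugate

noncomputable section

namespace Pool.Agent.Lib.ECM

namespace XPHI

/-- the map in the toric coordinates -/
def Ph (x : T3) : T3 :=
  ![x 0 * (EE 1 x * EE 2 x / (EE 3 x * EE 0 x)), x 1 * (EE 3 x / EE 2 x), x 2 * (EE 2 x / EE 1 x)]

theorem ser (hNUM : St_NUM) (hSER : St_SER) (j : Fin 4) :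
    ContDiffOn ℂ 1 (EE j) Om ∧ ∀ x ∈ Om, ∀ δ : T3,
      HasSum (fun n ↦ ((exj j n 0 : ℂ) * δ 0 + exj j n 1 * δ 1 + exj j n 2 * δ 2) * mon (exj j n) x)
        (fderiv ℂ (EE j) x fun i ↦ x i * δ i) := by
  have h := hSER (fun _ ↦ 1) (exj j) (fun _ ↦ by simp) fun R h1 h2 ↦ (hNUM.conv R h1 h2).2 j
  simp only [one_mul] at h
  exact h

theorem low (hXQ : St_XQ) {x : T3} (hx : x ∈ Kc) (j : Fin 4) : 55 / 56 ≤ ‖EE j x‖ := by
  have h := hXQ.EE x hx j
  have h1 := norm_sub_norm_le (1 : ℂ) (EE j x)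
  rw [norm_sub_rev, norm_one] at h1
  linarith

theorem ne (hXQ : St_XQ) {x : T3} (hx : x ∈ Kc) (j : Fin 4) : EE j x ≠ 0 := by
  have := low hXQ hx j
  exact norm_pos_iff.1 (by linarith)

theorem bound (hNUM : St_NUM) (hXQ : St_XQ) (hSER : St_SER) {x : T3} (hx : x ∈ Kc) (a : Fin 4 → ℂ)
    (j : Fin 4) :
    ‖fderiv ℂ (EE j) x fun i ↦ x i * ![a 0 + a 3 - a 1 - a 2, a 2 - a 3, a 1 - a 2] i‖ ≤
      6 / 7 * ‖a‖ := by
  have h := (ser hNUM hSER j).2 x (hXQ.sub hx) ![a 0 + a 3 - a 1 - a 2, a 2 - a 3, a 1 - a 2]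
  have hs := (hNUM.summ j).hasSum.mul_left (6 * ‖a‖)
  refine (h.norm_le_of_bounded hs fun n ↦ ?_).trans ?_
  · by_cases hn : n = 0
    · subst hn
      simp [exj, Ej]
    have hb := (hNUM.big j n hn).2.2
    have hb' : |(exj j n 0 : ℝ) - exj j n 2| + |(exj j n 0 : ℝ) - exj j n 1 + exj j n 2| +
        |(exj j n 0 : ℝ) - exj j n 1| ≤ 3 * Ej j n := by exact_mod_cast hb
    have d : ∀ k, ‖a 0 - a k‖ ≤ 2 * ‖a‖ := fun k ↦ (norm_sub_le _ _).trans (by
      linarith [norm_le_pi_norm a 0, norm_le_pi_norm a k])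
    have e : ((exj j n 0 : ℂ) * (a 0 + a 3 - a 1 - a 2) + exj j n 1 * (a 2 - a 3) +
        exj j n 2 * (a 1 - a 2)) =
        (((exj j n 0 : ℝ) - exj j n 2 : ℝ) : ℂ) * (a 0 - a 1) +
        (((exj j n 0 : ℝ) - exj j n 1 + exj j n 2 : ℝ) : ℂ) * (a 0 - a 2) -
        (((exj j n 0 : ℝ) - exj j n 1 : ℝ) : ℂ) * (a 0 - a 3) := by
      push_cast
      ring
    have k : ∀ (r : ℝ) (i : Fin 4), ‖(r : ℂ) * (a 0 - a i)‖ ≤ |r| * (2 * ‖a‖) := fun r i ↦ by
      rw [norm_mul, Complex.norm_real, Real.norm_eq_abs]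
      exact mul_le_mul_of_nonneg_left (d i) (abs_nonneg _)
    simp only [Matrix.cons_val_zero, Matrix.cons_val_one, Matrix.cons_val]
    rw [norm_mul, e, ← mul_assoc]
    refine mul_le_mul ?_ (hXQ.small x hx j n) (norm_nonneg _) (by positivity)
    refine ((norm_sub_le _ _).trans (add_le_add ((norm_add_le _ _).trans
      (add_le_add (k _ _) (k _ _))) (k _ _))).trans ?_
    have := mul_le_mul_of_nonneg_right hb' (show 0 ≤ 2 * ‖a‖ by positivity)
    linarith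
  · have := mul_le_mul_of_nonneg_left (hNUM.sum_le j) (show 0 ≤ 6 * ‖a‖ by positivity)
    linarith

theorem cd (hNUM : St_NUM) (hXQ : St_XQ) (hSER : St_SER) {x : T3} (hx : x ∈ Kc) (j : Fin 4) :
    ContDiffAt ℂ 1 (EE j) x :=
  (ser hNUM hSER j).1.contDiffAt (hXQ.isOpen.mem_nhds (hXQ.sub hx))

theorem cdPh (hNUM : St_NUM) (hXQ : St_XQ) (hSER : St_SER) {x : T3} (hx : x ∈ Kc) :
    ContDiffAt ℂ 1 Ph x := by
  have c := cd hNUM hXQ hSER hx
  have n := ne hXQ hx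
  have p : ∀ i, ContDiffAt ℂ 1 (fun y : T3 ↦ y i) x := fun i ↦ contDiffAt_apply ℂ ℂ i x
  refine contDiffAt_pi.2 fun i ↦ ?_
  fin_cases i
  · exact (p 0).mul (((c 1).mul (c 2)).div ((c 3).mul (c 0)) (mul_ne_zero (n 3) (n 0)))
  · exact (p 1).mul ((c 3).div (c 2) (n 2))
  · exact (p 2).mul ((c 2).div (c 1) (n 1))

theorem ker (hNUM : St_NUM) (hXQ : St_XQ) (hSER : St_SER) {x : T3} (hx : x ∈ Kc) (v : T3)
    (hv : fderiv ℂ Ph x v = 0) : v = 0 := by
  have n := ne hXQ hx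
  have ln : HasDerivAt (fun t : ℂ ↦ x + t • v) v 0 := by
    simpa using ((hasDerivAt_id (0 : ℂ)).smul_const v).const_add x
  have x0 : x = x + (0 : ℂ) • v := by simp
  have dE : ∀ j, HasDerivAt (fun t : ℂ ↦ EE j (x + t • v)) (fderiv ℂ (EE j) x v) 0 := fun j ↦
    ((cd hNUM hXQ hSER hx j).differentiableAt one_ne_zero).hasFDerivAt.comp_hasDerivAt_of_eq 0
      ln x0
  have dP : HasDerivAt (fun t : ℂ ↦ Ph (x + t • v)) (fderiv ℂ Ph x v) 0 :=
    ((cdPh hNUM hXQ hSER hx).differentiableAt one_ne_zero).hasFDerivAt.comp_hasDerivAt_of_eq 0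
      ln x0
  rw [hv] at dP
  have dc := hasDerivAt_pi.1 dP
  have dx := hasDerivAt_pi.1 ln
  have n' : ∀ j, EE j (x + (0 : ℂ) • v) ≠ 0 := fun j ↦ x0 ▸ n j
  have e0 := (dc 0).unique ((dx 0).mul (((dE 1).mul (dE 2)).div ((dE 3).mul (dE 0))
    (mul_ne_zero (n' 3) (n' 0))))
  have e1 := (dc 1).unique ((dx 1).mul ((dE 3).div (dE 2) (n' 2)))
  have e2 := (dc 2).unique ((dx 2).mul ((dE 2).div (dE 1) (n' 1)))
  simp only [zero_smul, add_zero, Pi.zero_apply, Pi.mul_apply] at e0 e1 e2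
  set a : Fin 4 → ℂ := fun j ↦ fderiv ℂ (EE j) x v / EE j x with ha
  have hd : ∀ j, fderiv ℂ (EE j) x v = a j * EE j x := fun j ↦ by
    rw [ha, div_mul_cancel₀ _ (n j)]
  have n0 := n 0
  have n1 := n 1
  have n2 := n 2
  have n3 := n 3
  have hvx : v = fun i ↦ x i * ![a 0 + a 3 - a 1 - a 2, a 2 - a 3, a 1 - a 2] i := by
    simp only [hd] at e0 e1 e2
    funext i
    fin_cases i
    · have : (v 0 - x 0 * (a 0 + a 3 - a 1 - a 2)) * (EE 1 x * EE 2 x / (EE 3 x * EE 0 x)) = 0 := by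
        rw [e0]
        field_simp
        ring
      exact sub_eq_zero.1 ((mul_eq_zero.1 this).resolve_right
        (div_ne_zero (mul_ne_zero n1 n2) (mul_ne_zero n3 n0)))
    · have : (v 1 - x 1 * (a 2 - a 3)) * (EE 3 x / EE 2 x) = 0 := by
        rw [e1]
        field_simp
        ring
      exact sub_eq_zero.1 ((mul_eq_zero.1 this).resolve_right (div_ne_zero n3 n2))
    · have : (v 2 - x 2 * (a 1 - a 2)) * (EE 2 x / EE 1 x) = 0 := by
        rw [e2]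
        field_simp
        ring
      exact sub_eq_zero.1 ((mul_eq_zero.1 this).resolve_right (div_ne_zero n2 n1))
  have hb : ∀ j, ‖a j‖ ≤ 48 / 55 * ‖a‖ := fun j ↦ by
    have h1 := bound hNUM hXQ hSER hx a j
    rw [← hvx, hd, norm_mul] at h1
    have h2 := mul_le_mul_of_nonneg_left (low hXQ hx j) (norm_nonneg (a j))
    linarith
  have h3 : ‖a‖ ≤ 48 / 55 * ‖a‖ := (pi_norm_le_iff_of_nonneg (by positivity)).2 hb
  have h4 : a = 0 := norm_eq_zero.1 (le_antisymm (by linarith) (norm_nonneg _))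
  rw [hvx, h4]
  funext i
  fin_cases i <;> simp

end XPHI

open XPHI in
theorem st_PHI (hNUM : St_NUM) (hXQ : St_XQ) (hSER : St_SER) : St_PHI := by
  refine ⟨Ph, fun x hx ↦ ⟨cdPh hNUM hXQ hSER hx, ?_⟩, fun τ hτ ↦ ?_⟩
  · have hi : Function.Injective (fderiv ℂ Ph x : T3 →ₗ[ℂ] T3) :=
      (injective_iff_map_eq_zero _).2 (ker hNUM hXQ hSER hx)
    refine ⟨(LinearEquiv.ofInjectiveEndo _ hi).toContinuousLinearEquiv, ?_⟩
    have h := ((cdPh hNUM hXQ hSER hx).differentiableAt one_ne_zero).hasFDerivAt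
    exact h.congr_fderiv (ContinuousLinearMap.ext fun _ ↦ rfl)
  · have n := ne hXQ (hXQ.red τ hτ)
    have hx : ∀ i, xq τ i ≠ 0 := fun i ↦ by
      fin_cases i <;> exact exp_ne_zero _
    have n0 := n 0
    have n1 := n 1
    have n2 := n 2
    have n3 := n 3
    have y0 := hx 0
    have y1 := hx 1
    have y2 := hx 2
    refine ⟨fun j ↦ ?_, ?_⟩
    · rw [hXQ.fp]
      exact mul_ne_zero (mul_ne_zero (mul_ne_zero (pow_ne_zero _ y0) (pow_ne_zero _ y1))
        (pow_ne_zero _ y2)) (n j)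
    · simp only [hXQ.fp]
      have m0 : mon (fun i ↦ (ex (Pp 0) i).toNat) (xq τ) = 1 := by simp [mon, ex, Pp]
      have m1 : mon (fun i ↦ (ex (Pp 1) i).toNat) (xq τ) = xq τ 0 * xq τ 1 := by
        simp [mon, ex, Pp]
      have m2 : mon (fun i ↦ (ex (Pp 2) i).toNat) (xq τ) = xq τ 0 * xq τ 1 * xq τ 2 := by
        simp [mon, ex, Pp]
      have m3 : mon (fun i ↦ (ex (Pp 3) i).toNat) (xq τ) = xq τ 0 * xq τ 1 ^ 2 * xq τ 2 := by
        simp [mon, ex, Pp]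
      rw [m0, m1, m2, m3, Ph]
      congr 1
      · field_simp
      · congr 1
        · field_simp
        · congr 1
          field_simp

end Pool.Agent.Lib.ECM
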