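import Pool.Agent.Lib.ECM.THBlue

/-! Genus two theta functions: every point can be moved into the reduced domain. -/

open Complex

noncomputable section

namespace Pool.Agent.Lib.ECM

namespace bRED

/-- a binary quadratic form at an integral vector -/
def bq (p q r : ℝ) (a b : ℤ) : ℝ := p * a ^ 2 + 2 * q * a * b + r * b ^ 2

/-- its polar form -/
def bp (p q r : ℝ) (a b c d : ℤ) : ℝ := p * a * c + q * (a * d + b * c) + r * b * d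

theorem bq_ge {p q r : ℝ} (a b : ℤ) :
    (p * r - q ^ 2) * ((a : ℝ) ^ 2 + (b : ℝ) ^ 2) ≤ (p + r) * bq p q r a b := by
  unfold bq
  nlinarith [sq_nonneg (p * a + q * b), sq_nonneg (q * a + r * b)]

theorem box {x : ℤ} {N : ℕ} (h : (x : ℝ) ^ 2 ≤ N) : -(N : ℤ) ≤ x ∧ x ≤ N := by
  have h1 : x ^ 2 ≤ N := by exact_mod_cast h
  constructor <;> nlinarith [sq_nonneg (x - 1), sq_nonneg (x + 1), sq_nonneg x]

theorem exmin {p q r : ℝ} (hp : 0 < p) (h : q ^ 2 < p * r) : ∃ a b c d : ℤ,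
    (a * d - b * c = 1 ∨ a * d - b * c = -1) ∧ ∀ a' b' c' d' : ℤ,
      (a' * d' - b' * c' = 1 ∨ a' * d' - b' * c' = -1) →
        bq p q r a b + bq p q r c d ≤ bq p q r a' b' + bq p q r c' d' := by
  have hr : 0 < r := by nlinarith [sq_nonneg q]
  have hD : 0 < p * r - q ^ 2 := by linarith
  obtain ⟨N, hN⟩ := exists_nat_ge ((p + r) * (p + r) / (p * r - q ^ 2))
  rw [div_le_iff₀ hD] at hN
  set f : ℤ × ℤ × ℤ × ℤ → ℝ := fun v ↦ bq p q r v.1 v.2.1 + bq p q r v.2.2.1 v.2.2.2 with hf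
  set S : Set (ℤ × ℤ × ℤ × ℤ) := {v | (v.1 * v.2.2.2 - v.2.1 * v.2.2.1 = 1 ∨
    v.1 * v.2.2.2 - v.2.1 * v.2.2.1 = -1) ∧ f v ≤ p + r} with hS
  have hfin : S.Finite := by
    refine (Set.finite_Icc (-(N : ℤ), -(N : ℤ), -(N : ℤ), -(N : ℤ))
      ((N : ℤ), (N : ℤ), (N : ℤ), (N : ℤ))).subset ?_
    rintro ⟨a, b, c, d⟩ ⟨-, h2⟩
    have h3 := bq_ge (p := p) (q := q) (r := r) a b
    have h4 := bq_ge (p := p) (q := q) (r := r) c d
    have h5 := mul_le_mul_of_nonneg_left h2 (add_pos hp hr).le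
    simp only [hf] at h5
    have h6 : (a : ℝ) ^ 2 + (b : ℝ) ^ 2 + ((c : ℝ) ^ 2 + (d : ℝ) ^ 2) ≤ N :=
      le_of_mul_le_mul_left (by linarith) hD
    have ha := box (x := a) (N := N) (by nlinarith [sq_nonneg (b : ℝ), sq_nonneg (c : ℝ), sq_nonneg (d : ℝ)])
    have hb := box (x := b) (N := N) (by nlinarith [sq_nonneg (a : ℝ), sq_nonneg (c : ℝ), sq_nonneg (d : ℝ)])
    have hc := box (x := c) (N := N) (by nlinarith [sq_nonneg (b : ℝ), sq_nonneg (a : ℝ), sq_nonneg (d : ℝ)])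
    have hd := box (x := d) (N := N) (by nlinarith [sq_nonneg (b : ℝ), sq_nonneg (c : ℝ), sq_nonneg (a : ℝ)])
    exact ⟨⟨ha.1, hb.1, hc.1, hd.1⟩, ⟨ha.2, hb.2, hc.2, hd.2⟩⟩
  have hne : S.Nonempty := ⟨(1, 0, 0, 1), by simp [hS, hf, bq]⟩
  obtain ⟨⟨a, b, c, d⟩, hv, hmin⟩ := Set.exists_min_image S f hfin hne
  refine ⟨a, b, c, d, hv.1, fun a' b' c' d' hd ↦ ?_⟩
  by_cases h1 : f (a', b', c', d') ≤ p + r
  · exact hmin (a', b', c', d') ⟨hd, h1⟩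
  · exact hv.2.trans (not_le.1 h1).le

theorem mreal {p q r : ℝ} (hp : 0 < p) (h : q ^ 2 < p * r) : ∃ a b c d : ℤ,
    (a * d - b * c = 1 ∨ a * d - b * c = -1) ∧ 0 ≤ bp p q r a b c d ∧
      2 * bp p q r a b c d ≤ bq p q r a b ∧ bq p q r a b ≤ bq p q r c d := by
  obtain ⟨a, b, c, d, hd, hm⟩ := exmin hp h
  have h1 := hm a b (c + a) (d + b) (hd.imp (fun e ↦ by linarith) fun e ↦ by linarith)
  have h2 := hm a b (c - a) (d - b) (hd.imp (fun e ↦ by linarith) fun e ↦ by linarith)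
  have h3 := hm (a + c) (b + d) c d (hd.imp (fun e ↦ by linarith) fun e ↦ by linarith)
  have h4 := hm (a - c) (b - d) c d (hd.imp (fun e ↦ by linarith) fun e ↦ by linarith)
  simp only [bq, Int.cast_add, Int.cast_sub] at h1 h2 h3 h4
  rcases le_total (bq p q r a b) (bq p q r c d) with k1 | k1 <;>
    rcases le_total 0 (bp p q r a b c d) with k2 | k2
  · refine ⟨a, b, c, d, hd, k2, ?_, k1⟩
    simp only [bq, bp]; linarith
  · refine ⟨a, b, -c, -d, hd.symm.imp (fun e ↦ by linarith) fun e ↦ by linarith, ?_, ?_, ?_⟩ <;>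
      simp only [bq, bp, Int.cast_neg] at k1 k2 ⊢ <;> linarith
  · refine ⟨c, d, a, b, hd.symm.imp (fun e ↦ by linarith) fun e ↦ by linarith, ?_, ?_, ?_⟩ <;>
      simp only [bq, bp] at k1 k2 ⊢ <;> linarith
  · refine ⟨c, d, -a, -b, hd.imp (fun e ↦ by linarith) fun e ↦ by linarith, ?_, ?_, ?_⟩ <;>
      simp only [bq, bp, Int.cast_neg] at k1 k2 ⊢ <;> linarith

theorem bdet (p q r : ℝ) {a b c d : ℤ} (hd : a * d - b * c = 1 ∨ a * d - b * c = -1) :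
    bq p q r a b * bq p q r c d - bp p q r a b c d ^ 2 = p * r - q ^ 2 := by
  have h1 : (a * d - b * c) ^ 2 = 1 := by rcases hd with e | e <;> rw [e] <;> norm_num
  have h2 : ((a : ℝ) * d - b * c) ^ 2 = 1 := by exact_mod_cast h1
  unfold bq bp
  linear_combination (p * r - q ^ 2) * h2

/-- reduced apart from the lower bound -/
def Mk (τ : T3) : Prop :=
  0 ≤ (τ 1).im ∧ 2 * (τ 1).im ≤ (τ 0).im ∧ (τ 0).im ≤ (τ 2).im ∧ ∀ i, |(τ i).re| ≤ 1 / 2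

theorem mink (hT : St_SYMT) (hU : St_SYMU) (hK : St_SYMK) {τ : T3} (hτ : τ ∈ H2) :
    ∃ γ : Sym, Mk (γ.act τ) ∧ dY (γ.act τ) = dY τ := by
  obtain ⟨a, b, c, d, hd, h1, h2, h3⟩ := mreal hτ.1 hτ.2
  obtain ⟨γ, hγ, -⟩ := hU a b c d hd
  obtain ⟨δ, hδ, -⟩ := hT fun i ↦ -round (γ.act τ i).re
  obtain ⟨ε, hε, -⟩ := hK.comp γ δ
  have e0 : (γ.act τ 0).im = bq (τ 0).im (τ 1).im (τ 2).im a b := by
    simp [hγ, Qf, iv, bq, pow_two]
  have e1 : (γ.act τ 1).im = bp (τ 0).im (τ 1).im (τ 2).im a b c d := by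
    simp [hγ, bp]
  have e2 : (γ.act τ 2).im = bq (τ 0).im (τ 1).im (τ 2).im c d := by
    simp [hγ, Qf, iv, bq, pow_two]
  have k : ∀ i, (ε.act τ i).im = (γ.act τ i).im := fun i ↦ by simp [hε, hδ]
  refine ⟨ε, ⟨?_, ?_, ?_, fun i ↦ ?_⟩, ?_⟩
  · rwa [k, e1]
  · rwa [k, k, e0, e1]
  · rwa [k, k, e0, e2]
  · have := abs_sub_round (γ.act τ i).re
    simpa [hε, hδ, sub_eq_add_neg] using this
  · rw [dY, k, k, k, e0, e1, e2, bdet _ _ _ hd, dY]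

theorem dY_pos {τ : T3} (hτ : τ ∈ H2) : 0 < dY τ := sub_pos.2 hτ.2

theorem bdd (hH : St_HERM) {τ : T3} (hτ : τ ∈ H2) :
    ∃ B : ℝ, ∀ γ : Sym, Mk (γ.act τ) → dY (γ.act τ) ≤ B := by
  obtain ⟨μ, hμ, h⟩ := hH.disc τ hτ
  refine ⟨4 / (3 * μ ^ 2), fun γ hγ ↦ ?_⟩
  have hm := γ.act_mem τ hτ
  obtain ⟨z, hz⟩ := (γ.bij τ hτ).2 ![0, 1]
  have hl : z ∈ Lat τ := (γ.lat τ hτ z).1 ⟨(0, 1), (0, 0), by rw [hz]; simp [per, iv]⟩
  have h0 : z ≠ 0 := by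
    rintro rfl
    have := congrFun hz 1
    simp at this
  have h1 := h z hl h0
  rw [← γ.herm τ hτ z, hz] at h1
  have h2 : μ ≤ (γ.act τ 0).im / dY (γ.act τ) := by simpa [Hn] using h1
  rw [le_div_iff₀ (dY_pos hm)] at h2
  obtain ⟨a1, a2, a3, -⟩ := hγ
  have a0 := hm.1
  have h3 : 3 / 4 * ((γ.act τ 0).im * (γ.act τ 2).im) ≤ dY (γ.act τ) := by
    unfold dY
    nlinarith
  have h4 : μ * (γ.act τ 2).im ≤ 4 / 3 := by
    refine le_of_mul_le_mul_left ?_ a0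
    nlinarith
  rw [le_div_iff₀ (by positivity)]
  nlinarith [mul_le_mul_of_nonneg_left (h2.trans a3) hμ.le]

theorem dY_J {τ : T3} (hτ : τ ∈ H2) :
    dY ![-1 / τ 0, τ 1 / τ 0, τ 2 - τ 1 ^ 2 / τ 0] = dY τ / ((τ 0).re ^ 2 + (τ 0).im ^ 2) := by
  have h : (τ 0).re * (τ 0).re + (τ 0).im * (τ 0).im ≠ 0 := by
    nlinarith [hτ.1, mul_self_nonneg (τ 0).re, mul_pos hτ.1 hτ.1]
  simp only [dY, Matrix.cons_val_zero, Matrix.cons_val_one, Matrix.cons_val_two, Matrix.head_cons,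
    Matrix.tail_cons, sub_im, div_im, pow_two, mul_re, mul_im, normSq_apply, neg_re, neg_im, one_re,
    one_im]
  generalize hN : (τ 0).re * (τ 0).re + (τ 0).im * (τ 0).im = N at h ⊢
  field_simp
  linear_combination (-(τ 1).im ^ 2) * hN

end bRED

open bRED in
theorem st_RED (hHERM : St_HERM) (hSYMT : St_SYMT) (hSYMU : St_SYMU) (hSYMJ : St_SYMJ)
    (hSYMK : St_SYMK) : St_RED := by
  intro τ hτ
  obtain ⟨B, hB⟩ := bdd hHERM hτ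
  set S : Set ℝ := {x | ∃ γ : Sym, Mk (γ.act τ) ∧ x = dY (γ.act τ)} with hS
  have hb : BddAbove S := ⟨B, by rintro x ⟨γ, h1, rfl⟩; exact hB γ h1⟩
  obtain ⟨γ0, h0, -⟩ := mink hSYMT hSYMU hSYMK hτ
  have m0 : dY (γ0.act τ) ∈ S := ⟨γ0, h0, rfl⟩
  have hs : 0 < sSup S := (dY_pos (γ0.act_mem τ hτ)).trans_le (le_csSup hb m0)
  obtain ⟨x, ⟨γ, h1, rfl⟩, hx⟩ :=
    exists_lt_of_lt_csSup ⟨_, m0⟩ (show 49 / 50 * sSup S < sSup S by linarith)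
  refine ⟨γ, h1.1, h1.2.1, h1.2.2.1, ?_, h1.2.2.2⟩
  by_contra hlt
  have hm := γ.act_mem τ hτ
  obtain ⟨J, hJ, -⟩ := hSYMJ
  obtain ⟨δ, h2, h3⟩ := mink hSYMT hSYMU hSYMK (J.act_mem _ hm)
  obtain ⟨ε, hε, -⟩ := hSYMK.comp γ J
  obtain ⟨η, hη, -⟩ := hSYMK.comp ε δ
  have e : η.act τ = δ.act (J.act (γ.act τ)) := by rw [hη, hε]
  have h4 := le_csSup hb (show dY (η.act τ) ∈ S from ⟨η, by rwa [e], rfl⟩)
  have a0 := hm.1
  rw [e, h3, hJ, dY_J hm, div_le_iff₀ (by positivity)] at h4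
  have a1 := abs_le.1 (h1.2.2.2 0)
  have a2 : (γ.act τ 0).re ^ 2 + (γ.act τ 0).im ^ 2 ≤ 49 / 50 := by nlinarith [not_le.1 hlt]
  nlinarith [mul_le_mul_of_nonneg_left a2 hs.le]

end Pool.Agent.Lib.ECM
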