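import Pool.Agent.Lib.ECM.THBlue

/-! The Riemann relation for half integral characteristics. -/

open Complex
open scoped Real

noncomputable section

namespace Pool.Agent.Lib.ECM

namespace XRIEM

/-- the integral lift of the upper part -/
def la (m : Ch) : ℤ × ℤ := ((m.1.val : ℤ), (m.2.1.val : ℤ))

/-- the integral lift of the lower part -/
def lb (m : Ch) : ℤ × ℤ := ((m.2.2.1.val : ℤ), (m.2.2.2.val : ℤ))

/-- the class of a pair of integral vectors -/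
def chr (a b : ℤ × ℤ) : Ch := ((a.1 : ZMod 2), (a.2 : ZMod 2), (b.1 : ZMod 2), (b.2 : ZMod 2))

theorem ca_eq (m : Ch) : ca m = (1 / 2 : ℂ) • iv (la m) := by
  funext i; fin_cases i <;> simp [iv, ca, la] <;> ring

theorem cb_eq (m : Ch) : cb m = (1 / 2 : ℂ) • iv (lb m) := by
  funext i; fin_cases i <;> simp [iv, cb, lb] <;> ring

theorem iv_add (a b : ℤ × ℤ) : iv (a + b) = iv a + iv b := by
  funext i; fin_cases i <;> simp [iv]

theorem iv_neg (a : ℤ × ℤ) : iv (-a) = -iv a := by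
  funext i; fin_cases i <;> simp [iv]

theorem chr_add (a b c d : ℤ × ℤ) : chr (a + c) (b + d) = chr a b + chr c d := by
  simp [chr]

theorem chr_l (m : Ch) : chr (la m) (lb m) = m := by
  simp [chr, la, lb]

theorem two (m : Ch) : m + m = 0 := by
  revert m; decide

theorem chr_neg (a b : ℤ × ℤ) : chr (-a) (-b) = chr a b := by
  have h := chr_add (-a) (-b) a b
  have z : chr 0 0 = 0 := by simp [chr, Prod.ext_iff]
  rw [neg_add_cancel, neg_add_cancel, z] at h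
  linear_combination -h - two (chr a b)

/-- signs -/
def Sn (s : ℤ) : Prop := s = 1 ∨ s = -1

theorem Sn.mul {s t : ℤ} (hs : Sn s) (ht : Sn t) : Sn (s * t) := by
  rcases hs with rfl | rfl <;> rcases ht with rfl | rfl <;> simp [Sn]

theorem fac (hBAS : St_BAS) (P Q : ℤ × ℤ) (η m : Ch) (h : chr P Q + η = m) :
    ∃ ε : ℤ, Sn ε ∧ ∀ (τ : T3) (z : V2), thg τ ((1 / 2 : ℂ) • iv P + ca η)
      (z + (1 / 2 : ℂ) • iv Q + cb η) = ε * th m τ z := by
  obtain ⟨ε, h1, h2⟩ := hBAS.thz (P + la η) (Q + lb η)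
  refine ⟨ε, h1, fun τ z => ?_⟩
  have e : chr (P + la η) (Q + lb η) = m := by rw [chr_add, chr_l, h]
  rw [← e, ca_eq, cb_eq, add_assoc, ← smul_add, ← smul_add, ← iv_add, ← iv_add]
  exact h2 τ z

theorem pre (η : Ch) (E : ℤ × ℤ) :
    ∃ ε : ℤ, Sn ε ∧ exp (-2 * π * I * dot (cb η) (iv E)) = ε := by
  set k : ℤ := -((lb η).1 * E.1 + (lb η).2 * E.2) with hk
  have e : -2 * π * I * dot (cb η) (iv E) = k * (π * I) := by
    rw [cb_eq, hk]
    simp [dot, iv]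
    ring
  rw [e, exp_int_mul, exp_pi_mul_I]
  rcases Int.even_or_odd k with h | h
  · exact ⟨1, Or.inl rfl, by rw [h.neg_one_zpow]; simp⟩
  · exact ⟨-1, Or.inr rfl, by rw [h.neg_one_zpow]; simp⟩

/-- one term of the general relation -/
def tm (e f g η : Ch) (τ : T3) (x y u v : V2) : ℂ :=
  exp (-2 * π * I * dot (cb η) (iv (la e))) *
    (thg τ ((1 / 2 : ℂ) • iv (la e + la f + la g) + ca η)
        (x + (1 / 2 : ℂ) • iv (lb e + lb f + lb g) + cb η) *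
      thg τ ((1 / 2 : ℂ) • iv (-la g) + ca η) (y + (1 / 2 : ℂ) • iv (-lb g) + cb η) *
      thg τ ((1 / 2 : ℂ) • iv (-la f) + ca η) (u + (1 / 2 : ℂ) • iv (-lb f) + cb η) *
      thg τ ((1 / 2 : ℂ) • iv (la e) + ca η) (v + (1 / 2 : ℂ) • iv (lb e) + cb η))

theorem tm_eq (hBAS : St_BAS) (e f g η : Ch) : ∃ s : ℤ, Sn s ∧ ∀ (τ : T3) (x y u v : V2),
    tm e f g (η + (e + f + g)) τ x y u v =
      s * (th η τ x * th (η + e + f) τ y * th (η + e + g) τ u * th (η + f + g) τ v) := by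
  obtain ⟨s0, a0, b0⟩ := pre (η + (e + f + g)) (la e)
  obtain ⟨s1, a1, b1⟩ := fac hBAS (la e + la f + la g) (lb e + lb f + lb g) (η + (e + f + g)) η
    (by rw [chr_add, chr_add, chr_l, chr_l, chr_l]; linear_combination two (e + f + g))
  obtain ⟨s2, a2, b2⟩ := fac hBAS (-la g) (-lb g) (η + (e + f + g)) (η + e + f)
    (by rw [chr_neg, chr_l]; linear_combination two g)
  obtain ⟨s3, a3, b3⟩ := fac hBAS (-la f) (-lb f) (η + (e + f + g)) (η + e + g)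
    (by rw [chr_neg, chr_l]; linear_combination two f)
  obtain ⟨s4, a4, b4⟩ := fac hBAS (la e) (lb e) (η + (e + f + g)) (η + f + g)
    (by rw [chr_l]; linear_combination two e)
  refine ⟨s0 * (s1 * s2 * s3 * s4), a0.mul (((a1.mul a2).mul a3).mul a4), fun τ x y u v => ?_⟩
  rw [tm, b0, b1, b2, b3, b4]
  push_cast
  ring

theorem sum_tm (hBAS : St_BAS) (hG : St_RIEMG) (e f g : Ch) : ∃ s : ℤ, Sn s ∧ ∀ τ ∈ H2,
    ∀ x y u v : V2,
    4 * (th e τ ((1 / 2 : ℂ) • (x + y + u + v)) * th f τ ((1 / 2 : ℂ) • (x + y - u - v)) *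
      th g τ ((1 / 2 : ℂ) • (x - y + u - v)) * th (e + f + g) τ ((1 / 2 : ℂ) • (x - y - u + v))) =
    s * ∑ η : Ch, tm e f g η τ x y u v := by
  obtain ⟨s, hs, h⟩ := hBAS.thz (la e + la f + la g) (lb e + lb f + lb g)
  refine ⟨s, hs, fun τ hτ x y u v => ?_⟩
  have k := hG τ hτ ((1 / 2 : ℂ) • iv (la e + la f + la g)) ((1 / 2 : ℂ) • iv (-la g))
    ((1 / 2 : ℂ) • iv (-la f)) ((1 / 2 : ℂ) • iv (la e))
    (x + (1 / 2 : ℂ) • iv (lb e + lb f + lb g)) (y + (1 / 2 : ℂ) • iv (-lb g))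
    (u + (1 / 2 : ℂ) • iv (-lb f)) (v + (1 / 2 : ℂ) • iv (lb e))
  have c : chr (la e + la f + la g) (lb e + lb f + lb g) = e + f + g := by
    rw [chr_add, chr_add, chr_l, chr_l, chr_l]
  have h' : ∀ z, thg τ ((1 / 2 : ℂ) • iv (la e + la f + la g))
      (z + (1 / 2 : ℂ) • iv (lb e + lb f + lb g)) = s * th (e + f + g) τ z := fun z => by
    have := h τ z
    rw [← c]
    exact this
  have p0 : (1 / 2 : ℂ) • iv (la e + la f + la g) + (1 / 2 : ℂ) • iv (-la g) +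
      (1 / 2 : ℂ) • iv (-la f) + (1 / 2 : ℂ) • iv (la e) = iv (la e) := by
    simp only [iv_add, iv_neg]; module
  have p1 : (1 / 2 : ℂ) • iv (la e) = ca e := (ca_eq e).symm
  have p2 : (1 / 2 : ℂ) • ((1 / 2 : ℂ) • iv (la e + la f + la g) + (1 / 2 : ℂ) • iv (-la g) -
      (1 / 2 : ℂ) • iv (-la f) - (1 / 2 : ℂ) • iv (la e)) = ca f := by
    simp only [iv_add, iv_neg, ca_eq]; module
  have p3 : (1 / 2 : ℂ) • ((1 / 2 : ℂ) • iv (la e + la f + la g) - (1 / 2 : ℂ) • iv (-la g) +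
      (1 / 2 : ℂ) • iv (-la f) - (1 / 2 : ℂ) • iv (la e)) = ca g := by
    simp only [iv_add, iv_neg, ca_eq]; module
  have p4 : (1 / 2 : ℂ) • ((1 / 2 : ℂ) • iv (la e + la f + la g) - (1 / 2 : ℂ) • iv (-la g) -
      (1 / 2 : ℂ) • iv (-la f) + (1 / 2 : ℂ) • iv (la e)) =
      (1 / 2 : ℂ) • iv (la e + la f + la g) := by
    simp only [iv_add, iv_neg]; module
  have q1 : (1 / 2 : ℂ) • (x + (1 / 2 : ℂ) • iv (lb e + lb f + lb g) +
      (y + (1 / 2 : ℂ) • iv (-lb g)) + (u + (1 / 2 : ℂ) • iv (-lb f)) +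
      (v + (1 / 2 : ℂ) • iv (lb e))) = (1 / 2 : ℂ) • (x + y + u + v) + cb e := by
    simp only [iv_add, iv_neg, cb_eq]; module
  have q2 : (1 / 2 : ℂ) • (x + (1 / 2 : ℂ) • iv (lb e + lb f + lb g) +
      (y + (1 / 2 : ℂ) • iv (-lb g)) - (u + (1 / 2 : ℂ) • iv (-lb f)) -
      (v + (1 / 2 : ℂ) • iv (lb e))) = (1 / 2 : ℂ) • (x + y - u - v) + cb f := by
    simp only [iv_add, iv_neg, cb_eq]; module
  have q3 : (1 / 2 : ℂ) • (x + (1 / 2 : ℂ) • iv (lb e + lb f + lb g) -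
      (y + (1 / 2 : ℂ) • iv (-lb g)) + (u + (1 / 2 : ℂ) • iv (-lb f)) -
      (v + (1 / 2 : ℂ) • iv (lb e))) = (1 / 2 : ℂ) • (x - y + u - v) + cb g := by
    simp only [iv_add, iv_neg, cb_eq]; module
  have q4 : (1 / 2 : ℂ) • (x + (1 / 2 : ℂ) • iv (lb e + lb f + lb g) -
      (y + (1 / 2 : ℂ) • iv (-lb g)) - (u + (1 / 2 : ℂ) • iv (-lb f)) +
      (v + (1 / 2 : ℂ) • iv (lb e))) =
      (1 / 2 : ℂ) • (x - y - u + v) + (1 / 2 : ℂ) • iv (lb e + lb f + lb g) := by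
    simp only [iv_add, iv_neg]; module
  rw [p0, p2, p3, p4, q1, q2, q3, q4, h'] at k
  have k' : 4 * (th e τ ((1 / 2 : ℂ) • (x + y + u + v)) * th f τ ((1 / 2 : ℂ) • (x + y - u - v)) *
      th g τ ((1 / 2 : ℂ) • (x - y + u - v)) *
      (s * th (e + f + g) τ ((1 / 2 : ℂ) • (x - y - u + v)))) =
      ∑ η : Ch, tm e f g η τ x y u v := by
    refine Eq.trans ?_ k
    rw [p1]
    rfl
  have ss : (s : ℂ) * s = 1 := by rcases hs with rfl | rfl <;> simp
  rw [← k']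
  linear_combination (-4 * (th e τ ((1 / 2 : ℂ) • (x + y + u + v)) *
    th f τ ((1 / 2 : ℂ) • (x + y - u - v)) * th g τ ((1 / 2 : ℂ) • (x - y + u - v)) *
    th (e + f + g) τ ((1 / 2 : ℂ) • (x - y - u + v)))) * ss

end XRIEM

theorem st_RIEM (hBAS : St_BAS) (hRIEMG : St_RIEMG) : St_RIEM := by
  choose s hs h using XRIEM.tm_eq hBAS
  choose t ht k using XRIEM.sum_tm hBAS hRIEMG
  refine ⟨fun e f g η => t e f g * s e f g η, fun e f g η => XRIEM.Sn.mul (ht e f g) (hs e f g η),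
    fun τ hτ e f g x y u v => ?_⟩
  rw [k e f g τ hτ, ← Equiv.sum_comp (Equiv.addRight (e + f + g)), Finset.mul_sum]
  refine Finset.sum_congr rfl fun η _ => ?_
  rw [Equiv.coe_addRight, h]
  push_cast
  ring

end Pool.Agent.Lib.ECM
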