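import Pool.Agent.Lib.ECM.THBlue

/-! Genus two theta functions: the general Riemann relation. -/

open Complex Filter Topology Metric
open scoped Real ComplexConjugate

noncomputable section

namespace Pool.Agent.Lib.ECM

namespace XRIEMG

/-- four integral vectors -/
abbrev N4 := (((ℤ × ℤ) × (ℤ × ℤ)) × (ℤ × ℤ)) × (ℤ × ℤ)

theorem prod4 {f₁ f₂ f₃ f₄ : ℤ × ℤ → ℂ} (h₁ : Summable fun n ↦ ‖f₁ n‖)
    (h₂ : Summable fun n ↦ ‖f₂ n‖) (h₃ : Summable fun n ↦ ‖f₃ n‖) (h₄ : Summable fun n ↦ ‖f₄ n‖) :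
    HasSum (fun n : N4 ↦ f₁ n.1.1.1 * f₂ n.1.1.2 * f₃ n.1.2 * f₄ n.2)
      ((∑' n, f₁ n) * (∑' n, f₂ n) * (∑' n, f₃ n) * ∑' n, f₄ n) := by
  have a := h₁.mul_norm h₂
  have b := a.mul_norm h₃
  have c := b.mul_norm h₄
  rw [tsum_mul_tsum_of_summable_norm h₁ h₂, tsum_mul_tsum_of_summable_norm a h₃,
    tsum_mul_tsum_of_summable_norm b h₄]
  exact c.of_norm.hasSum

theorem sum2 (f : ZMod 2 → ℂ) : ∑ b, f b = f 0 + f 1 := by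
  rw [show (Finset.univ : Finset (ZMod 2)) = {0, 1} by decide, Finset.sum_pair (by decide)]

theorem val1 : (1 : ZMod 2).val = 1 := rfl

theorem chr (s : ℤ) :
    ∑ b : ZMod 2, exp (π * I * ((b.val : ℂ) * s)) = if (2 : ℤ) ∣ s then 2 else 0 := by
  have e : exp (π * I * (s : ℂ)) = (-1) ^ s := by
    rw [mul_comm, exp_int_mul, exp_pi_mul_I]
  rw [sum2, ZMod.val_zero, val1, Nat.cast_zero, Nat.cast_one, zero_mul, mul_zero, exp_zero,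
    one_mul, e]
  split_ifs with h
  · rw [(even_iff_two_dvd.2 h).neg_one_zpow]; norm_num
  · rw [(Int.not_even_iff_odd.1 fun k ↦ h (even_iff_two_dvd.1 k)).neg_one_zpow]; norm_num

theorem par (s : ℤ) (x : ℂ) : ∑ a : ZMod 2, (if (2 : ℤ) ∣ s - a.val then x else 0) = x := by
  rw [sum2, ZMod.val_zero, val1]
  by_cases h : (2 : ℤ) ∣ s
  · rw [if_pos (by omega), if_neg (by omega), add_zero]
  · rw [if_neg (by omega), if_pos (by omega), zero_add]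

theorem reidx (F : N4 → ℂ) (i : N4 → N4) (hi : Function.Injective i) (P : N4 → Prop)
    [DecidablePred P] (h1 : ∀ k, P (i k)) (h2 : ∀ n, P n → ∃ k, i k = n) :
    ∑' n, (if P n then F n else 0) = ∑' k, F (i k) := by
  rw [← hi.tsum_eq (f := fun n ↦ if P n then F n else 0) fun n hn ↦
    h2 n (by by_contra h; exact hn (if_neg h))]
  exact tsum_congr fun k ↦ if_pos (h1 k)

/-- the sum of the four vectors -/
def sm (n : N4) : ℤ × ℤ := n.1.1.1 + n.1.1.2 + n.1.2 + n.2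

/-- a parametrisation of the quadruples with even sum -/
def uu (k : N4) : N4 :=
  (((k.1.1.1, k.1.1.2), k.1.2), k.2 + k.2 - k.1.1.1 - k.1.1.2 - k.1.2)

/-- a parametrisation of the quadruples whose sum has the parity of `α` -/
def vv (α : ℤ × ℤ) (k : N4) : N4 :=
  (((k.2 + α, k.1.1.1 + k.1.1.2 - k.2), k.1.1.1 + k.1.2 - k.2), k.2 - k.1.1.2 - k.1.2)

theorem uu_inj : Function.Injective uu := by
  rintro ⟨⟨⟨⟨a, a'⟩, b, b'⟩, c, c'⟩, d, d'⟩ ⟨⟨⟨⟨e, e'⟩, f, f'⟩, g, g'⟩, h, h'⟩ k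
  simp only [uu, Prod.mk_add_mk, Prod.mk_sub_mk, Prod.mk.injEq] at k ⊢
  omega

theorem vv_inj (α : ℤ × ℤ) : Function.Injective (vv α) := by
  obtain ⟨x, y⟩ := α
  rintro ⟨⟨⟨⟨a, a'⟩, b, b'⟩, c, c'⟩, d, d'⟩ ⟨⟨⟨⟨e, e'⟩, f, f'⟩, g, g'⟩, h, h'⟩ k
  simp only [vv, Prod.mk_add_mk, Prod.mk_sub_mk, Prod.mk.injEq] at k ⊢
  omega

theorem sum_uu (F : N4 → ℂ) (α : ℤ × ℤ) :
    ∑' m, (if (2 : ℤ) ∣ (sm m).1 + 2 * α.1 ∧ (2 : ℤ) ∣ (sm m).2 + 2 * α.2 then F m else 0) =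
      ∑' k, F (uu k) := by
  refine reidx F uu uu_inj _ ?_ ?_
  · rintro ⟨⟨⟨⟨a, a'⟩, b, b'⟩, c, c'⟩, d, d'⟩
    simp only [uu, sm, Prod.mk_add_mk, Prod.mk_sub_mk]
    omega
  · rintro ⟨⟨⟨⟨a, a'⟩, b, b'⟩, c, c'⟩, d, d'⟩ h
    simp only [sm, Prod.mk_add_mk] at h
    refine ⟨((((a, a'), b, b'), c, c'), (a + b + c + d) / 2, (a' + b' + c' + d') / 2), ?_⟩
    simp only [uu, Prod.mk_add_mk, Prod.mk_sub_mk, Prod.mk.injEq, true_and]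
    omega

theorem sum_vv (F : N4 → ℂ) (α : ℤ × ℤ) :
    ∑' n, (if (2 : ℤ) ∣ (sm n).1 - α.1 ∧ (2 : ℤ) ∣ (sm n).2 - α.2 then F n else 0) =
      ∑' k, F (vv α k) := by
  obtain ⟨x, y⟩ := α
  refine reidx F (vv (x, y)) (vv_inj _) _ ?_ ?_
  · rintro ⟨⟨⟨⟨a, a'⟩, b, b'⟩, c, c'⟩, d, d'⟩
    simp only [vv, sm, Prod.mk_add_mk, Prod.mk_sub_mk]
    omega
  · rintro ⟨⟨⟨⟨a, a'⟩, b, b'⟩, c, c'⟩, d, d'⟩ h
    simp only [sm, Prod.mk_add_mk] at h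
    refine ⟨(((((a + b + c + d - x) / 2, (a' + b' + c' + d' - y) / 2),
      (a + b - c - d - x) / 2, (a' + b' - c' - d' - y) / 2),
      (a - b + c - d - x) / 2, (a' - b' + c' - d' - y) / 2), a - x, a' - y), ?_⟩
    simp only [vv, Prod.mk_add_mk, Prod.mk_sub_mk, Prod.mk.injEq]
    omega

theorem tinv (τ : T3) (p₁ p₂ p₃ p₄ w₁ w₂ w₃ w₄ : V2) :
    term τ ((1 / 2 : ℂ) • (p₁ + p₂ + p₃ + p₄)) ((1 / 2 : ℂ) • (w₁ + w₂ + w₃ + w₄)) *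
      term τ ((1 / 2 : ℂ) • (p₁ + p₂ - p₃ - p₄)) ((1 / 2 : ℂ) • (w₁ + w₂ - w₃ - w₄)) *
      term τ ((1 / 2 : ℂ) • (p₁ - p₂ + p₃ - p₄)) ((1 / 2 : ℂ) • (w₁ - w₂ + w₃ - w₄)) *
      term τ ((1 / 2 : ℂ) • (p₁ - p₂ - p₃ + p₄)) ((1 / 2 : ℂ) • (w₁ - w₂ - w₃ + w₄)) =
    term τ p₁ w₁ * term τ p₂ w₂ * term τ p₃ w₃ * term τ p₄ w₄ := by
  simp only [term, ← Complex.exp_add]
  congr 1
  simp only [Qf, dot, Pi.smul_apply, Pi.add_apply, Pi.sub_apply, smul_eq_mul]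
  ring

/-- the product of four terms -/
def pr (τ : T3) (a₁ a₂ a₃ a₄ w₁ w₂ w₃ w₄ : V2) (n : N4) : ℂ :=
  term τ (iv n.1.1.1 + a₁) w₁ * term τ (iv n.1.1.2 + a₂) w₂ * term τ (iv n.1.2 + a₃) w₃ *
    term τ (iv n.2 + a₄) w₄

theorem hs (hBAS : St_BAS) {τ : T3} (hτ : τ ∈ H2) (a₁ a₂ a₃ a₄ w₁ w₂ w₃ w₄ : V2) :
    HasSum (pr τ a₁ a₂ a₃ a₄ w₁ w₂ w₃ w₄)
      (thg τ a₁ w₁ * thg τ a₂ w₂ * thg τ a₃ w₃ * thg τ a₄ w₄) := by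
  have h := prod4 (hBAS.summ τ hτ a₁ w₁) (hBAS.summ τ hτ a₂ w₂) (hBAS.summ τ hτ a₃ w₃)
    (hBAS.summ τ hτ a₄ w₄)
  unfold pr thg
  exact h

theorem phase (τ : T3) (a₁ a₂ a₃ a₄ w₁ w₂ w₃ w₄ : V2) (x y b c : ZMod 2) (m : N4) :
    exp (-2 * π * I * dot (cb (x, y, b, c)) (a₁ + a₂ + a₃ + a₄)) *
      pr τ (a₁ + ca (x, y, b, c)) (a₂ + ca (x, y, b, c)) (a₃ + ca (x, y, b, c))
        (a₄ + ca (x, y, b, c)) (w₁ + cb (x, y, b, c)) (w₂ + cb (x, y, b, c))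
        (w₃ + cb (x, y, b, c)) (w₄ + cb (x, y, b, c)) m =
    exp (π * I * ((b.val : ℂ) * ((sm m).1 + 2 * (x.val : ℤ) : ℤ))) *
      exp (π * I * ((c.val : ℂ) * ((sm m).2 + 2 * (y.val : ℤ) : ℤ))) *
      pr τ (a₁ + ca (x, y, 0, 0)) (a₂ + ca (x, y, 0, 0)) (a₃ + ca (x, y, 0, 0))
        (a₄ + ca (x, y, 0, 0)) w₁ w₂ w₃ w₄ m := by
  have e : ca (x, y, 0, 0) = ca (x, y, b, c) := rfl
  simp only [e, pr, term, ← Complex.exp_add]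
  congr 1
  simp only [dot, Pi.add_apply, iv, ca, cb, sm, Matrix.cons_val_zero, Matrix.cons_val_one,
    Prod.fst_add, Prod.snd_add, Int.cast_add, Int.cast_mul, Int.cast_natCast, Int.cast_ofNat]
  ring

theorem fg (τ : T3) (a₁ a₂ a₃ a₄ w₁ w₂ w₃ w₄ : V2) (x y : ZMod 2) (k : N4) :
    pr τ ((1 / 2 : ℂ) • (a₁ + a₂ + a₃ + a₄)) ((1 / 2 : ℂ) • (a₁ + a₂ - a₃ - a₄))
      ((1 / 2 : ℂ) • (a₁ - a₂ + a₃ - a₄)) ((1 / 2 : ℂ) • (a₁ - a₂ - a₃ + a₄))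
      ((1 / 2 : ℂ) • (w₁ + w₂ + w₃ + w₄)) ((1 / 2 : ℂ) • (w₁ + w₂ - w₃ - w₄))
      ((1 / 2 : ℂ) • (w₁ - w₂ + w₃ - w₄)) ((1 / 2 : ℂ) • (w₁ - w₂ - w₃ + w₄))
      (vv (x.val, y.val) k) =
    pr τ (a₁ + ca (x, y, 0, 0)) (a₂ + ca (x, y, 0, 0)) (a₃ + ca (x, y, 0, 0))
      (a₄ + ca (x, y, 0, 0)) w₁ w₂ w₃ w₄ (uu k) := by
  unfold pr
  rw [← tinv τ _ _ _ _ w₁ w₂ w₃ w₄]
  have e : ∀ {p p' q q' r r' s s' : V2} (w x y z : V2), p = p' → q = q' → r = r' → s = s' →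
      term τ p w * term τ q x * term τ r y * term τ s z =
        term τ p' w * term τ q' x * term τ r' y * term τ s' z := by
    intro p p' q q' r r' s s' w x y z h1 h2 h3 h4
    rw [h1, h2, h3, h4]
  refine e _ _ _ _ ?_ ?_ ?_ ?_ <;> funext i <;> fin_cases i <;>
    simp [iv, ca, uu, vv, Matrix.vecHead, Matrix.vecTail, -ZMod.natCast_val] <;> ring

theorem split {F : N4 → ℂ} (hF : Summable F) :
    ∑' n, F n = ∑ x : ZMod 2, ∑ y : ZMod 2, ∑' k, F (vv (x.val, y.val) k) := by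
  have s1 : ∀ x y : ZMod 2, HasSum (fun n ↦ if (2 : ℤ) ∣ (sm n).1 - x.val ∧
      (2 : ℤ) ∣ (sm n).2 - y.val then F n else 0) (∑' k, F (vv (x.val, y.val) k)) := by
    intro x y
    rw [← sum_vv F (x.val, y.val)]
    refine (hF.norm.of_norm_bounded fun n ↦ ?_).hasSum
    split_ifs <;> simp
  have s2 := hasSum_sum (s := Finset.univ) fun x _ ↦
    hasSum_sum (s := Finset.univ) fun y _ ↦ s1 x y
  rw [← s2.tsum_eq]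
  refine tsum_congr fun n ↦ ?_
  simp only [ite_and]
  refine (par (sm n).1 (F n)).symm.trans (Finset.sum_congr rfl fun x _ ↦ ?_)
  split_ifs
  · exact (par _ _).symm
  · simp

theorem even {G : N4 → ℂ} {s : ZMod 2 → ZMod 2 → ℂ} (α : ℤ × ℤ)
    (h : ∀ b c : ZMod 2, HasSum (fun m ↦
      exp (π * I * ((b.val : ℂ) * ((sm m).1 + 2 * α.1 : ℤ))) *
        exp (π * I * ((c.val : ℂ) * ((sm m).2 + 2 * α.2 : ℤ))) * G m) (s b c)) :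
    ∑ b, ∑ c, s b c = 4 * ∑' k, G (uu k) := by
  have s2 := hasSum_sum (s := Finset.univ) fun b _ ↦
    hasSum_sum (s := Finset.univ) fun c _ ↦ h b c
  rw [← sum_uu G α, ← tsum_mul_left, ← s2.tsum_eq]
  refine tsum_congr fun m ↦ ?_
  simp only [← Finset.sum_mul, ← Finset.mul_sum, chr, ite_and]
  split_ifs <;> ring

end XRIEMG

open XRIEMG in
theorem st_RIEMG (hBAS : St_BAS) : St_RIEMG := by
  intro τ hτ a₁ a₂ a₃ a₄ w₁ w₂ w₃ w₄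
  have hL := hs hBAS hτ ((1 / 2 : ℂ) • (a₁ + a₂ + a₃ + a₄)) ((1 / 2 : ℂ) • (a₁ + a₂ - a₃ - a₄))
    ((1 / 2 : ℂ) • (a₁ - a₂ + a₃ - a₄)) ((1 / 2 : ℂ) • (a₁ - a₂ - a₃ + a₄))
    ((1 / 2 : ℂ) • (w₁ + w₂ + w₃ + w₄)) ((1 / 2 : ℂ) • (w₁ + w₂ - w₃ - w₄))
    ((1 / 2 : ℂ) • (w₁ - w₂ + w₃ - w₄)) ((1 / 2 : ℂ) • (w₁ - w₂ - w₃ + w₄))
  rw [← hL.tsum_eq, split hL.summable, Fintype.sum_prod_type, Finset.mul_sum]
  refine Finset.sum_congr rfl fun x _ ↦ ?_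
  rw [Fintype.sum_prod_type, Finset.mul_sum]
  refine Finset.sum_congr rfl fun y _ ↦ ?_
  rw [Fintype.sum_prod_type, tsum_congr (fg τ a₁ a₂ a₃ a₄ w₁ w₂ w₃ w₄ x y)]
  refine (even (x.val, y.val) fun b c ↦ ?_).symm
  have h := (hs hBAS hτ (a₁ + ca (x, y, b, c)) (a₂ + ca (x, y, b, c)) (a₃ + ca (x, y, b, c))
    (a₄ + ca (x, y, b, c)) (w₁ + cb (x, y, b, c)) (w₂ + cb (x, y, b, c))
    (w₃ + cb (x, y, b, c)) (w₄ + cb (x, y, b, c))).mul_left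
      (exp (-2 * π * I * dot (cb (x, y, b, c)) (a₁ + a₂ + a₃ + a₄)))
  simp only [phase] at h
  exact h

end Pool.Agent.Lib.ECM
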