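import Pool.Agent.Lib.ECM.THBlue

/-! Genus two theta functions: monomial series are continuously differentiable. -/

open Complex Filter Topology Metric
open scoped Real ComplexConjugate

noncomputable section

namespace Pool.Agent.Lib.ECM

namespace XSER

open ContinuousLinearMap in
/-- the derivative of a monomial -/
def dm (e : Fin 3 → ℕ) (x : T3) : T3 →L[ℂ] ℂ :=
  ((e 0 : ℂ) * x 0 ^ (e 0 - 1) * x 1 ^ e 1 * x 2 ^ e 2) • proj 0 +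
    (x 0 ^ e 0 * ((e 1 : ℂ) * x 1 ^ (e 1 - 1)) * x 2 ^ e 2) • proj 1 +
      (x 0 ^ e 0 * x 1 ^ e 1 * ((e 2 : ℂ) * x 2 ^ (e 2 - 1))) • proj 2

theorem dm_apply (e : Fin 3 → ℕ) (x v : T3) : dm e x v =
    (e 0 : ℂ) * x 0 ^ (e 0 - 1) * x 1 ^ e 1 * x 2 ^ e 2 * v 0 +
      x 0 ^ e 0 * ((e 1 : ℂ) * x 1 ^ (e 1 - 1)) * x 2 ^ e 2 * v 1 +
        x 0 ^ e 0 * x 1 ^ e 1 * ((e 2 : ℂ) * x 2 ^ (e 2 - 1)) * v 2 := rfl

theorem mon_der (e : Fin 3 → ℕ) (x : T3) : HasFDerivAt (mon e) (dm e x) x := by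
  have h := (((hasFDerivAt_apply (𝕜 := ℂ) 0 x).pow (e 0)).mul
    ((hasFDerivAt_apply (𝕜 := ℂ) 1 x).pow (e 1))).mul ((hasFDerivAt_apply (𝕜 := ℂ) 2 x).pow (e 2))
  refine HasFDerivAt.congr_fderiv h (ContinuousLinearMap.ext fun v ↦ ?_)
  rw [dm_apply]
  simp
  ring

theorem dm_cont (e : Fin 3 → ℕ) : Continuous (dm e) := by
  unfold dm
  fun_prop

theorem pw (k : ℕ) (z : ℂ) : (k : ℂ) * z ^ (k - 1) * z = k * z ^ k := by
  cases k with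
  | zero => simp
  | succ k => rw [Nat.add_sub_cancel, mul_assoc, ← pow_succ]

theorem dm_eul (e : Fin 3 → ℕ) (x δ : T3) : dm e x (fun i ↦ x i * δ i) =
    ((e 0 : ℂ) * δ 0 + e 1 * δ 1 + e 2 * δ 2) * mon e x := by
  rw [dm_apply, mon]
  linear_combination (x 1 ^ e 1 * x 2 ^ e 2 * δ 0) * pw (e 0) (x 0) +
    (x 0 ^ e 0 * x 2 ^ e 2 * δ 1) * pw (e 1) (x 1) + (x 0 ^ e 0 * x 1 ^ e 1 * δ 2) * pw (e 2) (x 2)

theorem nb1 {z : ℂ} {R ε : ℝ} (hε : 0 < ε) (h : ‖z‖ + ε ≤ R) (k : ℕ) : ‖z ^ k‖ ≤ R ^ k := by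
  rw [norm_pow]
  exact pow_le_pow_left₀ (norm_nonneg _) (by linarith) k

theorem nb2 {z : ℂ} {R ε : ℝ} (hε : 0 < ε) (h : ‖z‖ + ε ≤ R) (k : ℕ) :
    ‖(k : ℂ) * z ^ (k - 1)‖ ≤ R ^ k / ε := by
  have h0 := norm_nonneg z
  have h1 := pow_add_mul_le_add_pow h0 (show 0 ≤ 2 * ‖z‖ + ε by positivity) k
  have h2 : (‖z‖ + ε) ^ k ≤ R ^ k := pow_le_pow_left₀ (by positivity) h k
  have h3 : 0 ≤ ‖z‖ ^ k := by positivity
  rw [norm_mul, norm_pow, Complex.norm_natCast, le_div_iff₀ hε]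
  linarith

theorem dm_le (e : Fin 3 → ℕ) {x : T3} {R : Fin 3 → ℝ} {ε : ℝ} (hε : 0 < ε)
    (h : ∀ i, ‖x i‖ + ε ≤ R i) : ‖dm e x‖ ≤ 3 / ε * (R 0 ^ e 0 * R 1 ^ e 1 * R 2 ^ e 2) := by
  have hR : ∀ i, 0 ≤ R i := fun i ↦ le_trans (by positivity) (h i)
  have r0 := hR 0
  have r1 := hR 1
  have r2 := hR 2
  refine ContinuousLinearMap.opNorm_le_bound _ (by positivity) fun v ↦ ?_
  have a := fun i ↦ nb1 hε (h i) (e i)
  have b := fun i ↦ nb2 hε (h i) (e i)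
  have w := fun i ↦ norm_le_pi_norm v i
  rw [dm_apply]
  refine (norm_add₃_le).trans ?_
  rw [norm_mul _ (v 0), norm_mul _ (v 1), norm_mul _ (v 2), norm_mul _ (x 2 ^ e 2),
    norm_mul _ (x 2 ^ e 2), norm_mul _ (x 1 ^ e 1), norm_mul (x 0 ^ e 0), norm_mul (_ * _),
    norm_mul (x 0 ^ e 0)]
  calc _ ≤ R 0 ^ e 0 / ε * R 1 ^ e 1 * R 2 ^ e 2 * ‖v‖ +
        R 0 ^ e 0 * (R 1 ^ e 1 / ε) * R 2 ^ e 2 * ‖v‖ +
          R 0 ^ e 0 * R 1 ^ e 1 * (R 2 ^ e 2 / ε) * ‖v‖ := by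
        gcongr <;> first | exact a _ | exact b _ | exact w _
    _ = _ := by ring

theorem room {x : T3} (hx : x ∈ Om) : ∃ ε : ℝ, 0 < ε ∧ (∀ i, ‖x i‖ + 2 * ε < 11 / 10) ∧
    (‖x 0‖ + 2 * ε) * (‖x 1‖ + 2 * ε) < 13 / 25 := by
  have h1 : ∀ᶠ ε : ℝ in 𝓝 0, ∀ i, ‖x i‖ + 2 * ε < 11 / 10 := eventually_all.2 fun i ↦
    ContinuousAt.eventually_lt (by fun_prop) (by fun_prop) (by simpa using hx.1 i)
  have h2 : ∀ᶠ ε : ℝ in 𝓝 0, (‖x 0‖ + 2 * ε) * (‖x 1‖ + 2 * ε) < 13 / 25 :=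
    ContinuousAt.eventually_lt (by fun_prop) (by fun_prop) (by simpa using hx.2)
  have h3 : ∀ᶠ ε : ℝ in 𝓝[>] 0, 0 < ε := self_mem_nhdsWithin
  exact (h3.and ((h1.and h2).filter_mono nhdsWithin_le_nhds)).exists

end XSER

open XSER in
theorem st_SER : St_SER := by
  intro c e hc hs
  have key : ∀ x ∈ Om, (Summable fun n ↦ c n • dm (e n) x) ∧ ∃ ε > 0,
      ContinuousOn (fun y ↦ ∑' n, c n • dm (e n) y) (ball x ε) ∧ ∀ y ∈ ball x ε,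
        HasFDerivAt (fun y ↦ ∑' n, c n * mon (e n) y) (∑' n, c n • dm (e n) y) y := by
    intro x hx
    obtain ⟨ε, hε, h1, h2⟩ := room hx
    have hu := hs (fun i ↦ ‖x i‖ + 2 * ε) (fun i ↦ ⟨by positivity, h1 i⟩) h2
    have hb : ∀ y ∈ ball x ε, ∀ i, ‖y i‖ + ε ≤ ‖x i‖ + 2 * ε := fun y hy i ↦ by
      have a := norm_le_pi_norm (y - x) i
      have b := norm_sub_norm_le (y i) (x i)
      rw [mem_ball_iff_norm] at hy
      rw [Pi.sub_apply] at a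
      linarith
    have hd : ∀ n, ∀ y ∈ ball x ε, ‖c n • dm (e n) y‖ ≤ 3 / ε *
        ((‖x 0‖ + 2 * ε) ^ e n 0 * (‖x 1‖ + 2 * ε) ^ e n 1 * (‖x 2‖ + 2 * ε) ^ e n 2) :=
      fun n y hy ↦ by
        rw [norm_smul]
        exact (mul_le_of_le_one_left (norm_nonneg _) (hc n)).trans (dm_le (e n) hε (hb y hy))
    have h0 : Summable fun n ↦ c n * mon (e n) x := by
      refine Summable.of_norm_bounded hu fun n ↦ ?_
      have a := fun i ↦ nb1 hε (hb x (mem_ball_self hε) i) (e n i)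
      rw [norm_mul]
      refine (mul_le_of_le_one_left (norm_nonneg _) (hc n)).trans ?_
      rw [mon, norm_mul, norm_mul]
      gcongr <;> exact a _
    refine ⟨Summable.of_norm_bounded (hu.mul_left _) fun n ↦ hd n x (mem_ball_self hε), ε, hε,
      continuousOn_tsum (fun n ↦ ((dm_cont (e n)).const_smul (c n)).continuousOn) (hu.mul_left _) hd,
      fun y hy ↦ ?_⟩
    exact hasFDerivAt_tsum_of_isPreconnected (hu.mul_left _) isOpen_ball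
      (convex_ball x ε).isPreconnected (fun n y _ ↦ (mon_der (e n) y).const_mul (c n)) hd
      (mem_ball_self hε) h0 hy
  refine ⟨fun x hx ↦ ?_, fun x hx δ ↦ ?_⟩
  · obtain ⟨-, ε, hε, h1, h2⟩ := key x hx
    exact (contDiffAt_one_iff.2 ⟨_, _, ball_mem_nhds x hε, h1, h2⟩).contDiffWithinAt
  · obtain ⟨h0, ε, hε, -, h2⟩ := key x hx
    rw [(h2 x (mem_ball_self hε)).fderiv]
    have h := h0.hasSum.mapL (ContinuousLinearMap.apply ℂ ℂ fun i ↦ x i * δ i)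
    simp only [ContinuousLinearMap.apply_apply, smul_apply, dm_eul, smul_eq_mul] at h
    simpa only [mul_left_comm (c _)] using h

end Pool.Agent.Lib.ECM
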