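import Pool.Agent.Lib.ECM.THBlue

/-! Genus two theta functions: the partial series over `P / 2 + 2 ℤ²` as a sum of four theta
functions. -/

open Complex
open scoped Real

noncomputable section

namespace Pool.Agent.Lib.ECM

namespace XSPLIT

theorem val_cast (k : ℤ) : (((k : ZMod 2).val : ℕ) : ℂ) = (k : ℂ) - 2 * ((k / 2 : ℤ) : ℂ) := by
  have h1 : (((k : ZMod 2).val : ℕ) : ℤ) = k % ((2 : ℕ) : ℤ) := ZMod.val_intCast k
  have h2 : (((k : ZMod 2).val : ℕ) : ℤ) = k - 2 * (k / 2) := by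
    rw [h1]; push_cast; omega
  exact_mod_cast congrArg (fun x : ℤ ↦ (x : ℂ)) h2

theorem ca_eq (P : ℤ × ℤ) (b : ZMod 2 × ZMod 2) :
    ca (chP P b) = (1 / 2 : ℂ) • iv P + iv (-(P.1 / 2), -(P.2 / 2)) := by
  funext i
  fin_cases i
  · simp only [ca, chP, iv, val_cast]
    simp
    ring
  · simp only [ca, chP, iv, val_cast]
    simp
    ring

/-- the character `exp (π i k c)` -/
def ch (k : ℤ) (c : ZMod 2) : ℂ := exp (π * I * (k * (c.val : ℂ)))

theorem sum_ch (k : ℤ) : ∑ c : ZMod 2, ch k c = if Even k then 2 else 0 := by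
  have hu : (Finset.univ : Finset (ZMod 2)) = {0, 1} := by decide
  have h01 : (0 : ZMod 2) ≠ 1 := by decide
  have hv : (1 : ZMod 2).val = 1 := by decide
  rw [hu, Finset.sum_pair h01]
  have e0 : ch k 0 = 1 := by simp [ch]
  have e1 : ch k 1 = (-1) ^ k := by
    unfold ch
    rw [hv, ← exp_pi_mul_I, ← exp_int_mul]
    congr 1
    push_cast
    ring
  rw [e0, e1]
  split_ifs with h
  · rw [h.neg_one_zpow]; norm_num
  · rw [(Int.not_even_iff_odd.mp h).neg_one_zpow]; norm_num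

theorem term_eq (τ : T3) (P n : ℤ × ℤ) (b : ZMod 2 × ZMod 2) (z : V2) :
    cfP P b * term τ (iv n + (1 / 2 : ℂ) • iv P) (z + cb (chP P b)) =
      ch n.1 b.1 * ch n.2 b.2 * term τ (iv n + (1 / 2 : ℂ) • iv P) z := by
  unfold cfP term ch
  rw [← exp_add, ← exp_add, ← exp_add]
  congr 1
  simp [dot, iv, cb, chP]
  ring

theorem sum_b (n : ℤ × ℤ) : ∑ b : ZMod 2 × ZMod 2, ch n.1 b.1 * ch n.2 b.2 =
    if Even n.1 ∧ Even n.2 then 4 else 0 := by
  rw [Fintype.sum_prod_type, ← Finset.sum_mul_sum, sum_ch, sum_ch]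
  by_cases h1 : Even n.1 <;> by_cases h2 : Even n.2 <;> simp [h1, h2]
  norm_num

/-- doubling -/
def dbl (n : ℤ × ℤ) : ℤ × ℤ := (2 * n.1, 2 * n.2)

theorem dbl_inj : Function.Injective dbl := by
  intro a b h
  simp only [dbl, Prod.mk.injEq] at h
  exact Prod.ext (by omega) (by omega)

theorem iv_dbl (n : ℤ × ℤ) : iv (dbl n) = (2 : ℂ) • iv n := by
  funext i
  fin_cases i <;> simp [iv, dbl]

end XSPLIT

open XSPLIT in
theorem st_SPLIT (hBAS : St_BAS) : St_SPLIT := by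
  intro τ hτ P z
  have hs : ∀ b : ZMod 2 × ZMod 2, HasSum
      (fun n : ℤ × ℤ ↦ ch n.1 b.1 * ch n.2 b.2 * term τ (iv n + (1 / 2 : ℂ) • iv P) z)
      (cfP P b * th (chP P b) τ z) := by
    intro b
    have h1 : th (chP P b) τ z = thg τ ((1 / 2 : ℂ) • iv P) (z + cb (chP P b)) := by
      unfold th
      rw [ca_eq, hBAS.shift_a]
    have h2 := ((hBAS.summ τ hτ ((1 / 2 : ℂ) • iv P) (z + cb (chP P b))).of_norm.hasSum).mul_left
      (cfP P b)
    simp only [term_eq] at h2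
    rw [h1]
    exact h2
  have ht := hasSum_sum (s := Finset.univ) fun b _ ↦ hs b
  simp only [← Finset.sum_mul, sum_b] at ht
  rw [← ht.tsum_eq, ← dbl_inj.tsum_eq]
  · unfold fp
    rw [← tsum_mul_left]
    refine tsum_congr fun n ↦ ?_
    rw [iv_dbl, if_pos]
    exact ⟨even_two_mul _, even_two_mul _⟩
  · intro n hn
    by_cases h : Even n.1 ∧ Even n.2
    · obtain ⟨⟨a, ha⟩, ⟨b, hb⟩⟩ := h
      exact ⟨(a, b), Prod.ext (by simp only [dbl]; omega) (by simp only [dbl]; omega)⟩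
    · exact absurd (by simp only [if_neg h, zero_mul]) hn

end Pool.Agent.Lib.ECM
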