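import Pool.Agent.Lib.ECM.THBlue

/-! Genus two theta functions: the partial inversion. -/

open Complex
open scoped Real ComplexConjugate

noncomputable section

namespace Pool.Agent.Lib.ECM

namespace XSYMJ

def act (τ : T3) : T3 := ![-1 / τ 0, τ 1 / τ 0, τ 2 - τ 1 ^ 2 / τ 0]

def inv (τ : T3) : T3 := ![-1 / τ 0, -τ 1 / τ 0, τ 2 - τ 1 ^ 2 / τ 0]

def M (τ : T3) : V2 →ₗ[ℂ] V2 where
  toFun z := ![z 0 / τ 0, z 1 - τ 1 * z 0 / τ 0]
  map_add' x y := by funext i; fin_cases i <;> simp <;> ring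
  map_smul' c x := by funext i; fin_cases i <;> simp <;> ring

theorem M_apply (τ : T3) (z : V2) : M τ z = ![z 0 / τ 0, z 1 - τ 1 * z 0 / τ 0] := rfl

def A : Ch ≃+ Ch where
  toFun m := (m.2.2.1, m.2.1, m.1, m.2.2.2)
  invFun m := (m.2.2.1, m.2.1, m.1, m.2.2.2)
  left_inv _ := rfl
  right_inv _ := rfl
  map_add' _ _ := rfl

theorem ne0 {τ : T3} (h : τ ∈ H2) : τ 0 ≠ 0 := fun e ↦ by
  have := h.1
  simp [e] at this

theorem nsq {τ : T3} (h : τ ∈ H2) : 0 < (τ 0).re ^ 2 + (τ 0).im ^ 2 := by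
  have := h.1
  positivity

theorem im0 (τ : T3) : (act τ 0).im = (τ 0).im / ((τ 0).re ^ 2 + (τ 0).im ^ 2) := by
  simp [act, div_im, normSq_apply, sq]
  ring

theorem im1 (τ : T3) : (act τ 1).im =
    ((τ 1).im * (τ 0).re - (τ 1).re * (τ 0).im) / ((τ 0).re ^ 2 + (τ 0).im ^ 2) := by
  simp [act, div_im, normSq_apply, sq]
  ring

theorem im2 (τ : T3) : (act τ 2).im = (τ 2).im -
    (2 * (τ 1).re * (τ 1).im * (τ 0).re - ((τ 1).re ^ 2 - (τ 1).im ^ 2) * (τ 0).im) /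
      ((τ 0).re ^ 2 + (τ 0).im ^ 2) := by
  simp [act, div_im, normSq_apply, sq]
  ring

theorem dY_act {τ : T3} (h : τ ∈ H2) : dY (act τ) = dY τ / ((τ 0).re ^ 2 + (τ 0).im ^ 2) := by
  have := (nsq h).ne'
  rw [dY, dY, im0, im1, im2]
  field_simp
  ring

theorem act_mem {τ : T3} (h : τ ∈ H2) : act τ ∈ H2 := by
  have h1 : 0 < dY (act τ) := by
    rw [dY_act h]
    exact div_pos (sub_pos.2 h.2) (nsq h)
  exact ⟨by rw [im0]; exact div_pos h.1 (nsq h), sub_pos.1 h1⟩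

theorem inv_mem {τ : T3} (h : τ ∈ H2) : inv τ ∈ H2 := by
  have h1 := act_mem h
  have e : inv τ 1 = -act τ 1 := by simp [inv, act, neg_div]
  refine ⟨h1.1, ?_⟩
  rw [e, neg_im, neg_sq]
  exact h1.2

theorem act_inv {τ : T3} (h : τ ∈ H2) : act (inv τ) = τ := by
  have := ne0 h
  funext i
  fin_cases i <;> simp [act, inv] <;> field_simp <;> ring

theorem inv_diff : DifferentiableOn ℂ inv H2 := by
  refine differentiableOn_pi.2 fun i τ h ↦ DifferentiableAt.differentiableWithinAt ?_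
  have := ne0 h
  fin_cases i <;> simp only [inv] <;> simp <;> fun_prop (disch := assumption)

theorem herm {τ : T3} (h : τ ∈ H2) (v : V2) : Hn (act τ) (M τ v) = Hn τ v := by
  have hN := (nsq h).ne'
  have hd : dY τ ≠ 0 := (sub_pos.2 h.2).ne'
  have r0 : (M τ v 0).re = ((v 0).re * (τ 0).re + (v 0).im * (τ 0).im) /
      ((τ 0).re ^ 2 + (τ 0).im ^ 2) := by
    simp [M_apply, div_re, normSq_apply, sq]; ring
  have i0 : (M τ v 0).im = ((v 0).im * (τ 0).re - (v 0).re * (τ 0).im) /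
      ((τ 0).re ^ 2 + (τ 0).im ^ 2) := by
    simp [M_apply, div_im, normSq_apply, sq]; ring
  have r1 : (M τ v 1).re = (v 1).re - ((((τ 1).re * (v 0).re - (τ 1).im * (v 0).im) * (τ 0).re +
      ((τ 1).re * (v 0).im + (τ 1).im * (v 0).re) * (τ 0).im)) /
      ((τ 0).re ^ 2 + (τ 0).im ^ 2) := by
    simp [M_apply, div_re, normSq_apply, sq]; ring
  have i1 : (M τ v 1).im = (v 1).im - ((((τ 1).re * (v 0).im + (τ 1).im * (v 0).re) * (τ 0).re -
      ((τ 1).re * (v 0).re - (τ 1).im * (v 0).im) * (τ 0).im)) /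
      ((τ 0).re ^ 2 + (τ 0).im ^ 2) := by
    simp [M_apply, div_im, normSq_apply, sq]; ring
  rw [Hn, Hn, dY_act h, im0, im1, im2]
  simp only [normSq_apply, mul_re, conj_re, conj_im, r0, i0, r1, i1]
  field_simp
  ring

theorem M_inj {τ : T3} (h : τ ∈ H2) : Function.Bijective (M τ) := by
  have := ne0 h
  refine Function.bijective_iff_has_inverse.2 ⟨fun z ↦ ![τ 0 * z 0, z 1 + τ 1 * z 0], ?_, ?_⟩
  · intro z
    funext i
    fin_cases i <;> simp [M_apply] <;> field_simp <;> ring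
  · intro z
    funext i
    fin_cases i <;> simp [M_apply] <;> field_simp <;> ring

theorem M_per {τ : T3} (h : τ ∈ H2) (m n : V2) :
    M τ (per τ m n) = per (act τ) ![n 0, m 1] ![-m 0, n 1] := by
  have := ne0 h
  funext i
  fin_cases i <;> simp [M_apply, per, act] <;> field_simp <;> ring

theorem lat {τ : T3} (h : τ ∈ H2) (z : V2) : M τ z ∈ Lat (act τ) ↔ z ∈ Lat τ := by
  constructor
  · rintro ⟨m, n, e⟩
    refine ⟨(-n.1, m.2), (m.1, n.2), (M_inj h).1 ?_⟩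
    rw [e, M_per h]
    congr 1 <;> funext i <;> fin_cases i <;> simp [iv]
  · rintro ⟨m, n, rfl⟩
    refine ⟨(n.1, m.2), (-m.1, n.2), ?_⟩
    rw [M_per h]
    congr 1 <;> funext i <;> fin_cases i <;> simp [iv]

open MvPolynomial in
theorem clear (F : MvPolynomial (Fin 3) ℂ) : ∃ (D : ℕ) (F' : MvPolynomial (Fin 3) ℂ),
    ∀ x : T3, x 0 ≠ 0 → eval x F' = x 0 ^ D * eval (act x) F := by
  induction F using MvPolynomial.induction_on with
  | C a => exact ⟨0, C a, fun x _ ↦ by simp⟩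
  | add p q hp hq =>
    obtain ⟨D, P, hP⟩ := hp
    obtain ⟨E, Q, hQ⟩ := hq
    refine ⟨D + E, X 0 ^ E * P + X 0 ^ D * Q, fun x hx ↦ ?_⟩
    simp only [map_add, map_mul, map_pow, eval_X, hP x hx, hQ x hx]
    ring
  | mul_X p i hp =>
    obtain ⟨D, P, hP⟩ := hp
    refine ⟨D + 1, P * (![-1, X 1, X 0 * X 2 - X 1 ^ 2] : Fin 3 → MvPolynomial (Fin 3) ℂ) i,
      fun x hx ↦ ?_⟩
    simp only [map_mul, eval_X, hP x hx]
    generalize eval (act x) p = y
    fin_cases i <;> simp [act] <;> field_simp <;> ring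

open MvPolynomial in
theorem zero_of {F : MvPolynomial (Fin 3) ℂ} (h : ∀ τ ∈ H2, eval τ F = 0) : F = 0 := by
  have hi : ∀ c : ℂ, (Set.range fun k : ℕ ↦ (k : ℂ) + c).Infinite := fun c ↦
    Set.infinite_range_of_injective fun a b e ↦ by simpa using e
  refine funext_set (fun i ↦ Set.range fun k : ℕ ↦ (k : ℂ) + (![I, 0, I] : T3) i)
    (fun i ↦ hi _) fun x hx ↦ ?_
  obtain ⟨k0, e0⟩ := hx 0 trivial
  obtain ⟨k1, e1⟩ := hx 1 trivial
  obtain ⟨k2, e2⟩ := hx 2 trivial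
  rw [map_zero]
  refine h x ⟨?_, ?_⟩
  · simp [← e0]
  · simp [← e0, ← e1, ← e2]

open MvPolynomial in
theorem pull (F : MvPolynomial (Fin 3) ℂ) (hF : F ≠ 0) : ∃ F' : MvPolynomial (Fin 3) ℂ, F' ≠ 0 ∧
    ∀ τ ∈ H2, eval (act τ) F = 0 → eval τ F' = 0 := by
  obtain ⟨D, F', h⟩ := clear F
  refine ⟨F', fun e ↦ hF (zero_of fun τ hτ ↦ ?_), fun τ hτ e ↦ by rw [h τ (ne0 hτ), e, mul_zero]⟩
  have h1 := h _ (ne0 (inv_mem hτ))
  rw [e, map_zero, act_inv hτ] at h1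
  exact (mul_eq_zero.1 h1.symm).resolve_left (pow_ne_zero _ (ne0 (inv_mem hτ)))

theorem iter (hB : St_BAS) {τ : T3} (h : τ ∈ H2) (z : V2) : thg τ 0 z =
    ∑' p : ℤ, exp (π * I * (τ 2 * p ^ 2 + 2 * p * z 1)) * jacobiTheta₂ (z 0 + τ 1 * p) (τ 0) := by
  have hs : Summable fun n : ℤ × ℤ ↦ term τ (iv n + 0) z := (hB.summ τ h 0 z).of_norm
  have hs' : Summable fun n : ℤ × ℤ ↦ term τ (iv (Equiv.prodComm ℤ ℤ n) + 0) z :=
    (Equiv.prodComm ℤ ℤ).summable_iff.2 hs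
  rw [thg, ← (Equiv.prodComm ℤ ℤ).tsum_eq, hs'.tsum_prod]
  refine tsum_congr fun p ↦ ?_
  rw [jacobiTheta₂, ← tsum_mul_left]
  refine tsum_congr fun n ↦ ?_
  rw [jacobiTheta₂_term, ← exp_add]
  simp only [term, Qf, dot, iv, add_zero, Equiv.prodComm_apply, Prod.swap_prod_mk,
    Matrix.cons_val_zero, Matrix.cons_val_one]
  congr 1
  ring

theorem base (hB : St_BAS) {τ : T3} (h : τ ∈ H2) (z : V2) : thg τ 0 z =
    1 / (-I * τ 0) ^ (1 / 2 : ℂ) * exp (-π * I * z 0 ^ 2 / τ 0) * thg (act τ) 0 (M τ z) := by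
  have := ne0 h
  rw [iter hB h, iter hB (act_mem h), ← tsum_mul_left]
  refine tsum_congr fun p ↦ ?_
  rw [jacobiTheta₂_functional_equation]
  have e1 : (z 0 + τ 1 * p) / τ 0 = M τ z 0 + act τ 1 * p := by
    simp [M_apply, act]; ring
  have e2 : -1 / τ 0 = act τ 0 := rfl
  have e3 : exp (π * I * (τ 2 * p ^ 2 + 2 * p * z 1)) * exp (-π * I * (z 0 + τ 1 * p) ^ 2 / τ 0) =
      exp (-π * I * z 0 ^ 2 / τ 0) * exp (π * I * (act τ 2 * p ^ 2 + 2 * p * M τ z 1)) := by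
    rw [← exp_add, ← exp_add]
    congr 1
    simp [M_apply, act]
    field_simp
    ring
  rw [e1, e2]
  linear_combination (1 / (-I * τ 0) ^ (1 / 2 : ℂ) *
    jacobiTheta₂ (M τ z 0 + act τ 1 * p) (act τ 0)) * e3

theorem gen (hB : St_BAS) {τ : T3} (h : τ ∈ H2) (a b z : V2) :
    thg (act τ) ![-b 0, a 1] (M τ z + ![a 0, b 1]) = (-I * τ 0) ^ (1 / 2 : ℂ) *
      exp (-2 * π * I * (a 0 * b 0)) * exp (π * I / τ 0 * z 0 ^ 2) * thg τ a (z + b) := by
  have h0 := ne0 h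
  have hc : (-I * τ 0) ^ (1 / 2 : ℂ) ≠ 0 := by
    rw [Ne, cpow_eq_zero_iff]
    simp [h0]
  have s1 := hB.shift_per τ 0 (z + b) a
  have s2 := hB.shift_per (act τ) 0 (M τ z + ![a 0, b 1]) ![-b 0, a 1]
  have e : M τ (z + b + per τ 0 a) = M τ z + ![a 0, b 1] + per (act τ) 0 ![-b 0, a 1] := by
    funext i
    fin_cases i <;> simp [M_apply, per, act, Matrix.vecHead, Matrix.vecTail] <;> field_simp <;> ring
  rw [base hB h, e, s2, zero_add, zero_add] at s1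
  have e3 : exp (-π * I * (z + b + per τ 0 a) 0 ^ 2 / τ 0) *
      exp (-π * I * (Qf (act τ) ![-b 0, a 1] + 2 * dot ![-b 0, a 1] (M τ z + ![a 0, b 1]))) *
      (exp (-2 * π * I * (a 0 * b 0)) * exp (π * I / τ 0 * z 0 ^ 2)) =
      exp (-π * I * (Qf τ a + 2 * dot a (z + b))) := by
    rw [← exp_add, ← exp_add, ← exp_add]
    congr 1
    simp [M_apply, act, per, Qf, dot]
    field_simp
    ring
  refine mul_left_cancel₀ (exp_ne_zero (-π * I * (Qf τ a + 2 * dot a (z + b)))) ?_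
  have hc' : (-I * τ 0) ^ (1 / 2 : ℂ) * (1 / (-I * τ 0) ^ (1 / 2 : ℂ)) = 1 := mul_one_div_cancel hc
  generalize (-I * τ 0) ^ (1 / 2 : ℂ) = c at *
  generalize 1 / c = c' at *
  generalize thg (act τ) ![-b 0, a 1] (M τ z + ![a 0, b 1]) = T at *
  linear_combination (c * (exp (-2 * π * I * (a 0 * b 0)) * exp (π * I / τ 0 * z 0 ^ 2))) * s1 -
    T * e3 - T * (exp (-π * I * (z + b + per τ 0 a) 0 ^ 2 / τ 0) *
      exp (-π * I * (Qf (act τ) ![-b 0, a 1] + 2 * dot ![-b 0, a 1] (M τ z + ![a 0, b 1]))) *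
      (exp (-2 * π * I * (a 0 * b 0)) * exp (π * I / τ 0 * z 0 ^ 2))) * hc'

end XSYMJ

open XSYMJ in
theorem st_SYMJ (hBAS : St_BAS) : St_SYMJ := by
  refine ⟨{ act := act, inv := inv, M := M, A := A, s := 0
            ζ := fun m ↦ exp (-2 * π * I * (ca m 0 * cb m 0))
            ζ8 := fun m ↦ ?_
            act_mem := fun _ h ↦ act_mem h
            inv_mem := fun _ h ↦ inv_mem h
            act_inv := fun _ h ↦ act_inv h
            inv_diff := inv_diff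
            pull := pull
            ev := by decide
            bij := fun _ h ↦ M_inj h
            lat := fun _ h ↦ lat h
            herm := fun _ h ↦ herm h
            th_eq := fun τ h ↦ ⟨(-I * τ 0) ^ (1 / 2 : ℂ), ![π * I / τ 0, 0, 0], ?_, fun m z ↦ ?_⟩ },
    fun _ ↦ rfl, fun _ _ ↦ rfl⟩
  · rw [← exp_nat_mul, exp_eq_one_iff]
    refine ⟨-2 * (m.1.val * m.2.2.1.val : ℕ), ?_⟩
    simp [ca, cb]
    ring
  · rw [Ne, cpow_eq_zero_iff]
    simp [ne0 h]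
  · have g := gen hBAS h (ca m) (cb m) z
    have e1 : ca (A m + 0) = ![-cb m 0, ca m 1] + iv ((m.2.2.1.val : ℤ), 0) := by
      funext i
      fin_cases i <;> simp [ca, cb, A, iv]
      ring
    have e2 : cb (A m + 0) = ![ca m 0, cb m 1] := by
      funext i
      fin_cases i <;> simp [ca, cb, A]
    rw [th, th, e1, e2, hBAS.shift_a, g]
    simp [Qf]

end Pool.Agent.Lib.ECM
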