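import Pool.Agent.Lib.ECM.THBlue

/-! Composition of modular transformations and their action on theta constants. -/

open Complex
open scoped Real

noncomputable section

namespace Pool.Agent.Lib.ECM

namespace XSYMK

theorem qf_comp (q : T3) (L : V2 →ₗ[ℂ] V2) : ∃ q' : T3, ∀ z, Qf q (L z) = Qf q' z := by
  set u : V2 := L ![1, 0] with hu
  set w : V2 := L ![0, 1] with hw
  refine ⟨![Qf q u, q 0 * u 0 * w 0 + q 1 * (u 0 * w 1 + u 1 * w 0) + q 2 * u 1 * w 1, Qf q w],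
    fun z ↦ ?_⟩
  have hz : z = z 0 • (![1, 0] : V2) + z 1 • (![0, 1] : V2) := by
    funext i; fin_cases i <;> simp
  have hL : L z = z 0 • u + z 1 • w := by
    conv_lhs => rw [hz]
    rw [map_add, map_smul, map_smul]
  rw [hL]
  simp [Qf]
  ring

theorem qf_add (q q' : T3) (z : V2) : Qf (q + q') z = Qf q z + Qf q' z := by
  simp only [Qf, Pi.add_apply]; ring

theorem qf_smul (q : T3) (t : ℂ) (z : V2) : Qf q (t • z) = t ^ 2 * Qf q z := by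
  simp only [Qf, Pi.smul_apply, smul_eq_mul]; ring

/-- the composite of two transformations -/
def comp (γ γ' : Sym) : Sym where
  act τ := γ'.act (γ.act τ)
  inv τ := γ.inv (γ'.inv τ)
  M τ := (γ'.M (γ.act τ)).comp (γ.M τ)
  A := γ.A.trans γ'.A
  s := γ'.A γ.s + γ'.s
  ζ m := γ'.ζ (γ.A m + γ.s) * γ.ζ m
  ζ8 m := by rw [mul_pow, γ'.ζ8, γ.ζ8, one_mul]
  act_mem τ h := γ'.act_mem _ (γ.act_mem τ h)
  inv_mem τ h := γ.inv_mem _ (γ'.inv_mem τ h)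
  act_inv τ h := by rw [γ.act_inv _ (γ'.inv_mem τ h), γ'.act_inv τ h]
  inv_diff := γ.inv_diff.comp γ'.inv_diff fun τ h ↦ γ'.inv_mem τ h
  pull F hF := by
    obtain ⟨F', h1, h2⟩ := γ'.pull F hF
    obtain ⟨F'', h3, h4⟩ := γ.pull F' h1
    exact ⟨F'', h3, fun τ h h5 ↦ h4 τ h (h2 _ (γ.act_mem τ h) h5)⟩
  ev m := by
    rw [AddEquiv.trans_apply, ← add_assoc, ← map_add, γ'.ev, γ.ev]
  bij τ h := (γ'.bij _ (γ.act_mem τ h)).comp (γ.bij τ h)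
  lat τ h z := (γ'.lat _ (γ.act_mem τ h) _).trans (γ.lat τ h z)
  herm τ h v := (γ'.herm _ (γ.act_mem τ h) _).trans (γ.herm τ h v)
  th_eq τ h := by
    obtain ⟨c, q, hc, h1⟩ := γ.th_eq τ h
    obtain ⟨c', q', hc', h2⟩ := γ'.th_eq _ (γ.act_mem τ h)
    obtain ⟨q'', h3⟩ := qf_comp q' (γ.M τ)
    refine ⟨c' * c, q'' + q, mul_ne_zero hc' hc, fun m z ↦ ?_⟩
    rw [AddEquiv.trans_apply, ← add_assoc, ← map_add, LinearMap.comp_apply, h2, h1, h3, qf_add,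
      exp_add]
    ring

theorem cst (hBAS : St_BAS) (γ : Sym) (τ : T3) (h : τ ∈ H2) : ∃ c : ℂ, c ≠ 0 ∧ ∀ m,
    kk (γ.A m + γ.s) (γ.act τ) = c * γ.ζ m * kk m τ ∧
      ∀ v, ll (γ.A m + γ.s) (γ.act τ) (γ.M τ v) = c * γ.ζ m * ll m τ v := by
  obtain ⟨c, q, hc, h1⟩ := γ.th_eq τ h
  refine ⟨c, hc, fun m ↦ ⟨?_, fun v ↦ ?_⟩⟩
  · have h2 := h1 m 0
    rw [map_zero] at h2
    rw [kk, kk, h2]
    simp [Qf]
  · have h2 := hBAS.line (γ.A m + γ.s) _ (γ.act_mem τ h) 0 (γ.M τ v) 0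
    have h3 := hBAS.line m τ h 0 v 0
    simp only [zero_add, zero_smul] at h2 h3
    have h4 : HasDerivAt (fun t : ℂ ↦ exp (t ^ 2 * Qf q v)) 0 0 := by
      simpa using (((hasDerivAt_id (0 : ℂ)).pow 2).mul_const (Qf q v)).cexp
    have h5 := (h4.const_mul (c * γ.ζ m)).mul h3
    have h6 : (fun t : ℂ ↦ th (γ.A m + γ.s) (γ.act τ) (t • γ.M τ v)) =
        (fun t : ℂ ↦ c * γ.ζ m * exp (t ^ 2 * Qf q v)) * fun t : ℂ ↦ th m τ (t • v) := by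
      funext t
      rw [← map_smul, h1, qf_smul, Pi.mul_apply]
    rw [h6] at h2
    rw [ll, ll, h2.unique h5]
    simp

theorem pi_le {ι : Type} [Fintype ι] {f g : ι → ℂ} {r : ℝ} (hr : 0 ≤ r)
    (h : ∀ i, ∃ j, ‖f i‖ = r * ‖g j‖) : ‖f‖ ≤ r * ‖g‖ := by
  refine (pi_norm_le_iff_of_nonneg (mul_nonneg hr (norm_nonneg g))).2 fun i ↦ ?_
  obtain ⟨j, hj⟩ := h i
  rw [hj]
  exact mul_le_mul_of_nonneg_left (norm_le_pi_norm g j) hr

theorem pi_eq {ι : Type} [Fintype ι] {f g : ι → ℂ} {r : ℝ} (hr : 0 < r) (e : ι ≃ ι)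
    (h : ∀ i, ‖f (e i)‖ = r * ‖g i‖) : ‖f‖ = r * ‖g‖ := by
  refine le_antisymm (pi_le hr.le fun i ↦ ⟨e.symm i, by rw [← h, e.apply_symm_apply]⟩) ?_
  have h1 : ‖g‖ ≤ r⁻¹ * ‖f‖ := pi_le (inv_nonneg.2 hr.le) fun i ↦
    ⟨e i, by rw [h, inv_mul_cancel_left₀ hr.ne']⟩
  rwa [le_inv_mul_iff₀ hr] at h1

/-- the permutation of the characteristics -/
def pm (γ : Sym) : Ch ≃ Ch := γ.A.toEquiv.trans (Equiv.addRight γ.s)

theorem pm_apply (γ : Sym) (m : Ch) : pm γ m = γ.A m + γ.s := rfl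

theorem add_self (s : Ch) : s + s = 0 := by revert s; decide

theorem pm_add (γ : Sym) (m m' : Ch) : pm γ m + pm γ m' = γ.A (m + m') := by
  rw [pm_apply, pm_apply, map_add, add_add_add_comm, add_self, add_zero]

theorem pm_add' (γ : Sym) (m κ : Ch) : pm γ m + γ.A κ = pm γ (m + κ) := by
  rw [pm_apply, pm_apply, map_add, add_right_comm]

theorem norm_ζ (γ : Sym) (m : Ch) : ‖γ.ζ m‖ = 1 :=
  Complex.norm_eq_one_of_pow_eq_one (γ.ζ8 m) (by norm_num)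

theorem den_eq (γ : Sym) {τ : T3} {c : ℂ} (hc : c ≠ 0)
    (h : ∀ m, kk (pm γ m) (γ.act τ) = c * γ.ζ m * kk m τ) (κ : Ch) :
    den (γ.A κ) (γ.act τ) = ‖c‖ ^ 2 * den κ τ := by
  refine pi_eq (pow_pos (norm_pos_iff.2 hc) 2) (pm γ) fun n ↦ ?_
  rw [pm_add', h, h]
  simp only [norm_mul, norm_ζ]
  ring

end XSYMK

open XSYMK in
theorem st_SYMK (hBAS : St_BAS) : St_SYMK where
  comp γ γ' := ⟨comp γ γ', fun _ ↦ rfl, fun _ _ ↦ rfl⟩
  cst := cst hBAS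
  gauge γ τ h v := by
    obtain ⟨c, hc, h1⟩ := cst hBAS γ τ h
    have hd := den_eq γ hc fun m ↦ (h1 m).1
    have hn : ‖c‖ ≠ 0 := norm_ne_zero_iff.2 hc
    refine (pi_eq one_pos ((pm γ).prodCongr (pm γ)) fun p ↦ ?_).trans (one_mul _)
    simp only [Equiv.prodCongr_apply, Prod.map_fst, Prod.map_snd]
    rw [pm_add, hd, pm_apply, pm_apply, (h1 _).1, (h1 _).2]
    simp only [norm_mul, norm_div, norm_ζ, ofReal_mul, ofReal_pow, norm_pow, norm_real, norm_norm]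
    rw [one_mul, ← mul_div_mul_left (‖kk p.1 τ‖ * ‖ll p.2 τ v‖) _ (pow_ne_zero 2 hn)]
    ring
  den γ τ h κ := by
    obtain ⟨c, hc, h1⟩ := cst hBAS γ τ h
    rw [den_eq γ hc fun m ↦ (h1 m).1]
    exact mul_pos_iff_of_pos_left (pow_pos (norm_pos_iff.2 hc) 2)
  gen γ τ h := by
    obtain ⟨c, hc, h1⟩ := cst hBAS γ τ h
    refine ⟨fun hg m hm h0 ↦ hg _ ((γ.ev m).2 hm) (by rw [(h1 m).1, h0, mul_zero]),
      fun hg m hm ↦ ?_⟩
    obtain ⟨m, rfl⟩ := (pm γ).surjective m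
    rw [pm_apply] at hm ⊢
    rw [(h1 m).1]
    refine mul_ne_zero (mul_ne_zero hc ?_) (hg m ((γ.ev m).1 hm))
    rw [← norm_ne_zero_iff, norm_ζ]
    exact one_ne_zero
  fin := by
    have h8 : {x : ℂ | x ^ 8 = 1}.Finite :=
      (Polynomial.nthRoots 8 (1 : ℂ)).toFinset.finite_toSet.subset fun x hx ↦ by
        simpa [Polynomial.mem_nthRoots] using hx
    refine ((Set.finite_univ (α := Ch → Ch)).prod (Set.Finite.pi' fun _ : Ch ↦ h8)).subset ?_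
    rintro _ ⟨γ, rfl⟩
    exact ⟨Set.mem_univ _, γ.ζ8⟩

end Pool.Agent.Lib.ECM
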