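import Pool.Agent.Lib.ECM.THBlue

/-! Translations of the period matrix by integral matrices. -/

open Complex
open scoped Real ComplexConjugate

noncomputable section

namespace Pool.Agent.Lib.ECM

namespace XSYMT

/-- translation -/
def tr (B : Fin 3 → ℤ) (τ : T3) : T3 := fun i ↦ τ i + B i

/-- the shift of the argument -/
def uu (B : Fin 3 → ℤ) (a : V2) : V2 :=
  ![(B 0 : ℂ) / 2 + B 0 * a 0 + B 1 * a 1, (B 2 : ℂ) / 2 + B 1 * a 0 + B 2 * a 1]

/-- the constant factor -/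
def cst (B : Fin 3 → ℤ) (a : V2) : ℂ :=
  exp (π * I * (Qf (fun i ↦ (B i : ℂ)) a - 2 * dot a (uu B a)))

theorem term_tr (B : Fin 3 → ℤ) (τ : T3) (n : ℤ × ℤ) (a w : V2) :
    term (tr B τ) (iv n + a) w = cst B a * term τ (iv n + a) (w + uu B a) := by
  obtain ⟨x, hx⟩ := Int.even_mul_pred_self n.1
  obtain ⟨y, hy⟩ := Int.even_mul_pred_self n.2
  have hx' : (n.1 : ℂ) * (n.1 - 1) = x + x := by exact_mod_cast hx
  have hy' : (n.2 : ℂ) * (n.2 - 1) = y + y := by exact_mod_cast hy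
  rw [term, term, cst, ← exp_add, exp_eq_exp_iff_exists_int]
  refine ⟨B 0 * x + B 1 * n.1 * n.2 + B 2 * y, ?_⟩
  simp only [Qf, dot, tr, uu, iv, Pi.add_apply, Matrix.cons_val_zero, Matrix.cons_val_one]
  push_cast
  linear_combination (π * I * B 0) * hx' + (π * I * B 2) * hy'

theorem thg_tr (B : Fin 3 → ℤ) (τ : T3) (a w : V2) :
    thg (tr B τ) a w = cst B a * thg τ a (w + uu B a) := by
  simp only [thg, term_tr, tsum_mul_left]

/-- the characteristic on the other side -/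
def ff (B : Fin 3 → ℤ) (m : Ch) : Ch :=
  (m.1, m.2.1, m.2.2.1 + B 0 + B 0 * m.1 + B 1 * m.2.1, m.2.2.2 + B 2 + B 1 * m.1 + B 2 * m.2.1)

theorem th_tr (hBAS : St_BAS) (B : Fin 3 → ℤ) (m : Ch) : ∃ ζ : ℂ, ζ ^ 8 = 1 ∧
    ∀ τ z, th m (tr B τ) z = ζ * th (ff B m) τ z := by
  obtain ⟨ε, hε, h⟩ := hBAS.thz ((m.1.val : ℤ), (m.2.1.val : ℤ))
    ((m.2.2.1.val : ℤ) + B 0 + B 0 * m.1.val + B 1 * m.2.1.val,
      (m.2.2.2.val : ℤ) + B 2 + B 1 * m.1.val + B 2 * m.2.1.val)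
  have e1 : ca m = (1 / 2 : ℂ) • iv ((m.1.val : ℤ), (m.2.1.val : ℤ)) := by
    funext i; fin_cases i <;> simp [iv, ca] <;> ring
  refine ⟨cst B (ca m) * ε, ?_, fun τ z ↦ ?_⟩
  · have h1 : (ε : ℂ) ^ 8 = 1 := by rcases hε with rfl | rfl <;> norm_num
    rw [mul_pow, h1, mul_one, cst, ← exp_nat_mul, exp_eq_one_iff]
    refine ⟨-(B 0 * m.1.val ^ 2 + 2 * B 1 * m.1.val * m.2.1.val + B 2 * m.2.1.val ^ 2) -
      2 * (B 0 * m.1.val + B 2 * m.2.1.val), ?_⟩
    simp only [Qf, dot, uu, ca, Matrix.cons_val_zero, Matrix.cons_val_one]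
    push_cast
    ring
  · have e2 : z + cb m + uu B (ca m) = z + (1 / 2 : ℂ) • iv
        ((m.2.2.1.val : ℤ) + B 0 + B 0 * m.1.val + B 1 * m.2.1.val,
          (m.2.2.2.val : ℤ) + B 2 + B 1 * m.1.val + B 2 * m.2.1.val) := by
      rw [add_assoc]
      congr 1
      funext i; fin_cases i <;> simp [iv, ca, cb, uu] <;> ring
    rw [th, thg_tr, e2, mul_assoc]
    congr 1
    rw [e1, h]
    simp [ff]

/-- the linear part of the action on characteristics -/
def g (p q r : ZMod 2) (m : Ch) : Ch :=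
  (m.1, m.2.1, m.2.2.1 + p * m.1 + q * m.2.1, m.2.2.2 + q * m.1 + r * m.2.1)

theorem g_g : ∀ (p q r : ZMod 2) (m : Ch), g p q r (g p q r m) = m := by decide

/-- the linear part as an additive equivalence -/
def AA (p q r : ZMod 2) : Ch ≃+ Ch where
  toFun := g p q r
  invFun := g p q r
  left_inv := g_g p q r
  right_inv := g_g p q r
  map_add' := fun m m' ↦ by
    simp only [g, Prod.fst_add, Prod.snd_add, Prod.mk_add_mk, Prod.mk.injEq, true_and]
    constructor <;> ring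

theorem ev_g : ∀ (p q r : ZMod 2) (m : Ch), Ev (g p q r m + (0, 0, p, r)) ↔ Ev m := by decide

theorem back : ∀ (p q r : ZMod 2) (m : Ch),
    (fun m' : Ch ↦ ((m'.1, m'.2.1, m'.2.2.1 + p + p * m'.1 + q * m'.2.1,
      m'.2.2.2 + r + q * m'.1 + r * m'.2.1) : Ch)) (g p q r m + (0, 0, p, r)) = m := by decide

theorem tr_im (B : Fin 3 → ℤ) (τ : T3) (i : Fin 3) : (tr B τ i).im = (τ i).im := by simp [tr]

theorem tr_mem (B : Fin 3 → ℤ) {τ : T3} (h : τ ∈ H2) : tr B τ ∈ H2 := by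
  simpa only [H2, Set.mem_ofPred_eq, tr_im] using h

theorem tr_neg (B : Fin 3 → ℤ) (τ : T3) : tr B (tr (-B) τ) = τ := by
  funext i; simp [tr]

theorem lat_tr (B : Fin 3 → ℤ) (τ : T3) {z : V2} (h : z ∈ Lat (tr B τ)) : z ∈ Lat τ := by
  obtain ⟨m, n, rfl⟩ := h
  refine ⟨(m.1 + B 0 * n.1 + B 1 * n.2, m.2 + B 1 * n.1 + B 2 * n.2), n, ?_⟩
  funext i; fin_cases i <;> simp [iv, per, tr] <;> ring

theorem pull (B : Fin 3 → ℤ) (F : MvPolynomial (Fin 3) ℂ) (hF : F ≠ 0) :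
    ∃ F' : MvPolynomial (Fin 3) ℂ, F' ≠ 0 ∧
      ∀ τ, MvPolynomial.eval τ F' = MvPolynomial.eval (tr B τ) F := by
  have h : ∀ τ : T3, MvPolynomial.eval τ (MvPolynomial.bind₁
      (fun i ↦ MvPolynomial.X i + MvPolynomial.C (B i : ℂ)) F) = MvPolynomial.eval (tr B τ) F := by
    intro τ
    clear hF
    induction F using MvPolynomial.induction_on with
    | C r => simp
    | add a b ha hb => rw [map_add, map_add, map_add, ha, hb]
    | mul_X a l ha => rw [map_mul, map_mul, map_mul, ha]; simp [tr]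
  refine ⟨_, fun e ↦ hF (MvPolynomial.funext fun x ↦ ?_), h⟩
  rw [← tr_neg B x, ← h, e, map_zero, map_zero]

end XSYMT

open XSYMT in
theorem st_SYMT (hBAS : St_BAS) : St_SYMT := by
  intro B
  choose ζ h8 hζ using th_tr hBAS B
  refine ⟨{ act := tr B
            inv := tr (-B)
            M := fun _ ↦ LinearMap.id
            A := AA (B 0) (B 1) (B 2)
            s := (0, 0, (B 0 : ZMod 2), (B 2 : ZMod 2))
            ζ := fun m ↦ ζ (g (B 0) (B 1) (B 2) m + (0, 0, (B 0 : ZMod 2), (B 2 : ZMod 2)))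
            ζ8 := fun m ↦ h8 _
            act_mem := fun _ h ↦ tr_mem B h
            inv_mem := fun _ h ↦ tr_mem _ h
            act_inv := fun τ _ ↦ tr_neg B τ
            inv_diff := ?_
            pull := fun F hF ↦ ?_
            ev := ev_g _ _ _
            bij := fun _ _ ↦ Function.bijective_id
            lat := fun τ _ z ↦ ⟨lat_tr B τ, fun h ↦ lat_tr (-B) _ ?_⟩
            herm := fun τ _ v ↦ ?_
            th_eq := fun τ _ ↦ ⟨1, 0, one_ne_zero, fun m z ↦ ?_⟩ }, fun _ ↦ rfl, fun _ _ ↦ rfl⟩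
  · exact (differentiable_pi.mpr fun i ↦ (differentiable_apply i).add_const _).differentiableOn
  · obtain ⟨F', h1, h2⟩ := pull B F hF
    exact ⟨F', h1, fun τ _ h ↦ (h2 τ).trans h⟩
  · have := tr_neg (-B) τ
    rw [neg_neg] at this
    rwa [this]
  · simp only [Hn, dY, tr_im, LinearMap.id_apply]
  · have e : ff B (g (B 0) (B 1) (B 2) m + (0, 0, (B 0 : ZMod 2), (B 2 : ZMod 2))) = m :=
      back _ _ _ m
    have := hζ (g (B 0) (B 1) (B 2) m + (0, 0, (B 0 : ZMod 2), (B 2 : ZMod 2))) τ z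
    rw [e] at this
    simpa [Qf, AA] using this

end Pool.Agent.Lib.ECM
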