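import Pool.Agent.Lib.ECM.THBlue

/-! Genus two theta functions: the unimodular changes of basis. -/

open Complex Filter Topology Metric
open scoped Real ComplexConjugate

noncomputable section

namespace Pool.Agent.Lib.ECM

namespace XSYMU

/-- `U τ Uᵀ` -/
def act (a b c d : ℤ) (τ : T3) : T3 :=
  ![Qf τ (iv (a, b)), τ 0 * a * c + τ 1 * (a * d + b * c) + τ 2 * b * d, Qf τ (iv (c, d))]

/-- `U z` -/
def lin (a b c d : ℤ) : V2 →ₗ[ℂ] V2 where
  toFun z := ![a * z 0 + b * z 1, c * z 0 + d * z 1]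
  map_add' x y := by funext i; fin_cases i <;> simp <;> ring
  map_smul' t x := by funext i; fin_cases i <;> simp <;> ring

theorem lin_apply (a b c d : ℤ) (z : V2) :
    lin a b c d z = ![a * z 0 + b * z 1, c * z 0 + d * z 1] := rfl

/-- `U' U = 1` -/
structure Inv (a b c d a' b' c' d' : ℤ) : Prop where
  h1 : a' * a + b' * c = 1
  h2 : a' * b + b' * d = 0
  h3 : c' * a + d' * c = 0
  h4 : c' * b + d' * d = 1

theorem Inv.cast {a b c d a' b' c' d' : ℤ} (h : Inv a b c d a' b' c' d') (R : Type) [CommRing R] :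
    (a' : R) * a + b' * c = 1 ∧ (a' : R) * b + b' * d = 0 ∧ (c' : R) * a + d' * c = 0 ∧
      (c' : R) * b + d' * d = 1 :=
  ⟨by exact_mod_cast congrArg (Int.cast : ℤ → R) h.h1,
    by exact_mod_cast congrArg (Int.cast : ℤ → R) h.h2,
    by exact_mod_cast congrArg (Int.cast : ℤ → R) h.h3,
    by exact_mod_cast congrArg (Int.cast : ℤ → R) h.h4⟩

theorem act_comp (a b c d a' b' c' d' : ℤ) (τ : T3) : act a' b' c' d' (act a b c d τ) =
    act (a' * a + b' * c) (a' * b + b' * d) (c' * a + d' * c) (c' * b + d' * d) τ := by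
  funext i; fin_cases i <;> simp [act, Qf, iv] <;> ring

theorem Inv.act {a b c d a' b' c' d' : ℤ} (h : Inv a b c d a' b' c' d') (τ : T3) :
    act a' b' c' d' (act a b c d τ) = τ := by
  rw [act_comp, h.h1, h.h2, h.h3, h.h4]
  funext i; fin_cases i <;> simp [XSYMU.act, Qf, iv]

theorem Inv.lin {a b c d a' b' c' d' : ℤ} (h : Inv a b c d a' b' c' d') (z : V2) :
    lin a' b' c' d' (lin a b c d z) = z := by
  obtain ⟨h1, h2, h3, h4⟩ := h.cast ℂ
  funext i; fin_cases i <;> simp [lin_apply]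
  · linear_combination z 0 * h1 + z 1 * h2
  · linear_combination z 0 * h3 + z 1 * h4

theorem im0 (a b c d : ℤ) (τ : T3) : (act a b c d τ 0).im =
    (τ 0).im * a ^ 2 + 2 * (τ 1).im * a * b + (τ 2).im * b ^ 2 := by
  simp [act, Qf, iv, sq]

theorem im1 (a b c d : ℤ) (τ : T3) : (act a b c d τ 1).im =
    (τ 0).im * a * c + (τ 1).im * (a * d + b * c) + (τ 2).im * b * d := by
  simp [act]

theorem im2 (a b c d : ℤ) (τ : T3) : (act a b c d τ 2).im =
    (τ 0).im * c ^ 2 + 2 * (τ 1).im * c * d + (τ 2).im * d ^ 2 := by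
  simp [act, Qf, iv, sq]

theorem dY_act {a b c d : ℤ} (h : ((a : ℝ) * d - b * c) ^ 2 = 1) (τ : T3) :
    dY (act a b c d τ) = dY τ := by
  unfold dY
  rw [im0, im1, im2]
  linear_combination ((τ 0).im * (τ 2).im - (τ 1).im ^ 2) * h

theorem mem {a b c d : ℤ} (h : ((a : ℝ) * d - b * c) ^ 2 = 1) {τ : T3} (hτ : τ ∈ H2) :
    act a b c d τ ∈ H2 := by
  obtain ⟨h0, h1⟩ := hτ
  have e := dY_act h τ
  unfold dY at e
  have p : 0 ≤ (act a b c d τ 0).im := by
    refine le_of_mul_le_mul_left ?_ h0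
    rw [im0]
    nlinarith [sq_nonneg ((τ 0).im * a + (τ 1).im * b),
      mul_nonneg (sub_nonneg.2 h1.le) (sq_nonneg (b : ℝ))]
  refine ⟨p.lt_of_ne fun z => ?_, by linarith⟩
  rw [← z] at e
  nlinarith [sq_nonneg (act a b c d τ 1).im]

theorem herm {a b c d : ℤ} (h : ((a : ℝ) * d - b * c) ^ 2 = 1) (τ : T3) (v : V2) :
    Hn (act a b c d τ) (lin a b c d v) = Hn τ v := by
  unfold Hn
  rw [dY_act h, im0, im1, im2]
  congr 1
  simp [lin_apply, normSq_apply]
  linear_combination ((τ 2).im * ((v 0).re * (v 0).re + (v 0).im * (v 0).im) -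
    2 * (τ 1).im * ((v 0).re * (v 1).re + (v 0).im * (v 1).im) +
      (τ 0).im * ((v 1).re * (v 1).re + (v 1).im * (v 1).im)) * h

theorem Inv.lat {a b c d a' b' c' d' : ℤ} (h : Inv a b c d a' b' c' d') {τ : T3} {z : V2}
    (hz : z ∈ Lat τ) : XSYMU.lin a b c d z ∈ Lat (XSYMU.act a b c d τ) := by
  obtain ⟨m, n, rfl⟩ := hz
  obtain ⟨h1, h2, h3, h4⟩ := h.cast ℂ
  refine ⟨(a * m.1 + b * m.2, c * m.1 + d * m.2), (a' * n.1 + c' * n.2, b' * n.1 + d' * n.2), ?_⟩
  funext i; fin_cases i <;> simp [lin_apply, XSYMU.act, per, Qf, iv]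
  · linear_combination -((a * τ 0 + b * τ 1) * (n.1 * h1 + n.2 * h3) +
      (a * τ 1 + b * τ 2) * (n.1 * h2 + n.2 * h4))
  · linear_combination -((c * τ 0 + d * τ 1) * (n.1 * h1 + n.2 * h3) +
      (c * τ 1 + d * τ 2) * (n.1 * h2 + n.2 * h4))

theorem diff (a b c d : ℤ) : Differentiable ℂ (act a b c d) := by
  refine differentiable_pi.2 fun i => ?_
  fin_cases i <;> simp [act, Qf] <;> fun_prop

open MvPolynomial in
theorem Inv.pull {a b c d a' b' c' d' : ℤ} (h : Inv a' b' c' d' a b c d)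
    (F : MvPolynomial (Fin 3) ℂ) (hF : F ≠ 0) : ∃ F' : MvPolynomial (Fin 3) ℂ, F' ≠ 0 ∧
      ∀ τ, eval τ F' = eval (XSYMU.act a b c d τ) F := by
  let P : Fin 3 → MvPolynomial (Fin 3) ℂ :=
    ![X 0 * C (a : ℂ) ^ 2 + 2 * X 1 * C (a : ℂ) * C (b : ℂ) + X 2 * C (b : ℂ) ^ 2,
      X 0 * C (a : ℂ) * C (c : ℂ) + X 1 * (C (a : ℂ) * C (d : ℂ) + C (b : ℂ) * C (c : ℂ)) +
        X 2 * C (b : ℂ) * C (d : ℂ),
      X 0 * C (c : ℂ) ^ 2 + 2 * X 1 * C (c : ℂ) * C (d : ℂ) + X 2 * C (d : ℂ) ^ 2]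
  have e : ∀ τ, eval τ (bind₁ P F) = eval (XSYMU.act a b c d τ) F := fun τ => by
    have : (fun i => eval τ (P i)) = XSYMU.act a b c d τ := by
      funext i; fin_cases i <;> simp [P, XSYMU.act, Qf, iv]
    rw [← this]
    exact eval₂Hom_bind₁ _ _ _ _
  refine ⟨bind₁ P F, fun z => hF (MvPolynomial.funext fun x => ?_), e⟩
  rw [← h.act x, ← e, z, map_zero, map_zero]

/-- the action on characteristics -/
def chr {a b c d a' b' c' d' : ℤ} (h : Inv a b c d a' b' c' d') (k : Inv a' b' c' d' a b c d) :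
    Ch ≃+ Ch where
  toFun m := (a' * m.1 + c' * m.2.1, b' * m.1 + d' * m.2.1, a * m.2.2.1 + b * m.2.2.2,
    c * m.2.2.1 + d * m.2.2.2)
  invFun m := (a * m.1 + c * m.2.1, b * m.1 + d * m.2.1, a' * m.2.2.1 + b' * m.2.2.2,
    c' * m.2.2.1 + d' * m.2.2.2)
  left_inv m := by
    obtain ⟨h1, h2, h3, h4⟩ := h.cast (ZMod 2)
    refine Prod.ext ?_ (Prod.ext ?_ (Prod.ext ?_ ?_)) <;> dsimp only
    · linear_combination m.1 * h1 + m.2.1 * h3
    · linear_combination m.1 * h2 + m.2.1 * h4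
    · linear_combination m.2.2.1 * h1 + m.2.2.2 * h2
    · linear_combination m.2.2.1 * h3 + m.2.2.2 * h4
  right_inv m := by
    obtain ⟨h1, h2, h3, h4⟩ := k.cast (ZMod 2)
    refine Prod.ext ?_ (Prod.ext ?_ (Prod.ext ?_ ?_)) <;> dsimp only
    · linear_combination m.1 * h1 + m.2.1 * h3
    · linear_combination m.1 * h2 + m.2.1 * h4
    · linear_combination m.2.2.1 * h1 + m.2.2.2 * h2
    · linear_combination m.2.2.1 * h3 + m.2.2.2 * h4
  map_add' m n := by
    refine Prod.ext ?_ (Prod.ext ?_ (Prod.ext ?_ ?_)) <;> simp <;> ring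

theorem chr_ev {a b c d a' b' c' d' : ℤ} (h : Inv a b c d a' b' c' d')
    (k : Inv a' b' c' d' a b c d) (m : Ch) : Ev (chr h k m) ↔ Ev m := by
  obtain ⟨h1, h2, h3, h4⟩ := h.cast (ZMod 2)
  have e : (chr h k m).1 * (chr h k m).2.2.1 + (chr h k m).2.1 * (chr h k m).2.2.2 =
      m.1 * m.2.2.1 + m.2.1 * m.2.2.2 := by
    change (a' * m.1 + c' * m.2.1) * (a * m.2.2.1 + b * m.2.2.2) +
      (b' * m.1 + d' * m.2.1) * (c * m.2.2.1 + d * m.2.2.2) = _
    linear_combination m.1 * m.2.2.1 * h1 + m.1 * m.2.2.2 * h2 + m.2.1 * m.2.2.1 * h3 +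
      m.2.1 * m.2.2.2 * h4
  unfold Ev
  rw [e]

theorem thg_act {a b c d a' b' c' d' : ℤ} (h : Inv a b c d a' b' c' d')
    (k : Inv a' b' c' d' a b c d) (τ : T3) (p w : V2) :
    thg (act a b c d τ) p (lin a b c d w) = thg τ (lin a c b d p) w := by
  let e : ℤ × ℤ ≃ ℤ × ℤ :=
    { toFun := fun n => (a * n.1 + c * n.2, b * n.1 + d * n.2)
      invFun := fun n => (a' * n.1 + c' * n.2, b' * n.1 + d' * n.2)
      left_inv := fun n => Prod.ext (by linear_combination n.1 * k.h1 + n.2 * k.h3)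
        (by linear_combination n.1 * k.h2 + n.2 * k.h4)
      right_inv := fun n => Prod.ext (by linear_combination n.1 * h.h1 + n.2 * h.h3)
        (by linear_combination n.1 * h.h2 + n.2 * h.h4) }
  unfold thg
  rw [← e.tsum_eq fun n => term τ (iv n + lin a c b d p) w]
  refine tsum_congr fun n => ?_
  unfold term
  congr 1
  simp [e, act, Qf, dot, iv, lin_apply]
  ring

theorem th_act (hBAS : St_BAS) {a b c d a' b' c' d' : ℤ} (h : Inv a b c d a' b' c' d')
    (k : Inv a' b' c' d' a b c d) (m : Ch) : ∃ ε : ℤ, (ε = 1 ∨ ε = -1) ∧ ∀ τ z,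
      th (chr h k m) (act a b c d τ) (lin a b c d z) = ε * th m τ z := by
  obtain ⟨n, rfl⟩ := (chr h k).symm.surjective m
  rw [AddEquiv.apply_symm_apply]
  obtain ⟨ε, h1, h2⟩ := hBAS.thz (a * n.1.val + c * n.2.1.val, b * n.1.val + d * n.2.1.val)
    (a' * n.2.2.1.val + b' * n.2.2.2.val, c' * n.2.2.1.val + d' * n.2.2.2.val)
  refine ⟨ε, h1, fun τ z => ?_⟩
  have e1 : lin a b c d z + cb n = lin a b c d (z + lin a' b' c' d' (cb n)) := by
    rw [map_add, k.lin]
  have e2 : lin a c b d (ca n) =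
      (1 / 2 : ℂ) • iv (a * n.1.val + c * n.2.1.val, b * n.1.val + d * n.2.1.val) := by
    funext i; fin_cases i <;> simp [-ZMod.natCast_val, lin_apply, iv, ca] <;> ring
  have e3 : lin a' b' c' d' (cb n) = (1 / 2 : ℂ) •
      iv (a' * n.2.2.1.val + b' * n.2.2.2.val, c' * n.2.2.1.val + d' * n.2.2.2.val) := by
    funext i; fin_cases i <;> simp [-ZMod.natCast_val, lin_apply, iv, cb] <;> ring
  rw [th, e1, thg_act h k, e2, e3, h2]
  simp only [Int.cast_add, Int.cast_mul, Int.cast_natCast, ZMod.natCast_zmod_val]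
  rfl

end XSYMU

open XSYMU in
theorem st_SYMU (hBAS : St_BAS) : St_SYMU := by
  intro a b c d hd
  obtain ⟨ε, he, h2⟩ : ∃ ε : ℤ, a * d - b * c = ε ∧ ε * ε = 1 :=
    ⟨_, rfl, by rcases hd with hd | hd <;> rw [hd] <;> norm_num⟩
  have h : XSYMU.Inv a b c d (ε * d) (-(ε * b)) (-(ε * c)) (ε * a) :=
    ⟨by linear_combination ε * he + h2, by ring, by ring, by linear_combination ε * he + h2⟩
  have k : XSYMU.Inv (ε * d) (-(ε * b)) (-(ε * c)) (ε * a) a b c d :=
    ⟨by linear_combination ε * he + h2, by ring, by ring, by linear_combination ε * he + h2⟩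
  have r1 : ((a : ℝ) * d - b * c) ^ 2 = 1 := by
    have : (a * d - b * c) ^ 2 = 1 := by rw [he, sq, h2]
    exact_mod_cast this
  have r2 : (((ε * d : ℤ) : ℝ) * (ε * a : ℤ) - (-(ε * b) : ℤ) * (-(ε * c) : ℤ)) ^ 2 = 1 := by
    have : (ε * d * (ε * a) - -(ε * b) * -(ε * c)) ^ 2 = 1 := by
      have e : ε * d * (ε * a) - -(ε * b) * -(ε * c) = ε := by
        linear_combination ε * ε * he + ε * h2
      rw [e, sq, h2]
    exact_mod_cast this
  choose ζ z1 z2 using th_act hBAS h k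
  exact ⟨{
    act := act a b c d
    inv := act (ε * d) (-(ε * b)) (-(ε * c)) (ε * a)
    M := fun _ => lin a b c d
    A := chr h k
    s := 0
    ζ := fun m => ζ m
    ζ8 := fun m => by rcases z1 m with e | e <;> rw [e] <;> norm_num
    act_mem := fun τ hτ => mem r1 hτ
    inv_mem := fun τ hτ => mem r2 hτ
    act_inv := fun τ _ => k.act τ
    inv_diff := (diff _ _ _ _).differentiableOn
    pull := fun F hF => by
      obtain ⟨F', f1, f2⟩ := k.pull F hF
      exact ⟨F', f1, fun τ _ e => (f2 τ).trans e⟩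
    ev := fun m => by rw [add_zero]; exact chr_ev h k m
    bij := fun τ _ => Function.bijective_iff_has_inverse.2 ⟨_, h.lin, k.lin⟩
    lat := fun τ _ z => ⟨fun hz => by simpa only [h.lin, h.act] using k.lat hz, h.lat⟩
    herm := fun τ _ v => herm r1 τ v
    th_eq := fun τ _ => ⟨1, 0, one_ne_zero, fun m z => by
      rw [add_zero, z2]; simp [Qf]⟩ }, fun _ => rfl, fun _ _ => rfl⟩

end Pool.Agent.Lib.ECM
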