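import Pool.Agent.Lib.ECM.THBlue

/-! Genus two theta functions: the toric coordinates (block XQ). -/

open Complex Filter Topology Metric
open scoped Real ComplexConjugate

noncomputable section

namespace Pool.Agent.Lib.ECM

namespace XXQ

lemma norm0 (τ : T3) : ‖xq τ 0‖ = Real.exp (-(π * (τ 1).im / 2)) := by
  have h : xq τ 0 = exp (π * I * τ 1 / 2) := rfl
  rw [h, Complex.norm_exp]
  congr 1
  simp
  ring

lemma norm1 (τ : T3) : ‖xq τ 1‖ = Real.exp (-(π * ((τ 0).im - 2 * (τ 1).im) / 4)) := by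
  have h : xq τ 1 = exp (π * I * (τ 0 - 2 * τ 1) / 4) := rfl
  rw [h, Complex.norm_exp]
  congr 1
  simp
  ring

lemma norm2 (τ : T3) : ‖xq τ 2‖ = Real.exp (-(π * ((τ 2).im - (τ 0).im) / 4)) := by
  have h : xq τ 2 = exp (π * I * (τ 2 - τ 0) / 4) := rfl
  rw [h, Complex.norm_exp]
  congr 1
  simp
  ring

lemma norm01 (τ : T3) : ‖xq τ 0‖ * ‖xq τ 1‖ = Real.exp (-(π * (τ 0).im / 4)) := by
  rw [norm0, norm1, ← Real.exp_add]
  congr 1
  ring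

lemma exp_num : Real.exp (-(267 / 400 : ℝ)) ≤ 103 / 200 := by
  have h := Real.sum_le_exp_of_nonneg (x := (267 / 400 : ℝ)) (by norm_num) 5
  have h2 : (200 / 103 : ℝ) ≤ Real.exp (267 / 400) := by
    refine le_trans ?_ h
    simp only [Finset.sum_range_succ, Finset.sum_range_zero, Nat.factorial]
    norm_num
  rw [Real.exp_neg, inv_le_comm₀ (Real.exp_pos _) (by norm_num)]
  refine le_trans (le_of_eq ?_) h2
  norm_num

lemma red (τ : T3) (hτ : τ ∈ Red) : xq τ ∈ Kc := by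
  obtain ⟨h1, h2, h3, h4, -⟩ := hτ
  have hp := Real.pi_pos
  refine ⟨fun i ↦ ?_, ?_⟩
  · have a0 : ‖xq τ 0‖ ≤ 1 := by
      rw [norm0, Real.exp_le_one_iff]
      have := mul_nonneg hp.le h1
      linarith
    have a1 : ‖xq τ 1‖ ≤ 1 := by
      rw [norm1, Real.exp_le_one_iff]
      have := mul_nonneg hp.le (sub_nonneg.2 h2)
      linarith
    have a2 : ‖xq τ 2‖ ≤ 1 := by
      rw [norm2, Real.exp_le_one_iff]
      have := mul_nonneg hp.le (sub_nonneg.2 h3)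
      linarith
    fin_cases i
    · exact a0
    · exact a1
    · exact a2
  · rw [norm01]
    refine le_trans (Real.exp_le_exp.2 ?_) exp_num
    have h5 := Real.pi_gt_d4
    have : (3.1415 : ℝ) * (17 / 20) ≤ π * (τ 0).im :=
      mul_le_mul h5.le h4 (by norm_num) hp.le
    linarith

lemma om (τ : T3) (h : xq τ ∈ Om) : τ ∈ H2 := by
  obtain ⟨h1, h2⟩ := h
  have a0 := h1 0
  have a1 := h1 1
  have a2 := h1 2
  rw [norm0] at a0
  rw [norm1] at a1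
  rw [norm2] at a2
  rw [norm01] at h2
  have b0 := lt_of_le_of_lt (Real.add_one_le_exp _) a0
  have b1 := lt_of_le_of_lt (Real.add_one_le_exp _) a1
  have b2 := lt_of_le_of_lt (Real.add_one_le_exp _) a2
  have b3 := lt_of_le_of_lt (Real.add_one_le_exp _) h2
  have hp := Real.pi_pos
  obtain ⟨a, ha⟩ : ∃ a, a = π * (τ 0).im := ⟨_, rfl⟩
  obtain ⟨b, hb⟩ : ∃ b, b = π * (τ 1).im := ⟨_, rfl⟩
  obtain ⟨c, hc⟩ : ∃ c, c = π * (τ 2).im := ⟨_, rfl⟩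
  have c0 : -(1 / 5) < b := by rw [hb]; linarith
  have c1 : b < a / 2 + 1 / 5 := by rw [ha, hb]; linarith
  have c2 : a - 2 / 5 < c := by rw [ha, hc]; linarith
  have c3 : 48 / 25 < a := by rw [ha]; linarith
  have key : b ^ 2 < a * c := by
    have d1 : b ^ 2 < (a / 2 + 1 / 5) ^ 2 := by
      apply sq_lt_sq' <;> linarith
    have d2 : a * (a - 2 / 5) < a * c := mul_lt_mul_of_pos_left c2 (by linarith)
    nlinarith
  refine ⟨?_, ?_⟩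
  · have : 0 < π * (τ 0).im := by rw [← ha]; linarith
    exact (mul_pos_iff_of_pos_left hp).1 this
  · have e : π ^ 2 * (τ 1).im ^ 2 < π ^ 2 * ((τ 0).im * (τ 2).im) := by
      rw [ha, hb, hc] at key
      linarith
    exact lt_of_mul_lt_mul_left e (by positivity)

lemma sub : Kc ⊆ Om := by
  rintro x ⟨h1, h2⟩
  exact ⟨fun i ↦ lt_of_le_of_lt (h1 i) (by norm_num), lt_of_le_of_lt h2 (by norm_num)⟩

lemma isOpen : IsOpen Om := by
  have h : Om = (⋂ i, {x : T3 | ‖x i‖ < 11 / 10}) ∩ {x : T3 | ‖x 0‖ * ‖x 1‖ < 13 / 25} := by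
    ext x
    simp [Om]
  rw [h]
  refine IsOpen.inter (isOpen_iInter_of_finite fun i ↦ ?_) ?_
  · exact isOpen_lt (by fun_prop) continuous_const
  · exact isOpen_lt (by fun_prop) continuous_const

lemma isCompact : IsCompact Kc := by
  have h : Kc = closedBall (0 : T3) 1 ∩ {x : T3 | ‖x 0‖ * ‖x 1‖ ≤ 103 / 200} := by
    ext x
    simp only [Kc, Set.mem_ofPred_eq, Set.mem_inter_iff, mem_closedBall, dist_zero_right]
    rw [pi_norm_le_iff_of_nonneg (by norm_num)]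
  rw [h]
  exact (isCompact_closedBall _ _).inter_right (isClosed_le (by fun_prop) continuous_const)

lemma ex_nonneg (P : ℤ × ℤ) (i : Fin 3) : 0 ≤ ex P i := by
  have a0 : 0 ≤ ex P 0 := by
    have h : ex P 0 = P.1 ^ 2 + P.1 * P.2 + P.2 ^ 2 := rfl
    rw [h]
    nlinarith [sq_nonneg (P.1 + P.2), sq_nonneg P.1, sq_nonneg P.2]
  have a1 : 0 ≤ ex P 1 := by
    have h : ex P 1 = P.1 ^ 2 + P.2 ^ 2 := rfl
    rw [h]
    positivity
  have a2 : 0 ≤ ex P 2 := by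
    have h : ex P 2 = P.2 ^ 2 := rfl
    rw [h]
    positivity
  fin_cases i
  · exact a0
  · exact a1
  · exact a2

lemma cast_toNat (P : ℤ × ℤ) (i : Fin 3) : (((ex P i).toNat : ℕ) : ℂ) = ((ex P i : ℤ) : ℂ) := by
  rw [← Int.cast_natCast, Int.toNat_of_nonneg (ex_nonneg P i)]

lemma term_eq (τ : T3) (P : ℤ × ℤ) :
    term τ ((1 / 2 : ℂ) • iv P) 0 = mon (fun i ↦ (ex P i).toNat) (xq τ) := by
  have h0 : xq τ 0 = exp (π * I * τ 1 / 2) := rfl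
  have h1 : xq τ 1 = exp (π * I * (τ 0 - 2 * τ 1) / 4) := rfl
  have h2 : xq τ 2 = exp (π * I * (τ 2 - τ 0) / 4) := rfl
  have e0 : ex P 0 = P.1 ^ 2 + P.1 * P.2 + P.2 ^ 2 := rfl
  have e1 : ex P 1 = P.1 ^ 2 + P.2 ^ 2 := rfl
  have e2 : ex P 2 = P.2 ^ 2 := rfl
  unfold mon
  rw [h0, h1, h2, ← Complex.exp_nat_mul, ← Complex.exp_nat_mul, ← Complex.exp_nat_mul,
    ← Complex.exp_add, ← Complex.exp_add, cast_toNat, cast_toNat, cast_toNat, e0, e1, e2]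
  unfold term
  congr 1
  simp [Qf, dot, iv]
  ring

lemma mon_add (e f : Fin 3 → ℕ) (x : T3) : mon (fun i ↦ e i + f i) x = mon e x * mon f x := by
  unfold mon
  simp only [pow_add]
  ring

lemma fp_eq (hNUM : St_NUM) (τ : T3) (j : Fin 4) :
    fp (Pp j) τ 0 = mon (fun i ↦ (ex (Pp j) i).toNat) (xq τ) * EE j (xq τ) := by
  unfold fp EE
  rw [← tsum_mul_left]
  refine tsum_congr fun n ↦ ?_
  have h : (2 : ℂ) • iv n + (1 / 2 : ℂ) • iv (Pp j) =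
      (1 / 2 : ℂ) • iv ((4 : ℤ) • n + Pp j) := by
    funext i
    fin_cases i <;> simp [iv] <;> ring
  rw [h, term_eq, ← mon_add]
  congr 1
  funext i
  have a := hNUM.nonneg j n i
  have b := ex_nonneg (Pp j) i
  unfold exj
  omega

lemma norm_term (τ : T3) (P : ℤ × ℤ) : ‖term τ ((1 / 2 : ℂ) • iv P) 0‖ =
    Real.exp (-π * ((P.1 : ℝ) ^ 2 * (τ 0).im + (P.2 : ℝ) ^ 2 * (τ 2).im +
      2 * (P.1 : ℝ) * (P.2 : ℝ) * (τ 1).im) / 4) := by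
  unfold term
  rw [Complex.norm_exp]
  congr 1
  have h : π * I * (Qf τ ((1 / 2 : ℂ) • iv P) + 2 * dot ((1 / 2 : ℂ) • iv P) 0) =
      ((π / 4 * (P.1 : ℝ) ^ 2 : ℝ) : ℂ) * (I * τ 0) + ((π / 4 * (P.2 : ℝ) ^ 2 : ℝ) : ℂ) * (I * τ 2) +
        ((π / 2 * (P.1 : ℝ) * (P.2 : ℝ) : ℝ) : ℂ) * (I * τ 1) := by
    simp [Qf, dot, iv]
    ring
  rw [h]
  simp only [add_re, re_ofReal_mul, I_mul_re]
  ring

lemma lead_eq (τ : T3) (j : Fin 4) (b : ZMod 2 × ZMod 2) :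
    ‖mon (fun i ↦ (ex (Pp j) i).toNat) (xq τ)‖ = lead (chP (Pp j) b) τ := by
  rw [← term_eq, norm_term]
  unfold lead
  have v0 : (((0 : ℤ) : ZMod 2)).val = 0 := by decide
  have v1 : (((1 : ℤ) : ZMod 2)).val = 1 := by decide
  have v2 : (((-1 : ℤ) : ZMod 2)).val = 1 := by decide
  congr 1
  fin_cases j
  · show -π * ((((0 : ℤ) : ℝ)) ^ 2 * (τ 0).im + ((0 : ℤ) : ℝ) ^ 2 * (τ 2).im +
      2 * ((0 : ℤ) : ℝ) * ((0 : ℤ) : ℝ) * (τ 1).im) / 4 =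
      -π * (((((0 : ℤ) : ZMod 2)).val : ℝ) * (τ 0).im + ((((0 : ℤ) : ZMod 2)).val : ℝ) * (τ 2).im -
        2 * ((((0 : ℤ) : ZMod 2)).val : ℝ) * ((((0 : ℤ) : ZMod 2)).val : ℝ) * (τ 1).im) / 4
    rw [v0]
    push_cast
    ring
  · show -π * ((((1 : ℤ) : ℝ)) ^ 2 * (τ 0).im + ((0 : ℤ) : ℝ) ^ 2 * (τ 2).im +
      2 * ((1 : ℤ) : ℝ) * ((0 : ℤ) : ℝ) * (τ 1).im) / 4 =
      -π * (((((1 : ℤ) : ZMod 2)).val : ℝ) * (τ 0).im + ((((0 : ℤ) : ZMod 2)).val : ℝ) * (τ 2).im -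
        2 * ((((1 : ℤ) : ZMod 2)).val : ℝ) * ((((0 : ℤ) : ZMod 2)).val : ℝ) * (τ 1).im) / 4
    rw [v0, v1]
    push_cast
    ring
  · show -π * ((((0 : ℤ) : ℝ)) ^ 2 * (τ 0).im + ((1 : ℤ) : ℝ) ^ 2 * (τ 2).im +
      2 * ((0 : ℤ) : ℝ) * ((1 : ℤ) : ℝ) * (τ 1).im) / 4 =
      -π * (((((0 : ℤ) : ZMod 2)).val : ℝ) * (τ 0).im + ((((1 : ℤ) : ZMod 2)).val : ℝ) * (τ 2).im -
        2 * ((((0 : ℤ) : ZMod 2)).val : ℝ) * ((((1 : ℤ) : ZMod 2)).val : ℝ) * (τ 1).im) / 4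
    rw [v0, v1]
    push_cast
    ring
  · show -π * ((((1 : ℤ) : ℝ)) ^ 2 * (τ 0).im + ((-1 : ℤ) : ℝ) ^ 2 * (τ 2).im +
      2 * ((1 : ℤ) : ℝ) * ((-1 : ℤ) : ℝ) * (τ 1).im) / 4 =
      -π * (((((1 : ℤ) : ZMod 2)).val : ℝ) * (τ 0).im + ((((-1 : ℤ) : ZMod 2)).val : ℝ) * (τ 2).im -
        2 * ((((1 : ℤ) : ZMod 2)).val : ℝ) * ((((-1 : ℤ) : ZMod 2)).val : ℝ) * (τ 1).im) / 4
    rw [v1, v2]
    push_cast
    ring

lemma small (x : T3) (hx : x ∈ Kc) (j : Fin 4) (n : ℤ × ℤ) :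
    ‖mon (exj j n) x‖ ≤ (103 / 200) ^ Ej j n := by
  obtain ⟨h1, h2⟩ := hx
  unfold mon
  rw [norm_mul, norm_mul, norm_pow, norm_pow, norm_pow]
  have a0 : ‖x 0‖ ^ exj j n 0 ≤ ‖x 0‖ ^ Ej j n :=
    pow_le_pow_of_le_one (norm_nonneg _) (h1 0) (min_le_left _ _)
  have a1 : ‖x 1‖ ^ exj j n 1 ≤ ‖x 1‖ ^ Ej j n :=
    pow_le_pow_of_le_one (norm_nonneg _) (h1 1) (min_le_right _ _)
  have a2 : ‖x 2‖ ^ exj j n 2 ≤ 1 := pow_le_one₀ (norm_nonneg _) (h1 2)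
  calc ‖x 0‖ ^ exj j n 0 * ‖x 1‖ ^ exj j n 1 * ‖x 2‖ ^ exj j n 2
      ≤ ‖x 0‖ ^ Ej j n * ‖x 1‖ ^ Ej j n * 1 := by gcongr
    _ = (‖x 0‖ * ‖x 1‖) ^ Ej j n := by rw [mul_one, mul_pow]
    _ ≤ (103 / 200) ^ Ej j n := pow_le_pow_left₀ (by positivity) h2 _

lemma mon_zero (j : Fin 4) (x : T3) : mon (exj j 0) x = 1 := by
  simp [mon, exj]

lemma EE_le (hNUM : St_NUM) (x : T3) (hx : x ∈ Kc) (j : Fin 4) : ‖EE j x - 1‖ ≤ 1 / 56 := by
  classical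
  have hb : ∀ n : ℤ × ℤ, ‖(if n = 0 then 0 else mon (exj j n) x : ℂ)‖ ≤
      1 / 8 * ((Ej j n : ℝ) * (103 / 200) ^ Ej j n) := by
    intro n
    split_ifs with h
    · rw [norm_zero]
      positivity
    · have h8 : (8 : ℝ) ≤ Ej j n := by exact_mod_cast (hNUM.big j n h).1
      have hp : (0 : ℝ) ≤ (103 / 200) ^ Ej j n := by positivity
      refine (small x hx j n).trans ?_
      nlinarith
  have hs : Summable fun n : ℤ × ℤ ↦ 1 / 8 * ((Ej j n : ℝ) * (103 / 200) ^ Ej j n) :=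
    (hNUM.summ j).mul_left _
  have hs1 : Summable fun n : ℤ × ℤ ↦ (if n = 0 then 0 else mon (exj j n) x : ℂ) :=
    Summable.of_norm_bounded hs hb
  have hs2 : Summable fun n : ℤ × ℤ ↦ mon (exj j n) x := by
    have e : (fun n : ℤ × ℤ ↦ mon (exj j n) x) = fun n : ℤ × ℤ ↦
        (if n = 0 then 0 else mon (exj j n) x : ℂ) + (if n = 0 then 1 else 0 : ℂ) := by
      funext n
      split_ifs with h
      · rw [h, mon_zero, zero_add]
      · rw [add_zero]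
    rw [e]
    exact hs1.add (hasSum_ite_eq (0 : ℤ × ℤ) (1 : ℂ)).summable
  unfold EE
  rw [hs2.tsum_eq_add_tsum_ite 0, mon_zero, add_sub_cancel_left]
  refine (tsum_of_norm_bounded hs.hasSum hb).trans ?_
  rw [tsum_mul_left]
  have := hNUM.sum_le j
  linarith

end XXQ

theorem st_XQ (hNUM : St_NUM) : St_XQ where
  red := XXQ.red
  om := XXQ.om
  sub := XXQ.sub
  isOpen := XXQ.isOpen
  isCompact := XXQ.isCompact
  term := XXQ.term_eq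
  fp := XXQ.fp_eq hNUM
  lead := XXQ.lead_eq
  small := XXQ.small
  EE := XXQ.EE_le hNUM

end Pool.Agent.Lib.ECM
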