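import Pool.Agent.Lib.ECM.THBlue2

/-! The theta constant `[11,11]` vanishes in the reduced domain only on the diagonal. -/

open Complex
open scoped Real

noncomputable section

namespace Pool.Agent.Lib.ECM

namespace XZER1

theorem pow_sub {x y : ℂ} {R : ℝ} (hx : ‖x‖ ≤ R) (hy : ‖y‖ ≤ R) (k : ℕ) :
    ‖x ^ (k + 1) - y ^ (k + 1)‖ ≤ (k + 1) * R ^ k * ‖x - y‖ := by
  have hR : 0 ≤ R := (norm_nonneg x).trans hx
  induction k with
  | zero => simp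
  | succ k ih =>
    have h1 : x ^ (k + 1 + 1) - y ^ (k + 1 + 1) =
        x * (x ^ (k + 1) - y ^ (k + 1)) + y ^ (k + 1) * (x - y) := by ring
    rw [h1]
    refine (norm_add_le _ _).trans ?_
    rw [norm_mul, norm_mul, norm_pow]
    have h2 : ‖x‖ * ‖x ^ (k + 1) - y ^ (k + 1)‖ ≤ R * ((k + 1) * R ^ k * ‖x - y‖) :=
      mul_le_mul hx ih (norm_nonneg _) hR
    have h3 : ‖y‖ ^ (k + 1) * ‖x - y‖ ≤ R ^ (k + 1) * ‖x - y‖ :=
      mul_le_mul_of_nonneg_right (pow_le_pow_left₀ (norm_nonneg _) hy _) (norm_nonneg _)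
    push_cast
    refine (add_le_add h2 h3).trans (le_of_eq ?_)
    ring

/-- `|2 n + 1| = 2 m + 1` -/
def mm (n : ℤ) : ℕ := Int.rec (fun k ↦ k) (fun k ↦ k) n

theorem mm_spec (n : ℤ) : 2 * n + 1 = 2 * (mm n : ℤ) + 1 ∨ 2 * n + 1 = -(2 * (mm n : ℤ) + 1) := by
  cases n with
  | ofNat k => left; rfl
  | negSucc k => right; rw [Int.negSucc_eq]; change _ = -(2 * (k : ℤ) + 1); ring

theorem geo {r : ℝ} (h0 : 0 ≤ r) (h1 : r < 1) :
    HasSum (fun n : ℤ × ℤ ↦ r ^ mm n.1 * r ^ mm n.2) ((2 * (1 - r)⁻¹) ^ 2) := by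
  have h := hasSum_geometric_of_lt_one h0 h1
  have h2 : HasSum (fun n : ℤ ↦ r ^ mm n) (2 * (1 - r)⁻¹) := by
    have h3 := h.int_rec h
    rw [← two_mul] at h3
    have h4 : (fun n : ℤ ↦ r ^ mm n) = Int.rec (fun n ↦ r ^ n) (fun n ↦ r ^ n) := by
      funext n; cases n <;> rfl
    rwa [h4]
  have h5 : Summable fun n : ℤ × ℤ ↦ r ^ mm n.1 * r ^ mm n.2 :=
    Summable.mul_of_nonneg (f := fun n : ℤ ↦ r ^ mm n) (g := fun n : ℤ ↦ r ^ mm n) h2.summable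
      h2.summable (fun _ ↦ pow_nonneg h0 _) fun _ ↦ pow_nonneg h0 _
  rw [sq]
  exact HasSum.mul (f := fun n : ℤ ↦ r ^ mm n) (g := fun n : ℤ ↦ r ^ mm n) h2 h2 h5

/-- the general term of the series -/
def F (τ : T3) (n : ℤ × ℤ) : ℂ := term τ (iv n + ca (1, 1, 1, 1)) (0 + cb (1, 1, 1, 1))

/-- the diagonal factor -/
def W (τ : T3) (a b : ℤ) : ℂ := exp (π * I * (τ 0 * a ^ 2 + τ 2 * b ^ 2) / 4)

theorem F_eq (τ : T3) (n : ℤ × ℤ) : F τ n = W τ (2 * n.1 + 1) (2 * n.2 + 1) *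
    exp ((n.1 + n.2 + 1 : ℤ) * (π * I)) *
      exp (π * I * τ 1 / 2) ^ ((2 * n.1 + 1) * (2 * n.2 + 1)) := by
  have h : (1 : ZMod 2).val = 1 := rfl
  rw [← exp_int_mul, F, W, term, ← exp_add, ← exp_add]
  congr 1
  simp [Qf, dot, iv, ca, cb, h]
  ring

/-- the reflection of the second coordinate -/
def sw : ℤ × ℤ ≃ ℤ × ℤ := (Equiv.refl ℤ).prodCongr (Equiv.subLeft (-1))

theorem G_eq (τ : T3) (n : ℤ × ℤ) : F τ n + F τ (sw n) = W τ (2 * n.1 + 1) (2 * n.2 + 1) *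
    (-1) ^ (n.1 + n.2 + 1) * (exp (π * I * τ 1 / 2) ^ ((2 * n.1 + 1) * (2 * n.2 + 1)) -
      (exp (π * I * τ 1 / 2))⁻¹ ^ ((2 * n.1 + 1) * (2 * n.2 + 1))) := by
  rw [F_eq, F_eq]
  have h1 : (sw n).1 = n.1 := rfl
  have h2 : (sw n).2 = -1 - n.2 := rfl
  have h3 : W τ (2 * n.1 + 1) (2 * (-1 - n.2) + 1) = W τ (2 * n.1 + 1) (2 * n.2 + 1) := by
    unfold W; congr 1; push_cast; ring
  have h4 : (2 * n.1 + 1) * (2 * (-1 - n.2) + 1) = -((2 * n.1 + 1) * (2 * n.2 + 1)) := by ring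
  have h5 : ((-1 : ℂ)) ^ (n.1 + (-1 - n.2) + 1) = -(-1) ^ (n.1 + n.2 + 1) := by
    have h6 : n.1 + n.2 + 1 = (n.1 + (-1 - n.2) + 1) + (2 * n.2 + 1) := by ring
    rw [h6, zpow_add₀ (by norm_num : (-1 : ℂ) ≠ 0) _ (2 * n.2 + 1),
      Odd.neg_one_zpow (n := 2 * n.2 + 1) ⟨n.2, rfl⟩]
    ring
  rw [h1, h2, h3, h4, exp_int_mul, exp_int_mul, exp_pi_mul_I, h5, zpow_neg, inv_zpow]
  ring

theorem norm_W (τ : T3) (a b : ℤ) :
    ‖W τ a b‖ = Real.exp (-π * ((τ 0).im * a ^ 2 + (τ 2).im * b ^ 2) / 4) := by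
  rw [W, norm_exp]
  congr 1
  simp [sq]

theorem num {y0 y1 y2 : ℝ} (h2 : 2 * y1 ≤ y0) (h3 : y0 ≤ y2) (h4 : 17 / 20 ≤ y0) (a b : ℕ) :
    Real.exp (-π * (y0 * (2 * a + 1) ^ 2 + y2 * (2 * b + 1) ^ 2) / 4) *
      ((((4 * a * b + 2 * a + 2 * b : ℕ) : ℝ) + 1) *
        Real.exp (π * y1 / 2) ^ (4 * a * b + 2 * a + 2 * b)) ≤
    Real.exp (-π * (y0 + y2) / 4) * ((27 / 100) ^ a * (27 / 100) ^ b) := by
  have hq : Real.exp (-(66 / 25)) ≤ 9 / 100 := by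
    have h5 := Real.quadratic_le_exp_of_nonneg (x := 22 / 25) (by norm_num)
    have h6 : Real.exp (66 / 25) = Real.exp (22 / 25) ^ 3 := by
      rw [← Real.exp_nat_mul]; norm_num
    have h7 := pow_le_pow_left₀ (by norm_num) h5 3
    rw [Real.exp_neg, inv_le_comm₀ (Real.exp_pos _) (by norm_num), h6]
    exact le_trans (by norm_num) h7
  have h3p : ∀ k : ℕ, (2 * k + 1 : ℝ) ≤ 3 ^ k := fun k ↦ by
    have := one_add_mul_le_pow (a := (2 : ℝ)) (by norm_num) k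
    norm_num at this
    linarith
  have hsq : ∀ k : ℕ, (k : ℝ) ≤ k ^ 2 := fun k ↦ by exact_mod_cast Nat.le_self_pow two_ne_zero k
  have ha : (0 : ℝ) ≤ a := a.cast_nonneg
  have hb : (0 : ℝ) ≤ b := b.cast_nonneg
  have hk : ((4 * a * b + 2 * a + 2 * b : ℕ) : ℝ) + 1 ≤ 3 ^ a * 3 ^ b := by
    refine le_trans (le_of_eq ?_) (mul_le_mul (h3p a) (h3p b) (by positivity) (by positivity))
    push_cast; ring
  have hE : (a + b : ℝ) * (17 / 20) ≤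
      y0 * (a ^ 2 + a) + y2 * (b ^ 2 + b) - (2 * a * b + a + b) * y1 := by
    have e1 : y0 * (b ^ 2 + b) ≤ y2 * (b ^ 2 + b) := mul_le_mul_of_nonneg_right h3 (by positivity)
    have e2 : (2 * a * b + a + b) * (2 * y1) ≤ (2 * a * b + a + b) * y0 :=
      mul_le_mul_of_nonneg_left h2 (by positivity)
    have e3 : (a + b : ℝ) ≤ a ^ 2 + a + (b ^ 2 + b) - (2 * a * b + a + b) / 2 := by
      nlinarith [hsq a, hsq b, sq_nonneg ((a : ℝ) - b)]
    have e4 := mul_le_mul e3 h4 (by norm_num) (le_trans (by positivity) e3)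
    nlinarith
  have hexp : Real.exp (-π * (y0 * (2 * a + 1) ^ 2 + y2 * (2 * b + 1) ^ 2) / 4) *
      Real.exp (π * y1 / 2) ^ (4 * a * b + 2 * a + 2 * b) ≤
      Real.exp (-π * (y0 + y2) / 4) * (Real.exp (-(66 / 25)) ^ a * Real.exp (-(66 / 25)) ^ b) := by
    simp only [← Real.exp_nat_mul, ← Real.exp_add]
    refine Real.exp_le_exp.2 ?_
    have e5 := mul_le_mul_of_nonneg_left hE Real.pi_pos.le
    have e6 : (a + b : ℝ) * 3.14 ≤ (a + b) * π :=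
      mul_le_mul_of_nonneg_left Real.pi_gt_d2.le (by positivity)
    push_cast
    nlinarith
  have hpow : Real.exp (-(66 / 25)) ^ a * Real.exp (-(66 / 25)) ^ b ≤
      (9 / 100) ^ a * (9 / 100) ^ b := by gcongr
  calc _ = (((4 * a * b + 2 * a + 2 * b : ℕ) : ℝ) + 1) *
        (Real.exp (-π * (y0 * (2 * a + 1) ^ 2 + y2 * (2 * b + 1) ^ 2) / 4) *
          Real.exp (π * y1 / 2) ^ (4 * a * b + 2 * a + 2 * b)) := by ring
    _ ≤ (3 ^ a * 3 ^ b) * (Real.exp (-π * (y0 + y2) / 4) * ((9 / 100) ^ a * (9 / 100) ^ b)) :=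
      mul_le_mul hk (hexp.trans (by gcongr)) (by positivity) (by positivity)
    _ = _ := by
      rw [show (27 / 100 : ℝ) = 3 * (9 / 100) by norm_num, mul_pow, mul_pow]; ring

theorem bound {τ : T3} (h : τ ∈ Red) (n : ℤ × ℤ) : ‖F τ n + F τ (sw n)‖ ≤
    ‖W τ 1 1 * (exp (π * I * τ 1 / 2) - (exp (π * I * τ 1 / 2))⁻¹)‖ *
      ((27 / 100) ^ mm n.1 * (27 / 100) ^ mm n.2) := by
  obtain ⟨h1, h2, h3, h4, -⟩ := h
  set x := exp (π * I * τ 1 / 2) with hx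
  have hn : ‖x‖ = Real.exp (-(π * (τ 1).im / 2)) := by
    rw [hx, norm_exp]; congr 1; simp; ring
  have hp : 0 ≤ π * (τ 1).im / 2 := by positivity
  have hx1 : ‖x‖ ≤ Real.exp (π * (τ 1).im / 2) := by
    rw [hn]; exact Real.exp_le_exp.2 (by linarith)
  have hx2 : ‖x⁻¹‖ ≤ Real.exp (π * (τ 1).im / 2) := by
    rw [norm_inv, hn, ← Real.exp_neg, neg_neg]
  have hk := pow_sub hx1 hx2 (4 * mm n.1 * mm n.2 + 2 * mm n.1 + 2 * mm n.2)
  have hz : ‖x ^ ((2 * n.1 + 1) * (2 * n.2 + 1)) - x⁻¹ ^ ((2 * n.1 + 1) * (2 * n.2 + 1))‖ =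
      ‖x ^ (4 * mm n.1 * mm n.2 + 2 * mm n.1 + 2 * mm n.2 + 1) -
        x⁻¹ ^ (4 * mm n.1 * mm n.2 + 2 * mm n.1 + 2 * mm n.2 + 1)‖ := by
    set K := 4 * mm n.1 * mm n.2 + 2 * mm n.1 + 2 * mm n.2 + 1 with hK
    have hc : (2 * n.1 + 1) * (2 * n.2 + 1) = K ∨ (2 * n.1 + 1) * (2 * n.2 + 1) = -K := by
      rcases mm_spec n.1 with e1 | e1 <;> rcases mm_spec n.2 with e2 | e2 <;> rw [e1, e2, hK]
      · left; push_cast; ring
      · right; push_cast; ring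
      · right; push_cast; ring
      · left; push_cast; ring
    rcases hc with e | e
    · rw [e, zpow_natCast, zpow_natCast]
    · rw [e, zpow_neg, zpow_neg, zpow_natCast, zpow_natCast, inv_pow, inv_inv, norm_sub_rev]
  have hsq : ∀ m : ℤ, ((2 * m + 1 : ℤ) : ℝ) ^ 2 = (2 * (mm m : ℝ) + 1) ^ 2 := fun m ↦ by
    rcases mm_spec m with e | e <;> rw [e] <;> push_cast <;> ring
  rw [G_eq, norm_mul, norm_mul, norm_mul, ← hx, hz, norm_W, norm_W, hsq, hsq, norm_zpow, norm_neg,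
    norm_one, one_zpow, mul_one]
  refine (mul_le_mul_of_nonneg_left hk (Real.exp_pos _).le).trans ?_
  have h5 := mul_le_mul_of_nonneg_right (num h2 h3 h4 (mm n.1) (mm n.2)) (norm_nonneg (x - x⁻¹))
  simp only [Int.cast_one, one_pow, mul_one]
  linarith

theorem lead4 (τ : T3) (n : ℤ × ℤ) (h1 : mm n.1 = 0) (h2 : mm n.2 = 0) : F τ n + F τ (sw n) =
    -(W τ 1 1 * (exp (π * I * τ 1 / 2) - (exp (π * I * τ 1 / 2))⁻¹)) := by
  have e1 : n.1 = 0 ∨ n.1 = -1 := by have := mm_spec n.1; omega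
  have e2 : n.2 = 0 ∨ n.2 = -1 := by have := mm_spec n.2; omega
  rw [G_eq]
  rcases e1 with e1 | e1 <;> rcases e2 with e2 | e2 <;> rw [e1, e2] <;> norm_num [W] <;> ring

end XZER1

open XZER1 in
theorem st_ZER1 (hBAS : St_BAS) : ∀ τ ∈ Red, kk (1, 1, 1, 1) τ = 0 → τ 1 = 0 := by
  intro τ h h0
  have hs : HasSum (F τ) 0 := by
    have h1 := (hBAS.summ τ (hBAS.red h) (ca (1, 1, 1, 1)) (0 + cb (1, 1, 1, 1))).of_norm.hasSum
    rw [kk, th, thg] at h0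
    rwa [h0] at h1
  have hG := hs.add (sw.hasSum_iff.2 hs)
  set E := W τ 1 1 * (exp (π * I * τ 1 / 2) - (exp (π * I * τ 1 / 2))⁻¹) with hE
  have g0 := geo le_rfl zero_lt_one
  have g1 := geo (r := 27 / 100) (by norm_num) (by norm_num)
  have hH := hG.add ((ofRealCLM.hasSum g0).mul_left E)
  have hle := hH.norm_le_of_bounded ((g1.sub g0).mul_left ‖E‖) fun n ↦ by
    by_cases hn : mm n.1 = 0 ∧ mm n.2 = 0
    · simp [lead4 τ n hn.1 hn.2, hn.1, hn.2, hE]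
    · have h2 : (0 : ℝ) ^ mm n.1 * 0 ^ mm n.2 = 0 := by
        rcases not_and_or.1 hn with e | e <;> simp [e]
      have h3 := bound h n
      rw [← hE] at h3
      simpa [h2] using h3
  have hE0 : ‖E‖ = 0 := by
    norm_num at hle
    linarith [norm_nonneg E]
  have h3 : exp (π * I * τ 1 / 2) = exp (-(π * I * τ 1 / 2)) := by
    rw [exp_neg]
    exact sub_eq_zero.1 ((mul_eq_zero.1 (norm_eq_zero.1 hE0)).resolve_left (exp_ne_zero _))
  obtain ⟨k, hk⟩ := exp_eq_exp_iff_exists_int.1 h3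
  have h4 : τ 1 = 2 * k := by
    have hπ : (π : ℂ) * I ≠ 0 := mul_ne_zero (ofReal_ne_zero.2 Real.pi_ne_zero) I_ne_zero
    refine mul_left_cancel₀ hπ ?_
    linear_combination hk
  have h5 := h.2.2.2.2 1
  rw [h4] at h5
  have h6 : |(2 * k : ℝ)| ≤ 1 / 2 := by simpa using h5
  have h7 : k = 0 := by
    rw [abs_le] at h6
    have a1 : (k : ℝ) < 1 := by linarith
    have a2 : (-1 : ℝ) < k := by linarith
    have b1 : k < 1 := by exact_mod_cast a1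
    have b2 : -1 < k := by exact_mod_cast a2
    omega
  rw [h4, h7]
  simp

end Pool.Agent.Lib.ECM
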