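import Pool.Agent.Lib.ECM.THBlue

/-! Genus two theta functions: upper estimates on the reduced domain. -/

open Complex Filter Topology Metric
open scoped Real ComplexConjugate

noncomputable section

namespace Pool.Agent.Lib.ECM

namespace XEST1

/-- a Gaussian majorant -/
def Mj (n : ℤ × ℤ) : ℝ :=
  (|(n.1 : ℝ)| + |(n.2 : ℝ)| + 1) * Real.exp (-π * (((n.1 : ℝ) ^ 2 + (n.2 : ℝ) ^ 2) / 5))

lemma Mj_nonneg (n : ℤ × ℤ) : 0 ≤ Mj n := by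
  unfold Mj; positivity

lemma exp_le_Mj (n : ℤ × ℤ) :
    Real.exp (-π * (((n.1 : ℝ) ^ 2 + (n.2 : ℝ) ^ 2) / 5)) ≤ Mj n := by
  unfold Mj
  have h1 : (1 : ℝ) ≤ |(n.1 : ℝ)| + |(n.2 : ℝ)| + 1 := by
    have := abs_nonneg (n.1 : ℝ); have := abs_nonneg (n.2 : ℝ); linarith
  exact le_mul_of_one_le_left (Real.exp_pos _).le h1

lemma Mj_summable (hBAS : St_BAS) : Summable Mj := by
  have hτ : (![I / 5, 0, I / 5] : T3) ∈ H2 := by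
    simp [H2]
  have h := hBAS.summ_pow _ hτ 0 0 1
  refine h.congr fun n ↦ ?_
  rw [hBAS.norm_term _ _ _ (by intro i; fin_cases i <;> simp [iv])]
  simp only [Mj, pow_one]
  congr 2
  simp [iv]
  ring

lemma val_cases (a : ZMod 2) : (a.val : ℤ) = 0 ∨ (a.val : ℤ) = 1 := by
  have := ZMod.val_lt a
  omega

lemma sq_ge (n a : ℤ) (ha : a = 0 ∨ a = 1) : a ≤ (2 * n + a) ^ 2 ∧ 2 * n ^ 2 - 1 ≤ (2 * n + a) ^ 2 := by
  rcases ha with rfl | rfl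
  · constructor <;> nlinarith [sq_nonneg n]
  · constructor
    · rcases le_or_gt 0 n with h | h
      · nlinarith
      · have : n + 1 ≤ 0 := by omega
        nlinarith
    · nlinarith [sq_nonneg (n + 1)]

lemma key_int (n₀ n₁ a b : ℤ) (ha : a = 0 ∨ a = 1) (hb : b = 0 ∨ b = 1) :
    0 ≤ (2 * n₁ + b) ^ 2 - b ∧
    0 ≤ (2 * n₀ + a) ^ 2 + (2 * n₁ + b) ^ 2 - a - b ∧
    n₀ ^ 2 + n₁ ^ 2 - 4 ≤ (2 * n₀ + a) ^ 2 + (2 * n₁ + b) ^ 2 - a - b ∧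
    0 ≤ (2 * n₀ + a) ^ 2 + (2 * n₁ + b) ^ 2 + (2 * n₀ + a) * (2 * n₁ + b) - a - b + a * b ∧
    n₀ ^ 2 + n₁ ^ 2 - 4 ≤
      (2 * n₀ + a) ^ 2 + (2 * n₁ + b) ^ 2 + (2 * n₀ + a) * (2 * n₁ + b) - a - b + a * b := by
  obtain ⟨h1, h2⟩ := sq_ge n₀ a ha
  obtain ⟨h3, h4⟩ := sq_ge n₁ b hb
  generalize 2 * n₀ + a = X at *
  generalize 2 * n₁ + b = Y at *
  have e1 := sq_nonneg (X + Y)
  have e2 := sq_nonneg (2 * X + Y)
  have e3 := sq_nonneg (X + 2 * Y)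
  have e4 := sq_nonneg n₀
  have e5 := sq_nonneg n₁
  have f1 : (X + Y) ^ 2 = X ^ 2 + 2 * (X * Y) + Y ^ 2 := by ring
  have f2 : (2 * X + Y) ^ 2 = 4 * X ^ 2 + 4 * (X * Y) + Y ^ 2 := by ring
  have f3 : (X + 2 * Y) ^ 2 = X ^ 2 + 4 * (X * Y) + 4 * Y ^ 2 := by ring
  rw [f1] at e1; rw [f2] at e2; rw [f3] at e3
  generalize X ^ 2 = A at *
  generalize Y ^ 2 = B at *
  generalize X * Y = D at *
  generalize n₀ ^ 2 = u at *
  generalize n₁ ^ 2 = v at *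
  rcases ha with rfl | rfl <;> rcases hb with rfl | rfl <;> omega

lemma key (y₀ y₁ y₂ : ℝ) (h1 : 0 ≤ y₁) (h2 : 2 * y₁ ≤ y₀) (h3 : y₀ ≤ y₂) (h4 : 17 / 20 ≤ y₀)
    (n₀ n₁ a b : ℤ) (ha : a = 0 ∨ a = 1) (hb : b = 0 ∨ b = 1) :
    ((a : ℝ) * y₀ + b * y₂ - 2 * a * b * y₁) / 4 + ((n₀ : ℝ) ^ 2 + (n₁ : ℝ) ^ 2 - 4) / 5 ≤
      y₀ * ((n₀ : ℝ) + a / 2) ^ 2 + 2 * y₁ * ((n₀ : ℝ) + a / 2) * ((n₁ : ℝ) + b / 2) +
        y₂ * ((n₁ : ℝ) + b / 2) ^ 2 := by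
  obtain ⟨e2, e1, e1', e0, e0'⟩ := key_int n₀ n₁ a b ha hb
  have r2 : (0 : ℝ) ≤ (2 * n₁ + b) ^ 2 - b := by exact_mod_cast e2
  have r1 : (0 : ℝ) ≤ (2 * n₀ + a) ^ 2 + (2 * n₁ + b) ^ 2 - a - b := by exact_mod_cast e1
  have r1' : (n₀ : ℝ) ^ 2 + n₁ ^ 2 - 4 ≤ (2 * n₀ + a) ^ 2 + (2 * n₁ + b) ^ 2 - a - b := by
    exact_mod_cast e1'
  have r0 : (0 : ℝ) ≤
      (2 * n₀ + a) ^ 2 + (2 * n₁ + b) ^ 2 + (2 * n₀ + a) * (2 * n₁ + b) - a - b + a * b := by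
    exact_mod_cast e0
  have r0' : (n₀ : ℝ) ^ 2 + n₁ ^ 2 - 4 ≤
      (2 * n₀ + a) ^ 2 + (2 * n₁ + b) ^ 2 + (2 * n₀ + a) * (2 * n₁ + b) - a - b + a * b := by
    exact_mod_cast e0'
  set E2 : ℝ := (2 * n₁ + b) ^ 2 - b with hE2
  set E1 : ℝ := (2 * n₀ + a) ^ 2 + (2 * n₁ + b) ^ 2 - a - b with hE1
  set E0 : ℝ := (2 * n₀ + a) ^ 2 + (2 * n₁ + b) ^ 2 + (2 * n₀ + a) * (2 * n₁ + b) - a - b + a * b
    with hE0
  set L : ℝ := max 0 ((n₀ : ℝ) ^ 2 + n₁ ^ 2 - 4) with hL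
  have l0 : 0 ≤ L := le_max_left _ _
  have l1 : (n₀ : ℝ) ^ 2 + n₁ ^ 2 - 4 ≤ L := le_max_right _ _
  have l2 : L ≤ E1 := max_le r1 r1'
  have l3 : L ≤ E0 := max_le r0 r0'
  have id : y₀ * ((n₀ : ℝ) + a / 2) ^ 2 + 2 * y₁ * ((n₀ : ℝ) + a / 2) * ((n₁ : ℝ) + b / 2) +
      y₂ * ((n₁ : ℝ) + b / 2) ^ 2 - ((a : ℝ) * y₀ + b * y₂ - 2 * a * b * y₁) / 4 =
      ((y₀ - 2 * y₁) * E1 + (y₂ - y₀) * E2 + 2 * y₁ * E0) / 4 := by
    rw [hE0, hE1, hE2]; ring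
  have m1 : (y₀ - 2 * y₁) * L ≤ (y₀ - 2 * y₁) * E1 := mul_le_mul_of_nonneg_left l2 (by linarith)
  have m2 : 0 ≤ (y₂ - y₀) * E2 := mul_nonneg (by linarith) r2
  have m3 : 2 * y₁ * L ≤ 2 * y₁ * E0 := mul_le_mul_of_nonneg_left l3 (by linarith)
  have m4 : 17 / 20 * L ≤ y₀ * L := mul_le_mul_of_nonneg_right h4 l0
  nlinarith

lemma norm_kterm (hBAS : St_BAS) (τ : T3) (m : Ch) (n : ℤ × ℤ) :
    ‖term τ (iv n + ca m) (0 + cb m)‖ =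
      Real.exp (-π * ((τ 0).im * ((n.1 : ℝ) + (m.1.val : ℝ) / 2) ^ 2 +
        2 * (τ 1).im * ((n.1 : ℝ) + (m.1.val : ℝ) / 2) * ((n.2 : ℝ) + (m.2.1.val : ℝ) / 2) +
        (τ 2).im * ((n.2 : ℝ) + (m.2.1.val : ℝ) / 2) ^ 2)) := by
  rw [hBAS.norm_term _ _ _ (by intro i; fin_cases i <;> simp [iv, ca, -ZMod.natCast_val])]
  congr 2
  simp [iv, ca, cb, -ZMod.natCast_val]

lemma kterm_le (hBAS : St_BAS) {τ : T3} (hτ : τ ∈ Red) (m : Ch) (n : ℤ × ℤ) :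
    ‖term τ (iv n + ca m) (0 + cb m)‖ ≤ Real.exp (π * (4 / 5)) * lead m τ *
      Real.exp (-π * (((n.1 : ℝ) ^ 2 + (n.2 : ℝ) ^ 2) / 5)) := by
  obtain ⟨h1, h2, h3, h4, -⟩ := hτ
  rw [norm_kterm hBAS, lead, ← Real.exp_add, ← Real.exp_add]
  apply Real.exp_le_exp.2
  have hk := key _ _ _ h1 h2 h3 h4 n.1 n.2 _ _ (val_cases m.1) (val_cases m.2.1)
  push_cast at hk
  simp only [ZMod.natCast_val] at hk ⊢
  nlinarith [Real.pi_pos]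

lemma norm_dot_le (m : Ch) (n : ℤ × ℤ) (v : V2) :
    ‖dot (iv n + ca m) v‖ ≤ (|(n.1 : ℝ)| + |(n.2 : ℝ)| + 1) * ‖v‖ := by
  have hv0 : ‖v 0‖ ≤ ‖v‖ := norm_le_pi_norm v 0
  have hv1 : ‖v 1‖ ≤ ‖v‖ := norm_le_pi_norm v 1
  have hh : ∀ (k : ℤ) (a : ZMod 2), ‖(k : ℂ) + (a.val : ℂ) / 2‖ ≤ |(k : ℝ)| + 1 / 2 := by
    intro k a
    refine (norm_add_le _ _).trans (add_le_add (by simp) ?_)
    have : a.val ≤ 1 := by have := ZMod.val_lt a; omega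
    have h' : (a.val : ℝ) ≤ 1 := by exact_mod_cast this
    rw [norm_div, Complex.norm_natCast]
    simp only [Complex.norm_ofNat]
    linarith
  have e : dot (iv n + ca m) v = ((n.1 : ℂ) + (m.1.val : ℂ) / 2) * v 0 +
      ((n.2 : ℂ) + (m.2.1.val : ℂ) / 2) * v 1 := by
    simp [dot, iv, ca]
  rw [e]
  refine (norm_add_le _ _).trans ?_
  rw [norm_mul, norm_mul]
  have a0 := mul_le_mul (hh n.1 m.1) hv0 (norm_nonneg _) (by positivity)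
  have a1 := mul_le_mul (hh n.2 m.2.1) hv1 (norm_nonneg _) (by positivity)
  linarith

lemma up (hBAS : St_BAS) : ∃ C : ℝ, 0 < C ∧ ∀ τ ∈ Red, ∀ m : Ch, ‖kk m τ‖ ≤ C * lead m τ ∧
    ∀ v : V2, ‖ll m τ v‖ ≤ C * lead m τ * ‖v‖ := by
  have hS := (Mj_summable hBAS).hasSum
  set S := ∑' n, Mj n with hSdef
  have hS0 : 0 ≤ S := tsum_nonneg Mj_nonneg
  have hpi := Real.pi_gt_three
  set K := Real.exp (π * (4 / 5)) with hK
  have hK0 : 0 < K := Real.exp_pos _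
  refine ⟨2 * π * K * S + 1, by positivity, fun τ hτ m ↦ ?_⟩
  have hl : 0 < lead m τ := Real.exp_pos _
  constructor
  · have h : ‖kk m τ‖ ≤ K * lead m τ * S := by
      refine tsum_of_norm_bounded (hS.mul_left (K * lead m τ)) fun n ↦ ?_
      exact (kterm_le hBAS hτ m n).trans
        (mul_le_mul_of_nonneg_left (exp_le_Mj n) (by positivity))
    have h2 : 0 ≤ K * lead m τ * S := by positivity
    nlinarith
  · intro v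
    have h : ‖ll m τ v‖ ≤ 2 * π * K * lead m τ * ‖v‖ * S := by
      rw [ll, hBAS.dth_eq m τ (hBAS.red hτ)]
      refine tsum_of_norm_bounded (hS.mul_left (2 * π * K * lead m τ * ‖v‖)) fun n ↦ ?_
      rw [norm_mul, norm_mul]
      have e : ‖(2 * π * I : ℂ)‖ = 2 * π := by
        simp [abs_of_pos Real.pi_pos]
      rw [e]
      have a0 := mul_le_mul (norm_dot_le m n v) (kterm_le hBAS hτ m n) (norm_nonneg _)
        (by positivity)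
      have a1 := mul_le_mul_of_nonneg_left a0 (by positivity : (0 : ℝ) ≤ 2 * π)
      calc _ = 2 * π * (‖dot (iv n + ca m) v‖ * ‖term τ (iv n + ca m) (0 + cb m)‖) := by ring
        _ ≤ _ := a1
        _ = _ := by rw [Mj]; ring
    have h2 : 0 ≤ lead m τ * ‖v‖ := by positivity
    nlinarith

lemma QY_ge (y₀ y₁ y₂ : ℝ) (h1 : 0 ≤ y₁) (h2 : 2 * y₁ ≤ y₀) (h3 : y₀ ≤ y₂) (h4 : 17 / 20 ≤ y₀)
    (x₀ x₁ : ℝ) : 2 / 5 * (x₀ ^ 2 + x₁ ^ 2) ≤ y₀ * x₀ ^ 2 + 2 * y₁ * x₀ * x₁ + y₂ * x₁ ^ 2 := by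
  have a1 : 0 ≤ (y₂ - y₀) * x₁ ^ 2 := mul_nonneg (by linarith) (sq_nonneg _)
  have a2 : 0 ≤ y₁ * (x₀ + x₁) ^ 2 := mul_nonneg h1 (sq_nonneg _)
  have a3 : 0 ≤ (y₀ - y₁ - 2 / 5) * (x₀ ^ 2 + x₁ ^ 2) := mul_nonneg (by linarith) (by positivity)
  nlinarith

lemma shift_ge (k : ℤ) (s : ℝ) : ((k + ⌊s⌋ : ℤ) : ℝ) ^ 2 / 2 - 1 ≤ ((k : ℝ) + s) ^ 2 := by
  have h1 := Int.floor_le s
  have h2 := Int.lt_floor_add_one s
  push_cast
  have e : (k : ℝ) + s = ((k : ℝ) + ⌊s⌋) + (s - ⌊s⌋) := by ring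
  rw [e]
  have h3 : (s - ⌊s⌋) ^ 2 ≤ 1 := by nlinarith
  nlinarith [sq_nonneg (((k : ℝ) + ⌊s⌋) + 2 * (s - ⌊s⌋))]

lemma grow (hBAS : St_BAS) : ∃ C : ℝ, 0 < C ∧ ∀ τ ∈ Red, ∀ a w : V2, (∀ i, (a i).im = 0) →
    ‖thg τ a w‖ ≤ C * Real.exp (π * qI τ w) := by
  have hS := (Mj_summable hBAS).hasSum
  set S := ∑' n, Mj n with hSdef
  have hS0 : 0 ≤ S := tsum_nonneg Mj_nonneg
  set K := Real.exp (π * (4 / 5)) with hK
  have hK0 : 0 < K := Real.exp_pos _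
  refine ⟨K * S + 1, by positivity, fun τ hτ a w ha ↦ ?_⟩
  have hH := hBAS.red hτ
  obtain ⟨h1, h2, h3, h4, -⟩ := hτ
  have hd : 0 < dY τ := by
    have := hH.2
    unfold dY; linarith
  set u₀ : ℝ := ((τ 2).im * (w 0).im - (τ 1).im * (w 1).im) / dY τ with hu₀
  set u₁ : ℝ := ((τ 0).im * (w 1).im - (τ 1).im * (w 0).im) / dY τ with hu₁
  have w0 : (w 0).im = (τ 0).im * u₀ + (τ 1).im * u₁ := by
    rw [hu₀, hu₁]; field_simp; unfold dY; ring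
  have w1 : (w 1).im = (τ 1).im * u₀ + (τ 2).im * u₁ := by
    rw [hu₀, hu₁]; field_simp; unfold dY; ring
  have hq : qI τ w = u₀ * (w 0).im + u₁ * (w 1).im := by
    rw [hu₀, hu₁, qI]; field_simp; ring
  let k : ℤ × ℤ := (⌊(a 0).re + u₀⌋, ⌊(a 1).re + u₁⌋)
  have hS' : HasSum (fun n ↦ Mj (n + k)) S := ((Equiv.addRight k).hasSum_iff (f := Mj)).2 hS
  have hE : 0 < Real.exp (π * qI τ w) := Real.exp_pos _
  have h : ‖thg τ a w‖ ≤ K * Real.exp (π * qI τ w) * S := by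
    refine tsum_of_norm_bounded (hS'.mul_left (K * Real.exp (π * qI τ w))) fun n ↦ ?_
    refine le_trans ?_ (mul_le_mul_of_nonneg_left (exp_le_Mj (n + k)) (by positivity))
    rw [hBAS.norm_term _ _ _ (by intro i; fin_cases i <;> simp [iv, ha]), hK, ← Real.exp_add,
      ← Real.exp_add]
    apply Real.exp_le_exp.2
    have p0 : ((iv n + a) 0).re = (n.1 : ℝ) + (a 0).re := by simp [iv]
    have p1 : ((iv n + a) 1).re = (n.2 : ℝ) + (a 1).re := by simp [iv]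
    rw [p0, p1]
    have s0 := shift_ge n.1 ((a 0).re + u₀)
    have s1 := shift_ge n.2 ((a 1).re + u₁)
    have q := QY_ge _ _ _ h1 h2 h3 h4 ((n.1 : ℝ) + ((a 0).re + u₀)) ((n.2 : ℝ) + ((a 1).re + u₁))
    have k0 : (n + k).1 = n.1 + ⌊(a 0).re + u₀⌋ := rfl
    have k1 : (n + k).2 = n.2 + ⌊(a 1).re + u₁⌋ := rfl
    rw [k0, k1, hq]
    generalize ((n.1 + ⌊(a 0).re + u₀⌋ : ℤ) : ℝ) = m₀ at *
    generalize ((n.2 + ⌊(a 1).re + u₁⌋ : ℤ) : ℝ) = m₁ at *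
    have key : (m₀ ^ 2 + m₁ ^ 2) / 5 - 4 / 5 - (u₀ * (w 0).im + u₁ * (w 1).im) ≤
        (τ 0).im * ((n.1 : ℝ) + (a 0).re) ^ 2 +
        2 * (τ 1).im * ((n.1 : ℝ) + (a 0).re) * ((n.2 : ℝ) + (a 1).re) +
        (τ 2).im * ((n.2 : ℝ) + (a 1).re) ^ 2 +
        2 * (((n.1 : ℝ) + (a 0).re) * (w 0).im + ((n.2 : ℝ) + (a 1).re) * (w 1).im) := by
      rw [w0, w1]
      nlinarith
    nlinarith [Real.pi_pos]
  nlinarith

/-! the bound `3 / 5` -/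

lemma hasSum_geo : HasSum (fun n : ℤ ↦ (7 / 100 : ℝ) ^ n.natAbs) (107 / 93) := by
  have h := hasSum_geometric_of_lt_one (r := (7 / 100 : ℝ)) (by norm_num) (by norm_num)
  have h2 := h.mul_left (7 / 100 : ℝ)
  have e : (107 / 93 : ℝ) = (1 - 7 / 100)⁻¹ + 7 / 100 * (1 - 7 / 100)⁻¹ := by norm_num
  rw [e]
  refine HasSum.of_nat_of_neg_add_one (by simpa using h) (h2.congr_fun ?_)
  intro n
  have : (-((n : ℤ) + 1)).natAbs = n + 1 := by omega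
  rw [this, pow_succ']

/-- the majorant of the nonconstant terms -/
def Fm (n : ℤ × ℤ) : ℝ :=
  (7 / 100 : ℝ) ^ n.1.natAbs * (7 / 100 : ℝ) ^ n.2.natAbs +
    (if n ∈ ({(1, 1), (1, -1), (-1, 1), (-1, -1)} : Finset (ℤ × ℤ)) then 651 / 10000 else 0) -
    (if n = 0 then 1 else 0)

lemma hasSum_Fm : HasSum Fm (107 / 93 * (107 / 93) + 651 / 2500 - 1) := by
  have h1 : HasSum (fun n : ℤ × ℤ ↦ (7 / 100 : ℝ) ^ n.1.natAbs * (7 / 100 : ℝ) ^ n.2.natAbs)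
      (107 / 93 * (107 / 93)) :=
    hasSum_geo.mul hasSum_geo (hasSum_geo.summable.mul_of_nonneg hasSum_geo.summable
      (fun _ ↦ by positivity) (fun _ ↦ by positivity))
  have h2 : HasSum (fun n : ℤ × ℤ ↦ if n ∈ ({(1, 1), (1, -1), (-1, 1), (-1, -1)} : Finset (ℤ × ℤ))
      then (651 / 10000 : ℝ) else 0) (651 / 2500) := by
    have := hasSum_sum_of_ne_finset_zero (s := ({(1, 1), (1, -1), (-1, 1), (-1, -1)} : Finset (ℤ × ℤ)))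
      (f := fun n : ℤ × ℤ ↦ if n ∈ ({(1, 1), (1, -1), (-1, 1), (-1, -1)} : Finset (ℤ × ℤ))
        then (651 / 10000 : ℝ) else 0) (L := SummationFilter.unconditional _)
      (fun b hb ↦ by simp only [hb, if_false])
    rw [Finset.sum_ite_mem, Finset.inter_self, Finset.sum_const] at this
    have c : ({(1, 1), (1, -1), (-1, 1), (-1, -1)} : Finset (ℤ × ℤ)).card = 4 := by decide
    rw [c] at this
    norm_num at this ⊢
    exact this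
  have h3 : HasSum (fun n : ℤ × ℤ ↦ if n = 0 then (1 : ℝ) else 0) 1 := hasSum_ite_eq 0 1
  exact (h1.add h2).sub h3

lemma exp_small : Real.exp (-(π * (17 / 20))) ≤ 7 / 100 := by
  have h1 : (267 / 100 : ℝ) ≤ π * (17 / 20) := by have := Real.pi_gt_d4; linarith
  have h2 : (100 / 7 : ℝ) ≤ Real.exp (267 / 100) := by
    have := Real.sum_le_exp_of_nonneg (x := 267 / 100) (by norm_num) 9
    refine le_trans ?_ this
    simp only [Finset.sum_range_succ, Finset.sum_range_zero, Nat.factorial]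
    norm_num
  have h3 := Real.exp_le_exp.2 h1
  rw [Real.exp_neg, inv_le_comm₀ (Real.exp_pos _) (by norm_num)]
  have e : (7 / 100 : ℝ)⁻¹ = 100 / 7 := by norm_num
  rw [e]
  exact h2.trans h3

lemma exp_le_pow (y₀ y₁ y₂ : ℝ) (h1 : 0 ≤ y₁) (h2 : 2 * y₁ ≤ y₀) (h3 : y₀ ≤ y₂)
    (h4 : 17 / 20 ≤ y₀) (n₀ n₁ : ℤ) (k : ℕ) (hk : (k : ℤ) ≤ n₀ ^ 2 + n₁ ^ 2 - |n₀| * |n₁|) :
    Real.exp (-π * (y₀ * (n₀ : ℝ) ^ 2 + 2 * y₁ * n₀ * n₁ + y₂ * (n₁ : ℝ) ^ 2)) ≤ (7 / 100) ^ k := by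
  have hk' : (k : ℝ) ≤ (n₀ : ℝ) ^ 2 + (n₁ : ℝ) ^ 2 - |(n₀ : ℝ)| * |(n₁ : ℝ)| := by exact_mod_cast hk
  refine le_trans ?_ (pow_le_pow_left₀ (Real.exp_pos _).le exp_small k)
  rw [← Real.exp_nat_mul]
  apply Real.exp_le_exp.2
  have a1 : 0 ≤ (y₂ - y₀) * (n₁ : ℝ) ^ 2 := mul_nonneg (by linarith) (sq_nonneg _)
  have a2 : -(|(n₀ : ℝ)| * |(n₁ : ℝ)|) ≤ (n₀ : ℝ) * n₁ := by
    rw [← abs_mul]; exact neg_abs_le _
  have a3 : 0 ≤ y₁ * ((n₀ : ℝ) * n₁ + |(n₀ : ℝ)| * |(n₁ : ℝ)|) := mul_nonneg h1 (by linarith)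
  have a4 : 0 ≤ (y₀ - 2 * y₁) * (|(n₀ : ℝ)| * |(n₁ : ℝ)|) := mul_nonneg (by linarith) (by positivity)
  have a5 : y₀ * k ≤ y₀ * ((n₀ : ℝ) ^ 2 + (n₁ : ℝ) ^ 2 - |(n₀ : ℝ)| * |(n₁ : ℝ)|) :=
    mul_le_mul_of_nonneg_left hk' (by linarith)
  have a6 : 17 / 20 * (k : ℝ) ≤ y₀ * k := mul_le_mul_of_nonneg_right h4 (Nat.cast_nonneg k)
  have a7 : 17 / 20 * (k : ℝ) ≤ y₀ * (n₀ : ℝ) ^ 2 + 2 * y₁ * n₀ * n₁ + y₂ * (n₁ : ℝ) ^ 2 := by
    nlinarith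
  nlinarith [Real.pi_pos]

lemma sum_le_form (a b : ℕ) (h : ¬ (a = 1 ∧ b = 1)) : (a : ℤ) + b ≤ a ^ 2 + b ^ 2 - a * b := by
  rcases Nat.lt_or_ge (a + b) 4 with h4 | h4
  · have ha : a ≤ 3 := by omega
    have hb : b ≤ 3 := by omega
    interval_cases a <;> interval_cases b <;> simp_all
  · have h5 : (4 : ℤ) ≤ a + b := by exact_mod_cast h4
    nlinarith [sq_nonneg ((a : ℤ) - b)]

lemma one (hBAS : St_BAS) : ∀ τ ∈ Red, ∀ m : Ch, m.1 = 0 → m.2.1 = 0 → ‖kk m τ - 1‖ ≤ 3 / 5 := by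
  intro τ hτ m hm1 hm2
  have hH := hBAS.red hτ
  obtain ⟨h1, h2, h3, h4, -⟩ := hτ
  have hs : HasSum (fun n : ℤ × ℤ ↦ term τ (iv n + ca m) (0 + cb m)) (kk m τ) :=
    (hBAS.summ τ hH (ca m) (0 + cb m)).of_norm.hasSum
  have h3' : HasSum (fun n : ℤ × ℤ ↦ if n = 0 then (1 : ℂ) else 0) 1 := hasSum_ite_eq 0 1
  rw [← (hs.sub h3').tsum_eq]
  refine (tsum_of_norm_bounded hasSum_Fm fun n ↦ ?_).trans (by norm_num)
  by_cases hn : n = 0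
  · subst hn
    simp [Fm, term, Qf, dot, iv, ca, hm1, hm2]
    positivity
  · simp only [Fm, hn, if_false, sub_zero]
    rw [norm_kterm hBAS]
    simp only [hm1, hm2, ZMod.val_zero, Nat.cast_zero, zero_div, add_zero]
    split_ifs with hc
    · refine (exp_le_pow _ _ _ h1 h2 h3 h4 n.1 n.2 1 ?_).trans ?_
      · simp only [Finset.mem_insert, Finset.mem_singleton] at hc
        rcases hc with rfl | rfl | rfl | rfl <;> norm_num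
      · simp only [Finset.mem_insert, Finset.mem_singleton] at hc
        rcases hc with rfl | rfl | rfl | rfl <;> norm_num
    · rw [add_zero, ← pow_add]
      refine exp_le_pow _ _ _ h1 h2 h3 h4 n.1 n.2 _ ?_
      have hab : ¬ (n.1.natAbs = 1 ∧ n.2.natAbs = 1) := by
        rintro ⟨ha, hb⟩
        apply hc
        obtain ⟨x, y⟩ := n
        simp only [Finset.mem_insert, Finset.mem_singleton, Prod.mk.injEq]
        simp only at ha hb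
        omega
      have := sum_le_form _ _ hab
      simp only [Int.natCast_natAbs, sq_abs] at this
      push_cast
      exact this

end XEST1

theorem st_EST1 (hBAS : St_BAS) : St_EST1 :=
  ⟨XEST1.one hBAS, XEST1.up hBAS, XEST1.grow hBAS⟩

end Pool.Agent.Lib.ECM
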