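import Pool.Agent.Lib.ECM.THBlue2
import Pool.Agent.Lib.ECM.TH_EST1

/-! Genus two theta functions: nine even theta constants have no zero in the reduced domain. -/

open Complex Filter Topology Metric
open scoped Real ComplexConjugate

noncomputable section

namespace Pool.Agent.Lib.ECM

namespace XZER9

theorem far {ι : Type} {f : ι → ℂ} {G : ι → ℝ} {S : ℂ} {M : ℝ} (hf : HasSum f S)
    (hG : HasSum G M) (T : Finset ι) (h : ∀ n, ‖f n‖ ≤ G n)
    (hT : M - ∑ n ∈ T, G n < ‖∑ n ∈ T, f n‖) : S ≠ 0 := by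
  have h1 : HasSum (fun x : {x // x ∉ T} ↦ f x) (S - ∑ n ∈ T, f n) :=
    T.hasSum_compl_iff.2 (by simpa using hf)
  have h2 : HasSum (fun x : {x // x ∉ T} ↦ G x) (M - ∑ n ∈ T, G n) :=
    T.hasSum_compl_iff.2 (by simpa using hG)
  have h3 := h1.norm_le_of_bounded h2 fun x ↦ h x
  rintro rfl
  rw [zero_sub, norm_neg] at h3
  linarith

theorem exp_half : Real.exp (-(π * (17 / 40))) ≤ 53 / 200 := by
  have h := XEST1.exp_small
  have e : Real.exp (-(π * (17 / 20))) = Real.exp (-(π * (17 / 40))) ^ 2 := by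
    rw [← Real.exp_nat_mul]; congr 1; push_cast; ring
  rw [e] at h
  exact (pow_le_pow_iff_left₀ (Real.exp_pos _).le (by norm_num) two_ne_zero).1
    (h.trans (by norm_num))

theorem bound (hBAS : St_BAS) {τ : T3} (hτ : τ ∈ Red) (m : Ch) (a b : ℤ)
    (ha : (m.1.val : ℝ) = a) (hb : (m.2.1.val : ℝ) = b) (n : ℤ × ℤ) (k : ℕ)
    (e2 : b ≤ (2 * n.2 + b) ^ 2)
    (e1 : 2 * (k : ℤ) ≤ (2 * n.1 + a) ^ 2 + (2 * n.2 + b) ^ 2 - a - b)
    (e0 : 2 * (k : ℤ) ≤ (2 * n.1 + a) ^ 2 + (2 * n.2 + b) ^ 2 +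
      (2 * n.1 + a) * (2 * n.2 + b) - a - b + a * b) :
    ‖term τ (iv n + ca m) (0 + cb m)‖ ≤ lead m τ * (53 / 200) ^ k := by
  obtain ⟨h1, h2, h3, h4, -⟩ := hτ
  refine le_trans ?_ (mul_le_mul_of_nonneg_left
    (pow_le_pow_left₀ (Real.exp_pos _).le exp_half k) (Real.exp_pos _).le)
  rw [XEST1.norm_kterm hBAS, ← Real.exp_nat_mul, lead, ← Real.exp_add, ha, hb]
  refine Real.exp_le_exp.2 ?_
  have r2 : (b : ℝ) ≤ (2 * n.2 + b) ^ 2 := by exact_mod_cast e2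
  have r1 : 2 * (k : ℝ) ≤ (2 * n.1 + a) ^ 2 + (2 * n.2 + b) ^ 2 - a - b := by exact_mod_cast e1
  have r0 : 2 * (k : ℝ) ≤ (2 * n.1 + a) ^ 2 + (2 * n.2 + b) ^ 2 +
      (2 * n.1 + a) * (2 * n.2 + b) - a - b + a * b := by exact_mod_cast e0
  have m1 := mul_le_mul_of_nonneg_left r1 (sub_nonneg.2 h2)
  have m2 := mul_nonneg (sub_nonneg.2 h3) (sub_nonneg.2 r2)
  have m0 := mul_le_mul_of_nonneg_left r0 h1
  have m4 := mul_le_mul_of_nonneg_right h4 (Nat.cast_nonneg (α := ℝ) k)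
  have t : ((a : ℝ) * (τ 0).im + b * (τ 2).im - 2 * a * b * (τ 1).im) / 4 + k * (17 / 40) ≤
      (τ 0).im * ((n.1 : ℝ) + a / 2) ^ 2 +
        2 * (τ 1).im * ((n.1 : ℝ) + a / 2) * ((n.2 : ℝ) + b / 2) +
        (τ 2).im * ((n.2 : ℝ) + b / 2) ^ 2 := by linarith
  have u := mul_le_mul_of_nonneg_left t Real.pi_pos.le
  linarith

/-- exponent of the majorant on the odd integers -/
def eo (n : ℤ) : ℕ := (2 * n + 1).natAbs - 1

theorem sum_odd : HasSum (fun n : ℤ ↦ (53 / 200 : ℝ) ^ eo n) (80000 / 37191) := by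
  have h := hasSum_geometric_of_lt_one (r := (53 / 200 : ℝ) ^ 2) (by norm_num) (by norm_num)
  have e : (80000 / 37191 : ℝ) = (1 - (53 / 200) ^ 2)⁻¹ + (1 - (53 / 200) ^ 2)⁻¹ := by norm_num
  rw [e]
  refine HasSum.of_nat_of_neg_add_one (h.congr_fun fun n ↦ ?_) (h.congr_fun fun n ↦ ?_)
  · have : eo n = 2 * n := by unfold eo; omega
    rw [this, pow_mul]
  · have : eo (-((n : ℤ) + 1)) = 2 * n := by unfold eo; omega
    rw [this, pow_mul]

theorem sum_even : HasSum (fun n : ℤ ↦ (53 / 200 : ℝ) ^ n.natAbs) (253 / 147) := by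
  have h := hasSum_geometric_of_lt_one (r := (53 / 200 : ℝ)) (by norm_num) (by norm_num)
  have h2 := h.mul_left (53 / 200 : ℝ)
  have e : (253 / 147 : ℝ) = (1 - 53 / 200)⁻¹ + 53 / 200 * (1 - 53 / 200)⁻¹ := by norm_num
  rw [e]
  refine HasSum.of_nat_of_neg_add_one (by simpa using h) (h2.congr_fun fun n ↦ ?_)
  have : (-((n : ℤ) + 1)).natAbs = n + 1 := by omega
  rw [this, pow_succ']

theorem sum_mul {u v : ℤ → ℕ} {A B : ℝ} (hu : HasSum (fun n ↦ (53 / 200 : ℝ) ^ u n) A)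
    (hv : HasSum (fun n ↦ (53 / 200 : ℝ) ^ v n) B) (L : ℝ) :
    HasSum (fun n : ℤ × ℤ ↦ L * (53 / 200 : ℝ) ^ (u n.1 + v n.2)) (L * (A * B)) := by
  simp only [pow_add]
  exact (hu.mul hv (hu.summable.mul_of_nonneg hv.summable (fun _ ↦ by positivity)
    fun _ ↦ by positivity)).mul_left L

theorem eo_spec (n : ℤ) : ∃ s : ℤ, 0 ≤ s ∧ (eo n : ℤ) = 2 * s ∧
    (2 * n + 1 = 2 * s + 1 ∨ 2 * n + 1 = -(2 * s + 1)) := by
  unfold eo
  rcases le_or_gt 0 n with h | h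
  · exact ⟨n, h, by omega, Or.inl rfl⟩
  · exact ⟨-n - 1, by omega, by omega, Or.inr (by ring)⟩

theorem ab_spec (n : ℤ) : ∃ t : ℤ, 0 ≤ t ∧ (n.natAbs : ℤ) = t ∧ (2 * n = 2 * t ∨ 2 * n = -(2 * t)) :=
  ⟨n.natAbs, by omega, rfl, by omega⟩

theorem sq_self (s : ℤ) : s ≤ s ^ 2 := by
  rcases le_or_gt s 0 with h | h <;> nlinarith

theorem mixed (x y : ℤ) :
    2 * ((eo x + y.natAbs : ℕ) : ℤ) ≤ (2 * x + 1) ^ 2 + (2 * y) ^ 2 - 1 ∧
    2 * ((eo x + y.natAbs : ℕ) : ℤ) ≤ (2 * x + 1) ^ 2 + (2 * y) ^ 2 + (2 * x + 1) * (2 * y) - 1 := by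
  obtain ⟨s, s0, hs, hx⟩ := eo_spec x
  obtain ⟨t, t0, ht, hy⟩ := ab_spec y
  have st := mul_nonneg s0 t0
  have k : 0 ≤ s ^ 2 + t ^ 2 - s * t - t := by
    have := sq_self (t - s)
    have := sq_self s
    have := sq_self t
    rcases le_or_gt t 1 with h | h
    · have : t = 0 ∨ t = 1 := by omega
      rcases this with rfl | rfl <;> nlinarith
    · nlinarith [sq_nonneg (2 * s - t)]
  rw [Nat.cast_add, hs, ht]
  rcases hx with hx | hx <;> rcases hy with hy | hy <;> rw [hx, hy] <;> constructor <;> nlinarith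

theorem both (x y : ℤ) :
    2 * ((eo x + eo y : ℕ) : ℤ) ≤ (2 * x + 1) ^ 2 + (2 * y + 1) ^ 2 - 1 - 1 ∧
    2 * ((eo x + eo y : ℕ) : ℤ) ≤
      (2 * x + 1) ^ 2 + (2 * y + 1) ^ 2 + (2 * x + 1) * (2 * y + 1) - 1 - 1 + 1 * 1 := by
  obtain ⟨s, s0, hs, hx⟩ := eo_spec x
  obtain ⟨t, t0, ht, hy⟩ := eo_spec y
  have st := mul_nonneg s0 t0
  have := sq_self s
  have := sq_self t
  have := sq_nonneg (s - t)
  rw [Nat.cast_add, hs, ht]
  rcases hx with hx | hx <;> rcases hy with hy | hy <;> rw [hx, hy] <;> constructor <;> nlinarith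

theorem odd_sq (y : ℤ) : 1 ≤ (2 * y + 1) ^ 2 := by
  have := sq_self (-y)
  nlinarith

theorem val1 : (1 : ZMod 2).val = 1 := rfl

theorem lead_pos (m : Ch) (τ : T3) : 0 < lead m τ := Real.exp_pos _

theorem hs (hBAS : St_BAS) {τ : T3} (hτ : τ ∈ Red) (m : Ch) :
    HasSum (fun n : ℤ × ℤ ↦ term τ (iv n + ca m) (0 + cb m)) (kk m τ) :=
  (hBAS.summ τ (hBAS.red hτ) (ca m) (0 + cb m)).of_norm.hasSum

theorem c10 (hBAS : St_BAS) {τ : T3} (hτ : τ ∈ Red) (d : ZMod 2) : kk (1, 0, 0, d) τ ≠ 0 := by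
  have hL := lead_pos (1, 0, 0, d) τ
  refine far (hs hBAS hτ _) (sum_mul sum_odd sum_even (lead (1, 0, 0, d) τ)) {(0, 0), (-1, 0)}
    (fun n ↦ bound hBAS hτ _ 1 0 (by simp [val1]) (by simp) n _ (sq_nonneg _)
      (by simpa using (mixed n.1 n.2).1) (by simpa using (mixed n.1 n.2).2)) ?_
  have e : term τ (iv (-1, 0) + ca (1, 0, 0, d)) (0 + cb (1, 0, 0, d)) =
      term τ (iv (0, 0) + ca (1, 0, 0, d)) (0 + cb (1, 0, 0, d)) := by
    unfold term
    congr 1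
    simp [Qf, dot, iv, ca, cb, val1]
    norm_num
  have n : ‖term τ (iv (0, 0) + ca (1, 0, 0, d)) (0 + cb (1, 0, 0, d))‖ = lead (1, 0, 0, d) τ := by
    rw [XEST1.norm_kterm hBAS, lead]
    congr 1
    simp [val1]
    ring
  rw [Finset.sum_pair (by decide), Finset.sum_pair (by decide), e, ← two_mul, norm_mul, n]
  norm_num [eo]
  linarith

theorem c01 (hBAS : St_BAS) {τ : T3} (hτ : τ ∈ Red) (c : ZMod 2) : kk (0, 1, c, 0) τ ≠ 0 := by
  have hL := lead_pos (0, 1, c, 0) τ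
  refine far (hs hBAS hτ _) (sum_mul sum_even sum_odd (lead (0, 1, c, 0) τ)) {(0, 0), (0, -1)}
    (fun n ↦ bound hBAS hτ _ 0 1 (by simp) (by simp [val1]) n _ (odd_sq _)
      (by have := (mixed n.2 n.1).1; push_cast at this ⊢; linarith)
      (by have := (mixed n.2 n.1).2; push_cast at this ⊢; linarith)) ?_
  have e : term τ (iv (0, -1) + ca (0, 1, c, 0)) (0 + cb (0, 1, c, 0)) =
      term τ (iv (0, 0) + ca (0, 1, c, 0)) (0 + cb (0, 1, c, 0)) := by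
    unfold term
    congr 1
    simp [Qf, dot, iv, ca, cb, val1]
    norm_num
  have n : ‖term τ (iv (0, 0) + ca (0, 1, c, 0)) (0 + cb (0, 1, c, 0))‖ = lead (0, 1, c, 0) τ := by
    rw [XEST1.norm_kterm hBAS, lead]
    congr 1
    simp [val1]
    ring
  rw [Finset.sum_pair (by decide), Finset.sum_pair (by decide), e, ← two_mul, norm_mul, n]
  norm_num [eo]
  linarith

theorem c11 (hBAS : St_BAS) {τ : T3} (hτ : τ ∈ Red) : kk (1, 1, 0, 0) τ ≠ 0 := by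
  have hL := lead_pos (1, 1, 0, 0) τ
  refine far (hs hBAS hτ _) (sum_mul sum_odd sum_odd (lead (1, 1, 0, 0) τ))
    {(0, -1), (-1, 0), (0, 0), (-1, -1)}
    (fun n ↦ bound hBAS hτ _ 1 1 (by simp [val1]) (by simp [val1]) n _ (odd_sq _)
      (both n.1 n.2).1 (both n.1 n.2).2) ?_
  set u := term τ (iv (0, -1) + ca (1, 1, 0, 0)) (0 + cb (1, 1, 0, 0)) with hu
  have e1 : term τ (iv (-1, 0) + ca (1, 1, 0, 0)) (0 + cb (1, 1, 0, 0)) = u := by
    rw [hu]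
    unfold term
    congr 1
    simp [Qf, dot, iv, ca, cb, val1]
    ring
  have e2 : term τ (iv (0, 0) + ca (1, 1, 0, 0)) (0 + cb (1, 1, 0, 0)) =
      u * exp (π * I * τ 1) := by
    rw [hu]
    unfold term
    rw [← exp_add]
    congr 1
    simp [Qf, dot, iv, ca, cb, val1]
    ring
  have e3 : term τ (iv (-1, -1) + ca (1, 1, 0, 0)) (0 + cb (1, 1, 0, 0)) =
      u * exp (π * I * τ 1) := by
    rw [hu]
    unfold term
    rw [← exp_add]
    congr 1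
    simp [Qf, dot, iv, ca, cb, val1]
    ring
  have n : ‖u‖ = lead (1, 1, 0, 0) τ := by
    rw [hu, XEST1.norm_kterm hBAS, lead]
    congr 1
    simp [val1]
    ring
  have r : 1 ≤ ‖1 + exp (π * I * τ 1)‖ := by
    refine le_trans ?_ (re_le_norm _)
    have x := abs_le.1 (hτ.2.2.2.2 1)
    have i : (π * I * τ 1).im = π * (τ 1).re := by simp
    have c : 0 ≤ Real.cos (π * (τ 1).re) :=
      Real.cos_nonneg_of_neg_pi_div_two_le_of_le (by nlinarith [Real.pi_pos])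
        (by nlinarith [Real.pi_pos])
    rw [add_re, one_re, exp_re, i]
    have := mul_nonneg (Real.exp_pos (π * I * τ 1).re).le c
    linarith
  rw [Finset.sum_insert (by decide), Finset.sum_insert (by decide), Finset.sum_pair (by decide),
    Finset.sum_insert (by decide), Finset.sum_insert (by decide), Finset.sum_pair (by decide),
    ← hu, e1, e2, e3]
  have e : u + (u + (u * exp (π * I * τ 1) + u * exp (π * I * τ 1))) =
      2 * u * (1 + exp (π * I * τ 1)) := by ring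
  rw [e, norm_mul, norm_mul, n]
  have := mul_le_mul_of_nonneg_left r hL.le
  norm_num [eo]
  linarith

theorem cases_m : ∀ m : Ch, Ev m → m ≠ (1, 1, 1, 1) → (m.1 = 0 ∧ m.2.1 = 0) ∨
    m = (1, 0, 0, m.2.2.2) ∨ m = (0, 1, m.2.2.1, 0) ∨ m = (1, 1, 0, 0) := by decide

end XZER9

theorem st_ZER9 (hBAS : St_BAS) :
    ∀ τ ∈ Red, ∀ m : Ch, Ev m → m ≠ (1, 1, 1, 1) → kk m τ ≠ 0 := by
  intro τ hτ m h1 h2
  rcases XZER9.cases_m m h1 h2 with h | h | h | h
  · intro h0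
    have := XEST1.one hBAS τ hτ m h.1 h.2
    rw [h0] at this
    norm_num at this
  · rw [h]; exact XZER9.c10 hBAS hτ _
  · rw [h]; exact XZER9.c01 hBAS hτ _
  · rw [h]; exact XZER9.c11 hBAS hτ

end Pool.Agent.Lib.ECM
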