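import Pool.Agent.Lib.ECM.TH_BAS
import Pool.Agent.Lib.ECM.TH_HOL
import Pool.Agent.Lib.ECM.TH_HERM
import Pool.Agent.Lib.ECM.TH_RIEMG
import Pool.Agent.Lib.ECM.TH_RIEM
import Pool.Agent.Lib.ECM.TH_DER
import Pool.Agent.Lib.ECM.TH_LIN
import Pool.Agent.Lib.ECM.TH_SPLIT
import Pool.Agent.Lib.ECM.TH_SYMT
import Pool.Agent.Lib.ECM.TH_SYMU
import Pool.Agent.Lib.ECM.TH_SYMJ
import Pool.Agent.Lib.ECM.TH_SYMK
import Pool.Agent.Lib.ECM.TH_RED
import Pool.Agent.Lib.ECM.TH_EST1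
import Pool.Agent.Lib.ECM.TH_NUM
import Pool.Agent.Lib.ECM.TH_XQ
import Pool.Agent.Lib.ECM.TH_EST2
import Pool.Agent.Lib.ECM.TH_GAUGE
import Pool.Agent.Lib.ECM.TH_NORM
import Pool.Agent.Lib.ECM.TH_INJ
import Pool.Agent.Lib.ECM.TH_JC
import Pool.Agent.Lib.ECM.TH_JET
import Pool.Agent.Lib.ECM.TH_TOR
import Pool.Agent.Lib.ECM.TH_SER
import Pool.Agent.Lib.ECM.TH_KAP
import Pool.Agent.Lib.ECM.TH_PHI
import Pool.Agent.Lib.ECM.TH_LOC
import Pool.Agent.Lib.ECM.TH_CHART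
import Pool.Agent.Lib.ECM.TH_CHART2
import Pool.Agent.Lib.ECM.TH_LIFT
import Pool.Agent.Lib.ECM.TH_OMD
import Pool.Agent.Lib.ECM.TH_ZER9
import Pool.Agent.Lib.ECM.TH_ZER1

/-! Genus two theta functions: all statements without hypotheses. -/

namespace Pool.Agent.Lib.ECM

theorem th_BAS : St_BAS := st_BAS
theorem th_HOL : St_HOL := st_HOL th_BAS
theorem th_HERM : St_HERM := st_HERM
theorem th_RIEMG : St_RIEMG := st_RIEMG th_BAS
theorem th_RIEM : St_RIEM := st_RIEM th_BAS th_RIEMG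
theorem th_DER : St_DER := st_DER th_BAS th_RIEM
theorem th_LIN : St_LIN := st_LIN th_BAS th_RIEM
theorem th_SPLIT : St_SPLIT := st_SPLIT th_BAS
theorem th_SYMT : St_SYMT := st_SYMT th_BAS
theorem th_SYMU : St_SYMU := st_SYMU th_BAS
theorem th_SYMJ : St_SYMJ := st_SYMJ th_BAS
theorem th_SYMK : St_SYMK := st_SYMK th_BAS
theorem th_RED : St_RED := st_RED th_HERM th_SYMT th_SYMU th_SYMJ th_SYMK
theorem th_EST1 : St_EST1 := st_EST1 th_BAS
theorem th_NUM : St_NUM := st_NUM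
theorem th_XQ : St_XQ := st_XQ th_NUM
theorem th_EST2 : St_EST2 := st_EST2 th_BAS th_SPLIT th_NUM th_XQ
theorem th_GAUGE : St_GAUGE := st_GAUGE th_BAS th_HERM th_SYMK th_RED th_EST1 th_EST2 th_LIN
theorem th_NORM : St_NORM := st_NORM th_BAS th_HERM th_RIEM th_GAUGE
theorem th_INJ : St_INJ := st_INJ th_BAS th_HERM th_RIEM th_GAUGE th_NORM
theorem th_JC : St_JC := st_JC
theorem th_JET : St_JET := st_JET th_BAS th_DER th_GAUGE th_JC
theorem th_TOR : St_TOR := st_TOR th_BAS th_HERM th_LIN th_GAUGE th_NORM th_INJ th_JC th_JET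
theorem th_SER : St_SER := st_SER
theorem th_KAP : St_KAP := st_KAP th_NUM th_XQ th_SER
theorem th_PHI : St_PHI := st_PHI th_NUM th_XQ th_SER
theorem th_LOC : St_LOC := st_LOC th_BAS th_SPLIT th_XQ th_EST1 th_KAP th_PHI
theorem th_CHART : St_CHART := st_CHART th_XQ th_LOC
theorem th_CHART2 : St_CHART2 := st_CHART2 th_XQ th_LOC
theorem th_LIFT : St_LIFT := st_LIFT th_SYMK th_RED th_CHART
theorem th_OMD : St_OMD := st_OMD
theorem th_ZER : St_ZER := ⟨st_ZER9 th_BAS, st_ZER1 th_BAS⟩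

end Pool.Agent.Lib.ECM
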