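import Pool.Agent.Lib.ECM.Blue3
import Pool.Agent.Lib.ECM.TH_All
import Pool.Agent.Lib.ECM.M_FIB

/-! All fibres of the theta null map are countable (problem MP_0704bf_ag). -/

noncomputable section

namespace Pool.Agent.Lib.ECM

namespace MFIB0

theorem red_count (hCH : St_CHART) (y : Ch → ℂ) :
    {τ | τ ∈ Red ∧ ∃ c : ℂ, ∀ m, kk m τ = c * y m}.Countable := by
  obtain ⟨r, N, mm, g, hr, -, -, -, h⟩ := hCH (fun m _ ↦ y m) fun _ ↦ analyticAt_const
  have hw : (Complex.exp ⁻¹' {((r / 2 : ℝ) : ℂ)}).Countable :=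
    Complex.countable_preimage_exp.2 (Set.countable_singleton _)
  refine (Set.countable_iUnion fun j : Fin N ↦
    hw.image fun w ↦ (fun i ↦ mm j i * w + g j i (Complex.exp w) : T3)).mono ?_
  rintro τ ⟨h1, h2⟩
  obtain ⟨j, w, e, -, e'⟩ := h ((r / 2 : ℝ) : ℂ) (Complex.ofReal_ne_zero.2 (by positivity))
    (by rw [Complex.norm_real, Real.norm_of_nonneg (by positivity)]; linarith) τ h1 h2
  exact Set.mem_iUnion.2 ⟨j, w, e, e'.symm⟩

theorem iso_count (τ : T3) : {τ' | ∃ M : V2 →ₗ[ℂ] V2, Function.Injective M ∧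
    ∀ z ∈ Lat τ', M z ∈ Lat τ}.Countable := by
  have hL := MFIB.lat_count τ
  refine (hL.biUnion fun a _ ↦ hL.biUnion fun b _ ↦ hL.biUnion fun c _ ↦ hL.biUnion fun d _ ↦
    (MFIB.S_sub a b c d).countable).mono ?_
  rintro τ' ⟨M, hi, hM⟩
  have k : ∀ m n : ℤ × ℤ, M (per τ' (iv m) (iv n)) ∈ Lat τ := fun m n ↦ hM _ ⟨m, n, rfl⟩
  simp only [Set.mem_iUnion]
  refine ⟨_, k (1, 0) 0, _, k (0, 1) 0, _, k 0 (1, 0), _, k 0 (0, 1), fun s t e ↦ ?_, ?_, ?_⟩
  · rw [← map_smul, ← map_smul, ← map_add, map_eq_zero_iff M hi] at e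
    exact ⟨by simpa [per, iv] using congrFun e 0, by simpa [per, iv] using congrFun e 1⟩
  · rw [← map_smul, ← map_smul, ← map_add]
    congr 1
    funext i
    fin_cases i <;> simp [per, iv]
  · rw [← map_smul, ← map_smul, ← map_add]
    congr 1
    funext i
    fin_cases i <;> simp [per, iv]

theorem main (hCH : St_CHART) (hRED : St_RED) (hK : St_SYMK) : St_FIB0 := by
  intro x
  refine (hK.fin.countable.biUnion fun t _ ↦
    (red_count hCH fun m ↦ t.2 (Function.invFun t.1 m) * x (Function.invFun t.1 m)).biUnion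
      fun τ _ ↦ iso_count τ).mono ?_
  rintro τ ⟨hτ, h0, hx⟩
  obtain ⟨γ, hγ⟩ := hRED τ hτ
  obtain ⟨c, -, hc⟩ := hK.cst γ τ hτ
  have hs : Function.Surjective fun m ↦ γ.A m + γ.s := fun m ↦ ⟨γ.A.symm (m - γ.s), by simp⟩
  simp only [Set.mem_iUnion]
  refine ⟨_, ⟨γ, rfl⟩, γ.act τ, ⟨hγ, c * kk 0 τ, fun m ↦ ?_⟩, γ.M τ, (γ.bij τ hτ).1,
    fun z hz ↦ (γ.lat τ hτ z).2 hz⟩
  have e := (hc (Function.invFun (fun m ↦ γ.A m + γ.s) m)).1
  rw [show γ.A (Function.invFun (fun m ↦ γ.A m + γ.s) m) + γ.s = m from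
    Function.rightInverse_invFun hs m] at e
  rw [e, hx]
  field_simp

end MFIB0

theorem st_FIB0 : St_FIB0 := MFIB0.main th_CHART th_RED th_SYMK

end Pool.Agent.Lib.ECM
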