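import Pool.Agent.Lib.ECM.Blue3

/-! Proper hypersurface sections of a curve are finite and algebraic. -/

open Polynomial

namespace Pool.Agent.Lib.ECM

namespace MFINZ

/-- every coordinate satisfies a nonzero rational equation on the section -/
theorem exists_eq {P : Id} (hP : Crv P) {h : MvPolynomial Ch ℚ} (hh : h ∉ P) (i : Ch) :
    ∃ q : ℚ[X], q ≠ 0 ∧ ∀ x ∈ Cv P, MvPolynomial.aeval x h = 0 → aeval (x i) q = 0 := by
  have := hP.1
  have : Ring.KrullDimLE 1 (MvPolynomial Ch ℚ ⧸ P) := Ring.krullDimLE_iff.2 hP.2.le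
  set I : Ideal (MvPolynomial Ch ℚ ⧸ P) := Ideal.span {Ideal.Quotient.mk P h} with hI
  have h0 : Ring.KrullDimLE 0 ((MvPolynomial Ch ℚ ⧸ P) ⧸ I) :=
    Ideal.krullDimLE_zero_quotient_iff_forall_minimalPrimes_isMaximal.2 fun J hJ ↦
      hJ.1.1.isMaximal_of_ne_bot fun e ↦ hh (Ideal.Quotient.eq_zero_iff_mem.1
        (by simpa [e] using hJ.1.2 (Ideal.mem_span_singleton_self _)))
  have := (Module.finite_iff_krullDimLE_zero ℚ ((MvPolynomial Ch ℚ ⧸ P) ⧸ I)).2 h0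
  set z := Ideal.Quotient.mkₐ ℚ I (Ideal.Quotient.mkₐ ℚ P (MvPolynomial.X i)) with hz
  refine ⟨minpoly ℚ z, (minpoly.monic (Algebra.IsIntegral.isIntegral z)).ne_zero,
    fun x hx h1 ↦ ?_⟩
  · let φ := Ideal.Quotient.liftₐ P (MvPolynomial.aeval x) hx
    let ψ := Ideal.Quotient.liftₐ I φ fun a ha ↦ by
      obtain ⟨b, rfl⟩ := Ideal.mem_span_singleton'.1 ha
      rw [map_mul, show φ (Ideal.Quotient.mk P h) = 0 from h1, mul_zero]
    have e : ψ z = x i := MvPolynomial.aeval_X x i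
    rw [← e, aeval_algHom_apply, minpoly.aeval, map_zero]

end MFINZ

theorem st_FINZ : St_FINZ := by
  intro P hP h hh
  choose q q0 hq using MFINZ.exists_eq hP hh
  refine ⟨(Set.Finite.pi' fun m ↦ (q m).rootSet_finite ℂ).subset ?_,
    fun x hx h1 m ↦ ⟨q m, q0 m, hq m x hx h1⟩⟩
  rintro x ⟨hx, h1⟩ m
  exact mem_rootSet.2 ⟨q0 m, hq m x hx h1⟩

end Pool.Agent.Lib.ECM
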