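import Pool.Agent.Lib.ECM.Blue3
import Pool.Agent.Lib.ECM.TH_All
import Pool.Agent.Lib.ECM.M_G3
import Pool.Agent.Lib.ECM.M_SINV
import Pool.Agent.Lib.ECM.M_CF
import Pool.Agent.Lib.ECM.M_BR
import Pool.Agent.Lib.ECM.M_PUI
import Pool.Agent.Lib.RC.Aut89

/-! One point with trivial endomorphism ring makes the curve Hodge generic. -/

open Filter Topology Metric

noncomputable section

namespace Pool.Agent.Lib.ECM

namespace MHGEN

theorem alg_countable : {x : Ch → ℂ | AlgT x}.Countable := by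
  refine Set.Countable.mono ?_ (Set.countable_univ_pi fun _ : Ch ↦ Algebraic.countable ℚ ℂ)
  exact fun _ hx i _ ↦ hx i

theorem ident {g : ℂ → T3} {ρ : ℝ} (hρ : 0 < ρ) (hg : AnalyticOnNhd ℂ g (ball 0 ρ))
    {R : Matrix (Fin 4) (Fin 4) ℤ} (h : ¬ {u | u ∈ ball (0 : ℂ) ρ ∧ EqE R (g u)}.Countable) :
    EqE R (g 0) := by
  have hi : ∀ i, AnalyticOnNhd ℂ (fun u ↦ g u i) (ball 0 ρ) :=
    fun i u hu ↦ analyticAt_pi_iff.1 (hg u hu) i
  have hc : ∀ j i, AnalyticOnNhd ℂ (fun u ↦ col R (g u) j i) (ball 0 ρ) := by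
    intro j i
    fin_cases i
    · exact (analyticOnNhd_const.add ((hi 0).mul analyticOnNhd_const)).add
        ((hi 1).mul analyticOnNhd_const)
    · exact (analyticOnNhd_const.add ((hi 1).mul analyticOnNhd_const)).add
        ((hi 2).mul analyticOnNhd_const)
  have key : ∀ (a b : Fin 3) (j : Fin 4), (∀ τ, EqE R τ →
      τ a • col R τ 0 + τ b • col R τ 1 = col R τ j) →
      g 0 a • col R (g 0) 0 + g 0 b • col R (g 0) 1 = col R (g 0) j := by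
    intro a b j hj
    ext i
    by_contra hne
    refine h (Set.Countable.mono ?_ (ZP3.WDL.countable_zeros
      ((((hi a).mul (hc 0 i)).add ((hi b).mul (hc 1 i))).sub (hc j i))
      (convex_ball _ _).isPreconnected fun h0 ↦ hne (sub_eq_zero.1 (h0 (mem_ball_self hρ)))))
    exact fun u hu ↦ ⟨hu.1, sub_eq_zero.2 (congrFun (hj _ hu.2) i)⟩
  exact ⟨key 0 1 2 fun _ h ↦ h.1, key 1 2 3 fun _ h ↦ h.2⟩

end MHGEN

open MHGEN in
theorem st_HGEN (hEND : St_END) (hENC : St_ENC) (hZ : St_FINZ) (hI : St_ISO) (hF : St_FIB0) :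
    St_HGEN := by
  rintro P hP hM ⟨x0, hx0, τ0, h0, hE0⟩
  have hG : St_G3 := st_G3 th_ZER th_RED th_SYMK st_SINV (st_CF (st_BR st_PUI))
  have hg0 : Gen τ0 := by_contra fun h ↦ hENC.hum τ0 h0.1 hE0 (hG.sing τ0 h0.1 h)
  have hx0m : ∀ m, Ev m → x0 m ≠ 0 := fun m hm ↦ by
    rw [h0.2.2]
    exact div_ne_zero (hg0 m hm) h0.2.1
  have hker : ∀ y ∈ Cv P, ¬ AlgT y → ∀ f : MvPolynomial Ch ℚ,
      MvPolynomial.aeval y f = 0 ↔ f ∈ P := fun y hy ha f ↦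
    ⟨fun e ↦ by_contra fun hf ↦ ha ((hZ P hP f hf).2 y hy e), hy f⟩
  by_contra hcon
  obtain ⟨τ1, ⟨⟨y, hy, h1⟩, hS⟩, hna⟩ := Set.not_subset.1 fun hs ↦
    hcon ((alg_countable.biUnion fun x _ ↦ hF x).mono hs)
  have hya : ¬ AlgT y := fun ha ↦ hna (Set.mem_biUnion ha h1)
  have hg1 : Gen τ1 := fun m hm e ↦ hx0m m hm (by
    have := hx0 _ ((hker y hy hya (MvPolynomial.X m)).1 (by
      rw [MvPolynomial.aeval_X, h1.2.2, e, zero_div]))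
    rwa [MvPolynomial.aeval_X] at this)
  have hno : ∀ y' ∈ Cv P, ¬ AlgT y' → ∀ τ', Over y' τ' → ¬ EndZ τ' := by
    intro y' hy' ha τ' h' hE
    obtain ⟨σ, -, hσ⟩ := RC.H89.aut (algebraMap ℚ ℂ) y y' fun Φ ↦
      (hker y hy hya Φ).trans (hker y' hy' ha Φ).symm
    exact hENC.hum τ1 h1.1 (hEND σ y τ1 τ' h1 hg1 (by rwa [funext hσ]) hE) hS
  obtain ⟨κ, hκ, hκ0⟩ := hI P hP x0 hx0
  have hov : ∀ᶠ u in 𝓝[≠] (0 : ℂ), (fun m ↦ κ m u / u ^ 0) ∈ Cv P ∧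
      ∃ τ, Over (fun m ↦ κ m u / u ^ 0) τ := by
    filter_upwards [hκ.mem, (eventually_all_finite hM).2 fun p _ ↦ hκ.nc p] with u a b
    exact ⟨a, by_contra fun c ↦ b _ ⟨a, c⟩ rfl⟩
  obtain ⟨g, hga, hg⟩ := th_LIFT κ hκ.an (fun m hm ↦ hκ0 m ▸ hx0m m hm) (hov.mono (by
    rintro u ⟨-, τ, a, b, c⟩
    refine ⟨τ, a, kk 0 τ, fun m ↦ ?_⟩
    have := c m
    simp only [pow_zero, div_one] at this
    rw [this, mul_div_cancel₀ _ b])).frequently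
  obtain ⟨ρ, hρ, hb⟩ := Metric.eventually_nhds_iff_ball.1
    ((hga.eventually_analyticAt.and hg).and (eventually_nhdsWithin_iff.1 hov))
  obtain ⟨R, hR, hunc⟩ : ∃ R : Matrix (Fin 4) (Fin 4) ℤ,
      (¬ ∃ k : ℤ, R = k • (1 : Matrix (Fin 4) (Fin 4) ℤ)) ∧
      ¬ {u | u ∈ ball (0 : ℂ) ρ ∧ EqE R (g u)}.Countable := by
    by_contra hc
    simp only [not_exists (p := fun R : Matrix (Fin 4) (Fin 4) ℤ ↦ _ ∧ _), not_and, not_not] at hc
    have : Countable (Matrix (Fin 4) (Fin 4) ℤ) := inferInstanceAs (Countable (Fin 4 → Fin 4 → ℤ))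
    refine MCF.unc P κ 0 hκ ρ hρ ((alg_countable.union
      (((Set.to_countable _).biUnion hc).image fun u m ↦ κ m u / u ^ 0)).mono ?_)
    rintro _ ⟨u, ⟨hu0, hu⟩, rfl⟩
    have hu' : u ∈ ball (0 : ℂ) ρ := mem_ball_zero_iff.2 hu
    obtain ⟨⟨-, a1, c, a2, a3⟩, a4⟩ := hb u hu'
    obtain ⟨a5, τ, -, a6, a7⟩ := a4 hu0
    refine or_iff_not_imp_left.2 fun ha ↦ ⟨u, ?_, rfl⟩
    have e0 : κ 0 u = 1 := by simpa [a6] using a7 0
    have := hno _ a5 ha (g u) ⟨a1, by rwa [a3, e0, mul_one], fun m ↦ by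
      rw [a3, a3, e0, mul_one, mul_div_cancel_left₀ _ a2]; simp⟩
    rw [hENC.enc _ a1] at this
    obtain ⟨R, hR⟩ := not_forall.1 this
    exact Set.mem_biUnion (Classical.not_imp.1 hR).2 ⟨hu', (Classical.not_imp.1 hR).1⟩
  obtain ⟨⟨-, a1, c, a2, a3⟩, -⟩ := hb 0 (mem_ball_self hρ)
  obtain ⟨M, -, hM', -⟩ := th_TOR τ0 h0.1 (g 0) a1 (c / kk 0 τ0) hg0 (div_ne_zero a2 h0.2.1)
    fun m ↦ by rw [a3, hκ0, h0.2.2]; ring
  exact hR ((hENC.enc _ a1).1 (hENC.map τ0 _ M hM' hE0) R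
    (ident hρ (fun u hu ↦ (hb u hu).1.1) hunc))

end Pool.Agent.Lib.ECM
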