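import Pool.Agent.Lib.ECM.Blue3
import Pool.Agent.Lib.ECM.M_BR
import Pool.Agent.Lib.ZP3.Dens
import Pool.Agent.Lib.helper6.Dim

/-! Every point of a curve lies on a branch (block ISO, MP_0704bf_ag). -/

open Filter Topology Polynomial

namespace Pool.Agent.Lib.ECM

namespace MISO

theorem e2_eq (g : ℚ[X][X]) (t y : ℂ) : e2 g t y = g.eval₂ (aeval t).toRingHom y := eval_map _ _

theorem e2_tendsto {ι : Type} {l : Filter ι} {t w : ι → ℂ} {t0 w0 : ℂ} (ht : Tendsto t l (𝓝 t0))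
    (hw : Tendsto w l (𝓝 w0)) (g : ℚ[X][X]) :
    Tendsto (fun i ↦ e2 g (t i) (w i)) l (𝓝 (e2 g t0 w0)) := by
  simp only [e2_eq]
  induction g using Polynomial.induction_on' with
  | add p q hp hq => simpa only [eval₂_add] using hp.add hq
  | monomial n a =>
    simp only [eval₂_monomial]
    exact ((a.continuous_aeval.tendsto t0).comp ht).mul (hw.pow n)

/-- roots of a monic family converge along an ultrafilter -/
theorem lim {ι : Type} (U : Ultrafilter ι) {t y : ι → ℂ} {t0 : ℂ} (ht : Tendsto t U (𝓝 t0))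
    {G : ℚ[X][X]} (hG : G.Monic) (h : ∀ i, e2 G (t i) (y i) = 0) :
    ∃ y0, Tendsto y U (𝓝 y0) ∧ e2 G t0 y0 = 0 := by
  by_cases hb : ∃ R : ℝ, ∀ᶠ i in U, ‖y i‖ ≤ R
  · obtain ⟨R, hR⟩ := hb
    obtain ⟨c, -, hc⟩ := (isCompact_closedBall (0 : ℂ) R).ultrafilter_le_nhds' (U.map y)
      (Ultrafilter.mem_map.2 (hR.mono fun i hi ↦ mem_closedBall_zero_iff.2 hi))
    exact ⟨c, hc, tendsto_nhds_unique (e2_tendsto ht hc G)
      (tendsto_const_nhds.congr fun i ↦ (h i).symm)⟩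
  · have hb' : Tendsto (fun i ↦ ‖y i‖) U atTop := tendsto_atTop.2 fun R ↦
      (Ultrafilter.eventually_not.2 fun h ↦ hb ⟨R, h⟩).mono fun i hi ↦ (not_le.1 hi).le
    have h1 : Tendsto (fun i ↦ (y i)⁻¹) U (𝓝 0) := by
      rw [tendsto_zero_iff_norm_tendsto_zero]
      exact hb'.inv_tendsto_atTop.congr fun i ↦ (norm_inv _).symm
    have h2 : ∀ᶠ i in U, 0 = e2 G.reverse (t i) (y i)⁻¹ := by
      filter_upwards [hb'.eventually_gt_atTop 0] with i hi
      let _ := invertibleOfNonzero (norm_pos_iff.1 hi)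
      rw [eq_comm, e2_eq, ← invOf_eq_inv, eval₂_reverse_eq_zero_iff, ← e2_eq, h]
    have h3 := tendsto_nhds_unique (e2_tendsto ht h1 G.reverse) (tendsto_const_nhds.congr' h2)
    rw [e2_eq, eval₂_at_zero, coeff_zero_reverse, hG.leadingCoeff, map_one] at h3
    exact absurd h3 one_ne_zero

theorem near_root {p : ℂ[X]} (hp : p.Monic) (hd : 0 < p.natDegree) (z : ℂ) :
    ∃ r, p.eval r = 0 ∧ ‖z - r‖ ^ p.natDegree ≤ ‖p.eval z‖ := by
  have hs := IsAlgClosed.splits p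
  obtain ⟨r, hr, hm⟩ := Multiset.exists_min_image (fun r ↦ ‖z - r‖) (s := p.roots)
    (Multiset.card_pos.1 (hs.natDegree_eq_card_roots ▸ hd))
  refine ⟨r, (mem_roots hp.ne_zero).1 hr, ?_⟩
  have := Multiset.prod_map_le_prod_map₀ (s := p.roots) (fun _ ↦ ‖z - r‖) (fun b ↦ ‖z - b‖)
    (fun _ _ ↦ norm_nonneg _) hm
  rw [Multiset.map_const', Multiset.prod_replicate, ← hs.natDegree_eq_card_roots] at this
  rw [hs.eval_eq_prod_roots_of_monic hp]
  exact this.trans_eq (p.roots.prod_hom' (NormedField.toMulRingNorm ℂ) fun b ↦ z - b)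

variable {A : Type} [CommRing A] [Algebra ℚ[X] A]

theorem hom_eq (φ : A →+* ℂ) :
    φ.comp (algebraMap ℚ[X] A) = (aeval (φ (algebraMap ℚ[X] A X))).toRingHom :=
  Polynomial.ringHom_ext' (RingHom.ext_rat _ _) (by simp)

theorem hom_aeval (φ : A →+* ℂ) (G : ℚ[X][X]) (b : A) :
    φ (aeval b G) = e2 G (φ (algebraMap ℚ[X] A X)) (φ b) := by
  rw [aeval_def, hom_eval₂, hom_eq, e2_eq]

theorem hom_C (φ : A →+* ℂ) (c : ℚ) : φ (algebraMap ℚ[X] A (C c)) = c :=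
  (RingHom.congr_fun (hom_eq φ) (C c)).trans (by simp)

variable [IsDomain A] [Algebra.IsIntegral ℚ[X] A] [FaithfulSMul ℚ[X] A]

/-- a root of the minimal polynomial comes from a point -/
theorem point (z : A) {s r : ℂ} (h : e2 (minpoly ℚ[X] z) s r = 0) :
    ∃ φ : A →+* ℂ, φ (algebraMap ℚ[X] A X) = s ∧ φ z = r := by
  obtain ⟨φ, hφ⟩ := ZP3.dens_ext (aeval z : ℚ[X][X] →ₐ[ℚ[X]] A).toRingHom
    (RingHom.IsIntegral.tower_top (algebraMap ℚ[X] ℚ[X][X]) _ (by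
      rw [AlgHom.toRingHom_eq_coe, AlgHom.comp_algebraMap]
      exact Algebra.IsIntegral.isIntegral))
    (eval₂RingHom (aeval s).toRingHom r) (by
      rw [minpoly.ker_eval (Algebra.IsIntegral.isIntegral z), Ideal.span_le,
        Set.singleton_subset_iff]
      exact (e2_eq _ s r).symm.trans h)
  exact ⟨φ, by simpa using hφ (C X), by simpa using hφ X⟩

/-- points above nearby values of the parameter approach a given point -/
theorem acc (χ : A →+* ℂ) {ι : Type} [Fintype ι] (a : ι → A) :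
    ∃ φ : ℂ → A →+* ℂ, (∀ s, φ s (algebraMap ℚ[X] A X) = s) ∧ ∀ U : Ultrafilter ℂ,
      (U : Filter ℂ) ≤ 𝓝 (χ (algebraMap ℚ[X] A X)) →
        ∀ i, Tendsto (fun s ↦ φ s (a i)) U (𝓝 (χ (a i))) := by
  classical
  have int : ∀ b : A, IsIntegral ℚ[X] b := Algebra.IsIntegral.isIntegral
  have zero : ∀ (φ : A →+* ℂ) (b : A),
      e2 (minpoly ℚ[X] b) (φ (algebraMap ℚ[X] A X)) (φ b) = 0 := fun φ b ↦ by
    rw [← hom_aeval, minpoly.aeval, map_zero]
  generalize ht : χ (algebraMap ℚ[X] A X) = t0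
  have fin : {y : ι → ℂ | (∀ i, e2 (minpoly ℚ[X] (a i)) t0 (y i) = 0) ∧
      y ≠ fun i ↦ χ (a i)}.Finite :=
    (Set.Finite.pi' fun i ↦ ((minpoly ℚ[X] (a i)).map (aeval t0).toRingHom).roots.finite_toSet).subset
      fun y hy i ↦ (mem_roots ((minpoly.monic (int _)).map _).ne_zero).2 (hy.1 i)
  have := fin.to_subtype
  obtain ⟨c, hc⟩ := Submodule.exists_forall_notMem_of_forall_ne_top
    (fun y : {y : ι → ℂ | (∀ i, e2 (minpoly ℚ[X] (a i)) t0 (y i) = 0) ∧ y ≠ fun i ↦ χ (a i)} ↦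
      LinearMap.ker (Fintype.linearCombination ℚ fun i ↦ y.1 i - χ (a i))) fun y e ↦
      y.2.2 (funext fun i ↦ sub_eq_zero.1 (by
        simpa using LinearMap.congr_fun (LinearMap.ker_eq_top.1 e) (Pi.single i 1)))
  obtain ⟨z, hz⟩ : ∃ z : A, ∀ φ : A →+* ℂ, φ z = ∑ i, (c i : ℂ) * φ (a i) :=
    ⟨∑ i, algebraMap ℚ[X] A (C (c i)) * a i, fun φ ↦ by simp only [map_sum, map_mul, hom_C]⟩
  have mo := minpoly.monic (int z)
  have d0 := minpoly.natDegree_pos (int z)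
  choose r r0 hr using fun s : ℂ ↦ near_root (mo.map (aeval s).toRingHom)
    (by rwa [mo.natDegree_map]) (χ z)
  choose φ φ0 φ1 using fun s ↦ point z (r0 s)
  refine ⟨φ, φ0, fun U hU ↦ ?_⟩
  choose y hy y0 using fun i ↦ lim U (t := id) (y := fun s ↦ φ s (a i)) hU
    (minpoly.monic (int (a i))) fun s ↦ by simpa only [φ0, id] using zero (φ s) (a i)
  have h1 : Tendsto r U (𝓝 (∑ i, (c i : ℂ) * y i)) :=
    (tendsto_finsetSum _ fun i _ ↦ (hy i).const_mul _).congr fun s ↦ by rw [← hz, φ1]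
  have h2 := e2_tendsto (t := id) hU (tendsto_const_nhds (x := χ z)) (minpoly ℚ[X] z)
  rw [← ht, zero] at h2
  have h3 := le_of_tendsto_of_tendsto'
    (((h1.const_sub (χ z)).norm).pow (minpoly ℚ[X] z).natDegree) h2.norm fun s ↦
      mo.natDegree_map (aeval s).toRingHom ▸ hr s
  rw [norm_zero] at h3
  have h4 := norm_eq_zero.1 (pow_eq_zero_iff d0.ne' |>.1 (le_antisymm h3 (by positivity)))
  have h5 : y = fun i ↦ χ (a i) := by_contra fun e ↦ hc ⟨y, y0, e⟩ (by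
    rw [hz, ← Finset.sum_sub_distrib] at h4
    rw [LinearMap.mem_ker, Fintype.linearCombination_apply, ← neg_eq_zero,
      ← Finset.sum_neg_distrib]
    exact (Finset.sum_congr rfl fun i _ ↦ by rw [Rat.smul_def]; ring).trans h4)
  exact fun i ↦ congrFun h5 i ▸ hy i

/-- normalisation of a curve -/
theorem normal {P : Id} (h : Crv P) : ∃ g : ℚ[X] →+* MvPolynomial Ch ℚ ⧸ P,
    Function.Injective g ∧ g.IsIntegral := by
  have := h.1
  obtain ⟨s, g, hg, hint⟩ := exists_integral_inj_algHom_of_fg ℚ (MvPolynomial Ch ℚ ⧸ P)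
  obtain rfl : s = 1 := by
    let _ : Algebra (MvPolynomial (Fin s) ℚ) (MvPolynomial Ch ℚ ⧸ P) := g.toRingHom.toAlgebra
    have : Algebra.IsIntegral (MvPolynomial (Fin s) ℚ) (MvPolynomial Ch ℚ ⧸ P) := ⟨hint⟩
    have e := h.2
    rw [helper6.krullDim_eq_of_isIntegral (R := MvPolynomial (Fin s) ℚ) hg,
      MvPolynomial.ringKrullDim_of_isNoetherianRing, ringKrullDim_eq_zero_of_field] at e
    simpa using e
  exact ⟨g.toRingHom.comp (MvPolynomial.uniqueAlgEquiv ℚ (Fin 1)).symm.toRingEquiv.toRingHom,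
    hg.comp (MvPolynomial.uniqueAlgEquiv ℚ (Fin 1)).symm.injective,
    (RingHom.isIntegral_of_surjective _
      (MvPolynomial.uniqueAlgEquiv ℚ (Fin 1)).symm.surjective).trans _ _ hint⟩

end MISO

open MISO in
theorem st_ISO (hP : St_PUI) (hD : St_DIM) : St_ISO := by
  intro P h x hx
  have := h.1
  obtain ⟨g, hg, hint⟩ := normal h
  let _ := g.toAlgebra
  have : Algebra.IsIntegral ℚ[X] (MvPolynomial Ch ℚ ⧸ P) := ⟨hint⟩
  have : FaithfulSMul ℚ[X] (MvPolynomial Ch ℚ ⧸ P) := (faithfulSMul_iff_algebraMap_injective _ _).2 hg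
  have ev : ∀ (φ : MvPolynomial Ch ℚ ⧸ P →+* ℂ) (f : MvPolynomial Ch ℚ),
      MvPolynomial.aeval (fun m ↦ φ (Ideal.Quotient.mk P (MvPolynomial.X m))) f =
        φ (Ideal.Quotient.mk P f) := fun φ f ↦
    RingHom.congr_fun (MvPolynomial.ringHom_ext' (RingHom.ext_rat _ _) (by simp) :
      (MvPolynomial.aeval (R := ℚ) fun m ↦ φ (Ideal.Quotient.mk P (MvPolynomial.X m))).toRingHom =
        φ.comp (Ideal.Quotient.mk P)) f
  obtain ⟨χ, hχ⟩ : ∃ χ : MvPolynomial Ch ℚ ⧸ P →+* ℂ,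
      ∀ m, χ (Ideal.Quotient.mk P (MvPolynomial.X m)) = x m :=
    ⟨Ideal.Quotient.lift P (MvPolynomial.aeval (R := ℚ) x).toRingHom hx, fun m ↦ by simp⟩
  obtain ⟨φ, φ0, hφ⟩ := acc χ fun m : Ch ↦ Ideal.Quotient.mk P (MvPolynomial.X m)
  obtain ⟨T, hT⟩ := Ideal.Quotient.mk_surjective (algebraMap ℚ[X] (MvPolynomial Ch ℚ ⧸ P) X)
  generalize χ (algebraMap ℚ[X] (MvPolynomial Ch ℚ ⧸ P) X) = t0 at hφ
  obtain ⟨U, hU⟩ := Ultrafilter.exists_le (𝓝[≠] t0)
  have hU' := hU.trans nhdsWithin_le_nhds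
  obtain ⟨κ, n, br, u, hu, hxu⟩ := MBR.main hP (hD P h.1 h.2) U
    (fun s m ↦ φ s (Ideal.Quotient.mk P (MvPolynomial.X m)))
    (fun s f hf ↦ by rw [ev, Ideal.Quotient.eq_zero_iff_mem.2 hf, map_zero]) fun p ↦ by
      have : ∀ᶠ s in U, s ≠ MvPolynomial.aeval p T := by
        rcases eq_or_ne t0 (MvPolynomial.aeval p T) with e | e
        · exact e ▸ eventually_mem_nhdsWithin.filter_mono hU
        · exact (eventually_ne_nhds e).filter_mono hU'
      exact this.mono fun s hs e ↦ hs (by rw [← e, ev, hT, φ0])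
  obtain ⟨u1, u2⟩ := tendsto_nhdsWithin_iff.1 hu
  have key : ∀ m, κ m 0 = x m * 0 ^ n := fun m ↦ by
    refine tendsto_nhds_unique_of_eventuallyEq ((br.an m).continuousAt.tendsto.comp u1)
      ((hχ m ▸ hφ U hU' m).mul (u1.pow n)) ?_
    filter_upwards [hxu, u2] with s h1 h2
    rw [congrFun h1 m, div_mul_cancel₀ _ (pow_ne_zero _ h2), Function.comp_apply]
  obtain rfl : n = 0 := br.prim.elim id fun ⟨m, hm⟩ ↦ by_contra fun e ↦
    hm (by rw [key, zero_pow e, mul_zero])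
  exact ⟨κ, br, fun m ↦ by rw [key, pow_zero, mul_one]⟩

end Pool.Agent.Lib.ECM
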