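import Pool.Agent.Lib.ECM.Blue
import Pool.Agent.Lib.ECM.B_HT4

/-! Finitely many algebraic numbers have bounded degree and height. -/

open Polynomial

namespace Pool.Agent.Lib.ECM

open Pool.Agent.Lib.ZP3 (Deg Sm AI)

namespace MNOR

theorem fin_AI (A : ℕ) : {w : ℂ | AI w A}.Finite := by
  classical
  let C := Nat.ceil (max (Real.exp A) 1 ^ A * A.choose (A / 2))
  refine (bUnion_roots_finite (algebraMap ℤ ℂ) A (Set.finite_Icc (-C : ℤ) C)).subset ?_
  rintro w ⟨hi, hd, hb⟩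
  simp_rw [Set.mem_iUnion]
  have hq : IsIntegral ℚ w := hi.tower_top
  have e := minpoly.isIntegrallyClosed_eq_field_fractions' ℚ hi
  have hdeg : (minpoly ℤ w).natDegree ≤ A := by
    rw [← (minpoly.monic hi).natDegree_map (algebraMap ℤ ℚ), ← e,
      ← IntermediateField.adjoin.finrank hq]
    exact T65.rank_le hq.isAlgebraic hd
  refine ⟨_, ⟨hdeg, fun i ↦ ?_⟩, mem_rootSet.2 ⟨minpoly.ne_zero hi, minpoly.aeval ℤ w⟩⟩
  have hq' : (minpoly ℚ w).natDegree ≤ A := by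
    rwa [e, (minpoly.monic hi).natDegree_map]
  have h := coeff_bdd_of_roots_le (B := Real.exp A) (algebraMap ℚ ℂ) (minpoly.monic hq)
    (IsAlgClosed.splits _) hq' (fun z hz ↦ by
      obtain ⟨σ, rfl⟩ := ZP3.exists_conj hq.isAlgebraic
        (by rw [aeval_def, eval₂_eq_eval_map]; exact (mem_roots'.1 hz).2 : aeval z (minpoly ℚ w) = 0)
      exact hb σ) i
  rw [Set.mem_Icc, ← abs_le, ← @Int.cast_le ℝ]
  refine (Eq.trans_le ?_ h).trans (Nat.le_ceil _)
  rw [e, coeff_map, coeff_map]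
  simp

end MNOR

theorem st_NOR : St_NOR := by
  intro d B
  let a := max d ⌈B⌉₊
  let A := 2 * a ^ 2
  refine ((Set.finite_Icc 1 ⌈Real.exp A⌉₊).biUnion fun n _ ↦
    (MNOR.fin_AI A).image fun w ↦ w / (n : ℂ)).subset ?_
  rintro z ⟨h1, h2, h3⟩
  obtain ⟨n, n0, hn, hA⟩ := T65.sm_of (a := a) h1 (h2.mono (le_max_left _ _))
    (h3.trans ((Nat.le_ceil B).trans (Nat.cast_le.2 (le_max_right _ _))))
  simp only [Set.mem_iUnion]
  exact ⟨n, ⟨n0, Nat.cast_le.1 (hn.trans (Nat.le_ceil _))⟩, _, hA,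
    mul_div_cancel_left₀ z (Nat.cast_ne_zero.2 n0.ne')⟩

end Pool.Agent.Lib.ECM
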