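import Pool.Agent.Lib.ECM.Blue3
import Pool.Agent.Lib.ECM.TH_All

/-! The second order theta null map is open at one point. -/

open Complex Filter Topology
open scoped Real

noncomputable section

namespace Pool.Agent.Lib.ECM

namespace MOPEN

/-- logarithmic derivative `l` at the origin -/
def LD (f : ℂ → ℂ) (l : ℂ) : Prop := HasDerivAt f (l * f 0) 0

theorem LD.mul {f g : ℂ → ℂ} {l l' : ℂ} (h : LD f l) (h' : LD g l') :
    LD (fun t ↦ f t * g t) (l + l') :=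
  (HasDerivAt.fun_mul h h').congr_deriv (by ring)

theorem LD.div {f g : ℂ → ℂ} {l l' : ℂ} (h : LD f l) (h' : LD g l') (h0 : g 0 ≠ 0) :
    LD (fun t ↦ f t / g t) (l - l') :=
  (HasDerivAt.fun_div h h' h0).congr_deriv (by field_simp)

theorem LD.sum {ι : Type} [Fintype ι] {f : ι → ℂ → ℂ} {l : ℂ} (c : ι → ℂ) (h : ∀ i, LD (f i) l) :
    LD (fun t ↦ ∑ i, c i * f i t) l :=
  (HasDerivAt.fun_sum fun i _ ↦ HasDerivAt.const_mul (c i) (h i)).congr_deriv (by
    rw [Finset.mul_sum]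
    exact Finset.sum_congr rfl fun i _ ↦ by ring)

theorem LD.congr {f g : ℂ → ℂ} {l : ℂ} (h : LD f l) (e : g =ᶠ[𝓝 0] f) : LD g l := by
  have := HasDerivAt.congr_of_eventuallyEq h e
  rwa [← e.eq_of_nhds] at this

/-- the base point -/
def t0 : T3 := ![2 * I, I / 2, 3 * I]

theorem red_nhds : Red ∈ 𝓝 t0 := by
  have c1 : ∀ i, Continuous fun τ : T3 ↦ (τ i).im := fun i ↦ by fun_prop
  have c2 : ∀ i, Continuous fun τ : T3 ↦ |(τ i).re| := fun i ↦ by fun_prop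
  have h1 : ∀ᶠ τ in 𝓝 t0, 0 < (τ 1).im :=
    (continuous_const.continuousAt).eventually_lt (c1 1).continuousAt (by simp [t0])
  have h2 : ∀ᶠ τ in 𝓝 t0, 2 * (τ 1).im < (τ 0).im :=
    ((continuous_const.mul (c1 1)).continuousAt).eventually_lt (c1 0).continuousAt
      (by simp [t0])
  have h3 : ∀ᶠ τ in 𝓝 t0, (τ 0).im < (τ 2).im :=
    (c1 0).continuousAt.eventually_lt (c1 2).continuousAt (by simp [t0]; norm_num)
  have h4 : ∀ᶠ τ in 𝓝 t0, 17 / 20 < (τ 0).im :=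
    (continuous_const.continuousAt).eventually_lt (c1 0).continuousAt (by simp [t0]; norm_num)
  have h5 : ∀ᶠ τ in 𝓝 t0, ∀ i, |(τ i).re| < 1 / 2 := eventually_all.2 fun i ↦
    (c2 i).continuousAt.eventually_lt continuous_const.continuousAt
      (by fin_cases i <;> simp [t0])
  filter_upwards [h1, h2, h3, h4, h5] with τ a b c d e
  exact ⟨a.le, b.le, c.le, d.le, fun i ↦ (e i).le⟩

theorem red0 : t0 ∈ Red := mem_of_mem_nhds red_nhds

theorem red2 : (fun i ↦ 2 * t0 i) ∈ Red := by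
  refine ⟨?_, ?_, ?_, ?_, fun i ↦ ?_⟩
  · simp [t0]
  · simp [t0]
  · simp [t0]; norm_num
  · simp [t0]; norm_num
  · fin_cases i <;> simp [t0]

theorem gen0 : Gen t0 := fun m hm ↦ by
  by_cases h : m = (1, 1, 1, 1)
  · subst h
    exact fun e ↦ by simpa [t0] using th_ZER.last t0 red0 e
  · exact th_ZER.nine t0 red0 m hm h

theorem cd_xq : ContDiff ℂ 1 xq := by
  refine contDiff_pi.2 fun i ↦ ?_
  fin_cases i <;> simp only [xq] <;> simp <;> fun_prop

theorem cd_kk {τ : T3} (h : τ ∈ Red) (m : Ch) : ContDiffAt ℂ 1 (kk m) τ := by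
  obtain ⟨K, h1, h2, -⟩ := th_KAP
  have ho : Om ∈ 𝓝 (xq τ) := th_XQ.isOpen.mem_nhds (th_XQ.sub (th_XQ.red τ h))
  refine (((h1 m).contDiffAt ho).comp τ cd_xq.contDiffAt).congr_of_eventuallyEq ?_
  filter_upwards [cd_xq.continuous.continuousAt ho] with τ' h' using h2 τ' h' m

theorem f2_eq (τ : T3) (s : Z2) : f2 τ s = kk (s.1, s.2, 0, 0) fun i ↦ 2 * τ i := by
  have : cb (s.1, s.2, 0, 0) = 0 := by
    ext i
    fin_cases i <;> simp [cb]
  rw [f2, kk, th, this, add_zero]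

theorem cd_f2 (s : Z2) : ContDiffAt ℂ 1 (fun τ ↦ f2 τ s) t0 := by
  simp only [f2_eq]
  exact (cd_kk red2 _).comp t0 (f := fun (τ : T3) i ↦ 2 * τ i) (by fun_prop)

theorem f2_ne : f2 t0 0 ≠ 0 := fun h ↦ by
  have := th_EST1.one _ red2 ((0 : Z2).1, (0 : Z2).2, 0, 0) rfl rfl
  rw [← f2_eq, h] at this
  norm_num at this

/-- affine coordinates -/
def aff (g : Z2 → ℂ) : T3 := ![g (1, 0) / g 0, g (0, 1) / g 0, g (1, 1) / g 0]

theorem cd_F : ContDiffAt ℂ 1 (fun τ ↦ aff (f2 τ)) t0 := by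
  refine contDiffAt_pi.2 fun i ↦ ?_
  fin_cases i <;> exact (cd_f2 _).div (cd_f2 0) f2_ne

theorem z2_cases (s : Z2) : s = 0 ∨ s = (1, 0) ∨ s = (0, 1) ∨ s = (1, 1) := by
  revert s
  decide

theorem line (δ : T3) : HasDerivAt (fun t : ℂ ↦ t0 + t • δ) δ 0 := by
  simpa using ((hasDerivAt_id (0 : ℂ)).smul_const δ).const_add t0

theorem along {f : T3 → ℂ} (h : ContDiffAt ℂ 1 f t0) (δ : T3) :
    ∃ a, HasDerivAt (fun t : ℂ ↦ f (t0 + t • δ)) a 0 :=
  ⟨_, (h.differentiableAt one_ne_zero).hasFDerivAt.comp_hasDerivAt_of_eq 0 (line δ) (by simp)⟩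

theorem ev_line {p : T3 → Prop} (h : ∀ᶠ τ in 𝓝 t0, p τ) (δ : T3) :
    ∀ᶠ t : ℂ in 𝓝 0, p (t0 + t • δ) :=
  (line δ).continuousAt.eventually (by simpa using h)

theorem inj (hA : St_ADD2) (δ : T3) (h : fderiv ℂ (fun τ ↦ aff (f2 τ)) t0 δ = 0) : δ = 0 := by
  have hF : HasDerivAt (fun t : ℂ ↦ aff (f2 (t0 + t • δ))) 0 0 := h ▸
    (cd_F.differentiableAt one_ne_zero).hasFDerivAt.comp_hasDerivAt_of_eq 0 (line δ) (by simp)
  obtain ⟨a, ha⟩ := along (cd_f2 0) δ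
  have e0 : t0 + (0 : ℂ) • δ = t0 := by simp
  have l0 : LD (fun t ↦ f2 (t0 + t • δ) 0) (a / f2 t0 0) := by
    rw [LD, e0, div_mul_cancel₀ _ f2_ne]
    exact ha
  generalize a / f2 t0 0 = l at l0
  have n0 := ev_line ((cd_f2 0).continuousAt.eventually_ne f2_ne) δ
  have l1 : ∀ (i : Fin 3) (s : Z2), (∀ g, aff g i = g s / g 0) →
      LD (fun t ↦ f2 (t0 + t • δ) s) l := fun i s e ↦ by
    have h1 : LD (fun t ↦ aff (f2 (t0 + t • δ)) i) 0 := by
      rw [LD, zero_mul]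
      exact hasDerivAt_pi.1 hF i
    have h2 := h1.mul l0
    rw [zero_add] at h2
    refine h2.congr (n0.mono fun t ht ↦ ?_)
    simp only [e, div_mul_cancel₀ _ ht]
  have l2 : ∀ s, LD (fun t ↦ f2 (t0 + t • δ) s) l := fun s ↦ by
    rcases z2_cases s with rfl | rfl | rfl | rfl
    exacts [l0, l1 0 _ fun _ ↦ rfl, l1 1 _ fun _ ↦ rfl, l1 2 _ fun _ ↦ rfl]
  have nr := ev_line (p := (· ∈ Red)) red_nhds δ
  have l3 : ∀ m, LD (fun t ↦ kk m (t0 + t • δ)) l := fun m ↦ by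
    by_cases hm : Ev m
    · obtain ⟨b, hb⟩ := along (cd_kk red0 m) δ
      have h1 : LD (fun t ↦ kk m (t0 + t • δ) ^ 2) (l + l) :=
        (LD.sum _ fun s ↦ (l2 s).mul (l2 (s + (m.1, m.2.1)))).congr
          (nr.mono fun t ht ↦ hA _ (th_BAS.red ht) m)
      have h2 := HasDerivAt.unique h1 (hb.fun_pow 2)
      simp only [e0] at h2
      rw [LD, e0, ← mul_left_cancel₀ (mul_ne_zero two_ne_zero (gen0 m hm))
        (show 2 * kk m t0 * b = 2 * kk m t0 * (l * kk m t0) by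
          push_cast at h2; linear_combination -h2)]
      exact hb
    · simp only [LD, th_BAS.kk_odd m _ hm, mul_zero]
      exact hasDerivAt_const _ _
  have l4 : ∀ j, LD (fun t ↦ fp (Pp j) (t0 + t • δ) 0) l := fun j ↦
    (LD.sum (fun b ↦ cfP (Pp j) b / 4) fun b ↦ l3 (chP (Pp j) b)).congr (nr.mono fun t ht ↦ by
      have := th_SPLIT _ (th_BAS.red ht) (Pp j) 0
      simp only [div_mul_eq_mul_div, ← Finset.sum_div, kk, ← this]
      ring)
  obtain ⟨Φ, hΦ, hΦ'⟩ := th_PHI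
  obtain ⟨-, L, hL⟩ := hΦ _ (th_XQ.red t0 red0)
  have p0 : ∀ j, fp (Pp j) (t0 + (0 : ℂ) • δ) 0 ≠ 0 := fun j ↦ e0.symm ▸ (hΦ' t0 red0).1 j
  have hx := (cd_xq.differentiable one_ne_zero t0).hasFDerivAt.comp_hasDerivAt_of_eq 0 (line δ)
    e0.symm
  have h1 := hL.comp_hasDerivAt_of_eq 0 hx (by simp)
  have h2 : HasDerivAt (fun t : ℂ ↦ Φ (xq (t0 + t • δ))) 0 0 := by
    refine HasDerivAt.congr_of_eventuallyEq ?_ (nr.mono fun t ht ↦ (hΦ' _ ht).2)
    refine hasDerivAt_pi.2 fun i ↦ ?_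
    fin_cases i
    · simpa [LD] using ((l4 1).mul (l4 2)).div ((l4 3).mul (l4 0)) (mul_ne_zero (p0 3) (p0 0))
    · simpa [LD] using (l4 3).div (l4 2) (p0 2)
    · simpa [LD] using (l4 2).div (l4 1) (p0 1)
  have h3 : fderiv ℂ xq t0 δ = 0 := L.injective ((h1.unique h2).trans (map_zero L).symm)
  rw [h3] at hx
  have c : ∀ i, HasDerivAt (fun t : ℂ ↦ (t0 + t • δ) i) (δ i) 0 := hasDerivAt_pi.1 (line δ)
  have pi0 : (π : ℂ) * I ≠ 0 := mul_ne_zero (ofReal_ne_zero.2 Real.pi_ne_zero) I_ne_zero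
  have a0 := (hasDerivAt_pi.1 hx 0).unique (((c 1).const_mul (π * I)).div_const 2).cexp
  have a1 := (hasDerivAt_pi.1 hx 1).unique
    ((((c 0).fun_sub ((c 1).const_mul 2)).const_mul (π * I)).div_const 4).cexp
  have a2 := (hasDerivAt_pi.1 hx 2).unique
    ((((c 2).fun_sub (c 0)).const_mul (π * I)).div_const 4).cexp
  simp only [Pi.zero_apply, zero_eq_mul, exp_ne_zero, false_or, div_eq_zero_iff, mul_eq_zero,
    pi0, OfNat.ofNat_ne_zero, or_false] at a0 a1 a2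
  ext i
  fin_cases i
  · show δ 0 = 0
    linear_combination a1 + 2 * a0
  · exact a0
  · show δ 2 = 0
    linear_combination a2 + a1 + 2 * a0

end MOPEN

open MOPEN in
theorem st_OPEN (hA : St_ADD2) : St_OPEN := by
  refine ⟨f2 t0, fun m hm ↦ hA t0 (th_BAS.red red0) m ▸ pow_ne_zero 2 (gen0 m hm), ?_⟩
  have hs := (cd_F.hasStrictFDerivAt one_ne_zero).map_nhds_eq_of_surj
    (LinearMap.range_eq_top.2 (LinearMap.injective_iff_surjective.1
      ((injective_iff_map_eq_zero _).2 (inj hA))))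
  have h1 : ∀ᶠ y in 𝓝 (aff (f2 t0)), ∃ τ ∈ H2, f2 τ 0 ≠ 0 ∧ aff (f2 τ) = y := by
    rw [← hs, eventually_map]
    filter_upwards [red_nhds, (cd_f2 0).continuousAt.eventually_ne f2_ne] with τ a b
    exact ⟨τ, th_BAS.red a, b, rfl⟩
  have h2 : ContinuousAt aff (f2 t0) := by
    refine continuousAt_pi.2 fun i ↦ ?_
    fin_cases i <;>
      exact (continuous_apply _).continuousAt.div (continuous_apply 0).continuousAt f2_ne
  filter_upwards [h2.eventually h1, (continuous_apply 0).continuousAt.eventually_ne f2_ne] with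
    g ⟨τ, a, b, c⟩ d
  refine ⟨τ, a, f2 τ 0 / g 0, div_ne_zero b d, fun s ↦ ?_⟩
  have key : f2 τ s / f2 τ 0 = g s / g 0 := by
    rcases z2_cases s with rfl | rfl | rfl | rfl
    exacts [(div_self b).trans (div_self d).symm, congrFun c 0, congrFun c 1, congrFun c 2]
  field_simp at key ⊢
  linear_combination key

end Pool.Agent.Lib.ECM
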