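import Pool.Agent.Lib.ECM.Blue2
import Pool.Agent.Lib.ZP3.IsoEst
import Pool.Agent.Lib.ZP3.Sm1

/-! Block PTI: the period theorem in the coordinates of the master blueprint. -/

open UpperHalfPlane
open scoped Real ComplexConjugate

noncomputable section

namespace Pool.Agent.Lib.ECM

open Pool.Agent.Lib.MP_0704bf_ag
open Pool.Agent.Lib.ZP3
open CM (Fm QF)

namespace MPTI

/-! ### sizes -/

theorem nat_le_pow {A : ℕ} (hA : 2 ≤ A) (c : ℕ) : c ≤ A ^ c :=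
  (Nat.lt_two_pow_self).le.trans (Nat.pow_le_pow_left hA c)

theorem pow_mono {A i j : ℕ} (hA : 2 ≤ A) (h : i ≤ j) : A ^ i ≤ A ^ j :=
  Nat.pow_le_pow_right (by omega) h

theorem le_pow {A j : ℕ} (hA : 2 ≤ A) (h : 1 ≤ j) : A ≤ A ^ j := by
  simpa using pow_mono hA h

theorem cmul_le {A : ℕ} (hA : 2 ≤ A) (c i : ℕ) : c * A ^ i ≤ A ^ (c + i) := by
  rw [pow_add]
  exact Nat.mul_le_mul_right _ (nat_le_pow hA c)

theorem sm_mul {y z : ℂ} {A i j : ℕ} (hA : 2 ≤ A) (hy : Sm y (A ^ i)) (hz : Sm z (A ^ j)) :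
    Sm (y * z) (A ^ (2 + (i + j) * 2)) := by
  refine ((hy.mono (pow_mono hA (Nat.le_add_right i j))).mul
    (hz.mono (pow_mono hA (Nat.le_add_left j i)))).mono ?_
  rw [← pow_mul]
  exact cmul_le hA _ _

theorem sm_add {y z : ℂ} {A i j : ℕ} (hA : 2 ≤ A) (hy : Sm y (A ^ i)) (hz : Sm z (A ^ j)) :
    Sm (y + z) (A ^ (3 + (i + j) * 2)) := by
  refine ((hy.mono (pow_mono hA (Nat.le_add_right i j))).add
    (hz.mono (pow_mono hA (Nat.le_add_left j i)))).mono ?_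
  rw [← pow_mul]
  exact cmul_le hA _ _

theorem sm_div {y z : ℂ} {A i j : ℕ} (hA : 2 ≤ A) (hy : Sm y (A ^ i)) (hz : Sm z (A ^ j)) :
    Sm (y / z) (A ^ (8 + (i + j) * 4)) := by
  refine ((hy.mono (pow_mono hA (Nat.le_add_right i j))).div
    (hz.mono (pow_mono hA (Nat.le_add_left j i)))).mono ?_
  rw [← pow_mul]
  exact cmul_le hA _ _

theorem sm_unit {z : ℂ} {A n : ℕ} (hA : 2 ≤ A) (hn : 0 < n) (h : z ^ n = 1) : Sm z (A ^ n) := by
  have h1 : Sm ((1 : ℤ) : ℂ) 1 := sm_int 1 le_rfl (by simp)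
  have h2 := h1.root hn (z := z) (by simpa using h)
  exact h2.mono (by simpa using nat_le_pow hA n)

theorem sm_poly (p : MvPolynomial Ch ℤ) : ∃ k : ℕ, ∀ (A : ℕ) (x : Ch → ℂ), 2 ≤ A →
    (∀ m, Sm (x m) A) → Sm (MvPolynomial.aeval x p) (A ^ k) := by
  induction p using MvPolynomial.induction_on with
  | C a =>
    refine ⟨a.natAbs, fun A x hA _ ↦ ?_⟩
    have e : MvPolynomial.aeval x (MvPolynomial.C a : MvPolynomial Ch ℤ) = (a : ℂ) := by simp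
    rw [e]
    refine sm_int a (Nat.one_le_pow _ _ (by omega)) ?_
    have h1 : ((a.natAbs : ℕ) : ℝ) ≤ ((A ^ a.natAbs : ℕ) : ℝ) := by
      exact_mod_cast nat_le_pow hA _
    have h2 := Real.add_one_le_exp ((A ^ a.natAbs : ℕ) : ℝ)
    rw [Nat.cast_natAbs, Int.cast_abs] at h1
    linarith
  | add p q hp hq =>
    obtain ⟨i, hi⟩ := hp
    obtain ⟨j, hj⟩ := hq
    exact ⟨_, fun A x hA hx ↦ by rw [map_add]; exact sm_add hA (hi A x hA hx) (hj A x hA hx)⟩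
  | mul_X p n hp =>
    obtain ⟨i, hi⟩ := hp
    refine ⟨2 + (i + 1) * 2, fun A x hA hx ↦ ?_⟩
    rw [map_mul, MvPolynomial.aeval_X]
    exact sm_mul hA (hi A x hA hx) (by simpa using hx n)

theorem hom_mul {F : MvPolynomial Ch ℤ} {n : ℕ} (hF : F.IsHomogeneous n) (c : ℂ) (x : Ch → ℂ) :
    MvPolynomial.aeval (fun m ↦ x m * c) F = MvPolynomial.aeval x F * c ^ n := by
  rw [MvPolynomial.aeval_def, MvPolynomial.aeval_def, MvPolynomial.eval₂_eq,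
    MvPolynomial.eval₂_eq, Finset.sum_mul]
  refine Finset.sum_congr rfl fun d hd ↦ ?_
  have h1 : ∑ i ∈ d.support, d i = n := by
    have := hF (MvPolynomial.mem_support_iff.1 hd)
    simpa [Finsupp.weight_apply, Finsupp.sum] using this
  simp only [mul_pow, Finset.prod_mul_distrib, Finset.prod_pow_eq_pow_sum, h1]
  ring

theorem ll_smul (m : Ch) (τ : T3) (c : ℂ) (v : V2) : ll m τ (c • v) = c * ll m τ v := by
  simp [ll, dth]

/-- all coordinates of a vector from the two basic ones -/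
theorem lin (hLIN : St_LIN) : ∃ k : ℕ, ∀ (x : Ch → ℂ) (τ : T3) (e : V2) (A : ℕ) (cA cB : ℂ),
    Over x τ → Gen τ → 2 ≤ A → (∀ m, Sm (x m) A) → Sm cA A → Sm cB A →
    ll hA τ e = kk 0 τ * cB → ll hB τ e = -(kk 0 τ * cA) → ∀ h, Sm (lv τ e h) (A ^ k) := by
  obtain ⟨P, Ap, Bp, h1, h2⟩ := hLIN
  choose kP hP using fun h ↦ sm_poly (P h)
  choose kA hA' using fun h ↦ sm_poly (Ap h)
  choose kB hB' using fun h ↦ sm_poly (Bp h)
  refine ⟨Finset.univ.sup fun h ↦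
    8 + (3 + (2 + (kA h + 1) * 2 + (2 + (kB h + 1) * 2)) * 2 + kP h) * 4, ?_⟩
  intro x τ e A cA cB hx hg hA hxs hcA hcB e1 e2 h
  obtain ⟨hτ, k0, hx⟩ := hx
  have ek : (fun m ↦ kk m τ) = fun m ↦ x m * kk 0 τ := by
    funext m
    rw [hx m, div_mul_cancel₀ _ k0]
  obtain ⟨a3, b3, c, m1, m2, m3, hc, v1, v2, v3, hPe⟩ := h1 h
  have p3 : (P h).IsHomogeneous 3 := by
    rw [hPe]
    exact (((MvPolynomial.isHomogeneous_X ℤ m1).mul (MvPolynomial.isHomogeneous_X ℤ m2)).mul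
      (MvPolynomial.isHomogeneous_X ℤ m3)).C_mul c
  have hne : MvPolynomial.aeval x (P h) ≠ 0 := by
    simp [hPe, hc, hx, hg _ v1, hg _ v2, hg _ v3, k0]
  have h4 := h2 τ hτ h e
  rw [ek, hom_mul a3, hom_mul b3, hom_mul p3, e1, e2] at h4
  have h5 : lv τ e h = (MvPolynomial.aeval x (Ap h) * cB + -(MvPolynomial.aeval x (Bp h) * cA)) /
      MvPolynomial.aeval x (P h) := by
    unfold lv
    rw [div_eq_div_iff k0 hne]
    apply mul_left_cancel₀ (pow_ne_zero 3 k0)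
    linear_combination h4
  rw [h5]
  refine (sm_div hA (sm_add hA (sm_mul hA (hA' h A x hA hxs) (j := 1) (by simpa using hcB))
    (sm_mul hA (hB' h A x hA hxs) (j := 1) (by simpa using hcA)).neg) (hP h A x hA hxs)).mono
    (pow_mono hA ?_)
  exact Finset.le_sup (f := fun h ↦
    8 + (3 + (2 + (kA h + 1) * 2 + (2 + (kB h + 1) * 2)) * 2 + kP h) * 4) (Finset.mem_univ h)

/-- sizes after the action of the modular group -/
theorem transfer (hK : St_SYMK) (γ : Sym) {x : Ch → ℂ} {τ : T3} {A i : ℕ} (hx : Over x τ)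
    (hA : 2 ≤ A) (hxs : ∀ m, Sm (x m) (A ^ i)) :
    (∀ m, Sm (kk m (γ.act τ) / kk 0 (γ.act τ)) (A ^ (152 + 16 * i))) ∧
    ∀ w : V2, (∀ h, Sm (lv τ w h) (A ^ i)) →
      ∀ h, Sm (ll h (γ.act τ) (γ.M τ w) / kk 0 (γ.act τ)) (A ^ (152 + 16 * i)) := by
  obtain ⟨hτ, k0, hx⟩ := hx
  obtain ⟨c, hc, h⟩ := hK.cst γ τ hτ
  have su : ∀ m', ∃ m, γ.A m + γ.s = m' := fun m' ↦ ⟨γ.A.symm (m' - γ.s), by simp⟩
  obtain ⟨m0, e0⟩ := su 0
  have z8 : ∀ m, Sm (γ.ζ m) (A ^ 8) := fun m ↦ sm_unit hA (by norm_num) (γ.ζ8 m)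
  have key : ∀ (m : Ch) (y : ℂ), Sm (y / kk 0 τ) (A ^ i) →
      Sm (c * γ.ζ m * y / kk 0 (γ.act τ)) (A ^ (152 + 16 * i)) := by
    intro m y hy
    have e : c * γ.ζ m * y / kk 0 (γ.act τ) = γ.ζ m * (y / kk 0 τ) / (γ.ζ m0 * x m0) := by
      conv_lhs => rw [← e0, (h m0).1]
      rw [hx m0, mul_assoc, mul_assoc, mul_div_mul_left _ _ hc, ← mul_div_assoc, ← mul_div_assoc,
        div_div_div_cancel_right₀ k0]
    rw [e]
    exact (sm_div hA (sm_mul hA (z8 m) hy) (sm_mul hA (z8 m0) (hxs m0))).mono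
      (pow_mono hA (by omega))
  refine ⟨fun m' ↦ ?_, fun w hw m' ↦ ?_⟩
  · obtain ⟨m, rfl⟩ := su m'
    rw [(h m).1]
    exact key m _ (hx m ▸ hxs m)
  · obtain ⟨m, rfl⟩ := su m'
    rw [(h m).2]
    exact key m _ (hw m)

/-- the quadratic integer attached to a form -/
theorem ai_form {D A c : ℕ} {t : ℍ} (h : Fm D t) (hA : 2 ≤ A) (hD : D ≤ A) (hc : 0 < c)
    (h1 : 1 ≤ 2 * t.im) (h2 : ‖(t : ℂ)‖ ≤ c * A) :
    ∃ a : ℕ, 0 < a ∧ a ≤ A ∧ AI (a * t) (c * A ^ 2) := by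
  obtain ⟨a, b, c', ha, hd, hq⟩ := h
  lift a to ℕ using ha.le
  have ha0 : 0 < a := by exact_mod_cast ha
  have e1 := hq.im_eq ha hd
  have e2 := hq.re_im.1
  have hA' : (2 : ℝ) ≤ A := by exact_mod_cast hA
  have hD' : (D : ℝ) ≤ A := by exact_mod_cast hD
  have e3 : √(D : ℝ) ≤ A := Real.sqrt_le_iff.2 ⟨by positivity, by nlinarith⟩
  have ha1 : (0 : ℝ) ≤ a := by positivity
  push_cast at e1 e2
  have e4 : (a : ℝ) ≤ A := by nlinarith
  have e5 : ((a : ℂ) * t) ^ 2 + b * (a * t) + a * c' = 0 := by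
    unfold QF at hq
    push_cast at hq
    linear_combination (a : ℂ) * hq
  have e6 : -(b : ℂ) - a * t = conj ((a : ℂ) * t) := by
    apply Complex.ext
    · simp
      linarith
    · simp
  have e7 : ∀ σ : ℂ →+* ℂ, σ (a * t) = a * t ∨ σ (a * t) = conj ((a : ℂ) * t) := by
    intro σ
    have h3 := congrArg σ e5
    rw [map_add, map_add, map_pow, map_mul σ (b : ℂ), map_mul σ (a : ℂ) (c' : ℂ), map_intCast,
      map_intCast, map_natCast, map_zero] at h3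
    have h4 : (σ (a * t) - a * t) * (σ (a * t) - (-(b : ℂ) - a * t)) = 0 := by
      linear_combination h3 - e5
    rcases mul_eq_zero.1 h4 with h5 | h5
    · exact Or.inl (sub_eq_zero.1 h5)
    · exact Or.inr ((sub_eq_zero.1 h5).trans e6)
  have e8 : ‖(a : ℂ) * t‖ ≤ Real.exp ((c * A ^ 2 : ℕ) : ℝ) := by
    have h3 := Real.add_one_le_exp ((c * A ^ 2 : ℕ) : ℝ)
    rw [norm_mul, Complex.norm_natCast]
    have h4 : (a : ℝ) * ‖(t : ℂ)‖ ≤ A * (c * A) := mul_le_mul e4 h2 (norm_nonneg _) (by positivity)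
    push_cast at h3 ⊢
    nlinarith
  refine ⟨a, ha0, by exact_mod_cast e4, ?_, ?_, fun σ ↦ ?_⟩
  · refine ⟨Polynomial.X ^ 2 + Polynomial.C b * Polynomial.X + Polynomial.C (a * c'), by monicity!,
      ?_⟩
    rw [Polynomial.eval₂_add, Polynomial.eval₂_add, Polynomial.eval₂_mul, Polynomial.eval₂_C,
      Polynomial.eval₂_C, Polynomial.eval₂_pow, Polynomial.eval₂_X]
    simpa using e5
  · classical
    refine ⟨{(a : ℂ) * t, conj ((a : ℂ) * t)}, Finset.card_le_two.trans ?_, fun σ ↦ ?_⟩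
    · nlinarith
    · simpa only [Finset.mem_insert, Finset.mem_singleton] using e7 σ
  · rcases e7 σ with h3 | h3
    · rwa [h3]
    · rwa [h3, Complex.norm_conj]

/-! ### lines -/

theorem line_rel {τ : T3} {v : V2} {t τ0 : ℍ} (h : Line τ v τ0) (hr : Rel 1 t τ0) :
    ∃ l : ℂ, Line τ (l • v) t := by
  obtain ⟨a, b, c, d, hd, hm⟩ := hr
  unfold Mob at hm
  rw [Nat.cast_one] at hd
  have hd' : (a : ℂ) * d - b * c = 1 := by exact_mod_cast hd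
  have h0 : (c : ℂ) * t + d ≠ 0 := by
    intro h0
    have h1 := congrArg Complex.im h0
    have h2 : c = 0 := by simpa [t.im_pos.ne'] using h1
    have h3 : d = 0 := by simpa [h2] using h0
    simp [h2, h3] at hd
  refine ⟨((c : ℂ) * t + d)⁻¹, smul_ne_zero (inv_ne_zero h0) h.1, fun z ↦ ?_⟩
  rw [smul_smul, h.2]
  constructor
  · rintro ⟨m, n, e⟩
    refine ⟨m * d + n * b, m * c + n * a, ?_⟩
    rw [mul_inv_eq_iff_eq_mul₀ h0] at e
    push_cast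
    linear_combination e + n * hm
  · rintro ⟨m, n, e⟩
    refine ⟨a * m - b * n, -c * m + d * n, ?_⟩
    rw [mul_inv_eq_iff_eq_mul₀ h0]
    push_cast
    linear_combination e - (-c * m + d * n) * hm - (m + n * t) * hd'

theorem orth {τ : T3} {e v : V2} (hτ : τ ∈ H2) (h1 : (τ 1).im = 0) (hv : v ≠ 0) (hv1 : v 1 = 0)
    (h : ∀ t : ℂ, Hn τ (e + t • v) = Hn τ e + Complex.normSq t * Hn τ v) : e 0 = 0 := by
  have hv0 : v 0 ≠ 0 := by
    intro h0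
    apply hv
    funext i
    fin_cases i
    · exact h0
    · exact hv1
  obtain ⟨p0, p1⟩ := hτ
  have hd : 0 < dY τ := sub_pos.2 p1
  have p2 : 0 < (τ 2).im := by
    rw [h1] at p1
    exact (pos_iff_pos_of_mul_pos (by simpa using p1)).1 p0
  have h2 := h (-(e 0) / v 0)
  have a0 : (e + (-(e 0) / v 0) • v) 0 = 0 := by simp [hv0]
  have a1 : (e + (-(e 0) / v 0) • v) 1 = e 1 := by simp [hv1]
  have a2 : Complex.normSq (-(e 0) / v 0) * Complex.normSq (v 0) = Complex.normSq (e 0) := by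
    rw [← map_mul, div_mul_cancel₀ _ hv0, Complex.normSq_neg]
  unfold Hn at h2
  rw [a0, a1, hv1, h1] at h2
  simp only [map_zero, mul_zero, zero_mul, sub_zero, add_zero, zero_add] at h2
  rw [← mul_div_assoc, ← add_div, div_left_inj' hd.ne'] at h2
  have h3 : (τ 2).im * Complex.normSq (e 0) = 0 := by
    linear_combination -h2 / 2 - (τ 2).im * a2 / 2
  exact Complex.normSq_eq_zero.1 ((mul_eq_zero.1 h3).resolve_left p2.ne')

/-! ### no homomorphism between the two factors -/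

/-- the rational span of `1` and `t` -/
def Q (t z : ℂ) : Prop := ∃ α β : ℚ, z = α + β * t

variable {t y z : ℂ}

theorem Q.add (hy : Q t y) (hz : Q t z) : Q t (y + z) := by
  obtain ⟨a, b, rfl⟩ := hy
  obtain ⟨c, d, rfl⟩ := hz
  exact ⟨a + c, b + d, by push_cast; ring⟩

theorem Q.rat (r : ℚ) : Q t r := ⟨r, 0, by simp⟩

theorem Q.int (r : ℤ) : Q t r := ⟨r, 0, by simp⟩

theorem Q.mul {r s : ℚ} (ht : t ^ 2 = r + s * t) (hy : Q t y) (hz : Q t z) : Q t (y * z) := by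
  obtain ⟨a, b, rfl⟩ := hy
  obtain ⟨c, d, rfl⟩ := hz
  exact ⟨a * c + b * d * r, a * d + b * c + b * d * s, by push_cast; linear_combination b * d * ht⟩

theorem Q.of_mul {r s : ℚ} (ht : t ^ 2 = r + s * t) (hi : t.im ≠ 0) {w : ℂ} (hy : Q t y)
    (h0 : y ≠ 0) (hz : Q t z) (e : w * y = z) : Q t w := by
  obtain ⟨a, b, rfl⟩ := hy
  have h1 : ((a : ℂ) + b * t) * ((a + b * s : ℚ) + (-b : ℚ) * t) =
      (a ^ 2 + a * b * s - b ^ 2 * r : ℚ) := by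
    push_cast
    linear_combination -b ^ 2 * ht
  have h2 : ((a + b * s : ℚ) : ℂ) + (-b : ℚ) * t ≠ 0 := by
    intro h
    have h3 : b = 0 := by simpa [hi] using congrArg Complex.im h
    have h4 : a = 0 := by simpa [h3] using h
    simp [h3, h4] at h0
  have h3 : ((a ^ 2 + a * b * s - b ^ 2 * r : ℚ) : ℂ) ≠ 0 := h1 ▸ mul_ne_zero h0 h2
  have h4 : w = z * (((a + b * s : ℚ) + (-b : ℚ) * t) *
      ((a ^ 2 + a * b * s - b ^ 2 * r)⁻¹ : ℚ)) := by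
    rw [Rat.cast_inv, ← e, ← mul_assoc, mul_assoc w, h1, mul_assoc, mul_inv_cancel₀ h3, mul_one]
  rw [h4]
  exact Q.mul ht hz (Q.mul ht ⟨_, _, rfl⟩ (Q.rat _))

theorem Q.base (hy : Q t y) (hi : y.im ≠ 0) (hz : Q t z) : Q y z := by
  obtain ⟨a, b, rfl⟩ := hy
  obtain ⟨c, d, rfl⟩ := hz
  have hb : (b : ℂ) ≠ 0 := by
    intro h
    simp [h] at hi
  refine ⟨c - d * a / b, d / b, ?_⟩
  push_cast
  field_simp
  ring

theorem multiple {τ : T3} {w : V2} {q : ℚ} (h1 : τ 1 = q) (h0 : Q (τ 0) (w 0))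
    (h2 : Q (τ 2) (w 1)) : ∃ k : ℤ, k ≠ 0 ∧ (k : ℂ) • w ∈ Lat τ := by
  obtain ⟨a, b, e0⟩ := h0
  obtain ⟨c, d, e1⟩ := h2
  obtain ⟨k, hk⟩ := IsLocalization.exist_integer_multiples_of_finite (nonZeroDivisors ℤ)
    (![a - q * d, c - q * b, b, d] : Fin 4 → ℚ)
  choose n hn using hk
  have hc : ∀ i, (n i : ℂ) = (k : ℤ) * (((![a - q * d, c - q * b, b, d] : Fin 4 → ℚ) i : ℚ) : ℂ) := by
    intro i
    have := congrArg (fun r : ℚ ↦ (r : ℂ)) (hn i)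
    simpa using this
  have c0 := hc 0
  have c1 := hc 1
  have c2 := hc 2
  have c3 := hc 3
  simp only [Matrix.cons_val, Rat.cast_sub, Rat.cast_mul] at c0 c1 c2 c3
  refine ⟨k, nonZeroDivisors.coe_ne_zero k, (n 0, n 1), (n 2, n 3), ?_⟩
  funext i
  fin_cases i
  · simp [per, iv, c0, c2, c3, e0, h1]
    ring
  · simp [per, iv, c1, c2, c3, e1, h1]
    ring

theorem nohom (hB : St_BAS) {τ : T3} {v : V2} {τ0 : ℍ} {N : ℕ} {u : ℤ} (hτ : τ ∈ H2) (hN : 0 < N)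
    (h1 : τ 1 = u / N) (hv : v 1 = 0) (hl : Line τ v τ0) (hc : IsCM τ0) (hs : ¬ SqCM τ) :
    PT.NoHom τ := by
  intro p q p' q' hr
  by_contra hpq
  apply hs
  obtain ⟨a, b, c, ha, hq⟩ := hc
  have ha' : (a : ℂ) ≠ 0 := by exact_mod_cast ha
  have ht : (τ0 : ℂ) ^ 2 = (-c / a : ℚ) + (-b / a : ℚ) * (τ0 : ℂ) := by
    push_cast
    field_simp
    linear_combination hq
  have hi : (τ0 : ℂ).im ≠ 0 := τ0.im_pos.ne'
  have hN' : (N : ℂ) ≠ 0 := by exact_mod_cast hN.ne'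
  have hv0 : v 0 ≠ 0 := by
    intro h0
    apply hl.1
    funext i
    fin_cases i
    · exact h0
    · exact hv
  obtain ⟨p0, p1⟩ := hτ
  have p2 : 0 < (τ 2).im := (pos_iff_pos_of_mul_pos ((sq_nonneg _).trans_lt p1)).1 p0
  have q1 : τ 1 = ((u / N : ℚ) : ℂ) := by rw [h1]; push_cast; rfl
  obtain ⟨m1, n1, e1⟩ := (hl.2 (v 0)⁻¹).1 ⟨(1, 0), (0, 0), by
    funext i
    fin_cases i <;> simp [per, iv, hv, hv0]⟩
  obtain ⟨m2, n2, e2⟩ := (hl.2 (N * τ 0 * (v 0)⁻¹)).1 ⟨(0, -u), (N, 0), by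
    funext i
    fin_cases i
    · simp [per, iv, hv0, mul_comm]
    · simp [per, iv, hv, h1, hN']⟩
  have Q0 : Q τ0 (τ 0) := by
    refine Q.of_mul ht hi (y := N * (v 0)⁻¹) (Q.mul ht (by exact_mod_cast Q.int N)
      ⟨m1, n1, by simpa using e1⟩) (mul_ne_zero hN' (inv_ne_zero hv0))
      ⟨m2, n2, by simpa using e2⟩ (by ring)
  have Q2 : Q τ0 (τ 2) := by
    refine Q.of_mul ht hi (y := q * τ 0 + (-q' : ℤ)) (z := p' + (-p : ℤ) * τ 0)
      ((Q.mul ht (Q.int q) Q0).add (Q.int _)) ?_ ((Q.int _).add (Q.mul ht (Q.int _) Q0))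
      (by push_cast; linear_combination hr)
    intro h
    have h3 : q = 0 := by simpa [p0.ne'] using congrArg Complex.im h
    have h4 : q' = 0 := by simpa [h3] using h
    have h5 : p = 0 := by simpa [h3, h4, p0.ne'] using congrArg Complex.im hr
    exact hpq ⟨h5, h3⟩
  have Qt : Q τ0 τ0 := ⟨0, 1, by simp⟩
  have mu : ∀ w : V2, Q τ0 (w 0) → Q τ0 (w 1) → ∃ k : ℤ, k ≠ 0 ∧ (k : ℂ) • (τ0 : ℂ) • w ∈ Lat τ :=
    fun w a0 a1 ↦ multiple q1 (Q0.base p0.ne' (Q.mul ht Qt a0)) (Q2.base p2.ne' (Q.mul ht Qt a1))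
  have Q1 : Q τ0 (τ 1) := q1 ▸ Q.rat _
  have Z0 : Q τ0 0 := by exact_mod_cast Q.int 0
  have Z1 : Q τ0 1 := by exact_mod_cast Q.int 1
  obtain ⟨k1, g1, l1⟩ := mu ![1, 0] Z1 Z0
  obtain ⟨k2, g2, l2⟩ := mu ![0, 1] Z0 Z1
  obtain ⟨k3, g3, l3⟩ := mu ![τ 0, τ 1] Q0 Q1
  obtain ⟨k4, g4, l4⟩ := mu ![τ 1, τ 2] Q1 Q2
  refine ⟨(k1 * k2 * k3 * k4 : ℤ) * (τ0 : ℂ), ?_, ?_⟩
  · simp [g1, g2, g3, g4, τ0.im_pos.ne']
  · rintro _ ⟨m, n, rfl⟩
    convert hB.lat_add τ _ (hB.lat_add τ _ (hB.lat_smul τ (m.1 * (k2 * k3 * k4)) _ l1) _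
      (hB.lat_smul τ (m.2 * (k1 * k3 * k4)) _ l2)) _ (hB.lat_add τ _
      (hB.lat_smul τ (n.1 * (k1 * k2 * k4)) _ l3) _ (hB.lat_smul τ (n.2 * (k1 * k2 * k3)) _ l4))
      using 1
    funext i
    fin_cases i
    · simp [per, iv]
      ring
    · simp [per, iv]
      ring

end MPTI

open MPTI in
theorem st_PT (hP : PT.PTH) (hNF : St_NF) (hRED : St_RED) (hK : St_SYMK) (hLIN : St_LIN)
    (hG : St_GAUGE) (hL : St_LINE) (hB : St_BAS) : St_PT := by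
  obtain ⟨k, A0, hP⟩ := hP
  obtain ⟨k1, hlin⟩ := lin hLIN
  obtain ⟨c, hc, hmod⟩ := IE.model 1 one_pos
  refine ⟨(A0 + c + 2 + (152 + 16 * (k1 + 28))) * k, ?_⟩
  intro x τ v τ0 Ω N D A cA cB hx hg hsq _ hl hD hΩ hN hE hA hDA hNA sx sv sj sA sB
  rcases Nat.eq_zero_or_pos N with rfl | hN0
  · exact Nat.zero_le _
  have hτ := hx.1
  have k0 := hx.2.1
  obtain ⟨γ, hγ⟩ := hRED τ hτ
  have hτ' := γ.act_mem τ hτ
  obtain ⟨m1, m2, -⟩ := hL.map τ _ (γ.M τ) (γ.bij τ hτ) (γ.lat τ hτ)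
  obtain ⟨g, u, hu, g1, g2⟩ := hNF _ hτ' _ τ0 N (m1 v τ0 hl) (by
    rw [hN]; unfold NN; rw [γ.herm τ hτ])
  have hτ'' := g.act_mem _ hτ'
  obtain ⟨m3, m4, -⟩ := hL.map _ _ (g.M (γ.act τ)) (g.bij _ hτ') (g.lat _ hτ')
  have hl'' := m3 _ τ0 (m1 v τ0 hl)
  obtain ⟨t, Ωt, W, t1, t2, t3, t4, t5, t6, t7, t8⟩ := hmod (jInv τ0) A (by omega) (by
    rw [Nat.cast_one, one_mul]
    exact ⟨hD.int, sj.deg, fun σ ↦ (sj.conj σ).norm_le⟩)
  have hr := j_inj t1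
  obtain ⟨l, hlt⟩ := line_rel hl hr
  have hρ := (hL.same τ hτ v τ0 l t hl hlt).2.2 Ω Ωt hΩ (by simpa [Nrm] using t3)
  have hΩ0 := ((hL.nrm τ0).2 Ω hΩ).1
  obtain ⟨a, a1, a2, a3⟩ := ai_form (hD.rel hr) hA hDA hc t6 t5
  obtain ⟨e, he⟩ := (hG.ind τ hτ hg).2 (kk 0 τ * cB, -(kk 0 τ * cA))
  have e1 : ll ECM.hA τ e = kk 0 τ * cB := congrArg Prod.fst he
  have e2 : ll ECM.hB τ e = -(kk 0 τ * cA) := congrArg Prod.snd he
  have e3 : eta τ cA cB e = 0 := by unfold eta; rw [e1, e2]; ring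
  have e4 : e ≠ 0 := by
    rintro rfl
    apply hE.ne
    have z : ∀ m, ll m τ 0 = 0 := fun m ↦ by simpa using ll_smul m τ 0 0
    rw [z] at e1 e2
    have b1 : cB = 0 := by simpa [k0] using e1
    have b2 : cA = 0 := by simpa [k0] using e2
    simp [eta, b1, b2]
  have inj := (γ.bij τ hτ).1
  obtain ⟨s1, s2⟩ := transfer hK γ (i := k1 + 28) hx hA fun m ↦ (sx m).mono (le_pow hA (by omega))
  have s3 := s2 e fun h ↦ (hlin x τ e A cA cB hx hg hA sx sA sB e1 e2 h).mono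
    (pow_mono hA (by omega))
  have s4 := s2 ((l / Ωt) • v) fun h ↦ by
    have e : lv τ ((l / Ωt) • v) h = l * Ω / Ωt * lv τ (Ω⁻¹ • v) h := by
      unfold lv
      rw [ll_smul, ll_smul]
      field_simp
    rw [e]
    exact (sm_mul hA (sm_unit hA (by norm_num) hρ) (j := 1) (by simpa using sv h)).mono
      (pow_mono hA (by omega))
  set K := A0 + c + 2 + (152 + 16 * (k1 + 28)) with hKdef
  have b1 : A ≤ A ^ K := le_pow hA (by omega)
  have b2 : c * A ^ 2 ≤ A ^ K := (cmul_le hA c 2).trans (pow_mono hA (by omega))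
  have b3 : A ^ (152 + 16 * (k1 + 28)) ≤ A ^ K := pow_mono hA (by omega)
  have b4 : (A : ℝ) ≤ ((A ^ K : ℕ) : ℝ) := by exact_mod_cast b1
  rw [pow_mul]
  refine hP (A ^ K) N a u (γ.act τ) g W t Ωt (γ.M τ ((l / Ωt) • v)) (γ.M τ e)
    ((nat_le_pow hA A0).trans (pow_mono hA (by omega))) hγ ((hK.gen γ τ hτ).2 hg) hN0 hu g1
    (nohom hB hτ'' hN0 g1 g2 hl'' hD.isCM fun h ↦ hsq (m2.2 (m4.2 h))) ?_ t4
    (WD.Size.mono (by simpa using t8 1 0 (by simp) (by simp) (by simp)) b2) (IE.Ar_mono t7 b2) t6 a1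
    ?_ (a3.mono b2) (by simp [g2]) (fun z ↦ ?_) ?_
    (fun h ↦ e4 (inj (h.trans (map_zero _).symm))) (fun m ↦ (s1 m).mono b3) ((s4 _).mono b3)
    ((s4 _).mono b3) ((s3 _).mono b3) ((s3 _).mono b3)
  · exact (Real.log_le_iff_le_exp (by exact_mod_cast hN0)).1 (hNA.trans b4)
  · have h1 : (a : ℝ) ≤ A := by exact_mod_cast a2
    have h2 := Real.add_one_le_exp ((A ^ K : ℕ) : ℝ)
    linarith
  · rw [t4 z, ← map_smul, γ.lat τ hτ, smul_smul, show z * (l / Ωt) = z / Ωt * l by ring,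
      ← smul_smul, hlt.2]
    refine exists_congr fun m ↦ exists_congr fun n ↦ ?_
    rw [div_eq_iff t2, mul_comm]
  · refine orth hτ'' (by rw [g1]; simp [← Complex.ofReal_natCast]) hl''.1 g2 fun s ↦ ?_
    rw [← map_smul, ← map_add, ← map_smul, ← map_add, g.herm _ hτ', g.herm _ hτ', g.herm _ hτ',
      γ.herm _ hτ, γ.herm _ hτ, γ.herm _ hτ]
    exact hE.orth e e3 s

end Pool.Agent.Lib.ECM
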