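import Pool.Agent.Lib.ECM.Blue3
import Pool.Agent.Lib.helper6.Dim

/-! Block QBAR: descent of the field of definition of a curve. -/

namespace Pool.Agent.Lib.ECM

attribute [local instance] MvPolynomial.algebraMvPolynomial in
theorem st_QBAR : St_QBAR := fun P hP hd ↦ by
  have : Algebra.IsAlgebraic ℚ Qb := algebraicClosure.isAlgebraic ℚ ℂ
  refine ⟨P.comap (algebraMap (MvPolynomial Ch ℚ) (MvPolynomial Ch Qb)),
    ⟨Ideal.comap_isPrime _ _, ?_⟩, fun x hx f hf ↦ ?_⟩
  · rw [← hd]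
    exact (helper6.krullDim_eq_of_isIntegral (S := MvPolynomial Ch Qb ⧸ P)
      (R := MvPolynomial Ch ℚ ⧸ P.comap (algebraMap (MvPolynomial Ch ℚ) (MvPolynomial Ch Qb)))
      Ideal.algebraMap_quotient_injective).symm
  · rw [← MvPolynomial.aeval_map_algebraMap Qb]
    exact hx _ hf

end Pool.Agent.Lib.ECM
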