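import Pool.Agent.Lib.ECM.Blue3
import Pool.Agent.Lib.ECM.TH_BAS
import Pool.Agent.Lib.ECM.TH_SYMJ

/-! All sign changes of the theta constants are realised by the modular group. -/

open Complex
open scoped Real

noncomputable section

namespace Pool.Agent.Lib.ECM

namespace MSGN

/-- the sign -/
def sg (x : ZMod 2) : ℂ := (-1) ^ x.val

theorem two (x : ZMod 2) : x = 0 ∨ x = 1 := by revert x; decide

theorem sg0 : sg 0 = 1 := pow_zero _

theorem sg1 : sg 1 = -1 := pow_one _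

theorem sg_add (x y : ZMod 2) : sg (x + y) = sg x * sg y := by
  have h : (1 : ZMod 2) + 1 = 0 := by decide
  rcases two x with rfl | rfl <;> rcases two y with rfl | rfl <;> simp [h, sg0, sg1]

theorem sg_sq (x : ZMod 2) : sg x * sg x = 1 := by
  rcases two x with rfl | rfl <;> simp [sg0, sg1]

theorem exp_sg (k : ℤ) (x : ZMod 2) : exp (π * I * (2 * k + x.val)) = sg x := by
  rw [show (π : ℂ) * I * (2 * k + x.val) = k * (2 * π * I) + x.val * (π * I) by ring, exp_add,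
    exp_int_mul_two_pi_mul_I, exp_nat_mul, exp_pi_mul_I, one_mul, sg]

/-- realised sign changes -/
def Rl (f : Ch → ZMod 2) : Prop :=
  ∀ τ ∈ H2, ∃ τ' ∈ H2, ∃ c : ℂ, c ≠ 0 ∧ ∀ m, kk m τ' = c * sg (f m) * kk m τ

theorem Rl.add {f g : Ch → ZMod 2} (hf : Rl f) (hg : Rl g) : Rl fun m ↦ f m + g m := by
  intro τ h
  obtain ⟨τ1, h1, c1, e1, k1⟩ := hf τ h
  obtain ⟨τ2, h2, c2, e2, k2⟩ := hg τ1 h1
  exact ⟨τ2, h2, c2 * c1, mul_ne_zero e2 e1, fun m ↦ by rw [k2, k1, sg_add]; ring⟩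

theorem rl_const (x : ZMod 2) : Rl fun _ ↦ x := fun τ h ↦
  ⟨τ, h, sg x, left_ne_zero_of_mul_eq_one (sg_sq x), fun m ↦ by rw [sg_sq, one_mul]⟩

theorem Rl.smul {f : Ch → ZMod 2} (hf : Rl f) (x : ZMod 2) : Rl fun m ↦ x * f m := by
  rcases two x with rfl | rfl
  · simpa using rl_const 0
  · simpa using hf

theorem Rl.congr {f g : Ch → ZMod 2} (hf : Rl f) (e : ∀ m, Ev m → g m = f m) : Rl g := by
  intro τ h
  obtain ⟨τ1, h1, c1, e1, k1⟩ := hf τ h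
  refine ⟨τ1, h1, c1, e1, fun m ↦ ?_⟩
  by_cases hm : Ev m
  · rw [k1, e m hm]
  · rw [st_BAS.kk_odd m _ hm, st_BAS.kk_odd m _ hm, mul_zero]

theorem rl_sum (S : Finset Ch) (g : Ch → Ch → ZMod 2) (h : ∀ i ∈ S, Rl (g i)) :
    Rl fun m ↦ ∑ i ∈ S, g i m := by
  induction S using Finset.induction_on with
  | empty => simpa using rl_const 0
  | insert a S ha ih =>
    simp only [Finset.sum_insert ha]
    exact (h a (Finset.mem_insert_self _ _)).add (ih fun i hi ↦ h i (Finset.mem_insert_of_mem hi))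

/-- conjugation by a transformation -/
theorem Rl.conj {f : Ch → ZMod 2} (hf : Rl f) (p : Ch → Ch) (ζ : Ch → ℂ) (hζ : ∀ m, ζ m ≠ 0)
    (a i : T3 → T3) (ha : ∀ τ ∈ H2, a τ ∈ H2) (hi : ∀ τ ∈ H2, i τ ∈ H2)
    (hai : ∀ τ ∈ H2, a (i τ) = τ)
    (hk : ∀ τ ∈ H2, ∃ c : ℂ, c ≠ 0 ∧ ∀ m, kk (p m) (a τ) = c * ζ m * kk m τ) :
    Rl fun m ↦ f (p m) := by
  intro τ h
  obtain ⟨c1, e1, k1⟩ := hk τ h
  obtain ⟨τ2, h2, c2, e2, k2⟩ := hf _ (ha τ h)
  obtain ⟨c3, e3, k3⟩ := hk _ (hi τ2 h2)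
  refine ⟨i τ2, hi τ2 h2, c2 * c1 / c3, div_ne_zero (mul_ne_zero e2 e1) e3, fun m ↦ ?_⟩
  have h4 := k3 m
  rw [hai τ2 h2, k2, k1] at h4
  refine mul_left_cancel₀ (mul_ne_zero e3 (hζ m)) ?_
  rw [← h4]
  field_simp

theorem Rl.cJ {f : Ch → ZMod 2} (hf : Rl f) :
    Rl fun m ↦ f (m.2.2.1, m.2.1, m.1, m.2.2.2) := by
  refine hf.conj _ (fun m ↦ exp (-2 * π * I * (ca m 0 * cb m 0))) (fun _ ↦ exp_ne_zero _)
    XSYMJ.act XSYMJ.inv (fun _ ↦ XSYMJ.act_mem) (fun _ ↦ XSYMJ.inv_mem) (fun _ ↦ XSYMJ.act_inv)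
    fun τ h ↦ ⟨(-I * τ 0) ^ (1 / 2 : ℂ), ?_, fun m ↦ ?_⟩
  · rw [Ne, cpow_eq_zero_iff]
    simp [XSYMJ.ne0 h]
  · have g := XSYMJ.gen st_BAS h (ca m) (cb m) 0
    have e1 : ca (m.2.2.1, m.2.1, m.1, m.2.2.2) =
        ![-cb m 0, ca m 1] + iv ((m.2.2.1.val : ℤ), 0) := by
      funext i
      fin_cases i <;> simp [ca, cb, iv]
      ring
    have e2 : cb (m.2.2.1, m.2.1, m.1, m.2.2.2) = ![ca m 0, cb m 1] := by
      funext i
      fin_cases i <;> simp [ca, cb]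
    rw [map_zero] at g
    rw [kk, kk, th, th, e1, e2, st_BAS.shift_a, g]
    simp

/-- exchange of the coordinates -/
def sw (τ : T3) : T3 := ![τ 2, τ 1, τ 0]

theorem sw_mem (τ : T3) (h : τ ∈ H2) : sw τ ∈ H2 := by
  obtain ⟨h1, h2⟩ := h
  refine ⟨?_, by simpa [sw, mul_comm] using h2⟩
  have h3 : 0 < (τ 0).im * (τ 2).im := (sq_nonneg _).trans_lt h2
  simpa [sw] using (mul_pos_iff_of_pos_left h1).1 h3

theorem Rl.cS {f : Ch → ZMod 2} (hf : Rl f) :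
    Rl fun m ↦ f (m.2.1, m.1, m.2.2.2, m.2.2.1) := by
  refine hf.conj _ (fun _ ↦ 1) (fun _ ↦ one_ne_zero) sw sw sw_mem sw_mem
    (fun τ _ ↦ by funext i; fin_cases i <;> rfl) fun τ _ ↦ ⟨1, one_ne_zero, fun m ↦ ?_⟩
  rw [one_mul, one_mul, kk, kk, th, th, thg, thg, ← (Equiv.prodComm ℤ ℤ).tsum_eq]
  refine tsum_congr fun n ↦ ?_
  unfold term
  congr 1
  simp [Qf, dot, iv, ca, cb, sw]
  ring

theorem rl_tr (B : T3) (hB : ∀ i, (B i).im = 0) (f : Ch → ZMod 2)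
    (h : ∀ (m : Ch) (n : ℤ × ℤ), ∃ k : ℤ, Qf B (iv n + ca m) = 2 * k + (f m).val) : Rl f := by
  intro τ hτ
  refine ⟨τ + B, by simpa [H2, hB] using hτ, 1, one_ne_zero, fun m ↦ ?_⟩
  rw [one_mul, kk, kk, th, th, thg, thg, ← tsum_mul_left]
  refine tsum_congr fun n ↦ ?_
  obtain ⟨k, hk⟩ := h m n
  rw [← exp_sg k, ← hk, term, term, ← exp_add]
  congr 1
  simp only [Qf, Pi.add_apply]
  ring

theorem val_mul (x y : ZMod 2) : ((x * y).val : ℂ) = x.val * y.val := by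
  have h : (x * y).val = x.val * y.val := by revert x y; decide
  rw [h, Nat.cast_mul]

theorem rl_a : Rl fun m ↦ m.1 := by
  refine rl_tr ![4, 0, 0] (fun i ↦ by fin_cases i <;> simp) _ fun m n ↦
    ⟨2 * n.1 ^ 2 + 2 * n.1 * m.1.val, ?_⟩
  have h := val_mul m.1 m.1
  rw [show m.1 * m.1 = m.1 by generalize m.1 = x; revert x; decide] at h
  simp only [Qf, iv, ca, Pi.add_apply, Matrix.cons_val_zero, Matrix.cons_val_one,
    Matrix.cons_val]
  push_cast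
  linear_combination -h

theorem rl_aa : Rl fun m ↦ m.1 * m.2.1 := by
  refine rl_tr ![0, 2, 0] (fun i ↦ by fin_cases i <;> simp) _ fun m n ↦
    ⟨2 * n.1 * n.2 + n.1 * m.2.1.val + n.2 * m.1.val, ?_⟩
  rw [val_mul]
  simp only [Qf, iv, ca, Pi.add_apply, Matrix.cons_val_zero, Matrix.cons_val_one,
    Matrix.cons_val]
  push_cast
  ring

theorem rl_ab : Rl fun m ↦ m.1 * m.2.2.1 := by
  intro τ hτ
  refine ⟨![τ 0, -τ 1, τ 2], by simpa [H2] using hτ, 1, one_ne_zero, fun m ↦ ?_⟩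
  have e1 : ca m = ![-ca m 0, ca m 1] + iv ((m.1.val : ℤ), 0) := by
    funext i
    fin_cases i <;> simp [ca, iv]
    ring
  have e2 : 0 + cb m = ![-cb m 0, cb m 1] + iv ((m.2.2.1.val : ℤ), 0) := by
    funext i
    fin_cases i <;> simp [cb, iv]
    ring
  have e3 : kk m ![τ 0, -τ 1, τ 2] = thg τ ![-ca m 0, ca m 1] ![-cb m 0, cb m 1] := by
    rw [kk, th, thg, thg, ← ((Equiv.neg ℤ).prodCongr (Equiv.refl ℤ)).tsum_eq]
    refine tsum_congr fun n ↦ ?_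
    unfold term
    congr 1
    simp [Qf, dot, iv]
    ring
  have e4 : exp (2 * π * I * dot (ca m) (iv ((m.2.2.1.val : ℤ), 0))) = sg (m.1 * m.2.2.1) := by
    rw [← exp_sg 0, val_mul]
    congr 1
    simp only [dot, iv, ca, Matrix.cons_val_zero, Matrix.cons_val_one]
    push_cast
    ring
  have e5 : kk m τ = sg (m.1 * m.2.2.1) * kk m ![τ 0, -τ 1, τ 2] := by
    rw [e3, kk, th, e2, st_BAS.shift_w, e4,
      ← st_BAS.shift_a τ ![-ca m 0, ca m 1] _ ((m.1.val : ℤ), 0), ← e1]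
  rw [e5, one_mul, ← mul_assoc, sg_sq, one_mul]

theorem rl_delta (i : Ch) (hi : Ev i) : Rl fun m ↦ if m = i then 1 else 0 := by
  have a1 := rl_a
  have a2 := rl_a.cS
  have b1 := rl_a.cJ
  have b2 := rl_a.cJ.cS
  have c1 := rl_aa
  have c2 := rl_aa.cJ
  have c3 := rl_aa.cJ.cS
  have c4 := rl_aa.cJ.cS.cJ
  set u := 1 + i.1 + i.2.2.1 with hu
  set v := 1 + i.2.1 + i.2.2.2 with hv
  refine (((((((((((rl_const (u * v + i.1 * i.2.2.1)).add (a1.smul ((1 + i.2.2.1) * v))).add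
    (b1.smul ((1 + i.1) * v))).add (a2.smul (u * (1 + i.2.2.2)))).add
    (b2.smul (u * (1 + i.2.1)))).add (c1.smul ((1 + i.2.2.1) * (1 + i.2.2.2)))).add
    (c2.smul ((1 + i.1) * (1 + i.2.2.2)))).add (c3.smul ((1 + i.2.2.1) * (1 + i.2.1)))).add
    (c4.smul ((1 + i.1) * (1 + i.2.1)))).add rl_ab)).congr ?_
  rw [hu, hv]
  clear hu hv u v a1 a2 b1 b2 c1 c2 c3 c4
  revert i
  decide

end MSGN

open MSGN in
theorem st_SGN : St_SGN := by
  classical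
  intro ε hε τ hτ
  have h := (rl_sum (Finset.univ.filter Ev) (fun i m ↦ (if ε i = 1 then 0 else 1) *
    if m = i then 1 else 0) fun i hi ↦ (rl_delta i (Finset.mem_filter.1 hi).2).smul _).congr
    (g := fun m ↦ if ε m = 1 then 0 else 1) fun m hm ↦ by simp [hm]
  obtain ⟨τ', h1, c, h2, h3⟩ := h τ hτ
  refine ⟨τ', h1, c, h2, fun m ↦ ?_⟩
  rw [h3]
  congr 2
  rcases hε m with e | e
  · simp [e, sg0]
  · have h4 : ¬ (-1 : ℂ) = 1 := by norm_num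
    simp [e, h4, sg1]

end Pool.Agent.Lib.ECM
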