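import Pool.Agent.Lib.ECM.Blue3
import Pool.Agent.Lib.ECM.TH_All
import Pool.Agent.Lib.ZP3.An

/-! The theta null map is onto the part of the variety where no even coordinate vanishes. -/

open Filter Topology Polynomial

noncomputable section

namespace Pool.Agent.Lib.ECM

namespace MSURJ

/-- the squares of the theta constants are proportional to `q` -/
def Sq (q : Ch → ℂ) : Prop := ∃ τ ∈ H2, ∃ c : ℂ, c ≠ 0 ∧ ∀ m, kk m τ ^ 2 = c * q m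

theorem sgn (hS : St_SGN) {y : Ch → ℂ} (h : Sq fun m ↦ y m ^ 2) :
    ∃ τ ∈ H2, ∃ c : ℂ, c ≠ 0 ∧ ∀ m, kk m τ = c * y m := by
  obtain ⟨τ, hτ, c, hc, h⟩ := h
  obtain ⟨d, rfl⟩ := IsAlgClosed.exists_pow_nat_eq c two_pos
  have e : ∀ m, ∃ ε : ℂ, (ε = 1 ∨ ε = -1) ∧ ε * kk m τ = d * y m := fun m ↦ by
    rcases sq_eq_sq_iff_eq_or_eq_neg.1 ((h m).trans (mul_pow d (y m) 2).symm) with a | a
    · exact ⟨1, Or.inl rfl, by rw [a, one_mul]⟩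
    · exact ⟨-1, Or.inr rfl, by rw [a]; ring⟩
  choose ε h1 h2 using e
  obtain ⟨τ', a, c', b, k⟩ := hS ε h1 τ hτ
  refine ⟨τ', a, c' * d, mul_ne_zero b fun z ↦ hc (by rw [z]; ring), fun m ↦ ?_⟩
  rw [k, mul_assoc, h2, mul_assoc]

theorem flip (t : ZMod 2) : (-1 : ℂ) ^ (t + 1).val = -(-1) ^ t.val := by
  have h : t = 0 ∨ t = 1 := by revert t; decide
  rcases h with rfl | rfl
  · rw [show ((0 : ZMod 2) + 1).val = 1 from rfl, show (0 : ZMod 2).val = 0 from rfl]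
    norm_num
  · rw [show ((1 : ZMod 2) + 1).val = 0 from rfl, show (1 : ZMod 2).val = 1 from rfl]
    norm_num

theorem Qm_odd {m : Ch} (hm : ¬ Ev m) (g : Z2 → ℂ) : Qm m g = 0 := by
  have e : ∀ m : Ch, ¬ Ev m → ∀ s : Z2,
      (s + (m.1, m.2.1)).1 * m.2.2.1 + (s + (m.1, m.2.1)).2 * m.2.2.2 =
        s.1 * m.2.2.1 + s.2 * m.2.2.2 + 1 ∧ s + (m.1, m.2.1) + (m.1, m.2.1) = s := by decide
  have h : Qm m g = -Qm m g := by
    conv_lhs => rw [Qm, ← Equiv.sum_comp (Equiv.addRight (m.1, m.2.1))]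
    rw [Qm, ← Finset.sum_neg_distrib]
    refine Finset.sum_congr rfl fun s _ ↦ ?_
    rw [Equiv.coe_addRight]
    beta_reduce
    rw [(e m hm s).1, (e m hm s).2, flip]
    ring
  linear_combination h / 2

theorem Qm_smul (m : Ch) (c : ℂ) (g : Z2 → ℂ) : Qm m (fun s ↦ c * g s) = c ^ 2 * Qm m g := by
  rw [Qm, Qm, Finset.mul_sum]
  exact Finset.sum_congr rfl fun s _ ↦ by ring

theorem poly (m : Ch) (g h : Z2 → ℂ) :
    ∃ p : ℂ[X], ∀ s, p.eval s = Qm m fun t ↦ g t + s * h t :=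
  ⟨∑ s : Z2, C ((-1) ^ (s.1 * m.2.2.1 + s.2 * m.2.2.2).val) * ((C (g s) + X * C (h s)) *
    (C (g (s + (m.1, m.2.1))) + X * C (h (s + (m.1, m.2.1))))), fun s ↦ by
      simp only [Qm, eval_finsetSum, eval_mul, eval_add, eval_C, eval_X]⟩

theorem loc (hS : St_SGN) (p : Ch → ℂ[X]) (ho : ∀ m, ¬ Ev m → ∀ s, (p m).eval s = 0) {s0 : ℂ}
    (h0 : ∀ m, Ev m → (p m).eval s0 ≠ 0) (h : ∃ᶠ s in 𝓝[≠] s0, Sq fun m ↦ (p m).eval s) :
    ∀ᶠ s in 𝓝 s0, Sq fun m ↦ (p m).eval s := by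
  have e : ∀ m, ∃ κ : ℂ → ℂ, AnalyticAt ℂ κ 0 ∧ (Ev m → κ 0 ≠ 0) ∧
      ∀ᶠ u in 𝓝 (0 : ℂ), κ u ^ 2 = (p m).eval (s0 + u) := fun m ↦ by
    by_cases hm : Ev m
    · have a : AnalyticAt ℂ (fun u ↦ (p m).eval (s0 + u)) 0 :=
        ((p m).differentiable.comp (differentiable_id.const_add s0)).analyticAt 0
      obtain ⟨r, b, c, d⟩ := ZP3.AN.exists_root a (by simpa using h0 m hm) two_pos
      exact ⟨r, b, fun _ ↦ c, d⟩
    · exact ⟨fun _ ↦ 0, analyticAt_const, fun a ↦ absurd a hm,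
        Eventually.of_forall fun u ↦ by rw [ho m hm]; ring⟩
  choose κ k1 k2 k3 using e
  have k4 := eventually_all.2 k3
  have t1 : Tendsto (fun s ↦ s - s0) (𝓝 s0) (𝓝 0) :=
    (continuous_sub_right s0).tendsto' s0 0 (sub_self s0)
  have t2 : Tendsto (fun s ↦ s - s0) (𝓝[≠] s0) (𝓝[≠] 0) :=
    tendsto_nhdsWithin_iff.2 ⟨t1.mono_left nhdsWithin_le_nhds,
      eventually_mem_nhdsWithin.mono fun s hs ↦ sub_ne_zero.2 hs⟩
  have f : ∃ᶠ u in 𝓝[≠] (0 : ℂ), Sq fun m ↦ (p m).eval (s0 + u) :=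
    t2.frequently (h.mono fun s hs ↦ by simpa using hs)
  obtain ⟨g, -, hg⟩ := th_LIFT κ k1 k2
    ((f.and_eventually (k4.filter_mono nhdsWithin_le_nhds)).mono fun u ⟨a, b⟩ ↦ by
      obtain ⟨τ, c, d, -, e⟩ := sgn hS (y := fun m ↦ κ m u) (by simpa only [b] using a)
      exact ⟨τ, c, d, e⟩)
  filter_upwards [t1.eventually (hg.and k4)] with s ⟨⟨a, c, b, d⟩, e⟩
  refine ⟨_, a, c ^ 2, pow_ne_zero 2 b, fun m ↦ ?_⟩
  rw [d, mul_pow, e, add_sub_cancel]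

theorem glob (hS : St_SGN) (p : Ch → ℂ[X]) (ho : ∀ m, ¬ Ev m → ∀ s, (p m).eval s = 0)
    (h0 : ∀ m, Ev m → (p m).eval 0 ≠ 0) (h : ∀ᶠ s in 𝓝 (0 : ℂ), Sq fun m ↦ (p m).eval s)
    {s : ℂ} (hs : ∀ m, Ev m → (p m).eval s ≠ 0) : Sq fun m ↦ (p m).eval s := by
  have fin : (⋃ m : {m : Ch // Ev m}, {s | (p m.1).IsRoot s}).Finite :=
    Set.finite_iUnion fun m ↦ finite_setOfPred_isRoot fun z ↦ h0 m.1 m.2 (by rw [z, eval_zero])
  have mem : ∀ t, t ∈ (⋃ m : {m : Ch // Ev m}, {s | (p m.1).IsRoot s})ᶜ ↔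
      ∀ m, Ev m → (p m).eval t ≠ 0 := fun t ↦ by simp
  have con := (fin.countable.isConnected_compl_of_one_lt_rank (by simp)).isPreconnected
  have sub := con.subset_of_closure_inter_subset
    (u := {s | ∀ᶠ t in 𝓝 s, Sq fun m ↦ (p m).eval t}) isOpen_setOfPred_eventually_nhds
    ⟨0, (mem 0).2 h0, h⟩ fun s0 ⟨a, b⟩ ↦ by
      by_contra hn
      refine hn (loc hS p ho ((mem s0).1 b) (frequently_nhdsWithin_iff.2
        ((mem_closure_iff_frequently.1 a).mono fun t ht ↦ ⟨ht.self_of_nhds, ?_⟩)))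
      rintro rfl
      exact hn ht
  exact (sub ((mem s).2 hs)).self_of_nhds

end MSURJ

theorem st_SURJ (hADD2 : St_ADD2) (hSGN : St_SGN) (hOPEN : St_OPEN) : St_SURJ := by
  rintro x h0 hx ⟨g, hg⟩
  obtain ⟨g0, a, b⟩ := hOPEN
  choose p hp using fun m ↦ MSURJ.poly m g0 fun t ↦ g t - g0 t
  have t : Tendsto (fun s : ℂ ↦ fun t ↦ g0 t + s * (g t - g0 t)) (𝓝 0) (𝓝 g0) :=
    Continuous.tendsto' (by fun_prop) 0 g0 (by simp)
  have one : ∀ m, (p m).eval 1 = x m ^ 2 := fun m ↦ by simp [hp, hg]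
  have k := MSURJ.glob hSGN p (fun m hm s ↦ by rw [hp, MSURJ.Qm_odd hm])
    (fun m hm ↦ by simpa [hp] using a m hm) ((t.eventually b).mono fun s ⟨τ, c, d, e, f⟩ ↦
      ⟨τ, c, d ^ 2, pow_ne_zero 2 e, fun m ↦ by
        beta_reduce
        rw [hADD2 τ c, hp, ← MSURJ.Qm_smul, funext f]⟩)
    (s := 1) fun m hm ↦ by rw [one]; exact pow_ne_zero 2 (hx m hm)
  obtain ⟨τ, c, d, e, f⟩ := MSURJ.sgn hSGN (y := x) (by simpa only [one] using k)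
  have z : kk 0 τ = d := by rw [f, h0, mul_one]
  exact ⟨τ, c, z ▸ e, fun m ↦ by rw [z, f, mul_div_cancel_left₀ _ e]⟩

end Pool.Agent.Lib.ECM
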