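import Pool.Agent.Lib.ECM.All1
import Pool.Agent.Lib.ECM.A_ROOTS
import Pool.Agent.Lib.ECM.M_NOR
import Pool.Agent.Lib.ECM.M_PTI
import Pool.Agent.Lib.ECM.M_ADD2
import Pool.Agent.Lib.ECM.M_SGN
import Pool.Agent.Lib.ECM.M_OPEN
import Pool.Agent.Lib.ECM.M_SURJ
import Pool.Agent.Lib.ECM.M_EQN
import Pool.Agent.Lib.ECM.M_FINZ
import Pool.Agent.Lib.ECM.M_ISO
import Pool.Agent.Lib.ECM.M_FIB0
import Pool.Agent.Lib.ECM.M_ENC
import Pool.Agent.Lib.ECM.M_DEP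
import Pool.Agent.Lib.ECM.M_HGEN
import Pool.Agent.Lib.ECM.M_QBAR
import Pool.Agent.Lib.ECM.G4_ABS
import Pool.Agent.Lib.ECM.G4_BIG
import Pool.Agent.Lib.ECM.G4_DOM
import Pool.Agent.Lib.ECM.G4_END
import Pool.Agent.Lib.ECM.G4_EQV
import Pool.Agent.Lib.ECM.G4_FP
import Pool.Agent.Lib.ECM.G4_LIN1
import Pool.Agent.Lib.ECM.G4_LIN2
import Pool.Agent.Lib.ECM.G4_POL
import Pool.Agent.Lib.ECM.G4_POLY
import Pool.Agent.Lib.ECM.G4_RAT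
import Pool.Agent.Lib.ECM.G4_SYS

/-! Assembly of the E x CM theorem, second part. -/

namespace Pool.Agent.Lib.ECM

theorem a_PT : St_PT := st_PT a_PTH a_NF th_RED th_SYMK th_LIN th_GAUGE a_LINE th_BAS
theorem a_SURJ : St_SURJ := st_SURJ st_ADD2 st_SGN (st_OPEN st_ADD2)
theorem a_EQN : St_EQN := st_EQN st_ADD2 a_SURJ
theorem a_ISO : St_ISO := st_ISO st_PUI st_DIM
theorem a_DEP : St_DEP := st_DEP th_BAS th_HERM

theorem a_G4 : St_G4 :=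
  st_G4 (G4.st_ABS G4.st_FP G4.st_POL G4.st_BIG G4.st_LIN1 G4.st_LIN2 G4.st_RAT)
    (G4.st_SYS G4.st_DOM G4.st_EQV th_RED a_FIB a_G3) G4.st_POLY G4.st_EQV th_RED a_FIB a_G3 st_SINV

/-- the theorem for curves over the rationals which lie in no Humbert surface -/
theorem a_MAIN1 : St_MAIN := a_MAIN a_ROOTS st_NOR a_PT a_G4

theorem a_MAIN3 (hE : St_END) : St_MAIN3 :=
  st_MAIN3 (st_MAIN2 a_MAIN1 a_EQN st_FINZ
    (st_HGEN hE st_ENC st_FINZ a_ISO st_FIB0) st_ENC a_G3) st_QBAR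

end Pool.Agent.Lib.ECM
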