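import Pool.Agent.Lib.ECM.HTBlue
import Pool.Agent.Lib.ECM.FPB

/-! Block FIN2: the bound at the finite places in normalised coordinates. -/

open UpperHalfPlane

namespace Pool.Agent.Lib.ECM

open Pool.Agent.Lib.MP_0704bf_ag

namespace T91

theorem mem_of_pow (V : ValuationSubring ℂ) {a : ℂ} {n : ℕ} (hn : n ≠ 0) (h : a ^ n ∈ V) :
    a ∈ V := by
  rw [← V.valuation_le_one_iff] at h ⊢
  rw [map_pow] at h
  exact (pow_le_one_iff hn).1 h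

theorem exists_scale (V : ValuationSubring ℂ) {a b j : ℂ} (ha : a ^ 3 = 1728 * j)
    (hb : b ^ 2 = 64 * (j - 1728)) : ∃ γ : ℂ, γ ≠ 0 ∧ a / γ ^ 4 ∈ V ∧ b / γ ^ 6 ∈ V ∧
      V.valuation γ ^ 12 ≤ max 1 (V.valuation j) := by
  have c1 : (1728 : ℂ) ∈ V := by exact_mod_cast natCast_mem V 1728
  have c2 : (64 : ℂ) ∈ V := by exact_mod_cast natCast_mem V 64
  by_cases hj : j ∈ V
  · refine ⟨1, one_ne_zero, ?_, ?_, by simp⟩
    · rw [one_pow, div_one]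
      exact mem_of_pow V three_ne_zero (ha ▸ mul_mem c1 hj)
    · rw [one_pow, div_one]
      exact mem_of_pow V two_ne_zero (hb ▸ mul_mem c2 (sub_mem hj c1))
  · have hi : j⁻¹ ∈ V := (V.mem_or_inv_mem j).resolve_left hj
    have j0 : j ≠ 0 := fun h ↦ hj (h ▸ zero_mem V)
    obtain ⟨γ, hγ⟩ := IsAlgClosed.exists_pow_nat_eq j (by norm_num : 0 < 12)
    have γ0 : γ ≠ 0 := fun h ↦ j0 (by rw [← hγ, h]; norm_num)
    refine ⟨γ, γ0, mem_of_pow V three_ne_zero ?_, mem_of_pow V two_ne_zero ?_, ?_⟩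
    · have e : (a / γ ^ 4) ^ 3 = 1728 := by
        rw [div_pow, ha, ← pow_mul, hγ, mul_div_assoc, div_self j0, mul_one]
      exact e ▸ c1
    · have e : (b / γ ^ 6) ^ 2 = 64 * (1 - 1728 * j⁻¹) := by
        rw [div_pow, hb, ← pow_mul, hγ]
        field_simp
      exact e ▸ mul_mem c2 (sub_mem (one_mem V) (mul_mem c1 hi))
    · rw [← map_pow, hγ]
      exact le_max_right _ _

end T91

theorem st_FIN2 (hF : St_FINP) (hL : St_LINE) : St_FIN2 := by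
  intro x τ v τ0 Ω hx hG hl hN V g h
  obtain ⟨Ω0, h2, h3⟩ := (hL.nrm τ0).2 Ω hN
  obtain ⟨hτ, k0, hx⟩ := hx
  have hE := ZP3.WDE.isEll_pp τ0 Ω0
  have e2 : (ZP3.WDE.pp τ0 Ω0).g₂ = gg2 τ0 Ω := hE.2.1
  have e3 : (ZP3.WDE.pp τ0 Ω0).g₃ = gg3 τ0 Ω := hE.2.2
  obtain ⟨γ, γ0, m2, m3, hγ⟩ := T91.exists_scale V h2 h3
  obtain ⟨n, hn⟩ := hF τ hτ hG (Ω⁻¹ • v) (ZP3.WDE.pp τ0 Ω0) (fun z hz ↦ by
    obtain ⟨m, n, rfl⟩ := (ZP3.WDE.mem_pp τ0 Ω0 z).1 hz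
    rw [smul_smul]
    exact (hl.2 _).2 ⟨m, n, by field_simp⟩) V γ γ0 (e2 ▸ m2) (e3 ▸ m3) g h
  refine ⟨n, ?_⟩
  have a1 : 16 * (x g * lv τ (Ω⁻¹ • v) h) =
      16 * (kk g τ * ll h τ (Ω⁻¹ • v)) * (kk 0 τ ^ 2)⁻¹ := by
    rw [hx g, lv]
    field_simp
  have a2 : γ * (x n * x (n + (g + h))) =
      γ * (kk n τ * kk (n + (g + h)) τ) * (kk 0 τ ^ 2)⁻¹ := by
    rw [hx n, hx (n + (g + h))]
    field_simp
  have a3 : V.valuation (16 * (x g * lv τ (Ω⁻¹ • v) h)) ≤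
      V.valuation γ * V.valuation (x n * x (n + (g + h))) := by
    rw [← map_mul, a1, a2, map_mul V.valuation _ (kk 0 τ ^ 2)⁻¹,
      map_mul V.valuation _ (kk 0 τ ^ 2)⁻¹]
    exact mul_le_mul_left hn _
  refine (pow_le_pow_left' a3 12).trans ?_
  rw [mul_pow]
  exact mul_le_mul_left hγ _

end Pool.Agent.Lib.ECM
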