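import Pool.Agent.Lib.ECM.HBlue

/-! Block HT0: the absolute height may be computed in any number field. -/

open NumberField Height

namespace Pool.Agent.Lib.ECM

namespace T42

theorem arch_prod {K : Type} [Field K] [NumberField K] (f : InfinitePlace K → ℝ) :
    ∏ v, f v ^ v.mult = ∏ φ : K →+* ℂ, f (InfinitePlace.mk φ) := by
  classical
  rw [← Finset.prod_fiberwise Finset.univ InfinitePlace.mk]
  refine Finset.prod_congr rfl fun v _ ↦ ?_
  rw [← InfinitePlace.card_filter_mk_eq v, ← Finset.prod_const]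
  refine Finset.prod_congr rfl fun φ h ↦ ?_
  rw [(Finset.mem_filter.1 h).2]

theorem card_ext {K L : Type} [Field K] [NumberField K] [Field L] [NumberField L] [Algebra K L]
    [DecidableEq (K →+* ℂ)] (ψ : K →+* ℂ) :
    (Finset.univ.filter fun φ : L →+* ℂ ↦ φ.comp (algebraMap K L) = ψ).card =
      Module.finrank K L := by
  let : Algebra K ℂ := ψ.toAlgebra
  rw [← AlgHom.card K L ℂ, ← Finset.card_univ]
  refine Finset.card_bij (fun φ h ↦ ⟨φ, fun x ↦ DFunLike.congr_fun (Finset.mem_filter.1 h).2 x⟩)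
    (fun _ _ ↦ Finset.mem_univ _) (fun a _ b _ e ↦ ?_) fun b _ ↦ ?_
  · exact RingHom.ext fun x ↦ DFunLike.congr_fun e x
  · exact ⟨b.toRingHom, Finset.mem_filter.2 ⟨Finset.mem_univ _, RingHom.ext b.commutes⟩, rfl⟩

theorem emb_prod {K L : Type} [Field K] [NumberField K] [Field L] [NumberField L] [Algebra K L]
    (g : (K →+* ℂ) → ℝ) :
    ∏ φ : L →+* ℂ, g (φ.comp (algebraMap K L)) = (∏ ψ, g ψ) ^ Module.finrank K L := by
  classical
  rw [← Finset.prod_fiberwise Finset.univ fun φ : L →+* ℂ ↦ φ.comp (algebraMap K L),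
    ← Finset.prod_pow]
  refine Finset.prod_congr rfl fun ψ _ ↦ ?_
  rw [← card_ext ψ, ← Finset.prod_const]
  refine Finset.prod_congr rfl fun φ h ↦ ?_
  rw [(Finset.mem_filter.1 h).2]

theorem mulHeight_emb {K ι : Type} [Field K] [NumberField K] {x : ι → K} (hx : x ≠ 0) :
    mulHeight x = (∏ φ : K →+* ℂ, ⨆ i, ‖φ (x i)‖) * ∏ᶠ v : FinitePlace K, ⨆ i, v (x i) := by
  rw [NumberField.mulHeight_eq hx, arch_prod fun v ↦ ⨆ i, v (x i)]
  simp only [InfinitePlace.apply]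

theorem exists_int {K ι : Type} [Field K] [NumberField K] [Finite ι] (x : ι → K) :
    ∃ (c : ℤ) (y : ι → 𝓞 K), c ≠ 0 ∧ ∀ i, (y i : K) = c * x i := by
  have := Fintype.ofFinite ι
  have h (i) : ∃ c : ℤ, c ≠ 0 ∧ IsIntegral ℤ (c • x i) :=
    (((IsFractionRing.isAlgebraic_iff ℤ ℚ K).2
      (Algebra.IsAlgebraic.isAlgebraic (x i))).exists_integral_multiple)
  choose c hc hi using h
  classical
  refine ⟨∏ i, c i, fun i ↦ ⟨(∏ j, c j : ℤ) * x i, ?_⟩, Finset.prod_ne_zero_iff.2 fun i _ ↦ hc i,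
    fun i ↦ rfl⟩
  rw [← Finset.mul_prod_erase _ _ (Finset.mem_univ i), mul_comm (c i), Int.cast_mul, mul_assoc,
    ← zsmul_eq_mul (x i)]
  exact (isIntegral_algebraMap (x := ∏ j ∈ Finset.univ.erase i, c j)).mul (hi i)

theorem mulHeight_ext {K L ι : Type} [Field K] [NumberField K] [Field L] [NumberField L]
    [Algebra K L] [Finite ι] (x : ι → K) :
    mulHeight (fun i ↦ algebraMap K L (x i)) = mulHeight x ^ Module.finrank K L := by
  by_cases hx : x = 0
  · subst hx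
    have : (fun i : ι ↦ algebraMap K L ((0 : ι → K) i)) = 0 := by ext; simp
    rw [this]; simp
  obtain ⟨c, y, hc, hy⟩ := exists_int x
  have hcK : (c : K) ≠ 0 := Int.cast_ne_zero.2 hc
  have hcL : (c : L) ≠ 0 := Int.cast_ne_zero.2 hc
  have e1 : (fun i ↦ (y i : K)) = (c : K) • x := funext hy
  have e2 : (fun i ↦ ((algebraMap (𝓞 K) (𝓞 L) (y i) : 𝓞 L) : L)) =
      (c : L) • fun i ↦ algebraMap K L (x i) := by
    ext i
    change algebraMap K L (y i) = _
    simp [hy]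
  have n1 : (fun i ↦ (y i : K)) ≠ 0 := e1 ▸ smul_ne_zero hcK hx
  obtain ⟨i0, hi0⟩ := Function.ne_iff.1 n1
  have y0 : y ≠ 0 := Function.ne_iff.2 ⟨i0, fun e ↦ hi0 (by simp [e])⟩
  have n2 : (fun i ↦ ((algebraMap (𝓞 K) (𝓞 L) (y i) : 𝓞 L) : L)) ≠ 0 :=
    Function.ne_iff.2 ⟨i0, (map_ne_zero (algebraMap K L)).2 hi0⟩
  have z0 : (fun i ↦ algebraMap (𝓞 K) (𝓞 L) (y i)) ≠ 0 := by
    obtain ⟨j, hj⟩ := Function.ne_iff.1 n2
    exact Function.ne_iff.2 ⟨j, fun e ↦ hj (by simp [e])⟩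
  rw [← mulHeight_smul_eq_mulHeight x hcK, ← mulHeight_smul_eq_mulHeight _ hcL, ← e1, ← e2,
    mulHeight_emb n1, mulHeight_emb n2, mul_pow, ← emb_prod (L := L) fun ψ : K →+* ℂ ↦ ⨆ i, ‖ψ (y i : K)‖]
  congr 1
  have a1 := absNorm_mul_finprod_finitePlace_eq_one y0
  have a2 := absNorm_mul_finprod_finitePlace_eq_one z0
  have a3 : Ideal.span (Set.range fun i ↦ algebraMap (𝓞 K) (𝓞 L) (y i)) =
      (Ideal.span (Set.range y)).map (algebraMap (𝓞 K) (𝓞 L)) := by
    rw [Ideal.map_span, ← Set.range_comp]; rfl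
  rw [a3, Ideal.absNorm_algebraMap, IsFractionRing.finrank_eq (𝓞 K) K (𝓞 L) L |>.symm,
    Nat.cast_pow] at a2
  rw [eq_inv_of_mul_eq_one_right a1, eq_inv_of_mul_eq_one_right a2, inv_pow]

theorem logHeight_ext {K L ι : Type} [Field K] [NumberField K] [Field L] [NumberField L]
    [Finite ι] (f : K →+* L) (x : ι → K) :
    logHeight (fun i ↦ f (x i)) / Module.finrank ℚ L = logHeight x / Module.finrank ℚ K := by
  let : Algebra K L := f.toAlgebra
  have e := mulHeight_ext (L := L) x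
  have p1 : (Module.finrank K L : ℝ) ≠ 0 := Nat.cast_ne_zero.2 Module.finrank_pos.ne'
  have p2 : (Module.finrank ℚ K : ℝ) ≠ 0 := Nat.cast_ne_zero.2 Module.finrank_pos.ne'
  rw [logHeight, logHeight, ← Module.finrank_mul_finrank ℚ K L]
  change Real.log (mulHeight fun i ↦ algebraMap K L (x i)) / _ = _
  rw [e, Real.log_pow]
  push_cast
  field_simp

theorem alg_emb {L : Type} [Field L] [NumberField L] (e : L →+* ℂ) (x : L) :
    IsAlgebraic ℚ (e x) :=
  (Algebra.IsAlgebraic.isAlgebraic (R := ℚ) x).algHom e.toRatAlgHom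

end T42

open T42

theorem st_HT0 : St_HT0 := by
  intro ι _ L _ _ e x
  have h : AlgT fun i ↦ e (x i) := fun i ↦ alg_emb e (x i)
  have := h.nf
  have le : fld (fun i ↦ e (x i)) ≤ e.toRatAlgHom.fieldRange :=
    IntermediateField.adjoin_le_iff.2 (by rintro _ ⟨i, rfl⟩; exact ⟨x i, rfl⟩)
  let q := AlgEquiv.ofInjectiveField e.toRatAlgHom
  let f : fld (fun i ↦ e (x i)) →+* L :=
    q.symm.toAlgHom.toRingHom.comp (IntermediateField.inclusion le).toRingHom
  rw [ht, dif_pos h, ← logHeight_ext f]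
  congr 2
  ext i
  exact q.symm_apply_eq.2 (Subtype.ext rfl)

end Pool.Agent.Lib.ECM
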