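import Pool.Agent.Lib.ECM.HBlue

/-! Block MINK: a lattice over the polynomial ring contains a vector small at infinity. -/

open Polynomial

namespace Pool.Agent.Lib.ECM

namespace XMINK

variable {M ρ : Type} [AddCommGroup M] [Module ℚ[X] M] [Fintype ρ] [DecidableEq ρ]

/-- determinant of vectors of a submodule -/
theorem det_sub (b : Module.Basis ρ ℚ[X] M) (S : Submodule ℚ[X] M) (s : Module.Basis ρ ℚ[X] S)
    (v : ρ → S) : b.det (fun i => (v i : M)) = b.det (fun i => (s i : M)) * s.det v := by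
  have h := (b.det.compLinearMap S.subtype).eq_smul_basis_det s
  have h2 := congrArg (fun f => f v) h
  simpa [AlternatingMap.compLinearMap_apply] using h2

theorem li (b : Module.Basis ρ ℚ[X] M) {v : ρ → M} (h : b.det v ≠ 0) :
    LinearIndependent ℚ[X] v := by
  by_contra hn
  have : Module.Free ℚ[X] M := Module.Free.of_basis b
  exact h (b.det.map_linearDependent v hn)

theorem core (s : Module.Basis ρ ℚ[X] M) (v : ρ → M) (r : ℕ) (h0 : s.det v ≠ 0)
    (hr : Fintype.card ρ * r < (s.det v).natDegree) :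
    ∃ F : M, F ≠ 0 ∧ ∃ (d : ℚ[X]) (u : ρ → ℚ[X]), d ≠ 0 ∧ d • F = ∑ i, u i • v i ∧
      ∀ i, u i = 0 ∨ (u i).natDegree + r ≤ d.natDegree := by
  have hli := li s h0
  have hfree : Module.Free ℚ[X] M := Module.Free.of_basis s
  let L : Submodule ℚ[X] M := Submodule.span ℚ[X] (Set.range v)
  have hrk : Module.finrank ℚ[X] L = Module.finrank ℚ[X] M := by
    rw [finrank_span_eq_card hli, Module.finrank_eq_card_basis s]
  obtain ⟨b', a, ab, hab⟩ := L.exists_smith_normal_form_of_rank_eq s hrk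
  have ha : ∀ i, a i ≠ 0 := fun i hi => ab.ne_zero i (Subtype.ext (by rw [hab, hi, zero_smul]; rfl))
  have hP : (∏ i, a i) ≠ 0 := Finset.prod_ne_zero_iff.2 fun i _ => ha i
  have hdeg : (s.det v).natDegree = ∑ i, (a i).natDegree := by
    have e1 := det_sub s L ab (Module.Basis.span hli)
    have e2 : (fun i => ((Module.Basis.span hli i : L) : M)) = v := by
      funext i; exact Module.Basis.span_apply hli i ▸ rfl
    have e3 : (fun i => ((ab i : L) : M)) = fun i => a i • b' i := funext hab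
    rw [e2, e3, AlternatingMap.map_smul_univ, smul_eq_mul] at e1
    have u1 := s.isUnit_det b'
    have u2 := ab.isUnit_det (Module.Basis.span hli)
    rw [e1, natDegree_mul (mul_ne_zero hP u1.ne_zero) u2.ne_zero, natDegree_mul hP u1.ne_zero,
      natDegree_eq_zero_of_isUnit u1, natDegree_eq_zero_of_isUnit u2,
      natDegree_prod _ _ fun i _ => ha i]
    simp
  let d : ℚ[X] := (∏ i, a i) * C (∏ i, a i).leadingCoeff⁻¹
  have hd : d.Monic := monic_mul_leadingCoeff_inv hP
  have hq : ∀ i, ∃ q : ρ → ℚ[X], ∑ j, q j • v j = d • b' i := fun i => by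
    rw [← Submodule.mem_span_range_iff_exists_fun]
    obtain ⟨t, ht⟩ : a i ∣ d :=
      (Finset.dvd_prod_of_mem a (Finset.mem_univ i)).mul_right _
    rw [ht, mul_comm, mul_smul, ← hab]
    exact L.smul_mem _ (ab i).2
  choose q hq using hq
  let Φ : (Π i, degreeLT ℚ (a i).natDegree) →ₗ[ℚ] (ρ × Fin r → ℚ) :=
    LinearMap.pi fun jm => (lcoeff ℚ (d.natDegree - 1 - jm.2)) ∘ₗ (modByMonicHom d) ∘ₗ
      ∑ i, (LinearMap.mulRight ℚ (q i jm.1)) ∘ₗ (degreeLT ℚ (a i).natDegree).subtype ∘ₗ
        LinearMap.proj i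
  have hf : ∀ n : ℕ, Module.Finite ℚ (degreeLT ℚ n) := fun n =>
    Module.Finite.equiv (degreeLTEquiv ℚ n).symm
  have hker : LinearMap.ker Φ ≠ ⊥ := by
    apply LinearMap.ker_ne_bot_of_finrank_lt
    rw [Module.finrank_fintype_fun_eq_card, Module.finrank_pi_fintype, Fintype.card_prod,
      Fintype.card_fin]
    refine hr.trans_eq (hdeg.trans (Finset.sum_congr rfl fun i _ => ?_))
    rw [(degreeLTEquiv ℚ _).finrank_eq, Module.finrank_fintype_fun_eq_card, Fintype.card_fin]
  obtain ⟨p, hp, hp0⟩ := Submodule.exists_mem_ne_zero_of_ne_bot hker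
  let w : ρ → ℚ[X] := fun j => ∑ i, (p i : ℚ[X]) * q i j
  have hw : ∀ (j : ρ) (m : Fin r), (w j %ₘ d).coeff (d.natDegree - 1 - m) = 0 := fun j m => by
    have := congrFun (LinearMap.mem_ker.1 hp) (j, m)
    simp only [Φ, LinearMap.pi_apply, LinearMap.comp_apply, LinearMap.sum_apply] at this
    exact this
  have hF : d • ∑ i, (p i : ℚ[X]) • b' i = ∑ j, w j • v j := by
    simp only [w, Finset.sum_smul, Finset.smul_sum, mul_smul]
    rw [Finset.sum_comm]
    refine Finset.sum_congr rfl fun i _ => ?_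
    rw [← Finset.smul_sum, hq, smul_comm]
  refine ⟨∑ i, (p i : ℚ[X]) • b' i - ∑ j, (w j /ₘ d) • v j, fun hz => hp0 ?_, d,
    fun j => w j %ₘ d, hd.ne_zero, ?_, fun j => ?_⟩
  · have hm : ∑ i, (p i : ℚ[X]) • b' i ∈ L := by
      rw [sub_eq_zero.1 hz]
      exact L.sum_mem fun j _ => L.smul_mem _ (Submodule.subset_span ⟨j, rfl⟩)
    have e1 := congrArg (fun x : L => (x : M)) (ab.sum_repr ⟨_, hm⟩)
    simp only [Submodule.coe_sum, Submodule.coe_smul, hab, smul_smul] at e1
    funext i
    have e2 := congrArg (fun x => b'.repr x i) e1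
    simp only [Module.Basis.repr_sum_self] at e2
    have hdv : a i ∣ (p i : ℚ[X]) := ⟨_, by rw [← e2, mul_comm]⟩
    have hlt := mem_degreeLT.1 (p i).2
    rw [← degree_eq_natDegree (ha i)] at hlt
    exact Subtype.ext (eq_zero_of_dvd_of_degree_lt hdv hlt)
  · rw [smul_sub, hF, Finset.smul_sum, ← Finset.sum_sub_distrib]
    refine Finset.sum_congr rfl fun j _ => ?_
    rw [smul_smul, ← sub_smul, ← modByMonic_eq_sub_mul_div]
  · by_contra hn
    push Not at hn
    obtain ⟨h1, h2⟩ := hn
    have h3 : (w j %ₘ d).natDegree < d.natDegree :=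
      natDegree_lt_natDegree h1 (degree_modByMonic_lt _ hd)
    have h4 := hw j ⟨d.natDegree - 1 - (w j %ₘ d).natDegree, by omega⟩
    have h5 : d.natDegree - 1 - (d.natDegree - 1 - (w j %ₘ d).natDegree) =
        (w j %ₘ d).natDegree := by omega
    simp only [h5] at h4
    exact h1 (leadingCoeff_eq_zero.1 h4)

end XMINK

theorem st_MINK : St_MINK := by
  intro M _ _ ρ Y _ _ b S e y0 c r hS hc hcI h0 hr
  have hli := XMINK.li b h0
  obtain ⟨n, s0⟩ := S.basisOfPid b
  have hfin : Module.Finite ℚ[X] M := Module.Finite.of_basis b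
  have hn : Fintype.card (Fin n) = Fintype.card ρ := by
    rw [← Module.finrank_eq_card_basis s0]
    apply le_antisymm
    · rw [← Module.finrank_eq_card_basis b]
      exact S.finrank_le
    · have hfS : Module.Finite ℚ[X] S := Module.Finite.of_basis s0
      have : LinearIndependent ℚ[X] (fun i => (⟨e y0 i, hS y0 i⟩ : S)) :=
        LinearIndependent.of_comp S.subtype hli
      exact this.fintype_card_le_finrank
  let s := s0.reindex (Fintype.equivOfCardEq hn)
  have key : ∀ y, b.det (e y) =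
      b.det (fun i => (s i : M)) * s.det (fun i => (⟨e y i, hS y i⟩ : S)) := fun y =>
    XMINK.det_sub b S s (fun i => (⟨e y i, hS y i⟩ : S))
  have hdv : b.det (fun i => (s i : M)) ∣ c := by
    rw [← Ideal.mem_span_singleton]
    refine Ideal.span_le.2 ?_ hcI
    rintro _ ⟨y, rfl⟩
    exact Ideal.mem_span_singleton.2 ⟨_, key y⟩
  have h1 := natDegree_le_of_dvd hdv hc
  rw [key y0] at h0 hr
  rw [natDegree_mul (left_ne_zero_of_mul h0) (right_ne_zero_of_mul h0)] at hr
  obtain ⟨F, hF, d, u, hd, he, hu⟩ := XMINK.core s _ r (right_ne_zero_of_mul h0) (by omega)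
  refine ⟨F, F.2, fun h => hF (Subtype.ext h), d, u, hd, ?_, hu⟩
  have := congrArg (fun x : S => (x : M)) he
  simpa using this

end Pool.Agent.Lib.ECM
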