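import Pool.Agent.Lib.ECM.HBlue

/-! Positivity block, first part: Hermitian norms, weighted maxima, degree comparison. -/

open Polynomial Filter Topology

namespace Pool.Agent.Lib.ECM

namespace T40

theorem nomax_congr {F G : ℂ → ℝ} {u : ℂ} (h : NoMax F u) (e : F =ᶠ[𝓝 u] G) : NoMax G u := by
  intro g hg hm
  refine h g hg (hm.congr ?_)
  filter_upwards [e] with z hz
  rw [hz]

theorem nomax_mul {F : ℂ → ℝ} {f : ℂ → ℂ} {u : ℂ} (h : NoMax F u) (hf : AnalyticAt ℂ f u)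
    (h0 : f u ≠ 0) : NoMax (fun z ↦ F z * ‖f z‖ ^ 2) u := by
  intro g hg hm
  have hl : AnalyticAt ℂ (fun z ↦ Complex.log (f z / f u)) u :=
    (hf.div analyticAt_const h0).clog (by simp [div_self h0])
  refine h (fun z ↦ g z + 2 * Complex.log (f z / f u)) (hg.add (analyticAt_const.mul hl)) ?_
  have key : ∀ z, f z ≠ 0 → Real.exp (g z + 2 * Complex.log (f z / f u)).re * F z =
      Real.exp (g z).re * (F z * ‖f z‖ ^ 2) * (‖f u‖ ^ 2)⁻¹ := by
    intro z hz
    have hp : 0 < ‖f z / f u‖ := norm_pos_iff.2 (div_ne_zero hz h0)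
    have h2 : (g z + 2 * Complex.log (f z / f u)).re =
        (g z).re + (Real.log ‖f z / f u‖ + Real.log ‖f z / f u‖) := by
      rw [two_mul, Complex.add_re, Complex.add_re, Complex.log_re]
    rw [h2, Real.exp_add, Real.exp_add, Real.exp_log hp, norm_div]
    have : ‖f u‖ ≠ 0 := norm_ne_zero_iff.2 h0
    field_simp
  have hne : ∀ᶠ z in 𝓝 u, f z ≠ 0 := hf.continuousAt.eventually_ne h0
  filter_upwards [hne, hm] with z hz hz2
  rw [key z hz, key u h0]
  exact mul_le_mul_of_nonneg_right hz2 (by positivity)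

theorem dY_pos {τ : T3} (h : τ ∈ H2) : 0 < dY τ := sub_pos.2 h.2

theorem hn_pos {τ : T3} (h : τ ∈ H2) {v : V2} (hv : v ≠ 0) : 0 < Hn τ v := by
  have hd := dY_pos h
  have ha := h.1
  refine div_pos ?_ hd
  have key : (τ 0).im * ((τ 2).im * Complex.normSq (v 0) -
      2 * (τ 1).im * (v 0 * (starRingEnd ℂ) (v 1)).re + (τ 0).im * Complex.normSq (v 1)) =
      Complex.normSq ((τ 0).im * v 1 - (τ 1).im * v 0) + dY τ * Complex.normSq (v 0) := by
    simp only [dY, Complex.normSq_apply, Complex.mul_re, Complex.mul_im, Complex.sub_re,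
      Complex.sub_im, Complex.conj_re, Complex.conj_im, Complex.ofReal_re, Complex.ofReal_im]
    ring
  refine (mul_pos_iff_of_pos_left ha).1 ?_
  rw [key]
  by_cases h0 : v 0 = 0
  · have h1 : v 1 ≠ 0 := fun h1 ↦ hv (by ext i; fin_cases i <;> simp [h0, h1])
    have : ((τ 0).im : ℂ) * v 1 ≠ 0 := mul_ne_zero (by exact_mod_cast ha.ne') h1
    simpa [h0, ha.ne'] using Complex.normSq_pos.2 this
  · exact add_pos_of_nonneg_of_pos (Complex.normSq_nonneg _)
      (mul_pos hd (Complex.normSq_pos.2 h0))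

theorem hn_nonneg {τ : T3} (h : τ ∈ H2) (v : V2) : 0 ≤ Hn τ v := by
  by_cases hv : v = 0
  · simp [hv, Hn]
  · exact (hn_pos h hv).le

theorem hn_det {τ : T3} (h : τ ∈ H2) (v w : V2) :
    ‖v 0 * w 1 - v 1 * w 0‖ ^ 2 * (dY τ)⁻¹ ≤ Hn τ v * Hn τ w := by
  have hd := dY_pos h
  have key : Hn τ v * Hn τ w = ‖v 0 * w 1 - v 1 * w 0‖ ^ 2 * (dY τ)⁻¹ +
      Complex.normSq ((τ 2).im * (v 0 * (starRingEnd ℂ) (w 0)) -
        (τ 1).im * (v 0 * (starRingEnd ℂ) (w 1) + v 1 * (starRingEnd ℂ) (w 0)) +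
        (τ 0).im * (v 1 * (starRingEnd ℂ) (w 1))) / dY τ ^ 2 := by
    rw [Complex.sq_norm, Hn, Hn]
    field_simp
    simp only [dY, Complex.normSq_apply, Complex.mul_re, Complex.mul_im, Complex.sub_re,
      Complex.sub_im, Complex.add_re, Complex.add_im, Complex.conj_re, Complex.conj_im,
      Complex.ofReal_re, Complex.ofReal_im]
    ring
  rw [key]
  exact le_add_of_nonneg_right (div_nonneg (Complex.normSq_nonneg _) (by positivity))

/-- the determinant of a Hermitian form from its diagonal values -/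
noncomputable def dt (h : V2 → ℝ) : ℝ :=
  h ![1, 0] * h ![0, 1] - ((h ![1, 1] - h ![1, 0] - h ![0, 1]) / 2) ^ 2 -
    ((h ![1, Complex.I] - h ![1, 0] - h ![0, 1]) / 2) ^ 2

theorem dt_hn {τ : T3} (h : τ ∈ H2) (D : M2) :
    dt (fun l ↦ Hn τ (D.mulVec l)) = (dY τ)⁻¹ * ‖D.det‖ ^ 2 := by
  have hd := (dY_pos h).ne'
  rw [Complex.sq_norm, Matrix.det_fin_two]
  simp only [dt, Hn, Matrix.mulVec, dotProduct, Fin.sum_univ_two, Matrix.cons_val_zero,
    Matrix.cons_val_one, mul_one, mul_zero, add_zero, zero_add]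
  field_simp
  simp only [dY, Complex.normSq_apply, Complex.mul_re, Complex.mul_im, Complex.sub_re,
    Complex.sub_im, Complex.add_re, Complex.add_im, Complex.conj_re, Complex.conj_im,
    Complex.I_re, Complex.I_im]
  ring

theorem cont_dY {τ : ℂ → T3} {u : ℂ} (h : An τ u) : ContinuousAt (fun z ↦ dY (τ z)) u := by
  have h0 := (h 0).continuousAt
  have h1 := (h 1).continuousAt
  have h2 := (h 2).continuousAt
  unfold dY
  fun_prop

theorem cont_hn {τ : ℂ → T3} {v : ℂ → V2} {u : ℂ} (h : An τ u) (hv : An v u) (hu : τ u ∈ H2) :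
    ContinuousAt (fun z ↦ Hn (τ z) (v z)) u := by
  have h0 := (h 0).continuousAt
  have h1 := (h 1).continuousAt
  have h2 := (h 2).continuousAt
  have v0 := (hv 0).continuousAt
  have v1 := (hv 1).continuousAt
  refine ContinuousAt.div ?_ (cont_dY h) (dY_pos hu).ne'
  fun_prop

theorem prod_bd (R : Multiset ℂ) (f : ℂ → ℝ) (g h : ℂ → ℂ) (k : ℕ) (K : ℝ) (hK : 0 ≤ K)
    (hf : ∀ x ∈ R, 0 ≤ f x) (hb : ∀ x ∈ R, f x * ‖g x‖ ^ k ≤ K * ‖h x‖ ^ 2) :
    (R.map f).prod * ‖(R.map g).prod‖ ^ k ≤ K ^ R.card * ‖(R.map h).prod‖ ^ 2 := by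
  induction R using Multiset.induction_on with
  | empty => simp
  | cons a R ih =>
    have h1 := ih (fun x hx ↦ hf x (Multiset.mem_cons_of_mem hx))
      (fun x hx ↦ hb x (Multiset.mem_cons_of_mem hx))
    have h2 := hb a (Multiset.mem_cons_self _ _)
    have h3 : 0 ≤ (R.map f).prod := Multiset.prod_nonneg fun y hy ↦ by
      obtain ⟨x, hx, rfl⟩ := Multiset.mem_map.1 hy
      exact hf x (Multiset.mem_cons_of_mem hx)
    have h4 := mul_le_mul h2 h1 (by positivity) (by positivity)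
    simp only [Multiset.map_cons, Multiset.prod_cons, Multiset.card_cons, norm_mul, mul_pow,
      pow_succ K]
    calc _ = f a * ‖g a‖ ^ k * ((R.map f).prod * ‖(R.map g).prod‖ ^ k) := by ring
      _ ≤ _ := h4
      _ = _ := by ring

/-- comparison of degrees from a weight without local maximum -/
theorem deg_lt (hT : St_TWO) (hA : St_POSA) {Y Y' : Type} [Fintype Y] [Fintype Y']
    (a : Y → ℚ[X]) (b : Y' → ℚ[X]) (k : ℕ) (V : ℂ → ℝ) (S : Finset ℂ) (K : ℝ) (hK : 0 ≤ K)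
    (h : ∀ t, t ∉ S → ContinuousAt V t ∧ NoMax V t ∧ 0 < V t ∧ (∃ y', aeval t (b y') ≠ 0) ∧
      ∃ y, ∀ y', V t * ‖aeval t (b y')‖ ^ (2 * k) ≤ K * ‖aeval t (a y)‖ ^ 2) :
    b ≠ 0 ∧ a ≠ 0 ∧ k * dl b < dl a := by
  have ha : ∀ t, t ∉ S → ∃ y, aeval t (a y) ≠ 0 := by
    intro t ht
    obtain ⟨-, -, hV, ⟨y', hy'⟩, y, hy⟩ := h t ht
    refine ⟨y, fun h0 ↦ ?_⟩
    have h1 := hy y'
    have h2 : 0 < V t * ‖aeval t (b y')‖ ^ (2 * k) := mul_pos hV (pow_pos (norm_pos_iff.2 hy') _)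
    rw [h0] at h1
    simp only [norm_zero, ne_eq, OfNat.ofNat_ne_zero, not_false_eq_true, zero_pow,
      mul_zero] at h1
    exact absurd h1 (not_le.2 h2)
  obtain ⟨t0, ht0⟩ := Infinite.exists_notMem_finset S
  have a0 : a ≠ 0 := by
    obtain ⟨y, hy⟩ := ha t0 ht0
    rintro rfl
    simp at hy
  have b0 : b ≠ 0 := by
    obtain ⟨y, hy⟩ := (h t0 ht0).2.2.2.1
    rintro rfl
    simp at hy
  refine ⟨b0, a0, not_le.1 fun hle ↦ ?_⟩
  obtain ⟨Ca, hCa, Ha⟩ := (hT Y a a0).1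
  obtain ⟨Cb, hCb, Hb⟩ := (hT Y' b b0).1
  have ca : ∀ t, t ∉ S → aeval t (cont a) ≠ 0 := by
    intro t ht h0
    obtain ⟨y, hy⟩ := ha t ht
    have := (Ha t).1 y
    rw [h0] at this
    exact hy (by simpa using this)
  have cb : ∀ t, t ∉ S → aeval t (cont b) ≠ 0 := by
    intro t ht h0
    obtain ⟨y, hy⟩ := (h t ht).2.2.2.1
    have := (Hb t).1 y
    rw [h0] at this
    exact hy (by simpa using this)
  have an : ∀ t : ℂ, t ∉ S →
      AnalyticAt ℂ (fun z : ℂ ↦ aeval z (cont b) ^ k / aeval z (cont a)) t := fun t ht ↦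
    ((analyticAt_id.aeval_polynomial _).pow k).div (analyticAt_id.aeval_polynomial _) (ca t ht)
  obtain ⟨t, ht, hn⟩ := hA S (fun z ↦ V z * ‖aeval z (cont b) ^ k / aeval z (cont a)‖ ^ 2)
    (Cb ^ (2 * k) * K * Ca ^ 2)
    (fun t ht ↦ (h t ht).1.mul ((an t ht).continuousAt.norm.pow 2)) (by
      intro t ht
      obtain ⟨-, -, hV, -, y, hy⟩ := h t ht
      have pa := norm_pos_iff.2 (ca t ht)
      have pb := norm_pos_iff.2 (cb t ht)
      rw [norm_div, norm_pow]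
      refine ⟨by positivity, ?_⟩
      obtain ⟨y', hy'⟩ := (Hb t).2
      have hm : (1 : ℝ) ≤ max 1 ‖t‖ := le_max_left _ _
      set m : ℝ := max 1 ‖t‖
      have e1 := pow_le_pow_left₀ (by positivity) hy' (2 * k)
      have e2 := pow_le_pow_left₀ (norm_nonneg _) ((Ha t).1 y) 2
      have e3 : (m ^ dl a) ^ 2 ≤ (m ^ dl b) ^ (2 * k) := by
        rw [← pow_mul, ← pow_mul]
        exact pow_le_pow_right₀ hm (by nlinarith)
      have pm : 0 < (m ^ dl b) ^ (2 * k) := by positivity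
      rw [div_pow, ← mul_div_assoc, div_le_iff₀ (by positivity), ← pow_mul, mul_comm k 2]
      refine le_of_mul_le_mul_right ?_ pm
      calc V t * ‖aeval t (cont b)‖ ^ (2 * k) * (m ^ dl b) ^ (2 * k)
          = V t * (‖aeval t (cont b)‖ * m ^ dl b) ^ (2 * k) := by rw [mul_pow]; ring
        _ ≤ V t * (Cb * ‖aeval t (b y')‖) ^ (2 * k) := mul_le_mul_of_nonneg_left e1 hV.le
        _ = Cb ^ (2 * k) * (V t * ‖aeval t (b y')‖ ^ (2 * k)) := by rw [mul_pow]; ring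
        _ ≤ Cb ^ (2 * k) * (K * ‖aeval t (a y)‖ ^ 2) :=
          mul_le_mul_of_nonneg_left (hy y') (by positivity)
        _ ≤ Cb ^ (2 * k) * (K * (Ca * ‖aeval t (cont a)‖ * m ^ dl a) ^ 2) := by gcongr
        _ = Cb ^ (2 * k) * K * Ca ^ 2 * ‖aeval t (cont a)‖ ^ 2 * (m ^ dl a) ^ 2 := by ring
        _ ≤ _ := mul_le_mul_of_nonneg_left e3 (by positivity))
  exact hn (nomax_mul (h t ht).2.1 (an t ht) (div_ne_zero (pow_ne_zero _ (cb t ht)) (ca t ht)))

end T40

end Pool.Agent.Lib.ECM
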