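import Pool.Agent.Lib.ZP3.Zero
import Pool.Agent.Lib.ZP3.BakerAn
import Pool.Agent.Lib.ZP3.Defs2
import Pool.Agent.Lib.ECM.THBlue

/-! Period theorem for an elliptic curve inside an abelian surface: definitions and block
statements (project E x CM, problem MP_0704bf_ag). -/

open UpperHalfPlane hiding I
open Filter Topology Complex
open scoped Real

noncomputable section

namespace Pool.Agent.Lib.ECM.PT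

open Pool.Agent.Lib.ZP3

/-- iterated partial derivatives at the origin -/
def I2 (Ψ : ℂ × ℂ → ℂ) (a b : ℕ) : ℂ :=
  iteratedDeriv a (fun s ↦ iteratedDeriv b (fun y ↦ Ψ (s, y)) 0) 0

/-- vanishing of the jet of order `n` -/
def Jet (Ψ : ℂ × ℂ → ℂ) (n : ℕ) : Prop := ∀ a b, a + b ≤ n → I2 Ψ a b = 0

/-- all words of length at most `n` along the hyperplane vanish at `z` -/
def JV (W : Fin 3 → WD) (β : Fin 3 → ℂ) (r : R) (z : Fin 3 → ℂ) (n : ℕ) : Prop :=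
  ∀ m : List (Fin 3 → ℂ), (∀ v ∈ m, v ∈ Zero.hyp β) → m.length ≤ n →
    ev W z (Zero.wd W m r) = 0

/-- entire functions of level `n` for the lattice `ℤ + ℤ t` -/
def QP (t : ℂ) (n : ℕ) (s : ℂ → ℂ) : Prop :=
  Differentiable ℂ s ∧ (∀ z, s (z + 1) = s z) ∧
    ∀ z, s (z + t) = exp (-(π * I * n * (t + 2 * z))) * s z

/-- the constant one followed by the coordinates -/
def ox {ι : Type} (x : ι → ℂ) : Option ι → ℂ := fun o ↦ o.elim 1 x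

/-- a quadratic polynomial -/
def quad {ι : Type} [Fintype ι] (c : Option ι → Option ι → ℂ) (x : ι → ℂ) : ℂ :=
  ∑ a, ∑ b, c a b * ox x a * ox x b

/-- a solution of a quadratic differential system near the origin -/
def Sys {ι : Type} [Fintype ι] (x : ℂ × ℂ → ι → ℂ) (q1 q2 : ι → Option ι → Option ι → ℂ) : Prop :=
  ∀ j, AnalyticAt ℂ (fun z ↦ x z j) 0 ∧ ∀ᶠ z in 𝓝 (0 : ℂ × ℂ),
    fderiv ℂ (fun z ↦ x z j) z (1, 0) = quad (q1 j) (x z) ∧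
      fderiv ℂ (fun z ↦ x z j) z (0, 1) = quad (q2 j) (x z)

/-- an entire multiplier for the function `f` -/
def Mlt (f : ℂ × ℂ → ℂ) (A S : ℕ) : Prop :=
  ∃ b : ℂ × ℂ → ℂ,
    (∀ s y : ℂ, ‖s‖ ≤ 3 * S + 2 → ‖y‖ ≤ Real.exp (-A) → AnalyticAt ℂ b (s, y) ∧
      AnalyticAt ℂ (fun z ↦ b z * f z) (s, y) ∧ ‖b (s, y)‖ ≤ Real.exp (A * S ^ 3) ∧
        ‖b (s, y) * f (s, y)‖ ≤ Real.exp (A * S ^ 3)) ∧
    ∀ s y : ℂ, ‖s‖ ≤ Real.exp (-A) → ‖y‖ ≤ Real.exp (-A) →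
      Real.exp (-(A * S ^ 3)) ≤ ‖b (s, y)‖ ∧ AnalyticAt ℂ f (s, y)

/-- block ZCV: counting isolated zeros, with a degree for each factor -/
def ZCV : Prop :=
  ∀ (W : Fin 3 → WD) (b : Fin 3 → Fin 3 → ℂ), LinearIndependent ℂ b →
    ∀ (w e d : Fin 3 → ℕ) (w0 : ℕ), (∀ i, 0 < w i) → (∀ i, w i * e i ≤ w0) → (∀ i, 1 ≤ d i) →
    ∀ S : Finset (Fin 3 → ℂ), (∀ z ∈ S, Reg W z) →
    (∀ z ∈ S, ∀ z' ∈ S, z ≠ z' → ∃ i, z i - z' i ∉ (W i).Λ) →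
    ∀ G : Set R, (∀ g ∈ G, g ∈ TR.Mv d) → (∀ g ∈ G, ∀ z ∈ S, Van W b w z w0 g) →
    (∀ z ∈ S, ∀ᶠ z' in 𝓝 z, (∀ g ∈ G, ev W z' g = 0) → z' = z) →
    S.card * (e 0 * e 1 * e 2) ≤ 216 * (d 0 * d 1 * d 2)

/-- block TRV: translated generators, with a degree for each factor -/
def TRV : Prop :=
  ∀ (W : Fin 3 → WD) (r : R) (D : Fin 3 → ℕ), r ∈ TR.Mv D →
    ∃ G : List (Fin 3 → ℂ) → (Fin 3 → ℂ) → R, (∀ l η, G l η ∈ TR.Mv fun i ↦ 3 * D i) ∧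
      ∀ (V : Set (Fin 3 → ℂ)) (g η : Fin 3 → ℂ), Reg W g → Reg W η → Reg W (g + η) →
        (∀ l l' : List (Fin 3 → ℂ), (∀ v ∈ l, v ∈ V) → (∀ v ∈ l', v ∈ V) →
          (∀ m : List (Fin 3 → ℂ), (∀ v ∈ m, v ∈ V) → m.length ≤ l.length + l'.length →
            ev W (g + η) (Zero.wd W m r) = 0) → ev W g (Zero.wd W l' (G l η)) = 0) ∧
        (∀ n : ℕ, (∀ i, (W i).X (g i) ≠ (W i).X (η i)) →
          (∀ l : List (Fin 3 → ℂ), (∀ v ∈ l, v ∈ V) → l.length ≤ n → ev W g (G l η) = 0) →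
          ∀ m : List (Fin 3 → ℂ), (∀ v ∈ m, v ∈ V) → m.length ≤ n →
            ev W (g + η) (Zero.wd W m r) = 0)

/-- block ZL: the zero lemma for a function invariant under a finite group of translations -/
def ZL : Prop :=
  ∀ (W : Fin 3 → WD) (β p : Fin 3 → ℂ) (r : R) (D : Fin 3 → ℕ) (T : ℕ)
    (Γ : Finset (Fin 3 → ℂ)), β 0 ≠ 0 → β 1 ≠ 0 → β 2 = 0 → (∀ i, 1 ≤ D i) → r ∈ TR.Mv D →
    (∃ z, Reg W z ∧ ev W z r ≠ 0) → 0 ∈ Γ → (∀ γ ∈ Γ, γ 0 = 0) →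
    (∀ γ ∈ Γ, ∀ γ' ∈ Γ, γ ≠ γ' → γ 1 - γ' 1 ∉ (W 1).Λ ∧ γ 2 - γ' 2 ∉ (W 2).Λ) →
    (∀ γ ∈ Γ, ∀ z n, Reg W z → Reg W (z + γ) → (JV W β r z n ↔ JV W β r (z + γ) n)) →
    (∀ γ ∈ Γ, Reg W (p + γ)) →
    (∀ c : ℂ, c ≠ 0 → ∃ l ∈ (W 1).Λ, ∀ n : ℕ, 0 < n → n * c * l ∉ (W 2).Λ) →
    5832 * (D 0 * D 1 * D 2) < Γ.card * T ^ 2 → 5832 * D 0 < T → JV W β r p (3 * T) →
    Γ.card ≤ 5832 * (D 0 * D 1) ∨ Γ.card ≤ 5832 * (D 0 * D 2)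

/-- block ELL: theta functions of even level on a product of two elliptic curves are polynomials
in the Weierstrass functions -/
def ELL : Prop :=
  ∀ t1 t2 : ℍ, ∃ (W1 W2 : WD) (ϑ1 ϑ2 : ℂ → ℂ), W1.IsLat t1 1 ∧ W2.IsLat t2 1 ∧
    Differentiable ℂ ϑ1 ∧ Differentiable ℂ ϑ2 ∧ (∀ z ∉ W1.Λ, ϑ1 z ≠ 0) ∧ (∀ z ∉ W2.Λ, ϑ2 z ≠ 0) ∧
    ∀ (n : ℕ) (G : ℂ → ℂ → ℂ), Even n → (∀ y, QP t1 n fun x ↦ G x y) → (∀ x, QP t2 n (G x)) →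
      ∃ r ∈ TR.Mv ![0, n, n], ∀ (W0 : WD) (z : Fin 3 → ℂ), z 1 ∉ W1.Λ → z 2 ∉ W2.Λ →
        G (z 1) (z 2) = (ϑ1 (z 1) * ϑ2 (z 2)) ^ n * ev ![W0, W1, W2] z r

/-- block JT: calculus of jets in two variables -/
def JT : Prop :=
  (∀ (Ψ Ψ' : ℂ × ℂ → ℂ) (a b : ℕ), Ψ =ᶠ[𝓝 0] Ψ' → I2 Ψ a b = I2 Ψ' a b) ∧
  (∀ (u Ψ : ℂ × ℂ → ℂ) (n : ℕ), AnalyticAt ℂ u 0 → AnalyticAt ℂ Ψ 0 → Jet Ψ n →
    Jet (fun q ↦ u q * Ψ q) n) ∧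
  (∀ (Ψ : ℂ × ℂ → ℂ) (c c' : ℂ) (a b : ℕ), AnalyticAt ℂ Ψ 0 →
    I2 (fun q ↦ Ψ (c * q.1, c' * q.2)) a b = c ^ a * c' ^ b * I2 Ψ a b) ∧
  ∀ (Ψ : ℂ × ℂ → ℂ) (c1 c2 : ℂ) (k b : ℕ) (θ : ℝ), AnalyticAt ℂ Ψ 0 →
    (∀ a ≤ k, ‖I2 Ψ a (k + b - a)‖ ≤ θ) →
    ‖I2 (fun q ↦ Ψ (c1 * q.1, c2 * q.1 + q.2)) k b‖ ≤ (‖c1‖ + ‖c2‖) ^ k * θ

/-- block ARI: the auxiliary polynomial and the Liouville inequality -/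
def ARI : Prop :=
  ∀ (ι : Type) [Fintype ι], ∃ c : ℕ, ∀ (A n L T0 T2 : ℕ) (x : ℂ × ℂ → ι → ℂ)
    (q1 q2 : ι → Option ι → Option ι → ℂ) (i : Fin 3 → ι), 2 ≤ A → 1 ≤ n →
    (n : ℝ) ≤ Real.exp A → L ≤ n → T0 ≤ n → T2 ≤ n → 4 * (A ^ c * (T0 * T2)) ≤ (L + 1) ^ 3 →
    Sys x q1 q2 → (∀ j, Sm (x 0 j) A) → (∀ j a b, Sm (q1 j a b) A) →
    (∀ j a b, Sm (q2 j a b) A) →
    ∃ F : MvPolynomial (Fin 3) ℂ, F ≠ 0 ∧ (∀ j, F.degreeOf j ≤ L) ∧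
      ∑ m ∈ F.support, ‖F.coeff m‖ ≤ Real.exp (A ^ c * n) ∧
      (∀ a < T0, ∀ b < T2,
        I2 (fun z ↦ MvPolynomial.eval (fun j ↦ x z (i j) ^ 2) F) a b = 0) ∧
      ∀ a b, a + b ≤ n → I2 (fun z ↦ MvPolynomial.eval (fun j ↦ x z (i j) ^ 2) F) a b ≠ 0 →
        Real.exp (-(A ^ c * n)) ≤
          ‖I2 (fun z ↦ MvPolynomial.eval (fun j ↦ x z (i j) ^ 2) F) a b‖

/-- block EXT: extrapolation along an exact period -/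
def EXT : Prop :=
  ∀ (A L T0 T1 S : ℕ) (f : Fin 3 → ℂ × ℂ → ℂ) (F : MvPolynomial (Fin 3) ℂ) (BF : ℝ), 1 ≤ S →
    (∀ j, Mlt (f j) A S) → (∀ j s y, f j (s + 1, y) ^ 2 = f j (s, y) ^ 2) →
    (∀ j, F.degreeOf j ≤ L) → ∑ m ∈ F.support, ‖F.coeff m‖ ≤ BF →
    (∀ k < T0, ∀ b < T1, I2 (fun z ↦ MvPolynomial.eval (fun j ↦ f j z ^ 2) F) k b = 0) →
    ∀ k b, b < T1 → ‖I2 (fun z ↦ MvPolynomial.eval (fun j ↦ f j z ^ 2) F) k b‖ ≤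
      k.factorial * b.factorial * Real.exp (A * (k + b) + b + 12 * L * (A * S ^ 3)) *
        (BF / 2 ^ (S * T0))

/-- block ENG: the auxiliary function with an exact period -/
def ENG : Prop :=
  ∀ (ι : Type) [Fintype ι], ∃ k A0 : ℕ, ∀ (A : ℕ) (x : ℂ × ℂ → ι → ℂ)
    (q1 q2 : ι → Option ι → Option ι → ℂ) (i : Fin 3 → ι) (c1 c2 : ℂ), A0 ≤ A → Sys x q1 q2 →
    (∀ j, Sm (x 0 j) A) → (∀ j a b, Sm (q1 j a b) A) → (∀ j a b, Sm (q2 j a b) A) →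
    Real.exp (-A) ≤ ‖c1‖ → ‖c2‖ ≤ Real.exp A →
    (∀ z j, x (z + (c1, c2)) (i j) ^ 2 = x z (i j) ^ 2) →
    (∀ j S, 1 ≤ S → Mlt (fun z ↦ x (c1 * z.1, c2 * z.1 + z.2) (i j)) A S) →
    ∃ (a : ℕ) (F : MvPolynomial (Fin 3) ℂ), 2 ≤ a ∧ a ≤ A ^ k ∧ F ≠ 0 ∧
      (∀ j, F.degreeOf j ≤ a ^ 32) ∧
      Jet (fun z ↦ MvPolynomial.eval (fun j ↦ x z (i j) ^ 2) F) (3 * (1000 * a ^ 48))

/-- no isogeny between the two elliptic curves of a normal form -/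
def NoHom (τ : T3) : Prop :=
  ∀ p q p' q' : ℤ, (p + q * τ 2) * τ 0 = p' + q' * τ 2 → p = 0 ∧ q = 0

/-- block UP: from the auxiliary function to the bound for the degree -/
def UP : Prop :=
  ∀ (τ : T3) (N : ℕ) (u : ℤ) (W : WD) (p β α α' κ κ' : ℂ) (m0 h h' : Ch)
    (F : MvPolynomial (Fin 3) ℂ) (L T : ℕ), τ ∈ H2 → 0 < N → IsCoprime u (N : ℤ) →
    τ 1 = u / N → NoHom τ → p ∉ W.Λ → β ≠ 0 → α ≠ 0 → α' ≠ 0 → κ ≠ 0 → κ' ≠ 0 →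
    kk m0 τ ≠ 0 → kk h τ = 0 → kk h' τ = 0 →
    ll h τ ![1, 0] * ll h' τ ![0, 1] ≠ ll h τ ![0, 1] * ll h' τ ![1, 0] →
    F ≠ 0 → 1 ≤ L → (∀ j, F.degreeOf j ≤ L) → 400000 * L ^ 3 < T ^ 2 → 30000 * L < T →
    Jet (fun z ↦ MvPolynomial.eval ![W.X (p + β * z.1) ^ 2,
      κ * (th h τ ![α * z.1, α' * z.2] / th m0 τ ![α * z.1, α' * z.2]) ^ 2,
      κ' * (th h' τ ![α * z.1, α' * z.2] / th m0 τ ![α * z.1, α' * z.2]) ^ 2] F) (3 * T) →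
    N ≤ 100000 * L ^ 2

/-- the coordinate functions along a plane -/
def xs (τ : T3) (W : WD) (p β : ℂ) (v1 v2 : V2) (z : ℂ × ℂ) : Ch ⊕ Bool → ℂ :=
  Sum.elim (fun m ↦ th m τ (z.1 • v1 + z.2 • v2) / th 0 τ (z.1 • v1 + z.2 • v2))
    fun b ↦ cond b (W.Y (p + β * z.1)) (W.X (p + β * z.1))

/-- block SYS: the differential system and the size of its coefficients -/
def SYS : Prop :=
  ∃ k : ℕ, ∀ (A : ℕ) (τ : T3) (W : WD) (p β : ℂ) (v1 v2 : V2), 2 ≤ A → τ ∈ H2 → Gen τ →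
    p ∉ W.Λ → (∀ m, Sm (kk m τ / kk 0 τ) A) → (∀ m, Sm (ll m τ v1 / kk 0 τ) A) →
    (∀ m, Sm (ll m τ v2 / kk 0 τ) A) → Sm β A → Sm (W.g2 / 2) A →
    ∃ q1 q2, Sys (xs τ W p β v1 v2) q1 q2 ∧ (∀ j a b, Sm (q1 j a b) (A ^ k)) ∧
      ∀ j a b, Sm (q2 j a b) (A ^ k)

/-- block MLT: entire multipliers -/
def MLT : Prop :=
  ∃ c : ℕ, (∀ (A S : ℕ) (τ : T3) (m : Ch) (l w : V2), 1 ≤ A → 1 ≤ S → τ ∈ Red → ‖l‖ ≤ 1 →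
      ‖w‖ ≤ Real.exp A →
      Mlt (fun z ↦ th m τ (z.1 • l + z.2 • w) / th 0 τ (z.1 • l + z.2 • w)) (c * A) S) ∧
    ∀ (A S : ℕ) (W : WD) (p u : ℂ), 1 ≤ A → 1 ≤ S → W.Size p u A →
      Mlt (fun z ↦ W.X (p + u * z.1)) (c * A ^ 3) S

/-- block LAT: a short period and its projection to the elliptic curve -/
def LAT : Prop :=
  ∃ C : ℝ, ∀ (N : ℕ) (u : ℤ) (τ : T3) (g : Sym) (W : WD) (t : ℍ) (Ω : ℂ) (v e : V2), τ ∈ Red →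
    0 < N → g.act τ 1 = u / N → Ω ≠ 0 → W.IsLat t Ω → g.M τ v 1 = 0 →
    (∀ z, z ∈ W.Λ ↔ z • v ∈ Lat τ) → g.M τ e 0 = 0 → e ≠ 0 →
    g.M τ v 0 ≠ 0 ∧ g.M τ e 1 ≠ 0 ∧ ∃ (l : V2) (m n : ℤ) (c : ℂ), (l = ![1, 0] ∨ l = ![0, 1]) ∧
      (m : ℂ) + n * t ≠ 0 ∧ ‖(m : ℂ) + n * t‖ ^ 2 ≤ C * N ^ 2 * t.im ∧
      l = (Ω * ((m + n * t) / N)) • v + c • e

/-- the period theorem -/
def PTH : Prop :=
  ∃ k A0 : ℕ, ∀ (A N a : ℕ) (u : ℤ) (τ : T3) (g : Sym) (W : WD) (t : ℍ) (Ω : ℂ) (v e : V2),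
    A0 ≤ A → τ ∈ Red → Gen τ → 0 < N → IsCoprime u (N : ℤ) →
    g.act τ 1 = u / N → NoHom (g.act τ) → (N : ℝ) ≤ Real.exp A →
    W.IsLat t Ω → W.Size (Ω / 2) Ω A → W.Ar (Ω / 2) A → 1 ≤ 2 * t.im → 0 < a →
    (a : ℝ) ≤ Real.exp A → AI (a * t) A → g.M τ v 1 = 0 → (∀ z, z ∈ W.Λ ↔ z • v ∈ Lat τ) →
    g.M τ e 0 = 0 → e ≠ 0 → (∀ m, Sm (kk m τ / kk 0 τ) A) →
    Sm (ll hA τ v / kk 0 τ) A → Sm (ll hB τ v / kk 0 τ) A →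
    Sm (ll hA τ e / kk 0 τ) A → Sm (ll hB τ e / kk 0 τ) A → N ≤ A ^ k

end Pool.Agent.Lib.ECM.PT
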