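import Pool.Agent.Lib.ECM.Blue
import Pool.Agent.Lib.ECM.PTDefs

/-! Master blueprint of the E x CM theorem, further statements. -/

open UpperHalfPlane

namespace Pool.Agent.Lib.ECM

/-- normal form of a period matrix with an elliptic curve -/
def St_NF : Prop := ∀ τ ∈ H2, ∀ v τ0 (N : ℕ), Line τ v τ0 → (N : ℝ) = NN τ v τ0 →
  ∃ (g : Sym) (u : ℤ), IsCoprime u (N : ℤ) ∧ g.act τ 1 = u / N ∧ g.M τ v 1 = 0

/-- the kernel of the dual form is an elliptic curve -/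
def St_KER : Prop := ∀ τ ∈ H2, Gen τ → ∀ v τ0 (N : ℕ) cA cB, Line τ v τ0 → (N : ℝ) = NN τ v τ0 →
  Eta τ v τ0 N cA cB → ∃ v' τ0', Line τ v' τ0' ∧ eta τ cA cB v' = 0

end Pool.Agent.Lib.ECM
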