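import Pool.Agent.Lib.ECM.SDefs

/-! Further definitions used in the statement of the E x CM theorem (problem MP_0704bf_ag). -/

namespace Pool.Agent.Lib.ECM

/-- the field of complex algebraic numbers -/
noncomputable abbrev Qb : IntermediateField ℚ ℂ := algebraicClosure ℚ ℂ

/-- the complex points of the affine variety defined by `P` -/
def Pts (P : Ideal (MvPolynomial Ch Qb)) : Set (Ch → ℂ) :=
  {x | ∀ f ∈ P, MvPolynomial.aeval x f = 0}

/-- the only endomorphisms of the torus `ℂ² / (ℤ² + τ ℤ²)` are the integers -/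
def EndZ (τ : T3) : Prop :=
  ∀ M : V2 →ₗ[ℂ] V2, (∀ z ∈ Lat τ, M z ∈ Lat τ) → ∃ k : ℤ, ∀ z, M z = (k : ℂ) • z

end Pool.Agent.Lib.ECM
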