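import Pool.Agent.Lib.ECM.Blue
import Pool.Agent.Lib.ECM.SDefs2

/-! Master blueprint of the E x CM theorem, third part: the image of the theta null map and
generic points. -/

open Filter Topology

noncomputable section

namespace Pool.Agent.Lib.ECM

abbrev Z2 := ZMod 2 × ZMod 2

/-- theta constants of the second order -/
def f2 (τ : T3) (s : Z2) : ℂ := thg (fun i ↦ 2 * τ i) (ca (s.1, s.2, 0, 0)) 0

/-- the ten quadrics (and six zero forms) -/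
def Qm (m : Ch) (g : Z2 → ℂ) : ℂ :=
  ∑ s : Z2, (-1) ^ (s.1 * m.2.2.1 + s.2 * m.2.2.2).val * (g s * g (s + (m.1, m.2.1)))

def St_ADD2 : Prop := ∀ τ ∈ H2, ∀ m, kk m τ ^ 2 = Qm m (f2 τ)

/-- all sign changes are realised by the modular group -/
def St_SGN : Prop := ∀ ε : Ch → ℂ, (∀ m, ε m = 1 ∨ ε m = -1) → ∀ τ ∈ H2,
  ∃ τ' ∈ H2, ∃ c : ℂ, c ≠ 0 ∧ ∀ m, kk m τ' = c * ε m * kk m τ

/-- the second order theta null map is open somewhere -/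
def St_OPEN : Prop := ∃ g0 : Z2 → ℂ, (∀ m, Ev m → Qm m g0 ≠ 0) ∧
  ∀ᶠ g in 𝓝 g0, ∃ τ ∈ H2, ∃ c : ℂ, c ≠ 0 ∧ ∀ s, f2 τ s = c * g s

def St_SURJ : Prop := ∀ x : Ch → ℂ, x 0 = 1 → (∀ m, Ev m → x m ≠ 0) →
  (∃ g, ∀ m, x m ^ 2 = Qm m g) → ∃ τ, Over x τ

/-- the image of the theta null map is open in its Zariski closure over the rationals -/
def St_EQN : Prop := ∀ x : Ch → ℂ,
  (∀ h : MvPolynomial Ch ℚ, (∀ y τ, Over y τ → MvPolynomial.aeval y h = 0) →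
    MvPolynomial.aeval x h = 0) → (∀ m, Ev m → x m ≠ 0) → ∃ τ, Over x τ

/-- an irreducible curve over the rationals -/
def Crv (P : Id) : Prop := P.IsPrime ∧ ringKrullDim (MvPolynomial Ch ℚ ⧸ P) = 1

/-- proper hypersurface sections are finite and algebraic -/
def St_FINZ : Prop := ∀ P : Id, Crv P → ∀ h ∉ P,
  {x ∈ Cv P | MvPolynomial.aeval x h = 0}.Finite ∧
    ∀ x ∈ Cv P, MvPolynomial.aeval x h = 0 → AlgT x

/-- every point lies on a branch -/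
def St_ISO : Prop := ∀ P : Id, Crv P → ∀ x ∈ Cv P, ∃ κ, Br P κ 0 ∧ ∀ m, κ m 0 = x m

/-- all fibres of the theta null map are countable -/
def St_FIB0 : Prop := ∀ x : Ch → ℂ, {τ | Over x τ}.Countable

/-- the `j`-th column of `R` as a lattice vector -/
def col (R : Matrix (Fin 4) (Fin 4) ℤ) (τ : T3) (j : Fin 4) : V2 :=
  per τ (iv (R 0 j, R 1 j)) (iv (R 2 j, R 3 j))

/-- `R` is the rational representation of an endomorphism -/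
def EqE (R : Matrix (Fin 4) (Fin 4) ℤ) (τ : T3) : Prop :=
  τ 0 • col R τ 0 + τ 1 • col R τ 1 = col R τ 2 ∧ τ 1 • col R τ 0 + τ 2 • col R τ 1 = col R τ 3

structure St_ENC : Prop where
  enc : ∀ τ ∈ H2, EndZ τ ↔ ∀ R, EqE R τ → ∃ k : ℤ, R = k • (1 : Matrix (Fin 4) (Fin 4) ℤ)
  hum : ∀ τ ∈ H2, EndZ τ → ¬ Sing τ
  map : ∀ τ τ' (M : V2 ≃ₗ[ℂ] V2), (∀ z, M z ∈ Lat τ' ↔ z ∈ Lat τ) → EndZ τ → EndZ τ'

/-- three abelian functions are algebraically dependent -/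
def St_DEP : Prop := ∀ τ ∈ H2, ∀ M : V2 →ₗ[ℂ] V2, (∀ z ∈ Lat τ, M z ∈ Lat τ) → ∀ m : Ch,
  ∃ R : MvPolynomial (Fin 3) ℂ, R ≠ 0 ∧ ∀ z, th 0 τ z ≠ 0 → th 0 τ (M z) ≠ 0 →
    MvPolynomial.eval ![th hA τ z / th 0 τ z, th hB τ z / th 0 τ z,
      th m τ (M z) / th 0 τ (M z)] R = 0

/-- endomorphisms and conjugation -/
def St_END : Prop := ∀ (σ : ℂ ≃+* ℂ) (x : Ch → ℂ) (τ τ' : T3), Over x τ → Gen τ →
  Over (fun m ↦ σ (x m)) τ' → EndZ τ' → EndZ τ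

def St_HGEN : Prop := ∀ P : Id, Crv P → Mod P → (∃ x ∈ Cv P, ∃ τ, Over x τ ∧ EndZ τ) → HG P

def St_MAIN2 : Prop := ∀ P : Id, Crv P → (∃ x ∈ Cv P, ∃ τ, Over x τ ∧ EndZ τ) →
  {x ∈ Cv P | ∃ τ, Over x τ ∧ HasCM τ ∧ ¬ SqCM τ}.Finite

/-- descent of the field of definition -/
def St_QBAR : Prop := ∀ P : Ideal (MvPolynomial Ch Qb), P.IsPrime →
  ringKrullDim (MvPolynomial Ch Qb ⧸ P) = 1 → ∃ P0 : Id, Crv P0 ∧ Pts P ⊆ Cv P0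

def St_MAIN3 : Prop := ∀ P : Ideal (MvPolynomial Ch Qb), P.IsPrime →
  ringKrullDim (MvPolynomial Ch Qb ⧸ P) = 1 → (∃ x ∈ Pts P, ∃ τ, Over x τ ∧ EndZ τ) →
  {x ∈ Pts P | ∃ τ, Over x τ ∧ HasCM τ ∧ ¬ SqCM τ}.Finite

/-- the hypotheses are satisfiable in a non-trivial way -/
def St_NONVAC : Prop := ∃ P : Ideal (MvPolynomial Ch Qb), P.IsPrime ∧
  ringKrullDim (MvPolynomial Ch Qb ⧸ P) = 1 ∧ (∃ x ∈ Pts P, ∃ τ, Over x τ ∧ EndZ τ) ∧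
  {x ∈ Pts P | ¬ ∃ τ, Over x τ}.Finite

theorem st_MAIN2 (hM : St_MAIN) (hE : St_EQN) (hZ : St_FINZ) (hH : St_HGEN) (hC : St_ENC)
    (hG : St_G3) : St_MAIN2 := by
  rintro P hP ⟨x0, hx0, τ0, h0, h1⟩
  by_cases hi : {x ∈ Cv P | ∃ τ, Over x τ}.Finite
  · exact hi.subset fun x ⟨a, τ, b, _⟩ ↦ ⟨a, τ, b⟩
  have hg : Gen τ0 := by_contra fun h ↦ hC.hum τ0 h0.1 h1 (hG.sing τ0 h0.1 h)
  have hm : Mod P := by
    refine (Set.finite_iUnion fun m : {m : Ch // Ev m} ↦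
      (hZ P hP (MvPolynomial.X m.1) fun h ↦ ?_).1).subset ?_
    · have := hx0 _ h
      rw [MvPolynomial.aeval_X, h0.2.2] at this
      exact div_ne_zero (hg _ m.2) h0.2.1 this
    · rintro x ⟨hx, hn⟩
      by_contra h
      refine hn (hE x (fun f hf ↦ hx f (by_contra fun hf' ↦ hi ((hZ P hP f hf').1.subset ?_)))
        fun m hm e ↦ h (Set.mem_iUnion.2 ⟨⟨m, hm⟩, hx, by simpa using e⟩))
      rintro y ⟨a, τ, b⟩
      exact ⟨a, hf y τ b⟩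
  exact hM P hP.1 hP.2 hm (hH P hP hm ⟨x0, hx0, τ0, h0, h1⟩)

theorem st_MAIN3 (hM : St_MAIN2) (hQ : St_QBAR) : St_MAIN3 := by
  rintro P h1 h2 ⟨x0, hx0, h0⟩
  obtain ⟨P0, a, b⟩ := hQ P h1 h2
  exact (hM P0 a ⟨x0, b hx0, h0⟩).subset fun x hx ↦ ⟨b hx.1, hx.2⟩

end Pool.Agent.Lib.ECM
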