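import Mathlib

/-! Block CONJ, part one: every elliptic function is rational in the Weierstrass functions. -/

open Complex Filter Topology PeriodPair Polynomial

namespace Pool.Agent.Lib.ECM.CJ

theorem ev_iff {p : ℂ → Prop} :
    (∀ᶠ z in codiscrete ℂ, p z) ↔ ∀ x, ∀ᶠ z in 𝓝[≠] x, p z := by
  simp [Filter.Eventually, codiscrete, mem_codiscreteWithin_iff_forall_mem_nhdsNE]

theorem t_add (z l : ℂ) : Tendsto (fun w ↦ w + l) (𝓝[≠] z) (𝓝[≠] (z + l)) := by
  refine tendsto_nhdsWithin_of_tendsto_nhds_of_eventually_within _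
    (((continuous_add_const l).tendsto z).mono_left nhdsWithin_le_nhds) ?_
  filter_upwards [self_mem_nhdsWithin] with w hw
  simpa using hw

theorem t_mul (z : ℂ) {c : ℂ} (hc : c ≠ 0) : Tendsto (fun w ↦ c * w) (𝓝[≠] z) (𝓝[≠] (c * z)) := by
  refine tendsto_nhdsWithin_of_tendsto_nhds_of_eventually_within _
    (((continuous_const_mul c).tendsto z).mono_left nhdsWithin_le_nhds) ?_
  filter_upwards [self_mem_nhdsWithin] with w hw
  simpa [hc] using hw

theorem ev_add {p : ℂ → Prop} (h : ∀ᶠ z in codiscrete ℂ, p z) (l : ℂ) :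
    ∀ᶠ z in codiscrete ℂ, p (z + l) :=
  ev_iff.2 fun x ↦ (t_add x l).eventually (ev_iff.1 h _)

theorem ev_mul {p : ℂ → Prop} (h : ∀ᶠ z in codiscrete ℂ, p z) {c : ℂ} (hc : c ≠ 0) :
    ∀ᶠ z in codiscrete ℂ, p (c * z) :=
  ev_iff.2 fun x ↦ (t_mul x hc).eventually (ev_iff.1 h _)

theorem ev_neg {p : ℂ → Prop} (h : ∀ᶠ z in codiscrete ℂ, p z) : ∀ᶠ z in codiscrete ℂ, p (-z) := by
  simpa using ev_mul h (c := -1) (by simp)

theorem ev_notMem (L : PeriodPair) : ∀ᶠ w in codiscrete ℂ, w ∉ L.lattice := ev_iff.2 fun z ↦ by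
  filter_upwards [self_mem_nhdsWithin, mem_nhdsWithin_of_mem_nhds
    (L.compl_lattice_sdiff_singleton_mem_nhds z)] with w hw hw' hl
  exact hw' ⟨hl, hw⟩

/-- a meromorphic function vanishes almost everywhere or almost nowhere -/
theorem dich {h : ℂ → ℂ} (hh : Meromorphic h) :
    (∀ᶠ z in codiscrete ℂ, h z = 0) ∨ ∀ᶠ z in codiscrete ℂ, h z ≠ 0 := by
  by_cases H : ∀ x, meromorphicOrderAt h x = ⊤
  · exact Or.inl (ev_iff.2 fun x ↦ meromorphicOrderAt_eq_top_iff.1 (H x))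
  · obtain ⟨x, hx⟩ := not_forall.1 H
    refine Or.inr (ev_iff.2 fun y ↦ ?_)
    exact (meromorphicOrderAt_ne_top_iff_eventually_ne_zero (hh y)).1
      ((hh.meromorphicOn (s := Set.univ)).meromorphicOrderAt_ne_top_of_isPreconnected
        isPreconnected_univ (Set.mem_univ x) (Set.mem_univ y) hx)

theorem zero_of_near {h : ℂ → ℂ} (hh : Meromorphic h) {x : ℂ} (h0 : ∀ᶠ z in 𝓝[≠] x, h z = 0) :
    ∀ᶠ z in codiscrete ℂ, h z = 0 := by
  refine (dich hh).resolve_right fun H ↦ ?_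
  obtain ⟨z, h1, h2⟩ := (h0.and (ev_iff.1 H x)).exists
  exact h2 h1

/-- removable singularity -/
def Rem (f : ℂ → ℂ) (z : ℂ) : Prop := ∃ g, AnalyticAt ℂ g z ∧ f =ᶠ[𝓝[≠] z] g

/-- periodic almost everywhere -/
def Per (S : Set ℂ) (f : ℂ → ℂ) : Prop := ∀ l ∈ S, ∀ᶠ z in codiscrete ℂ, f (z + l) = f z

theorem Rem.of_an {f : ℂ → ℂ} {z : ℂ} (h : AnalyticAt ℂ f z) : Rem f z := ⟨f, h, EventuallyEq.rfl⟩

theorem Rem.mul {f g : ℂ → ℂ} {z : ℂ} (h : Rem f z) (h' : Rem g z) : Rem (fun w ↦ f w * g w) z := by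
  obtain ⟨a, ha, h⟩ := h
  obtain ⟨b, hb, h'⟩ := h'
  exact ⟨_, ha.mul hb, h.mul h'⟩

theorem Rem.sub {f g : ℂ → ℂ} {z : ℂ} (h : Rem f z) (h' : Rem g z) : Rem (fun w ↦ f w - g w) z := by
  obtain ⟨a, ha, h⟩ := h
  obtain ⟨b, hb, h'⟩ := h'
  exact ⟨_, ha.sub hb, h.sub h'⟩

theorem Rem.congr {f g : ℂ → ℂ} {z : ℂ} (h : Rem f z) (e : g =ᶠ[𝓝[≠] z] f) : Rem g z := by
  obtain ⟨a, ha, h⟩ := h
  exact ⟨a, ha, e.trans h⟩

theorem Rem.of_add {f : ℂ → ℂ} {z l : ℂ} (per : ∀ᶠ w in codiscrete ℂ, f (w + l) = f w)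
    (h : Rem f (z + l)) : Rem f z := by
  obtain ⟨g, hg, hfg⟩ := h
  refine ⟨fun w ↦ g (w + l), hg.comp_of_eq (by fun_prop) rfl, ?_⟩
  filter_upwards [(t_add z l).eventually hfg, ev_iff.1 per z] with w hw hw'
  rw [← hw, hw']

/-- the function with removable singularities filled in -/
noncomputable def reg (f : ℂ → ℂ) (z : ℂ) : ℂ := limUnder (𝓝[≠] z) f

theorem reg_eq {f g : ℂ → ℂ} {z : ℂ} (hg : ContinuousAt g z) (h : f =ᶠ[𝓝[≠] z] g) :
    reg f z = g z :=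
  Tendsto.limUnder_eq ((hg.tendsto.mono_left nhdsWithin_le_nhds).congr' h.symm)

theorem reg_ev {f g : ℂ → ℂ} {z : ℂ} (hg : AnalyticAt ℂ g z) (h : f =ᶠ[𝓝[≠] z] g) :
    g =ᶠ[𝓝 z] reg f := by
  have h1 : ∀ᶠ w in 𝓝 z, w ≠ z → f w = g w := eventually_nhdsWithin_iff.mp h
  filter_upwards [h1.eventually_nhds, hg.eventually_analyticAt] with w hw hw'
  by_cases hwz : w = z
  · subst hwz; exact (reg_eq hg.continuousAt h).symm
  · refine (reg_eq hw'.continuousAt (mem_nhdsWithin_of_mem_nhds ?_)).symm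
    filter_upwards [hw, isOpen_ne.mem_nhds hwz] with u hu hu' using hu hu'

variable (L : PeriodPair)

theorem liouville {f : ℂ → ℂ} (per : Per L.lattice f) (hf : ∀ z, Rem f z) :
    ∃ c, ∀ᶠ z in codiscrete ℂ, f z = c := by
  have hd : Differentiable ℂ (reg f) := fun z ↦ by
    obtain ⟨g, hg, h⟩ := hf z
    exact (hg.congr (reg_ev hg h)).differentiableAt
  have hc := hd.apply_eq_apply_of_bounded (IsZLattice.isCompact_range_of_periodic L.lattice _
    hd.continuous fun z l hl ↦ by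
      obtain ⟨g, hg, h⟩ := hf (z + l)
      rw [reg_eq hg.continuousAt h]
      refine (reg_eq (g := fun w ↦ g (w + l)) (hg.continuousAt.comp_of_eq (by fun_prop) rfl) ?_).symm
      filter_upwards [(t_add z l).eventually h, ev_iff.1 (per l hl) z] with w hw hw'
      rw [← hw, hw']).isBounded
  refine ⟨reg f 0, ev_iff.2 fun x ↦ ?_⟩
  obtain ⟨g, hg, h⟩ := hf x
  filter_upwards [h, mem_nhdsWithin_of_mem_nhds (reg_ev hg h)] with w h1 h2
  rw [h1, h2, hc w 0]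

/-- the regular function `z ^ 2 ℘ z` -/
noncomputable def P0 (z : ℂ) : ℂ := 1 + z ^ 2 * ℘[L - (0 : ℂ)] z

theorem an_P0 : AnalyticAt ℂ (P0 L) 0 := by
  have := L.analyticAt_weierstrassPExcept 0
  unfold P0
  fun_prop

theorem P0_zero : P0 L 0 = 1 := by simp [P0]

theorem P0_eq {z : ℂ} (hz : z ≠ 0) : P0 L z = z ^ 2 * ℘[L] z := by
  have := L.weierstrassPExcept_add ⟨0, L.lattice.zero_mem⟩ z
  simp only [sub_zero, ne_eq, OfNat.ofNat_ne_zero, not_false_eq_true, zero_pow, div_zero] at this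
  rw [← this, P0]
  field_simp
  ring

theorem per_wp {z l : ℂ} (hl : l ∈ L.lattice) : ℘[L] (z + l) = ℘[L] z :=
  L.weierstrassP_add_coe z ⟨l, hl⟩

theorem per_wp' {z l : ℂ} (hl : l ∈ L.lattice) : ℘'[L] (z + l) = ℘'[L] z :=
  L.derivWeierstrassP_add_coe z ⟨l, hl⟩

/-- an even germ that vanishes at the origin is divisible by `z ^ 2` -/
theorem even_div {h : ℂ → ℂ} (hh : AnalyticAt ℂ h 0) (h0 : h 0 = 0)
    (he : ∀ᶠ z in 𝓝[≠] (0 : ℂ), h (-z) = h z) :
    ∃ k, AnalyticAt ℂ k 0 ∧ ∀ᶠ z in 𝓝[≠] (0 : ℂ), h z = z ^ 2 * k z := by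
  have d1 : ∀ {u : ℂ → ℂ}, AnalyticAt ℂ u 0 → u 0 = 0 →
      AnalyticAt ℂ (dslope u 0) 0 ∧ ∀ z, u z = z * dslope u 0 z := fun {u} hu hu0 ↦ by
    obtain ⟨p, hp⟩ := hu
    refine ⟨⟨_, hp.has_fpower_series_dslope_fslope⟩, fun z ↦ ?_⟩
    have := sub_smul_dslope u 0 z
    simpa [hu0] using this.symm
  obtain ⟨a1, e1⟩ := d1 hh h0
  have k0 : dslope h 0 0 = 0 := by
    have t1 : Tendsto (dslope h 0) (𝓝[≠] 0) (𝓝 (dslope h 0 0)) :=
      a1.continuousAt.tendsto.mono_left nhdsWithin_le_nhds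
    have t2 : Tendsto (fun z : ℂ ↦ -dslope h 0 (-z)) (𝓝[≠] 0) (𝓝 (-dslope h 0 0)) := by
      have := t_mul 0 (c := -1) (by simp)
      simp only [neg_mul, one_mul, neg_zero] at this
      exact (t1.comp this).neg
    have t3 : (fun z : ℂ ↦ -dslope h 0 (-z)) =ᶠ[𝓝[≠] 0] dslope h 0 := by
      filter_upwards [he, self_mem_nhdsWithin] with z hz hz0
      rw [e1 z, e1 (-z)] at hz
      exact mul_left_cancel₀ hz0 (by linear_combination hz)
    have := tendsto_nhds_unique (t2.congr' t3) t1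
    linear_combination -this / 2
  obtain ⟨a2, e2⟩ := d1 a1 k0
  exact ⟨_, a2, Eventually.of_forall fun z ↦ by rw [e1 z, e2 z]; ring⟩

/-- even elliptic functions with poles only on the lattice are polynomials in `℘` -/
theorem even_poly (n : ℕ) : ∀ {g : ℂ → ℂ}, Per L.lattice g → (∀ z ∉ L.lattice, Rem g z) →
    (∀ᶠ z in codiscrete ℂ, g (-z) = g z) → Rem (fun z ↦ z ^ (2 * n) * g z) 0 →
    ∃ A : ℂ[X], ∀ᶠ z in codiscrete ℂ, g z = A.eval (℘[L] z) := by
  induction n with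
  | zero =>
    intro g per h1 _ h0
    obtain ⟨c, hc⟩ := liouville L per fun z ↦ by
      by_cases hz : z ∈ L.lattice
      · refine Rem.of_add (per _ (L.lattice.neg_mem hz)) ?_
        simpa using h0
      · exact h1 z hz
    exact ⟨C c, by simpa using hc⟩
  | succ n ih =>
    intro g per h1 he ⟨h, hh, e⟩
    have hP := an_P0 L
    have e1 : ∀ᶠ z in 𝓝[≠] (0 : ℂ), h z - h 0 * P0 L z ^ (n + 1) =
        z ^ (2 * (n + 1)) * (g z - h 0 * ℘[L] z ^ (n + 1)) := by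
      filter_upwards [e, self_mem_nhdsWithin] with z hz hz0
      rw [← hz, P0_eq L hz0]
      ring
    obtain ⟨k, hk, e2⟩ := even_div (h := fun z ↦ h z - h 0 * P0 L z ^ (n + 1)) (by fun_prop)
      (by simp [P0_zero]) (by
        have := t_mul 0 (c := -1) (by simp)
        simp only [neg_mul, one_mul, neg_zero] at this
        filter_upwards [e1, this.eventually e1, ev_iff.1 he 0] with z a1 a2 a3
        rw [a1, a2, a3, weierstrassP_neg, pow_mul, pow_mul, neg_sq])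
    obtain ⟨A, hA⟩ := ih (g := fun z ↦ g z - h 0 * ℘[L] z ^ (n + 1))
      (fun l hl ↦ (per l hl).mono fun z hz ↦ by simp only [hz, per_wp L hl])
      (fun z hz ↦ (h1 z hz).sub (Rem.of_an (by
        have := L.analyticOnNhd_weierstrassP z hz
        fun_prop)))
      (he.mono fun z hz ↦ by simp only [hz, weierstrassP_neg])
      ⟨k, hk, by
        filter_upwards [e1, e2, self_mem_nhdsWithin] with z a1 a2 hz0
        refine mul_left_cancel₀ (pow_ne_zero 2 hz0) ?_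
        rw [← a2, a1]
        ring⟩
    refine ⟨A + C (h 0) * X ^ (n + 1), hA.mono fun z hz ↦ ?_⟩
    simp only [eval_add, eval_mul, eval_C, eval_pow, eval_X, ← hz]
    ring

theorem exists_compact : ∃ K : Set ℂ, IsCompact K ∧ ∀ z, ∃ l ∈ L.lattice, z + l ∈ K := by
  refine ⟨closure (ZSpan.fundamentalDomain L.basis),
    (ZSpan.fundamentalDomain_isBounded L.basis).isCompact_closure, fun z ↦
    ⟨-ZSpan.floor L.basis z, L.lattice.neg_mem ?_, subset_closure ?_⟩⟩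
  · rw [lattice_eq_span_range_basis]
    exact (ZSpan.floor L.basis z).2
  · exact ZSpan.fract_mem_fundamentalDomain L.basis z

theorem an_eval (A : ℂ[X]) {z : ℂ} (hz : z ∉ L.lattice) :
    AnalyticAt ℂ (fun w ↦ A.eval (℘[L] w)) z :=
  (A.differentiable.analyticAt _).comp (L.analyticOnNhd_weierstrassP z hz)

theorem mero_eval (A : ℂ[X]) : Meromorphic fun w ↦ A.eval (℘[L] w) := by
  induction A using Polynomial.induction_on' with
  | add p q hp hq =>
    simp only [eval_add]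
    exact hp.add hq
  | monomial n a =>
    simp only [eval_monomial]
    fun_prop

/-- the poles off the lattice are removed by a polynomial in `℘` -/
theorem kill {f : ℂ → ℂ} (hf : Meromorphic f) (per : Per L.lattice f) :
    ∃ Cc : ℂ[X], Cc ≠ 0 ∧ ∀ z ∉ L.lattice, Rem (fun w ↦ Cc.eval (℘[L] w) * f w) z := by
  classical
  obtain ⟨K, hK, hKl⟩ := exists_compact L
  have h1 : ∀ a : ℂ, ∃ (n : ℕ) (U : Set ℂ), U ∈ 𝓝 a ∧ (∀ w ∈ U, w ≠ a → AnalyticAt ℂ f w) ∧
      (a ∉ L.lattice → Rem (fun w ↦ (℘[L] w - ℘[L] a) ^ n * f w) a) := fun a ↦ by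
    obtain ⟨n, hn⟩ := hf a
    refine ⟨n, _, eventually_nhdsWithin_iff.1 (hf a).eventually_analyticAt, fun w hw ↦ hw,
      fun ha ↦ ?_⟩
    obtain ⟨p, hp⟩ := L.analyticOnNhd_weierstrassP a ha
    have h2 : AnalyticAt ℂ (dslope ℘[L] a) a := ⟨_, hp.has_fpower_series_dslope_fslope⟩
    refine ⟨_, (h2.pow n).mul hn, Eventually.of_forall fun w ↦ ?_⟩
    simp only [← sub_smul_dslope ℘[L] a w, smul_eq_mul, Pi.mul_apply, Pi.pow_apply, mul_pow]
    ring
  choose n U hU h2 h3 using h1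
  obtain ⟨t, -, ht⟩ := hK.elim_nhds_subcover U fun a _ ↦ hU a
  refine ⟨∏ a ∈ t, (X - C (℘[L] a)) ^ n a,
    Finset.prod_ne_zero_iff.2 fun a _ ↦ pow_ne_zero _ (X_sub_C_ne_zero _), fun z hz ↦ ?_⟩
  obtain ⟨l, hl, hzl⟩ := hKl z
  refine Rem.of_add (l := l) ((per l hl).mono fun w hw ↦ by simp only [hw, per_wp L hl]) ?_
  have hz' : z + l ∉ L.lattice := fun h ↦ hz (by simpa using L.lattice.sub_mem h hl)
  generalize z + l = y at hzl hz'
  by_cases hy : y ∈ t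
  · refine ((Rem.of_an (an_eval L (∏ a ∈ t.erase y, (X - C (℘[L] a)) ^ n a) hz')).mul
      (h3 y hz')).congr (Eventually.of_forall fun w ↦ ?_)
    simp only [← Finset.prod_erase_mul t _ hy, eval_mul, eval_pow, eval_sub, eval_X, eval_C]
    ring
  · obtain ⟨a, ha, hya⟩ := Set.mem_iUnion₂.1 (ht hzl)
    exact Rem.of_an ((an_eval L _ hz').mul (h2 a y hya fun h ↦ hy (h ▸ ha)))

theorem even_struct {f : ℂ → ℂ} (hf : Meromorphic f) (per : Per L.lattice f)
    (he : ∀ᶠ z in codiscrete ℂ, f (-z) = f z) : ∃ A Cc : ℂ[X], Cc ≠ 0 ∧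
      ∀ᶠ z in codiscrete ℂ, Cc.eval (℘[L] z) * f z = A.eval (℘[L] z) := by
  obtain ⟨Cc, h0, h1⟩ := kill L hf per
  obtain ⟨n, hn⟩ := ((mero_eval L Cc).mul hf) 0
  obtain ⟨A, hA⟩ := even_poly L n (g := fun w ↦ Cc.eval (℘[L] w) * f w)
    (fun l hl ↦ (per l hl).mono fun w hw ↦ by simp only [hw, per_wp L hl]) h1
    (he.mono fun z hz ↦ by simp only [hz, weierstrassP_neg])
    ⟨_, (analyticAt_id.pow n).mul hn, Eventually.of_forall fun w ↦ by
      simp only [sub_zero, smul_eq_mul, Pi.mul_apply, Pi.pow_apply, id]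
      ring⟩
  exact ⟨A, Cc, h0, hA⟩

/-- the cubic `4 X ^ 3 - g₂ X - g₃` -/
noncomputable def cub : ℂ[X] := C 4 * X ^ 3 - C L.g₂ * X - C L.g₃

theorem cub_ne : cub L ≠ 0 := fun h ↦ by
  have := congrArg (coeff · 3) h
  simp [cub] at this

theorem eval_cub {z : ℂ} (hz : z ∉ L.lattice) : (cub L).eval (℘[L] z) = ℘'[L] z ^ 2 := by
  simp [cub, L.derivWeierstrassP_sq z hz]

theorem mero_neg {f : ℂ → ℂ} (hf : Meromorphic f) : Meromorphic fun z ↦ f (-z) := fun z ↦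
  (hf (-z)).comp_analyticAt (g := fun z ↦ -z) (by fun_prop)

theorem Per.neg {f : ℂ → ℂ} (per : Per L.lattice f) : Per L.lattice fun z ↦ f (-z) := fun l hl ↦
  (ev_neg (per _ (L.lattice.neg_mem hl))).mono fun z hz ↦ by simp only [neg_add, hz]

/-- structure of elliptic functions -/
theorem ell_struct {f : ℂ → ℂ} (hf : Meromorphic f) (per : Per L.lattice f) :
    ∃ A B Cc : ℂ[X], Cc ≠ 0 ∧ ∀ᶠ z in codiscrete ℂ,
      Cc.eval (℘[L] z) * f z = A.eval (℘[L] z) + B.eval (℘[L] z) * ℘'[L] z := by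
  have hn := mero_neg hf
  have pn := Per.neg L per
  obtain ⟨A1, C1, c1, e1⟩ := even_struct L (f := fun z ↦ f z + f (-z)) (hf.add hn)
    (fun l hl ↦ by filter_upwards [per l hl, pn l hl] with z a b using by rw [a, b])
    (Eventually.of_forall fun z ↦ by rw [neg_neg, add_comm])
  obtain ⟨A2, C2, c2, e2⟩ := even_struct L (f := fun z ↦ (f z - f (-z)) * ℘'[L] z)
    ((hf.sub hn).mul L.meromorphic_derivWeierstrassP)
    (fun l hl ↦ by filter_upwards [per l hl, pn l hl] with z a b using by rw [a, b, per_wp' L hl])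
    (Eventually.of_forall fun z ↦ by rw [neg_neg, derivWeierstrassP_neg]; ring)
  refine ⟨C2 * A1 * cub L, C1 * A2, C 2 * C1 * C2 * cub L,
    mul_ne_zero (mul_ne_zero (mul_ne_zero (by simp) c1) c2) (cub_ne L), ?_⟩
  filter_upwards [e1, e2, ev_notMem L] with z a b hz
  simp only [eval_mul, eval_C, eval_cub L hz, ← a, ← b]
  ring

end Pool.Agent.Lib.ECM.CJ
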