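import Pool.Agent.Lib.ECM.CJ2
import Pool.Agent.Lib.ZP3.JBasic
import Pool.Agent.Lib.RC.Aut89

/-! Block CONJ, part three: conjugate lattices. -/

open Complex Filter Topology PeriodPair UpperHalfPlane
open scoped Real

namespace Pool.Agent.Lib.ECM.CJ

open Pool.Agent.Lib.ZP3 Pool.Agent.Lib.ZP3.WDE Pool.Agent.Lib.MP_0704bf_ag

theorem G_congr {L L' : PeriodPair} (h : L.lattice = L'.lattice) (n : ℕ) : L.G n = L'.G n := by
  unfold PeriodPair.G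
  rw [h]

theorem exists_pp (L : PeriodPair) :
    ∃ (τ : ℍ) (Ω : ℂ) (h : Ω ≠ 0), (pp τ h).lattice = L.lattice := by
  have hi := LinearIndependent.pair_iff.1 L.indep
  have h2 : L.ω₂ ≠ 0 := fun h ↦ by simpa using (hi 0 1 (by simp [h])).2
  have h1 : (L.ω₁ / L.ω₂).im ≠ 0 := fun h ↦ by
    have e : L.ω₁ / L.ω₂ = (L.ω₁ / L.ω₂).re := Complex.ext (by simp) (by simp [h])
    have := (hi 1 (-(L.ω₁ / L.ω₂).re) (by
      rw [one_smul, real_smul, ofReal_neg, ← e]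
      field_simp
      ring)).1
    simp at this
  rcases lt_or_gt_of_ne h1 with h | h
  · refine ⟨⟨-(L.ω₁ / L.ω₂), by simpa using h⟩, L.ω₂, h2, ?_⟩
    ext z
    rw [mem_pp, mem_lattice]
    constructor
    · rintro ⟨m, n, rfl⟩
      exact ⟨-n, m, by push_cast; field_simp; ring⟩
    · rintro ⟨m, n, rfl⟩
      exact ⟨n, -m, by push_cast; field_simp; ring⟩
  · refine ⟨⟨L.ω₁ / L.ω₂, h⟩, L.ω₂, h2, ?_⟩
    ext z
    rw [mem_pp, mem_lattice]
    constructor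
    · rintro ⟨m, n, rfl⟩
      exact ⟨n, m, by push_cast; field_simp; ring⟩
    · rintro ⟨m, n, rfl⟩
      exact ⟨n, m, by push_cast; field_simp; ring⟩

/-- a discrete group containing a lattice is a lattice -/
theorem exists_lattice (Γ : AddSubgroup ℂ) (L : PeriodPair) (hle : ∀ w ∈ L.lattice, w ∈ Γ)
    (sep : ∃ ρ : ℝ, 0 < ρ ∧ ∀ w ∈ Γ, w ≠ 0 → ρ ≤ ‖w‖) :
    ∃ M : PeriodPair, ∀ w, w ∈ M.lattice ↔ w ∈ Γ := by
  obtain ⟨ρ, hρ, h⟩ := sep
  let S : Submodule ℤ ℂ := AddSubgroup.toIntSubmodule Γ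
  have : DiscreteTopology S := by
    refine discreteTopology_of_isOpen_singleton_zero ?_
    refine ⟨Metric.ball 0 ρ, Metric.isOpen_ball, ?_⟩
    ext ⟨x, hx⟩
    simp only [Set.mem_preimage, mem_ball_zero_iff, Set.mem_singleton_iff, Submodule.mk_eq_zero]
    refine ⟨fun h1 ↦ ?_, fun h1 ↦ by simpa [h1] using hρ⟩
    by_contra h0
    exact absurd (h x hx h0) (not_le.2 h1)
  have : IsZLattice ℝ S := ⟨by
    rw [eq_top_iff, ← L.basis.span_eq]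
    refine Submodule.span_mono ?_
    rintro _ ⟨i, rfl⟩
    fin_cases i
    · exact hle _ (by simpa using L.ω₁_mem_lattice)
    · exact hle _ (by simpa using L.ω₂_mem_lattice)⟩
  have := ZLattice.module_free ℝ S
  have := ZLattice.module_finite ℝ S
  let b := Module.finBasisOfFinrankEq ℤ S ((ZLattice.rank ℝ S).trans Complex.finrank_real_complex)
  let c := b.ofZLatticeBasis ℝ S
  have e : (![c 0, c 1] : Fin 2 → ℂ) = c := by
    funext i
    fin_cases i <;> rfl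
  refine ⟨⟨c 0, c 1, e ▸ c.linearIndependent⟩, fun w ↦ ?_⟩
  have e2 : Set.range c = {c 0, c 1} := by
    rw [← e]
    simp [Set.pair_comm]
  change w ∈ Submodule.span ℤ {c 0, c 1} ↔ w ∈ S
  rw [← e2, Module.Basis.ofZLatticeBasis_span]

theorem g2_pp (τ : ℍ) {Ω : ℂ} (h : Ω ≠ 0) :
    (pp τ h).g₂ = 4 * (π : ℂ) ^ 4 / 3 * ModularForm.E₄ τ / Ω ^ 4 := (isEll_pp τ h).2.1

theorem g3_pp (τ : ℍ) {Ω : ℂ} (h : Ω ≠ 0) :
    (pp τ h).g₃ = 8 * (π : ℂ) ^ 6 / 27 * ModularForm.E₆ τ / Ω ^ 6 := (isEll_pp τ h).2.2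

theorem disc_pp (τ : ℍ) {Ω : ℂ} (h : Ω ≠ 0) : (pp τ h).g₂ ^ 3 - 27 * (pp τ h).g₃ ^ 2 =
    (2 * π) ^ 12 * ModularForm.discriminant τ / Ω ^ 12 := by
  rw [g2_pp, g3_pp, ModularForm.discriminant_eq_E₄_cube_sub_E₆_sq]
  field_simp
  ring

theorem disc_pp_ne (τ : ℍ) {Ω : ℂ} (h : Ω ≠ 0) : (pp τ h).g₂ ^ 3 - 27 * (pp τ h).g₃ ^ 2 ≠ 0 := by
  have := ModularForm.discriminant_ne_zero τ
  have : (π : ℂ) ≠ 0 := ofReal_ne_zero.2 Real.pi_ne_zero
  rw [disc_pp]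
  exact div_ne_zero (mul_ne_zero (by simp) (by assumption)) (pow_ne_zero _ h)

theorem j_pp (τ : ℍ) {Ω : ℂ} (h : Ω ≠ 0) :
    jInv τ * ((pp τ h).g₂ ^ 3 - 27 * (pp τ h).g₃ ^ 2) = 1728 * (pp τ h).g₂ ^ 3 := by
  have := ModularForm.discriminant_ne_zero τ
  rw [disc_pp, g2_pp, jInv]
  field_simp
  ring

variable {σ : ℂ →+* ℂ}

/-- the conjugate lattice with prescribed shape -/
theorem unif {τ τ' : ℍ} (hj : jInv τ' = σ (jInv τ)) {Ω : ℂ} (h : Ω ≠ 0) :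
    ∃ (Ω' : ℂ) (h' : Ω' ≠ 0), (pp τ' h').g₂ = σ (pp τ h).g₂ ∧ (pp τ' h').g₃ = σ (pp τ h).g₃ := by
  have d := (map_ne_zero σ).2 (disc_pp_ne τ h)
  have d' := disc_pp_ne τ' one_ne_zero
  have e := congrArg σ (j_pp τ h)
  have e' := j_pp τ' one_ne_zero
  simp only [map_mul, map_sub, map_pow, map_ofNat, ← hj] at d e
  obtain ⟨Ω', h', h4, h6⟩ := JB.exists_scale (a := σ (pp τ h).g₂) (b := σ (pp τ h).g₃)
    (a' := (pp τ' one_ne_zero).g₂) (b' := (pp τ' one_ne_zero).g₃) (div_ne_zero d' d)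
    (by
      rw [div_mul_eq_mul_div, eq_div_iff d]
      linear_combination (((pp τ' one_ne_zero).g₂ ^ 3 - 27 * (pp τ' one_ne_zero).g₃ ^ 2) * e -
        (σ (pp τ h).g₂ ^ 3 - 27 * σ (pp τ h).g₃ ^ 2) * e') / 1728)
    (by
      rw [div_mul_eq_mul_div, eq_div_iff d]
      linear_combination (((pp τ' one_ne_zero).g₂ ^ 3 - 27 * (pp τ' one_ne_zero).g₃ ^ 2) * e -
        (σ (pp τ h).g₂ ^ 3 - 27 * σ (pp τ h).g₃ ^ 2) * e') / 46656)
  rw [g2_pp, one_pow, div_one] at h4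
  rw [g3_pp, one_pow, div_one] at h6
  refine ⟨Ω', h', ?_, ?_⟩
  · rw [g2_pp τ', h4]
    field_simp
  · rw [g3_pp τ', h6]
    field_simp

theorem exists_conj_lattice (σ : ℂ →+* ℂ) (L : PeriodPair) :
    ∃ L' : PeriodPair, L'.g₂ = σ L.g₂ ∧ L'.g₃ = σ L.g₃ := by
  obtain ⟨τ, Ω, h, e⟩ := exists_pp L
  obtain ⟨τ', -, hj⟩ := j_surj (σ (jInv τ))
  obtain ⟨Ω', h', a, b⟩ := unif hj h
  exact ⟨_, by rw [a, g₂, g₂, G_congr e], by rw [b, g₃, g₃, G_congr e]⟩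

/-- conversely the invariants determine `j` -/
theorem j_conj {τ τ' : ℍ} {Ω Ω' : ℂ} {h : Ω ≠ 0} {h' : Ω' ≠ 0}
    (h2 : (pp τ' h').g₂ = σ (pp τ h).g₂) (h3 : (pp τ' h').g₃ = σ (pp τ h).g₃) :
    jInv τ' = σ (jInv τ) := by
  have e := congrArg σ (j_pp τ h)
  simp only [map_mul, map_sub, map_pow, map_ofNat, ← h2, ← h3] at e
  exact mul_right_cancel₀ (disc_pp_ne τ' h') ((j_pp τ' h').trans e.symm)

theorem mem_of_per {L : PeriodPair} {w : ℂ} (h : ∀ᶠ z in codiscrete ℂ, ℘[L] (z + w) = ℘[L] z) :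
    w ∈ L.lattice := by
  by_contra hw
  refine (wdOf L).not_ev_eq (h := fun z ↦ ℘[L] (z + w)) ?_ ((ev_iff.1 h 0).mono fun z hz ↦ hz.symm)
  exact (L.analyticOnNhd_weierstrassP w hw).continuousAt.comp_of_eq (by fun_prop) (zero_add w)

theorem lattice_mono {L L' M M' : PeriodPair} (h2 : L'.g₂ = σ L.g₂) (h3 : L'.g₃ = σ L.g₃)
    (k2 : M'.g₂ = σ M.g₂) (k3 : M'.g₃ = σ M.g₃) (h : L.lattice ≤ M.lattice) :
    L'.lattice ≤ M'.lattice := fun w hw ↦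
  mem_of_per (transport h2 h3 M.meromorphic_weierstrassP M'.meromorphic_weierstrassP
    (cjM_wp k2 k3) (fun _ hl ↦ Eventually.of_forall fun _ ↦ per_wp M (h hl)) w hw)

/-- the exact period lattice is transported by automorphisms -/
theorem per_le {σ : ℂ ≃+* ℂ} {ι : Type} {f g : ι → ℂ → ℂ} (hf : ∀ i, Meromorphic (f i))
    (hg : ∀ i, Meromorphic (g i)) (h : ∀ i, CjM σ (f i) (g i)) {L L' M : PeriodPair}
    (h2 : L'.g₂ = σ L.g₂) (h3 : L'.g₃ = σ L.g₃)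
    (hL : ∀ w, (∀ i, ∀ᶠ z in codiscrete ℂ, f i (z + w) = f i z) → w ∈ L.lattice)
    (hM : ∀ i, Per M.lattice (g i)) : M.lattice ≤ L'.lattice := by
  obtain ⟨N, a, b⟩ := exists_conj_lattice (σ.symm : ℂ →+* ℂ) M
  refine lattice_mono (σ := σ) (L := N) (M := L) (by simp [a]) (by simp [b]) h2 h3 fun w hw ↦ ?_
  exact hL w fun i ↦ transport a b (hg i) (hf i) (h i).symm (hM i) w hw

/-- a ring homomorphism agrees with an automorphism on countably many numbers -/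
theorem exists_aut (σ : ℂ →+* ℂ) {S : Set ℂ} (hS : S.Countable) :
    ∃ ρ : ℂ ≃+* ℂ, ∀ x ∈ S, ρ x = σ x := by
  have : Countable (Subfield.closure S) := by
    rw [← Cardinal.mk_le_aleph0_iff]
    exact (Subfield.cardinalMk_closure_le_max S).trans
      (max_le (Cardinal.le_aleph0_iff_set_countable.2 hS) le_rfl)
  obtain ⟨ρ, hρ⟩ := Pool.Agent.RC.H89.exists_aut_of_injective (Subfield.closure S).subtype
    (σ.comp (Subfield.closure S).subtype) Subtype.val_injective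
    (σ.injective.comp Subtype.val_injective)
  exact ⟨ρ, fun x hx ↦ hρ ⟨x, Subfield.subset_closure hx⟩⟩

/-- units of a lattice are twelfth roots of unity -/
theorem unit_pow (τ : ℍ) {Ω c : ℂ} (h : Ω ≠ 0) (hc : c ≠ 0)
    (e : ∀ w, c * w ∈ (pp τ h).lattice ↔ w ∈ (pp τ h).lattice) : c ^ 12 = 1 := by
  have e1 : (pp τ (mul_ne_zero hc h)).lattice = (pp τ h).lattice := by
    ext w
    rw [← mul_inv_cancel_left₀ hc w, e, mem_pp, mem_pp]
    refine exists₂_congr fun m n ↦ ?_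
    rw [mul_assoc c Ω, mul_right_inj' hc]
  have e2 := disc_pp τ (mul_ne_zero hc h)
  rw [g₂, g₃, G_congr e1, G_congr e1, ← g₂, ← g₃, disc_pp] at e2
  have := ModularForm.discriminant_ne_zero τ
  have : (π : ℂ) ≠ 0 := ofReal_ne_zero.2 Real.pi_ne_zero
  field_simp at e2
  exact e2

end Pool.Agent.Lib.ECM.CJ
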