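import Pool.Agent.Lib.ECM.CJ3
import Pool.Agent.Lib.ECM.THBlue

/-! Block CONJ, part four: conjugation of a period matrix with an elliptic line. -/

open Complex Filter Topology PeriodPair UpperHalfPlane
open scoped Real

namespace Pool.Agent.Lib.ECM.CJ

open Pool.Agent.Lib.ZP3 Pool.Agent.Lib.ZP3.WDE Pool.Agent.Lib.MP_0704bf_ag

/-- the facts on theta functions that are used -/
structure TH : Prop where
  bas : St_BAS
  herm : St_HERM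
  lin : St_LIN
  gauge : St_GAUGE
  inj : St_INJ
  jet : St_JET

variable {τ τ' : T3} {u v u' v' : V2} {σ : ℂ →+* ℂ}

theorem ll_smul (m : Ch) (τ : T3) (c : ℂ) (v : V2) : ll m τ (c • v) = c * ll m τ v :=
  map_smul (fderiv ℂ (th m τ) 0) c v

theorem ll_add (m : Ch) (τ : T3) (v w : V2) : ll m τ (v + w) = ll m τ v + ll m τ w :=
  map_add (fderiv ℂ (th m τ) 0) v w

theorem gen_k0 (h : Gen τ) : kk 0 τ ≠ 0 := h 0 (by decide)

/-- the numbers `w` with `w v` in the lattice -/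
def grp (H : TH) (τ : T3) (v : V2) : AddSubgroup ℂ where
  carrier := {w | w • v ∈ Lat τ}
  zero_mem' := by simpa using H.bas.lat_zero τ
  add_mem' := fun {a b} ha hb ↦ by simpa [add_smul] using H.bas.lat_add τ _ ha _ hb
  neg_mem' := fun {a} ha ↦ by simpa using H.bas.lat_smul τ (-1) _ ha

theorem grp_sep (H : TH) (hτ : τ ∈ H2) (hv : v ≠ 0) :
    ∃ ρ : ℝ, 0 < ρ ∧ ∀ w ∈ grp H τ v, w ≠ 0 → ρ ≤ ‖w‖ := by
  obtain ⟨μ, hμ, h⟩ := H.herm.disc τ hτ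
  have hp := H.herm.pos τ hτ v hv
  refine ⟨√(μ / Hn τ v), by positivity, fun w hw h0 ↦ ?_⟩
  have := h _ hw (smul_ne_zero h0 hv)
  rw [H.herm.smul, normSq_eq_norm_sq] at this
  exact Real.sqrt_le_iff.2 ⟨norm_nonneg _, (div_le_iff₀ hp).2 this⟩

theorem pp_le (H : TH) {τ0 : ℍ} {Ω : ℂ} (h : Ω ≠ 0) (h1 : Ω • v ∈ Lat τ)
    (h2 : (Ω * τ0) • v ∈ Lat τ) : ∀ w ∈ (pp τ0 h).lattice, w ∈ grp H τ v := by
  intro w hw
  obtain ⟨m, n, rfl⟩ := (mem_pp τ0 h w).1 hw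
  have := (grp H τ v).add_mem ((grp H τ v).zsmul_mem (x := Ω) h1 m)
    ((grp H τ v).zsmul_mem (x := Ω * τ0) h2 n)
  convert this using 1
  simp only [zsmul_eq_mul]
  ring

/-- theta quotients on the line -/
noncomputable def qt (m : Ch) (τ : T3) (v : V2) (t : ℂ) : ℂ :=
  th m τ (t • (2 : ℂ) • v) / th 0 τ (t • (2 : ℂ) • v)

theorem mero_th (H : TH) (hτ : τ ∈ H2) (m : Ch) (v : V2) : Meromorphic fun t : ℂ ↦ th m τ (t • v) :=
  fun t ↦ (((H.bas.diff_th m τ hτ).comp (f := fun t : ℂ ↦ t • v) (by fun_prop)).analyticAt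
    t).meromorphicAt

theorem mero_qt (H : TH) (hτ : τ ∈ H2) (m : Ch) (v : V2) : Meromorphic (qt m τ v) :=
  (mero_th H hτ m _).div (mero_th H hτ 0 _)

theorem qt_per (H : TH) (m : Ch) {w : ℂ} (hw : w • v ∈ Lat τ) (z : ℂ) :
    qt m τ v (z + w) = qt m τ v z := by
  obtain ⟨μ, ν, e⟩ := hw
  have e1 : (z + w) • (2 : ℂ) • v = z • (2 : ℂ) • v + per τ (iv ((2 : ℤ) • μ)) (iv ((2 : ℤ) • ν)) := by
    rw [add_smul, smul_comm w, e]
    congr 1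
    funext i
    fin_cases i <;> simp [per, iv] <;> ring
  have e2 : ∀ k : Ch, exp (2 * π * Complex.I * (dot (ca k) (iv ((2 : ℤ) • μ)) -
      dot (cb k) (iv ((2 : ℤ) • ν)))) = 1 := fun k ↦
    exp_eq_one_iff.2 ⟨k.1.val * μ.1 + k.2.1.val * μ.2 - k.2.2.1.val * ν.1 - k.2.2.2.val * ν.2, by
      simp only [dot, ca, cb, iv, Matrix.cons_val_zero, Matrix.cons_val_one, Prod.smul_fst,
        Prod.smul_snd, smul_eq_mul]
      push_cast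
      ring⟩
  rw [qt, qt, e1, H.bas.th_per, H.bas.th_per, e2, e2, one_mul,
    mul_div_mul_left _ _ (exp_ne_zero _)]

theorem mem_of_qt (H : TH) (hτ : τ ∈ H2) (h0 : kk 0 τ ≠ 0) {w : ℂ}
    (h : ∀ m, ∀ᶠ z in codiscrete ℂ, qt m τ v (z + w) = qt m τ v z) : w • v ∈ Lat τ := by
  have h1 : ∀ᶠ z in codiscrete ℂ, th 0 τ (z • (2 : ℂ) • v) ≠ 0 := by
    refine (dich (mero_th H hτ 0 _)).resolve_left fun h ↦ ?_
    have c : ContinuousAt (fun z : ℂ ↦ th 0 τ (z • (2 : ℂ) • v)) 0 :=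
      ((H.bas.diff_th 0 τ hτ).continuous.comp (by fun_prop)).continuousAt
    obtain ⟨z, a, b⟩ := ((ev_iff.1 h 0).and (mem_nhdsWithin_of_mem_nhds
      (c.eventually_ne (y := 0) (by simpa [kk] using h0)))).exists
    exact b a
  obtain ⟨z, a, b, c⟩ := (ev_iff.1 (h1.and ((ev_add h1 w).and (eventually_all.2 h))) 0).exists
  obtain ⟨l, hl, e⟩ := H.inj τ hτ ((z + w) • (2 : ℂ) • v) (z • (2 : ℂ) • v) fun m m' ↦ by
    have c1 := c m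
    have c2 := c m'
    rw [qt, qt, div_eq_div_iff b a] at c1 c2
    refine mul_left_cancel₀ a ?_
    linear_combination th m' τ (z • (2 : ℂ) • v) * c1 - th m τ (z • (2 : ℂ) • v) * c2
  rw [add_smul, add_sub_cancel_left, smul_comm] at e
  rwa [smul_right_injective V2 (two_ne_zero' ℂ) e]

/-- conjugate data -/
structure Cd (σ : ℂ →+* ℂ) (τ : T3) (u : V2) (τ' : T3) (u' : V2) : Prop where
  mem : τ ∈ H2
  mem' : τ' ∈ H2
  k0 : kk 0 τ ≠ 0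
  k0' : kk 0 τ' ≠ 0
  hk : ∀ m, kk m τ' / kk 0 τ' = σ (kk m τ / kk 0 τ)
  hl : ∀ m, ll m τ' u' / kk 0 τ' = σ (ll m τ u / kk 0 τ)

theorem Cd.cjM (H : TH) (h : Cd σ τ u τ' u') (m : Ch) : CjM σ (qt m τ u) (qt m τ' u') := by
  obtain ⟨a, b, c⟩ := H.jet σ τ h.mem τ' h.mem' ((2 : ℂ) • u) ((2 : ℂ) • u') h.k0 h.k0' h.hk
    (fun m ↦ by rw [ll_smul, ll_smul, mul_div_assoc, mul_div_assoc, map_mul, map_ofNat, h.hl]) m
  exact (cj_of a b c).cjM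

theorem Cd.symm {σ : ℂ ≃+* ℂ} (h : Cd σ τ u τ' u') : Cd σ.symm τ' u' τ u :=
  ⟨h.mem', h.mem, h.k0', h.k0, fun m ↦ by rw [h.hk]; simp only [RingHom.coe_coe, σ.symm_apply_apply],
    fun m ↦ by rw [h.hl]; simp only [RingHom.coe_coe, σ.symm_apply_apply]⟩

/-- T1 for theta functions -/
theorem Cd.le (H : TH) (h : Cd σ τ u τ' u') {L L' : PeriodPair} (h2 : L'.g₂ = σ L.g₂)
    (h3 : L'.g₃ = σ L.g₃) (hL : ∀ w ∈ L.lattice, w • u ∈ Lat τ) :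
    ∀ w ∈ L'.lattice, w • u' ∈ Lat τ' := fun w hw ↦
  mem_of_qt H h.mem' h.k0' fun m ↦ transport h2 h3 (mero_qt H h.mem m u) (mero_qt H h.mem' m u')
    (h.cjM H m) (fun l hl ↦ Eventually.of_forall (qt_per H m (hL l hl))) w hw

/-- T2: the exact lattice is transported -/
theorem Cd.ge (H : TH) (h : Cd σ τ u τ' u') (hu : u' ≠ 0) {L L' : PeriodPair}
    (h2 : L'.g₂ = σ L.g₂) (h3 : L'.g₃ = σ L.g₃) (hL : ∀ w, w • u ∈ Lat τ ↔ w ∈ L.lattice) :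
    ∀ w, w • u' ∈ Lat τ' ↔ w ∈ L'.lattice := by
  obtain ⟨ρ, hρ⟩ := exists_aut σ (S := (Set.range fun m ↦ kk m τ / kk 0 τ) ∪
    (Set.range fun m ↦ ll m τ u / kk 0 τ) ∪ {L.g₂, L.g₃}) (Set.toFinite _).countable
  have h' : Cd ρ τ u τ' u' := ⟨h.mem, h.mem', h.k0, h.k0',
    fun m ↦ (h.hk m).trans (hρ _ (Or.inl (Or.inl ⟨m, rfl⟩))).symm,
    fun m ↦ (h.hl m).trans (hρ _ (Or.inl (Or.inr ⟨m, rfl⟩))).symm⟩
  have hle := h.le H h2 h3 fun w ↦ (hL w).2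
  obtain ⟨M, hM⟩ := exists_lattice (grp H τ' u') L' hle (grp_sep H h.mem' hu)
  exact fun w ↦ ⟨fun hw ↦ per_le (mero_qt H h.mem · u) (mero_qt H h.mem' · u') (h'.cjM H)
    (h2.trans (hρ _ (by simp)).symm) (h3.trans (hρ _ (by simp)).symm)
    (fun w hw ↦ (hL w).1 (mem_of_qt H h.mem h.k0 hw))
    (fun m l hl ↦ Eventually.of_forall (qt_per H m ((hM l).1 hl))) ((hM w).2 hw), hle w⟩

theorem aeval_hom {F : MvPolynomial Ch ℤ} {n : ℕ} (hF : F.IsHomogeneous n) (c : ℂ) (x : Ch → ℂ) :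
    MvPolynomial.aeval (fun m ↦ c * x m) F = c ^ n * MvPolynomial.aeval x F := by
  conv_lhs => rw [F.as_sum]
  conv_rhs => rw [F.as_sum]
  rw [map_sum, map_sum, Finset.mul_sum]
  refine Finset.sum_congr rfl fun d hd ↦ ?_
  have hd' : d.degree = n := by
    have := hF (MvPolynomial.mem_support_iff.mp hd)
    rwa [Finsupp.degree_eq_weight_one]
  rw [MvPolynomial.aeval_monomial, MvPolynomial.aeval_monomial]
  simp only [mul_pow, Finsupp.prod, Finset.prod_mul_distrib]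
  rw [Finset.prod_pow_eq_pow_sum, ← hd', Finsupp.degree_apply]
  ring

theorem gen_conj (hg : Gen τ) (hk : ∀ m, kk m τ' / kk 0 τ' = σ (kk m τ / kk 0 τ)) : Gen τ' :=
  fun m hm h ↦ (map_ne_zero σ).2 (div_ne_zero (hg m hm) (gen_k0 hg)) (by rw [← hk, h, zero_div])

theorem eq_of_ll (H : TH) (hτ : τ ∈ H2) (hg : Gen τ) (a : ll hA τ u = ll hA τ v)
    (b : ll hB τ u = ll hB τ v) : u = v := (H.gauge.ind τ hτ hg).1 (Prod.ext a b)

/-- the conjugate vector exists -/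
theorem exists_cd (H : TH) (hτ : τ ∈ H2) (hτ' : τ' ∈ H2) (hg : Gen τ)
    (hk : ∀ m, kk m τ' / kk 0 τ' = σ (kk m τ / kk 0 τ)) (u : V2) : ∃ u', Cd σ τ u τ' u' := by
  have hg' := gen_conj hg hk
  have k0 := gen_k0 hg
  have k0' := gen_k0 hg'
  obtain ⟨u', hu⟩ := (H.gauge.ind τ' hτ' hg').2
    (kk 0 τ' * σ (ll hA τ u / kk 0 τ), kk 0 τ' * σ (ll hB τ u / kk 0 τ))
  obtain ⟨a, b⟩ := Prod.mk.inj hu
  obtain ⟨P, A, B, h1, h2⟩ := H.lin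
  refine ⟨u', hτ, hτ', k0, k0', hk, fun h ↦ ?_⟩
  obtain ⟨hA3, hB3, c, m₁, m₂, m₃, hc, e1, e2, e3, hP⟩ := h1 h
  have hP3 : (P h).IsHomogeneous 3 := by
    rw [hP]
    exact (((MvPolynomial.isHomogeneous_X _ m₁).mul (MvPolynomial.isHomogeneous_X _ m₂)).mul
      (MvPolynomial.isHomogeneous_X _ m₃)).C_mul c
  have key : ∀ F : MvPolynomial Ch ℤ, F.IsHomogeneous 3 →
      MvPolynomial.aeval (fun m ↦ kk m τ') F =
        kk 0 τ' ^ 3 * σ (MvPolynomial.aeval (fun m ↦ kk m τ) F / kk 0 τ ^ 3) := fun F hF ↦ by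
    have x1 : (fun m ↦ kk m τ') = fun m ↦ kk 0 τ' * σ (kk m τ / kk 0 τ) :=
      funext fun m ↦ by rw [← hk, mul_div_cancel₀ _ k0']
    have x2 : (fun m ↦ kk m τ) = fun m ↦ kk 0 τ * (kk m τ / kk 0 τ) :=
      funext fun m ↦ by rw [mul_div_cancel₀ _ k0]
    rw [x1, aeval_hom hF, x2, aeval_hom hF, mul_div_cancel_left₀ _ (pow_ne_zero 3 k0)]
    exact congrArg _ (DFunLike.congr_fun (MvPolynomial.comp_aeval _ σ.toIntAlgHom) F).symm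
  have hne : MvPolynomial.aeval (fun m ↦ kk m τ') (P h) ≠ 0 := by
    simp [hP, hc, hg' _ e1, hg' _ e2, hg' _ e3]
  have x := congrArg σ (h2 τ hτ h u)
  have s0 := (map_ne_zero σ).2 k0
  rw [div_eq_iff k0']
  refine mul_left_cancel₀ hne ?_
  rw [h2 τ' hτ' h u', a, b, key _ hA3, key _ hB3, key _ hP3]
  simp only [map_mul, map_add, map_div₀, map_pow] at x ⊢
  field_simp
  linear_combination -x

theorem Cd.ne (H : TH) (h : Cd σ τ u τ' u') (hg : Gen τ) (hu : u ≠ 0) : u' ≠ 0 := by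
  rintro rfl
  have z : ∀ (m : Ch) (τ : T3), ll m τ 0 = 0 := fun m τ ↦ map_zero (fderiv ℂ (th m τ) 0)
  have : ∀ m, ll m τ u = ll m τ 0 := fun m ↦ by
    have := h.hl m
    rw [z, zero_div, eq_comm, map_eq_zero, div_eq_zero_iff] at this
    rw [z, this.resolve_right h.k0]
  exact hu (eq_of_ll H h.mem hg (this _) (this _))

/-- CONJ: the conjugate of an elliptic line -/
theorem conj_line (H : TH) (hτ : τ ∈ H2) (hτ' : τ' ∈ H2) (hg : Gen τ)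
    (hk : ∀ m, kk m τ' / kk 0 τ' = σ (kk m τ / kk 0 τ)) {τ0 τ0' : ℍ}
    (hj : jInv τ0' = σ (jInv τ0)) {Ω : ℂ} (hΩ : Ω ≠ 0) (hu : u ≠ 0) (h1 : Ω • u ∈ Lat τ)
    (h2 : (Ω * τ0) • u ∈ Lat τ) : ∃ (u' : V2) (Ω' : ℂ) (hΩ' : Ω' ≠ 0), Gen τ' ∧ u' ≠ 0 ∧
      Cd σ τ u τ' u' ∧ Ω' • u' ∈ Lat τ' ∧ (Ω' * τ0') • u' ∈ Lat τ' ∧
      (pp τ0' hΩ').g₂ = σ (pp τ0 hΩ).g₂ ∧ (pp τ0' hΩ').g₃ = σ (pp τ0 hΩ).g₃ ∧
      (Ω ^ 12 = π ^ 12 * ModularForm.discriminant τ0 →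
        Ω' ^ 12 = π ^ 12 * ModularForm.discriminant τ0') ∧
      ((∀ w : ℂ, w • u ∈ Lat τ → ∃ m n : ℤ, w = Ω * (m + n * τ0)) →
        ∀ w : ℂ, w • u' ∈ Lat τ' → ∃ m n : ℤ, w = Ω' * (m + n * τ0')) := by
  obtain ⟨u', hc⟩ := exists_cd H hτ hτ' hg hk u
  obtain ⟨Ω', hΩ', g2, g3⟩ := unif hj hΩ
  have hle := hc.le H g2 g3 (pp_le H hΩ h1 h2)
  refine ⟨u', Ω', hΩ', gen_conj hg hk, hc.ne H hg hu, hc,
    hle _ ((mem_pp _ hΩ' _).2 ⟨1, 0, by simp⟩), hle _ ((mem_pp _ hΩ' _).2 ⟨0, 1, by simp⟩), g2, g3,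
    fun h ↦ ?_, fun h w hw ↦ (mem_pp _ hΩ' _).1 ((hc.ge H (hc.ne H hg hu) g2 g3
      (fun w ↦ ⟨fun hw ↦ (mem_pp _ hΩ _).2 (h w hw), pp_le H hΩ h1 h2 w⟩) w).1 hw)⟩
  have e := disc_pp τ0 hΩ
  have e' := disc_pp τ0' hΩ'
  rw [mul_pow, mul_assoc, ← h, mul_div_cancel_right₀ _ (pow_ne_zero _ hΩ)] at e
  have e2 := congrArg σ e
  simp only [map_sub, map_mul, map_pow, map_ofNat, ← g2, ← g3] at e2
  rw [e2, eq_div_iff (pow_ne_zero _ hΩ')] at e'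
  linear_combination e' / 2 ^ 12

end Pool.Agent.Lib.ECM.CJ
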