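import Pool.Agent.Lib.ZP3.Hecke2

/-! The congruence relation of Kronecker for singular moduli, and its consequence for conjugation. -/

open UpperHalfPlane PowerSeries
open scoped Real MatrixGroups

namespace Pool.Agent.Lib.ECM.CM

open Pool.Agent.Lib.MP_0704bf_ag Pool.Agent.Lib.helper6 Pool.Agent.Lib.ZP3

theorem frob_ser {p : ℕ} (hp : p.Prime) (J : ℤ⟦X⟧) :
    ∃ W : ℤ⟦X⟧, J ^ p = expand p hp.ne_zero J + C (p : ℤ) * W := by
  have : Fact p.Prime := ⟨hp⟩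
  have h1 : PowerSeries.map (frobenius (ZMod p) p) (expand p hp.ne_zero
      (PowerSeries.map (Int.castRingHom (ZMod p)) J)) =
      PowerSeries.map (Int.castRingHom (ZMod p)) J ^ p :=
    MvPowerSeries.map_frobenius_expand p hp.ne_zero
  rw [ZMod.frobenius_zmod, PowerSeries.map_id, ← PowerSeries.map_expand, ← map_pow] at h1
  have h2 : ∀ m, (p : ℤ) ∣ coeff m (J ^ p - expand p hp.ne_zero J) := by
    intro m
    have h3 := congrArg (coeff m) h1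
    simp only [id, coeff_map, eq_intCast] at h3
    rw [← ZMod.intCast_zmod_eq_zero_iff_dvd, map_sub, Int.cast_sub, h3, sub_self]
  choose w hw using h2
  refine ⟨PowerSeries.mk w, ?_⟩
  ext m
  rw [map_add, coeff_C_mul, coeff_mk, ← hw, map_sub]
  ring

theorem laur_comp {φ : ℍ → ℂ} {M : ℕ} {P : ℂ⟦X⟧} (hP : HasExp 1 (qq 1 ^ M * φ) P) (hI : IntS P)
    {h' : ℝ} (s : ℍ → ℍ) (ζ : ℂ) {d : ℕ} (hd : 0 < d) (hζ : ζ ^ d = 1) {k : ℕ} (hk : 0 < k)
    (hs : ∀ τ, qq 1 (s τ) = ζ * qq h' τ ^ k) : φ ∘ s ∈ laur h' := by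
  have hζi : IsIntegral ℤ ζ := IsIntegral.of_pow hd (hζ ▸ isIntegral_one)
  obtain ⟨e, rfl⟩ : ∃ e, d = e + 1 := ⟨d - 1, by omega⟩
  have h1 := (hasExp_const h' ((ζ ^ e) ^ M)).mul (hP.comp s ζ hk hs)
  refine ⟨k * M, _, ?_, (intS_C ((hζi.pow e).pow M)).mul (hI.dil hζi k)⟩
  have e1 : qq h' ^ (k * M) * φ ∘ s = (fun _ ↦ (ζ ^ e) ^ M) * (qq 1 ^ M * φ) ∘ s := by
    funext τ
    simp only [Pi.mul_apply, Pi.pow_apply, Function.comp_apply, hs]
    rw [← mul_assoc, ← mul_pow, ← mul_assoc, ← pow_succ, hζ, one_mul, pow_mul]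
  rwa [e1]

theorem mem_p {p : ℕ} (hp : p.Prime) : (p, 0, 1) ∈ tris p :=
  (Hk.mem_tris hp.pos).2 ⟨mul_one p, one_pos⟩

theorem coe_p {p : ℕ} (hp : p.Prime) (τ : ℍ) : (tr (p, 0, 1) τ : ℂ) = p * τ := by
  rw [Hk.coe_tr hp.pos one_pos]
  simp

theorem exists_psi {p : ℕ} (hp : p.Prime) : ∃ W : ℂ⟦X⟧, IntS W ∧
    HasExp 1 (qq 1 ^ p * fun τ ↦ (jInv τ ^ p - jInv (tr (p, 0, 1) τ)) / p) W := by
  obtain ⟨Jc, -, hJ⟩ := exists_Jc
  obtain ⟨W, hW⟩ := frob_ser hp (PowerSeries.mk Jc)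
  have hp0 : (p : ℂ) ≠ 0 := by exact_mod_cast hp.ne_zero
  have hs : ∀ τ : ℍ, qq 1 (tr (p, 0, 1) τ) = 1 * qq 1 τ ^ p := by
    intro τ
    simp only [qq, Function.Periodic.qParam, coe_p hp, one_mul, ← Complex.exp_nat_mul]
    congr 1
    ring
  have h1 := (hasExp_const 1 (p : ℂ)⁻¹).mul ((hJ.pow p).sub (hJ.comp _ 1 hp.pos hs))
  have e0 : (PowerSeries.mk fun n ↦ (Jc n : ℂ)) =
      PowerSeries.map (Int.castRingHom ℂ) (PowerSeries.mk Jc) := by
    ext n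
    simp
  have e1 : dil 1 p (PowerSeries.mk fun n ↦ (Jc n : ℂ)) =
      PowerSeries.map (Int.castRingHom ℂ) (expand p hp.ne_zero (PowerSeries.mk Jc)) := by
    ext n
    simp only [dil, coeff_mk, coeff_map, coeff_expand, one_pow, mul_one]
    split_ifs <;> simp
  rw [e1, e0, ← map_pow, ← map_sub, hW, add_sub_cancel_left, map_mul, map_C, ← mul_assoc,
    ← map_mul, eq_intCast, Int.cast_natCast, inv_mul_cancel₀ hp0, map_one, one_mul] at h1
  refine ⟨PowerSeries.map (Int.castRingHom ℂ) W, fun m ↦ ?_, ?_⟩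
  · rw [coeff_map]
    exact isIntegral_intCast _
  · have e2 : (qq 1 ^ p * fun τ ↦ (jInv τ ^ p - jInv (tr (p, 0, 1) τ)) / p) =
        (fun _ ↦ (p : ℂ)⁻¹) * ((qq 1 * jInv) ^ p - (qq 1 * jInv) ∘ tr (p, 0, 1)) := by
      funext τ
      simp only [Pi.mul_apply, Pi.pow_apply, Pi.sub_apply, Function.comp_apply, hs]
      ring
    rwa [e2]

/-- integrality of Hecke conjugate functions with integral expansions -/
theorem int_of_laur {N : ℕ} (hN : 0 < N) (F : ℂ → ℂ → ℂ)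
    (hF : ∀ g ∈ tris N, (fun τ ↦ F (jInv τ) (jInv (tr g τ))) ∈ laur N) {τ : ℍ}
    (hj : IsIntegral ℤ (jInv τ)) {g : ℕ × ℕ × ℕ} (hg : g ∈ tris N) :
    IsIntegral ℤ (F (jInv τ) (jInv (tr g τ))) := by
  let Ψ : Polynomial (ℍ → ℂ) :=
    ∏ g ∈ tris N, (Polynomial.X - Polynomial.C fun τ ↦ F (jInv τ) (jInv (tr g τ)))
  have hΨ : ∀ τ, Ψ.map (Pi.evalRingHom (fun _ ↦ ℂ) τ) =
      ∏ g ∈ tris N, (Polynomial.X - Polynomial.C (F (jInv τ) (jInv (tr g τ)))) := by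
    intro τ
    simp [Ψ, Polynomial.map_prod]
  have hmem : ∀ k, Ψ.coeff k ∈ laur N := by
    have : Ψ ∈ Polynomial.lifts (laur N).subtype := by
      refine prod_mem fun g hg ↦ ?_
      rw [sub_eq_add_neg, ← map_neg]
      exact add_mem (Polynomial.X_mem_lifts _)
        (Polynomial.C'_mem_lifts ⟨⟨_, neg_mem (hF g hg)⟩, rfl⟩)
    intro k
    obtain ⟨y, hy⟩ := (Polynomial.lifts_iff_coeff_lifts _).1 this k
    exact hy ▸ y.2
  have hinv : ∀ k, Inv (Ψ.coeff k) := by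
    intro k γ τ
    have h1 := congrArg (Polynomial.coeff · k) (hΨ (γ • τ))
    have h2 := congrArg (Polynomial.coeff · k) (hΨ τ)
    simp only [Polynomial.coeff_map, Pi.evalRingHom_apply] at h1 h2
    rw [h1, h2, jInv_smul,
      Hk.prod_inv hN (fun y _ ↦ Polynomial.X - Polynomial.C (F (jInv τ) y)) γ τ]
  have hl : Ψ.map (Pi.evalRingHom (fun _ ↦ ℂ) τ) ∈
      Polynomial.lifts (algebraMap (integralClosure ℤ ℂ) ℂ) := by
    rw [Polynomial.lifts_iff_coeff_lifts]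
    intro k
    obtain ⟨q, hq1, hq2⟩ := (hinv k).poly_laur hN (hmem k)
    rw [Polynomial.coeff_map, Pi.evalRingHom_apply, hq2, Polynomial.eval_eq_sum_range]
    have : IsIntegral ℤ (∑ i ∈ Finset.range (q.natDegree + 1), q.coeff i * jInv τ ^ i) :=
      IsIntegral.sum _ fun i _ ↦ (hq1 i).mul (hj.pow i)
    exact ⟨⟨_, this⟩, rfl⟩
  rw [hΨ] at hl
  obtain ⟨r, hr1, -, hr3⟩ := Polynomial.lifts_and_degree_eq_and_monic hl
    (Polynomial.monic_prod_of_monic _ _ fun f _ ↦ Polynomial.monic_X_sub_C _)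
  have : IsIntegral (integralClosure ℤ ℂ) (F (jInv τ) (jInv (tr g τ))) := by
    refine ⟨r, hr3, ?_⟩
    rw [Polynomial.eval₂_eq_eval_map, hr1, Polynomial.eval_prod]
    exact Finset.prod_eq_zero hg (by simp)
  exact isIntegral_trans _ this

/-- the congruence relation -/
theorem kron {p : ℕ} (hp : p.Prime) {τ : ℍ} (hj : IsIntegral ℤ (jInv τ)) :
    IsIntegral ℤ ((jInv (tr (p, 0, 1) τ) ^ p - jInv τ) * (jInv (tr (p, 0, 1) τ) - jInv τ ^ p) / p) := by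
  refine int_of_laur hp.pos (fun x y ↦ (y ^ p - x) * (y - x ^ p) / p) (fun g hg ↦ ?_) hj (mem_p hp)
  obtain ⟨W, hI, hW⟩ := exists_psi hp
  obtain ⟨ha, hd⟩ := Hk.pos_of_mem hp.pos hg
  have h1 : jInv ∈ laur p := (lead_jInv hp.pos).mem
  have h2 : jInv ∘ tr g ∈ laur p := (lead_comp (tr g) _ hp.pos (Hk.zt_pow hp.pos g)
    (pow_pos ha 2) (Hk.qq_tr hp.pos hg)).mem
  obtain ⟨h3, h4⟩ := (Hk.mem_tris hp.pos).1 hg
  obtain ⟨a, b, d⟩ := g
  simp only at h3 h4 ha hd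
  rcases (Nat.dvd_prime hp).1 (Dvd.intro _ h3) with rfl | rfl
  · rw [one_mul] at h3
    subst h3
    have h5 := laur_comp hW hI (tr (1, b, d)) _ hp.pos (Hk.zt_pow hp.pos _) (pow_pos ha 2)
      (Hk.qq_tr hp.pos hg)
    have h6 : ∀ τ, jInv (tr (d, 0, 1) (tr (1, b, d) τ)) = jInv τ := by
      intro τ
      refine Hk.j_mob (a := 1) (b := b) (c := 0) (d := 1) (by norm_num) ?_
      have : (d : ℂ) ≠ 0 := by exact_mod_cast hd.ne'
      rw [Mob, coe_p hp, Hk.coe_tr ha hd]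
      push_cast
      field_simp
      ring
    have e : (fun τ ↦ (jInv (tr (1, b, d) τ) ^ d - jInv τ) * (jInv (tr (1, b, d) τ) - jInv τ ^ d) / d) =
        (fun τ ↦ (jInv τ ^ d - jInv (tr (d, 0, 1) τ)) / d) ∘ tr (1, b, d) *
          (jInv ∘ tr (1, b, d) - jInv ^ d) := by
      funext τ
      simp only [Pi.mul_apply, Pi.pow_apply, Pi.sub_apply, Function.comp_apply, h6]
      ring
    rw [e]
    exact mul_mem h5 (sub_mem h2 (pow_mem h1 _))
  · obtain rfl : d = 1 := by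
      have := hp.pos
      nlinarith
    obtain rfl : b = 0 := by omega
    have h5 := laur_comp hW hI id 1 one_pos (one_pow 1) hp.pos (qq_one_eq hp.pos)
    have e : (fun τ ↦ (jInv (tr (a, 0, 1) τ) ^ a - jInv τ) * (jInv (tr (a, 0, 1) τ) - jInv τ ^ a) / a) =
        -((jInv ∘ tr (a, 0, 1)) ^ a - jInv) *
          (fun τ ↦ (jInv τ ^ a - jInv (tr (a, 0, 1) τ)) / a) ∘ id := by
      funext τ
      simp only [Pi.mul_apply, Pi.pow_apply, Pi.sub_apply, Pi.neg_apply, Function.comp_apply, id]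
      ring
    rw [e]
    exact mul_mem (neg_mem (sub_mem (pow_mem h2 _) h1)) h5

theorem half_conj {x y : ℂ} (hx : IsIntegral ℤ x) (hy : IsIntegral ℤ y) :
    ∃ c : ℕ, c ≠ 0 ∧ ∀ (p : ℕ) (k : Type) [Field k] [Fact p.Prime] [CharP k p]
      (φ : integralClosure ℤ ℂ →+* k), ¬ p ∣ c → φ ⟨y, hy⟩ = φ ⟨x, hx⟩ ^ p → IsConjRoot ℚ x y := by
  by_cases h : IsConjRoot ℚ x y
  · exact ⟨1, one_ne_zero, fun _ _ _ _ _ _ _ _ ↦ h⟩
  let x' : integralClosure ℤ ℂ := ⟨x, hx⟩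
  let y' : integralClosure ℤ ℂ := ⟨y, hy⟩
  let z' : integralClosure ℤ ℂ := Polynomial.aeval y' (minpoly ℤ x)
  have hv : ∀ (u : integralClosure ℤ ℂ) (f : Polynomial ℤ),
      ((Polynomial.aeval u f : integralClosure ℤ ℂ) : ℂ) = Polynomial.aeval (u : ℂ) f :=
    fun u f ↦ (Polynomial.aeval_algHom_apply (integralClosure ℤ ℂ).val u f).symm
  have hz : (z' : ℂ) ≠ 0 := by
    intro h0
    refine h (isConjRoot_of_aeval_eq_zero hx.tower_top ?_)
    rw [minpoly.isIntegrallyClosed_eq_field_fractions' ℚ hx, Polynomial.aeval_map_algebraMap]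
    exact (hv y' _).symm.trans h0
  have hc : (minpoly ℤ (z' : ℂ)).coeff 0 ≠ 0 := by
    have h3 := minpoly.coeff_zero_ne_zero (A := ℚ) z'.2.tower_top hz
    rw [minpoly.isIntegrallyClosed_eq_field_fractions' ℚ z'.2, Polynomial.coeff_map] at h3
    exact fun h ↦ h3 (by rw [h, map_zero])
  refine ⟨_, Int.natAbs_ne_zero.2 hc, fun p k _ _ _ φ hp e ↦ absurd ?_ hp⟩
  have hφ : ∀ (u : integralClosure ℤ ℂ) (f : Polynomial ℤ),
      φ (Polynomial.aeval u f) = Polynomial.aeval (φ u) f :=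
    fun u f ↦ (Polynomial.aeval_algHom_apply φ.toIntAlgHom u f).symm
  have h1 : Polynomial.aeval x' (minpoly ℤ x) = 0 :=
    Subtype.ext ((hv x' _).trans (minpoly.aeval ℤ x))
  have h2 : φ z' = 0 := by
    have h3 := Polynomial.aeval_algHom_apply (frobenius k p).toIntAlgHom (φ x') (minpoly ℤ x)
    rw [← hφ x', h1, map_zero, map_zero] at h3
    rw [hφ, e]
    exact h3
  have h4 : Polynomial.aeval z' (minpoly ℤ (z' : ℂ)) = 0 :=
    Subtype.ext ((hv z' _).trans (minpoly.aeval ℤ _))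
  have h5 := hφ z' (minpoly ℤ (z' : ℂ))
  rw [h4, h2, map_zero, ← Polynomial.coeff_zero_eq_aeval_zero', eq_intCast] at h5
  exact Int.natCast_dvd.1 ((CharP.intCast_eq_zero_iff k p _).1 h5.symm)

theorem exists_red {p : ℕ} (hp : p.Prime) : ∃ (k : Type) (_ : Field k) (_ : CharP k p),
    Nonempty (integralClosure ℤ ℂ →+* k) := by
  have h1 : Ideal.span {(p : integralClosure ℤ ℂ)} ≠ ⊤ := by
    rw [Ne, Ideal.span_singleton_eq_top]
    intro hu
    obtain ⟨v, hv⟩ := hu.exists_right_inv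
    have h2 : (p : ℂ) * v = 1 := congrArg Subtype.val hv
    have h0 : (p : ℂ) ≠ 0 := by exact_mod_cast hp.ne_zero
    obtain ⟨z, hz⟩ := exists_int_of_fixed v.2 fun σ ↦ by
      apply mul_left_cancel₀ h0
      rw [h2, ← map_natCast σ, ← map_mul, h2, map_one]
    rw [hz] at h2
    have h3 : (p : ℤ) * z = 1 := by exact_mod_cast h2
    have h4 := Int.eq_one_of_mul_eq_one_right (Int.natCast_nonneg p) h3
    exact hp.one_lt.ne' (by exact_mod_cast h4)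
  obtain ⟨M, hM, hle⟩ := Ideal.exists_le_maximal _ h1
  let _ := Ideal.Quotient.field M
  have : Fact p.Prime := ⟨hp⟩
  refine ⟨integralClosure ℤ ℂ ⧸ M, inferInstance, (CharP.charP_iff_prime_eq_zero hp).2 ?_,
    ⟨Ideal.Quotient.mk M⟩⟩
  rw [← map_natCast (Ideal.Quotient.mk M), Ideal.Quotient.eq_zero_iff_mem]
  exact hle (Ideal.mem_span_singleton_self _)

/-- outside finitely many primes the congruence relation forces conjugacy -/
theorem conj_of_kron {S : Set ℂ} (hS : S.Finite) (hI : ∀ x ∈ S, IsIntegral ℤ x) :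
    ∃ B : ℕ, B ≠ 0 ∧ ∀ p : ℕ, p.Prime → ¬ p ∣ B → ∀ x ∈ S, ∀ y ∈ S,
      IsIntegral ℤ ((y ^ p - x) * (y - x ^ p) / p) → IsConjRoot ℚ x y := by
  have : Fintype S := hS.fintype
  choose c hc0 hc using fun u : S × S ↦ half_conj (hI _ u.1.2) (hI _ u.2.2)
  refine ⟨∏ u, c u, Finset.prod_ne_zero_iff.2 fun u _ ↦ hc0 u, fun p hp hB x hx y hy h ↦ ?_⟩
  have : Fact p.Prime := ⟨hp⟩
  obtain ⟨k, _, _, ⟨φ⟩⟩ := exists_red hp
  have hn : ∀ u, ¬ p ∣ c u := fun u h ↦ hB (h.trans (Finset.dvd_prod_of_mem _ (Finset.mem_univ u)))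
  have h0 : (p : ℂ) ≠ 0 := by exact_mod_cast hp.ne_zero
  have e : ((⟨y, hI y hy⟩ : integralClosure ℤ ℂ) ^ p - ⟨x, hI x hx⟩) *
      (⟨y, hI y hy⟩ - ⟨x, hI x hx⟩ ^ p) = p * ⟨_, h⟩ := by
    apply Subtype.ext
    change (y ^ p - x) * (y - x ^ p) = p * ((y ^ p - x) * (y - x ^ p) / p)
    field_simp
  have e' := congrArg φ e
  rw [map_mul, map_mul, map_natCast, CharP.cast_eq_zero, zero_mul, map_sub, map_sub, map_pow,
    map_pow, mul_eq_zero, sub_eq_zero, sub_eq_zero] at e'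
  rcases e' with e' | e'
  · exact (hc (⟨y, hy⟩, ⟨x, hx⟩) p k φ (hn _) e'.symm).symm
  · exact hc (⟨x, hx⟩, ⟨y, hy⟩) p k φ (hn _) e'

end Pool.Agent.Lib.ECM.CM
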