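import Pool.Agent.Lib.ZP3.Reduce2
import Pool.Agent.Lib.ZP3.Tiny2

/-! Block CNT, first part: the relation `m + τ n = 0` over an imaginary quadratic order. -/

open Finset Metric

namespace Pool.Agent.Lib.ECM.CNT

open Pool.Agent.Lib.ZP3 Pool.Agent.Lib.ZP3.Red Pool.Agent.Lib.ZP3.RED2

/-- the number `a + b √(-D)` -/
noncomputable def zd (D : ℕ) (a b : ℤ) : ℂ := a + b * ((√D : ℝ) * Complex.I)

/-- the relation `m + τ n = 0` with the last entry of `n` nonzero -/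
def RelE (D : ℕ) (y : Fin 8 → ℤ) (T : Fin 3 → ℂ) : Prop :=
  zd D (y 0) (y 1) + T 0 * zd D (y 4) (y 5) + T 1 * zd D (y 6) (y 7) = 0 ∧
    zd D (y 2) (y 3) + T 1 * zd D (y 4) (y 5) + T 2 * zd D (y 6) (y 7) = 0 ∧
    zd D (y 6) (y 7) ≠ 0

theorem clearE {A : Type} [CommRing A] [Algebra ℂ A] (U : ℕ → Submodule ℂ A)
    (hU : ∀ a b, U a * U b ≤ U (a + b)) (h1 : 1 ∈ U 0) {D t : A} (hD : D ∈ U 2)
    (ht : D * t ∈ U 2) {b k : ℕ} (hb : b ≤ k) : D ^ k * t ^ b ∈ U (2 * k) := by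
  have a2 : ∀ z ∈ U 2, ∀ c : ℕ, z ^ c ∈ U (2 * c) := fun z hz c ↦ by
    induction c with
    | zero => simpa using h1
    | succ c ih => exact pow_succ z c ▸ hU _ _ (Submodule.mul_mem_mul ih hz)
  obtain ⟨c, rfl⟩ := Nat.exists_eq_add_of_le' hb
  rw [pow_add, mul_assoc, ← mul_pow, mul_add]
  exact hU _ _ (Submodule.mul_mem_mul (a2 _ hD c) (a2 _ ht b))

theorem mem_of {S : Type} {V : Submodule ℂ (S → ℂ)} {a b : S → ℂ} (h : a ∈ V)
    (e : ∀ s, a s = b s) : b ∈ V := funext e ▸ h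

theorem relationsE (m e : ℕ) : ∃ e' : ℕ, ∀ (D : ℕ) (y : ℂ → Fin 8 → ℤ) (T : ℂ → Fin 3 → ℂ)
    (S : Finset ℂ), (∀ s ∈ S, RelE D (y s) (T s)) → Hyp y S (m + 1) e →
    ∀ I : Finset (Fin 8), I.card = m →
    ∃ F : MvPolynomial (Fin 8) (MvPolynomial (Fin 3) ℂ), F ≠ 0 ∧ F.vars ⊆ I ∧
      F.totalDegree ≤ e' ∧ (∀ α, (F.coeff α).totalDegree ≤ e') ∧
      ∀ s ∈ S, MvPolynomial.eval₂ (MvPolynomial.eval (T s)) (fun i ↦ (y s i : ℂ)) F = 0 := by
  classical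
  obtain ⟨c, hspan⟩ := sp_Y (m + 1) e
  obtain ⟨k, hk⟩ : ∃ k, k = c * 14 ^ (m + 2) := ⟨_, rfl⟩
  refine ⟨8 * k, fun D y T S hT hH I hI ↦ ?_⟩
  set U : ℕ → Submodule ℂ (S → ℂ) := fun n ↦
    M (fun i (s : S) ↦ (y s i : ℂ)) n * M (fun (_ : Fin 1) (s : S) ↦ T s 0) n with hU
  have U1 : ∀ a b, U a * U b ≤ U (a + b) := fun a b ↦
    (mul_mul_mul_comm _ _ _ _).trans_le (mul_le_mul' (M_mul _ a b) (M_mul _ a b))
  have U0 : 1 ∈ U 0 := by
    rw [← mul_one 1]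
    exact Submodule.mul_mem_mul (one_mem_M _ 0) (one_mem_M _ 0)
  have hz : ∀ i j, (fun s : S ↦ zd D (y s i) (y s j)) ∈ M (fun i (s : S) ↦ (y s i : ℂ)) 1 :=
    fun i j ↦ by
      have := add_mem (x_mem (fun i (s : S) ↦ (y s i : ℂ)) i) (Submodule.smul_mem _
        (((√D : ℝ) : ℂ) * Complex.I) (x_mem (fun i (s : S) ↦ (y s i : ℂ)) j))
      refine mem_of this fun s ↦ ?_
      simp only [zd, Pi.add_apply, Pi.smul_apply, smul_eq_mul]
      ring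
  have hz2 : ∀ i j i' j', (fun s : S ↦ zd D (y s i) (y s j) * zd D (y s i') (y s j')) ∈
      M (fun i (s : S) ↦ (y s i : ℂ)) 2 := fun i j i' j' ↦
    M_mul _ 1 1 (Submodule.mul_mem_mul (hz i j) (hz i' j'))
  have ht : (fun s : S ↦ T s 0) ∈ M (fun (_ : Fin 1) (s : S) ↦ T s 0) 2 := by
    simpa using mon_mem (fun (_ : Fin 1) (s : S) ↦ T s 0) (n := 2) (γ := fun _ ↦ 1) (by simp)
  have w1 : ∀ i j i' j', (fun s : S ↦ zd D (y s i) (y s j) * zd D (y s i') (y s j')) ∈ U 2 :=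
    fun i j i' j' ↦ by
      simpa using Submodule.mul_mem_mul (hz2 i j i' j')
        (one_mem_M (fun (_ : Fin 1) (s : S) ↦ T s 0) 2)
  have w2 : ∀ i j i' j', (fun s : S ↦ zd D (y s i) (y s j) * zd D (y s i') (y s j')) *
      (fun s : S ↦ T s 0) ∈ U 2 := fun i j i' j' ↦ Submodule.mul_mem_mul (hz2 i j i' j') ht
  set E : S → ℂ := fun s ↦ zd D (y s 6) (y s 7) * zd D (y s 6) (y s 7) with hE
  have d1 : ∀ s, E s ≠ 0 := fun s ↦ mul_ne_zero (hT s s.2).2.2 (hT s s.2).2.2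
  have d2 : ∀ l, E * (fun s : S ↦ T s l) ∈ U 2 := fun l ↦ by
    fin_cases l
    · exact w2 6 7 6 7
    · refine mem_of (neg_mem (add_mem (w1 0 1 6 7) (w2 4 5 6 7))) fun s ↦ ?_
      simp only [hE, Pi.add_apply, Pi.neg_apply, Pi.mul_apply, Fin.mk_one]
      linear_combination (-zd D (y s 6) (y s 7)) * (hT s s.2).1
    · refine mem_of (sub_mem (add_mem (w1 0 1 4 5) (w2 4 5 4 5)) (w1 2 3 6 7)) fun s ↦ ?_
      simp only [hE, Pi.add_apply, Pi.sub_apply, Pi.mul_apply, Fin.reduceFinMk]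
      linear_combination zd D (y s 4) (y s 5) * (hT s s.2).1 -
        zd D (y s 6) (y s 7) * (hT s s.2).2.1
  set f : Fin 3 →₀ ℕ := Finsupp.equivFunOnFinite.symm fun _ ↦ k with hf
  have b1 : ∀ α : Iic (box I k 0), (∀ i, α.1 i ≤ k) ∧ α.1.support ⊆ I := fun α ↦ by
    have := mem_Iic.1 α.2
    refine ⟨fun i ↦ (this i).trans ?_, fun i hi ↦ by_contra fun hn ↦ ?_⟩
    · rw [box_apply]; split_ifs <;> omega
    · exact Finsupp.mem_support_iff.1 hi (by simpa [box_apply, hn] using this i)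
  have b2 : ∀ (β : Iic f) l, β.1 l ≤ k := fun β l ↦ mem_Iic.1 β.2 l
  have b3 : ∀ α : Iic (box I k 0), ∑ i, α.1 i ≤ 8 * k := fun α ↦
    (sum_le_card_nsmul _ _ k fun i _ ↦ (b1 α).1 i).trans (Nat.mul_le_mul_right k (by simp))
  obtain ⟨p, hp, x0, hx0⟩ := ((hspan y S hH (14 * k)).mul
    (sp_M (fun (_ : Fin 1) (s : S) ↦ T s 0) (14 * k))).rel
    (fun (x : Iic (box I k 0) × Iic f) (s : S) ↦ E s ^ k * E s ^ k * E s ^ k *
      ((∏ l, T s l ^ x.2.1 l) * ∏ i, (y s i : ℂ) ^ x.1.1 i)) (fun x ↦ by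
      have a1 := fun l ↦ clearE U U1 U0 (w1 6 7 6 7) (d2 l) (b2 x.2 l)
      have a3 : _ ∈ U (8 * k) := Submodule.mul_mem_mul (mon_mem _ (b3 x.1)) (one_mem_M _ _)
      have a4 := U1 _ _ (Submodule.mul_mem_mul a3 (U1 _ _ (Submodule.mul_mem_mul (a1 0)
        (U1 _ _ (Submodule.mul_mem_mul (a1 1) (a1 2))))))
      rw [show 8 * k + (2 * k + (2 * k + 2 * k)) = 14 * k by ring] at a4
      refine mem_of a4 fun s ↦ ?_
      simp only [Pi.mul_apply, Pi.pow_apply, Finset.prod_apply, Fin.prod_univ_three, Pi.one_apply,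
        hE]
      ring) (by
      have a1 : 14 * k + 1 ≤ 14 * (k + 1) := by omega
      rw [Fintype.card_prod, Fintype.card_coe, Fintype.card_coe, card_box, card_Iic_le, hI]
      calc _ ≤ c * (14 * (k + 1)) ^ (m + 1) * (14 * (k + 1)) ^ 1 := by
            rw [Fintype.card_fin]
            gcongr
        _ = k * (k + 1) ^ (m + 2) := by
            rw [mul_pow, mul_pow]
            generalize k + 1 = z
            rw [hk]
            ring
        _ < (k + 1) * (k + 1) ^ (m + 2) := by gcongr; omega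
        _ = _ := by
            simp only [hf, Finsupp.coe_equivFunOnFinite_symm, prod_const, card_univ,
              Fintype.card_fin]
            ring)
  have hco : ∀ α, (∑ x : Iic (box I k 0) × Iic f, MvPolynomial.monomial x.1.1
      (MvPolynomial.monomial x.2.1 (p x))).coeff α =
      ∑ x, if x.1.1 = α then MvPolynomial.monomial x.2.1 (p x) else 0 := fun α ↦ by
    simp only [MvPolynomial.coeff_sum, MvPolynomial.coeff_monomial]
  have hsu : ∀ α ∈ (∑ x : Iic (box I k 0) × Iic f, MvPolynomial.monomial x.1.1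
      (MvPolynomial.monomial x.2.1 (p x))).support, α ∈ Iic (box I k 0) := fun α hα ↦ by
    obtain ⟨x, -, hx⟩ := exists_ne_zero_of_sum_ne_zero
      (hco α ▸ MvPolynomial.mem_support_iff.1 hα)
    exact (ite_ne_right_iff.1 hx).1 ▸ x.1.2
  refine ⟨∑ x : Iic (box I k 0) × Iic f, MvPolynomial.monomial x.1.1
    (MvPolynomial.monomial x.2.1 (p x)), fun h ↦ hx0 ?_, fun i hi ↦ ?_,
    Finset.sup_le fun α hα ↦ ?_, fun α ↦ ?_, fun s hs ↦ ?_⟩
  · have := congrArg (MvPolynomial.coeff x0.2.1) (hco x0.1.1)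
    rw [h, MvPolynomial.coeff_sum, sum_eq_single_of_mem x0 (mem_univ _) fun x _ hne ↦ ?_] at this
    · simpa using this.symm
    · split_ifs with a1
      · rw [MvPolynomial.coeff_monomial, if_neg]
        exact fun a2 ↦ hne (Prod.ext (Subtype.ext a1) (Subtype.ext a2))
      · rfl
  · obtain ⟨α, hα, hi'⟩ := (MvPolynomial.mem_vars_iff_mem_support i).1 hi
    exact (b1 ⟨α, hsu α hα⟩).2 hi'
  · rw [Finsupp.sum_fintype _ _ fun _ ↦ rfl]
    exact b3 ⟨α, hsu α hα⟩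
  · rw [hco]
    refine MvPolynomial.totalDegree_finsetSum_le fun x _ ↦ ?_
    split_ifs
    · refine (MvPolynomial.totalDegree_monomial_le _ _).trans ?_
      rw [Finsupp.sum_fintype _ _ fun _ ↦ rfl]
      exact (sum_le_card_nsmul _ _ k fun i _ ↦ b2 _ _).trans
        (Nat.mul_le_mul_right k (by simp))
    · simp
  · refine (mul_eq_zero.1 (?_ : E ⟨s, hs⟩ ^ k * E ⟨s, hs⟩ ^ k * E ⟨s, hs⟩ ^ k * _ = 0)).resolve_left
      (mul_ne_zero (mul_ne_zero (pow_ne_zero _ (d1 _)) (pow_ne_zero _ (d1 _)))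
        (pow_ne_zero _ (d1 _)))
    refine Eq.trans ?_ (congrFun hp ⟨s, hs⟩)
    rw [MvPolynomial.eval₂_sum, mul_sum, Finset.sum_apply]
    refine sum_congr rfl fun x _ ↦ ?_
    rw [MvPolynomial.eval₂_monomial, MvPolynomial.eval_monomial,
      Finsupp.prod_fintype _ _ fun _ ↦ pow_zero _, Finsupp.prod_fintype _ _ fun _ ↦ pow_zero _,
      Pi.smul_apply, smul_eq_mul]
    ring

/-! ### very small discs -/

theorem rt_sq (D : ℕ) : (((√D : ℝ) : ℂ) * Complex.I) ^ 2 = -D := by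
  rw [mul_pow, Complex.I_sq, ← Complex.ofReal_pow, Real.sq_sqrt (Nat.cast_nonneg D)]
  simp

/-- the order generated by `√(-D)` -/
def Zd (D : ℕ) : Subring ℂ where
  carrier := {z | ∃ a b : ℤ, z = zd D a b}
  mul_mem' := by
    rintro _ _ ⟨a, b, rfl⟩ ⟨c, d, rfl⟩
    refine ⟨a * c - D * (b * d), a * d + b * c, ?_⟩
    simp only [zd]
    push_cast
    linear_combination (b * d : ℂ) * rt_sq D
  one_mem' := ⟨1, 0, by simp [zd]⟩
  add_mem' := by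
    rintro _ _ ⟨a, b, rfl⟩ ⟨c, d, rfl⟩
    exact ⟨a + c, b + d, by simp only [zd]; push_cast; ring⟩
  zero_mem' := ⟨0, 0, by simp [zd]⟩
  neg_mem' := by
    rintro _ ⟨a, b, rfl⟩
    exact ⟨-a, -b, by simp only [zd]; push_cast; ring⟩

theorem zd_mem (D : ℕ) (a b : ℤ) : zd D a b ∈ Zd D := ⟨a, b, rfl⟩

theorem Zd_zero {D : ℕ} (hD : 0 < D) {z : ℂ} (hz : z ∈ Zd D) (h : ‖z‖ < 1) : z = 0 := by
  obtain ⟨a, b, rfl⟩ := hz
  have h1 : (1 : ℝ) ≤ √D := Real.one_le_sqrt.2 (by exact_mod_cast hD)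
  have h2 : |(a : ℝ)| < 1 := by
    simpa [zd] using (Complex.abs_re_le_norm (zd D a b)).trans_lt h
  have h3 : |(b : ℝ)| * √D < 1 := by
    simpa [zd, abs_mul, abs_of_nonneg (Real.sqrt_nonneg _)] using
      (Complex.abs_im_le_norm (zd D a b)).trans_lt h
  have h4 : |(b : ℝ)| < 1 := by nlinarith [abs_nonneg (b : ℝ)]
  have h5 : a = 0 := Int.abs_lt_one_iff.1 (by exact_mod_cast h2)
  have h6 : b = 0 := Int.abs_lt_one_iff.1 (by exact_mod_cast h4)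
  simp [zd, h5, h6]

theorem norm_zd {D : ℕ} {M : ℝ} (hM : 2 ≤ M) (hD : (D : ℝ) ≤ M) {a b : ℤ}
    (ha : |(a : ℝ)| ≤ M ^ 15) (hb : |(b : ℝ)| ≤ M ^ 15) : ‖zd D a b‖ ≤ M ^ 17 := by
  have h1 : √(D : ℝ) ≤ M := Real.sqrt_le_iff.2 ⟨by linarith, by nlinarith⟩
  refine (norm_add_le _ _).trans ?_
  rw [norm_mul, norm_mul, Complex.norm_I, mul_one, Complex.norm_intCast, Complex.norm_intCast,
    Complex.norm_real, Real.norm_of_nonneg (Real.sqrt_nonneg _)]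
  have h2 : 0 < M ^ 15 := by positivity
  calc _ ≤ M ^ 15 + M ^ 15 * M := by gcongr
    _ ≤ M ^ 15 * M ^ 2 := by nlinarith [mul_pos h2 (show 0 < M by linarith)]
    _ = _ := by ring

theorem comb {M : ℝ} (hM : 2 ≤ M) {A e e' u v : ℂ} (hA : ‖A‖ ≤ 2 * M ^ 34) (hu : ‖u‖ ≤ M ^ 17)
    (hv : ‖v‖ ≤ M ^ 17) (he : ‖e‖ ≤ (M ^ 100)⁻¹) (he' : ‖e'‖ ≤ (M ^ 100)⁻¹) :
    ‖A * (e * u + e' * v)‖ < 1 / 2 := by
  have h1 : ‖e * u + e' * v‖ ≤ (M ^ 100)⁻¹ * M ^ 17 + (M ^ 100)⁻¹ * M ^ 17 :=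
    (norm_add_le _ _).trans (by rw [norm_mul, norm_mul]; gcongr)
  have h2 : (2 : ℝ) ^ 49 ≤ M ^ 49 := by gcongr
  rw [norm_mul]
  calc _ ≤ 2 * M ^ 34 * ((M ^ 100)⁻¹ * M ^ 17 + (M ^ 100)⁻¹ * M ^ 17) := by gcongr
    _ = 4 / M ^ 49 := by field_simp; ring
    _ ≤ 4 / 2 ^ 49 := by gcongr
    _ < _ := by norm_num

/-- a row of `m + τ n` as a polynomial -/
noncomputable def row (a c d : ℂ) (i j : Fin 3) : MvPolynomial (Fin 3) ℂ :=
  MvPolynomial.C a + MvPolynomial.C c * MvPolynomial.X i + MvPolynomial.C d * MvPolynomial.X j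

theorem eval_row (T : Fin 3 → ℂ) (a c d : ℂ) (i j : Fin 3) :
    MvPolynomial.eval T (row a c d i j) = a + T i * c + T j * d := by
  simp [row, mul_comm]

theorem row_deg (a c d : ℂ) (i j : Fin 3) : (row a c d i j).totalDegree ≤ 1 := by
  have h : ∀ (x : ℂ) (i : Fin 3), (MvPolynomial.C x * MvPolynomial.X i :
      MvPolynomial (Fin 3) ℂ).totalDegree ≤ 1 := fun x i ↦
    (MvPolynomial.totalDegree_mul _ _).trans
      (by rw [MvPolynomial.totalDegree_C, zero_add, MvPolynomial.totalDegree_X])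
  exact (MvPolynomial.totalDegree_add _ _).trans (max_le ((MvPolynomial.totalDegree_add _ _).trans
    (max_le (by rw [MvPolynomial.totalDegree_C]; exact zero_le_one) (h _ _))) (h _ _))

theorem tinyE {Cn : ℕ → ℕ} {M : ℝ} {f : Fin 3 → ℂ → ℂ} {D : ℕ} {z : ℂ} {S : Finset ℂ}
    {y : ℂ → Fin 8 → ℤ} (hM : 2 ≤ M) (hf : ∀ i, AnalyticOnNhd ℂ (f i) (closedBall 0 10))
    (hb : ∀ i u, ‖u‖ ≤ 10 → ‖f i u‖ ≤ M) (hnd : NDegC f Cn) (hD : 0 < D) (hDM : (D : ℝ) ≤ M)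
    (hS : ∀ u ∈ S, ‖u‖ ≤ 1 ∧ ‖u - z‖ ≤ (M ^ 102)⁻¹ ∧ (∀ i, |(y u i : ℝ)| ≤ M ^ 15) ∧
      RelE D (y u) fun i ↦ f i u) : S.card ≤ Cn 2 + 1 := by
  have hM0 : 0 < M := by linarith
  rcases S.eq_empty_or_nonempty with rfl | ⟨s1, h1⟩
  · simp
  have hnear : ∀ k, ∀ u ∈ S, ∀ v ∈ S, ‖f k u - f k v‖ ≤ (M ^ 100)⁻¹ := by
    intro k u hu v hv
    refine (Tiny.lip (hf k) (hb k) (hS u hu).1 (hS v hv).1).trans ?_
    have h1 : ‖u - v‖ ≤ (M ^ 102)⁻¹ + (M ^ 102)⁻¹ := by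
      rw [show u - v = (u - z) - (v - z) by ring]
      exact (norm_sub_le _ _).trans (add_le_add (hS u hu).2.1 (hS v hv).2.1)
    refine (mul_le_mul_of_nonneg_left h1 hM0.le).trans ?_
    have e : M * ((M ^ 102)⁻¹ + (M ^ 102)⁻¹) = (M ^ 100)⁻¹ * (2 / M) := by
      field_simp
      ring
    rw [e]
    exact mul_le_of_le_one_right (by positivity) ((div_le_one hM0).2 hM)
  obtain ⟨q, hq⟩ : ∃ q : Fin 8 → Fin 8 → ℂ → ℂ, ∀ i j u, zd D (y u i) (y u j) = q i j u :=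
    ⟨_, fun _ _ _ ↦ rfl⟩
  have qm : ∀ i j u, q i j u ∈ Zd D := fun i j u ↦ hq i j u ▸ zd_mem _ _ _
  have qn : ∀ i j, ∀ u ∈ S, ‖q i j u‖ ≤ M ^ 17 := fun i j u hu ↦
    hq i j u ▸ norm_zd hM hDM ((hS u hu).2.2.1 i) ((hS u hu).2.2.1 j)
  have hr : ∀ u ∈ S, q 0 1 u + f 0 u * q 4 5 u + f 1 u * q 6 7 u = 0 ∧
      q 2 3 u + f 1 u * q 4 5 u + f 2 u * q 6 7 u = 0 ∧ q 6 7 u ≠ 0 := fun u hu ↦ by
    simpa only [RelE, hq] using (hS u hu).2.2.2
  have key : ∀ (a b : Fin 8) (i j : Fin 3),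
      (∀ u ∈ S, q a b u + f i u * q 4 5 u + f j u * q 6 7 u = 0) →
      ∀ s ∈ S, ∀ s2 ∈ S, ∀ E ∈ Zd D, ∀ A ∈ Zd D, ∀ B ∈ Zd D, ‖A‖ ≤ 2 * M ^ 34 →
      ‖B‖ ≤ 2 * M ^ 34 → E * q 4 5 s = A * q 4 5 s1 + B * q 4 5 s2 →
      E * q 6 7 s = A * q 6 7 s1 + B * q 6 7 s2 →
      A * (q a b s1 + f i s * q 4 5 s1 + f j s * q 6 7 s1) +
        B * (q a b s2 + f i s * q 4 5 s2 + f j s * q 6 7 s2) = 0 := by
    intro a b i j h s hs s2 h2 E hE A hA B hB nA nB e1 e2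
    refine Zd_zero hD ?_ ?_
    · rw [show A * (q a b s1 + f i s * q 4 5 s1 + f j s * q 6 7 s1) +
        B * (q a b s2 + f i s * q 4 5 s2 + f j s * q 6 7 s2) =
        A * q a b s1 + B * q a b s2 - E * q a b s by
          linear_combination E * h s hs - f i s * e1 - f j s * e2]
      exact sub_mem (add_mem (mul_mem hA (qm _ _ _)) (mul_mem hB (qm _ _ _)))
        (mul_mem hE (qm _ _ _))
    · rw [show A * (q a b s1 + f i s * q 4 5 s1 + f j s * q 6 7 s1) +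
        B * (q a b s2 + f i s * q 4 5 s2 + f j s * q 6 7 s2) =
        A * ((f i s - f i s1) * q 4 5 s1 + (f j s - f j s1) * q 6 7 s1) +
        B * ((f i s - f i s2) * q 4 5 s2 + (f j s - f j s2) * q 6 7 s2) by
          linear_combination A * h s1 h1 + B * h s2 h2]
      have a1 := comb hM nA (qn 4 5 s1 h1) (qn 6 7 s1 h1) (hnear i s hs s1 h1) (hnear j s hs s1 h1)
      have a2 := comb hM nB (qn 4 5 s2 h2) (qn 6 7 s2 h2) (hnear i s hs s2 h2) (hnear j s hs s2 h2)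
      exact (norm_add_le _ _).trans_lt (by linarith)
  have dn : ∀ u ∈ S, ∀ v ∈ S, ‖q 4 5 u * q 6 7 v - q 4 5 v * q 6 7 u‖ ≤ 2 * M ^ 34 := by
    intro u hu v hv
    have a1 := qn 4 5 u hu
    have a2 := qn 6 7 u hu
    have a3 := qn 4 5 v hv
    have a4 := qn 6 7 v hv
    refine (norm_sub_le _ _).trans ?_
    rw [norm_mul, norm_mul]
    calc _ ≤ M ^ 17 * M ^ 17 + M ^ 17 * M ^ 17 := by gcongr
      _ = _ := by ring
  have dm : ∀ u v, q 4 5 u * q 6 7 v - q 4 5 v * q 6 7 u ∈ Zd D := fun u v ↦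
    sub_mem (mul_mem (qm _ _ _) (qm _ _ _)) (mul_mem (qm _ _ _) (qm _ _ _))
  by_cases hc : ∀ s ∈ S, q 4 5 s1 * q 6 7 s - q 4 5 s * q 6 7 s1 = 0
  · refine zero_countC hf hnd (c := row (q 0 1 s1) (q 4 5 s1) (q 6 7 s1) 0 1) (fun h0 ↦ ?_)
      ((row_deg _ _ _ _ _).trans one_le_two) S fun s hs ↦ ⟨by linarith [(hS s hs).1], ?_⟩
    · have a1 := eval_row ![0, 0, 0] (q 0 1 s1) (q 4 5 s1) (q 6 7 s1) 0 1
      have a2 := eval_row ![0, 1, 0] (q 0 1 s1) (q 4 5 s1) (q 6 7 s1) 0 1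
      simp only [h0, map_zero, Matrix.cons_val_zero, Matrix.cons_val_one] at a1 a2
      exact (hr s1 h1).2.2 (by linear_combination a1 - a2)
    · have a1 := key 0 1 0 1 (fun u hu ↦ (hr u hu).1) s hs s1 h1 _ (qm 6 7 s1) _ (qm 6 7 s) 0
        (zero_mem _) ((qn 6 7 s hs).trans (by
          nlinarith [pow_le_pow_right₀ (show 1 ≤ M by linarith) (show 17 ≤ 34 by omega),
            pow_pos hM0 34])) (by rw [norm_zero]; positivity)
        (by linear_combination -hc s hs) (by ring)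
      rw [zero_mul, add_zero] at a1
      rw [eval_row]
      exact (mul_eq_zero.1 a1).resolve_left (hr s hs).2.2
  · push Not at hc
    obtain ⟨s2, h2, hc⟩ := hc
    refine zero_countC hf hnd (c := row (q 0 1 s1) (q 4 5 s1) (q 6 7 s1) 0 1 *
      row (q 2 3 s2) (q 4 5 s2) (q 6 7 s2) 1 2 - row (q 0 1 s2) (q 4 5 s2) (q 6 7 s2) 0 1 *
      row (q 2 3 s1) (q 4 5 s1) (q 6 7 s1) 1 2) (fun h0 ↦ ?_)
      ((MvPolynomial.totalDegree_sub _ _).trans (max_le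
        ((MvPolynomial.totalDegree_mul _ _).trans (add_le_add (row_deg ..) (row_deg ..)))
        ((MvPolynomial.totalDegree_mul _ _).trans (add_le_add (row_deg ..) (row_deg ..))))) S
      fun s hs ↦ ⟨by linarith [(hS s hs).1], ?_⟩
    · have a := fun t : ℂ ↦ congrArg (MvPolynomial.eval ![0, t, 0]) h0
      simp only [map_sub, map_mul, eval_row, map_zero, Matrix.cons_val_zero, Matrix.cons_val_one,
        Matrix.cons_val] at a
      exact hc (by linear_combination a 0 - a 1 / 2 - a (-1) / 2)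
    · have a1 := key 0 1 0 1 (fun u hu ↦ (hr u hu).1) s hs s2 h2 _ (dm s1 s2) _ (dm s s2) _
        (dm s1 s) (dn s hs s2 h2) (dn s1 h1 s hs) (by ring) (by ring)
      have a2 := key 2 3 1 2 (fun u hu ↦ (hr u hu).2.1) s hs s2 h2 _ (dm s1 s2) _ (dm s s2) _
        (dm s1 s) (dn s hs s2 h2) (dn s1 h1 s hs) (by ring) (by ring)
      simp only [map_sub, map_mul, eval_row]
      refine (mul_eq_zero.1 (?_ : _ * _ = (0 : ℂ))).resolve_left (mul_ne_zero hc (hr s hs).2.2)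
      linear_combination (q 6 7 s1 * (q 2 3 s2 + f 1 s * q 4 5 s2 + f 2 s * q 6 7 s2) -
          q 6 7 s2 * (q 2 3 s1 + f 1 s * q 4 5 s1 + f 2 s * q 6 7 s1)) * a1 +
        (q 6 7 s2 * (q 0 1 s1 + f 0 s * q 4 5 s1 + f 1 s * q 6 7 s1) -
          q 6 7 s1 * (q 0 1 s2 + f 0 s * q 4 5 s2 + f 1 s * q 6 7 s2)) * a2

end Pool.Agent.Lib.ECM.CNT
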