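import Pool.Agent.Lib.ZP3.Core2A
import Pool.Agent.Lib.ECM.CNA

/-! Block CNT, second part: the determinant method on one chart. -/

open Filter Topology Metric

namespace Pool.Agent.Lib.ECM.CNT

open Pool.Agent.Lib.ZP3 Pool.Agent.Lib.ZP3.Core2 Pool.Agent.Lib.ZP3.CoreAux

/-- standing hypotheses on the chart -/
def Amb (Cn : ℕ → ℕ) (M : ℝ) (f : Fin 3 → ℂ → ℂ) (D : ℕ) : Prop :=
  2 ≤ M ∧ (∀ i, AnalyticOnNhd ℂ (f i) (closedBall 0 10)) ∧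
    (∀ i s, ‖s‖ ≤ 10 → ‖f i s‖ ≤ M) ∧ NDegC f Cn ∧ 0 < D ∧ (D : ℝ) ≤ M

/-- standing hypotheses on a special point -/
def Pt (M : ℝ) (f : Fin 3 → ℂ → ℂ) (D : ℕ) (y : ℂ → Fin 8 → ℤ) (s : ℂ) : Prop :=
  ‖s‖ ≤ 1 ∧ (∀ i, |(y s i : ℝ)| ≤ M ^ 15) ∧ RelE D (y s) fun i ↦ f i s

/-- the statement proved by induction on `m` -/
def Bnd (Cn : ℕ → ℕ) (m : ℕ) : Prop :=
  ∀ (e : ℕ) (ε : ℝ), 0 < ε → ∃ C : ℝ, ∀ (M : ℝ) (f : Fin 3 → ℂ → ℂ) (D : ℕ) (y : ℂ → Fin 8 → ℤ)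
    (S : Finset ℂ), Amb Cn M f D → (∀ s ∈ S, Pt M f D y s) →
    Hyp y S (m + 1) e → (S.card : ℝ) ≤ C * M ^ ε

theorem bnd_zero (Cn : ℕ → ℕ) : Bnd Cn 0 := by
  intro e ε hε
  obtain ⟨e', hrel⟩ := relationsE 0 e
  refine ⟨Cn e' + 1, fun M f D y S hA hS hyp ↦ ?_⟩
  obtain ⟨F, hF0, hFv, -, hco, hF⟩ := hrel D y (fun s i ↦ f i s) S
    (fun s hs ↦ (hS s hs).2.2) hyp ∅ rfl
  have hC : F = MvPolynomial.C (F.coeff 0) := by
    refine MvPolynomial.totalDegree_eq_zero_iff_eq_C.1 ?_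
    rw [MvPolynomial.totalDegree_eq_zero_iff]
    intro d hd i
    by_contra hi
    have : i ∈ F.vars := (MvPolynomial.mem_vars_iff_mem_support i).2
      ⟨d, hd, Finsupp.mem_support_iff.2 hi⟩
    simpa using hFv this
  have hc0 : F.coeff 0 ≠ 0 := fun h ↦ hF0 (by rw [hC, h, map_zero])
  have h1 := zero_countC hA.2.1 hA.2.2.2.1 hc0 (hco 0) S fun s hs ↦
    ⟨(hS s hs).1.trans (by norm_num), by
      have := hF s hs
      rw [hC, MvPolynomial.eval₂_C] at this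
      exact this⟩
  have h2 : (S.card : ℝ) ≤ Cn e' + 1 := by exact_mod_cast h1
  have h3 : 1 ≤ M ^ ε := Real.one_le_rpow (by linarith [hA.1]) hε.le
  calc _ ≤ ((Cn e' : ℝ) + 1) * 1 := by rw [mul_one]; exact h2
    _ ≤ _ := by gcongr

theorem bnd_succ (Cn : ℕ → ℕ) (m : ℕ) (ih : Bnd Cn m) : Bnd Cn (m + 1) := by
  classical
  intro e ε hε
  obtain ⟨η, hη0, hη1, hηε⟩ : ∃ η : ℝ, 0 < η ∧ η ≤ 1 ∧ η ≤ ε / 8 :=
    ⟨min 1 (ε / 8), lt_min one_pos (by positivity), min_le_left _ _, min_le_right _ _⟩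
  obtain ⟨Ks, hK1, hK2⟩ : ∃ Ks : ℕ, 103 ≤ η * Ks ∧ η * Ks ≤ 104 := by
    refine ⟨⌈103 / η⌉₊, ?_, ?_⟩
    · have := Nat.le_ceil (103 / η)
      rw [div_le_iff₀ hη0] at this
      linarith
    · have := (Nat.ceil_lt_add_one (show 0 ≤ 103 / η by positivity)).le
      calc η * (⌈103 / η⌉₊ : ℝ) ≤ η * (103 / η + 1) := by gcongr
        _ = 103 + η := by field_simp
        _ ≤ 104 := by linarith
  obtain ⟨e', hrel⟩ := relationsE (m + 1) e
  obtain ⟨c, hc, hred⟩ := reduce2 m e'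
  choose d w hpiece using fun k : ℕ ↦ piece2 m c k hc hη0
  obtain ⟨c0, hc0⟩ : ∃ c0, c0 = 8 * e' + Cn e' + 111 * (Cn e' + 2) := ⟨_, rfl⟩
  obtain ⟨ks, hks⟩ : ∃ ks : ℕ → ℕ, ∀ g, ks (g + 1) = ks g + c0 + 15 * e' + w (ks g + c0) :=
    ⟨fun g ↦ Nat.rec 0 (fun _ x ↦ x + c0 + 15 * e' + w (x + c0)) g, fun _ ↦ rfl⟩
  have hksm : Monotone ks := monotone_nat_of_le_succ fun g ↦ by rw [hks]; omega
  choose C1' hC1' using fun g ↦ ih (d (ks g + c0)) (ε / 2) (by positivity)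
  obtain ⟨C1, hC1g⟩ : ∃ C1 : ℝ, ∀ g ≤ 256 * (e' + 1) ^ 8, C1' g ≤ C1 :=
    ⟨∑ g ∈ Finset.range (256 * (e' + 1) ^ 8 + 1), |C1' g|, fun g hg ↦ (le_abs_self _).trans
      (Finset.single_le_sum (f := fun g ↦ |C1' g|) (fun _ _ ↦ abs_nonneg _)
        (Finset.mem_range.2 (by omega)))⟩
  obtain ⟨C2, hC2⟩ : ∃ C2 : ℝ, C2 = Cn 2 + 1 := ⟨_, rfl⟩
  refine ⟨(256 * (Cn e' + 1) : ℕ) * (Ks * (34 ^ 2 * max C1 0) + max C2 0),
    fun M f D y S hA hS hyp ↦ ?_⟩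
  have hM := hA.1
  have hM1 : 1 ≤ M := by linarith
  have hM0 : 0 < M := by linarith
  have hFex := hrel D y (fun s i ↦ f i s) S (fun s hs ↦ (hS s hs).2.2) hyp
  choose! F hF0 hFv hFd hco hF using hFex
  obtain ⟨φ, hφ⟩ : ∃ φ : Finset (Fin 8) → (Fin 8 →₀ ℕ) → ℂ → ℂ, ∀ I α s,
      MvPolynomial.eval (fun i ↦ f i s) ((F I).coeff α) = φ I α s := ⟨_, fun _ _ _ ↦ rfl⟩
  have hφa : ∀ I α, AnalyticOnNhd ℂ (φ I α) (closedBall 0 10) := fun I α ↦ by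
    simpa only [hφ] using ev_analytic hA.2.1 ((F I).coeff α)
  have hpex : ∀ I : Finset (Fin 8), I.card = m + 1 → ∀ α ∈ (F I).support, ∃ s0 : ℂ, ‖s0‖ ≤ 2 ∧
      φ I α s0 ≠ 0 ∧ ∀ s : ℂ, ‖s‖ ≤ 10 → ‖φ I α s‖ ≤ 2 ^ Cn e' * ‖φ I α s0‖ := fun I hI α hα ↦ by
    simpa only [hφ] using hA.2.2.2.1 e' _ (MvPolynomial.mem_support_iff.1 hα) (hco I hI α)
  choose! p hp1 hp2 hp3 using hpex
  have hmex : ∀ I : Finset (Fin 8), I.card = m + 1 → ∃ a ∈ (F I).support, ∀ α ∈ (F I).support,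
      ‖φ I α (p I α)‖ ≤ ‖φ I a (p I a)‖ := fun I hI ↦
    Finset.exists_max_image _ _ (MvPolynomial.support_nonempty.2 (hF0 I hI))
  choose! am ham hmax using hmex
  have hN : ∀ I : Finset (Fin 8), I.card = m + 1 → 0 < ‖φ I (am I) (p I (am I))‖ := fun I hI ↦
    norm_pos_iff.2 (hp2 I hI _ (ham I hI))
  obtain ⟨g, hg, hgap⟩ := gap ((Finset.univ.filter fun I : Finset (Fin 8) ↦ I.card = m + 1).sigma
      fun I ↦ (F I).support) (fun x ↦ ‖φ x.1 x.2 (p x.1 x.2)‖ / ‖φ x.1 (am x.1) (p x.1 (am x.1))‖)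
    (b := fun g ↦ (M ^ ks g)⁻¹) fun a b hab ↦
      inv_anti₀ (by positivity) (pow_le_pow_right₀ hM1 (hksm hab))
  have hgG : g ≤ 256 * (e' + 1) ^ 8 := by
    refine hg.trans ?_
    rw [Finset.card_sigma]
    refine (Finset.sum_le_card_nsmul _ _ ((e' + 1) ^ 8) fun I hI ↦ ?_).trans ?_
    · simpa using card_support_le (F I) (hFd I (Finset.mem_filter.1 hI).2)
    · rw [smul_eq_mul]
      gcongr
      simpa using Finset.card_le_univ (Finset.univ.filter fun I : Finset (Fin 8) ↦ I.card = m + 1)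
  obtain ⟨T, hT⟩ : ∃ T : Finset (Fin 8) → Finset (Fin 8 →₀ ℕ), ∀ I α, α ∈ T I ↔
      α ∈ (F I).support ∧ (M ^ ks g)⁻¹ ≤ ‖φ I α (p I α)‖ / ‖φ I (am I) (p I (am I))‖ :=
    ⟨fun I ↦ (F I).support.filter fun α ↦
      (M ^ ks g)⁻¹ ≤ ‖φ I α (p I α)‖ / ‖φ I (am I) (p I (am I))‖, fun _ _ ↦ Finset.mem_filter⟩
  have hTs : ∀ I, T I ⊆ (F I).support := fun I α hα ↦ ((hT I α).1 hα).1
  have hlex : ∀ I : Finset (Fin 8), I.card = m + 1 → ∃ l ∈ T I, (∀ i, l i ≤ e') ∧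
      ∀ α ∈ T I, α ≠ l →
        ∑ i : Fin 8, (e' + 1) ^ (i : ℕ) * α i < ∑ i : Fin 8, (e' + 1) ^ (i : ℕ) * l i := by
    intro I hI
    have hb : ∀ α ∈ T I, ∀ i, α i ≤ e' := fun α hα i ↦
      (MvPolynomial.monomial_le_degreeOf i (hTs I hα)).trans
        ((MvPolynomial.degreeOf_le_totalDegree _ i).trans (hFd I hI))
    obtain ⟨l, hl, h⟩ := exists_lead e' (T I) ⟨am I, (hT I _).2 ⟨ham I hI, by
      rw [div_self (hN I hI).ne']
      exact inv_le_one_of_one_le₀ (one_le_pow₀ hM1)⟩⟩ hb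
    exact ⟨l, hl, hb l hl, h⟩
  choose! l hl hle hlead using hlex
  set lam : ℝ := M ^ (-η) with hlam
  have hlam0 : 0 < lam := Real.rpow_pos_of_pos hM0 _
  have hlam1 : lam ≤ 1 := Real.rpow_le_one_of_one_le_of_nonpos hM1 (by linarith)
  have hpw : ∀ k : ℕ, lam ^ k = M ^ (-(η * k)) := by
    intro k
    rw [hlam, ← Real.rpow_natCast, ← Real.rpow_mul hM0.le]
    congr 1
    ring
  have hbig : ∀ k, k ≤ Ks → 1 ≤ M ^ 104 * lam ^ k := by
    intro k hk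
    rw [hpw, ← Real.rpow_natCast, ← Real.rpow_add hM0]
    refine Real.one_le_rpow hM1 ?_
    have : η * k ≤ η * Ks := by gcongr
    push_cast
    linarith
  have hsmall : 2 * lam ^ Ks ≤ (M ^ 102)⁻¹ := by
    have h1 : M ^ 103 * lam ^ Ks ≤ 1 := by
      rw [hpw, ← Real.rpow_natCast, ← Real.rpow_add hM0]
      refine Real.rpow_le_one_of_one_le_of_nonpos hM1 ?_
      push_cast
      linarith
    rw [← one_div, le_div_iff₀ (by positivity)]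
    calc 2 * lam ^ Ks * M ^ 102 ≤ M * lam ^ Ks * M ^ 102 := by gcongr
      _ = M ^ 103 * lam ^ Ks := by ring
      _ ≤ 1 := h1
  have hZex : ∀ (k : ℕ) (I : Finset (Fin 8)), ∃ Z : Finset ℂ, Z.card ≤ Cn e' + 1 ∧
      (k ≤ Ks → I.card = m + 1 → ∀ s, ‖s‖ ≤ 2 → (∀ z ∈ Z, lam ^ k < ‖s - z‖) →
        ‖φ I (am I) (p I (am I))‖ ≤ M ^ (ks g + 111 * (Cn e' + 2)) * ‖φ I (l I) s‖) := by
    intro k I
    by_cases h : k ≤ Ks ∧ I.card = m + 1
    · obtain ⟨h3, h4⟩ := (hT I _).1 (hl I h.2)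
      obtain ⟨Z, h1, h2⟩ := cover_val2 (hφa I (l I)) (hp1 I h.2 _ h3) (hp3 I h.2 _ h3) hM
        (hbig k h.1) (pow_le_one₀ hlam0.le hlam1)
      refine ⟨Z, h1, fun _ _ s hs hz ↦ ?_⟩
      rw [le_div_iff₀ (hN I h.2), inv_mul_le_iff₀ (by positivity)] at h4
      calc _ ≤ _ := h4
        _ ≤ M ^ ks g * (M ^ (111 * (Cn e' + 2)) * ‖φ I (l I) s‖) := by gcongr; exact h2 s hs hz
        _ = _ := by ring
    · exact ⟨∅, by simp, fun h1 h2 ↦ absurd ⟨h1, h2⟩ h⟩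
  choose Z hZc hZ using hZex
  have hmain := scales S (fun k ↦ Finset.univ.biUnion (Z k)) (lam := lam)
    (Q1 := max C1 0 * M ^ (ε / 2)) (Q2 := max C2 0 * M ^ ε) (W := 256 * (Cn e' + 1)) (Ks := Ks)
    hlam0 (by omega) ?_ (fun s hs ↦ (hS s hs).1) ?_ ?_
  · refine hmain.trans ?_
    have h1 : 1 ≤ M ^ (2 * η) := Real.one_le_rpow hM1 (by positivity)
    have h2 : 32 / lam ^ 2 = 32 * M ^ (2 * η) := by
      rw [hpw, Real.rpow_neg hM0.le, div_inv_eq_mul]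
      congr 2
      push_cast
      ring
    have h3 : (M ^ (2 * η)) ^ 2 * M ^ (ε / 2) ≤ M ^ ε := by
      rw [← Real.rpow_natCast, ← Real.rpow_mul hM0.le, ← Real.rpow_add hM0]
      refine Real.rpow_le_rpow_of_exponent_le hM1 ?_
      push_cast
      linarith
    have h4 : (32 / lam ^ 2 + 2) ^ 2 * (max C1 0 * M ^ (ε / 2)) ≤ 34 ^ 2 * max C1 0 * M ^ ε := by
      calc (32 / lam ^ 2 + 2) ^ 2 * (max C1 0 * M ^ (ε / 2))
          ≤ (34 * M ^ (2 * η)) ^ 2 * (max C1 0 * M ^ (ε / 2)) := by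
            gcongr
            rw [h2]
            linarith
        _ = 34 ^ 2 * max C1 0 * ((M ^ (2 * η)) ^ 2 * M ^ (ε / 2)) := by ring
        _ ≤ _ := by gcongr
    calc _ ≤ ((256 * (Cn e' + 1) : ℕ) : ℝ) *
          (Ks * (34 ^ 2 * max C1 0 * M ^ ε) + max C2 0 * M ^ ε) := by gcongr
      _ = _ := by ring
  · intro k
    refine Finset.card_biUnion_le.trans ?_
    simpa using Finset.sum_le_card_nsmul Finset.univ (fun I ↦ (Z k I).card) _ fun I _ ↦ hZc k I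
  · intro k hk S' hS' hfar hdiam
    rcases S'.eq_empty_or_nonempty with rfl | ⟨s0, hs0⟩
    · simp only [Finset.card_empty, Nat.cast_zero]
      positivity
    have hδ0 : 0 < lam ^ k := by positivity
    have hδ1 : lam ^ k ≤ 1 := pow_le_one₀ hlam0.le hlam1
    have hnear : ∀ s ∈ S', ‖s - s0‖ ≤ lam ^ k * lam / 4 := fun s hs ↦ by
      have := hdiam s hs s0 hs0
      rw [pow_succ] at this
      exact this.le
    have hin : ∀ s ∈ S', s ∈ ball s0 (lam ^ k) := fun s hs ↦ by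
      rw [mem_ball, dist_eq_norm]
      have := hnear s hs
      nlinarith
    have hyb : ∀ s ∈ S', ∀ i, ‖(y s i : ℂ)‖ ≤ M ^ 15 := fun s hs i ↦ by
      simpa [Complex.norm_intCast] using (hS s (hS' hs)).2.1 i
    have hball : ∀ s ∈ ball s0 (lam ^ k), ‖s‖ ≤ 2 := by
      intro s hs
      rw [mem_ball, dist_eq_norm] at hs
      have h5 := norm_add_le (s - s0) s0
      rw [sub_add_cancel] at h5
      linarith [(hS s0 (hS' hs0)).1]
    have hyp' : Hyp y S' (m + 1) (d (ks g + c0)) := by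
      refine hpiece (ks g + c0) M (lam ^ k) ((M ^ ks (g + 1))⁻¹ * M ^ (ks g + c0 + 15 * e')) s0 S'
        y hM hδ0 (by positivity) (le_of_eq ?_) (fun s hs ↦ (hS s (hS' hs)).2.1) hnear ?_
      · rw [mul_assoc, ← pow_add, ← hks, inv_mul_cancel₀ (by positivity)]
      refine hred (holo (ball s0 (lam ^ k))) (ball s0 (lam ^ k)) S' (fun s i ↦ (y s i : ℂ)) _ _ _
        (one_le_pow₀ hM1) (by positivity) (one_le_pow₀ hM1) (fun s hs ↦ ⟨hin s hs, hyb s hs⟩)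
        fun I hI ↦ ?_
      have hup : ∀ α ∈ (F I).support, ∀ s ∈ ball s0 (lam ^ k),
          ‖φ I α s‖ ≤ M ^ Cn e' * ‖φ I α (p I α)‖ := fun α hα s hs ↦
        (hp3 I hI α hα s (by linarith [hball s hs])).trans (by gcongr)
      obtain ⟨ρ, h1, h2, h3⟩ := solve_lead2 (k := ks g + 111 * (Cn e' + 2)) (C := Cn e')
        (ω := (M ^ ks (g + 1))⁻¹) hM (hN I hI) (by positivity) hA.2.1 (F I) (hFd I hI) (hTs I)
        (hl I hI) (ball s0 (lam ^ k)) (by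
          intro s hs
          have h4 := hball s hs
          rw [mem_ball, dist_eq_norm] at hs
          rw [hφ]
          refine ⟨by linarith, hZ k I hk hI s h4 fun z hz ↦ ?_⟩
          have h6 := hfar s0 hs0 z (Finset.mem_biUnion.2 ⟨I, Finset.mem_univ _, hz⟩)
          have h7 := norm_sub_le (s - z) (s - s0)
          rw [show s - z - (s - s0) = s0 - z by ring] at h7
          linarith)
        (fun α hα s hs ↦ by
          rw [hφ]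
          refine (hup α (hTs I hα) s hs).trans ?_
          gcongr
          exact hmax I hI α (hTs I hα))
        (fun α hα hn s hs ↦ by
          rw [hφ, mul_assoc]
          refine (hup α hα s hs).trans ?_
          have h8 := hgap ⟨I, α⟩ (Finset.mem_sigma.2 ⟨by simpa using hI, hα⟩)
            (not_le.1 fun h ↦ hn ((hT I α).2 ⟨hα, h⟩))
          rw [div_lt_iff₀' (hN I hI)] at h8
          gcongr)
      have he : 8 * e' + Cn e' + (ks g + 111 * (Cn e' + 2)) = ks g + c0 := by omega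
      rw [he] at h2 h3
      refine ⟨l I, (T I).erase (l I), ρ, ?_, hle I hI, fun α hα ↦ ⟨h1 α, ?_⟩, h2,
        fun s hs ↦ h3 s (hin s hs) _ (hyb s hs) (hF I hI s (hS' hs))⟩
      · exact fun i hi ↦ hFv I hI
          ((MvPolynomial.mem_vars_iff_mem_support i).2 ⟨_, hTs I (hl I hI), hi⟩)
      · exact hlead I hI α (Finset.mem_of_mem_erase hα) (Finset.ne_of_mem_erase hα)
    refine (hC1' g M f D y S' hA (fun s hs ↦ hS s (hS' hs)) hyp').trans ?_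
    gcongr
    exact (hC1g g hgG).trans (le_max_left _ _)
  · intro z S' hS' hz
    have h1 := tinyE (z := z) (S := S') (y := y) hM hA.2.1 hA.2.2.1 hA.2.2.2.1 hA.2.2.2.2.1
      hA.2.2.2.2.2 fun s hs ↦ ⟨(hS s (hS' hs)).1, (hz s hs).trans hsmall, (hS s (hS' hs)).2⟩
    have h2 : (S'.card : ℝ) ≤ C2 := by rw [hC2]; exact_mod_cast h1
    exact (h2.trans (le_max_left _ _)).trans
      (le_mul_of_one_le_right (le_max_right _ _) (Real.one_le_rpow hM1 hε.le))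

theorem bnd_all (Cn : ℕ → ℕ) (m : ℕ) : Bnd Cn m := by
  induction m with
  | zero => exact bnd_zero Cn
  | succ m ih => exact bnd_succ Cn m ih

/-- the relation `m + τ n = 0` with `n ≠ 0` and entries at most `H` -/
def RelH (D : ℕ) (H : ℝ) (T : Fin 3 → ℂ) : Prop :=
  ∃ y : Fin 8 → ℤ, (∀ i, |(y i : ℝ)| ≤ H) ∧
    zd D (y 0) (y 1) + T 0 * zd D (y 4) (y 5) + T 1 * zd D (y 6) (y 7) = 0 ∧
    zd D (y 2) (y 3) + T 1 * zd D (y 4) (y 5) + T 2 * zd D (y 6) (y 7) = 0 ∧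
    (zd D (y 4) (y 5) ≠ 0 ∨ zd D (y 6) (y 7) ≠ 0)

theorem count_one (Cn : ℕ → ℕ) {ε : ℝ} (hε : 0 < ε) : ∃ C : ℝ, ∀ (M : ℝ)
    (f : Fin 3 → ℂ → ℂ) (D : ℕ) (S : Finset ℂ), Amb Cn M f D →
    (∀ u ∈ S, ‖u‖ ≤ 1 ∧ ∃ y : Fin 8 → ℤ, (∀ i, |(y i : ℝ)| ≤ M ^ 15) ∧ RelE D y fun i ↦ f i u) →
    (S.card : ℝ) ≤ C * M ^ ε := by
  obtain ⟨C, hC⟩ := bnd_all Cn 7 0 ε hε
  refine ⟨C, fun M f D S hA hS ↦ ?_⟩
  choose! y hy using fun u hu ↦ (hS u hu).2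
  refine hC M f D y S hA (fun u hu ↦ ⟨(hS u hu).1, hy u hu⟩) fun I hI ↦ ?_
  have := Finset.card_le_univ I
  rw [hI, Fintype.card_fin] at this
  omega

theorem nd_perm {f : Fin 3 → ℂ → ℂ} {Cn : ℕ → ℕ} (h : NDegC f Cn) (σ : Equiv.Perm (Fin 3)) :
    NDegC (fun i ↦ f (σ i)) Cn := by
  intro e c hc he
  have := h e (MvPolynomial.rename σ c)
    (fun h0 ↦ hc (MvPolynomial.rename_injective σ σ.injective (by rw [h0, map_zero])))
    ((MvPolynomial.totalDegree_rename_le _ _).trans he)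
  simpa only [MvPolynomial.eval_rename, Function.comp_def] using this

theorem count_core (Cn : ℕ → ℕ) {ε : ℝ} (hε : 0 < ε) : ∃ C : ℝ, ∀ (M : ℝ)
    (f : Fin 3 → ℂ → ℂ) (D : ℕ) (S : Finset ℂ), Amb Cn M f D →
    (∀ u ∈ S, ‖u‖ ≤ 1 ∧ RelH D (M ^ 15) fun i ↦ f i u) → (S.card : ℝ) ≤ C * M ^ ε := by
  classical
  obtain ⟨C, hC⟩ := count_one Cn hε
  refine ⟨C + C, fun M f D S hA hS ↦ ?_⟩
  choose! y hy using fun u hu ↦ (hS u hu).2
  rw [← Finset.card_filter_add_card_filter_not (s := S) fun u ↦ zd D (y u 6) (y u 7) ≠ 0,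
    Nat.cast_add, add_mul]
  refine add_le_add (hC M f D _ hA fun u hu ↦ ?_) (hC M (fun i ↦ f (Equiv.swap 0 2 i)) D _
    ⟨hA.1, fun i ↦ hA.2.1 _, fun i ↦ hA.2.2.1 _, nd_perm hA.2.2.2.1 _, hA.2.2.2.2⟩ fun u hu ↦ ?_)
  · obtain ⟨h1, h2⟩ := Finset.mem_filter.1 hu
    exact ⟨(hS u h1).1, y u, (hy u h1).1, (hy u h1).2.1, (hy u h1).2.2.1, h2⟩
  · obtain ⟨h1, h2⟩ := Finset.mem_filter.1 hu
    obtain ⟨a0, a1, a2, a3⟩ := hy u h1
    refine ⟨(hS u h1).1, ![y u 2, y u 3, y u 0, y u 1, y u 6, y u 7, y u 4, y u 5],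
      fun i ↦ by fin_cases i <;> exact a0 _, ?_, ?_, a3.resolve_right h2⟩
    · change zd D (y u 2) (y u 3) + f 2 u * zd D (y u 6) (y u 7) + f 1 u * zd D (y u 4) (y u 5) = 0
      linear_combination a2
    · change zd D (y u 0) (y u 1) + f 1 u * zd D (y u 6) (y u 7) + f 0 u * zd D (y u 4) (y u 5) = 0
      linear_combination a1

end Pool.Agent.Lib.ECM.CNT
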