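import Pool.Agent.Lib.ECM.CNB
import Pool.Agent.Lib.ZP3.Nd2
import Pool.Agent.Lib.ZP3.CountCore

/-! Block CNT, third part: counting in a logarithmic chart. -/

open Filter Topology Metric Complex
open scoped Real

namespace Pool.Agent.Lib.ECM.CNT

open Pool.Agent.Lib.ZP3 Pool.Agent.Lib.ZP3.CNT

theorem RelH.mono {D : ℕ} {H H' : ℝ} {T : Fin 3 → ℂ} (h : RelH D H T) (hH : H ≤ H') :
    RelH D H' T := by
  obtain ⟨y, h1, h2⟩ := h
  exact ⟨y, fun i ↦ (h1 i).trans hH, h2⟩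

theorem count_K (Cn : ℕ → ℕ) {ε K : ℝ} (hε : 0 < ε) (hK : 1 ≤ K) : ∃ C : ℝ, 0 ≤ C ∧ ∀ (M : ℝ)
    (f : Fin 3 → ℂ → ℂ) (D : ℕ) (S : Finset ℂ), 2 ≤ M →
    (∀ i, AnalyticOnNhd ℂ (f i) (closedBall 0 10)) → (∀ i s, ‖s‖ ≤ 10 → ‖f i s‖ ≤ K * M) →
    NDegC f Cn → 0 < D → (D : ℝ) ≤ M →
    (∀ u ∈ S, ‖u‖ ≤ 1 ∧ RelH D (M ^ 15) fun i ↦ f i u) → (S.card : ℝ) ≤ C * M ^ ε := by
  obtain ⟨C, hC⟩ := count_core Cn hε
  refine ⟨|C| * K ^ ε, by positivity, fun M f D S hM hf hb hn hD hDM hS ↦ ?_⟩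
  have h1 : M ≤ K * M := le_mul_of_one_le_left (by linarith) hK
  refine (hC (K * M) f D S ⟨by linarith, hf, hb, hn, hD, by linarith⟩ fun u hu ↦
    ⟨(hS u hu).1, (hS u hu).2.mono (by gcongr)⟩).trans ?_
  rw [Real.mul_rpow (by linarith) (by linarith), mul_assoc]
  exact mul_le_mul_of_nonneg_right (le_abs_self C) (by positivity)

theorem exists_bd {g : Fin 3 → ℂ → ℂ} {r : ℝ} (hr : 0 < r)
    (hg : ∀ i, AnalyticOnNhd ℂ (g i) (ball 0 r)) :
    ∃ K : ℝ, 1 ≤ K ∧ ∀ i u, ‖u‖ ≤ r / 2 → ‖g i u‖ ≤ K := by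
  have h : ∀ i, ∃ K : ℝ, ∀ u ∈ closedBall (0 : ℂ) (r / 2), ‖g i u‖ ≤ K := fun i ↦
    (isCompact_closedBall 0 (r / 2)).exists_bound_of_continuousOn
      ((hg i).continuousOn.mono (closedBall_subset_ball (by linarith)))
  choose K hK using h
  refine ⟨1 + ∑ i, |K i|, le_add_of_nonneg_right (by positivity), fun i u hu ↦ ?_⟩
  have := Finset.single_le_sum (f := fun i ↦ |K i|) (fun _ _ ↦ abs_nonneg _) (Finset.mem_univ i)
  linarith [hK i u (mem_closedBall_zero_iff.2 hu), le_abs_self (K i)]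

/-- a chart without logarithmic term -/
theorem count_reg (g : Fin 3 → ℂ → ℂ) {r : ℝ} (hr : 0 < r)
    (hg : ∀ i, AnalyticOnNhd ℂ (g i) (ball 0 r))
    (hind : ∀ c : MvPolynomial (Fin 3) ℂ, (∀ w : ℂ, ‖exp w‖ < r →
      MvPolynomial.eval (fun i ↦ g i (exp w)) c = 0) → c = 0) {ε : ℝ} (hε : 0 < ε) :
    ∃ C : ℝ, 0 ≤ C ∧ ∀ (M : ℝ) (D : ℕ) (S : Finset ℂ), 2 ≤ M → 0 < D → (D : ℝ) ≤ M →
      (∀ u ∈ S, ‖u‖ ≤ r / 20 ∧ RelH D (M ^ 15) fun i ↦ g i u) → (S.card : ℝ) ≤ C * M ^ ε := by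
  obtain ⟨K, hK, hb⟩ := exists_bd hr hg
  have hn : ∀ s : ℂ, ‖((r / 20 : ℝ) : ℂ) * s‖ = r / 20 * ‖s‖ := fun s ↦ by
    rw [norm_mul, norm_real, Real.norm_of_nonneg (by positivity)]
  have h10 : ∀ s : ℂ, ‖s‖ ≤ 10 → ‖((r / 20 : ℝ) : ℂ) * s‖ ≤ r / 2 := fun s hs ↦ by
    rw [hn]
    nlinarith
  have hf : ∀ i, AnalyticOnNhd ℂ (fun s ↦ g i (((r / 20 : ℝ) : ℂ) * s)) (closedBall 0 10) :=
    fun i s hs ↦ (hg i _ (mem_ball_zero_iff.2 ((h10 s (mem_closedBall_zero_iff.1 hs)).trans_lt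
      (by linarith)))).fun_comp (f := fun s ↦ ((r / 20 : ℝ) : ℂ) * s)
      (analyticAt_const.mul analyticAt_id)
  have hdiv : ∀ u : ℂ, ((r / 20 : ℝ) : ℂ) * (u / ((r / 20 : ℝ) : ℂ)) = u := fun u ↦
    mul_div_cancel₀ _ (ofReal_ne_zero.2 (by positivity))
  have hle : ∀ u : ℂ, ‖u‖ ≤ r / 20 → ‖u / ((r / 20 : ℝ) : ℂ)‖ ≤ 1 := fun u hu ↦ by
    rw [norm_div, norm_real, Real.norm_of_nonneg (by positivity), div_le_one (by positivity)]
    exact hu
  obtain ⟨Cn, hCn⟩ := nd_compactC hf fun c hc ↦ hind c fun w hw ↦ by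
    have a1 : AnalyticOnNhd ℂ (fun u ↦ MvPolynomial.eval (fun i ↦ g i u) c) (ball 0 r) :=
      AnalyticOnNhd.aeval_mvPolynomial (f := fun s i ↦ g i s) hg c
    refine a1.eqOn_zero_of_preconnected_of_eventuallyEq_zero (convex_ball 0 r).isPreconnected
      (mem_ball_self hr) ?_ (mem_ball_zero_iff.2 hw)
    filter_upwards [closedBall_mem_nhds (0 : ℂ) (show 0 < r / 20 by positivity)] with u hu
    have := hc _ ((hle u (mem_closedBall_zero_iff.1 hu)).trans one_le_two)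
    rwa [hdiv] at this
  obtain ⟨C, hC0, hC⟩ := count_K Cn hε hK
  refine ⟨C, hC0, fun M D S hM hD hDM hS ↦ ?_⟩
  refine card_le_of_param S (fun s ↦ ((r / 20 : ℝ) : ℂ) * s) (fun s ↦ ‖s‖ ≤ 1)
    (fun u hu ↦ ⟨_, hle u (hS u hu).1, hdiv u⟩) fun S' hS' ↦ ?_
  exact hC M _ D S' hM hf (fun i s hs ↦ (hb i _ (h10 s hs)).trans
    (le_mul_of_one_le_right (by linarith) (by linarith))) hCn hD hDM
    fun s hs ↦ ⟨(hS' s hs).1, (hS _ (hS' s hs).2).2⟩

/-- a chart with logarithmic term, down to depth `L * Y` -/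
theorem count_log (m : Fin 3 → ℂ) (g : Fin 3 → ℂ → ℂ) {r : ℝ} (hr : 0 < r)
    (hg : ∀ i, AnalyticOnNhd ℂ (g i) (ball 0 r))
    (hind : ∀ c : MvPolynomial (Fin 3) ℂ, (∀ w : ℂ, ‖exp w‖ < r →
      MvPolynomial.eval (fun i ↦ m i * w + g i (exp w)) c = 0) → c = 0) {ε L : ℝ} (hε : 0 < ε)
    (hL : 0 ≤ L) : ∃ C : ℝ, 0 ≤ C ∧ ∀ (M Y : ℝ) (D : ℕ) (S : Finset ℂ), 2 ≤ M → 1 ≤ Y → Y ≤ M →
      0 < D → (D : ℝ) ≤ M → (∀ w ∈ S, w.re ≤ Real.log r - 11 ∧ |w.im| ≤ π ∧ ‖w‖ ≤ L * Y ∧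
        RelH D (M ^ 15) fun i ↦ m i * w + g i (exp w)) → (S.card : ℝ) ≤ C * Y * M ^ ε := by
  obtain ⟨K, hK, hb⟩ := exists_bd hr hg
  obtain ⟨Cn, hCn⟩ := nd_cuspC g m hr hg hind
  have l0 := abs_nonneg (Real.log r)
  have m0 := norm_nonneg m
  obtain ⟨C, hC0, hC⟩ := count_K Cn (K := ‖m‖ * (2 * |Real.log r| + L + 25) + K) hε
    (le_add_of_nonneg_of_le (by positivity) hK)
  refine ⟨(|Real.log r| + L + 1) * 9 * C, by positivity, fun M Y D S hM hY hYM hD hDM hS ↦ ?_⟩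
  have s1 := card_le_of_cover S (Finset.range ⌈(|Real.log r| + L) * Y⌉₊ ×ˢ Finset.Icc (-4 : ℤ) 4)
    (fun q w ↦ ‖w - ctr r q.1 q.2‖ ≤ 1) (Q := C * M ^ ε) (fun w hw ↦ by
      obtain ⟨b4, b5, b1, -⟩ := hS w hw
      have b2 := abs_le.1 ((abs_re_le_norm w).trans b1)
      rw [abs_le] at b5
      have c1 := Nat.floor_le (a := Real.log r - 11 - w.re + 1 / 2) (by linarith)
      have c2 := Nat.lt_floor_add_one (Real.log r - 11 - w.re + 1 / 2)
      have c5 := abs_sub_round w.im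
      generalize ⌊Real.log r - 11 - w.re + 1 / 2⌋₊ = k at c1 c2
      refine ⟨(k, round w.im), Finset.mem_product.2
        ⟨Finset.mem_range.2 (Nat.lt_ceil.2 ?_), Finset.mem_Icc.2 (abs_le.1 ?_)⟩, ?_⟩
      · nlinarith [le_abs_self (Real.log r)]
      · have h1 : |((round w.im : ℤ) : ℝ)| < 5 := by
          have := Real.pi_lt_four
          rw [abs_le] at c5
          rw [abs_lt]
          constructor <;> linarith
        have h2 : |round w.im| < 5 := by exact_mod_cast h1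
        exact Int.le_of_lt_add_one h2
      · refine (norm_le_abs_re_add_abs_im _).trans ?_
        have h1 : (w - ctr r k (round w.im)).re = w.re - (Real.log r - 11 - k) := by simp [ctr]
        have h2 : (w - ctr r k (round w.im)).im = w.im - round w.im := by simp [ctr]
        have h3 : |w.re - (Real.log r - 11 - k)| ≤ 1 / 2 := abs_le.2 ⟨by linarith, by linarith⟩
        rw [h1, h2]
        linarith)
    fun q hq S' hS' ↦ by
      obtain ⟨k, l⟩ := q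
      obtain ⟨q1, q2⟩ := Finset.mem_product.1 hq
      have hl : |l| ≤ 4 := abs_le.2 (Finset.mem_Icc.1 q2)
      have hk : (k : ℝ) < (|Real.log r| + L) * Y := Nat.lt_ceil.1 (Finset.mem_range.1 q1)
      refine card_le_of_param S' (fun s ↦ ctr r k l + s) (fun s ↦ ‖s‖ ≤ 1)
        (fun w hw ↦ ⟨w - ctr r k l, (hS' w hw).2, by ring⟩) fun S'' hS'' ↦ ?_
      refine hC M (fun i s ↦ m i * (ctr r k l + s) + g i (exp (ctr r k l + s))) D S'' hM
        (fun i s hs ↦ ?_) (fun i s hs ↦ ?_) (hCn k l hl) hD hDM fun s hs ↦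
          ⟨(hS'' s hs).1, (hS _ (hS' _ (hS'' s hs).2).1).2.2.2⟩
      · have a1 : AnalyticAt ℂ (fun s ↦ ctr r k l + s) s := analyticAt_const.add analyticAt_id
        exact (analyticAt_const.mul a1).add ((hg i _ (mem_ball_zero_iff.2 ((norm_exp_ctr hr k l
          (mem_closedBall_zero_iff.1 hs)).trans_lt (by linarith)))).fun_comp
          (f := fun s ↦ exp (ctr r k l + s)) a1.cexp')
      · have b3 : |(l : ℝ)| ≤ 4 := by exact_mod_cast hl
        have b4 : ‖ctr r k l‖ ≤ |Real.log r| + 15 + k := by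
          refine (norm_le_abs_re_add_abs_im _).trans ?_
          have h1 : (ctr r k l).re = Real.log r - 11 - k := by simp [ctr]
          have h2 : (ctr r k l).im = l := by simp [ctr]
          have h3 : |Real.log r - 11 - k| ≤ |Real.log r| + 11 + k := by
            have : (0 : ℝ) ≤ k := Nat.cast_nonneg k
            rw [abs_le]
            constructor <;> linarith [le_abs_self (Real.log r), neg_abs_le (Real.log r)]
          rw [h1, h2]
          linarith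
        have b5 : ‖ctr r k l + s‖ ≤ (2 * |Real.log r| + L + 25) * M :=
          (norm_add_le _ _).trans (by nlinarith [mul_le_mul_of_nonneg_left hYM (add_nonneg l0 hL)])
        have b6 := hb i _ (norm_exp_ctr hr k l hs)
        refine (norm_add_le _ _).trans ?_
        rw [norm_mul, add_mul, mul_assoc]
        exact add_le_add (mul_le_mul (norm_le_pi_norm m i) b5 (norm_nonneg _) m0) (by nlinarith)
  have t1 : (Finset.Icc (-4 : ℤ) 4).card = 9 := by simp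
  have t2 := (Nat.ceil_lt_add_one (a := (|Real.log r| + L) * Y) (by positivity)).le
  rw [Finset.card_product, Finset.card_range, t1] at s1
  push_cast at s1
  have t3 : 0 ≤ M ^ ε := by positivity
  calc _ ≤ (|Real.log r| + L + 1) * Y * 9 * (C * M ^ ε) := s1.trans (by gcongr; linarith)
    _ = _ := by ring

/-- counting in one chart: the points are the values `u = exp w` -/
theorem count_chart (m : Fin 3 → ℂ) (g : Fin 3 → ℂ → ℂ) {r : ℝ} (hr : 0 < r)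
    (hg : ∀ i, AnalyticOnNhd ℂ (g i) (ball 0 r))
    (hind : ∀ c : MvPolynomial (Fin 3) ℂ, (∀ w : ℂ, ‖exp w‖ < r →
      MvPolynomial.eval (fun i ↦ m i * w + g i (exp w)) c = 0) → c = 0) {ε : ℝ} (hε : 0 < ε) :
    ∃ C : ℝ, 0 ≤ C ∧ ∀ (M Y : ℝ) (D : ℕ) (S : Finset ℂ), 2 ≤ M → 1 ≤ Y → Y ≤ M →
      0 < D → (D : ℝ) ≤ M → (∀ u ∈ S, ‖u‖ ≤ r * Real.exp (-11) ∧ ∃ w, exp w = u ∧ |w.im| ≤ π ∧
        ‖fun i ↦ m i * w + g i (exp w)‖ ≤ Y ∧ RelH D (M ^ 15) fun i ↦ m i * w + g i (exp w)) →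
      (S.card : ℝ) ≤ C * Y * M ^ ε := by
  have e1 : r * Real.exp (-11) ≤ r / 20 := by
    have h1 : 20 ≤ Real.exp 11 := by
      have := Real.quadratic_le_exp_of_nonneg (show (0 : ℝ) ≤ 11 by norm_num)
      linarith
    rw [Real.exp_neg, ← div_eq_mul_inv]
    gcongr
  by_cases hm : m = 0
  · subst hm
    simp only [Pi.zero_apply, zero_mul, zero_add] at hind ⊢
    obtain ⟨C, hC0, hC⟩ := count_reg g hr hg hind hε
    refine ⟨C, hC0, fun M Y D S hM hY _ hD hDM hS ↦ (hC M D S hM hD hDM fun u hu ↦ ?_).trans ?_⟩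
    · obtain ⟨a1, w, rfl, -, -, a2⟩ := hS u hu
      exact ⟨a1.trans e1, a2⟩
    · rw [mul_right_comm]
      exact le_mul_of_one_le_right (by positivity) hY
  obtain ⟨i, hi⟩ := Function.ne_iff.1 hm
  have hi' : 0 < ‖m i‖ := norm_pos_iff.2 hi
  obtain ⟨K, hK, hb⟩ := exists_bd hr hg
  obtain ⟨C, hC0, hC⟩ := count_log m g hr hg hind (L := (1 + K) / ‖m i‖) hε (by positivity)
  refine ⟨C, hC0, fun M Y D S hM hY hYM hD hDM hS ↦ ?_⟩
  refine card_le_of_param S exp (fun w ↦ |w.im| ≤ π ∧ ‖fun i ↦ m i * w + g i (exp w)‖ ≤ Y ∧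
    RelH D (M ^ 15) fun i ↦ m i * w + g i (exp w)) (fun u hu ↦ ?_) fun S' hS' ↦
      hC M Y D S' hM hY hYM hD hDM fun w hw ↦ ?_
  · obtain ⟨-, w, a1, a2⟩ := hS u hu
    exact ⟨w, a2, a1⟩
  · obtain ⟨⟨a1, a2, a3⟩, a4⟩ := hS' w hw
    have a5 := (hS _ a4).1
    refine ⟨?_, a1, ?_, a3⟩
    · rwa [norm_exp, ← Real.exp_log hr, ← Real.exp_add, Real.exp_le_exp, ← sub_eq_add_neg] at a5
    · have a6 := (norm_le_pi_norm (fun i ↦ m i * w + g i (exp w)) i).trans a2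
      have a7 := hb i _ ((a5.trans e1).trans (by linarith))
      have a8 := norm_sub_le (m i * w + g i (exp w)) (g i (exp w))
      rw [add_sub_cancel_right, norm_mul] at a8
      rw [div_mul_eq_mul_div, le_div_iff₀ hi']
      nlinarith

end Pool.Agent.Lib.ECM.CNT
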