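import Pool.Agent.Lib.ECM.CNC
import Pool.Agent.Lib.ECM.THBlue
import Pool.Agent.Lib.ECM.CMT

/-! Block CNT, fourth part: the size of the relation at a reduced point. -/

open UpperHalfPlane hiding I
open Filter Topology Metric Complex
open scoped Real

namespace Pool.Agent.Lib.ECM.CNT

open Pool.Agent.Lib.ECM.CM

theorem cover_le {α ι : Type} (S : Finset α) (I : Finset ι) (p : ι → α → Prop) (Q : ι → ℝ)
    (hcov : ∀ t ∈ S, ∃ i ∈ I, p i t)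
    (hQ : ∀ i ∈ I, ∀ S' : Finset α, (∀ t ∈ S', t ∈ S ∧ p i t) → (S'.card : ℝ) ≤ Q i) :
    (S.card : ℝ) ≤ ∑ i ∈ I, Q i := by
  classical
  have h1 : S ⊆ I.biUnion fun i ↦ S.filter (p i) := fun t ht ↦ by
    obtain ⟨i, hi, h⟩ := hcov t ht
    exact Finset.mem_biUnion.2 ⟨i, hi, Finset.mem_filter.2 ⟨ht, h⟩⟩
  have h2 := (Finset.card_le_card h1).trans Finset.card_biUnion_le
  have h3 : (S.card : ℝ) ≤ ∑ i ∈ I, ((S.filter (p i)).card : ℝ) := by exact_mod_cast h2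
  exact h3.trans (Finset.sum_le_sum fun i hi ↦ hQ i hi _ fun t ht ↦ Finset.mem_filter.1 ht)

theorem abs_le_cube {M : ℝ} (hM : 2 ≤ M) {x y : ℝ} (h : x ^ 2 + y ^ 2 ≤ 2 * M ^ 4) :
    |x| ≤ M ^ 3 ∧ |y| ≤ M ^ 3 := by
  have h1 : 2 * M ^ 4 ≤ (M ^ 3) ^ 2 := by
    have : 0 < M ^ 4 := by positivity
    rw [show (M ^ 3) ^ 2 = M ^ 2 * M ^ 4 by ring]
    gcongr
    nlinarith
  exact ⟨abs_le_of_sq_le_sq' (by nlinarith [sq_nonneg y]) (by positivity) |> abs_le.2,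
    abs_le_of_sq_le_sq' (by nlinarith [sq_nonneg x]) (by positivity) |> abs_le.2⟩

/-- the integral relation attached to an elliptic curve with complex multiplication -/
theorem relH_of (hH : St_HERM) : ∃ C : ℝ, 0 < C ∧ ∀ τ ∈ Red, ∀ (v : V2) (t : ℍ) (D : ℕ) (M : ℝ),
    2 ≤ M → C ≤ M → (τ 2).im ≤ M → (D : ℝ) ≤ M → τ ∈ H2 → v ≠ 0 → t ∈ ModularGroup.fd → Fm D t →
    v ∈ Lat τ → (t : ℂ) • v ∈ Lat τ → t.im * Hn τ v ≤ M → RelH D (M ^ 15) τ := by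
  obtain ⟨C, hC, h⟩ := hH.red
  refine ⟨C, hC, fun τ hτ v t D M hM hCM hy hD h2 hv ht ⟨a, b, c, ha, hd, hq⟩ ⟨m, n, e⟩
    ⟨m', n', e'⟩ hN ↦ ?_⟩
  have t0 := t.im_pos
  have a1 : (1 : ℝ) ≤ a := by exact_mod_cast ha
  obtain ⟨r1, r2⟩ := hq.red ha hd ht
  have r3 : 3 * (a : ℝ) ^ 2 ≤ D := by exact_mod_cast r2
  have r4 : |(b : ℝ)| ≤ a := by exact_mod_cast r1
  have aM : (a : ℝ) ≤ M := by nlinarith
  have q1 := hq.re_im.1
  have q2 := hq.im_eq ha hd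
  have q3 : 1 / 2 ≤ t.im := by
    nlinarith [ModularGroup.three_le_four_mul_im_sq_of_mem_fd ht]
  have q4 : normSq (t : ℂ) ≤ M := by
    have b1 : (2 * a * t.im) ^ 2 = D := by rw [q2, Real.sq_sqrt (Nat.cast_nonneg D)]
    have b2 : t.re ^ 2 ≤ 1 / 4 := by
      have := abs_le.1 ht.2
      nlinarith
    have b3 : 4 * t.im ^ 2 ≤ D := by
      rw [← b1, mul_pow, mul_pow]
      gcongr
      nlinarith
    rw [normSq_apply, coe_re, coe_im]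
    nlinarith
  have n0 := hH.nonneg τ h2 v
  have n1 : Hn τ v ≤ 2 * M := by nlinarith
  have n2 : Hn τ ((t : ℂ) • v) ≤ M * (2 * M) := by
    rw [hH.smul]
    exact mul_le_mul q4 n1 n0 (by linarith)
  have y0 : 0 ≤ (τ 2).im := by linarith [hτ.2.2.1, hτ.2.2.2.1]
  have key : ∀ m n : ℤ × ℤ, Hn τ (per τ (iv m) (iv n)) ≤ M * (2 * M) →
      (|(m.1 : ℝ)| ≤ M ^ 3 ∧ |(m.2 : ℝ)| ≤ M ^ 3) ∧ |(n.1 : ℝ)| ≤ M ^ 3 ∧ |(n.2 : ℝ)| ≤ M ^ 3 := by
    intro m n hn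
    obtain ⟨b1, b2⟩ := (h τ hτ).2 m n
    have b0 := hH.nonneg τ h2 (per τ (iv m) (iv n))
    refine ⟨abs_le_cube hM (b2.trans ?_), abs_le_cube hM (b1.trans ?_)⟩
    · calc _ ≤ M * M * (M * (2 * M)) := by gcongr
        _ = _ := by ring
    · calc _ ≤ M * M * (M * (2 * M)) := by gcongr; nlinarith
        _ = _ := by ring
  obtain ⟨⟨k1, k2⟩, k3, k4⟩ := key m n (e ▸ n1.trans (by nlinarith))
  obtain ⟨⟨k5, k6⟩, k7, k8⟩ := key m' n' (e' ▸ n2)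
  have p1 : M ^ 3 ≤ M ^ 15 := pow_le_pow_right₀ (by linarith) (by omega)
  have w1 : ∀ x : ℤ, |(x : ℝ)| ≤ M ^ 3 → |((-x : ℤ) : ℝ)| ≤ M ^ 15 := fun x hx ↦ by
    rw [Int.cast_neg, abs_neg]
    exact hx.trans p1
  have w2 : ∀ x y : ℤ, |(x : ℝ)| ≤ M ^ 3 → |(y : ℝ)| ≤ M ^ 3 →
      |((2 * a * x + b * y : ℤ) : ℝ)| ≤ M ^ 15 := fun x y hx hy ↦ by
    push_cast
    refine (abs_add_le _ _).trans ?_
    rw [abs_mul, abs_mul, abs_mul, abs_of_pos (show (0 : ℝ) < a by linarith), abs_two]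
    have b4 := r4.trans aM
    calc _ ≤ 2 * M * M ^ 3 + M * M ^ 3 := by gcongr
      _ = 3 * M ^ 4 := by ring
      _ ≤ M ^ 2 * M ^ 4 := by gcongr; nlinarith
      _ = M ^ 6 := by ring
      _ ≤ _ := pow_le_pow_right₀ (by linarith) (by omega)
  have w3 : ∀ x y : ℤ, zd D (2 * a * x + b * y) (-y) = 2 * a * (x - t * y) := fun x y ↦ by
    have b1 : 2 * (a : ℂ) * t = -b + (√D : ℝ) * I := by
      rw [← q2]
      refine Complex.ext ?_ ?_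
      · simpa using q1
      · simp
    simp only [zd]
    push_cast
    linear_combination (y : ℂ) * b1
  have w4 : ∀ x y : ℤ, (x : ℂ) - t * y = 0 → y = 0 ∧ x = 0 := fun x y hxy ↦ by
    have b1 := congrArg Complex.im hxy
    have b2 : y = 0 := by simpa [t0.ne'] using b1
    exact ⟨b2, by simpa [b2] using hxy⟩
  have c0 := congrFun e' 0
  have c1 := congrFun e' 1
  simp only [e, per, iv, Pi.smul_apply, smul_eq_mul, Matrix.cons_val_zero,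
    Matrix.cons_val_one] at c0 c1
  refine ⟨![2 * a * m'.1 + b * m.1, -m.1, 2 * a * m'.2 + b * m.2, -m.2, 2 * a * n'.1 + b * n.1,
    -n.1, 2 * a * n'.2 + b * n.2, -n.2], fun i ↦ ?_, ?_, ?_, ?_⟩
  · fin_cases i
    exacts [w2 _ _ k5 k1, w1 _ k1, w2 _ _ k6 k2, w1 _ k2, w2 _ _ k7 k3, w1 _ k3, w2 _ _ k8 k4,
      w1 _ k4]
  · change zd D (2 * a * m'.1 + b * m.1) (-m.1) + τ 0 * zd D (2 * a * n'.1 + b * n.1) (-n.1) +
      τ 1 * zd D (2 * a * n'.2 + b * n.2) (-n.2) = 0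
    rw [w3, w3, w3]
    linear_combination (-2 * a : ℂ) * c0
  · change zd D (2 * a * m'.2 + b * m.2) (-m.2) + τ 1 * zd D (2 * a * n'.1 + b * n.1) (-n.1) +
      τ 2 * zd D (2 * a * n'.2 + b * n.2) (-n.2) = 0
    rw [w3, w3, w3]
    linear_combination (-2 * a : ℂ) * c1
  · change zd D (2 * a * n'.1 + b * n.1) (-n.1) ≠ 0 ∨ zd D (2 * a * n'.2 + b * n.2) (-n.2) ≠ 0
    by_contra! hn
    have a0 : (2 * a : ℂ) ≠ 0 := by exact_mod_cast (by omega : 2 * a ≠ 0)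
    rw [w3, w3] at hn
    obtain ⟨b1, b2⟩ := w4 _ _ ((mul_eq_zero.1 hn.1).resolve_left a0)
    obtain ⟨b3, b4⟩ := w4 _ _ ((mul_eq_zero.1 hn.2).resolve_left a0)
    simp only [b1, b2, b3, b4, Int.cast_zero, mul_zero, add_zero] at c0 c1
    refine hv (e.trans (funext fun i ↦ ?_))
    fin_cases i
    · simp [per, iv, b1, b3, (w4 m'.1 m.1 (by linear_combination -c0)).1]
    · simp [per, iv, b1, b3, (w4 m'.2 m.2 (by linear_combination -c1)).1]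

end Pool.Agent.Lib.ECM.CNT
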