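import Mathlib

/-! Block FINP, algebraic part: a point of a cubic where logarithmic derivatives are integral. -/

open Polynomial Filter Topology IsLocalRing
open scoped Polynomial.Bivariate

namespace Pool.Agent.Lib.ECM.T42

/-- value of `a + b y` -/
noncomputable def pv {R : Type} [CommRing R] (a b : R[X]) (x y : R) : R := a.eval x + b.eval x * y

/-- value of the invariant derivative of `a + b y` -/
noncomputable def pd {R : Type} [CommRing R] (α : R) (a b : R[X]) (x y : R) : R :=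
  a.derivative.eval x * (2 * y) + b.derivative.eval x * (2 * y) * y + b.eval x * (3 * x ^ 2 - α)

variable (V : ValuationSubring ℂ)

theorem root_mem {p : V[X]} (hp : p.Monic) {z : ℂ} (hz : aeval z p = 0) : z ∈ V := by
  obtain ⟨y, hy⟩ := (IsIntegrallyClosed.isIntegral_iff (R := V) (K := ℂ)).1 ⟨p, hp, hz⟩
  exact hy ▸ y.2

theorem inf_res : Infinite (ResidueField V) := by
  by_contra h
  have := not_infinite_iff_finite.1 h
  have := Fintype.ofFinite (ResidueField V)
  choose l hl using residue_surjective (R := V)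
  have m0 : (∏ a, (X - C (l a)) : V[X]).Monic := monic_prod_of_monic _ _ fun a _ ↦ monic_X_sub_C _
  have d0 : 0 < (∏ a, (X - C (l a)) : V[X]).degree := by
    rw [degree_prod]
    simp [Fintype.card_pos]
  have m1 : (∏ a, (X - C (l a)) + 1 : V[X]).Monic := m0.add_of_left (by simpa using d0)
  have d1 : (∏ a, (X - C (l a)) + 1 : V[X]).degree ≠ 0 := by
    rw [degree_add_eq_left_of_degree_lt (by simpa using d0)]; exact d0.ne'
  obtain ⟨z, hz⟩ := IsAlgClosed.exists_aeval_eq_zero ℂ _ d1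
  obtain ⟨y, rfl⟩ : ∃ y : V, algebraMap V ℂ y = z := ⟨⟨z, root_mem V m1 hz⟩, rfl⟩
  rw [aeval_algebraMap_apply, map_eq_zero_iff _ (FaithfulSMul.algebraMap_injective V ℂ)] at hz
  have := congrArg (residue V) hz
  simp only [coe_aeval_eq_eval, eval_add, eval_prod, eval_sub, eval_X, eval_C, eval_one, map_add,
    map_prod, map_sub, hl, map_one, map_zero] at this
  rw [Finset.prod_eq_zero (Finset.mem_univ (residue V y)) (sub_self _)] at this
  simp at this

theorem norm_ne {k : Type} [Field k] {a b f : k[X]} (hf : f.natDegree = 3) (h : a ≠ 0 ∨ b ≠ 0) :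
    a ^ 2 - b ^ 2 * f ≠ 0 := by
  intro e
  rw [sub_eq_zero] at e
  have f0 : f ≠ 0 := by rintro rfl; simp at hf
  by_cases hb : b = 0
  · subst hb
    simp at e h
    exact h e
  have := congrArg natDegree e
  rw [natDegree_mul (pow_ne_zero _ hb) f0, natDegree_pow, natDegree_pow, hf] at this
  omega

theorem primitive (a b : ℂ[X]) (h : a ≠ 0 ∨ b ≠ 0) : ∃ (c : ℂ) (a' b' : V[X]), c ≠ 0 ∧
    a = C c * a'.map (algebraMap V ℂ) ∧ b = C c * b'.map (algebraMap V ℂ) ∧
    (a'.map (residue V) ≠ 0 ∨ b'.map (residue V) ≠ 0) := by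
  classical
  have ne : (a.coeffs ∪ b.coeffs).Nonempty := by
    rcases h with h | h
    · exact ⟨_, Finset.mem_union_left _ (coeff_mem_coeffs (leadingCoeff_ne_zero.2 h))⟩
    · exact ⟨_, Finset.mem_union_right _ (coeff_mem_coeffs (leadingCoeff_ne_zero.2 h))⟩
  obtain ⟨c, hc, hm⟩ := (a.coeffs ∪ b.coeffs).exists_max_image V.valuation ne
  have c0 : c ≠ 0 := by
    rintro rfl
    rcases Finset.mem_union.1 hc with h | h <;>
    · obtain ⟨n, hn, e⟩ := mem_coeffs_iff.1 h
      exact mem_support_iff.1 hn e.symm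
  have key (p : ℂ[X]) (hp : ∀ z ∈ p.coeffs, V.valuation z ≤ V.valuation c) :
      ∃ p' : V[X], p = C c * p'.map (algebraMap V ℂ) ∧ (c ∈ p.coeffs → p'.map (residue V) ≠ 0) := by
    have : C c⁻¹ * p ∈ lifts (algebraMap V ℂ) := by
      refine (lifts_iff_coeff_lifts _).2 fun n ↦ ⟨⟨c⁻¹ * p.coeff n, ?_⟩, by simp⟩
      rw [← V.valuation_le_one_iff, map_mul, map_inv₀, inv_mul_le_one₀ (by simpa [zero_lt_iff])]
      by_cases h0 : p.coeff n = 0
      · simp [h0]
      · exact hp _ (coeff_mem_coeffs h0)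
    obtain ⟨p', hp'⟩ := this
    rw [coe_mapRingHom] at hp'
    refine ⟨p', by rw [hp', ← mul_assoc, ← C_mul, mul_inv_cancel₀ c0, C_1, one_mul], fun hc e ↦ ?_⟩
    obtain ⟨n, -, hn⟩ := mem_coeffs_iff.1 hc
    have e1 := congrArg (coeff · n) hp'
    simp only [coeff_map, coeff_C_mul, ← hn, inv_mul_cancel₀ c0] at e1
    have e2 : p'.coeff n = 1 := Subtype.ext e1
    have e3 := congrArg (coeff · n) e
    simp [e2] at e3
  obtain ⟨a', ha, ha'⟩ := key a fun z hz ↦ hm z (Finset.mem_union_left _ hz)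
  obtain ⟨b', hb, hb'⟩ := key b fun z hz ↦ hm z (Finset.mem_union_right _ hz)
  exact ⟨c, a', b', c0, ha, hb, (Finset.mem_union.1 hc).imp ha' hb'⟩

theorem good_point {ι : Type} [Finite ι] {α β : ℂ} (hα : α ∈ V) (hβ : β ∈ V) (a b : ι → ℂ[X]) :
    ∃ x y : ℂ, y ^ 2 = x ^ 3 - α * x - β ∧ ∀ m,
      V.valuation (pd α (a m) (b m) x y) ≤ V.valuation (pv (a m) (b m) x y) ∧
      (a m ≠ 0 ∨ b m ≠ 0 → pv (a m) (b m) x y ≠ 0) := by
  classical
  have := inf_res V
  lift α to V using hα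
  lift β to V using hβ
  let ι' := {m // a m ≠ 0 ∨ b m ≠ 0}
  have := Fintype.ofFinite ι'
  choose c a' b' c0 ha hb hr using fun m : ι' ↦ primitive V (a m) (b m) m.2
  let f : V[X] := X ^ 3 - C α * X - C β
  have hf : (f.map (residue V)).natDegree = 3 := by
    simp only [f, Polynomial.map_sub, Polynomial.map_pow, Polynomial.map_mul, map_X, map_C]
    compute_degree!
  let N : ι' → V[X] := fun m ↦ a' m ^ 2 - b' m ^ 2 * f
  have hN : ∏ m, (N m).map (residue V) ≠ 0 := Finset.prod_ne_zero_iff.2 fun m _ ↦ by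
    simpa [N] using norm_ne hf (hr m)
  obtain ⟨r, hr'⟩ : ∃ r, (∏ m, (N m).map (residue V)).eval r ≠ 0 := by
    by_contra h
    exact hN (Polynomial.funext fun r ↦ by simpa using not_not.1 (not_exists.1 h r))
  obtain ⟨x, rfl⟩ := residue_surjective r
  obtain ⟨y, hy⟩ := IsAlgClosed.exists_pow_nat_eq ((f.eval x : V) : ℂ) (n := 2) two_pos
  have yV : y ∈ V := root_mem V (monic_X_pow_sub_C (f.eval x) two_ne_zero) (by simp [hy])
  lift y to V using yV
  have hy' : y ^ 2 = f.eval x := Subtype.ext hy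
  refine ⟨x, y, by simpa [f] using hy, fun m ↦ ?_⟩
  by_cases hm : a m ≠ 0 ∨ b m ≠ 0
  · let m' : ι' := ⟨m, hm⟩
    have ev (p : V[X]) : (p.map (algebraMap V ℂ)).eval (x : ℂ) = (p.eval x : V) :=
      eval_map_apply (algebraMap V ℂ) x
    have e1 : pv (a m) (b m) x y = c m' * (pv (a' m') (b' m') x y : V) := by
      rw [ha m', hb m']
      simp only [pv, eval_mul, eval_C, ev]
      push_cast
      ring
    have e2 : pd (α : ℂ) (a m) (b m) x y = c m' * (pd α (a' m') (b' m') x y : V) := by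
      rw [ha m', hb m']
      simp only [pd, eval_mul, eval_C, ev, derivative_C_mul, derivative_map]
      push_cast
      have t2 : ((2 : V) : ℂ) = 2 := rfl
      have t3 : ((3 : V) : ℂ) = 3 := rfl
      rw [t2, t3]
      ring
    have u : IsUnit (pv (a' m') (b' m') x y) := by
      have e3 : (N m').eval x = pv (a' m') (b' m') x y * pv (a' m') (b' m') x (-y) := by
        simp only [N, pv, eval_sub, eval_mul, eval_pow, ← hy']
        ring
      rw [eval_prod, Finset.prod_ne_zero_iff] at hr'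
      have := hr' m' (Finset.mem_univ _)
      rw [eval_map_apply, residue_ne_zero_iff_isUnit, e3] at this
      exact isUnit_of_mul_isUnit_left this
    have u1 := (V.valuation_eq_one_iff _).1 u
    refine ⟨?_, fun _ ↦ ?_⟩
    · rw [e1, e2, map_mul, map_mul, u1]
      exact mul_le_mul_right (V.valuation_le_one _) _
    · rw [e1]
      exact mul_ne_zero (c0 _) fun h ↦ by simp [h] at u1
  · obtain ⟨h1, h2⟩ := not_or.1 hm
    simp [not_not.1 h1, not_not.1 h2, pd, pv]

/-- an identity along an analytic parametrisation holds on the whole cubic -/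
theorem transfer {ξ η : ℂ → ℂ} {f : ℂ[X]} (hξ : ∀ u, ξ (-u) = ξ u) (hη : ∀ u, η (-u) = -η u)
    (he : ∀ᶠ u in 𝓝[≠] 0, η u ^ 2 = f.eval (ξ u)) (f0 : f ≠ 0)
    (hne : ∀ A : ℂ[X], A ≠ 0 → ∀ᶠ u in 𝓝[≠] 0, A.eval (ξ u) ≠ 0) (Φ : ℂ[X][Y])
    (h : ∀ᶠ u in 𝓝[≠] 0, Φ.evalEval (ξ u) (η u) = 0) {x y : ℂ} (hxy : y ^ 2 = f.eval x) :
    Φ.evalEval x y = 0 := by
  have m : (X ^ 2 - C f : ℂ[X][Y]).Monic := monic_X_pow_sub_C f two_ne_zero
  have d : (Φ %ₘ (X ^ 2 - C f)).degree ≤ 1 := by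
    have := degree_modByMonic_lt Φ m
    rw [degree_X_pow_sub_C two_pos] at this
    exact Order.le_of_lt_succ this
  have e := eq_X_add_C_of_degree_le_one d
  set S := (Φ %ₘ (X ^ 2 - C f)).coeff 1
  set R := (Φ %ₘ (X ^ 2 - C f)).coeff 0
  have k (x y : ℂ) (hxy : y ^ 2 = f.eval x) : Φ.evalEval x y = S.eval x * y + R.eval x := by
    rw [← modByMonic_add_div Φ (X ^ 2 - C f), e]
    simp [evalEval_C, hxy]
  have tn : Tendsto (fun u : ℂ ↦ -u) (𝓝[≠] 0) (𝓝[≠] 0) :=
    tendsto_nhdsWithin_of_tendsto_nhds_of_eventually_within _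
      ((continuous_neg.tendsto' 0 0 neg_zero).mono_left nhdsWithin_le_nhds)
      (eventually_mem_nhdsWithin.mono fun u hu ↦ neg_ne_zero.2 hu)
  have h1 : ∀ᶠ u in 𝓝[≠] 0, S.eval (ξ u) * η u + R.eval (ξ u) = 0 := by
    filter_upwards [h, he] with u h he using (k _ _ he).symm.trans h
  have h2 : ∀ᶠ u in 𝓝[≠] 0, R.eval (ξ u) = 0 ∧ (S * f).eval (ξ u) = 0 := by
    filter_upwards [h1, tn.eventually h1, he] with u a b c
    rw [hξ, hη] at b
    exact ⟨by linear_combination (a + b) / 2, by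
      rw [eval_mul, ← c]; linear_combination η u * (a - b) / 2⟩
  have R0 : R = 0 := by
    by_contra h0
    obtain ⟨u, a, b⟩ := (h2.and (hne R h0)).exists
    exact b a.1
  have S0 : S = 0 := by
    by_contra h0
    obtain ⟨u, a, b⟩ := (h2.and (hne _ (mul_ne_zero h0 f0))).exists
    exact b a.2
  simp [k x y hxy, R0, S0]

end Pool.Agent.Lib.ECM.T42
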