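import Pool.Agent.Lib.ECM.THDefs

/-! Block G1: gradients of theta constants with rational characteristic at one place. -/

noncomputable section

namespace Pool.Agent.Lib.ECM.G1

/-- values `X` and gradients `G` of theta constants, with the Riemann relations; all phases are
roots of unity of order dividing `o` -/
structure Sys (L Γ : Type*) [Field L] [AddCommGroup Γ] (o : ℕ) where
  X : Γ → L
  G : Γ → L
  Hf : AddSubgroup Γ
  hf : Ch → Γ
  hf_mem : ∀ η, hf η ∈ Hf
  red : ∀ h ∈ Hf, ∃ η, ∀ x, ∃ φ : L, φ ^ o = 1 ∧ X (x + h) = φ * X (x + hf η) ∧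
    G (x + h) = φ * G (x + hf η)
  pair : ∀ h ∈ Hf, ∃ n n' : Ch, Ev n ∧ Ev n' ∧ ∃ g ∈ Hf, g + g = h + hf n + hf n'
  ne : ∀ x, ∃ η, X (x + hf η) ≠ 0
  riem : ∀ x₁ x₂ x₃ x₄ s : Γ, s + s = x₁ + x₂ + x₃ + x₄ → ∃ φ : Ch → L, (∀ η, φ η ^ o = 1) ∧
    4 * (X x₁ * X x₂ * X x₃ * X x₄) = ∑ η, φ η * (X (s + hf η) * X (s - x₃ - x₄ + hf η) *
      X (s - x₂ - x₄ + hf η) * X (s - x₂ - x₃ + hf η)) ∧
    4 * ((G x₁ * X x₂ - X x₁ * G x₂) * X x₃ * X x₄) =
      ∑ η, φ η * (X (s + hf η) * X (s - x₃ - x₄ + hf η) *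
        (G (s - x₂ - x₄ + hf η) * X (s - x₂ - x₃ + hf η) +
          X (s - x₂ - x₄ + hf η) * G (s - x₂ - x₃ + hf η))) ∧
    4 * ((G x₁ * X x₂ + X x₁ * G x₂) * X x₃ * X x₄) =
      ∑ η, φ η * ((G (s + hf η) * X (s - x₃ - x₄ + hf η) + X (s + hf η) * G (s - x₃ - x₄ + hf η)) *
        X (s - x₂ - x₄ + hf η) * X (s - x₂ - x₃ + hf η))

variable {L Γ : Type*} [Field L] [AddCommGroup Γ] {o : ℕ}

/-- an absolute value with its exponent: `t = 0` is allowed only in the nonarchimedean case -/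
def Pl (v : AbsoluteValue L ℝ) (t : ℕ) : Prop := t = 1 ∨ (t = 0 ∧ IsNonarchimedean v)

variable {v : AbsoluteValue L ℝ} {t : ℕ}

theorem Pl.add (h : Pl v t) {a b : L} {m n : ℕ} {B : ℝ} (ha : v a ≤ (m : ℝ) ^ t * B)
    (hb : v b ≤ (n : ℝ) ^ t * B) : v (a + b) ≤ ((m + n : ℕ) : ℝ) ^ t * B := by
  rcases h with rfl | ⟨rfl, h⟩
  · have := v.add_le a b
    push_cast
    simp only [pow_one] at *
    linarith
  · simp only [pow_zero, one_mul] at *
    exact (h a b).trans (max_le ha hb)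

theorem Pl.sub (h : Pl v t) {a b : L} {m n : ℕ} {B : ℝ} (ha : v a ≤ (m : ℝ) ^ t * B)
    (hb : v b ≤ (n : ℝ) ^ t * B) : v (a - b) ≤ ((m + n : ℕ) : ℝ) ^ t * B := by
  rw [sub_eq_add_neg]
  exact h.add ha (by rwa [v.map_neg])

theorem mono {a : ℝ} {m n : ℕ} {B : ℝ} (ha : a ≤ (m : ℝ) ^ t * B) (hB : 0 ≤ B) (h : m ≤ n) :
    a ≤ (n : ℝ) ^ t * B :=
  ha.trans (by gcongr)

theorem Pl.sum (h : Pl v t) {ι : Type*} (s : Finset ι) {f : ι → L} {m : ℕ} {B : ℝ} (hB : 0 ≤ B)
    (hf : ∀ i ∈ s, v (f i) ≤ (m : ℝ) ^ t * B) :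
    v (∑ i ∈ s, f i) ≤ ((s.card * m : ℕ) : ℝ) ^ t * B := by
  classical
  induction s using Finset.induction_on with
  | empty => simp only [Finset.sum_empty, map_zero]; positivity
  | insert a s ha ih =>
    rw [Finset.sum_insert ha, Finset.card_insert_of_notMem ha, add_mul, one_mul, add_comm _ m]
    exact h.add (hf a (Finset.mem_insert_self a s))
      (ih fun i hi ↦ hf i (Finset.mem_insert_of_mem hi))

theorem Pl.nat (h : Pl v t) (n : ℕ) : v n ≤ (n : ℝ) ^ t := by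
  have := h.sum (Finset.range n) (f := fun _ ↦ (1 : L)) (m := 1) (B := 1) zero_le_one (by simp)
  simpa using this

theorem unit (ho : 0 < o) {φ : L} (h : φ ^ o = 1) : v φ = 1 := by
  have h1 : v φ ^ o = 1 := by rw [← map_pow, h, map_one]
  exact (pow_eq_one_iff_of_nonneg (v.nonneg φ) ho.ne').1 h1

theorem card_Ch : (Finset.univ : Finset Ch).card = 16 := by simp [Finset.card_univ]

theorem Pl.sum16 (h : Pl v t) (ho : 0 < o) {φ f : Ch → L} (hφ : ∀ η, φ η ^ o = 1) {m : ℕ} {B : ℝ}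
    (hB : 0 ≤ B) (hf : ∀ η, v (f η) ≤ (m : ℝ) ^ t * B) (hm : m ≤ 2) {y : L}
    (e : 4 * y = ∑ η, φ η * f η) : v 4 * v y ≤ (32 : ℝ) ^ t * B := by
  have h1 := h.sum Finset.univ (f := fun η ↦ φ η * f η) hB
    fun η _ ↦ by rw [map_mul, unit ho (hφ η), one_mul]; exact hf η
  rw [← e, map_mul, card_Ch] at h1
  exact_mod_cast mono h1 hB (n := 32) (by omega)

namespace Sys

variable (S : Sys L Γ o) (v)

/-- the largest value over all half integral translates -/
def M (x : Γ) : ℝ := Finset.univ.sup' Finset.univ_nonempty fun η : Ch ↦ v (S.X (x + S.hf η))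

variable {S v}

theorem le_M (ho : 0 < o) {x z : Γ} (h : z - x ∈ S.Hf) : v (S.X z) ≤ S.M v x := by
  obtain ⟨η, hη⟩ := S.red _ h
  obtain ⟨φ, h1, h2, -⟩ := hη x
  rw [add_sub_cancel] at h2
  rw [h2, map_mul, unit ho h1, one_mul]
  exact Finset.le_sup' (fun η : Ch ↦ v (S.X (x + S.hf η))) (Finset.mem_univ η)

theorem exists_M (x : Γ) : ∃ h ∈ S.Hf, v (S.X (x + h)) = S.M v x := by
  obtain ⟨η, -, h⟩ := Finset.exists_mem_eq_sup' (Finset.univ_nonempty (α := Ch))
    fun η : Ch ↦ v (S.X (x + S.hf η))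
  exact ⟨_, S.hf_mem η, h.symm⟩

theorem M_pos (x : Γ) : 0 < S.M v x := by
  obtain ⟨η, h⟩ := S.ne x
  exact (v.pos h).trans_le (Finset.le_sup' (fun η : Ch ↦ v (S.X (x + S.hf η))) (Finset.mem_univ η))

theorem M_congr (ho : 0 < o) {x y : Γ} (h : x - y ∈ S.Hf) : S.M v x = S.M v y := by
  have key : ∀ x y : Γ, x - y ∈ S.Hf → S.M v x ≤ S.M v y := fun x y h ↦ by
    obtain ⟨k, hk, e⟩ := exists_M (S := S) (v := v) x
    rw [← e]
    exact le_M ho (by convert S.Hf.add_mem h hk using 1; abel)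
  exact le_antisymm (key x y h) (key y x (by convert S.Hf.neg_mem h using 1; abel))

theorem G_le (ho : 0 < o) {lam : ℝ} (hl : ∀ η, v (S.G (S.hf η)) ≤ lam) {z : Γ} (h : z ∈ S.Hf) :
    v (S.G z) ≤ lam := by
  obtain ⟨η, hη⟩ := S.red _ h
  obtain ⟨φ, h1, -, h2⟩ := hη 0
  rw [zero_add, zero_add] at h2
  rw [h2, map_mul, unit ho h1, one_mul]
  exact hl η

/-- the reversed addition formula -/
theorem ra (h : Pl v t) (ho : 0 < o) (x y : Γ) :
    v 4 * (S.M v x ^ 2 * S.M v y ^ 2) ≤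
      (32 : ℝ) ^ t * (S.M v (x + y) * S.M v (x - y) * S.M v 0 * S.M v 0) := by
  obtain ⟨a, ha, ea⟩ := exists_M (S := S) (v := v) x
  obtain ⟨b, hb, eb⟩ := exists_M (S := S) (v := v) y
  obtain ⟨φ, hφ, h0, -, -⟩ := S.riem (x + a) (x + a) (y + b) (y + b) (x + a + (y + b)) (by abel)
  have p := fun z ↦ (M_pos (S := S) (v := v) z).le
  have := h.sum16 ho hφ (m := 1) (B := S.M v (x + y) * S.M v (x - y) * S.M v 0 * S.M v 0)
    (by have := p (x + y); have := p (x - y); have := p 0; positivity) (fun η ↦ ?_) (by norm_num) h0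
  · simp only [map_mul, ea, eb] at this
    convert this using 2
    ring
  · have hη := S.hf_mem η
    simp only [map_mul, Nat.cast_one, one_pow, one_mul]
    refine mul_le_mul (mul_le_mul (mul_le_mul (le_M ho ?_) (le_M ho ?_) (v.nonneg _) (p _))
      (le_M ho ?_) (v.nonneg _) (mul_nonneg (p _) (p _))) (le_M ho ?_) (v.nonneg _)
      (mul_nonneg (mul_nonneg (p _) (p _)) (p _))
    · convert S.Hf.add_mem (S.Hf.add_mem ha hb) hη using 1; abel
    · convert S.Hf.add_mem (S.Hf.sub_mem ha hb) hη using 1; abel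
    · convert hη using 1; abel
    · convert hη using 1; abel

theorem v4_le (h : Pl v t) : v 4 ≤ (32 : ℝ) ^ t := by
  have := h.nat 4
  have h2 : ((4 : ℕ) : ℝ) ^ t ≤ (32 : ℝ) ^ t := by gcongr; norm_num
  exact_mod_cast this.trans h2

/-- the maximum principle on a torsion orbit -/
theorem M_le (h : Pl v t) (ho : 0 < o) {N : ℕ} (hN : 0 < N) {x : Γ} (hx : N • x ∈ S.Hf) :
    v 4 * S.M v x ≤ (32 : ℝ) ^ t * S.M v 0 := by
  obtain ⟨k, -, hk⟩ := Finset.exists_max_image (Finset.range N) (fun k ↦ S.M v (k • x))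
    ⟨0, Finset.mem_range.2 hN⟩
  have hall : ∀ j : ℕ, S.M v (j • x) ≤ S.M v (k • x) := fun j ↦ by
    refine le_of_eq_of_le (M_congr ho ?_) (hk (j % N) (Finset.mem_range.2 (Nat.mod_lt j hN)))
    have e : j • x - (j % N) • x = (j / N) • N • x := by
      conv_lhs => rw [← Nat.div_add_mod' j N, add_smul, Nat.div_add_mod' j N, mul_smul]
      abel
    rw [e]
    exact S.Hf.nsmul_mem hx _
  have h1 := ra (S := S) h ho (k • x) (k • x)
  rw [sub_self, ← add_smul] at h1
  have h2 := hall (k + k)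
  have h3 := hall 1
  rw [one_smul] at h3
  set A := S.M v (k • x)
  set κ := S.M v 0
  set w := v 4
  set R := (32 : ℝ) ^ t
  have hA : 0 < A := M_pos _
  have hκ : 0 < κ := M_pos _
  have hw : 0 ≤ w := v.nonneg _
  have hR : w ≤ R := v4_le h
  have h4 : w * A ^ 3 ≤ R * κ ^ 3 := by
    refine le_of_mul_le_mul_right ?_ hA
    calc w * A ^ 3 * A = w * (A ^ 2 * A ^ 2) := by ring
      _ ≤ _ := h1
      _ ≤ R * (A * κ * κ * κ) := by have := hw.trans hR; gcongr
      _ = _ := by ring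
  have h5 : (w * A) ^ 3 ≤ (R * κ) ^ 3 := by
    calc (w * A) ^ 3 = w ^ 2 * (w * A ^ 3) := by ring
      _ ≤ R ^ 2 * (R * κ ^ 3) := by have := hw.trans hR; gcongr
      _ = _ := by ring
  have h6 : w * A ≤ R * κ :=
    (pow_le_pow_iff_left₀ (by positivity) (by have := hw.trans hR; positivity) three_ne_zero).1 h5
  exact le_trans (by gcongr) h6

variable {lam ρ : ℝ}

/-- the Wronskian relation -/
theorem wr (h : Pl v t) (ho : 0 < o) (hl : ∀ η, v (S.G (S.hf η)) ≤ lam) (hρ : 0 ≤ ρ)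
    (hk : ∀ η, Ev η → ρ ≤ v (S.X (S.hf η))) {x p q : Γ} (hp : p - x ∈ S.Hf) (hq : q - x ∈ S.Hf)
    (eq : v (S.X q) = S.M v x) :
    v 4 * ρ ^ 2 * v (S.G p - S.X p * (S.G q / S.X q)) ≤
      (32 : ℝ) ^ t * (S.M v x * lam * S.M v 0) := by
  obtain ⟨n, n', hn, hn', g, hg, e⟩ := S.pair _ (S.Hf.add_mem hp hq)
  obtain ⟨φ, hφ, -, h1, -⟩ := S.riem p q (S.hf n) (S.hf n') (x + g)
    (by rw [add_add_add_comm, e]; abel)
  have pp := fun z ↦ (M_pos (S := S) (v := v) z).le
  have hlam : 0 ≤ lam := (v.nonneg _).trans (hl 0)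
  have hx := M_pos (S := S) (v := v) x
  have m := S.hf_mem n
  have m' := S.hf_mem n'
  have h2 := h.sum16 ho hφ (m := 2) (B := S.M v x * S.M v x * (lam * S.M v 0))
    (by have := pp 0; positivity) (fun η ↦ ?_) le_rfl h1
  · have hq0 : S.X q ≠ 0 := fun h0 ↦ by rw [h0, map_zero] at eq; exact hx.ne eq
    have e2 : S.G p * S.X q - S.X p * S.G q = (S.G p - S.X p * (S.G q / S.X q)) * S.X q := by
      field_simp
    rw [e2] at h2
    simp only [map_mul, eq] at h2
    refine le_of_mul_le_mul_right ?_ hx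
    have a1 := hk n hn
    have a2 := hk n' hn'
    calc _ = v 4 * (v (S.G p - S.X p * (S.G q / S.X q)) * S.M v x * ρ * ρ) := by ring
      _ ≤ v 4 * (v (S.G p - S.X p * (S.G q / S.X q)) * S.M v x * v (S.X (S.hf n)) *
          v (S.X (S.hf n'))) := by
          have := v.nonneg (S.G p - S.X p * (S.G q / S.X q))
          have := v.nonneg (S.X (S.hf n))
          have := v.nonneg 4
          gcongr
      _ ≤ _ := h2
      _ = _ := by ring
  · have hη := S.hf_mem η
    have b1 : x + g - q - S.hf n' + S.hf η ∈ S.Hf := by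
      convert S.Hf.add_mem (S.Hf.sub_mem (S.Hf.sub_mem hg hq) m') hη using 1; abel
    have b2 : x + g - q - S.hf n + S.hf η ∈ S.Hf := by
      convert S.Hf.add_mem (S.Hf.sub_mem (S.Hf.sub_mem hg hq) m) hη using 1; abel
    have c1 : v (S.X (x + g + S.hf η)) ≤ S.M v x :=
      le_M ho (by convert S.Hf.add_mem hg hη using 1; abel)
    have c2 : v (S.X (x + g - S.hf n - S.hf n' + S.hf η)) ≤ S.M v x :=
      le_M ho (by convert S.Hf.add_mem (S.Hf.sub_mem (S.Hf.sub_mem hg m) m') hη using 1; abel)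
    have c3 := h.add (m := 1) (n := 1) (B := lam * S.M v 0)
      (a := S.G (x + g - q - S.hf n' + S.hf η) * S.X (x + g - q - S.hf n + S.hf η))
      (b := S.X (x + g - q - S.hf n' + S.hf η) * S.G (x + g - q - S.hf n + S.hf η))
      (by
        simp only [map_mul, Nat.cast_one, one_pow, one_mul]
        exact mul_le_mul (G_le ho hl b1) (le_M ho (by rwa [sub_zero])) (v.nonneg _) hlam)
      (by
        simp only [map_mul, Nat.cast_one, one_pow, one_mul]
        rw [mul_comm]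
        exact mul_le_mul (G_le ho hl b2) (le_M ho (by rwa [sub_zero])) (v.nonneg _) hlam)
    rw [map_mul, map_mul]
    calc _ ≤ S.M v x * S.M v x * (((1 + 1 : ℕ) : ℝ) ^ t * (lam * S.M v 0)) :=
          mul_le_mul (mul_le_mul c1 c2 (v.nonneg _) hx.le) c3 (v.nonneg _) (by positivity)
      _ = _ := by ring

/-- second differences of the logarithmic gradient -/
theorem d2 (h : Pl v t) (ho : 0 < o) (hl : ∀ η, v (S.G (S.hf η)) ≤ lam) (hρ : 0 ≤ ρ)
    (hk : ∀ η, Ev η → ρ ≤ v (S.X (S.hf η))) {x y p q r : Γ} (hp : p - (x + y) ∈ S.Hf)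
    (hq : q - (x - y) ∈ S.Hf) (hr : r - x ∈ S.Hf) (ep : v (S.X p) = S.M v (x + y))
    (eq : v (S.X q) = S.M v (x - y)) (er : v (S.X r) = S.M v x) :
    (v 4) ^ 3 * ρ ^ 4 * v (S.G p / S.X p + S.G q / S.X q - 2 * (S.G r / S.X r)) ≤
      ((32 : ℝ) ^ t) ^ 3 * (lam * S.M v 0 ^ 3) := by
  obtain ⟨n, n', hn, hn', g, hg, e⟩ := S.pair _ (S.Hf.add_mem hp hq)
  obtain ⟨φ, hφ, h0, -, h1⟩ := S.riem p q (S.hf n) (S.hf n') (x + g)
    (by rw [add_add_add_comm, e]; abel)
  have pp := fun z ↦ (M_pos (S := S) (v := v) z).le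
  have hlam : 0 ≤ lam := (v.nonneg _).trans (hl 0)
  have hx := M_pos (S := S) (v := v) x
  have hy := M_pos (S := S) (v := v) y
  have hp0 : S.X p ≠ 0 := fun h0 ↦ by rw [h0, map_zero] at ep; exact (M_pos _).ne ep
  have hq0 : S.X q ≠ 0 := fun h0 ↦ by rw [h0, map_zero] at eq; exact (M_pos _).ne eq
  have h40 : (4 : L) = 0 ∨ 0 < v 4 := (eq_or_ne _ _).imp id v.pos
  rcases h40 with h40 | h40
  · rw [h40, map_zero]
    have := pp 0
    simp only [ne_eq, OfNat.ofNat_ne_zero, not_false_eq_true, zero_pow, zero_mul]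
    positivity
  rcases hρ.eq_or_lt with rfl | hρ'
  · have := pp 0
    simp only [ne_eq, OfNat.ofNat_ne_zero, not_false_eq_true, zero_pow, mul_zero, zero_mul]
    positivity
  have m := S.hf_mem n
  have m' := S.hf_mem n'
  set Z := S.G r / S.X r
  set D := S.G p / S.X p + S.G q / S.X q - 2 * Z
  set E := (32 : ℝ) ^ t * (S.M v x * lam * S.M v 0) / (v 4 * ρ ^ 2) with hE
  have hE0 : 0 ≤ E := by have := pp 0; positivity
  have err : ∀ z, z - x ∈ S.Hf → v (S.G z - S.X z * Z) ≤ E := fun z hz ↦ by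
    rw [hE, le_div_iff₀ (by positivity), mul_comm]
    exact wr h ho hl hρ hk hz hr er
  have key : 4 * (S.X p * S.X q * D * S.X (S.hf n) * S.X (S.hf n')) =
      ∑ η, φ η * (((S.G (x + g + S.hf η) - S.X (x + g + S.hf η) * Z) *
        S.X (x + g - S.hf n - S.hf n' + S.hf η) + S.X (x + g + S.hf η) *
        (S.G (x + g - S.hf n - S.hf n' + S.hf η) - S.X (x + g - S.hf n - S.hf n' + S.hf η) * Z)) *
        S.X (x + g - q - S.hf n' + S.hf η) * S.X (x + g - q - S.hf n + S.hf η)) := by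
    have e1 : S.X p * S.X q * D = S.G p * S.X q + S.X p * S.G q - 2 * Z * (S.X p * S.X q) := by
      simp only [D]
      field_simp
    rw [e1]
    calc _ = 4 * ((S.G p * S.X q + S.X p * S.G q) * S.X (S.hf n) * S.X (S.hf n')) -
        2 * Z * (4 * (S.X p * S.X q * S.X (S.hf n) * S.X (S.hf n'))) := by ring
      _ = _ := by
        rw [h0, h1, Finset.mul_sum, ← Finset.sum_sub_distrib]
        exact Finset.sum_congr rfl fun η _ ↦ by ring
  have h2 := h.sum16 ho hφ (m := 2) (B := E * S.M v x * S.M v y * S.M v y)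
    (by positivity) (fun η ↦ ?_) le_rfl key
  · simp only [map_mul, ep, eq] at h2
    have h3 := ra (S := S) h ho x y
    have a1 := hk n hn
    have a2 := hk n' hn'
    have hD := v.nonneg D
    have hA := M_pos (S := S) (v := v) (x + y)
    have hB := M_pos (S := S) (v := v) (x - y)
    have hκ := M_pos (S := S) (v := v) 0
    set A := S.M v (x + y)
    set B := S.M v (x - y)
    set κ := S.M v 0
    set w := v 4
    set R := (32 : ℝ) ^ t
    have hR : 0 < R := by positivity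
    have h4 : w * (A * B * v D * ρ * ρ) ≤ R * (E * S.M v x * S.M v y * S.M v y) :=
      le_trans (by have := v.nonneg (S.X (S.hf n)); gcongr) h2
    have h5 : E * (w * ρ ^ 2) = R * (S.M v x * lam * κ) := by rw [hE]; field_simp
    refine le_of_mul_le_mul_right ?_ (mul_pos hA hB)
    calc _ = w * (w * ρ ^ 2) * (w * (A * B * v D * ρ * ρ)) := by ring
      _ ≤ w * (w * ρ ^ 2) * (R * (E * S.M v x * S.M v y * S.M v y)) := by gcongr
      _ = w * R * (E * (w * ρ ^ 2)) * S.M v x * S.M v y * S.M v y := by ring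
      _ = R ^ 2 * lam * κ * (w * (S.M v x ^ 2 * S.M v y ^ 2)) := by rw [h5]; ring
      _ ≤ R ^ 2 * lam * κ * (R * (A * B * κ * κ)) := by gcongr
      _ = _ := by ring
  · have hη := S.hf_mem η
    have b1 : x + g + S.hf η - x ∈ S.Hf := by convert S.Hf.add_mem hg hη using 1; abel
    have b2 : x + g - S.hf n - S.hf n' + S.hf η - x ∈ S.Hf := by
      convert S.Hf.add_mem (S.Hf.sub_mem (S.Hf.sub_mem hg m) m') hη using 1; abel
    have c1 : v (S.X (x + g - q - S.hf n' + S.hf η)) ≤ S.M v y := le_M ho (by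
      convert S.Hf.add_mem (S.Hf.sub_mem (S.Hf.sub_mem hg hq) m') hη using 1; abel)
    have c2 : v (S.X (x + g - q - S.hf n + S.hf η)) ≤ S.M v y := le_M ho (by
      convert S.Hf.add_mem (S.Hf.sub_mem (S.Hf.sub_mem hg hq) m) hη using 1; abel)
    have c3 := h.add (m := 1) (n := 1) (B := E * S.M v x)
      (a := (S.G (x + g + S.hf η) - S.X (x + g + S.hf η) * Z) *
        S.X (x + g - S.hf n - S.hf n' + S.hf η))
      (b := S.X (x + g + S.hf η) *
        (S.G (x + g - S.hf n - S.hf n' + S.hf η) - S.X (x + g - S.hf n - S.hf n' + S.hf η) * Z))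
      (by
        simp only [map_mul, Nat.cast_one, one_pow, one_mul]
        exact mul_le_mul (err _ b1) (le_M ho b2) (v.nonneg _) hE0)
      (by
        simp only [map_mul, Nat.cast_one, one_pow, one_mul]
        rw [mul_comm]
        exact mul_le_mul (err _ b2) (le_M ho b1) (v.nonneg _) hE0)
    rw [map_mul, map_mul]
    calc _ ≤ ((1 + 1 : ℕ) : ℝ) ^ t * (E * S.M v x) * S.M v y * S.M v y :=
          mul_le_mul (mul_le_mul c3 c1 (v.nonneg _) (by positivity)) c2 (v.nonneg _)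
            (by positivity)
      _ = _ := by ring

end Sys

/-- a sequence with small second differences and small end points -/
theorem Pl.tele (h : Pl v t) {z : ℕ → L} {B : ℝ} (hB : 0 ≤ B) {N : ℕ}
    (hd : ∀ k, v (z (k + 2) + z k - 2 * z (k + 1)) ≤ B) (h0 : v (z 0) ≤ B) (hN : v (z N) ≤ B) :
    v (N * z 1) ≤ ((N * N + N + 2 : ℕ) : ℝ) ^ t * B := by
  have a1 : ∀ k, v (z (k + 1) - z k - (z 1 - z 0)) ≤ (k : ℝ) ^ t * B := fun k ↦ by
    induction k with
    | zero => simp only [zero_add, sub_self, map_zero]; positivity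
    | succ k ih =>
      have := h.add ih (b := z (k + 2) + z k - 2 * z (k + 1)) (n := 1) (by simpa using hd k)
      convert this using 2
      ring
  have a2 : ∀ k : ℕ, v (z k - z 0 - k * (z 1 - z 0)) ≤ ((k * k : ℕ) : ℝ) ^ t * B := fun k ↦ by
    induction k with
    | zero => simp only [Nat.cast_zero, zero_mul, sub_self, map_zero]; positivity
    | succ k ih =>
      have := mono (h.add ih (a1 k)) hB (n := (k + 1) * (k + 1)) (by nlinarith)
      convert this using 2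
      push_cast
      ring
  have a3 : v (N * z 0) ≤ (N : ℝ) ^ t * B := by
    rw [map_mul]
    exact mul_le_mul (h.nat N) h0 (v.nonneg _) (by positivity)
  have := h.sub (h.add a3 (h.sub (m := 1) (n := 1) (a := z N) (b := z 0) (by simpa using hN)
    (by simpa using h0))) (a2 N)
  convert mono this hB (n := N * N + N + 2) (by omega) using 2
  ring

namespace Sys

variable {S : Sys L Γ o} {lam ρ : ℝ}

/-- the gradient at a torsion characteristic is bounded by the gradients at the half integral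
characteristics -/
theorem G_bound (h : Pl v t) (ho : 0 < o) (h4 : (4 : L) ≠ 0) (hl : ∀ η, v (S.G (S.hf η)) ≤ lam)
    (hρ : 0 < ρ) (hk : ∀ η, Ev η → ρ ≤ v (S.X (S.hf η))) {N : ℕ} (hN : 0 < N) {x : Γ}
    (hx : N • x ∈ S.Hf) :
    v (4 ^ 4 * N * S.G x) * ρ ^ 4 ≤ ((5 * N * N * 32 ^ 4 : ℕ) : ℝ) ^ t * (lam * S.M v 0 ^ 4) := by
  choose a ha ea using fun k : ℕ ↦ exists_M (S := S) (v := v) (k • x)
  have hlam : 0 ≤ lam := (v.nonneg _).trans (hl 0)
  have hw : 0 < v 4 := v.pos h4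
  have hwR : v 4 ≤ (32 : ℝ) ^ t := v4_le h
  have hκ := M_pos (S := S) (v := v) 0
  have hρκ : ρ ≤ S.M v 0 := (hk 0 (by decide)).trans (le_M ho (by simpa using S.hf_mem 0))
  have hM := M_le (S := S) h ho hN hx
  have hMx := M_pos (S := S) (v := v) x
  have e1 : v (S.X (1 • x + a 1)) = S.M v x := by rw [ea 1, one_smul]
  have hw1 := wr (S := S) h ho hl hρ.le hk (x := x) (p := x) (q := 1 • x + a 1)
    (by simp) (by simpa using ha 1) e1
  have hXx : v (S.X x) ≤ S.M v x := le_M ho (by simp)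
  set z : ℕ → L := fun k ↦ S.G (k • x + a k) / S.X (k • x + a k) with hz
  set κ := S.M v 0
  set w := v 4 with hwd
  set R := (32 : ℝ) ^ t with hRd
  set B := R ^ 3 * (lam * κ ^ 3) / (w ^ 3 * ρ ^ 4) with hB
  have hR : 0 < R := by positivity
  have hB0 : 0 ≤ B := by positivity
  have hBe : B * (w ^ 3 * ρ ^ 4) = R ^ 3 * (lam * κ ^ 3) := by rw [hB]; field_simp
  have ends : ∀ k : ℕ, k • x ∈ S.Hf → v (z k) ≤ B := fun k hk' ↦ by
    have e : v (S.X (k • x + a k)) = κ := by rw [ea k]; exact M_congr ho (by simpa using hk')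
    rw [hz]
    simp only [map_div₀, e]
    rw [hB, div_le_div_iff₀ hκ (by positivity)]
    have := G_le ho hl (S.Hf.add_mem hk' (ha k))
    calc _ ≤ lam * (R ^ 3 * κ ^ 4) := by gcongr
      _ = _ := by ring
  have hd : ∀ k, v (z (k + 2) + z k - 2 * z (k + 1)) ≤ B := fun k ↦ by
    have s1 : (k + 1) • x + x = (k + 2) • x := (succ_nsmul x (k + 1)).symm
    have s2 : (k + 1) • x - x = k • x := by rw [succ_nsmul, add_sub_cancel_right]
    rw [hB, le_div_iff₀ (by positivity), mul_comm]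
    exact d2 (S := S) h ho hl hρ.le hk (x := (k + 1) • x) (y := x)
      (by rw [s1]; simpa using ha (k + 2)) (by rw [s2]; simpa using ha k)
      (by simpa using ha (k + 1)) (by rw [s1, ea]) (by rw [s2, ea]) (ea _)
  have t1 := h.tele hB0 hd (ends 0 (by simp)) (ends N hx)
  have t2 : v (S.X x * (N * z 1)) ≤ ((N * N + N + 2 : ℕ) : ℝ) ^ t * (S.M v x * B) := by
    rw [map_mul]
    calc _ ≤ S.M v x * (((N * N + N + 2 : ℕ) : ℝ) ^ t * B) :=
          mul_le_mul hXx t1 (v.nonneg _) hMx.le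
      _ = _ := by ring
  have t3 : v (S.G x - S.X x * z 1) ≤ S.M v x * B := by
    refine le_of_mul_le_mul_right ?_ (show 0 < w ^ 3 * ρ ^ 4 by positivity)
    calc _ = w ^ 2 * ρ ^ 2 * (w * ρ ^ 2 * v (S.G x - S.X x * z 1)) := by ring
      _ ≤ R ^ 2 * κ ^ 2 * (R * (S.M v x * lam * κ)) := by
          have := v.nonneg (S.G x - S.X x * z 1)
          gcongr
      _ = S.M v x * (R ^ 3 * (lam * κ ^ 3)) := by ring
      _ = _ := by rw [← hBe]; ring
  have t4 : v (N * (S.G x - S.X x * z 1)) ≤ (N : ℝ) ^ t * (S.M v x * B) := by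
    rw [map_mul]
    exact mul_le_mul (h.nat N) t3 (v.nonneg _) (by positivity)
  have t5 := mono (h.add t2 t4) (by positivity) (n := 5 * N * N) (by nlinarith)
  rw [show S.X x * (N * z 1) + N * (S.G x - S.X x * z 1) = N * S.G x by ring] at t5
  have e5 : ((5 * N * N * 32 ^ 4 : ℕ) : ℝ) ^ t = ((5 * N * N : ℕ) : ℝ) ^ t * R ^ 4 := by
    rw [Nat.cast_mul _ (32 ^ 4), mul_pow, hRd, ← pow_mul, mul_comm t 4, pow_mul]
    norm_num
  rw [mul_assoc, map_mul, map_pow, e5, ← hwd]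
  calc _ = w ^ 4 * ρ ^ 4 * v (N * S.G x) := by ring
    _ ≤ w ^ 4 * ρ ^ 4 * (((5 * N * N : ℕ) : ℝ) ^ t * (S.M v x * B)) := by gcongr
    _ = ((5 * N * N : ℕ) : ℝ) ^ t * (w * S.M v x) * (B * (w ^ 3 * ρ ^ 4)) := by ring
    _ ≤ ((5 * N * N : ℕ) : ℝ) ^ t * (R * κ) * (B * (w ^ 3 * ρ ^ 4)) := by gcongr
    _ = _ := by rw [hBe]; ring

end Sys

end Pool.Agent.Lib.ECM.G1
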