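import Pool.Agent.Lib.ECM.G1Place
import Pool.Agent.Lib.ECM.G1Norm

/-! Block G1: theta constants with rational characteristic form a Riemann system. -/

open Complex
open scoped Real

noncomputable section

namespace Pool.Agent.Lib.ECM.G1

/-- derivative of a theta series -/
def dg (τ : T3) (a w u : V2) : ℂ := fderiv ℂ (thg τ a) w u

theorem hd (hB : St_BAS) {τ : T3} (hτ : τ ∈ H2) (a w u : V2) :
    HasDerivAt (fun t : ℂ ↦ thg τ a (w + t • u)) (dg τ a w u) 0 := by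
  have h1 : HasDerivAt (fun t : ℂ ↦ w + t • u) u 0 := by
    simpa using ((hasDerivAt_id (0 : ℂ)).smul_const u).const_add w
  have h2 : HasFDerivAt (thg τ a) (fderiv ℂ (thg τ a) w) (w + (0 : ℂ) • u) := by
    simpa using (hB.diff τ hτ a w).hasFDerivAt
  exact h2.comp_hasDerivAt 0 h1

theorem riemx (hR : St_RIEMG) {τ : T3} (hτ : τ ∈ H2) {a₁ a₂ a₃ a₄ s w₁ w₂ w₃ w₄ r : V2}
    (hs : s + s = a₁ + a₂ + a₃ + a₄) (hr : r + r = w₁ + w₂ + w₃ + w₄) :
    4 * (thg τ a₁ w₁ * thg τ a₂ w₂ * thg τ a₃ w₃ * thg τ a₄ w₄) =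
      ∑ η : Ch, exp (-2 * π * I * dot (cb η) (a₁ + a₁)) *
        (thg τ (s + ca η) (r + cb η) * thg τ (s - a₃ - a₄ + ca η) (r - w₃ - w₄ + cb η) *
          thg τ (s - a₂ - a₄ + ca η) (r - w₂ - w₄ + cb η) *
          thg τ (s - a₂ - a₃ + ca η) (r - w₂ - w₃ + cb η)) := by
  have key : ∀ {a₁ a₂ a₃ a₄ s : V2}, s + s = a₁ + a₂ + a₃ + a₄ →
      (1 / 2 : ℂ) • (s + (s - a₃ - a₄) + (s - a₂ - a₄) + (s - a₂ - a₃)) = a₁ ∧
      (1 / 2 : ℂ) • (s + (s - a₃ - a₄) - (s - a₂ - a₄) - (s - a₂ - a₃)) = a₂ ∧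
      (1 / 2 : ℂ) • (s - (s - a₃ - a₄) + (s - a₂ - a₄) - (s - a₂ - a₃)) = a₃ ∧
      (1 / 2 : ℂ) • (s - (s - a₃ - a₄) - (s - a₂ - a₄) + (s - a₂ - a₃)) = a₄ ∧
      s + (s - a₃ - a₄) + (s - a₂ - a₄) + (s - a₂ - a₃) = a₁ + a₁ := fun {a₁ a₂ a₃ a₄ s} h ↦ by
    obtain rfl : a₁ = s + s - a₂ - a₃ - a₄ := by rw [h]; abel
    refine ⟨?_, ?_, ?_, ?_, ?_⟩ <;> module
  have := hR τ hτ s (s - a₃ - a₄) (s - a₂ - a₄) (s - a₂ - a₃) r (r - w₃ - w₄) (r - w₂ - w₄)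
    (r - w₂ - w₃)
  obtain ⟨a, b, c, d, e⟩ := key hs
  obtain ⟨a', b', c', d', -⟩ := key hr
  rwa [a, b, c, d, a', b', c', d', e] at this

theorem riemA (hB : St_BAS) (hR : St_RIEMG) {τ : T3} (hτ : τ ∈ H2)
    {a₁ a₂ a₃ a₄ s w₁ w₂ w₃ w₄ r : V2} (u : V2)
    (hs : s + s = a₁ + a₂ + a₃ + a₄) (hr : r + r = w₁ + w₂ + w₃ + w₄) :
    4 * ((dg τ a₁ w₁ u * thg τ a₂ w₂ - thg τ a₁ w₁ * dg τ a₂ w₂ u) * thg τ a₃ w₃ * thg τ a₄ w₄) =
      ∑ η : Ch, exp (-2 * π * I * dot (cb η) (a₁ + a₁)) *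
        (thg τ (s + ca η) (r + cb η) * thg τ (s - a₃ - a₄ + ca η) (r - w₃ - w₄ + cb η) *
          (dg τ (s - a₂ - a₄ + ca η) (r - w₂ - w₄ + cb η) u *
            thg τ (s - a₂ - a₃ + ca η) (r - w₂ - w₃ + cb η) +
          thg τ (s - a₂ - a₄ + ca η) (r - w₂ - w₄ + cb η) *
            dg τ (s - a₂ - a₃ + ca η) (r - w₂ - w₃ + cb η) u)) := by
  have h1 := ((((hd hB hτ a₁ w₁ u).fun_mul (hd hB hτ a₂ w₂ (-u))).mul_const
    (thg τ a₃ w₃)).mul_const (thg τ a₄ w₄)).const_mul 4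
  have h2 := HasDerivAt.fun_sum (u := Finset.univ) fun (η : Ch) _ ↦
    (((hd hB hτ (s - a₂ - a₄ + ca η) (r - w₂ - w₄ + cb η) u).fun_mul
      (hd hB hτ (s - a₂ - a₃ + ca η) (r - w₂ - w₃ + cb η) u)).const_mul
      (thg τ (s + ca η) (r + cb η) * thg τ (s - a₃ - a₄ + ca η) (r - w₃ - w₄ + cb η))).const_mul
      (exp (-2 * π * I * dot (cb η) (a₁ + a₁)))
  have h3 := h1.unique (h2.congr_of_eventuallyEq (Filter.Eventually.of_forall fun t ↦ by
    dsimp only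
    rw [riemx hR hτ (r := r) hs (by rw [hr]; module)]
    refine Finset.sum_congr rfl fun η _ ↦ ?_
    rw [show r - (w₂ + t • -u) - w₄ + cb η = r - w₂ - w₄ + cb η + t • u by module,
      show r - (w₂ + t • -u) - w₃ + cb η = r - w₂ - w₃ + cb η + t • u by module]
    ring))
  simp only [zero_smul, add_zero, dg, map_neg] at h3 ⊢
  rw [← h3]
  ring

theorem riemB (hB : St_BAS) (hR : St_RIEMG) {τ : T3} (hτ : τ ∈ H2)
    {a₁ a₂ a₃ a₄ s w₁ w₂ w₃ w₄ r : V2} (u : V2)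
    (hs : s + s = a₁ + a₂ + a₃ + a₄) (hr : r + r = w₁ + w₂ + w₃ + w₄) :
    4 * ((dg τ a₁ w₁ u * thg τ a₂ w₂ + thg τ a₁ w₁ * dg τ a₂ w₂ u) * thg τ a₃ w₃ * thg τ a₄ w₄) =
      ∑ η : Ch, exp (-2 * π * I * dot (cb η) (a₁ + a₁)) *
        ((dg τ (s + ca η) (r + cb η) u * thg τ (s - a₃ - a₄ + ca η) (r - w₃ - w₄ + cb η) +
          thg τ (s + ca η) (r + cb η) * dg τ (s - a₃ - a₄ + ca η) (r - w₃ - w₄ + cb η) u) *
          thg τ (s - a₂ - a₄ + ca η) (r - w₂ - w₄ + cb η) *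
          thg τ (s - a₂ - a₃ + ca η) (r - w₂ - w₃ + cb η)) := by
  have h1 := ((((hd hB hτ a₁ w₁ u).fun_mul (hd hB hτ a₂ w₂ u)).mul_const
    (thg τ a₃ w₃)).mul_const (thg τ a₄ w₄)).const_mul 4
  have h2 := HasDerivAt.fun_sum (u := Finset.univ) fun (η : Ch) _ ↦
    ((((hd hB hτ (s + ca η) (r + cb η) u).fun_mul
      (hd hB hτ (s - a₃ - a₄ + ca η) (r - w₃ - w₄ + cb η) u)).mul_const
      (thg τ (s - a₂ - a₄ + ca η) (r - w₂ - w₄ + cb η))).mul_const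
      (thg τ (s - a₂ - a₃ + ca η) (r - w₂ - w₃ + cb η))).const_mul
      (exp (-2 * π * I * dot (cb η) (a₁ + a₁)))
  have h3 := h1.unique (h2.congr_of_eventuallyEq (Filter.Eventually.of_forall fun t ↦ by
    dsimp only
    rw [riemx hR hτ (r := r + t • u) hs (by rw [add_add_add_comm, hr]; module)]
    refine Finset.sum_congr rfl fun η _ ↦ ?_
    rw [show r + t • u + cb η = r + cb η + t • u by module,
      show r + t • u - w₃ - w₄ + cb η = r - w₃ - w₄ + cb η + t • u by module,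
      show r + t • u - (w₂ + t • u) - w₄ + cb η = r - w₂ - w₄ + cb η by module,
      show r + t • u - (w₂ + t • u) - w₃ + cb η = r - w₂ - w₃ + cb η by module]))
  simp only [zero_smul, add_zero] at h3
  exact h3

/-- the vector `n / (2 N)` -/
def fr (N : ℕ) : ℤ × ℤ →+ V2 where
  toFun n := (1 / (2 * N) : ℂ) • iv n
  map_zero' := by ext i; fin_cases i <;> simp [iv]
  map_add' a b := by ext i; fin_cases i <;> simp [iv] <;> ring

theorem fr_apply (N : ℕ) (n : ℤ × ℤ) : fr N n = ![(n.1 : ℂ) / (2 * N), (n.2 : ℂ) / (2 * N)] := by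
  ext i; fin_cases i <;> simp [fr, iv] <;> ring

/-- integral coordinates of a half integral characteristic -/
def chv (η : Ch) : Z4 := ((η.1.val, η.2.1.val), (η.2.2.1.val, η.2.2.2.val))

theorem fr_ca {N : ℕ} (hN : 0 < N) (η : Ch) : fr N (N • chv η).1 = ca η := by
  have : (N : ℂ) ≠ 0 := by exact_mod_cast hN.ne'
  rw [fr_apply]
  ext i; fin_cases i <;> simp [chv, ca] <;> field_simp

theorem fr_cb {N : ℕ} (hN : 0 < N) (η : Ch) : fr N (N • chv η).2 = cb η := by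
  have : (N : ℂ) ≠ 0 := by exact_mod_cast hN.ne'
  rw [fr_apply]
  ext i; fin_cases i <;> simp [chv, cb] <;> field_simp

theorem fr_two {N : ℕ} (hN : 0 < N) (n : ℤ × ℤ) : fr N (N • (n + n)) = iv n := by
  have : (N : ℂ) ≠ 0 := by exact_mod_cast hN.ne'
  rw [fr_apply]
  ext i; fin_cases i <;> simp [iv] <;> field_simp <;> ring

theorem root {N : ℕ} (hN : 0 < N) (k : ℤ) {z : ℂ} (h : z = 2 * π * I * (k / (2 * N))) :
    exp z ^ (2 * N) = 1 := by
  have : (N : ℂ) ≠ 0 := by exact_mod_cast hN.ne'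
  rw [← exp_nat_mul, h, ← exp_int_mul_two_pi_mul_I k]
  congr 1
  push_cast
  field_simp

theorem half (n : ℤ) : ∃ k : ℤ, n = ((n : ZMod 2).val : ℤ) + (k + k) :=
  ⟨n / 2, by rw [ZMod.val_intCast]; push_cast; omega⟩

theorem split (y : Z4) : ∃ (η : Ch) (z : Z4), y = chv η + (z + z) := by
  obtain ⟨a, ha⟩ := half y.1.1
  obtain ⟨b, hb⟩ := half y.1.2
  obtain ⟨c, hc⟩ := half y.2.1
  obtain ⟨d, hd⟩ := half y.2.2
  exact ⟨((y.1.1 : ZMod 2), (y.1.2 : ZMod 2), (y.2.1 : ZMod 2), (y.2.2 : ZMod 2)), ((a, b), (c, d)),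
    Prod.ext (Prod.ext ha hb) (Prod.ext hc hd)⟩

theorem pair0 : ∀ η : Ch, ∃ n n' : Ch, Ev n ∧ Ev n' ∧ ∃ g : Ch,
    chv g + chv g = chv η + chv n + chv n' := by
  decide +kernel

theorem dg_shift (hB : St_BAS) {τ : T3} (hτ : τ ∈ H2) (a w u : V2) (m n : ℤ × ℤ) :
    thg τ (a + iv m) (w + iv n) = exp (2 * π * I * dot a (iv n)) * thg τ a w ∧
      dg τ (a + iv m) (w + iv n) u = exp (2 * π * I * dot a (iv n)) * dg τ a w u := by
  have h : ∀ w, thg τ (a + iv m) (w + iv n) = exp (2 * π * I * dot a (iv n)) * thg τ a w :=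
    fun w ↦ by rw [hB.shift_a, hB.shift_w]
  refine ⟨h w, (hd hB hτ _ _ u).unique (((hd hB hτ a w u).const_mul _).congr_of_eventuallyEq
    (Filter.Eventually.of_forall fun t ↦ ?_))⟩
  dsimp only
  rw [← h, add_right_comm]

/-- the system of theta constants of level `2 N` with gradients in the direction `u` -/
def sys (hB : St_BAS) (hR : St_RIEMG) (hM : St_NORM) {τ : T3} (hτ : τ ∈ H2) {N : ℕ} (hN : 0 < N)
    (u : V2) {c : ℂ} (hc : c ≠ 0) : Sys ℂ Z4 (2 * N) where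
  X x := c * thg τ (fr N x.1) (fr N x.2)
  G x := c * dg τ (fr N x.1) (fr N x.2) u
  Hf := (nsmulAddMonoidHom N : Z4 →+ Z4).range
  hf η := N • chv η
  hf_mem η := ⟨chv η, rfl⟩
  red := by
    rintro _ ⟨y, rfl⟩
    obtain ⟨η, z, rfl⟩ := split y
    refine ⟨η, fun x ↦ ?_⟩
    have e : x + nsmulAddMonoidHom N (chv η + (z + z)) = x + N • chv η + N • (z + z) := by
      rw [nsmulAddMonoidHom_apply, smul_add, add_assoc]
    have e1 : fr N (x + N • chv η + N • (z + z)).1 = fr N (x + N • chv η).1 + iv z.1 := by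
      rw [Prod.fst_add, map_add, ← fr_two hN]; rfl
    have e2 : fr N (x + N • chv η + N • (z + z)).2 = fr N (x + N • chv η).2 + iv z.2 := by
      rw [Prod.snd_add, map_add, ← fr_two hN]; rfl
    obtain ⟨h1, h2⟩ := dg_shift hB hτ (fr N (x + N • chv η).1) (fr N (x + N • chv η).2) u z.1 z.2
    refine ⟨_, root hN ((x + N • chv η).1.1 * z.2.1 + (x + N • chv η).1.2 * z.2.2) ?_,
      by rw [e, e1, e2, h1, mul_left_comm], by rw [e, e1, e2, h2, mul_left_comm]⟩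
    generalize (x + N • chv η).1 = p
    simp [fr_apply, dot, iv]
    ring
  pair := by
    rintro _ ⟨y, rfl⟩
    obtain ⟨η, z, rfl⟩ := split y
    obtain ⟨n, n', a, b, g, e⟩ := pair0 η
    refine ⟨n, n', a, b, _, ⟨chv g + z, rfl⟩, ?_⟩
    simp only [nsmulAddMonoidHom_apply, ← smul_add]
    rw [add_add_add_comm, e]
    congr 1
    abel
  ne x := by
    obtain ⟨c', C, h0, h⟩ := hM τ hτ
    by_contra! hz
    have h1 := (h (fr N x.2 + per τ 0 (fr N x.1))).1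
    have h2 : (fun m ↦ th m τ (fr N x.2 + per τ 0 (fr N x.1))) = 0 := funext fun m ↦ by
      have := (mul_eq_zero.1 (hz m)).resolve_left hc
      rw [Prod.fst_add, Prod.snd_add, map_add, map_add, fr_ca hN, fr_cb hN] at this
      rw [th, add_right_comm, hB.shift_per, add_comm (ca m), this, mul_zero, Pi.zero_apply]
    rw [h2, norm_zero] at h1
    exact absurd h1 (not_le.2 (by positivity))
  riem x₁ x₂ x₃ x₄ s hs := by
    have h1 : fr N s.1 + fr N s.1 = fr N x₁.1 + fr N x₂.1 + fr N x₃.1 + fr N x₄.1 := by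
      simp only [← map_add, ← Prod.fst_add, hs]
    have h2 : fr N s.2 + fr N s.2 = fr N x₁.2 + fr N x₂.2 + fr N x₃.2 + fr N x₄.2 := by
      simp only [← map_add, ← Prod.snd_add, hs]
    refine ⟨fun η ↦ exp (-2 * π * I * dot (cb η) (fr N x₁.1 + fr N x₁.1)), fun η ↦ ?_, ?_, ?_, ?_⟩
    · refine root hN (-(η.2.2.1.val * x₁.1.1 + η.2.2.2.val * x₁.1.2)) ?_
      simp only [fr_apply, dot, cb, Pi.add_apply, Matrix.cons_val_zero, Matrix.cons_val_one,
        Matrix.cons_val_fin_one]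
      push_cast
      ring
    all_goals
      simp only [Prod.fst_add, Prod.snd_add, Prod.fst_sub, Prod.snd_sub, map_add, map_sub,
        fr_ca hN, fr_cb hN]
    · have := congrArg (c ^ 4 * ·) (riemx hR hτ h1 h2)
      simp only [Finset.mul_sum] at this
      exact Eq.trans (by ring) (this.trans (Finset.sum_congr rfl fun η _ ↦ by ring))
    · have := congrArg (c ^ 4 * ·) (riemA hB hR hτ u h1 h2)
      simp only [Finset.mul_sum] at this
      exact Eq.trans (by ring) (this.trans (Finset.sum_congr rfl fun η _ ↦ by ring))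
    · have := congrArg (c ^ 4 * ·) (riemB hB hR hτ u h1 h2)
      simp only [Finset.mul_sum] at this
      exact Eq.trans (by ring) (this.trans (Finset.sum_congr rfl fun η _ ↦ by ring))

theorem dg_ll (hB : St_BAS) {τ : T3} (hτ : τ ∈ H2) (η : Ch) (u : V2) :
    dg τ (ca η) (cb η) u = ll η τ u := by
  have h := hB.line η τ hτ 0 u 0
  simp only [zero_smul, add_zero, zero_add, th] at h
  refine (hd hB hτ _ _ u).unique ?_
  simpa only [add_comm (cb η), ll] using h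

theorem reps {N : ℕ} (hN : 0 < N) : ∃ T : Finset Z4, ∀ x, ∃ y ∈ T,
    x - y ∈ (nsmulAddMonoidHom N : Z4 →+ Z4).range := by
  have hN' : (0 : ℤ) < N := by exact_mod_cast hN
  have h : ∀ a : ℤ, a % N ∈ Finset.Ico (0 : ℤ) N := fun a ↦
    Finset.mem_Ico.2 ⟨Int.emod_nonneg _ hN'.ne', Int.emod_lt_of_pos _ hN'⟩
  have e : ∀ a : ℤ, N • (a / N) = a - a % N := fun a ↦ by
    rw [Int.emod_def, nsmul_eq_mul]; ring
  refine ⟨(Finset.Ico (0 : ℤ) N ×ˢ Finset.Ico (0 : ℤ) N) ×ˢ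
    (Finset.Ico (0 : ℤ) N ×ˢ Finset.Ico (0 : ℤ) N), fun x ↦
    ⟨((x.1.1 % N, x.1.2 % N), (x.2.1 % N, x.2.2 % N)), by simp only [Finset.mem_product, h, and_self],
      ((x.1.1 / N, x.1.2 / N), (x.2.1 / N, x.2.2 / N)), ?_⟩⟩
  exact Prod.ext (Prod.ext (e _) (e _)) (Prod.ext (e _) (e _))

end Pool.Agent.Lib.ECM.G1
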