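import Mathlib

/-! Second order jets in `z` and its conjugate, and the strong maximum principle. -/

open Complex Filter Topology Asymptotics Set Metric
open scoped ComplexConjugate

noncomputable section

namespace Pool.Agent.Lib.ECM.G4

/-- the ring `ℂ[e₁, e₂] / (e₁², e₂²)`: elements `a + b e₁ + c e₂ + d e₁ e₂` -/
structure R where
  a : ℂ
  b : ℂ
  c : ℂ
  d : ℂ

/-- `a + b e₁ + c e₂ + d e₁ e₂` -/
def mk (a b c d : ℂ) : R := ⟨a, b, c, d⟩

@[simp] theorem mk_11 (a b c d : ℂ) : (mk a b c d).a = a := rfl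
@[simp] theorem mk_12 (a b c d : ℂ) : (mk a b c d).b = b := rfl
@[simp] theorem mk_21 (a b c d : ℂ) : (mk a b c d).c = c := rfl
@[simp] theorem mk_22 (a b c d : ℂ) : (mk a b c d).d = d := rfl

theorem R.ext' {J K : R} (h1 : J.a = K.a) (h2 : J.b = K.b) (h3 : J.c = K.c) (h4 : J.d = K.d) :
    J = K := by
  cases J; cases K; congr

instance : Add R := ⟨fun x y ↦ mk (x.a + y.a) (x.b + y.b) (x.c + y.c) (x.d + y.d)⟩
instance : Neg R := ⟨fun x ↦ mk (-x.a) (-x.b) (-x.c) (-x.d)⟩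
instance : Zero R := ⟨mk 0 0 0 0⟩
instance : One R := ⟨mk 1 0 0 0⟩
instance : Mul R := ⟨fun x y ↦ mk (x.a * y.a) (x.a * y.b + x.b * y.a) (x.a * y.c + x.c * y.a)
  (x.a * y.d + x.d * y.a + x.b * y.c + x.c * y.b)⟩

theorem add_def (x y : R) : x + y = mk (x.a + y.a) (x.b + y.b) (x.c + y.c) (x.d + y.d) := rfl
theorem neg_def (x : R) : -x = mk (-x.a) (-x.b) (-x.c) (-x.d) := rfl
theorem mul_def (x y : R) : x * y = mk (x.a * y.a) (x.a * y.b + x.b * y.a)
    (x.a * y.c + x.c * y.a) (x.a * y.d + x.d * y.a + x.b * y.c + x.c * y.b) := rfl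
theorem zero_def : (0 : R) = mk 0 0 0 0 := rfl
theorem one_def : (1 : R) = mk 1 0 0 0 := rfl

instance : CommRing R where
  add_assoc x y z := by apply R.ext' <;> simp [add_def] <;> ring
  zero_add x := by apply R.ext' <;> simp [add_def, zero_def]
  add_zero x := by apply R.ext' <;> simp [add_def, zero_def]
  add_comm x y := by apply R.ext' <;> simp [add_def] <;> ring
  neg_add_cancel x := by apply R.ext' <;> simp [add_def, neg_def, zero_def]
  mul_assoc x y z := by apply R.ext' <;> simp [mul_def] <;> ring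
  mul_comm x y := by apply R.ext' <;> simp [mul_def] <;> ring
  one_mul x := by apply R.ext' <;> simp [mul_def, one_def]
  mul_one x := by apply R.ext' <;> simp [mul_def, one_def]
  zero_mul x := by apply R.ext' <;> simp [mul_def, zero_def]
  mul_zero x := by apply R.ext' <;> simp [mul_def, zero_def]
  left_distrib x y z := by apply R.ext' <;> simp [mul_def, add_def] <;> ring
  right_distrib x y z := by apply R.ext' <;> simp [mul_def, add_def] <;> ring
  nsmul := nsmulRec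
  zsmul := zsmulRec

theorem mk_eta (J : R) : mk J.a J.b J.c J.d = J := rfl

theorem mk_add (a b c d a' b' c' d' : ℂ) :
    mk a b c d + mk a' b' c' d' = mk (a + a') (b + b') (c + c') (d + d') := rfl

theorem mk_mul (a b c d a' b' c' d' : ℂ) : mk a b c d * mk a' b' c' d' =
    mk (a * a') (a * b' + b * a') (a * c' + c * a') (a * d' + d * a' + b * c' + c * b') := rfl

theorem mk_one : mk 1 0 0 0 = 1 := rfl

theorem mk_zero : mk 0 0 0 0 = 0 := rfl

/-- the inclusion of constants -/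
def ι : ℂ →+* R where
  toFun a := mk a 0 0 0
  map_one' := rfl
  map_zero' := rfl
  map_mul' a b := by simp [mk_mul]
  map_add' a b := by simp [mk_add]

theorem mk_alg (a : ℂ) : ι a = mk a 0 0 0 := rfl

theorem mk_sum {ι : Type*} (s : Finset ι) (a b c d : ι → ℂ) : ∑ i ∈ s, mk (a i) (b i) (c i) (d i) =
    mk (∑ i ∈ s, a i) (∑ i ∈ s, b i) (∑ i ∈ s, c i) (∑ i ∈ s, d i) := by
  classical
  induction s using Finset.induction_on with
  | empty => simp [mk_zero]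
  | insert i s hi ih => simp only [Finset.sum_insert hi, ih, mk_add]

/-- `f (w + z) = a + b z + c z̄ + d z z̄ + p z² + q z̄² + o (z²)` -/
def Jet (f : ℂ → ℂ) (w : ℂ) (J : R) : Prop := ∃ p q : ℂ,
  (fun z ↦ f (w + z) - (J.a + J.b * z + J.c * conj z + J.d * (z * conj z) +
    p * z ^ 2 + q * conj z ^ 2)) =o[𝓝 0] fun z : ℂ ↦ z ^ 2

theorem conj_O : (fun z : ℂ ↦ conj z) =O[𝓝 0] fun z : ℂ ↦ z :=
  IsBigO.of_bound 1 (by simp)

theorem z_o : (fun z : ℂ ↦ z) =o[𝓝 0] fun _ : ℂ ↦ (1 : ℂ) := (isLittleO_one_iff ℂ).2 tendsto_id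

theorem lin_O (b c : ℂ) : (fun z : ℂ ↦ b * z + c * conj z) =O[𝓝 0] fun z : ℂ ↦ z :=
  ((isBigO_refl _ _).const_mul_left b).add (conj_O.const_mul_left c)

theorem quad_O (d p q : ℂ) :
    (fun z : ℂ ↦ d * (z * conj z) + p * z ^ 2 + q * conj z ^ 2) =O[𝓝 0] fun z : ℂ ↦ z ^ 2 := by
  refine (((IsBigO.of_bound 1 ?_).const_mul_left d).add
    ((isBigO_refl _ _).const_mul_left p)).add ((conj_O.pow 2).const_mul_left q)
  simp [sq]

theorem sq_o : (fun z : ℂ ↦ z ^ 2) =o[𝓝 0] fun z : ℂ ↦ z := by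
  simpa [sq] using (isBigO_refl (fun z : ℂ ↦ z) _).mul_isLittleO z_o

theorem Jet.eq {f : ℂ → ℂ} {w : ℂ} {J : R} (h : Jet f w J) : f w = J.a := by
  obtain ⟨p, q, h⟩ := h
  have := (h.bound one_pos).self_of_nhds
  simpa [sub_eq_zero] using this

theorem Jet.sub_O {f : ℂ → ℂ} {w : ℂ} {J : R} (h : Jet f w J) :
    (fun z ↦ f (w + z) - J.a) =O[𝓝 0] fun z : ℂ ↦ z := by
  obtain ⟨p, q, h⟩ := h
  refine (((h.isBigO.trans sq_o.isBigO).add (lin_O J.b J.c)).add
    ((quad_O J.d p q).trans sq_o.isBigO)).congr_left fun z ↦ ?_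
  ring

theorem Jet.continuousAt {f : ℂ → ℂ} {w : ℂ} {J : R} (h : Jet f w J) : ContinuousAt f w := by
  have h1 : Tendsto (fun z ↦ f (w + z) - J.a) (𝓝 0) (𝓝 0) := h.sub_O.trans_tendsto tendsto_id
  have h2 : Tendsto (fun z ↦ z - w) (𝓝 w) (𝓝 0) := by
    simpa using (continuous_sub_right w).tendsto w
  have h3 := (h1.comp h2).add_const J.a
  simpa [Function.comp_def, ContinuousAt, h.eq] using h3

theorem Jet.congr {f g : ℂ → ℂ} {w : ℂ} {J : R} (h : Jet f w J) (e : f =ᶠ[𝓝 w] g) :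
    Jet g w J := by
  obtain ⟨p, q, h⟩ := h
  refine ⟨p, q, h.congr' ?_ EventuallyEq.rfl⟩
  have h2 : Tendsto (fun z ↦ w + z) (𝓝 0) (𝓝 w) := by
    simpa using (continuous_add_left w).tendsto 0
  filter_upwards [h2.eventually e] with z hz
  rw [hz]

theorem Jet.const (a w : ℂ) : Jet (fun _ ↦ a) w (mk a 0 0 0) := ⟨0, 0, by simp⟩

theorem Jet.add {f g : ℂ → ℂ} {w : ℂ} {J K : R} (h : Jet f w J) (k : Jet g w K) :
    Jet (fun z ↦ f z + g z) w (J + K) := by
  obtain ⟨p, q, h⟩ := h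
  obtain ⟨p', q', k⟩ := k
  refine ⟨p + p', q + q', (h.add k).congr_left fun z ↦ ?_⟩
  simp only [add_def, mk_11, mk_12, mk_21, mk_22]
  ring

theorem Jet.mul {f g : ℂ → ℂ} {w : ℂ} {J K : R} (h : Jet f w J) (k : Jet g w K) :
    Jet (fun z ↦ f z * g z) w (J * K) := by
  have hg : (fun z ↦ g (w + z)) =O[𝓝 0] fun _ : ℂ ↦ (1 : ℂ) := by
    refine ((k.sub_O.trans z_o.isBigO).add (isBigO_const_one ℂ K.a _)).congr_left fun z ↦ ?_
    ring
  obtain ⟨p, q, h⟩ := h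
  obtain ⟨p', q', k⟩ := k
  rw [← mk_eta J, ← mk_eta K, mk_mul]
  generalize J.a = a, J.b = b, J.c = c, J.d = d at *
  generalize K.a = a', K.b = b', K.c = c', K.d = d' at *
  refine ⟨a * p' + p * a' + b * b', a * q' + q * a' + c * c', ?_⟩
  have t1 : (fun z : ℂ ↦ (b * z + c * conj z) * (d' * (z * conj z) + p' * z ^ 2 + q' * conj z ^ 2))
      =o[𝓝 0] fun z : ℂ ↦ z ^ 2 := by
    simpa using ((lin_O b c).trans_isLittleO z_o).mul_isBigO (quad_O d' p' q')
  have t2 : (fun z : ℂ ↦ (b' * z + c' * conj z) * (d * (z * conj z) + p * z ^ 2 + q * conj z ^ 2))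
      =o[𝓝 0] fun z : ℂ ↦ z ^ 2 := by
    simpa using ((lin_O b' c').trans_isLittleO z_o).mul_isBigO (quad_O d p q)
  have t3 : (fun z : ℂ ↦ (d * (z * conj z) + p * z ^ 2 + q * conj z ^ 2) *
      (d' * (z * conj z) + p' * z ^ 2 + q' * conj z ^ 2)) =o[𝓝 0] fun z : ℂ ↦ z ^ 2 := by
    simpa using ((quad_O d p q).trans_isLittleO (sq_o.trans z_o)).mul_isBigO (quad_O d' p' q')
  have hP : (fun z : ℂ ↦ a + (b * z + c * conj z) + (d * (z * conj z) + p * z ^ 2 + q * conj z ^ 2))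
      =O[𝓝 0] fun _ : ℂ ↦ (1 : ℂ) :=
    ((isBigO_const_one ℂ a _).add ((lin_O b c).trans z_o.isBigO)).add
      ((quad_O d p q).trans (sq_o.trans z_o).isBigO)
  have t4 := h.mul_isBigO hg
  have t5 := hP.mul_isLittleO k
  simp only [mul_one, one_mul] at t4 t5
  refine ((((t1.add t2).add t3).add t4).add t5).congr_left fun z ↦ ?_
  simp only [mk_11, mk_12, mk_21, mk_22]
  ring

theorem Jet.sum {ι : Type*} (s : Finset ι) {f : ι → ℂ → ℂ} {w : ℂ} {J : ι → R}
    (h : ∀ i ∈ s, Jet (f i) w (J i)) : Jet (fun z ↦ ∑ i ∈ s, f i z) w (∑ i ∈ s, J i) := by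
  classical
  induction s using Finset.induction_on with
  | empty => simpa [mk_zero] using Jet.const 0 w
  | insert i s hi ih =>
    simp only [Finset.sum_insert hi]
    exact (h i (by simp)).add (ih fun j hj ↦ h j (by simp [hj]))

theorem Jet.prod {ι : Type*} (s : Finset ι) {f : ι → ℂ → ℂ} {w : ℂ} {J : ι → R}
    (h : ∀ i ∈ s, Jet (f i) w (J i)) : Jet (fun z ↦ ∏ i ∈ s, f i z) w (∏ i ∈ s, J i) := by
  classical
  induction s using Finset.induction_on with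
  | empty => simpa [mk_one] using Jet.const 1 w
  | insert i s hi ih =>
    simp only [Finset.prod_insert hi]
    exact (h i (by simp)).mul (ih fun j hj ↦ h j (by simp [hj]))

theorem Jet.holo {f : ℂ → ℂ} {w : ℂ} (h : AnalyticAt ℂ f w) :
    Jet f w (mk (f w) (deriv f w) 0 0) := by
  obtain ⟨p, hp⟩ := h
  have h1 := hp.has_fpower_series_dslope_fslope.analyticAt.differentiableAt.hasDerivAt
  rw [hasDerivAt_iff_isLittleO_nhds_zero] at h1
  refine ⟨deriv (dslope f w) w, 0, ?_⟩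
  have h2 := (isBigO_refl (fun z : ℂ ↦ z) _).mul_isLittleO h1
  refine h2.congr (fun z ↦ ?_) fun z ↦ by ring
  have h3 := sub_smul_dslope f w (w + z)
  simp only [add_sub_cancel_left, smul_eq_mul] at h3
  simp only [dslope_same, smul_eq_mul, mk_11, mk_12, mk_21, mk_22]
  linear_combination h3

theorem Jet.conj {f : ℂ → ℂ} {w a b c d : ℂ} (h : Jet f w (mk a b c d)) :
    Jet (fun z ↦ conj (f z)) w (mk (conj a) (conj c) (conj b) (conj d)) := by
  obtain ⟨p, q, h⟩ := h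
  refine ⟨conj q, conj p, ?_⟩
  refine IsLittleO.of_norm_left (h.norm_left.congr_left fun z ↦ ?_)
  rw [← Complex.norm_conj]
  congr 1
  simp only [mk_11, mk_12, mk_21, mk_22, map_sub, map_add, map_mul, map_pow, conj_conj]
  ring

theorem Jet.inv {f : ℂ → ℂ} {w a b c d : ℂ} (h : Jet f w (mk a b c d)) (ha : a ≠ 0) :
    Jet (fun z ↦ (f z)⁻¹) w (mk a⁻¹ (-b / a ^ 2) (-c / a ^ 2) (-d / a ^ 2 + 2 * b * c / a ^ 3)) := by
  have y := h.add (Jet.const (-a) w)
  have h1 := ((Jet.const a⁻¹ w).add ((Jet.const (-a⁻¹ ^ 2) w).mul y)).add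
    ((Jet.const (a⁻¹ ^ 3) w).mul (y.mul y))
  simp only [mk_add, mk_mul] at h1
  obtain ⟨p, q, h1⟩ := h1
  have hy := h.sub_O
  simp only [mk_11] at hy
  have hc : Tendsto (fun z ↦ f (w + z)) (𝓝 0) (𝓝 a) := by
    simpa using (hy.trans_tendsto tendsto_id).add_const a
  have hi : (fun z ↦ -a⁻¹ ^ 3 * (f (w + z))⁻¹) =O[𝓝 0] fun _ : ℂ ↦ (1 : ℂ) :=
    ((hc.inv₀ ha).isBigO_one ℂ).const_mul_left _
  have h2 := (hi.mul_isLittleO (hy.trans_isLittleO z_o)).mul_isBigO (hy.pow 2)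
  simp only [mul_one, one_mul] at h2
  refine ⟨p, q, (h1.add h2).congr' ?_ EventuallyEq.rfl⟩
  filter_upwards [hc.eventually_ne ha] with z hz
  simp only [mk_11, mk_12, mk_21, mk_22]
  field_simp
  ring

/-- along a real ray -/
theorem ray {g : ℂ → ℂ} (h : g =o[𝓝 0] fun z : ℂ ↦ z ^ 2) (u : ℂ) (hu : ‖u‖ = 1) :
    (fun t : ℝ ↦ g (u * t)) =o[𝓝 0] fun t : ℝ ↦ t ^ 2 := by
  have h1 : Tendsto (fun t : ℝ ↦ u * t) (𝓝 0) (𝓝 0) := by
    have : Continuous fun t : ℝ ↦ u * t := by fun_prop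
    simpa using this.tendsto 0
  refine (h.comp_tendsto h1).trans_isBigO (IsBigO.of_bound 1 (Eventually.of_forall fun t ↦ ?_))
  simp [hu]

theorem Jet.zero {f : ℂ → ℂ} {w a b c d : ℂ} (h : Jet f w (mk a b c d)) (e : f =ᶠ[𝓝 w] 0) :
    b = 0 := by
  obtain ⟨p, q, h⟩ := h.congr e
  have h1 := ray h 1 (by simp)
  have h2 := ray h (-1) (by simp)
  have h3 := ray h I (by simp)
  have h4 := ray h (-I) (by simp)
  have h5 := (h1.sub h2).sub ((h3.sub h4).const_mul_left I)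
  have h6 : (fun t : ℝ ↦ (-4 * b) * t) =o[𝓝 0] fun t : ℝ ↦ t ^ 2 := by
    refine h5.congr_left fun t ↦ ?_
    simp only [mk_11, mk_12, mk_21, mk_22, Pi.zero_apply, map_mul, map_neg, map_one, conj_I,
      conj_ofReal]
    linear_combination (2 * b * t - 2 * c * t) * I_mul_I
  by_contra hb
  have h7 : (fun t : ℝ ↦ t) =O[𝓝 0] fun t : ℝ ↦ (-4 * b) * t :=
    IsBigO.of_bound (‖-4 * b‖⁻¹) (Eventually.of_forall fun t ↦ by
      have : ‖-4 * b‖ ≠ 0 := by simpa using hb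
      rw [norm_mul (-4 * b), ← mul_assoc, inv_mul_cancel₀ this]
      simp)
  have h8 : (fun t : ℝ ↦ t ^ 2) =O[𝓝 0] fun t : ℝ ↦ t := by
    simpa [sq] using (isBigO_refl (fun t : ℝ ↦ t) _).mul
      (((isLittleO_one_iff ℝ).2 tendsto_id).isBigO : (fun t : ℝ ↦ t) =O[𝓝 0] fun _ ↦ (1 : ℝ))
  have h9 := ((h7.trans_isLittleO h6).trans_isBigO h8).mono (nhdsWithin_le_nhds (s := {0}ᶜ))
  exact isLittleO_irrefl ((eventually_mem_nhdsWithin (a := (0 : ℝ)) (s := {0}ᶜ)).frequently) h9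

theorem Jet.max {u : ℂ → ℝ} {w : ℂ} {J : R} (h : Jet (fun z ↦ (u z : ℂ)) w J)
    (hm : IsLocalMax u w) : J.d.re ≤ 0 := by
  have e := h.eq
  obtain ⟨p, q, h⟩ := h
  have h5 := ((ray h 1 (by simp)).add (ray h (-1) (by simp))).add
    ((ray h I (by simp)).add (ray h (-I) (by simp)))
  have hn : ∀ v : ℂ, ∀ᶠ t : ℝ in 𝓝 0, u (w + v * t) ≤ u w := fun v ↦ by
    have : Continuous fun t : ℝ ↦ w + v * t := by fun_prop
    have h1 : Tendsto (fun t : ℝ ↦ w + v * t) (𝓝 0) (𝓝 w) := by simpa using this.tendsto 0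
    exact h1.eventually hm
  by_contra hd
  push Not at hd
  have h6 := (h5.bound hd).and ((hn 1).and ((hn (-1)).and ((hn I).and (hn (-I)))))
  obtain ⟨t, ⟨h7, k1, k2, k3, k4⟩, ht⟩ :=
    ((h6.filter_mono (nhdsWithin_le_nhds (s := {0}ᶜ))).and eventually_mem_nhdsWithin).exists
  have h8 := (neg_le_of_abs_le ((abs_re_le_norm _).trans h7))
  rw [← e] at h8
  have ht2 : 0 < t ^ 2 := by
    have : t ≠ 0 := ht
    positivity
  have h9 : ∀ x y : ℂ, x = y → x.re = y.re := fun _ _ k ↦ by rw [k]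
  have h10 := h9 _ ((u (w + 1 * t) + u (w + -1 * t) + u (w + I * t) + u (w + -I * t) - 4 * u w : ℝ) -
      ((4 * t ^ 2 : ℝ) : ℂ) * J.d) (show (u (w + 1 * t) : ℂ) - (u w + J.b * (1 * t) +
      J.c * conj (1 * t : ℂ) + J.d * (1 * t * conj (1 * t : ℂ)) + p * (1 * t) ^ 2 +
      q * conj (1 * t : ℂ) ^ 2) + ((u (w + -1 * t) : ℂ) - (u w + J.b * (-1 * t) +
      J.c * conj (-1 * t : ℂ) + J.d * (-1 * t * conj (-1 * t : ℂ)) + p * (-1 * t) ^ 2 +
      q * conj (-1 * t : ℂ) ^ 2)) + ((u (w + I * t) : ℂ) - (u w + J.b * (I * t) +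
      J.c * conj (I * t : ℂ) + J.d * (I * t * conj (I * t : ℂ)) + p * (I * t) ^ 2 +
      q * conj (I * t : ℂ) ^ 2) + ((u (w + -I * t) : ℂ) - (u w + J.b * (-I * t) +
      J.c * conj (-I * t : ℂ) + J.d * (-I * t * conj (-I * t : ℂ)) + p * (-I * t) ^ 2 +
      q * conj (-I * t : ℂ) ^ 2))) = _ by
        simp only [map_mul, map_neg, map_one, conj_I, conj_ofReal]
        push_cast
        linear_combination (2 * J.d * t ^ 2 - 2 * p * t ^ 2 - 2 * q * t ^ 2) * I_mul_I)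
  rw [h10, sub_re, ofReal_re, re_ofReal_mul, Real.norm_eq_abs, abs_of_pos ht2] at h8
  nlinarith

/-- `u` is positive at `w` and `log u` has Laplacian `4 κ` there -/
def LJ (u : ℂ → ℝ) (w : ℂ) (κ : ℝ) : Prop := 0 < u w ∧ ∃ (b : ℂ) (d : ℝ),
  Jet (fun z ↦ (u z : ℂ)) w (mk (u w) b (conj b) d) ∧ κ = d / u w - normSq b / u w ^ 2

theorem LJ.continuousAt {u : ℂ → ℝ} {w : ℂ} {κ : ℝ} (h : LJ u w κ) : ContinuousAt u w := by
  obtain ⟨-, b, d, h, -⟩ := h
  exact continuous_re.continuousAt.comp h.continuousAt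

theorem LJ.one (w : ℂ) : LJ (fun _ ↦ 1) w 0 :=
  ⟨one_pos, 0, 0, by simpa using Jet.const 1 w, by simp⟩

theorem LJ.mul {u v : ℂ → ℝ} {w : ℂ} {κ μ : ℝ} (h : LJ u w κ) (k : LJ v w μ) :
    LJ (fun z ↦ u z * v z) w (κ + μ) := by
  obtain ⟨h0, b, d, h, rfl⟩ := h
  obtain ⟨k0, b', d', k, rfl⟩ := k
  refine ⟨mul_pos h0 k0, u w * b' + b * v w, u w * d' + d * v w + 2 * (b * conj b').re, ?_, ?_⟩
  · have := h.mul k
    rw [mk_mul] at this
    convert this using 2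
    · simp
    · simp
    · simp
    · have e := add_conj (b * conj b')
      simp only [map_mul, conj_conj] at e
      push_cast at e ⊢
      linear_combination -e
  · simp only [normSq_apply, add_re, add_im, re_ofReal_mul, im_ofReal_mul, mul_re, mul_im,
      ofReal_re, ofReal_im, conj_re, conj_im]
    field_simp
    ring

theorem LJ.prod {ι : Type*} (s : Finset ι) {u : ι → ℂ → ℝ} {w : ℂ} {κ : ι → ℝ}
    (h : ∀ i ∈ s, LJ (u i) w (κ i)) : LJ (fun z ↦ ∏ i ∈ s, u i z) w (∑ i ∈ s, κ i) := by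
  classical
  induction s using Finset.induction_on with
  | empty => simpa using LJ.one w
  | insert i s hi ih =>
    simp only [Finset.prod_insert hi, Finset.sum_insert hi]
    exact (h i (by simp)).mul (ih fun j hj ↦ h j (by simp [hj]))

theorem jet_normSq {f : ℂ → ℂ} {w : ℂ} (h : AnalyticAt ℂ f w) :
    Jet (fun z ↦ (normSq (f z) : ℂ)) w (mk (normSq (f w)) (deriv f w * conj (f w))
      (conj (deriv f w * conj (f w))) (normSq (deriv f w))) := by
  have := (Jet.holo h).mul (Jet.holo h).conj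
  rw [mk_mul] at this
  convert this using 2 <;> simp [mul_conj, mul_comm]

theorem LJ.normSq {f : ℂ → ℂ} {w : ℂ} (h : AnalyticAt ℂ f w) (h0 : f w ≠ 0) :
    LJ (fun z ↦ normSq (f z)) w 0 := by
  have := normSq_pos.2 h0
  refine ⟨this, _, _, jet_normSq h, ?_⟩
  simp only [map_mul, normSq_conj]
  field_simp
  ring

theorem LJ.max {u : ℂ → ℝ} {w : ℂ} {κ : ℝ} (h : LJ u w κ) (hm : IsLocalMax u w) : κ ≤ 0 := by
  obtain ⟨h0, b, d, h, rfl⟩ := h
  have h1 : d ≤ 0 := by simpa using h.max hm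
  have h2 : d / u w ≤ 0 := div_nonpos_of_nonpos_of_nonneg h1 h0.le
  have h3 : 0 ≤ Complex.normSq b / u w ^ 2 := div_nonneg (normSq_nonneg _) (sq_nonneg _)
  linarith

theorem LJ.sub {u : ℂ → ℝ} {w : ℂ} {κ : ℝ} (h : LJ u w κ) (hκ : 0 ≤ κ) :
    ∃ J : R, Jet (fun z ↦ (u z : ℂ)) w J ∧ 0 ≤ J.d.re := by
  obtain ⟨h0, b, d, h, rfl⟩ := h
  refine ⟨_, h, ?_⟩
  have h3 : 0 ≤ Complex.normSq b / u w ^ 2 := div_nonneg (normSq_nonneg _) (sq_nonneg _)
  have h4 : 0 ≤ d / u w := by linarith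
  simpa using (div_nonneg_iff.1 h4).elim (fun k ↦ k.1) fun k ↦ absurd k.2 (not_le.2 h0)

/-- the touching ball argument -/
theorem hopf {u : ℂ → ℝ} {p q : ℂ} {M : ℝ} (hpq : p ≠ q)
    (hu : ∀ w ∈ closedBall q (‖q - p‖ / 4),
      u w ≤ M ∧ ∃ J : R, Jet (fun z ↦ (u z : ℂ)) w J ∧ 0 ≤ J.d.re)
    (hb : ∀ w, ‖w - p‖ < ‖q - p‖ → u w < M) : u q ≠ M := by
  intro hq
  set r := ‖q - p‖ with hr
  have r0 : 0 < r := norm_pos_iff.2 (sub_ne_zero.2 hpq.symm)
  set c := (p + q) / 2 with hc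
  have hqc : ‖q - c‖ = r / 2 := by
    rw [show q - c = (q - p) / 2 by rw [hc]; ring, norm_div]; simp [hr]
  have hne : ∀ w ∈ closedBall q (r / 4), r / 4 ≤ ‖w - c‖ := fun w hw ↦ by
    have h1 := norm_sub_le_norm_sub_add_norm_sub q w c
    rw [mem_closedBall, dist_comm, dist_eq_norm] at hw
    linarith
  have hcu : ContinuousOn u (closedBall q (r / 4)) := fun w hw ↦ by
    obtain ⟨-, J, hJ, -⟩ := hu w hw
    exact (continuous_re.continuousAt.comp hJ.continuousAt).continuousWithinAt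
  obtain ⟨η, η0, hη⟩ : ∃ η > 0, ∀ w ∈ sphere q (r / 4), ‖w - c‖ ≤ r / 2 → u w ≤ M - η := by
    let A := sphere q (r / 4) ∩ closedBall c (r / 2)
    have hA : IsCompact A := (isCompact_sphere _ _).inter_right isClosed_closedBall
    rcases A.eq_empty_or_nonempty with h | h
    · exact ⟨1, one_pos, fun w h1 h2 ↦ absurd (h ▸ (⟨h1, by simpa [dist_eq_norm] using h2⟩ : w ∈ A))
        (notMem_empty w)⟩
    obtain ⟨x, hx, hm⟩ := hA.exists_isMaxOn h
      (hcu.mono fun w hw ↦ sphere_subset_closedBall hw.1)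
    refine ⟨M - u x, sub_pos.2 (hb x ?_), fun w h1 h2 ↦ ?_⟩
    · have h1 := parallelogram_law_with_norm ℝ (x - c) (q - c)
      have h2 : ‖x - c‖ ≤ r / 2 := by simpa [dist_eq_norm] using hx.2
      have h3 : ‖x - q‖ = r / 4 := by simpa [dist_eq_norm] using hx.1
      rw [show x - c + (q - c) = x - p by rw [hc]; ring, show x - c - (q - c) = x - q by ring,
        h3, hqc] at h1
      have h4 := norm_nonneg (x - c)
      have h5 := norm_nonneg (x - p)
      nlinarith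
    · have := hm (show w ∈ A from ⟨h1, by simpa [dist_eq_norm] using h2⟩)
      simpa using this
  let ε : ℝ := η * (r / 4) ^ 2 / 2
  have ε0 : 0 < ε := by positivity
  let g : ℂ → ℝ := fun w ↦ u w + ε * Complex.normSq (w - c)⁻¹
  have hgJ : ∀ w ∈ closedBall q (r / 4), ∃ J : R, Jet (fun z ↦ (g z : ℂ)) w J ∧
      0 < J.d.re := fun w hw ↦ by
    obtain ⟨-, J, hJ, h0⟩ := hu w hw
    have hw0 : w - c ≠ 0 := norm_pos_iff.1 (by linarith [hne w hw])
    have ha : AnalyticAt ℂ (fun z ↦ (z - c)⁻¹) w := (analyticAt_id.sub analyticAt_const).inv hw0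
    have hd : deriv (fun z ↦ (z - c)⁻¹) w = -1 / (w - c) ^ 2 :=
      (((hasDerivAt_id w).sub_const c).inv hw0).deriv
    refine ⟨_, (hJ.add ((Jet.const ε w).mul (jet_normSq ha))).congr
      (Eventually.of_forall fun z ↦ by simp [g]), ?_⟩
    have h1 : 0 < Complex.normSq (deriv (fun z ↦ (z - c)⁻¹) w) := by
      rw [hd, normSq_pos]; simpa using hw0
    rw [mk_mul]
    simp only [add_def, mk_22, add_re, mul_zero, zero_mul, add_zero, re_ofReal_mul,
      ofReal_re]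
    positivity
  have hgc : ContinuousOn g (closedBall q (r / 4)) := fun w hw ↦ by
    obtain ⟨J, hJ, -⟩ := hgJ w hw
    exact (continuous_re.continuousAt.comp hJ.continuousAt).continuousWithinAt
  obtain ⟨x, hx, hm⟩ := (isCompact_closedBall q (r / 4)).exists_isMaxOn
    ⟨q, mem_closedBall_self (by positivity)⟩ hgc
  have hgv : ∀ w, g w = u w + ε * (‖w - c‖ ^ 2)⁻¹ := fun w ↦ by
    simp [g, normSq_eq_norm_sq]
  have h1 : M + ε * ((r / 2) ^ 2)⁻¹ ≤ g x := by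
    have : g q ≤ g x := hm (mem_closedBall_self (by positivity))
    rwa [hgv, hq, hqc] at this
  have h2 : x ∈ ball q (r / 4) := by
    by_contra hn
    have hs : x ∈ sphere q (r / 4) := le_antisymm hx (not_lt.1 hn)
    rw [hgv] at h1
    have k0 : 0 < ε * ((r / 2) ^ 2)⁻¹ := by positivity
    by_cases hx2 : ‖x - c‖ ≤ r / 2
    · have k1 := hη x hs hx2
      have k2 : (‖x - c‖ ^ 2)⁻¹ ≤ ((r / 4) ^ 2)⁻¹ :=
        inv_anti₀ (by positivity) (pow_le_pow_left₀ (by positivity) (hne x hx) 2)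
      have k3 : ε * ((r / 4) ^ 2)⁻¹ = η / 2 := by simp only [ε]; field_simp
      have k4 := mul_le_mul_of_nonneg_left k2 ε0.le
      linarith
    · have k2 : (‖x - c‖ ^ 2)⁻¹ < ((r / 2) ^ 2)⁻¹ :=
        inv_strictAnti₀ (by positivity) (pow_lt_pow_left₀ (not_le.1 hx2) (by positivity) two_ne_zero)
      have k4 := mul_lt_mul_of_pos_left k2 ε0
      linarith [(hu x hx).1]
  obtain ⟨J, hJ, h0⟩ := hgJ x hx
  have := hJ.max (hm.isLocalMax (mem_of_superset (isOpen_ball.mem_nhds h2) ball_subset_closedBall))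
  linarith

/-- the strong maximum principle -/
theorem smp {Ω : Set ℂ} (ho : IsOpen Ω) (hc : IsPreconnected Ω) {u : ℂ → ℝ}
    (hu : ∀ w ∈ Ω, ∃ κ, 0 ≤ κ ∧ LJ u w κ) {w₀ : ℂ} (h0 : w₀ ∈ Ω) (hm : ∀ w ∈ Ω, u w ≤ u w₀) :
    ∀ w ∈ Ω, u w = u w₀ := by
  have hcu : ∀ w ∈ Ω, ContinuousAt u w := fun w hw ↦ (hu w hw).choose_spec.2.continuousAt
  have key : ∀ q ∈ Ω, u q = u w₀ → ∀ᶠ p in 𝓝 q, u p = u w₀ := by
    intro q₀ hq₀ e₀
    obtain ⟨δ, δ0, hδ⟩ := Metric.nhds_basis_closedBall.mem_iff.1 (ho.mem_nhds hq₀)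
    filter_upwards [closedBall_mem_nhds q₀ (show 0 < δ / 4 by positivity)] with p hp
    by_contra hne
    let F := closedBall q₀ (δ / 2) ∩ u ⁻¹' {u w₀}
    have hs : closedBall q₀ (δ / 2) ⊆ Ω := (closedBall_subset_closedBall (by linarith)).trans hδ
    have hF : IsCompact F := (isCompact_closedBall _ _).of_isClosed_subset
      (ContinuousOn.preimage_isClosed_of_isClosed
        (fun w hw ↦ (hcu w (hs hw)).continuousWithinAt) isClosed_closedBall isClosed_singleton)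
      inter_subset_left
    have hq : q₀ ∈ F := ⟨mem_closedBall_self (by positivity), e₀⟩
    obtain ⟨q, hqF, hmin⟩ := hF.exists_isMinOn ⟨q₀, hq⟩
      (f := fun w ↦ ‖w - p‖) (by fun_prop)
    have h1 : ‖q - p‖ ≤ δ / 4 := by
      have : ‖q - p‖ ≤ ‖q₀ - p‖ := hmin hq
      rw [mem_closedBall, dist_comm, dist_eq_norm] at hp
      linarith
    refine hopf (u := u) (p := p) (q := q) (M := u w₀) (fun e ↦ hne (e ▸ hqF.2)) (fun w hw ↦ ?_)
      (fun w hw ↦ ?_) hqF.2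
    · have hw' : w ∈ Ω := hδ (by
        have := dist_triangle w q q₀
        have k1 : dist q q₀ ≤ δ / 2 := hqF.1
        rw [mem_closedBall] at hw ⊢
        linarith)
      obtain ⟨κ, k0, k1⟩ := hu w hw'
      exact ⟨hm w hw', k1.sub k0⟩
    · have hw' : w ∈ closedBall q₀ (δ / 2) := by
        have := dist_triangle w p q₀
        rw [mem_closedBall] at hp ⊢
        rw [dist_eq_norm w p] at this
        linarith
      refine lt_of_le_of_ne (hm w (hs hw')) fun e ↦ ?_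
      have : ‖q - p‖ ≤ ‖w - p‖ := hmin (show w ∈ F from ⟨hw', e⟩)
      linarith
  have := hc.subset_of_closure_inter_subset (u := {w | ∀ᶠ p in 𝓝 w, u p = u w₀})
    isOpen_setOf_eventually_nhds ⟨w₀, h0, key w₀ h0 rfl⟩ fun w hw ↦ key w hw.2 (by
      have h1 : ∃ᶠ p in 𝓝 w, u p = u w₀ :=
        (mem_closure_iff_frequently.1 hw.1).mono fun p hp ↦ hp.self_of_nhds
      exact tendsto_nhds_unique_of_frequently_eq (hcu w hw.2) tendsto_const_nhds h1)
  exact fun w hw ↦ (this hw).self_of_nhds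

end Pool.Agent.Lib.ECM.G4
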