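import Pool.Agent.Lib.ECM.G4A

/-! A maximum principle on a half plane and some identity theorems. -/

open Complex Filter Topology Set Metric
open scoped ComplexConjugate

noncomputable section

namespace Pool.Agent.Lib.ECM.G4

/-- a left half plane -/
def hp (ρ : ℝ) : Set ℂ := {w | w.re < ρ}

theorem hp_open (ρ : ℝ) : IsOpen (hp ρ) := isOpen_lt continuous_re continuous_const

theorem hp_conn (ρ : ℝ) : IsPreconnected (hp ρ) := (convex_halfSpace_re_lt ρ).isPreconnected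

theorem per_red {u : ℂ → ℝ} {ρ P : ℝ} (hP : 0 < P) (hper : ∀ w ∈ hp ρ, u (w + P * I) = u w)
    {w : ℂ} (hw : w ∈ hp ρ) : ∃ w' : ℂ, w'.re = w.re ∧ 0 ≤ w'.im ∧ w'.im ≤ P ∧ u w' = u w := by
  have h1 : ∀ n : ℤ, u (w + n * (P * I)) = u w := fun n ↦ by
    induction n using Int.induction_on with
    | zero => simp
    | succ n ih =>
      rw [← ih, ← hper (w + (n : ℤ) * (P * I)) (by simpa [hp] using hw)]
      congr 1; push_cast; ring
    | pred n ih =>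
      rw [← ih, ← hper (w + (-(n : ℤ) - 1 : ℤ) * (P * I)) (by simpa [hp] using hw)]
      congr 1; push_cast; ring
  have h2 := toIcoMod_mem_Ico hP 0 w.im
  have h3 := toIcoMod_add_toIcoDiv_zsmul hP 0 w.im
  rw [zsmul_eq_mul] at h3
  refine ⟨w + (-toIcoDiv hP 0 w.im : ℤ) * (P * I), by simp, ?_, ?_, h1 _⟩
  · simp; linarith [h2.1]
  · simp; linarith [h2.2]

theorem decay (C ε b : ℝ) (k : ℕ) (hε : 0 < ε) :
    Tendsto (fun x : ℝ ↦ C * (1 + |x|) ^ k * Real.exp (2 * (ε * (x - b)))) atBot (𝓝 0) := by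
  have h1 : Tendsto (fun x : ℝ ↦ 2 * ε * (1 - x)) atBot atTop :=
    (tendsto_atTop_add_const_left _ 1 tendsto_neg_atBot_atTop).const_mul_atTop (by positivity)
  have h2 := ((Real.tendsto_pow_mul_exp_neg_atTop_nhds_zero k).comp h1).const_mul
    (C * ((2 * ε) ^ k)⁻¹ * Real.exp (2 * ε * (1 - b)))
  rw [mul_zero] at h2
  refine h2.congr' ?_
  filter_upwards [eventually_le_atBot 0] with x hx
  rw [Function.comp_apply, abs_of_nonpos hx, mul_pow (2 * ε), show 2 * (ε * (x - b)) =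
    2 * ε * (1 - b) + -(2 * ε * (1 - x)) by ring, Real.exp_add, ← sub_eq_add_neg]
  field_simp

theorem maxp {u : ℂ → ℝ} {ρ ρ' P C M : ℝ} {k : ℕ} (hP : 0 < P) (hρ : ρ' < ρ)
    (hu : ∀ w ∈ hp ρ, ∃ κ, 0 ≤ κ ∧ LJ u w κ) (hper : ∀ w ∈ hp ρ, u (w + P * I) = u w)
    (hg : ∀ w : ℂ, w.re ≤ ρ' → 0 ≤ w.im → w.im ≤ P → u w ≤ C * (1 + |w.re|) ^ k)
    (hM : ∀ w : ℂ, w.re = ρ' → 0 ≤ w.im → w.im ≤ P → u w ≤ M) :
    ∀ w : ℂ, w.re ≤ ρ' → u w ≤ M := by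
  intro w₁ hw₁
  by_contra hlt
  push Not at hlt
  have M0 : 0 < M := by
    obtain ⟨κ, -, h⟩ := hu ρ' (by simpa [hp] using hρ)
    exact h.1.trans_le (hM _ (by simp) (by simp) (by simpa using hP.le))
  obtain ⟨ε, hε1, hε⟩ : ∃ ε : ℝ, M < u w₁ * Real.exp (2 * (ε * (w₁.re - ρ'))) ∧ 0 < ε := by
    have hc : Continuous fun ε : ℝ ↦ u w₁ * Real.exp (2 * (ε * (w₁.re - ρ'))) := by fun_prop
    have h1 : ∀ᶠ ε : ℝ in 𝓝 0, M < u w₁ * Real.exp (2 * (ε * (w₁.re - ρ'))) :=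
      hc.continuousAt.eventually (lt_mem_nhds (by simpa using hlt))
    exact ((h1.filter_mono (nhdsWithin_le_nhds (s := Ioi 0))).and self_mem_nhdsWithin).exists
  let g : ℂ → ℝ := fun w ↦ u w * normSq (exp (ε * (w - ρ')))
  have hgv : ∀ w, g w = u w * Real.exp (2 * (ε * (w.re - ρ'))) := fun w ↦ by
    simp only [g, normSq_eq_norm_sq, norm_exp, ← Real.exp_nat_mul]
    simp
  have hgJ : ∀ w ∈ hp ρ, ∃ κ, 0 ≤ κ ∧ LJ g w κ := fun w hw ↦ by
    obtain ⟨κ, k0, k1⟩ := hu w hw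
    exact ⟨κ + 0, by simpa using k0, k1.mul (LJ.normSq (f := fun w ↦ exp (ε * (w - ρ')))
      (by fun_prop) (exp_ne_zero _))⟩
  have hred : ∀ w ∈ hp ρ, ∃ w' : ℂ, w'.re = w.re ∧ 0 ≤ w'.im ∧ w'.im ≤ P ∧ g w' = g w :=
    fun w hw ↦ by
      obtain ⟨w', h1, h2, h3, h4⟩ := per_red hP hper hw
      exact ⟨w', h1, h2, h3, by rw [hgv, hgv, h1, h4]⟩
  obtain ⟨a, ha⟩ := eventually_atBot.1 (((decay C ε ρ' k hε).eventually (gt_mem_nhds M0)).and
    (eventually_lt_atBot ρ'))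
  have hfar : ∀ w : ℂ, w.re ≤ a → g w < M := fun w hw ↦ by
    have h0 := ha _ hw
    obtain ⟨w', h1, h2, h3, h4⟩ := hred w (h0.2.trans hρ)
    rw [← h4, hgv, h1]
    refine lt_of_le_of_lt (mul_le_mul_of_nonneg_right ?_ (Real.exp_pos _).le) h0.1
    rw [← h1]
    exact hg w' (h1 ▸ h0.2.le) h2 h3
  have hK : IsCompact (Icc a ρ' ×ℂ Icc 0 P) := isCompact_Icc.reProdIm isCompact_Icc
  have hin : ∀ w : ℂ, a ≤ w.re → w.re ≤ ρ' → ∃ w' ∈ Icc a ρ' ×ℂ Icc 0 P, g w' = g w :=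
    fun w h1 h2 ↦ by
      obtain ⟨w', k1, k2, k3, k4⟩ := hred w (h2.trans_lt hρ)
      exact ⟨w', ⟨⟨k1 ▸ h1, k1 ▸ h2⟩, k2, k3⟩, k4⟩
  have g1 : M < g w₁ := by rw [hgv]; exact hε1
  obtain ⟨w₂, hw₂, e₂⟩ := hin w₁ (by
    by_contra h
    linarith [hfar w₁ (not_le.1 h).le]) hw₁
  obtain ⟨x, hx, hm⟩ := hK.exists_isMaxOn ⟨w₂, hw₂⟩ (f := g) fun w hw ↦
    (hgJ w (hw.1.2.trans_lt hρ)).choose_spec.2.continuousAt.continuousWithinAt
  have g2 : M < g x := g1.trans_le (e₂ ▸ hm hw₂)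
  have hx' : x ∈ hp ρ' := lt_of_le_of_ne hx.1.2 fun e ↦ by
    rw [hgv, e] at g2
    have := hM x e hx.2.1 hx.2.2
    simp at g2
    linarith
  have := smp (hp_open ρ') (hp_conn ρ') (fun w hw ↦ hgJ w (lt_trans hw hρ)) hx' (fun w hw ↦ by
    by_cases h : a ≤ w.re
    · obtain ⟨w', k1, k2⟩ := hin w h (le_of_lt hw)
      exact k2 ▸ hm k1
    · linarith [hfar w (not_le.1 h).le]) a (by simpa [hp] using (ha a le_rfl).2)
  linarith [hfar a (by simp)]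

theorem zero_of_uncountable {U : Set ℂ} (hc : IsPreconnected U) {G : ℂ → ℂ}
    (hG : AnalyticOnNhd ℂ G U) {s : Set ℂ} (hs : ¬ s.Countable) (hsU : s ⊆ U)
    (h0 : ∀ z ∈ s, G z = 0) : ∀ z ∈ U, G z = 0 := by
  have : ∃ x ∈ s, ∃ᶠ z in 𝓝[≠] x, z ∈ s := by
    by_contra hne
    push Not at hne
    obtain ⟨t, -, ht, hst⟩ := TopologicalSpace.countable_cover_nhdsWithin
      (f := fun x ↦ ({x} : Set ℂ)) (s := s) fun x hx ↦ by
        have := hne x hx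
        rw [eventually_nhdsWithin_iff] at this
        rw [mem_nhdsWithin_iff_eventually]
        filter_upwards [this] with z hz hzs
        by_contra hzx
        exact hz hzx hzs
    exact hs (ht.mono (by simpa using hst))
  obtain ⟨x, hx, hfr⟩ := this
  exact hG.eqOn_zero_of_preconnected_of_frequently_eq_zero hc (hsU hx)
    (hfr.mono fun z hz ↦ h0 z hz)

theorem mem_of_dual {β : Type} [Fintype β] (U : Submodule ℂ (β → ℂ)) {x : β → ℂ}
    (h : ∀ l : (β → ℂ) →ₗ[ℂ] ℂ, (∀ y ∈ U, l y = 0) → l x = 0) : x ∈ U :=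
  (Subspace.forall_mem_dualAnnihilator_apply_eq_zero_iff U x).1 fun l hl ↦
    h l ((Submodule.mem_dualAnnihilator l).1 hl)

theorem an_lin {β : Type} [Fintype β] (l : (β → ℂ) →ₗ[ℂ] ℂ) {F : ℂ → β → ℂ} {w : ℂ}
    (hF : AnalyticAt ℂ F w) : AnalyticAt ℂ (fun z ↦ l (F z)) w :=
  ((LinearMap.toContinuousLinearMap l).analyticAt _).comp hF

theorem mem_of_uncountable {β : Type} [Fintype β] (U : Submodule ℂ (β → ℂ)) {Ω : Set ℂ}
    (hc : IsPreconnected Ω) {F : ℂ → β → ℂ} (hF : AnalyticOnNhd ℂ F Ω) {s : Set ℂ}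
    (hs : ¬ s.Countable) (hsU : s ⊆ Ω) (h0 : ∀ z ∈ s, F z ∈ U) : ∀ z ∈ Ω, F z ∈ U :=
  fun z hz ↦ mem_of_dual U fun l hl ↦ zero_of_uncountable hc (G := fun z ↦ l (F z))
    (fun w hw ↦ an_lin l (hF w hw)) hs hsU (fun w hw ↦ hl _ (h0 w hw)) z hz

/-- a family of analytic functions closed under the derivative, all vanishing at one point -/
theorem zero_of_closed {Ω : Set ℂ} (hc : IsPreconnected Ω) {w₀ : ℂ} (h0 : w₀ ∈ Ω)
    (S : Set (ℂ → ℂ)) (hS : ∀ f ∈ S, AnalyticOnNhd ℂ f Ω ∧ f w₀ = 0 ∧ deriv f ∈ S) :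
    ∀ f ∈ S, ∀ w ∈ Ω, f w = 0 := by
  intro f hf
  have h1 : ∀ n, iteratedDeriv n f ∈ S := fun n ↦ by
    induction n with
    | zero => simpa using hf
    | succ n ih => rw [iteratedDeriv_succ]; exact (hS _ ih).2.2
  have h2 := ((hS f hf).1 w₀ h0).hasFPowerSeriesAt
  refine (hS f hf).1.eqOn_zero_of_preconnected_of_eventuallyEq_zero hc h0
    (h2.locally_zero_iff.2 ?_)
  have : (fun n ↦ iteratedDeriv n f w₀ / (n.factorial : ℂ)) = 0 := by
    funext n; simp [(hS _ (h1 n)).2.1]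
  rw [this]
  exact FormalMultilinearSeries.ofScalars_series_eq_zero_of_scalar_zero ℂ ℂ

/-- polarisation -/
theorem polar {κ : Type} [Fintype κ] {Ω : Set ℂ} (ho : IsOpen Ω) (hc : IsPreconnected Ω)
    {h y : κ → ℂ → ℂ} (hh : ∀ a, AnalyticOnNhd ℂ (h a) Ω) (hy : ∀ a, AnalyticOnNhd ℂ (y a) Ω)
    (h0 : ∀ w ∈ Ω, ∑ a, h a w * conj (y a w) = 0) :
    ∀ w ∈ Ω, ∀ w' ∈ Ω, ∑ a, h a w * conj (y a w') = 0 := by
  intro w hw w' hw'
  refine zero_of_closed hc hw' {f | ∃ h : κ → ℂ → ℂ, (∀ a, AnalyticOnNhd ℂ (h a) Ω) ∧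
    (∀ w ∈ Ω, ∑ a, h a w * conj (y a w) = 0) ∧ AnalyticOnNhd ℂ f Ω ∧
    ∀ w ∈ Ω, f w = ∑ a, h a w * conj (y a w')} ?_ (fun w ↦ ∑ a, h a w * conj (y a w'))
    ⟨h, hh, h0, fun z hz ↦ ?_, fun _ _ ↦ rfl⟩ w hw
  · rintro f ⟨h, h1, h2, h3, h4⟩
    refine ⟨h3, by rw [h4 w' hw', h2 w' hw'], fun a ↦ deriv (h a), fun a ↦ (h1 a).deriv,
      fun z hz ↦ ?_, h3.deriv, fun z hz ↦ ?_⟩
    · have := Jet.sum Finset.univ fun a _ ↦ (Jet.holo (h1 a z hz)).mul (Jet.holo (hy a z hz)).conj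
      simp only [mk_mul, mk_sum] at this
      simpa using this.zero (by filter_upwards [ho.mem_nhds hz] with v hv using h2 v hv)
    · have e : f =ᶠ[𝓝 z] fun w ↦ ∑ a, h a w * conj (y a w') := by
        filter_upwards [ho.mem_nhds hz] with v hv using h4 v hv
      rw [e.deriv_eq]
      exact (HasDerivAt.fun_sum fun a _ ↦
        (h1 a z hz).differentiableAt.hasDerivAt.mul_const _).deriv
  · exact Finset.analyticAt_fun_sum _ fun a _ ↦ (hh a z hz).mul analyticAt_const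

/-- vanishing Wronskian -/
theorem wronsk {Ω : Set ℂ} (hc : IsPreconnected Ω) {p q : ℂ → ℂ} (hp : AnalyticOnNhd ℂ p Ω)
    (hq : AnalyticOnNhd ℂ q Ω) (h : ∀ w ∈ Ω, q w * deriv p w - deriv q w * p w = 0)
    (ho : IsOpen Ω) {w₀ : ℂ} (h0 : w₀ ∈ Ω) (hq0 : q w₀ ≠ 0) :
    ∀ w ∈ Ω, p w * q w₀ = q w * p w₀ := by
  obtain ⟨r, r0, hr⟩ := Metric.eventually_nhds_iff_ball.1
    (((hq w₀ h0).continuousAt.eventually_ne hq0).and (ho.mem_nhds h0))
  have hd : ∀ w ∈ ball w₀ r, HasDerivAt (fun z ↦ p z / q z) 0 w := fun w hw ↦ by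
    have := (hp w (hr w hw).2).differentiableAt.hasDerivAt.div
      (hq w (hr w hw).2).differentiableAt.hasDerivAt (hr w hw).1
    rwa [show deriv p w * q w - p w * deriv q w = 0 by linear_combination h w (hr w hw).2,
      zero_div] at this
  refine (hp.mul analyticOnNhd_const).eqOn_of_preconnected_of_eventuallyEq
    (hq.mul analyticOnNhd_const) hc h0 ?_
  filter_upwards [ball_mem_nhds w₀ r0] with w hw
  have := isOpen_ball.is_const_of_deriv_eq_zero (convex_ball w₀ r).isPreconnected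
    (fun z hz ↦ (hd z hz).differentiableAt.differentiableWithinAt)
    (fun z hz ↦ (hd z hz).deriv) hw (mem_ball_self r0)
  rw [div_eq_div_iff (hr w hw).1 hq0] at this
  simpa [mul_comm] using this

end Pool.Agent.Lib.ECM.G4
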