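import Pool.Agent.Lib.ECM.G4C

/-! The quadratic space of signature `(2, 3)` and its Hodge metric. -/

open Complex Matrix
open scoped ComplexConjugate

noncomputable section

namespace Pool.Agent.Lib.ECM.G4

abbrev V5 := Fin 5 → ℂ

abbrev M5 := Matrix (Fin 5) (Fin 5) ℂ

abbrev Z5 := Matrix (Fin 5) (Fin 5) ℤ

/-- an integral matrix as a complex matrix -/
def cz {β : Type} (g : Matrix β β ℤ) : Matrix β β ℂ := g.map (Int.castRingHom ℂ)

/-- the Gram matrix -/
def Bz : Z5 := !![0, 0, 0, 0, -1; 0, 0, 0, 1, 0; 0, 0, -2, 0, 0; 0, 1, 0, 0, 0; -1, 0, 0, 0, 0]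

/-- lowering of indices -/
def lw (x : V5) : V5 := cz Bz *ᵥ x

/-- the bilinear form -/
def Bf (x y : V5) : ℂ := x ⬝ᵥ lw y

theorem lw_eq (x : V5) : lw x = ![-x 4, x 3, -2 * x 2, x 1, -x 0] := by
  funext i
  fin_cases i <;> simp [lw, cz, Bz, mulVec, dotProduct, Fin.sum_univ_five]

theorem Bf_eq (x y : V5) :
    Bf x y = -(x 0 * y 4 + x 4 * y 0) + (x 1 * y 3 + x 3 * y 1 - 2 * x 2 * y 2) := by
  simp [Bf, lw_eq, dotProduct, Fin.sum_univ_five]
  ring

theorem Bf_comm (x y : V5) : Bf x y = Bf y x := by rw [Bf_eq, Bf_eq]; ring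

theorem Bf_star (x y : V5) : Bf (star x) (star y) = conj (Bf x y) := by simp [Bf_eq, map_ofNat]

theorem Bf_star' (x y : V5) : Bf (star x) y = conj (Bf x (star y)) := by
  rw [← Bf_star, star_star]

theorem Bf_add (x y z : V5) : Bf (x + y) z = Bf x z + Bf y z := add_dotProduct _ _ _

theorem Bf_sub (x y z : V5) : Bf (x - y) z = Bf x z - Bf y z := sub_dotProduct _ _ _

theorem Bf_smul (c : ℂ) (x y : V5) : Bf (c • x) y = c * Bf x y := smul_dotProduct _ _ _

theorem Bf_add' (x y z : V5) : Bf z (x + y) = Bf z x + Bf z y := by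
  rw [Bf_comm, Bf_add, Bf_comm x, Bf_comm y]

theorem Bf_sub' (x y z : V5) : Bf z (x - y) = Bf z x - Bf z y := by
  rw [Bf_comm, Bf_sub, Bf_comm x, Bf_comm y]

theorem Bf_smul' (c : ℂ) (x y : V5) : Bf y (c • x) = c * Bf y x := by
  rw [Bf_comm, Bf_smul, Bf_comm]

theorem Bf_nondeg {x : V5} (h : ∀ y, Bf x y = 0) : x = 0 := by
  have h0 := h (Pi.single 4 1)
  have h1 := h (Pi.single 3 1)
  have h2 := h (Pi.single 2 1)
  have h3 := h (Pi.single 1 1)
  have h4 := h (Pi.single 0 1)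
  simp [Bf_eq] at h0 h1 h2 h3 h4
  funext i
  fin_cases i <;> simp [h0, h1, h2, h3, h4]

theorem lw_star (x : V5) : lw (star x) = star (lw x) := by
  funext i
  fin_cases i <;> simp [lw_eq, map_ofNat]

/-- the operator `x ↦ B (x, a) b` -/
def op (a b : V5) : M5 := vecMulVec b (lw a)

theorem op_mulVec (a b x : V5) : op a b *ᵥ x = Bf x a • b := by
  rw [op, vecMulVec_mulVec, dotProduct_comm, Bf, op_smul_eq_smul]

theorem mat_ext {X Y : M5} (h : ∀ x, X *ᵥ x = Y *ᵥ x) : X = Y :=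
  Matrix.toLin'.injective (LinearMap.ext h)

theorem op_mul (a b c d : V5) : op a b * op c d = Bf d a • op c b :=
  mat_ext fun x ↦ by
    rw [← mulVec_mulVec, op_mulVec c d, mulVec_smul, op_mulVec, smul_mulVec, op_mulVec, smul_comm]

theorem Bz_op (a b : V5) (i j : Fin 5) : (cz Bz * op a b) i j = lw b i * lw a j := by
  rw [op, mul_vecMulVec, vecMulVec_apply]; rfl

theorem Bz_op_cT (a b : V5) : (cz Bz * op a b)ᴴ = cz Bz * op (star b) (star a) := by
  ext i j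
  simp [Bz_op, lw_star, mul_comm]

theorem Bz_cT : (cz Bz)ᴴ = cz Bz := by
  ext i j
  fin_cases i <;> fin_cases j <;> simp [cz, Bz]

/-- the operator `u ↦ B (u, y) x - B (u, x) y` -/
def wedge (y x : V5) : M5 := op y x - op x y

/-- `B (ω, ω̄)` -/
def Nn (ω : V5) : ℝ := (Bf ω (star ω)).re

theorem Nn_eq (ω : V5) : Bf ω (star ω) = Nn ω := by
  rw [Nn, eq_comm, ← conj_eq_iff_re, ← Bf_star, star_star, Bf_comm]

/-- the cone over the period domain -/
structure Dom (ω : V5) : Prop where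
  iso : Bf ω ω = 0
  pos : 0 < Nn ω
  neg : ∀ x, Bf x ω = 0 → Bf x (star ω) = 0 → x ≠ 0 → Nn x < 0

/-- the Weil operator -/
def Cm (ω : V5) : M5 := (2 / Nn ω : ℂ) • (op (star ω) ω + op ω (star ω)) - 1

/-- the Hodge metric -/
def Hm (ω : V5) : M5 := cz Bz * Cm ω

/-- the component of `ω'` of type `(1, 1)` -/
def mm (ω ω' : V5) : V5 := ω' - (Bf ω' (star ω) / Nn ω) • ω

/-- the Higgs field -/
def Aa (ω ω' : V5) : M5 := (-2 / Nn ω : ℂ) • wedge (star ω) (mm ω ω')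

/-- the adjoint of the Higgs field -/
def Ab (ω ω' : V5) : M5 := (-2 / Nn ω : ℂ) • wedge ω (star (mm ω ω'))

theorem Hm_cT (ω : V5) : (Hm ω)ᴴ = Hm ω := by
  simp only [Hm, Cm, mul_sub, mul_one, mul_smul_comm, mul_add, conjTranspose_sub,
    conjTranspose_smul, conjTranspose_add, Bz_op_cT, Bz_cT, star_star]
  simp

theorem Hm_form (ω x : V5) : star x ⬝ᵥ Hm ω *ᵥ x =
    (2 / Nn ω * (normSq (Bf x (star ω)) + normSq (Bf x ω)) - Nn x : ℝ) := by
  rw [Hm, ← mulVec_mulVec]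
  change Bf (star x) (Cm ω *ᵥ x) = _
  simp only [Cm, sub_mulVec, add_mulVec, smul_mulVec, op_mulVec, one_mulVec, Bf_sub', Bf_add',
    Bf_smul', Bf_star' x ω, Bf_star, mul_conj]
  rw [Bf_comm (star x) x, Nn_eq]
  push_cast
  ring

theorem Dom.N0 {ω : V5} (h : Dom ω) : (Nn ω : ℂ) ≠ 0 := by exact_mod_cast h.pos.ne'

theorem Dom.iso' {ω : V5} (h : Dom ω) : Bf (star ω) (star ω) = 0 := by
  rw [Bf_star, h.iso, map_zero]

theorem Dom.form_pos {ω : V5} (h : Dom ω) {x : V5} (hx : x ≠ 0) :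
    0 < 2 / Nn ω * (normSq (Bf x (star ω)) + normSq (Bf x ω)) - Nn x := by
  have N0 := h.N0
  have hp := h.pos
  set m := x - (Bf x (star ω) / Nn ω) • ω - (Bf x ω / Nn ω) • star ω with hm
  have m1 : Bf m ω = 0 := by
    simp only [hm, Bf_sub, Bf_smul, h.iso, Bf_comm (star ω) ω, Nn_eq]; field_simp; ring
  have m2 : Bf m (star ω) = 0 := by
    simp only [hm, Bf_sub, Bf_smul, h.iso', Nn_eq]; field_simp; ring
  have m3 : Nn m = Nn x - (normSq (Bf x (star ω)) + normSq (Bf x ω)) / Nn ω := by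
    apply ofReal_injective
    rw [← Nn_eq m]
    conv_lhs => rw [hm, star_sub, star_sub, star_smul, star_smul, star_star, ← hm, Bf_sub',
      Bf_sub', Bf_smul', Bf_smul', m1, m2, hm]
    simp only [Bf_sub, Bf_smul, Nn_eq, Bf_comm ω (star x), Bf_comm (star ω) (star x),
      Bf_star' x ω, Bf_star, ofReal_sub, ofReal_div, ofReal_add, ← mul_conj]
    field_simp
    ring
  have k1 := normSq_nonneg (Bf x (star ω))
  have k2 := normSq_nonneg (Bf x ω)
  have e : 2 / Nn ω * (normSq (Bf x (star ω)) + normSq (Bf x ω)) - Nn x =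
      (normSq (Bf x (star ω)) + normSq (Bf x ω)) / Nn ω - Nn m := by rw [m3]; ring
  rw [e]
  by_cases m0 : m = 0
  · have : Nn m = 0 := by simp [m0, Nn, Bf]
    rw [this, sub_zero]
    refine div_pos (lt_of_le_of_ne (by positivity) fun k ↦ hx ?_) hp
    have a1 : Bf x (star ω) = 0 := normSq_eq_zero.1 (by linarith)
    have a2 : Bf x ω = 0 := normSq_eq_zero.1 (by linarith)
    simpa [hm, a1, a2] using m0
  · have := h.neg m m1 m2 m0
    have : 0 ≤ (normSq (Bf x (star ω)) + normSq (Bf x ω)) / Nn ω := by positivity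
    linarith

open scoped ComplexOrder MatrixOrder Matrix.Norms.L2Operator in
theorem Dom.sqrt {ω : V5} (h : Dom ω) : ∃ g g' : M5, g' * g = 1 ∧ Hm ω = gᴴ * g := by
  have hP : (Hm ω).PosDef := PosDef.of_dotProduct_mulVec_pos (Hm_cT ω) fun x hx ↦ by
    rw [Hm_form]
    exact_mod_cast h.form_pos hx
  obtain ⟨y, hy, e⟩ := CStarAlgebra.isStrictlyPositive_iff_eq_star_mul_self.mp
    hP.isStrictlyPositive
  obtain ⟨u, rfl⟩ := hy
  exact ⟨u, (u⁻¹ : M5ˣ), u.inv_mul, e⟩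

section ids
variable {ω m : V5} (h : Dom ω) (m1 : Bf m ω = 0) (m2 : Bf m (star ω) = 0)
include h m1 m2

theorem id_A : Cm ω * ((-2 / Nn ω : ℂ) • wedge (star ω) m) =
    (2 / Nn ω : ℂ) • (op m (star ω) + op (star ω) m) := by
  have N0 := h.N0
  simp only [Cm, wedge, mul_sub, sub_mul, add_mul, smul_mul_assoc, mul_smul_comm, op_mul, one_mul,
    m1, m2, h.iso', Bf_comm (star ω) ω, Nn_eq, zero_smul]
  match_scalars <;> field_simp <;> ring

theorem id_B : Cm ω * ((-2 / Nn ω : ℂ) • wedge ω (star m)) =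
    (2 / Nn ω : ℂ) • (op (star m) ω + op ω (star m)) := by
  have N0 := h.N0
  simp only [Cm, wedge, mul_sub, sub_mul, add_mul, smul_mul_assoc, mul_smul_comm, op_mul, one_mul,
    Bf_star, Bf_star' m ω, m1, m2, h.iso, Nn_eq, zero_smul, map_zero]
  match_scalars <;> field_simp <;> ring

theorem id_C : Cm ω * ((-2 / Nn ω : ℂ) • wedge (star ω) m * (-2 / Nn ω : ℂ) • wedge ω (star m) +
      (-2 / Nn ω : ℂ) • wedge ω (star m) * (-2 / Nn ω : ℂ) • wedge (star ω) m) =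
    (4 / Nn ω : ℂ) • (op (star m) m + op m (star m)) -
      (4 * Nn m / Nn ω ^ 2 : ℂ) • (op ω (star ω) + op (star ω) ω) := by
  have N0 := h.N0
  rw [mul_add, ← mul_assoc, ← mul_assoc, id_A h m1 m2, id_B h m1 m2]
  simp only [wedge, mul_sub, add_mul, smul_mul_assoc, mul_smul_comm, op_mul,
    Bf_star, Bf_star' m ω, Bf_comm ω m, Bf_comm (star ω) m, Bf_comm (star m) m,
    Bf_comm ω (star m), Bf_comm (star ω) (star m), Bf_comm (star ω) ω, m1, m2, Nn_eq, zero_smul,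
    map_zero]
  match_scalars <;> field_simp <;> ring

end ids

theorem mm_1 {ω ω' : V5} (h : Dom ω) (h' : Bf ω' ω = 0) : Bf (mm ω ω') ω = 0 := by
  simp [mm, Bf_sub, Bf_smul, h.iso, h']

theorem mm_2 {ω : V5} (h : Dom ω) (ω' : V5) : Bf (mm ω ω') (star ω) = 0 := by
  have := h.N0
  simp only [mm, Bf_sub, Bf_smul, Nn_eq]
  field_simp
  ring

theorem an_comp {f : ℂ → V5} {w : ℂ} (hf : AnalyticAt ℂ f w) (i : Fin 5) :
    AnalyticAt ℂ (fun z ↦ f z i) w := analyticAt_pi_iff.1 hf i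

theorem der_comp {f : ℂ → V5} {w : ℂ} (hf : AnalyticAt ℂ f w) (i : Fin 5) :
    deriv (fun z ↦ f z i) w = deriv f w i :=
  (hasDerivAt_pi.1 hf.differentiableAt.hasDerivAt i).deriv

theorem hasDeriv_lw {f : ℂ → V5} {w : ℂ} {f' : V5} (hf : HasDerivAt f f' w) :
    HasDerivAt (fun z ↦ lw (f z)) (lw f') w :=
  (LinearMap.toContinuousLinearMap (Matrix.toLin' (cz Bz))).hasFDerivAt.comp_hasDerivAt w hf

theorem an_lw {f : ℂ → V5} {w : ℂ} (hf : AnalyticAt ℂ f w) : AnalyticAt ℂ (fun z ↦ lw (f z)) w :=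
  ((LinearMap.toContinuousLinearMap (Matrix.toLin' (cz Bz))).analyticAt _).comp hf

theorem hasDeriv_Bf {f g : ℂ → V5} {w : ℂ} {f' g' : V5} (hf : HasDerivAt f f' w)
    (hg : HasDerivAt g g' w) :
    HasDerivAt (fun z ↦ Bf (f z) (g z)) (Bf f' (g w) + Bf (f w) g') w := by
  have := HasDerivAt.fun_sum (u := Finset.univ) fun i _ ↦
    (hasDerivAt_pi.1 hf i).mul (hasDerivAt_pi.1 (hasDeriv_lw hg) i)
  rw [Finset.sum_add_distrib] at this
  exact this

theorem iso_deriv {f : ℂ → V5} {w : ℂ} (hf : AnalyticAt ℂ f w) (hD : ∀ᶠ z in nhds w, Dom (f z)) :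
    Bf (deriv f w) (f w) = 0 := by
  have h1 := hasDeriv_Bf hf.differentiableAt.hasDerivAt hf.differentiableAt.hasDerivAt
  have h2 : HasDerivAt (fun z ↦ Bf (f z) (f z)) 0 w :=
    (hasDerivAt_const w (0 : ℂ)).congr_of_eventuallyEq (hD.mono fun z hz ↦ hz.iso)
  have := h1.unique h2
  rw [Bf_comm (f w)] at this
  linear_combination this / 2

theorem hf_base {f : ℂ → V5} {w : ℂ} (hf : AnalyticAt ℂ f w) (hD : ∀ᶠ z in nhds w, Dom (f z)) :
    HF (fun z ↦ Hm (f z)) w (Aa (f w) (deriv f w)) (Ab (f w) (deriv f w)) := by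
  have h := hD.self_of_nhds
  have N0 := h.N0
  have m1 := mm_1 h (iso_deriv hf hD)
  have m2 := mm_2 h (deriv f w)
  refine ⟨h.sqrt, ?_, fun i j ↦ ?_⟩
  · simp only [Hm, Aa, Ab, mul_assoc, id_A h m1 m2, id_B h m1 m2]
    simp only [mul_smul_comm, mul_add,
      conjTranspose_smul, conjTranspose_add, Bz_op_cT, star_star]
    simp [add_comm]
  · have jp : ∀ a, Jet (fun z ↦ lw (f z) a) w (mk (lw (f w) a) (lw (deriv f w) a) 0 0) := fun a ↦ by
      have := Jet.holo (an_comp (an_lw hf) a)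
      rwa [der_comp (an_lw hf), (hasDeriv_lw hf.differentiableAt.hasDerivAt).deriv] at this
    have jf : ∀ a, Jet (fun z ↦ f z a) w (mk (f w a) (deriv f w a) 0 0) := fun a ↦ by
      have := Jet.holo (an_comp hf a)
      rwa [der_comp hf] at this
    have jN := Jet.sum Finset.univ fun a _ ↦ (jf a).mul (jp a).conj
    simp only [mk_mul, mk_sum, map_zero, mul_zero, zero_mul, add_zero, zero_add] at jN
    have t : ∀ x y : V5, ∑ a, x a * conj (lw y a) = Bf x (star y) := fun x y ↦ by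
      rw [Bf, lw_star]; rfl
    simp only [t, Nn_eq] at jN
    have jH := (((Jet.const 2 w).mul (jN.inv N0)).mul (((jp i).mul (jp j).conj).add
      ((jp i).conj.mul (jp j)))).add (Jet.const (-cz Bz i j) w)
    simp only [mk_mul, mk_add, map_zero, mul_zero, zero_mul, add_zero, zero_add] at jH
    have hm : Nn (mm (f w) (deriv f w)) = Nn (deriv f w) -
        Bf (deriv f w) (star (f w)) * Bf (f w) (star (deriv f w)) / Nn (f w) := by
      rw [← Nn_eq]
      conv_lhs => rw [mm, star_sub, star_smul, ← mm, Bf_sub', Bf_smul', m2, mm]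
      simp only [Bf_sub, Bf_smul, Nn_eq]
      ring
    have hl : ∀ a, lw (mm (f w) (deriv f w)) a =
        lw (deriv f w) a - Bf (deriv f w) (star (f w)) / Nn (f w) * lw (f w) a := fun a ↦ by
      simp [lw, mm, mulVec_sub, mulVec_smul]
    have hc : conj (Bf (deriv f w) (star (f w))) = Bf (f w) (star (deriv f w)) := by
      rw [← Bf_star, star_star, Bf_comm]
    have hH : ∀ ω, Hm ω i j = 2 * (Nn ω : ℂ)⁻¹ * (lw ω i * conj (lw ω j) + conj (lw ω i) * lw ω j) +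
        -cz Bz i j := fun ω ↦ by
      simp only [Hm, Cm, mul_sub, mul_one, mul_smul_comm, mul_add, Matrix.sub_apply,
        Matrix.smul_apply, Matrix.add_apply, Bz_op, lw_star, smul_eq_mul, Pi.star_apply, star_def]
      ring
    rw [JH_apply]
    simp only [hH]
    convert jH using 2
    all_goals
      simp only [Hm, Aa, Ab, mul_assoc, id_A h m1 m2, id_B h m1 m2, id_C h m1 m2]
      simp only [mul_smul_comm, mul_add, mul_sub, Matrix.sub_apply, Matrix.smul_apply,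
        Matrix.add_apply, Bz_op, lw_star, smul_eq_mul, Pi.star_apply, star_def, hl, hm, map_sub,
        map_mul, map_div₀, hc, conj_ofReal]
      field_simp
      ring

/-- the integral orthogonal group -/
def Ort (g : Z5) : Prop := gᵀ * Bz * g = Bz

theorem cz_mul {β : Type} [Fintype β] (g g' : Matrix β β ℤ) : cz (g * g') = cz g * cz g' :=
  Matrix.map_mul

theorem cz_one {β : Type} [DecidableEq β] : cz (1 : Matrix β β ℤ) = 1 :=
  Matrix.map_one _ (map_zero _) (map_one _)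

theorem cz_cT {β : Type} (g : Matrix β β ℤ) : (cz g)ᴴ = cz gᵀ := by
  ext i j; simp [cz]

theorem cz_map {β : Type} [Fintype β] (σ : ℂ →+* ℂ) (g : Matrix β β ℤ) (x : β → ℂ) :
    σ ∘ (cz g *ᵥ x) = cz g *ᵥ (σ ∘ x) := by
  funext i; simp [cz, mulVec, dotProduct]

theorem cz_star {β : Type} [Fintype β] (g : Matrix β β ℤ) (x : β → ℂ) :
    star (cz g *ᵥ x) = cz g *ᵥ star x := cz_map (starRingEnd ℂ) g x

theorem Ort.Bf {g : Z5} (h : Ort g) (x y : V5) : Bf (cz g *ᵥ x) (cz g *ᵥ y) = Bf x y := by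
  have e : cz Bz = (cz g)ᵀ * cz Bz * cz g := by
    rw [show (cz g)ᵀ = cz gᵀ from rfl, ← cz_mul, ← cz_mul, h]
  rw [G4.Bf, G4.Bf, lw, lw]
  conv_rhs => rw [e, ← mulVec_mulVec, ← mulVec_mulVec, dotProduct_mulVec x, vecMul_transpose]

theorem Ort.one : Ort 1 := by simp [Ort]

theorem Ort.mul {g g' : Z5} (h : Ort g) (h' : Ort g') : Ort (g * g') := by
  rw [Ort, transpose_mul, show g'ᵀ * gᵀ * Bz * (g * g') = g'ᵀ * (gᵀ * Bz * g) * g' by
    simp only [mul_assoc], h, h']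

theorem Ort.inv {g : Z5} (h : Ort g) : ∃ g', Ort g' ∧ g' * g = 1 ∧ g * g' = 1 := by
  have h1 := congrArg det h
  have h2 : Bz.det ≠ 0 := fun k ↦ by
    have e : Bz * Bz = diagonal ![1, 1, 4, 1, 1] := by
      ext i j; fin_cases i <;> fin_cases j <;> simp [Bz, mul_apply, Fin.sum_univ_five]
    have := congrArg det e
    simp [k, Fin.prod_univ_five] at this
  rw [det_mul, det_mul, det_transpose] at h1
  have h3 : g.det * g.det = 1 := mul_left_cancel₀ h2 (by linear_combination h1)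
  have h4 : IsUnit g.det := IsUnit.of_mul_eq_one _ h3
  refine ⟨g⁻¹, ?_, nonsing_inv_mul g h4, mul_nonsing_inv g h4⟩
  rw [Ort, ← h, show g⁻¹ᵀ * (gᵀ * Bz * g) * g⁻¹ = (g * g⁻¹)ᵀ * Bz * (g * g⁻¹) by
    simp only [transpose_mul, mul_assoc], mul_nonsing_inv g h4, h]
  simp

theorem Ort.Nn {g : Z5} (h : Ort g) (x : V5) : Nn (cz g *ᵥ x) = Nn x := by
  rw [G4.Nn, cz_star, h.Bf, G4.Nn]

theorem Dom.act {g : Z5} (h : Ort g) {ω : V5} (hω : Dom ω) : Dom (cz g *ᵥ ω) where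
  iso := by rw [h.Bf, hω.iso]
  pos := by rw [h.Nn]; exact hω.pos
  neg x h1 h2 hx := by
    obtain ⟨g', k1, -, k3⟩ := h.inv
    have e : x = cz g *ᵥ (cz g' *ᵥ x) := by rw [mulVec_mulVec, ← cz_mul, k3, cz_one, one_mulVec]
    rw [e] at h1 h2 ⊢
    rw [cz_star, h.Bf] at h2
    rw [h.Bf] at h1
    rw [h.Nn]
    exact hω.neg _ h1 h2 fun k ↦ hx (by rw [e, k, mulVec_zero])

theorem Ort.Hm {g : Z5} (h : Ort g) (ω : V5) : (cz g)ᴴ * Hm (cz g *ᵥ ω) * cz g = Hm ω := by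
  have : Cm (cz g *ᵥ ω) * cz g = cz g * Cm ω := mat_ext fun x ↦ by
    simp only [← mulVec_mulVec, Cm, h.Nn, sub_mulVec, add_mulVec, smul_mulVec, op_mulVec,
      one_mulVec, cz_star, h.Bf, mulVec_sub, mulVec_add, mulVec_smul]
  rw [G4.Hm, G4.Hm, mul_assoc, mul_assoc, this, cz_cT, ← mul_assoc, ← mul_assoc, ← cz_mul,
    ← cz_mul, h]

theorem Hm_smul {c : ℂ} (hc : c ≠ 0) (ω : V5) : Hm (c • ω) = Hm ω := by
  have h1 : (Nn (c • ω) : ℂ) = c * conj c * Nn ω := by
    rw [← Nn_eq, star_smul, Bf_smul, Bf_smul', Nn_eq, star_def, mul_assoc]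
  have hc' : conj c ≠ 0 := by simpa using hc
  rw [Hm, Hm]
  congr 1
  refine mat_ext fun x ↦ ?_
  simp only [Cm, h1, sub_mulVec, add_mulVec, smul_mulVec, op_mulVec, star_smul, Bf_smul',
    star_def]
  match_scalars <;> field_simp

theorem Hm_bound {ω : V5} {c : ℝ} (c0 : 0 < c) (hc : c ≤ Nn ω) (i j : Fin 5) :
    ‖Hm ω i j‖ ≤ 16 / c * ‖ω‖ ^ 2 + 2 := by
  have hl : ∀ a, ‖lw ω a‖ ≤ 2 * ‖ω‖ := fun a ↦ by
    have k := fun a ↦ norm_le_pi_norm ω a
    have := norm_nonneg ω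
    fin_cases a <;> simp [lw_eq] <;> linarith [k 0, k 1, k 2, k 3, k 4]
  have hB : ‖cz Bz i j‖ ≤ 2 := by fin_cases i <;> fin_cases j <;> simp [cz, Bz]
  have e : Hm ω i j = (2 / Nn ω : ℂ) * (lw ω i * conj (lw ω j) + conj (lw ω i) * lw ω j) -
      cz Bz i j := by
    simp only [Hm, Cm, mul_sub, mul_one, mul_smul_comm, mul_add, Matrix.sub_apply,
      Matrix.smul_apply, Matrix.add_apply, Bz_op, lw_star, smul_eq_mul, Pi.star_apply, star_def]
  have h1 : ‖(2 / Nn ω : ℂ)‖ ≤ 2 / c := by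
    rw [norm_div, norm_real, Real.norm_eq_abs, abs_of_pos (c0.trans_le hc), Complex.norm_two]
    gcongr
  have h2 : ‖lw ω i * conj (lw ω j) + conj (lw ω i) * lw ω j‖ ≤ 8 * ‖ω‖ ^ 2 := by
    refine (norm_add_le _ _).trans ?_
    rw [norm_mul, norm_mul, norm_conj, norm_conj]
    have := mul_le_mul (hl i) (hl j) (norm_nonneg _) (by positivity)
    nlinarith
  rw [e]
  refine (norm_sub_le _ _).trans (add_le_add ?_ hB)
  rw [norm_mul]
  refine (mul_le_mul h1 h2 (norm_nonneg _) (by positivity)).trans_eq (by ring)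

end Pool.Agent.Lib.ECM.G4
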