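import Pool.Agent.Lib.ECM.Blue
import Pool.Agent.Lib.ECM.G4B
import Pool.Agent.Lib.ECM.G4D

/-! Blueprint of the block G4: Hodge generic curves have Zariski dense lifts. -/

open Complex Matrix Set
open scoped Real

noncomputable section

namespace Pool.Agent.Lib.ECM.G4

/-- the period vector -/
def om (τ : T3) : V5 := ![1, τ 0, τ 1, τ 2, τ 0 * τ 2 - τ 1 ^ 2]

/-- equivalence under the integral orthogonal group and scalars -/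
def Eqv (x y : V5) : Prop := ∃ (g : Z5) (c : ℂ), Ort g ∧ c ≠ 0 ∧ x = c • cz g *ᵥ y

/-- the pure tensor `x ⊗ ⋯ ⊗ x` -/
def pw (e : ℕ) (x : V5) : (Fin e → Fin 5) → ℂ := pure fun _ ↦ x

/-- a nonconstant holomorphic curve in the period domain -/
structure Arc (ρ : ℝ) (f : ℂ → V5) : Prop where
  an : AnalyticOnNhd ℂ f (hp ρ)
  dom : ∀ w ∈ hp ρ, Dom (f w)
  nc : ∀ x : V5, {w ∈ hp ρ | ∃ c : ℂ, f w = c • x}.Countable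

/-- the span of the tensor powers of the points of an arc -/
def Sp (e : ℕ) (ρ : ℝ) (f : ℂ → V5) : Submodule ℂ ((Fin e → Fin 5) → ℂ) :=
  Submodule.span ℂ ((fun w ↦ pw e (f w)) '' hp ρ)

/-- two arcs satisfy the same homogeneous equations -/
def Same (ρ : ℝ) (f : ℂ → V5) (ρ' : ℝ) (f' : ℂ → V5) : Prop := ∀ e, Sp e ρ f = Sp e ρ' f'

/-- the linear equations of an arc -/
def Perp (ρ : ℝ) (f : ℂ → V5) : Submodule ℂ V5 where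
  carrier := {x | ∀ w ∈ hp ρ, Bf x (f w) = 0}
  add_mem' hx hy w hw := by rw [Bf_add, hx w hw, hy w hw, add_zero]
  zero_mem' w _ := by simp [Bf]
  smul_mem' c x hx w hw := by rw [Bf_smul, hx w hw, mul_zero]

/-- the real linear equations of an arc -/
def RPerp (ρ : ℝ) (f : ℂ → V5) : Submodule ℂ V5 := Perp ρ f ⊓ Perp ρ fun w ↦ star (f w)

/-- `U` is stable under the Higgs field and its adjoint along the arc -/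
def Stab (ρ : ℝ) (f : ℂ → V5) (U : Submodule ℂ V5) : Prop := ∀ w ∈ hp ρ, ∀ u ∈ U,
  Aa (f w) (deriv f w) *ᵥ u ∈ U ∧ Ab (f w) (deriv f w) *ᵥ u ∈ U

/-- a finite system of arcs which is compact modulo the integral orthogonal group -/
structure Sys where
  N : ℕ
  ρ : Fin N → ℝ
  f : Fin N → ℂ → V5
  C : ℝ
  c : ℝ
  cpos : 0 < c
  arc : ∀ j, Arc (ρ j) (f j)
  per : ∀ j, ∃ T, Ort T ∧ ∀ w ∈ hp (ρ j), f j (w + (2 * π : ℝ) * I) = cz T *ᵥ f j w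
  grow : ∀ j (w : ℂ), w.re ≤ ρ j - 1 → 0 ≤ w.im → w.im ≤ 2 * π →
    c ≤ Nn (f j w) ∧ ‖f j w‖ ≤ C * (1 + |w.re|) ^ 2
  cov : ∀ j, {w ∈ hp (ρ j) | ¬ ∃ (i : Fin N) (w' : ℂ), w'.re ≤ ρ i - 1 ∧
    Eqv (f j w) (f i w')}.Countable

/-- the stabiliser of the equations of an arc -/
def Gam (ρ : ℝ) (f : ℂ → V5) : Set Z5 := {g | Ort g ∧ Same ρ (fun w ↦ cz g *ᵥ f w) ρ f}

def St_DOM : Prop := ∀ τ ∈ H2, Dom (om τ) ∧ Nn (om τ) = 4 * dY τ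

def St_EQV : Prop := ∀ τ ∈ H2, ∀ τ' ∈ H2, ∀ M : V2 →ₗ[ℂ] V2, Function.Bijective M →
  (∀ z, M z ∈ Lat τ' ↔ z ∈ Lat τ) → (∀ v, Hn τ' (M v) = Hn τ v) → Eqv (om τ') (om τ)

/-- polarisation and integration of the Higgs field -/
def St_POL : Prop := ∀ (ρ : ℝ) (f : ℂ → V5), Arc ρ f → ∀ S : Submodule ℂ M5,
  (∀ w ∈ hp ρ, Aa (f w) (deriv f w) ∈ S) → ∀ w' ∈ hp ρ, ∀ x ∈ Submodule.span ℂ (f '' hp ρ),
    Bf x (star (f w')) = 0 → wedge (star (f w')) x ∈ S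

/-- the big cell -/
def St_BIG : Prop := ∀ (e : ℕ) (U : Submodule ℂ ((Fin e → Fin 5) → ℂ)) (ω : V5), Dom ω →
  pw e ω ∈ U → (∀ x, Bf x (star ω) = 0 → ∀ u ∈ U, der (Fin e) (wedge (star ω) x) *ᵥ u ∈ U) →
  ∀ u : V5, Bf u u = 0 → Bf u (star ω) ≠ 0 → pw e u ∈ U

/-- polynomials are linear forms on tensor powers -/
def St_POLY : Prop := ∀ Q : MvPolynomial (Fin 3) ℂ, ∃ (e : ℕ)
  (l : ((Fin e → Fin 5) → ℂ) →ₗ[ℂ] ℂ), ∀ τ : T3, l (pw e (om τ)) = MvPolynomial.eval τ Q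

/-- a complex linear equation gives a real one -/
def St_LIN1 : Prop := ∀ (ρ : ℝ) (f : ℂ → V5), Arc ρ f → Perp ρ f ≠ ⊥ → Stab ρ f (Perp ρ f) →
  RPerp ρ f ≠ ⊥

/-- small nondegenerate stable subspaces consist of equations -/
structure St_LIN2 : Prop where
  le : ∀ (ρ : ℝ) (f : ℂ → V5), Arc ρ f → ∀ U : Submodule ℂ V5, Module.finrank ℂ U ≤ 2 →
    (∀ u ∈ U, (∀ u' ∈ U, Bf u u' = 0) → u = 0) → Stab ρ f U → U ≤ Perp ρ f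
  dim : ∀ (ρ : ℝ) (f : ℂ → V5), Arc ρ f → Module.finrank ℂ (RPerp ρ f) ≤ 2
  nd : ∀ (ρ : ℝ) (f : ℂ → V5), Arc ρ f → ∀ u ∈ RPerp ρ f, (∀ u' ∈ RPerp ρ f, Bf u u' = 0) → u = 0

/-- conjugates of subspaces -/
structure St_RAT : Prop where
  conj : ∀ (σ : ℂ ≃+* ℂ) (U : Submodule ℂ V5), ∃ U' : Submodule ℂ V5,
    Module.finrank ℂ U' = Module.finrank ℂ U ∧ ∀ x : V5, σ ∘ x ∈ U' ↔ x ∈ U
  rat : ∀ U : Submodule ℂ V5, U ≠ ⊥ → (∀ σ : ℂ ≃+* ℂ, ∀ x ∈ U, σ ∘ x ∈ U) →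
    ∃ x : Fin 5 → ℤ, x ≠ 0 ∧ (fun i ↦ (x i : ℂ)) ∈ U

/-- the theorem of the fixed part, for subspaces of `V` and of its tensor powers -/
structure St_FP : Prop where
  one : ∀ (S : Sys) (j : Fin S.N) (U : Submodule ℂ V5),
    (∀ g ∈ Gam (S.ρ j) (S.f j), ∀ u ∈ U, cz g *ᵥ u ∈ U) →
    ∃ ρ f, Arc ρ f ∧ Same ρ f (S.ρ j) (S.f j) ∧ Stab ρ f U
  pow : ∀ (S : Sys) (j : Fin S.N) (e : ℕ), ∃ ρ f, Arc ρ f ∧ Same ρ f (S.ρ j) (S.f j) ∧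
    ∀ w ∈ hp ρ, ∀ u ∈ Sp e ρ f, der (Fin e) (Aa (f w) (deriv f w)) *ᵥ u ∈ Sp e ρ f

/-- the abstract theorem -/
def St_ABS : Prop := ∀ (S : Sys) (j : Fin S.N),
  (∃ x : Fin 5 → ℤ, x ≠ 0 ∧ (fun i ↦ (x i : ℂ)) ∈ Perp (S.ρ j) (S.f j)) ∨
    ∀ e : ℕ, ∃ y : V5, y ≠ 0 ∧ ∀ u : V5, Bf u u = 0 → Bf u y ≠ 0 → pw e u ∈ Sp e (S.ρ j) (S.f j)

/-- an atlas gives a system of arcs -/
def St_SYS : Prop := ∀ (P : Id) (A : Atlas P), HG P → ∃ S : Sys, ∃ e : Fin S.N → Fin A.N,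
  Function.Surjective e ∧ ∀ j, S.ρ j = Real.log (A.r (e j)) ∧
    S.f j = fun w ↦ om (cht (A.mm (e j)) (A.g (e j)) w)

/-! ### small kit -/

theorem hp_unc (ρ : ℝ) : ¬ (hp ρ).Countable := fun hc ↦ by
  obtain ⟨y, hy1, hy2⟩ := (hc.dense_compl ℂ).inter_open_nonempty _ (hp_open ρ)
    ⟨(ρ - 1 : ℝ), by simp [hp]⟩
  exact hy2 hy1

theorem pw_smul (e : ℕ) (c : ℂ) (x : V5) : pw e (c • x) = c ^ e • pw e x := by
  funext i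
  simp [pw, pure, Finset.prod_mul_distrib]

theorem pw_act (e : ℕ) (X : M5) (x : V5) : pw e (X *ᵥ x) = tp (Fin e) X *ᵥ pw e x :=
  (tpf_mulVec _ _).symm

theorem an_pw (e : ℕ) {f : ℂ → V5} {w : ℂ} (hf : AnalyticAt ℂ f w) :
    AnalyticAt ℂ (fun z ↦ pw e (f z)) w :=
  analyticAt_pi_iff.2 fun i ↦
    Finset.analyticAt_fun_prod Finset.univ fun a _ ↦ an_comp hf (i a)

theorem Arc.ev {ρ : ℝ} {f : ℂ → V5} (h : Arc ρ f) {w : ℂ} (hw : w ∈ hp ρ) :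
    ∀ᶠ z in nhds w, Dom (f z) := by
  filter_upwards [(hp_open ρ).mem_nhds hw] with z hz using h.dom z hz

theorem Arc.mm1 {ρ : ℝ} {f : ℂ → V5} (h : Arc ρ f) {w : ℂ} (hw : w ∈ hp ρ) :
    Bf (mm (f w) (deriv f w)) (f w) = 0 :=
  mm_1 (h.dom w hw) (iso_deriv (h.an w hw) (h.ev hw))

theorem wedge_mulVec (y x u : V5) : wedge y x *ᵥ u = Bf u y • x - Bf u x • y := by
  rw [wedge, sub_mulVec, op_mulVec, op_mulVec]

end Pool.Agent.Lib.ECM.G4
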