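import Pool.Agent.Lib.ECM.G4A

/-! Tensor powers of matrices and harmonic families of Hermitian forms. -/

open Complex Matrix
open scoped ComplexConjugate

set_option linter.unusedSectionVars false

noncomputable section

namespace Pool.Agent.Lib.ECM.G4

section alg
variable {α β S : Type} [Fintype α] [DecidableEq α] [Fintype β] [DecidableEq β] [CommRing S]

/-- tensor product of a family of matrices -/
def tpf (X : α → Matrix β β S) : Matrix (α → β) (α → β) S :=
  Matrix.of fun i j ↦ ∏ a, X a (i a) (j a)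

/-- tensor power -/
def tp (α : Type) [Fintype α] (X : Matrix β β S) : Matrix (α → β) (α → β) S := tpf fun _ ↦ X

/-- the derivation induced on a tensor power -/
def der (α : Type) [Fintype α] [DecidableEq α] (A : Matrix β β S) : Matrix (α → β) (α → β) S :=
  ∑ c, tpf (Function.update (fun _ ↦ 1) c A)

/-- pure tensors -/
def pure (u : α → β → S) : (α → β) → S := fun i ↦ ∏ a, u a (i a)

theorem tpf_mul (X Y : α → Matrix β β S) : tpf X * tpf Y = tpf fun a ↦ X a * Y a := by
  ext i j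
  simp only [tpf, mul_apply, of_apply, ← Finset.prod_mul_distrib]
  rw [Finset.prod_univ_sum]
  simp

theorem tpf_mulVec (X : α → Matrix β β S) (u : α → β → S) :
    tpf X *ᵥ pure u = pure fun a ↦ X a *ᵥ u a := by
  ext i
  simp only [tpf, pure, mulVec, dotProduct, of_apply, ← Finset.prod_mul_distrib]
  rw [Finset.prod_univ_sum]
  simp

theorem tp_mul (X Y : Matrix β β S) : tp α X * tp α Y = tp α (X * Y) := tpf_mul _ _

theorem tp_one : tp α (1 : Matrix β β S) = 1 := by
  ext i j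
  simp only [tp, tpf, of_apply, one_apply, Finset.prod_ite_zero, Finset.prod_const_one, Finset.mem_univ,
    forall_const, funext_iff]

theorem tpf_update (X : α → Matrix β β S) (c : α) (Y : Matrix β β S) (i j : α → β) :
    tpf (Function.update X c Y) i j =
      Y (i c) (j c) * ∏ a ∈ Finset.univ.erase c, X a (i a) (j a) := by
  rw [tpf, of_apply, ← Finset.mul_prod_erase _ _ (Finset.mem_univ c), Function.update_self]
  congr 1
  exact Finset.prod_congr rfl fun a ha ↦ by rw [Function.update_of_ne (Finset.ne_of_mem_erase ha)]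

theorem prod_eps {δ : S} (hδ : δ * δ = 0) (s : Finset α) (x y : α → S) :
    ∏ a ∈ s, (x a + δ * y a) = ∏ a ∈ s, x a + δ * ∑ c ∈ s, y c * ∏ a ∈ s.erase c, x a := by
  induction s using Finset.induction_on with
  | empty => simp
  | insert b s hb ih =>
    rw [Finset.prod_insert hb, Finset.prod_insert hb, Finset.sum_insert hb, ih,
      Finset.erase_insert hb]
    have : ∑ c ∈ s, y c * ∏ a ∈ (insert b s).erase c, x a =
        x b * ∑ c ∈ s, y c * ∏ a ∈ s.erase c, x a := by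
      rw [Finset.mul_sum]
      refine Finset.sum_congr rfl fun c hc ↦ ?_
      rw [Finset.erase_insert_of_ne (by rintro rfl; exact hb hc),
        Finset.prod_insert (by simp [hb])]
      ring
    rw [this]
    linear_combination (y b * ∑ c ∈ s, y c * ∏ a ∈ s.erase c, x a) * hδ

theorem tp_eps {δ : S} (hδ : δ * δ = 0) (A : Matrix β β S) :
    tp α (1 + δ • A) = 1 + δ • der α A := by
  ext i j
  rw [← tp_one (α := α)]
  simp only [tp, der, Matrix.add_apply, Matrix.smul_apply, smul_eq_mul, Matrix.sum_apply, tpf_update]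
  simp only [tpf, of_apply, Matrix.add_apply, Matrix.smul_apply, smul_eq_mul, prod_eps hδ]

theorem der_add (A B : Matrix β β S) : der α (A + B) = der α A + der α B := by
  ext i j
  simp only [der, Matrix.add_apply, Matrix.sum_apply, tpf_update, add_mul, Finset.sum_add_distrib]

theorem der_smul (c : S) (A : Matrix β β S) : der α (c • A) = c • der α A := by
  ext i j
  simp only [der, Matrix.smul_apply, Matrix.sum_apply, tpf_update, smul_eq_mul, Finset.mul_sum, mul_assoc]

/-- the derivation as a linear map -/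
def derL (α : Type) [Fintype α] [DecidableEq α] :
    Matrix β β S →ₗ[S] Matrix (α → β) (α → β) S where
  toFun := der α
  map_add' := der_add
  map_smul' := der_smul

theorem der_comm (A B : Matrix β β S) :
    der α A * der α B - der α B * der α A = der α (A * B - B * A) := by
  have h1 : der α (A * B - B * A) = der α (A * B) - der α (B * A) :=
    (derL (β := β) (S := S) α).map_sub _ _
  have h2 : ∀ (A B : Matrix β β S) (c : α), (fun a ↦ Function.update (fun _ ↦ 1) c A a *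
      Function.update (fun _ ↦ 1) c B a) = Function.update (fun _ ↦ 1) c (A * B) := by
    intro A B c
    funext a
    by_cases h : a = c
    · subst h; simp
    · simp [h]
  have h3 : der α B * der α A = ∑ c, ∑ d, tpf fun a ↦ Function.update (fun _ ↦ 1) d B a *
      Function.update (fun _ ↦ 1) c A a := by
    simp only [der, Finset.sum_mul_sum, tpf_mul]
    exact Finset.sum_comm
  rw [h1, h3]
  simp only [der, Finset.sum_mul_sum, tpf_mul]
  rw [← Finset.sum_sub_distrib, ← Finset.sum_sub_distrib]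
  refine Finset.sum_congr rfl fun c _ ↦ ?_
  rw [← Finset.sum_sub_distrib, Finset.sum_eq_single c, h2, h2]
  · intro d _ hd
    rw [sub_eq_zero]
    congr 1
    funext a
    by_cases h : a = c
    · subst h; simp [hd.symm]
    · simp [h]
  · simp

theorem tp_mul_der (X A : Matrix β β S) :
    tp α X * der α A = ∑ c, tpf (Function.update (fun _ ↦ X) c (X * A)) := by
  simp only [tp, der, Finset.mul_sum, tpf_mul]
  refine Finset.sum_congr rfl fun c _ ↦ ?_
  congr 1
  funext a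
  by_cases h : a = c
  · subst h; simp
  · simp [h]

theorem der_pure (A : Matrix β β S) (u : α → β → S) :
    der α A *ᵥ pure u = ∑ c, pure (Function.update u c (A *ᵥ u c)) := by
  simp only [der, sum_mulVec, tpf_mulVec]
  refine Finset.sum_congr rfl fun c _ ↦ ?_
  congr 1
  funext a
  by_cases h : a = c
  · subst h; simp
  · simp [h]

theorem tp_map {T : Type} [CommRing T] (f : S →+* T) (X : Matrix β β S) :
    (tp α X).map f = tp α (X.map f) := by
  ext i j
  simp [tp, tpf]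

theorem der_map {T : Type} [CommRing T] (f : S →+* T) (A : Matrix β β S) :
    (der α A).map f = der α (A.map f) := by
  ext i j
  simp [der, Matrix.sum_apply, tpf_update, one_apply, apply_ite f]

theorem tpf_cT (X : α → Matrix β β ℂ) : (tpf X)ᴴ = tpf fun a ↦ (X a)ᴴ := by
  ext i j
  simp [tpf]

theorem tp_cT (X : Matrix β β ℂ) : (tp α X)ᴴ = tp α Xᴴ := tpf_cT _

/-- second order part of a harmonic family -/
def EE (e₁ e₂ h : S) (A B : Matrix β β S) : Matrix β β S :=
  (1 + e₁ • A) * (1 + e₂ • B) * (1 + (-(h * e₁ * e₂)) • (A * B - B * A))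

theorem tp_EE {e₁ e₂ : S} (h : S) (h1 : e₁ * e₁ = 0) (h2 : e₂ * e₂ = 0) (A B : Matrix β β S) :
    tp α (EE e₁ e₂ h A B) = EE e₁ e₂ h (der α A) (der α B) := by
  rw [EE, EE, ← tp_mul, ← tp_mul, tp_eps h1, tp_eps h2,
    tp_eps (by linear_combination (h * h * e₂ * e₂) * h1), der_comm]

theorem EE_eq {e₁ e₂ h : S} (h0 : 2 * h = 1) (h1 : e₁ * e₁ = 0) (h2 : e₂ * e₂ = 0)
    (A B : Matrix β β S) :
    EE e₁ e₂ h A B = 1 + e₁ • A + e₂ • B + (h * e₁ * e₂) • (A * B + B * A) := by
  have k1 : e₁ * -(h * e₁ * e₂) = 0 := by linear_combination (-(h * e₂)) * h1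
  have k2 : e₂ * -(h * e₁ * e₂) = 0 := by linear_combination (-(h * e₁)) * h2
  have k3 : e₁ * e₂ * -(h * e₁ * e₂) = 0 := by linear_combination (-(h * e₂ * e₂)) * h1
  have k4 : e₁ * e₂ = 2 * (h * e₁ * e₂) := by linear_combination (-(e₁ * e₂)) * h0
  simp only [EE, mul_add, add_mul, mul_one, one_mul, smul_mul_smul_comm, k1, k2, k3, zero_smul,
    add_zero]
  generalize h * e₁ * e₂ = t at *
  rw [k4]
  module

/-- the jet of a harmonic family, in any ring -/
def JG (f : ℂ →+* S) (e₁ e₂ h : S) (H A B : Matrix β β ℂ) : Matrix β β S :=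
  H.map f * EE e₁ e₂ h (A.map f) (B.map f)

theorem tp_JG (f : ℂ →+* S) {e₁ e₂ : S} (h : S) (h1 : e₁ * e₁ = 0) (h2 : e₂ * e₂ = 0)
    (H A B : Matrix β β ℂ) :
    JG f e₁ e₂ h (tp α H) (der α A) (der α B) = tp α (JG f e₁ e₂ h H A B) := by
  rw [JG, JG, tp_map, der_map, der_map, ← tp_EE _ h1 h2, tp_mul]

theorem JG_apply (f : ℂ →+* S) {e₁ e₂ h : S} (h0 : 2 * h = 1) (h1 : e₁ * e₁ = 0)
    (h2 : e₂ * e₂ = 0) (H A B : Matrix β β ℂ) (i j : β) : JG f e₁ e₂ h H A B i j =
      f (H i j) + e₁ * f ((H * A) i j) + e₂ * f ((H * B) i j) +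
        h * e₁ * e₂ * f ((H * (A * B + B * A)) i j) := by
  rw [JG, EE_eq h0 h1 h2, ← Matrix.map_mul, ← Matrix.map_mul, ← Matrix.map_add f (map_add f)]
  simp only [mul_add (H.map f), mul_one, mul_smul_comm, ← Matrix.map_mul, Matrix.add_apply,
    Matrix.smul_apply, map_apply, smul_eq_mul]

end alg

variable {α β : Type} [Fintype α] [DecidableEq α] [Fintype β] [DecidableEq β]

/-- the jet of a harmonic family -/
def JH (H A B : Matrix β β ℂ) : Matrix β β R :=
  JG ι (mk 0 1 0 0) (mk 0 0 1 0) (mk (1 / 2) 0 0 0) H A B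

theorem e1_sq : mk 0 1 0 0 * mk 0 1 0 0 = 0 := by simp [mk_mul, mk_zero]

theorem e2_sq : mk 0 0 1 0 * mk 0 0 1 0 = 0 := by simp [mk_mul, mk_zero]

theorem JH_apply (H A B : Matrix β β ℂ) (i j : β) : JH H A B i j =
    mk (H i j) ((H * A) i j) ((H * B) i j) ((H * (A * B + B * A)) i j / 2) := by
  rw [JH, JG_apply ι (by rw [two_mul, mk_add, ← mk_one]; norm_num) e1_sq e2_sq]
  simp only [mk_alg, mk_mul, mk_add]
  congr 1 <;> ring

/-- `H` is a harmonic family of positive Hermitian forms at `w`, with logarithmic derivatives `A`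
and `B` -/
structure HF (H : ℂ → Matrix β β ℂ) (w : ℂ) (A B : Matrix β β ℂ) : Prop where
  pos : ∃ g g' : Matrix β β ℂ, g' * g = 1 ∧ H w = gᴴ * g
  adj : (H w * A)ᴴ = H w * B
  jet : ∀ i j, Jet (fun z ↦ H z i j) w (JH (H w) A B i j)

theorem HF.herm {H : ℂ → Matrix β β ℂ} {w : ℂ} {A B : Matrix β β ℂ} (h : HF H w A B) :
    (H w)ᴴ = H w := by
  obtain ⟨g, -, -, e⟩ := h.pos
  simp [e]

theorem HF.tp {H : ℂ → Matrix β β ℂ} {w : ℂ} {A B : Matrix β β ℂ} (h : HF H w A B) :
    HF (fun z ↦ tp α (H z)) w (der α A) (der α B) where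
  pos := by
    obtain ⟨g, g', e1, e2⟩ := h.pos
    exact ⟨G4.tp α g, G4.tp α g', by rw [tp_mul, e1, tp_one], by rw [tp_cT, tp_mul, e2]⟩
  adj := by
    rw [tp_mul_der, tp_mul_der, conjTranspose_sum]
    refine Finset.sum_congr rfl fun c _ ↦ ?_
    rw [tpf_cT]
    congr 1
    funext a
    by_cases k : a = c
    · subst k; simp only [Function.update_self, h.adj]
    · simp [k, h.herm]
  jet i j := by
    rw [show JH (G4.tp α (H w)) (der α A) (der α B) = G4.tp α (JH (H w) A B) from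
      tp_JG ι _ e1_sq e2_sq _ _ _]
    exact Jet.prod Finset.univ fun a _ ↦ h.jet (i a) (j a)

/-- the value of a Hermitian form -/
def qv (H : Matrix β β ℂ) (v : β → ℂ) : ℝ := (star v ⬝ᵥ H *ᵥ v).re

/-- sum of the squares of the moduli -/
def ns (x : β → ℂ) : ℝ := ∑ i, normSq (x i)

theorem ns_eq (x : β → ℂ) : star x ⬝ᵥ x = ns x := by
  simp [ns, dotProduct, normSq_eq_conj_mul_self]

theorem ns_nonneg (x : β → ℂ) : 0 ≤ ns x := Finset.sum_nonneg fun _ _ ↦ normSq_nonneg _

theorem ns_eq_zero {x : β → ℂ} (h : ns x = 0) : x = 0 := by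
  funext i
  exact normSq_eq_zero.1 ((Finset.sum_eq_zero_iff_of_nonneg fun _ _ ↦ normSq_nonneg _).1 h i
    (Finset.mem_univ i))

theorem dot_conj (x y : β → ℂ) : star y ⬝ᵥ x = conj (star x ⬝ᵥ y) := by
  simp [dotProduct, mul_comm]

theorem ns_sub (x y : β → ℂ) (hx : ns x ≠ 0) :
    ns (y - (star x ⬝ᵥ y / ns x) • x) = ns y - normSq (star x ⬝ᵥ y) / ns x := by
  apply ofReal_injective
  have : (ns x : ℂ) ≠ 0 := by exact_mod_cast hx
  rw [← ns_eq]
  simp only [star_sub, star_smul, sub_dotProduct, dotProduct_sub, smul_dotProduct, dotProduct_smul,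
    ns_eq, smul_eq_mul, dot_conj x y]
  simp only [star_def, map_div₀, conj_ofReal, ofReal_sub, ofReal_div, normSq_eq_conj_mul_self]
  field_simp
  ring

theorem form_eq (g : Matrix β β ℂ) (x y : β → ℂ) :
    star x ⬝ᵥ (gᴴ * g) *ᵥ y = star (g *ᵥ x) ⬝ᵥ g *ᵥ y := by
  rw [← mulVec_mulVec, dotProduct_mulVec, star_mulVec]

theorem HF.lj {H : ℂ → Matrix β β ℂ} {w : ℂ} {A B : Matrix β β ℂ} (h : HF H w A B)
    (hh : ∀ᶠ z in nhds w, (H z)ᴴ = H z) {v : β → ℂ} (hv : v ≠ 0) :
    ∃ κ, 0 ≤ κ ∧ LJ (fun z ↦ qv (H z) v) w κ ∧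
      (κ = 0 → (∃ c : ℂ, A *ᵥ v = c • v) ∧ ∃ c : ℂ, B *ᵥ v = c • v) := by
  obtain ⟨g, g', e1, e2⟩ := h.pos
  have inj : ∀ x, g *ᵥ x = 0 → x = 0 := fun x hx ↦ by
    rw [← one_mulVec x, ← e1, ← mulVec_mulVec, hx, mulVec_zero]
  have adj' : (H w * B)ᴴ = H w * A := by rw [← h.adj, conjTranspose_conjTranspose]
  have f1 : ∀ x y, star x ⬝ᵥ H w *ᵥ y = star (g *ᵥ x) ⬝ᵥ g *ᵥ y := fun x y ↦ e2 ▸ form_eq g x y
  have f2 : ∀ {A B : Matrix β β ℂ}, (H w * A)ᴴ = H w * B → ∀ x y,
      star x ⬝ᵥ H w *ᵥ B *ᵥ y = star (A *ᵥ x) ⬝ᵥ H w *ᵥ y := fun k x y ↦ by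
    rw [mulVec_mulVec, ← k, conjTranspose_mul, h.herm, ← mulVec_mulVec, dotProduct_mulVec,
      star_mulVec]
  set x := g *ᵥ v with hx
  set y := g *ᵥ A *ᵥ v with hy
  set y' := g *ᵥ B *ᵥ v with hy'
  have x0 : 0 < ns x := lt_of_le_of_ne (ns_nonneg x) fun k ↦ hv (inj _ (ns_eq_zero k.symm))
  have hq : qv (H w) v = ns x := by rw [qv, f1, ns_eq, ofReal_re]
  have hb : star x ⬝ᵥ y' = conj (star x ⬝ᵥ y) := by rw [← f1, f2 h.adj, f1, dot_conj]
  have n1 := ns_sub x y x0.ne'
  have n2 := ns_sub x y' x0.ne'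
  rw [hb, normSq_conj, ← hb] at n2
  have p1 := ns_nonneg (y - (star x ⬝ᵥ y / ns x) • x)
  have p2 := ns_nonneg (y' - (star x ⬝ᵥ y' / ns x) • x)
  have hκ : (ns y + ns y') / 2 / ns x - normSq (star x ⬝ᵥ y) / ns x ^ 2 =
      (ns (y - (star x ⬝ᵥ y / ns x) • x) + ns (y' - (star x ⬝ᵥ y' / ns x) • x)) / (2 * ns x) := by
    rw [n1, n2]; field_simp; ring
  refine ⟨(ns y + ns y') / 2 / ns x - normSq (star x ⬝ᵥ y) / ns x ^ 2, ?_,
    ⟨x0.trans_eq hq.symm, star x ⬝ᵥ y, (ns y + ns y') / 2, ?_, by simp only [hq]⟩, fun k ↦ ?_⟩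
  · rw [hκ]; positivity
  · have hJ := Jet.sum Finset.univ fun i _ ↦ (Jet.const (conj (v i)) w).mul
      (Jet.sum Finset.univ fun j _ ↦ (h.jet i j).mul (Jet.const (v j) w))
    simp only [JH_apply, mk_mul, mk_sum, mul_zero, zero_mul, add_zero, zero_add] at hJ
    have t : ∀ M : Matrix β β ℂ, ∑ i, conj (v i) * ∑ j, M i j * v j = star v ⬝ᵥ M *ᵥ v :=
      fun M ↦ rfl
    have t' : ∑ i, conj (v i) * ∑ j, (H w * (A * B + B * A)) i j / 2 * v j =
        (star v ⬝ᵥ (H w * (A * B + B * A)) *ᵥ v) / 2 := by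
      rw [← t, Finset.sum_div]
      refine Finset.sum_congr rfl fun i _ ↦ ?_
      rw [mul_div_assoc, Finset.sum_div]
      congr 1
      exact Finset.sum_congr rfl fun j _ ↦ by ring
    rw [t', t, t, t] at hJ
    simp only [← mulVec_mulVec, add_mulVec, mulVec_add, dotProduct_add] at hJ
    rw [f2 adj' v (B *ᵥ v), f2 h.adj v (A *ᵥ v)] at hJ
    simp only [f1, ← hx, ← hy, ← hy', ns_eq, hb] at hJ
    simp only [hq]
    convert hJ.congr (g := fun z ↦ (qv (H z) v : ℂ)) ?_ using 2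
    · push_cast; ring
    · filter_upwards [hh] with z hz
      rw [t, qv, eq_comm, ← conj_eq_iff_re, ← dot_conj, star_mulVec, hz, dotProduct_mulVec]
  · rw [hκ, div_eq_zero_iff] at k
    have k' := k.resolve_right (by positivity)
    constructor
    · refine ⟨star x ⬝ᵥ y / ns x, sub_eq_zero.1 (inj _ (ns_eq_zero ?_))⟩
      rw [mulVec_sub, mulVec_smul]
      linarith
    · refine ⟨star x ⬝ᵥ y' / ns x, sub_eq_zero.1 (inj _ (ns_eq_zero ?_))⟩
      rw [mulVec_sub, mulVec_smul]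
      linarith

end Pool.Agent.Lib.ECM.G4
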