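import Pool.Agent.Lib.ECM.G4Blue

/-! The maximum principle on a system of arcs. -/

open Complex Matrix Set Filter Topology
open scoped Real

noncomputable section

namespace Pool.Agent.Lib.ECM.G4

theorem cz_inv {g g' : Z5} (h : g' * g = 1) (x : V5) : cz g' *ᵥ cz g *ᵥ x = x := by
  rw [mulVec_mulVec, ← cz_mul, h, cz_one, one_mulVec]

theorem Arc.act {ρ : ℝ} {f : ℂ → V5} (h : Arc ρ f) {g : Z5} (hg : Ort g) :
    Arc ρ fun w ↦ cz g *ᵥ f w where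
  an w hw := ((LinearMap.toContinuousLinearMap (Matrix.toLin' (cz g))).analyticAt _).comp (h.an w hw)
  dom w hw := (h.dom w hw).act hg
  nc x := by
    obtain ⟨g', -, k, -⟩ := hg.inv
    refine (h.nc (cz g' *ᵥ x)).mono ?_
    rintro w ⟨hw, c, e⟩
    exact ⟨hw, c, by rw [← mulVec_smul, ← e, cz_inv k]⟩

theorem Sp_act (e : ℕ) (ρ : ℝ) (f : ℂ → V5) (X : M5) :
    Sp e ρ (fun w ↦ X *ᵥ f w) = (Sp e ρ f).map (Matrix.toLin' (tp (Fin e) X)) := by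
  rw [Sp, Sp, Submodule.map_span, image_image]
  simp only [pw_act, toLin'_apply]

theorem Same.act {ρ ρ' : ℝ} {f f' : ℂ → V5} (h : Same ρ f ρ' f') (X : M5) :
    Same ρ (fun w ↦ X *ᵥ f w) ρ' fun w ↦ X *ᵥ f' w := fun e ↦ by rw [Sp_act, Sp_act, h e]

theorem Same.symm {ρ ρ' : ℝ} {f f' : ℂ → V5} (h : Same ρ f ρ' f') : Same ρ' f' ρ f :=
  fun e ↦ (h e).symm

theorem Same.trans {ρ ρ' ρ'' : ℝ} {f f' f'' : ℂ → V5} (h : Same ρ f ρ' f')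
    (k : Same ρ' f' ρ'' f'') : Same ρ f ρ'' f'' := fun e ↦ (h e).trans (k e)

theorem pw_mem {e : ℕ} {ρ : ℝ} (f : ℂ → V5) {w : ℂ} (hw : w ∈ hp ρ) : pw e (f w) ∈ Sp e ρ f :=
  Submodule.subset_span ⟨w, hw, rfl⟩

theorem Sp_le {e : ℕ} {ρ : ℝ} {f : ℂ → V5} (h : Arc ρ f) {U : Submodule ℂ ((Fin e → Fin 5) → ℂ)}
    {s : Set ℂ} (hs : ¬ s.Countable) (h1 : s ⊆ hp ρ) (h2 : ∀ w ∈ s, pw e (f w) ∈ U) :
    Sp e ρ f ≤ U := by
  refine Submodule.span_le.2 ?_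
  rintro _ ⟨w, hw, rfl⟩
  exact mem_of_uncountable U (hp_conn ρ) (fun z hz ↦ an_pw e (h.an z hz)) hs h1 h2 w hw

theorem same_of_unc {ρ ρ' : ℝ} {f f' : ℂ → V5} (h : Arc ρ f) (h' : Arc ρ' f') {s : Set ℂ}
    (hs : ¬ s.Countable) (h1 : s ⊆ hp ρ)
    (h2 : ∀ w ∈ s, ∃ w' ∈ hp ρ', ∃ c : ℂ, c ≠ 0 ∧ f w = c • f' w') : Same ρ f ρ' f' := by
  intro e
  refine le_antisymm (Sp_le h hs h1 fun w hw ↦ ?_)
    (Sp_le h' (s := {w' ∈ hp ρ' | ∃ w ∈ s, ∃ c : ℂ, c ≠ 0 ∧ f w = c • f' w'}) (fun hc ↦ hs ?_)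
      (fun _ k ↦ k.1) ?_)
  · obtain ⟨w', k1, c, -, k2⟩ := h2 w hw
    rw [k2, pw_smul]
    exact Submodule.smul_mem _ _ (pw_mem f' k1)
  · refine (hc.biUnion fun w' _ ↦ h.nc (f' w')).mono fun w hw ↦ ?_
    obtain ⟨w', k1, c, k2, k3⟩ := h2 w hw
    exact mem_biUnion (show w' ∈ {w' ∈ hp ρ' | ∃ w ∈ s, ∃ c : ℂ, c ≠ 0 ∧ f w = c • f' w'} from
      ⟨k1, w, hw, c, k2, k3⟩) ⟨h1 hw, c, k3⟩
  · rintro w' ⟨-, w, hw, c, k2, k3⟩
    have : f' w' = c⁻¹ • f w := by rw [k3, smul_smul, inv_mul_cancel₀ k2, one_smul]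
    rw [this, pw_smul]
    exact Submodule.smul_mem _ _ (pw_mem f (h1 hw))

theorem Gam.inv {ρ : ℝ} {f : ℂ → V5} {g : Z5} (h : g ∈ Gam ρ f) :
    ∃ g' ∈ Gam ρ f, g' * g = 1 := by
  obtain ⟨g', k1, k2, -⟩ := h.1.inv
  refine ⟨g', ⟨k1, ?_⟩, k2⟩
  have := h.2.act (cz g')
  simp only [cz_inv k2] at this
  exact this.symm

theorem sys_max (S : Sys) (j₀ : Fin S.N) (Φ : V5 → ℝ) (Pr : (ℂ → V5) → ℂ → Prop)
    (h1 : ∀ g ∈ Gam (S.ρ j₀) (S.f j₀), ∀ x, Φ (cz g *ᵥ x) = Φ x)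
    (h2 : ∀ (c : ℂ) x, c ≠ 0 → Φ (c • x) = Φ x)
    (h3 : ∀ ρ f, Arc ρ f → ∀ w ∈ hp ρ, ∃ κ, 0 ≤ κ ∧ LJ (fun z ↦ Φ (f z)) w κ ∧ (κ = 0 → Pr f w))
    (h4 : ∃ (C : ℝ) (k : ℕ), 0 ≤ C ∧ ∀ x, S.c ≤ Nn x → Φ x ≤ C * (1 + ‖x‖) ^ k) :
    ∃ ρ f, Arc ρ f ∧ Same ρ f (S.ρ j₀) (S.f j₀) ∧ ∀ w ∈ hp ρ, Pr f w := by
  classical
  let Mt : Fin S.N → Z5 → Prop := fun j g ↦
    Ort g ∧ Same (S.ρ j) (fun w ↦ cz g *ᵥ S.f j w) (S.ρ j₀) (S.f j₀)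
  have hch : ∀ j, ∃ g, (∃ g, Mt j g) → Mt j g := fun j ↦ by
    by_cases h : ∃ g, Mt j g
    · exact ⟨h.choose, fun _ ↦ h.choose_spec⟩
    · exact ⟨1, fun k ↦ absurd k h⟩
  choose G hG using hch
  have hΦ : ∀ j g, Mt j g → ∀ x, Φ (cz g *ᵥ x) = Φ (cz (G j) *ᵥ x) := fun j g hg x ↦ by
    have k := hG j ⟨g, hg⟩
    obtain ⟨g', k1, k2, -⟩ := k.1.inv
    have e : ∀ y, cz (g * g') *ᵥ cz (G j) *ᵥ y = cz g *ᵥ y := fun y ↦ by
      rw [cz_mul, ← mulVec_mulVec, cz_inv k2]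
    rw [← e, h1 _ ⟨hg.1.mul k1, ?_⟩]
    have := k.2.act (cz (g * g'))
    simp only [e] at this
    exact this.symm.trans hg.2
  let u : Fin S.N → ℂ → ℝ := fun j w ↦ Φ (cz (G j) *ᵥ S.f j w)
  have hu : ∀ j, (∃ g, Mt j g) → ∀ w ∈ hp (S.ρ j), ∃ κ, 0 ≤ κ ∧ LJ (u j) w κ := fun j hj w hw ↦ by
    obtain ⟨κ, k1, k2, -⟩ := h3 _ _ ((S.arc j).act (hG j hj).1) w hw
    exact ⟨κ, k1, k2⟩
  have hseg : ∀ j, ∃ w : ℂ, (∃ g, Mt j g) → w.re = S.ρ j - 1 ∧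
      ∀ z : ℂ, z.re = S.ρ j - 1 → 0 ≤ z.im → z.im ≤ 2 * π → u j z ≤ u j w := fun j ↦ by
    by_cases hj : ∃ g, Mt j g
    · have hK : IsCompact (({S.ρ j - 1} : Set ℝ) ×ℂ Icc 0 (2 * π)) :=
        isCompact_singleton.reProdIm isCompact_Icc
      obtain ⟨w, hw, hm⟩ := hK.exists_isMaxOn (f := u j)
        ⟨(S.ρ j - 1 : ℝ), by simp [mem_reProdIm, Real.pi_pos.le]⟩ fun w hw ↦
          (hu j hj w (show w.re < _ by rw [show w.re = _ from hw.1]; linarith)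
            ).choose_spec.2.continuousAt.continuousWithinAt
      exact ⟨w, fun _ ↦ ⟨hw.1, fun z k1 k2 k3 ↦ hm (show z ∈ _ from ⟨k1, k2, k3⟩)⟩⟩
    · exact ⟨0, fun k ↦ absurd k hj⟩
  choose W hW using hseg
  have h0 : Mt j₀ 1 := ⟨Ort.one, fun _ ↦ by simp only [cz_one, one_mulVec]⟩
  obtain ⟨j, hj, hmax⟩ := (Finset.univ.filter fun j ↦ ∃ g, Mt j g).exists_max_image
    (fun j ↦ u j (W j)) ⟨j₀, by simpa using ⟨1, h0⟩⟩
  replace hj : ∃ g, Mt j g := by simpa using hj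
  have hle : ∀ i, (∃ g, Mt i g) → ∀ w : ℂ, w.re ≤ S.ρ i - 1 → u i w ≤ u j (W j) := by
    intro i hi
    obtain ⟨C, k, C0, hC⟩ := h4
    obtain ⟨T, hT, hT'⟩ := S.per i
    obtain ⟨B, B0, hB⟩ := (LinearMap.toContinuousLinearMap (Matrix.toLin' (cz (G i)))).bound
    refine maxp (P := 2 * π) (C := C * (1 + B * |S.C|) ^ k) (k := 2 * k) (by positivity)
      (by linarith) (hu i hi) (fun w hw ↦ ?_) (fun w k1 k2 k3 ↦ ?_)
      fun w k1 k2 k3 ↦ ((hW i hi).2 w k1 k2 k3).trans (hmax i (by simpa using hi))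
    · have hs : Same (S.ρ i) (fun w ↦ cz T *ᵥ S.f i w) (S.ρ i) (S.f i) :=
        same_of_unc ((S.arc i).act hT) (S.arc i) (hp_unc _) Subset.rfl fun z hz ↦
          ⟨z + (2 * π : ℝ) * I, by simpa [hp] using hz, 1, one_ne_zero, by rw [hT' z hz, one_smul]⟩
      have := hΦ i (G i * T) ⟨(hG i hi).1.mul hT, by
        simpa only [cz_mul, mulVec_mulVec] using (hs.act (cz (G i))).trans (hG i hi).2⟩ (S.f i w)
      simpa only [u, hT' w hw, cz_mul, mulVec_mulVec] using this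
    · obtain ⟨a1, a2⟩ := S.grow i w k1 k2 k3
      refine (hC _ (by rwa [(hG i hi).1.Nn])).trans ?_
      rw [mul_assoc, pow_mul, ← mul_pow]
      have a3 : ‖cz (G i) *ᵥ S.f i w‖ ≤ B * ‖S.f i w‖ := hB _
      have a4 : 1 ≤ (1 + |w.re|) ^ 2 := one_le_pow₀ (by linarith [abs_nonneg w.re])
      have a5 : ‖S.f i w‖ ≤ |S.C| * (1 + |w.re|) ^ 2 :=
        a2.trans (mul_le_mul_of_nonneg_right (le_abs_self _) (by positivity))
      have a6 := mul_le_mul_of_nonneg_left a5 B0.le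
      gcongr
      nlinarith
  let D : Fin S.N × Z5 → Set ℂ := fun p ↦ {w ∈ hp (S.ρ j) | ∃ w' : ℂ, w'.re ≤ S.ρ p.1 - 1 ∧
    Ort p.2 ∧ ∃ c : ℂ, c ≠ 0 ∧ S.f j w = c • cz p.2 *ᵥ S.f p.1 w'}
  haveI : Countable Z5 := inferInstanceAs (Countable (Fin 5 → Fin 5 → ℤ))
  have hbad := (S.cov j).union ((to_countable {p | (D p).Countable}).biUnion fun p hp ↦ hp)
  have hall : ∀ w ∈ hp (S.ρ j), u j w ≤ u j (W j) := by
    intro w hw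
    refine isClosed_Iic.mem_of_frequently_of_tendsto ?_ (hu j hj w hw).choose_spec.2.continuousAt
    refine ((mem_closure_iff_frequently.1 (hbad.dense_compl ℂ w)).and_eventually
      ((hp_open _).mem_nhds hw)).mono ?_
    rintro z ⟨hz, hz'⟩
    simp only [mem_compl_iff, mem_union, not_or, mem_iUnion, not_exists, mem_setOf_eq] at hz
    have b0 : ∃ (i : Fin S.N) (w' : ℂ), w'.re ≤ S.ρ i - 1 ∧ Eqv (S.f j z) (S.f i w') := by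
      by_contra k
      exact hz.1 ⟨hz', by simpa using k⟩
    obtain ⟨i, w', b1, g, c, b2, b3, b4⟩ := b0
    have b5 : ¬ (D (i, g)).Countable := fun k ↦ hz.2 (i, g) k ⟨hz', w', b1, b2, c, b3, b4⟩
    have b6 := same_of_unc (S.arc j) ((S.arc i).act b2) b5 (fun _ k ↦ k.1) (by
      rintro y ⟨-, y', c1, -, c2⟩
      exact ⟨y', show y'.re < _ by linarith, c2⟩)
    have b7 : Mt i (G j * g) := ⟨(hG j hj).1.mul b2, by
      simpa only [cz_mul, mulVec_mulVec] using (b6.act (cz (G j))).symm.trans (hG j hj).2⟩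
    have b8 := hle i ⟨_, b7⟩ w' b1
    change Φ (cz (G j) *ᵥ S.f j z) ≤ _
    rw [b4, mulVec_smul, h2 _ _ b3, mulVec_mulVec, ← cz_mul, hΦ i _ b7]
    exact b8
  have hWj : W j ∈ hp (S.ρ j) := show (W j).re < _ by rw [(hW j hj).1]; linarith
  have hc := smp (hp_open _) (hp_conn _) (hu j hj) hWj hall
  refine ⟨_, _, (S.arc j).act (hG j hj).1, (hG j hj).2, fun w hw ↦ ?_⟩
  obtain ⟨κ, k1, k2, k3⟩ := h3 _ _ ((S.arc j).act (hG j hj).1) w hw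
  refine k3 (le_antisymm (k2.max ?_) k1)
  filter_upwards [(hp_open _).mem_nhds hw] with z hz
  exact (hall z hz).trans_eq (hc w hw).symm

end Pool.Agent.Lib.ECM.G4
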