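import Pool.Agent.Lib.ECM.G4Blue
import Pool.Agent.Lib.HL14.Two

/-! Block RAT of G4: conjugates of subspaces, rational vectors in stable subspaces. -/

open Complex Matrix Set

noncomputable section

namespace Pool.Agent.Lib.ECM.G4

namespace RAT

/-- the conjugate of a subspace -/
def cjs (σ : ℂ ≃+* ℂ) (U : Submodule ℂ V5) : Submodule ℂ V5 where
  carrier := {y | σ.symm ∘ y ∈ U}
  add_mem' {x y} hx hy := by
    have e : σ.symm ∘ (x + y) = σ.symm ∘ x + σ.symm ∘ y := funext fun i ↦ map_add σ.symm _ _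
    show _ ∈ U
    rw [e]
    exact U.add_mem hx hy
  zero_mem' := by
    have e : σ.symm ∘ (0 : V5) = 0 := funext fun i ↦ map_zero σ.symm
    show _ ∈ U
    rw [e]
    exact U.zero_mem
  smul_mem' c x hx := by
    have e : σ.symm ∘ (c • x) = σ.symm c • (σ.symm ∘ x) := funext fun i ↦ map_mul σ.symm _ _
    show _ ∈ U
    rw [e]
    exact U.smul_mem _ hx

theorem conj (σ : ℂ ≃+* ℂ) (U : Submodule ℂ V5) : ∃ U' : Submodule ℂ V5,
    Module.finrank ℂ U' = Module.finrank ℂ U ∧ ∀ x : V5, σ ∘ x ∈ U' ↔ x ∈ U := by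
  have h : ∀ x : V5, σ ∘ x ∈ cjs σ U ↔ x ∈ U := fun x ↦ by
    have e : σ.symm ∘ σ ∘ x = x := funext fun i ↦ σ.symm_apply_apply _
    show σ.symm ∘ σ ∘ x ∈ U ↔ _
    rw [e]
  refine ⟨cjs σ U, ?_, h⟩
  let j : U ≃+ cjs σ U :=
    { toFun := fun x ↦ ⟨σ ∘ x.1, (h _).2 x.2⟩
      invFun := fun y ↦ ⟨σ.symm ∘ y.1, y.2⟩
      left_inv := fun x ↦ Subtype.ext (funext fun i ↦ σ.symm_apply_apply _)
      right_inv := fun x ↦ Subtype.ext (funext fun i ↦ σ.apply_symm_apply _)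
      map_add' := fun x y ↦ Subtype.ext (funext fun i ↦ map_add σ _ _) }
  have hr := rank_eq_of_equiv_equiv σ j σ.bijective
    fun c x ↦ Subtype.ext (funext fun i ↦ map_mul σ _ _)
  rw [Module.finrank, Module.finrank, hr]

theorem rat (U : Submodule ℂ V5) (hU : U ≠ ⊥) (hσ : ∀ σ : ℂ ≃+* ℂ, ∀ x ∈ U, σ ∘ x ∈ U) :
    ∃ x : Fin 5 → ℤ, x ≠ 0 ∧ (fun i ↦ (x i : ℂ)) ∈ U := by
  classical
  obtain ⟨x₀, h₀, h₀'⟩ := (Submodule.ne_bot_iff U).1 hU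
  obtain ⟨y, ⟨hyU, hy0⟩, hmin⟩ := exists_minimalFor_of_wellFoundedLT
    (fun x : V5 ↦ x ∈ U ∧ x ≠ 0) (fun x ↦ (Finset.univ.filter fun i ↦ x i ≠ 0).card)
    ⟨x₀, h₀, h₀'⟩
  obtain ⟨k, hk⟩ := Function.ne_iff.1 hy0
  have hk : y k ≠ 0 := hk
  have hfix : ∀ i, ∀ σ : ℂ ≃+* ℂ, σ ((y k)⁻¹ * y i) = (y k)⁻¹ * y i := fun i σ ↦ by
    have h1 : (y k)⁻¹ • y ∈ U := U.smul_mem _ hyU
    have h2 := U.sub_mem (hσ σ _ h1) h1
    by_contra hne
    have h3 : σ ∘ ((y k)⁻¹ • y) - (y k)⁻¹ • y ≠ 0 := fun e ↦ hne (sub_eq_zero.1 (congrFun e i))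
    suffices h4 : (Finset.univ.filter fun a ↦ (σ ∘ ((y k)⁻¹ • y) - (y k)⁻¹ • y) a ≠ 0).card <
        (Finset.univ.filter fun a ↦ y a ≠ 0).card from absurd (hmin ⟨h2, h3⟩ h4.le) (not_le.2 h4)
    refine Finset.card_lt_card ⟨fun a ha ↦ ?_, fun hs ↦ ?_⟩
    · refine Finset.mem_filter.2 ⟨Finset.mem_univ _, fun e ↦ (Finset.mem_filter.1 ha).2 ?_⟩
      simp [e]
    · refine (Finset.mem_filter.1 (hs (Finset.mem_filter.2 ⟨Finset.mem_univ k, hk⟩))).2 ?_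
      simp [hk]
  choose q hq using fun i ↦ HL14.fixed_rat (hfix i)
  obtain ⟨b, hb⟩ := IsLocalization.exist_integer_multiples_of_finite (nonZeroDivisors ℤ) q
  choose x hx using hb
  have hb0 : ((b : ℤ) : ℂ) ≠ 0 := Int.cast_ne_zero.2 (nonZeroDivisors.coe_ne_zero b)
  have e : ∀ i, (x i : ℂ) = (b : ℤ) * ((y k)⁻¹ * y i) := fun i ↦ by
    have h1 : (x i : ℚ) = (b : ℤ) * q i := by simpa using hx i
    rw [← hq i]
    exact_mod_cast h1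
  refine ⟨x, fun h0 ↦ hb0 ?_, ?_⟩
  · have h1 := e k
    rw [h0, inv_mul_cancel₀ hk, mul_one] at h1
    simpa using h1.symm
  · rw [funext e]
    exact U.smul_mem ((b : ℤ) : ℂ) (U.smul_mem (y k)⁻¹ hyU)

end RAT

theorem st_RAT : St_RAT := ⟨RAT.conj, RAT.rat⟩

end Pool.Agent.Lib.ECM.G4
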