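import Pool.Agent.Lib.ECM.THDefs

/-! Heights, plane curves and gauges: definitions for the ampleness argument (MP_0704bf_ag). -/

open Polynomial Filter Topology

namespace Pool.Agent.Lib.ECM

/-- all entries are algebraic numbers -/
def AlgT {ι : Type} (x : ι → ℂ) : Prop := ∀ i, IsAlgebraic ℚ (x i)

/-- the field generated by the entries -/
noncomputable abbrev fld {ι : Type} (x : ι → ℂ) : IntermediateField ℚ ℂ :=
  IntermediateField.adjoin ℚ (Set.range x)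

theorem AlgT.nf {ι : Type} [Finite ι] {x : ι → ℂ} (h : AlgT x) : NumberField (fld x) :=
  haveI : FiniteDimensional ℚ (fld x) :=
    IntermediateField.finiteDimensional_adjoin fun _ ⟨i, e⟩ ↦ e ▸ (h i).isIntegral
  { to_charZero := inferInstance, to_finiteDimensional := inferInstance }

open Classical in
/-- the absolute logarithmic projective height of a tuple of algebraic numbers -/
noncomputable def ht {ι : Type} [Fintype ι] (x : ι → ℂ) : ℝ :=
  if h : AlgT x then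
    haveI := h.nf
    Height.logHeight (fun i ↦ (⟨x i, IntermediateField.subset_adjoin ℚ _ ⟨i, rfl⟩⟩ : fld x)) /
      Module.finrank ℚ (fld x)
  else 0

/-- the height of a number -/
noncomputable def h1 (t : ℂ) : ℝ := ht ![1, t]

/-- value of a rational polynomial in two variables: `t` inner, `x` outer -/
noncomputable def e2 (g : ℚ[X][X]) (t x : ℂ) : ℂ := (g.map (aeval t).toRingHom).eval x

/-- the points of the plane curve `P = 0` above `t` -/
noncomputable def rts (P : ℚ[X][X]) (t : ℂ) : Multiset ℂ := (P.map (aeval t).toRingHom).roots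

/-- the norm of `g` down to the line -/
noncomputable def Nm (P g : ℚ[X][X]) : ℚ[X] := Algebra.norm ℚ[X] (AdjoinRoot.mk P g)

open Classical in
/-- common factor of a family of polynomials -/
noncomputable def cont {Y : Type} [Fintype Y] (a : Y → ℚ[X]) : ℚ[X] := Finset.univ.gcd a

/-- degree of the map to projective space given by a family of polynomials -/
noncomputable def dl {Y : Type} [Fintype Y] (a : Y → ℚ[X]) : ℕ :=
  (Finset.univ.sup fun y ↦ (a y).natDegree) - (cont a).natDegree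

/-- integral linear combination -/
def lc {J R : Type} [Fintype J] [CommRing R] (y : J → ℤ) (g : J → R) : R := ∑ j, (y j : R) * g j

/-- `y` is a family of integral linear forms in general position for `n` vectors -/
def GP {J Y : Type} [Fintype J] (y : Y → J → ℤ) (n : ℕ) : Prop :=
  (∃ C : ℝ, 0 < C ∧ ∀ (z : Multiset (J → ℂ)), z.card ≤ n → ∃ a, ∀ v ∈ z, ∀ j,
    ‖v j‖ ≤ C * ‖lc (y a) v‖) ∧
  ∃ d : ℕ, 0 < d ∧ ∀ (V : ValuationSubring ℂ) (z : Multiset (J → ℂ)), z.card ≤ n → ∃ a, ∀ v ∈ z,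
    ∀ j, V.valuation (d * v j) ≤ V.valuation (lc (y a) v)

/-- the family of norms of linear forms in a tuple of functions -/
noncomputable def nm1 {J Y : Type} [Fintype J] (P : ℚ[X][X]) (y : Y → J → ℤ) (g : J → ℚ[X][X]) :
    Y → ℚ[X] := fun a ↦ Nm P (lc (y a) g)

/-- the family of norms of minors of a pair of tuples -/
noncomputable def nm2 {J Y : Type} [Fintype J] (P : ℚ[X][X]) (y : Y → J → ℤ)
    (A B : J → ℚ[X][X]) : Y × Y → ℚ[X] :=
  fun a ↦ Nm P (lc (y a.1) A * lc (y a.2) B - lc (y a.1) B * lc (y a.2) A)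

abbrev M2 := Matrix (Fin 2) (Fin 2) ℂ

/-- the number `c* τ c` -/
noncomputable def qf (τ : T3) (c : V2) : ℂ :=
  (Complex.normSq (c 0) : ℝ) * τ 0 + (2 * (c 0 * (starRingEnd ℂ) (c 1)).re : ℝ) * τ 1 +
    (Complex.normSq (c 1) : ℝ) * τ 2

/-- coordinatewise analytic -/
def An {ι : Type} (φ : ℂ → ι → ℂ) (u : ℂ) : Prop := ∀ i, AnalyticAt ℂ (fun z ↦ φ z i) u

/-- entrywise analytic -/
def AnM (D : ℂ → M2) (u : ℂ) : Prop := ∀ i j, AnalyticAt ℂ (fun z ↦ D z i j) u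

/-- no form `c* τ c` is constant near `u` -/
def Mov (τ : ℂ → T3) (u : ℂ) : Prop :=
  ∀ c : V2, c ≠ 0 → ¬ ∀ᶠ z in 𝓝 u, qf (τ z) c = qf (τ u) c

/-- `F` times the modulus of an analytic unit never has a local maximum at `u` -/
def NoMax (F : ℂ → ℝ) (u : ℂ) : Prop :=
  ∀ g : ℂ → ℂ, AnalyticAt ℂ g u → ¬ IsLocalMax (fun z ↦ Real.exp (g z).re * F z) u

/-- value of a rational polynomial -/
noncomputable abbrev ev {ι : Type} (s : ι → ℂ) (f : MvPolynomial ι ℚ) : ℂ := MvPolynomial.aeval s f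

/-- A curve `Z` over the rationals with a rank two bundle, coordinates `l`, given with the gauge
`max |A j l 0 + B j l 1| / max |ψ i|` and with periods: `Rp s τ D` says that `τ` is a period matrix
at `s` and `D l` is the tangent vector with coordinates `l`. -/
structure Gauge {ι I J : Type} [Fintype J] (Z : Set (ι → ℂ)) (ψ : I → MvPolynomial ι ℚ)
    (A B : J → MvPolynomial ι ℚ) (Rp : (ι → ℂ) → T3 → M2 → Prop) : Prop where
  cl : ∃ (T : Set (MvPolynomial ι ℚ)) (F : Set (ι → ℂ)), F.Finite ∧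
    (∀ s ∈ Z, ∀ f ∈ T, ev s f = 0) ∧ ∀ s, (∀ f ∈ T, ev s f = 0) → s ∉ F → s ∈ Z
  dim : ∀ i j, ∃ f : ℚ[X][X], f ≠ 0 ∧ ∀ s ∈ Z, e2 f (s i) (s j) = 0
  ne : ∀ s ∈ Z, ∃ i, ev s (ψ i) ≠ 0
  per : ∀ s τ D, Rp s τ D → τ ∈ H2 ∧ D.det ≠ 0
  uniq : ∀ s τ D τ' D', Rp s τ D → Rp s τ' D' → ∀ l, Hn τ (D.mulVec l) = Hn τ' (D'.mulVec l)
  bd : ∃ C : ℝ, ∀ s ∈ Z, ∀ τ D, Rp s τ D → ∀ l i, Hn τ (D.mulVec l) * ‖ev s (ψ i)‖ ^ 2 ≤
    C * ∑ j, ‖ev s (A j) * l 0 + ev s (B j) * l 1‖ ^ 2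
  lift : ∀ (φ : ℂ → ι → ℂ) (u : ℂ), An φ u → (∀ᶠ z in 𝓝 u, φ z ∈ Z) →
    ∃ (τ : ℂ → T3) (D : ℂ → M2), An τ u ∧ AnM D u ∧ ∀ᶠ z in 𝓝 u, Rp (φ z) (τ z) (D z)
  mov : ∀ (φ : ℂ → ι → ℂ) (u : ℂ), An φ u → (∀ᶠ z in 𝓝 u, φ z ∈ Z) → (¬ ∀ᶠ z in 𝓝 u, φ z = φ u) →
    ∀ (τ : ℂ → T3) (D : ℂ → M2), An τ u → (∀ᶠ z in 𝓝 u, Rp (φ z) (τ z) (D z)) → Mov τ u

/-- A plane model of a component of `Z`: above every `t` outside `S` the roots are simple and the
points `σ / d` lie in `Z`; the coordinate `i0` is `t`. -/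
structure Model {ι : Type} (Z : Set (ι → ℂ)) (P : ℚ[X][X]) (d : ℚ[X]) (σ : ι → ℚ[X][X])
    (i0 : ι) (S : Finset ℂ) : Prop where
  mo : P.Monic
  irr : Irreducible P
  t0 : σ i0 = C (d * X)
  d0 : ∀ t, t ∉ S → aeval t d ≠ 0
  sep : ∀ t, t ∉ S → (rts P t).Nodup
  mem : ∀ t, t ∉ S → ∀ x ∈ rts P t, (fun i ↦ e2 (σ i) t x / aeval t d) ∈ Z

end Pool.Agent.Lib.ECM
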