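import Pool.Agent.Lib.ECM.Blue

/-! Statements of the blocks between ampleness and the height bound (MP_0704bf_ag). -/

open UpperHalfPlane Filter Topology
open scoped Real

noncomputable section

namespace Pool.Agent.Lib.ECM

open Pool.Agent.Lib.MP_0704bf_ag

/-- denominators of the gauge -/
def PP (x : Ch → ℂ) (n : Ch → Ch) : ℂ := ∏ κ, x (n κ) * x (n κ + κ)

/-- numerators of the gauge -/
def GG (x l : Ch → ℂ) (p : (Ch × Ch) × (Ch → Ch)) : ℂ :=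
  x p.1.1 * l p.1.2 * ∏ κ ∈ Finset.univ.erase (p.1.1 + p.1.2), x (p.2 κ) * x (p.2 κ + κ)

/-- `τ` lies over `s` and `D l` is the tangent vector with coordinates `l` -/
def RpT (s : Ch → ℂ) (τ : T3) (D : M2) : Prop :=
  Over s τ ∧ Gen τ ∧ ∀ l : V2, lv τ (D.mulVec l) hA = l 0 ∧ lv τ (D.mulVec l) hB = l 1

/-- the bound at the finite places -/
def St_FIN2 : Prop := ∀ x τ v τ0 Ω, Over x τ → Gen τ → Line τ v τ0 → Nrm τ0 Ω →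
  ∀ (V : ValuationSubring ℂ) (g h : Ch), ∃ n,
    V.valuation (16 * (x g * lv τ (Ω⁻¹ • v) h)) ^ 12 ≤
      max 1 (V.valuation (jInv τ0)) * V.valuation (x n * x (n + (g + h))) ^ 12

/-- the bound at the infinite places -/
def St_ARC : Prop := ∃ c : ℝ, 1 ≤ c ∧ ∀ x τ v τ0 Ω, Over x τ → Nrm τ0 Ω →
  ∃ m, Ev m ∧ x m ≠ 0 ∧ ∀ g h, ∃ n, ‖x g * lv τ (Ω⁻¹ • v) h‖ ^ 12 ≤
    c * NN τ v τ0 ^ 6 * max 1 ‖jInv τ0‖ * (1 + Real.log (‖x‖ / ‖x m‖)) ^ 6 *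
      ‖x n * x (n + (g + h))‖ ^ 12

/-- from local bounds to heights, with a logarithmic loss -/
def St_LG : Prop := ∀ c ε : ℝ, 1 ≤ c → 0 < ε → ∃ C : ℝ, 0 ≤ C ∧
  ∀ (ι κ : Type) [Fintype ι] [Fintype κ] (a : ι → ℂ) (b : κ → ℂ) (x : Ch → ℂ) (j : ℂ) (B : ℝ),
    AlgT a → AlgT b → AlgT x → IsAlgebraic ℚ j → 1 ≤ B → (∀ m, Ev m → x m ≠ 0) →
    (∀ (V : ValuationSubring ℂ) i, ∃ k,
      V.valuation (16 * a i) ^ 12 ≤ max 1 (V.valuation j) * V.valuation (b k) ^ 12) →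
    (∀ (σ : ℂ →+* ℂ) i, ∃ k m, Ev m ∧ ‖σ (a i)‖ ^ 12 ≤ c * B ^ 6 * max 1 ‖σ j‖ *
      (1 + Real.log (‖fun n ↦ σ (x n)‖ / ‖σ (x m)‖)) ^ 6 * ‖σ (b k)‖ ^ 12) →
    ht a ≤ ht b + h1 j / 12 + Real.log B / 2 + ε * ht x + C

/-- analytic lifts of analytic families -/
def St_ILIFT : Prop := ∀ (φ : ℂ → Ch → ℂ) (u : ℂ), An φ u →
  (∀ᶠ z in 𝓝 u, ∃ τ, Over (φ z) τ ∧ Gen τ) →
  ∃ (τ : ℂ → T3) (D : ℂ → M2), An τ u ∧ AnM D u ∧ ∀ᶠ z in 𝓝 u, RpT (φ z) (τ z) (D z)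

/-- lifts of nonconstant families satisfy no linear relation -/
def St_IMOV : Prop := ∀ P : Id, Dense P → ∀ (φ : ℂ → Ch → ℂ) (τ : ℂ → T3) (u : ℂ), An φ u →
  (¬ ∀ᶠ z in 𝓝 u, φ z = φ u) → (∀ᶠ z in 𝓝 u, φ z ∈ Cv P ∧ Over (φ z) (τ z)) → Mov τ u

/-- ampleness for the theta gauge -/
def St_AMPT : Prop := ∀ P : Id, Pl P → Mod P → GenC P → Dense P → ∃ C : ℝ, 0 ≤ C ∧
  ∀ x ∈ Cv P, ∀ τ u, Over x τ → Gen τ → u ≠ 0 → AlgT x → AlgT (lv τ u) →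
    ∀ m, h1 (x m) ≤ C * max 0 (ht (GG x (lv τ u)) - ht (PP x)) + C

end Pool.Agent.Lib.ECM
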