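import Pool.Agent.Lib.ECM.SDefs
import Pool.Agent.Lib.ECM.HDefs
import Pool.Agent.Lib.ZP3.Defs2

/-! Working definitions shared by the blocks of the E x CM theorem (problem MP_0704bf_ag). -/

open UpperHalfPlane Filter Topology Metric Polynomial
open scoped Real

noncomputable section

namespace Pool.Agent.Lib.ECM

open Pool.Agent.Lib.MP_0704bf_ag

abbrev Id := Ideal (MvPolynomial Ch ℚ)

/-! ### curves -/

/-- any two coordinates satisfy a polynomial relation: dimension at most one -/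
def Pl (P : Id) : Prop := ∀ i j, ∃ f : ℚ[X][X], f ≠ 0 ∧ ∀ x ∈ Cv P, e2 f (x i) (x j) = 0

/-- almost all points are theta null points -/
def Mod (P : Id) : Prop := {x ∈ Cv P | ¬ ∃ τ, Over x τ}.Finite

/-- no component lies in a Humbert surface -/
def HG (P : Id) : Prop := {τ | (∃ x ∈ Cv P, Over x τ) ∧ Sing τ}.Countable

/-- the lifts of every component are Zariski dense -/
def Dense (P : Id) : Prop := ∀ Q : MvPolynomial (Fin 3) ℂ, Q ≠ 0 →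
  {τ | (∃ x ∈ Cv P, Over x τ) ∧ MvPolynomial.eval τ Q = 0}.Countable

/-- no even coordinate vanishes on a component -/
def GenC (P : Id) : Prop := {x ∈ Cv P | ∃ m, Ev m ∧ x m = 0}.Finite

/-- a nonconstant branch `κ u / u ^ n` of the curve -/
structure Br (P : Id) (κ : Ch → ℂ → ℂ) (n : ℕ) : Prop where
  an : ∀ m, AnalyticAt ℂ (κ m) 0
  mem : ∀ᶠ u in 𝓝[≠] (0 : ℂ), (fun m ↦ κ m u / u ^ n) ∈ Cv P
  prim : n = 0 ∨ ∃ m, κ m 0 ≠ 0
  nc : ∀ p : Ch → ℂ, ∀ᶠ u in 𝓝[≠] (0 : ℂ), (fun m ↦ κ m u / u ^ n) ≠ p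

/-- the chart `τ = m w + g (exp w)` -/
def cht (m : T3) (g : Fin 3 → ℂ → ℂ) (w : ℂ) : T3 := fun i ↦ m i * w + g i (Complex.exp w)

/-- finitely many charts which cover all reduced lifts -/
structure Atlas (P : Id) where
  N : ℕ
  r : Fin N → ℝ
  mm : Fin N → T3
  g : Fin N → Fin 3 → ℂ → ℂ
  γ : Fin N → Sym
  F : Finset (Ch → ℂ)
  C : ℝ
  c : ℝ
  cpos : 0 < c
  pos : ∀ j, 0 < r j
  an : ∀ j i, AnalyticOnNhd ℂ (g j i) (ball 0 (r j))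
  int : ∀ j i, ∃ k : ℤ, 2 * π * Complex.I * mm j i = k
  mem : ∀ j w, ‖Complex.exp w‖ < r j → cht (mm j) (g j) w ∈ H2 ∧
    c ≤ dY (cht (mm j) (g j) w) ∧ ∃ x ∈ Cv P, Over x ((γ j).inv (cht (mm j) (g j) w))
  unc : ∀ j (ρ : ℝ), 0 < ρ → ¬ (cht (mm j) (g j) '' {w | ‖Complex.exp w‖ < min ρ (r j)}).Countable
  cover : ∀ x ∈ Cv P, x ∉ F → ∀ τ, Over x τ → ∀ γ' : Sym, γ'.act τ ∈ Red →
    ∃ j w, ‖Complex.exp w‖ ≤ r j * Real.exp (-11) ∧ |w.im| ≤ π ∧ γ'.act τ = cht (mm j) (g j) w ∧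
      Over x ((γ j).inv (cht (mm j) (g j) w)) ∧
      (mm j = 0 ∨ ∃ m, Ev m ∧ -w.re ≤ C + |Real.log ‖x m‖|)

/-! ### elliptic curves in the torus -/

/-- the line through `v` meets the lattice exactly in `(ℤ + ℤ τ₀) v` -/
def Line (τ : T3) (v : V2) (τ0 : ℍ) : Prop :=
  v ≠ 0 ∧ ∀ z : ℂ, z • v ∈ Lat τ ↔ ∃ m n : ℤ, z = m + n * (τ0 : ℂ)

/-- the degree of the polarisation on the elliptic curve -/
def NN (τ : T3) (v : V2) (τ0 : ℍ) : ℝ := τ0.im * Hn τ v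

/-- the lattice `Ω (ℤ + ℤ τ₀)` has discriminant `12 ^ 6` -/
def Nrm (τ0 : ℍ) (Ω : ℂ) : Prop :=
  Ω ^ 12 * 12 ^ 6 = (2 * π) ^ 12 * ModularForm.discriminant τ0

/-- the invariants of the lattice `Ω (ℤ + ℤ τ₀)` -/
def gg2 (τ0 : ℍ) (Ω : ℂ) : ℂ := 4 * (π : ℂ) ^ 4 / 3 * ModularForm.E₄ τ0 / Ω ^ 4

def gg3 (τ0 : ℍ) (Ω : ℂ) : ℂ := 8 * (π : ℂ) ^ 6 / 27 * ModularForm.E₆ τ0 / Ω ^ 6

/-- algebraic coordinates of a tangent vector -/
def lv (τ : T3) (u : V2) (h : Ch) : ℂ := ll h τ u / kk 0 τ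

/-- a linear form -/
def eta (τ : T3) (cA cB : ℂ) (u : V2) : ℂ := cA * ll hA τ u + cB * ll hB τ u

/-- `N η / η v` is the homomorphism onto the elliptic curve dual to the inclusion -/
structure Eta (τ : T3) (v : V2) (τ0 : ℍ) (N : ℕ) (cA cB : ℂ) : Prop where
  ne : eta τ cA cB v ≠ 0
  into : ∀ l ∈ Lat τ, ∃ a b : ℤ, N * eta τ cA cB l = (a + b * (τ0 : ℂ)) * eta τ cA cB v
  orth : ∀ u, eta τ cA cB u = 0 → ∀ t : ℂ,
    Hn τ (u + t • v) = Hn τ u + Complex.normSq t * Hn τ v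

/-! ### conjugates -/

/-- the tuple `x` has at most `d` conjugates -/
def DegT {ι : Type} (x : ι → ℂ) (d : ℕ) : Prop :=
  ∃ E : Finset (ι → ℂ), E.card ≤ d ∧ ∀ σ : ℂ →+* ℂ, (fun i ↦ σ (x i)) ∈ E

/-- an algebraic point all of whose conjugates are theta null points of Jacobians -/
def Good (x : Ch → ℂ) : Prop :=
  AlgT x ∧ ∀ σ : ℂ →+* ℂ, ∃ τ, Over (fun m ↦ σ (x m)) τ ∧ Gen τ

/-- `B` bounds the degree of every elliptic curve with complex multiplication at every conjugate -/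
def NB (x : Ch → ℂ) (B : ℝ) : Prop :=
  ∀ (σ : ℂ →+* ℂ) (τ : T3) (v : V2) (τ0 : ℍ), Over (fun m ↦ σ (x m)) τ → Line τ v τ0 → IsCM τ0 →
    NN τ v τ0 ≤ B

end Pool.Agent.Lib.ECM
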