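import Pool.Agent.Lib.ECM.Blue3
import Pool.Agent.Lib.ECM.TH_NORM
import Pool.Agent.Lib.ECM.PT_AN
import Pool.Agent.Lib.ZP3.Reduce2
import Pool.Agent.Lib.ZP3.An

/-! Block DEP: three abelian functions are algebraically dependent. -/

open Complex Filter Topology Metric Asymptotics
open scoped Real

namespace Pool.Agent.Lib.ECM

namespace MDEP

open ZP3.RED2 XNORM

theorem prod_mem {A ι κ : Type} [CommRing A] [Algebra ℂ A] [Fintype ι] (x : ι → A) (r : κ → ι)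
    (s : Finset κ) : ∏ k ∈ s, x (r k) ∈ M x s.card := by
  classical
  induction s using Finset.induction_on with
  | empty => simpa using one_mem_M x 0
  | insert a s ha ih =>
    rw [Finset.prod_insert ha, Finset.card_insert_of_notMem ha, add_comm]
    exact M_mul x _ _ (Submodule.mul_mem_mul (x_mem x _) ih)

/-- Taylor polynomials -/
theorem jet {g : V2 → ℂ} (hg : AnalyticAt ℂ g 0) (T : ℕ) :
    ∃ q ∈ M (fun (i : Fin 2) (y : V2) ↦ y i) T, (fun y ↦ g y - q y) =O[𝓝 0] fun y ↦ ‖y‖ ^ T := by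
  obtain ⟨p, hp⟩ := hg
  refine ⟨p.partialSum T, ?_, by simpa using hp.isBigO_sub_partialSum_pow T⟩
  have e : p.partialSum T = ∑ n ∈ Finset.range T, ∑ r : Fin n → Fin 2,
      p n (fun k ↦ Pi.single (r k) 1) • ∏ k, (fun (i : Fin 2) (y : V2) ↦ y i) (r k) := by
    funext y
    simp only [FormalMultilinearSeries.partialSum, Finset.sum_apply, Pi.smul_apply,
      Finset.prod_apply, smul_eq_mul]
    refine Finset.sum_congr rfl fun n _ ↦ ?_
    have h1 : (fun _ : Fin n ↦ y) = fun _ ↦ ∑ j, y j • (Pi.single j 1 : V2) := funext fun _ ↦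
      funext fun i ↦ by fin_cases i <;> simp
    rw [h1, (p n).map_sum]
    exact Finset.sum_congr rfl fun r _ ↦ by rw [(p n).map_smul_univ, smul_eq_mul, mul_comm]
  rw [e]
  refine Submodule.sum_mem _ fun n hn ↦ Submodule.sum_mem _ fun r _ ↦ Submodule.smul_mem _ _ ?_
  have h2 := M_mul _ _ _ (Submodule.mul_mem_mul (prod_mem (fun (i : Fin 2) (y : V2) ↦ y i) r
    Finset.univ) (one_mem_M _ (T - n)))
  rwa [mul_one, Finset.card_univ, Fintype.card_fin,
    Nat.add_sub_cancel' (Finset.mem_range.1 hn).le] at h2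

/-- a combination that vanishes to high order -/
theorem exists_comb {X : Type} [Fintype X] (g : X → V2 → ℂ) (hg : ∀ x, Differentiable ℂ (g x))
    {T : ℕ} (hT : (T + 1) ^ 2 < Fintype.card X) : ∃ c : X → ℂ, (∃ x, c x ≠ 0) ∧
      (fun y ↦ ∑ x, c x * g x y) =O[𝓝 0] fun y : V2 ↦ ‖y‖ ^ T := by
  choose q h1 h2 using fun x ↦ jet (PT.AN.analyticAt_of_diff (hg x) 0) T
  obtain ⟨c, h3, h4⟩ := (sp_M _ T).rel q h1 (by simpa using hT)
  refine ⟨c, h4, (IsBigO.sum fun x (_ : x ∈ Finset.univ) ↦ (h2 x).const_mul_left (c x)).congr_left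
    fun y ↦ ?_⟩
  have := congrFun h3 y
  simp only [Finset.sum_apply, Pi.smul_apply, smul_eq_mul, Pi.zero_apply] at this
  simp only [Finset.sum_apply, mul_sub, Finset.sum_sub_distrib, this, sub_zero]

theorem th2 (hB : St_BAS) {τ : T3} (hτ : τ ∈ H2) {l : V2} (hl : l ∈ Lat τ) (z : V2) :
    ∃ e : ℂ, ‖e‖ * Real.exp (π * qI τ z) = Real.exp (π * qI τ (z + (2 : ℂ) • l)) ∧
      ∀ m, th m τ (z + (2 : ℂ) • l) = e * th m τ z := by
  obtain ⟨μ, ν, rfl⟩ := hl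
  have e1 : (2 : ℂ) • per τ (iv μ) (iv ν) =
      per τ (iv (2 * μ.1, 2 * μ.2)) (iv (2 * ν.1, 2 * ν.2)) := funext fun i ↦ by
    fin_cases i <;> simp [per, iv] <;> ring
  rw [e1]
  refine ⟨exp (-π * I * (Qf τ (iv (2 * ν.1, 2 * ν.2)) + 2 * dot (iv (2 * ν.1, 2 * ν.2)) z)), ?_,
    fun m ↦ ?_⟩
  · rw [qI_per hτ, norm_exp, ← Real.exp_add]
    congr 1
    simp
    ring
  · have := exp_int_mul_two_pi_mul_I (m.1.val * μ.1 + m.2.1.val * μ.2 - m.2.2.1.val * ν.1 -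
      m.2.2.2.val * ν.2)
    rw [hB.th_per, show 2 * π * I * (dot (ca m) (iv (2 * μ.1, 2 * μ.2)) -
      dot (cb m) (iv (2 * ν.1, 2 * ν.2))) = _ * (2 * π * I) from ?_, this, one_mul]
    simp only [dot, ca, cb, iv, Matrix.cons_val_zero, Matrix.cons_val_one]
    push_cast
    ring

/-- Siegel's argument -/
theorem vanish (hH : St_HERM) {τ : T3} (hτ : τ ∈ H2) (M : V2 →ₗ[ℂ] V2) : ∃ c : ℕ, 0 < c ∧
    ∀ (D : ℕ) (G : V2 → ℂ), 0 < D → Differentiable ℂ G → (∀ l ∈ Lat τ, ∀ z,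
      ‖G (z + (2 : ℂ) • l)‖ * Real.exp (π * (2 * qI τ z + qI τ (M z))) ^ D = ‖G z‖ *
        Real.exp (π * (2 * qI τ (z + (2 : ℂ) • l) + qI τ (M (z + (2 : ℂ) • l)))) ^ D) →
      (G =O[𝓝 0] fun y : V2 ↦ ‖y‖ ^ (c * D)) → ∀ z, G z = 0 := by
  have hM : Continuous M := M.continuous_of_finiteDimensional
  have q0 := qI_cont τ
  have p0 : Continuous fun p ↦ (2 : ℂ) • par τ p := (par_cont τ).const_smul (2 : ℂ)
  obtain ⟨w, hw⟩ : ∃ w : V2 → ℝ, ∀ z, Real.exp (π * (2 * qI τ z + qI τ (M z))) = w z :=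
    ⟨_, fun _ ↦ rfl⟩
  have w0 : Continuous w := by
    rw [← funext hw]
    fun_prop
  have w1 : ∀ z, 1 ≤ w z := fun z ↦ hw z ▸ Real.one_le_exp (by
    have := hH.qI_nonneg τ hτ z
    have := hH.qI_nonneg τ hτ (M z)
    positivity)
  obtain ⟨K, hK⟩ := ((isCompact_closedBall (0 : ℂ) 2).prod
    (isCompact_Icc (a := (0 : (Fin 2 → ℝ) × (Fin 2 → ℝ))) (b := 1))).exists_bound_of_continuousOn
    (f := fun x ↦ w (x.1 • (2 : ℂ) • par τ x.2))
    (w0.comp (continuous_fst.smul (p0.comp continuous_snd))).continuousOn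
  obtain ⟨c, hc⟩ := pow_unbounded_of_one_lt K (one_lt_two (α := ℝ))
  refine ⟨c + 1, c.succ_pos, fun D G hD hG hp hz ↦ ?_⟩
  simp only [hw] at hp
  have wp : ∀ z, 0 < w z ^ D := fun z ↦ pow_pos (by linarith [w1 z]) D
  obtain ⟨p, p1, p2⟩ := isCompact_Icc.exists_isMaxOn (f := fun p ↦
    ‖G ((2 : ℂ) • par τ p)‖ / w ((2 : ℂ) • par τ p) ^ D) (Set.nonempty_Icc.2 zero_le_one)
    (((hG.continuous.comp p0).norm.div ((w0.comp p0).pow D) fun _ ↦ (wp _).ne').continuousOn)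
  obtain ⟨z0, hz0⟩ : ∃ z0, z0 = (2 : ℂ) • par τ p := ⟨_, rfl⟩
  have a0 : ∀ z, ‖G z‖ ≤ ‖G z0‖ * w z ^ D := fun z ↦ by
    obtain ⟨r, hr, μ, ν, e⟩ := cover hH hτ ((1 / 2 : ℂ) • z)
    have e' : z = (2 : ℂ) • par τ r + (2 : ℂ) • per τ (iv μ) (iv ν) := by
      rw [← smul_add, ← e, smul_smul]
      simp
    have b1 := hp _ ⟨μ, ν, rfl⟩ ((2 : ℂ) • par τ r)
    have b2 : ‖G ((2 : ℂ) • par τ r)‖ / w ((2 : ℂ) • par τ r) ^ D ≤ ‖G z0‖ :=
      (isMaxOn_iff.1 p2 r hr).trans (hz0 ▸ div_le_self (norm_nonneg _) (one_le_pow₀ (w1 _)))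
    rw [← e', ← eq_div_iff (wp _).ne', mul_div_right_comm] at b1
    rw [b1]
    exact mul_le_mul_of_nonneg_right b2 (wp _).le
  have a1 := ZP3.schwarz (f := fun t : ℂ ↦ G (t • z0)) (R := 2) (r := 0) (r1 := 1)
    (M := ‖G z0‖ * K ^ D) le_rfl two_pos one_le_two
    (fun t _ ↦ (hG.comp (differentiable_id.smul_const z0)).analyticAt t)
    (fun t ht ↦ (a0 _).trans (mul_le_mul_of_nonneg_left (pow_le_pow_left₀ (by linarith [w1 (t • z0)])
      ((le_abs_self _).trans (hz0 ▸ hK (t, p) ⟨mem_closedBall_zero_iff.2 ht, p1⟩ :)) D)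
      (norm_nonneg _))) {0} ((c + 1) * D) (fun t ht ↦ by
        rw [Finset.mem_singleton.1 ht]
        refine ⟨norm_zero.le, (hz.comp_tendsto (((continuous_id.smul continuous_const :
          Continuous fun t : ℂ ↦ t • z0).tendsto' 0 0 (by simp)))).trans
          (IsBigO.of_bound (‖z0‖ ^ ((c + 1) * D)) (Eventually.of_forall fun s ↦ ?_))⟩
        simp [norm_smul, mul_pow, mul_comm]) (s := 1) norm_one.le
  have k0 : 0 ≤ K := (norm_nonneg _).trans (hK (0, p) ⟨by simp, p1⟩)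
  have a2 : K ^ D * ((1 + 0) / (2 - 0)) ^ (1 * ((c + 1) * D)) < 1 := by
    rw [one_mul, pow_mul, ← mul_pow]
    refine pow_lt_one₀ (by positivity) ?_ hD.ne'
    rw [add_zero, sub_zero, one_div_pow, mul_one_div, div_lt_one (by positivity), pow_succ]
    linarith
  rw [one_smul, Finset.card_singleton, mul_assoc] at a1
  have a3 : ‖G z0‖ = 0 := by
    by_contra h
    have := mul_lt_of_lt_one_right (lt_of_le_of_ne (norm_nonneg _) (Ne.symm h)) a2
    linarith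
  exact fun z ↦ norm_le_zero_iff.1 (by simpa [a3] using a0 z)

end MDEP

open MDEP in
theorem st_DEP (hS : St_BAS) (hH : St_HERM) : St_DEP := by
  classical
  intro τ hτ M hM m
  obtain ⟨c, c0, hc⟩ := vanish hH hτ M
  obtain ⟨D, hD⟩ : ∃ D, D = c ^ 2 := ⟨_, rfl⟩
  have D0 : 0 < D := by rw [hD]; positivity
  have d1 := fun m ↦ hS.diff_th m τ hτ
  have d2 : ∀ m, Differentiable ℂ fun z ↦ th m τ (M z) := fun m ↦
    (d1 m).comp (LinearMap.toContinuousLinearMap M).differentiable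
  obtain ⟨g, hg⟩ : ∃ g : (Fin 3 → Fin (D + 1)) → V2 → ℂ, ∀ x z, g x z =
      th hA τ z ^ (x 0 : ℕ) * th hB τ z ^ (x 1 : ℕ) * th 0 τ z ^ (2 * D - x 0 - x 1) *
        (th m τ (M z) ^ (x 2 : ℕ) * th 0 τ (M z) ^ (D - x 2)) := ⟨_, fun _ _ ↦ rfl⟩
  have g1 : ∀ x, Differentiable ℂ (g x) := fun x ↦ by
    rw [funext (hg x)]
    exact ((((d1 _).pow _).mul ((d1 _).pow _)).mul ((d1 _).pow _)).mul
      (((d2 _).pow _).mul ((d2 _).pow _))
  have ex : ∀ x : Fin 3 → Fin (D + 1), x 0 + x 1 + (2 * D - x 0 - x 1) = 2 * D ∧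
      x 2 + (D - x 2) = D := fun x ↦ by
    have := (x 0).2
    have := (x 1).2
    have := (x 2).2
    omega
  obtain ⟨a, ⟨x0, a0⟩, ha⟩ := exists_comb g g1 (T := c * D) (by
    rw [Fintype.card_fun, Fintype.card_fin, Fintype.card_fin]
    calc (c * D + 1) ^ 2 ≤ (c * (D + 1)) ^ 2 := by gcongr; nlinarith
      _ = D * (D + 1) ^ 2 := by rw [mul_pow, ← hD]
      _ < (D + 1) * (D + 1) ^ 2 := by gcongr; omega
      _ = _ := by ring)
  have hz := hc D _ D0 (Differentiable.fun_sum fun x _ ↦ (g1 x).const_mul (a x))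
    (fun l hl z ↦ by
      obtain ⟨e, e1, e2⟩ := th2 hS hτ hl z
      obtain ⟨e', e3, e4⟩ := th2 hS hτ (hM l hl) (M z)
      have b1 : ∀ x, g x (z + (2 : ℂ) • l) = e ^ (2 * D) * e' ^ D * g x z := fun x ↦ by
        have b2 : e ^ (2 * D) = e ^ (x 0 : ℕ) * e ^ (x 1 : ℕ) * e ^ (2 * D - x 0 - x 1) := by
          rw [← pow_add, ← pow_add, (ex x).1]
        have b3 : e' ^ D = e' ^ (x 2 : ℕ) * e' ^ (D - x 2) := by rw [← pow_add, (ex x).2]
        rw [hg, hg, map_add, map_smul, b2, b3]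
        simp only [e2, e4, mul_pow]
        ring
      have b4 : ∀ u v : ℝ, Real.exp (π * (2 * u + v)) = Real.exp (π * u) ^ 2 * Real.exp (π * v) :=
        fun u v ↦ by
          rw [← Real.exp_nat_mul, ← Real.exp_add]
          congr 1
          push_cast
          ring
      simp only [b1, mul_left_comm (a _), ← Finset.mul_sum]
      rw [b4, b4, map_add, map_smul, ← e1, ← e3, norm_mul, norm_mul, norm_pow, norm_pow]
      ring) ha
  refine ⟨∑ x, MvPolynomial.monomial (Finsupp.equivFunOnFinite.symm fun i ↦ (x i : ℕ)) (a x),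
    fun h ↦ a0 ?_, fun z h1 h2 ↦ ?_⟩
  · have := congrArg (MvPolynomial.coeff (Finsupp.equivFunOnFinite.symm fun i ↦ (x0 i : ℕ))) h
    rw [MvPolynomial.coeff_sum, Finset.sum_eq_single x0 (fun x _ hx ↦ ?_) (by simp)] at this
    · simpa using this
    · rw [MvPolynomial.coeff_monomial, if_neg fun e ↦ hx (funext fun i ↦ Fin.ext
        (congrFun (Finsupp.equivFunOnFinite.symm.injective e) i))]
  · refine mul_left_cancel₀ (mul_ne_zero (pow_ne_zero (2 * D) h1) (pow_ne_zero D h2)) ?_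
    rw [mul_zero, ← hz z, map_sum, Finset.mul_sum]
    refine Finset.sum_congr rfl fun x _ ↦ ?_
    have b2 : th 0 τ z ^ (2 * D) = th 0 τ z ^ (x 0 : ℕ) * th 0 τ z ^ (x 1 : ℕ) *
        th 0 τ z ^ (2 * D - x 0 - x 1) := by rw [← pow_add, ← pow_add, (ex x).1]
    have b3 : th 0 τ (M z) ^ D = th 0 τ (M z) ^ (x 2 : ℕ) * th 0 τ (M z) ^ (D - x 2) := by
      rw [← pow_add, (ex x).2]
    rw [MvPolynomial.eval_monomial, Finsupp.prod_fintype _ _ fun _ ↦ pow_zero _,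
      Fin.prod_univ_three, hg, b2, b3]
    simp only [Finsupp.coe_equivFunOnFinite_symm, Matrix.cons_val_zero, Matrix.cons_val_one,
      Matrix.cons_val, div_pow]
    field_simp

end Pool.Agent.Lib.ECM
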