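import Pool.Agent.Lib.ECM.M_DEP
import Pool.Agent.Lib.ECM.M_ENC
import Pool.Agent.Lib.ECM.TH_All
import Pool.Agent.Lib.ECM.CJ4

/-! Block END: endomorphisms and conjugation. -/

open Complex Filter Topology

namespace Pool.Agent.Lib.ECM

namespace MEND

open CJ MvPolynomial

theorem HT : TH := ⟨th_BAS, th_HERM, th_LIN, th_GAUGE, th_INJ, th_JET⟩

variable {τ τ' : T3} {σ : ℂ →+* ℂ} {u v u' v' : V2}

/-- algebraic dependence of the theta quotients at `z` and at `M z` -/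
def Dep (τ : T3) (M : V2 →ₗ[ℂ] V2) : Prop := ∀ m : Ch,
  ∃ R : MvPolynomial (Fin 3) ℂ, R ≠ 0 ∧ ∀ z, th 0 τ z ≠ 0 → th 0 τ (M z) ≠ 0 →
    eval ![th hA τ z / th 0 τ z, th hB τ z / th 0 τ z, th m τ (M z) / th 0 τ (M z)] R = 0

theorem dense_ne {E : Type} [NormedAddCommGroup E] [NormedSpace ℂ E] {f : E → ℂ}
    (hf : ∀ z, AnalyticAt ℂ f z) {a : E} (ha : f a ≠ 0) :
    _root_.Dense {z | f z ≠ 0} := fun z ↦ by
  refine mem_closure_iff_frequently.2 fun h ↦ ha (congrFun (AnalyticOnNhd.eq_of_eventuallyEq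
    (g := fun _ ↦ 0) (fun z _ ↦ hf z) analyticOnNhd_const (h.mono fun w hw ↦ ?_)) a)
  simpa using hw

theorem an_th (hτ : τ ∈ H2) (m : Ch) (z : V2) : AnalyticAt ℂ (th m τ) z :=
  PT.AN.analyticAt_of_diff (th_BAS.diff_th m τ hτ) z

/-- the two odd quotients are algebraically independent -/
theorem exists_pt (hτ : τ ∈ H2) (hg : Gen τ) {R : MvPolynomial (Fin 3) ℂ} (hR : R ≠ 0) :
    ∃ z c, th 0 τ z ≠ 0 ∧ eval ![th hA τ z / th 0 τ z, th hB τ z / th 0 τ z, c] R ≠ 0 := by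
  obtain ⟨x, hx⟩ : ∃ x, eval x R ≠ 0 :=
    by_contra fun h ↦ hR (MvPolynomial.funext fun x ↦ by simpa using not_exists.1 h x)
  have k0 : th 0 τ 0 ≠ 0 := gen_k0 hg
  have d := dense_ne (f := fun p : ℂ × ℂ ↦ eval ![p.1, p.2, x 2] R) (a := (x 0, x 1))
    (fun p ↦ AnalyticAt.aeval_mvPolynomial (fun i ↦ by
      fin_cases i
      exacts [analyticAt_fst, analyticAt_snd, analyticAt_const]) R)
    (by convert hx; ext i; fin_cases i <;> rfl)
  have q : ∀ h, ¬ Ev h → HasStrictFDerivAt (fun z ↦ th h τ z / th 0 τ z)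
      ((th 0 τ 0)⁻¹ • fderiv ℂ (th h τ) 0) 0 := fun h hh ↦ by
    have z0 : th h τ 0 = 0 := th_BAS.kk_odd h τ hh
    have := ((an_th hτ 0 0).inv k0).hasStrictFDerivAt.mul (an_th hτ h 0).hasStrictFDerivAt
    simp only [div_eq_inv_mul]
    exact this.congr_fderiv (by ext; simp [z0])
  have s := ((q hA (by decide)).prodMk (q hB (by decide))).map_nhds_eq_of_surj
    (LinearMap.range_eq_top.2 fun p ↦ by
      obtain ⟨v, hv⟩ := (th_GAUGE.ind τ hτ hg).2 (th 0 τ 0 * p.1, th 0 τ 0 * p.2)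
      obtain ⟨a, b⟩ := Prod.mk.inj hv
      refine ⟨v, Prod.ext ?_ ?_⟩
      · exact (congrArg ((th 0 τ 0)⁻¹ * ·) a).trans (inv_mul_cancel_left₀ k0 _)
      · exact (congrArg ((th 0 τ 0)⁻¹ * ·) b).trans (inv_mul_cancel_left₀ k0 _))
  obtain ⟨p, h1, z, h2, rfl⟩ := d.inter_nhds_nonempty
    (s ▸ image_mem_map ((an_th hτ 0 0).continuousAt.eventually_ne k0))
  exact ⟨z, x 2, h2, h1⟩

theorem fin_root {R : MvPolynomial (Fin 3) ℂ} {a b c : ℂ} (h : eval ![a, b, c] R ≠ 0) :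
    {y | eval ![a, b, y] R = 0}.Finite := by
  have e : ∀ y, Polynomial.eval y (aeval ![Polynomial.C a, Polynomial.C b, Polynomial.X] R) =
      eval ![a, b, y] R := fun y ↦ by
    rw [← Polynomial.coe_aeval_eq_eval, comp_aeval_apply]
    exact congrArg (eval · R) (funext fun i ↦ by fin_cases i <;> simp)
  simp only [← e] at h ⊢
  exact Polynomial.finite_setOfPred_isRoot fun h0 ↦ h (by rw [h0, Polynomial.eval_zero])

/-- a multiple of an algebraic correspondence preserves the lattice -/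
theorem mult (hτ : τ ∈ H2) (hg : Gen τ) {M : V2 →ₗ[ℂ] V2} (hM : Function.Surjective M)
    (hD : Dep τ M) {l : V2} (hl : l ∈ Lat τ) : ∃ k : ℤ, k ≠ 0 ∧ (k : ℂ) • M l ∈ Lat τ := by
  choose R h0 hR using hD
  obtain ⟨z0, c, a0, c0⟩ :=
    exists_pt hτ hg (Finset.prod_ne_zero_iff.2 fun m (_ : m ∈ Finset.univ) ↦ h0 m)
  have cM : ∀ (w z : V2), AnalyticAt ℂ (fun z ↦ th 0 τ (M (z + w))) z := fun w z ↦
    (an_th hτ 0 _).comp ((M.toContinuousLinearMap.analyticAt _).comp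
      (f := fun z ↦ z + w) (by fun_prop))
  have d : _root_.Dense (⋂ j : ℕ, {z | th 0 τ (M (z + (2 : ℂ) • ((j : ℤ) : ℂ) • l)) ≠ 0}) :=
    dense_iInter_of_isOpen (fun j ↦ isOpen_ne_fun
      (continuous_iff_continuousAt.2 fun z ↦ (cM _ z).continuousAt) continuous_const) fun j ↦ by
        obtain ⟨w, hw⟩ := hM (-M ((2 : ℂ) • ((j : ℤ) : ℂ) • l))
        exact dense_ne (cM _) (a := w) (by rw [M.map_add, hw, neg_add_cancel]; exact gen_k0 hg)
  have c1 : ContinuousAt (fun z ↦ eval ![th hA τ z / th 0 τ z, th hB τ z / th 0 τ z, c]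
      (∏ m, R m)) z0 := by
    refine (continuous_eval _).continuousAt.comp (continuousAt_pi.2 fun i ↦ ?_)
    fin_cases i
    exacts [(an_th hτ hA z0).continuousAt.div (an_th hτ 0 z0).continuousAt a0,
      (an_th hτ hB z0).continuousAt.div (an_th hτ 0 z0).continuousAt a0, continuousAt_const]
  obtain ⟨z, h1, h2, h3⟩ := d.inter_nhds_nonempty
    (((an_th hτ 0 z0).continuousAt.eventually_ne a0).and (c1.eventually_ne c0))
  rw [map_prod, Finset.prod_ne_zero_iff] at h3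
  let y : ℕ → V2 := fun j ↦ M (z + (2 : ℂ) • ((j : ℤ) : ℂ) • l)
  have h1 : ∀ j, th 0 τ (y j) ≠ 0 := Set.mem_iInter.1 h1
  have h4 : ∀ j m, eval ![th hA τ z / th 0 τ z, th hB τ z / th 0 τ z,
      th m τ (y j) / th 0 τ (y j)] (R m) = 0 := fun j m ↦ by
    obtain ⟨e, e1, e2⟩ := MDEP.th2 th_BAS hτ (th_BAS.lat_smul τ j l hl) z
    have e0 : e ≠ 0 := fun h ↦ by simp [h, (Real.exp_pos _).ne] at e1
    have := hR m _ (by rw [e2]; exact mul_ne_zero e0 h2) (h1 j)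
    rwa [e2, e2, e2, mul_div_mul_left _ _ e0, mul_div_mul_left _ _ e0] at this
  have h5 : ∀ i j, y i - y j = (2 : ℂ) • (((i : ℤ) - j : ℤ) : ℂ) • M l := fun i j ↦ by
    simp only [y, map_add, map_smul, Int.cast_sub]
    module
  clear_value y
  have h6 := Set.Finite.pi' fun m ↦ fin_root (h3 m (Finset.mem_univ m))
  obtain ⟨i, -, j, -, hij, e⟩ := Set.infinite_univ.exists_ne_map_eq_of_mapsTo
    (f := fun (j : ℕ) (m : Ch) ↦ th m τ (y j) / th 0 τ (y j))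
    (fun j _ ↦ by simpa only [Set.mem_ofPred_eq] using h4 j) h6
  obtain ⟨w, hw, e'⟩ := th_INJ τ hτ (y i) (y j) fun m m' ↦ by
    have c1 := (div_eq_div_iff (h1 i) (h1 j)).1 (congrFun e m)
    have c2 := (div_eq_div_iff (h1 i) (h1 j)).1 (congrFun e m')
    refine mul_left_cancel₀ (h1 j) ?_
    linear_combination th m' τ (y j) * c1 - th m τ (y j) * c2
  exact ⟨i - j, by omega, smul_right_injective V2 (two_ne_zero' ℂ) (e'.symm.trans (h5 i j)) ▸ hw⟩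

theorem common {M : V2 →ₗ[ℂ] V2} (h : ∀ l ∈ Lat τ, ∃ k : ℤ, k ≠ 0 ∧ (k : ℂ) • M l ∈ Lat τ) :
    ∃ k : ℤ, k ≠ 0 ∧ ∀ l ∈ Lat τ, (k : ℂ) • M l ∈ Lat τ := by
  obtain ⟨a, a0, ha⟩ := h _ ⟨(1, 0), (0, 0), rfl⟩
  obtain ⟨b, b0, hb⟩ := h _ ⟨(0, 1), (0, 0), rfl⟩
  obtain ⟨c, c0, hc⟩ := h _ ⟨(0, 0), (1, 0), rfl⟩
  obtain ⟨d, d0, hd⟩ := h _ ⟨(0, 0), (0, 1), rfl⟩
  refine ⟨a * b * c * d, by positivity, ?_⟩
  rintro _ ⟨m, n, rfl⟩
  have e : per τ (iv m) (iv n) = (m.1 : ℂ) • per τ (iv (1, 0)) (iv (0, 0)) +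
      (m.2 : ℂ) • per τ (iv (0, 1)) (iv (0, 0)) + (n.1 : ℂ) • per τ (iv (0, 0)) (iv (1, 0)) +
      (n.2 : ℂ) • per τ (iv (0, 0)) (iv (0, 1)) := by
    funext i
    fin_cases i <;> simp [per, iv] <;> ring
  have A := th_BAS.lat_add τ
  have S := th_BAS.lat_smul τ
  convert A _ (A _ (A _ (S (m.1 * b * c * d) _ ha) _ (S (m.2 * a * c * d) _ hb)) _
    (S (n.1 * a * b * d) _ hc)) _ (S (n.2 * a * b * c) _ hd) using 1
  rw [e]
  simp only [map_add, map_smul, Int.cast_mul]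
  module

theorem mero_ev {g : Fin 3 → ℂ → ℂ} (hg : ∀ i, Meromorphic (g i)) (R : MvPolynomial (Fin 3) ℂ) :
    Meromorphic fun t ↦ eval (fun i ↦ g i t) R := by
  induction R using MvPolynomial.induction_on with
  | C a => simpa using Meromorphic.const a
  | add p q hp hq => simpa only [map_add] using hp.fun_add hq
  | mul_X p i hp => simpa only [map_mul, eval_X] using hp.fun_mul (hg i)

/-- the dependence is transported -/
theorem Dep.conj {M M' : V2 →ₗ[ℂ] V2} (hD : Dep τ M)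
    (h : ∀ z', ∃ z, Cd σ τ z τ' z' ∧ Cd σ τ (M z) τ' (M' z')) : Dep τ' M' := fun m ↦ by
  obtain ⟨R, h0, hR⟩ := hD m
  refine ⟨map σ R, fun e ↦ h0 (map_injective σ σ.injective (by simpa using e)), fun z' a b ↦ ?_⟩
  obtain ⟨z, c1, c2⟩ := h z'
  have J := fun {u u' : V2} (c : Cd σ τ u τ' u') ↦
    th_JET σ τ c.mem τ' c.mem' u u' c.k0 c.k0' c.hk c.hl
  have ct : ∀ {τ : T3}, τ ∈ H2 → ∀ m v, Continuous fun t : ℂ ↦ th m τ (t • v) := fun h m v ↦
    (th_BAS.diff_th m _ h).continuous.comp (by fun_prop)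
  have ev : ∀ v, ∀ᶠ t : ℂ in 𝓝 0, th 0 τ (t • v) ≠ 0 := fun v ↦
    (ct c1.mem 0 v).continuousAt.eventually_ne (by simpa [kk] using c1.k0)
  let g : Fin 3 → ℂ → ℂ := ![fun t ↦ th hA τ' (t • z') / th 0 τ' (t • z'),
    fun t ↦ th hB τ' (t • z') / th 0 τ' (t • z'),
    fun t ↦ th m τ' (t • M' z') / th 0 τ' (t • M' z')]
  have j := (th_JC.zero (th_JC.poly (f := ![fun t ↦ th hA τ (t • z) / th 0 τ (t • z),
    fun t ↦ th hB τ (t • z) / th 0 τ (t • z), fun t ↦ th m τ (t • M z) / th 0 τ (t • M z)])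
    (g := g) (fun i ↦ by fin_cases i; exacts [J c1 hA, J c1 hB, J c2 m]) R)).1 (by
      filter_upwards [ev z, ev (M z)] with t h1 h2
      rw [← map_smul] at h2
      exact (congrArg (eval · R) (funext fun i ↦ by fin_cases i <;> simp)).trans (hR _ h1 h2))
  have q := fun m v ↦ (mero_th HT c1.mem' m v).div (mero_th HT c1.mem' 0 v)
  have j2 := ev_iff.1 (zero_of_near (mero_ev (g := g)
    (fun i ↦ by fin_cases i; exacts [q _ _, q _ _, q _ _]) _) (mem_nhdsWithin_of_mem_nhds j)) 1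
  have q2 := fun m v (h : th 0 τ' v ≠ 0) ↦ (ct c1.mem' m v).continuousAt.div
    (ct c1.mem' 0 v).continuousAt (a := 1) (by rwa [one_smul])
  have c3 : ContinuousAt (fun t ↦ eval (fun i ↦ g i t) (map σ R)) 1 :=
    (continuous_eval _).continuousAt.comp (continuousAt_pi.2 fun i ↦ by
      fin_cases i; exacts [q2 _ _ a, q2 _ _ a, q2 _ _ b])
  exact (congrArg (eval · (map σ R)) (funext fun i ↦ by fin_cases i <;> simp [g])).trans
    (tendsto_nhds_unique (c3.tendsto.mono_left nhdsWithin_le_nhds)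
      (tendsto_const_nhds.congr' (EventuallyEq.symm j2)))

theorem cd_add (h : Cd σ τ u τ' u') (h' : Cd σ τ v τ' v') : Cd σ τ (u + v) τ' (u' + v') :=
  ⟨h.mem, h.mem', h.k0, h.k0', h.hk, fun m ↦ by
    rw [ll_add, ll_add, add_div, add_div, map_add, h.hl, h'.hl]⟩

theorem cd_smul (h : Cd σ τ u τ' u') (c : ℂ) : Cd σ τ (c • u) τ' (σ c • u') :=
  ⟨h.mem, h.mem', h.k0, h.k0', h.hk, fun m ↦ by
    rw [ll_smul, ll_smul, mul_div_assoc, mul_div_assoc, map_mul, h.hl]⟩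

theorem cd_right (hg : Gen τ') (h : Cd σ τ u τ' u') (h' : Cd σ τ u τ' v') : u' = v' :=
  have e := fun m ↦ (div_left_inj' h.k0').1 ((h.hl m).trans (h'.hl m).symm)
  eq_of_ll HT h.mem' hg (e _) (e _)

theorem cd_left (hg : Gen τ) (h : Cd σ τ u τ' u') (h' : Cd σ τ v τ' u') : u = v :=
  have e := fun m ↦ (div_left_inj' h.k0).1 (σ.injective ((h.hl m).symm.trans (h'.hl m)))
  eq_of_ll HT h.mem hg (e _) (e _)

theorem exists_shift (M : V2 →ₗ[ℂ] V2) :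
    ∃ n : ℤ, Function.Surjective (M - (n : ℂ) • LinearMap.id : V2 →ₗ[ℂ] V2) := by
  obtain ⟨_, ⟨n, rfl⟩, hn⟩ := (Set.infinite_range_of_injective
    (Int.cast_injective (α := ℂ))).exists_notMem_finite (Module.End.finite_spectrum M)
  have := ((Module.End.isUnit_iff _).1 (spectrum.notMem_iff.1 hn).neg).2
  rw [neg_sub, Algebra.algebraMap_eq_smul_one] at this
  exact ⟨n, this⟩

end MEND

open MEND CJ in
theorem st_END (hD : St_DEP) : St_END := by
  intro σ x τ τ' hx hg hx' hE M hM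
  have hk : ∀ m, kk m τ' / kk 0 τ' = (σ : ℂ →+* ℂ) (kk m τ / kk 0 τ) := fun m ↦ by
    rw [← hx.2.2, ← hx'.2.2]; rfl
  have hg' := gen_conj hg hk
  choose φ hφ using exists_cd HT hx.1 hx'.1 hg hk
  choose ψ hψ using exists_cd (σ := σ.symm) HT hx'.1 hx.1 hg' fun m ↦ by rw [hk]; simp
  have hψ : ∀ u, Cd σ τ (ψ u) τ' u := fun u ↦ (hψ u).symm
  obtain ⟨n, hn⟩ := exists_shift M
  set N : V2 →ₗ[ℂ] V2 := M - (n : ℂ) • LinearMap.id with eN
  have hN : ∀ z ∈ Lat τ, N z ∈ Lat τ := fun z hz ↦ by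
    simpa [eN, sub_eq_add_neg] using th_BAS.lat_add τ _ (hM z hz) _ (th_BAS.lat_smul τ (-n) z hz)
  let N' : V2 →ₗ[ℂ] V2 :=
    { toFun := fun z ↦ φ (N (ψ z))
      map_add' := fun a b ↦ cd_right hg' (hφ _) (by
        rw [cd_left hg (hψ _) (cd_add (hψ a) (hψ b)), map_add]
        exact cd_add (hφ _) (hφ _))
      map_smul' := fun c a ↦ cd_right hg' (hφ _) (by
        obtain ⟨c, rfl⟩ : ∃ d, (σ : ℂ →+* ℂ) d = c := σ.surjective c
        rw [cd_left hg (hψ _) (cd_smul (hψ a) c), map_smul]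
        exact cd_smul (hφ _) c) }
  have e1 : ∀ z, ψ (φ z) = z := fun z ↦ cd_left hg (hψ _) (hφ z)
  obtain ⟨k, k0, hk⟩ := common fun l hl ↦ mult hx'.1 hg' (M := N') (fun w ↦ by
    obtain ⟨z, hz⟩ := hn (ψ w)
    exact ⟨φ z, cd_right hg' (hφ _) (by rw [e1, hz]; exact hψ w)⟩)
    (Dep.conj (hD τ hx.1 N hN) fun z ↦ ⟨ψ z, hψ z, hφ _⟩) hl
  obtain ⟨q, hq⟩ := hE ((k : ℂ) • N') hk
  have e2 : ∀ z, (k : ℂ) • N z = (q : ℂ) • z := fun z ↦ by
    have h1 : (k : ℂ) • φ (N (ψ (φ z))) = _ := hq (φ z)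
    have h2 := cd_smul (hφ (N z)) k
    have h3 := cd_smul (hφ z) q
    rw [e1] at h1
    rw [map_intCast] at h2 h3
    exact cd_left hg (h1 ▸ h2) h3
  obtain ⟨a, b, e3⟩ := hN _ ⟨(1, 0), (0, 0), rfl⟩
  have e4 := (MENC.iv_inj (th_HERM.per_inj τ hx.1 (iv (k • a)) (iv (k • b)) (iv (q, 0)) (iv (0, 0))
    (MENC.iv_im _ _ _ _) (by
      have := e2 (per τ (iv (1, 0)) (iv (0, 0)))
      rw [e3] at this
      convert this using 1 <;> funext i <;> fin_cases i <;> simp [per, iv] <;> ring)).1).1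
  refine ⟨a.1 + n, fun z ↦ smul_right_injective V2 (Int.cast_ne_zero.2 k0 : (k : ℂ) ≠ 0) ?_⟩
  have e5 := e2 z
  simp only [Prod.smul_fst, smul_eq_mul] at e4
  simp only [eN, ← e4, LinearMap.sub_apply, LinearMap.smul_apply, LinearMap.id_apply,
    Int.cast_mul] at e5
  simp only [Int.cast_add]
  linear_combination (norm := module) e5

end Pool.Agent.Lib.ECM
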