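import Pool.Agent.Lib.ECM.M_CONJ

/-! Row LINE of the master blueprint. -/

open Complex Filter Topology PeriodPair UpperHalfPlane
open scoped Real

namespace Pool.Agent.Lib.ECM

open Pool.Agent.Lib.ZP3 Pool.Agent.Lib.ZP3.WDE Pool.Agent.Lib.MP_0704bf_ag CJ

theorem Line.one {τ : T3} {v : V2} {τ0 : ℍ} (h : Line τ v τ0) : v ∈ Lat τ := by
  simpa using (h.2 1).2 ⟨1, 0, by simp⟩

theorem Line.tau {τ : T3} {v : V2} {τ0 : ℍ} (h : Line τ v τ0) : (τ0 : ℂ) • v ∈ Lat τ :=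
  (h.2 _).2 ⟨0, 1, by simp⟩

namespace XLINE

theorem exists_fd (L : PeriodPair) :
    ∃ τ ∈ ModularGroup.fd, ∃ (Ω : ℂ) (h : Ω ≠ 0), (pp τ h).lattice = L.lattice := by
  obtain ⟨τ1, Ω1, h1, e⟩ := exists_pp L
  obtain ⟨τ, hfd, hj⟩ := j_surj (jInv τ1)
  obtain ⟨Ω, h, a, b⟩ := unif (σ := RingHom.id ℂ) hj h1
  exact ⟨τ, hfd, Ω, h, e ▸ le_antisymm (lattice_mono (σ := RingHom.id ℂ) rfl rfl a.symm b.symm le_rfl)
    (lattice_mono (σ := RingHom.id ℂ) rfl rfl a b le_rfl)⟩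

theorem ex (H : TH) (τ : T3) (hτ : τ ∈ H2) (v : V2) (t : ℂ) (hv : v ≠ 0) (ht : t.im ≠ 0)
    (h1 : v ∈ Lat τ) (h2 : t • v ∈ Lat τ) :
    ∃ (c : ℂ) (τ0 : ℍ), τ0 ∈ ModularGroup.fd ∧ Line τ (c • v) τ0 := by
  obtain ⟨s, hs⟩ : ∃ s : ℍ, (s : ℂ) • v ∈ Lat τ := by
    rcases lt_or_gt_of_ne ht with h | h
    · exact ⟨⟨-t, by simpa using h⟩, (grp H τ v).neg_mem (x := t) h2⟩
    · exact ⟨⟨t, h⟩, h2⟩
  obtain ⟨M, hM⟩ := exists_lattice (grp H τ v) (pp s one_ne_zero)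
    (pp_le H one_ne_zero (by simpa using h1) (by simpa using hs)) (grp_sep H hτ hv)
  obtain ⟨τ0, hfd, Ω, h, e⟩ := exists_fd M
  refine ⟨Ω, τ0, hfd, smul_ne_zero h hv, fun z ↦ ?_⟩
  rw [smul_smul]
  refine (hM (z * Ω)).symm.trans ?_
  rw [← e, mem_pp]
  exact exists₂_congr fun m n ↦ by rw [mul_comm, mul_right_inj' h]

theorem cm (H : TH) (τ : T3) (hτ : τ ∈ H2) :
    HasCM τ ↔ ∃ (v : V2) (τ0 : ℍ), τ0 ∈ ModularGroup.fd ∧ Line τ v τ0 ∧ IsCM τ0 := by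
  constructor
  · rintro ⟨v, t, A, B, C, hv, ht, hA, hq, h1, h2⟩
    obtain ⟨c, τ0, hfd, hl⟩ := ex H τ hτ v t hv ht h1 h2
    have hc : c ≠ 0 := left_ne_zero_of_smul hl.1
    obtain ⟨a, b, e1⟩ := (hl.2 c⁻¹).1 (by rwa [inv_smul_smul₀ hc])
    obtain ⟨a', b', e2⟩ := (hl.2 (t * c⁻¹)).1 (by rwa [mul_smul, inv_smul_smul₀ hc])
    refine ⟨_, τ0, hfd, hl, A * b' ^ 2 + B * b' * b + C * b ^ 2,
      2 * A * a' * b' + B * (a' * b + b' * a) + 2 * C * a * b, A * a' ^ 2 + B * a' * a + C * a ^ 2,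
      fun h ↦ ?_, ?_⟩
    · have h' : (A : ℂ) * b' ^ 2 + B * b' * b + C * b ^ 2 = 0 := by exact_mod_cast h
      have h3 : (b * t - b') * (A * (b * t + b') + B * b) = 0 := by
        linear_combination (b : ℂ) ^ 2 * hq - h'
      have hb : b = 0 := by
        rcases mul_eq_zero.1 h3 with h4 | h4
        · simpa [ht] using congrArg Complex.im h4
        · simpa [ht, hA] using congrArg Complex.im h4
      subst hb
      have hb' : b' = 0 := by simpa [hA] using h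
      subst hb'
      rw [e1] at e2
      have ha : a ≠ 0 := fun h ↦ inv_ne_zero hc (by simp [e1, h])
      simpa [ht, ha] using congrArg Complex.im e2
    · rw [e1] at e2
      push_cast
      linear_combination ((a : ℂ) + b * τ0) ^ 2 * hq -
        (A * (t * (a + b * τ0) + (a' + b' * τ0)) + B * (a + b * τ0)) * e2
  · rintro ⟨v, τ0, -, hl, a, b, c, ha, h⟩
    exact ⟨v, τ0, a, b, c, hl.1, τ0.im_pos.ne', ha, h, hl.one, hl.tau⟩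

theorem symp (H : TH) {τ : T3} (hτ : τ ∈ H2) {v : V2} {τ0 : ℍ} (hl : Line τ v τ0) :
    ∃ m n m' n' : ℤ × ℤ, v = per τ (iv m) (iv n) ∧ (τ0 : ℂ) • v = per τ (iv m') (iv n') ∧
      0 < m.1 * n'.1 + m.2 * n'.2 - n.1 * m'.1 - n.2 * m'.2 ∧
      NN τ v τ0 = ((m.1 * n'.1 + m.2 * n'.2 - n.1 * m'.1 - n.2 * m'.2 : ℤ) : ℝ) := by
  obtain ⟨m, n, e⟩ := hl.one
  obtain ⟨m', n', e'⟩ := hl.tau
  have h := H.herm.symp τ hτ τ0 m n m' n' (by rw [← e, e'])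
  rw [← e] at h
  have hp := mul_pos τ0.im_pos (H.herm.pos τ hτ v hl.1)
  exact ⟨m, n, m', n', e, e', by exact_mod_cast hp.trans_eq h, h⟩

theorem sing (H : TH) (τ : T3) (hτ : τ ∈ H2) (v : V2) (τ0 : ℍ) (hl : Line τ v τ0) : Sing τ := by
  obtain ⟨⟨m1, m2⟩, ⟨n1, n2⟩, ⟨m1', m2'⟩, ⟨n1', n2'⟩, e, e', hp, -⟩ := symp H hτ hl
  refine ⟨n1 * m2' - m2 * n1', m1 * n1' + n2 * m2' - m2 * n2' - n1 * m1', m1 * n2' - n2 * m1',
    n2 * n1' - n1 * n2', m1 * m2' - m2 * m1', fun ⟨a, b, c, d, f⟩ ↦ ?_, ?_⟩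
  · have : (m1 * n1' - n1 * m1') ^ 2 = 0 := by
      linear_combination (m1 * n1' - n1 * m1') * b - (n2 * n1' - n1 * n2') * f -
        (n1 * m2' - m2 * n1') * c
    have := pow_eq_zero_iff two_ne_zero |>.1 this
    simp only at hp
    omega
  · have a0 := congrFun e 0
    have a1 := congrFun e 1
    have b0 := congrFun e' 0
    have b1 := congrFun e' 1
    simp only [per, iv, Pi.smul_apply, smul_eq_mul, Matrix.cons_val_zero, Matrix.cons_val_one]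
      at a0 a1 b0 b1
    push_cast
    linear_combination ((m2 : ℂ) + τ 1 * n1 + τ 2 * n2) * b0 - ((m1 : ℂ) + τ 0 * n1 + τ 1 * n2) * b1 +
      τ0 * v 0 * a1 - τ0 * v 1 * a0

theorem same (H : TH) (τ : T3) (v : V2) (τ0 : ℍ) (t : ℂ) (τ0' : ℍ) (hl : Line τ v τ0)
    (hl' : Line τ (t • v) τ0') : NN τ (t • v) τ0' = NN τ v τ0 ∧ jInv τ0' = jInv τ0 ∧
      ∀ Ω Ω', Nrm τ0 Ω → Nrm τ0' Ω' → (t * Ω / Ω') ^ 12 = 1 := by
  have ht : t ≠ 0 := left_ne_zero_of_smul hl'.1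
  have hπ : (π : ℂ) ≠ 0 := ofReal_ne_zero.2 Real.pi_ne_zero
  have e : (pp τ0' ht).lattice = (pp τ0 one_ne_zero).lattice := by
    ext w
    simp only [mem_pp, one_mul, ← hl.2]
    rw [← inv_smul_smul₀ ht v, smul_smul, hl'.2]
    exact exists₂_congr fun m n ↦ by rw [mul_inv_eq_iff_eq_mul₀ ht, mul_comm]
  have g2 : (pp τ0' ht).g₂ = (pp τ0 one_ne_zero).g₂ := by rw [g₂, g₂, G_congr e]
  have g3 : (pp τ0' ht).g₃ = (pp τ0 one_ne_zero).g₃ := by rw [g₃, g₃, G_congr e]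
  have hj := j_conj (σ := RingHom.id ℂ) g2 g3
  have hd : ModularForm.discriminant τ0' = t ^ 12 * ModularForm.discriminant τ0 := by
    have := disc_pp τ0' ht
    rw [g2, g3, disc_pp] at this
    field_simp at this
    exact this.symm.trans (mul_comm _ _)
  refine ⟨?_, hj, fun Ω Ω' h h' ↦ ?_⟩
  · have h1 := Isog.norm (N := 1) (U := 1) (x := jInv τ0) (y := jInv τ0)
      ⟨τ0, τ0, 1, 0, 0, 1, by simp, rfl, rfl, by simp [Mob], by simp⟩ (τ' := τ0') rfl hj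
    simp only [del, hd, norm_one, one_mul, Nat.cast_one, one_pow, norm_mul, norm_pow] at h1
    have h2 : (τ0'.im * ‖t‖ ^ 2) ^ 6 = τ0.im ^ 6 :=
      mul_right_cancel₀ (norm_ne_zero_iff.2 (ModularForm.discriminant_ne_zero τ0))
        (by linear_combination -h1)
    have := τ0'.im_pos
    rw [NN, NN, H.herm.smul, normSq_eq_norm_sq, ← mul_assoc,
      (pow_left_inj₀ (by positivity) τ0.im_pos.le (by norm_num)).1 h2]
  · have := h'.ne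
    unfold Nrm at h h'
    rw [hd] at h'
    field_simp
    linear_combination (t ^ 12 * h - h') / 12 ^ 6

theorem nrm (τ0 : ℍ) : (∃ Ω, Nrm τ0 Ω) ∧ ∀ Ω, Nrm τ0 Ω → Ω ≠ 0 ∧ gg2 τ0 Ω ^ 3 = 1728 * jInv τ0 ∧
    gg3 τ0 Ω ^ 2 = 64 * (jInv τ0 - 1728) := by
  refine ⟨?_, fun Ω h ↦ ?_⟩
  · obtain ⟨Ω, h⟩ := IsAlgClosed.exists_pow_nat_eq
      ((2 * π) ^ 12 * ModularForm.discriminant τ0 / 12 ^ 6) (n := 12) (by norm_num)
    exact ⟨Ω, by rw [Nrm, h]; ring⟩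
  · have h1 := (nrm_iff h.ne).1 h
    have h2 := j_pp τ0 h.ne
    rw [h1] at h2
    rw [gg2, gg3, ← g2_pp τ0 h.ne, ← g3_pp τ0 h.ne]
    exact ⟨h.ne, by linear_combination -h2 / 1728, by linear_combination -h1 / 27 - h2 / 46656⟩

theorem map (τ τ' : T3) (M : V2 →ₗ[ℂ] V2) (hM : Function.Bijective M)
    (h : ∀ z, M z ∈ Lat τ' ↔ z ∈ Lat τ) :
    (∀ v τ0, Line τ v τ0 → Line τ' (M v) τ0) ∧ (SqCM τ ↔ SqCM τ') ∧ (HasCM τ ↔ HasCM τ') := by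
  have h0 : ∀ v, M v ≠ 0 ↔ v ≠ 0 := fun v ↦ (map_eq_zero_iff M hM.1).not
  refine ⟨fun v τ0 hl ↦ ⟨(h0 v).2 hl.1, fun z ↦ by rw [← map_smul, h, hl.2]⟩,
    exists_congr fun a ↦ and_congr_right fun _ ↦ ?_, ?_⟩
  · simp only [hM.2.forall (p := fun z ↦ z ∈ Lat τ' → a • z ∈ Lat τ'), ← map_smul, h]
  · unfold HasCM
    rw [hM.2.exists (p := fun v ↦ ∃ (t : ℂ) (a b c : ℤ), v ≠ 0 ∧ t.im ≠ 0 ∧ a ≠ 0 ∧
      a * t ^ 2 + b * t + c = 0 ∧ v ∈ Lat τ' ∧ t • v ∈ Lat τ')]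
    simp only [h0, ← map_smul, h]

end XLINE

theorem st_LINE (H : TH) : St_LINE where
  ex := XLINE.ex H
  cm := XLINE.cm H
  nat τ hτ v τ0 hl := by
    obtain ⟨m, n, m', n', -, -, hp, e⟩ := XLINE.symp H hτ hl
    obtain ⟨N, hN⟩ := Int.eq_ofNat_of_zero_le hp.le
    exact ⟨N, by omega, by rw [e, hN, Int.cast_natCast]⟩
  sing := XLINE.sing H
  same τ _ := XLINE.same H τ
  nrm := XLINE.nrm
  map := XLINE.map

end Pool.Agent.Lib.ECM
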