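import Pool.Agent.Lib.ECM.TH_All
import Pool.Agent.Lib.ECM.G4B
import Pool.Agent.Lib.ECM.M_ADD2
import Pool.Agent.Lib.ECM.M_SGN
import Pool.Agent.Lib.ECM.M_OPEN
import Pool.Agent.Lib.ECM.M_SURJ
import Pool.Agent.Lib.ECM.M_EQN
import Pool.Agent.Lib.ECM.M_FINZ
import Pool.Agent.Lib.ECM.M_ENC
import Pool.Agent.Lib.ECM.M_G3
import Pool.Agent.Lib.ECM.M_SINV
import Pool.Agent.Lib.ECM.M_CF
import Pool.Agent.Lib.ECM.M_BR
import Pool.Agent.Lib.ECM.M_PUI
import Pool.Agent.Lib.helper6.Dim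

/-! The hypotheses of the main theorem are satisfiable: the curve `(12 : 12 u : 4 u : 5 u²)` in the
second order theta constants. -/

open Complex Filter Topology Metric
open scoped Real

noncomputable section

namespace Pool.Agent.Lib.ECM

namespace MNV

/-- twice the summation vector -/
def PQ (a b : ℤ) (n : ℤ × ℤ) : ℤ × ℤ := (2 * n.1 + a, 2 * n.2 + b)

/-- exponents relative to the leading term -/
def ee (a b : ℤ) (n : ℤ × ℤ) (i : Fin 3) : ℕ := (ex (PQ a b n) i - ex (a, -b) i).toNat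

/-- the second order theta constants divided by their leading monomials -/
def E (a b : ℤ) (x : T3) : ℂ := ∑' n, mon (ee a b n) x

theorem sq_le {a : ℤ} (ha : a = 0 ∨ a = 1) (n : ℤ) : a ^ 2 ≤ (2 * n + a) ^ 2 := by
  rcases ha with rfl | rfl <;> nlinarith [XNUM.le_sq n, sq_nonneg n]

theorem ee_add {a b : ℤ} (ha : a = 0 ∨ a = 1) (hb : b = 0 ∨ b = 1) (n : ℤ × ℤ) (i : Fin 3) :
    ee a b n i + (ex (a, -b) i).toNat = (ex (PQ a b n) i).toNat := by
  have h1 := sq_le ha n.1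
  have h2 := sq_le hb n.2
  have h : 0 ≤ ex (a, -b) i ∧ ex (a, -b) i ≤ ex (PQ a b n) i := by
    fin_cases i
    · change 0 ≤ a ^ 2 + a * -b + (-b) ^ 2 ∧ a ^ 2 + a * -b + (-b) ^ 2 ≤
        (2 * n.1 + a) ^ 2 + (2 * n.1 + a) * (2 * n.2 + b) + (2 * n.2 + b) ^ 2
      generalize 2 * n.1 + a = X at *
      generalize 2 * n.2 + b = Y at *
      have k1 : 3 * Y ^ 2 ≤ 4 * (X ^ 2 + X * Y + Y ^ 2) := by nlinarith [sq_nonneg (2 * X + Y)]
      have k2 : 3 * X ^ 2 ≤ 4 * (X ^ 2 + X * Y + Y ^ 2) := by nlinarith [sq_nonneg (X + 2 * Y)]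
      generalize X ^ 2 + X * Y + Y ^ 2 = Z at *
      generalize X ^ 2 = U at *
      generalize Y ^ 2 = V at *
      rcases ha with rfl | rfl <;> rcases hb with rfl | rfl <;> norm_num at * <;> omega
    · change 0 ≤ a ^ 2 + (-b) ^ 2 ∧ a ^ 2 + (-b) ^ 2 ≤ (2 * n.1 + a) ^ 2 + (2 * n.2 + b) ^ 2
      exact ⟨by positivity, by linarith [neg_sq b]⟩
    · change 0 ≤ (-b) ^ 2 ∧ (-b) ^ 2 ≤ (2 * n.2 + b) ^ 2
      exact ⟨by positivity, by linarith [neg_sq b]⟩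
  rw [ee]
  omega

theorem cdE {a b : ℤ} (ha : a = 0 ∨ a = 1) (hb : b = 0 ∨ b = 1) : ContDiffOn ℂ 1 (E a b) Om := by
  have h := (th_SER (fun _ ↦ 1) (ee a b) (fun _ ↦ by simp) fun R h1 h2 ↦ ?_).1
  · simp only [one_mul] at h
    exact h
  have c : ∀ i, Tendsto (fun ε : ℝ ↦ R i + ε) (𝓝[>] 0) (𝓝 (R i)) := fun i ↦ by
    simpa using (tendsto_nhdsWithin_of_tendsto_nhds (a := (0 : ℝ)) tendsto_id).const_add (R i)
  obtain ⟨ε, ⟨e1, e2⟩, e0⟩ := (((eventually_all.2 fun i ↦ (c i).eventually_lt_const (h1 i).2).and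
    (((c 0).mul (c 1)).eventually_lt_const h2)).and self_mem_nhdsWithin).exists
  have p : ∀ i, 0 < R i + ε := fun i ↦ add_pos_of_nonneg_of_pos (h1 i).1 e0
  have s := ((th_NUM.conv (fun i ↦ R i + ε) (fun i ↦ ⟨(p i).le, e1 i⟩) e2).1.comp_injective
    (i := PQ a b) fun n n' h ↦ by
      simp only [PQ, Prod.mk.injEq] at h
      exact Prod.ext (by omega) (by omega)).mul_right
    (((R 0 + ε) ^ (ex (a, -b) 0).toNat * (R 1 + ε) ^ (ex (a, -b) 1).toNat *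
      (R 2 + ε) ^ (ex (a, -b) 2).toNat)⁻¹)
  have r0 := (h1 0).1
  have r1 := (h1 1).1
  have r2 := (h1 2).1
  have p0 := p 0
  have p1 := p 1
  have p2 := p 2
  refine s.of_nonneg_of_le (fun n ↦ by positivity) fun n ↦ ?_
  simp only [Function.comp, ← ee_add ha hb n, pow_add]
  refine le_of_le_of_eq (b := (R 0 + ε) ^ ee a b n 0 * (R 1 + ε) ^ ee a b n 1 *
    (R 2 + ε) ^ ee a b n 2) ?_ (by field_simp)
  have e0' : (0 : ℝ) < ε := e0
  gcongr <;> linarith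

theorem f2_eq (τ : T3) (s : Z2) : f2 τ s =
    mon (fun i ↦ (ex ((s.1.val : ℤ), -(s.2.val : ℤ)) i).toNat) (xq fun i ↦ 2 * τ i) *
      E s.1.val s.2.val (xq fun i ↦ 2 * τ i) := by
  have v : ∀ a : ZMod 2, (a.val : ℤ) = 0 ∨ (a.val : ℤ) = 1 := by decide
  rw [E, ← tsum_mul_left]
  refine tsum_congr fun n ↦ ?_
  rw [XKAP.PP_eq, th_XQ.term]
  change mon (fun i ↦ (ex (PQ s.1.val s.2.val n) i).toNat) _ = _
  simp only [mon, ← ee_add (v _) (v _) n, pow_add]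
  ring

theorem E_zero {a b : ℤ} (ha : a = 0 ∨ a = 1) (hb : b = 0 ∨ b = 1) {x : T3} (hx : x 1 = 0) :
    E a b x = mon (ee a b (0, 0)) x + mon (ee a b (0, -1)) x +
      (mon (ee a b (-1, 0)) x + mon (ee a b (-1, -1)) x) := by
  rw [E, tsum_eq_sum (s := ({0, -1} : Finset ℤ) ×ˢ ({0, -1} : Finset ℤ)), Finset.sum_product,
    Finset.sum_pair (by decide), Finset.sum_pair (by decide), Finset.sum_pair (by decide)]
  intro n hn
  have k : ∀ a n : ℤ, a = 0 ∨ a = 1 → n ≠ 0 → n ≠ -1 → a ^ 2 < (2 * n + a) ^ 2 := by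
    intro a n ha h1 h2
    have : 1 ≤ n ∨ n ≤ -2 := by omega
    rcases ha with rfl | rfl <;> rcases this with h | h <;> nlinarith
  have h : ee a b n 1 ≠ 0 := by
    have h1 := sq_le ha n.1
    have h2 := sq_le hb n.2
    have e : ee a b n 1 =
      ((2 * n.1 + a) ^ 2 + (2 * n.2 + b) ^ 2 - (a ^ 2 + (-b) ^ 2)).toNat := rfl
    simp only [Finset.mem_product, Finset.mem_insert, Finset.mem_singleton, not_and_or,
      not_or] at hn
    rw [e, neg_sq]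
    rcases hn with h | h
    · have := k a n.1 ha h.1 h.2
      omega
    · have := k b n.2 hb h.1 h.2
      omega
  rw [mon, hx, zero_pow h, mul_zero, zero_mul]

theorem E_val {x : T3} (hx : x 1 = 0) :
    E 0 0 x = 1 ∧ E 1 0 x = 2 ∧ E 0 1 x = 2 ∧ E 1 1 x = 2 + 2 * x 0 ^ 2 := by
  rw [E_zero (.inl rfl) (.inl rfl) hx, E_zero (.inr rfl) (.inl rfl) hx,
    E_zero (.inl rfl) (.inr rfl) hx, E_zero (.inr rfl) (.inr rfl) hx]
  simp [mon, ee, ex, PQ, hx]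
  exact ⟨by norm_num, by ring⟩

/-- the base point at the cusp -/
def pt : T3 := ![1 / 2, 0, 1 / 3]

theorem pt_mem : Om ∈ 𝓝 pt := th_XQ.isOpen.mem_nhds ⟨fun i ↦ by
  fin_cases i <;> norm_num [pt], by norm_num [pt]⟩

theorem cd {a b : ℤ} (ha : a = 0 ∨ a = 1) (hb : b = 0 ∨ b = 1) : ContDiffAt ℂ 1 (E a b) pt :=
  (cdE ha hb).contDiffAt pt_mem

/-- the local coordinates -/
def G (x : T3) : T3 := ![4 * (E 1 1 x * E 0 0 x) - 5 * (x 0 * (E 1 0 x * E 0 1 x)),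
  x 1 * (x 0 * E 1 0 x / E 0 0 x), 3 * (x 2 * E 0 1 x) - E 1 0 x]

theorem cdH : ContDiffAt ℂ 1 (fun x : T3 ↦ x 0 * E 1 0 x / E 0 0 x) pt :=
  ((contDiffAt_apply ℂ ℂ 0 pt).mul (cd (.inr rfl) (.inl rfl))).div (cd (.inl rfl) (.inl rfl))
    (by rw [(E_val rfl).1]; exact one_ne_zero)

theorem cdG : ContDiffAt ℂ 1 G pt := by
  have p : ∀ i, ContDiffAt ℂ 1 (fun y : T3 ↦ y i) pt := fun i ↦ contDiffAt_apply ℂ ℂ i pt
  refine contDiffAt_pi.2 fun i ↦ ?_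
  fin_cases i
  · exact (contDiffAt_const.mul ((cd (.inr rfl) (.inr rfl)).mul (cd (.inl rfl) (.inl rfl)))).sub
      (contDiffAt_const.mul ((p 0).mul ((cd (.inr rfl) (.inl rfl)).mul (cd (.inl rfl) (.inr rfl)))))
  · exact (p 1).mul cdH
  · exact (contDiffAt_const.mul ((p 2).mul (cd (.inl rfl) (.inr rfl)))).sub
      (cd (.inr rfl) (.inl rfl))

theorem ker (v : T3) (hv : fderiv ℂ G pt v = 0) : v = 0 := by
  have ln : HasDerivAt (fun t : ℂ ↦ pt + t • v) v 0 := by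
    simpa using ((hasDerivAt_id (0 : ℂ)).smul_const v).const_add pt
  have x0 : pt = pt + (0 : ℂ) • v := by simp
  have dP : HasDerivAt (fun t : ℂ ↦ G (pt + t • v)) (fderiv ℂ G pt v) 0 :=
    (cdG.differentiableAt one_ne_zero).hasFDerivAt.comp_hasDerivAt_of_eq 0 ln x0
  rw [hv] at dP
  have dc := hasDerivAt_pi.1 dP
  have dx := hasDerivAt_pi.1 ln
  have e1 := (dc 1).unique ((dx 1).mul
    ((cdH.differentiableAt one_ne_zero).hasFDerivAt.comp_hasDerivAt_of_eq 0 ln x0))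
  have v1 : v 1 = 0 := by
    have E0 := E_val (x := pt) rfl
    simp only [zero_smul, add_zero, Pi.zero_apply, E0.1, E0.2.1] at e1
    simpa [pt] using e1.symm
  have k : ∀ t : ℂ, (pt + t • v) 1 = 0 := fun t ↦ by simp [pt, v1]
  have e0 := (dc 0).unique ((((((dx 0).pow 2).const_mul 8).const_add 8).sub
    ((dx 0).const_mul 20)).congr_of_eventuallyEq (Eventually.of_forall fun t ↦ by
      obtain ⟨a, b, c, d⟩ := E_val (k t)
      simp only [G, a, b, c, d, Matrix.cons_val_zero, Pi.sub_apply, Pi.pow_apply]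
      ring))
  have e2 := (dc 2).unique ((((dx 2).const_mul 6).sub_const 2).congr_of_eventuallyEq
    (Eventually.of_forall fun t ↦ by
      obtain ⟨a, b, c, d⟩ := E_val (k t)
      simp only [G, b, c, Matrix.cons_val]
      ring))
  simp [pt] at e0 e2
  funext i
  fin_cases i
  · change v 0 = 0
    linear_combination (1 / 12) * e0
  · exact v1
  · exact e2

theorem sol : ∃ X : ℂ → T3, AnalyticAt ℂ X 0 ∧ X 0 = pt ∧
    ∀ᶠ u in 𝓝 (0 : ℂ), G (X u) = ![0, u, 0] := by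
  have hi : Function.Injective (fderiv ℂ G pt : T3 →ₗ[ℂ] T3) :=
    (injective_iff_map_eq_zero _).2 ker
  have hL : HasFDerivAt G ((LinearEquiv.ofInjectiveEndo _ hi).toContinuousLinearEquiv :
      T3 →L[ℂ] T3) pt :=
    (cdG.differentiableAt one_ne_zero).hasFDerivAt.congr_fderiv
      (ContinuousLinearMap.ext fun _ ↦ rfl)
  have h1 : (1 : WithTop ℕ∞) ≠ 0 := one_ne_zero
  have G0 : G pt = ![0, 0, 0] := by
    obtain ⟨a, b, c, d⟩ := E_val (x := pt) rfl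
    rw [G, a, b, c, d]
    simp only [pt, Matrix.cons_val]
    norm_num
  have an : AnalyticAt ℂ (fun u : ℂ ↦ (![0, u, 0] : T3)) 0 := analyticAt_pi_iff.2 fun i ↦ by
    fin_cases i
    exacts [analyticAt_const, analyticAt_id, analyticAt_const]
  refine ⟨fun u ↦ cdG.localInverse hL h1 ![0, u, 0],
    XLOC.anal_comp (X := fun u ↦ ![0, u, 0]) (G0 ▸ cdG.to_localInverse hL h1) an,
    (congrArg _ G0.symm).trans (cdG.localInverse_apply_image hL h1), ?_⟩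
  have h := (cdG.hasStrictFDerivAt' hL h1).eventually_right_inverse
  rw [G0] at h
  exact an.continuousAt.tendsto.eventually h

/-- the curve in the second order theta constants -/
def gv (u : ℂ) (s : Z2) : ℂ :=
  if s.1 = 0 then (if s.2 = 0 then 12 else 4 * u) else (if s.2 = 0 then 12 * u else 5 * u ^ 2)

theorem z2 : ∀ a : ZMod 2, a = 0 ∨ a = 1 := by decide

theorem arc : ∃ (r : ℝ) (L : Fin 3 → ℂ → ℂ), 0 < r ∧ (∀ i, AnalyticOnNhd ℂ (L i) (ball 0 r)) ∧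
    L 0 0 = -Real.log 2 ∧ L 2 0 = -Real.log 3 ∧ ∀ u ∈ ball (0 : ℂ) r, ∀ τ : T3,
      (xq fun i ↦ 2 * τ i) = ![exp (L 0 u), u * exp (L 1 u), exp (L 2 u)] →
        τ ∈ H2 ∧ ∃ c, ∀ s, f2 τ s = c * gv u s := by
  obtain ⟨X, hX, h0, hG⟩ := sol
  obtain ⟨a, b, -⟩ := E_val (x := pt) rfl
  have aE : ∀ {a b : ℤ}, a = 0 ∨ a = 1 → b = 0 ∨ b = 1 → AnalyticAt ℂ (fun u ↦ E a b (X u)) 0 :=
    fun ha hb ↦ XLOC.anal_comp (h0 ▸ cd ha hb) hX
  have aX := analyticAt_pi_iff.1 hX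
  have aH : AnalyticAt ℂ (fun u ↦ X u 0 * E 1 0 (X u)) 0 := (aX 0).mul (aE (.inr rfl) (.inl rfl))
  have H0 : X 0 0 * E 1 0 (X 0) = 1 := by
    rw [h0, b]
    norm_num [pt]
  let Y : Fin 3 → ℂ → ℂ := ![fun u ↦ X u 0, fun u ↦ E 0 0 (X u) / (X u 0 * E 1 0 (X u)),
    fun u ↦ X u 2]
  have aY : ∀ i, AnalyticAt ℂ (Y i) 0 := fun i ↦ by
    fin_cases i
    exacts [aX 0, (aE (.inl rfl) (.inl rfl)).div aH (H0 ▸ one_ne_zero), aX 2]
  have Y0 : ∀ i, Y i 0 = (![(2 : ℝ)⁻¹, 1, (3 : ℝ)⁻¹] i : ℝ) := fun i ↦ by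
    fin_cases i
    · simp [Y, h0, pt]
    · simp only [Y, Fin.mk_one, Matrix.cons_val, H0]
      simp [h0, a]
    · simp [Y, h0, pt]
  have sl : ∀ i, Y i 0 ∈ slitPlane := fun i ↦ by
    rw [Y0, ofReal_mem_slitPlane]
    fin_cases i <;> norm_num
  have ev := ((((eventually_all.2 fun i ↦ ((aY i).clog (sl i)).eventually_analyticAt.and
    ((aY i).continuousAt.eventually_ne (slitPlane_ne_zero (sl i)))).and hG).and
    (hX.continuousAt.eventually_mem (h0 ▸ pt_mem))).and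
    (aH.continuousAt.eventually_ne (H0 ▸ one_ne_zero : _ ≠ (0 : ℂ))))
  obtain ⟨r, hr, hb⟩ := eventually_nhds_iff_ball.1 ev
  refine ⟨r, fun i u ↦ log (Y i u), hr, fun i u hu ↦ ((hb u hu).1.1.1 i).1, ?_, ?_,
    fun u hu τ hτ ↦ ?_⟩
  · simp only [Y0, Matrix.cons_val]
    rw [← ofReal_log (by norm_num), Real.log_inv, ofReal_neg]
  · simp only [Y0, Matrix.cons_val]
    rw [← ofReal_log (by norm_num), Real.log_inv, ofReal_neg]
  obtain ⟨⟨⟨h1, h2⟩, h3⟩, h4⟩ := hb u hu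
  simp only [exp_log (h1 _).2] at hτ
  have g0 : 4 * (E 1 1 (X u) * E 0 0 (X u)) - 5 * (X u 0 * (E 1 0 (X u) * E 0 1 (X u))) = 0 :=
    congrFun h2 0
  have g1 : X u 1 * (X u 0 * E 1 0 (X u) / E 0 0 (X u)) = u := congrFun h2 1
  have g2 : 3 * (X u 2 * E 0 1 (X u)) - E 1 0 (X u) = 0 := congrFun h2 2
  have n0 : E 0 0 (X u) ≠ 0 := (div_ne_zero_iff.1 (h1 1).2).1
  rw [← mul_div_assoc, div_eq_iff n0] at g1
  have hx : (xq fun i ↦ 2 * τ i) = X u := by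
    rw [hτ]
    funext i
    fin_cases i
    · rfl
    · change u * (E 0 0 (X u) / (X u 0 * E 1 0 (X u))) = X u 1
      rw [mul_div_assoc', div_eq_iff h4, g1]
    · rfl
  have hH := th_XQ.om _ (hx ▸ h3)
  refine ⟨⟨?_, ?_⟩, E 0 0 (X u) / 12, fun s ↦ ?_⟩
  · simpa using hH.1
  · have := hH.2
    simp at this
    linarith
  rw [f2_eq, hx]
  obtain ⟨s, t⟩ := s
  rcases z2 s with rfl | rfl <;> rcases z2 t with rfl | rfl <;>
    simp [mon, ex, gv, ZMod.val_one]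
  · linear_combination (X u 0 * X u 1 / 3) * g2 + g1 / 3
  · linear_combination g1
  · refine mul_left_cancel₀ n0 ?_
    linear_combination (X u 0 * X u 1 ^ 2 * X u 2 / 4) * g0 +
      (5 / 12 * (X u 0 * X u 1) ^ 2 * E 1 0 (X u)) * g2 +
      (5 / 12 * (X u 0 * X u 1 * E 1 0 (X u) + u * E 0 0 (X u))) * g1

theorem logs {a b c : ℤ} (h : a * (-(Real.log 2 : ℂ) / (π * I)) +
    b * (2 * -(Real.log 3 : ℂ) / (π * I)) = c) : a = 0 ∧ b = 0 ∧ c = 0 := by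
  have hp : (π : ℂ) * I ≠ 0 := mul_ne_zero (ofReal_ne_zero.2 Real.pi_ne_zero) I_ne_zero
  have e : ((-(a * Real.log 2 + (2 * b : ℤ) * Real.log 3) : ℝ) : ℂ) = ((c * π : ℝ) : ℂ) * I := by
    push_cast at h ⊢
    field_simp at h
    linear_combination h
  have e1 := congrArg re e
  have e2 := congrArg im e
  rw [ofReal_re, re_ofReal_mul, I_re, mul_zero, neg_eq_zero, ← Real.log_zpow, ← Real.log_zpow,
    ← Real.log_mul (by positivity) (by positivity)] at e1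
  rw [ofReal_im, im_ofReal_mul, I_im, mul_one] at e2
  have e3 : (2 : ℚ) ^ a * 3 ^ (2 * b) = 1 := Rat.cast_injective (α := ℝ) (by
    push_cast
    exact Real.eq_one_of_pos_of_log_eq_zero (by positivity) e1)
  have v := fun (p : ℕ) [Fact p.Prime] ↦ (padicValRat.mul (p := p) (q := (2 : ℚ) ^ a)
    (r := 3 ^ (2 * b)) (by positivity) (by positivity)).symm.trans (congrArg (padicValRat p) e3)
  have v2 := v 2
  have v3 := v 3
  have a1 : padicValRat 2 2 = 1 := padicValRat.self (p := 2) (by norm_num)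
  have a2 : padicValRat 3 3 = 1 := padicValRat.self (p := 3) (by norm_num)
  have a3 : padicValRat 2 3 = 0 := by
    rw [show (3 : ℚ) = (3 : ℕ) from rfl, padicValRat.of_nat,
      padicValNat.eq_zero_of_not_dvd (by norm_num)]
    rfl
  have a4 : padicValRat 3 2 = 0 := by
    rw [show (2 : ℚ) = (2 : ℕ) from rfl, padicValRat.of_nat,
      padicValNat.eq_zero_of_not_dvd (by norm_num)]
    rfl
  simp only [padicValRat.zpow, padicValRat.one, a1, a2, a3, a4] at v2 v3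
  refine ⟨by omega, by omega, ?_⟩
  exact_mod_cast (mul_eq_zero.1 e2.symm).resolve_right Real.pi_ne_zero

theorem eqE_iff (R : Matrix (Fin 4) (Fin 4) ℤ) (τ : T3) : EqE R τ ↔
    (τ 0 * (R 0 0 + τ 0 * R 2 0 + τ 1 * R 3 0) + τ 1 * (R 0 1 + τ 0 * R 2 1 + τ 1 * R 3 1) -
      (R 0 2 + τ 0 * R 2 2 + τ 1 * R 3 2) = 0 ∧
    τ 0 * (R 1 0 + τ 1 * R 2 0 + τ 2 * R 3 0) + τ 1 * (R 1 1 + τ 1 * R 2 1 + τ 2 * R 3 1) -
      (R 1 2 + τ 1 * R 2 2 + τ 2 * R 3 2) = 0) ∧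
    τ 1 * (R 0 0 + τ 0 * R 2 0 + τ 1 * R 3 0) + τ 2 * (R 0 1 + τ 0 * R 2 1 + τ 1 * R 3 1) -
      (R 0 3 + τ 0 * R 2 3 + τ 1 * R 3 3) = 0 ∧
    τ 1 * (R 1 0 + τ 1 * R 2 0 + τ 2 * R 3 0) + τ 2 * (R 1 1 + τ 1 * R 2 1 + τ 2 * R 3 1) -
      (R 1 3 + τ 1 * R 2 3 + τ 2 * R 3 3) = 0 := by
  simp [EqE, col, per, iv, funext_iff, Fin.forall_fin_two, sub_eq_zero]

/-- translation by `4` on the diagonal -/
theorem shift {R : Matrix (Fin 4) (Fin 4) ℤ} {a b c : ℂ} (h0 : EqE R ![a, b, c])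
    (h1 : EqE R ![a + 4, b, c + 4]) (h2 : EqE R ![a + 8, b, c + 8]) :
    ((R 2 0 = 0 ∧ R 3 0 = 0 ∧ R 2 1 = 0 ∧ R 3 1 = 0) ∧
      R 2 2 = R 0 0 ∧ R 3 2 = R 1 0 ∧ R 2 3 = R 0 1 ∧ R 3 3 = R 1 1) ∧
    ((R 0 1 - R 1 0 : ℤ) * b + (0 : ℤ) * (c - a) = R 0 2 ∧
      (R 1 1 - R 0 0 : ℤ) * b + (-R 1 0 : ℤ) * (c - a) = R 1 2) ∧
      (R 0 0 - R 1 1 : ℤ) * b + R 0 1 * (c - a) = R 0 3 ∧
      (R 1 0 - R 0 1 : ℤ) * b + (0 : ℤ) * (c - a) = R 1 3 := by
  rw [eqE_iff] at h0 h1 h2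
  simp only [Matrix.cons_val] at h0 h1 h2
  obtain ⟨⟨a1, a2⟩, a3, a4⟩ := h0
  obtain ⟨⟨b1, b2⟩, b3, b4⟩ := h1
  obtain ⟨⟨c1, c2⟩, c3, c4⟩ := h2
  have d1 : (R 2 0 : ℂ) = 0 := by linear_combination (a1 - 2 * b1 + c1) / 32
  have d2 : (R 3 0 : ℂ) = 0 := by linear_combination (a2 - 2 * b2 + c2) / 32
  have d3 : (R 2 1 : ℂ) = 0 := by linear_combination (a3 - 2 * b3 + c3) / 32
  have d4 : (R 3 1 : ℂ) = 0 := by linear_combination (a4 - 2 * b4 + c4) / 32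
  simp only [d1, d2, d3, d4] at a1 a2 a3 a4 b1 b2 b3 b4
  have e1 : (R 2 2 : ℂ) = R 0 0 := by linear_combination (a1 - b1) / 4
  have e2 : (R 3 2 : ℂ) = R 1 0 := by linear_combination (a2 - b2) / 4
  have e3 : (R 2 3 : ℂ) = R 0 1 := by linear_combination (a3 - b3) / 4
  have e4 : (R 3 3 : ℂ) = R 1 1 := by linear_combination (a4 - b4) / 4
  simp only [e1, e2, e3, e4] at a1 a2 a3 a4
  refine ⟨⟨⟨by exact_mod_cast d1, by exact_mod_cast d2, by exact_mod_cast d3,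
    by exact_mod_cast d4⟩, by exact_mod_cast e1, by exact_mod_cast e2, by exact_mod_cast e3,
    by exact_mod_cast e4⟩, ?_⟩
  push_cast
  exact ⟨⟨by linear_combination a1, by linear_combination a2⟩, by linear_combination a3,
    by linear_combination a4⟩

theorem point : ∃ (u : ℂ) (τ : T3), ¬ IsAlgebraic ℚ u ∧ τ ∈ H2 ∧
    (∀ R, EqE R τ → ∃ k : ℤ, R = k • (1 : Matrix (Fin 4) (Fin 4) ℤ)) ∧
    ∃ c, ∀ s, f2 τ s = c * gv u s := by
  obtain ⟨r, L, hr, hL, L0, L2, h⟩ := arc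
  have hp : (π : ℂ) * I ≠ 0 := mul_ne_zero (ofReal_ne_zero.2 Real.pi_ne_zero) I_ne_zero
  have p1 : (π : ℂ) ≠ 0 := ofReal_ne_zero.2 Real.pi_ne_zero
  let T : ℂ → T3 := fun w ↦ ![2 * (L 0 (exp w) + (w + L 1 (exp w))) / (π * I),
    L 0 (exp w) / (π * I), 2 * (L 0 (exp w) + (w + L 1 (exp w)) + L 2 (exp w)) / (π * I)]
  have hb : ∀ w, w ∈ G4.hp (Real.log r) ↔ exp w ∈ ball (0 : ℂ) r := fun w ↦ by
    rw [mem_ball_zero_iff, norm_exp, ← Real.lt_log_iff_exp_lt hr]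
    rfl
  have an : ∀ i, ∀ w ∈ G4.hp (Real.log r), AnalyticAt ℂ (fun w ↦ T w i) w := fun i w hw ↦ by
    have := fun j ↦ (hL j _ ((hb w).1 hw)).comp (f := exp) analyticAt_cexp
    have a0 : AnalyticAt ℂ (fun w ↦ L 0 (exp w)) w := this 0
    have a1 : AnalyticAt ℂ (fun w ↦ L 1 (exp w)) w := this 1
    have a2 : AnalyticAt ℂ (fun w ↦ L 2 (exp w)) w := this 2
    fin_cases i
    · exact (analyticAt_const.mul (a0.add (analyticAt_id.add a1))).div_const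
    · exact a0.div_const
    · exact (analyticAt_const.mul ((a0.add (analyticAt_id.add a1)).add a2)).div_const
  have w0 : ((Real.log r - 1 : ℝ) : ℂ) ∈ G4.hp (Real.log r) :=
    (ofReal_re _).trans_lt (sub_one_lt _)
  have lim : ∀ a b c : ℤ, (∀ w ∈ G4.hp (Real.log r), a * T w 1 + b * (T w 2 - T w 0) = c) →
      a = 0 ∧ b = 0 ∧ c = 0 := fun a b c k ↦ by
    have c0 := (hL 0 0 (mem_ball_self hr)).continuousAt
    have c2 := (hL 2 0 (mem_ball_self hr)).continuousAt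
    have c3 : ContinuousAt (fun u ↦ a * (L 0 u / (π * I)) + b * (2 * L 2 u / (π * I))) 0 := by
      fun_prop
    refine logs (L0 ▸ L2 ▸ tendsto_nhds_unique (l := 𝓝[≠] (0 : ℂ))
      (c3.tendsto.mono_left nhdsWithin_le_nhds) (tendsto_const_nhds.congr' ?_))
    filter_upwards [self_mem_nhdsWithin, mem_nhdsWithin_of_mem_nhds (ball_mem_nhds 0 hr)]
      with u h1 h2
    rw [← exp_log h1] at h2 ⊢
    rw [← k _ ((hb _).2 h2)]
    simp only [T, Matrix.cons_val]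
    ring
  have key : ∀ R, ¬ {w ∈ G4.hp (Real.log r) | EqE R (T w)}.Countable →
      ∃ k : ℤ, R = k • (1 : Matrix (Fin 4) (Fin 4) ℤ) := fun R hR ↦ by
    have z := fun (F : ℂ → ℂ) (hF : AnalyticOnNhd ℂ F (G4.hp (Real.log r))) ↦
      G4.zero_of_uncountable (G4.hp_conn _) hF hR (Set.sep_subset _ _)
    have all : ∀ w ∈ G4.hp (Real.log r), EqE R (T w) := fun w hw ↦ by
      refine (eqE_iff _ _).2 ⟨⟨z _ ?_ (fun w hw ↦ ((eqE_iff _ _).1 hw.2).1.1) w hw,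
        z _ ?_ (fun w hw ↦ ((eqE_iff _ _).1 hw.2).1.2) w hw⟩,
        z _ ?_ (fun w hw ↦ ((eqE_iff _ _).1 hw.2).2.1) w hw,
        z _ ?_ (fun w hw ↦ ((eqE_iff _ _).1 hw.2).2.2) w hw⟩
      all_goals
        intro w hw
        have a0 := an 0 w hw
        have a1 := an 1 w hw
        have a2 := an 2 w hw
        fun_prop
    have sh := fun w (hw : w ∈ G4.hp (Real.log r)) ↦ shift (R := R) (a := T w 0) (b := T w 1)
      (c := T w 2) (all w hw) (by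
        have e : T (w + 2 * π * I) = ![T w 0 + 4, T w 1, T w 2 + 4] := by
          simp only [T, exp_periodic w, Matrix.cons_val]
          congr 1
          · field_simp
            ring
          · congr 2
            field_simp
            ring
        exact e ▸ all _ (by simpa [G4.hp] using hw)) (by
        have e : T (w + (2 : ℕ) * (2 * π * I)) = ![T w 0 + 8, T w 1, T w 2 + 8] := by
          simp only [T, exp_periodic.nat_mul 2 w, Matrix.cons_val]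
          congr 1
          · field_simp
            ring
          · congr 2
            field_simp
            ring
        exact e ▸ all _ (by simpa [G4.hp] using hw))
    obtain ⟨⟨d1, d2, d3, d4⟩, e1, e2, e3, e4⟩ := (sh _ w0).1
    have k1 := lim _ _ _ fun w hw ↦ (sh w hw).2.1.1
    have k2 := lim _ _ _ fun w hw ↦ (sh w hw).2.1.2
    have k3 := lim _ _ _ fun w hw ↦ (sh w hw).2.2.1
    have k4 := lim _ _ _ fun w hw ↦ (sh w hw).2.2.2
    refine ⟨R 0 0, ?_⟩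
    ext i j
    fin_cases i <;> fin_cases j <;> simp <;> omega
  have : Countable (Matrix (Fin 4) (Fin 4) ℤ) := inferInstanceAs (Countable (Fin 4 → Fin 4 → ℤ))
  have cnt : ((exp ⁻¹' {z | IsAlgebraic ℚ z}) ∪ ⋃ R : {R : Matrix (Fin 4) (Fin 4) ℤ //
      ¬ ∃ k : ℤ, R = k • (1 : Matrix (Fin 4) (Fin 4) ℤ)},
        {w ∈ G4.hp (Real.log r) | EqE R.1 (T w)}).Countable :=
    (Algebraic.countable ℚ ℂ).preimage_cexp.union
      (Set.countable_iUnion fun R ↦ by_contra fun e ↦ R.2 (key _ e))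
  obtain ⟨w, hw, hw'⟩ := (cnt.dense_compl ℂ).exists_mem_open (G4.hp_open (Real.log r)) ⟨_, w0⟩
  obtain ⟨k1, k2⟩ := h _ ((hb w).1 hw') (T w) (by
    simp only [xq, T, Matrix.cons_val, ← exp_add]
    congr 1
    · congr 1
      field_simp
    · congr 1
      · congr 1
        field_simp
        ring
      · congr 2
        field_simp
        ring)
  exact ⟨exp w, T w, fun e ↦ hw (.inl e), k1,
    fun R e ↦ by_contra fun e' ↦ hw (.inr (Set.mem_iUnion.2 ⟨⟨R, e'⟩, hw', e⟩)), k2⟩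

theorem dim_one (k : Type) [Field k] [Algebra k ℂ] (x : Ch → ℂ) (u : ℂ)
    (h1 : ∀ m, IsAlgebraic (Algebra.adjoin k {u}) (x m)) (h2 : ∃ m, ¬ IsAlgebraic k (x m)) :
    ringKrullDim (MvPolynomial Ch k ⧸
      RingHom.ker (MvPolynomial.aeval x : MvPolynomial Ch k →ₐ[k] ℂ)) = 1 := by
  set φ : MvPolynomial Ch k →ₐ[k] ℂ := MvPolynomial.aeval x
  have := RingHom.ker_isPrime φ
  obtain ⟨s, hs, ht⟩ := helper6.exists_dim_trdeg k (MvPolynomial Ch k ⧸ RingHom.ker φ)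
  let L := Subalgebra.algebraicClosure (Algebra.adjoin k {u}) ℂ
  have mem : ∀ f, φ f ∈ L.restrictScalars k := fun f ↦ by
    induction f using MvPolynomial.induction_on with
    | C a => simpa only [φ, MvPolynomial.algHom_C] using Subalgebra.algebraMap_mem _ a
    | add p q hp hq => exact map_add φ p q ▸ add_mem hp hq
    | mul_X p i hp =>
      rw [map_mul, MvPolynomial.aeval_X]
      exact mul_mem hp (h1 i)
  have le : Algebra.trdeg k (MvPolynomial Ch k ⧸ RingHom.ker φ) ≤ Algebra.trdeg k L :=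
    trdeg_le_of_injective ((Ideal.kerLiftAlg φ).codRestrict (L.restrictScalars k) fun a ↦ by
      obtain ⟨f, rfl⟩ := Ideal.Quotient.mk_surjective a
      exact mem f) fun a b e ↦ Ideal.kerLiftAlg_injective φ (congrArg Subtype.val e)
  have l2 : Algebra.trdeg k (Algebra.adjoin k {u}) ≤ 1 := by
    rw [← Polynomial.trdeg_of_isDomain (R := k)]
    exact trdeg_le_of_surjective ((Polynomial.aeval u).codRestrict _
      fun p ↦ Polynomial.aeval_mem_adjoin_singleton k u) fun ⟨y, hy⟩ ↦ by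
        obtain ⟨p, rfl⟩ := Algebra.adjoin_singleton_eq_range_aeval k u ▸ hy
        exact ⟨p, rfl⟩
  rw [← trdeg_add_eq k (Algebra.adjoin k {u}) (A := L), trdeg_eq_zero (A := L), add_zero, ht] at le
  have ne : Algebra.trdeg k (MvPolynomial Ch k ⧸ RingHom.ker φ) ≠ 0 := fun e ↦ by
    obtain ⟨m, hm⟩ := h2
    have := ((trdeg_eq_zero_iff.1 e).isAlgebraic
      (Ideal.Quotient.mk _ (MvPolynomial.X m))).algHom (Ideal.kerLiftAlg φ)
    rw [Ideal.kerLiftAlg_mk] at this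
    exact hm (by simpa only [φ, MvPolynomial.aeval_X] using this)
  have a : s ≤ 1 := by exact_mod_cast le.trans l2
  have b : s ≠ 0 := by
    rw [ht] at ne
    exact_mod_cast ne
  rw [hs, show s = 1 by omega, Nat.cast_one]

theorem Qm_mem {S : Type} [SetLike S ℂ] [SubringClass S ℂ] {K : S} {u : ℂ} (hu : u ∈ K) (m : Ch) :
    Qm m (gv u) ∈ K := by
  have g : ∀ s, gv u s ∈ K := fun s ↦ by
    unfold gv
    split_ifs
    exacts [ofNat_mem _ _, mul_mem (ofNat_mem _ _) hu, mul_mem (ofNat_mem _ _) hu,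
      mul_mem (ofNat_mem _ _) (pow_mem hu _)]
  exact sum_mem fun s _ ↦ mul_mem (pow_mem (neg_mem (one_mem _)) _) (mul_mem (g _) (g _))

theorem Qm_sum (u : ℂ) :
    Qm (0, 0, 0, 0) (gv u) + Qm (0, 0, 0, 1) (gv u) +
      (Qm (0, 0, 1, 0) (gv u) + Qm (0, 0, 1, 1) (gv u)) = 576 ∧
    Qm (0, 0, 0, 0) (gv u) + Qm (0, 0, 0, 1) (gv u) -
      (Qm (0, 0, 1, 0) (gv u) + Qm (0, 0, 1, 1) (gv u)) = 576 * u ^ 2 := by
  have s2 : ∀ f : ZMod 2 → ℂ, ∑ a, f a = f 0 + f 1 := fun f ↦ Fin.sum_univ_two f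
  have v2 : (1 + 1 : ZMod 2) = 0 := by decide
  simp [Qm, Fintype.sum_prod_type, s2, gv, ZMod.val_one, v2]
  constructor <;> ring

end MNV

open MNV in
theorem st_NONVAC : St_NONVAC := by
  have hA := st_ADD2
  have hE := st_EQN hA (st_SURJ hA st_SGN (st_OPEN hA))
  have hZ := st_FINZ
  have hC := st_ENC
  have hG := st_G3 th_ZER th_RED th_SYMK st_SINV (st_CF (st_BR st_PUI))
  obtain ⟨u, τ, hu, hτ, hR, c, hc⟩ := point
  have hend := (hC.enc τ hτ).2 hR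
  have hg : Gen τ := by_contra fun h ↦ hC.hum τ hτ hend (hG.sing τ hτ h)
  have h0 : kk 0 τ ≠ 0 := hg 0 (by decide)
  set x : Ch → ℂ := fun m ↦ kk m τ / kk 0 τ with hx
  have ov : Over x τ := ⟨hτ, h0, fun _ ↦ rfl⟩
  have hQ : ∀ m, kk m τ ^ 2 = c ^ 2 * Qm m (gv u) := fun m ↦ by
    rw [hA τ hτ, Qm, Qm, Finset.mul_sum]
    refine Finset.sum_congr rfl fun s _ ↦ ?_
    rw [hc, hc]
    ring
  have q0 : Qm 0 (gv u) ≠ 0 := fun e ↦ pow_ne_zero 2 h0 (by rw [hQ, e, mul_zero])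
  have hq : ∀ m, Qm 0 (gv u) * x m ^ 2 = Qm m (gv u) := fun m ↦ by
    rw [hx, div_pow, ← mul_div_assoc, div_eq_iff (pow_ne_zero 2 h0), hQ, hQ]
    ring
  have alg : ∀ (k : Type) [Field k] [Algebra k ℂ] (m : Ch),
      IsAlgebraic (Algebra.adjoin k {u}) (x m) := fun k _ _ m ↦ by
    have mu : u ∈ Algebra.adjoin k {u} := Algebra.self_mem_adjoin_singleton k u
    refine IsAlgebraic.of_pow two_pos (IsAlgebraic.of_mul (y := Qm 0 (gv u)) ?_ ?_ ?_)
    · exact mem_nonZeroDivisors_of_ne_zero q0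
    · exact isAlgebraic_algebraMap (⟨_, Qm_mem mu 0⟩ : Algebra.adjoin k {u})
    · rw [hq]
      exact isAlgebraic_algebraMap (⟨_, Qm_mem mu m⟩ : Algebra.adjoin k {u})
  have tr : ∃ m, ¬ IsAlgebraic ℚ (x m) := by
    by_contra hn
    have a : ∀ m, x m ^ 2 ∈ Qb := fun m ↦
      pow_mem (mem_algebraicClosure_iff.2 (by_contra fun e ↦ hn ⟨m, e⟩)) 2
    obtain ⟨s1, s2⟩ := Qm_sum u
    simp only [← hq (0, 0, 0, 1), ← hq (0, 0, 1, 0), ← hq (0, 0, 1, 1)] at s1 s2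
    have e : u ^ 2 = (1 + x (0, 0, 0, 1) ^ 2 - (x (0, 0, 1, 0) ^ 2 + x (0, 0, 1, 1) ^ 2)) /
        (1 + x (0, 0, 0, 1) ^ 2 + (x (0, 0, 1, 0) ^ 2 + x (0, 0, 1, 1) ^ 2)) := by
      change Qm 0 (gv u) + _ + _ = _ at s1
      change Qm 0 (gv u) + _ - _ = _ at s2
      rw [eq_div_iff fun e ↦ by
        have : (576 : ℂ) = 0 := by linear_combination Qm 0 (gv u) * e - s1
        norm_num at this]
      refine mul_left_cancel₀ q0 ?_
      linear_combination u ^ 2 * s1 - s2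
    refine hu (IsAlgebraic.of_pow two_pos (mem_algebraicClosure_iff.1 ?_))
    rw [e]
    exact div_mem (sub_mem (add_mem (one_mem _) (a _)) (add_mem (a _) (a _)))
      (add_mem (add_mem (one_mem _) (a _)) (add_mem (a _) (a _)))
  have : Algebra.IsAlgebraic ℚ Qb := algebraicClosure.isAlgebraic ℚ ℂ
  have cr : Crv (RingHom.ker (MvPolynomial.aeval x : MvPolynomial Ch ℚ →ₐ[ℚ] ℂ)) :=
    ⟨RingHom.ker_isPrime _, dim_one ℚ x u (alg ℚ) tr⟩
  refine ⟨RingHom.ker (MvPolynomial.aeval x : MvPolynomial Ch Qb →ₐ[Qb] ℂ), RingHom.ker_isPrime _,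
    dim_one Qb x u (alg Qb) (tr.imp fun m h e ↦ h (e.restrictScalars ℚ)),
    ⟨x, fun _ h ↦ h, τ, ov, hend⟩, (Set.finite_iUnion fun m : {m : Ch // Ev m} ↦
      (hZ _ cr (MvPolynomial.X m.1) fun h ↦ ?_).1).subset ?_⟩
  · rw [RingHom.mem_ker, MvPolynomial.aeval_X] at h
    exact div_ne_zero (hg _ m.2) h0 h
  · rintro y ⟨hy, hn⟩
    have cv : y ∈ Cv (RingHom.ker (MvPolynomial.aeval x : MvPolynomial Ch ℚ →ₐ[ℚ] ℂ)) :=
      fun f hf ↦ by
        rw [← MvPolynomial.aeval_map_algebraMap Qb]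
        refine hy _ ?_
        rwa [RingHom.mem_ker, MvPolynomial.aeval_map_algebraMap]
    by_contra h
    exact hn (hE y (fun f hf ↦ cv f (hf x τ ov))
      fun m hm e ↦ h (Set.mem_iUnion.2 ⟨⟨m, hm⟩, cv, by simpa using e⟩))

end Pool.Agent.Lib.ECM
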