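import Pool.Agent.Lib.ECM.PTDefs
import Pool.Agent.Lib.ZP3.Sm2

/-! The period theorem from its blocks. -/

open UpperHalfPlane hiding I
open Filter Topology Complex
open scoped Real

namespace Pool.Agent.Lib.ECM.PT

open Pool.Agent.Lib.ZP3 Pool.Agent.Lib.ZP3.HBF

namespace FIN

lemma hom_smul {σ : Type} {φ : MvPolynomial σ ℤ} {n : ℕ} (h : φ.IsHomogeneous n) (c : ℂ)
    (x : σ → ℂ) :
    MvPolynomial.aeval (fun i ↦ c * x i) φ = c ^ n * MvPolynomial.aeval x φ := by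
  rw [MvPolynomial.aeval_def, MvPolynomial.aeval_def, MvPolynomial.eval₂_eq,
    MvPolynomial.eval₂_eq, Finset.mul_sum]
  refine Finset.sum_congr rfl fun d hd ↦ ?_
  have h1 : ∑ i ∈ d.support, d i = n := by
    have := h (MvPolynomial.mem_support_iff.1 hd)
    simpa [Finsupp.weight_apply, Finsupp.sum] using this
  simp only [mul_pow, Finset.prod_mul_distrib, Finset.prod_pow_eq_pow_sum, h1]
  ring

variable {ι : Type} {a : ι → ℕ}

lemma sf_aeval (ha : ∀ s, 1 ≤ a s) {σ : Type} {x : σ → ι → ℂ} (hx : ∀ i, SF a (x i))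
    (φ : MvPolynomial σ ℤ) : SF a fun s ↦ MvPolynomial.aeval (fun i ↦ x i s) φ := by
  induction φ using MvPolynomial.induction_on with
  | C c => simpa using SF.const (a := a) (isAlgebraic_intCast (R := ℚ) (A := ℂ) c)
  | add p q hp hq => simpa using hp.add ha hq
  | mul_X p i hp => simpa using hp.mul ha (hx i)

lemma sf_all (ha : ∀ s, 1 ≤ a s) {σ : Type} [Fintype σ] {x : σ → ι → ℂ} (hx : ∀ i, SF a (x i)) :
    ∃ D : ι → ℕ, PN a D ∧ ∀ s i, Sm (x i s) (D s) := by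
  classical
  choose D hD hD' using hx
  refine ⟨fun s ↦ ∑ i, D i s, ?_, fun s i ↦ (hD' i s).mono
    (Finset.single_le_sum (f := fun i ↦ D i s) (fun _ _ ↦ Nat.zero_le _) (Finset.mem_univ i))⟩
  induction (Finset.univ : Finset σ) using Finset.induction_on with
  | empty => simpa using PN.const 0
  | insert i t hi ih => simpa [Finset.sum_insert hi] using (hD i).add ha ih

lemma eb_exp {D : ι → ℕ} (h : PN a D) : EB a fun s ↦ Real.exp (D s) := ⟨D, h, fun _ ↦ le_rfl⟩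

lemma eb_sq {f : ι → ℝ} (h : EB a fun s ↦ f s ^ 2) : EB a f := by
  obtain ⟨g, hg, h1⟩ := h.nonneg
  exact hg.mono fun s ↦ by nlinarith [(h1 s).1, (h1 s).2]

lemma mlt_mono {f : ℂ × ℂ → ℂ} {A A' S : ℕ} (h : Mlt f A S) (hA : A ≤ A') : Mlt f A' S := by
  obtain ⟨b, h1, h2⟩ := h
  have e0 : (A : ℝ) ≤ A' := by exact_mod_cast hA
  have e1 : Real.exp (-(A' : ℝ)) ≤ Real.exp (-A) := Real.exp_le_exp.2 (by linarith)
  have e2 : (A : ℝ) * S ^ 3 ≤ A' * S ^ 3 := by gcongr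
  refine ⟨b, fun s y hs hy ↦ ?_, fun s y hs hy ↦ ?_⟩
  · obtain ⟨k1, k2, k3, k4⟩ := h1 s y hs (hy.trans e1)
    exact ⟨k1, k2, k3.trans (Real.exp_le_exp.2 e2), k4.trans (Real.exp_le_exp.2 e2)⟩
  · obtain ⟨k1, k2⟩ := h2 s y (hs.trans e1) (hy.trans e1)
    exact ⟨(Real.exp_le_exp.2 (by linarith)).trans k1, k2⟩

lemma ll_smul (m : Ch) (τ : T3) (c : ℂ) (v : V2) : ll m τ (c • v) = c * ll m τ v := by
  simp [ll, dth]

lemma ll_sub (m : Ch) (τ : T3) (v w : V2) : ll m τ (v - w) = ll m τ v - ll m τ w := by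
  simp [ll, dth]

lemma lead_le {τ : T3} (hτ : τ ∈ Red) (m : Ch) : lead m τ ≤ 1 := by
  obtain ⟨h1, h2, h3, h4, -⟩ := hτ
  have v1 : m.1.val = 0 ∨ m.1.val = 1 := by have := ZMod.val_lt m.1; omega
  have v2 : m.2.1.val = 0 ∨ m.2.1.val = 1 := by have := ZMod.val_lt m.2.1; omega
  refine Real.exp_le_one_iff.2 (div_nonpos_of_nonpos_of_nonneg
    (mul_nonpos_of_nonpos_of_nonneg (by linarith [Real.pi_pos]) ?_) (by norm_num))
  rcases v1 with v1 | v1 <;> rcases v2 with v2 | v2 <;> rw [v1, v2] <;> push_cast <;> linarith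

lemma sq_per (hBAS : St_BAS) (m : Ch) (τ : T3) (z : V2) {l : V2}
    (hl : l = ![1, 0] ∨ l = ![0, 1]) : th m τ (z + l) ^ 2 = th m τ z ^ 2 := by
  obtain ⟨μ, hμ⟩ : ∃ μ : ℤ × ℤ, l = per τ (iv μ) (iv 0) := by
    rcases hl with rfl | rfl
    · exact ⟨(1, 0), by ext i; fin_cases i <;> simp [per, iv]⟩
    · exact ⟨(0, 1), by ext i; fin_cases i <;> simp [per, iv]⟩
  rw [hμ, hBAS.th_per, mul_pow, mul_pow, ← Complex.exp_nat_mul, ← Complex.exp_nat_mul]
  have e1 : ((2 : ℕ) : ℂ) * (2 * π * I * (dot (ca m) (iv μ) - dot (cb m) (iv 0))) =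
      ((m.1.val * μ.1 + m.2.1.val * μ.2 : ℤ) : ℂ) * (2 * π * I) := by
    simp [dot, ca, iv]
    ring
  have e2 : ((2 : ℕ) : ℂ) * (-π * I * (Qf τ (iv 0) + 2 * dot (iv 0) z)) = 0 := by
    simp [Qf, dot, iv]
  rw [e1, e2, Complex.exp_int_mul_two_pi_mul_I, Complex.exp_zero, one_mul, one_mul]

/-- the data of the period theorem -/
structure Dat where
  (A N a : ℕ)
  u : ℤ
  τ : T3
  g : Sym
  W : WD
  t : ℍ
  Ω : ℂ
  (v e : V2)
  hA2 : 2 ≤ A
  red : τ ∈ Red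
  gen : Gen τ
  hN : 0 < N
  cop : IsCoprime u (N : ℤ)
  nf : g.act τ 1 = u / N
  noh : NoHom (g.act τ)
  hNA : (N : ℝ) ≤ Real.exp A
  lat : W.IsLat t Ω
  size : W.Size (Ω / 2) Ω A
  ar : W.Ar (Ω / 2) A
  im : 1 ≤ 2 * t.im
  ha : 0 < a
  haA : (a : ℝ) ≤ Real.exp A
  ai : AI (a * t) A
  hv : g.M τ v 1 = 0
  hΛ : ∀ z, z ∈ W.Λ ↔ z • v ∈ Lat τ
  he : g.M τ e 0 = 0
  he0 : e ≠ 0
  sk : ∀ m, Sm (kk m τ / kk 0 τ) A
  sv1 : Sm (ll hA τ v / kk 0 τ) A
  sv2 : Sm (ll hB τ v / kk 0 τ) A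
  se1 : Sm (ll hA τ e / kk 0 τ) A
  se2 : Sm (ll hB τ e / kk 0 τ) A

lemma one_le (s : Dat) : 1 ≤ s.A := le_trans (by norm_num) s.hA2

lemma sf_ll (hBAS : St_BAS) (hLIN : St_LIN) (w : Dat → V2)
    (h1 : SF Dat.A fun s ↦ ll hA s.τ (w s) / kk 0 s.τ)
    (h2 : SF Dat.A fun s ↦ ll hB s.τ (w s) / kk 0 s.τ) (h : Ch) :
    SF Dat.A fun s ↦ ll h s.τ (w s) / kk 0 s.τ := by
  obtain ⟨P, A, B, hP, hl⟩ := hLIN
  obtain ⟨hA3, hB3, c, m1, m2, m3, hc, e1, e2, e3, hPe⟩ := hP h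
  have hk : ∀ m, SF Dat.A fun s ↦ kk m s.τ / kk 0 s.τ := fun m ↦ SF.self fun s ↦ s.sk m
  have h3 := (((sf_aeval one_le hk (A h)).mul one_le h1).add one_le
    ((sf_aeval one_le hk (B h)).mul one_le h2)).div one_le (sf_aeval one_le hk (P h))
  convert h3 using 2 with s
  have k0 : kk 0 s.τ ≠ 0 := s.gen 0 (by decide)
  have e : (fun m ↦ kk m s.τ) = fun m ↦ kk 0 s.τ * (kk m s.τ / kk 0 s.τ) := by
    funext m
    field_simp
  have h4 := hl s.τ (hBAS.red s.red) h (w s)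
  rw [e, hom_smul hA3, hom_smul hB3, ← e] at h4
  have k1 := s.gen _ e1
  have k2 := s.gen _ e2
  have k3 := s.gen _ e3
  have hc' : (c : ℂ) ≠ 0 := by exact_mod_cast hc
  rw [hPe] at h4 ⊢
  simp only [map_mul, MvPolynomial.aeval_X, eq_intCast, map_intCast] at h4 ⊢
  field_simp
  linear_combination h4

lemma eb_norm (hEST1 : St_EST1) (hEST2 : St_EST2) (w : Dat → V2)
    (h : ∀ m, SF Dat.A fun s ↦ ll m s.τ (w s) / kk 0 s.τ) : EB Dat.A fun s ↦ ‖w s‖ := by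
  obtain ⟨C, hC, h1⟩ := hEST1.up
  obtain ⟨C', hC', h2⟩ := hEST2
  obtain ⟨D, hD, hD'⟩ := sf_all one_le h
  refine (((EB.const (C * C')).mul one_le (eb_exp hD) fun _ ↦ (Real.exp_pos _).le).mul one_le
    (eb_exp ((PN.const 2).mul (PN.self.pow 2))) fun _ ↦ (Real.exp_pos _).le).mono fun s ↦ ?_
  obtain ⟨m, hm⟩ := (h2 s.τ s.red).2 (w s)
  have ev : Ev (m.1, m.2.1, 0, 0) := by simp [Ev]
  have k0 : kk 0 s.τ ≠ 0 := s.gen 0 (by decide)
  have k1 : 0 < ‖kk 0 s.τ‖ := norm_pos_iff.2 k0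
  have h3 := (s.sk (m.1, m.2.1, 0, 0)).liouville (div_ne_zero (s.gen _ ev) k0)
  have h4 : ‖kk (m.1, m.2.1, 0, 0) s.τ‖ ≤ C * lead m s.τ := (h1 s.τ s.red (m.1, m.2.1, 0, 0)).1
  have h5 := (hD' s m).norm_le
  rw [norm_div, le_div_iff₀ k1] at h3
  rw [norm_div, div_le_iff₀ k1] at h5
  have h6 : Real.exp (-(2 * (s.A : ℝ) ^ 2)) * ‖w s‖ * ‖kk 0 s.τ‖ ≤
      C * C' * Real.exp (D s) * ‖kk 0 s.τ‖ := by
    calc _ = Real.exp (-(2 * (s.A : ℝ) ^ 2)) * ‖kk 0 s.τ‖ * ‖w s‖ := by ring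
      _ ≤ C * lead m s.τ * ‖w s‖ := mul_le_mul_of_nonneg_right (h3.trans h4) (norm_nonneg _)
      _ = C * (lead m s.τ * ‖w s‖) := by ring
      _ ≤ C * (C' * (Real.exp (D s) * ‖kk 0 s.τ‖)) :=
          mul_le_mul_of_nonneg_left (hm.trans (by gcongr)) hC.le
      _ = _ := by ring
  have h7 := le_of_mul_le_mul_right h6 k1
  rw [Real.exp_neg, inv_mul_le_iff₀ (Real.exp_pos _)] at h7
  push_cast
  linarith

lemma lb_e (hBAS : St_BAS) (hEST1 : St_EST1) (hG : St_GAUGE) : LB Dat.A fun s ↦ ‖s.e‖ := by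
  obtain ⟨C, hC, h1⟩ := hEST1.up
  refine LB.of_le_mul one_le (f := fun s ↦ Real.exp (-((2 * s.A ^ 2 : ℕ) : ℝ)))
    ⟨_, (PN.const 2).mul (PN.self.pow 2), fun _ ↦ le_rfl⟩ (EB.const (3 * C))
    (fun _ ↦ norm_nonneg _) fun s ↦ ?_
  have k0 : kk 0 s.τ ≠ 0 := s.gen 0 (by decide)
  have k1 : 2 / 5 ≤ ‖kk 0 s.τ‖ := by
    have h2 := hEST1.one s.τ s.red 0 rfl rfl
    have h3 := norm_sub_norm_le (1 : ℂ) (kk 0 s.τ)
    rw [norm_sub_rev, norm_one] at h3
    linarith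
  have key : ∀ h, Sm (ll h s.τ s.e / kk 0 s.τ) s.A → ll h s.τ s.e ≠ 0 →
      Real.exp (-((2 * s.A ^ 2 : ℕ) : ℝ)) ≤ 3 * C * ‖s.e‖ := by
    intro h h2 h3
    have h4 := h2.liouville (div_ne_zero h3 k0)
    have h5 := (h1 s.τ s.red h).2 s.e
    have h6 := lead_le s.red h
    have h7 : C * lead h s.τ * ‖s.e‖ ≤ C * 1 * ‖s.e‖ := by gcongr
    rw [norm_div, le_div_iff₀ (by linarith)] at h4
    push_cast
    have h8 := Real.exp_pos (-(2 * (s.A : ℝ) ^ 2))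
    have h9 : 0 ≤ C * ‖s.e‖ := by positivity
    nlinarith
  by_cases h2 : ll hA s.τ s.e = 0
  · refine key hB s.se2 fun h3 ↦ s.he0 ((hG.ind s.τ (hBAS.red s.red) s.gen).1 ?_)
    simp only [h2, h3]
    simp [ll, dth]
  · exact key hA s.se1 h2

end FIN

open FIN in
theorem st_PTH (hBAS : St_BAS) (hLIN : St_LIN) (hEST1 : St_EST1) (hEST2 : St_EST2)
    (hG : St_GAUGE) (hK : St_SYMK) (hENG : ENG) (hUP : UP) (hSYS : SYS) (hMLT : MLT)
    (hLAT : LAT) : PTH := by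
  obtain ⟨C, hC⟩ := hLAT
  obtain ⟨k1, hk1⟩ := hSYS
  obtain ⟨c1, hm1, hm2⟩ := hMLT
  obtain ⟨k2, A0, hE⟩ := hENG (Ch ⊕ Bool)
  have hΩ : ∀ s : Dat, Real.exp (-(s.A : ℝ)) ≤ ‖s.Ω‖ ∧ ‖s.Ω‖ ≤ s.A * Real.exp s.A ∧
      s.Ω ∈ s.W.Λ ∧ s.Ω / 2 ∉ s.W.Λ := fun s ↦ by
    obtain ⟨ρ, h1, h2, h3, h4, h5, h6, h7, -⟩ := s.size
    refine ⟨h1.trans (h3 _ h5 h6), h7.trans (by gcongr), h5, fun h ↦ ?_⟩
    have := h4 _ h
    rw [sub_self, norm_zero] at this
    linarith [Real.exp_pos (-(s.A : ℝ))]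
  have hΩ0 : ∀ s : Dat, s.Ω ≠ 0 := fun s ↦ norm_pos_iff.1 ((Real.exp_pos _).trans_le (hΩ s).1)
  have h1 := fun s : Dat ↦ hC s.N s.u s.τ s.g s.W s.t s.Ω s.v s.e s.red s.hN s.nf (hΩ0 s) s.lat
    s.hv s.hΛ s.he s.he0
  choose hα hα' l m n c hl hmn hb hdec using h1
  have ebN : EB Dat.A fun s ↦ (s.N : ℝ) := EB.exp_self.mono fun s ↦ s.hNA
  have ebt : EB Dat.A fun s ↦ ‖(s.t : ℂ)‖ := EB.exp_self.mono fun s ↦ by
    have h2 : ‖(s.a : ℂ) * s.t‖ ≤ Real.exp s.A := s.ai.2.2 (RingHom.id ℂ)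
    have h3 : (1 : ℝ) ≤ s.a := by exact_mod_cast s.ha
    rw [norm_mul, Complex.norm_natCast] at h2
    nlinarith [norm_nonneg (s.t : ℂ)]
  have ebν : EB Dat.A fun s ↦ ‖(m s : ℂ) + n s * s.t‖ := by
    refine eb_sq ((((EB.const |C|).mul one_le (ebN.pow (fun _ ↦ Nat.cast_nonneg _) 2)
      fun _ ↦ sq_nonneg _).mul one_le ebt fun _ ↦ norm_nonneg _).mono fun s ↦ (hb s).trans ?_)
    have h2 : s.t.im ≤ ‖(s.t : ℂ)‖ := (le_abs_self _).trans (Complex.abs_im_le_norm (s.t : ℂ))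
    have h3 := s.t.im_pos
    gcongr
    exact le_abs_self C
  have ebn : EB Dat.A fun s ↦ |(n s : ℝ)| := by
    refine ((EB.const 2).mul one_le ebν fun _ ↦ norm_nonneg _).mono fun s ↦ ?_
    have h2 := Complex.abs_im_le_norm ((m s : ℂ) + n s * s.t)
    have h3 : ((m s : ℂ) + n s * s.t).im = n s * s.t.im := by simp
    rw [h3, abs_mul, abs_of_pos s.t.im_pos] at h2
    nlinarith [s.im, abs_nonneg (n s : ℝ)]
  have ebm : EB Dat.A fun s ↦ |(m s : ℝ)| := by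
    refine (ebν.add one_le (ebn.mul one_le ebt fun _ ↦ norm_nonneg _)).mono fun s ↦ ?_
    have h2 := norm_sub_le ((m s : ℂ) + n s * s.t) (n s * s.t)
    rwa [add_sub_cancel_right, norm_mul, Complex.norm_intCast, Complex.norm_intCast] at h2
  have sft : SF Dat.A fun s ↦ (s.t : ℂ) := SF.self fun s ↦ ⟨s.a, s.ha, s.haA, s.ai⟩
  have sfN : SF Dat.A fun s ↦ ((s.N : ℤ) : ℂ) :=
    SF.int one_le (ebN.mono fun s ↦ by simp)
  set μ : Dat → ℂ := fun s ↦ (m s + n s * s.t) / s.N with hμ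
  have sfμ : SF Dat.A μ := by
    simpa [hμ] using ((SF.int one_le ebm).add one_le ((SF.int one_le ebn).mul one_le sft)).div
      one_le sfN
  have hμ0 : ∀ s, μ s ≠ 0 := fun s ↦ div_ne_zero (hmn s) (by exact_mod_cast s.hN.ne')
  have sfv := sf_ll hBAS hLIN Dat.v (SF.self fun s ↦ s.sv1) (SF.self fun s ↦ s.sv2)
  have sfe := sf_ll hBAS hLIN Dat.e (SF.self fun s ↦ s.se1) (SF.self fun s ↦ s.se2)
  have sfv' : ∀ h, SF Dat.A fun s ↦ ll h s.τ (μ s • s.v) / kk 0 s.τ := fun h ↦ by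
    simpa only [ll_smul, mul_div_assoc] using sfμ.mul one_le (sfv h)
  have hl1 : ∀ s, ‖l s‖ ≤ 1 := fun s ↦ by
    rw [pi_norm_le_iff_of_nonneg zero_le_one]
    intro i
    rcases hl s with h | h <;> rw [h] <;> fin_cases i <;> simp
  have ebΩ : EB Dat.A fun s ↦ ‖s.Ω‖ :=
    (EB.exp_self.mul one_le EB.exp_self fun _ ↦ (Real.exp_pos _).le).mono fun s ↦
      (hΩ s).2.1.trans (by gcongr; linarith [Real.add_one_le_exp (s.A : ℝ)])
  have ebc : EB Dat.A fun s ↦ ‖c s‖ := by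
    have h2 := lb_e hBAS hEST1 hG
    refine (((EB.const 1).add one_le ((ebΩ.mul one_le sfμ.bd fun _ ↦ norm_nonneg _).mul one_le
      (eb_norm hEST1 hEST2 _ sfv) fun _ ↦ norm_nonneg _)).mul one_le h2.inv
      fun s ↦ (inv_pos.2 (h2.pos s)).le).mono fun s ↦ ?_
    rw [← div_eq_mul_inv, le_div_iff₀ (h2.pos s), ← norm_smul, ← norm_mul, ← norm_smul]
    have h3 : c s • s.e = l s - (s.Ω * μ s) • s.v := by rw [hdec s]; simp [hμ]
    rw [h3]
    exact (norm_sub_le _ _).trans (by gcongr; exact hl1 s)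
  obtain ⟨D1, hD1, d1⟩ := sf_all one_le sfv'
  obtain ⟨D2, hD2, d2⟩ := sf_all one_le sfe
  obtain ⟨D3, hD3, d3⟩ := ebc
  obtain ⟨D4, hD4, d4⟩ := eb_norm hEST1 hEST2 _ sfe
  set D : Dat → ℕ := fun s ↦ s.A + D1 s + D2 s + D3 s + D4 s with hDdef
  have hD : PN Dat.A D := (((PN.self.add one_le hD1).add one_le hD2).add one_le hD3).add one_le hD4
  set B : Dat → ℕ := fun s ↦ A0 + D s + D s ^ k1 + c1 * D s + c1 * s.A ^ 3 with hBdef
  have hBB : PN Dat.A B := ((((PN.const A0).add one_le hD).add one_le (hD.pow k1)).add one_le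
    ((PN.const c1).mul hD)).add one_le ((PN.const c1).mul (PN.self.pow 3))
  have main : ∀ s : Dat, s.N ≤ 100000 * ((B s ^ k2) ^ 32) ^ 2 := by
    intro s
    have hH := hBAS.red s.red
    have a2 := s.hA2
    have e1 : D s = s.A + D1 s + D2 s + D3 s + D4 s := rfl
    have e2 : B s = A0 + D s + D s ^ k1 + c1 * D s + c1 * s.A ^ 3 := rfl
    have ex : ∀ {x y : ℕ}, x ≤ y → Real.exp x ≤ Real.exp y := fun h ↦
      Real.exp_le_exp.2 (by exact_mod_cast h)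
    obtain ⟨q1, q2, hs, hq1, hq2⟩ := hk1 (D s) s.τ s.W (s.Ω / 2) 1 (μ s • s.v) s.e (by omega) hH
      s.gen (hΩ s).2.2.2 (fun m ↦ (s.sk m).mono (by omega)) (fun m ↦ (d1 s m).mono (by omega))
      (fun m ↦ (d2 s m).mono (by omega)) (SM2.sm_one (by omega))
      (s.ar.2.2.sm.mono (by omega))
    have harg : ∀ z : ℂ × ℂ, (s.Ω * z.1) • μ s • s.v + (c s * z.1 + z.2) • s.e =
        z.1 • l s + z.2 • s.e := fun z ↦ by
      rw [hdec s]
      simp only [hμ]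
      module
    obtain ⟨a, F, ha2, haB, hF0, hFd, hJ⟩ := hE (B s) _ q1 q2
      ![Sum.inr false, Sum.inl hA, Sum.inl hB] s.Ω (c s) (by omega) hs (by
        rintro (j | j | j)
        · simpa [xs, kk] using (s.sk j).mono (show s.A ≤ B s by omega)
        · simpa [xs] using s.ar.1.sm.mono (show s.A ≤ B s by omega)
        · simpa [xs] using s.ar.2.1.sm.mono (show s.A ≤ B s by omega))
      (fun j a b ↦ (hq1 j a b).mono (by omega)) (fun j a b ↦ (hq2 j a b).mono (by omega))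
      (le_trans (Real.exp_le_exp.2 (neg_le_neg (by exact_mod_cast (by omega : s.A ≤ B s))))
        (hΩ s).1) ((d3 s).trans (ex (by omega))) (fun z j ↦ by
        have e3 : (z.1 + s.Ω) • μ s • s.v + (z.2 + c s) • s.e =
            z.1 • μ s • s.v + z.2 • s.e + l s := by
          rw [hdec s]
          simp only [hμ]
          module
        fin_cases j
        · simp only [xs, Fin.zero_eta, Matrix.cons_val_zero, Sum.elim_inr, cond_false, Prod.fst_add,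
            one_mul]
          rw [← add_assoc, s.W.perX _ (hΩ s).2.2.1]
        · simp only [xs, Fin.mk_one, Matrix.cons_val_one, Matrix.cons_val_zero, Sum.elim_inl,
            Prod.fst_add, Prod.snd_add, e3, div_pow, sq_per hBAS _ _ _ (hl s)]
        · simp only [xs, Fin.reduceFinMk, Matrix.cons_val, Sum.elim_inl,
            Prod.fst_add, Prod.snd_add, e3, div_pow, sq_per hBAS _ _ _ (hl s)])
      (fun j S hS ↦ by
        have b1 := fun m ↦ mlt_mono (hm1 (D s) S s.τ m (l s) s.e (by omega) hS s.red (hl1 s)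
          ((d4 s).trans (ex (by omega)))) (show c1 * D s ≤ B s by omega)
        fin_cases j
        · simpa [xs] using mlt_mono (hm2 s.A S s.W _ _ (by omega) hS s.size)
            (show c1 * s.A ^ 3 ≤ B s by omega)
        · simpa only [xs, Fin.mk_one, Matrix.cons_val_one, Matrix.cons_val_zero, Sum.elim_inl,
            harg] using b1 hA
        · simpa only [xs, Fin.reduceFinMk, Matrix.cons_val, Sum.elim_inl, harg] using b1 hB)
    obtain ⟨c0, hc0, hkk⟩ := hK.cst s.g s.τ hH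
    obtain ⟨c', q', hc', hth⟩ := s.g.th_eq s.τ hH
    have hζ : ∀ m, s.g.ζ m ≠ 0 := fun m h ↦ by simpa [h] using s.g.ζ8 m
    have hM : ∀ z : ℂ × ℂ, s.g.M s.τ (z.1 • μ s • s.v + z.2 • s.e) =
        ![μ s * s.g.M s.τ s.v 0 * z.1, s.g.M s.τ s.e 1 * z.2] := fun z ↦ by
      rw [map_add, map_smul, map_smul, map_smul]
      ext i
      fin_cases i
      · simp [s.he]; ring
      · simp [s.hv]; ring
    have hv1 : s.g.M s.τ s.v = s.g.M s.τ s.v 0 • ![1, 0] := by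
      ext i; fin_cases i <;> simp [s.hv]
    have he1 : s.g.M s.τ s.e = s.g.M s.τ s.e 1 • ![0, 1] := by
      ext i; fin_cases i <;> simp [s.he]
    have a46 : 2 ^ 16 ≤ a ^ 16 := Nat.pow_le_pow_left ha2 16
    have ap : 0 < a := by omega
    have h2 := hUP (s.g.act s.τ) s.N s.u s.W (s.Ω / 2) 1 (μ s * s.g.M s.τ s.v 0)
      (s.g.M s.τ s.e 1) ((s.g.ζ 0 / s.g.ζ hA) ^ 2) ((s.g.ζ 0 / s.g.ζ hB) ^ 2) (s.g.A 0 + s.g.s)
      (s.g.A hA + s.g.s) (s.g.A hB + s.g.s) F (a ^ 32) (1000 * a ^ 48) (s.g.act_mem _ hH) s.hN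
      s.cop s.nf s.noh (hΩ s).2.2.2 one_ne_zero (mul_ne_zero (hμ0 s) (hα s)) (hα' s)
      (pow_ne_zero _ (div_ne_zero (hζ _) (hζ _))) (pow_ne_zero _ (div_ne_zero (hζ _) (hζ _)))
      (by rw [(hkk 0).1]; exact mul_ne_zero (mul_ne_zero hc0 (hζ 0)) (s.gen 0 (by decide)))
      (by rw [(hkk hA).1, hBAS.kk_odd hA _ (by decide), mul_zero])
      (by rw [(hkk hB).1, hBAS.kk_odd hB _ (by decide), mul_zero])
      (fun h ↦ by
        have i1 := (hkk hA).2 s.v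
        have i2 := (hkk hB).2 s.v
        have i3 := (hkk hA).2 s.e
        have i4 := (hkk hB).2 s.e
        rw [hv1, ll_smul] at i1 i2
        rw [he1, ll_smul] at i3 i4
        have i5 : ll hA s.τ s.v * ll hB s.τ s.e = ll hA s.τ s.e * ll hB s.τ s.v := by
          refine mul_left_cancel₀ (mul_ne_zero (mul_ne_zero hc0 (hζ hA))
            (mul_ne_zero hc0 (hζ hB))) ?_
          linear_combination (s.g.M s.τ s.v 0 * s.g.M s.τ s.e 1) * h -
            (c0 * s.g.ζ hB * ll hB s.τ s.e) * i1 + (c0 * s.g.ζ hA * ll hA s.τ s.e) * i2 +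
            (s.g.M s.τ s.v 0 * ll (s.g.A hB + s.g.s) (s.g.act s.τ) ![1, 0]) * i3 -
            (s.g.M s.τ s.v 0 * ll (s.g.A hA + s.g.s) (s.g.act s.τ) ![1, 0]) * i4
        have inj := (hG.ind s.τ hH s.gen).1
        have i6 : ∀ x y : ℂ, x * ll hA s.τ s.v = y * ll hA s.τ s.e →
            x * ll hB s.τ s.v = y * ll hB s.τ s.e → x = 0 := by
          intro x y j1 j2
          have j3 : x • s.v = y • s.e := inj (by simp only [ll_smul, j1, j2])
          have j4 := congrFun (congrArg (s.g.M s.τ) j3) 0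
          simp only [map_smul, Pi.smul_apply, smul_eq_mul, s.he, mul_zero] at j4
          exact (mul_eq_zero.1 j4).resolve_right (hα s)
        have i7 := i6 (ll hA s.τ s.e) (ll hA s.τ s.v) (mul_comm _ _) i5.symm
        have i8 := i6 (ll hB s.τ s.e) (ll hB s.τ s.v) (by linear_combination i5) (mul_comm _ _)
        exact s.he0 (inj (by simp only [i7, i8]; simp [ll, dth])))
      hF0 (Nat.one_le_pow _ _ ap) hFd (by
        have : 0 < a ^ 96 := by positivity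
        rw [show (a ^ 32) ^ 3 = a ^ 96 by ring, show (1000 * a ^ 48) ^ 2 = 1000000 * a ^ 96 by ring]
        omega) (by
        have : 0 < a ^ 32 := by positivity
        rw [show a ^ 48 = a ^ 16 * a ^ 32 by ring]
        nlinarith) (by
        convert hJ using 4 with z
        rw [← hM]
        simp only [hth]
        have k1 := hζ 0
        have k2 := hζ hA
        have k3 := hζ hB
        have k4 := Complex.exp_ne_zero (Qf q' (z.1 • μ s • s.v + z.2 • s.e))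
        ext j
        fin_cases j
        · simp [xs]
        · simp only [xs, Fin.mk_one, Matrix.cons_val_one, Matrix.cons_val_zero, Sum.elim_inl]
          rw [← mul_pow, mul_div_mul_comm, ← mul_assoc]
          congr 1
          field_simp
        · simp only [xs, Fin.reduceFinMk, Matrix.cons_val, Sum.elim_inl]
          rw [← mul_pow, mul_div_mul_comm, ← mul_assoc]
          congr 1
          field_simp)
    exact h2.trans (by gcongr)
  obtain ⟨C0, k, hk⟩ := ((PN.const 100000).mul (((hBB.pow k2).pow 32).pow 2)).mono main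
  refine ⟨k + 1, C0 + 2, fun A N a u τ g W t Ω v e i1 i2 i3 i4 i5 i6 i7 i8 i9 i10 i11 i12 i13 i14
    i15 i16 i17 i18 i19 i20 i21 i22 i23 i24 ↦ ?_⟩
  refine (hk ⟨A, N, a, u, τ, g, W, t, Ω, v, e, by omega, i2, i3, i4, i5, i6, i7, i8, i9, i10, i11,
    i12, i13, i14, i15, i16, i17, i18, i19, i20, i21, i22, i23, i24⟩).trans ?_
  rw [pow_succ']
  exact Nat.mul_le_mul_right _ (by omega)

end Pool.Agent.Lib.ECM.PT
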