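import Pool.Agent.Lib.ECM.TH_All
import Pool.Agent.Lib.ECM.PT_PTH
import Pool.Agent.Lib.ECM.PT_ZL
import Pool.Agent.Lib.ECM.PT_ZCV
import Pool.Agent.Lib.ECM.PT_TRV
import Pool.Agent.Lib.ECM.PT_JT
import Pool.Agent.Lib.ECM.PT_EXT
import Pool.Agent.Lib.ECM.PT_ARI
import Pool.Agent.Lib.ECM.PT_ENG
import Pool.Agent.Lib.ECM.PT_UP
import Pool.Agent.Lib.ECM.PT_MLT
import Pool.Agent.Lib.ECM.PT_LAT
import Pool.Agent.Lib.ECM.PT_ELL
import Pool.Agent.Lib.ECM.PT_SYS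

/-! The period theorem, without hypotheses. -/

namespace Pool.Agent.Lib.ECM.PT

theorem pth : PTH :=
  st_PTH th_BAS th_LIN th_EST1 th_EST2 th_GAUGE th_SYMK (st_ENG st_JT st_ARI st_EXT)
    (st_UP th_BAS st_JT st_ELL (st_ZL st_ZCV st_TRV)) (st_SYS th_BAS th_DER)
    (st_MLT th_BAS th_HERM th_EST1) (st_LAT th_BAS th_HERM)

end Pool.Agent.Lib.ECM.PT
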