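import Pool.Agent.Lib.ECM.PTDefs

/-! Zero lemma with a finite group of translations: preparations and the key count. -/

open Filter Topology Metric

namespace Pool.Agent.Lib.ECM.PT.ZLP

open Pool.Agent.Lib.ZP3 Pool.Agent.Lib.ZP3.Zero

variable {W : Fin 3 → WD}

/-- polynomials vanishing at all regular points -/
noncomputable def KK (W : Fin 3 → WD) : Ideal R where
  carrier := {f | ∀ z, Reg W z → ev W z f = 0}
  add_mem' hf hg z hz := by rw [map_add, hf z hz, hg z hz, add_zero]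
  zero_mem' z _ := map_zero _
  smul_mem' c f hf z hz := by rw [smul_eq_mul, map_mul, hf z hz, mul_zero]

lemma exists_reg (W : Fin 3 → WD) : ∃ z, Reg W z := by
  choose z hz using fun i ↦ (W i).ev_notMem_zero.exists
  exact ⟨z, hz⟩

lemma KK_prime : (KK W).IsPrime := by
  have hc : IsPreconnected {z | Reg W z} := by
    have : {z | Reg W z} = Set.pi Set.univ fun i ↦ ((W i).Λ : Set ℂ)ᶜ := by
      ext z
      simp [Reg]
    rw [this]
    exact isPreconnected_univ_pi fun i ↦ WDL.preconn (W i).countable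
  refine ⟨?_, fun {f g} h ↦ ?_⟩
  · obtain ⟨z, hz⟩ := exists_reg W
    rw [Ideal.ne_top_iff_one]
    intro h
    simpa using h z hz
  · by_contra hcon
    rw [not_or] at hcon
    obtain ⟨h1, h2⟩ := hcon
    obtain ⟨z, hz, hz'⟩ : ∃ z, Reg W z ∧ ev W z f ≠ 0 := by
      by_contra h3
      push Not at h3
      exact h1 h3
    refine h2 fun y hy ↦ ?_
    have han : AnalyticOnNhd ℂ (fun z ↦ ev W z g) {z | Reg W z} := fun z hz ↦ analyticAt_ev hz g
    refine han.eqOn_zero_of_preconnected_of_eventuallyEq_zero hc hz ?_ hy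
    filter_upwards [(analyticAt_ev hz f).continuousAt.eventually_ne hz',
      (isOpen_reg W).mem_nhds hz] with u h3 h4
    have := h u h4
    rw [map_mul] at this
    exact (mul_eq_zero.1 this).resolve_left h3

lemma cub_mem_KK (i : Fin 3) : cub W i ∈ KK W := fun _ hz ↦ ev_cub hz i

lemma exists_F {r : R} (hr : r ∉ KK W) {P : Ideal R} (hK : KK W ≤ P) (hrP : r ∈ P) :
    ∃ F : MvPolynomial (Fin 3) ℂ, F ≠ 0 ∧ MvPolynomial.rename Sum.inl F ∈ P := by
  have := KK_prime (W := W)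
  let f : MvPolynomial (Fin 3) ℂ →+* R ⧸ KK W := (Ideal.Quotient.mk (KK W)).comp
    (MvPolynomial.rename (R := ℂ) (Sum.inl : Fin 3 → Var)).toRingHom
  let _ := f.toAlgebra
  have h1 : IsIntegral (MvPolynomial (Fin 3) ℂ) (Ideal.Quotient.mk (KK W) r) :=
    dens_int W (KK W) cub_mem_KK _
  have h2 := Ideal.comap_ne_bot_of_integral_mem (I := P.map (Ideal.Quotient.mk (KK W)))
    (fun h ↦ hr (Ideal.Quotient.eq_zero_iff_mem.1 h)) (Ideal.mem_map_of_mem _ hrP) h1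
  obtain ⟨F, hF, hF0⟩ := Submodule.exists_mem_ne_zero_of_ne_bot h2
  refine ⟨F, hF0, ?_⟩
  have h3 : Ideal.Quotient.mk (KK W) (MvPolynomial.rename Sum.inl F) ∈
      P.map (Ideal.Quotient.mk (KK W)) := hF
  rw [← Ideal.mem_comap, Ideal.comap_map_of_surjective _ Ideal.Quotient.mk_surjective,
    ← RingHom.ker_eq_comap_bot, Ideal.mk_ker, sup_eq_left.2 hK] at h3
  exact h3

/-- the ideals of the jets -/
noncomputable def IK (W : Fin 3 → WD) (β : Fin 3 → ℂ) (r : R) (n : ℕ) : Ideal R :=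
  KK W ⊔ II W β r n

lemma IK_mono {β : Fin 3 → ℂ} {r : R} {n n' : ℕ} (h : n ≤ n') : IK W β r n ≤ IK W β r n' :=
  sup_le_sup_left (II_mono h) _

lemma IK_le_ker {β z : Fin 3 → ℂ} {r : R} {n : ℕ} (hz : Reg W z) (h : JV W β r z n) :
    IK W β r n ≤ RingHom.ker (ev W z) :=
  sup_le (fun _ hf ↦ hf z hz) (II_le_ker hz h)

lemma Mv_pow {d : Fin 3 → ℕ} {f : R} (hf : f ∈ TR.Mv d) (k : ℕ) : f ^ k ∈ TR.Mv (k • d) := by
  induction k with
  | zero => simpa using TR.one_mem_Mv 0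
  | succ k ih => rw [pow_succ, succ_nsmul]; exact TR.Mv_mul ih hf

lemma slice_mem (D : Fin 3 → ℕ) (j : Fin 3) (a : ℂ) :
    (MvPolynomial.X (Sum.inl j) - MvPolynomial.C a : R) ^ D j ∈ TR.Mv fun i ↦ 3 * D i := by
  have h1 : (MvPolynomial.X (Sum.inl j) - MvPolynomial.C a : R) ∈ TR.Mv (Pi.single j 2) := by
    refine sub_mem (TR.X_mem_Mv j) ?_
    have := (TR.Mv (Pi.single j 2)).smul_mem a (TR.one_mem_Mv _)
    rwa [MvPolynomial.smul_eq_C_mul, mul_one] at this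
  refine TR.Mv_mono (fun i ↦ ?_) (Mv_pow h1 _)
  by_cases h : i = j
  · subst h
    simp
    omega
  · simp [h]

lemma exists_gen (H : Submodule ℂ (Fin 3 → ℂ)) : ∃ g ∈ H, ∀ v ∈ H, ∀ i, g i = 0 → v i = 0 := by
  obtain ⟨g, hg⟩ := Submodule.exists_forall_notMem_of_forall_ne_top
    (fun i : {i : Fin 3 // ∃ v ∈ H, v i ≠ 0} ↦
      LinearMap.ker ((LinearMap.proj i.1 : (Fin 3 → ℂ) →ₗ[ℂ] ℂ).comp H.subtype)) (by
      rintro ⟨i, v, hv, hv'⟩ h
      have : (⟨v, hv⟩ : H) ∈ LinearMap.ker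
          ((LinearMap.proj i : (Fin 3 → ℂ) →ₗ[ℂ] ℂ).comp H.subtype) := by
        rw [h]; trivial
      exact hv' this)
  refine ⟨g, g.2, fun v hv i hi ↦ ?_⟩
  by_contra h
  exact hg ⟨i, v, hv, h⟩ hi

lemma key (hZC : ZCV) (hTR : TRV) {β p : Fin 3 → ℂ} {r : R} {D : Fin 3 → ℕ} {T n0 : ℕ}
    (hD : ∀ i, 1 ≤ D i) (hT : 1 ≤ T) (hr : r ∈ TR.Mv D) {Γ : Finset (Fin 3 → ℂ)} (h0 : 0 ∈ Γ)
    (hinv : ∀ γ ∈ Γ, ∀ z n, Reg W z → Reg W (z + γ) → (JV W β r z n ↔ JV W β r (z + γ) n))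
    (hpΓ : ∀ γ ∈ Γ, Reg W (p + γ)) {P : Ideal R} (hP : P ∈ (IK W β r n0).minimalPrimes)
    (hP' : IK W β r (n0 + T) ≤ P) (hp : p ∈ VV W P)
    {J : Finset (Fin 3)} (hJ : ∀ v ∈ stab W P, (∀ j ∈ J, v j = 0) → v = 0)
    {κ : Type} (s : Finset κ) (γ h : κ → Fin 3 → ℂ) (hγ : ∀ k, γ k ∈ Γ)
    (hh : ∀ k, h k ∈ stab W P) (hσ : ∀ k, ∀ j ∈ J, (h k + γ k) j ∈ (W j).Λ)
    (hd : ∀ k ∈ s, ∀ k' ∈ s, k ≠ k' → ∃ i, (h k + γ k) i - (h k' + γ k') i ∉ (W i).Λ)
    {b : Fin 3 → Fin 3 → ℂ} (hb : LinearIndependent ℂ b) {e : Fin 3 → ℕ}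
    (hb' : ∀ i, ∀ j ∈ J, j ≠ i → b i j = 0)
    (hty : ∀ i, (b i ∈ stab W P ∧ e i = D i) ∨ (i ∉ J ∧
      ((b i ∈ hyp β ⊔ stab W P ∧ e i = T) ∨ e i = 1))) :
    s.card * (e 0 * e 1 * e 2) ≤ 5832 * (D 0 * D 1 * D 2) := by
  classical
  have hprime : P.IsPrime := hP.1.1
  have hcub : ∀ i, cub W i ∈ P := fun i ↦ hP' (Ideal.mem_sup_left (cub_mem_KK i))
  obtain ⟨G, hG1, hG2⟩ := hTR W r D hr
  obtain ⟨f0, hf0, hf0'⟩ := exists_sep (W := W) hP
  set L := D 0 * D 1 * D 2 with hL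
  have hL0 : 0 < L := Nat.mul_pos (Nat.mul_pos (hD 0) (hD 1)) (hD 2)
  have hDL : ∀ i, D i ∣ L := fun i ↦ by
    fin_cases i
    exacts [⟨D 1 * D 2, by simp [hL, mul_assoc]⟩, ⟨D 0 * D 2, by simp [hL]; ring⟩,
      ⟨D 0 * D 1, by simp [hL]; ring⟩]
  have hdvd : ∀ i, e i ∣ L * T := fun i ↦ by
    rcases hty i with h1 | ⟨-, h1 | h1⟩
    · rw [h1.2]; exact (hDL i).mul_right _
    · rw [h1.2]; exact dvd_mul_left _ _
    · rw [h1]; exact one_dvd _
  let w : Fin 3 → ℕ := fun i ↦ L * T / e i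
  have hwe : ∀ i, w i * e i = L * T := fun i ↦ Nat.div_mul_cancel (hdvd i)
  have hw : ∀ i, 0 < w i := fun i ↦ Nat.pos_of_mul_pos_right
    (show 0 < w i * e i by rw [hwe]; exact Nat.mul_pos hL0 hT)
  obtain ⟨η1, ⟨hη1, hη1'⟩, hη1Γ⟩ := ((VV.dense hprime hcub hp hf0).and_eventually
    ((Finset.eventually_all Γ (p := fun γ η ↦ Reg W (η + γ))).2 fun γ hγ ↦
      reg_eventually (g := fun η : Fin 3 → ℂ ↦ η + γ) (by fun_prop) (hpΓ γ hγ))).exists
  obtain ⟨g0, hg0, hg0'⟩ := exists_gen (stab W P)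
  obtain ⟨c, hc1, hc2⟩ : ∃ c : ℂ, (∀ γ' ∈ Γ, ∀ k ∈ s, ∀ k' ∈ s, Reg W (η1 + γ' + 0 + c • g0) ∧
      Reg W (η1 + γ' + -h k + c • g0) ∧ Reg W (η1 + γ' + (h k' - h k) + c • g0)) ∧
      (Reg W (η1 + c • g0) ∧ ev W (η1 + c • g0) f0 ≠ 0) := by
    have h1 : (⋃ γ' ∈ (Γ : Set (Fin 3 → ℂ)), ⋃ k ∈ (s : Set κ), ⋃ k' ∈ (s : Set κ),
        ({c : ℂ | ¬ Reg W (η1 + γ' + 0 + c • g0)} ∪ {c : ℂ | ¬ Reg W (η1 + γ' + -h k + c • g0)} ∪
          {c : ℂ | ¬ Reg W (η1 + γ' + (h k' - h k) + c • g0)})).Countable :=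
      Γ.countable_toSet.biUnion fun γ' hγ' ↦ s.countable_toSet.biUnion fun k _ ↦
        s.countable_toSet.biUnion fun k' _ ↦
          ((countable_line (hη1Γ γ' hγ') g0 _ (hg0' _ (zero_mem _))).union
            (countable_line (hη1Γ γ' hγ') g0 _ (hg0' _ (neg_mem (hh k))))).union
            (countable_line (hη1Γ γ' hγ') g0 _ (hg0' _ (sub_mem (hh k') (hh k))))
    have h2 : ∀ᶠ c : ℂ in 𝓝 0, Reg W (η1 + c • g0) ∧ ev W (η1 + c • g0) f0 ≠ 0 := by
      have : ContinuousAt (fun c : ℂ ↦ ev W (η1 + c • g0) f0) 0 :=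
        (hasDerivAt_ev (z := η1) (v := g0) (s := 0) (by simpa using hη1.1) f0).continuousAt
      exact (reg_eventually (g := fun c : ℂ ↦ η1 + c • g0) (by fun_prop)
        (by simpa using hη1.1)).and (this.eventually_ne (by simpa using hη1'))
    obtain ⟨c, hc, hc'⟩ := ((mem_closure_iff_frequently.mp (h1.dense_compl ℂ 0)).and_eventually
      h2).exists
    refine ⟨c, fun γ' a1 k a2 k' a3 ↦ ?_, hc'⟩
    simp only [Set.mem_compl_iff, Set.mem_iUnion, Set.mem_union, Set.mem_ofPred_eq, not_exists,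
      not_or, not_not] at hc
    exact ⟨(hc γ' a1 k a2 k' a3).1.1, (hc γ' a1 k a2 k' a3).1.2, (hc γ' a1 k a2 k' a3).2⟩
  set y0 := η1 + c • g0 with hy0
  have hy0V : y0 ∈ VV W P := VV.add hη1 ((stab W P).smul_mem _ hg0) hc2.1
  have hr1 : ∀ k ∈ s, Reg W (y0 + γ k) := fun k hk ↦ by
    convert (hc1 _ (hγ k) k hk k hk).1 using 1
    rw [hy0]; abel
  have hr2 : ∀ k ∈ s, Reg W (y0 - h k) := fun k hk ↦ by
    convert (hc1 _ h0 k hk k hk).2.1 using 1
    rw [hy0]; abel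
  have hr3 : ∀ k ∈ s, ∀ k' ∈ s, Reg W (y0 - h k + h k') ∧ Reg W (y0 - h k + (h k' + γ k')) :=
    fun k hk k' hk' ↦ ⟨by
      convert (hc1 _ h0 k hk k' hk').2.2 using 1
      rw [hy0]; abel, by
      convert (hc1 _ (hγ k') k hk k' hk').2.2 using 1
      rw [hy0]; abel⟩
  obtain ⟨q, hq⟩ : ∃ q : Fin 3 → ℂ, ∀ i, (q i ∉ (W i).Λ ∧ (W i).Y (q i) ≠ 0) ∧ ∀ k ∈ s,
      q i + (h k + γ k) i ∉ (W i).Λ ∧ (y0 - h k) i - q i ∉ (W i).Λ ∧
        (W i).X (q i + (h k + γ k) i) ≠ (W i).X ((y0 - h k) i - q i) := by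
    have : ∀ i, ∃ q : ℂ, (q ∉ (W i).Λ ∧ (W i).Y q ≠ 0) ∧ ∀ k ∈ s,
        q + (h k + γ k) i ∉ (W i).Λ ∧ (y0 - h k) i - q ∉ (W i).Λ ∧
          (W i).X (q + (h k + γ k) i) ≠ (W i).X ((y0 - h k) i - q) := by
      intro i
      have h3 := ((W i).countable.union (W i).countable_Y).union
        (s.countable_toSet.biUnion fun k hk ↦ ((WDL.countable_shift (W i) ((h k + γ k) i)).union
          (WDL.countable_refl (W i) ((y0 - h k) i))).union
          ((W i).countable_eq (a := (h k + γ k) i) (b := (y0 - h k) i) (by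
            convert hr1 k hk i using 2
            simp only [Pi.add_apply, Pi.sub_apply]
            ring)))
      obtain ⟨q, hq⟩ := (h3.dense_compl ℂ).nonempty
      simp only [Set.mem_compl_iff, Set.mem_union, SetLike.mem_coe, Set.mem_ofPred_eq,
        Set.mem_iUnion, not_or, not_and, not_exists] at hq
      exact ⟨q, ⟨hq.1.1, hq.1.2 hq.1.1⟩, fun k hk ↦ ⟨(hq.2 k hk).1.1, (hq.2 k hk).1.2,
        (hq.2 k hk).2 (hq.2 k hk).1.1 (hq.2 k hk).1.2⟩⟩
    choose q hq using this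
    exact ⟨q, hq⟩
  let x : κ → Fin 3 → ℂ := fun k ↦ q + (h k + γ k)
  have hxr : ∀ k ∈ s, Reg W (x k) := fun k hk i ↦ ((hq i).2 k hk).1
  have hxd : ∀ k ∈ s, ∀ k' ∈ s, k ≠ k' → ∃ i, x k i - x k' i ∉ (W i).Λ := by
    intro k hk k' hk' hne
    obtain ⟨i, hi⟩ := hd k hk k' hk' hne
    refine ⟨i, ?_⟩
    convert hi using 2
    simp only [x, Pi.add_apply]
    ring
  have hinj : Set.InjOn x s := by
    intro k hk k' hk' h
    by_contra hne
    obtain ⟨i, hi⟩ := hxd k hk k' hk' hne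
    exact hi (by simp [h])
  have hxJ : ∀ k, ∀ j ∈ J, (W j).X (x k j) = (W j).X (q j) ∧ (W j).Y (x k j) = (W j).Y (q j) :=
    fun k j hj ↦ ⟨(W j).perX _ (hσ k j hj) _, (W j).perY _ (hσ k j hj) _⟩
  let 𝒢 : Set R := {g | ∃ (η : Fin 3 → ℂ) (l : List (Fin 3 → ℂ)), η ∈ VV W P ∧ Reg W (η - q) ∧
      (∀ k ∈ s, Reg W (η + h k) ∧ Reg W (η + (h k + γ k))) ∧ (∀ v ∈ l, v ∈ hyp β) ∧
      l.length ≤ n0 ∧ g = G l (η - q)} ∪
    {g | ∃ j ∈ J, g = (MvPolynomial.X (Sum.inl j) - MvPolynomial.C ((W j).X (q j))) ^ D j}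
  have hz := hZC W b hb w e (fun i ↦ 3 * D i) (L * T) hw (fun i ↦ (hwe i).le)
    (fun i ↦ by have := hD i; omega) (s.image x)
    (fun z hz ↦ by
      obtain ⟨k, hk, rfl⟩ := Finset.mem_image.mp hz
      exact hxr k hk)
    (fun z hz z' hz' hne ↦ by
      obtain ⟨k, hk, rfl⟩ := Finset.mem_image.mp hz
      obtain ⟨k', hk', rfl⟩ := Finset.mem_image.mp hz'
      exact hxd k hk k' hk' fun h ↦ hne (by rw [h]))
    𝒢 (by
      rintro _ (⟨η, l, -, -, -, -, -, rfl⟩ | ⟨j, -, rfl⟩)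
      · exact hG1 _ _
      · exact slice_mem _ _ _) ?_ ?_
  · rw [Finset.card_image_of_injOn hinj] at hz
    exact hz.trans (le_of_eq (by rw [hL]; ring))
  · rintro _ (⟨η, l, h1, h2, h3, h4, h5, rfl⟩ | ⟨j, hj, rfl⟩) z hz
    · obtain ⟨k, hk, rfl⟩ := Finset.mem_image.mp hz
      refine ZZ.van (V := hyp β) (H := stab W P) (hxr k hk) (fun i ↦ ?_) fun m hm hm' ↦ ?_
      · rcases hty i with h | ⟨-, h | h⟩
        · exact Or.inl h.1
        · exact Or.inr (Or.inl ⟨h.1, by simp only [w, h.2]; exact Nat.mul_div_cancel _ hT⟩)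
        · exact Or.inr (Or.inr (by simp only [w, h, Nat.div_one]))
      · have r1 : ∀ᶠ u : stab W P in 𝓝 0, Reg W (x k + u) :=
          reg_eventually (g := fun u : stab W P ↦ x k + (u : Fin 3 → ℂ)) (by fun_prop)
            (by simpa using hxr k hk)
        have r2 : ∀ᶠ u : stab W P in 𝓝 0, Reg W (η + (h k + u)) :=
          reg_eventually (g := fun u : stab W P ↦ η + (h k + (u : Fin 3 → ℂ)))
            (by fun_prop) (by simpa using (h3 k hk).1)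
        have r3 : ∀ᶠ u : stab W P in 𝓝 0, Reg W (η + (h k + u) + γ k) :=
          reg_eventually (g := fun u : stab W P ↦ η + (h k + (u : Fin 3 → ℂ)) + γ k)
            (by fun_prop) (by simpa [add_assoc] using (h3 k hk).2)
        filter_upwards [r1, r2, r3] with u g1 g2 g3
        have e1 : x k + u + (η - q) = η + (h k + u) + γ k := by simp only [x]; abel
        refine (hG2 (hyp β) (x k + u) (η - q) g1 h2 (e1 ▸ g3)).1 l m h4 hm ?_
        rw [e1]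
        refine (hinv _ (hγ k) _ _ g2 g3).1 fun m' k1 k2 ↦ ?_
        exact (VV.add h1 (add_mem (hh k) u.2) g2).2 _
          (hP' (Ideal.mem_sup_right (wd_mem_II k1 (by omega))))
    · obtain ⟨k, hk, rfl⟩ := Finset.mem_image.mp hz
      have e1 : L * T = D j * w j := by
        rcases hty j with h | h
        · rw [← h.2, mul_comm (e j), hwe]
        · exact absurd hj h.1
      rw [← (hxJ k j hj).1, e1]
      refine Van.pow hw (van_slice fun i ↦ ?_) _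
      by_cases hij : j = i
      · exact Or.inl (by rw [hij])
      · exact Or.inr (hb' i j hj hij)
  · intro z hz
    obtain ⟨k, hk, rfl⟩ := Finset.mem_image.mp hz
    set ηn := y0 - h k with hηn
    have hprod : ∀ᶠ u : (Fin 3 → ℂ) × (Fin 3 → ℂ) in 𝓝 (x k, ηn), Reg W u.1 ∧ Reg W (u.2 - q) ∧
        (∀ k' ∈ s, Reg W (u.2 + h k') ∧ Reg W (u.2 + (h k' + γ k'))) ∧ Reg W (u.1 + (u.2 - q)) ∧
        (∀ i, (W i).X (u.1 i) ≠ (W i).X ((u.2 - q) i)) ∧ Reg W (u.1 + (u.2 - q) - γ k) ∧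
        ev W (u.1 + (u.2 - q) - γ k) f0 ≠ 0 := by
      have e1 : x k + (ηn - q) = y0 + γ k := by simp only [x, hηn]; abel
      have e2 : x k + (ηn - q) - γ k = y0 := by rw [e1]; abel
      have r0 : Reg W (ηn - q) := fun i ↦ ((hq i).2 k hk).2.1
      refine (reg_eventually (g := fun u : (Fin 3 → ℂ) × (Fin 3 → ℂ) ↦ u.1) (by fun_prop)
        (hxr k hk)).and ((reg_eventually (g := fun u : (Fin 3 → ℂ) × (Fin 3 → ℂ) ↦ u.2 - q)
        (by fun_prop) r0).and (Eventually.and ?_ ((reg_eventually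
        (g := fun u : (Fin 3 → ℂ) × (Fin 3 → ℂ) ↦ u.1 + (u.2 - q)) (by fun_prop)
        (e1 ▸ hr1 k hk)).and (Eventually.and ?_ ((reg_eventually
        (g := fun u : (Fin 3 → ℂ) × (Fin 3 → ℂ) ↦ u.1 + (u.2 - q) - γ k) (by fun_prop)
        (e2 ▸ hy0V.1)).and ?_)))))
      · rw [Finset.eventually_all]
        intro k' hk'
        exact (reg_eventually (g := fun u : (Fin 3 → ℂ) × (Fin 3 → ℂ) ↦ u.2 + h k')
          (by fun_prop) (hr3 k hk k' hk').1).and (reg_eventually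
          (g := fun u : (Fin 3 → ℂ) × (Fin 3 → ℂ) ↦ u.2 + (h k' + γ k')) (by fun_prop)
          (hr3 k hk k' hk').2)
      · rw [eventually_all]
        intro i
        have c1 : ContinuousAt (fun u : (Fin 3 → ℂ) × (Fin 3 → ℂ) ↦ (W i).X (u.1 i)) (x k, ηn) :=
          ContinuousAt.comp (f := fun u : (Fin 3 → ℂ) × (Fin 3 → ℂ) ↦ u.1 i)
            ((W i).analytic_X (hxr k hk i)).continuousAt (by fun_prop)
        have c2 : ContinuousAt (fun u : (Fin 3 → ℂ) × (Fin 3 → ℂ) ↦ (W i).X ((u.2 - q) i))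
            (x k, ηn) :=
          ContinuousAt.comp (f := fun u : (Fin 3 → ℂ) × (Fin 3 → ℂ) ↦ (u.2 - q) i)
            ((W i).analytic_X (r0 i)).continuousAt (by fun_prop)
        have := (c1.sub c2).eventually_ne (y := 0) (sub_ne_zero.mpr ((hq i).2 k hk).2.2)
        exact this.mono fun u hu ↦ sub_ne_zero.mp hu
      · have c1 : ContinuousAt
            (fun u : (Fin 3 → ℂ) × (Fin 3 → ℂ) ↦ ev W (u.1 + (u.2 - q) - γ k) f0) (x k, ηn) :=
          ContinuousAt.comp (f := fun u : (Fin 3 → ℂ) × (Fin 3 → ℂ) ↦ u.1 + (u.2 - q) - γ k)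
            (g := fun z ↦ ev W z f0) (analyticAt_ev (e2 ▸ hy0V.1) f0).continuousAt (by fun_prop)
        exact c1.eventually_ne (by rw [e2]; exact hc2.2)
    rw [nhds_prod_eq, eventually_prod_iff] at hprod
    obtain ⟨pa, hpa, pb, hpb, hab⟩ := hprod
    have hloc : ∀ᶠ z' : Fin 3 → ℂ in 𝓝 (x k), ∀ j ∈ J,
        (W j).X (z' j) = (W j).X (x k j) → z' j = x k j := by
      rw [Finset.eventually_all]
      intro j hj
      exact (continuous_apply j).continuousAt.eventually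
        ((W j).locinj (hxr k hk j) (by rw [(hxJ k j hj).2]; exact (hq j).1.2))
    let C : Set (Fin 3 → ℂ) := {c | (∀ j ∈ J, c j = 0) ∧
      ∀ η ∈ VV W P, pb η → η + h k + c ∈ VV W P}
    have hC : ∀ᶠ z' in 𝓝 (x k), (∀ g ∈ 𝒢, ev W z' g = 0) → z' - x k ∈ C := by
      filter_upwards [hpa, hloc] with z' k1 k2 k3
      refine ⟨fun j hj ↦ ?_, fun η hη hη' ↦ ?_⟩
      · have := k3 _ (Or.inr ⟨j, hj, rfl⟩)
        rw [map_pow, pow_eq_zero_iff (by have := hD j; omega)] at this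
        simp only [ev, pt, map_sub, MvPolynomial.eval_X, MvPolynomial.eval_C, Sum.elim_inl] at this
        rw [Pi.sub_apply, k2 j hj (by rw [(hxJ k j hj).1]; exact sub_eq_zero.mp this), sub_self]
      · obtain ⟨a1, a2, a3, a4, a5, a6, a7⟩ := hab k1 hη'
        have e1 : η + h k + (z' - x k) = z' + (η - q) - γ k := by simp only [x]; abel
        rw [e1]
        refine ⟨a6, hf0' _ (IK_le_ker a6 ?_) a7⟩
        refine (hinv _ (hγ k) _ _ a6 (by rwa [sub_add_cancel])).2 ?_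
        rw [sub_add_cancel]
        exact (hG2 (hyp β) z' (η - q) a1 a2 a4).2 n0 a5 fun l l1 l2 ↦
          k3 _ (Or.inl ⟨η, l, hη, a2, a3, l1, l2, rfl⟩)
    by_contra hcon
    have hfr : ∃ᶠ c in 𝓝 (0 : Fin 3 → ℂ), c ∈ C ∧ c ≠ 0 := by
      have ht : Tendsto (fun z' ↦ z' - x k) (𝓝 (x k)) (𝓝 0) := by
        have : Continuous fun z' : Fin 3 → ℂ ↦ z' - x k := by fun_prop
        simpa using this.tendsto (x k)
      refine ht.frequently (((not_eventually.mp hcon).and_eventually hC).mono ?_)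
      rintro z' ⟨k1, k2⟩
      push Not at k1
      exact ⟨k2 k1.1, sub_ne_zero.mpr k1.2⟩
    obtain ⟨c, hc0, hc⟩ := tangent hfr
    refine hc0 (hJ c (fun f hf ↦ ?_) fun j hj ↦ ?_)
    · by_contra hf'
      have ht : Tendsto (fun y ↦ y - h k) (𝓝 y0) (𝓝 ηn) :=
        (by fun_prop : Continuous fun y : Fin 3 → ℂ ↦ y - h k).tendsto y0
      have r1 : ∀ᶠ y in 𝓝 y0, Reg W (y - h k) :=
        reg_eventually (g := fun y : Fin 3 → ℂ ↦ y - h k) (by fun_prop) (hr2 k hk)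
      obtain ⟨y, ⟨k1, k2⟩, k3, k4⟩ := ((VV.dense hprime hcub hy0V hf').and_eventually
        (r1.and (ht.eventually hpb))).exists
      have k5 : y - h k ∈ VV W P := by
        rw [sub_eq_add_neg] at k3 ⊢
        exact VV.add k1 (neg_mem (hh k)) k3
      refine k2 ?_
      rw [← fderiv_ev k1.1]
      refine hc (fun c' ↦ ev W (y + c') f) _ ?_ (by simpa using k1.2 f hf) fun c' hc' ↦ ?_
      · rw [hasFDerivAt_comp_add_left (f := fun z ↦ ev W z f), add_zero]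
        exact (analyticAt_ev k1.1 f).differentiableAt.hasFDerivAt
      · simpa using (hc'.2 _ k5 k4).2 f hf
    · exact hc (fun c' ↦ c' j) (ContinuousLinearMap.proj j) (hasFDerivAt_apply j 0) rfl
        fun c' hc' ↦ hc'.1 j hj

end Pool.Agent.Lib.ECM.PT.ZLP
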