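import Pool.Agent.Lib.ECM.THDefs

/-! Definitions used in the statement of the E x CM theorem (problem MP_0704bf_ag). -/

namespace Pool.Agent.Lib.ECM

/-- the complex points of the affine variety defined by `P` -/
def Cv (P : Ideal (MvPolynomial Ch ℚ)) : Set (Ch → ℂ) :=
  {x | ∀ f ∈ P, MvPolynomial.aeval x f = 0}

/-- `x` is the theta null point of the period matrix `τ`, in the chart `θ₀ ≠ 0` -/
def Over (x : Ch → ℂ) (τ : T3) : Prop :=
  τ ∈ H2 ∧ kk 0 τ ≠ 0 ∧ ∀ m, x m = kk m τ / kk 0 τ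

/-- `τ` satisfies a singular relation of Humbert -/
def Sing (τ : T3) : Prop :=
  ∃ a b c d e : ℤ, ¬ (a = 0 ∧ b = 0 ∧ c = 0 ∧ d = 0 ∧ e = 0) ∧
    a * τ 0 + b * τ 1 + c * τ 2 + d * (τ 1 ^ 2 - τ 0 * τ 2) + e = 0

/-- the torus `ℂ² / (ℤ² + τ ℤ²)` contains an elliptic curve with complex multiplication -/
def HasCM (τ : T3) : Prop :=
  ∃ (v : V2) (t : ℂ) (a b c : ℤ), v ≠ 0 ∧ t.im ≠ 0 ∧ a ≠ 0 ∧ a * t ^ 2 + b * t + c = 0 ∧
    v ∈ Lat τ ∧ t • v ∈ Lat τ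

/-- a non-real scalar preserves the lattice: the torus is isogenous to the square of an elliptic
curve with complex multiplication -/
def SqCM (τ : T3) : Prop := ∃ a : ℂ, a.im ≠ 0 ∧ ∀ z ∈ Lat τ, a • z ∈ Lat τ

end Pool.Agent.Lib.ECM
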