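import Mathlib

/-! Genus two theta functions: definitions (project E x CM, problem MP_0704bf_ag). -/

open Complex
open scoped Real ComplexConjugate

noncomputable section

namespace Pool.Agent.Lib.ECM

/-- vectors of `ℂ²` -/
abbrev V2 := Fin 2 → ℂ

/-- symmetric two by two matrices, written `(τ₁₁, τ₁₂, τ₂₂)` -/
abbrev T3 := Fin 3 → ℂ

/-- the Siegel upper half space of genus two: the imaginary part is positive definite -/
def H2 : Set T3 := {τ | 0 < (τ 0).im ∧ (τ 1).im ^ 2 < (τ 0).im * (τ 2).im}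

/-- the quadratic form `pᵀ τ p` -/
def Qf (τ : T3) (p : V2) : ℂ := τ 0 * p 0 ^ 2 + 2 * τ 1 * p 0 * p 1 + τ 2 * p 1 ^ 2

/-- the bilinear dot product -/
def dot (p w : V2) : ℂ := p 0 * w 0 + p 1 * w 1

/-- an integral vector -/
def iv (n : ℤ × ℤ) : V2 := ![(n.1 : ℂ), (n.2 : ℂ)]

/-- the vector `m + τ n` -/
def per (τ : T3) (m n : V2) : V2 :=
  ![m 0 + τ 0 * n 0 + τ 1 * n 1, m 1 + τ 1 * n 0 + τ 2 * n 1]

/-- the period lattice `ℤ² + τ ℤ²` -/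
def Lat (τ : T3) : Set V2 := {z | ∃ m n : ℤ × ℤ, z = per τ (iv m) (iv n)}

/-- the general term `exp (π i pᵀ τ p + 2 π i p · w)` -/
def term (τ : T3) (p w : V2) : ℂ := exp (π * I * (Qf τ p + 2 * dot p w))

/-- the theta series over the coset `a + ℤ²` -/
def thg (τ : T3) (a w : V2) : ℂ := ∑' n : ℤ × ℤ, term τ (iv n + a) w

/-- half integral characteristics `(a₁, a₂, b₁, b₂)` -/
abbrev Ch := ZMod 2 × ZMod 2 × ZMod 2 × ZMod 2

/-- the vector `a / 2` -/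
def ca (m : Ch) : V2 := ![(m.1.val : ℂ) / 2, (m.2.1.val : ℂ) / 2]

/-- the vector `b / 2` -/
def cb (m : Ch) : V2 := ![(m.2.2.1.val : ℂ) / 2, (m.2.2.2.val : ℂ) / 2]

/-- the theta function with characteristic `m` -/
def th (m : Ch) (τ : T3) (z : V2) : ℂ := thg τ (ca m) (z + cb m)

/-- the theta constant with characteristic `m` -/
def kk (m : Ch) (τ : T3) : ℂ := th m τ 0

/-- even characteristics -/
def Ev (m : Ch) : Prop := m.1 * m.2.2.1 + m.2.1 * m.2.2.2 = 0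

instance : DecidablePred Ev := fun m ↦ inferInstanceAs (Decidable (m.1 * m.2.2.1 + m.2.1 * m.2.2.2 = 0))

/-- derivative of a theta function at `x` in the direction `v` -/
def dth (m : Ch) (τ : T3) (v x : V2) : ℂ := fderiv ℂ (th m τ) x v

/-- derivative at the origin -/
def ll (m : Ch) (τ : T3) (v : V2) : ℂ := dth m τ v 0

/-- determinant of the imaginary part -/
def dY (τ : T3) : ℝ := (τ 0).im * (τ 2).im - (τ 1).im ^ 2

/-- the Hermitian norm `v* (Im τ)⁻¹ v` -/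
def Hn (τ : T3) (v : V2) : ℝ :=
  ((τ 2).im * normSq (v 0) - 2 * (τ 1).im * (v 0 * conj (v 1)).re + (τ 0).im * normSq (v 1)) / dY τ

/-- the real quadratic form `(Im z)ᵀ (Im τ)⁻¹ (Im z)` -/
def qI (τ : T3) (z : V2) : ℝ :=
  ((τ 2).im * (z 0).im ^ 2 - 2 * (τ 1).im * (z 0).im * (z 1).im + (τ 0).im * (z 1).im ^ 2) / dY τ

/-- the reduced domain -/
def Red : Set T3 := {τ | 0 ≤ (τ 1).im ∧ 2 * (τ 1).im ≤ (τ 0).im ∧ (τ 0).im ≤ (τ 2).im ∧
  17 / 20 ≤ (τ 0).im ∧ ∀ i, |(τ i).re| ≤ 1 / 2}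

/-- `max_n |k_n k_(n + κ)|` -/
def den (κ : Ch) (τ : T3) : ℝ := ‖fun n : Ch ↦ kk n τ * kk (n + κ) τ‖

/-- the gauge `max_(g,h) |k_g l_h(v)| / max_n |k_n k_(n + g + h)|` -/
def gauge (τ : T3) (v : V2) : ℝ :=
  ‖fun p : Ch × Ch ↦ kk p.1 τ * ll p.2 τ v / (den (p.1 + p.2) τ : ℂ)‖

/-- the odd characteristics `[10,10]` and `[01,01]` -/
def hA : Ch := (1, 0, 1, 0)

def hB : Ch := (0, 1, 0, 1)

/-- all ten even theta constants are nonzero -/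
def Gen (τ : T3) : Prop := ∀ m, Ev m → kk m τ ≠ 0

/-- an element of the modular group with everything that is used of it -/
structure Sym where
  act : T3 → T3
  inv : T3 → T3
  M : T3 → V2 →ₗ[ℂ] V2
  A : Ch ≃+ Ch
  s : Ch
  ζ : Ch → ℂ
  ζ8 : ∀ m, ζ m ^ 8 = 1
  act_mem : ∀ τ ∈ H2, act τ ∈ H2
  inv_mem : ∀ τ ∈ H2, inv τ ∈ H2
  act_inv : ∀ τ ∈ H2, act (inv τ) = τ
  inv_diff : DifferentiableOn ℂ inv H2
  pull : ∀ F : MvPolynomial (Fin 3) ℂ, F ≠ 0 → ∃ F' : MvPolynomial (Fin 3) ℂ, F' ≠ 0 ∧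
    ∀ τ ∈ H2, MvPolynomial.eval (act τ) F = 0 → MvPolynomial.eval τ F' = 0
  ev : ∀ m, Ev (A m + s) ↔ Ev m
  bij : ∀ τ ∈ H2, Function.Bijective (M τ)
  lat : ∀ τ ∈ H2, ∀ z, M τ z ∈ Lat (act τ) ↔ z ∈ Lat τ
  herm : ∀ τ ∈ H2, ∀ v, Hn (act τ) (M τ v) = Hn τ v
  th_eq : ∀ τ ∈ H2, ∃ (c : ℂ) (q : T3), c ≠ 0 ∧ ∀ m z,
    th (A m + s) (act τ) (M τ z) = c * ζ m * exp (Qf q z) * th m τ z

end Pool.Agent.Lib.ECM
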