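import Pool.Agent.Lib.ECM.TH_CHART2

/-! Genus two theta functions: the charts, short form. -/

namespace Pool.Agent.Lib.ECM

theorem st_CHART (hXQ : St_XQ) (hLOC : St_LOC) : St_CHART := by
  intro κ hκ
  obtain ⟨r, N, mm, g, h1, h2, -, -, h3⟩ := st_CHART2 hXQ hLOC κ hκ
  exact ⟨r, N, mm, g, h1, h2, h3⟩

end Pool.Agent.Lib.ECM
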